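import Mathlib
import Pool.Agent.Work.MP_122e00_nt.LSAdd
import Pool.Agent.Work.MP_122e00_nt.Bd.B02

/-! Bundle of small proof modules (one section per former module). -/

section

/-!
MP_8e4d29_nt: basic definitions and elementary lemmas.
-/

namespace Pool.Agent.Work.MP_8e4d29_nt

open Finset
open Pool.Agent.Work.MP_122e00_nt (ee norm_ee ee_add ee_neg ee_one_period ee_nat_mul norm_ee_sub_one
  geom_bound)

/-- distance to the nearest integer -/
noncomputable def nd (x : ℝ) : ℝ := |x - round x|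

/-- `min X (1 / (2 ‖x‖))`, with the value `X` when `x` is an integer (for `X ≥ 0`) -/
noncomputable def gm (X x : ℝ) : ℝ := if 2 * X * nd x ≤ 1 then X else 1 / (2 * nd x)

/-- sum of the base `b` digits of `n` at the positions `lo ≤ i < hi` -/
def ds (b lo hi n : ℕ) : ℕ := ∑ i ∈ Finset.Ico lo hi, n / b ^ i % b

/-- `s_2(n) - s_3(n)` -/
def Dd (n : ℕ) : ℤ := ((Nat.digits 2 n).sum : ℤ) - ((Nat.digits 3 n).sum : ℤ)

/-- number of divisors, as a real number -/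
noncomputable def tau (n : ℕ) : ℝ := (n.divisors.card : ℝ)

/-- `e(θ (s_2(n) - s_3(n)))` -/
noncomputable def ff (θ : ℝ) (n : ℕ) : ℂ := ee (θ * (Dd n : ℝ))

theorem nd_nonneg (x : ℝ) : 0 ≤ nd x := abs_nonneg _

theorem nd_le_half (x : ℝ) : nd x ≤ 1 / 2 := abs_sub_round x

theorem nd_le_abs_sub_int (x : ℝ) (k : ℤ) : nd x ≤ |x - k| := round_le x k

theorem nd_le_abs (x : ℝ) : nd x ≤ |x| := by simpa using nd_le_abs_sub_int x 0

theorem exists_int_nd (x : ℝ) : ∃ k : ℤ, nd x = |x - k| := ⟨round x, rfl⟩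

theorem nd_add_int (x : ℝ) (k : ℤ) : nd (x + k) = nd x := by
  unfold nd
  rw [round_add_intCast]
  congr 1
  push_cast
  ring

theorem nd_sub_int (x : ℝ) (k : ℤ) : nd (x - k) = nd x := by
  have := nd_add_int x (-k)
  rwa [Int.cast_neg, ← sub_eq_add_neg] at this

theorem nd_int (k : ℤ) : nd (k : ℝ) = 0 := by
  unfold nd
  rw [round_intCast, sub_self, abs_zero]

theorem nd_zero : nd 0 = 0 := by simpa using nd_int 0

theorem nd_neg (x : ℝ) : nd (-x) = nd x := by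
  apply le_antisymm
  · have h := nd_le_abs_sub_int (-x) (-(round x))
    refine h.trans (le_of_eq ?_)
    unfold nd
    rw [← abs_neg]
    congr 1
    push_cast
    ring
  · have h := nd_le_abs_sub_int x (-(round (-x)))
    refine h.trans (le_of_eq ?_)
    unfold nd
    rw [← abs_neg]
    congr 1
    push_cast
    ring

theorem nd_eq_abs {x : ℝ} (h : |x| ≤ 1 / 2) : nd x = |x| := by
  apply le_antisymm (nd_le_abs x)
  obtain ⟨k, hk⟩ := exists_int_nd x
  rw [hk]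
  rcases eq_or_ne k 0 with h0 | h0
  · subst h0; simp
  · have h1 : (1 : ℝ) ≤ |(k : ℝ)| := by
      have : (1 : ℤ) ≤ |k| := Int.one_le_abs h0
      have h2 : ((1 : ℤ) : ℝ) ≤ ((|k| : ℤ) : ℝ) := by exact_mod_cast this
      simpa using h2
    have h2 : |(k : ℝ)| ≤ |x - k| + |x| := by
      have := abs_sub_abs_le_abs_sub (k : ℝ) x
      rw [abs_sub_comm] at this
      linarith
    linarith

theorem nd_add_le (x y : ℝ) : nd (x + y) ≤ nd x + nd y := by
  obtain ⟨k, hk⟩ := exists_int_nd x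
  obtain ⟨l, hl⟩ := exists_int_nd y
  have h := nd_le_abs_sub_int (x + y) (k + l)
  rw [hk, hl]
  refine h.trans ?_
  have : x + y - ((k + l : ℤ) : ℝ) = (x - k) + (y - l) := by push_cast; ring
  rw [this]
  exact abs_add_le _ _

theorem nd_sub_le (x y : ℝ) : nd (x - y) ≤ nd x + nd y := by
  have := nd_add_le x (-y)
  rwa [nd_neg, ← sub_eq_add_neg] at this

theorem nd_nat_mul_le (k : ℕ) (x : ℝ) : nd (k * x) ≤ k * nd x := by
  induction k with
  | zero => simp [nd_zero]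
  | succ n ih =>
    have h := nd_add_le (n * x) x
    have e : ((n + 1 : ℕ) : ℝ) * x = n * x + x := by push_cast; ring
    rw [e]
    push_cast
    linarith

theorem nd_int_mul_le (k : ℤ) (x : ℝ) : nd (k * x) ≤ |(k : ℝ)| * nd x := by
  rcases le_total 0 k with h | h
  · obtain ⟨n, rfl⟩ := Int.eq_ofNat_of_zero_le h
    simpa using nd_nat_mul_le n x
  · obtain ⟨n, hn⟩ := Int.eq_ofNat_of_zero_le (neg_nonneg.mpr h)
    have hk : k = -(n : ℤ) := by omega
    subst hk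
    have h1 := nd_nat_mul_le n x
    have e : ((-(n : ℤ) : ℤ) : ℝ) * x = -((n : ℝ) * x) := by push_cast; ring
    rw [e, nd_neg]
    simpa using h1

theorem ee_zero : ee 0 = 1 := by
  unfold ee
  simp

theorem ee_sub (x y : ℝ) : ee (x - y) = ee x * (starRingEnd ℂ) (ee y) := by
  rw [sub_eq_add_neg, ee_add, ee_neg]

theorem ee_int (k : ℤ) : ee (k : ℝ) = 1 := by
  have := ee_one_period 0 k
  rwa [zero_add, ee_zero] at this

theorem ee_mul_conj (x : ℝ) : ee x * (starRingEnd ℂ) (ee x) = 1 := by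
  rw [← ee_sub, sub_self, ee_zero]

theorem ee_sum {ι : Type*} (s : Finset ι) (f : ι → ℝ) : ee (∑ i ∈ s, f i) = ∏ i ∈ s, ee (f i) := by
  classical
  induction s using Finset.induction_on with
  | empty => simp [ee_zero]
  | insert a s ha ih => rw [Finset.sum_insert ha, Finset.prod_insert ha, ee_add, ih]

theorem norm_ee_sub_one_le (x : ℝ) : ‖ee x - 1‖ ≤ 2 * Real.pi * nd x := by
  obtain ⟨k, hk⟩ := exists_int_nd x
  have h1 : ee x = ee (x - k) := by
    have := ee_one_period (x - k) k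
    rw [sub_add_cancel] at this
    exact this
  rw [h1, norm_ee_sub_one, hk]
  have h2 : |Real.sin (Real.pi * (x - k))| ≤ |Real.pi * (x - k)| := Real.abs_sin_le_abs
  rw [abs_mul, abs_of_pos Real.pi_pos] at h2
  linarith

theorem norm_ee_sub_one_ge (x : ℝ) : 4 * nd x ≤ ‖ee x - 1‖ := by
  obtain ⟨k, hk⟩ := exists_int_nd x
  have h1 : ee x = ee (x - k) := by
    have := ee_one_period (x - k) k
    rw [sub_add_cancel] at this
    exact this
  have hh : |x - k| ≤ 1 / 2 := hk ▸ nd_le_half x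
  rw [h1, norm_ee_sub_one, hk]
  have h2 : 2 * |x - k| ≤ |Real.sin (Real.pi * (x - k))| := by
    rcases le_total 0 (x - k) with h | h
    · rw [abs_of_nonneg h] at hh ⊢
      have h3 := Real.mul_le_sin (x := Real.pi * (x - k)) (by positivity)
        (by nlinarith [Real.pi_pos])
      have e : 2 / Real.pi * (Real.pi * (x - k)) = 2 * (x - k) := by field_simp
      rw [e] at h3
      exact h3.trans (le_abs_self _)
    · rw [abs_of_nonpos h] at hh ⊢
      have h3 := Real.mul_le_sin (x := Real.pi * (-(x - k)))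
        (mul_nonneg Real.pi_pos.le (by linarith)) (by nlinarith [Real.pi_pos])
      have e : 2 / Real.pi * (Real.pi * (-(x - k))) = 2 * (-(x - k)) := by field_simp
      rw [e] at h3
      have e2 : Real.sin (Real.pi * (-(x - k))) = -Real.sin (Real.pi * (x - k)) := by
        rw [mul_neg, Real.sin_neg]
      rw [e2] at h3
      exact h3.trans (neg_le_abs _)
  linarith

theorem gm_nonneg {X : ℝ} (hX : 0 ≤ X) (x : ℝ) : 0 ≤ gm X x := by
  unfold gm
  split_ifs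
  · exact hX
  · exact div_nonneg zero_le_one (mul_nonneg zero_le_two (nd_nonneg x))

theorem gm_le (X x : ℝ) : gm X x ≤ X := by
  unfold gm
  split_ifs with h
  · exact le_rfl
  · push Not at h
    have hn : 0 < nd x := by
      rcases (nd_nonneg x).lt_or_eq with h1 | h1
      · exact h1
      · rw [← h1] at h; norm_num at h
    rw [div_le_iff₀ (by positivity)]
    nlinarith

theorem gm_le_inv {X x : ℝ} (hn : 0 < nd x) : gm X x ≤ 1 / (2 * nd x) := by
  unfold gm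
  split_ifs with h
  · rw [le_div_iff₀ (by positivity)]
    nlinarith
  · exact le_rfl

/-- a lower bound criterion: anything below both `X` and `1/(2‖x‖)` is below `gm X x` -/
theorem le_gm {X x a : ℝ} (h1 : a ≤ X) (h2 : 0 < nd x → a ≤ 1 / (2 * nd x)) : a ≤ gm X x := by
  unfold gm
  split_ifs with h
  · exact h1
  · apply h2
    rcases (nd_nonneg x).lt_or_eq with h3 | h3
    · exact h3
    · rw [← h3] at h; norm_num at h

theorem gm_neg (X x : ℝ) : gm X (-x) = gm X x := by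
  unfold gm
  rw [nd_neg]

theorem gm_add_int (X x : ℝ) (k : ℤ) : gm X (x + k) = gm X x := by
  unfold gm
  rw [nd_add_int]

/-- the geometric sum bound -/
theorem norm_geom_le (x c : ℝ) (N : ℕ) :
    ‖∑ n ∈ Finset.range N, ee (n * x + c)‖ ≤ gm N x := by
  apply le_gm
  · refine (norm_sum_le _ _).trans ?_
    simp [norm_ee]
  · intro hn
    have h1 : ∑ n ∈ Finset.range N, ee (n * x + c) = (∑ n ∈ Finset.range N, ee x ^ n) * ee c := by
      rw [Finset.sum_mul]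
      apply Finset.sum_congr rfl
      intro n _
      rw [ee_add, ee_nat_mul]
    have hne : ee x ≠ 1 := by
      intro h
      have := norm_ee_sub_one_ge x
      rw [h, sub_self, norm_zero] at this
      linarith
    rw [h1, geom_sum_eq hne, norm_mul, norm_ee, mul_one, norm_div]
    have hnum : ‖ee x ^ N - 1‖ ≤ 2 := by
      calc ‖ee x ^ N - 1‖ ≤ ‖ee x ^ N‖ + ‖(1 : ℂ)‖ := norm_sub_le _ _
        _ = 2 := by rw [norm_pow, norm_ee, one_pow, norm_one]; norm_num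
    have hden := norm_ee_sub_one_ge x
    rw [div_le_div_iff₀ (by linarith) (by positivity)]
    nlinarith

/-- the geometric sum over an interval -/
theorem norm_geom_Ico_le (x c : ℝ) (a b : ℕ) :
    ‖∑ n ∈ Finset.Ico a b, ee (n * x + c)‖ ≤ gm ((b - a : ℕ) : ℝ) x := by
  rw [Finset.sum_Ico_eq_sum_range]
  have h := norm_geom_le x (a * x + c) (b - a)
  refine le_trans (le_of_eq ?_) h
  congr 1
  apply Finset.sum_congr rfl
  intro n _
  congr 1
  push_cast
  ring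

/-! ### digit sums -/

theorem ds_zero_right (b lo n : ℕ) : ds b lo lo n = 0 := by
  unfold ds
  simp

theorem ds_add (b : ℕ) {lo mid hi : ℕ} (h1 : lo ≤ mid) (h2 : mid ≤ hi) (n : ℕ) :
    ds b lo hi n = ds b lo mid n + ds b mid hi n := by
  unfold ds
  rw [Finset.sum_Ico_consecutive _ h1 h2]

theorem ds_le (b lo hi n : ℕ) (hb : 0 < b) : ds b lo hi n ≤ (hi - lo) * (b - 1) := by
  unfold ds
  refine (Finset.sum_le_card_nsmul _ _ (b - 1) ?_).trans ?_
  · intro i _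
    exact Nat.le_sub_one_of_lt (Nat.mod_lt _ hb)
  · simp

/-- the digit at position `i` only depends on `n` modulo `b ^ (i+1)` -/
theorem digit_mod (b i n : ℕ) : n % b ^ (i + 1) / b ^ i = n / b ^ i % b := by
  rw [pow_succ]
  exact Nat.mod_mul_right_div_self n (b ^ i) b

theorem digit_congr {b i n n' : ℕ} (h : n % b ^ (i + 1) = n' % b ^ (i + 1)) :
    n / b ^ i % b = n' / b ^ i % b := by
  rw [← digit_mod, ← digit_mod, h]

theorem ds_congr_mod {b lo hi n n' : ℕ} (h : n % b ^ hi = n' % b ^ hi) :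
    ds b lo hi n = ds b lo hi n' := by
  unfold ds
  apply Finset.sum_congr rfl
  intro i hi'
  rw [Finset.mem_Ico] at hi'
  apply digit_congr
  have hd : b ^ (i + 1) ∣ b ^ hi := pow_dvd_pow b hi'.2
  rw [← Nat.mod_mod_of_dvd n hd, ← Nat.mod_mod_of_dvd n' hd, h]

theorem ds_mod (b lo hi n : ℕ) : ds b lo hi (n % b ^ hi) = ds b lo hi n := by
  apply ds_congr_mod
  exact Nat.mod_mod _ _

theorem ds_add_mul (b lo hi n k : ℕ) : ds b lo hi (n + k * b ^ hi) = ds b lo hi n := by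
  apply ds_congr_mod
  exact Nat.add_mul_mod_self_right _ _ _

theorem ds_add_period (b lo hi n : ℕ) : ds b lo hi (n + b ^ hi) = ds b lo hi n := by
  simpa using ds_add_mul b lo hi n 1

/-- the digits from position `lo` on only depend on `n / b ^ lo` -/
theorem ds_congr_div {b lo hi n n' : ℕ} (h : n / b ^ lo = n' / b ^ lo) :
    ds b lo hi n = ds b lo hi n' := by
  unfold ds
  apply Finset.sum_congr rfl
  intro i hi'
  rw [Finset.mem_Ico] at hi'
  have e : b ^ i = b ^ lo * b ^ (i - lo) := by rw [← pow_add]; congr 1; omega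
  rw [e, ← Nat.div_div_eq_div_mul, ← Nat.div_div_eq_div_mul, h]

theorem ds_shift (b lo hi n : ℕ) : ds b lo hi n = ds b 0 (hi - lo) (n / b ^ lo) := by
  unfold ds
  rw [Finset.sum_Ico_eq_sum_range, Finset.range_eq_Ico]
  apply Finset.sum_congr (by simp)
  intro i _
  rw [Nat.div_div_eq_div_mul, ← pow_add]

theorem ds_eq_zero_of_lt {b lo hi n : ℕ} (h : n < b ^ lo) : ds b lo hi n = 0 := by
  rw [ds_congr_div (n' := 0) (by rw [Nat.div_eq_of_lt h, Nat.zero_div])]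
  unfold ds
  simp

/-- the sum of the digits is `ds b 0 k n` as soon as `n < b ^ k` -/
theorem digits_sum_eq_ds {b : ℕ} (hb : 2 ≤ b) : ∀ (k n : ℕ), n < b ^ k →
    (Nat.digits b n).sum = ds b 0 k n := by
  intro k
  induction k with
  | zero =>
    intro n hn
    rw [pow_zero, Nat.lt_one_iff] at hn
    subst hn
    simp [ds]
  | succ k ih =>
    intro n hn
    rcases Nat.eq_zero_or_pos n with h0 | h0
    · subst h0
      simp [ds]
    · rw [Nat.digits_def' (by omega) h0, List.sum_cons]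
      have h1 : n / b < b ^ k := by
        rw [Nat.div_lt_iff_lt_mul (by omega), ← pow_succ]
        exact hn
      rw [ih _ h1, ds_add b (Nat.zero_le 1) (by omega : 1 ≤ k + 1) n, ds_shift b 1 (k + 1) n]
      simp [ds]

theorem Dd_eq {n k l : ℕ} (h2 : n < 2 ^ k) (h3 : n < 3 ^ l) :
    Dd n = (ds 2 0 k n : ℤ) - (ds 3 0 l n : ℤ) := by
  unfold Dd
  rw [digits_sum_eq_ds le_rfl k n h2, digits_sum_eq_ds (by norm_num) l n h3]

end Pool.Agent.Work.MP_8e4d29_nt

end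

section

/-!
MP_8e4d29_nt: statements, part 1 (elementary tools, arithmetic tools).
See BLUEPRINT.md for the proofs on paper.
-/

namespace Pool.Agent.Work.MP_8e4d29_nt

open Finset
open Pool.Agent.Work.MP_122e00_nt (ee)

/-- A1. van der Corput's inequality, classical form -/
def ClaimVdC0 : Prop := ∀ (z : ℕ → ℂ) (a L R : ℕ), 1 ≤ R → (∀ n, z n ≠ 0 → a ≤ n ∧ n < a + L) →
  (R : ℝ) ^ 2 * ‖∑ n ∈ Ico a (a + L), z n‖ ^ 2 ≤
    ((L : ℝ) + R) * (R * ∑ n ∈ Ico a (a + L), ‖z n‖ ^ 2 +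
      2 * ∑ r ∈ Ico 1 R, ((R : ℝ) - r) *
        (∑ n ∈ Ico a (a + L), z (n + r) * (starRingEnd ℂ) (z n)).re)

/-- A2. van der Corput's inequality for an arbitrary set of shifts -/
def ClaimVdC : Prop := ∀ (φ : ℕ → ℂ) (a L T : ℕ) (S : Finset ℕ),
  (∀ m, φ m ≠ 0 → a ≤ m ∧ m < a + L) → (∀ t ∈ S, t < T) →
  (S.card : ℝ) ^ 2 * ‖∑ m ∈ Ico a (a + L), φ m‖ ^ 2 ≤
    ((L : ℝ) + T) * ∑ t ∈ S, ∑ t' ∈ S,
      ‖∑ m ∈ Ico a (a + L), φ m * (starRingEnd ℂ) (φ (m + Nat.dist t t'))‖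

/-- the product of `φ` over a three-dimensional cube, with conjugations -/
noncomputable def cub3 (φ : ℕ → ℂ) (h1 h2 h3 m : ℕ) : ℂ :=
  φ m * (starRingEnd ℂ) (φ (m + h1)) * (starRingEnd ℂ) (φ (m + h2)) * φ (m + h1 + h2) *
    ((starRingEnd ℂ) (φ (m + h3)) * φ (m + h1 + h3) * φ (m + h2 + h3) *
      (starRingEnd ℂ) (φ (m + h1 + h2 + h3)))

/-- A3. three differencing steps -/
def ClaimDiff3 : Prop := ∀ (φ : ℕ → ℂ) (a L : ℕ) (S1 S2 S3 : Finset ℕ),
  (∀ m, φ m ≠ 0 → a ≤ m ∧ m < a + L) →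
  (∀ t ∈ S1, t < L) → (∀ t ∈ S2, t < L) → (∀ t ∈ S3, t < L) →
  ‖∑ m ∈ Ico a (a + L), φ m‖ ^ 8 * ((S1.card : ℝ) * S2.card * S3.card) ^ 2 ≤
    128 * (L : ℝ) ^ 7 * ∑ t1 ∈ S1, ∑ t1' ∈ S1, ∑ t2 ∈ S2, ∑ t2' ∈ S2, ∑ t3 ∈ S3, ∑ t3' ∈ S3,
      ‖∑ m ∈ Ico a (a + L), cub3 φ (Nat.dist t1 t1') (Nat.dist t2 t2') (Nat.dist t3 t3') m‖

/-- A4. equidistribution of a linear sequence for functions of small total variation -/
def ClaimEQ : Prop := ∀ (Nm A W X0 : ℕ) (Φ : ℕ → ℂ) (V : ℝ), 1 ≤ Nm → 1 ≤ W → 1 ≤ X0 →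
  (∀ x, Φ (x + Nm) = Φ x) → (∀ x, ‖Φ x‖ ≤ 1) →
  (∑ x ∈ range Nm, ‖Φ (x + 1) - Φ x‖ ≤ V) →
  (∀ w : ℕ, 1 ≤ w → w ≤ W → 1 / (X0 : ℝ) < nd ((w : ℝ) * A / Nm)) →
  ∀ β len : ℕ, ‖∑ z ∈ range len, Φ (z * A + β) - ((len : ℝ) / Nm : ℝ) * ∑ x ∈ range Nm, Φ x‖ ≤
    7 * V * len / W + 2 * X0

/-- A5. counting with the Fejer majorant, one condition -/
def ClaimFejer1 : Prop := ∀ (X Z : ℕ) (ξ γ : ℝ), 1 ≤ Z →
  (((range X).filter (fun t : ℕ => nd (t * ξ - γ) ≤ 1 / (2 * Z))).card : ℝ) ≤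
    3 / Z * (X + 2 * ∑ h ∈ Ico 1 Z, gm X (h * ξ))

/-- A6. counting with the Fejer majorant, two conditions -/
def ClaimFejer2 : Prop := ∀ (X Z Z' : ℕ) (ξ γ ξ' γ' : ℝ), 1 ≤ Z → 1 ≤ Z' →
  (((range X).filter (fun t : ℕ => nd (t * ξ - γ) ≤ 1 / (2 * Z) ∧
      nd (t * ξ' - γ') ≤ 1 / (2 * Z'))).card : ℝ) ≤
    9 / (Z * Z') * (X + ∑ h ∈ Ioo (-(Z : ℤ)) Z, ∑ h' ∈ Ioo (-(Z' : ℤ)) Z',
      if h = 0 ∧ h' = 0 then 0 else gm X (h * ξ + h' * ξ'))

/-- A7. `∑_{P < n ≤ 2P} min (X, 1/(2‖n ξ‖))` for small `ξ` -/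
def ClaimW : Prop := ∀ (P : ℕ) (X ξ : ℝ), 1 ≤ P → 1 ≤ X → 0 < ξ → ξ ≤ 1 / 2 →
  ∑ n ∈ Ioc P (2 * P), gm X (n * ξ) ≤
    1 / (2 * ξ) + 20 * (P * ξ * X + P * (1 + Real.log (1 / ξ)))

/-- A8. number of `P < n ≤ 2P` with `‖n ξ‖ ≤ η`, for small `ξ` -/
def ClaimWcount : Prop := ∀ (P : ℕ) (ξ η : ℝ), 1 ≤ P → 0 < ξ → ξ ≤ 1 / 2 → 0 ≤ η → η < P * ξ →
  (((Ioc P (2 * P)).filter (fun n : ℕ => nd (n * ξ) ≤ η)).card : ℝ) ≤ 18 * (P * η + P * ξ)

/-- A9. `∑_{r < R} min (X, 1/(2‖r α‖))` for `α` close to `a/q` -/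
def ClaimSumGM : Prop := ∀ (α : ℝ) (q : ℕ) (a : ℤ) (R : ℕ) (X : ℝ), 1 ≤ q → 0 ≤ X →
  IsCoprime a (q : ℤ) → |α - a / q| ≤ 1 / (q : ℝ) ^ 2 →
  ∑ r ∈ range R, gm X (r * α) ≤ 8 * ((R : ℝ) / q + 1) * (X + q * (1 + Real.log q))

/-- A10. moments of the divisor function -/
def ClaimTau : Prop := ∀ k : ℕ, ∃ C : ℕ, ∀ x : ℕ, 1 ≤ x →
  ∑ n ∈ Icc 1 x, tau n ^ k ≤ x * (2 + Real.log x) ^ C

/-- B1. Vaughan's identity as a criterion: type I and type II bounds imply a bound for the sum over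
primes -/
def ClaimVaughan : Prop := ∃ C : ℝ, 0 < C ∧ ∀ (N A B U : ℕ) (F : ℕ → ℂ) (T : ℕ → ℝ) (δ : ℝ),
  1 ≤ U → U ^ 3 ≤ N → 2 ≤ N → N ≤ A → A ≤ B → B ≤ 32 * N → (∀ m, 0 ≤ T m) → 0 ≤ δ →
  (∀ m A' B' : ℕ, 1 ≤ m → m ≤ U → A ≤ A' → A' ≤ B' → B' ≤ B →
    ‖∑ n ∈ Ioc (A' / m) (B' / m), F (m * n)‖ ≤ T m) →
  (∀ M P : ℕ, U ≤ 2 * P → P ≤ M → M * P ≤ 32 * N → N ≤ 4 * (M * P) →
    ∀ a b : ℕ → ℂ, (∀ m, ‖a m‖ ≤ tau m) → (∀ n, ‖b n‖ ≤ tau n) →
    ‖∑ m ∈ Ioc M (2 * M), ∑ n ∈ Ioc P (2 * P),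
      if A < m * n ∧ m * n ≤ B then a m * b n * F (m * n) else 0‖ ≤ δ) →
  ‖∑ n ∈ Ioc A B, (ArithmeticFunction.vonMangoldt n : ℂ) * F n‖ ≤
    C * Real.log (4 * N) ^ 3 * (∑ m ∈ Icc 1 U, T m + δ)

/-- B2. Brun-Titchmarsh type upper bound, for moduli that are powers of 2 or of 3 -/
def ClaimBT : Prop := ∃ (C : ℝ) (N0 : ℕ), 0 < C ∧ ∀ (N x h q r e : ℕ), N0 ≤ N → N ≤ x →
  x + h ≤ 32 * N → (N : ℝ) ^ ((52 : ℝ) / 100) ≤ h → (q = 2 ^ e ∨ q = 3 ^ e) →
  (q : ℝ) ≤ (N : ℝ) ^ ((1 : ℝ) / 100) → Nat.Coprime r q →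
  ∑ n ∈ (Ioc x (x + h)).filter (fun n => n % q = r % q), ArithmeticFunction.vonMangoldt n ≤
    C * h / q

/-- B3. Chebyshev in an interval -/
def ClaimCheb : Prop := ∃ x0 : ℕ, ∀ x : ℕ, x0 ≤ x →
  (4 / 10 : ℝ) * x ≤ ∑ n ∈ (Icc (11 * x / 10 + 1) (29 * x / 10)).filter Nat.Prime, Real.log n

end Pool.Agent.Work.MP_8e4d29_nt

end

section

/-!
MP_8e4d29_nt: parameters for the type II sums.
`R = 2^(10 g)` is a very small power of `N`, `R1 = R^a` (`a = 5` or `12`) is the range of the first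
differencing variable `r`.
-/

namespace Pool.Agent.Work.MP_8e4d29_nt

open Finset
open Pool.Agent.Work.MP_122e00_nt (ee)

/-- `R` -/
def RR (g : ℕ) : ℕ := 2 ^ (10 * g)

/-- bound for the number of `m` -/
def Lm (H P : ℕ) : ℕ := H / P + 1

/-- `κ` -/
def kap (H P g : ℕ) : ℕ := Nat.log 2 (Lm H P / RR g ^ 6)

/-- `κ'` -/
def kap3 (H P g : ℕ) : ℕ := Nat.log 3 (Lm H P / RR g ^ 6)

/-- `λ = 5 * ell` -/
def ell (M g a : ℕ) : ℕ := Nat.log 2 (8 * M * RR g ^ a * RR g) / 5 + 1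

/-- `λ'` -/
def lam3 (M g a : ℕ) : ℕ := Nat.log 3 (8 * M * RR g ^ a * RR g) + 1

/-- the digit groups used for the saving are `i0, i0 + 1, ..., i0 + 2 g - 1` (five bits each) -/
def i0 (N P g a : ℕ) : ℕ := Nat.log 2 (N / P * RR g ^ a / RR g ^ 3) / 5

/-- range of the shifts `t` -/
def L2 (H P g a : ℕ) : ℕ := Lm H P / (RR g ^ 8 * RR g ^ a)

/-- length of the arc for `t n mod 3^λ'` -/
def eta (H P g : ℕ) : ℕ := 3 ^ kap3 H P g / RR g

/-- length of the pieces in the `m` sum -/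
def Lp (H P g a : ℕ) : ℕ := 2 ^ kap H P g / (RR g * RR g ^ a)

/-- inverse of the density of the `t` -/
def Z3 (H M P g a : ℕ) : ℕ := 3 ^ lam3 M g a / (2 * eta H P g)

/-- the hypotheses on the parameters of a type II sum -/
structure Par (N A H M P g a : ℕ) : Prop where
  hg : 2 ≤ g
  ha : a = 5 ∨ a = 12
  hP : 1 ≤ P
  hPM : P ≤ M
  hMP : M * P ≤ 4 * N
  hMP' : N ≤ 4 * (M * P)
  hA : N ≤ A
  hAH : A + H ≤ 4 * N
  big : RR g ^ 100 * N ≤ H * P
  gap : RR g ^ 100 * H ≤ N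
  mid : N ^ 3 * RR g ^ 200 ≤ H ^ 4
  hlog : Nat.log 2 N + 10 ≤ RR g
  hdiv : ∀ x : ℕ, x ≤ 8 * N → x.divisors.card ^ 2 ≤ RR g

/-- the set of the `m` of the inner sum, for given `n` and `r` -/
def Msupp (A H M n r m : ℕ) : Prop := M < m ∧ m ≤ 2 * M ∧ A < m * n ∧ m * (n + r) ≤ A + H

instance (A H M n r m : ℕ) : Decidable (Msupp A H M n r m) := by
  unfold Msupp; infer_instance

/-- the inner function -/
noncomputable def phi (θ : ℝ) (A H M n r m : ℕ) : ℂ :=
  if Msupp A H M n r m then ff θ (m * (n + r)) * (starRingEnd ℂ) (ff θ (m * n)) else 0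

/-- exceptional `x` -/
def Exc (H M P g a x : ℕ) : Prop :=
  2 ^ (5 * ell M g a) ≤ x % 2 ^ (5 * ell M g a) + 2 * M * RR g ^ a ∨
  3 ^ lam3 M g a ≤ x % 3 ^ lam3 M g a + 2 * M * RR g ^ a ∨
  x % 3 ^ kap3 H P g < eta H P g + L2 H P g a * RR g ^ a ∨
  3 ^ kap3 H P g ≤ x % 3 ^ kap3 H P g + (eta H P g + L2 H P g a * RR g ^ a) ∨
  x % 2 ^ kap H P g < Lp H P g a * RR g ^ a

instance (H M P g a x : ℕ) : Decidable (Exc H M P g a x) := by
  unfold Exc; infer_instance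

/-- number of `m` with `m n` exceptional, for one `n` -/
def exn (A H M P g a n : ℕ) : ℕ :=
  ((Ioc M (2 * M)).filter (fun m => A < m * n ∧ m * n ≤ A + H ∧ Exc H M P g a (m * n))).card

/-- the points of the four-dimensional cube: `(m + ε₁h₁ + ε₂h₂ + ε₃h₃)(n + ε₀ r)` -/
def pt (h1 h2 h3 n r m : ℕ) (ε : Fin 4 → Fin 2) : ℕ :=
  (m + ε 1 * h1 + ε 2 * h2 + ε 3 * h3) * (n + ε 0 * r)

/-- the shifts of the cube for a base point `m₀`: `ε₀ m₀ r + (ε₁h₁ + ε₂h₂ + ε₃h₃)(n + ε₀ r)` -/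
def sh (h1 h2 h3 n r m0 : ℕ) (ε : Fin 4 → Fin 2) : ℕ :=
  ε 0 * (m0 * r) + (ε 1 * h1 + ε 2 * h2 + ε 3 * h3) * (n + ε 0 * r)

/-- `|ε|` -/
def wt (ε : Fin 4 → Fin 2) : ℕ := ∑ i, (ε i : ℕ)

/-- the alternating sum of the digit sums over the cube, with the digits in `[k, 5 l)` -/
noncomputable def alt (k l : ℕ) (x : (Fin 4 → Fin 2) → ℕ) : ℝ :=
  ∑ ε : Fin 4 → Fin 2, (-1 : ℝ) ^ wt ε * (ds 2 k (5 * l) (x ε) : ℝ)

/-- the saving for one good group -/
noncomputable def kth (θ : ℝ) : ℝ := 1 - (1 - |Real.cos (Real.pi * θ)|) / 16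

/-- the cell of `x` : its bits in the positions `[5 i₀, 5 i₀ + 10 g)` -/
def cell (i g x : ℕ) : ℕ := x / 2 ^ (5 * i) % RR g

/-- number of good pairs of groups of four cells -/
def gp (g : ℕ) (c : Fin 4 → ℕ) : ℕ :=
  ((range g).filter (fun j => ∀ k, c k / 1024 ^ j % 1024 = 64)).card

/-- the sums E1 and E3 that measure how good `n` is -/
noncomputable def E1 (N P g a q n : ℕ) : ℝ :=
  ∑ h ∈ Ico 1 (RR g), gm ((RR g : ℝ) ^ 4) ((n : ℝ) * ((h : ℝ) * q / 2 ^ (5 * (i0 N P g a + 2 * g))))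

noncomputable def E3 (N H M P g a n : ℕ) : ℝ :=
  ∑ h ∈ Ioo (-(RR g : ℤ)) (RR g : ℤ), ∑ h' ∈ Ioo (-(Z3 H M P g a : ℤ)) (Z3 H M P g a : ℤ),
    if h = 0 ∧ h' = 0 then 0 else
      gm (L2 H P g a) ((n : ℝ) * ((h : ℝ) / 2 ^ (5 * (i0 N P g a + 2 * g)) +
        (h' : ℝ) / 3 ^ lam3 M g a))

/-- a good `n` -/
structure Good (N H M P g a n : ℕ) : Prop where
  e1 : E1 N P g a (2 ^ kap H P g) n ≤ (RR g : ℝ) ^ 4
  e2 : E1 N P g a (3 ^ kap3 H P g) n ≤ (RR g : ℝ) ^ 4
  e3 : E3 N H M P g a n ≤ L2 H P g a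
  eq : ∀ w : ℕ, 1 ≤ w → w ≤ 2 ^ (5 * ell M g a - kap H P g) * RR g ^ 2 →
    1 / ((Lp H P g a / RR g : ℕ) : ℝ) < nd ((w : ℝ) * n / 2 ^ (5 * ell M g a))

/-- no small coincidence between `3^λ'` and `2^λ₁` -/
def AlphaGood (N M P g a : ℕ) : Prop := ∀ h : ℕ, 1 ≤ h → h < RR g →
  1 / (RR g : ℝ) ^ 10 ≤ nd ((h : ℝ) * 3 ^ lam3 M g a / 2 ^ (5 * (i0 N P g a + 2 * g)))

end Pool.Agent.Work.MP_8e4d29_nt

end

section

/-!
MP_8e4d29_nt: parameters for the major arcs and the final argument; everything depends on `L` only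
(`N = 3 ^ L`).
-/

namespace Pool.Agent.Work.MP_8e4d29_nt

open Finset
open Pool.Agent.Work.MP_122e00_nt (ee)

/-- `K`, number of binary digits -/
def pK (L : ℕ) : ℕ := Nat.log 2 (3 ^ L)

/-- `log_2 K` -/
def pk (L : ℕ) : ℕ := Nat.log 2 (pK L)

def py0 (L : ℕ) : ℕ := L / 100

def pg0 (L : ℕ) : ℕ := L / 30000

/-- the short intervals have length `3 ^ j0` -/
def pj0 (L : ℕ) : ℕ := pK L / 2 - py0 L - 120 * pg0 L

def pjj (L : ℕ) : ℕ := L - py0 L

def pH (L : ℕ) : ℕ := 3 ^ pj0 L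

/-- bits from `k0` on are constant on the short intervals -/
def pk0 (L : ℕ) : ℕ := Nat.log 2 (pH L) + 40 * (pk L + 1)

noncomputable def pqe (L : ℕ) : ℕ := ⌈(pK L : ℝ) ^ ((7 : ℝ) / 8)⌉₊

/-- `Q` -/
noncomputable def pQ (L : ℕ) : ℕ := 2 ^ pqe L

/-- the lowest `al` bits are dropped -/
noncomputable def pal (L : ℕ) : ℕ := ⌈(pK L : ℝ) ^ ((15 : ℝ) / 16)⌉₊

/-- length of the averaging windows -/
noncomputable def pX (L : ℕ) : ℕ := 3 ^ (2 * pj0 L) / (3 ^ L * 2 ^ (2 * pqe L))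

/-- number of blocks -/
noncomputable def pm (L : ℕ) : ℕ := ⌊(pK L : ℝ) ^ ((1 : ℝ) / 4)⌋₊

/-- length of the blocks (bits) -/
noncomputable def pl (L : ℕ) : ℕ := (Nat.log 2 (pX L) - 2 * pal L) / pm L

/-- the blocks use the bits in `[al, b)` -/
noncomputable def pb (L : ℕ) : ℕ := pal L + pm L * pl L

/-- the bits in `[b, b1)` are dropped -/
noncomputable def pb1 (L : ℕ) : ℕ := Nat.log 2 (pX L) + 20 * (pk L + 1)

/-- guard between the trit blocks -/
def pgd (L : ℕ) : ℕ := 10 * (pk L + 1)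

/-- top of the bit block `l` (counted from the top) -/
noncomputable def pBt (L l : ℕ) : ℕ := pb L - l * pl L

/-- top of the trit block `l` -/
noncomputable def pP (L l : ℕ) : ℕ := Nat.log 3 (2 ^ pBt L l)

noncomputable def pal3 (L : ℕ) : ℕ := Nat.log 3 (2 ^ pal L)

noncomputable def pb13 (L : ℕ) : ℕ := Nat.log 3 (2 ^ pb1 L) + 1

/-- facts about the parameters, for large `L` -/
structure SizF (L : ℕ) : Prop where
  z1 : 10 ^ 12 ≤ pK L
  z2 : ((pk L : ℝ) + 1) ≤ (pK L : ℝ) ^ ((1 : ℝ) / 100)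
  z3 : 2 ^ pK L ≤ 3 ^ L
  z3' : 3 ^ L < 2 ^ (pK L + 1)
  z4 : ((3 ^ L : ℕ) : ℝ) ^ ((77 : ℝ) / 100) ≤ pH L
  z5 : (pH L : ℝ) ≤ ((3 ^ L : ℕ) : ℝ) ^ ((79 : ℝ) / 100)
  z6 : pX L * (3 ^ L * 2 ^ (2 * pqe L)) ≤ pH L ^ 2
  z6' : pH L ^ 2 < 2 * (pX L * (3 ^ L * 2 ^ (2 * pqe L)))
  z7 : ((3 ^ L : ℕ) : ℝ) ^ ((55 : ℝ) / 100) ≤ pX L
  z7' : (pX L : ℝ) ≤ ((3 ^ L : ℕ) : ℝ) ^ ((56 : ℝ) / 100)
  z8 : (2 : ℝ) ^ pal L ≤ ((3 ^ L : ℕ) : ℝ) ^ ((1 : ℝ) / 1000)
  z9 : 20 * pl L ≤ pal L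
  z10 : 10 * pqe L ≤ pal L
  z10' : 1 ≤ pqe L
  z11 : 100 * (pk L + 1) ≤ pl L
  z12 : pm L * pl L ≤ Nat.log 2 (pX L) - 2 * pal L
  z12' : Nat.log 2 (pX L) - 2 * pal L < pm L * pl L + pm L
  z13 : 2 * pal L ≤ Nat.log 2 (pX L)
  z14 : pb L + pal L ≤ Nat.log 2 (pX L)
  z14' : Nat.log 2 (pX L) ≤ pb L + 2 * pal L
  z15 : pb L + pal L ≤ pb1 L
  z15' : pb1 L ≤ pb L + 3 * pal L
  z15b : pb1 L + 100 ≤ Nat.log 2 (pH L)
  z16 : pP L 0 < pb13 L
  z16' : pb13 L + 100 ≤ pj0 L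
  z17 : pk0 L ≤ pK L
  z18 : 1 ≤ pm L
  z18' : (pm L : ℝ) ≤ (pK L : ℝ) ^ ((1 : ℝ) / 4)
  z18b : (pK L : ℝ) ^ ((1 : ℝ) / 4) < pm L + 1
  z19 : ((3 ^ L : ℕ) : ℝ) ^ ((54 : ℝ) / 100) ≤ (2 : ℝ) ^ pb L
  z19' : ((3 ^ L : ℕ) : ℝ) ^ ((53 : ℝ) / 100) ≤ (3 : ℝ) ^ pP L 0
  z20 : pK L ≤ 4 * pj0 L
  z20' : pj0 L ≤ L
  z21 : (55 : ℝ) / 100 * pK L ≤ Nat.log 2 (pX L)
  z22 : (pal L : ℝ) ≤ (pK L : ℝ) / 1000

/-- G0 -/
def ClaimSizF : Prop := ∃ L0 : ℕ, ∀ L : ℕ, L0 ≤ L → SizF L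

/-- the Fourier coefficient of `n ↦ e(∑ w_i bit_i(n))` -/
noncomputable def cf2 (k : ℕ) (w : ℕ → ℝ) (ξ : ℕ) : ℂ :=
  ∏ i ∈ range k, (1 + ee (w i - 2 ^ i * (ξ : ℝ) / 2 ^ k)) / 2

/-- the Fourier coefficient of `n ↦ e(∑ w_i trit_i(n))` -/
noncomputable def cf3 (k : ℕ) (w : ℕ → ℝ) (ξ : ℕ) : ℂ :=
  ∏ i ∈ range k, (1 + ee (w i - 3 ^ i * (ξ : ℝ) / 3 ^ k) +
    ee (2 * (w i - 3 ^ i * (ξ : ℝ) / 3 ^ k))) / 3

/-- weighted digit sum -/
noncomputable def wd (b : ℕ) (w : ℕ → ℝ) (k n : ℕ) : ℝ :=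
  ∑ i ∈ range k, w i * ((n / b ^ i % b : ℕ) : ℝ)

/-- characteristic function of the sum of `n2` bits minus the sum of `n3` trits -/
noncomputable def chA (n2 n3 : ℕ) (θ : ℝ) : ℂ :=
  ((1 + ee θ) / 2) ^ n2 * ((1 + ee (-θ) + ee (-(2 * θ))) / 3) ^ n3

/-- good block -/
def GoodBlock (L l : ℕ) : Prop := ∀ w : ℕ, 1 ≤ w → w ≤ 3 * 2 ^ pl L * pK L →
  1 / ((pX L / (2 ^ pBt L l * pK L) : ℕ) : ℝ) < nd ((w : ℝ) * 2 ^ pBt L l / 3 ^ pP L l)

/-- the digit function of the blocks in `G` -/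
noncomputable def Dm (L : ℕ) (G : Finset ℕ) (n : ℕ) : ℤ :=
  ∑ l ∈ G, ((ds 2 (pBt L (l + 1)) (pBt L l) n : ℤ) - ds 3 (pP L (l + 1) + pgd L) (pP L l) n)

/-- the expected value of `s_2 - s_3` on the interval starting at `x` -/
noncomputable def Phi (L x : ℕ) : ℝ :=
  (ds 2 (pk0 L) (pK L + 3) x : ℝ) - ds 3 (pj0 L) (L + 1) x + (pk0 L : ℝ) / 2 - pj0 L

end Pool.Agent.Work.MP_8e4d29_nt

end

section

/-!
MP_8e4d29_nt, item B2: Brun-Titchmarsh type upper bound for moduli that are powers of 2 or of 3,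
by the arithmetic large sieve.
-/

namespace Pool.Agent.Work.MP_8e4d29_nt.BT

open Finset
open Pool.Agent.Work.MP_122e00_nt (ee norm_ee ee_add ee_neg ee_one_period ee_nat_mul farey_ls)

/-- the exponential sum -/
noncomputable def SS (c : ℕ → ℂ) (T : ℕ) (β : ℝ) : ℂ := ∑ n ∈ range T, c n * ee (n * β)

lemma SS_add_int (c : ℕ → ℂ) (T : ℕ) (β : ℝ) (k : ℤ) : SS c T (β + k) = SS c T β := by
  unfold SS
  refine Finset.sum_congr rfl fun n _ => ?_
  have : (n : ℝ) * (β + k) = n * β + ((n * k : ℤ) : ℝ) := by push_cast; ring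
  rw [this, ee_one_period]

lemma ortho (l : ℕ) (hl : 0 < l) (k : ℤ) (hk : ¬ (l : ℤ) ∣ k) :
    ∑ a ∈ range l, ee (a * ((k : ℝ) / l)) = 0 := by
  have hl' : (l : ℝ) ≠ 0 := by positivity
  set ζ := ee ((k : ℝ) / l) with hζ
  have h1 : ∀ a ∈ range l, ee (a * ((k : ℝ) / l)) = ζ ^ a := fun a _ => ee_nat_mul a _
  rw [Finset.sum_congr rfl h1]
  have h2 : ζ ^ l = 1 := by
    rw [hζ, ← ee_nat_mul]
    have : (l : ℝ) * ((k : ℝ) / l) = k := by field_simp
    rw [this, ee_int]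
  have h3 : ζ ≠ 1 := by
    intro h
    have h4 := norm_ee_sub_one_ge ((k : ℝ) / l)
    rw [← hζ, h, sub_self, norm_zero] at h4
    have h5 : nd ((k : ℝ) / l) = 0 := le_antisymm (by linarith) (nd_nonneg _)
    obtain ⟨m, hm⟩ := exists_int_nd ((k : ℝ) / l)
    rw [h5] at hm
    have h6 : (k : ℝ) / l = m := by
      have := abs_eq_zero.1 hm.symm
      linarith
    apply hk
    refine ⟨m, ?_⟩
    have h7 : (k : ℝ) = l * m := by
      rw [← h6]; field_simp
    exact_mod_cast h7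
  have h4 := geom_sum_mul ζ l
  rw [h2, sub_self] at h4
  rcases mul_eq_zero.1 h4 with h | h
  · exact h
  · exact absurd (sub_eq_zero.1 h) h3

lemma prime_step (c : ℕ → ℂ) (T l : ℕ) (hl : 1 < l) (ρ : ℕ) (hρ : ρ < l)
    (hc : ∀ n, n % l = ρ → c n = 0) (β : ℝ) :
    ‖SS c T β‖ ^ 2 ≤ ((l - 1 : ℕ) : ℝ) * ∑ a ∈ Ico 1 l, ‖SS c T ((a : ℝ) / l + β)‖ ^ 2 := by
  have hl0 : 0 < l := by omega
  have hl' : (l : ℝ) ≠ 0 := by positivity
  have key : ∑ a ∈ range l, ee (-((a : ℝ) * ρ / l)) * SS c T ((a : ℝ) / l + β) = 0 := by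
    unfold SS
    simp only [Finset.mul_sum]
    rw [Finset.sum_comm]
    refine Finset.sum_eq_zero fun n _ => ?_
    have h1 : ∀ a ∈ range l, ee (-((a : ℝ) * ρ / l)) * (c n * ee (n * ((a : ℝ) / l + β)))
        = (c n * ee (n * β)) * ee (a * (((n - ρ : ℤ) : ℝ) / l)) := by
      intro a _
      have e1 : (a : ℝ) * (((n - ρ : ℤ) : ℝ) / l) = -((a : ℝ) * ρ / l) + n * ((a : ℝ) / l) := by
        push_cast; field_simp; ring
      have e2 : (n : ℝ) * ((a : ℝ) / l + β) = n * ((a : ℝ) / l) + n * β := by ring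
      rw [e1, e2, ee_add, ee_add]
      ring
    rw [Finset.sum_congr rfl h1, ← Finset.mul_sum]
    by_cases h : (l : ℤ) ∣ (n - ρ : ℤ)
    · have h2 : n % l = ρ := by
        have h3 : (ρ : ℤ) % l = (n : ℤ) % l := (Int.modEq_iff_dvd).2 h
        have h4 : n % l = ρ % l := by exact_mod_cast h3.symm
        rw [h4, Nat.mod_eq_of_lt hρ]
      rw [hc n h2]; simp
    · rw [ortho l hl0 _ h, mul_zero]
  rw [Finset.range_eq_Ico, Finset.sum_eq_sum_Ico_succ_bot hl0] at key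
  have h0 : ee (-(((0 : ℕ) : ℝ) * ρ / l)) * SS c T (((0 : ℕ) : ℝ) / l + β) = SS c T β := by
    simp only [Nat.cast_zero, zero_mul, zero_div, neg_zero, zero_add, ee_zero, one_mul]
  rw [h0] at key
  have h1 : ‖SS c T β‖ ≤ ∑ a ∈ Ico 1 l, ‖SS c T ((a : ℝ) / l + β)‖ := by
    have h2 : SS c T β = -∑ a ∈ Ico (0 + 1) l, ee (-((a : ℝ) * ρ / l)) * SS c T ((a : ℝ) / l + β) := by
      linear_combination key
    rw [h2, norm_neg]
    refine (norm_sum_le _ _).trans (le_of_eq ?_)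
    refine Finset.sum_congr rfl fun a _ => ?_
    rw [norm_mul, norm_ee, one_mul]
  calc ‖SS c T β‖ ^ 2 ≤ (∑ a ∈ Ico 1 l, ‖SS c T ((a : ℝ) / l + β)‖) ^ 2 := by
        gcongr
    _ ≤ ((Ico 1 l).card : ℝ) * ∑ a ∈ Ico 1 l, ‖SS c T ((a : ℝ) / l + β)‖ ^ 2 :=
        sq_sum_le_card_mul_sum_sq
    _ = _ := by rw [Nat.card_Ico]

lemma sqfree_step (c : ℕ → ℂ) (T : ℕ) (P : ℕ → Prop)
    (hP : ∀ l, l.Prime → P l → ∃ ρ < l, ∀ n, n % l = ρ → c n = 0) :
    ∀ d : ℕ, Squarefree d → (∀ l, l.Prime → l ∣ d → P l) → ∀ β : ℝ,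
    ‖SS c T β‖ ^ 2 ≤ (d.totient : ℝ) *
      ∑ a ∈ (range d).filter (fun a => Nat.Coprime a d), ‖SS c T ((a : ℝ) / d + β)‖ ^ 2 := by
  intro d
  induction d using Nat.strong_induction_on with
  | _ d ih =>
    intro hsq hd β
    by_cases hd1 : d = 1
    · subst hd1
      have : (range 1).filter (fun a => Nat.Coprime a 1) = {0} := by decide
      rw [this]
      simp
    have hd0 : d ≠ 0 := hsq.ne_zero
    set l := d.minFac with hl
    have hlp : l.Prime := Nat.minFac_prime hd1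
    obtain ⟨m, hm⟩ : l ∣ d := Nat.minFac_dvd d
    have hm0 : 0 < m := by
      rcases Nat.eq_zero_or_pos m with h | h
      · rw [h, mul_zero] at hm; exact absurd hm hd0
      · exact h
    have hcop : Nat.Coprime l m := by
      rw [hm] at hsq
      exact (Nat.squarefree_mul_iff.1 hsq).1
    have hsqm : Squarefree m := by
      rw [hm] at hsq
      exact (Nat.squarefree_mul_iff.1 hsq).2.2
    have hml : m < d := by
      rw [hm]
      exact lt_mul_of_one_lt_left hm0 hlp.one_lt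
    have hdpos : 0 < d := Nat.pos_of_ne_zero hd0
    obtain ⟨ρ, hρ, hc⟩ := hP l hlp (hd l hlp ⟨m, hm⟩)
    have h1 := ih m hml hsqm (fun p hp hpm => hd p hp (hm ▸ hpm.mul_left l)) β
    have hphi : d.totient = (l - 1) * m.totient := by
      rw [hm, Nat.totient_mul hcop, Nat.totient_prime hlp]
    have hlR : (l : ℝ) ≠ 0 := by exact_mod_cast hlp.pos.ne'
    have hmR : (m : ℝ) ≠ 0 := by exact_mod_cast hm0.ne'
    -- the map
    set φ : ℕ × ℕ → ℕ := fun p => (p.1 * m + p.2 * l) % d with hφ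
    set A := (Ico 1 l) ×ˢ ((range m).filter (fun a => Nat.Coprime a m)) with hA
    have hval : ∀ p ∈ A, ‖SS c T ((p.1 : ℝ) / l + ((p.2 : ℝ) / m + β))‖ ^ 2
        = ‖SS c T ((φ p : ℝ) / d + β)‖ ^ 2 := by
      intro p _
      have hdR : (d : ℝ) ≠ 0 := by exact_mod_cast hd0
      obtain ⟨K, e1⟩ : ∃ K : ℕ, ((p.1 * m + p.2 * l : ℕ) : ℝ) = (φ p : ℝ) + d * (K : ℝ) := by
        refine ⟨(p.1 * m + p.2 * l) / d, ?_⟩
        have := Nat.mod_add_div (p.1 * m + p.2 * l) d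
        exact_mod_cast this.symm
      have e2 : (p.1 : ℝ) / l + ((p.2 : ℝ) / m + β)
          = ((φ p : ℝ) / d + β) + ((K : ℤ) : ℝ) := by
        have e3 : (p.1 : ℝ) / l + (p.2 : ℝ) / m = ((p.1 * m + p.2 * l : ℕ) : ℝ) / d := by
          have : (d : ℝ) = l * m := by exact_mod_cast hm
          rw [this]
          push_cast
          field_simp
        rw [← add_assoc, e3, e1, add_div, mul_div_cancel_left₀ _ hdR]
        push_cast
        ring
      rw [e2, SS_add_int]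
    have hmaps : ∀ p ∈ A, φ p ∈ (range d).filter (fun a => Nat.Coprime a d) := by
      intro p hp
      rw [hA, Finset.mem_product, Finset.mem_Ico, Finset.mem_filter, Finset.mem_range] at hp
      obtain ⟨⟨hp1, hp2⟩, hp3, hp4⟩ := hp
      rw [Finset.mem_filter, Finset.mem_range]
      refine ⟨Nat.mod_lt _ hdpos, ?_⟩
      have hx : Nat.Coprime (p.1 * m + p.2 * l) d := by
        rw [hm]
        apply Nat.Coprime.mul_right
        · rw [Nat.coprime_add_mul_right_left]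
          apply Nat.Coprime.mul_left
          · rw [Nat.coprime_comm]
            exact (Nat.Prime.coprime_iff_not_dvd hlp).2 (Nat.not_dvd_of_pos_of_lt (by omega) hp2)
          · exact hcop.symm
        · rw [add_comm, Nat.coprime_add_mul_right_left]
          exact Nat.Coprime.mul_left hp4 hcop
      have : Nat.gcd ((p.1 * m + p.2 * l) % d) d = 1 := by
        rw [← Nat.gcd_rec, Nat.gcd_comm]
        exact hx
      exact this
    have hinj : Set.InjOn φ A := by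
      intro p hp p' hp' h
      rw [hA, Finset.mem_coe, Finset.mem_product, Finset.mem_Ico, Finset.mem_filter,
        Finset.mem_range] at hp hp'
      have h' : (p.1 * m + p.2 * l) ≡ (p'.1 * m + p'.2 * l) [MOD d] := h
      have hl1 : (p.1 * m + p.2 * l) ≡ (p'.1 * m + p'.2 * l) [MOD l] := h'.of_dvd ⟨m, hm⟩
      have hm1 : (p.1 * m + p.2 * l) ≡ (p'.1 * m + p'.2 * l) [MOD m] :=
        h'.of_dvd ⟨l, by rw [hm, mul_comm]⟩
      have hl2 : p.1 * m ≡ p'.1 * m [MOD l] := by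
        have a1 : p.1 * m + p.2 * l ≡ p.1 * m [MOD l] := by
          unfold Nat.ModEq; rw [Nat.add_mul_mod_self_right]
        have a2 : p'.1 * m + p'.2 * l ≡ p'.1 * m [MOD l] := by
          unfold Nat.ModEq; rw [Nat.add_mul_mod_self_right]
        exact (a1.symm.trans hl1).trans a2
      have hm2 : p.2 * l ≡ p'.2 * l [MOD m] := by
        have a1 : p.1 * m + p.2 * l ≡ p.2 * l [MOD m] := by
          unfold Nat.ModEq; rw [add_comm, Nat.add_mul_mod_self_right]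
        have a2 : p'.1 * m + p'.2 * l ≡ p'.2 * l [MOD m] := by
          unfold Nat.ModEq; rw [add_comm, Nat.add_mul_mod_self_right]
        exact (a1.symm.trans hm1).trans a2
      have hl3 : p.1 ≡ p'.1 [MOD l] := Nat.ModEq.cancel_right_of_coprime hcop hl2
      have hm3 : p.2 ≡ p'.2 [MOD m] := Nat.ModEq.cancel_right_of_coprime hcop.symm hm2
      have e1 : p.1 = p'.1 := Nat.ModEq.eq_of_lt_of_lt hl3 hp.1.2 hp'.1.2
      have e2 : p.2 = p'.2 := Nat.ModEq.eq_of_lt_of_lt hm3 hp.2.1 hp'.2.1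
      exact Prod.ext e1 e2
    calc ‖SS c T β‖ ^ 2
        ≤ (m.totient : ℝ) * ∑ v ∈ (range m).filter (fun a => Nat.Coprime a m),
            ‖SS c T ((v : ℝ) / m + β)‖ ^ 2 := h1
      _ ≤ (m.totient : ℝ) * ∑ v ∈ (range m).filter (fun a => Nat.Coprime a m),
            (((l - 1 : ℕ) : ℝ) * ∑ u ∈ Ico 1 l, ‖SS c T ((u : ℝ) / l + ((v : ℝ) / m + β))‖ ^ 2) := by
          gcongr with v _
          exact prime_step c T l hlp.one_lt ρ hρ hc _
      _ = (d.totient : ℝ) * ∑ p ∈ A, ‖SS c T ((p.1 : ℝ) / l + ((p.2 : ℝ) / m + β))‖ ^ 2 := by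
          rw [hA, Finset.sum_product_right, hphi, ← Finset.mul_sum]
          push_cast
          ring
      _ = (d.totient : ℝ) * ∑ p ∈ A, ‖SS c T ((φ p : ℝ) / d + β)‖ ^ 2 := by
          rw [Finset.sum_congr rfl hval]
      _ = (d.totient : ℝ) * ∑ a ∈ A.image φ, ‖SS c T ((a : ℝ) / d + β)‖ ^ 2 := by
          rw [Finset.sum_image hinj]
      _ ≤ (d.totient : ℝ) * ∑ a ∈ (range d).filter (fun a => Nat.Coprime a d),
            ‖SS c T ((a : ℝ) / d + β)‖ ^ 2 := by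
          gcongr
          intro a ha
          obtain ⟨p, hp, rfl⟩ := Finset.mem_image.1 ha
          exact hmaps p hp

/-- the moduli -/
def DD (F : ℕ) : Finset ℕ := (Icc 1 F).filter (fun d => Squarefree d ∧ Nat.Coprime d 6)

lemma sieve_card (T F : ℕ) (hF : 0 < F) (Z : Finset ℕ) (hZ : Z ⊆ range T)
    (hρ : ∀ l : ℕ, l.Prime → 3 < l → l ≤ F → ∃ ρ < l, ∀ n ∈ Z, n % l ≠ ρ) :
    (Z.card : ℝ) * ∑ d ∈ DD F, 1 / (d : ℝ) ≤ T + (F ^ 2 : ℕ) * (harmonic (F ^ 2) : ℝ) := by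
  classical
  set c : ℕ → ℂ := fun n => if n ∈ Z then 1 else 0 with hc
  have hS0 : SS c T 0 = (Z.card : ℂ) := by
    unfold SS
    simp only [mul_zero, ee_zero, mul_one, hc]
    rw [Finset.sum_ite_mem, Finset.inter_eq_right.2 hZ]
    simp
  have hS2 : ∑ n ∈ range T, ‖c n‖ ^ 2 = (Z.card : ℝ) := by
    have : ∀ n ∈ range T, ‖c n‖ ^ 2 = if n ∈ Z then (1 : ℝ) else 0 := by
      intro n _
      simp only [hc]
      split_ifs <;> simp
    rw [Finset.sum_congr rfl this, Finset.sum_ite_mem, Finset.inter_eq_right.2 hZ]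
    simp
  have hls := farey_ls F hF T c
  rw [hS2] at hls
  have hstep : ∀ d ∈ DD F, (Z.card : ℝ) ^ 2 * (1 / (d : ℝ)) ≤
      ∑ j ∈ (range d).filter (fun j => Nat.Coprime j d),
        ‖∑ n ∈ range T, c n * ee (n * ((j : ℝ) / d))‖ ^ 2 := by
    intro d hd
    rw [DD, Finset.mem_filter, Finset.mem_Icc] at hd
    obtain ⟨⟨hd1, hd2⟩, hsq, hc6⟩ := hd
    have h1 := sqfree_step c T (fun l => 3 < l ∧ l ≤ F) (by
      intro l hl ⟨h3, hlF⟩
      obtain ⟨ρ, h, h'⟩ := hρ l hl h3 hlF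
      refine ⟨ρ, h, fun n hn => ?_⟩
      simp only [hc]
      rw [if_neg]
      intro hnZ
      exact h' n hnZ hn) d hsq (by
      intro l hl hld
      have hl6 : Nat.Coprime l 6 := Nat.Coprime.coprime_dvd_left hld hc6
      refine ⟨?_, (Nat.le_of_dvd hd1 hld).trans hd2⟩
      have h2 := hl.two_le
      by_contra hcon
      have : l = 2 ∨ l = 3 := by omega
      rcases this with rfl | rfl
      · revert hl6; decide
      · revert hl6; decide) 0
    rw [hS0] at h1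
    simp only [add_zero, Complex.norm_natCast] at h1
    have hphi : (d.totient : ℝ) ≤ d := by exact_mod_cast Nat.totient_le d
    have hd0 : (0 : ℝ) < d := by exact_mod_cast hd1
    have hnn : 0 ≤ ∑ a ∈ (range d).filter (fun a => Nat.Coprime a d), ‖SS c T ((a : ℝ) / d)‖ ^ 2 := by
      positivity
    rw [mul_one_div, div_le_iff₀ hd0]
    calc (Z.card : ℝ) ^ 2 ≤ (d.totient : ℝ) *
          ∑ a ∈ (range d).filter (fun a => Nat.Coprime a d), ‖SS c T ((a : ℝ) / d)‖ ^ 2 := h1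
      _ ≤ d * ∑ a ∈ (range d).filter (fun a => Nat.Coprime a d), ‖SS c T ((a : ℝ) / d)‖ ^ 2 := by
          gcongr
      _ = _ := by rw [mul_comm]; rfl
  have htot : (Z.card : ℝ) ^ 2 * ∑ d ∈ DD F, 1 / (d : ℝ) ≤
      (T + (F ^ 2 : ℕ) * (harmonic (F ^ 2) : ℝ)) * (Z.card : ℝ) := by
    rw [Finset.mul_sum]
    refine (Finset.sum_le_sum hstep).trans ?_
    refine le_trans ?_ hls
    apply Finset.sum_le_sum_of_subset_of_nonneg
    · exact Finset.filter_subset _ _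
    · intro i _ _
      positivity
  rcases Nat.eq_zero_or_pos Z.card with h | h
  · rw [h]
    simp only [Nat.cast_zero, zero_mul]
    have : (0 : ℝ) ≤ (harmonic (F ^ 2) : ℝ) := by
      exact_mod_cast (by unfold harmonic; positivity : (0 : ℚ) ≤ harmonic (F ^ 2))
    positivity
  · have h' : (0 : ℝ) < Z.card := by exact_mod_cast h
    have e : (Z.card : ℝ) ^ 2 * ∑ d ∈ DD F, 1 / (d : ℝ)
        = ((Z.card : ℝ) * ∑ d ∈ DD F, 1 / (d : ℝ)) * Z.card := by ring
    rw [e] at htot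
    exact le_of_mul_le_mul_right htot h'

lemma sum_inv_sq_le (F : ℕ) : ∑ k ∈ Icc 1 F, 1 / (k : ℝ) ^ 2 ≤ 2 := by
  rcases Nat.eq_zero_or_pos F with h | h
  · subst h; simp
  · have h1 : Icc 1 F = insert 1 (Ioc 1 F) := by
      ext a; simp only [Finset.mem_Icc, Finset.mem_insert, Finset.mem_Ioc]; omega
    rw [h1, Finset.sum_insert (by simp)]
    have h2 := sum_Ioc_inv_sq_le_sub (α := ℝ) (k := 1) (n := F) one_ne_zero h
    have h3 : ∑ k ∈ Ioc 1 F, 1 / (k : ℝ) ^ 2 = ∑ i ∈ Ioc 1 F, ((i : ℝ) ^ 2)⁻¹ := by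
      refine Finset.sum_congr rfl fun i _ => by rw [one_div]
    rw [h3]
    have h4 : (0 : ℝ) ≤ (F : ℝ)⁻¹ := by positivity
    simp only [Nat.cast_one, one_pow, inv_one] at h2 ⊢
    linarith

/-- squarefree moduli suffice -/
lemma sum_DD_ge (F : ℕ) :
    ∑ n ∈ (Icc 1 F).filter (fun n => Nat.Coprime n 6), 1 / (n : ℝ)
      ≤ 2 * ∑ d ∈ DD F, 1 / (d : ℝ) := by
  classical
  have hex : ∀ n : ℕ, ∃ p : ℕ × ℕ, p.2 ^ 2 * p.1 = n ∧ Squarefree p.1 := by
    intro n
    obtain ⟨a, b, h1, h2⟩ := Nat.sq_mul_squarefree n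
    exact ⟨(a, b), h1, h2⟩
  choose f hf1 hf2 using hex
  set A := (Icc 1 F).filter (fun n => Nat.Coprime n 6) with hA
  have hmem : ∀ n ∈ A, f n ∈ (DD F) ×ˢ (Icc 1 F) := by
    intro n hn
    rw [hA, Finset.mem_filter, Finset.mem_Icc] at hn
    obtain ⟨⟨hn1, hn2⟩, hn3⟩ := hn
    have h1 := hf1 n
    have hd1 : (f n).1 ∣ n := ⟨(f n).2 ^ 2, by rw [mul_comm]; exact h1.symm⟩
    have hd2 : (f n).2 ∣ n := by
      have h2 : (f n).2 ∣ (f n).2 ^ 2 * (f n).1 :=
        Dvd.dvd.mul_right (dvd_pow_self _ two_ne_zero) _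
      rwa [h1] at h2
    rw [Finset.mem_product, DD, Finset.mem_filter, Finset.mem_Icc, Finset.mem_Icc]
    refine ⟨⟨⟨Nat.pos_of_dvd_of_pos hd1 hn1, (Nat.le_of_dvd hn1 hd1).trans hn2⟩, hf2 n,
      Nat.Coprime.coprime_dvd_left hd1 hn3⟩, Nat.pos_of_dvd_of_pos hd2 hn1,
      (Nat.le_of_dvd hn1 hd2).trans hn2⟩
  have hinj : Set.InjOn f A := by
    intro n _ n' _ h
    rw [← hf1 n, ← hf1 n', h]
  calc ∑ n ∈ A, 1 / (n : ℝ) = ∑ n ∈ A, (1 / ((f n).1 : ℝ)) * (1 / ((f n).2 : ℝ) ^ 2) := by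
        refine Finset.sum_congr rfl fun n _ => ?_
        have : (n : ℝ) = ((f n).2 : ℝ) ^ 2 * ((f n).1 : ℝ) := by exact_mod_cast (hf1 n).symm
        rw [this, one_div_mul_one_div, mul_comm]
    _ = ∑ p ∈ A.image f, (1 / (p.1 : ℝ)) * (1 / (p.2 : ℝ) ^ 2) := by
        rw [Finset.sum_image hinj]
    _ ≤ ∑ p ∈ (DD F) ×ˢ (Icc 1 F), (1 / (p.1 : ℝ)) * (1 / (p.2 : ℝ) ^ 2) := by
        apply Finset.sum_le_sum_of_subset_of_nonneg
        · intro p hp
          obtain ⟨n, hn, rfl⟩ := Finset.mem_image.1 hp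
          exact hmem n hn
        · intro p _ _
          positivity
    _ = (∑ d ∈ DD F, 1 / (d : ℝ)) * ∑ k ∈ Icc 1 F, 1 / (k : ℝ) ^ 2 := by
        rw [Finset.sum_product, Finset.sum_mul_sum]
    _ ≤ (∑ d ∈ DD F, 1 / (d : ℝ)) * 2 := by
        gcongr
        exact sum_inv_sq_le F
    _ = _ := by ring

lemma sum_DD_log (F : ℕ) (hF : 1 ≤ F) : Real.log (((F - 1) / 6 + 1 : ℕ) : ℝ) / 14 ≤ ∑ d ∈ DD F, 1 / (d : ℝ) := by
  classical
  set M := (F - 1) / 6 with hM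
  have h1 : Real.log ((M + 1 : ℕ) : ℝ) ≤ (harmonic M : ℝ) := by
    have := log_add_one_le_harmonic M
    exact_mod_cast this
  have h2 : (harmonic M : ℝ) / 7 ≤ ∑ n ∈ (Icc 1 F).filter (fun n => Nat.Coprime n 6), 1 / (n : ℝ) := by
    have e1 : (harmonic M : ℝ) = ∑ i ∈ range M, 1 / ((i : ℝ) + 1) := by
      unfold harmonic
      push_cast
      refine Finset.sum_congr rfl fun i _ => by rw [one_div]
    rw [e1, Finset.sum_div]
    set g : ℕ → ℕ := fun i => 6 * (i + 1) + 1 with hg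
    have hinj : Set.InjOn g (range M) := by
      intro a _ b _ h
      simp only [hg] at h
      omega
    calc ∑ i ∈ range M, 1 / ((i : ℝ) + 1) / 7 ≤ ∑ i ∈ range M, 1 / ((g i : ℕ) : ℝ) := by
          refine Finset.sum_le_sum fun i _ => ?_
          rw [div_div]
          apply one_div_le_one_div_of_le
          · simp only [hg]; positivity
          · simp only [hg]; push_cast; linarith [(Nat.cast_nonneg i : (0 : ℝ) ≤ i)]
      _ = ∑ n ∈ (range M).image g, 1 / (n : ℝ) := by rw [Finset.sum_image hinj]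
      _ ≤ _ := by
          apply Finset.sum_le_sum_of_subset_of_nonneg
          · intro n hn
            obtain ⟨i, hi, rfl⟩ := Finset.mem_image.1 hn
            rw [Finset.mem_range] at hi
            rw [Finset.mem_filter, Finset.mem_Icc]
            refine ⟨⟨by simp only [hg]; omega, by simp only [hg]; omega⟩, ?_⟩
            simp only [hg]
            rw [Nat.coprime_comm]
            show Nat.Coprime 6 (6 * (i + 1) + 1)
            simp
          · intro n _ _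
            positivity
  have h3 := sum_DD_ge F
  linarith

/-- the sieve bound for primes in a progression -/
lemma prime_count (F q s m0 T : ℕ) (hF : 0 < F) (hq : ∀ l : ℕ, l.Prime → 3 < l → Nat.Coprime q l)
    (Z : Finset ℕ) (hZ : Z ⊆ range T) (hZp : ∀ t ∈ Z, (q * (t + m0) + s).Prime ∧ F < q * (t + m0) + s) :
    (Z.card : ℝ) * ∑ d ∈ DD F, 1 / (d : ℝ) ≤ T + (F ^ 2 : ℕ) * (harmonic (F ^ 2) : ℝ) := by
  apply sieve_card T F hF Z hZ
  intro l hl h3 hlF
  have : Fact l.Prime := ⟨hl⟩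
  have hqu : (q : ZMod l) ≠ 0 := by
    intro h
    rw [ZMod.natCast_eq_zero_iff] at h
    have := hq l hl h3
    exact hl.one_lt.ne' (Nat.Coprime.eq_one_of_dvd this.symm h)
  refine ⟨(-(s : ZMod l) / q - m0).val, ZMod.val_lt _, fun t ht hcon => ?_⟩
  obtain ⟨hp, hlt⟩ := hZp t ht
  have h1 : (t : ZMod l) = -(s : ZMod l) / q - m0 := by
    have : ((t % l : ℕ) : ZMod l) = (((-(s : ZMod l) / q - m0).val : ℕ) : ZMod l) := by rw [hcon]
    rwa [ZMod.natCast_mod, ZMod.natCast_zmod_val] at this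
  have h2 : ((q * (t + m0) + s : ℕ) : ZMod l) = 0 := by
    push_cast
    rw [h1]
    field_simp
    ring
  rw [ZMod.natCast_eq_zero_iff] at h2
  have h3 := (Nat.prime_dvd_prime_iff_eq hl hp).1 h2
  omega

end Pool.Agent.Work.MP_8e4d29_nt.BT

namespace Pool.Agent.Work.MP_8e4d29_nt

open Finset BT

theorem claimBT : ClaimBT := by
  classical
  -- asymptotic facts
  have hA : ∀ᶠ x : ℝ in Filter.atTop, 4 ≤ x ^ ((1 : ℝ) / 5) :=
    (tendsto_rpow_atTop (by norm_num : (0 : ℝ) < 1 / 5)).eventually_ge_atTop 4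
  have hB : ∀ᶠ x : ℝ in Filter.atTop, 1 + Real.log x ≤ x ^ ((1 : ℝ) / 10) := by
    have h1 := (isLittleO_log_rpow_atTop (by norm_num : (0 : ℝ) < 1 / 10)).bound
      (by norm_num : (0 : ℝ) < 1 / 2)
    have h2 : ∀ᶠ x : ℝ in Filter.atTop, 2 ≤ x ^ ((1 : ℝ) / 10) :=
      (tendsto_rpow_atTop (by norm_num : (0 : ℝ) < 1 / 10)).eventually_ge_atTop 2
    filter_upwards [h1, h2, Filter.eventually_ge_atTop (1 : ℝ)] with x a b c
    rw [Real.norm_of_nonneg (Real.log_nonneg c), Real.norm_of_nonneg (by positivity)] at a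
    linarith
  have hC : ∀ᶠ x : ℝ in Filter.atTop, 24 * Real.log x ≤ x ^ ((1 : ℝ) / 100) := by
    have h1 := (isLittleO_log_rpow_atTop (by norm_num : (0 : ℝ) < 1 / 100)).bound
      (by norm_num : (0 : ℝ) < 1 / 24)
    filter_upwards [h1, Filter.eventually_ge_atTop (1 : ℝ)] with x a c
    rw [Real.norm_of_nonneg (Real.log_nonneg c), Real.norm_of_nonneg (by positivity)] at a
    linarith
  have hD : ∀ᶠ x : ℝ in Filter.atTop, 10 * Real.log 12 ≤ Real.log x :=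
    Real.tendsto_log_atTop.eventually_ge_atTop _
  obtain ⟨x0, hx0⟩ := Filter.eventually_atTop.1 (hA.and (hB.and (hC.and (hD.and
    (Filter.eventually_ge_atTop (32 : ℝ))))))
  refine ⟨1121, ⌈x0⌉₊, by norm_num, ?_⟩
  intro N x h q r e hN0 hNx hxh hh hq hqN hrq
  have hNx0 : x0 ≤ (N : ℝ) := (Nat.le_ceil x0).trans (by exact_mod_cast hN0)
  obtain ⟨fA, fB, fC, fD, fE⟩ := hx0 N hNx0
  have hN32 : (32 : ℝ) ≤ N := fE
  have hNpos : (0 : ℝ) < N := by linarith
  have hN1 : (1 : ℝ) ≤ N := by linarith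
  set L := Real.log N with hL
  have hLpos : 0 < L := by
    have : 0 < Real.log 12 := Real.log_pos (by norm_num)
    linarith
  have hq0 : 0 < q := by
    rcases hq with rfl | rfl <;> positivity
  have hqR : (0 : ℝ) < q := by exact_mod_cast hq0
  have hcop : ∀ l : ℕ, l.Prime → 3 < l → Nat.Coprime q l := by
    intro l hl h3
    rcases hq with rfl | rfl
    · apply Nat.Coprime.pow_left
      rw [Nat.coprime_primes Nat.prime_two hl]; omega
    · apply Nat.Coprime.pow_left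
      rw [Nat.coprime_primes Nat.prime_three hl]; omega
  -- h / q
  set y : ℝ := (h : ℝ) / q with hy
  have hyN : (N : ℝ) ^ ((51 : ℝ) / 100) ≤ y := by
    rw [hy, le_div_iff₀ hqR]
    calc (N : ℝ) ^ ((51 : ℝ) / 100) * q ≤ (N : ℝ) ^ ((51 : ℝ) / 100) * (N : ℝ) ^ ((1 : ℝ) / 100) := by
          gcongr
      _ = (N : ℝ) ^ ((52 : ℝ) / 100) := by rw [← Real.rpow_add hNpos]; norm_num
      _ ≤ h := hh
  have hy1 : 1 ≤ y := by
    refine le_trans ?_ hyN
    exact Real.one_le_rpow hN1 (by norm_num)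
  -- the level
  set F := ⌊(N : ℝ) ^ ((1 : ℝ) / 5)⌋₊ with hF
  have hFle : (F : ℝ) ≤ (N : ℝ) ^ ((1 : ℝ) / 5) := Nat.floor_le (by positivity)
  have hFge : (N : ℝ) ^ ((1 : ℝ) / 5) < F + 1 := Nat.lt_floor_add_one _
  have hF1 : 1 ≤ F := by
    have : (3 : ℝ) < F := by linarith
    have : 3 < F := by exact_mod_cast this
    omega
  have hFN : F ≤ N := by
    have h1 : (N : ℝ) ^ ((1 : ℝ) / 5) ≤ (N : ℝ) ^ (1 : ℝ) :=
      Real.rpow_le_rpow_of_exponent_le hN1 (by norm_num)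
    rw [Real.rpow_one] at h1
    exact_mod_cast hFle.trans h1
  have hF2 : ((F ^ 2 : ℕ) : ℝ) ≤ (N : ℝ) ^ ((2 : ℝ) / 5) := by
    push_cast
    calc (F : ℝ) ^ 2 ≤ ((N : ℝ) ^ ((1 : ℝ) / 5)) ^ 2 := by gcongr
      _ = (N : ℝ) ^ ((2 : ℝ) / 5) := by
        rw [← Real.rpow_natCast, ← Real.rpow_mul hNpos.le]; norm_num
  have hF2N : ((F ^ 2 : ℕ) : ℝ) ≤ N := by
    refine hF2.trans ?_
    have h1 : (N : ℝ) ^ ((2 : ℝ) / 5) ≤ (N : ℝ) ^ (1 : ℝ) :=
      Real.rpow_le_rpow_of_exponent_le hN1 (by norm_num)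
    rwa [Real.rpow_one] at h1
  have hharm : (harmonic (F ^ 2) : ℝ) ≤ 1 + L := by
    refine (harmonic_le_one_add_log (F ^ 2)).trans ?_
    have : Real.log ((F ^ 2 : ℕ) : ℝ) ≤ L := Real.log_le_log (by positivity) hF2N
    linarith
  have hharm0 : (0 : ℝ) ≤ (harmonic (F ^ 2) : ℝ) := by
    exact_mod_cast (by unfold harmonic; positivity : (0 : ℚ) ≤ harmonic (F ^ 2))
  have herr : ((F ^ 2 : ℕ) : ℝ) * (harmonic (F ^ 2) : ℝ) ≤ y := by
    calc ((F ^ 2 : ℕ) : ℝ) * (harmonic (F ^ 2) : ℝ)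
        ≤ (N : ℝ) ^ ((2 : ℝ) / 5) * (N : ℝ) ^ ((1 : ℝ) / 10) := by
          apply mul_le_mul hF2 (hharm.trans fB) hharm0 (by positivity)
      _ = (N : ℝ) ^ ((1 : ℝ) / 2) := by rw [← Real.rpow_add hNpos]; norm_num
      _ ≤ (N : ℝ) ^ ((51 : ℝ) / 100) := Real.rpow_le_rpow_of_exponent_le hN1 (by norm_num)
      _ ≤ y := hyN
  have hJ : L / 140 ≤ ∑ d ∈ DD F, 1 / (d : ℝ) := by
    refine le_trans ?_ (sum_DD_log F hF1)
    have h1 : (N : ℝ) ^ ((1 : ℝ) / 5) / 12 ≤ (((F - 1) / 6 + 1 : ℕ) : ℝ) := by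
      have h2 : F - 1 < 6 * ((F - 1) / 6 + 1) := by omega
      have h3 : ((F - 1 : ℕ) : ℝ) < 6 * (((F - 1) / 6 + 1 : ℕ) : ℝ) := by exact_mod_cast h2
      rw [Nat.cast_sub hF1] at h3
      push_cast at h3 ⊢
      linarith
    have h2 : Real.log ((N : ℝ) ^ ((1 : ℝ) / 5) / 12) ≤ Real.log (((F - 1) / 6 + 1 : ℕ) : ℝ) :=
      Real.log_le_log (by positivity) h1
    rw [Real.log_div (by positivity) (by norm_num), Real.log_rpow hNpos] at h2
    linarith
  -- the set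
  set S := (Ioc x (x + h)).filter (fun n => n % q = r % q) with hS
  set P := S.filter Nat.Prime with hP
  set Z := P.image (fun n => n / q - x / q) with hZ
  have hdec : ∀ n ∈ S, q * ((n / q - x / q) + x / q) + r % q = n := by
    intro n hn
    rw [hS, Finset.mem_filter, Finset.mem_Ioc] at hn
    have h1 : x / q ≤ n / q := Nat.div_le_div_right hn.1.1.le
    rw [Nat.sub_add_cancel h1, ← hn.2]
    exact Nat.div_add_mod n q
  have hcard : Z.card = P.card := by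
    rw [hZ]
    apply Finset.card_image_of_injOn
    intro a ha b hb hab
    have ha' : a ∈ S := (Finset.mem_filter.1 ha).1
    have hb' : b ∈ S := (Finset.mem_filter.1 hb).1
    have hab' : a / q - x / q = b / q - x / q := hab
    rw [← hdec a ha', ← hdec b hb', hab']
  have hcount := prime_count F q (r % q) (x / q) (h / q + 2) hF1 hcop Z (by
    intro t ht
    obtain ⟨n, hn, rfl⟩ := Finset.mem_image.1 ht
    have hn' : n ∈ S := (Finset.mem_filter.1 hn).1
    rw [hS, Finset.mem_filter, Finset.mem_Ioc] at hn'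
    rw [Finset.mem_range]
    have h1 : n / q ≤ (x + h) / q := Nat.div_le_div_right hn'.1.2
    have h2 : (x + h) / q ≤ x / q + h / q + 1 := by
      rw [Nat.add_div hq0]
      split_ifs <;> omega
    show n / q - x / q < h / q + 2
    generalize n / q = a at *
    generalize x / q = b at *
    generalize h / q = c at *
    generalize (x + h) / q = d at *
    omega) (by
    intro t ht
    obtain ⟨n, hn, rfl⟩ := Finset.mem_image.1 ht
    have hn' : n ∈ S := (Finset.mem_filter.1 hn).1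
    rw [hdec n hn']
    refine ⟨(Finset.mem_filter.1 hn).2, ?_⟩
    rw [hS, Finset.mem_filter, Finset.mem_Ioc] at hn'
    omega)
  have hT : ((h / q + 2 : ℕ) : ℝ) ≤ 3 * y := by
    have : ((h / q : ℕ) : ℝ) ≤ y := Nat.cast_div_le
    push_cast
    linarith
  have hPcard : (P.card : ℝ) * L ≤ 560 * y := by
    rw [← hcard]
    have h1 : (Z.card : ℝ) * (L / 140) ≤ (Z.card : ℝ) * ∑ d ∈ DD F, 1 / (d : ℝ) := by
      gcongr
    linarith
  -- logarithm of 32 N
  have hlog32 : Real.log (32 * N) ≤ 2 * L := by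
    rw [Real.log_mul (by norm_num) hNpos.ne']
    have : Real.log 32 ≤ L := Real.log_le_log (by norm_num) hN32
    linarith
  have hlog0 : 0 ≤ Real.log (32 * N) := Real.log_nonneg (by linarith)
  -- primes
  have hprimes : ∑ n ∈ P, ArithmeticFunction.vonMangoldt n ≤ 1120 * y := by
    calc ∑ n ∈ P, ArithmeticFunction.vonMangoldt n ≤ ∑ _n ∈ P, 2 * L := by
          refine Finset.sum_le_sum fun n hn => ?_
          have hn' : n ∈ S := (Finset.mem_filter.1 hn).1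
          rw [hS, Finset.mem_filter, Finset.mem_Ioc] at hn'
          refine (ArithmeticFunction.vonMangoldt_le_log).trans ?_
          refine le_trans (Real.log_le_log ?_ ?_) hlog32
          · have : 0 < n := by omega
            exact_mod_cast this
          · have : n ≤ 32 * N := by omega
            exact_mod_cast this
      _ = 2 * (P.card * L) := by rw [Finset.sum_const, nsmul_eq_mul]; ring
      _ ≤ 1120 * y := by linarith
  -- prime powers
  have hpow : ∑ n ∈ S.filter (fun n => ¬ n.Prime), ArithmeticFunction.vonMangoldt n ≤ y := by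
    have h1 : ∑ n ∈ S.filter (fun n => ¬ n.Prime), ArithmeticFunction.vonMangoldt n
        ≤ Chebyshev.psi (32 * N : ℝ) - Chebyshev.theta (32 * N : ℝ) := by
      rw [Chebyshev.psi_sub_theta_eq_sum_not_prime]
      have hfl : ⌊(32 * N : ℝ)⌋₊ = 32 * N := by
        have : (32 * N : ℝ) = ((32 * N : ℕ) : ℝ) := by push_cast; ring
        rw [this, Nat.floor_natCast]
      rw [hfl]
      apply Finset.sum_le_sum_of_subset_of_nonneg
      · intro n hn
        obtain ⟨hn1, hn2⟩ := Finset.mem_filter.1 hn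
        rw [hS, Finset.mem_filter, Finset.mem_Ioc] at hn1
        rw [Finset.mem_filter, Finset.mem_Ioc]
        exact ⟨⟨by omega, by omega⟩, hn2⟩
      · intro n _ _
        exact ArithmeticFunction.vonMangoldt_nonneg
    have h2 := Chebyshev.psi_sub_theta_le (x := (32 * N : ℝ)) (by linarith)
    have h3 : Real.sqrt (32 * N) ≤ 6 * (N : ℝ) ^ ((1 : ℝ) / 2) := by
      rw [← Real.sqrt_eq_rpow, show (6 : ℝ) * Real.sqrt N = Real.sqrt (36 * N) by
        rw [Real.sqrt_mul (by norm_num), show (36 : ℝ) = 6 ^ 2 by norm_num,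
          Real.sqrt_sq (by norm_num)]]
      apply Real.sqrt_le_sqrt
      linarith
    calc _ ≤ _ := h1
      _ ≤ _ := h2
      _ ≤ 2 * (6 * (N : ℝ) ^ ((1 : ℝ) / 2)) * (2 * L) := by gcongr
      _ = (24 * L) * (N : ℝ) ^ ((1 : ℝ) / 2) := by ring
      _ ≤ (N : ℝ) ^ ((1 : ℝ) / 100) * (N : ℝ) ^ ((1 : ℝ) / 2) := by gcongr
      _ = (N : ℝ) ^ ((51 : ℝ) / 100) := by rw [← Real.rpow_add hNpos]; norm_num
      _ ≤ y := hyN
  have hsplit := Finset.sum_filter_add_sum_filter_not S Nat.Prime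
    (fun n => ArithmeticFunction.vonMangoldt n)
  have hfin : ∑ n ∈ S, ArithmeticFunction.vonMangoldt n ≤ 1121 * y := by
    rw [← hsplit]
    linarith
  calc ∑ n ∈ S, ArithmeticFunction.vonMangoldt n ≤ 1121 * y := hfin
    _ = 1121 * h / q := by rw [hy]; ring

end Pool.Agent.Work.MP_8e4d29_nt

end

section

set_option autoImplicit false

/-!
MP_8e4d29_nt, item B3: Chebyshev in an interval.
-/

namespace Pool.Agent.Work.MP_8e4d29_nt

open Finset

namespace ChebAux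

theorem theta_split (K N : ℕ) (h : K ≤ N) :
    ∑ n ∈ (Icc (K + 1) N).filter Nat.Prime, Real.log n =
      Chebyshev.theta N - Chebyshev.theta K := by
  have h1 : ∀ m : ℕ, Chebyshev.theta m =
      ∑ n ∈ Ioc 0 m, if Nat.Prime n then Real.log n else 0 := by
    intro m
    rw [Chebyshev.theta, Nat.floor_natCast, Finset.sum_filter]
  rw [h1, h1, Finset.sum_filter]
  have h2 : Icc (K + 1) N = Ioc K N := by
    ext n
    simp only [mem_Icc, mem_Ioc]
    omega
  rw [h2, ← Finset.sum_Ioc_consecutive _ (Nat.zero_le K) h]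
  ring

theorem small {N : ℝ} (h : (300 : ℝ) ^ 4 ≤ N) :
    Real.log (N + 1) + 2 * √N * Real.log N + 1 ≤ (85 / 2900 : ℝ) * N := by
  have hN0 : 0 < N := lt_of_lt_of_le (by norm_num) h
  obtain ⟨t, ht⟩ : ∃ t, t = √(√N) := ⟨_, rfl⟩
  have ht2 : t ^ 2 = √N := by rw [ht]; exact Real.sq_sqrt (Real.sqrt_nonneg _)
  have ht4 : t ^ 4 = N := by
    calc t ^ 4 = (t ^ 2) ^ 2 := by ring
      _ = N := by rw [ht2]; exact Real.sq_sqrt hN0.le
  have ht0 : 0 ≤ t := by rw [ht]; exact Real.sqrt_nonneg _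
  have ht3 : 300 ≤ t := by
    by_contra hc
    push Not at hc
    have := pow_lt_pow_left₀ hc ht0 (by norm_num : (4 : ℕ) ≠ 0)
    rw [ht4] at this
    linarith
  have hlog : Real.log N ≤ 4 * t := by
    rw [← ht4, Real.log_pow]
    have := Real.log_le_sub_one_of_pos (by linarith : 0 < t)
    push_cast
    linarith
  have hlog1 : Real.log (N + 1) ≤ 4 * t + 1 := by
    have h1 : N + 1 = N * (1 + 1 / N) := by field_simp
    rw [h1, Real.log_mul hN0.ne' (by positivity)]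
    have h2 := Real.log_le_sub_one_of_pos (by positivity : 0 < 1 + 1 / N)
    have h3 : 1 / N ≤ 1 := by
      rw [div_le_one hN0]
      linarith
    linarith
  have h5 : 2 * √N * Real.log N ≤ 8 * t ^ 3 := by
    rw [← ht2]
    have : 0 ≤ 2 * t ^ 2 := by positivity
    nlinarith
  have h6 : 300 * t ^ 3 ≤ t ^ 4 := by
    have : 0 ≤ t ^ 3 := by positivity
    nlinarith
  have h7 : (90000 : ℝ) * t ≤ t ^ 3 := by
    have : 0 ≤ t * (t ^ 2 - 90000) := by
      apply mul_nonneg ht0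
      nlinarith
    nlinarith
  rw [← ht4] at hlog1 h5 ⊢
  nlinarith

end ChebAux

open ChebAux in
theorem claimCheb : ClaimCheb := by
  refine ⟨10 ^ 10, fun x hx => ?_⟩
  obtain ⟨N, hN⟩ : ∃ N, N = 29 * x / 10 := ⟨_, rfl⟩
  obtain ⟨K, hK⟩ : ∃ K, K = 11 * x / 10 := ⟨_, rfl⟩
  rw [← hN, ← hK, theta_split K N (by omega)]
  have hN1 : 10 * N ≤ 29 * x := by omega
  have hN2 : 29 * x ≤ 10 * N + 10 := by omega
  have hK1 : 10 * K ≤ 11 * x := by omega
  have hN1' : 10 * (N : ℝ) ≤ 29 * x := by exact_mod_cast hN1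
  have hN2' : 29 * (x : ℝ) ≤ 10 * N + 10 := by exact_mod_cast hN2
  have hK1' : 10 * (K : ℝ) ≤ 11 * x := by exact_mod_cast hK1
  have hx' : (10 : ℝ) ^ 10 ≤ x := by exact_mod_cast hx
  have hbig : (300 : ℝ) ^ 4 ≤ N := by
    norm_num at hx' ⊢
    linarith
  have h1 := Chebyshev.theta_ge N
  have h2 := Chebyshev.theta_le_log4_mul_x (Nat.cast_nonneg K : (0 : ℝ) ≤ K)
  have h3 := small hbig
  have h4 : Real.log 4 = 2 * Real.log 2 := by
    rw [show (4 : ℝ) = 2 ^ 2 by norm_num, Real.log_pow]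
    push_cast
    ring
  rw [h4] at h2
  have h5 := Real.log_two_gt_d9
  have h6 := Real.log_two_lt_d9
  have h7 : (N : ℝ) * Real.log 2 - 2 * Real.log 2 * K ≥ (7 / 10 * x - 1) * Real.log 2 := by
    nlinarith
  have hx0 : (0 : ℝ) ≤ x := Nat.cast_nonneg x
  nlinarith

end Pool.Agent.Work.MP_8e4d29_nt

end

section

/-!
MP_8e4d29_nt, A3: three differencing steps.
-/

set_option autoImplicit false

namespace Pool.Agent.Work.MP_8e4d29_nt

open Finset
open Pool.Agent.Work.MP_122e00_nt (ee)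

namespace Diff3Aux

/-- one differencing -/
noncomputable def dif (φ : ℕ → ℂ) (h m : ℕ) : ℂ := φ m * (starRingEnd ℂ) (φ (m + h))

theorem cub3_eq (φ : ℕ → ℂ) (h1 h2 h3 m : ℕ) :
    dif (dif (dif φ h1) h2) h3 m = cub3 φ h1 h2 h3 m := by
  simp only [dif, cub3, map_mul, Complex.conj_conj]
  have e1 : m + h2 + h1 = m + h1 + h2 := by omega
  have e2 : m + h3 + h1 = m + h1 + h3 := by omega
  have e3 : m + h3 + h2 = m + h2 + h3 := by omega
  have e4 : m + h2 + h3 + h1 = m + h1 + h2 + h3 := by omega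
  rw [e1, e2, e3, e4]
  ring

theorem dif_supp {φ : ℕ → ℂ} {a L : ℕ} (hφ : ∀ m, φ m ≠ 0 → a ≤ m ∧ m < a + L) (h : ℕ) :
    ∀ m, dif φ h m ≠ 0 → a ≤ m ∧ m < a + L := by
  intro m hm
  apply hφ
  intro h0
  apply hm
  simp only [dif, h0, zero_mul]

/-- the norm of the sum -/
noncomputable def NN (a L : ℕ) (φ : ℕ → ℂ) : ℝ := ‖∑ m ∈ Ico a (a + L), φ m‖

theorem NN_nonneg (a L : ℕ) (φ : ℕ → ℂ) : 0 ≤ NN a L φ := norm_nonneg _

/-- one step with products of sets of shifts -/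
theorem step (h : ClaimVdC) {φ : ℕ → ℂ} {a L : ℕ} {S : Finset ℕ}
    (hφ : ∀ m, φ m ≠ 0 → a ≤ m ∧ m < a + L) (hS : ∀ t ∈ S, t < L) :
    (S.card : ℝ) ^ 2 * NN a L φ ^ 2 ≤
      2 * (L : ℝ) * ∑ p ∈ S ×ˢ S, NN a L (dif φ (Nat.dist p.1 p.2)) := by
  have := h φ a L L S hφ hS
  rw [Finset.sum_product]
  refine this.trans (le_of_eq ?_)
  rw [two_mul]
  rfl

/-- squaring and Cauchy's inequality -/
theorem cauchy {ι : Type} (P : Finset ι) (x : ι → ℝ) (c A N : ℝ) (hc : 0 ≤ c)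
    (hA : 0 ≤ A) (hcard : (P.card : ℝ) = c) (hN : 0 ≤ N)
    (hx : ∀ p ∈ P, 0 ≤ x p) (hle : c * N ≤ A * ∑ p ∈ P, x p) :
    c * N ^ 2 ≤ A ^ 2 * ∑ p ∈ P, x p ^ 2 := by
  have h1 : (∑ p ∈ P, x p) ^ 2 ≤ c * ∑ p ∈ P, x p ^ 2 := by
    rw [← hcard]
    exact sq_sum_le_card_mul_sum_sq
  have h0 : 0 ≤ ∑ p ∈ P, x p ^ 2 := Finset.sum_nonneg (fun p _ => sq_nonneg _)
  rcases hc.lt_or_eq with hc' | hc'
  · have h2 : (c * N) ^ 2 ≤ (A * ∑ p ∈ P, x p) ^ 2 :=
      pow_le_pow_left₀ (mul_nonneg hc hN) hle 2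
    have h3 : c * (c * N ^ 2) ≤ c * (A ^ 2 * ∑ p ∈ P, x p ^ 2) := by
      calc c * (c * N ^ 2) = (c * N) ^ 2 := by ring
        _ ≤ (A * ∑ p ∈ P, x p) ^ 2 := h2
        _ = A ^ 2 * (∑ p ∈ P, x p) ^ 2 := by ring
        _ ≤ A ^ 2 * (c * ∑ p ∈ P, x p ^ 2) := mul_le_mul_of_nonneg_left h1 (sq_nonneg A)
        _ = c * (A ^ 2 * ∑ p ∈ P, x p ^ 2) := by ring
    exact le_of_mul_le_mul_left h3 hc'
  · rw [← hc', zero_mul]
    positivity

end Diff3Aux

open Diff3Aux in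
theorem claimDiff3 (h : ClaimVdC) : ClaimDiff3 := by
  intro φ a L S1 S2 S3 hφ h1 h2 h3
  have hL : (0 : ℝ) ≤ L := Nat.cast_nonneg L
  have e1 : ((S1 ×ˢ S1).card : ℝ) = (S1.card : ℝ) ^ 2 := by
    rw [Finset.card_product]; push_cast; ring
  -- first step
  have st1 := step h hφ h1
  have c1 := cauchy (S1 ×ˢ S1) (fun p => NN a L (dif φ (Nat.dist p.1 p.2)))
    ((S1.card : ℝ) ^ 2) (2 * L) (NN a L φ ^ 2) (sq_nonneg _) (by positivity) e1 (sq_nonneg _)
    (fun p _ => NN_nonneg _ _ _) st1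
  -- second step
  have st2 : ((S1.card : ℝ) ^ 2 * (S2.card : ℝ) ^ 2) * (NN a L φ ^ 2) ^ 2 ≤
      (8 * (L : ℝ) ^ 3) * ∑ q ∈ (S1 ×ˢ S1) ×ˢ (S2 ×ˢ S2),
        NN a L (dif (dif φ (Nat.dist q.1.1 q.1.2)) (Nat.dist q.2.1 q.2.2)) := by
    rw [Finset.sum_product]
    calc ((S1.card : ℝ) ^ 2 * (S2.card : ℝ) ^ 2) * (NN a L φ ^ 2) ^ 2
        = (S2.card : ℝ) ^ 2 * ((S1.card : ℝ) ^ 2 * (NN a L φ ^ 2) ^ 2) := by ring
      _ ≤ (S2.card : ℝ) ^ 2 * ((2 * L) ^ 2 *
          ∑ p ∈ S1 ×ˢ S1, NN a L (dif φ (Nat.dist p.1 p.2)) ^ 2) :=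
          mul_le_mul_of_nonneg_left c1 (sq_nonneg _)
      _ = (4 * (L : ℝ) ^ 2) * ∑ p ∈ S1 ×ˢ S1,
          (S2.card : ℝ) ^ 2 * NN a L (dif φ (Nat.dist p.1 p.2)) ^ 2 := by
          rw [← Finset.mul_sum]; ring
      _ ≤ (4 * (L : ℝ) ^ 2) * ∑ p ∈ S1 ×ˢ S1, 2 * (L : ℝ) * ∑ q ∈ S2 ×ˢ S2,
          NN a L (dif (dif φ (Nat.dist p.1 p.2)) (Nat.dist q.1 q.2)) := by
          apply mul_le_mul_of_nonneg_left _ (by positivity)
          apply Finset.sum_le_sum
          intro p _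
          exact step h (dif_supp hφ _) h2
      _ = _ := by
          rw [← Finset.mul_sum]; ring
  have e2 : (((S1 ×ˢ S1) ×ˢ (S2 ×ˢ S2)).card : ℝ) = (S1.card : ℝ) ^ 2 * (S2.card : ℝ) ^ 2 := by
    rw [Finset.card_product, Finset.card_product, Finset.card_product]; push_cast; ring
  have c2 := cauchy ((S1 ×ˢ S1) ×ˢ (S2 ×ˢ S2))
    (fun q => NN a L (dif (dif φ (Nat.dist q.1.1 q.1.2)) (Nat.dist q.2.1 q.2.2)))
    ((S1.card : ℝ) ^ 2 * (S2.card : ℝ) ^ 2) (8 * (L : ℝ) ^ 3) ((NN a L φ ^ 2) ^ 2)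
    (by positivity) (by positivity) e2 (sq_nonneg _) (fun p _ => NN_nonneg _ _ _) st2
  -- third step
  have st3 : NN a L φ ^ 8 * ((S1.card : ℝ) * S2.card * S3.card) ^ 2 ≤
      128 * (L : ℝ) ^ 7 * ∑ q ∈ (S1 ×ˢ S1) ×ˢ (S2 ×ˢ S2), ∑ r ∈ S3 ×ˢ S3,
        NN a L (dif (dif (dif φ (Nat.dist q.1.1 q.1.2)) (Nat.dist q.2.1 q.2.2))
          (Nat.dist r.1 r.2)) := by
    calc NN a L φ ^ 8 * ((S1.card : ℝ) * S2.card * S3.card) ^ 2
        = (S3.card : ℝ) ^ 2 * (((S1.card : ℝ) ^ 2 * (S2.card : ℝ) ^ 2) *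
          ((NN a L φ ^ 2) ^ 2) ^ 2) := by ring
      _ ≤ (S3.card : ℝ) ^ 2 * ((8 * (L : ℝ) ^ 3) ^ 2 * ∑ q ∈ (S1 ×ˢ S1) ×ˢ (S2 ×ˢ S2),
          NN a L (dif (dif φ (Nat.dist q.1.1 q.1.2)) (Nat.dist q.2.1 q.2.2)) ^ 2) :=
          mul_le_mul_of_nonneg_left c2 (sq_nonneg _)
      _ = (64 * (L : ℝ) ^ 6) * ∑ q ∈ (S1 ×ˢ S1) ×ˢ (S2 ×ˢ S2), (S3.card : ℝ) ^ 2 *
          NN a L (dif (dif φ (Nat.dist q.1.1 q.1.2)) (Nat.dist q.2.1 q.2.2)) ^ 2 := by
          rw [← Finset.mul_sum]; ring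
      _ ≤ (64 * (L : ℝ) ^ 6) * ∑ q ∈ (S1 ×ˢ S1) ×ˢ (S2 ×ˢ S2), 2 * (L : ℝ) *
          ∑ r ∈ S3 ×ˢ S3, NN a L (dif (dif (dif φ (Nat.dist q.1.1 q.1.2))
            (Nat.dist q.2.1 q.2.2)) (Nat.dist r.1 r.2)) := by
          apply mul_le_mul_of_nonneg_left _ (by positivity)
          apply Finset.sum_le_sum
          intro p _
          exact step h (dif_supp (dif_supp hφ _) _) h3
      _ = _ := by
          rw [← Finset.mul_sum]; ring
  refine st3.trans (le_of_eq ?_)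
  congr 1
  rw [Finset.sum_product, Finset.sum_product]
  apply Finset.sum_congr rfl
  intro t1 _
  apply Finset.sum_congr rfl
  intro t1' _
  rw [Finset.sum_product]
  apply Finset.sum_congr rfl
  intro t2 _
  apply Finset.sum_congr rfl
  intro t2' _
  rw [Finset.sum_product]
  apply Finset.sum_congr rfl
  intro t3 _
  apply Finset.sum_congr rfl
  intro t3' _
  simp only [NN]
  congr 1
  apply Finset.sum_congr rfl
  intro m _
  exact cub3_eq _ _ _ _ _

end Pool.Agent.Work.MP_8e4d29_nt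

end

section

/-!
A4: equidistribution of a linear sequence for functions of small total variation.
-/

namespace Pool.Agent.Work.MP_8e4d29_nt

open Finset

namespace EQ

/-- extension of a periodic function to the integers -/
noncomputable def ext (Nm : ℕ) (Φ : ℕ → ℂ) (x : ℤ) : ℂ := Φ (x % (Nm : ℤ)).toNat

variable {Nm : ℕ} {Φ : ℕ → ℂ}

lemma per_mul (hΦ : ∀ x, Φ (x + Nm) = Φ x) (x k : ℕ) : Φ (x + k * Nm) = Φ x := by
  induction k with
  | zero => simp
  | succ k ih =>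
    have e : x + (k + 1) * Nm = (x + k * Nm) + Nm := by ring
    rw [e, hΦ, ih]

lemma ext_nat (hΦ : ∀ x, Φ (x + Nm) = Φ x) (n : ℕ) : ext Nm Φ n = Φ n := by
  unfold ext
  have h1 : ((n : ℤ) % (Nm : ℤ)).toNat = n % Nm := by
    rw [← Int.natCast_mod, Int.toNat_natCast]
  rw [h1]
  conv_rhs => rw [← Nat.mod_add_div n Nm, mul_comm Nm]
  rw [per_mul hΦ]

lemma ext_add (x k : ℤ) : ext Nm Φ (x + k * Nm) = ext Nm Φ x := by
  unfold ext
  rw [Int.add_mul_emod_self_right]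

lemma ext_per (x : ℤ) : ext Nm Φ (x + Nm) = ext Nm Φ x := by
  have := ext_add (Nm := Nm) (Φ := Φ) x 1
  rwa [one_mul] at this

/-- the steps -/
noncomputable def vv (Nm : ℕ) (Φ : ℕ → ℂ) (x : ℤ) : ℝ := ‖ext Nm Φ (x + 1) - ext Nm Φ x‖

lemma vv_nonneg (x : ℤ) : 0 ≤ vv Nm Φ x := norm_nonneg _

lemma vv_per (x : ℤ) : vv Nm Φ (x + Nm) = vv Nm Φ x := by
  unfold vv
  have e : x + Nm + 1 = (x + 1) + Nm := by ring
  rw [e, ext_per, ext_per]

lemma sum_period {M : Type*} [AddCommGroup M] (f : ℤ → M) (N : ℕ) (hf : ∀ x, f (x + N) = f x)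
    (a : ℤ) : ∑ x ∈ range N, f (a + x) = ∑ x ∈ range N, f x := by
  have key : ∀ a : ℤ, ∑ x ∈ range N, f (a + 1 + x) = ∑ x ∈ range N, f (a + x) := by
    intro a
    have h1 := Finset.sum_range_succ (fun x : ℕ => f (a + x)) N
    have h2 := Finset.sum_range_succ' (fun x : ℕ => f (a + x)) N
    have h3 : f (a + N) = f (a + (0 : ℕ)) := by rw [hf]; simp
    rw [h1] at h2
    rw [h3] at h2
    have h4 := add_right_cancel h2
    rw [h4]
    refine Finset.sum_congr rfl fun x _ => ?_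
    congr 1
    push_cast
    ring
  have h : ∀ a : ℤ, ∑ x ∈ range N, f (a + x) = ∑ x ∈ range N, f (0 + x) := by
    intro a
    induction a using Int.induction_on with
    | zero => rfl
    | succ n ih => rw [key, ih]
    | pred n ih =>
      rw [← ih, ← key]
      refine Finset.sum_congr rfl fun x _ => ?_
      congr 1
      ring
  rw [h a]
  simp

lemma sum_Ico_int {M : Type*} [AddCommMonoid M] (f : ℤ → M) (a : ℤ) (n : ℕ) :
    ∑ x ∈ Finset.Ico a (a + n), f x = ∑ w ∈ range n, f (a + w) := by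
  refine (Finset.sum_nbij' (fun w : ℕ => a + w) (fun x : ℤ => (x - a).toNat) ?_ ?_ ?_ ?_ ?_).symm
  · intro w hw
    rw [Finset.mem_range] at hw
    rw [Finset.mem_Ico]
    omega
  · intro x hx
    rw [Finset.mem_Ico] at hx
    rw [Finset.mem_range]
    omega
  · intro w _
    simp
  · intro x hx
    rw [Finset.mem_Ico] at hx
    omega
  · intro w _
    rfl

lemma telescope (a : ℤ) (n : ℕ) :
    ‖ext Nm Φ (a + n) - ext Nm Φ a‖ ≤ ∑ x ∈ Finset.Ico a (a + n), vv Nm Φ x := by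
  rw [sum_Ico_int]
  induction n with
  | zero => simp
  | succ n ih =>
    rw [Finset.sum_range_succ]
    have h1 : ext Nm Φ (a + (n + 1 : ℕ)) - ext Nm Φ a =
        (ext Nm Φ (a + n + 1) - ext Nm Φ (a + n)) + (ext Nm Φ (a + n) - ext Nm Φ a) := by
      push_cast
      rw [← add_assoc]
      ring
    rw [h1]
    refine (norm_add_le _ _).trans ?_
    rw [add_comm]
    exact add_le_add ih le_rfl

lemma telescope_subset (a b : ℤ) (T : Finset ℤ)
    (hT : ∀ x, (a ≤ x ∧ x < b) ∨ (b ≤ x ∧ x < a) → x ∈ T) :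
    ‖ext Nm Φ a - ext Nm Φ b‖ ≤ ∑ x ∈ T, vv Nm Φ x := by
  rcases le_total a b with h | h
  · obtain ⟨n, hn⟩ := Int.eq_ofNat_of_zero_le (sub_nonneg.2 h)
    have hb : b = a + n := by rw [← hn]; ring
    rw [norm_sub_rev, hb]
    refine (telescope a n).trans ?_
    refine Finset.sum_le_sum_of_subset_of_nonneg ?_ (fun x _ _ => vv_nonneg x)
    intro x hx
    rw [Finset.mem_Ico] at hx
    exact hT x (Or.inl ⟨hx.1, by rw [hb]; exact hx.2⟩)
  · obtain ⟨n, hn⟩ := Int.eq_ofNat_of_zero_le (sub_nonneg.2 h)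
    have ha : a = b + n := by rw [← hn]; ring
    rw [ha]
    refine (telescope b n).trans ?_
    refine Finset.sum_le_sum_of_subset_of_nonneg ?_ (fun x _ _ => vv_nonneg x)
    intro x hx
    rw [Finset.mem_Ico] at hx
    exact hT x (Or.inr ⟨hx.1, by rw [ha]; exact hx.2⟩)

lemma split {M : Type*} [AddCommMonoid M] (f : ℕ → M) (q N : ℕ) :
    ∑ u ∈ range (q * N), f u = ∑ i ∈ range q, ∑ r ∈ range N, f (i * N + r) := by
  induction q with
  | zero => simp
  | succ q ih =>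
    rw [Nat.add_mul, one_mul, Finset.sum_range_add, ih, Finset.sum_range_succ]

/-- the index of the arc of the point number `j` -/
def ix (c : ℤ) (q : ℕ) (j : ℕ) : ℕ := ((c * j) % (q : ℤ)).toNat

lemma ix_cast (c : ℤ) (q : ℕ) (hq : 0 < q) (j : ℕ) : (ix c q j : ℤ) = (c * j) % (q : ℤ) := by
  unfold ix
  rw [Int.toNat_of_nonneg (Int.emod_nonneg _ (by exact_mod_cast hq.ne'))]

lemma ix_lt (c : ℤ) (q : ℕ) (hq : 0 < q) (j : ℕ) : ix c q j < q := by
  have h1 := ix_cast c q hq j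
  have h2 := Int.emod_lt_of_pos (c * j) (by exact_mod_cast hq : (0 : ℤ) < q)
  omega

lemma ix_inj (c : ℤ) (q : ℕ) (hq : 0 < q) (hc : IsCoprime c (q : ℤ)) :
    Set.InjOn (ix c q) (range q : Finset ℕ) := by
  intro j hj j' hj' h
  rw [Finset.mem_coe, Finset.mem_range] at hj hj'
  have h1 : (c * j) % (q : ℤ) = (c * j') % (q : ℤ) := by
    rw [← ix_cast c q hq, ← ix_cast c q hq, h]
  have h2 : (q : ℤ) ∣ c * j - c * j' := Int.ModEq.dvd (Int.ModEq.symm h1)
  rw [← mul_sub] at h2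
  have h3 : (q : ℤ) ∣ (j : ℤ) - j' := (hc.symm).dvd_of_dvd_mul_left h2
  obtain ⟨k, hk⟩ := h3
  have hk0 : k = 0 := by
    by_contra hne
    have h4 : 1 ≤ |k| := Int.one_le_abs hne
    have h5 : |(j : ℤ) - j'| = q * |k| := by rw [hk, abs_mul]; simp
    have h6 : |(j : ℤ) - j'| < q := by
      rw [abs_lt]; omega
    nlinarith
  rw [hk0, mul_zero] at hk
  omega

lemma ix_image (c : ℤ) (q : ℕ) (hq : 0 < q) (hc : IsCoprime c (q : ℤ)) :
    (range q).image (ix c q) = range q := by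
  refine Finset.eq_of_subset_of_card_le ?_ ?_
  · intro i hi
    obtain ⟨j, _, rfl⟩ := Finset.mem_image.1 hi
    rw [Finset.mem_range]
    exact ix_lt c q hq j
  · rw [Finset.card_image_of_injOn (ix_inj c q hq hc)]

lemma sum_ix {M : Type*} [AddCommMonoid M] (c : ℤ) (q : ℕ) (hq : 0 < q)
    (hc : IsCoprime c (q : ℤ)) (f : ℕ → M) :
    ∑ j ∈ range q, f (ix c q j) = ∑ i ∈ range q, f i := by
  conv_rhs => rw [← ix_image c q hq hc]
  rw [Finset.sum_image (ix_inj c q hq hc)]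

/-- the steps which matter for the arc `i` -/
noncomputable def TT (Nm q : ℕ) (y0 : ℤ) (i : ℕ) : Finset ℤ :=
  (Finset.Ico (y0 - Nm) (y0 - Nm + (Nm + Nm : ℕ))).filter
    (fun x => |(i : ℤ) * Nm - (x + 1 - y0) * q| < Nm)

lemma card_le_two (Nm q : ℕ) (hN : 1 ≤ Nm) (hq : 0 < q) (c : ℤ) (hc : IsCoprime c (q : ℤ))
    (y0 x : ℤ) : ((range q).filter (fun j => x ∈ TT Nm q y0 (ix c q j))).card ≤ 2 := by
  set s : ℤ := (x + 1 - y0) * q with hs
  set m : ℤ := s / Nm with hm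
  have hN' : (0 : ℤ) < Nm := by exact_mod_cast hN
  have hsub : ((range q).filter (fun j => x ∈ TT Nm q y0 (ix c q j))).image
      (fun j => (ix c q j : ℤ)) ⊆ {m, m + 1} := by
    intro i hi
    obtain ⟨j, hj, rfl⟩ := Finset.mem_image.1 hi
    rw [Finset.mem_filter] at hj
    have h1 := (Finset.mem_filter.1 hj.2).2
    rw [← hs, abs_lt] at h1
    have h2 := Int.emod_add_mul_ediv s Nm
    have h3 := Int.emod_nonneg s hN'.ne'
    have h4 := Int.emod_lt_of_pos s hN'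
    rw [← hm] at h2
    simp only [Finset.mem_insert, Finset.mem_singleton]
    set i : ℤ := (ix c q j : ℤ) with hi
    have h5 : m - 1 < i := by
      by_contra hcon
      push Not at hcon
      nlinarith
    have h6 : i < m + 2 := by
      by_contra hcon
      push Not at hcon
      nlinarith
    omega
  have hcard : (((range q).filter (fun j => x ∈ TT Nm q y0 (ix c q j))).image
      (fun j => (ix c q j : ℤ))).card =
      ((range q).filter (fun j => x ∈ TT Nm q y0 (ix c q j))).card := by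
    refine Finset.card_image_of_injOn ?_
    intro j hj j' hj' h
    have h0 : (ix c q j : ℤ) = (ix c q j' : ℤ) := h
    have h1 : ix c q j = ix c q j' := by exact_mod_cast h0
    exact ix_inj c q hq hc (Finset.mem_coe.2 (Finset.mem_filter.1 hj).1)
      (Finset.mem_coe.2 (Finset.mem_filter.1 hj').1) h1
  rw [← hcard]
  exact (Finset.card_le_card hsub).trans Finset.card_le_two

lemma block (hN : 1 ≤ Nm) (hΦ : ∀ x, Φ (x + Nm) = Φ x) (V : ℝ)
    (hV : ∑ x ∈ range Nm, ‖Φ (x + 1) - Φ x‖ ≤ V) (A q : ℕ) (hq : 0 < q) (c : ℤ)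
    (hc : IsCoprime c (q : ℤ))
    (hclose : ∀ j < q, |(j : ℤ) * A * q - c * j * Nm| < Nm) (β : ℕ) :
    ‖∑ z ∈ range q, Φ (z * A + β) - ((q : ℝ) / Nm : ℝ) * ∑ x ∈ range Nm, Φ x‖ ≤ 4 * V := by
  have hNr : (0 : ℝ) < Nm := by exact_mod_cast hN
  have hNc : (Nm : ℂ) ≠ 0 := by exact_mod_cast hNr.ne'
  set y0 : ℤ := (β : ℤ) with hy0
  set Ψ := ext Nm Φ with hΨ
  -- the total variation over two periods
  have hvsum : ∑ x ∈ Finset.Ico (y0 - Nm) (y0 - Nm + (Nm + Nm : ℕ)), vv Nm Φ x ≤ 2 * V := by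
    rw [sum_Ico_int, Finset.sum_range_add]
    have h1 : ∑ x ∈ range Nm, vv Nm Φ (y0 - Nm + x) = ∑ x ∈ range Nm, vv Nm Φ x :=
      sum_period (vv Nm Φ) Nm vv_per _
    have h2 : ∑ x ∈ range Nm, vv Nm Φ (y0 - Nm + ((Nm + x : ℕ) : ℤ)) =
        ∑ x ∈ range Nm, vv Nm Φ x := by
      rw [← sum_period (vv Nm Φ) Nm vv_per y0]
      refine Finset.sum_congr rfl fun x _ => ?_
      congr 1
      push_cast
      ring
    rw [h1, h2]
    have h3 : ∑ x ∈ range Nm, vv Nm Φ x ≤ V := by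
      refine le_trans (le_of_eq ?_) hV
      refine Finset.sum_congr rfl fun x _ => ?_
      unfold vv
      rw [ext_nat hΦ]
      have := ext_nat hΦ (x + 1)
      push_cast at this
      rw [this]
    linarith
  -- the arcs
  set ar : ℕ → ℂ := fun i => ∑ r ∈ range Nm, Ψ (y0 + ((i * Nm + r) / q : ℕ)) with har
  have hars : ∑ i ∈ range q, ar i = (q : ℂ) * ∑ x ∈ range Nm, Φ x := by
    have h1 := split (fun u : ℕ => Ψ (y0 + (u / q : ℕ))) q Nm
    have h2 := split (fun u : ℕ => Ψ (y0 + (u / q : ℕ))) Nm q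
    rw [mul_comm q Nm] at h1
    rw [har]
    rw [← h1, h2, Finset.mul_sum]
    have h3 : ∀ x ∈ range Nm, ∑ r ∈ range q, Ψ (y0 + ((x * q + r) / q : ℕ)) =
        (q : ℂ) * Ψ (y0 + x) := by
      intro x _
      have h4 : ∀ r ∈ range q, Ψ (y0 + ((x * q + r) / q : ℕ)) = Ψ (y0 + x) := by
        intro r hr
        rw [Finset.mem_range] at hr
        have : (x * q + r) / q = x := by
          rw [add_comm, Nat.add_mul_div_right _ _ hq, Nat.div_eq_of_lt hr, zero_add]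
        rw [this]
      rw [Finset.sum_congr rfl h4, Finset.sum_const, Finset.card_range, nsmul_eq_mul]
    rw [Finset.sum_congr rfl h3, ← Finset.mul_sum, ← Finset.mul_sum,
      sum_period Ψ Nm ext_per y0]
    congr 1
    refine Finset.sum_congr rfl fun x _ => ?_
    exact ext_nat hΦ x
  -- each point against the mean over its arc
  have hpt : ∀ j ∈ range q, ‖(Nm : ℂ) * Φ (j * A + β) - ar (ix c q j)‖ ≤
      Nm * ∑ x ∈ TT Nm q y0 (ix c q j), vv Nm Φ x := by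
    intro j hj
    rw [Finset.mem_range] at hj
    set i : ℕ := ix c q j with hi
    have hic := ix_cast c q hq j
    rw [← hi] at hic
    have hilt := ix_lt c q hq j
    rw [← hi] at hilt
    set k : ℤ := (c * j) / (q : ℤ) with hk
    have hcj : (i : ℤ) + q * k = c * j := by
      rw [hic, hk]
      exact Int.emod_add_mul_ediv _ _
    set Y : ℤ := y0 + j * A - k * Nm with hY
    have hΦY : Φ (j * A + β) = Ψ Y := by
      have h1 := ext_nat hΦ (j * A + β)
      rw [← h1]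
      have h2 := ext_add (Nm := Nm) (Φ := Φ) Y k
      rw [hΨ, ← h2]
      congr 1
      rw [hY, hy0]
      push_cast
      ring
    have hYc : |(i : ℤ) * Nm - (Y - y0) * q| < Nm := by
      have h1 := hclose j hj
      have h2 : (i : ℤ) * Nm - (Y - y0) * q = -((j : ℤ) * A * q - c * j * Nm) := by
        rw [hY]
        linear_combination (Nm : ℤ) * hcj
      rw [h2, abs_neg]
      exact h1
    rw [hΦY, har]
    have h1 : (Nm : ℂ) * Ψ Y - ∑ r ∈ range Nm, Ψ (y0 + ((i * Nm + r) / q : ℕ)) =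
        ∑ r ∈ range Nm, (Ψ Y - Ψ (y0 + ((i * Nm + r) / q : ℕ))) := by
      rw [Finset.sum_sub_distrib, Finset.sum_const, Finset.card_range, nsmul_eq_mul]
    rw [h1]
    refine (norm_sum_le _ _).trans ?_
    have h2 : ∀ r ∈ range Nm, ‖Ψ Y - Ψ (y0 + ((i * Nm + r) / q : ℕ))‖ ≤
        ∑ x ∈ TT Nm q y0 i, vv Nm Φ x := by
      intro r hr
      rw [Finset.mem_range] at hr
      refine telescope_subset _ _ _ fun x hx => ?_
      set p : ℕ := (i * Nm + r) / q with hp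
      have hp1 : p * q ≤ i * Nm + r := Nat.div_mul_le_self _ _
      have hp2 : i * Nm + r < (p + 1) * q := by
        rw [hp]
        have := Nat.lt_div_mul_add (a := i * Nm + r) hq
        linarith
      have hp1' : (p : ℤ) * q ≤ i * Nm + r := by exact_mod_cast hp1
      have hp2' : (i : ℤ) * Nm + r < (p + 1) * q := by exact_mod_cast hp2
      have hr' : (r : ℤ) < Nm := by exact_mod_cast hr
      have hr0 : (0 : ℤ) ≤ r := by positivity
      have hq' : (1 : ℤ) ≤ q := by exact_mod_cast hq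
      have hN' : (1 : ℤ) ≤ Nm := by exact_mod_cast hN
      have hi0 : (0 : ℤ) ≤ i := by positivity
      have hilt' : (i : ℤ) + 1 ≤ q := by exact_mod_cast hilt
      rw [abs_lt] at hYc
      have hc1 : (i : ℤ) * Nm - (x + 1 - y0) * q < Nm := by
        rcases hx with ⟨h3, h4⟩ | ⟨h3, h4⟩
        · nlinarith
        · nlinarith
      have hc2 : -(Nm : ℤ) < (i : ℤ) * Nm - (x + 1 - y0) * q := by
        rcases hx with ⟨h3, h4⟩ | ⟨h3, h4⟩
        · have h5 : x + 1 - y0 ≤ p := by linarith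
          nlinarith
        · have h5 : x + 1 - y0 ≤ Y - y0 := by linarith
          nlinarith
      unfold TT
      rw [Finset.mem_filter, Finset.mem_Ico, abs_lt]
      refine ⟨⟨?_, ?_⟩, hc2, hc1⟩
      · by_contra hcon
        push Not at hcon
        have h6 : x + 1 - y0 ≤ -Nm := by linarith
        nlinarith
      · push_cast
        by_contra hcon
        push Not at hcon
        have h6 : (Nm : ℤ) + 1 ≤ x + 1 - y0 := by linarith
        nlinarith
    refine (Finset.sum_le_sum h2).trans ?_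
    rw [Finset.sum_const, Finset.card_range, nsmul_eq_mul]
  -- double counting
  have hdc : ∑ j ∈ range q, ∑ x ∈ TT Nm q y0 (ix c q j), vv Nm Φ x ≤ 4 * V := by
    have h1 : ∀ j ∈ range q, ∑ x ∈ TT Nm q y0 (ix c q j), vv Nm Φ x =
        ∑ x ∈ Finset.Ico (y0 - Nm) (y0 - Nm + (Nm + Nm : ℕ)),
          if x ∈ TT Nm q y0 (ix c q j) then vv Nm Φ x else 0 := by
      intro j _
      rw [← Finset.sum_filter]
      refine Finset.sum_congr ?_ fun _ _ => rfl
      ext x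
      rw [Finset.mem_filter]
      constructor
      · intro h
        exact ⟨(Finset.mem_filter.1 h).1, h⟩
      · intro h
        exact h.2
    rw [Finset.sum_congr rfl h1, Finset.sum_comm]
    calc ∑ x ∈ Finset.Ico (y0 - Nm) (y0 - Nm + (Nm + Nm : ℕ)), ∑ j ∈ range q,
          (if x ∈ TT Nm q y0 (ix c q j) then vv Nm Φ x else 0)
        ≤ ∑ x ∈ Finset.Ico (y0 - Nm) (y0 - Nm + (Nm + Nm : ℕ)), 2 * vv Nm Φ x := by
          refine Finset.sum_le_sum fun x _ => ?_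
          rw [← Finset.sum_filter, Finset.sum_const, nsmul_eq_mul]
          have h2 := card_le_two Nm q hN hq c hc y0 x
          have h3 : (((range q).filter (fun j => x ∈ TT Nm q y0 (ix c q j))).card : ℝ) ≤ 2 := by
            exact_mod_cast h2
          exact mul_le_mul_of_nonneg_right h3 (vv_nonneg x)
      _ = 2 * ∑ x ∈ Finset.Ico (y0 - Nm) (y0 - Nm + (Nm + Nm : ℕ)), vv Nm Φ x := by
          rw [Finset.mul_sum]
      _ ≤ 2 * (2 * V) := by linarith
      _ = 4 * V := by ring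
  -- conclusion
  have hfin : (Nm : ℂ) * (∑ z ∈ range q, Φ (z * A + β) -
      ((q : ℝ) / Nm : ℝ) * ∑ x ∈ range Nm, Φ x) =
      ∑ j ∈ range q, ((Nm : ℂ) * Φ (j * A + β) - ar (ix c q j)) := by
    rw [Finset.sum_sub_distrib, sum_ix c q hq hc ar, hars, ← Finset.mul_sum]
    push_cast
    field_simp
  have h5 : (Nm : ℝ) * ‖∑ z ∈ range q, Φ (z * A + β) -
      ((q : ℝ) / Nm : ℝ) * ∑ x ∈ range Nm, Φ x‖ ≤ Nm * (4 * V) := by
    have h6 : (Nm : ℝ) * ‖∑ z ∈ range q, Φ (z * A + β) -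
      ((q : ℝ) / Nm : ℝ) * ∑ x ∈ range Nm, Φ x‖ =
        ‖(Nm : ℂ) * (∑ z ∈ range q, Φ (z * A + β) -
      ((q : ℝ) / Nm : ℝ) * ∑ x ∈ range Nm, Φ x)‖ := by
      rw [norm_mul, Complex.norm_natCast]
    rw [h6, hfin]
    refine (norm_sum_le _ _).trans ((Finset.sum_le_sum hpt).trans ?_)
    rw [← Finset.mul_sum]
    exact mul_le_mul_of_nonneg_left hdc hNr.le
  exact le_of_mul_le_mul_left h5 hNr

end EQ

open EQ in
theorem claimEQ : ClaimEQ := by
  intro Nm A W X0 Φ V hN hW hX hΦ hΦ1 hV hnd β len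
  have hNr : (0 : ℝ) < Nm := by exact_mod_cast hN
  have hXr : (0 : ℝ) < X0 := by exact_mod_cast hX
  have hV0 : 0 ≤ V := le_trans (Finset.sum_nonneg fun _ _ => norm_nonneg _) hV
  obtain ⟨ρ, hρ, hρd⟩ := Real.exists_rat_abs_sub_le_and_den_le ((A : ℝ) / Nm)
    (n := X0) (by omega)
  set q : ℕ := ρ.den with hq
  set c : ℤ := ρ.num with hc
  have hq0 : 0 < q := ρ.den_pos
  have hqr : (0 : ℝ) < q := by exact_mod_cast hq0
  have hcop : IsCoprime c (q : ℤ) := by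
    rw [Int.isCoprime_iff_nat_coprime]
    simpa using ρ.reduced
  have hρe : (ρ : ℝ) = (c : ℝ) / q := by
    rw [hc, hq]
    exact_mod_cast (Rat.num_div_den ρ).symm
  rw [hρe] at hρ
  have hqX : (q : ℝ) ≤ X0 := by exact_mod_cast hρd
  -- q times the error
  have hqa : |(q : ℝ) * ((A : ℝ) / Nm) - c| ≤ 1 / (X0 + 1) := by
    have h1 : (q : ℝ) * ((A : ℝ) / Nm) - c = q * ((A : ℝ) / Nm - c / q) := by
      field_simp
    rw [h1, abs_mul, abs_of_pos hqr]
    calc (q : ℝ) * |(A : ℝ) / Nm - c / q| ≤ q * (1 / ((X0 + 1) * q)) := by gcongr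
      _ = 1 / (X0 + 1) := by field_simp
  have hqW : W < q := by
    by_contra hcon
    push Not at hcon
    have h1 := hnd q hq0 hcon
    have h2 := nd_le_abs_sub_int ((q : ℝ) * A / Nm) c
    have h3 : (q : ℝ) * A / Nm = (q : ℝ) * ((A : ℝ) / Nm) := by ring
    rw [h3] at h1 h2
    have h4 : (1 : ℝ) / (X0 + 1) < 1 / X0 := one_div_lt_one_div_of_lt hXr (by linarith)
    linarith
  have hclose : ∀ j < q, |(j : ℤ) * A * q - c * j * Nm| < Nm := by
    intro j hj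
    have h1 : (((|(j : ℤ) * A * q - c * j * Nm| : ℤ)) : ℝ) < Nm := by
      push_cast
      have h2 : (j : ℝ) * A * q - c * j * Nm = (j * Nm) * ((q : ℝ) * ((A : ℝ) / Nm) - c) := by
        field_simp
      rw [h2, abs_mul, abs_of_nonneg (by positivity)]
      have h3 : (j : ℝ) < X0 + 1 := by
        have : (j : ℝ) < q := by exact_mod_cast hj
        linarith
      calc (j : ℝ) * Nm * |(q : ℝ) * ((A : ℝ) / Nm) - c| ≤ j * Nm * (1 / (X0 + 1)) := by gcongr
        _ = (j / (X0 + 1)) * Nm := by ring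
        _ < 1 * Nm := by
            have : (j : ℝ) / (X0 + 1) < 1 := by
              rw [div_lt_one (by positivity)]
              exact h3
            exact mul_lt_mul_of_pos_right this hNr
        _ = Nm := one_mul _
    exact_mod_cast h1
  have hS : ‖∑ x ∈ range Nm, Φ x‖ ≤ Nm := by
    refine (norm_sum_le _ _).trans ?_
    refine (Finset.sum_le_sum fun x _ => hΦ1 x).trans ?_
    simp
  -- induction over the number of blocks
  have key : ∀ (len β : ℕ), ‖∑ z ∈ range len, Φ (z * A + β) -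
      ((len : ℝ) / Nm : ℝ) * ∑ x ∈ range Nm, Φ x‖ ≤ 4 * V * (len / q) + 2 * q := by
    intro len
    induction len using Nat.strong_induction_on with
    | _ len ih =>
      intro β
      by_cases hlen : len < q
      · have h1 : ‖∑ z ∈ range len, Φ (z * A + β)‖ ≤ len := by
          refine (norm_sum_le _ _).trans ?_
          refine (Finset.sum_le_sum fun x _ => hΦ1 _).trans ?_
          simp
        have h2 : ‖(((len : ℝ) / Nm : ℝ) : ℂ) * ∑ x ∈ range Nm, Φ x‖ ≤ len := by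
          rw [norm_mul, Complex.norm_real, Real.norm_of_nonneg (by positivity)]
          calc (len : ℝ) / Nm * ‖∑ x ∈ range Nm, Φ x‖ ≤ len / Nm * Nm := by gcongr
            _ = len := by field_simp
        have h3 : (len : ℝ) ≤ q := by exact_mod_cast hlen.le
        have h4 : 0 ≤ 4 * V * ((len : ℝ) / q) := by positivity
        calc _ ≤ ‖∑ z ∈ range len, Φ (z * A + β)‖ +
              ‖(((len : ℝ) / Nm : ℝ) : ℂ) * ∑ x ∈ range Nm, Φ x‖ := norm_sub_le _ _
          _ ≤ len + len := add_le_add h1 h2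
          _ ≤ _ := by linarith
      · push Not at hlen
        obtain ⟨m, rfl⟩ := Nat.exists_eq_add_of_le hlen
        have h1 := ih m (by omega) (q * A + β)
        have h2 := block hN hΦ V hV A q hq0 c hcop hclose β
        have h3 : ∑ z ∈ range (q + m), Φ (z * A + β) -
            (((q + m : ℕ) : ℝ) / Nm : ℝ) * ∑ x ∈ range Nm, Φ x =
            (∑ z ∈ range q, Φ (z * A + β) - ((q : ℝ) / Nm : ℝ) * ∑ x ∈ range Nm, Φ x) +
            (∑ z ∈ range m, Φ (z * A + (q * A + β)) -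
              ((m : ℝ) / Nm : ℝ) * ∑ x ∈ range Nm, Φ x) := by
          rw [Finset.sum_range_add]
          have h4 : ∀ x, (q + x) * A + β = x * A + (q * A + β) := fun x => by ring
          simp_rw [h4]
          push_cast
          ring
        rw [h3]
        refine (norm_add_le _ _).trans ?_
        have h5 : (((q + m : ℕ) : ℝ) / q) = 1 + (m : ℝ) / q := by
          push_cast
          field_simp
        rw [h5]
        linarith
  refine (key len β).trans ?_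
  have hWr : (0 : ℝ) < W := by exact_mod_cast hW
  have h1 : (len : ℝ) / q ≤ len / W := by
    have : (W : ℝ) ≤ q := by exact_mod_cast hqW.le
    gcongr
  have h2 : 0 ≤ V * ((len : ℝ) / W) := by positivity
  have h3 : 4 * V * ((len : ℝ) / q) ≤ 4 * V * (len / W) := by gcongr
  have h4 : 7 * V * (len : ℝ) / W = 7 * (V * (len / W)) := by ring
  rw [h4]
  nlinarith

end Pool.Agent.Work.MP_8e4d29_nt

end

section

/-!
MP_8e4d29_nt, item A5: counting with the Fejer majorant, one condition.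
-/

namespace Pool.Agent.Work.MP_8e4d29_nt

open Finset
open Pool.Agent.Work.MP_122e00_nt (ee norm_ee ee_add ee_neg ee_one_period ee_nat_mul norm_ee_sub_one
  geom_bound)

namespace FejerAux

/-- the Dirichlet kernel -/
noncomputable def dk (Z : ℕ) (u : ℝ) : ℂ := ∑ h ∈ range Z, ee (h * u)

theorem nd_nat_mul_eq (Z : ℕ) (hZ : 1 ≤ Z) (u : ℝ) (hu : nd u ≤ 1 / (2 * Z)) :
    nd (Z * u) = Z * nd u := by
  obtain ⟨k, hk⟩ := exists_int_nd u
  have hZ0 : (0 : ℝ) < Z := by exact_mod_cast hZ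
  have e : (Z : ℝ) * u = Z * (u - k) + ((Z * k : ℤ) : ℝ) := by push_cast; ring
  rw [e, nd_add_int, nd_eq_abs, abs_mul, abs_of_pos hZ0, hk]
  rw [abs_mul, abs_of_pos hZ0, ← hk]
  calc (Z : ℝ) * nd u ≤ Z * (1 / (2 * Z)) := mul_le_mul_of_nonneg_left hu hZ0.le
    _ = 1 / 2 := by field_simp

theorem dk_lower (Z : ℕ) (hZ : 1 ≤ Z) (u : ℝ) (hu : nd u ≤ 1 / (2 * Z)) :
    (Z : ℝ) ^ 2 ≤ 3 * ‖dk Z u‖ ^ 2 := by
  have hZ0 : (0 : ℝ) < Z := by exact_mod_cast hZ
  have hg : dk Z u = ∑ h ∈ range Z, ee u ^ h := by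
    unfold dk
    apply Finset.sum_congr rfl
    intro h _
    rw [ee_nat_mul]
  rcases (nd_nonneg u).lt_or_eq with h0 | h0
  · have h1 : dk Z u * (ee u - 1) = ee (Z * u) - 1 := by
      rw [hg, geom_sum_mul, ee_nat_mul]
    have h2 : ‖dk Z u‖ * ‖ee u - 1‖ = ‖ee (Z * u) - 1‖ := by rw [← h1, norm_mul]
    have h3 := norm_ee_sub_one_ge (Z * u)
    rw [nd_nat_mul_eq Z hZ u hu, ← h2] at h3
    have h4 := norm_ee_sub_one_le u
    have h5 : 4 * (Z * nd u) ≤ ‖dk Z u‖ * (2 * Real.pi * nd u) :=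
      h3.trans (mul_le_mul_of_nonneg_left h4 (norm_nonneg _))
    have h6 : 2 * (Z : ℝ) ≤ Real.pi * ‖dk Z u‖ := by
      by_contra h
      push Not at h
      nlinarith
    have h7 : Real.pi < 3.15 := Real.pi_lt_d2
    have h8 := Real.pi_pos
    have h9 : 2 * (Z : ℝ) ≤ 3.15 * ‖dk Z u‖ :=
      h6.trans (mul_le_mul_of_nonneg_right h7.le (norm_nonneg _))
    nlinarith [norm_nonneg (dk Z u)]
  · obtain ⟨k, hk⟩ := exists_int_nd u
    rw [← h0] at hk
    have h1 : u = k := by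
      have := abs_eq_zero.mp hk.symm
      linarith
    have h2 : ee u = 1 := by rw [h1, ee_int]
    rw [hg, h2]
    simp only [one_pow, sum_const, card_range, nsmul_eq_mul, mul_one, Complex.norm_natCast]
    nlinarith

theorem dk_sq (Z : ℕ) (u : ℝ) : ((‖dk Z u‖ ^ 2 : ℝ) : ℂ) =
    ∑ h ∈ range Z, ∑ h' ∈ range Z, ee (((h : ℤ) - (h' : ℤ) : ℤ) * u) := by
  rw [← Complex.normSq_eq_norm_sq, ← Complex.mul_conj]
  unfold dk
  rw [map_sum, Finset.sum_mul_sum]
  apply Finset.sum_congr rfl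
  intro h _
  apply Finset.sum_congr rfl
  intro h' _
  rw [← ee_sub]
  congr 1
  push_cast
  ring

theorem sum_gm_diff (Z : ℕ) (X ξ : ℝ) (hX : 0 ≤ X) (h : ℕ) (hh : h < Z) :
    ∑ h' ∈ range Z, gm X (((h : ℤ) - (h' : ℤ) : ℤ) * ξ) ≤
      X + 2 * ∑ d ∈ Ico 1 Z, gm X (d * ξ) := by
  have h1 : ∑ h' ∈ range Z, gm X (((h : ℤ) - (h' : ℤ) : ℤ) * ξ) =
      ∑ h' ∈ Ico 0 h, gm X (((h : ℤ) - (h' : ℤ) : ℤ) * ξ) + (gm X (((h : ℤ) - (h : ℤ) : ℤ) * ξ) +
        ∑ h' ∈ Ico (h + 1) Z, gm X (((h : ℤ) - (h' : ℤ) : ℤ) * ξ)) := by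
    rw [Finset.range_eq_Ico, ← Finset.sum_Ico_consecutive _ (Nat.zero_le h) hh.le,
      Finset.sum_eq_sum_Ico_succ_bot hh]
  have h2 : ∑ h' ∈ Ico 0 h, gm X (((h : ℤ) - (h' : ℤ) : ℤ) * ξ) ≤
      ∑ d ∈ Ico 1 Z, gm X (d * ξ) := by
    have h3 : ∑ h' ∈ Ico 0 h, gm X (((h : ℤ) - (h' : ℤ) : ℤ) * ξ) =
        ∑ d ∈ (Ico 0 h).image (fun h' => h - h'), gm X (d * ξ) := by
      rw [Finset.sum_image]
      · apply Finset.sum_congr rfl
        intro h' hh'
        rw [mem_Ico] at hh'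
        congr 1
        rw [Nat.cast_sub hh'.2.le]
        push_cast
        ring
      · intro a ha b hb hab
        rw [Finset.mem_coe, mem_Ico] at ha hb
        simp only at hab
        omega
    rw [h3]
    apply Finset.sum_le_sum_of_subset_of_nonneg
    · intro d hd
      rw [mem_image] at hd
      obtain ⟨a, ha, rfl⟩ := hd
      rw [mem_Ico] at ha ⊢
      omega
    · intro d _ _
      exact gm_nonneg hX _
  have h4 : ∑ h' ∈ Ico (h + 1) Z, gm X (((h : ℤ) - (h' : ℤ) : ℤ) * ξ) ≤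
      ∑ d ∈ Ico 1 Z, gm X (d * ξ) := by
    have h3 : ∑ h' ∈ Ico (h + 1) Z, gm X (((h : ℤ) - (h' : ℤ) : ℤ) * ξ) =
        ∑ d ∈ (Ico (h + 1) Z).image (fun h' => h' - h), gm X (d * ξ) := by
      rw [Finset.sum_image]
      · apply Finset.sum_congr rfl
        intro h' hh'
        rw [mem_Ico] at hh'
        rw [← gm_neg]
        congr 1
        rw [Nat.cast_sub (by omega)]
        push_cast
        ring
      · intro a ha b hb hab
        rw [Finset.mem_coe, mem_Ico] at ha hb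
        simp only at hab
        omega
    rw [h3]
    apply Finset.sum_le_sum_of_subset_of_nonneg
    · intro d hd
      rw [mem_image] at hd
      obtain ⟨a, ha, rfl⟩ := hd
      rw [mem_Ico] at ha ⊢
      omega
    · intro d _ _
      exact gm_nonneg hX _
  have h5 := gm_le X (((h : ℤ) - (h : ℤ) : ℤ) * ξ)
  rw [h1]
  linarith

theorem sum_dk_sq_le (X Z : ℕ) (ξ γ : ℝ) :
    ∑ t ∈ range X, ‖dk Z (t * ξ - γ)‖ ^ 2 ≤ Z * (X + 2 * ∑ d ∈ Ico 1 Z, gm X (d * ξ)) := by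
  have h0 : (0 : ℝ) ≤ ∑ t ∈ range X, ‖dk Z (t * ξ - γ)‖ ^ 2 :=
    Finset.sum_nonneg fun t _ => sq_nonneg _
  have h1 : ((∑ t ∈ range X, ‖dk Z (t * ξ - γ)‖ ^ 2 : ℝ) : ℂ) =
      ∑ h ∈ range Z, ∑ h' ∈ range Z, ∑ t ∈ range X,
        ee (t * (((h : ℤ) - (h' : ℤ) : ℤ) * ξ) + -(((h : ℤ) - (h' : ℤ) : ℤ) * γ)) := by
    rw [Complex.ofReal_sum, Finset.sum_congr rfl (fun (t : ℕ) _ => dk_sq Z (t * ξ - γ)),
      Finset.sum_comm]
    apply Finset.sum_congr rfl
    intro h _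
    rw [Finset.sum_comm]
    apply Finset.sum_congr rfl
    intro h' _
    apply Finset.sum_congr rfl
    intro t _
    congr 1
    ring
  have h2 : ∑ t ∈ range X, ‖dk Z (t * ξ - γ)‖ ^ 2 =
      ‖((∑ t ∈ range X, ‖dk Z (t * ξ - γ)‖ ^ 2 : ℝ) : ℂ)‖ := by
    rw [Complex.norm_real, Real.norm_of_nonneg h0]
  rw [h2, h1]
  refine (norm_sum_le _ _).trans ?_
  have h3 : ∀ h ∈ range Z, ‖∑ h' ∈ range Z, ∑ t ∈ range X,
        ee (t * (((h : ℤ) - (h' : ℤ) : ℤ) * ξ) + -(((h : ℤ) - (h' : ℤ) : ℤ) * γ))‖ ≤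
      X + 2 * ∑ d ∈ Ico 1 Z, gm X (d * ξ) := by
    intro h hh
    refine (norm_sum_le _ _).trans ?_
    refine le_trans ?_ (sum_gm_diff Z X ξ (Nat.cast_nonneg X) h (mem_range.mp hh))
    apply Finset.sum_le_sum
    intro h' _
    exact norm_geom_le _ _ X
  refine (Finset.sum_le_sum h3).trans ?_
  rw [sum_const, card_range, nsmul_eq_mul]

end FejerAux

open FejerAux in
theorem claimFejer1 : ClaimFejer1 := by
  intro X Z ξ γ hZ
  have hZ0 : (0 : ℝ) < Z := by exact_mod_cast hZ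
  set A := (range X).filter (fun t : ℕ => nd (t * ξ - γ) ≤ 1 / (2 * Z)) with hA
  have h1 : (A.card : ℝ) * (Z : ℝ) ^ 2 ≤ 3 * ∑ t ∈ range X, ‖dk Z (t * ξ - γ)‖ ^ 2 := by
    calc (A.card : ℝ) * (Z : ℝ) ^ 2 = ∑ t ∈ A, (Z : ℝ) ^ 2 := by simp
      _ ≤ ∑ t ∈ A, 3 * ‖dk Z (t * ξ - γ)‖ ^ 2 := by
          apply Finset.sum_le_sum
          intro t ht
          rw [hA, mem_filter] at ht
          exact dk_lower Z hZ _ ht.2
      _ ≤ ∑ t ∈ range X, 3 * ‖dk Z (t * ξ - γ)‖ ^ 2 :=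
          Finset.sum_le_sum_of_subset_of_nonneg (filter_subset _ _) (fun t _ _ => by positivity)
      _ = _ := by rw [Finset.mul_sum]
  have h2 := sum_dk_sq_le X Z ξ γ
  have h3 : (A.card : ℝ) * (Z : ℝ) ^ 2 ≤
      3 * (Z * (X + 2 * ∑ d ∈ Ico 1 Z, gm X (d * ξ))) := h1.trans (by linarith)
  rw [div_mul_eq_mul_div, le_div_iff₀ hZ0]
  have h4 : ((A.card : ℝ) * Z) * Z ≤ (3 * (X + 2 * ∑ d ∈ Ico 1 Z, gm X (d * ξ))) * Z := by
    calc ((A.card : ℝ) * Z) * Z = (A.card : ℝ) * (Z : ℝ) ^ 2 := by ring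
      _ ≤ _ := h3
      _ = _ := by ring
  exact le_of_mul_le_mul_right h4 hZ0

end Pool.Agent.Work.MP_8e4d29_nt

end

section

/-!
MP_8e4d29_nt, item A6: counting with the Fejer majorant, two conditions.
-/

namespace Pool.Agent.Work.MP_8e4d29_nt

open Finset
open Pool.Agent.Work.MP_122e00_nt (ee norm_ee ee_add ee_neg ee_one_period ee_nat_mul)

namespace Fejer2

/-- Dirichlet sum -/
noncomputable def DK (Z : ℕ) (u : ℝ) : ℂ := ∑ a ∈ range Z, ee (a * u)

lemma DK_lower (Z : ℕ) (hZ : 1 ≤ Z) (u : ℝ) (hu : nd u ≤ 1 / (2 * Z)) :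
    2 * (Z : ℝ) / Real.pi ≤ ‖DK Z u‖ := by
  have hZp : (0 : ℝ) < Z := by exact_mod_cast hZ
  have hpi := Real.pi_gt_three
  have hpi0 := Real.pi_pos
  obtain ⟨k, hk⟩ := exists_int_nd u
  rcases (nd_nonneg u).lt_or_eq with h0 | h0
  · have hne : ee u ≠ 1 := by
      intro h
      have := norm_ee_sub_one_ge u
      rw [h, sub_self, norm_zero] at this
      linarith
    have h1 : DK Z u = (ee u ^ Z - 1) / (ee u - 1) := by
      unfold DK
      rw [← geom_sum_eq hne]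
      exact Finset.sum_congr rfl fun a _ => ee_nat_mul _ _
    have h2 : nd (Z * u) = Z * nd u := by
      have e : (Z : ℝ) * u = Z * (u - k) + ((Z * k : ℤ) : ℝ) := by push_cast; ring
      rw [e, nd_add_int, nd_eq_abs, abs_mul, abs_of_pos hZp, hk]
      rw [abs_mul, abs_of_pos hZp, ← hk]
      rw [le_div_iff₀ (by positivity)] at hu
      linarith
    have h3 := norm_ee_sub_one_ge (Z * u)
    rw [h2, ee_nat_mul] at h3
    have h4 := norm_ee_sub_one_le u
    have h5 : 0 < ‖ee u - 1‖ := norm_pos_iff.mpr (sub_ne_zero.mpr hne)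
    rw [h1, norm_div, div_le_div_iff₀ hpi0 h5]
    have h6 : 2 * (Z : ℝ) * ‖ee u - 1‖ ≤ 2 * Z * (2 * Real.pi * nd u) :=
      mul_le_mul_of_nonneg_left h4 (by positivity)
    have h7 : 4 * (Z * nd u) * Real.pi ≤ ‖ee u ^ Z - 1‖ * Real.pi :=
      mul_le_mul_of_nonneg_right h3 hpi0.le
    linarith
  · have hu0 : u = k := by
      rw [hk] at h0
      have := abs_eq_zero.mp h0.symm
      linarith
    have h1 : DK Z u = Z := by
      unfold DK
      have : ∀ a ∈ range Z, ee (a * u) = 1 := by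
        intro a _
        rw [hu0]
        have := ee_int ((a : ℤ) * k)
        push_cast at this
        exact this
      rw [Finset.sum_congr rfl this]
      simp
    rw [h1, Complex.norm_natCast, div_le_iff₀ hpi0]
    nlinarith

lemma DK_ind (Z : ℕ) (hZ : 1 ≤ Z) (u : ℝ) (hu : nd u ≤ 1 / (2 * Z)) :
    1 ≤ Real.pi ^ 2 / (4 * (Z : ℝ) ^ 2) * ‖DK Z u‖ ^ 2 := by
  have hZp : (0 : ℝ) < Z := by exact_mod_cast hZ
  have h := DK_lower Z hZ u hu
  have h2 : (2 * (Z : ℝ) / Real.pi) ^ 2 ≤ ‖DK Z u‖ ^ 2 :=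
    pow_le_pow_left₀ (by positivity) h 2
  calc (1 : ℝ) = Real.pi ^ 2 / (4 * (Z : ℝ) ^ 2) * (2 * (Z : ℝ) / Real.pi) ^ 2 := by
        field_simp; norm_num
    _ ≤ _ := mul_le_mul_of_nonneg_left h2 (by positivity)

lemma DK_sq (Z : ℕ) (u : ℝ) :
    ((‖DK Z u‖ ^ 2 : ℝ) : ℂ) = ∑ a ∈ range Z, ∑ b ∈ range Z, ee (((a : ℝ) - b) * u) := by
  have h : ((‖DK Z u‖ ^ 2 : ℝ) : ℂ) = DK Z u * (starRingEnd ℂ) (DK Z u) := by
    rw [Complex.mul_conj, Complex.normSq_eq_norm_sq]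
  rw [h]
  unfold DK
  rw [map_sum, Finset.sum_mul_sum]
  refine Finset.sum_congr rfl fun a _ => Finset.sum_congr rfl fun b _ => ?_
  rw [← ee_sub]
  congr 1
  ring

lemma diff_sum (Z : ℕ) (a : ℕ) (ha : a ∈ range Z) (g : ℤ → ℝ) (hg : ∀ h, 0 ≤ g h) :
    ∑ b ∈ range Z, g ((a : ℤ) - b) ≤ ∑ h ∈ Ioo (-(Z : ℤ)) Z, g h := by
  have hinj : Set.InjOn (fun b : ℕ => (a : ℤ) - b) (range Z) := by
    intro b _ b' _ h
    simp only at h
    omega
  have := Finset.sum_image (f := g) hinj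
  rw [← this]
  refine Finset.sum_le_sum_of_subset_of_nonneg ?_ fun _ _ _ => hg _
  intro h hh
  rw [Finset.mem_image] at hh
  obtain ⟨b, hb, rfl⟩ := hh
  rw [Finset.mem_range] at ha hb
  rw [Finset.mem_Ioo]
  constructor <;> omega

lemma diff_sum2 (Z Z' : ℕ) (g : ℤ → ℤ → ℝ) (hg : ∀ h h', 0 ≤ g h h') :
    ∑ a ∈ range Z, ∑ b ∈ range Z, ∑ a' ∈ range Z', ∑ b' ∈ range Z',
      g ((a : ℤ) - b) ((a' : ℤ) - b') ≤
    (Z : ℝ) * Z' * ∑ h ∈ Ioo (-(Z : ℤ)) Z, ∑ h' ∈ Ioo (-(Z' : ℤ)) Z', g h h' := by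
  have h1 : ∀ h : ℤ, ∑ a' ∈ range Z', ∑ b' ∈ range Z', g h ((a' : ℤ) - b') ≤
      (Z' : ℝ) * ∑ h' ∈ Ioo (-(Z' : ℤ)) Z', g h h' := by
    intro h
    refine (Finset.sum_le_card_nsmul _ _ _ fun a' ha' => diff_sum Z' a' ha' (g h) (hg h)).trans ?_
    rw [Finset.card_range, nsmul_eq_mul]
  calc ∑ a ∈ range Z, ∑ b ∈ range Z, ∑ a' ∈ range Z', ∑ b' ∈ range Z',
      g ((a : ℤ) - b) ((a' : ℤ) - b')
      ≤ ∑ a ∈ range Z, ∑ b ∈ range Z,
          (Z' : ℝ) * ∑ h' ∈ Ioo (-(Z' : ℤ)) Z', g ((a : ℤ) - b) h' :=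
        Finset.sum_le_sum fun a _ => Finset.sum_le_sum fun b _ => h1 _
    _ ≤ ∑ a ∈ range Z, ∑ h ∈ Ioo (-(Z : ℤ)) Z,
          (Z' : ℝ) * ∑ h' ∈ Ioo (-(Z' : ℤ)) Z', g h h' :=
        Finset.sum_le_sum fun a ha => diff_sum Z a ha
          (fun h => (Z' : ℝ) * ∑ h' ∈ Ioo (-(Z' : ℤ)) Z', g h h')
          (fun h => mul_nonneg (Nat.cast_nonneg _) (Finset.sum_nonneg fun _ _ => hg _ _))
    _ = _ := by
        rw [Finset.sum_const, Finset.card_range, nsmul_eq_mul, ← Finset.mul_sum]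
        ring

lemma four_sum (X Z Z' : ℕ) (ξ γ ξ' γ' : ℝ) :
    ∑ t ∈ range X, ‖DK Z (t * ξ - γ)‖ ^ 2 * ‖DK Z' (t * ξ' - γ')‖ ^ 2 ≤
    ∑ a ∈ range Z, ∑ b ∈ range Z, ∑ a' ∈ range Z', ∑ b' ∈ range Z',
      gm X ((((a : ℤ) - b : ℤ) : ℝ) * ξ + (((a' : ℤ) - b' : ℤ) : ℝ) * ξ') := by
  have h0 : 0 ≤ ∑ t ∈ range X, ‖DK Z (t * ξ - γ)‖ ^ 2 * ‖DK Z' (t * ξ' - γ')‖ ^ 2 :=
    Finset.sum_nonneg fun t _ => by positivity
  have hc : ((∑ t ∈ range X, ‖DK Z (t * ξ - γ)‖ ^ 2 * ‖DK Z' (t * ξ' - γ')‖ ^ 2 : ℝ) : ℂ)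
      = ∑ a ∈ range Z, ∑ b ∈ range Z, ∑ a' ∈ range Z', ∑ b' ∈ range Z', ∑ t ∈ range X,
        ee (t * ((((a : ℤ) - b : ℤ) : ℝ) * ξ + (((a' : ℤ) - b' : ℤ) : ℝ) * ξ') +
          (-(((a : ℝ) - b) * γ) - ((a' : ℝ) - b') * γ')) := by
    have h1 : ((∑ t ∈ range X, ‖DK Z (t * ξ - γ)‖ ^ 2 * ‖DK Z' (t * ξ' - γ')‖ ^ 2 : ℝ) : ℂ)
        = ∑ t ∈ range X, ∑ a ∈ range Z, ∑ b ∈ range Z, ∑ a' ∈ range Z', ∑ b' ∈ range Z',
        ee (t * ((((a : ℤ) - b : ℤ) : ℝ) * ξ + (((a' : ℤ) - b' : ℤ) : ℝ) * ξ') +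
          (-(((a : ℝ) - b) * γ) - ((a' : ℝ) - b') * γ')) := by
      rw [Complex.ofReal_sum]
      refine Finset.sum_congr rfl fun t _ => ?_
      rw [Complex.ofReal_mul, DK_sq, DK_sq, Finset.sum_mul]
      refine Finset.sum_congr rfl fun a _ => ?_
      rw [Finset.sum_mul]
      refine Finset.sum_congr rfl fun b _ => ?_
      rw [Finset.mul_sum]
      refine Finset.sum_congr rfl fun a' _ => ?_
      rw [Finset.mul_sum]
      refine Finset.sum_congr rfl fun b' _ => ?_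
      rw [← ee_add]
      congr 1
      push_cast
      ring
    rw [h1, Finset.sum_comm]
    refine Finset.sum_congr rfl fun a _ => ?_
    rw [Finset.sum_comm]
    refine Finset.sum_congr rfl fun b _ => ?_
    rw [Finset.sum_comm]
    refine Finset.sum_congr rfl fun a' _ => ?_
    rw [Finset.sum_comm]
  have h2 : ∑ t ∈ range X, ‖DK Z (t * ξ - γ)‖ ^ 2 * ‖DK Z' (t * ξ' - γ')‖ ^ 2
      = ‖((∑ t ∈ range X, ‖DK Z (t * ξ - γ)‖ ^ 2 * ‖DK Z' (t * ξ' - γ')‖ ^ 2 : ℝ) : ℂ)‖ := by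
    rw [Complex.norm_real, Real.norm_of_nonneg h0]
  rw [h2, hc]
  refine (norm_sum_le _ _).trans (Finset.sum_le_sum fun a _ => ?_)
  refine (norm_sum_le _ _).trans (Finset.sum_le_sum fun b _ => ?_)
  refine (norm_sum_le _ _).trans (Finset.sum_le_sum fun a' _ => ?_)
  refine (norm_sum_le _ _).trans (Finset.sum_le_sum fun b' _ => ?_)
  exact norm_geom_le _ _ _

lemma zero_term (X : ℝ) (hX : 0 ≤ X) (Z Z' : ℕ) (ξ ξ' : ℝ) :
    ∑ h ∈ Ioo (-(Z : ℤ)) Z, ∑ h' ∈ Ioo (-(Z' : ℤ)) Z', gm X (h * ξ + h' * ξ') ≤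
    X + ∑ h ∈ Ioo (-(Z : ℤ)) Z, ∑ h' ∈ Ioo (-(Z' : ℤ)) Z',
      if h = 0 ∧ h' = 0 then 0 else gm X (h * ξ + h' * ξ') := by
  have h1 : ∀ h h' : ℤ, gm X (h * ξ + h' * ξ') =
      (if h' = 0 then (if h = 0 then gm X 0 else 0) else 0) +
        (if h = 0 ∧ h' = 0 then 0 else gm X (h * ξ + h' * ξ')) := by
    intro h h'
    by_cases a : h = 0 <;> by_cases b : h' = 0 <;> simp [a, b]
  have h2 : ∑ h ∈ Ioo (-(Z : ℤ)) Z, ∑ h' ∈ Ioo (-(Z' : ℤ)) Z',
      (if h' = 0 then (if h = 0 then gm X 0 else 0) else 0) ≤ X := by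
    simp only [Finset.sum_ite_eq']
    have h3 : ∀ h : ℤ, (if (0 : ℤ) ∈ Ioo (-(Z' : ℤ)) Z' then (if h = 0 then gm X 0 else 0) else 0)
        ≤ if h = 0 then X else 0 := by
      intro h
      split_ifs
      · exact gm_le _ _
      · exact le_rfl
      · exact hX
      · exact le_rfl
    refine (Finset.sum_le_sum fun h _ => h3 h).trans ?_
    rw [Finset.sum_ite_eq' _ _ (fun _ => X)]
    split_ifs
    · exact le_rfl
    · exact hX
  calc ∑ h ∈ Ioo (-(Z : ℤ)) Z, ∑ h' ∈ Ioo (-(Z' : ℤ)) Z', gm X (h * ξ + h' * ξ')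
      = ∑ h ∈ Ioo (-(Z : ℤ)) Z, ∑ h' ∈ Ioo (-(Z' : ℤ)) Z',
        ((if h' = 0 then (if h = 0 then gm X 0 else 0) else 0) +
        (if h = 0 ∧ h' = 0 then 0 else gm X (h * ξ + h' * ξ'))) :=
        Finset.sum_congr rfl fun h _ => Finset.sum_congr rfl fun h' _ => h1 h h'
    _ = (∑ h ∈ Ioo (-(Z : ℤ)) Z, ∑ h' ∈ Ioo (-(Z' : ℤ)) Z',
          (if h' = 0 then (if h = 0 then gm X 0 else 0) else 0)) +
        ∑ h ∈ Ioo (-(Z : ℤ)) Z, ∑ h' ∈ Ioo (-(Z' : ℤ)) Z',
          (if h = 0 ∧ h' = 0 then 0 else gm X (h * ξ + h' * ξ')) := by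
        simp only [Finset.sum_add_distrib]
    _ ≤ _ := by linarith

end Fejer2

open Fejer2 in
theorem claimFejer2 : ClaimFejer2 := by
  intro X Z Z' ξ γ ξ' γ' hZ hZ'
  have hZp : (0 : ℝ) < Z := by exact_mod_cast hZ
  have hZp' : (0 : ℝ) < Z' := by exact_mod_cast hZ'
  have hcard : (((range X).filter (fun t : ℕ => nd (t * ξ - γ) ≤ 1 / (2 * Z) ∧
      nd (t * ξ' - γ') ≤ 1 / (2 * Z'))).card : ℝ) ≤
      Real.pi ^ 2 / (4 * (Z : ℝ) ^ 2) * (Real.pi ^ 2 / (4 * (Z' : ℝ) ^ 2)) *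
      ∑ t ∈ range X, ‖DK Z (t * ξ - γ)‖ ^ 2 * ‖DK Z' (t * ξ' - γ')‖ ^ 2 := by
    rw [Finset.mul_sum, Finset.card_eq_sum_ones]
    push_cast
    rw [Finset.sum_filter]
    refine Finset.sum_le_sum fun t _ => ?_
    split_ifs with h
    · have a1 := DK_ind Z hZ _ h.1
      have a2 := DK_ind Z' hZ' _ h.2
      calc (1 : ℝ) ≤ (Real.pi ^ 2 / (4 * (Z : ℝ) ^ 2) * ‖DK Z (t * ξ - γ)‖ ^ 2) *
            (Real.pi ^ 2 / (4 * (Z' : ℝ) ^ 2) * ‖DK Z' (t * ξ' - γ')‖ ^ 2) :=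
            one_le_mul_of_one_le_of_one_le a1 a2
        _ = _ := by ring
    · positivity
  have hpi : Real.pi ^ 2 * Real.pi ^ 2 ≤ 144 := by
    have h1 := Real.pi_lt_d2
    have h2 := Real.pi_pos
    have h3 : Real.pi ^ 2 ≤ 12 := by nlinarith
    nlinarith [sq_nonneg Real.pi]
  have hX : (0 : ℝ) ≤ X := Nat.cast_nonneg _
  have h4 := four_sum X Z Z' ξ γ ξ' γ'
  have h5 := diff_sum2 Z Z' (fun h h' => gm X ((h : ℝ) * ξ + (h' : ℝ) * ξ'))
    (fun h h' => gm_nonneg hX _)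
  have h6 := zero_term X hX Z Z' ξ ξ'
  obtain ⟨S, hS⟩ : ∃ S, S = (X : ℝ) + ∑ h ∈ Ioo (-(Z : ℤ)) Z, ∑ h' ∈ Ioo (-(Z' : ℤ)) Z',
      if h = 0 ∧ h' = 0 then 0 else gm X (h * ξ + h' * ξ') := ⟨_, rfl⟩
  rw [← hS] at h6 ⊢
  have hS0 : 0 ≤ S := by
    rw [hS]
    refine add_nonneg hX (Finset.sum_nonneg fun h _ => Finset.sum_nonneg fun h' _ => ?_)
    split_ifs
    · exact le_rfl
    · exact gm_nonneg hX _
  refine hcard.trans ?_
  have h7 : ∑ t ∈ range X, ‖DK Z (t * ξ - γ)‖ ^ 2 * ‖DK Z' (t * ξ' - γ')‖ ^ 2 ≤ Z * Z' * S :=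
    h4.trans (h5.trans (mul_le_mul_of_nonneg_left h6 (by positivity)))
  calc Real.pi ^ 2 / (4 * (Z : ℝ) ^ 2) * (Real.pi ^ 2 / (4 * (Z' : ℝ) ^ 2)) *
      ∑ t ∈ range X, ‖DK Z (t * ξ - γ)‖ ^ 2 * ‖DK Z' (t * ξ' - γ')‖ ^ 2
      ≤ Real.pi ^ 2 / (4 * (Z : ℝ) ^ 2) * (Real.pi ^ 2 / (4 * (Z' : ℝ) ^ 2)) * (Z * Z' * S) :=
        mul_le_mul_of_nonneg_left h7 (by positivity)
    _ = (Real.pi ^ 2 * Real.pi ^ 2) / 16 * (1 / (Z * Z')) * S := by
        field_simp; ring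
    _ ≤ 144 / 16 * (1 / (Z * Z')) * S := by gcongr
    _ = 9 / (Z * Z') * S := by ring

end Pool.Agent.Work.MP_8e4d29_nt

end

section

/-!
MP_8e4d29_nt: grouping the `n` in `(P, 2P]` by the integer nearest to `n ξ`.
-/

namespace Pool.Agent.Work.MP_8e4d29_nt

open Finset

namespace Grp

/-- the first `n` with `n ξ ≥ k` -/
noncomputable def n0 (ξ : ℝ) (k : ℤ) : ℤ := ⌈(k : ℝ) / ξ⌉

/-- the index of `n` in the group of `k` -/
noncomputable def idx (ξ : ℝ) (k : ℤ) (n : ℕ) : ℕ :=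
  if n0 ξ k ≤ n then ((n : ℤ) - n0 ξ k).toNat else (n0 ξ k - 1 - n).toNat

/-- the code of `n` -/
noncomputable def code (ξ : ℝ) (n : ℕ) : ℤ × Bool × ℕ :=
  (round ((n : ℝ) * ξ), decide (n0 ξ (round ((n : ℝ) * ξ)) ≤ n), idx ξ (round ((n : ℝ) * ξ)) n)

theorem code_inj (ξ : ℝ) : Function.Injective (code ξ) := by
  intro a b h
  unfold code at h
  simp only [Prod.mk.injEq] at h
  obtain ⟨h1, h2, h3⟩ := h
  rw [h1] at h2 h3
  unfold idx at h3
  have h4 : (n0 ξ (round ((b : ℝ) * ξ)) ≤ (a : ℤ)) ↔ (n0 ξ (round ((b : ℝ) * ξ)) ≤ (b : ℤ)) := by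
    simpa using h2
  by_cases h5 : n0 ξ (round ((b : ℝ) * ξ)) ≤ (b : ℤ)
  · rw [if_pos (h4.2 h5), if_pos h5] at h3
    have h6 := h4.2 h5
    omega
  · have h6 : ¬ n0 ξ (round ((b : ℝ) * ξ)) ≤ (a : ℤ) := fun h => h5 (h4.1 h)
    rw [if_neg h6, if_neg h5] at h3
    omega

theorem idx_le {ξ : ℝ} (hξ : 0 < ξ) (k : ℤ) (n : ℕ) :
    (idx ξ k n : ℝ) * ξ ≤ |(n : ℝ) * ξ - k| := by
  unfold idx
  split_ifs with h
  · have h1 : (((n : ℤ) - n0 ξ k).toNat : ℤ) = (n : ℤ) - n0 ξ k := Int.toNat_of_nonneg (by omega)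
    have h2 : ((((n : ℤ) - n0 ξ k).toNat : ℕ) : ℝ) = (n : ℝ) - (n0 ξ k : ℝ) := by
      have : ((((n : ℤ) - n0 ξ k).toNat : ℤ) : ℝ) = (((n : ℤ) - n0 ξ k : ℤ) : ℝ) := by rw [h1]
      push_cast at this
      exact_mod_cast this
    have h3 : (k : ℝ) / ξ ≤ n0 ξ k := Int.le_ceil _
    rw [div_le_iff₀ hξ] at h3
    rw [h2]
    refine le_trans ?_ (le_abs_self _)
    nlinarith
  · have h1 : ((n0 ξ k - 1 - n).toNat : ℤ) = n0 ξ k - 1 - n := Int.toNat_of_nonneg (by omega)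
    have h2 : (((n0 ξ k - 1 - n).toNat : ℕ) : ℝ) = (n0 ξ k : ℝ) - 1 - n := by
      have : (((n0 ξ k - 1 - n).toNat : ℤ) : ℝ) = ((n0 ξ k - 1 - n : ℤ) : ℝ) := by rw [h1]
      push_cast at this
      exact_mod_cast this
    have h3 : (n0 ξ k : ℝ) < (k : ℝ) / ξ + 1 := Int.ceil_lt_add_one _
    have h4 : ((n0 ξ k : ℝ) - 1) * ξ < k := by
      have : (n0 ξ k : ℝ) - 1 < (k : ℝ) / ξ := by linarith
      rwa [lt_div_iff₀ hξ] at this
    rw [h2]
    refine le_trans ?_ (neg_le_abs _)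
    nlinarith

/-- the values of `k` -/
noncomputable def KK (P : ℕ) (ξ : ℝ) : Finset ℤ :=
  Finset.Icc ⌈(P : ℝ) * ξ - 1 / 2⌉ ⌊2 * (P : ℝ) * ξ + 1 / 2⌋

theorem KK_card (P : ℕ) (ξ : ℝ) (hξ : 0 < ξ) : ((KK P ξ).card : ℝ) ≤ P * ξ + 2 := by
  unfold KK
  rw [Int.card_Icc]
  have h1 : (⌊2 * (P : ℝ) * ξ + 1 / 2⌋ : ℝ) ≤ 2 * (P : ℝ) * ξ + 1 / 2 := Int.floor_le _
  have h2 : (P : ℝ) * ξ - 1 / 2 ≤ ⌈(P : ℝ) * ξ - 1 / 2⌉ := Int.le_ceil _
  rcases le_or_gt 0 (⌊2 * (P : ℝ) * ξ + 1 / 2⌋ + 1 - ⌈(P : ℝ) * ξ - 1 / 2⌉) with h | h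
  · have h3 : (((⌊2 * (P : ℝ) * ξ + 1 / 2⌋ + 1 - ⌈(P : ℝ) * ξ - 1 / 2⌉).toNat : ℕ) : ℝ) =
        (⌊2 * (P : ℝ) * ξ + 1 / 2⌋ : ℝ) + 1 - ⌈(P : ℝ) * ξ - 1 / 2⌉ := by
      have h4 := Int.toNat_of_nonneg h
      have : (((⌊2 * (P : ℝ) * ξ + 1 / 2⌋ + 1 - ⌈(P : ℝ) * ξ - 1 / 2⌉).toNat : ℤ) : ℝ) =
        ((⌊2 * (P : ℝ) * ξ + 1 / 2⌋ + 1 - ⌈(P : ℝ) * ξ - 1 / 2⌉ : ℤ) : ℝ) := by rw [h4]
      push_cast at this
      exact_mod_cast this
    rw [h3]
    linarith
  · rw [Int.toNat_of_nonpos h.le]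
    simp only [Nat.cast_zero]
    positivity

theorem mem_KK {P n : ℕ} {ξ : ℝ} (hξ : 0 < ξ) (hn : n ∈ Ioc P (2 * P)) :
    round ((n : ℝ) * ξ) ∈ KK P ξ := by
  rw [Finset.mem_Ioc] at hn
  have h1 : |(n : ℝ) * ξ - round ((n : ℝ) * ξ)| ≤ 1 / 2 := abs_sub_round _
  rw [abs_le] at h1
  have h2 : (P : ℝ) ≤ n := by exact_mod_cast hn.1.le
  have h3 : (n : ℝ) ≤ 2 * P := by exact_mod_cast hn.2
  unfold KK
  rw [Finset.mem_Icc]
  constructor
  · rw [Int.ceil_le]
    nlinarith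
  · rw [Int.le_floor]
    nlinarith

/-- the grouping lemma -/
theorem group_sum {P : ℕ} {ξ : ℝ} (hξ : 0 < ξ) (hc : 1 < 4 * (P : ℝ) * ξ)
    (S : Finset ℕ) (hS : S ⊆ Ioc P (2 * P)) (f g : ℕ → ℝ) (hg : ∀ j, 0 ≤ g j) (J : ℕ)
    (hf : ∀ n ∈ S, ∀ j : ℕ, (j : ℝ) * ξ ≤ nd (n * ξ) → f n ≤ g j ∧ j ≤ J) :
    ∑ n ∈ S, f n ≤ 9 * (P * ξ) * (2 * ∑ j ∈ range (J + 1), g j) := by
  have h1 : ∀ n ∈ S, f n ≤ g (code ξ n).2.2 ∧ (code ξ n).2.2 ≤ J := by
    intro n hn
    exact hf n hn _ (idx_le hξ _ n)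
  have h2 : ∑ n ∈ S, f n ≤ ∑ n ∈ S, g (code ξ n).2.2 := Finset.sum_le_sum fun n hn => (h1 n hn).1
  have h3 : ∑ n ∈ S, g (code ξ n).2.2 = ∑ c ∈ S.image (code ξ), g c.2.2 := by
    rw [Finset.sum_image]
    intro a _ b _ h
    exact code_inj ξ h
  have h4 : S.image (code ξ) ⊆ (KK P ξ) ×ˢ ((Finset.univ : Finset Bool) ×ˢ range (J + 1)) := by
    intro c hc
    rw [Finset.mem_image] at hc
    obtain ⟨n, hn, rfl⟩ := hc
    simp only [Finset.mem_product, Finset.mem_univ, true_and, Finset.mem_range]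
    exact ⟨mem_KK hξ (hS hn), Nat.lt_succ_of_le (h1 n hn).2⟩
  have h5 : ∑ c ∈ S.image (code ξ), g c.2.2 ≤
      ∑ c ∈ (KK P ξ) ×ˢ ((Finset.univ : Finset Bool) ×ˢ range (J + 1)), g c.2.2 :=
    Finset.sum_le_sum_of_subset_of_nonneg h4 fun c _ _ => hg _
  have h6 : ∑ c ∈ (KK P ξ) ×ˢ ((Finset.univ : Finset Bool) ×ˢ range (J + 1)), g c.2.2 =
      (KK P ξ).card * (2 * ∑ j ∈ range (J + 1), g j) := by
    rw [Finset.sum_product]
    simp only [Finset.sum_product, Finset.sum_const, Finset.card_univ, Fintype.card_bool,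
      nsmul_eq_mul]
    push_cast
    ring
  have h7 : ((KK P ξ).card : ℝ) ≤ 9 * (P * ξ) := by
    have := KK_card P ξ hξ
    linarith
  have h8 : 0 ≤ 2 * ∑ j ∈ range (J + 1), g j :=
    mul_nonneg zero_le_two (Finset.sum_nonneg fun j _ => hg j)
  calc ∑ n ∈ S, f n ≤ _ := h2
    _ = _ := h3
    _ ≤ _ := h5
    _ = _ := h6
    _ ≤ _ := mul_le_mul_of_nonneg_right h7 h8

end Grp

end Pool.Agent.Work.MP_8e4d29_nt

end

section

set_option autoImplicit false

/-!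
MP_8e4d29_nt, item A9: sums of `min (X, 1/(2‖r α‖))` for `α` close to `a/q`.
-/

namespace Pool.Agent.Work.MP_8e4d29_nt

open Finset

namespace SumGMAux

theorem nd_ge {y : ℝ} : min y (1 - y) ≤ nd y := by
  obtain ⟨k, hk⟩ := exists_int_nd y
  rw [hk]
  rcases le_or_gt k 0 with h | h
  · have h1 : (k : ℝ) ≤ 0 := by exact_mod_cast h
    refine (min_le_left _ _).trans ?_
    refine le_trans ?_ (le_abs_self _)
    linarith
  · have h1 : (1 : ℝ) ≤ k := by exact_mod_cast h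
    refine (min_le_right _ _).trans ?_
    rw [abs_sub_comm]
    refine le_trans ?_ (le_abs_self _)
    linarith

/-- the bound for the point of index `u` -/
noncomputable def FF (X : ℝ) (q u : ℕ) : ℝ := if u < 2 then X else q / (2 * ((u : ℝ) - 1))

theorem FF_nonneg {X : ℝ} (hX : 0 ≤ X) (q u : ℕ) : 0 ≤ FF X q u := by
  unfold FF
  split_ifs with h
  · exact hX
  · have : (2 : ℝ) ≤ u := by exact_mod_cast not_lt.1 h
    have h1 : (0 : ℝ) < (u : ℝ) - 1 := by linarith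
    positivity

theorem sum_FF {X : ℝ} (hX : 0 ≤ X) {q : ℕ} (hq : 1 ≤ q) :
    ∑ u ∈ range q, FF X q u ≤ 2 * X + q / 2 * (1 + Real.log q) := by
  have hlog : 0 ≤ Real.log q := Real.log_natCast_nonneg q
  have hq0 : (0 : ℝ) ≤ q := Nat.cast_nonneg q
  rcases Nat.lt_or_ge q 2 with h | h
  · have e : q = 1 := by omega
    rw [e, Finset.sum_range_one]
    have : FF X 1 0 = X := by
      unfold FF
      rw [if_pos (by norm_num)]
    rw [this]
    norm_num
    linarith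
  · obtain ⟨m, hm⟩ : ∃ m, q = m + 2 := ⟨q - 2, by omega⟩
    have h1 : ∑ u ∈ range q, FF X q u = ∑ i ∈ range m, FF X q (i + 2) + FF X q 1 + FF X q 0 := by
      conv_lhs => rw [hm]
      rw [Finset.sum_range_succ', Finset.sum_range_succ', ← hm]
    have h2 : FF X q 0 = X := by
      unfold FF
      rw [if_pos (by norm_num)]
    have h3 : FF X q 1 = X := by
      unfold FF
      rw [if_pos (by norm_num)]
    have h4 : ∑ i ∈ range m, FF X q (i + 2) = q / 2 * ((harmonic m : ℚ) : ℝ) := by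
      rw [harmonic]
      push_cast
      rw [Finset.mul_sum]
      refine Finset.sum_congr rfl fun i _ => ?_
      unfold FF
      rw [if_neg (by omega)]
      push_cast
      have : (0 : ℝ) < (i : ℝ) + 1 := by positivity
      have e : (i : ℝ) + 2 - 1 = i + 1 := by ring
      rw [e]
      field_simp
    have h5 : ((harmonic m : ℚ) : ℝ) ≤ 1 + Real.log q := by
      refine (harmonic_le_one_add_log m).trans ?_
      rcases Nat.eq_zero_or_pos m with h0 | h0
      · rw [h0]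
        simp only [Nat.cast_zero, Real.log_zero]
        linarith
      · have : Real.log m ≤ Real.log q := by
          apply Real.log_le_log
          · exact_mod_cast h0
          · exact_mod_cast (by omega : m ≤ q)
        linarith
    rw [h1, h2, h3, h4]
    have h6 : (q : ℝ) / 2 * ((harmonic m : ℚ) : ℝ) ≤ q / 2 * (1 + Real.log q) := by
      apply mul_le_mul_of_nonneg_left h5
      positivity
    linarith

/-- one block of length `q` -/
theorem block (α : ℝ) (q : ℕ) (a : ℤ) (X θ : ℝ) (hq : 1 ≤ q) (hX : 0 ≤ X)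
    (hc : IsCoprime a (q : ℤ)) (hα : |α - a / q| ≤ 1 / (q : ℝ) ^ 2) :
    ∑ j ∈ range q, gm X (θ + j * α) ≤ 8 * (X + q * (1 + Real.log q)) := by
  have hq0 : (0 : ℝ) < q := by exact_mod_cast hq
  have hqz : (0 : ℤ) < q := by exact_mod_cast hq
  have hlog : 0 ≤ Real.log q := Real.log_natCast_nonneg q
  obtain ⟨m, hm⟩ : ∃ m : ℤ, m = ⌊(q : ℝ) * θ⌋ := ⟨_, rfl⟩
  have hm1 : (m : ℝ) ≤ q * θ := by rw [hm]; exact Int.floor_le _
  have hm2 : (q : ℝ) * θ < m + 1 := by rw [hm]; exact Int.lt_floor_add_one _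
  obtain ⟨u, hu⟩ : ∃ u : ℕ → ℕ, u = fun j : ℕ => ((m + (j : ℤ) * a) % (q : ℤ)).toNat := ⟨_, rfl⟩
  have hu1 : ∀ j, ((u j : ℕ) : ℤ) = (m + j * a) % (q : ℤ) := by
    intro j
    rw [hu]
    exact Int.toNat_of_nonneg (Int.emod_nonneg _ hqz.ne')
  have hu2 : ∀ j, u j < q := by
    intro j
    have h1 : ((u j : ℕ) : ℤ) < (q : ℤ) := by
      rw [hu1]
      exact Int.emod_lt_of_pos _ hqz
    exact_mod_cast h1
  have hinj : ∀ j ∈ range q, ∀ j' ∈ range q, u j = u j' → j = j' := by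
    intro j hj j' hj' he
    have h1 : (m + j * a) % (q : ℤ) = (m + j' * a) % (q : ℤ) := by
      rw [← hu1, ← hu1, he]
    have h2 : (q : ℤ) ∣ (m + j' * a) - (m + j * a) := Int.modEq_iff_dvd.1 h1
    have h3 : (q : ℤ) ∣ ((j' : ℤ) - j) * a := by
      have e : ((j' : ℤ) - j) * a = (m + j' * a) - (m + j * a) := by ring
      rw [e]
      exact h2
    have h4 : (q : ℤ) ∣ (j' : ℤ) - j := hc.symm.dvd_of_dvd_mul_right h3
    have hj1 := Finset.mem_range.1 hj
    have hj1' := Finset.mem_range.1 hj'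
    obtain ⟨c, hc'⟩ := h4
    have h5 : c = 0 := by
      by_contra h
      rcases lt_or_gt_of_ne h with h | h
      · have : (q : ℤ) * c ≤ -q := by nlinarith
        omega
      · have : (q : ℤ) ≤ q * c := by nlinarith
        omega
    rw [h5, mul_zero] at hc'
    omega
  have hterm : ∀ j ∈ range q, gm X (θ + j * α) ≤ FF X q (u j) + FF X q (q - 1 - u j) := by
    intro j hj
    have hjq := Finset.mem_range.1 hj
    have f1 := FF_nonneg hX q (u j)
    have f2 := FF_nonneg hX q (q - 1 - u j)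
    rcases Nat.lt_or_ge (u j) 2 with h | h
    · have : FF X q (u j) = X := by
        unfold FF
        rw [if_pos h]
      have := gm_le X (θ + j * α)
      linarith
    rcases Nat.lt_or_ge (q - 1 - u j) 2 with h' | h'
    · have : FF X q (q - 1 - u j) = X := by
        unfold FF
        rw [if_pos h']
      have := gm_le X (θ + j * α)
      linarith
    -- decomposition of the point
    obtain ⟨l, hl⟩ : ∃ l : ℤ, m + j * a = u j + q * l := by
      refine ⟨(m + j * a) / (q : ℤ), ?_⟩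
      rw [hu1]
      exact (Int.emod_add_mul_ediv _ _).symm
    have hl' : (m : ℝ) + j * a = u j + q * l := by exact_mod_cast hl
    obtain ⟨s, hs⟩ : ∃ s : ℝ, s = q * θ - m := ⟨_, rfl⟩
    obtain ⟨β, hβ⟩ : ∃ β : ℝ, β = α - a / q := ⟨_, rfl⟩
    have hx : θ + j * α = ((u j + s) / q + j * β) + (l : ℤ) := by
      rw [hβ, hs]
      field_simp
      linear_combination hl'
    have hjβ : |(j : ℝ) * β| ≤ 1 / q := by
      rw [abs_mul, abs_of_nonneg (Nat.cast_nonneg j), hβ]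
      calc (j : ℝ) * |α - a / q| ≤ q * (1 / (q : ℝ) ^ 2) := by
            apply mul_le_mul _ hα (abs_nonneg _) hq0.le
            exact_mod_cast hjq.le
        _ = 1 / q := by field_simp
    obtain ⟨v, hv⟩ : ∃ v : ℕ, v = min (u j) (q - 1 - u j) := ⟨_, rfl⟩
    have hv2 : 2 ≤ v := by
      rw [hv]
      exact le_min h h'
    have hv2' : (2 : ℝ) ≤ v := by exact_mod_cast hv2
    have hnd : ((v : ℝ) - 1) / q ≤ nd (θ + j * α) := by
      rw [hx, nd_add_int]
      have h1 : nd ((u j + s) / q) ≤ nd ((u j + s) / q + j * β) + |(j : ℝ) * β| := by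
        have h2 := nd_sub_le ((u j + s) / q + j * β) (j * β)
        rw [add_sub_cancel_right] at h2
        exact h2.trans (add_le_add_right (nd_le_abs _) _)
      have h3 : (v : ℝ) / q ≤ nd ((u j + s) / q) := by
        refine le_trans ?_ nd_ge
        have hs0 : 0 ≤ s := by rw [hs]; linarith
        have hs1 : s ≤ 1 := by rw [hs]; linarith
        refine le_min ?_ ?_
        · gcongr
          have : v ≤ u j := by rw [hv]; exact min_le_left _ _
          have : (v : ℝ) ≤ u j := by exact_mod_cast this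
          linarith
        · have h4 : v ≤ q - 1 - u j := by rw [hv]; exact min_le_right _ _
          have h5 : v + 1 + u j ≤ q := by
            have := hu2 j
            omega
          have h6 : (v : ℝ) + 1 + u j ≤ q := by exact_mod_cast h5
          rw [div_le_iff₀ hq0]
          have e : (1 - ((u j : ℝ) + s) / q) * q = q - (u j + s) := by field_simp
          rw [e]
          linarith
      have e : ((v : ℝ) - 1) / q = v / q - 1 / q := by ring
      rw [e]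
      linarith
    have hpos : 0 < ((v : ℝ) - 1) / q := by
      apply div_pos _ hq0
      linarith
    have hg : gm X (θ + j * α) ≤ FF X q v := by
      refine (gm_le_inv (hpos.trans_le hnd)).trans ?_
      unfold FF
      rw [if_neg (by omega)]
      have h7 : 0 < (v : ℝ) - 1 := by linarith
      calc 1 / (2 * nd (θ + j * α)) ≤ 1 / (2 * (((v : ℝ) - 1) / q)) := by
            apply one_div_le_one_div_of_le (by positivity)
            linarith
        _ = q / (2 * ((v : ℝ) - 1)) := by field_simp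
    rcases min_choice (u j) (q - 1 - u j) with h8 | h8
    · rw [hv, h8] at hg
      linarith
    · rw [hv, h8] at hg
      linarith
  calc ∑ j ∈ range q, gm X (θ + j * α)
      ≤ ∑ j ∈ range q, (FF X q (u j) + FF X q (q - 1 - u j)) := Finset.sum_le_sum hterm
    _ = ∑ x ∈ (range q).image u, (FF X q x + FF X q (q - 1 - x)) := by
        rw [Finset.sum_image]
        exact fun j hj j' hj' he => hinj j hj j' hj' he
    _ ≤ ∑ x ∈ range q, (FF X q x + FF X q (q - 1 - x)) := by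
        apply Finset.sum_le_sum_of_subset_of_nonneg
        · intro x hx
          obtain ⟨j, -, rfl⟩ := Finset.mem_image.1 hx
          exact Finset.mem_range.2 (hu2 j)
        · intro x _ _
          exact add_nonneg (FF_nonneg hX _ _) (FF_nonneg hX _ _)
    _ = 2 * ∑ x ∈ range q, FF X q x := by
        rw [Finset.sum_add_distrib, Finset.sum_range_reflect (fun x => FF X q x) q]
        ring
    _ ≤ 2 * (2 * X + q / 2 * (1 + Real.log q)) := by
        have := sum_FF hX hq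
        linarith
    _ ≤ 8 * (X + q * (1 + Real.log q)) := by
        have : 0 ≤ (q : ℝ) * (1 + Real.log q) := by positivity
        nlinarith

theorem blocks (α : ℝ) (q : ℕ) (a : ℤ) (X : ℝ) (hq : 1 ≤ q) (hX : 0 ≤ X)
    (hc : IsCoprime a (q : ℤ)) (hα : |α - a / q| ≤ 1 / (q : ℝ) ^ 2) (B : ℕ) :
    ∑ r ∈ range (q * B), gm X (r * α) ≤ B * (8 * (X + q * (1 + Real.log q))) := by
  induction B with
  | zero => simp
  | succ B ih =>
    rw [Nat.mul_succ, Finset.sum_range_add]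
    have h1 := block α q a X ((q * B : ℕ) * α) hq hX hc hα
    have h2 : ∑ x ∈ range q, gm X (((q * B + x : ℕ) : ℝ) * α) =
        ∑ j ∈ range q, gm X ((q * B : ℕ) * α + j * α) := by
      refine Finset.sum_congr rfl fun j _ => ?_
      congr 1
      push_cast
      ring
    rw [h2]
    push_cast at h1 ih ⊢
    linarith

end SumGMAux

open SumGMAux in
theorem claimSumGM : ClaimSumGM := by
  intro α q a R X hq hX hc hα
  have hq0 : (0 : ℝ) < q := by exact_mod_cast hq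
  have hlog : 0 ≤ Real.log q := Real.log_natCast_nonneg q
  have h1 := blocks α q a X hq hX hc hα (R / q + 1)
  have h2 : ∑ r ∈ range R, gm X (r * α) ≤ ∑ r ∈ range (q * (R / q + 1)), gm X (r * α) := by
    apply Finset.sum_le_sum_of_subset_of_nonneg
    · apply Finset.range_subset_range.2
      have := Nat.lt_mul_div_succ R (by omega : 0 < q)
      exact this.le
    · intro r _ _
      exact gm_nonneg hX _
  have h3 : ((R / q + 1 : ℕ) : ℝ) ≤ (R : ℝ) / q + 1 := by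
    push_cast
    have := @Nat.cast_div_le ℝ _ _ _ R q
    linarith
  have h4 : 0 ≤ X + q * (1 + Real.log q) := by positivity
  calc ∑ r ∈ range R, gm X (r * α) ≤ ((R / q + 1 : ℕ) : ℝ) * (8 * (X + q * (1 + Real.log q))) :=
        h2.trans h1
    _ ≤ ((R : ℝ) / q + 1) * (8 * (X + q * (1 + Real.log q))) := by
        apply mul_le_mul_of_nonneg_right h3
        positivity
    _ = 8 * ((R : ℝ) / q + 1) * (X + q * (1 + Real.log q)) := by ring

end Pool.Agent.Work.MP_8e4d29_nt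

end

section

/-!
MP_8e4d29_nt, A10: moments of the divisor function.
-/

namespace Pool.Agent.Work.MP_8e4d29_nt

namespace TauA10

open Finset

theorem tau_nonneg (n : ℕ) : 0 ≤ tau n := Nat.cast_nonneg _

theorem tau_mul_le (d e : ℕ) : tau (d * e) ≤ tau d * tau e := by
  unfold tau
  rw [← Nat.cast_mul]
  norm_cast
  rw [Nat.divisors_mul]
  exact Finset.card_mul_le

/-- Abel summation. -/
theorem abel (a : ℕ → ℝ) : ∀ x : ℕ, 1 ≤ x →
    ∑ d ∈ Icc 1 x, a d / d = (∑ d ∈ Icc 1 x, a d) / x +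
      ∑ d ∈ Ico 1 x, (∑ m ∈ Icc 1 d, a m) / ((d : ℝ) * (d + 1)) := by
  intro x hx
  induction x, hx using Nat.le_induction with
  | base => simp
  | succ x hx ih =>
    have hx0 : (x : ℝ) ≠ 0 := by positivity
    have hx1 : (x : ℝ) + 1 ≠ 0 := by positivity
    rw [Finset.sum_Icc_succ_top (by omega), ih, Finset.sum_Icc_succ_top (by omega),
      Finset.sum_Ico_succ_top hx]
    push_cast
    field_simp
    ring

theorem harm (x : ℕ) (hx : 1 ≤ x) : ∑ d ∈ Ico 1 x, (1 : ℝ) / (d + 1) ≤ Real.log x := by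
  induction x, hx using Nat.le_induction with
  | base => simp
  | succ x hx ih =>
    rw [Finset.sum_Ico_succ_top hx]
    have hx0 : (0 : ℝ) < x := by exact_mod_cast hx
    have h1 := Real.one_sub_inv_le_log_of_pos (x := ((x : ℝ) + 1) / x) (by positivity)
    rw [Real.log_div (by positivity) (by positivity)] at h1
    have h2 : 1 - (((x : ℝ) + 1) / x)⁻¹ = 1 / (x + 1) := by
      field_simp
      ring
    rw [h2] at h1
    push_cast
    linarith

/-- the sum over `n ≤ x` and the divisors of `n` -/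
theorem swap (f : ℕ → ℕ → ℝ) (x : ℕ) :
    ∑ n ∈ Icc 1 x, ∑ d ∈ n.divisors, f d (n / d) =
      ∑ d ∈ Icc 1 x, ∑ e ∈ Icc 1 (x / d), f d e := by
  classical
  have h1 : ∑ n ∈ Icc 1 x, ∑ d ∈ n.divisors, f d (n / d) =
      ∑ d ∈ Icc 1 x, ∑ n ∈ (Icc 1 x).filter (fun n => d ∣ n), f d (n / d) := by
    apply Finset.sum_comm'
    intro n d
    simp only [mem_Icc, Nat.mem_divisors, mem_filter]
    constructor
    · rintro ⟨⟨h1, h2⟩, h3, h4⟩
      exact ⟨⟨⟨h1, h2⟩, h3⟩, Nat.pos_of_dvd_of_pos h3 (by omega),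
        (Nat.le_of_dvd (by omega) h3).trans h2⟩
    · rintro ⟨⟨⟨h1, h2⟩, h3⟩, _⟩
      exact ⟨⟨h1, h2⟩, h3, by omega⟩
  rw [h1]
  apply Finset.sum_congr rfl
  intro d hd
  rw [mem_Icc] at hd
  have hd0 : 0 < d := by omega
  have h2 : (Icc 1 x).filter (fun n => d ∣ n) = (Icc 1 (x / d)).image (fun e => d * e) := by
    ext n
    simp only [mem_filter, mem_Icc, mem_image]
    constructor
    · rintro ⟨⟨h1, h2⟩, e, rfl⟩
      refine ⟨e, ⟨?_, ?_⟩, rfl⟩
      · rcases Nat.eq_zero_or_pos e with h | h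
        · subst h; omega
        · exact h
      · rw [Nat.le_div_iff_mul_le hd0, mul_comm]; exact h2
    · rintro ⟨e, ⟨h1, h2⟩, rfl⟩
      refine ⟨⟨Nat.mul_pos hd0 h1, ?_⟩, dvd_mul_right _ _⟩
      rw [Nat.le_div_iff_mul_le hd0, mul_comm] at h2
      exact h2
  rw [h2, Finset.sum_image]
  · apply Finset.sum_congr rfl
    intro e _
    rw [Nat.mul_div_cancel_left _ hd0]
  · intro e _ e' _ h
    exact Nat.eq_of_mul_eq_mul_left hd0 h

end TauA10

open TauA10 Finset in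
theorem claimTau : ClaimTau := by
  intro k
  induction k with
  | zero =>
    refine ⟨0, fun x hx => ?_⟩
    simp
  | succ k ih =>
    obtain ⟨C, hC⟩ := ih
    refine ⟨2 * C + 1, fun x hx => ?_⟩
    have hlx : 0 ≤ Real.log x := Real.log_natCast_nonneg x
    have hx0 : (0 : ℝ) < x := by exact_mod_cast hx
    -- first step
    have h1 : ∑ n ∈ Icc 1 x, tau n ^ (k + 1) ≤
        ∑ d ∈ Icc 1 x, tau d ^ k * ∑ e ∈ Icc 1 (x / d), tau e ^ k := by
      have h2 : ∀ n ∈ Icc 1 x, tau n ^ (k + 1) ≤ ∑ d ∈ n.divisors, tau d ^ k * tau (n / d) ^ k := by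
        intro n hn
        have h3 : tau n ^ (k + 1) = ∑ d ∈ n.divisors, tau n ^ k := by
          rw [Finset.sum_const, nsmul_eq_mul, pow_succ, mul_comm]
          rfl
        rw [h3]
        apply Finset.sum_le_sum
        intro d hd
        rw [← mul_pow]
        refine pow_le_pow_left₀ (tau_nonneg _) ?_ _
        have h4 := tau_mul_le d (n / d)
        rwa [Nat.mul_div_cancel' (Nat.dvd_of_mem_divisors hd)] at h4
      refine (Finset.sum_le_sum h2).trans (le_of_eq ?_)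
      rw [swap (fun d e => tau d ^ k * tau e ^ k) x]
      apply Finset.sum_congr rfl
      intro d _
      rw [Finset.mul_sum]
    -- second step
    have h2 : ∑ d ∈ Icc 1 x, tau d ^ k * ∑ e ∈ Icc 1 (x / d), tau e ^ k ≤
        x * (2 + Real.log x) ^ C * ∑ d ∈ Icc 1 x, tau d ^ k / d := by
      rw [Finset.mul_sum]
      apply Finset.sum_le_sum
      intro d hd
      rw [mem_Icc] at hd
      have hd0 : (0 : ℝ) < d := by exact_mod_cast hd.1
      have h3 : 1 ≤ x / d := Nat.div_pos hd.2 hd.1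
      have h4 := hC (x / d) h3
      have h5 : ((x / d : ℕ) : ℝ) ≤ x / d := Nat.cast_div_le
      have h6 : Real.log ((x / d : ℕ) : ℝ) ≤ Real.log x := by
        apply Real.log_le_log (by exact_mod_cast h3)
        exact_mod_cast Nat.div_le_self _ _
      have h7 : ((x / d : ℕ) : ℝ) * (2 + Real.log ((x / d : ℕ) : ℝ)) ^ C ≤
          (x / d : ℝ) * (2 + Real.log x) ^ C := by
        have h8 : 0 ≤ Real.log ((x / d : ℕ) : ℝ) := Real.log_natCast_nonneg _
        refine mul_le_mul h5 (pow_le_pow_left₀ (by linarith) (by linarith) _) ?_ (by positivity)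
        exact pow_nonneg (by linarith) _
      calc tau d ^ k * ∑ e ∈ Icc 1 (x / d), tau e ^ k
          ≤ tau d ^ k * ((x / d : ℝ) * (2 + Real.log x) ^ C) :=
            mul_le_mul_of_nonneg_left (h4.trans h7) (pow_nonneg (tau_nonneg d) k)
        _ = x * (2 + Real.log x) ^ C * (tau d ^ k / d) := by ring
    -- third step
    have h3 : ∑ d ∈ Icc 1 x, tau d ^ k / d ≤ (2 + Real.log x) ^ (C + 1) := by
      rw [abel (fun d => tau d ^ k) x hx]
      have h4 : (∑ d ∈ Icc 1 x, tau d ^ k) / x ≤ (2 + Real.log x) ^ C := by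
        rw [div_le_iff₀ hx0, mul_comm]
        exact hC x hx
      have h5 : ∑ d ∈ Ico 1 x, (∑ m ∈ Icc 1 d, tau m ^ k) / ((d : ℝ) * (d + 1)) ≤
          (2 + Real.log x) ^ C * Real.log x := by
        calc ∑ d ∈ Ico 1 x, (∑ m ∈ Icc 1 d, tau m ^ k) / ((d : ℝ) * (d + 1))
            ≤ ∑ d ∈ Ico 1 x, (2 + Real.log x) ^ C * (1 / ((d : ℝ) + 1)) := by
              apply Finset.sum_le_sum
              intro d hd
              rw [mem_Ico] at hd
              have hd0 : (0 : ℝ) < d := by exact_mod_cast hd.1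
              have h6 := hC d hd.1
              have h7 : Real.log d ≤ Real.log x := by
                apply Real.log_le_log hd0
                exact_mod_cast hd.2.le
              have h9 : 0 ≤ Real.log d := Real.log_natCast_nonneg _
              have h8 : (d : ℝ) * (2 + Real.log d) ^ C ≤ d * (2 + Real.log x) ^ C :=
                mul_le_mul_of_nonneg_left (pow_le_pow_left₀ (by linarith) (by linarith) _) hd0.le
              rw [div_le_iff₀ (by positivity)]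
              refine (h6.trans h8).trans (le_of_eq ?_)
              field_simp
          _ = (2 + Real.log x) ^ C * ∑ d ∈ Ico 1 x, (1 : ℝ) / (d + 1) := by
              rw [Finset.mul_sum]
          _ ≤ (2 + Real.log x) ^ C * Real.log x :=
              mul_le_mul_of_nonneg_left (harm x hx) (pow_nonneg (by linarith) _)
      have h6 : 0 ≤ (2 + Real.log x) ^ C := pow_nonneg (by linarith) _
      rw [pow_succ]
      nlinarith
    have h4 : 0 ≤ (x : ℝ) * (2 + Real.log x) ^ C := mul_nonneg hx0.le (pow_nonneg (by linarith) _)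
    calc ∑ n ∈ Icc 1 x, tau n ^ (k + 1)
        ≤ x * (2 + Real.log x) ^ C * ∑ d ∈ Icc 1 x, tau d ^ k / d := h1.trans h2
      _ ≤ x * (2 + Real.log x) ^ C * (2 + Real.log x) ^ (C + 1) :=
          mul_le_mul_of_nonneg_left h3 h4
      _ = x * (2 + Real.log x) ^ (2 * C + 1) := by
          rw [mul_assoc, ← pow_add]
          congr 2
          ring

end Pool.Agent.Work.MP_8e4d29_nt

end

section

/-! MP_8e4d29_nt, item B1: the identity of Vaughan as a criterion. -/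

namespace Pool.Agent.Work.MP_8e4d29_nt

open Finset

namespace Vau

open ArithmeticFunction

/-- The von Mangoldt function with complex values. -/
noncomputable def Lc : ArithmeticFunction ℂ :=
  ⟨fun n => (ArithmeticFunction.vonMangoldt n : ℂ), by simp⟩

/-- The logarithm with complex values. -/
noncomputable def logc : ArithmeticFunction ℂ := ⟨fun n => (Real.log n : ℂ), by simp⟩

/-- The constant function `1`. -/
noncomputable def zc : ArithmeticFunction ℂ := (ArithmeticFunction.zeta : ArithmeticFunction ℂ)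

/-- The Moebius function with complex values. -/
noncomputable def mc : ArithmeticFunction ℂ := (ArithmeticFunction.moebius : ArithmeticFunction ℂ)

/-- The restriction to `n ≤ U`. -/
noncomputable def lo (U : ℕ) (f : ArithmeticFunction ℂ) : ArithmeticFunction ℂ :=
  ⟨fun n => if n ≤ U then f n else 0, by simp⟩

/-- The restriction to `U < n`. -/
noncomputable def hi (U : ℕ) (f : ArithmeticFunction ℂ) : ArithmeticFunction ℂ :=
  ⟨fun n => if U < n then f n else 0, by simp⟩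

theorem Lc_apply (n : ℕ) : Lc n = (ArithmeticFunction.vonMangoldt n : ℂ) := rfl

theorem logc_apply (n : ℕ) : logc n = (Real.log n : ℂ) := rfl

theorem mc_apply (n : ℕ) : mc n = ((ArithmeticFunction.moebius n : ℤ) : ℂ) := rfl

theorem zc_apply {n : ℕ} (h : n ≠ 0) : zc n = 1 := by
  rw [zc, natCoe_apply, ArithmeticFunction.zeta_apply, if_neg h, Nat.cast_one]

theorem lo_apply (U : ℕ) (f : ArithmeticFunction ℂ) (n : ℕ) :
    lo U f n = if n ≤ U then f n else 0 := rfl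

theorem hi_apply (U : ℕ) (f : ArithmeticFunction ℂ) (n : ℕ) :
    hi U f n = if U < n then f n else 0 := rfl

theorem lo_add_hi (U : ℕ) (f : ArithmeticFunction ℂ) : lo U f + hi U f = f := by
  ext n
  rw [ArithmeticFunction.add_apply, lo_apply, hi_apply]
  by_cases h : n ≤ U
  · rw [if_pos h, if_neg (not_lt.2 h), add_zero]
  · rw [if_neg h, if_pos (not_le.1 h), zero_add]

theorem Lc_mul_zeta : Lc * zc = logc := by
  ext n
  rw [zc, coe_mul_zeta_apply]
  have h := @ArithmeticFunction.vonMangoldt_sum n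
  have h2 : ∑ i ∈ n.divisors, Lc i =
      ((∑ i ∈ n.divisors, ArithmeticFunction.vonMangoldt i : ℝ) : ℂ) := by
    push_cast
    rfl
  rw [h2, h]
  rfl

/-- the convolution of the low parts -/
noncomputable def cc (U : ℕ) : ArithmeticFunction ℂ := lo U mc * lo U Lc

theorem vaughan (U : ℕ) : Lc + (lo U (cc U) * zc + hi U (cc U) * zc)
    = lo U Lc + lo U mc * logc + hi U Lc * (zc * hi U mc) := by
  have h1 := lo_add_hi U Lc
  have h2 := lo_add_hi U mc
  have h3 : mc * zc = 1 := coe_moebius_mul_coe_zeta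
  have h4 := Lc_mul_zeta
  have h5 : lo U (cc U) * zc + hi U (cc U) * zc = lo U mc * lo U Lc * zc := by
    rw [← add_mul, lo_add_hi, cc]
  rw [h5]
  rw [← h2] at h3
  rw [← h1] at h4
  linear_combination (-(hi U Lc)) * h3 + (lo U mc) * h4 - h1

/-- the two variable sum -/
noncomputable def TT (F : ℕ → ℂ) (A B : ℕ) (a b : ℕ → ℂ) (S S' : Finset ℕ) : ℂ :=
  ∑ m ∈ S, ∑ k ∈ S', if A < m * k ∧ m * k ≤ B then a m * b k * F (m * k) else 0

theorem sum_conv (F : ℕ → ℂ) (A B : ℕ) (f g : ArithmeticFunction ℂ) :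
    ∑ n ∈ Ioc A B, (f * g) n * F n = TT F A B f g (Ioc 0 B) (Ioc 0 B) := by
  unfold TT
  rw [← Finset.sum_product', ← Finset.sum_filter]
  rw [← Finset.sum_fiberwise_of_maps_to (s := (Ioc 0 B ×ˢ Ioc 0 B).filter
    fun p => A < p.1 * p.2 ∧ p.1 * p.2 ≤ B) (t := Ioc A B) (g := fun p => p.1 * p.2)]
  · refine Finset.sum_congr rfl fun n hn => ?_
    rw [ArithmeticFunction.mul_apply, Finset.sum_mul]
    rw [Finset.mem_Ioc] at hn
    have e : ((Ioc 0 B ×ˢ Ioc 0 B).filter fun p => A < p.1 * p.2 ∧ p.1 * p.2 ≤ B).filter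
        (fun p => p.1 * p.2 = n) = n.divisorsAntidiagonal := by
      ext ⟨m, k⟩
      simp only [Finset.mem_filter, Finset.mem_product, Finset.mem_Ioc,
        Nat.mem_divisorsAntidiagonal]
      constructor
      · rintro ⟨_, h⟩
        exact ⟨h, by omega⟩
      · rintro ⟨h, h0⟩
        have hm : 0 < m := Nat.pos_of_ne_zero fun h1 => h0 (by rw [← h, h1, zero_mul])
        have hk : 0 < k := Nat.pos_of_ne_zero fun h1 => h0 (by rw [← h, h1, mul_zero])
        have h2 : m ≤ m * k := Nat.le_mul_of_pos_right m hk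
        have h3 : k ≤ m * k := Nat.le_mul_of_pos_left k hm
        rw [h] at h2 h3 ⊢
        exact ⟨⟨⟨⟨hm, by omega⟩, hk, by omega⟩, hn⟩, rfl⟩
    rw [e]
    refine Finset.sum_congr rfl fun p hp => ?_
    rw [(Nat.mem_divisorsAntidiagonal.1 hp).1]
  · intro p hp
    rw [Finset.mem_filter] at hp
    exact Finset.mem_Ioc.2 hp.2

/-! ### type I sums -/

theorem abel (f : ℕ → ℂ) (a : ℕ) : ∀ K, a + 1 ≤ K →
    ∑ k ∈ Ioc a K, (Real.log k : ℂ) * f k = (Real.log K : ℂ) * ∑ k ∈ Ioc a K, f k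
      - ∑ j ∈ Ico (a + 1) K, (((Real.log ((j + 1 : ℕ) : ℝ) - Real.log j : ℝ)) : ℂ) *
        ∑ k ∈ Ioc a j, f k := by
  intro K hK
  induction K, hK using Nat.le_induction with
  | base =>
    rw [Finset.Ico_self, Finset.sum_empty, sub_zero, Nat.Ioc_succ_singleton,
      Finset.sum_singleton, Finset.sum_singleton]
  | succ K hK ih =>
    rw [Finset.sum_Ioc_succ_top (by omega), Finset.sum_Ioc_succ_top (by omega), ih,
      Finset.sum_Ico_succ_top hK]
    push_cast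
    ring

theorem abel_bound (f : ℕ → ℂ) (a K : ℕ) (D : ℝ) (hK : 1 ≤ K) (haK : a ≤ K)
    (hD : ∀ j, a ≤ j → j ≤ K → ‖∑ k ∈ Ioc a j, f k‖ ≤ D) :
    ‖∑ k ∈ Ioc a K, (Real.log k : ℂ) * f k‖ ≤ 2 * Real.log K * D := by
  have hlogK : 0 ≤ Real.log K := Real.log_natCast_nonneg K
  have hD0 : 0 ≤ D := (norm_nonneg _).trans (hD a le_rfl haK)
  rcases eq_or_lt_of_le haK with h | h
  · subst h
    simp only [Finset.Ioc_self, Finset.sum_empty, norm_zero]
    positivity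
  · rw [abel f a K h]
    have hmono : ∀ j : ℕ, 1 ≤ j → Real.log (j : ℝ) ≤ Real.log ((j + 1 : ℕ) : ℝ) := fun j hj =>
      Real.log_le_log (by exact_mod_cast hj) (by exact_mod_cast Nat.le_succ j)
    have h1 : ‖(Real.log K : ℂ) * ∑ k ∈ Ioc a K, f k‖ ≤ Real.log K * D := by
      rw [norm_mul, Complex.norm_real, Real.norm_of_nonneg hlogK]
      exact mul_le_mul_of_nonneg_left (hD K haK le_rfl) hlogK
    have h2 : ‖∑ j ∈ Ico (a + 1) K, (((Real.log ((j + 1 : ℕ) : ℝ) - Real.log j : ℝ)) : ℂ) *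
        ∑ k ∈ Ioc a j, f k‖ ≤ ∑ j ∈ Ico (a + 1) K,
          (Real.log ((j + 1 : ℕ) : ℝ) - Real.log j) * D := by
      refine norm_sum_le_of_le _ fun j hj => ?_
      rw [Finset.mem_Ico] at hj
      have h3 : 0 ≤ Real.log ((j + 1 : ℕ) : ℝ) - Real.log j := sub_nonneg.2 (hmono j (by omega))
      rw [norm_mul, Complex.norm_real, Real.norm_of_nonneg h3]
      exact mul_le_mul_of_nonneg_left (hD j (by omega) (by omega)) h3
    have h4 : ∑ j ∈ Ico (a + 1) K, (Real.log ((j + 1 : ℕ) : ℝ) - Real.log j)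
        = Real.log K - Real.log ((a + 1 : ℕ) : ℝ) :=
      Finset.sum_Ico_sub (fun j : ℕ => Real.log (j : ℝ)) h
    have h5 : 0 ≤ Real.log ((a + 1 : ℕ) : ℝ) := Real.log_natCast_nonneg _
    rw [← Finset.sum_mul, h4] at h2
    refine (norm_sub_le _ _).trans ?_
    nlinarith [mul_nonneg h5 hD0]

theorem harm_eq (U : ℕ) : ∑ b ∈ Ioc 0 U, (1 : ℝ) / b = ((harmonic U : ℚ) : ℝ) := by
  induction U with
  | zero => simp
  | succ U ih =>
    rw [Finset.sum_Ioc_succ_top (Nat.zero_le U), ih, harmonic_succ]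
    push_cast
    rw [one_div]

theorem harm (U : ℕ) : ∑ b ∈ Ioc 0 U, (1 : ℝ) / b ≤ 1 + Real.log U := by
  rw [harm_eq]
  exact harmonic_le_one_add_log U

/-- a two variable sum with a smooth second factor, as a sum of type I sums -/
theorem TT_typeI (F : ℕ → ℂ) (A B U : ℕ) (a b : ℕ → ℂ) (hUB : U ≤ B)
    (ha : ∀ m, a m ≠ 0 → m ≤ U) :
    TT F A B a b (Ioc 0 B) (Ioc 0 B)
      = ∑ m ∈ Ioc 0 U, a m * ∑ k ∈ Ioc (A / m) (B / m), b k * F (m * k) := by
  unfold TT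
  rw [← Finset.sum_subset (Finset.Ioc_subset_Ioc_right hUB : Ioc 0 U ⊆ Ioc 0 B)]
  · refine Finset.sum_congr rfl fun m hm => ?_
    rw [Finset.mem_Ioc] at hm
    rw [Finset.mul_sum, ← Finset.sum_filter]
    have e : (Ioc 0 B).filter (fun k => A < m * k ∧ m * k ≤ B) = Ioc (A / m) (B / m) := by
      ext k
      simp only [Finset.mem_filter, Finset.mem_Ioc]
      rw [Nat.div_lt_iff_lt_mul hm.1, Nat.le_div_iff_mul_le hm.1, mul_comm k m]
      constructor
      · exact fun h => h.2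
      · intro h
        refine ⟨⟨?_, ?_⟩, h⟩
        · exact Nat.pos_of_ne_zero fun h0 => by rw [h0, mul_zero] at h; omega
        · exact (Nat.le_mul_of_pos_left k hm.1).trans h.2
    rw [e]
    exact Finset.sum_congr rfl fun k _ => by ring
  · intro m _ hm
    have h0 : a m = 0 := by
      by_contra h
      have h1 := ha m h
      apply hm
      rw [Finset.mem_Ioc]
      refine ⟨Nat.pos_of_ne_zero fun h2 => ?_, h1⟩
      have := ‹m ∈ Ioc 0 B›
      rw [Finset.mem_Ioc] at this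
      omega
    refine Finset.sum_eq_zero fun k _ => ?_
    rw [h0]
    split_ifs <;> simp

/-! ### type II sums -/

theorem dyadic (f : ℕ → ℂ) (I : ℕ) : ∑ m ∈ Ioc 1 (2 ^ I), f m
    = ∑ i ∈ range I, ∑ m ∈ Ioc (2 ^ i) (2 * 2 ^ i), f m := by
  induction I with
  | zero => simp
  | succ I ih =>
    rw [Finset.sum_range_succ, ← ih, pow_succ, mul_comm (2 ^ I) 2]
    exact (Finset.sum_Ioc_consecutive f (Nat.one_le_two_pow) (by omega)).symm

/-- the exponents of the relevant boxes -/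
def good (N I : ℕ) : Finset (ℕ × ℕ) :=
  (range I ×ˢ range I).filter fun p => 2 ^ (p.1 + p.2) ≤ 32 * N ∧ N ≤ 4 * 2 ^ (p.1 + p.2)

theorem good_card (N I : ℕ) (hN : 1 ≤ N) : (good N I).card ≤ I * 8 := by
  have hex : ∃ s, N ≤ 4 * 2 ^ s := ⟨N, by have := Nat.lt_two_pow_self (n := N); omega⟩
  classical
  set s0 := Nat.find hex with hs0
  have h1 : N ≤ 4 * 2 ^ s0 := Nat.find_spec hex
  have h2 : ∀ p ∈ good N I, (fun p : ℕ × ℕ => (p.1, p.1 + p.2)) p
      ∈ range I ×ˢ Ico s0 (s0 + 8) := by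
    intro p hp
    unfold good at hp
    rw [Finset.mem_filter, Finset.mem_product, Finset.mem_range, Finset.mem_range] at hp
    rw [Finset.mem_product, Finset.mem_range, Finset.mem_Ico]
    refine ⟨hp.1.1, Nat.find_min' hex hp.2.2, ?_⟩
    by_contra h
    push Not at h
    have h3 : 2 ^ (s0 + 8) ≤ 2 ^ (p.1 + p.2) := Nat.pow_le_pow_right (by norm_num) h
    rw [pow_add] at h3
    have h4 := hp.2.1
    omega
  have h3 := Finset.card_le_card_of_injOn _ h2 (by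
    rintro ⟨a, b⟩ _ ⟨c, d⟩ _ h
    simp only [Prod.mk.injEq] at h
    ext <;> simp <;> omega)
  rw [Finset.card_product, Finset.card_range, Nat.card_Ico] at h3
  rw [Nat.add_sub_cancel_left] at h3
  exact h3

theorem typeII (F : ℕ → ℂ) (N A B U I : ℕ) (δ : ℝ) (hU : 1 ≤ U) (hN : 2 ≤ N) (hNA : N ≤ A)
    (hB : B ≤ 32 * N) (hI : B ≤ 2 ^ I) (hδ : 0 ≤ δ)
    (H2 : ∀ M P : ℕ, U ≤ 2 * P → P ≤ M → M * P ≤ 32 * N → N ≤ 4 * (M * P) →
      ∀ a b : ℕ → ℂ, (∀ m, ‖a m‖ ≤ tau m) → (∀ n, ‖b n‖ ≤ tau n) →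
      ‖∑ m ∈ Ioc M (2 * M), ∑ n ∈ Ioc P (2 * P),
        if A < m * n ∧ m * n ≤ B then a m * b n * F (m * n) else 0‖ ≤ δ)
    (a b : ℕ → ℂ) (ha : ∀ m, ‖a m‖ ≤ tau m) (hb : ∀ m, ‖b m‖ ≤ tau m)
    (ha' : ∀ m, a m ≠ 0 → U < m) (hb' : ∀ m, b m ≠ 0 → U < m) :
    ‖TT F A B a b (Ioc 0 B) (Ioc 0 B)‖ ≤ ((I * 8 : ℕ) : ℝ) * δ := by
  -- pass to dyadic boxes
  have h1 : TT F A B a b (Ioc 0 B) (Ioc 0 B) = TT F A B a b (Ioc 1 (2 ^ I)) (Ioc 1 (2 ^ I)) := by
    have hz : ∀ m k, (m = 0 ∨ k = 0 ∨ B < m * k ∨ m ≤ 1 ∨ k ≤ 1) →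
        (if A < m * k ∧ m * k ≤ B then a m * b k * F (m * k) else 0) = 0 := by
      intro m k h
      split_ifs with hc
      · have hcase : a m = 0 ∨ b k = 0 := by
          by_contra hcon
          push Not at hcon
          have h3 := ha' m hcon.1
          have h4 := hb' k hcon.2
          rcases h with h | h | h | h | h
          · omega
          · omega
          · omega
          · omega
          · omega
        rcases hcase with h3 | h3 <;> simp [h3]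
      · rfl
    have key : ∀ S : Finset ℕ, Ioc 1 B ⊆ S →
        TT F A B a b S S = TT F A B a b (Ioc 1 B) (Ioc 1 B) := by
      intro S hS
      unfold TT
      symm
      rw [Finset.sum_subset hS]
      · refine Finset.sum_congr rfl fun m hm => ?_
        rw [Finset.sum_subset hS]
        intro k _ hk
        apply hz
        rw [Finset.mem_Ioc] at hk
        rcases Nat.eq_zero_or_pos m with h | h
        · exact Or.inl h
        · by_cases hk1 : k ≤ 1
          · exact Or.inr (Or.inr (Or.inr (Or.inr hk1)))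
          · have h3 : B < k := by omega
            exact Or.inr (Or.inr (Or.inl (h3.trans_le (Nat.le_mul_of_pos_left k h))))
      · intro m _ hm
        refine Finset.sum_eq_zero fun k _ => ?_
        apply hz
        rw [Finset.mem_Ioc] at hm
        rcases Nat.eq_zero_or_pos k with h | h
        · exact Or.inr (Or.inl h)
        · by_cases hk1 : m ≤ 1
          · exact Or.inr (Or.inr (Or.inr (Or.inl hk1)))
          · have h3 : B < m := by omega
            exact Or.inr (Or.inr (Or.inl (h3.trans_le (Nat.le_mul_of_pos_right m h))))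
    rw [key (Ioc 0 B), key (Ioc 1 (2 ^ I))]
    · exact Finset.Ioc_subset_Ioc_right hI
    · exact Finset.Ioc_subset_Ioc_left (by norm_num)
  have h2 : TT F A B a b (Ioc 1 (2 ^ I)) (Ioc 1 (2 ^ I)) = ∑ p ∈ range I ×ˢ range I,
      TT F A B a b (Ioc (2 ^ p.1) (2 * 2 ^ p.1)) (Ioc (2 ^ p.2) (2 * 2 ^ p.2)) := by
    rw [Finset.sum_product]
    unfold TT
    rw [dyadic]
    refine Finset.sum_congr rfl fun i _ => ?_
    dsimp only
    conv_rhs => rw [Finset.sum_comm]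
    refine Finset.sum_congr rfl fun m _ => ?_
    rw [dyadic]
  rw [h1, h2]
  -- each box
  have hbox : ∀ i j : ℕ, (∃ m ∈ Ioc (2 ^ i) (2 * 2 ^ i), ∃ k ∈ Ioc (2 ^ j) (2 * 2 ^ j),
      A < m * k ∧ m * k ≤ B ∧ a m ≠ 0 ∧ b k ≠ 0) →
      (2 ^ (i + j) ≤ 32 * N ∧ N ≤ 4 * 2 ^ (i + j)) ∧
      ‖TT F A B a b (Ioc (2 ^ i) (2 * 2 ^ i)) (Ioc (2 ^ j) (2 * 2 ^ j))‖ ≤ δ := by
    rintro i j ⟨m, hm, k, hk, h3, h4, h5, h6⟩
    rw [Finset.mem_Ioc] at hm hk
    have h7 := ha' m h5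
    have h8 := hb' k h6
    have h9 : 2 ^ i * 2 ^ j ≤ m * k := Nat.mul_le_mul hm.1.le hk.1.le
    have h10 : m * k ≤ (2 * 2 ^ i) * (2 * 2 ^ j) := Nat.mul_le_mul hm.2 hk.2
    have h11 : (2 * 2 ^ i) * (2 * 2 ^ j) = 4 * (2 ^ i * 2 ^ j) := by ring
    rw [h11] at h10
    have hc1 : 2 ^ i * 2 ^ j ≤ 32 * N := by omega
    have hc2 : N ≤ 4 * (2 ^ i * 2 ^ j) := by omega
    rw [pow_add]
    refine ⟨⟨hc1, hc2⟩, ?_⟩
    rcases le_total (2 ^ j) (2 ^ i) with hji | hji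
    · exact H2 (2 ^ i) (2 ^ j) (by omega) hji hc1 hc2 a b ha hb
    · have h12 := H2 (2 ^ j) (2 ^ i) (by omega) hji (by rw [mul_comm]; exact hc1)
        (by rw [mul_comm (2 ^ j)]; exact hc2) b a hb ha
      refine le_trans (le_of_eq ?_) h12
      unfold TT
      rw [Finset.sum_comm]
      congr 1
      refine Finset.sum_congr rfl fun k _ => Finset.sum_congr rfl fun m _ => ?_
      rw [mul_comm m k, mul_comm (a m) (b k)]
  have hbox0 : ∀ i j : ℕ, ¬ (∃ m ∈ Ioc (2 ^ i) (2 * 2 ^ i), ∃ k ∈ Ioc (2 ^ j) (2 * 2 ^ j),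
      A < m * k ∧ m * k ≤ B ∧ a m ≠ 0 ∧ b k ≠ 0) →
      TT F A B a b (Ioc (2 ^ i) (2 * 2 ^ i)) (Ioc (2 ^ j) (2 * 2 ^ j)) = 0 := by
    intro i j h
    unfold TT
    refine Finset.sum_eq_zero fun m hm => Finset.sum_eq_zero fun k hk => ?_
    split_ifs with hc
    · by_cases h5 : a m = 0
      · simp [h5]
      by_cases h6 : b k = 0
      · simp [h6]
      exact absurd ⟨m, hm, k, hk, hc.1, hc.2, h5, h6⟩ h
    · rfl
  have h3 : ∀ p ∈ range I ×ˢ range I,
      ‖TT F A B a b (Ioc (2 ^ p.1) (2 * 2 ^ p.1)) (Ioc (2 ^ p.2) (2 * 2 ^ p.2))‖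
        ≤ if 2 ^ (p.1 + p.2) ≤ 32 * N ∧ N ≤ 4 * 2 ^ (p.1 + p.2) then δ else 0 := by
    intro p _
    by_cases h : (∃ m ∈ Ioc (2 ^ p.1) (2 * 2 ^ p.1), ∃ k ∈ Ioc (2 ^ p.2) (2 * 2 ^ p.2),
      A < m * k ∧ m * k ≤ B ∧ a m ≠ 0 ∧ b k ≠ 0)
    · obtain ⟨h4, h5⟩ := hbox _ _ h
      rw [if_pos h4]
      exact h5
    · rw [hbox0 _ _ h, norm_zero]
      split_ifs
      · exact hδ
      · exact le_rfl
  refine (norm_sum_le_of_le _ h3).trans ?_
  rw [← Finset.sum_filter, Finset.sum_const, nsmul_eq_mul]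
  have h4 := good_card N I (by omega)
  unfold good at h4
  exact mul_le_mul_of_nonneg_right (by exact_mod_cast h4) hδ

/-! ### the coefficients -/

theorem cc_bound (U n : ℕ) : ‖cc U n‖ ≤ Real.log n := by
  unfold cc
  rw [ArithmeticFunction.mul_apply]
  have h1 : ‖∑ x ∈ n.divisorsAntidiagonal, lo U mc x.1 * lo U Lc x.2‖
      ≤ ∑ x ∈ n.divisorsAntidiagonal, ArithmeticFunction.vonMangoldt x.2 := by
    refine norm_sum_le_of_le _ fun x _ => ?_
    rw [norm_mul]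
    have h2 : ‖lo U mc x.1‖ ≤ 1 := by
      rw [lo_apply]
      split_ifs
      · rw [mc_apply]
        have := ArithmeticFunction.abs_moebius_le_one (n := x.1)
        rw [Complex.norm_intCast]
        exact_mod_cast this
      · simp
    have h3 : ‖lo U Lc x.2‖ ≤ ArithmeticFunction.vonMangoldt x.2 := by
      have h0 := ArithmeticFunction.vonMangoldt_nonneg (n := x.2)
      rw [lo_apply]
      split_ifs
      · rw [Lc_apply, Complex.norm_real, Real.norm_of_nonneg h0]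
      · simpa using h0
    calc ‖lo U mc x.1‖ * ‖lo U Lc x.2‖ ≤ 1 * ArithmeticFunction.vonMangoldt x.2 :=
          mul_le_mul h2 h3 (norm_nonneg _) zero_le_one
      _ = _ := one_mul _
  refine h1.trans (le_of_eq ?_)
  rw [← ArithmeticFunction.vonMangoldt_sum]
  exact Nat.sum_divisorsAntidiagonal' (f := fun _ i => ArithmeticFunction.vonMangoldt i)

theorem cc_supp (U n : ℕ) (h : cc U n ≠ 0) : n ≤ U * U := by
  unfold cc at h
  rw [ArithmeticFunction.mul_apply] at h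
  obtain ⟨x, hx, hx0⟩ := Finset.exists_ne_zero_of_sum_ne_zero h
  rw [lo_apply, lo_apply] at hx0
  split_ifs at hx0 with h1 h2
  · rw [← (Nat.mem_divisorsAntidiagonal.1 hx).1]
    exact Nat.mul_le_mul h1 h2
  · simp at hx0
  · simp at hx0
  · simp at hx0

theorem zm_bound (U n : ℕ) : ‖(zc * hi U mc) n‖ ≤ tau n := by
  rw [zc, coe_zeta_mul_apply]
  unfold tau
  have h1 : ‖∑ i ∈ n.divisors, hi U mc i‖ ≤ ∑ _i ∈ n.divisors, (1 : ℝ) := by
    refine norm_sum_le_of_le _ fun d _ => ?_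
    rw [hi_apply]
    split_ifs
    · rw [mc_apply]
      have := ArithmeticFunction.abs_moebius_le_one (n := d)
      rw [Complex.norm_intCast]
      exact_mod_cast this
    · simp
  simp only [Finset.sum_const, nsmul_eq_mul, mul_one] at h1
  exact h1

theorem zm_supp (U n : ℕ) (h : (zc * hi U mc) n ≠ 0) : U < n := by
  rw [zc, coe_zeta_mul_apply] at h
  obtain ⟨d, hd, hd0⟩ := Finset.exists_ne_zero_of_sum_ne_zero h
  rw [hi_apply] at hd0
  split_ifs at hd0 with h1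
  · exact h1.trans_le (Nat.divisor_le hd)
  · exact absurd rfl hd0

theorem one_le_tau {n : ℕ} (h : n ≠ 0) : 1 ≤ tau n := by
  unfold tau
  have : 1 ≤ n.divisors.card := Finset.card_pos.2 ⟨1, by simp [h]⟩
  exact_mod_cast this

end Vau

open Vau in
theorem claimVaughan : ClaimVaughan := by
  refine ⟨200, by norm_num, ?_⟩
  intro N A B U F T δ₂ hU1 hU3 hN hNA hAB hB hTn hδ₂ H1 H2
  have hset : Icc 1 U = Ioc 0 U := by
    ext m; simp only [Finset.mem_Icc, Finset.mem_Ioc]; omega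
  rw [hset]
  obtain ⟨δ₁, hδ₁def⟩ : ∃ δ₁ : ℝ, δ₁ = ∑ m ∈ Ioc 0 U, T m := ⟨_, rfl⟩
  rw [← hδ₁def]
  have hδ₁ : 0 ≤ δ₁ := hδ₁def ▸ Finset.sum_nonneg fun m _ => hTn m
  have hUU : U * U ≤ U ^ 3 := by
    rw [pow_succ, pow_two]
    exact Nat.le_mul_of_pos_right _ hU1
  have hUle : U ≤ U * U := Nat.le_mul_of_pos_left U hU1
  set L : ℝ := Real.log (32 * N) with hL
  set l : ℝ := Real.log (4 * N) with hl
  set I : ℕ := Nat.log 2 (32 * N) + 1 with hI
  have hNr : (2 : ℝ) ≤ N := by exact_mod_cast hN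
  have hl1 : 1 ≤ l := by
    rw [hl, Real.le_log_iff_exp_le (by linarith)]
    have := Real.exp_one_lt_d9
    linarith
  have hL2 : L ≤ 2 * l := by
    have h1 : (32 * N : ℝ) ≤ (4 * N) ^ 2 := by nlinarith
    have h2 := Real.log_le_log (by linarith) h1
    rw [Real.log_pow] at h2
    have h3 : ((2 : ℕ) : ℝ) = 2 := by norm_num
    rw [h3] at h2
    exact h2
  have hL1 : 1 ≤ L := by
    refine hl1.trans ?_
    exact Real.log_le_log (by linarith) (by linarith)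
  have hL0 : 0 < L := by linarith
  have hlogU : Real.log U ≤ l := by
    apply Real.log_le_log (by exact_mod_cast hU1)
    have : U ≤ N := by omega
    have : (U : ℝ) ≤ N := by exact_mod_cast this
    linarith
  have hlog32 : ∀ m : ℕ, m ≤ 32 * N → Real.log m ≤ L := by
    intro m hm
    rcases Nat.eq_zero_or_pos m with h | h
    · subst h
      simp only [Nat.cast_zero, Real.log_zero]
      exact hL0.le
    · apply Real.log_le_log (by exact_mod_cast h)
      exact_mod_cast hm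
  have hBI : B ≤ 2 ^ I := by
    have := Nat.lt_pow_succ_log_self (b := 2) (by norm_num) (32 * N)
    exact hB.trans this.le
  have hIl : ((I * 8 : ℕ) : ℝ) ≤ 40 * l := by
    have h1 : 2 ^ (Nat.log 2 (32 * N)) ≤ 32 * N := Nat.pow_log_le_self 2 (by omega)
    have h2 : ((2 : ℝ) ^ (Nat.log 2 (32 * N))) ≤ 32 * N := by exact_mod_cast h1
    have h3 := Real.log_le_log (by positivity) h2
    rw [Real.log_pow] at h3
    have h4 := Real.log_two_gt_d9
    have h5 : (0 : ℝ) ≤ (Nat.log 2 (32 * N) : ℝ) := Nat.cast_nonneg _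
    have h6 : (Nat.log 2 (32 * N) : ℝ) * (1 / 2) ≤ (Nat.log 2 (32 * N) : ℝ) * Real.log 2 :=
      mul_le_mul_of_nonneg_left (by linarith) h5
    rw [hI]
    push_cast
    linarith
  -- the decomposition
  have hdec : ∑ n ∈ Ioc A B, (ArithmeticFunction.vonMangoldt n : ℂ) * F n
      = TT F A B (lo U mc) logc (Ioc 0 B) (Ioc 0 B)
        + TT F A B (hi U Lc) (⇑(zc * hi U mc : ArithmeticFunction ℂ)) (Ioc 0 B) (Ioc 0 B)
        - (TT F A B (lo U (cc U)) zc (Ioc 0 B) (Ioc 0 B)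
          + TT F A B (hi U (cc U)) zc (Ioc 0 B) (Ioc 0 B)) := by
    rw [← sum_conv, ← sum_conv, ← sum_conv, ← sum_conv, ← Finset.sum_add_distrib,
      ← Finset.sum_add_distrib, ← Finset.sum_sub_distrib]
    refine Finset.sum_congr rfl fun n hn => ?_
    rw [Finset.mem_Ioc] at hn
    have h1 : (Lc + (lo U (cc U) * zc + hi U (cc U) * zc)) n
        = (lo U Lc + lo U mc * logc + hi U Lc * (zc * hi U mc)) n := by rw [vaughan U]
    have h2 : lo U Lc n = 0 := by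
      rw [lo_apply, if_neg (by omega)]
    simp only [ArithmeticFunction.add_apply, h2] at h1
    rw [← Lc_apply, eq_sub_of_add_eq h1]
    ring
  have hBU : U ≤ B := by omega
  -- type I
  have hin : ∀ m : ℕ, 1 ≤ m → m ≤ U → ∀ j, A / m ≤ j → j ≤ B / m →
      ‖∑ k ∈ Ioc (A / m) j, F (m * k)‖ ≤ T m := by
    intro m hm1 hmU j hj1 hj2
    rcases eq_or_lt_of_le hj1 with h | h
    · subst h
      simp only [Finset.Ioc_self, Finset.sum_empty, norm_zero]
      exact hTn m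
    · have h1 : A < m * j := by
        have h2 := Nat.lt_mul_div_succ A hm1
        exact h2.trans_le (Nat.mul_le_mul_left m h)
      have h3 : m * j ≤ B := by
        rw [mul_comm]
        exact (Nat.le_div_iff_mul_le hm1).1 hj2
      have h4 := H1 m A (m * j) hm1 hmU le_rfl h1.le h3
      rwa [Nat.mul_div_cancel_left j hm1] at h4
  have hT1 : ‖TT F A B (lo U mc) logc (Ioc 0 B) (Ioc 0 B)‖ ≤ 2 * L * (1 + l) * δ₁ := by
    rw [TT_typeI F A B U _ _ hBU (fun m hm => by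
      by_contra h
      exact hm (by rw [lo_apply, if_neg h]))]
    have h1 : ‖∑ m ∈ Ioc 0 U, lo U mc m * ∑ k ∈ Ioc (A / m) (B / m), logc k * F (m * k)‖
        ≤ ∑ m ∈ Ioc 0 U, (2 * L) * T m := by
      refine norm_sum_le_of_le _ fun m hm => ?_
      rw [Finset.mem_Ioc] at hm
      have hK : 1 ≤ B / m := Nat.div_pos (by omega) hm.1
      have h2 := abel_bound (fun k => F (m * k)) (A / m) (B / m) (T m) hK
        (Nat.div_le_div_right hAB) (hin m hm.1 hm.2)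
      have h3 : ‖lo U mc m‖ ≤ 1 := by
        rw [lo_apply, if_pos hm.2, mc_apply, Complex.norm_intCast]
        exact_mod_cast ArithmeticFunction.abs_moebius_le_one (n := m)
      have h4 : Real.log ((B / m : ℕ) : ℝ) ≤ L := hlog32 _ ((Nat.div_le_self B m).trans hB)
      have h5 : 0 ≤ T m := hTn m
      rw [norm_mul]
      calc ‖lo U mc m‖ * ‖∑ k ∈ Ioc (A / m) (B / m), logc k * F (m * k)‖
          ≤ 1 * (2 * Real.log ((B / m : ℕ) : ℝ) * T m) :=
            mul_le_mul h3 h2 (norm_nonneg _) zero_le_one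
        _ ≤ 2 * L * T m := by
            rw [one_mul]
            exact mul_le_mul_of_nonneg_right (by linarith) h5
    refine h1.trans ?_
    rw [← Finset.mul_sum, ← hδ₁def]
    have h7 : 0 ≤ 2 * L * δ₁ := by positivity
    nlinarith
  have hT2a : ‖TT F A B (lo U (cc U)) zc (Ioc 0 B) (Ioc 0 B)‖ ≤ l * (1 + l) * δ₁ := by
    rw [TT_typeI F A B U _ _ hBU (fun m hm => by
      by_contra h
      exact hm (by rw [lo_apply, if_neg h]))]
    have h1 : ‖∑ m ∈ Ioc 0 U, lo U (cc U) m * ∑ k ∈ Ioc (A / m) (B / m), zc k * F (m * k)‖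
        ≤ ∑ m ∈ Ioc 0 U, l * T m := by
      refine norm_sum_le_of_le _ fun m hm => ?_
      rw [Finset.mem_Ioc] at hm
      have h2 : ∑ k ∈ Ioc (A / m) (B / m), zc k * F (m * k)
          = ∑ k ∈ Ioc (A / m) (B / m), F (m * k) := by
        refine Finset.sum_congr rfl fun k hk => ?_
        rw [Finset.mem_Ioc] at hk
        rw [zc_apply ((Nat.zero_le _).trans_lt hk.1).ne', one_mul]
      have h3 : ‖lo U (cc U) m‖ ≤ l := by
        rw [lo_apply, if_pos hm.2]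
        refine (cc_bound U m).trans (le_trans ?_ hlogU)
        exact Real.log_le_log (by exact_mod_cast hm.1) (by exact_mod_cast hm.2)
      rw [norm_mul, h2]
      exact mul_le_mul h3 (hin m hm.1 hm.2 _ (Nat.div_le_div_right hAB) le_rfl)
            (norm_nonneg _) (by linarith)
    refine h1.trans ?_
    rw [← Finset.mul_sum, ← hδ₁def]
    have h7 : 0 ≤ l * δ₁ := by positivity
    nlinarith
  -- type II
  have hII := typeII F N A B U I δ₂ hU1 hN hNA hB hBI hδ₂ H2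
  have hLne : (L : ℂ) ≠ 0 := by exact_mod_cast hL0.ne'
  have hscale : ∀ a b : ℕ → ℂ, ∀ a' b' : ℕ → ℂ,
      (∀ m k, A < m * k → m * k ≤ B → a m * b k = (L : ℂ) * (a' m * b' k)) →
      TT F A B a b (Ioc 0 B) (Ioc 0 B) = (L : ℂ) * TT F A B a' b' (Ioc 0 B) (Ioc 0 B) := by
    intro a b a' b' h
    unfold TT
    rw [Finset.mul_sum]
    refine Finset.sum_congr rfl fun m _ => ?_
    rw [Finset.mul_sum]
    refine Finset.sum_congr rfl fun k _ => ?_
    split_ifs with hc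
    · rw [h m k hc.1 hc.2]; ring
    · rw [mul_zero]
  have hT2b : ‖TT F A B (hi U (cc U)) zc (Ioc 0 B) (Ioc 0 B)‖ ≤ L * (40 * l * δ₂) := by
    rw [hscale _ _ (fun m => hi U (cc U) m / L) (fun k => if U < k then 1 else 0)]
    · rw [norm_mul, Complex.norm_real, Real.norm_of_nonneg hL0.le]
      refine mul_le_mul_of_nonneg_left ?_ hL0.le
      refine (hII _ _ ?_ ?_ ?_ ?_).trans (mul_le_mul_of_nonneg_right hIl hδ₂)
      · intro m
        by_cases h0 : hi U (cc U) m = 0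
        · simp only [h0, zero_div, norm_zero]
          unfold tau; positivity
        · have h1 : U < m := by
            by_contra h
            exact h0 (by rw [hi_apply, if_neg h])
          have h2 : hi U (cc U) m = cc U m := by rw [hi_apply, if_pos h1]
          have h3 : m ≤ U * U := cc_supp U m (by rwa [← h2])
          have h4 := cc_bound U m
          have h5 := hlog32 m (by omega)
          have h6 := one_le_tau (n := m) (by omega)
          rw [h2, norm_div, Complex.norm_real, Real.norm_of_nonneg hL0.le, div_le_iff₀ hL0]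
          exact h4.trans (h5.trans (le_mul_of_one_le_left hL0.le h6))
      · intro k
        try dsimp only
        split_ifs with h
        · simpa using one_le_tau (n := k) (by omega)
        · simp only [norm_zero]
          unfold tau; positivity
      · intro m hm
        by_contra h
        apply hm
        try dsimp only
        rw [hi_apply, if_neg h, zero_div]
      · intro k hk
        by_contra h
        exact hk (if_neg h)
    · intro m k h1 h2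
      by_cases h0 : hi U (cc U) m = 0
      · simp [h0]
      · have h3 : U < m := by
          by_contra h
          exact h0 (by rw [hi_apply, if_neg h])
        have h4 : hi U (cc U) m = cc U m := by rw [hi_apply, if_pos h3]
        have h5 : m ≤ U * U := cc_supp U m (by rwa [← h4])
        have h6 : U < k := by
          by_contra h
          have h7 : m * k ≤ (U * U) * U := Nat.mul_le_mul h5 (not_lt.1 h)
          have h8 : U * U * U = U ^ 3 := by ring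
          omega
        try dsimp only
        rw [if_pos h6, zc_apply (by omega)]
        field_simp
  have hT3 : ‖TT F A B (hi U Lc) (⇑(zc * hi U mc : ArithmeticFunction ℂ)) (Ioc 0 B) (Ioc 0 B)‖ ≤ L * (40 * l * δ₂) := by
    rw [hscale _ _ (fun m => if U < m ∧ m ≤ 32 * N then Lc m / L else 0)
      (⇑(zc * hi U mc : ArithmeticFunction ℂ))]
    · rw [norm_mul, Complex.norm_real, Real.norm_of_nonneg hL0.le]
      refine mul_le_mul_of_nonneg_left ?_ hL0.le
      refine (hII _ _ ?_ (zm_bound U) ?_ (zm_supp U)).trans (mul_le_mul_of_nonneg_right hIl hδ₂)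
      · intro m
        try dsimp only
        split_ifs with h
        · have h1 := ArithmeticFunction.vonMangoldt_nonneg (n := m)
          have h2 := ArithmeticFunction.vonMangoldt_le_log (n := m)
          have h3 := hlog32 m h.2
          have h4 := one_le_tau (n := m) (by omega)
          rw [Lc_apply, norm_div, Complex.norm_real, Complex.norm_real, Real.norm_of_nonneg hL0.le,
            Real.norm_of_nonneg h1, div_le_iff₀ hL0]
          exact h2.trans (h3.trans (le_mul_of_one_le_left hL0.le h4))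
        · simp only [norm_zero]
          unfold tau; positivity
      · intro m hm
        by_contra h
        exact hm (if_neg fun h' => h h'.1)
    · intro m k h1 h2
      have hk : 0 < k := Nat.pos_of_ne_zero fun h => by rw [h, mul_zero] at h1; omega
      have hm : m ≤ m * k := Nat.le_mul_of_pos_right m hk
      try dsimp only
      by_cases h : U < m
      · rw [hi_apply, if_pos h, if_pos ⟨h, by omega⟩]
        field_simp
      · rw [hi_apply, if_neg h, if_neg fun h' => h h'.1]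
        ring
  rw [hdec]
  have hfin : ‖TT F A B (lo U mc) logc (Ioc 0 B) (Ioc 0 B)
        + TT F A B (hi U Lc) (⇑(zc * hi U mc : ArithmeticFunction ℂ)) (Ioc 0 B) (Ioc 0 B)
        - (TT F A B (lo U (cc U)) zc (Ioc 0 B) (Ioc 0 B)
          + TT F A B (hi U (cc U)) zc (Ioc 0 B) (Ioc 0 B))‖
      ≤ 2 * L * (1 + l) * δ₁ + L * (40 * l * δ₂) + (l * (1 + l) * δ₁ + L * (40 * l * δ₂)) :=
    (norm_sub_le _ _).trans (add_le_add ((norm_add_le _ _).trans (add_le_add hT1 hT3))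
      ((norm_add_le _ _).trans (add_le_add hT2a hT2b)))
  refine hfin.trans ?_
  have hl0 : 0 ≤ l := by linarith
  have e1 : 2 * L * (1 + l) * δ₁ ≤ 2 * (2 * l) * (2 * l) * δ₁ := by
    have : 1 + l ≤ 2 * l := by linarith
    gcongr
  have e2 : L * (40 * l * δ₂) ≤ (2 * l) * (40 * l * δ₂) :=
    mul_le_mul_of_nonneg_right hL2 (by positivity)
  have e3 : l * (1 + l) * δ₁ ≤ l * (2 * l) * δ₁ := by
    have : 1 + l ≤ 2 * l := by linarith
    gcongr
  have e4 : l ^ 2 * δ₁ ≤ l ^ 3 * δ₁ :=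
    mul_le_mul_of_nonneg_right (pow_le_pow_right₀ hl1 (by norm_num)) hδ₁
  have e5 : l ^ 2 * δ₂ ≤ l ^ 3 * δ₂ :=
    mul_le_mul_of_nonneg_right (pow_le_pow_right₀ hl1 (by norm_num)) hδ₂
  have e6 : 0 ≤ l ^ 3 * δ₁ := by positivity
  have e7 : 0 ≤ l ^ 3 * δ₂ := by positivity
  have e8 : 2 * (2 * l) * (2 * l) * δ₁ = 8 * (l ^ 2 * δ₁) := by ring
  have e9 : (2 * l) * (40 * l * δ₂) = 80 * (l ^ 2 * δ₂) := by ring
  have e10 : l * (2 * l) * δ₁ = 2 * (l ^ 2 * δ₁) := by ring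
  have e11 : 200 * l ^ 3 * (δ₁ + δ₂) = 200 * (l ^ 3 * δ₁) + 200 * (l ^ 3 * δ₂) := by ring
  rw [e8] at e1
  rw [e9] at e2
  rw [e10] at e3
  rw [e11]
  linarith

end Pool.Agent.Work.MP_8e4d29_nt

end

section

/-!
MP_8e4d29_nt, item A2: van der Corput's inequality for an arbitrary set of shifts.
-/

namespace Pool.Agent.Work.MP_8e4d29_nt

open Finset

namespace VdCAux

theorem sum_shift (F : ℕ → ℂ) (L T t : ℕ) (ht : t ≤ T) (hF : ∀ j, L ≤ j → F j = 0) :
    ∑ k ∈ range (L + T), (if t ≤ k then F (k - t) else 0) = ∑ j ∈ range L, F j := by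
  rw [← Finset.sum_filter]
  have h1 : (range (L + T)).filter (fun k => t ≤ k) = Ico t (L + T) := by
    ext k
    simp only [mem_filter, mem_range, mem_Ico]
    omega
  rw [h1, Finset.sum_Ico_eq_sum_range]
  have h2 : ∀ j, t + j - t = j := fun j => by omega
  simp only [h2]
  symm
  apply Finset.sum_subset
  · intro j hj
    rw [mem_range] at hj ⊢
    omega
  · intro j _ hj
    rw [mem_range, not_lt] at hj
    exact hF j hj

/-- the shifted function -/
noncomputable def g (φ : ℕ → ℂ) (a t k : ℕ) : ℂ := if t ≤ k then φ (a + (k - t)) else 0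

theorem sum_g (φ : ℕ → ℂ) (a L T t : ℕ) (ht : t ≤ T)
    (hφ : ∀ m, φ m ≠ 0 → a ≤ m ∧ m < a + L) :
    ∑ k ∈ range (L + T), g φ a t k = ∑ m ∈ Ico a (a + L), φ m := by
  have h := sum_shift (fun j => φ (a + j)) L T t ht (fun j hj => by
    by_contra h
    have := (hφ _ h).2
    omega)
  unfold g
  rw [h, Finset.sum_Ico_eq_sum_range]
  simp

theorem sum_gg (φ : ℕ → ℂ) (a L T t t' : ℕ) (ht : t ≤ T) (htt : t' ≤ t)
    (hφ : ∀ m, φ m ≠ 0 → a ≤ m ∧ m < a + L) :
    ∑ k ∈ range (L + T), g φ a t k * (starRingEnd ℂ) (g φ a t' k) =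
      ∑ m ∈ Ico a (a + L), φ m * (starRingEnd ℂ) (φ (m + Nat.dist t t')) := by
  have h := sum_shift (fun j => φ (a + j) * (starRingEnd ℂ) (φ (a + j + Nat.dist t t'))) L T t ht
    (fun j hj => by
      have : φ (a + j) = 0 := by
        by_contra h
        have := (hφ _ h).2
        omega
      rw [this, zero_mul])
  rw [Finset.sum_Ico_eq_sum_range]
  simp only [Nat.add_sub_cancel_left]
  rw [← h]
  apply Finset.sum_congr rfl
  intro k _
  unfold g
  by_cases h1 : t ≤ k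
  · rw [if_pos h1, if_pos (htt.trans h1), if_pos h1]
    have h2 : a + (k - t) + Nat.dist t t' = a + (k - t') := by
      rw [Nat.dist_eq_sub_of_le_right htt]
      omega
    rw [h2]
  · rw [if_neg h1, if_neg h1, zero_mul]

theorem norm_sum_gg (φ : ℕ → ℂ) (a L T t t' : ℕ) (ht : t ≤ T) (ht' : t' ≤ T)
    (hφ : ∀ m, φ m ≠ 0 → a ≤ m ∧ m < a + L) :
    ‖∑ k ∈ range (L + T), g φ a t k * (starRingEnd ℂ) (g φ a t' k)‖ =
      ‖∑ m ∈ Ico a (a + L), φ m * (starRingEnd ℂ) (φ (m + Nat.dist t t'))‖ := by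
  rcases le_total t' t with h | h
  · rw [sum_gg φ a L T t t' ht h hφ]
  · rw [Nat.dist_comm, ← sum_gg φ a L T t' t ht' h hφ]
    rw [← RCLike.norm_conj (∑ k ∈ range (L + T), g φ a t k * (starRingEnd ℂ) (g φ a t' k)),
      map_sum]
    congr 1
    apply Finset.sum_congr rfl
    intro k _
    rw [map_mul, Complex.conj_conj, mul_comm]

end VdCAux

open VdCAux in
theorem claimVdC : ClaimVdC := by
  intro φ a L T S hφ hS
  have hS' : ∀ t ∈ S, t ≤ T := fun t ht => (hS t ht).le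
  set y : ℕ → ℂ := fun k => ∑ t ∈ S, g φ a t k with hy
  have h1 : ∑ k ∈ range (L + T), y k = (S.card : ℂ) * ∑ m ∈ Ico a (a + L), φ m := by
    rw [hy, Finset.sum_comm, Finset.sum_congr rfl (fun t ht => sum_g φ a L T t (hS' t ht) hφ)]
    simp
  have h2 : ‖∑ k ∈ range (L + T), y k‖ ^ 2 ≤ ((L : ℝ) + T) * ∑ k ∈ range (L + T), ‖y k‖ ^ 2 := by
    have h3 : ‖∑ k ∈ range (L + T), y k‖ ^ 2 ≤ (∑ k ∈ range (L + T), ‖y k‖) ^ 2 :=
      pow_le_pow_left₀ (norm_nonneg _) (norm_sum_le _ _) 2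
    refine h3.trans ?_
    have h4 := sq_sum_le_card_mul_sum_sq (s := range (L + T)) (f := fun k => ‖y k‖)
    rw [card_range] at h4
    push_cast at h4
    exact h4
  have h5 : ((∑ k ∈ range (L + T), ‖y k‖ ^ 2 : ℝ) : ℂ) =
      ∑ t ∈ S, ∑ t' ∈ S, ∑ k ∈ range (L + T), g φ a t k * (starRingEnd ℂ) (g φ a t' k) := by
    have h6 : ∀ k, ((‖y k‖ ^ 2 : ℝ) : ℂ) =
        ∑ t ∈ S, ∑ t' ∈ S, g φ a t k * (starRingEnd ℂ) (g φ a t' k) := by
      intro k
      rw [← Complex.normSq_eq_norm_sq, ← Complex.mul_conj, hy, map_sum, Finset.sum_mul_sum]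
    push_cast at h6 ⊢
    rw [Finset.sum_congr rfl (fun k _ => h6 k), Finset.sum_comm]
    apply Finset.sum_congr rfl
    intro t _
    rw [Finset.sum_comm]
  have h7 : ∑ k ∈ range (L + T), ‖y k‖ ^ 2 ≤ ∑ t ∈ S, ∑ t' ∈ S,
      ‖∑ m ∈ Ico a (a + L), φ m * (starRingEnd ℂ) (φ (m + Nat.dist t t'))‖ := by
    have h8 : ∑ k ∈ range (L + T), ‖y k‖ ^ 2 =
        ‖((∑ k ∈ range (L + T), ‖y k‖ ^ 2 : ℝ) : ℂ)‖ := by
      rw [Complex.norm_real, Real.norm_of_nonneg (by positivity)]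
    rw [h8, h5]
    refine (norm_sum_le _ _).trans (Finset.sum_le_sum fun t ht => ?_)
    refine (norm_sum_le _ _).trans (Finset.sum_le_sum fun t' ht' => ?_)
    exact (norm_sum_gg φ a L T t t' (hS' t ht) (hS' t' ht') hφ).le
  calc (S.card : ℝ) ^ 2 * ‖∑ m ∈ Ico a (a + L), φ m‖ ^ 2
      = ‖∑ k ∈ range (L + T), y k‖ ^ 2 := by
        rw [h1, norm_mul, mul_pow]
        simp
    _ ≤ ((L : ℝ) + T) * ∑ k ∈ range (L + T), ‖y k‖ ^ 2 := h2
    _ ≤ _ := mul_le_mul_of_nonneg_left h7 (by positivity)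

end Pool.Agent.Work.MP_8e4d29_nt

end

section

/-! MP_8e4d29_nt, item A1: the inequality of van der Corput, classical form. -/

namespace Pool.Agent.Work.MP_8e4d29_nt

open Finset

namespace VdC0

theorem toeplitz (g : ℕ → ℝ) (R : ℕ) : ∑ j ∈ range R, ∑ j' ∈ range R, g (Nat.dist j j')
    = R * g 0 + 2 * ∑ r ∈ Ico 1 R, ((R : ℝ) - r) * g r := by
  induction R with
  | zero => simp
  | succ R ih =>
    have h1 : ∑ j ∈ range R, g (R - j) = ∑ r ∈ Ico 1 (R + 1), g r := by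
      have h2 := Finset.sum_flip (n := R) g
      have h2' : ∑ k ∈ range (R + 1), g k = g 0 + ∑ r ∈ Ico 1 (R + 1), g r := by
        rw [Finset.range_eq_Ico, Finset.sum_eq_sum_Ico_succ_bot (Nat.succ_pos R)]
      rw [Finset.sum_range_succ, Nat.sub_self, h2'] at h2
      linarith
    have h3 : ∀ j ∈ range R, ∑ j' ∈ range (R + 1), g (Nat.dist j j')
        = ∑ j' ∈ range R, g (Nat.dist j j') + g (R - j) := by
      intro j hj
      rw [Finset.sum_range_succ, Nat.dist_eq_sub_of_le (Finset.mem_range.1 hj).le]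
    have h4 : ∑ j' ∈ range (R + 1), g (Nat.dist R j') = ∑ j' ∈ range R, g (R - j') + g 0 := by
      rw [Finset.sum_range_succ, Nat.dist_self]
      congr 1
      refine Finset.sum_congr rfl fun j hj => ?_
      rw [Nat.dist_eq_sub_of_le_right (Finset.mem_range.1 hj).le]
    rw [Finset.sum_range_succ, Finset.sum_congr rfl h3, Finset.sum_add_distrib, ih, h4, h1]
    have h5 : ∑ r ∈ Ico 1 R, ((R : ℝ) - r) * g r = ∑ r ∈ Ico 1 (R + 1), ((R : ℝ) - r) * g r := by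
      rcases Nat.eq_zero_or_pos R with h0 | h0
      · subst h0; simp
      · rw [Finset.sum_Ico_succ_top h0]
        simp
    have h6 : ∑ r ∈ Ico 1 (R + 1), (((R + 1 : ℕ) : ℝ) - r) * g r
        = ∑ r ∈ Ico 1 (R + 1), ((R : ℝ) - r) * g r + ∑ r ∈ Ico 1 (R + 1), g r := by
      rw [← Finset.sum_add_distrib]
      refine Finset.sum_congr rfl fun r _ => ?_
      push_cast
      ring
    rw [h6, h5]
    push_cast
    ring

theorem window {f : ℕ → ℂ} {b L c T : ℕ} (hf : ∀ n, f n ≠ 0 → b ≤ n ∧ n < b + L)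
    (h1 : c ≤ b) (h2 : b + L ≤ c + T) : ∑ k ∈ range T, f (c + k) = ∑ n ∈ Ico b (b + L), f n := by
  have h3 : ∑ k ∈ range T, f (c + k) = ∑ n ∈ Ico c (c + T), f n := by
    rw [Finset.sum_Ico_eq_sum_range, Nat.add_sub_cancel_left]
  rw [h3]
  symm
  refine Finset.sum_subset ?_ ?_
  · intro n hn
    rw [Finset.mem_Ico] at hn ⊢
    omega
  · intro n _ hn
    by_contra h
    exact hn (Finset.mem_Ico.2 (hf n h))

/-- the correlation -/
noncomputable def cor (x : ℕ → ℂ) (b L r : ℕ) : ℂ :=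
  ∑ n ∈ Ico b (b + L), x (n + r) * (starRingEnd ℂ) (x n)

theorem pair (x : ℕ → ℂ) (b L R : ℕ) (hx : ∀ n, x n ≠ 0 → b ≤ n ∧ n < b + L) (hb : R ≤ b)
    (j j' : ℕ) (hj : j < R) (hj' : j' < R) (hjj : j ≤ j') :
    ∑ k ∈ range (L + R), x (b + k - j) * (starRingEnd ℂ) (x (b + k - j')) = cor x b L (j' - j) := by
  have h1 : ∀ k ∈ range (L + R), x (b + k - j) * (starRingEnd ℂ) (x (b + k - j'))
      = (fun n => x (n + (j' - j)) * (starRingEnd ℂ) (x n)) (b - j' + k) := by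
    intro k _
    have e1 : b + k - j = b - j' + k + (j' - j) := by omega
    have e2 : b + k - j' = b - j' + k := by omega
    simp only [e1, e2]
  rw [Finset.sum_congr rfl h1]
  refine window (f := fun n => x (n + (j' - j)) * (starRingEnd ℂ) (x n)) (b := b) (L := L)
    ?_ (by omega) (by omega)
  intro n hn
  refine hx n fun h0 => hn ?_
  simp [h0]

theorem core (x : ℕ → ℂ) (b L R : ℕ) (hx : ∀ n, x n ≠ 0 → b ≤ n ∧ n < b + L) (hb : R ≤ b) :
    (R : ℝ) ^ 2 * ‖∑ n ∈ Ico b (b + L), x n‖ ^ 2 ≤ ((L : ℝ) + R) *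
      (R * (cor x b L 0).re + 2 * ∑ r ∈ Ico 1 R, ((R : ℝ) - r) * (cor x b L r).re) := by
  set y : ℕ → ℂ := fun k => ∑ j ∈ range R, x (b + k - j) with hy
  have hsum : ∑ k ∈ range (L + R), y k = R * ∑ n ∈ Ico b (b + L), x n := by
    rw [hy, Finset.sum_comm]
    have h1 : ∀ j ∈ range R, ∑ k ∈ range (L + R), x (b + k - j) = ∑ n ∈ Ico b (b + L), x n := by
      intro j hj
      have hj' := Finset.mem_range.1 hj
      have h2 : ∀ k ∈ range (L + R), x (b + k - j) = x (b - j + k) := by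
        intro k _
        congr 1
        omega
      rw [Finset.sum_congr rfl h2]
      exact window hx (by omega) (by omega)
    rw [Finset.sum_congr rfl h1, Finset.sum_const, Finset.card_range, nsmul_eq_mul]
  have hcs : ‖∑ k ∈ range (L + R), y k‖ ^ 2 ≤ ((L : ℝ) + R) * ∑ k ∈ range (L + R), ‖y k‖ ^ 2 := by
    have h1 : ‖∑ k ∈ range (L + R), y k‖ ^ 2 ≤ (∑ k ∈ range (L + R), ‖y k‖) ^ 2 :=
      pow_le_pow_left₀ (norm_nonneg _) (norm_sum_le _ _) 2
    have h2 := sq_sum_le_card_mul_sum_sq (s := range (L + R)) (f := fun k => ‖y k‖)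
    rw [Finset.card_range] at h2
    push_cast at h2
    exact h1.trans h2
  have hsq : ∑ k ∈ range (L + R), ‖y k‖ ^ 2
      = ∑ j ∈ range R, ∑ j' ∈ range R, (cor x b L (Nat.dist j j')).re := by
    have h1 : ∀ k, ‖y k‖ ^ 2 = ∑ j ∈ range R, ∑ j' ∈ range R,
        (x (b + k - j) * (starRingEnd ℂ) (x (b + k - j'))).re := by
      intro k
      have h2 : ((‖y k‖ ^ 2 : ℝ) : ℂ) = y k * (starRingEnd ℂ) (y k) := by
        rw [Complex.mul_conj, Complex.normSq_eq_norm_sq]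
      have h3 : ‖y k‖ ^ 2 = (y k * (starRingEnd ℂ) (y k)).re := by
        rw [← h2, Complex.ofReal_re]
      rw [h3, hy]
      simp only [map_sum, Finset.sum_mul_sum, Complex.re_sum]
    simp only [h1]
    rw [Finset.sum_comm]
    refine Finset.sum_congr rfl fun j hj => ?_
    rw [Finset.sum_comm]
    refine Finset.sum_congr rfl fun j' hj' => ?_
    rw [Finset.mem_range] at hj hj'
    rw [← Complex.re_sum]
    rcases le_total j j' with hjj | hjj
    · rw [pair x b L R hx hb j j' hj hj' hjj, Nat.dist_eq_sub_of_le hjj]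
    · rw [Nat.dist_eq_sub_of_le_right hjj, ← pair x b L R hx hb j' j hj' hj hjj,
        ← Complex.conj_re]
      congr 1
      rw [map_sum]
      refine Finset.sum_congr rfl fun k _ => ?_
      rw [map_mul, Complex.conj_conj, mul_comm]
  rw [toeplitz (fun r => (cor x b L r).re)] at hsq
  calc (R : ℝ) ^ 2 * ‖∑ n ∈ Ico b (b + L), x n‖ ^ 2 = ‖∑ k ∈ range (L + R), y k‖ ^ 2 := by
        rw [hsum, norm_mul, mul_pow, Complex.norm_natCast]
    _ ≤ ((L : ℝ) + R) * ∑ k ∈ range (L + R), ‖y k‖ ^ 2 := hcs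
    _ = _ := by rw [hsq]

end VdC0

open VdC0 in
theorem claimVdC0 : ClaimVdC0 := by
  intro z a L R _ hz
  set x : ℕ → ℂ := fun n => if R ≤ n then z (n - R) else 0 with hx
  have hxs : ∀ n, x n ≠ 0 → a + R ≤ n ∧ n < a + R + L := by
    intro n hn
    simp only [hx] at hn
    split_ifs at hn with h
    · have := hz _ hn
      omega
    · exact absurd rfl hn
  have hshift : ∀ m, x (m + R) = z m := by
    intro m
    simp only [hx]
    rw [if_pos (Nat.le_add_left _ _), Nat.add_sub_cancel]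
  have hIco : ∀ f : ℕ → ℂ, ∑ n ∈ Ico (a + R) (a + R + L), f n = ∑ m ∈ Ico a (a + L), f (m + R) := by
    intro f
    rw [Finset.sum_Ico_add']
    congr 2
    omega
  have hcor : ∀ r, cor x (a + R) L r = ∑ n ∈ Ico a (a + L), z (n + r) * (starRingEnd ℂ) (z n) := by
    intro r
    unfold cor
    rw [hIco]
    refine Finset.sum_congr rfl fun m _ => ?_
    rw [hshift, ← hshift (m + r)]
    congr 2
    omega
  have h := core x (a + R) L R hxs (Nat.le_add_left _ _)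
  rw [hIco] at h
  simp only [hshift, hcor] at h
  have h0 : (∑ n ∈ Ico a (a + L), z (n + 0) * (starRingEnd ℂ) (z n)).re
      = ∑ n ∈ Ico a (a + L), ‖z n‖ ^ 2 := by
    rw [Complex.re_sum]
    refine Finset.sum_congr rfl fun n _ => ?_
    rw [add_zero, Complex.mul_conj, Complex.ofReal_re, Complex.normSq_eq_norm_sq]
  rw [h0] at h
  exact h

end Pool.Agent.Work.MP_8e4d29_nt

end
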