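import Pool.Agent.Work.MP_8e4d29_nt.Bd.B01

/-! Bundle of small proof modules (one section per former module). -/

section

/-!
MP_8e4d29_nt: the elementary consequences of `Par` (facts about the parameters), to be used by all
the items of part 2.  `R = RR g = 2 ^ (10 g)`.
-/

namespace Pool.Agent.Work.MP_8e4d29_nt

/-- consequences of `Par` -/
structure ParF (N A H M P g a : ℕ) : Prop where
  fR : 2 ^ 20 ≤ RR g
  fP : RR g ^ 200 ≤ P
  fPP : P * P ≤ 4 * N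
  fkey : N * P * RR g ^ 100 ≤ 2 * (H * H)
  fM : M * RR g ^ 100 ≤ 4 * H
  fPH : P * RR g ^ 200 ≤ 2 * H
  fLm1 : H ≤ P * Lm H P
  fLm2 : P * Lm H P ≤ 2 * H
  fkap1 : RR g ^ 6 * 2 ^ kap H P g ≤ Lm H P
  fkap2 : Lm H P < 2 * 2 ^ kap H P g * RR g ^ 6
  fkap31 : RR g ^ 6 * 3 ^ kap3 H P g ≤ Lm H P
  fkap32 : Lm H P < 3 * 3 ^ kap3 H P g * RR g ^ 6
  fell1 : 8 * M * RR g ^ a * RR g < 2 ^ (5 * ell M g a)
  fell2 : 2 ^ (5 * ell M g a) ≤ 256 * M * RR g ^ a * RR g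
  flam1 : 8 * M * RR g ^ a * RR g < 3 ^ lam3 M g a
  flam2 : 3 ^ lam3 M g a ≤ 24 * M * RR g ^ a * RR g
  fi01 : 2 ^ (5 * i0 N P g a) * RR g ^ 3 * P ≤ N * RR g ^ a
  fi02 : N * RR g ^ a ≤ 64 * 2 ^ (5 * i0 N P g a) * RR g ^ 3 * P
  fL21 : L2 H P g a * RR g ^ 8 * RR g ^ a ≤ Lm H P
  fL22 : Lm H P < 2 * L2 H P g a * RR g ^ 8 * RR g ^ a
  fL2 : 1 ≤ L2 H P g a
  feta1 : eta H P g * RR g ≤ 3 ^ kap3 H P g
  feta2 : 3 ^ kap3 H P g < 2 * eta H P g * RR g
  feta : 1 ≤ eta H P g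
  fLp : Lp H P g a * (RR g * RR g ^ a) = 2 ^ kap H P g
  fLp2 : Lp H P g a / RR g * RR g = Lp H P g a
  fLp3 : 1 ≤ Lp H P g a / RR g
  fZ1 : Z3 H M P g a * (2 * eta H P g) ≤ 3 ^ lam3 M g a
  fZ2 : 3 ^ lam3 M g a < 4 * Z3 H M P g a * eta H P g
  fZ : 1 ≤ Z3 H M P g a
  fki : kap H P g ≤ 5 * i0 N P g a
  fil : i0 N P g a + 2 * g < ell M g a
  fk3 : kap3 H P g < lam3 M g a
  fkl : kap H P g < 5 * ell M g a
  fLmR : Lm H P * RR g ^ a * RR g ^ 90 ≤ 2 ^ (5 * i0 N P g a)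
  fL2R : L2 H P g a * RR g ^ a * RR g ≤ 3 ^ kap3 H P g
  fRaP : RR g ^ a ≤ P
  flog : Real.log ((N : ℝ) * (RR g : ℝ) ^ 20) ≤ RR g
  flogZ : Real.log (3 ^ lam3 M g a * (RR g : ℝ) ^ 10) ≤ RR g
  flogi : Real.log (2 ^ (5 * (i0 N P g a + 2 * g)) : ℝ) ≤ RR g

/-- D0. the facts about the parameters -/
def ClaimParF : Prop := ∀ N A H M P g a : ℕ, Par N A H M P g a → ParF N A H M P g a

end Pool.Agent.Work.MP_8e4d29_nt

end

section

/-!
MP_8e4d29_nt, item G0: facts about the parameters for large `L`.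
-/

namespace Pool.Agent.Work.MP_8e4d29_nt

open Finset Filter

namespace SizF

/-- `log_2 3` -/
noncomputable def lam : ℝ := Real.logb 2 3

lemma lam_pos : 0 < lam := by
  unfold lam
  exact Real.logb_pos (by norm_num) (by norm_num)

lemma lam_lo : (1584 : ℝ) / 1000 < lam := by
  unfold lam
  have h : (198 : ℝ) < 125 * Real.logb 2 3 := by
    have e1 : (125 : ℝ) * Real.logb 2 3 = Real.logb 2 ((3 : ℝ) ^ 125) := by
      rw [Real.logb_pow]
      norm_num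
    have e2 : (198 : ℝ) = Real.logb 2 ((2 : ℝ) ^ 198) := by
      rw [Real.logb_pow, Real.logb_self_eq_one (by norm_num)]
      norm_num
    rw [e1, e2]
    exact Real.logb_lt_logb (by norm_num) (by norm_num) (by norm_num)
  linarith

lemma lam_hi : lam < (1586 : ℝ) / 1000 := by
  unfold lam
  have h : 41 * Real.logb 2 3 < (65 : ℝ) := by
    have e1 : (41 : ℝ) * Real.logb 2 3 = Real.logb 2 ((3 : ℝ) ^ 41) := by
      rw [Real.logb_pow]
      norm_num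
    have e2 : (65 : ℝ) = Real.logb 2 ((2 : ℝ) ^ 65) := by
      rw [Real.logb_pow, Real.logb_self_eq_one (by norm_num)]
      norm_num
    rw [e1, e2]
    exact Real.logb_lt_logb (by norm_num) (by norm_num) (by norm_num)
  linarith

lemma logb_three_pow (n : ℕ) : Real.logb 2 ((3 : ℝ) ^ n) = n * lam := by
  rw [Real.logb_pow]
  rfl

lemma logb_two_pow (n : ℕ) : Real.logb 2 ((2 : ℝ) ^ n) = n := by
  rw [Real.logb_pow, Real.logb_self_eq_one (by norm_num), mul_one]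

/-- `2 ^ u ≤ 3 ^ v` in terms of `lam` -/
lemma two_le_three {u v : ℕ} (h : 2 ^ u ≤ 3 ^ v) : (u : ℝ) ≤ v * lam := by
  have h1 : ((2 : ℝ) ^ u) ≤ 3 ^ v := by exact_mod_cast h
  have := Real.logb_le_logb_of_le (b := 2) (by norm_num) (by positivity) h1
  rwa [logb_two_pow, logb_three_pow] at this

lemma three_lt_two {u v : ℕ} (h : 3 ^ v < 2 ^ u) : (v : ℝ) * lam < u := by
  have h1 : ((3 : ℝ) ^ v) < 2 ^ u := by exact_mod_cast h
  have := Real.logb_lt_logb (b := 2) (by norm_num) (by positivity) h1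
  rwa [logb_two_pow, logb_three_pow] at this

lemma three_le_two {u v : ℕ} (h : 3 ^ v ≤ 2 ^ u) : (v : ℝ) * lam ≤ u := by
  have h1 : ((3 : ℝ) ^ v) ≤ 2 ^ u := by exact_mod_cast h
  have := Real.logb_le_logb_of_le (b := 2) (by norm_num) (by positivity) h1
  rwa [logb_two_pow, logb_three_pow] at this

lemma two_lt_three {u v : ℕ} (h : 2 ^ u < 3 ^ v) : (u : ℝ) < v * lam := by
  have h1 : ((2 : ℝ) ^ u) < 3 ^ v := by exact_mod_cast h
  have := Real.logb_lt_logb (b := 2) (by norm_num) (by positivity) h1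
  rwa [logb_two_pow, logb_three_pow] at this

/-- real powers of `3 ^ L` are compared with real numbers through `logb 2` -/
lemma rpow_le_of {L : ℕ} {c x : ℝ} (hx : 0 < x) (h : c * (L * lam) ≤ Real.logb 2 x) :
    ((3 ^ L : ℕ) : ℝ) ^ c ≤ x := by
  have h3 : (0 : ℝ) < ((3 ^ L : ℕ) : ℝ) := by positivity
  rw [← Real.logb_le_logb (b := 2) (by norm_num) (Real.rpow_pos_of_pos h3 _) hx,
    Real.logb_rpow_eq_mul_logb_of_pos h3]
  push_cast
  rw [logb_three_pow]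
  exact h

lemma le_rpow_of {L : ℕ} {c x : ℝ} (hx : 0 < x) (h : Real.logb 2 x ≤ c * (L * lam)) :
    x ≤ ((3 ^ L : ℕ) : ℝ) ^ c := by
  have h3 : (0 : ℝ) < ((3 ^ L : ℕ) : ℝ) := by positivity
  rw [← Real.logb_le_logb (b := 2) (by norm_num) hx (Real.rpow_pos_of_pos h3 _),
    Real.logb_rpow_eq_mul_logb_of_pos h3]
  push_cast
  rw [logb_three_pow]
  exact h

lemma L_le_K (L : ℕ) : L ≤ pK L := by
  unfold pK
  apply Nat.le_log_of_pow_le (by norm_num)
  exact Nat.pow_le_pow_left (by norm_num) L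

lemma tendsto_K : Tendsto pK atTop atTop :=
  tendsto_atTop_mono L_le_K tendsto_id

/-- the logarithmic condition -/
lemma ev_log : ∀ᶠ L : ℕ in atTop, ((pk L : ℝ) + 1) ≤ (pK L : ℝ) ^ ((1 : ℝ) / 100) := by
  have h1 : ∀ᶠ x : ℝ in atTop, 2 * Real.log x + 1 ≤ x ^ ((1 : ℝ) / 100) := by
    have h2 : (fun x : ℝ => 2 * Real.log x + 1) =o[atTop] fun x => x ^ ((1 : ℝ) / 100) := by
      apply Asymptotics.IsLittleO.add
      · exact (isLittleO_log_rpow_atTop (by norm_num)).const_mul_left 2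
      · exact (Asymptotics.isLittleO_const_left.mpr
          (Or.inr ((tendsto_norm_atTop_atTop.comp (tendsto_rpow_atTop (by norm_num))))))
    have h3 := h2.bound (show (0 : ℝ) < 1 by norm_num)
    filter_upwards [h3, eventually_ge_atTop (1 : ℝ)] with x hx hx1
    rw [one_mul, Real.norm_eq_abs, Real.norm_eq_abs, abs_of_nonneg (a := x ^ ((1 : ℝ) / 100))
      (Real.rpow_nonneg (by linarith) _)] at hx
    exact (le_abs_self _).trans hx
  have h4 : Tendsto (fun L : ℕ => (pK L : ℝ)) atTop atTop :=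
    tendsto_natCast_atTop_atTop.comp tendsto_K
  have h5 := h4.eventually h1
  filter_upwards [h5, h4.eventually (eventually_ge_atTop (1 : ℝ))] with L hL hL1
  refine le_trans ?_ hL
  have h6 : (pk L : ℝ) ≤ Real.logb 2 (pK L) := by
    have := Real.natLog_le_logb (pK L) 2
    exact_mod_cast this
  have h7 : Real.logb 2 (pK L) ≤ 2 * Real.log (pK L) := by
    rw [Real.logb, div_le_iff₀ (Real.log_pos (by norm_num))]
    have h8 : (1 : ℝ) / 2 ≤ Real.log 2 := by linarith [Real.log_two_gt_d9]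
    have h9 : 0 ≤ Real.log (pK L) := Real.log_nonneg hL1
    nlinarith
  linarith

/-- the real power facts in terms of `y = K ^ (1/16)` -/
lemma rp {K : ℕ} (y : ℝ) (hy : y = (K : ℝ) ^ ((1 : ℝ) / 16)) : 0 ≤ y ∧ (K : ℝ) = y ^ 16 ∧
    (K : ℝ) ^ ((7 : ℝ) / 8) = y ^ 14 ∧ (K : ℝ) ^ ((15 : ℝ) / 16) = y ^ 15 ∧
    (K : ℝ) ^ ((1 : ℝ) / 4) = y ^ 4 := by
  have hK : (0 : ℝ) ≤ K := Nat.cast_nonneg K
  have key : ∀ n : ℕ, y ^ n = (K : ℝ) ^ ((n : ℝ) / 16) := by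
    intro n
    rw [hy, ← Real.rpow_natCast, ← Real.rpow_mul hK]
    congr 1
    ring
  refine ⟨?_, ?_, ?_, ?_, ?_⟩
  · rw [hy]
    exact Real.rpow_nonneg hK _
  · rw [key 16]
    norm_num
  · rw [key 14]
    norm_num
  · rw [key 15]
    norm_num
  · rw [key 4]
    norm_num

/-- the linear facts about `K` and `j0` -/
lemma lin1 {L : ℕ} (hL : 10 ^ 6 ≤ L) : (pK L : ℝ) ≤ L * lam ∧ (L : ℝ) * lam < pK L + 1 ∧
    (pj0 L : ℝ) ≤ L * lam / 2 - 14 / 1000 * L + 123 ∧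
    (L : ℝ) * lam / 2 - 14 / 1000 * L - 2 ≤ pj0 L := by
  have h3 : (3 : ℕ) ^ L ≠ 0 := by positivity
  have hK1 : (pK L : ℝ) ≤ L * lam := two_le_three (Nat.pow_log_le_self 2 h3)
  have hK2 : (L : ℝ) * lam < pK L + 1 := by
    have := three_lt_two (Nat.lt_pow_succ_log_self (b := 2) (by norm_num) (3 ^ L))
    push_cast at this
    exact this
  refine ⟨hK1, hK2, ?_, ?_⟩
  · have h1 : pj0 L = pK L / 2 - L / 100 - 120 * (L / 30000) := rfl
    have h2 : L ≤ pK L := L_le_K L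
    have h4 : pj0 L + L / 100 + 120 * (L / 30000) = pK L / 2 := by omega
    have h5 : ((pj0 L + L / 100 + 120 * (L / 30000) : ℕ) : ℝ) = ((pK L / 2 : ℕ) : ℝ) := by
      rw [h4]
    push_cast at h5
    have h6 : ((pK L / 2 : ℕ) : ℝ) ≤ (pK L : ℝ) / 2 := Nat.cast_div_le
    have h7 : (L : ℝ) < 100 * ((L / 100 : ℕ) : ℝ) + 100 := by
      have : L < 100 * (L / 100) + 100 := by omega
      exact_mod_cast this
    have h8 : (L : ℝ) < 30000 * ((L / 30000 : ℕ) : ℝ) + 30000 := by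
      have : L < 30000 * (L / 30000) + 30000 := by omega
      exact_mod_cast this
    linarith
  · have h1 : pj0 L = pK L / 2 - L / 100 - 120 * (L / 30000) := rfl
    have h2 : L ≤ pK L := L_le_K L
    have h4 : pj0 L + L / 100 + 120 * (L / 30000) = pK L / 2 := by omega
    have h5 : ((pj0 L + L / 100 + 120 * (L / 30000) : ℕ) : ℝ) = ((pK L / 2 : ℕ) : ℝ) := by
      rw [h4]
    push_cast at h5
    have h6 : (pK L : ℝ) ≤ 2 * ((pK L / 2 : ℕ) : ℝ) + 1 := by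
      have : pK L ≤ 2 * (pK L / 2) + 1 := by omega
      exact_mod_cast this
    have h7 : 100 * ((L / 100 : ℕ) : ℝ) ≤ L := by
      have : 100 * (L / 100) ≤ L := by omega
      exact_mod_cast this
    have h8 : 30000 * ((L / 30000 : ℕ) : ℝ) ≤ L := by
      have : 30000 * (L / 30000) ≤ L := by omega
      exact_mod_cast this
    linarith

lemma mul_step {y z : ℝ} (hy : 2000 ≤ y) (hz : 0 ≤ z) : 2000 * z ≤ z * y := by
  rw [mul_comm]
  exact mul_le_mul_of_nonneg_left hy hz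

lemma ypow {y : ℝ} (hy : 2000 ≤ y) : 2000 * y ≤ y ^ 12 ∧ 2000 * y ≤ y ^ 15 ∧
    2000 * y ≤ y ^ 16 ∧ 2000 * y ^ 4 ≤ y ^ 15 ∧ 2000 * y ^ 4 ≤ y ^ 16 ∧ 2000 * y ^ 12 ≤ y ^ 15 ∧
    2000 * y ^ 14 ≤ y ^ 15 ∧ 2000 * y ^ 14 ≤ y ^ 16 ∧ 2000 * y ^ 15 ≤ y ^ 16 ∧
    10 ^ 6 ≤ y ^ 4 ∧ 10 ^ 6 ≤ y ^ 14 ∧ 10 ^ 6 ≤ y ^ 15 ∧ 10 ^ 6 ≤ y ^ 16 := by
  have hy0 : (0 : ℝ) ≤ y := by linarith
  have hy1 : (1 : ℝ) ≤ y := by linarith
  have step : ∀ n k : ℕ, n < k → 2000 * y ^ n ≤ y ^ k := by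
    intro n k hnk
    have h1 : 2000 * y ^ n ≤ y ^ (n + 1) := by
      rw [pow_succ]
      exact mul_step hy (pow_nonneg hy0 n)
    exact h1.trans (pow_le_pow_right₀ hy1 hnk)
  have low : ∀ k : ℕ, 2 ≤ k → 10 ^ 6 ≤ y ^ k := by
    intro k hk
    have h1 : (10 : ℝ) ^ 6 ≤ 2000 ^ 2 := by norm_num
    have h2 : (2000 : ℝ) ^ 2 ≤ y ^ 2 := pow_le_pow_left₀ (by norm_num) hy 2
    exact (h1.trans h2).trans (pow_le_pow_right₀ hy1 hk)
  have s1 : ∀ k : ℕ, 1 < k → 2000 * y ≤ y ^ k := by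
    intro k hk
    have := step 1 k hk
    rwa [pow_one] at this
  exact ⟨s1 12 (by norm_num), s1 15 (by norm_num), s1 16 (by norm_num), step 4 15 (by norm_num),
    step 4 16 (by norm_num), step 12 15 (by norm_num), step 14 15 (by norm_num),
    step 14 16 (by norm_num), step 15 16 (by norm_num), low 4 (by norm_num), low 14 (by norm_num),
    low 15 (by norm_num), low 16 (by norm_num)⟩

/-- products with `lam` -/
lemma lamL {L : ℕ} : (1584 : ℝ) / 1000 * L ≤ L * lam ∧ L * lam ≤ (1586 : ℝ) / 1000 * L ∧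
    (1584 : ℝ) / 1000 * (L * lam) ≤ L * lam * lam ∧
    L * lam * lam ≤ (1586 : ℝ) / 1000 * (L * lam) := by
  have l1 := lam_lo.le
  have l2 := lam_hi.le
  have hL : (0 : ℝ) ≤ L := Nat.cast_nonneg L
  have hLl : (0 : ℝ) ≤ L * lam := mul_nonneg hL lam_pos.le
  refine ⟨?_, ?_, ?_, ?_⟩
  · rw [mul_comm]
    exact mul_le_mul_of_nonneg_left l1 hL
  · rw [mul_comm (1586 / 1000 : ℝ)]
    exact mul_le_mul_of_nonneg_left l2 hL
  · rw [mul_comm (1584 / 1000 : ℝ)]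
    exact mul_le_mul_of_nonneg_left l1 hLl
  · rw [mul_comm (1586 / 1000 : ℝ)]
    exact mul_le_mul_of_nonneg_left l2 hLl

lemma lamj {L : ℕ} {j : ℝ} (h1 : j ≤ L * lam / 2 - 14 / 1000 * L + 123)
    (h2 : L * lam / 2 - 14 / 1000 * L - 2 ≤ j) :
    L * lam * lam / 2 - 14 / 1000 * (L * lam) - 2 * lam ≤ j * lam ∧
    j * lam ≤ L * lam * lam / 2 - 14 / 1000 * (L * lam) + 123 * lam := by
  have h3 := mul_le_mul_of_nonneg_right h1 lam_pos.le
  have h4 := mul_le_mul_of_nonneg_right h2 lam_pos.le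
  have e1 : (L * lam / 2 - 14 / 1000 * L + 123) * lam =
      L * lam * lam / 2 - 14 / 1000 * (L * lam) + 123 * lam := by ring
  have e2 : (L * lam / 2 - 14 / 1000 * L - 2) * lam =
      L * lam * lam / 2 - 14 / 1000 * (L * lam) - 2 * lam := by ring
  rw [e1] at h3
  rw [e2] at h4
  exact ⟨h4, h3⟩

lemma log_le_logb (n : ℕ) : (Nat.log 2 n : ℝ) ≤ Real.logb 2 n := by
  have := Real.natLog_le_logb n 2
  exact_mod_cast this

lemma logb_lt_log (n : ℕ) (hn : n ≠ 0) : Real.logb 2 n < (Nat.log 2 n : ℝ) + 1 := by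
  have h := Nat.lt_pow_succ_log_self (b := 2) (by norm_num) n
  have h1 : (n : ℝ) < (2 : ℝ) ^ (Nat.log 2 n + 1) := by exact_mod_cast h
  have hn' : (0 : ℝ) < n := by
    have := Nat.pos_of_ne_zero hn
    exact_mod_cast this
  have := Real.logb_lt_logb (b := 2) (by norm_num) hn' h1
  rw [logb_two_pow] at this
  push_cast at this
  exact this

/-- everything about `X` -/
lemma lin2 {L : ℕ} (hL : 10 ^ 6 ≤ L) (hq : (pqe L : ℝ) ≤ (L : ℝ) * lam / 1000) :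
    1 ≤ pX L ∧ pX L * (3 ^ L * 2 ^ (2 * pqe L)) ≤ pH L ^ 2 ∧
    pH L ^ 2 < 2 * (pX L * (3 ^ L * 2 ^ (2 * pqe L))) ∧
    Real.logb 2 (pX L) ≤ 558 / 1000 * (L * lam) + 400 ∧
    5539 / 10000 * (L * lam) - 10 ≤ Real.logb 2 (pX L) := by
  obtain ⟨hK1, hK2, hj1, hj2⟩ := lin1 hL
  have l1 := lam_lo
  have l2 := lam_hi
  have hLr : (10 : ℝ) ^ 6 ≤ L := by exact_mod_cast hL
  obtain ⟨ha, hau, hal, hal'⟩ := lamL (L := L)
  obtain ⟨hjl, hju⟩ := lamj hj1 hj2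
  have hsq : pH L ^ 2 = 3 ^ (2 * pj0 L) := by
    unfold pH
    rw [← pow_mul, mul_comm]
  have hD0 : 0 < 3 ^ L * 2 ^ (2 * pqe L) := by positivity
  have hDX : 3 ^ L * 2 ^ (2 * pqe L) ≤ 3 ^ (2 * pj0 L) := by
    have h1 : ((3 : ℝ) ^ L * 2 ^ (2 * pqe L)) ≤ 3 ^ (2 * pj0 L) := by
      rw [← Real.logb_le_logb (b := 2) (by norm_num) (by positivity) (by positivity),
        Real.logb_mul (by positivity) (by positivity), logb_three_pow, logb_two_pow,
        logb_three_pow]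
      push_cast
      linarith
    exact_mod_cast h1
  have hX1 : 1 ≤ pX L := by
    unfold pX
    exact (Nat.one_le_div_iff hD0).mpr hDX
  have h6 : pX L * (3 ^ L * 2 ^ (2 * pqe L)) ≤ pH L ^ 2 := by
    rw [hsq]
    exact Nat.div_mul_le_self _ _
  have h6' : pH L ^ 2 < 2 * (pX L * (3 ^ L * 2 ^ (2 * pqe L))) := by
    rw [hsq]
    have h7 : 3 ^ (2 * pj0 L) < (3 ^ L * 2 ^ (2 * pqe L)) * (pX L + 1) :=
      Nat.lt_mul_div_succ _ hD0
    have h8 : 3 ^ L * 2 ^ (2 * pqe L) ≤ pX L * (3 ^ L * 2 ^ (2 * pqe L)) :=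
      Nat.le_mul_of_pos_left _ hX1
    have h9 : (3 ^ L * 2 ^ (2 * pqe L)) * (pX L + 1) =
      pX L * (3 ^ L * 2 ^ (2 * pqe L)) + 3 ^ L * 2 ^ (2 * pqe L) := by ring
    omega
  have hXr : (0 : ℝ) < pX L := by exact_mod_cast hX1
  have e6 : Real.logb 2 (pX L) + (L * lam + 2 * pqe L) ≤ 2 * (pj0 L * lam) := by
    have h1 : ((pX L : ℝ) * ((3 : ℝ) ^ L * 2 ^ (2 * pqe L))) ≤ 3 ^ (2 * pj0 L) := by
      rw [hsq] at h6
      exact_mod_cast h6
    have := Real.logb_le_logb_of_le (b := 2) (by norm_num) (by positivity) h1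
    rw [Real.logb_mul (by positivity) (by positivity), Real.logb_mul (by positivity)
      (by positivity), logb_three_pow, logb_two_pow, logb_three_pow] at this
    push_cast at this
    linarith
  have e6' : 2 * (pj0 L * lam) < 1 + (Real.logb 2 (pX L) + (L * lam + 2 * pqe L)) := by
    have h1 : (3 : ℝ) ^ (2 * pj0 L) < 2 * ((pX L : ℝ) * ((3 : ℝ) ^ L * 2 ^ (2 * pqe L))) := by
      rw [hsq] at h6'
      exact_mod_cast h6'
    have := Real.logb_lt_logb (b := 2) (by norm_num) (by positivity) h1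
    rw [Real.logb_mul (by positivity) (by positivity), Real.logb_mul (by positivity)
      (by positivity), Real.logb_mul (by positivity)
      (by positivity), logb_three_pow, logb_two_pow, logb_three_pow,
      Real.logb_self_eq_one (by norm_num)] at this
    push_cast at this
    linarith
  have hq0 : (0 : ℝ) ≤ pqe L := Nat.cast_nonneg _
  refine ⟨hX1, h6, h6', ?_, ?_⟩
  · linarith only [e6, hju, hal', l2, hq0]
  · linarith only [e6', hjl, hal, l2, hq, l1]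

end SizF

open SizF in
/-- item G0 -/
theorem claimSizF : ClaimSizF := by
  have hK : ∀ᶠ L : ℕ in atTop, (2000 : ℝ) ^ 16 ≤ (pK L : ℝ) :=
    (tendsto_natCast_atTop_atTop.comp tendsto_K).eventually
      (eventually_ge_atTop ((2000 : ℝ) ^ 16))
  have hev := (ev_log.and hK).and (eventually_ge_atTop (10 ^ 9))
  rw [eventually_atTop] at hev
  obtain ⟨L0, hL0⟩ := hev
  refine ⟨L0, fun L hL => ?_⟩
  obtain ⟨⟨hlog, hK16⟩, hL9⟩ := hL0 L hL
  obtain ⟨y, hy⟩ : ∃ y : ℝ, y = (pK L : ℝ) ^ ((1 : ℝ) / 16) := ⟨_, rfl⟩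
  obtain ⟨hy0, y16, y14, y15, y4⟩ := rp (K := pK L) y hy
  have hy2 : 2000 ≤ y := by
    rw [y16] at hK16
    exact le_of_pow_le_pow_left₀ (by norm_num) hy0 hK16
  have hLr : (10 : ℝ) ^ 9 ≤ L := by exact_mod_cast hL9
  obtain ⟨hK1, hK2, hj1, hj2⟩ := lin1 (L := L) (by omega)
  have l1 := lam_lo
  have l2 := lam_hi
  obtain ⟨ha, hau, hal, hal'⟩ := lamL (L := L)
  obtain ⟨hjl, hju⟩ := lamj hj1 hj2
  -- powers of y
  have p1 : (0 : ℝ) < y := by linarith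
  obtain ⟨a1, a2, a3, a4, a5, a6, a7, a8, a9, r4, r14, r15, r16⟩ := ypow hy2
  -- ceilings and floors
  have qe1 : y ^ 14 ≤ pqe L := by
    rw [← y14]
    exact Nat.le_ceil _
  have qe2 : (pqe L : ℝ) < y ^ 14 + 1 := by
    rw [← y14]
    exact Nat.ceil_lt_add_one (Real.rpow_nonneg (Nat.cast_nonneg _) _)
  have al1 : y ^ 15 ≤ pal L := by
    rw [← y15]
    exact Nat.le_ceil _
  have al2 : (pal L : ℝ) < y ^ 15 + 1 := by
    rw [← y15]
    exact Nat.ceil_lt_add_one (Real.rpow_nonneg (Nat.cast_nonneg _) _)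
  have m1 : (pm L : ℝ) ≤ y ^ 4 := by
    rw [← y4]
    exact Nat.floor_le (Real.rpow_nonneg (Nat.cast_nonneg _) _)
  have m2 : y ^ 4 < pm L + 1 := by
    rw [← y4]
    exact Nat.lt_floor_add_one _
  have hk : ((pk L : ℝ) + 1) ≤ y := by
    refine hlog.trans ?_
    rw [hy]
    apply Real.rpow_le_rpow_of_exponent_le _ (by norm_num)
    exact le_trans (by norm_num) hK16
  have hk0 : (0 : ℝ) ≤ pk L := Nat.cast_nonneg _
  have hm0 : 0 < pm L := by
    have : (0 : ℝ) < pm L := by linarith only [m2, r4]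
    exact_mod_cast this
  rw [y16] at hK1 hK2
  obtain ⟨hX1, hX2, hX3, hX4, hX5⟩ := lin2 (L := L) (by omega)
    (by linarith only [qe2, a8, hK1, r16])
  have hX0 : pX L ≠ 0 := by omega
  have hXr : (0 : ℝ) < pX L := by exact_mod_cast hX1
  have g1 := log_le_logb (pX L)
  have g2 := logb_lt_log (pX L) hX0
  have hH0 : (0 : ℝ) < pH L := by
    unfold pH
    positivity
  have hHlog : Real.logb 2 (pH L) = pj0 L * lam := by
    unfold pH
    push_cast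
    exact logb_three_pow _
  have g3 := log_le_logb (pH L)
  have g4 := logb_lt_log (pH L) (by unfold pH; positivity)
  rw [hHlog] at g3 g4
  have h13 : 2 * pal L ≤ Nat.log 2 (pX L) := by
    have : (2 * (pal L : ℝ)) ≤ Nat.log 2 (pX L) := by
      linarith only [al2, a9, hK1, hX5, g2, r15]
    exact_mod_cast this
  have h12 : pm L * pl L ≤ Nat.log 2 (pX L) - 2 * pal L := by
    unfold pl
    exact Nat.mul_div_le _ _
  have h12' : Nat.log 2 (pX L) - 2 * pal L < pm L * pl L + pm L := by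
    have := Nat.lt_mul_div_succ (Nat.log 2 (pX L) - 2 * pal L) hm0
    unfold pl
    rw [Nat.mul_succ] at this
    exact this
  have r12 : (pm L : ℝ) * pl L ≤ Nat.log 2 (pX L) - 2 * pal L := by
    have : pm L * pl L + 2 * pal L ≤ Nat.log 2 (pX L) := by omega
    have h : ((pm L * pl L + 2 * pal L : ℕ) : ℝ) ≤ (Nat.log 2 (pX L) : ℝ) := by
      exact_mod_cast this
    push_cast at h
    linarith only [h]
  have r12' : (Nat.log 2 (pX L) : ℝ) - 2 * pal L < pm L * pl L + pm L := by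
    have : Nat.log 2 (pX L) < pm L * pl L + pm L + 2 * pal L := by omega
    have h : (Nat.log 2 (pX L) : ℝ) < ((pm L * pl L + pm L + 2 * pal L : ℕ) : ℝ) := by
      exact_mod_cast this
    push_cast at h
    linarith only [h]
  have plu : (pl L : ℝ) ≤ 13 / 10 * y ^ 12 := by
    have h1 : y ^ 4 / 2 ≤ pm L := by linarith only [m2, r4]
    have h2 : y ^ 4 / 2 * pl L ≤ pm L * pl L :=
      mul_le_mul_of_nonneg_right h1 (Nat.cast_nonneg _)
    have h3 : y ^ 4 / 2 * pl L ≤ y ^ 4 / 2 * (13 / 10 * y ^ 12) := by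
      have e : y ^ 4 / 2 * (13 / 10 * y ^ 12) = 13 / 20 * y ^ 16 := by ring
      rw [e]
      linarith only [h2, r12, g1, hX4, hK2, al1, r15, r16]
    exact le_of_mul_le_mul_left h3 (by positivity)
  have pll : y ^ 12 / 2 ≤ pl L := by
    have h2 : (pm L : ℝ) * pl L ≤ y ^ 4 * pl L :=
      mul_le_mul_of_nonneg_right m1 (Nat.cast_nonneg _)
    have h3 : y ^ 4 * (y ^ 12 / 2) ≤ y ^ 4 * pl L := by
      have e : y ^ 4 * (y ^ 12 / 2) = y ^ 16 / 2 := by ring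
      rw [e]
      linarith only [h2, r12', g2, hX5, hK1, al2, m1, a9, a5, r16]
    exact le_of_mul_le_mul_left h3 (by positivity)
  have hb : (pb L : ℝ) = pal L + pm L * pl L := by
    unfold pb
    push_cast
    ring
  have hb1 : (pb1 L : ℝ) = Nat.log 2 (pX L) + 20 * (pk L + 1) := by
    unfold pb1
    push_cast
    ring
  have hc : pj0 L * lam ≤ 779 / 1000 * (L * lam) + 200 := by linarith only [hju, hal', l2]
  have hc' : 778 / 1000 * (L * lam) - 4 ≤ pj0 L * lam := by linarith only [hjl, hal, l2]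
  have h14 : pb L + pal L ≤ Nat.log 2 (pX L) := by
    have : (pb L : ℝ) + pal L ≤ Nat.log 2 (pX L) := by linarith only [hb, r12]
    exact_mod_cast this
  have h14' : Nat.log 2 (pX L) ≤ pb L + 2 * pal L := by
    have : (Nat.log 2 (pX L) : ℝ) ≤ pb L + 2 * pal L := by
      linarith only [hb, r12', m1, al1, a4, r4]
    exact_mod_cast this
  have h15 : pb L + pal L ≤ pb1 L := by
    have : (pb L : ℝ) + pal L ≤ pb1 L := by linarith only [hb, hb1, r12, hk0]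
    exact_mod_cast this
  have hlam := lam_pos
  have hbt0 : pBt L 0 = pb L := by
    unfold pBt
    simp
  have h19 : 54 / 100 * (L * lam) ≤ pb L := by
    linarith only [hb, r12', m1, al2, g2, hX5, hK1, a9, a5, r16]
  refine
    { z1 := ?_, z2 := hlog, z3 := ?_, z3' := ?_, z4 := ?_, z5 := ?_, z6 := hX2, z6' := hX3,
      z7 := ?_, z7' := ?_, z8 := ?_, z9 := ?_, z10 := ?_, z10' := ?_, z11 := ?_, z12 := h12,
      z12' := h12', z13 := h13, z14 := h14, z14' := h14', z15 := h15, z15' := ?_, z15b := ?_,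
      z16 := ?_, z16' := ?_, z17 := ?_, z18 := hm0, z18' := ?_, z18b := ?_, z19 := ?_,
      z19' := ?_, z20 := ?_, z20' := ?_, z21 := ?_, z22 := ?_ }
  · have : ((10 ^ 12 : ℕ) : ℝ) ≤ pK L := by
      refine le_trans ?_ hK16
      norm_num
    exact_mod_cast this
  · exact Nat.pow_log_le_self 2 (by positivity)
  · exact Nat.lt_pow_succ_log_self (by norm_num) _
  · apply rpow_le_of hH0
    rw [hHlog]
    linarith only [hc', ha, hLr]
  · apply le_rpow_of hH0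
    rw [hHlog]
    linarith only [hc, ha, hLr]
  · apply rpow_le_of hXr
    linarith only [hX5, ha, hLr]
  · apply le_rpow_of hXr
    linarith only [hX4, ha, hLr]
  · apply le_rpow_of (by positivity)
    rw [logb_two_pow]
    linarith only [al2, a9, hK1, r15]
  · have : 20 * (pl L : ℝ) ≤ pal L := by linarith only [plu, a6, al1, r15]
    exact_mod_cast this
  · have : 10 * (pqe L : ℝ) ≤ pal L := by linarith only [qe2, a7, al1, r14]
    exact_mod_cast this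
  · have : (0 : ℝ) < pqe L := by linarith only [qe1, r14]
    have h : 0 < pqe L := by exact_mod_cast this
    omega
  · have : 100 * ((pk L : ℝ) + 1) ≤ pl L := by linarith only [hk, pll, a1, hy2]
    exact_mod_cast this
  · have : (pb1 L : ℝ) ≤ pb L + 3 * pal L := by
      linarith only [hb, hb1, r12', m1, hk, al1, a2, a4, r15]
    exact_mod_cast this
  · have : (pb1 L : ℝ) + 100 ≤ Nat.log 2 (pH L) := by
      linarith only [hb1, g1, hX4, hk, g4, hc', hK1, a3, r16]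
    exact_mod_cast this
  · unfold pP pb13
    rw [hbt0]
    apply Nat.lt_succ_of_le
    apply Nat.log_mono_right
    apply Nat.pow_le_pow_right (by norm_num)
    omega
  · have h1 : ((Nat.log 3 (2 ^ pb1 L) : ℕ) : ℝ) * lam ≤ pb1 L :=
      three_le_two (Nat.pow_log_le_self 3 (by positivity))
    have h3 : ((Nat.log 3 (2 ^ pb1 L) : ℝ) + 101) * lam ≤ pj0 L * lam := by
      rw [add_mul]
      linarith only [h1, hb1, g1, hX4, hk, hc', hK1, a3, r16, l2]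
    have h4 := le_of_mul_le_mul_right h3 hlam
    have h5 : Nat.log 3 (2 ^ pb1 L) + 101 ≤ pj0 L := by exact_mod_cast h4
    unfold pb13
    omega
  · have h1 : (Nat.log 2 (pH L) : ℝ) + 40 * (pk L + 1) ≤ pK L := by
      rw [y16]
      linarith only [g3, hc, hk, hK2, a3, r16]
    unfold pk0
    exact_mod_cast h1
  · rw [y4]
    exact m1
  · rw [y4]
    exact m2
  · apply rpow_le_of (by positivity)
    rw [logb_two_pow]
    exact h19
  · apply rpow_le_of (by positivity)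
    rw [logb_three_pow]
    have h1 : ((pb L : ℕ) : ℝ) < ((Nat.log 3 (2 ^ pb L) + 1 : ℕ) : ℝ) * lam :=
      two_lt_three (Nat.lt_pow_succ_log_self (by norm_num) _)
    push_cast at h1
    unfold pP
    rw [hbt0]
    rw [add_mul] at h1
    linarith only [h1, h19, l2, ha, hLr]
  · have h1 : (pK L : ℝ) ≤ 4 * pj0 L := by
      rw [y16]
      linarith only [hK1, hj2, ha, hLr]
    exact_mod_cast h1
  · have h1 : (pj0 L : ℝ) ≤ L := by linarith only [hj1, hau, hLr]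
    exact_mod_cast h1
  · rw [y16]
    linarith only [hK1, hX5, g2, ha, hLr]
  · rw [y16]
    linarith only [al2, a9, r15]

end Pool.Agent.Work.MP_8e4d29_nt

end

section

/-!
MP_8e4d29_nt: item A7, `∑_{P < n ≤ 2P} min (X, 1/(2‖n ξ‖))` for small `ξ`.
-/

namespace Pool.Agent.Work.MP_8e4d29_nt

open Finset

theorem claimW : ClaimW := by
  intro P X ξ hP hX hξ hξ2
  have hP' : (1 : ℝ) ≤ P := by exact_mod_cast hP
  have hlog : 0 ≤ Real.log (1 / ξ) := Real.log_nonneg (by rw [le_div_iff₀ hξ]; linarith)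
  have hrest : 0 ≤ 20 * (P * ξ * X + P * (1 + Real.log (1 / ξ))) := by positivity
  rcases le_or_gt (4 * (P : ℝ) * ξ) 1 with hc | hc
  · have h1 : ∀ n ∈ Ioc P (2 * P), gm X (n * ξ) ≤ 1 / (2 * (P * ξ)) := by
      intro n hn
      rw [Finset.mem_Ioc] at hn
      have h2 : (P : ℝ) ≤ n := by exact_mod_cast hn.1.le
      have h3 : (n : ℝ) ≤ 2 * P := by exact_mod_cast hn.2
      have h4 : 0 < (n : ℝ) * ξ := mul_pos (by linarith) hξ
      have h5 : (n : ℝ) * ξ ≤ 1 / 2 := by nlinarith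
      have h6 : nd (n * ξ) = n * ξ := by
        rw [nd_eq_abs, abs_of_pos h4]
        rw [abs_of_pos h4]; exact h5
      refine (gm_le_inv (by rw [h6]; exact h4)).trans ?_
      rw [h6]
      apply one_div_le_one_div_of_le (by positivity)
      nlinarith
    have h2 := Finset.sum_le_card_nsmul _ _ _ h1
    have h3 : (Ioc P (2 * P)).card = P := by rw [Nat.card_Ioc]; omega
    rw [h3, nsmul_eq_mul] at h2
    have h4 : (P : ℝ) * (1 / (2 * (P * ξ))) = 1 / (2 * ξ) := by field_simp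
    rw [h4] at h2
    linarith
  · have hJ : ∀ n ∈ Ioc P (2 * P), ∀ j : ℕ, (j : ℝ) * ξ ≤ nd (n * ξ) →
        gm X (n * ξ) ≤ (if j = 0 then X else 1 / (2 * ξ) * (j : ℝ)⁻¹) ∧
          j ≤ ⌊1 / (2 * ξ)⌋₊ := by
      intro n _ j hj
      constructor
      · split_ifs with h0
        · exact gm_le _ _
        · have hj0 : (0 : ℝ) < j := by exact_mod_cast Nat.pos_of_ne_zero h0
          have h1 : 0 < (j : ℝ) * ξ := mul_pos hj0 hξ
          refine (gm_le_inv (lt_of_lt_of_le h1 hj)).trans ?_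
          have h2 : 1 / (2 * ξ) * (j : ℝ)⁻¹ = 1 / (2 * ((j : ℝ) * ξ)) := by
            field_simp
          rw [h2]
          apply one_div_le_one_div_of_le (by positivity)
          linarith
      · apply Nat.le_floor
        rw [le_div_iff₀ (by positivity)]
        have := nd_le_half ((n : ℝ) * ξ)
        linarith
    have hg : ∀ j : ℕ, 0 ≤ (if j = 0 then X else 1 / (2 * ξ) * (j : ℝ)⁻¹) := by
      intro j
      split_ifs
      · linarith
      · positivity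
    have h1 := Grp.group_sum hξ hc (Ioc P (2 * P)) (Finset.Subset.refl _)
      (fun n => gm X (n * ξ)) (fun j => if j = 0 then X else 1 / (2 * ξ) * (j : ℝ)⁻¹) hg
      ⌊1 / (2 * ξ)⌋₊ hJ
    have h2 : ∑ j ∈ range (⌊1 / (2 * ξ)⌋₊ + 1), (if j = 0 then X else 1 / (2 * ξ) * (j : ℝ)⁻¹) =
        X + 1 / (2 * ξ) * (harmonic ⌊1 / (2 * ξ)⌋₊ : ℝ) := by
      rw [Finset.sum_range_succ']
      simp only [if_true, Nat.succ_ne_zero, if_false]
      rw [add_comm]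
      congr 1
      rw [← Finset.mul_sum]
      congr 1
      unfold harmonic
      push_cast
      rfl
    have h3 : (harmonic ⌊1 / (2 * ξ)⌋₊ : ℝ) ≤ 1 + Real.log (1 / ξ) := by
      refine (harmonic_le_one_add_log _).trans ?_
      have h5 : 1 ≤ 1 / (2 * ξ) := by rw [le_div_iff₀ (by positivity)]; linarith
      have h4 : 1 ≤ ⌊1 / (2 * ξ)⌋₊ := Nat.le_floor (by push_cast; exact h5)
      have h6 : (⌊1 / (2 * ξ)⌋₊ : ℝ) ≤ 1 / (2 * ξ) := Nat.floor_le (by positivity)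
      have h7 : 1 / (2 * ξ) ≤ 1 / ξ := one_div_le_one_div_of_le hξ (by linarith)
      have h8 : Real.log (⌊1 / (2 * ξ)⌋₊ : ℝ) ≤ Real.log (1 / ξ) :=
        Real.log_le_log (by exact_mod_cast h4) (h6.trans h7)
      linarith
    rw [h2] at h1
    have h4 : 1 / (2 * ξ) * (harmonic ⌊1 / (2 * ξ)⌋₊ : ℝ) ≤
        1 / (2 * ξ) * (1 + Real.log (1 / ξ)) := mul_le_mul_of_nonneg_left h3 (by positivity)
    have h5 : 9 * (P * ξ) * (2 * (X + 1 / (2 * ξ) * (harmonic ⌊1 / (2 * ξ)⌋₊ : ℝ))) ≤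
        9 * (P * ξ) * (2 * (X + 1 / (2 * ξ) * (1 + Real.log (1 / ξ)))) := by
      apply mul_le_mul_of_nonneg_left _ (by positivity)
      linarith
    have h6 : 9 * (P * ξ) * (2 * (X + 1 / (2 * ξ) * (1 + Real.log (1 / ξ)))) =
        18 * (P * ξ * X) + 9 * (P * (1 + Real.log (1 / ξ))) := by
      field_simp
      ring
    have h7 : 0 ≤ 1 / (2 * ξ) := by positivity
    have h8 : 0 ≤ P * ξ * X := by positivity
    have h9 : 0 ≤ P * (1 + Real.log (1 / ξ)) := by positivity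
    linarith

end Pool.Agent.Work.MP_8e4d29_nt

end

section

/-!
MP_8e4d29_nt: item A8, the number of `P < n ≤ 2P` with `‖n ξ‖ ≤ η`, for small `ξ`.
-/

namespace Pool.Agent.Work.MP_8e4d29_nt

open Finset

theorem claimWcount : ClaimWcount := by
  intro P ξ η hP hξ hξ2 hη hη2
  have hP' : (1 : ℝ) ≤ P := by exact_mod_cast hP
  rcases le_or_gt (4 * (P : ℝ) * ξ) 1 with hc | hc
  · have h1 : (Ioc P (2 * P)).filter (fun n : ℕ => nd (n * ξ) ≤ η) = ∅ := by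
      rw [Finset.filter_eq_empty_iff]
      intro n hn
      rw [Finset.mem_Ioc] at hn
      have h2 : (P : ℝ) ≤ n := by exact_mod_cast hn.1.le
      have h3 : (n : ℝ) ≤ 2 * P := by exact_mod_cast hn.2
      have h4 : 0 < (n : ℝ) * ξ := mul_pos (by linarith) hξ
      have h5 : (n : ℝ) * ξ ≤ 1 / 2 := by nlinarith
      have h6 : nd (n * ξ) = n * ξ := by
        rw [nd_eq_abs, abs_of_pos h4]
        rw [abs_of_pos h4]; exact h5
      rw [h6, not_le]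
      nlinarith
    rw [h1]
    simp only [Finset.card_empty, Nat.cast_zero]
    positivity
  · have hJ : ∀ n ∈ (Ioc P (2 * P)).filter (fun n : ℕ => nd (n * ξ) ≤ η), ∀ j : ℕ,
        (j : ℝ) * ξ ≤ nd (n * ξ) → (1 : ℝ) ≤ 1 ∧ j ≤ ⌊η / ξ⌋₊ := by
      intro n hn j hj
      rw [Finset.mem_filter] at hn
      refine ⟨le_rfl, Nat.le_floor ?_⟩
      rw [le_div_iff₀ hξ]
      exact hj.trans hn.2
    have h1 := Grp.group_sum hξ hc ((Ioc P (2 * P)).filter (fun n : ℕ => nd (n * ξ) ≤ η))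
      (Finset.filter_subset _ _) (fun _ => (1 : ℝ)) (fun _ => (1 : ℝ)) (fun _ => zero_le_one)
      ⌊η / ξ⌋₊ hJ
    simp only [Finset.sum_const, nsmul_eq_mul, mul_one, Finset.card_range] at h1
    push_cast at h1
    have h2 : (⌊η / ξ⌋₊ : ℝ) ≤ η / ξ := Nat.floor_le (by positivity)
    have h3 : 9 * ((P : ℝ) * ξ) * (2 * ((⌊η / ξ⌋₊ : ℝ) + 1)) ≤ 9 * (P * ξ) * (2 * (η / ξ + 1)) := by
      apply mul_le_mul_of_nonneg_left _ (by positivity)
      linarith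
    have h4 : 9 * ((P : ℝ) * ξ) * (2 * (η / ξ + 1)) = 18 * (P * η + P * ξ) := by
      field_simp
      ring
    linarith

end Pool.Agent.Work.MP_8e4d29_nt

end

section

/-!
MP_8e4d29_nt: statements, part 3 (major arcs).
-/

namespace Pool.Agent.Work.MP_8e4d29_nt

open Finset
open Pool.Agent.Work.MP_122e00_nt (ee)

/-- E1. `∑_{m ≤ U} min (X/m, 1/(2‖m α‖))` -/
def ClaimSumGM2 : Prop := ∃ C : ℝ, ∀ (α : ℝ) (q : ℕ) (a : ℤ) (U : ℕ) (X : ℝ), 1 ≤ q → 1 ≤ U →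
  0 ≤ X → IsCoprime a (q : ℤ) → |α - a / q| ≤ 1 / (q : ℝ) ^ 2 →
  ∑ m ∈ Icc 1 U, gm (X / m) (m * α) ≤ C * (X / q + U + q) * (1 + Real.log (2 * q * U))

/-- E2. exponential sums over primes in short intervals -/
def ClaimExp : Prop := ∃ C N0 : ℕ, ∀ (N A H q : ℕ) (a : ℤ) (α : ℝ), N0 ≤ N → N ≤ A →
  A + H ≤ 4 * N → (N : ℝ) ^ ((77 : ℝ) / 100) ≤ H → (H : ℝ) ≤ (N : ℝ) ^ ((80 : ℝ) / 100) → 1 ≤ q →
  IsCoprime a (q : ℤ) → |α - a / q| ≤ 1 / (q : ℝ) ^ 2 →
  ‖∑ n ∈ Ioc A (A + H), (ArithmeticFunction.vonMangoldt n : ℂ) * ee (α * n)‖ ≤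
    H * (2 + Real.log N) ^ C *
      (1 / Real.sqrt q + (N : ℝ) ^ (-(1 : ℝ) / 4000) + Real.sqrt (N * q) / H)

/-- F1. Fourier expansion in base 2 -/
def ClaimF2 : Prop := ∀ (k : ℕ) (w : ℕ → ℝ) (n : ℕ),
  ee (wd 2 w k n) = ∑ ξ ∈ range (2 ^ k), cf2 k w ξ * ee ((n : ℝ) * ξ / 2 ^ k)

/-- F2. Fourier expansion in base 3 -/
def ClaimF3 : Prop := ∀ (k : ℕ) (w : ℕ → ℝ) (n : ℕ),
  ee (wd 3 w k n) = ∑ ξ ∈ range (3 ^ k), cf3 k w ξ * ee ((n : ℝ) * ξ / 3 ^ k)

/-- F3. `L¹` norm of the Fourier coefficients, base 2 -/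
def ClaimL12 : Prop := ∀ (k : ℕ) (w : ℕ → ℝ) (θ η : ℝ), 0 < η → η ≤ 1 →
  4 * Real.pi * |θ| ≤ η ^ 2 → (∀ i, w i = 0 ∨ w i = θ) →
  ∑ ξ ∈ range (2 ^ k), ‖cf2 k w ξ‖ ≤ (1 + 2 * η) ^ k

/-- F4. `L¹` norm of the Fourier coefficients, base 3 -/
def ClaimL13 : Prop := ∀ (k : ℕ) (w : ℕ → ℝ) (θ η : ℝ), 0 < η → η ≤ 1 →
  4 * Real.pi * |θ| ≤ η ^ 2 → (∀ i, w i = 0 ∨ w i = θ) →
  ∑ ξ ∈ range (3 ^ k), ‖cf3 k w ξ‖ ≤ (1 + 5 * η) ^ k

/-- F5. missing low digits, base 2 -/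
def ClaimLow2 : Prop := ∀ (k a ξ : ℕ) (w : ℕ → ℝ), a ≤ k → (∀ i < a, w i = 0) →
  0 < nd ((ξ : ℝ) / 2 ^ k) →
  ‖cf2 k w ξ‖ ≤ 1 / (2 ^ a * (2 * nd ((ξ : ℝ) / 2 ^ k))) * ‖cf2 (k - a) (fun i => w (i + a)) ξ‖

/-- F6. missing low digits, base 3 -/
def ClaimLow3 : Prop := ∀ (k a ξ : ℕ) (w : ℕ → ℝ), a ≤ k → (∀ i < a, w i = 0) →
  0 < nd ((ξ : ℝ) / 3 ^ k) →
  ‖cf3 k w ξ‖ ≤ 1 / (3 ^ a * (2 * nd ((ξ : ℝ) / 3 ^ k))) * ‖cf3 (k - a) (fun i => w (i + a)) ξ‖

/-- F7. coefficient mass at the frequencies close to `c / q`, `2 ≤ q ≤ Q` -/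
def ClaimMass : Prop := ∀ (k l a a' Q X : ℕ) (w w' : ℕ → ℝ) (B2 B3 : ℝ) (T : Finset (ℕ × ℕ)),
  a ≤ k → a' ≤ l → (∀ i < a, w i = 0) → (∀ i < a', w' i = 0) → 2 ≤ Q →
  4 * 2 ^ a ≤ X * Q → 4 * 3 ^ a' ≤ X * Q →
  ∑ ξ ∈ range (2 ^ k), ‖cf2 k w ξ‖ ≤ B2 →
  ∑ ξ ∈ range (2 ^ (k - a)), ‖cf2 (k - a) (fun i => w (i + a)) ξ‖ ≤ B2 →
  ∑ ξ ∈ range (3 ^ l), ‖cf3 l w' ξ‖ ≤ B3 →
  ∑ ξ ∈ range (3 ^ (l - a')), ‖cf3 (l - a') (fun i => w' (i + a')) ξ‖ ≤ B3 →
  (∀ p ∈ T, p.1 < 2 ^ k ∧ p.2 < 3 ^ l ∧ ∃ (q : ℕ) (c : ℤ), 2 ≤ q ∧ q ≤ Q ∧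
    IsCoprime c (q : ℤ) ∧ |(p.1 : ℝ) / 2 ^ k + (p.2 : ℝ) / 3 ^ l - c / q| ≤ 1 / (q * X * Q)) →
  ∑ p ∈ T, ‖cf2 k w p.1‖ * ‖cf3 l w' p.2‖ ≤ 8 * (Q : ℝ) ^ 4 * (1 / 2 ^ a + 1 / 3 ^ a') * B2 * B3

/-- F8. replacing a digital function by its local average, in a sum over primes -/
def ClaimAvg : Prop := ∀ C1 : ℝ, ∃ L0 : ℕ, ∀ L : ℕ, L0 ≤ L → ∀ (θ : ℝ) (w w' : ℕ → ℝ) (A : ℕ),
  |θ| ≤ Real.sqrt (C1 * Real.log (pK L) / pK L) →
  (∀ i, w i = 0 ∨ w i = θ) → (∀ i, w' i = 0 ∨ w' i = -θ) →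
  (∀ i < pal L, w i = 0) → (∀ i < pal3 L, w' i = 0) → 3 ^ L ≤ A + 1 →
  A + pH L ≤ 3 ^ (L + 1) →
  ‖∑ n ∈ Ioc A (A + pH L), (ArithmeticFunction.vonMangoldt n : ℂ) *
    (ee (wd 2 w (pk0 L) n + wd 3 w' (pj0 L) n) - 1 / (pX L : ℂ) *
      ∑ u ∈ range (pX L), ee (wd 2 w (pk0 L) (n + u) + wd 3 w' (pj0 L) (n + u)))‖ ≤
    (pH L : ℝ) / pK L

/-- G1. second moments of digit sums over primes in a short interval (via Brun-Titchmarsh) -/
def ClaimMom2 : Prop := ∃ (C : ℝ) (N0 : ℕ), 0 < C ∧ ∀ N A H b lo hi : ℕ, N0 ≤ N → N ≤ A →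
  A + H ≤ 4 * N → (N : ℝ) ^ ((77 : ℝ) / 100) ≤ H → (b = 2 ∨ b = 3) → lo ≤ hi → b ^ hi ≤ H →
  ((N : ℝ) ^ ((53 : ℝ) / 100) ≤ (b : ℝ) ^ lo ∨
    (lo = 0 ∧ (b : ℝ) ^ hi ≤ (N : ℝ) ^ ((1 : ℝ) / 100))) →
  ∑ n ∈ Ioc A (A + H), ArithmeticFunction.vonMangoldt n *
    ((ds b lo hi n : ℝ) - ((hi : ℝ) - lo) * ((b : ℝ) - 1) / 2) ^ 2 ≤ C * H * ((hi : ℝ) - lo + 1)

/-- G2. one block -/
def ClaimBlock : Prop := ∀ (B p P P0 : ℕ) (θ : ℝ), p ≤ B → P0 ≤ P → 3 ^ P ≤ 2 ^ B →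
  ∑ x ∈ range (3 ^ P), ‖(∑ v ∈ range (2 ^ B),
      ee (θ * ((ds 2 p B v : ℝ) - ds 3 P0 P (x + v)))) / 2 ^ B - chA (B - p) (P - P0) θ‖ ≤
    3 ^ P * (10 * |θ|)

/-- G3. few bad blocks -/
def ClaimGoodBlocks : Prop := ∃ L0 : ℕ, ∀ L : ℕ, L0 ≤ L → ∃ G : Finset ℕ, G ⊆ range (pm L) ∧
  (∀ l ∈ G, GoodBlock L l) ∧ pm L ≤ G.card + 20 * (pk L + 1)

/-- G4. the window average for the good blocks -/
def ClaimWin : Prop := ∃ L0 : ℕ, ∀ L : ℕ, L0 ≤ L → ∀ (θ : ℝ) (G : Finset ℕ) (n0 : ℕ),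
  |θ| ≤ (pK L : ℝ) ^ (-(49 : ℝ) / 100) → G ⊆ range (pm L) → (∀ l ∈ G, GoodBlock L l) →
  ‖1 / (pX L : ℂ) * ∑ u ∈ range (pX L), ee (θ * (Dm L G (n0 + u) : ℝ)) -
      chA (G.card * pl L) (∑ l ∈ G, (pP L l - (pP L (l + 1) + pgd L))) θ‖ ≤
    (pK L : ℝ) ^ (-(1 : ℝ) / 5)

/-- G5. the window average of the middle digits -/
def ClaimMid : Prop := ∃ L0 : ℕ, ∀ L : ℕ, L0 ≤ L → ∃ (n2 n3 : ℕ) (e1 : ℤ),
  (pK L : ℝ) / 10 ≤ n2 ∧ n2 ≤ pK L ∧ (pK L : ℝ) / 10 ≤ n3 ∧ n3 ≤ pK L ∧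
  |(e1 : ℝ) + n2 / 2 - n3 - (((pb L : ℝ) - pal L) / 2 - ((pP L 0 : ℝ) - pal3 L))| ≤ 1 ∧
  ∀ (θ : ℝ) (n0 : ℕ), |θ| ≤ (pK L : ℝ) ^ (-(49 : ℝ) / 100) →
  ‖1 / (pX L : ℂ) * ∑ u ∈ range (pX L),
      ee (θ * ((ds 2 (pal L) (pb L) (n0 + u) : ℝ) - ds 3 (pal3 L) (pP L 0) (n0 + u))) -
      ee (θ * e1) * chA n2 n3 θ‖ ≤ (pK L : ℝ) ^ (-(1 : ℝ) / 16)

/-- G6. the major arc evaluation -/
def ClaimMajor : Prop := ∀ C1 : ℝ, ∃ (C2 : ℝ) (L0 : ℕ), ∀ L x : ℕ, L0 ≤ L → 3 ^ pj0 L ∣ x →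
  3 ^ L ≤ x → x < 3 ^ (L + 1) → x % 2 ^ pk0 L + 3 ^ pj0 L < 2 ^ pk0 L →
  ∃ (n2 n3 : ℕ) (E : ℕ → ℤ), (pK L : ℝ) / 10 ≤ n2 ∧ n2 ≤ pK L ∧ (pK L : ℝ) / 10 ≤ n3 ∧
    n3 ≤ pK L ∧
    (∀ θ : ℝ, |θ| ≤ Real.sqrt (C1 * Real.log (pK L) / pK L) →
      ‖∑ n ∈ Ico x (x + 3 ^ pj0 L), (ArithmeticFunction.vonMangoldt n : ℂ) * ff θ n -
        chA n2 n3 θ * ∑ n ∈ Ico x (x + 3 ^ pj0 L),
          (ArithmeticFunction.vonMangoldt n : ℂ) * ee (θ * E n)‖ ≤
        3 ^ pj0 L * (pK L : ℝ) ^ (-(1 : ℝ) / 40)) ∧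
    ∑ n ∈ Ico x (x + 3 ^ pj0 L), ArithmeticFunction.vonMangoldt n *
      ((E n : ℝ) + n2 / 2 - n3 - Phi L x) ^ 2 ≤ C2 * pK L * 3 ^ pj0 L

end Pool.Agent.Work.MP_8e4d29_nt

end

section

/-!
MP_8e4d29_nt: statements, part 4 (mean value over `y`, choice of `z`, local limit theorem).
`N = 3 ^ L`, `Y = 3 ^ y0`, `J = 3 ^ jj = N / Y`, `H = 3 ^ j0`; the short intervals are
`[J y + z, J y + z + H)`, `Y ≤ y < 3 Y`.
-/

namespace Pool.Agent.Work.MP_8e4d29_nt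

open Finset
open Pool.Agent.Work.MP_122e00_nt (ee)

/-- Fejér kernel -/
noncomputable def fej (T u : ℝ) : ℝ :=
  if u = 0 then T else Real.sin (Real.pi * T * u) ^ 2 / (T * (Real.pi * u) ^ 2)

/-- iterated differences of the logarithm -/
noncomputable def ldif : List ℕ → ℝ → ℝ
  | [], x => Real.log x
  | h :: hs, x => ldif hs (x + h) - ldif hs x

/-- N1. Kusmin-Landau, discrete form -/
def ClaimKL : Prop := ∃ C : ℝ, ∀ (g : ℕ → ℝ) (a b : ℕ) (lam : ℝ), 0 < lam → lam ≤ 1 / 2 →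
  (∀ n, a ≤ n → n + 1 < b → lam ≤ g (n + 1) - g n ∧ g (n + 1) - g n ≤ 1 / 2) →
  (∀ n, a ≤ n → n + 2 < b → g (n + 2) - g (n + 1) ≤ g (n + 1) - g n) →
  ‖∑ n ∈ Ico a b, ee (g n)‖ ≤ C / lam

/-- N2. size of the iterated differences of the logarithm -/
def ClaimLogDiff : Prop := ∀ (hs : List ℕ) (x : ℝ), 0 < x → hs ≠ [] →
  ((hs.length - 1).factorial : ℝ) * (hs.prod : ℝ) / (x + (hs.sum : ℝ)) ^ hs.length ≤
      (-1 : ℝ) ^ (hs.length + 1) * ldif hs x ∧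
    (-1 : ℝ) ^ (hs.length + 1) * ldif hs x ≤
      ((hs.length - 1).factorial : ℝ) * (hs.prod : ℝ) / x ^ hs.length

/-- N3. `∑ (y + c)^{it}` for `t` up to `Y ^ 23` -/
def ClaimYsum : Prop := ∃ C η : ℝ, 0 < η ∧ η < 1 ∧ ∀ (Y : ℕ) (c t : ℝ), 1 ≤ Y → 0 ≤ c → c ≤ 1 →
  (Y : ℝ) / 10 ≤ |t| → |t| ≤ (Y : ℝ) ^ 23 →
  ‖∑ y ∈ Ico Y (3 * Y), ee (t * Real.log ((y : ℝ) + c))‖ ≤ C * (Y : ℝ) ^ (1 - η)

/-- N4. `∑ n^{it}` for small `t` -/
def ClaimNsum : Prop := ∃ C : ℝ, ∀ (a b : ℕ) (c t : ℝ), 1 ≤ a → 0 ≤ c → c ≤ 1 → 0 < |t| →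
  |t| ≤ (a : ℝ) / 4 →
  ‖∑ y ∈ Ico a b, ee (t * Real.log ((y : ℝ) + c))‖ ≤ C * ((b : ℝ) + 1) / |t|

/-- N5. mean value of a Dirichlet polynomial -/
def ClaimMV : Prop := ∀ (M : ℕ) (a : ℕ → ℂ) (T : ℝ), 1 ≤ M → 0 ≤ T →
  ∫ t in (-T)..T, ‖∑ m ∈ Ioc M (2 * M), a m * ee (t * Real.log (m : ℝ))‖ ^ 2 ≤
    (2 * T + 16 * M * (2 + Real.log M)) * ∑ m ∈ Ioc M (2 * M), ‖a m‖ ^ 2

/-- N6. facts on the Fejér kernel -/
def ClaimFej : Prop := ∀ T u : ℝ, 0 < T → 0 ≤ fej T u ∧ fej T u ≤ T ∧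
  (u ≠ 0 → fej T u ≤ 1 / (T * (Real.pi * u) ^ 2)) ∧ (|T * u| ≤ 1 / 8 → 9 / 10 * T ≤ fej T u) ∧
  ((fej T u : ℂ) = ∫ t in (-T)..T, ((1 - |t| / T : ℝ) : ℂ) * ee (t * u))

/-- difference of the two kernels, summed over `y` -/
noncomputable def FY (L c : ℕ) (T : ℝ) (n : ℕ) : ℝ :=
  ∑ y ∈ Ico (3 ^ py0 L : ℕ) (3 * 3 ^ py0 L : ℕ),
    (fej T (Real.log n - Real.log ((3 : ℝ) ^ pjj L * (y : ℝ) + c)) -
      fej ((3 : ℝ) ^ py0 L / 8) (Real.log n - Real.log ((3 : ℝ) ^ pjj L * (y : ℝ) + c)))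

/-- the Fourier transform of `FY` -/
noncomputable def kY (L c : ℕ) (T t : ℝ) : ℂ :=
  ((1 - |t| / T - max 0 (1 - |t| / ((3 : ℝ) ^ py0 L / 8)) : ℝ) : ℂ) *
    ∑ y ∈ Ico (3 ^ py0 L : ℕ) (3 * 3 ^ py0 L : ℕ),
      ee (-(t * Real.log ((3 : ℝ) ^ pjj L * (y : ℝ) + c)))

/-- N7a. integral representation, bound for the transform, bound for `FY` far from the intervals -/
def ClaimKY : Prop := ∃ C η : ℝ, 0 < C ∧ 0 < η ∧ η < 1 ∧ ∀ CT : ℝ, 1 ≤ CT → ∃ L0 : ℕ,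
  ∀ L c : ℕ, L0 ≤ L → c < 3 ^ pjj L →
  (∀ n : ℕ, 1 ≤ n → (FY L c (CT * 3 ^ L / pH L) n : ℂ) =
    ∫ t in (-(CT * 3 ^ L / pH L))..(CT * 3 ^ L / pH L),
      kY L c (CT * 3 ^ L / pH L) t * ee (t * Real.log (n : ℝ))) ∧
  (∀ t : ℝ, |t| ≤ CT * 3 ^ L / pH L →
    ‖kY L c (CT * 3 ^ L / pH L) t‖ ≤ C * ((3 : ℝ) ^ py0 L) ^ (1 - η)) ∧
  (∀ n : ℕ, 1 ≤ n → (100 * n ≤ 64 * 3 ^ L ∨ 390 * 3 ^ L ≤ 100 * n) →
    |FY L c (CT * 3 ^ L / pH L) n| ≤ C)

/-- N7b. type I sums of `FY` -/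
def ClaimT1I : Prop := ∃ η : ℝ, 0 < η ∧ ∀ CT : ℝ, 1 ≤ CT → ∃ L0 : ℕ, ∀ L c m A B : ℕ, L0 ≤ L →
  c < 3 ^ pjj L → 1 ≤ m → m ≤ 3 ^ (L / 4) → 3 ^ L / 2 ≤ A → A ≤ B → B ≤ 5 * 3 ^ L →
  |∑ n ∈ Ioc (A / m) (B / m), FY L c (CT * 3 ^ L / pH L) (m * n)| ≤
    (3 : ℝ) ^ L / m * ((3 : ℝ) ^ py0 L) ^ (1 - η)

/-- N7c. type II sums of `FY` -/
def ClaimT1II : Prop := ∃ η : ℝ, 0 < η ∧ ∀ CT : ℝ, 1 ≤ CT → ∃ L0 : ℕ, ∀ L c M P : ℕ, L0 ≤ L →
  c < 3 ^ pjj L → CT * 3 ^ L / pH L ≤ 2 * P → P ≤ M → M * P ≤ 16 * 3 ^ L →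
  3 ^ L / 2 ≤ 4 * (M * P) → ∀ a b : ℕ → ℂ, (∀ m, ‖a m‖ ≤ tau m) → (∀ n, ‖b n‖ ≤ tau n) →
  ‖∑ m ∈ Ioc M (2 * M), ∑ n ∈ Ioc P (2 * P),
      if 3 ^ L / 2 < m * n ∧ m * n ≤ 5 * 3 ^ L then
        a m * b n * (FY L c (CT * 3 ^ L / pH L) (m * n) : ℂ) else 0‖ ≤
    (3 : ℝ) ^ L * ((3 : ℝ) ^ py0 L) ^ (1 - η)

/-- N7d. the difference is small in mean over primes (Vaughan) -/
def ClaimT1diff : Prop := ∃ η : ℝ, 0 < η ∧ ∀ CT : ℝ, 1 ≤ CT → ∃ L0 : ℕ, ∀ L c : ℕ, L0 ≤ L →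
  c < 3 ^ pjj L →
  |∑ n ∈ Ioc (3 ^ L / 2) (5 * 3 ^ L), ArithmeticFunction.vonMangoldt n *
      FY L c (CT * 3 ^ L / pH L) n| ≤ 3 ^ L * ((3 : ℝ) ^ py0 L) ^ (1 - η)

/-- N8. lower bound for the number of primes in the union of the short intervals -/
def ClaimT1 : Prop := ∃ (c : ℝ) (L0 : ℕ), 0 < c ∧ ∀ L z : ℕ, L0 ≤ L → z + 3 ^ pj0 L ≤ 3 ^ pjj L →
  c * 3 ^ (py0 L + pj0 L) ≤ ∑ y ∈ Ico (3 ^ py0 L) (3 * 3 ^ py0 L),
    ∑ n ∈ Ico (3 ^ pjj L * y + z) (3 ^ pjj L * y + z + 3 ^ pj0 L),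
      ArithmeticFunction.vonMangoldt n

/-! ### choice of `z` -/

/-- `W0` -/
def pW (L : ℕ) : ℕ := 3 ^ (pg0 L / 8)

/-- `3 ^ e u`, `u < U`, is equidistributed modulo `2 ^ k` -/
def SrcGood (L k e U : ℕ) : Prop := ∀ w : ℕ, 1 ≤ w → w ≤ pW L →
  1 / ((U / pK L ^ 10 : ℕ) : ℝ) < nd ((w : ℝ) * 3 ^ e / 2 ^ k)

/-- some source of randomness works for the modulus `2 ^ k` -/
def Covered (L : ℕ) (σ : Fin 120 → ℕ) (k : ℕ) : Prop :=
  SrcGood L k (pjj L) (2 * 3 ^ py0 L) ∨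
  ∃ s : ℕ, (s = 0 ∨ ∃ i, σ i + 1 = s) ∧ (∃ i, σ i = s) ∧ (∃ i, σ i = s + 1) ∧
    SrcGood L k (pjj L - (s + 2) * pg0 L) (3 ^ (3 * pg0 L))

/-- the slots are above position `j0` -/
def Slots (L : ℕ) (σ : Fin 120 → ℕ) : Prop :=
  Function.Injective σ ∧ ∀ i, (σ i + 1) * pg0 L ≤ pjj L - pj0 L

/-- no coincidence of `3 ^ i` and `2 ^ k` near position `j0` -/
def NC (L : ℕ) : Prop := ∀ w v k i : ℕ, 1 ≤ w → w ≤ pW L → 1 ≤ v → 3 ^ pj0 L ≤ 2 ^ k →
  pj0 L ≤ i + pg0 L → i ≤ pj0 L + 3 * pg0 L →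
  1 / (3 : ℝ) ^ (L / 10) < |(w : ℝ) * 3 ^ i / 2 ^ k - v|

/-- P1 -/
def ClaimNC : Prop := ∀ L1 : ℕ, ∃ L : ℕ, L1 ≤ L ∧ NC L

/-- P2. choice of the free slots -/
def ClaimSrcs : Prop := ∃ L0 : ℕ, ∀ L : ℕ, L0 ≤ L → NC L → ∃ σ : Fin 120 → ℕ, Slots L σ ∧
  ∀ k, pk0 L ≤ k → k + 20 * (pk L + 1) ≤ pK L → Covered L σ k

/-- the number with digit blocks `c i` in the slots `σ i` -/
def zz (L : ℕ) (σ c : Fin 120 → ℕ) : ℕ := ∑ i, c i * 3 ^ (pjj L - (σ i + 1) * pg0 L)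

/-- all choices of digits in the free slots -/
def CC (L : ℕ) : Finset (Fin 120 → ℕ) := Fintype.piFinset (fun _ => range (3 ^ pg0 L))

/-- P3. averages over `c` and `y` -/
def ClaimAvgSrc : Prop := ∃ L0 : ℕ, ∀ (L : ℕ) (σ : Fin 120 → ℕ) (k : ℕ) (Ψ : ℕ → ℝ) (V : ℝ),
  L0 ≤ L → Slots L σ → Covered L σ k → (∀ x, Ψ (x + 2 ^ k) = Ψ x) → (∀ x, 0 ≤ Ψ x ∧ Ψ x ≤ 1) →
  ∑ x ∈ range (2 ^ k), |Ψ (x + 1) - Ψ x| ≤ V →
  ∑ c ∈ CC L, ∑ y ∈ Ico (3 ^ py0 L) (3 * 3 ^ py0 L), Ψ (3 ^ pjj L * y + zz L σ c) ≤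
    (3 ^ pg0 L) ^ 120 * (2 * 3 ^ py0 L) *
      ((∑ x ∈ range (2 ^ k), Ψ x) / 2 ^ k + 7 * V / pW L + 2 / (pK L : ℝ) ^ 10)

/-- P4. the choice of `z` -/
def ClaimT2 : Prop := ∃ (C : ℝ) (L0 : ℕ), ∀ L : ℕ, L0 ≤ L → NC L → ∃ z : ℕ, 3 ^ pj0 L ∣ z ∧
  z + 3 ^ pj0 L ≤ 3 ^ pjj L ∧
  ∑ y ∈ Ico (3 ^ py0 L) (3 * 3 ^ py0 L), Phi L (3 ^ pjj L * y + z) ^ 2 ≤
    C * pK L * 3 ^ py0 L ∧
  pK L * ((Ico (3 ^ py0 L) (3 * 3 ^ py0 L)).filter (fun y =>
    2 ^ pk0 L ≤ (3 ^ pjj L * y + z) % 2 ^ pk0 L + 3 ^ pj0 L)).card ≤ 3 ^ py0 L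

/-! ### local limit theorem -/

/-- Q1. lower bound for binomial coefficients -/
def ClaimBin : Prop := ∀ A : ℝ, ∃ c : ℝ, 0 < c ∧ ∀ n j : ℕ, 1 ≤ n → j ≤ n →
  |(j : ℝ) - n / 2| ≤ A * Real.sqrt n →
  c / Real.sqrt n ≤ (n.choose j : ℝ) / 2 ^ n

/-- Q2. local limit theorem (lower bound) -/
def ClaimLLT : Prop := ∀ A : ℝ, ∃ (c : ℝ) (K0 : ℕ), 0 < c ∧ ∀ K n2 n3 : ℕ, K0 ≤ K →
  (K : ℝ) / 10 ≤ n2 → n2 ≤ K → (K : ℝ) / 10 ≤ n3 → n3 ≤ K → ∀ t : ℤ,
  0 ≤ (∫ θ in (-(1 / 2 : ℝ))..(1 / 2), chA n2 n3 θ * ee (-(θ * t))).re ∧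
  (|(t : ℝ) - ((n2 : ℝ) / 2 - n3)| ≤ A * Real.sqrt K →
    c / Real.sqrt K ≤ (∫ θ in (-(1 / 2 : ℝ))..(1 / 2), chA n2 n3 θ * ee (-(θ * t))).re)

/-- Q3. decay of the characteristic function -/
def ClaimChA : Prop := ∀ (n2 n3 : ℕ) (θ : ℝ), |θ| ≤ 1 / 2 →
  ‖chA n2 n3 θ‖ ≤ Real.exp (-(2 * θ ^ 2 * n2))

end Pool.Agent.Work.MP_8e4d29_nt

end

section

/-!
F8: replacing a digital function by its local average, in a sum over primes.
-/

namespace Pool.Agent.Work.MP_8e4d29_nt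

open Finset
open Pool.Agent.Work.MP_122e00_nt (ee norm_ee ee_add)

namespace Avg

/-- the local average has value close to one for frequencies near an integer -/
lemma one_sub_V (X : ℕ) (hX : 0 < X) (β : ℝ) :
    ‖1 - 1 / (X : ℂ) * ∑ u ∈ range X, ee ((u : ℝ) * β)‖ ≤ 2 * Real.pi * (X * nd β) := by
  have hX' : (0 : ℝ) < X := by exact_mod_cast hX
  have hXc : (X : ℂ) ≠ 0 := by exact_mod_cast hX.ne'
  have e : (1 : ℂ) - 1 / (X : ℂ) * ∑ u ∈ range X, ee ((u : ℝ) * β) =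
      1 / (X : ℂ) * ∑ u ∈ range X, (1 - ee ((u : ℝ) * β)) := by
    rw [Finset.sum_sub_distrib, mul_sub]
    congr 1
    simp
    field_simp
  rw [e, norm_mul, norm_div, norm_one, Complex.norm_natCast]
  have h : ‖∑ u ∈ range X, (1 - ee ((u : ℝ) * β))‖ ≤ ∑ u ∈ range X, 2 * Real.pi * (X * nd β) := by
    refine (norm_sum_le _ _).trans (Finset.sum_le_sum ?_)
    intro u hu
    rw [norm_sub_rev]
    refine (norm_ee_sub_one_le _).trans ?_
    refine mul_le_mul_of_nonneg_left ?_ (by positivity)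
    refine (nd_nat_mul_le u β).trans ?_
    refine mul_le_mul_of_nonneg_right ?_ (nd_nonneg β)
    exact_mod_cast (Finset.mem_range.mp hu).le
  rw [Finset.sum_const, Finset.card_range, nsmul_eq_mul] at h
  rw [one_div, inv_mul_le_iff₀ hX']
  exact h

lemma one_sub_V_two (X : ℕ) (hX : 0 < X) (β : ℝ) :
    ‖1 - 1 / (X : ℂ) * ∑ u ∈ range X, ee ((u : ℝ) * β)‖ ≤ 2 := by
  have hX' : (0 : ℝ) < X := by exact_mod_cast hX
  refine (norm_sub_le _ _).trans ?_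
  rw [norm_one, norm_mul, norm_div, norm_one, Complex.norm_natCast]
  have h : ‖∑ u ∈ range X, ee ((u : ℝ) * β)‖ ≤ X := by
    refine (norm_sum_le _ _).trans ?_
    simp [norm_ee]
  have : 1 / (X : ℝ) * ‖∑ u ∈ range X, ee ((u : ℝ) * β)‖ ≤ 1 := by
    rw [one_div, inv_mul_le_iff₀ hX', mul_one]
    exact h
  linarith

/-- expansion of the sum -/
lemma expand (P : Finset (ℕ × ℕ)) (c : ℕ × ℕ → ℂ) (β : ℕ × ℕ → ℝ) (G : ℕ → ℂ)
    (hG : ∀ n, G n = ∑ p ∈ P, c p * ee ((n : ℝ) * β p)) (X A H : ℕ) (Lam : ℕ → ℂ) :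
    ∑ n ∈ Ioc A (A + H), Lam n * (G n - 1 / (X : ℂ) * ∑ u ∈ range X, G (n + u)) =
      ∑ p ∈ P, c p * (1 - 1 / (X : ℂ) * ∑ u ∈ range X, ee ((u : ℝ) * β p)) *
        ∑ n ∈ Ioc A (A + H), Lam n * ee (β p * n) := by
  have h1 : ∀ n, G n - 1 / (X : ℂ) * ∑ u ∈ range X, G (n + u) =
      ∑ p ∈ P, c p * (1 - 1 / (X : ℂ) * ∑ u ∈ range X, ee ((u : ℝ) * β p)) * ee (β p * n) := by
    intro n
    have h2 : ∑ u ∈ range X, G (n + u) =
        ∑ p ∈ P, c p * (∑ u ∈ range X, ee ((u : ℝ) * β p)) * ee (β p * n) := by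
      simp_rw [hG]
      rw [Finset.sum_comm]
      apply Finset.sum_congr rfl
      intro p _
      rw [Finset.mul_sum, Finset.sum_mul]
      apply Finset.sum_congr rfl
      intro u _
      rw [show (((n + u : ℕ) : ℝ)) * β p = (u : ℝ) * β p + β p * n by push_cast; ring, ee_add]
      ring
    rw [h2, hG n, Finset.mul_sum, ← Finset.sum_sub_distrib]
    apply Finset.sum_congr rfl
    intro p _
    rw [show (n : ℝ) * β p = β p * n by ring]
    ring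
  simp_rw [h1]
  simp_rw [Finset.mul_sum]
  rw [Finset.sum_comm]
  apply Finset.sum_congr rfl
  intro p _
  apply Finset.sum_congr rfl
  intro n _
  ring

lemma small {a b : ℝ} (h : a < b) {c : ℝ} (hc : 0 < c) :
    ∀ᶠ t : ℝ in Filter.atTop, t ^ a ≤ c * t ^ b := by
  have h1 := tendsto_rpow_neg_atTop (y := b - a) (by linarith)
  filter_upwards [h1.eventually_lt_const hc, Filter.eventually_gt_atTop (0 : ℝ)] with t h2 h3
  have h4 : t ^ a = t ^ b * t ^ (-(b - a)) := by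
    rw [← Real.rpow_add h3]
    congr 1
    ring
  rw [h4, mul_comm]
  exact mul_le_mul_of_nonneg_right h2.le (Real.rpow_nonneg h3.le _)

/-- a numerical fact: the exponential savings win -/
lemma asymp (c B C : ℝ) (hc : 0 < c) : ∀ᶠ t : ℝ in Filter.atTop,
    Real.log B + C * Real.log (t + 3) + t ^ ((4 : ℝ) / 5) ≤ c * t ^ ((7 : ℝ) / 8) := by
  have h1 := small (a := (4 : ℝ) / 5) (b := (7 : ℝ) / 8) (by norm_num) (c := c / 3) (by positivity)
  have h2 : (fun _ : ℝ => Real.log B) =o[Filter.atTop] fun t : ℝ => t ^ ((7 : ℝ) / 8) := by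
    rw [Asymptotics.isLittleO_const_left]
    right
    exact tendsto_norm_atTop_atTop.comp (tendsto_rpow_atTop (by norm_num))
  have h3 : (fun t : ℝ => Real.log (t + 3)) =o[Filter.atTop] fun t : ℝ => (t + 3) ^ ((7 : ℝ) / 8) := by
    have := isLittleO_log_rpow_atTop (r := (7 : ℝ) / 8) (by norm_num)
    exact this.comp_tendsto (Filter.tendsto_atTop_add_const_right _ 3 Filter.tendsto_id)
  have c3 : 0 < c / 3 := by positivity
  have e1 := h1
  have e2 := h2.def c3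
  have hC : 0 < c / 3 / (2 * (|C| + 1)) := by positivity
  have e3 := h3.def hC
  filter_upwards [e1, e2, e3, Filter.eventually_ge_atTop (3 : ℝ)] with t a1 a2 a3 ht
  have ht0 : 0 ≤ t := by linarith
  have p0 : 0 ≤ t ^ ((7 : ℝ) / 8) := Real.rpow_nonneg ht0 _
  rw [Real.norm_of_nonneg p0] at a2
  rw [Real.norm_eq_abs] at a2
  have p1 : 0 ≤ (t + 3) ^ ((7 : ℝ) / 8) := Real.rpow_nonneg (by linarith) _
  rw [Real.norm_of_nonneg p1, Real.norm_of_nonneg (Real.log_nonneg (by linarith))] at a3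
  have q1 : (t + 3) ^ ((7 : ℝ) / 8) ≤ 2 * t ^ ((7 : ℝ) / 8) := by
    calc (t + 3) ^ ((7 : ℝ) / 8) ≤ (2 * t) ^ ((7 : ℝ) / 8) :=
          Real.rpow_le_rpow (by linarith) (by linarith) (by norm_num)
      _ = 2 ^ ((7 : ℝ) / 8) * t ^ ((7 : ℝ) / 8) := Real.mul_rpow (by norm_num) ht0
      _ ≤ 2 * t ^ ((7 : ℝ) / 8) := by
          refine mul_le_mul_of_nonneg_right ?_ p0
          calc (2 : ℝ) ^ ((7 : ℝ) / 8) ≤ 2 ^ (1 : ℝ) :=
                Real.rpow_le_rpow_of_exponent_le (by norm_num) (by norm_num)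
            _ = 2 := Real.rpow_one 2
  have q2 : C * Real.log (t + 3) ≤ c / 3 * t ^ ((7 : ℝ) / 8) := by
    have l0 : 0 ≤ Real.log (t + 3) := Real.log_nonneg (by linarith)
    calc C * Real.log (t + 3) ≤ (|C| + 1) * Real.log (t + 3) := by
          refine mul_le_mul_of_nonneg_right ?_ l0
          linarith [le_abs_self C]
      _ ≤ (|C| + 1) * (c / 3 / (2 * (|C| + 1)) * (t + 3) ^ ((7 : ℝ) / 8)) := by
          refine mul_le_mul_of_nonneg_left a3 (by positivity)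
      _ = c / 6 * (t + 3) ^ ((7 : ℝ) / 8) := by field_simp; ring
      _ ≤ c / 6 * (2 * t ^ ((7 : ℝ) / 8)) := by
          refine mul_le_mul_of_nonneg_left q1 (by positivity)
      _ = c / 3 * t ^ ((7 : ℝ) / 8) := by ring
  have q3 := le_abs_self (Real.log B)
  linarith

lemma two_pow_le_N {L : ℕ} (S : SizF L) : (2 : ℝ) ^ (pK L - 1) ≤ ((3 ^ L - 1 : ℕ) : ℝ) := by
  have h1 := S.z3
  have h2 := S.z1
  have h3 : 2 ^ (pK L - 1) ≤ 3 ^ L - 1 := by
    have e : 2 ^ pK L = 2 * 2 ^ (pK L - 1) := by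
      rw [← pow_succ']
      congr 1
      omega
    have : 0 < 2 ^ (pK L - 1) := by positivity
    omega
  exact_mod_cast h3

lemma N_pos {L : ℕ} (S : SizF L) : (1 : ℝ) ≤ ((3 ^ L - 1 : ℕ) : ℝ) := by
  refine le_trans ?_ (two_pow_le_N S)
  exact one_le_pow₀ (by norm_num)

lemma hH_low {L : ℕ} (S : SizF L) : ((3 ^ L - 1 : ℕ) : ℝ) ^ ((77 : ℝ) / 100) ≤ pH L := by
  refine le_trans ?_ S.z4
  refine Real.rpow_le_rpow (Nat.cast_nonneg _) ?_ (by norm_num)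
  exact_mod_cast Nat.sub_le _ _

lemma hH_low2 {L : ℕ} (S : SizF L) : ((3 ^ L - 1 : ℕ) : ℝ) ^ ((52 : ℝ) / 100) ≤ pH L := by
  refine le_trans ?_ (hH_low S)
  exact Real.rpow_le_rpow_of_exponent_le (N_pos S) (by norm_num)

lemma hH_up {L : ℕ} (S : SizF L) : (pH L : ℝ) ≤ ((3 ^ L - 1 : ℕ) : ℝ) ^ ((80 : ℝ) / 100) := by
  refine le_trans S.z5 ?_
  have hN1 := N_pos S
  set N : ℝ := ((3 ^ L - 1 : ℕ) : ℝ) with hN
  have h1 : ((3 ^ L : ℕ) : ℝ) ≤ 2 * N := by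
    have : ((3 ^ L : ℕ) : ℝ) = N + 1 := by
      rw [hN, Nat.cast_sub (Nat.one_le_pow _ _ (by norm_num))]
      simp
    linarith
  have h2 : (2 : ℝ) ≤ N ^ ((1 : ℝ) / 100) := by
    have h3 : (2 : ℝ) ^ (100 : ℕ) ≤ N := by
      refine le_trans ?_ (two_pow_le_N S)
      have := S.z1
      exact pow_le_pow_right₀ (by norm_num) (by omega)
    calc (2 : ℝ) = ((2 : ℝ) ^ (100 : ℕ)) ^ ((1 : ℝ) / 100) := by
          rw [← Real.rpow_natCast, ← Real.rpow_mul (by norm_num)]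
          norm_num
      _ ≤ N ^ ((1 : ℝ) / 100) := Real.rpow_le_rpow (by positivity) h3 (by norm_num)
  calc ((3 ^ L : ℕ) : ℝ) ^ ((79 : ℝ) / 100) ≤ (2 * N) ^ ((79 : ℝ) / 100) :=
        Real.rpow_le_rpow (Nat.cast_nonneg _) h1 (by norm_num)
    _ = 2 ^ ((79 : ℝ) / 100) * N ^ ((79 : ℝ) / 100) := Real.mul_rpow (by norm_num) (by linarith)
    _ ≤ N ^ ((1 : ℝ) / 100) * N ^ ((79 : ℝ) / 100) := by
        refine mul_le_mul_of_nonneg_right ?_ (Real.rpow_nonneg (by linarith) _)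
        refine le_trans ?_ h2
        calc (2 : ℝ) ^ ((79 : ℝ) / 100) ≤ 2 ^ (1 : ℝ) :=
              Real.rpow_le_rpow_of_exponent_le (by norm_num) (by norm_num)
          _ = 2 := Real.rpow_one 2
    _ = N ^ ((80 : ℝ) / 100) := by
        rw [← Real.rpow_add (by linarith)]
        norm_num

lemma pX_pos {L : ℕ} (S : SizF L) : 0 < pX L := by
  have h1 := S.z7
  have h2 : (0 : ℝ) < ((3 ^ L : ℕ) : ℝ) ^ ((55 : ℝ) / 100) := by positivity
  have h3 : (0 : ℝ) < pX L := lt_of_lt_of_le h2 h1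
  exact_mod_cast h3

lemma pow_al_le_X {L : ℕ} (S : SizF L) : 2 ^ (2 * pal L) ≤ pX L := by
  have h := S.z13
  exact (Nat.pow_le_pow_right (by norm_num) h).trans (Nat.pow_log_le_self 2 (pX_pos S).ne')

lemma al_k0 {L : ℕ} (S : SizF L) : pal L ≤ pk0 L := by
  have h1 := S.z15
  have h2 := S.z15b
  unfold pk0
  omega

lemma al3_j0 {L : ℕ} (S : SizF L) : pal3 L ≤ pj0 L := by
  have h1 : 3 ^ pal3 L ≤ 2 ^ pal L := Nat.pow_log_le_self 3 (by positivity)
  have h2 : 2 ^ pal L ≤ 2 ^ Nat.log 2 (pH L) := by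
    have h1 := S.z15
    have h2 := S.z15b
    exact Nat.pow_le_pow_right (by norm_num) (by omega)
  have h3 : 2 ^ Nat.log 2 (pH L) ≤ pH L := Nat.pow_log_le_self 2 (by unfold pH; positivity)
  have h4 : 3 ^ pal3 L ≤ 3 ^ pj0 L := h1.trans (h2.trans h3)
  exact (Nat.pow_le_pow_iff_right (by norm_num)).mp h4

lemma al3_big (L : ℕ) : (1 : ℝ) / 3 ^ pal3 L ≤ 3 / 2 ^ pal L := by
  have h1 : 2 ^ pal L < 3 ^ (pal3 L + 1) := Nat.lt_pow_succ_log_self (by norm_num) _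
  have h2 : (2 : ℝ) ^ pal L ≤ 3 ^ (pal3 L + 1) := by exact_mod_cast h1.le
  rw [div_le_div_iff₀ (by positivity) (by positivity)]
  rw [pow_succ] at h2
  linarith

/-- trivial bound for the exponential sum -/
lemma T_triv {CB : ℝ} {NB : ℕ}
    (hB : ∀ (N x h q r e : ℕ), NB ≤ N → N ≤ x →
      x + h ≤ 32 * N → (N : ℝ) ^ ((52 : ℝ) / 100) ≤ h → (q = 2 ^ e ∨ q = 3 ^ e) →
      (q : ℝ) ≤ (N : ℝ) ^ ((1 : ℝ) / 100) → Nat.Coprime r q →
      ∑ n ∈ (Ioc x (x + h)).filter (fun n => n % q = r % q), ArithmeticFunction.vonMangoldt n ≤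
        CB * h / q) {L A : ℕ} (S : SizF L) (hN : NB ≤ 3 ^ L - 1) (hA1 : 3 ^ L ≤ A + 1)
    (hA2 : A + pH L ≤ 3 ^ (L + 1)) (β : ℝ) :
    ‖∑ n ∈ Ioc A (A + pH L), (ArithmeticFunction.vonMangoldt n : ℂ) * ee (β * n)‖ ≤
      CB * pH L := by
  have hN1 := N_pos S
  have hL : 10 ≤ 3 ^ L := by
    have h1 := S.z3
    have h2 := S.z1
    have : 2 ^ 4 ≤ 2 ^ pK L := Nat.pow_le_pow_right (by norm_num) (by omega)
    omega
  have h := hB (3 ^ L - 1) A (pH L) 1 1 0 hN (by omega) (by rw [pow_succ] at hA2; omega)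
    (hH_low2 S) (Or.inl rfl) (by rw [Nat.cast_one]; exact Real.one_le_rpow hN1 (by norm_num))
    (Nat.coprime_one_left _)
  have e : (Ioc A (A + pH L)).filter (fun n => n % 1 = 1 % 1) = Ioc A (A + pH L) := by
    apply Finset.filter_true_of_mem
    intro n _
    simp [Nat.mod_one]
  rw [e, Nat.cast_one, div_one] at h
  refine le_trans ((norm_sum_le _ _).trans (Finset.sum_le_sum ?_)) h
  intro n _
  rw [norm_mul, norm_ee, mul_one, Complex.norm_real, Real.norm_of_nonneg]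
  exact ArithmeticFunction.vonMangoldt_nonneg

/-- large denominators -/
lemma T_minor {CE NE : ℕ}
    (hE : ∀ (N A H q : ℕ) (a : ℤ) (α : ℝ), NE ≤ N → N ≤ A →
      A + H ≤ 4 * N → (N : ℝ) ^ ((77 : ℝ) / 100) ≤ H → (H : ℝ) ≤ (N : ℝ) ^ ((80 : ℝ) / 100) →
      1 ≤ q → IsCoprime a (q : ℤ) → |α - a / q| ≤ 1 / (q : ℝ) ^ 2 →
      ‖∑ n ∈ Ioc A (A + H), (ArithmeticFunction.vonMangoldt n : ℂ) * ee (α * n)‖ ≤
        H * (2 + Real.log N) ^ CE *
          (1 / Real.sqrt q + (N : ℝ) ^ (-(1 : ℝ) / 4000) + Real.sqrt (N * q) / H))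
    {L A : ℕ} (S : SizF L) (hN : NE ≤ 3 ^ L - 1) (hA1 : 3 ^ L ≤ A + 1)
    (hA2 : A + pH L ≤ 3 ^ (L + 1)) (β : ℝ) (q : ℕ) (a : ℤ) (hq1 : 2 ^ pqe L ≤ q)
    (hq2 : q ≤ pX L * 2 ^ pqe L) (hc : IsCoprime a (q : ℤ)) (hb : |β - a / q| ≤ 1 / (q : ℝ) ^ 2) :
    ‖∑ n ∈ Ioc A (A + pH L), (ArithmeticFunction.vonMangoldt n : ℂ) * ee (β * n)‖ ≤
      pH L * (2 + Real.log ((3 ^ L - 1 : ℕ) : ℝ)) ^ CE *
        (2 / Real.sqrt (2 ^ pqe L) + ((3 ^ L - 1 : ℕ) : ℝ) ^ (-(1 : ℝ) / 4000)) := by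
  have hL : 10 ≤ 3 ^ L := by
    have h1 := S.z3
    have h2 := S.z1
    have : 2 ^ 4 ≤ 2 ^ pK L := Nat.pow_le_pow_right (by norm_num) (by omega)
    omega
  have hQ : 0 < 2 ^ pqe L := by positivity
  have hHpos : 0 < pH L := by unfold pH; positivity
  have hHr : (0 : ℝ) < pH L := by exact_mod_cast hHpos
  have h := hE (3 ^ L - 1) A (pH L) q a β hN (by omega) (by rw [pow_succ] at hA2; omega)
    (hH_low S) (hH_up S) (by omega) hc hb
  refine h.trans ?_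
  refine mul_le_mul_of_nonneg_left ?_ ?_
  · have hqr : ((2 : ℝ) ^ pqe L) ≤ q := by exact_mod_cast hq1
    have hQr : (0 : ℝ) < (2 : ℝ) ^ pqe L := by positivity
    have hs : 0 < Real.sqrt (2 ^ pqe L) := Real.sqrt_pos.mpr hQr
    have h1 : 1 / Real.sqrt q ≤ 1 / Real.sqrt (2 ^ pqe L) :=
      one_div_le_one_div_of_le hs (Real.sqrt_le_sqrt hqr)
    have h2 : Real.sqrt (((3 ^ L - 1 : ℕ) : ℝ) * q) / pH L ≤ 1 / Real.sqrt (2 ^ pqe L) := by
      rw [div_le_div_iff₀ hHr hs, one_mul, ← Real.sqrt_mul (by positivity)]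
      apply Real.sqrt_le_iff.mpr
      refine ⟨hHr.le, ?_⟩
      have z6 := S.z6
      have h3 : (3 ^ L - 1) * q * 2 ^ pqe L ≤ pH L ^ 2 := by
        refine le_trans ?_ z6
        calc (3 ^ L - 1) * q * 2 ^ pqe L ≤ 3 ^ L * (pX L * 2 ^ pqe L) * 2 ^ pqe L :=
              Nat.mul_le_mul_right _ (Nat.mul_le_mul (Nat.sub_le _ _) hq2)
          _ = pX L * (3 ^ L * 2 ^ (2 * pqe L)) := by
              rw [two_mul, pow_add]
              ring
      exact_mod_cast h3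
    have e : (2 : ℝ) / Real.sqrt (2 ^ pqe L) =
        1 / Real.sqrt (2 ^ pqe L) + 1 / Real.sqrt (2 ^ pqe L) := by ring
    rw [e]
    linarith
  · have := Real.log_nonneg (N_pos S)
    positivity

/-- Dirichlet approximation, three cases -/
lemma key_abs (X Q : ℕ) (hX : 0 < X) (hQ : 0 < Q) (β v t CH M : ℝ) (ht0 : 0 ≤ t)
    (hCH : 0 ≤ CH) (hM : 0 ≤ M) (hV1 : v ≤ 2 * Real.pi * (X * nd β)) (hV2 : v ≤ 2) (hT1 : t ≤ CH)
    (hT2 : ∀ (q : ℕ) (a : ℤ), Q ≤ q → q ≤ X * Q → IsCoprime a (q : ℤ) →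
      |β - a / q| ≤ 1 / (q : ℝ) ^ 2 → t ≤ M) :
    v * t ≤ 2 * Real.pi / Q * CH + 2 * M ∨ (v * t ≤ 2 * CH ∧ ∃ (q : ℕ) (a : ℤ), 2 ≤ q ∧ q ≤ Q ∧
      IsCoprime a (q : ℤ) ∧ |β - a / q| ≤ 1 / (q * X * (Q : ℝ))) := by
  have hXr : (0 : ℝ) < X := by exact_mod_cast hX
  have hQr : (0 : ℝ) < Q := by exact_mod_cast hQ
  have hXQ : 0 < X * Q := by positivity
  have hpi := Real.pi_pos
  obtain ⟨r, hr1, hr2⟩ := Real.exists_rat_abs_sub_le_and_den_le β hXQ
  have hrc : IsCoprime r.num (r.den : ℤ) := by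
    rw [Int.isCoprime_iff_nat_coprime]
    simpa using r.reduced
  have hrd : (r : ℝ) = (r.num : ℝ) / (r.den : ℝ) := by
    exact_mod_cast (Rat.cast_def (K := ℝ) r)
  have hden : 0 < r.den := r.den_pos
  have hdr : (0 : ℝ) < r.den := by exact_mod_cast hden
  have hXQr : (0 : ℝ) < ((X * Q : ℕ) : ℝ) := by exact_mod_cast hXQ
  rcases Nat.lt_or_ge Q r.den with hbig | hsm
  · -- large denominator
    left
    have hb : |β - r.num / r.den| ≤ 1 / (r.den : ℝ) ^ 2 := by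
      rw [← hrd]
      refine hr1.trans ?_
      apply one_div_le_one_div_of_le (by positivity)
      have h1 : (r.den : ℝ) ≤ ((X * Q : ℕ) : ℝ) := by exact_mod_cast hr2
      nlinarith
    have hT := hT2 r.den r.num hbig.le hr2 hrc hb
    have h1 : v * t ≤ 2 * M := mul_le_mul hV2 hT ht0 (by norm_num)
    have h2 : 0 ≤ 2 * Real.pi / Q * CH := by positivity
    linarith
  · rcases Nat.lt_or_ge r.den 2 with h1 | h1
    · -- denominator one
      left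
      have hd1 : r.den = 1 := by omega
      rw [hd1] at hr1 hrd
      have h2 : nd β ≤ 1 / ((X * Q : ℕ) : ℝ) := by
        refine (nd_le_abs_sub_int _ r.num).trans ?_
        rw [Nat.cast_one, div_one] at hrd
        rw [← hrd]
        refine hr1.trans ?_
        rw [Nat.cast_one, mul_one]
        apply one_div_le_one_div_of_le hXQr
        linarith
      have h3 : (X : ℝ) * nd β ≤ 1 / Q := by
        calc (X : ℝ) * nd β ≤ X * (1 / ((X * Q : ℕ) : ℝ)) :=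
              mul_le_mul_of_nonneg_left h2 hXr.le
          _ = 1 / Q := by
              push_cast
              field_simp
      have h4 : v ≤ 2 * Real.pi / Q := by
        refine hV1.trans ?_
        calc 2 * Real.pi * (X * nd β) ≤ 2 * Real.pi * (1 / Q) :=
              mul_le_mul_of_nonneg_left h3 (by positivity)
          _ = 2 * Real.pi / Q := by ring
      have h5 : v * t ≤ 2 * Real.pi / Q * CH := mul_le_mul h4 hT1 ht0 (by positivity)
      linarith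
    · -- small denominator
      right
      refine ⟨mul_le_mul hV2 hT1 ht0 (by norm_num), r.den, r.num, h1, hsm, hrc, ?_⟩
      rw [← hrd]
      refine hr1.trans ?_
      apply one_div_le_one_div_of_le (by positivity)
      push_cast
      nlinarith

/-- summation of the three cases -/
lemma sum_abs (P : Finset (ℕ × ℕ)) (c v t : ℕ × ℕ → ℂ) (cond : ℕ × ℕ → Prop) (a d : ℝ)
    (ha : 0 ≤ a) [DecidablePred cond]
    (h : ∀ p ∈ P, ‖v p‖ * ‖t p‖ ≤ a ∨ (‖v p‖ * ‖t p‖ ≤ d ∧ cond p)) (hd : 0 ≤ d) :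
    ‖∑ p ∈ P, c p * v p * t p‖ ≤ (∑ p ∈ P, ‖c p‖) * a + (∑ p ∈ P.filter cond, ‖c p‖) * d := by
  have key : ∀ p ∈ P, ‖c p * v p * t p‖ ≤ ‖c p‖ * a + if cond p then ‖c p‖ * d else 0 := by
    intro p hp
    rw [norm_mul, norm_mul, mul_assoc]
    have n1 : (0 : ℝ) ≤ ‖c p‖ := norm_nonneg _
    rcases h p hp with h1 | ⟨h1, h2⟩
    · have h3 : (0 : ℝ) ≤ if cond p then ‖c p‖ * d else 0 := by
        split_ifs
        · positivity
        · exact le_rfl
      have := mul_le_mul_of_nonneg_left h1 n1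
      linarith
    · rw [if_pos h2]
      have := mul_le_mul_of_nonneg_left h1 n1
      have h3 : 0 ≤ ‖c p‖ * a := by positivity
      linarith
  refine (norm_sum_le _ _).trans ((Finset.sum_le_sum key).trans ?_)
  rw [Finset.sum_add_distrib, ← Finset.sum_mul, Finset.sum_filter, Finset.sum_mul (f := fun p =>
    if cond p then ‖c p‖ else 0)]
  simp only [ite_mul, zero_mul]
  exact le_rfl

set_option linter.constructorNameAsVariable false in
/-- the bound for fixed `L` -/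
lemma core {CE NE : ℕ}
    (hE : ∀ (N A H q : ℕ) (a : ℤ) (α : ℝ), NE ≤ N → N ≤ A →
      A + H ≤ 4 * N → (N : ℝ) ^ ((77 : ℝ) / 100) ≤ H → (H : ℝ) ≤ (N : ℝ) ^ ((80 : ℝ) / 100) →
      1 ≤ q → IsCoprime a (q : ℤ) → |α - a / q| ≤ 1 / (q : ℝ) ^ 2 →
      ‖∑ n ∈ Ioc A (A + H), (ArithmeticFunction.vonMangoldt n : ℂ) * ee (α * n)‖ ≤
        H * (2 + Real.log N) ^ CE *
          (1 / Real.sqrt q + (N : ℝ) ^ (-(1 : ℝ) / 4000) + Real.sqrt (N * q) / H))
    {CB : ℝ} {NB : ℕ} (hCB : 0 < CB)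
    (hB : ∀ (N x h q r e : ℕ), NB ≤ N → N ≤ x →
      x + h ≤ 32 * N → (N : ℝ) ^ ((52 : ℝ) / 100) ≤ h → (q = 2 ^ e ∨ q = 3 ^ e) →
      (q : ℝ) ≤ (N : ℝ) ^ ((1 : ℝ) / 100) → Nat.Coprime r q →
      ∑ n ∈ (Ioc x (x + h)).filter (fun n => n % q = r % q), ArithmeticFunction.vonMangoldt n ≤
        CB * h / q)
    (h3 : ClaimF2) (h4 : ClaimF3) (h5 : ClaimL12) (h6 : ClaimL13) (h7 : ClaimMass)
    {L A : ℕ} (S : SizF L) (hNE : NE ≤ 3 ^ L - 1) (hNB : NB ≤ 3 ^ L - 1)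
    {θ η : ℝ} {w w' : ℕ → ℝ} (hη0 : 0 < η) (hη1 : η ≤ 1) (hθ : 4 * Real.pi * |θ| ≤ η ^ 2)
    (hw : ∀ i, w i = 0 ∨ w i = θ) (hw' : ∀ i, w' i = 0 ∨ w' i = -θ)
    (hl : ∀ i < pal L, w i = 0) (hl' : ∀ i < pal3 L, w' i = 0)
    (hA1 : 3 ^ L ≤ A + 1) (hA2 : A + pH L ≤ 3 ^ (L + 1)) :
    ‖∑ n ∈ Ioc A (A + pH L), (ArithmeticFunction.vonMangoldt n : ℂ) *
      (ee (wd 2 w (pk0 L) n + wd 3 w' (pj0 L) n) - 1 / (pX L : ℂ) *
        ∑ u ∈ range (pX L), ee (wd 2 w (pk0 L) (n + u) + wd 3 w' (pj0 L) (n + u)))‖ ≤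
    Real.exp (7 * η * pK L) * (pH L * (CB * 80 / 2 ^ pqe L +
      2 * (2 + Real.log ((3 ^ L - 1 : ℕ) : ℝ)) ^ CE * (2 / Real.sqrt (2 ^ pqe L) +
        ((3 ^ L - 1 : ℕ) : ℝ) ^ (-(1 : ℝ) / 4000)))) := by
  classical
  set k := pk0 L with hk
  set l := pj0 L with hl0
  set X := pX L with hX
  set K := pK L with hK
  have hX0 : 0 < X := pX_pos S
  have hXr : (0 : ℝ) < X := by exact_mod_cast hX0
  have hH0 : 0 < pH L := by unfold pH; positivity
  have hHr : (0 : ℝ) < pH L := by exact_mod_cast hH0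
  set P : Finset (ℕ × ℕ) := range (2 ^ k) ×ˢ range (3 ^ l) with hP
  set c : ℕ × ℕ → ℂ := fun p => cf2 k w p.1 * cf3 l w' p.2 with hc
  set β : ℕ × ℕ → ℝ := fun p => (p.1 : ℝ) / 2 ^ k + (p.2 : ℝ) / 3 ^ l with hβ
  have hG : ∀ n, ee (wd 2 w k n + wd 3 w' l n) = ∑ p ∈ P, c p * ee ((n : ℝ) * β p) := by
    intro n
    rw [ee_add, h3 k w n, h4 l w' n, Finset.sum_mul_sum, hP, Finset.sum_product]
    apply Finset.sum_congr rfl
    intro ξ _
    apply Finset.sum_congr rfl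
    intro ξ' _
    simp only [hc, hβ]
    rw [show (n : ℝ) * ((ξ : ℝ) / 2 ^ k + (ξ' : ℝ) / 3 ^ l) =
      (n : ℝ) * ξ / 2 ^ k + (n : ℝ) * ξ' / 3 ^ l by ring, ee_add]
    ring
  have hK0 : (0 : ℝ) ≤ K := Nat.cast_nonneg _
  have hkK : (k : ℝ) ≤ K := by exact_mod_cast S.z17
  have hlK : (l : ℝ) ≤ K := by
    have : l ≤ K := by
      rw [hl0, hK]
      unfold pj0
      omega
    exact_mod_cast this
  have exp2 : ∀ m : ℕ, m ≤ k → (1 + 2 * η) ^ m ≤ Real.exp (2 * η * K) := by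
    intro m hm
    have hmr : (m : ℝ) ≤ K := le_trans (by exact_mod_cast hm) hkK
    calc (1 + 2 * η) ^ m ≤ (Real.exp (2 * η)) ^ m := by
          refine pow_le_pow_left₀ (by positivity) ?_ m
          have := Real.add_one_le_exp (2 * η)
          linarith
      _ = Real.exp (m * (2 * η)) := by rw [Real.exp_nat_mul]
      _ ≤ Real.exp (2 * η * K) := by
          apply Real.exp_le_exp.mpr
          nlinarith
  have exp3 : ∀ m : ℕ, m ≤ l → (1 + 5 * η) ^ m ≤ Real.exp (5 * η * K) := by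
    intro m hm
    have hmr : (m : ℝ) ≤ K := le_trans (by exact_mod_cast hm) hlK
    calc (1 + 5 * η) ^ m ≤ (Real.exp (5 * η)) ^ m := by
          refine pow_le_pow_left₀ (by positivity) ?_ m
          have := Real.add_one_le_exp (5 * η)
          linarith
      _ = Real.exp (m * (5 * η)) := by rw [Real.exp_nat_mul]
      _ ≤ Real.exp (5 * η * K) := by
          apply Real.exp_le_exp.mpr
          nlinarith
  have hθ' : 4 * Real.pi * |-θ| ≤ η ^ 2 := by rw [abs_neg]; exact hθ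
  have S2 : ∑ ξ ∈ range (2 ^ k), ‖cf2 k w ξ‖ ≤ Real.exp (2 * η * K) :=
    (h5 k w θ η hη0 hη1 hθ hw).trans (exp2 k le_rfl)
  have S2' : ∑ ξ ∈ range (2 ^ (k - pal L)), ‖cf2 (k - pal L) (fun i => w (i + pal L)) ξ‖ ≤
      Real.exp (2 * η * K) :=
    (h5 _ _ θ η hη0 hη1 hθ (fun i => hw _)).trans (exp2 _ (Nat.sub_le _ _))
  have S3 : ∑ ξ ∈ range (3 ^ l), ‖cf3 l w' ξ‖ ≤ Real.exp (5 * η * K) :=
    (h6 l w' (-θ) η hη0 hη1 hθ' hw').trans (exp3 l le_rfl)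
  have S3' : ∑ ξ ∈ range (3 ^ (l - pal3 L)), ‖cf3 (l - pal3 L) (fun i => w' (i + pal3 L)) ξ‖ ≤
      Real.exp (5 * η * K) :=
    (h6 _ _ (-θ) η hη0 hη1 hθ' (fun i => hw' _)).trans (exp3 _ (Nat.sub_le _ _))
  have hexp : Real.exp (2 * η * K) * Real.exp (5 * η * K) = Real.exp (7 * η * K) := by
    rw [← Real.exp_add]
    congr 1
    ring
  have Sc : ∑ p ∈ P, ‖c p‖ ≤ Real.exp (7 * η * K) := by
    rw [← hexp]
    have e : ∑ p ∈ P, ‖c p‖ = (∑ ξ ∈ range (2 ^ k), ‖cf2 k w ξ‖) *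
        ∑ ξ ∈ range (3 ^ l), ‖cf3 l w' ξ‖ := by
      rw [Finset.sum_mul_sum, hP, Finset.sum_product]
      simp only [hc, norm_mul]
    rw [e]
    exact mul_le_mul S2 S3 (Finset.sum_nonneg fun _ _ => norm_nonneg _) (Real.exp_pos _).le
  -- the frequencies close to a fraction with small denominator
  set cond : ℕ × ℕ → Prop := fun p => ∃ (q : ℕ) (a : ℤ), 2 ≤ q ∧ q ≤ 2 ^ pqe L ∧
    IsCoprime a (q : ℤ) ∧ |β p - a / q| ≤ 1 / (q * X * ((2 ^ pqe L : ℕ) : ℝ)) with hcond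
  have hqe := S.z10'
  have hqal := S.z10
  have hQ2 : 2 ≤ 2 ^ pqe L := by
    calc 2 = 2 ^ 1 := rfl
      _ ≤ 2 ^ pqe L := Nat.pow_le_pow_right (by norm_num) hqe
  have hXal := pow_al_le_X S
  have h4al : 4 * 2 ^ pal L ≤ X * 2 ^ pqe L := by
    have h41 : 4 ≤ 2 ^ pal L := by
      calc 4 = 2 ^ 2 := rfl
        _ ≤ 2 ^ pal L := Nat.pow_le_pow_right (by norm_num) (by omega)
    calc 4 * 2 ^ pal L ≤ 2 ^ pal L * 2 ^ pal L := Nat.mul_le_mul_right _ h41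
      _ = 2 ^ (2 * pal L) := by rw [two_mul, pow_add]
      _ ≤ X := hXal
      _ ≤ X * 2 ^ pqe L := Nat.le_mul_of_pos_right _ (by positivity)
  have h4al3 : 4 * 3 ^ pal3 L ≤ X * 2 ^ pqe L := by
    refine le_trans (Nat.mul_le_mul_left _ ?_) h4al
    exact Nat.pow_log_le_self 3 (by positivity)
  have mass := h7 k l (pal L) (pal3 L) (2 ^ pqe L) X w w' (Real.exp (2 * η * K))
    (Real.exp (5 * η * K)) (P.filter cond) (al_k0 S) (al3_j0 S) hl hl' hQ2 h4al h4al3 S2 S2' S3 S3'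
    (by
      intro p hp
      rw [Finset.mem_filter, hP, Finset.mem_product, Finset.mem_range, Finset.mem_range] at hp
      exact ⟨hp.1.1, hp.1.2, hp.2⟩)
  have mass2 : ∑ p ∈ P.filter cond, ‖c p‖ ≤ Real.exp (7 * η * K) * (32 / 2 ^ pqe L) := by
    have e : ∑ p ∈ P.filter cond, ‖c p‖ = ∑ p ∈ P.filter cond, ‖cf2 k w p.1‖ * ‖cf3 l w' p.2‖ := by
      apply Finset.sum_congr rfl
      intro p _
      simp only [hc, norm_mul]
    rw [e]
    refine mass.trans ?_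
    rw [mul_assoc, hexp, mul_comm]
    refine mul_le_mul_of_nonneg_left ?_ (Real.exp_pos _).le
    have h31 := al3_big L
    have h32 : (1 : ℝ) / 2 ^ pal L + 1 / 3 ^ pal3 L ≤ 4 / 2 ^ pal L := by
      have e : (4 : ℝ) / 2 ^ pal L = 1 / 2 ^ pal L + 3 / 2 ^ pal L := by ring
      rw [e]
      linarith
    push_cast
    calc 8 * ((2 : ℝ) ^ pqe L) ^ 4 * (1 / 2 ^ pal L + 1 / 3 ^ pal3 L)
        ≤ 8 * ((2 : ℝ) ^ pqe L) ^ 4 * (4 / 2 ^ pal L) :=
          mul_le_mul_of_nonneg_left h32 (by positivity)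
      _ ≤ 32 / 2 ^ pqe L := by
          rw [mul_div_assoc', div_le_div_iff₀ (by positivity) (by positivity)]
          have h33 : ((2 : ℝ) ^ pqe L) ^ 4 * 2 ^ pqe L ≤ 2 ^ pal L := by
            rw [← pow_mul, ← pow_add]
            exact pow_le_pow_right₀ (by norm_num) (by omega)
          nlinarith
  -- bound for every frequency
  have hTt : ∀ p, ‖∑ n ∈ Ioc A (A + pH L), (ArithmeticFunction.vonMangoldt n : ℂ) *
      ee (β p * n)‖ ≤ CB * pH L := fun p => T_triv hB S hNB hA1 hA2 (β p)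
  set M : ℝ := pH L * (2 + Real.log ((3 ^ L - 1 : ℕ) : ℝ)) ^ CE *
        (2 / Real.sqrt (2 ^ pqe L) + ((3 ^ L - 1 : ℕ) : ℝ) ^ (-(1 : ℝ) / 4000)) with hM
  have hM0 : 0 ≤ M := by
    have := Real.log_nonneg (N_pos S)
    positivity
  have total : ‖∑ n ∈ Ioc A (A + pH L), (ArithmeticFunction.vonMangoldt n : ℂ) *
      (ee (wd 2 w k n + wd 3 w' l n) - 1 / (X : ℂ) *
        ∑ u ∈ range X, ee (wd 2 w k (n + u) + wd 3 w' l (n + u)))‖ ≤
      (∑ p ∈ P, ‖c p‖) * (2 * Real.pi / ((2 ^ pqe L : ℕ) : ℝ) * (CB * pH L) + 2 * M) +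
        (∑ p ∈ P.filter cond, ‖c p‖) * (2 * (CB * pH L)) := by
    have hexpand := expand P c β (fun n => ee (wd 2 w k n + wd 3 w' l n)) hG X A (pH L)
      (fun n => (ArithmeticFunction.vonMangoldt n : ℂ))
    have hsum := sum_abs P c (fun p => 1 - 1 / (X : ℂ) * ∑ u ∈ range X, ee ((u : ℝ) * β p))
      (fun p => ∑ n ∈ Ioc A (A + pH L), (ArithmeticFunction.vonMangoldt n : ℂ) * ee (β p * n))
      cond (2 * Real.pi / ((2 ^ pqe L : ℕ) : ℝ) * (CB * pH L) + 2 * M) (2 * (CB * pH L))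
      (by positivity) (by
        intro p _
        exact key_abs X (2 ^ pqe L) hX0 (by positivity) (β p) _ _ (CB * pH L) M (norm_nonneg _) (by positivity) hM0 (one_sub_V X hX0 (β p)) (one_sub_V_two X hX0 (β p))
          (hTt p) (fun q a hq1 hq2 hc hb => T_minor hE S hNE hA1 hA2 (β p) q a hq1 hq2 hc hb))
      (by positivity)
    exact (le_of_eq (congrArg norm hexpand)).trans hsum
  refine total.trans ?_
  have hpi : Real.pi ≤ 4 := Real.pi_le_four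
  rw [show ((2 ^ pqe L : ℕ) : ℝ) = 2 ^ pqe L by push_cast; rfl]
  have e1 : (∑ p ∈ P, ‖c p‖) * (2 * Real.pi / 2 ^ pqe L * (CB * pH L) + 2 * M) ≤
      Real.exp (7 * η * K) * (8 / 2 ^ pqe L * (CB * pH L) + 2 * M) := by
    refine mul_le_mul Sc ?_ (by positivity) (Real.exp_pos _).le
    have : 2 * Real.pi / 2 ^ pqe L * (CB * pH L) ≤ 8 / 2 ^ pqe L * (CB * pH L) := by
      refine mul_le_mul_of_nonneg_right ?_ (by positivity)
      refine div_le_div_of_nonneg_right ?_ (by positivity)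
      linarith
    linarith
  have e2 : (∑ p ∈ P.filter cond, ‖c p‖) * (2 * (CB * pH L)) ≤
      Real.exp (7 * η * K) * (32 / 2 ^ pqe L) * (2 * (CB * pH L)) :=
    mul_le_mul_of_nonneg_right mass2 (by positivity)
  have e3 : Real.exp (7 * η * K) * (pH L * (CB * 80 / 2 ^ pqe L +
      2 * (2 + Real.log ((3 ^ L - 1 : ℕ) : ℝ)) ^ CE * (2 / Real.sqrt (2 ^ pqe L) +
        ((3 ^ L - 1 : ℕ) : ℝ) ^ (-(1 : ℝ) / 4000)))) =
      Real.exp (7 * η * K) * (8 / 2 ^ pqe L * (CB * pH L) + 2 * M) +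
      Real.exp (7 * η * K) * (32 / 2 ^ pqe L) * (2 * (CB * pH L)) +
      Real.exp (7 * η * K) * (8 / 2 ^ pqe L * (CB * pH L)) := by
    rw [hM]
    ring
  rw [e3]
  have e4 : 0 ≤ Real.exp (7 * η * K) * (8 / 2 ^ pqe L * (CB * pH L)) := by positivity
  linarith

lemma log_facts {L : ℕ} (S : SizF L) :
    Real.log ((3 ^ L - 1 : ℕ) : ℝ) ≤ pK L + 1 ∧
    ((3 ^ L - 1 : ℕ) : ℝ) ^ (-(1 : ℝ) / 4000) ≤
      Real.exp (-(Real.log 2 * ((pK L : ℝ) - 1) / 4000)) ∧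
    1 / Real.sqrt (2 ^ pqe L) ≤
      Real.exp (-(Real.log 2 / 2 * (pK L : ℝ) ^ ((7 : ℝ) / 8))) ∧
    (1 : ℝ) / 2 ^ pqe L ≤ 1 / Real.sqrt (2 ^ pqe L) := by
  have hN1 := N_pos S
  have hK1 := S.z1
  refine ⟨?_, ?_, ?_, ?_⟩
  · have h1 : ((3 ^ L - 1 : ℕ) : ℝ) ≤ 2 ^ (pK L + 1) := by
      have := S.z3'
      have h2 : 3 ^ L - 1 ≤ 2 ^ (pK L + 1) := (Nat.sub_le _ _).trans this.le
      exact_mod_cast h2
    have h2 := Real.log_le_log (by linarith) h1
    rw [Real.log_pow] at h2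
    have h3 := Real.log_two_lt_d9
    have h4 : (0 : ℝ) ≤ ((pK L + 1 : ℕ) : ℝ) := Nat.cast_nonneg _
    push_cast at h2 h4
    nlinarith
  · have h1 := two_pow_le_N S
    have h2 : ((3 ^ L - 1 : ℕ) : ℝ) ^ (-(1 : ℝ) / 4000) ≤
        ((2 : ℝ) ^ (pK L - 1)) ^ (-(1 : ℝ) / 4000) :=
      Real.rpow_le_rpow_of_nonpos (by positivity) h1 (by norm_num)
    refine h2.trans (le_of_eq ?_)
    rw [Real.rpow_def_of_pos (by positivity), Real.log_pow, Nat.cast_sub (by omega)]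
    congr 1
    push_cast
    ring
  · have h1 : Real.sqrt (2 ^ pqe L) = Real.exp (Real.log 2 / 2 * pqe L) := by
      rw [Real.sqrt_eq_iff_mul_self_eq (by positivity) (Real.exp_pos _).le, ← Real.exp_add,
        show Real.log 2 / 2 * (pqe L : ℝ) + Real.log 2 / 2 * pqe L = pqe L * Real.log 2 by ring,
        Real.exp_nat_mul, Real.exp_log (by norm_num)]
    rw [h1, one_div, ← Real.exp_neg]
    apply Real.exp_le_exp.mpr
    have h2 : (pK L : ℝ) ^ ((7 : ℝ) / 8) ≤ pqe L := Nat.le_ceil _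
    have h3 : 0 < Real.log 2 / 2 := by
      have := Real.log_pos (x := 2) (by norm_num)
      linarith
    have := mul_le_mul_of_nonneg_left h2 h3.le
    linarith
  · have h1 : (1 : ℝ) ≤ 2 ^ pqe L := one_le_pow₀ (by norm_num)
    apply one_div_le_one_div_of_le (Real.sqrt_pos.mpr (by positivity))
    rw [Real.sqrt_le_left (by positivity)]
    nlinarith

lemma eta_small (C : ℝ) (hC : 1 ≤ C) : ∀ᶠ t : ℝ in Filter.atTop,
    0 < Real.sqrt (4 * Real.pi * Real.sqrt (C * Real.log t / t)) ∧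
    Real.sqrt (4 * Real.pi * Real.sqrt (C * Real.log t / t)) ≤ 1 ∧
    7 * Real.sqrt (4 * Real.pi * Real.sqrt (C * Real.log t / t)) * t ≤ t ^ ((4 : ℝ) / 5) := by
  have hD : (0 : ℝ) < 1 / (7 * (16 * C)) ^ 4 := by positivity
  have h1 : ∀ᶠ t : ℝ in Filter.atTop, Real.log t ≤ 1 / (7 * (16 * C)) ^ 4 * t ^ ((1 : ℝ) / 5) := by
    have h := (isLittleO_log_rpow_atTop (r := (1 : ℝ) / 5) (by norm_num)).def hD
    filter_upwards [h, Filter.eventually_ge_atTop (1 : ℝ)] with t h2 h3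
    rw [Real.norm_of_nonneg (Real.log_nonneg h3),
      Real.norm_of_nonneg (Real.rpow_nonneg (by linarith) _)] at h2
    exact h2
  filter_upwards [h1, Filter.eventually_ge_atTop (3 : ℝ)] with t h2 h3
  have ht : 0 < t := by linarith
  have hlog : 0 < Real.log t := Real.log_pos (by linarith)
  have hCt : 0 < C * Real.log t / t := by positivity
  have hs : 0 < Real.sqrt (C * Real.log t / t) := Real.sqrt_pos.mpr hCt
  have h7 : 7 * Real.sqrt (4 * Real.pi * Real.sqrt (C * Real.log t / t)) ≤ t ^ (-((1 : ℝ) / 5)) := by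
    have e1 : (0 : ℝ) ≤ t ^ (-((1 : ℝ) / 5)) := Real.rpow_nonneg ht.le _
    rw [← le_div_iff₀' (by norm_num)]
    rw [Real.sqrt_le_left (by positivity)]
    have e2 : Real.sqrt (C * Real.log t / t) ≤ (t ^ (-((1 : ℝ) / 5)) / 7) ^ 2 / 16 := by
      rw [Real.sqrt_le_left (by positivity)]
      have e3 : (t ^ (-((1 : ℝ) / 5))) ^ 4 * t = t ^ ((1 : ℝ) / 5) := by
        rw [← Real.rpow_natCast, ← Real.rpow_mul ht.le]
        nth_rewrite 2 [← Real.rpow_one t]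
        rw [← Real.rpow_add ht]
        norm_num
      rw [div_le_iff₀ ht]
      have e4 : ((t ^ (-((1 : ℝ) / 5)) / 7) ^ 2 / 16) ^ 2 * t =
          t ^ ((1 : ℝ) / 5) / (7 ^ 4 * 16 ^ 2) := by
        rw [← e3]
        ring
      rw [e4]
      have e5 : C * Real.log t ≤ C * (1 / (7 * (16 * C)) ^ 4 * t ^ ((1 : ℝ) / 5)) :=
        mul_le_mul_of_nonneg_left h2 (by linarith)
      refine e5.trans ?_
      have e6 : (0 : ℝ) ≤ t ^ ((1 : ℝ) / 5) := Real.rpow_nonneg ht.le _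
      have e7 : C * (1 / (7 * (16 * C)) ^ 4) ≤ 1 / (7 ^ 4 * 16 ^ 2) := by
        rw [mul_one_div, div_le_div_iff₀ (by positivity) (by positivity)]
        have : C ≤ C ^ 4 := by
          calc C = C ^ 1 := (pow_one C).symm
            _ ≤ C ^ 4 := pow_le_pow_right₀ hC (by norm_num)
        nlinarith
      calc C * (1 / (7 * (16 * C)) ^ 4 * t ^ ((1 : ℝ) / 5))
          = C * (1 / (7 * (16 * C)) ^ 4) * t ^ ((1 : ℝ) / 5) := by ring
        _ ≤ 1 / (7 ^ 4 * 16 ^ 2) * t ^ ((1 : ℝ) / 5) := mul_le_mul_of_nonneg_right e7 e6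
        _ = t ^ ((1 : ℝ) / 5) / (7 ^ 4 * 16 ^ 2) := by ring
    calc 4 * Real.pi * Real.sqrt (C * Real.log t / t)
        ≤ 16 * Real.sqrt (C * Real.log t / t) := by
          refine mul_le_mul_of_nonneg_right ?_ hs.le
          linarith [Real.pi_le_four]
      _ ≤ 16 * ((t ^ (-((1 : ℝ) / 5)) / 7) ^ 2 / 16) := mul_le_mul_of_nonneg_left e2 (by norm_num)
      _ = (t ^ (-((1 : ℝ) / 5)) / 7) ^ 2 := by ring
  refine ⟨?_, ?_, ?_⟩
  · apply Real.sqrt_pos.mpr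
    have := Real.pi_pos
    positivity
  · have h8 : t ^ (-((1 : ℝ) / 5)) ≤ 1 :=
      Real.rpow_le_one_of_one_le_of_nonpos (by linarith) (by norm_num)
    have h9 := Real.sqrt_nonneg (4 * Real.pi * Real.sqrt (C * Real.log t / t))
    linarith
  · calc 7 * Real.sqrt (4 * Real.pi * Real.sqrt (C * Real.log t / t)) * t
        ≤ t ^ (-((1 : ℝ) / 5)) * t := mul_le_mul_of_nonneg_right h7 ht.le
      _ = t ^ ((4 : ℝ) / 5) := by
          nth_rewrite 2 [← Real.rpow_one t]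
          rw [← Real.rpow_add ht]
          norm_num

/-- the final numerical inequality -/
lemma final (CB : ℝ) (CE : ℕ) (hCB : 0 < CB) : ∀ᶠ t : ℝ in Filter.atTop,
    Real.exp (t ^ ((4 : ℝ) / 5)) * ((CB * 80 + 6) * (t + 3) ^ CE *
      Real.exp (-(Real.log 2 / 2 * t ^ ((7 : ℝ) / 8)))) ≤ 1 / t ∧
    Real.log 2 / 2 * t ^ ((7 : ℝ) / 8) ≤ Real.log 2 * (t - 1) / 4000 := by
  have hlog := Real.log_pos (x := 2) (by norm_num)
  have h1 := asymp (Real.log 2 / 2) (CB * 80 + 6) ((CE : ℝ) + 1) (by positivity)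
  have h2 := small (a := (7 : ℝ) / 8) (b := 1) (by norm_num) (c := 1 / 4000) (by norm_num)
  filter_upwards [h1, h2, Filter.eventually_ge_atTop (2 : ℝ)] with t h3 h4 h5
  have ht : 0 < t := by linarith
  constructor
  · rw [le_div_iff₀ ht]
    have e1 : (t + 3) ^ CE * t ≤ (t + 3) ^ (CE + 1) := by
      rw [pow_succ]
      exact mul_le_mul_of_nonneg_left (by linarith) (by positivity)
    have e2 : (CB * 80 + 6) * (t + 3) ^ (CE + 1) =
        Real.exp (Real.log (CB * 80 + 6) + ((CE : ℝ) + 1) * Real.log (t + 3)) := by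
      rw [Real.exp_add, Real.exp_log (by positivity)]
      congr 1
      rw [show ((CE : ℝ) + 1) = ((CE + 1 : ℕ) : ℝ) by push_cast; rfl, Real.exp_nat_mul,
        Real.exp_log (by linarith)]
    calc Real.exp (t ^ ((4 : ℝ) / 5)) * ((CB * 80 + 6) * (t + 3) ^ CE *
          Real.exp (-(Real.log 2 / 2 * t ^ ((7 : ℝ) / 8)))) * t
        = Real.exp (t ^ ((4 : ℝ) / 5)) * Real.exp (-(Real.log 2 / 2 * t ^ ((7 : ℝ) / 8))) *
          ((CB * 80 + 6) * ((t + 3) ^ CE * t)) := by ring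
      _ ≤ Real.exp (t ^ ((4 : ℝ) / 5)) * Real.exp (-(Real.log 2 / 2 * t ^ ((7 : ℝ) / 8))) *
          ((CB * 80 + 6) * (t + 3) ^ (CE + 1)) := by
          refine mul_le_mul_of_nonneg_left ?_ (by positivity)
          exact mul_le_mul_of_nonneg_left e1 (by positivity)
      _ = Real.exp (t ^ ((4 : ℝ) / 5) + -(Real.log 2 / 2 * t ^ ((7 : ℝ) / 8)) +
          (Real.log (CB * 80 + 6) + ((CE : ℝ) + 1) * Real.log (t + 3))) := by
          rw [e2, ← Real.exp_add, ← Real.exp_add]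
      _ ≤ Real.exp 0 := by
          apply Real.exp_le_exp.mpr
          linarith
      _ = 1 := Real.exp_zero
  · rw [Real.rpow_one] at h4
    nlinarith

end Avg

/-- F8 -/
theorem claimAvg (h0 : ClaimSizF) (h1 : ClaimExp) (h2 : ClaimBT) (h3 : ClaimF2) (h4 : ClaimF3)
    (h5 : ClaimL12) (h6 : ClaimL13) (h7 : ClaimMass) : ClaimAvg := by
  intro C1
  obtain ⟨LS, hS⟩ := h0
  obtain ⟨CE, NE, hE⟩ := h1
  obtain ⟨CB, NB, hCB, hB⟩ := h2
  obtain ⟨t1, ht1⟩ := Filter.eventually_atTop.mp (Avg.eta_small (max C1 1) (le_max_right _ _))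
  obtain ⟨t2, ht2⟩ := Filter.eventually_atTop.mp (Avg.final CB CE hCB)
  refine ⟨max (max LS (max NE NB)) (max ⌈t1⌉₊ ⌈t2⌉₊), ?_⟩
  intro L hL θ w w' A hθ hw hw' hl hl' hA1 hA2
  have hL1 : LS ≤ L := le_trans (le_trans (le_max_left _ _) (le_max_left _ _)) hL
  have hL2 : max NE NB ≤ L := le_trans (le_trans (le_max_right _ _) (le_max_left _ _)) hL
  have hL3 : ⌈t1⌉₊ ≤ L := le_trans (le_trans (le_max_left _ _) (le_max_right _ _)) hL
  have hL4 : ⌈t2⌉₊ ≤ L := le_trans (le_trans (le_max_right _ _) (le_max_right _ _)) hL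
  have S := hS L hL1
  have hLN : L ≤ 3 ^ L - 1 := by
    have : L < 3 ^ L := Nat.lt_pow_self (by norm_num)
    omega
  have hKL : L ≤ pK L := by
    unfold pK
    apply Nat.le_log_of_pow_le (by norm_num)
    exact Nat.pow_le_pow_left (by norm_num) L
  have hKr : (L : ℝ) ≤ pK L := by exact_mod_cast hKL
  have hK1 : t1 ≤ pK L := by
    have : t1 ≤ L := (Nat.le_ceil t1).trans (by exact_mod_cast hL3)
    linarith
  have hK2 : t2 ≤ pK L := by
    have : t2 ≤ L := (Nat.le_ceil t2).trans (by exact_mod_cast hL4)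
    linarith
  obtain ⟨e1, e2, e3⟩ := ht1 _ hK1
  obtain ⟨f1, f2⟩ := ht2 _ hK2
  have hKpos : (0 : ℝ) < pK L := by
    have := S.z1
    have : 0 < pK L := by omega
    exact_mod_cast this
  have hlogK : 0 ≤ Real.log (pK L) := by
    apply Real.log_nonneg
    have := S.z1
    have : 1 ≤ pK L := by omega
    exact_mod_cast this
  set η : ℝ := Real.sqrt (4 * Real.pi * Real.sqrt (max C1 1 * Real.log (pK L) / pK L)) with hη
  have hθ2 : 4 * Real.pi * |θ| ≤ η ^ 2 := by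
    rw [hη, Real.sq_sqrt (by have := Real.pi_pos; positivity)]
    refine mul_le_mul_of_nonneg_left (hθ.trans ?_) (by have := Real.pi_pos; positivity)
    apply Real.sqrt_le_sqrt
    refine div_le_div_of_nonneg_right ?_ hKpos.le
    exact mul_le_mul_of_nonneg_right (le_max_left _ _) hlogK
  have hc := Avg.core hE hCB hB h3 h4 h5 h6 h7 S
    (((le_max_left _ _).trans hL2).trans hLN) (((le_max_right _ _).trans hL2).trans hLN)
    e1 e2 hθ2 hw hw' hl hl' hA1 hA2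
  refine hc.trans ?_
  obtain ⟨g1, g2, g3, g4⟩ := Avg.log_facts S
  have hHr : (0 : ℝ) ≤ pH L := Nat.cast_nonneg _
  have hlogN := Real.log_nonneg (Avg.N_pos S)
  set r : ℝ := Real.exp (-(Real.log 2 / 2 * (pK L : ℝ) ^ ((7 : ℝ) / 8))) with hr
  have hr0 : 0 < r := Real.exp_pos _
  set s : ℝ := 1 / Real.sqrt (2 ^ pqe L) with hs
  have k1 : ((3 ^ L - 1 : ℕ) : ℝ) ^ (-(1 : ℝ) / 4000) ≤ r := by
    refine g2.trans ?_
    apply Real.exp_le_exp.mpr
    linarith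
  have k2 : 2 / Real.sqrt (2 ^ pqe L) = 2 * s := by rw [hs]; ring
  have k3 : CB * 80 / 2 ^ pqe L ≤ CB * 80 * r := by
    have : CB * 80 / 2 ^ pqe L = CB * 80 * (1 / 2 ^ pqe L) := by ring
    rw [this]
    exact mul_le_mul_of_nonneg_left (g4.trans g3) (by positivity)
  have k4 : (2 + Real.log ((3 ^ L - 1 : ℕ) : ℝ)) ^ CE ≤ ((pK L : ℝ) + 3) ^ CE :=
    pow_le_pow_left₀ (by linarith) (by linarith) _
  have k5 : (1 : ℝ) ≤ ((pK L : ℝ) + 3) ^ CE := one_le_pow₀ (by linarith)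
  have k6 : CB * 80 / 2 ^ pqe L +
      2 * (2 + Real.log ((3 ^ L - 1 : ℕ) : ℝ)) ^ CE * (2 / Real.sqrt (2 ^ pqe L) +
        ((3 ^ L - 1 : ℕ) : ℝ) ^ (-(1 : ℝ) / 4000)) ≤
      (CB * 80 + 6) * ((pK L : ℝ) + 3) ^ CE * r := by
    have m1 : 2 * (2 + Real.log ((3 ^ L - 1 : ℕ) : ℝ)) ^ CE * (2 / Real.sqrt (2 ^ pqe L) +
        ((3 ^ L - 1 : ℕ) : ℝ) ^ (-(1 : ℝ) / 4000)) ≤ 2 * ((pK L : ℝ) + 3) ^ CE * (3 * r) := by
      refine mul_le_mul (mul_le_mul_of_nonneg_left k4 (by norm_num)) ?_ (by positivity)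
        (by positivity)
      rw [k2]
      linarith
    have m2 : CB * 80 * r ≤ CB * 80 * r * ((pK L : ℝ) + 3) ^ CE :=
      le_mul_of_one_le_right (by positivity) k5
    calc _ ≤ CB * 80 * r * ((pK L : ℝ) + 3) ^ CE + 2 * ((pK L : ℝ) + 3) ^ CE * (3 * r) := by
          linarith
      _ = (CB * 80 + 6) * ((pK L : ℝ) + 3) ^ CE * r := by ring
  have k7 : Real.exp (7 * η * pK L) ≤ Real.exp ((pK L : ℝ) ^ ((4 : ℝ) / 5)) :=
    Real.exp_le_exp.mpr e3
  calc Real.exp (7 * η * pK L) * (pH L * (CB * 80 / 2 ^ pqe L +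
      2 * (2 + Real.log ((3 ^ L - 1 : ℕ) : ℝ)) ^ CE * (2 / Real.sqrt (2 ^ pqe L) +
        ((3 ^ L - 1 : ℕ) : ℝ) ^ (-(1 : ℝ) / 4000))))
      ≤ Real.exp ((pK L : ℝ) ^ ((4 : ℝ) / 5)) *
        (pH L * ((CB * 80 + 6) * ((pK L : ℝ) + 3) ^ CE * r)) := by
        refine mul_le_mul k7 (mul_le_mul_of_nonneg_left k6 hHr) (by positivity) (Real.exp_pos _).le
    _ = pH L * (Real.exp ((pK L : ℝ) ^ ((4 : ℝ) / 5)) *
        ((CB * 80 + 6) * ((pK L : ℝ) + 3) ^ CE * r)) := by ring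
    _ ≤ pH L * (1 / pK L) := mul_le_mul_of_nonneg_left f1 hHr
    _ = pH L / pK L := by ring

end Pool.Agent.Work.MP_8e4d29_nt

end

section

/-!
MP_8e4d29_nt: item P3, averages over the free slots and `y`.
-/

namespace Pool.Agent.Work.MP_8e4d29_nt.AvgSrc

open Finset Filter

/-- large `L` -/
lemma exists_L0 : ∃ L0 : ℕ, ∀ L : ℕ, L0 ≤ L → 1 ≤ L ∧ pK L ^ 10 ≤ 3 ^ pg0 L := by
  have h1 : Tendsto (fun m : ℕ => (m : ℝ) ^ 10 / 3 ^ m) atTop (nhds 0) :=
    tendsto_pow_const_div_const_pow_of_one_lt 10 (by norm_num)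
  have h2 : ∀ᶠ m : ℕ in atTop, (m : ℝ) ^ 10 / 3 ^ m < 1 / (3 * 60000 ^ 10) :=
    h1.eventually_lt_const (by norm_num)
  obtain ⟨M0, hM0⟩ := eventually_atTop.mp h2
  refine ⟨30000 * M0 + 1, fun L hL => ⟨by omega, ?_⟩⟩
  have hg : M0 ≤ pg0 L := by
    unfold pg0
    omega
  have h3 := hM0 (pg0 L + 1) (by omega)
  have hK : pK L ≤ 60000 * (pg0 L + 1) := by
    have h4 : pK L ≤ 2 * L := by
      unfold pK
      have h5 : 3 ^ L ≤ 2 ^ (2 * L) := by
        rw [pow_mul]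
        exact Nat.pow_le_pow_left (by norm_num) L
      exact (Nat.log_mono_right h5).trans (by rw [Nat.log_pow (by norm_num)])
    have h6 : L < 30000 * (pg0 L + 1) := by
      unfold pg0
      omega
    omega
  have h7 : ((pg0 L + 1 : ℕ) : ℝ) ^ 10 * (3 * 60000 ^ 10) < 3 ^ (pg0 L + 1) := by
    rw [div_lt_div_iff₀ (by positivity) (by positivity), one_mul] at h3
    exact h3
  have h8 : (pg0 L + 1) ^ 10 * (3 * 60000 ^ 10) < 3 ^ (pg0 L + 1) := by exact_mod_cast h7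
  have h9 : pK L ^ 10 ≤ (60000 * (pg0 L + 1)) ^ 10 := Nat.pow_le_pow_left hK 10
  have h10 : 3 * (60000 * (pg0 L + 1)) ^ 10 < 3 * 3 ^ pg0 L := by
    calc 3 * (60000 * (pg0 L + 1)) ^ 10 = (pg0 L + 1) ^ 10 * (3 * 60000 ^ 10) := by ring
      _ < 3 ^ (pg0 L + 1) := h8
      _ = 3 * 3 ^ pg0 L := by rw [pow_succ]; ring
  omega

/-- real form of the equidistribution statement -/
lemma eqR (h : ClaimEQ) {L k e U : ℕ} (hs : SrcGood L k e U) (hL : 1 ≤ L) (hU : pK L ^ 10 ≤ U)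
    {Ψ : ℕ → ℝ} {V : ℝ} (hper : ∀ x, Ψ (x + 2 ^ k) = Ψ x) (hbd : ∀ x, 0 ≤ Ψ x ∧ Ψ x ≤ 1)
    (hV : ∑ x ∈ range (2 ^ k), |Ψ (x + 1) - Ψ x| ≤ V) (β : ℕ) :
    ∑ z ∈ range U, Ψ (z * 3 ^ e + β) ≤
      U * ((∑ x ∈ range (2 ^ k), Ψ x) / 2 ^ k + 7 * V / pW L + 2 / (pK L : ℝ) ^ 10) := by
  have hK : 0 < pK L := by
    unfold pK
    apply Nat.log_pos (by norm_num)
    calc 2 ≤ 3 ^ 1 := by norm_num
      _ ≤ 3 ^ L := Nat.pow_le_pow_right (by norm_num) hL
  have hK10 : 0 < pK L ^ 10 := by positivity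
  have hX0 : 1 ≤ U / pK L ^ 10 := by
    rw [Nat.one_le_div_iff hK10]
    exact hU
  have hW : 1 ≤ pW L := by
    unfold pW
    exact Nat.one_le_pow _ _ (by norm_num)
  have h1 := h (2 ^ k) (3 ^ e) (pW L) (U / pK L ^ 10) (fun x => (Ψ x : ℂ)) V
    (Nat.one_le_pow _ _ (by norm_num)) hW hX0 (fun x => by simp only [hper])
    (fun x => by
      rw [Complex.norm_real, Real.norm_eq_abs, abs_of_nonneg (hbd x).1]
      exact (hbd x).2)
    (by
      refine le_trans (le_of_eq ?_) hV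
      apply sum_congr rfl
      intro x _
      rw [← Complex.ofReal_sub, Complex.norm_real, Real.norm_eq_abs])
    (fun w hw1 hw2 => by
      have := hs w hw1 hw2
      rw [Nat.cast_pow, Nat.cast_pow]
      exact this) β U
  have h2 : (∑ z ∈ range U, ((Ψ (z * 3 ^ e + β) : ℝ) : ℂ))
      - (((U : ℝ) / ((2 ^ k : ℕ) : ℝ) : ℝ) : ℂ) * ∑ x ∈ range (2 ^ k), ((Ψ x : ℝ) : ℂ)
      = ((∑ z ∈ range U, Ψ (z * 3 ^ e + β)
        - (U : ℝ) / ((2 ^ k : ℕ) : ℝ) * ∑ x ∈ range (2 ^ k), Ψ x : ℝ) : ℂ) := by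
    push_cast
    rfl
  rw [h2, Complex.norm_real, Real.norm_eq_abs] at h1
  have h3 := (abs_le.mp h1).2
  have h4 : ((U / pK L ^ 10 : ℕ) : ℝ) ≤ U / (pK L : ℝ) ^ 10 := by
    have := @Nat.cast_div_le ℝ _ _ _ U (pK L ^ 10)
    push_cast at this
    exact this
  have h5 : ((2 ^ k : ℕ) : ℝ) = 2 ^ k := by push_cast; rfl
  rw [h5] at h3
  calc ∑ z ∈ range U, Ψ (z * 3 ^ e + β)
      ≤ (U : ℝ) / 2 ^ k * (∑ x ∈ range (2 ^ k), Ψ x) + 7 * V * U / pW L
        + 2 * ((U / pK L ^ 10 : ℕ) : ℝ) := by linarith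
    _ ≤ (U : ℝ) / 2 ^ k * (∑ x ∈ range (2 ^ k), Ψ x) + 7 * V * U / pW L
        + 2 * (U / (pK L : ℝ) ^ 10) := by linarith
    _ = _ := by ring

/-! ### sums over coordinates -/

lemma sum_range_mul' (A B : ℕ) (f : ℕ → ℝ) :
    ∑ a ∈ range A, ∑ b ∈ range B, f (b + B * a) = ∑ u ∈ range (A * B), f u := by
  induction A with
  | zero => simp
  | succ A ih =>
    rw [sum_range_succ, ih, Nat.succ_mul, sum_range_add]
    congr 1
    apply sum_congr rfl
    intro b _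
    congr 1
    ring

/-- averaging over one coordinate -/
lemma sum_update {n : ℕ} (s : Finset ℕ) (i : Fin n) (f : (Fin n → ℕ) → ℝ) :
    ∑ c ∈ Fintype.piFinset (fun _ : Fin n => s), ∑ a ∈ s, f (Function.update c i a) =
      s.card * ∑ c ∈ Fintype.piFinset (fun _ : Fin n => s), f c := by
  have h1 : (s.card : ℝ) * ∑ c ∈ Fintype.piFinset (fun _ : Fin n => s), f c
      = ∑ c ∈ Fintype.piFinset (fun _ : Fin n => s), ∑ _a ∈ s, f c := by
    rw [mul_sum]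
    apply sum_congr rfl
    intro c _
    rw [sum_const, nsmul_eq_mul]
  rw [h1, ← sum_product', ← sum_product']
  refine sum_nbij' (fun p => (Function.update p.1 i p.2, p.1 i))
    (fun p => (Function.update p.1 i p.2, p.1 i)) ?_ ?_ ?_ ?_ ?_
  · rintro ⟨c, a⟩ hp
    rw [mem_product, Fintype.mem_piFinset] at hp ⊢
    refine ⟨fun j => ?_, hp.1 i⟩
    simp only
    by_cases hj : j = i
    · subst hj
      rw [Function.update_self]
      exact hp.2
    · rw [Function.update_of_ne hj]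
      exact hp.1 j
  · rintro ⟨c, a⟩ hp
    rw [mem_product, Fintype.mem_piFinset] at hp ⊢
    refine ⟨fun j => ?_, hp.1 i⟩
    simp only
    by_cases hj : j = i
    · subst hj
      rw [Function.update_self]
      exact hp.2
    · rw [Function.update_of_ne hj]
      exact hp.1 j
  · rintro ⟨c, a⟩ _
    simp
  · rintro ⟨c, a⟩ _
    simp
  · rintro ⟨c, a⟩ _
    simp

lemma zz_update (L : ℕ) (σ c : Fin 120 → ℕ) (i : Fin 120) (a : ℕ) :
    zz L σ (Function.update c i a) =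
      a * 3 ^ (pjj L - (σ i + 1) * pg0 L) + zz L σ (Function.update c i 0) := by
  unfold zz
  rw [← add_sum_erase univ _ (mem_univ i),
    ← add_sum_erase univ (fun j => Function.update c i 0 j * 3 ^ (pjj L - (σ j + 1) * pg0 L))
      (mem_univ i)]
  rw [Function.update_self, Function.update_self, zero_mul, zero_add]
  congr 1
  apply sum_congr rfl
  intro j hj
  rw [mem_erase] at hj
  rw [Function.update_of_ne hj.1, Function.update_of_ne hj.1]

lemma card_CC (L : ℕ) : ((CC L).card : ℝ) = (3 ^ pg0 L) ^ 120 := by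
  unfold CC
  rw [Fintype.card_piFinset]
  simp

end Pool.Agent.Work.MP_8e4d29_nt.AvgSrc

namespace Pool.Agent.Work.MP_8e4d29_nt

open Finset AvgSrc

theorem claimAvgSrc (_h0 : ClaimSizF) (h1 : ClaimEQ) : ClaimAvgSrc := by
  obtain ⟨L0, hL0⟩ := exists_L0
  refine ⟨L0, fun L σ k Ψ V hL hσ hcov hper hbd hV => ?_⟩
  obtain ⟨hL1, hKg⟩ := hL0 L hL
  set B : ℝ := (∑ x ∈ range (2 ^ k), Ψ x) / 2 ^ k + 7 * V / pW L + 2 / (pK L : ℝ) ^ 10 with hB
  set Y : ℕ := 3 ^ py0 L with hY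
  set G : ℕ := 3 ^ pg0 L with hG
  have hG1 : 1 ≤ G := Nat.one_le_pow _ _ (by norm_num)
  have hGr : (0 : ℝ) < G := by exact_mod_cast hG1
  have hgy : pg0 L ≤ py0 L := by unfold pg0 py0; omega
  have hGc : ((3 : ℝ) ^ pg0 L) = (G : ℝ) := by rw [hG]; push_cast; rfl
  have hYc : ((3 : ℝ) ^ py0 L) = (Y : ℝ) := by rw [hY]; push_cast; rfl
  have hcard := card_CC L
  rw [hGc] at hcard
  rw [hGc, hYc, ← hcard]
  rcases hcov with hs | ⟨s, hs0, ⟨i1, hi1⟩, ⟨i2, hi2⟩, hs⟩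
  · -- the variable y
    have hU : pK L ^ 10 ≤ 2 * 3 ^ py0 L := by
      refine hKg.trans ((Nat.pow_le_pow_right (by norm_num) hgy).trans ?_)
      omega
    have h2 : ∀ c ∈ CC L, ∑ y ∈ Ico Y (3 * Y), Ψ (3 ^ pjj L * y + zz L σ c) ≤ 2 * Y * B := by
      intro c _
      have h3 := eqR h1 hs hL1 hU hper hbd hV (3 ^ pjj L * Y + zz L σ c)
      rw [← hY, ← hB] at h3
      refine le_trans (le_of_eq ?_) (h3.trans (le_of_eq (by push_cast; ring)))
      rw [sum_Ico_eq_sum_range]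
      have h4 : 3 * Y - Y = 2 * Y := by omega
      rw [h4]
      apply sum_congr rfl
      intro y _
      have h5 : 3 ^ pjj L * (Y + y) + zz L σ c
          = y * 3 ^ pjj L + (3 ^ pjj L * Y + zz L σ c) := by ring
      rw [h5]
    refine (sum_le_sum h2).trans (le_of_eq ?_)
    rw [sum_const, nsmul_eq_mul]
    ring
  · -- three digit blocks
    obtain ⟨hinj, hslot⟩ := hσ
    have hU : pK L ^ 10 ≤ 3 ^ (3 * pg0 L) :=
      hKg.trans (Nat.pow_le_pow_right (by norm_num) (by omega))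
    have hle : (s + 2) * pg0 L ≤ pjj L := by
      have h2 := hslot i2
      rw [hi2] at h2
      have h3 : (s + 1 + 1) * pg0 L = (s + 2) * pg0 L := by ring
      rw [h3] at h2
      omega
    set e : ℕ := pjj L - (s + 2) * pg0 L with he
    have hE2 : pjj L - (σ i2 + 1) * pg0 L = e := by
      rw [hi2, he]
    have hE1 : pjj L - (σ i1 + 1) * pg0 L = e + pg0 L := by
      rw [hi1, he]
      have h3 : (s + 2) * pg0 L = (s + 1) * pg0 L + pg0 L := by ring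
      omega
    have hne12 : i1 ≠ i2 := by
      rintro rfl
      omega
    have hG3 : (3 ^ (3 * pg0 L) : ℕ) = G * G * G := by
      rw [hG, ← pow_add, ← pow_add]
      congr 1
      ring
    have hmain := fun β => eqR h1 hs hL1 hU hper hbd hV β
    rw [hG3, ← hB] at hmain
    rcases hs0 with hs0 | ⟨i0, hi0⟩
    · -- s = 0
      subst hs0
      set Y1 : ℕ := 3 ^ (py0 L - pg0 L) with hY1
      have hYG : Y = Y1 * G := by
        rw [hY, hY1, hG, ← pow_add]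
        congr 1
        omega
      have hjj : pjj L = e + 2 * pg0 L := by
        rw [he]
        omega
      have hsplit : ∀ F : ℕ → ℝ, ∑ y ∈ Ico Y (3 * Y), F y
          = ∑ y1 ∈ Ico Y1 (3 * Y1), ∑ y2 ∈ range G, F (y2 + G * y1) := by
        intro F
        have h2 := sum_range_mul' (3 * Y1) G F
        have h3 := sum_range_mul' Y1 G F
        rw [sum_Ico_eq_sub _ (by omega : Y ≤ 3 * Y), sum_Ico_eq_sub _ (by omega : Y1 ≤ 3 * Y1),
          h2, h3, hYG, mul_assoc]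
      have hinner : ∀ y1 : ℕ, ∑ c ∈ CC L, ∑ y2 ∈ range G,
          Ψ (3 ^ pjj L * (y2 + G * y1) + zz L σ c) ≤ (CC L).card * (G * B) := by
        intro y1
        set f : (Fin 120 → ℕ) → ℝ := fun c => ∑ y2 ∈ range G,
          Ψ (3 ^ pjj L * (y2 + G * y1) + zz L σ c) with hf
        have h2 := sum_update (range G) i2 (fun c => ∑ a1 ∈ range G, f (Function.update c i1 a1))
        have h3 := sum_update (range G) i1 f
        rw [card_range] at h2 h3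
        rw [h3] at h2
        have h4 : ∀ c : Fin 120 → ℕ, ∑ a2 ∈ range G, ∑ a1 ∈ range G,
            f (Function.update (Function.update c i2 a2) i1 a1) ≤ (G * G * G : ℕ) * B := by
          intro c
          have h5 : ∀ a1 a2 y2 : ℕ, 3 ^ pjj L * (y2 + G * y1)
              + zz L σ (Function.update (Function.update c i2 a2) i1 a1)
              = (a2 + G * (a1 + G * y2)) * 3 ^ e + (3 ^ pjj L * (G * y1)
                + zz L σ (Function.update (Function.update c i1 0) i2 0)) := by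
            intro a1 a2 y2
            rw [zz_update L σ (Function.update c i2 a2) i1 a1,
              Function.update_comm hne12.symm a2 0 c, zz_update L σ (Function.update c i1 0) i2 a2,
              hE1, hE2]
            have h6 : 3 ^ pjj L = G * G * 3 ^ e := by
              rw [hjj, hG, ← pow_add, ← pow_add]
              congr 1
              ring
            rw [mul_add (3 ^ pjj L) y2 (G * y1), h6, pow_add, ← hG]
            ring
          have h7 := hmain (3 ^ pjj L * (G * y1)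
                + zz L σ (Function.update (Function.update c i1 0) i2 0))
          refine le_trans (le_of_eq ?_) h7
          simp only [hf, h5]
          rw [← sum_range_mul' (G * G) G (fun u => Ψ (u * 3 ^ e + (3 ^ pjj L * (G * y1)
                + zz L σ (Function.update (Function.update c i1 0) i2 0)))),
            ← sum_range_mul' G G (fun v => ∑ b ∈ range G, Ψ ((b + G * v) * 3 ^ e
              + (3 ^ pjj L * (G * y1)
                + zz L σ (Function.update (Function.update c i1 0) i2 0)))), sum_comm]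
          rw [sum_congr rfl fun a1 _ => sum_comm]
          rw [sum_comm]
        have h5 : (G : ℝ) * (G * ∑ c ∈ CC L, f c) ≤ (CC L).card * ((G * G * G : ℕ) * B) := by
          refine (le_of_eq h2.symm).trans ?_
          refine (sum_le_sum fun c _ => h4 c).trans (le_of_eq ?_)
          rw [sum_const, nsmul_eq_mul]
          rfl
        push_cast at h5
        have h6 : (G * G : ℝ) * ∑ c ∈ CC L, f c ≤ (G * G : ℝ) * ((CC L).card * (G * B)) := by
          nlinarith [h5]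
        exact le_of_mul_le_mul_left h6 (by positivity)
      calc ∑ c ∈ CC L, ∑ y ∈ Ico Y (3 * Y), Ψ (3 ^ pjj L * y + zz L σ c)
          = ∑ y1 ∈ Ico Y1 (3 * Y1), ∑ c ∈ CC L, ∑ y2 ∈ range G,
              Ψ (3 ^ pjj L * (y2 + G * y1) + zz L σ c) := by
            simp only [hsplit]
            rw [sum_comm]
        _ ≤ ∑ y1 ∈ Ico Y1 (3 * Y1), (CC L).card * (G * B) := sum_le_sum fun y1 _ => hinner y1
        _ = (CC L).card * (2 * Y) * B := by
            rw [sum_const, Nat.card_Ico, nsmul_eq_mul, hYG]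
            have h8 : 3 * Y1 - Y1 = 2 * Y1 := by omega
            rw [h8]
            push_cast
            ring
    · -- s ≥ 1
      have hE0 : pjj L - (σ i0 + 1) * pg0 L = e + 2 * pg0 L := by
        rw [hi0, he]
        have h3 : (s + 2) * pg0 L = s * pg0 L + 2 * pg0 L := by ring
        omega
      have hne01 : i0 ≠ i1 := by
        rintro rfl
        omega
      have hne02 : i0 ≠ i2 := by
        rintro rfl
        omega
      have hinner : ∀ y : ℕ, ∑ c ∈ CC L, Ψ (3 ^ pjj L * y + zz L σ c) ≤ (CC L).card * B := by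
        intro y
        set f : (Fin 120 → ℕ) → ℝ := fun c => Ψ (3 ^ pjj L * y + zz L σ c) with hf
        have h2 := sum_update (range G) i2 (fun c => ∑ a1 ∈ range G, ∑ a0 ∈ range G,
          f (Function.update (Function.update c i1 a1) i0 a0))
        have h3 := sum_update (range G) i1 (fun c => ∑ a0 ∈ range G, f (Function.update c i0 a0))
        have h4 := sum_update (range G) i0 f
        rw [card_range] at h2 h3 h4
        rw [h4] at h3
        rw [h3] at h2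
        have h5 : ∀ c : Fin 120 → ℕ, ∑ a2 ∈ range G, ∑ a1 ∈ range G, ∑ a0 ∈ range G,
            f (Function.update (Function.update (Function.update c i2 a2) i1 a1) i0 a0)
              ≤ (G * G * G : ℕ) * B := by
          intro c
          have h6 : ∀ a0 a1 a2 : ℕ, 3 ^ pjj L * y
              + zz L σ (Function.update (Function.update (Function.update c i2 a2) i1 a1) i0 a0)
              = (a2 + G * (a1 + G * a0)) * 3 ^ e + (3 ^ pjj L * y
                + zz L σ (Function.update (Function.update (Function.update c i0 0) i1 0) i2 0)) := by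
            intro a0 a1 a2
            rw [zz_update L σ (Function.update (Function.update c i2 a2) i1 a1) i0 a0,
              Function.update_comm hne01.symm a1 0 (Function.update c i2 a2),
              zz_update L σ (Function.update (Function.update c i2 a2) i0 0) i1 a1,
              Function.update_comm hne02.symm a2 0 c,
              Function.update_comm hne12.symm a2 0 (Function.update c i0 0),
              zz_update L σ (Function.update (Function.update c i0 0) i1 0) i2 a2,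
              hE0, hE1, hE2]
            have h7 : 3 ^ (e + 2 * pg0 L) = G * G * 3 ^ e := by
              rw [hG, ← pow_add, ← pow_add]
              congr 1
              ring
            rw [h7, pow_add, ← hG]
            ring
          have h7 := hmain (3 ^ pjj L * y
                + zz L σ (Function.update (Function.update (Function.update c i0 0) i1 0) i2 0))
          refine le_trans (le_of_eq ?_) h7
          simp only [hf, h6]
          rw [← sum_range_mul' (G * G) G (fun u => Ψ (u * 3 ^ e + (3 ^ pjj L * y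
                + zz L σ (Function.update (Function.update (Function.update c i0 0) i1 0) i2 0)))),
            ← sum_range_mul' G G (fun v => ∑ b ∈ range G, Ψ ((b + G * v) * 3 ^ e
              + (3 ^ pjj L * y
                + zz L σ (Function.update (Function.update (Function.update c i0 0) i1 0) i2 0)))),
            sum_comm]
          rw [sum_congr rfl fun a1 _ => sum_comm]
          rw [sum_comm]
        have h6 : (G : ℝ) * (G * (G * ∑ c ∈ CC L, f c))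
            ≤ (CC L).card * ((G * G * G : ℕ) * B) := by
          refine (le_of_eq h2.symm).trans ?_
          refine (sum_le_sum fun c _ => h5 c).trans (le_of_eq ?_)
          rw [sum_const, nsmul_eq_mul]
          rfl
        push_cast at h6
        have h7 : (G * G * G : ℝ) * ∑ c ∈ CC L, f c ≤ (G * G * G : ℝ) * ((CC L).card * B) := by
          nlinarith [h6]
        exact le_of_mul_le_mul_left h7 (by positivity)
      calc ∑ c ∈ CC L, ∑ y ∈ Ico Y (3 * Y), Ψ (3 ^ pjj L * y + zz L σ c)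
          = ∑ y ∈ Ico Y (3 * Y), ∑ c ∈ CC L, Ψ (3 ^ pjj L * y + zz L σ c) := sum_comm
        _ ≤ ∑ y ∈ Ico Y (3 * Y), (CC L).card * B := sum_le_sum fun y _ => hinner y
        _ = (CC L).card * (2 * Y) * B := by
            rw [sum_const, Nat.card_Ico, nsmul_eq_mul]
            have h8 : 3 * Y - Y = 2 * Y := by omega
            rw [h8]
            push_cast
            ring

end Pool.Agent.Work.MP_8e4d29_nt

end

section

/-!
MP_8e4d29_nt, item Q1: lower bound for binomial coefficients.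
-/

namespace Pool.Agent.Work.MP_8e4d29_nt

open Finset

namespace Bin

lemma central (m : ℕ) (hm : 1 ≤ m) : 16 ^ m ≤ m.centralBinom ^ 2 * (4 * m) := by
  induction m with
  | zero => omega
  | succ m ih =>
    rcases Nat.eq_zero_or_pos m with h | h
    · subst h
      simp [Nat.centralBinom, Nat.choose]
    · have h1 := ih h
      have h2 := Nat.succ_mul_centralBinom_succ m
      have h3 : (m + 1) * ((m + 1).centralBinom ^ 2 * (4 * (m + 1))) * m
          = (4 * (2 * m + 1) ^ 2) * (m.centralBinom ^ 2 * (4 * m)) := by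
        calc (m + 1) * ((m + 1).centralBinom ^ 2 * (4 * (m + 1))) * m
            = ((m + 1) * (m + 1).centralBinom) ^ 2 * (4 * m) := by ring
          _ = (2 * (2 * m + 1) * m.centralBinom) ^ 2 * (4 * m) := by rw [h2]
          _ = _ := by ring
      have h4 : 16 * ((m + 1) * m) ≤ 4 * (2 * m + 1) ^ 2 := by nlinarith
      have h5 : (16 ^ (m + 1)) * ((m + 1) * m) ≤
          ((m + 1).centralBinom ^ 2 * (4 * (m + 1))) * ((m + 1) * m) := by
        calc (16 ^ (m + 1)) * ((m + 1) * m) = (16 * ((m + 1) * m)) * 16 ^ m := by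
              rw [pow_succ]; ring
          _ ≤ (4 * (2 * m + 1) ^ 2) * (m.centralBinom ^ 2 * (4 * m)) := Nat.mul_le_mul h4 h1
          _ = (m + 1) * ((m + 1).centralBinom ^ 2 * (4 * (m + 1))) * m := h3.symm
          _ = _ := by ring
      exact Nat.le_of_mul_le_mul_right h5 (by positivity)

lemma central_real (m : ℕ) (hm : 1 ≤ m) :
    1 / (2 * Real.sqrt m) ≤ (m.centralBinom : ℝ) / 4 ^ m := by
  have hm0 : (0 : ℝ) < m := by exact_mod_cast hm
  have hs : 0 < Real.sqrt m := Real.sqrt_pos.mpr hm0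
  have h1 : ((16 : ℝ)) ^ m ≤ (m.centralBinom : ℝ) ^ 2 * (4 * m) := by exact_mod_cast central m hm
  rw [div_le_div_iff₀ (by positivity) (by positivity), one_mul]
  have h2 : (4 : ℝ) ^ m = Real.sqrt (16 ^ m) := by
    rw [show (16 : ℝ) ^ m = (4 ^ m) ^ 2 by rw [← pow_mul, mul_comm, pow_mul]; norm_num]
    rw [Real.sqrt_sq (by positivity)]
  rw [h2]
  refine (Real.sqrt_le_sqrt h1).trans (le_of_eq ?_)
  rw [Real.sqrt_mul (by positivity), Real.sqrt_sq (by positivity), Real.sqrt_mul (by norm_num)]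
  have h4 : Real.sqrt 4 = 2 := by
    rw [show (4 : ℝ) = 2 ^ 2 by norm_num, Real.sqrt_sq (by norm_num)]
  rw [h4]

lemma middle (n : ℕ) (hn : 1 ≤ n) :
    1 / (2 * Real.sqrt n) ≤ (n.choose (n / 2) : ℝ) / 2 ^ n := by
  have hn0 : (0 : ℝ) < n := by exact_mod_cast hn
  rcases Nat.even_or_odd' n with ⟨m, h | h⟩
  · have hm : 1 ≤ m := by omega
    have hm0 : (0 : ℝ) < m := by exact_mod_cast hm
    have h1 := central_real m hm
    have e : n / 2 = m := by omega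
    have e3 : (n.choose (n / 2) : ℝ) / 2 ^ n = (m.centralBinom : ℝ) / 4 ^ m := by
      rw [e, h, pow_mul, Nat.centralBinom_eq_two_mul_choose]
      norm_num
    rw [e3]
    refine le_trans ?_ h1
    have h2 : Real.sqrt m ≤ Real.sqrt n := by
      apply Real.sqrt_le_sqrt
      have : m ≤ n := by omega
      exact_mod_cast this
    have h3 : 0 < Real.sqrt m := Real.sqrt_pos.mpr hm0
    gcongr
  · have h1 := central_real (m + 1) (by omega)
    have e : n / 2 = m := by omega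
    have h2 : (m + 1).centralBinom = 2 * n.choose (n / 2) := by
      rw [e, h, Nat.centralBinom_eq_two_mul_choose]
      have e2 : 2 * (m + 1) = (2 * m + 1) + 1 := by ring
      rw [e2, Nat.choose_succ_succ' (2 * m + 1) m, Nat.choose_symm_half]
      ring
    rw [h2] at h1
    have h3 : ((2 * n.choose (n / 2) : ℕ) : ℝ) / 4 ^ (m + 1) = (n.choose (n / 2) : ℝ) / 2 ^ n := by
      have h4 : (4 : ℝ) ^ (m + 1) = 2 * 2 ^ n := by
        rw [h, show (4 : ℝ) = 2 ^ 2 by norm_num, ← pow_mul, ← pow_succ']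
        congr 1
      rw [h4]
      push_cast
      field_simp
    rw [h3] at h1
    refine le_trans ?_ h1
    have h5 : Real.sqrt ((m + 1 : ℕ) : ℝ) ≤ Real.sqrt n := by
      apply Real.sqrt_le_sqrt
      have : m + 1 ≤ n := by omega
      exact_mod_cast this
    have h6 : 0 < Real.sqrt ((m + 1 : ℕ) : ℝ) := Real.sqrt_pos.mpr (by positivity)
    gcongr

/-- going down from the middle -/
lemma down (n : ℕ) (hn : 1 ≤ n) (A : ℝ) (hA : 0 ≤ A) (h8 : 8 * A ≤ Real.sqrt n) (d : ℕ)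
    (hd : d ≤ n / 2) (hdA : (d : ℝ) ≤ A * Real.sqrt n) :
    (n.choose (n / 2) : ℝ) * (1 - 4 * A / Real.sqrt n) ^ d ≤ (n.choose (n / 2 - d) : ℝ) := by
  have hn0 : (0 : ℝ) < n := by exact_mod_cast hn
  have hs : 0 < Real.sqrt n := Real.sqrt_pos.mpr hn0
  have hx : 4 * A / Real.sqrt n ≤ 1 / 2 := by
    rw [div_le_iff₀ hs]; linarith
  have hx0 : 0 ≤ 4 * A / Real.sqrt n := by positivity
  induction d with
  | zero => simp
  | succ d ih =>
    have h1 : (d : ℝ) ≤ A * Real.sqrt n := by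
      push_cast at hdA; linarith
    have h2 := ih (by omega) h1
    obtain ⟨k, hk⟩ : ∃ k, n / 2 - d = k + 1 := ⟨n / 2 - d - 1, by omega⟩
    have hk2 : n / 2 - (d + 1) = k := by omega
    rw [hk] at h2
    rw [hk2]
    have h3 := Nat.choose_succ_right_eq n k
    have hkn : k ≤ n := by omega
    have h4 : (n.choose (k + 1) : ℝ) * (k + 1) = (n.choose k : ℝ) * (n - k) := by
      have := congrArg (fun x : ℕ => (x : ℝ)) h3
      push_cast [Nat.cast_sub hkn] at this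
      exact this
    have hkr : 2 * ((k : ℝ) + 1) + 2 * d + 1 ≥ n := by
      have : n ≤ 2 * (k + 1) + 2 * d + 1 := by omega
      have h5 : ((n : ℕ) : ℝ) ≤ ((2 * (k + 1) + 2 * d + 1 : ℕ) : ℝ) := by exact_mod_cast this
      push_cast at h5
      linarith
    have hk3 : 2 * (k : ℝ) + 2 ≤ n := by
      have : 2 * k + 2 ≤ n := by omega
      exact_mod_cast this
    have hnk : 0 < (n : ℝ) - k := by linarith [(Nat.cast_nonneg k : (0 : ℝ) ≤ k)]
    have h6 : (n : ℝ) / 2 ≤ n - k := by linarith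
    -- the ratio
    have h7 : (1 - 4 * A / Real.sqrt n) * (n - k) ≤ k + 1 := by
      have h9 : (n : ℝ) - k - (k + 1) ≤ 2 * (d + 1) := by linarith
      have h10 : 2 * ((d : ℝ) + 1) ≤ 2 * (A * Real.sqrt n) := by
        push_cast at hdA; linarith
      have h11 : 2 * (A * Real.sqrt n) = 4 * A / Real.sqrt n * (n / 2) := by
        have h15 : Real.sqrt n * Real.sqrt n = (n : ℝ) := Real.mul_self_sqrt hn0.le
        rw [div_mul_eq_mul_div, eq_div_iff hs.ne']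
        linear_combination 2 * A * h15
      have h12 : 4 * A / Real.sqrt n * (n / 2) ≤ 4 * A / Real.sqrt n * (n - k) :=
        mul_le_mul_of_nonneg_left h6 hx0
      linarith
    have hc0 : (0 : ℝ) ≤ n.choose (k + 1) := Nat.cast_nonneg _
    have hc1 : (0 : ℝ) ≤ n.choose (n / 2) := Nat.cast_nonneg _
    have hx1 : 0 ≤ 1 - 4 * A / Real.sqrt n := by linarith
    have h13 : (n.choose (k + 1) : ℝ) * (1 - 4 * A / Real.sqrt n) ≤ n.choose k := by
      have h14 : (n.choose (k + 1) : ℝ) * (1 - 4 * A / Real.sqrt n) * (n - k) ≤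
          n.choose k * (n - k) := by
        rw [← h4, mul_assoc]
        exact mul_le_mul_of_nonneg_left h7 hc0
      exact le_of_mul_le_mul_right h14 hnk
    calc (n.choose (n / 2) : ℝ) * (1 - 4 * A / Real.sqrt n) ^ (d + 1)
        = ((n.choose (n / 2) : ℝ) * (1 - 4 * A / Real.sqrt n) ^ d) *
            (1 - 4 * A / Real.sqrt n) := by rw [pow_succ]; ring
      _ ≤ (n.choose (k + 1) : ℝ) * (1 - 4 * A / Real.sqrt n) :=
          mul_le_mul_of_nonneg_right h2 hx1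
      _ ≤ n.choose k := h13

lemma one_sub_ge (x : ℝ) (h0 : 0 ≤ x) (h1 : x ≤ 1 / 2) : Real.exp (-(2 * x)) ≤ 1 - x := by
  have h2 := Real.add_one_le_exp (2 * x)
  rw [Real.exp_neg, inv_le_comm₀ (Real.exp_pos _) (by linarith)]
  refine le_trans ?_ h2
  rw [inv_le_iff_one_le_mul₀ (by linarith)]
  nlinarith

lemma big (n : ℕ) (hn : 1 ≤ n) (A : ℝ) (hA : 0 ≤ A) (h8 : 8 * A ≤ Real.sqrt n) (j : ℕ) (hj : j ≤ n)
    (hjA : |(j : ℝ) - n / 2| ≤ A * Real.sqrt n) :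
    Real.exp (-(8 * A ^ 2)) / 2 / Real.sqrt n ≤ (n.choose j : ℝ) / 2 ^ n := by
  have hn0 : (0 : ℝ) < n := by exact_mod_cast hn
  have hs : 0 < Real.sqrt n := Real.sqrt_pos.mpr hn0
  have hx : 4 * A / Real.sqrt n ≤ 1 / 2 := by
    rw [div_le_iff₀ hs]; linarith
  have hx0 : 0 ≤ 4 * A / Real.sqrt n := by positivity
  have key : ∀ d : ℕ, d ≤ n / 2 → (d : ℝ) ≤ A * Real.sqrt n →
      Real.exp (-(8 * A ^ 2)) / 2 / Real.sqrt n ≤ (n.choose (n / 2 - d) : ℝ) / 2 ^ n := by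
    intro d hd hdA
    have h1 := down n hn A hA h8 d hd hdA
    have h2 := middle n hn
    have h3 : Real.exp (-(8 * A ^ 2)) ≤ (1 - 4 * A / Real.sqrt n) ^ d := by
      have h4 := pow_le_pow_left₀ (Real.exp_pos _).le (one_sub_ge _ hx0 hx) d
      rw [← Real.exp_nat_mul] at h4
      refine le_trans (Real.exp_le_exp.mpr ?_) h4
      have h5 : (d : ℝ) * (2 * (4 * A / Real.sqrt n)) ≤
          A * Real.sqrt n * (2 * (4 * A / Real.sqrt n)) :=
        mul_le_mul_of_nonneg_right hdA (by positivity)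
      have h6 : A * Real.sqrt n * (2 * (4 * A / Real.sqrt n)) = 8 * A ^ 2 := by
        field_simp; ring
      linarith
    calc Real.exp (-(8 * A ^ 2)) / 2 / Real.sqrt n
        = 1 / (2 * Real.sqrt n) * Real.exp (-(8 * A ^ 2)) := by field_simp
      _ ≤ (n.choose (n / 2) : ℝ) / 2 ^ n * (1 - 4 * A / Real.sqrt n) ^ d :=
          mul_le_mul h2 h3 (Real.exp_pos _).le (by positivity)
      _ = (n.choose (n / 2) : ℝ) * (1 - 4 * A / Real.sqrt n) ^ d / 2 ^ n := by ring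
      _ ≤ (n.choose (n / 2 - d) : ℝ) / 2 ^ n := by gcongr
  rw [abs_le] at hjA
  rcases le_or_gt j (n / 2) with h | h
  · have h1 := key (n / 2 - j) (Nat.sub_le _ _) (by
      have h2 : n / 2 - j + j = n / 2 := by omega
      have h3 : ((n / 2 - j : ℕ) : ℝ) = ((n / 2 : ℕ) : ℝ) - j := by
        push_cast [Nat.cast_sub h]; ring
      rw [h3]
      have h4 : ((n / 2 : ℕ) : ℝ) ≤ n / 2 := Nat.cast_div_le
      linarith)
    have h5 : n / 2 - (n / 2 - j) = j := by omega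
    rwa [h5] at h1
  · have h0 : n - j ≤ n / 2 := by omega
    have h1 := key (n / 2 - (n - j)) (Nat.sub_le _ _) (by
      have h3 : ((n / 2 - (n - j) : ℕ) : ℝ) = ((n / 2 : ℕ) : ℝ) - (n - j) := by
        rw [Nat.cast_sub h0, Nat.cast_sub hj]
      rw [h3]
      have h4 : ((n / 2 : ℕ) : ℝ) ≤ n / 2 := Nat.cast_div_le
      linarith)
    have h5 : n / 2 - (n / 2 - (n - j)) = n - j := by omega
    rw [h5, Nat.choose_symm hj] at h1
    exact h1

end Bin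

open Bin in
theorem claimBin : ClaimBin := by
  intro A
  obtain ⟨n0, hn0⟩ := exists_nat_gt (64 * A ^ 2)
  refine ⟨min (Real.exp (-(8 * |A| ^ 2)) / 2) (1 / 2 ^ n0), lt_min (by positivity) (by positivity),
    fun n j hn hj hjA => ?_⟩
  have hnr : (0 : ℝ) < n := by exact_mod_cast hn
  have hs : 0 < Real.sqrt n := Real.sqrt_pos.mpr hnr
  have hjA' : |(j : ℝ) - n / 2| ≤ |A| * Real.sqrt n :=
    hjA.trans (mul_le_mul_of_nonneg_right (le_abs_self A) hs.le)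
  rcases le_or_gt n0 n with h | h
  · have h8 : 8 * |A| ≤ Real.sqrt n := by
      apply Real.le_sqrt_of_sq_le
      have h1 : (n0 : ℝ) ≤ n := by exact_mod_cast h
      rw [mul_pow, sq_abs]
      linarith
    refine le_trans ?_ (big n hn |A| (abs_nonneg A) h8 j hj hjA')
    gcongr
    exact min_le_left _ _
  · have h1 : (1 : ℝ) ≤ n.choose j := by exact_mod_cast Nat.choose_pos hj
    have h2 : (1 : ℝ) ≤ Real.sqrt n := by
      rw [Real.one_le_sqrt]
      exact_mod_cast hn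
    calc min (Real.exp (-(8 * |A| ^ 2)) / 2) (1 / 2 ^ n0) / Real.sqrt n
        ≤ (1 / 2 ^ n0) / 1 := by
          apply div_le_div₀ (by positivity) (min_le_right _ _) (by norm_num) h2
      _ = 1 / 2 ^ n0 := div_one _
      _ ≤ (n.choose j : ℝ) / 2 ^ n := by
          apply div_le_div₀ (by positivity) h1 (by positivity)
          exact pow_le_pow_right₀ (by norm_num) h.le

end Pool.Agent.Work.MP_8e4d29_nt

end

section

/-!
MP_8e4d29_nt: item G2, one block.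
-/

namespace Pool.Agent.Work.MP_8e4d29_nt.Block

open Finset
open Pool.Agent.Work.MP_122e00_nt (ee norm_ee ee_add ee_neg ee_one_period ee_nat_mul)

/-- orthogonality -/
lemma orth {M : ℕ} (hM : 0 < M) (v v' : ℕ) :
    ∑ ξ ∈ range M, ee (((v : ℝ) - v') * ξ / M) = if v % M = v' % M then (M : ℂ) else 0 := by
  have hM' : (M : ℝ) ≠ 0 := by positivity
  have h1 : ∀ ξ : ℕ, ee (((v : ℝ) - v') * ξ / M) = ee (((v : ℝ) - v') / M) ^ ξ := by
    intro ξ
    rw [← ee_nat_mul]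
    congr 1
    ring
  simp only [h1]
  split_ifs with h
  · have h2 : ((v : ℝ) - v') / M = (((v : ℤ) - v') / M : ℤ) := by
      have hd : (M : ℤ) ∣ (v : ℤ) - v' := by
        have h3 : (v' : ℤ) ≡ v [ZMOD M] := by
          have : v' ≡ v [MOD M] := h.symm
          exact (Int.natCast_modEq_iff).mpr this
        exact h3.dvd
      obtain ⟨k, hk⟩ := hd
      rw [hk, Int.mul_ediv_cancel_left _ (by exact_mod_cast hM.ne')]
      have h3 : ((v : ℝ) - v') = M * k := by exact_mod_cast hk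
      rw [h3]
      field_simp
    rw [h2, ee_int]
    simp
  · have hne : ee (((v : ℝ) - v') / M) ≠ 1 := by
      intro h2
      apply h
      have h3 := norm_ee_sub_one_ge (((v : ℝ) - v') / M)
      rw [h2, sub_self, norm_zero] at h3
      have h4 : nd (((v : ℝ) - v') / M) = 0 := le_antisymm (by linarith) (nd_nonneg _)
      obtain ⟨k, hk⟩ := exists_int_nd (((v : ℝ) - v') / M)
      rw [h4] at hk
      have h5 : ((v : ℝ) - v') / M = k := by
        have := abs_eq_zero.mp hk.symm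
        linarith
      rw [div_eq_iff hM'] at h5
      have h6 : (v : ℤ) - v' = k * M := by exact_mod_cast h5
      have h7 : (v' : ℤ) ≡ v [ZMOD M] := by
        rw [Int.modEq_iff_dvd]
        exact ⟨k, by rw [h6]; ring⟩
      exact ((Int.natCast_modEq_iff).mp h7).symm
    rw [geom_sum_eq hne, ← ee_nat_mul]
    have h2 : (M : ℝ) * (((v : ℝ) - v') / M) = (((v : ℤ) - v' : ℤ) : ℝ) := by
      push_cast
      field_simp
    rw [h2, ee_int, sub_self, zero_div]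

/-- Parseval -/
lemma parseval {M : ℕ} (hM : 0 < M) (s : Finset ℕ) (b : ℕ → ℂ) :
    ((∑ ξ ∈ range M, ‖∑ v ∈ s, b v * ee ((v : ℝ) * ξ / M)‖ ^ 2 : ℝ) : ℂ) =
      M * ∑ v ∈ s, ∑ v' ∈ s, if v % M = v' % M then b v * (starRingEnd ℂ) (b v') else 0 := by
  have h1 : ∀ ξ : ℕ, ((‖∑ v ∈ s, b v * ee ((v : ℝ) * ξ / M)‖ ^ 2 : ℝ) : ℂ) =
      ∑ v ∈ s, ∑ v' ∈ s, b v * (starRingEnd ℂ) (b v') * ee (((v : ℝ) - v') * ξ / M) := by
    intro ξ
    rw [Complex.ofReal_pow, ← Complex.mul_conj', map_sum, sum_mul_sum]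
    apply sum_congr rfl
    intro v _
    apply sum_congr rfl
    intro v' _
    rw [map_mul]
    have h2 : ee (((v : ℝ) - v') * ξ / M)
        = ee ((v : ℝ) * ξ / M) * (starRingEnd ℂ) (ee ((v' : ℝ) * ξ / M)) := by
      rw [← ee_sub]
      congr 1
      ring
    rw [h2]
    ring
  rw [Complex.ofReal_sum]
  simp only [h1]
  rw [sum_comm, mul_sum]
  apply sum_congr rfl
  intro v _
  rw [sum_comm, mul_sum]
  apply sum_congr rfl
  intro v' _
  rw [← mul_sum, orth hM]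
  split_ifs
  · ring
  · ring

/-- Parseval for a full period -/
lemma parseval_full {M : ℕ} (hM : 0 < M) (c : ℕ → ℂ) :
    ∑ x ∈ range M, ‖∑ ξ ∈ range M, c ξ * ee ((ξ : ℝ) * x / M)‖ ^ 2 =
      M * ∑ ξ ∈ range M, ‖c ξ‖ ^ 2 := by
  have h1 := parseval hM (range M) c
  have h2 : ∑ v ∈ range M, ∑ v' ∈ range M,
      (if v % M = v' % M then c v * (starRingEnd ℂ) (c v') else 0)
      = ((∑ ξ ∈ range M, ‖c ξ‖ ^ 2 : ℝ) : ℂ) := by
    rw [Complex.ofReal_sum]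
    apply sum_congr rfl
    intro v hv
    rw [sum_eq_single_of_mem v hv]
    · rw [if_pos rfl, Complex.mul_conj', Complex.ofReal_pow]
    · intro v' hv' hne
      rw [mem_range] at hv hv'
      rw [Nat.mod_eq_of_lt hv, Nat.mod_eq_of_lt hv', if_neg (Ne.symm hne)]
  rw [h2] at h1
  exact_mod_cast h1

/-- a sum over many periods -/
lemma parseval_le {M V : ℕ} (hM : 0 < M) (hV : M ≤ V) (b : ℕ → ℂ) (hb : ∀ v, ‖b v‖ ≤ 1 / V) :
    ∑ ξ ∈ range M, ‖∑ v ∈ range V, b v * ee ((v : ℝ) * ξ / M)‖ ^ 2 ≤ 2 := by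
  have hVr : (0 : ℝ) < V := by exact_mod_cast (by omega : 0 < V)
  have hMr : (0 : ℝ) < M := by exact_mod_cast hM
  have h1 := parseval hM (range V) b
  have h2 : ∑ ξ ∈ range M, ‖∑ v ∈ range V, b v * ee ((v : ℝ) * ξ / M)‖ ^ 2
      = ‖((∑ ξ ∈ range M, ‖∑ v ∈ range V, b v * ee ((v : ℝ) * ξ / M)‖ ^ 2 : ℝ) : ℂ)‖ := by
    rw [Complex.norm_real, Real.norm_eq_abs, abs_of_nonneg]
    exact sum_nonneg fun i _ => sq_nonneg _
  rw [h2, h1, norm_mul, Complex.norm_natCast]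
  have h3 : ∀ v ∈ range V, ‖∑ v' ∈ range V,
      (if v % M = v' % M then b v * (starRingEnd ℂ) (b v') else 0)‖
      ≤ (1 / V) * (1 / V) * ((V : ℝ) / M + 1) := by
    intro v _
    have hcard : (((range V).filter (fun v' => v % M = v' % M)).card : ℝ) ≤ (V : ℝ) / M + 1 := by
      have h4 : ((range V).filter (fun v' => v % M = v' % M)).card ≤ V / M + 1 := by
        have h5 := Nat.count_modEq_card V hM v
        have h6 : Nat.count (· ≡ v [MOD M]) V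
            = ((range V).filter (fun v' => v % M = v' % M)).card := by
          rw [Nat.count_eq_card_filter_range]
          congr 1
          apply filter_congr
          intro x _
          exact eq_comm
        rw [← h6, h5]
        split_ifs <;> omega
      calc (((range V).filter (fun v' => v % M = v' % M)).card : ℝ) ≤ ((V / M + 1 : ℕ) : ℝ) := by
            exact_mod_cast h4
        _ ≤ (V : ℝ) / M + 1 := by
            push_cast
            have := @Nat.cast_div_le ℝ _ _ _ V M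
            linarith
    calc ‖∑ v' ∈ range V, (if v % M = v' % M then b v * (starRingEnd ℂ) (b v') else 0)‖
        ≤ ∑ v' ∈ range V, ‖(if v % M = v' % M then b v * (starRingEnd ℂ) (b v') else 0)‖ :=
          norm_sum_le _ _
      _ ≤ ∑ v' ∈ range V, (if v % M = v' % M then (1 / (V : ℝ)) * (1 / V) else 0) := by
          apply sum_le_sum
          intro v' _
          split_ifs
          · rw [norm_mul, RCLike.norm_conj]
            exact mul_le_mul (hb v) (hb v') (norm_nonneg _) (by positivity)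
          · simp
      _ = (1 / V) * (1 / V) * (((range V).filter (fun v' => v % M = v' % M)).card : ℝ) := by
          rw [← sum_filter, sum_const, nsmul_eq_mul]
          ring
      _ ≤ (1 / V) * (1 / V) * ((V : ℝ) / M + 1) :=
          mul_le_mul_of_nonneg_left hcard (by positivity)
  have h4 : ‖∑ v ∈ range V, ∑ v' ∈ range V,
      (if v % M = v' % M then b v * (starRingEnd ℂ) (b v') else 0)‖
      ≤ V * ((1 / V) * (1 / V) * ((V : ℝ) / M + 1)) := by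
    refine (norm_sum_le _ _).trans ((sum_le_sum h3).trans ?_)
    rw [sum_const, card_range, nsmul_eq_mul]
  refine (mul_le_mul_of_nonneg_left h4 hMr.le).trans ?_
  have h5 : (M : ℝ) ≤ V := by exact_mod_cast hV
  have h6 : (M : ℝ) * (V * ((1 / V) * (1 / V) * ((V : ℝ) / M + 1))) = 1 + M / V := by
    field_simp
  rw [h6]
  have h7 : (M : ℝ) / V ≤ 1 := (div_le_one hVr).mpr h5
  linarith

/-! ### the Fourier coefficients in base 3 -/

lemma norm_factor_le (x : ℝ) : ‖(1 + ee x + ee (2 * x)) / 3‖ ≤ 1 := by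
  rw [norm_div]
  have h1 : ‖1 + ee x + ee (2 * x)‖ ≤ 3 := by
    refine (norm_add₃_le).trans ?_
    rw [norm_one, norm_ee, norm_ee]
    norm_num
  have h2 : ‖(3 : ℂ)‖ = 3 := by simp
  rw [h2, div_le_one (by norm_num)]
  exact h1

lemma cube_root {c : ℕ} (hc : ¬ 3 ∣ c) :
    1 + ee (-((c : ℝ) / 3)) + ee (-((c : ℝ) / 3)) ^ 2 = 0 := by
  have h1 := orth (M := 3) (by norm_num) 0 c
  rw [sum_range_succ, sum_range_succ, sum_range_one] at h1
  have h2 : ¬ (0 % 3 = c % 3) := by omega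
  rw [if_neg h2] at h1
  have h3 : ee ((((0 : ℕ) : ℝ) - c) * ((0 : ℕ) : ℝ) / ((3 : ℕ) : ℝ)) = 1 := by
    rw [Nat.cast_zero, mul_zero, zero_div, ee_zero]
  have h4 : ee ((((0 : ℕ) : ℝ) - c) * ((1 : ℕ) : ℝ) / ((3 : ℕ) : ℝ)) = ee (-((c : ℝ) / 3)) := by
    congr 1
    push_cast
    ring
  have h5 : ee ((((0 : ℕ) : ℝ) - c) * ((2 : ℕ) : ℝ) / ((3 : ℕ) : ℝ)) = ee (-((c : ℝ) / 3)) ^ 2 := by
    rw [← ee_nat_mul]
    congr 1
    push_cast
    ring
  rw [h3, h4, h5] at h1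
  exact h1

lemma norm_cf3_le {P : ℕ} {θ : ℝ} {w : ℕ → ℝ} (hw : ∀ i, |w i| ≤ |θ|) {ξ : ℕ}
    (h0 : ξ ≠ 0) (hξ : ξ < 3 ^ P) : ‖cf3 P w ξ‖ ≤ 2 * Real.pi * |θ| := by
  obtain ⟨j, c, hc, hξc⟩ := Nat.exists_eq_pow_mul_and_not_dvd h0 3 (by norm_num)
  have hc1 : 1 ≤ c := by
    rcases Nat.eq_zero_or_pos c with h | h
    · subst h; simp at hc
    · exact h
  have hj : j < P := by
    by_contra hcon
    have h1 : 3 ^ P ≤ 3 ^ j := Nat.pow_le_pow_right (by norm_num) (by omega)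
    have h2 : 3 ^ j * 1 ≤ 3 ^ j * c := Nat.mul_le_mul_left _ hc1
    omega
  unfold cf3
  rw [norm_prod]
  have hi : P - 1 - j ∈ range P := by rw [mem_range]; omega
  rw [← mul_prod_erase _ _ hi]
  have h1 : ∏ i ∈ (range P).erase (P - 1 - j), ‖(1 + ee (w i - 3 ^ i * (ξ : ℝ) / 3 ^ P) +
      ee (2 * (w i - 3 ^ i * (ξ : ℝ) / 3 ^ P))) / 3‖ ≤ 1 := by
    apply prod_le_one
    · intro i _
      exact norm_nonneg _
    · intro i _
      exact norm_factor_le _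
  have h2 : 3 ^ (P - 1 - j) * (ξ : ℝ) / 3 ^ P = (c : ℝ) / 3 := by
    have h3 : (3 : ℝ) ^ P = 3 ^ (P - 1 - j) * 3 ^ j * 3 := by
      rw [← pow_add, ← pow_succ]
      congr 1
      omega
    rw [h3, hξc]
    push_cast
    field_simp
  have h3 : ‖(1 + ee (w (P - 1 - j) - 3 ^ (P - 1 - j) * (ξ : ℝ) / 3 ^ P) +
      ee (2 * (w (P - 1 - j) - 3 ^ (P - 1 - j) * (ξ : ℝ) / 3 ^ P))) / 3‖
      ≤ 2 * Real.pi * |θ| := by
    rw [h2]
    set x := w (P - 1 - j) with hx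
    set ω := ee (-((c : ℝ) / 3)) with hω
    have hω1 : ‖ω‖ = 1 := norm_ee _
    have hroot : 1 + ω + ω ^ 2 = 0 := cube_root hc
    have e1 : ee (x - (c : ℝ) / 3) = ee x * ω := by
      rw [sub_eq_add_neg, ee_add]
    have e2 : ee (2 * (x - (c : ℝ) / 3)) = ee (2 * x) * ω ^ 2 := by
      have h4 : ω ^ 2 = ee (2 * (-((c : ℝ) / 3))) := by
        rw [hω, ← ee_nat_mul]
        norm_num
      rw [h4, ← ee_add]
      congr 1
      ring
    rw [e1, e2]
    have e3 : 1 + ee x * ω + ee (2 * x) * ω ^ 2 = (ee x - 1) * ω + (ee (2 * x) - 1) * ω ^ 2 := by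
      linear_combination hroot
    rw [e3, norm_div]
    have n3 : ‖(3 : ℂ)‖ = 3 := by simp
    rw [n3, div_le_iff₀ (by norm_num)]
    refine (norm_add_le _ _).trans ?_
    rw [norm_mul, norm_mul, norm_pow, hω1, one_pow, mul_one, mul_one]
    have h5 := norm_ee_sub_one_le x
    have h6 := norm_ee_sub_one_le (2 * x)
    have h7 := nd_le_abs x
    have h8 := nd_le_abs (2 * x)
    rw [abs_mul, abs_of_pos (by norm_num : (0 : ℝ) < 2)] at h8
    have h9 : |x| ≤ |θ| := hw _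
    have hpi := Real.pi_pos
    calc ‖ee x - 1‖ + ‖ee (2 * x) - 1‖
        ≤ 2 * Real.pi * |x| + 2 * Real.pi * (2 * |x|) := by
          apply add_le_add
          · exact h5.trans (mul_le_mul_of_nonneg_left h7 (by positivity))
          · exact h6.trans (mul_le_mul_of_nonneg_left h8 (by positivity))
      _ = 2 * Real.pi * |x| * 3 := by ring
      _ ≤ 2 * Real.pi * |θ| * 3 := by
          apply mul_le_mul_of_nonneg_right _ (by norm_num)
          exact mul_le_mul_of_nonneg_left h9 (by positivity)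
  calc _ ≤ (2 * Real.pi * |θ|) * 1 :=
        mul_le_mul h3 h1 (prod_nonneg fun i _ => norm_nonneg _) (by positivity)
    _ = 2 * Real.pi * |θ| := mul_one _

/-! ### the weighted digit sums -/

/-- the weights: zero below `p`, `t` from `p` on -/
noncomputable def wl (p : ℕ) (t : ℝ) (i : ℕ) : ℝ := if p ≤ i then t else 0

lemma wd_wl {b p k : ℕ} (hp : p ≤ k) (t : ℝ) (n : ℕ) : wd b (wl p t) k n = t * ds b p k n := by
  unfold wd ds wl
  rw [range_eq_Ico, ← sum_Ico_consecutive _ (Nat.zero_le p) hp]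
  have h1 : ∑ i ∈ Ico 0 p, (if p ≤ i then t else 0) * ((n / b ^ i % b : ℕ) : ℝ) = 0 := by
    apply sum_eq_zero
    intro i hi
    rw [mem_Ico] at hi
    rw [if_neg (by omega), zero_mul]
  have h2 : ∑ i ∈ Ico p k, (if p ≤ i then t else 0) * ((n / b ^ i % b : ℕ) : ℝ)
      = ∑ i ∈ Ico p k, t * ((n / b ^ i % b : ℕ) : ℝ) := by
    apply sum_congr rfl
    intro i hi
    rw [mem_Ico] at hi
    rw [if_pos hi.1]
  rw [h1, h2, zero_add, ← mul_sum]
  push_cast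
  rfl

lemma prod_wl {p k : ℕ} (hp : p ≤ k) (t : ℝ) (f : ℝ → ℂ) (h0 : f 0 = 1) :
    ∏ i ∈ range k, f (wl p t i) = f t ^ (k - p) := by
  rw [range_eq_Ico, ← prod_Ico_consecutive _ (Nat.zero_le p) hp]
  have h1 : ∏ i ∈ Ico 0 p, f (wl p t i) = 1 := by
    apply prod_eq_one
    intro i hi
    rw [mem_Ico] at hi
    unfold wl
    rw [if_neg (by omega), h0]
  have h2 : ∏ i ∈ Ico p k, f (wl p t i) = f t ^ (k - p) := by
    rw [← Nat.card_Ico, ← prod_const]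
    apply prod_congr rfl
    intro i hi
    rw [mem_Ico] at hi
    unfold wl
    rw [if_pos hi.1]
  rw [h1, h2, one_mul]

lemma cf3_zero {P P0 : ℕ} (h : P0 ≤ P) (t : ℝ) :
    cf3 P (wl P0 t) 0 = ((1 + ee t + ee (2 * t)) / 3) ^ (P - P0) := by
  unfold cf3
  have h1 : ∀ i, (1 + ee (wl P0 t i - 3 ^ i * ((0 : ℕ) : ℝ) / 3 ^ P) +
      ee (2 * (wl P0 t i - 3 ^ i * ((0 : ℕ) : ℝ) / 3 ^ P))) / 3
      = (fun x : ℝ => (1 + ee x + ee (2 * x)) / 3) (wl P0 t i) := by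
    intro i
    simp
  refine (prod_congr rfl fun i _ => h1 i).trans
    (prod_wl h t (fun x : ℝ => (1 + ee x + ee (2 * x)) / 3) ?_)
  simp only [mul_zero, ee_zero]
  norm_num

lemma cf2_zero {B p : ℕ} (h : p ≤ B) (t : ℝ) :
    cf2 B (wl p t) 0 = ((1 + ee t) / 2) ^ (B - p) := by
  unfold cf2
  have h1 : ∀ i, (1 + ee (wl p t i - 2 ^ i * ((0 : ℕ) : ℝ) / 2 ^ B)) / 2
      = (fun x : ℝ => (1 + ee x) / 2) (wl p t i) := by
    intro i
    simp
  refine (prod_congr rfl fun i _ => h1 i).trans (prod_wl h t (fun x : ℝ => (1 + ee x) / 2) ?_)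
  simp only [ee_zero]
  norm_num

end Pool.Agent.Work.MP_8e4d29_nt.Block

namespace Pool.Agent.Work.MP_8e4d29_nt

open Finset Block
open Pool.Agent.Work.MP_122e00_nt (ee norm_ee ee_add)

theorem claimBlock (hF2 : ClaimF2) (hF3 : ClaimF3) : ClaimBlock := by
  intro B p P P0 θ hp hP0 hPB
  have hM : 0 < 3 ^ P := by positivity
  set M : ℕ := 3 ^ P with hMdef
  have hMr : (0 : ℝ) < M := by exact_mod_cast hM
  have hM3 : (3 : ℝ) ^ P = M := by rw [hMdef]; push_cast; rfl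
  set b : ℕ → ℂ := fun v => ee (θ * (ds 2 p B v : ℝ)) / 2 ^ B with hb
  have hbn : ∀ v, ‖b v‖ ≤ 1 / ((2 ^ B : ℕ) : ℝ) := by
    intro v
    simp only [hb]
    rw [norm_div, norm_ee, norm_pow]
    simp
  set Bt : ℕ → ℂ := fun ξ => ∑ v ∈ range (2 ^ B), b v * ee ((v : ℝ) * ξ / M) with hBt
  set w3 := wl P0 (-θ) with hw3
  set c : ℕ → ℂ := fun ξ => if ξ = 0 then 0 else cf3 P w3 ξ * Bt ξ with hc
  -- the value at zero
  have hBt0 : Bt 0 = ((1 + ee θ) / 2) ^ (B - p) := by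
    rw [← cf2_zero hp θ]
    simp only [hBt]
    have h1 : ∀ v ∈ range (2 ^ B), b v * ee ((v : ℝ) * ((0 : ℕ) : ℝ) / M)
        = (∑ ξ ∈ range (2 ^ B), cf2 B (wl p θ) ξ
          * ee (((ξ : ℝ) - ((0 : ℕ) : ℝ)) * v / ((2 ^ B : ℕ) : ℝ))) / 2 ^ B := by
      intro v _
      simp only [hb]
      rw [Nat.cast_zero, mul_zero, zero_div, ee_zero, mul_one, ← wd_wl hp θ v, hF2]
      congr 1
      apply sum_congr rfl
      intro ξ _
      congr 2
      push_cast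
      ring
    rw [sum_congr rfl h1, ← sum_div, sum_comm]
    have h2 : ∀ ξ ∈ range (2 ^ B), ∑ v ∈ range (2 ^ B), cf2 B (wl p θ) ξ
          * ee (((ξ : ℝ) - ((0 : ℕ) : ℝ)) * v / ((2 ^ B : ℕ) : ℝ))
        = if ξ = 0 then cf2 B (wl p θ) ξ * ((2 ^ B : ℕ) : ℂ) else 0 := by
      intro ξ hξ
      rw [mem_range] at hξ
      rw [← mul_sum, orth (by positivity), Nat.mod_eq_of_lt hξ, Nat.zero_mod]
      split_ifs <;> simp
    rw [sum_congr rfl h2, sum_ite_eq' (range (2 ^ B)) 0, if_pos (by rw [mem_range]; positivity)]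
    push_cast
    rw [mul_div_assoc, div_self (pow_ne_zero _ two_ne_zero), mul_one]
  have hchA : chA (B - p) (P - P0) θ = cf3 P w3 0 * Bt 0 := by
    have h1 : 2 * -θ = -(2 * θ) := by ring
    rw [hBt0, hw3, cf3_zero hP0, h1]
    unfold chA
    rw [mul_comm]
  -- the Fourier expansion
  have hexp : ∀ x : ℕ, (∑ v ∈ range (2 ^ B),
      ee (θ * ((ds 2 p B v : ℝ) - ds 3 P0 P (x + v)))) / 2 ^ B - chA (B - p) (P - P0) θ
      = ∑ ξ ∈ range M, c ξ * ee ((ξ : ℝ) * x / M) := by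
    intro x
    have h1 : (∑ v ∈ range (2 ^ B), ee (θ * ((ds 2 p B v : ℝ) - ds 3 P0 P (x + v)))) / 2 ^ B
        = ∑ ξ ∈ range M, cf3 P w3 ξ * Bt ξ * ee ((ξ : ℝ) * x / M) := by
      rw [sum_div]
      have h2 : ∀ v ∈ range (2 ^ B), ee (θ * ((ds 2 p B v : ℝ) - ds 3 P0 P (x + v))) / 2 ^ B
          = ∑ ξ ∈ range M, b v * ee ((v : ℝ) * ξ / M) * (cf3 P w3 ξ * ee ((ξ : ℝ) * x / M)) := by
        intro v _
        have h3 : ee (θ * ((ds 2 p B v : ℝ) - ds 3 P0 P (x + v)))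
            = ee (θ * (ds 2 p B v : ℝ)) * ee (wd 3 w3 P (x + v)) := by
          rw [hw3, wd_wl hP0, ← ee_add]
          congr 1
          ring
        rw [h3, hF3, mul_sum, sum_div]
        apply sum_congr rfl
        intro ξ _
        simp only [hb]
        have h4 : ee ((((x + v : ℕ)) : ℝ) * ξ / 3 ^ P)
            = ee ((v : ℝ) * ξ / M) * ee ((ξ : ℝ) * x / M) := by
          rw [← ee_add, hM3]
          congr 1
          push_cast
          ring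
        rw [h4]
        ring
      rw [sum_congr rfl h2, sum_comm]
      apply sum_congr rfl
      intro ξ _
      rw [← sum_mul]
      simp only [hBt]
      ring
    rw [h1, hchA, ← add_sum_erase _ _ (mem_range.mpr hM),
      ← add_sum_erase (range M) (fun ξ => c ξ * ee ((ξ : ℝ) * x / M)) (mem_range.mpr hM)]
    have h5 : c 0 = 0 := by simp [hc]
    have h6 : ee (((0 : ℕ) : ℝ) * x / M) = 1 := by
      rw [Nat.cast_zero, zero_mul, zero_div, ee_zero]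
    rw [h5, h6, mul_one, zero_mul, zero_add, add_sub_cancel_left]
    apply sum_congr rfl
    intro ξ hξ
    rw [mem_erase] at hξ
    simp only [hc]
    rw [if_neg hξ.1]
  simp only [hexp]
  -- Parseval and Cauchy-Schwarz
  have hsum : ∑ ξ ∈ range M, ‖c ξ‖ ^ 2 ≤ (2 * Real.pi * |θ|) ^ 2 * 2 := by
    have hBt2 : ∑ ξ ∈ range M, ‖Bt ξ‖ ^ 2 ≤ 2 := parseval_le hM hPB b hbn
    calc ∑ ξ ∈ range M, ‖c ξ‖ ^ 2 ≤ ∑ ξ ∈ range M, (2 * Real.pi * |θ|) ^ 2 * ‖Bt ξ‖ ^ 2 := by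
          apply sum_le_sum
          intro ξ hξ
          rw [mem_range] at hξ
          simp only [hc]
          split_ifs with h0
          · rw [norm_zero, zero_pow two_ne_zero]
            positivity
          · rw [norm_mul, mul_pow]
            apply mul_le_mul_of_nonneg_right _ (sq_nonneg _)
            apply pow_le_pow_left₀ (norm_nonneg _)
            apply norm_cf3_le (fun i => ?_) h0 hξ
            rw [hw3]
            unfold wl
            split_ifs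
            · rw [abs_neg]
            · rw [abs_zero]
              exact abs_nonneg _
      _ = (2 * Real.pi * |θ|) ^ 2 * ∑ ξ ∈ range M, ‖Bt ξ‖ ^ 2 := by rw [mul_sum]
      _ ≤ (2 * Real.pi * |θ|) ^ 2 * 2 := mul_le_mul_of_nonneg_left hBt2 (sq_nonneg _)
  have hcs := sq_sum_le_card_mul_sum_sq (s := range M)
    (f := fun x => ‖∑ ξ ∈ range M, c ξ * ee ((ξ : ℝ) * x / M)‖)
  rw [parseval_full hM c, card_range] at hcs
  have hpi : Real.pi ^ 2 ≤ 10 := by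
    have := Real.pi_lt_d2
    nlinarith [Real.pi_pos]
  have hfin : (∑ x ∈ range M, ‖∑ ξ ∈ range M, c ξ * ee ((ξ : ℝ) * x / M)‖) ^ 2
      ≤ ((M : ℝ) * (10 * |θ|)) ^ 2 := by
    refine hcs.trans ?_
    calc (M : ℝ) * (M * ∑ ξ ∈ range M, ‖c ξ‖ ^ 2)
        ≤ M * (M * ((2 * Real.pi * |θ|) ^ 2 * 2)) := by
          apply mul_le_mul_of_nonneg_left _ hMr.le
          exact mul_le_mul_of_nonneg_left hsum hMr.le
      _ = 8 * Real.pi ^ 2 * (M * |θ|) ^ 2 := by ring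
      _ ≤ 100 * (M * |θ|) ^ 2 := by
          apply mul_le_mul_of_nonneg_right _ (sq_nonneg _)
          linarith
      _ = ((M : ℝ) * (10 * |θ|)) ^ 2 := by ring
  rw [hM3]
  exact le_of_pow_le_pow_left₀ (by norm_num) (by positivity) hfin

end Pool.Agent.Work.MP_8e4d29_nt

end

section

/-!
MP_8e4d29_nt, item N2: iterated differences of the logarithm.
-/

namespace Pool.Agent.Work.MP_8e4d29_nt

namespace LogDiff

/-- iterated differences of a function -/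
noncomputable def dif : List ℕ → (ℝ → ℝ) → ℝ → ℝ
  | [], f, x => f x
  | h :: hs, f, x => dif hs f (x + h) - dif hs f x

/-- the iterated derivatives of the logarithm -/
noncomputable def F : ℕ → ℝ → ℝ
  | 0, x => Real.log x
  | k + 1, x => (-1) ^ k * (k.factorial : ℝ) / x ^ (k + 1)

theorem ldif_eq (hs : List ℕ) : ∀ x : ℝ, ldif hs x = dif hs (F 0) x := by
  induction hs with
  | nil => intro x; rfl
  | cons h hs ih =>
    intro x
    show ldif hs (x + h) - ldif hs x = _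
    rw [ih, ih]
    rfl

theorem F_deriv (j : ℕ) (x : ℝ) (hx : 0 < x) : HasDerivAt (F j) (F (j + 1) x) x := by
  cases j with
  | zero =>
    have h := Real.hasDerivAt_log hx.ne'
    have e : F (0 + 1) x = x⁻¹ := by
      show (-1) ^ 0 * ((0 : ℕ).factorial : ℝ) / x ^ (0 + 1) = x⁻¹
      simp
    rw [e]
    exact h
  | succ k =>
    have h1 : HasDerivAt (fun y : ℝ => y ^ (k + 1)) (((k + 1 : ℕ) : ℝ) * x ^ k) x := by
      simpa using hasDerivAt_pow (k + 1) x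
    have h2 := (h1.inv (pow_ne_zero _ hx.ne')).const_mul ((-1) ^ k * (k.factorial : ℝ))
    have e : F (k + 1 + 1) x = (-1) ^ k * (k.factorial : ℝ) *
        (-(((k + 1 : ℕ) : ℝ) * x ^ k) / (x ^ (k + 1)) ^ 2) := by
      show (-1) ^ (k + 1) * (((k + 1).factorial : ℕ) : ℝ) / x ^ (k + 1 + 1) = _
      rw [Nat.factorial_succ]
      push_cast
      field_simp
      ring
    rw [e]
    refine h2.congr_of_eventuallyEq (Filter.Eventually.of_forall fun y => ?_)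
    show (-1) ^ k * (k.factorial : ℝ) / y ^ (k + 1) = (-1) ^ k * (k.factorial : ℝ) * (y ^ (k + 1))⁻¹
    rw [div_eq_mul_inv]

theorem dif_deriv (hs : List ℕ) : ∀ (j : ℕ) (x : ℝ), 0 < x →
    HasDerivAt (dif hs (F j)) (dif hs (F (j + 1)) x) x := by
  induction hs with
  | nil => intro j x hx; exact F_deriv j x hx
  | cons h hs ih =>
    intro j x hx
    have h1 := (ih j (x + h) (by positivity)).comp_add_const x (h : ℝ)
    exact h1.sub (ih j x hx)

theorem mean (hs : List ℕ) : ∀ (j : ℕ) (x : ℝ), 0 < x → ∃ ξ : ℝ, x ≤ ξ ∧ ξ ≤ x + (hs.sum : ℝ) ∧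
    dif hs (F j) x = (hs.prod : ℝ) * F (j + hs.length) ξ := by
  induction hs with
  | nil =>
    intro j x hx
    refine ⟨x, le_rfl, by simp, ?_⟩
    show F j x = _
    simp
  | cons h hs ih =>
    intro j x hx
    rcases Nat.eq_zero_or_pos h with h0 | h0
    · subst h0
      refine ⟨x, le_rfl, ?_, ?_⟩
      · have : (0 : ℝ) ≤ (((0 :: hs).sum : ℕ) : ℝ) := Nat.cast_nonneg _
        linarith
      · show dif hs (F j) (x + ((0 : ℕ) : ℝ)) - dif hs (F j) x = _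
        simp
    · have hlt : x < x + (h : ℝ) := by
        have : (0 : ℝ) < h := by exact_mod_cast h0
        linarith
      obtain ⟨c, hc, hc'⟩ := exists_hasDerivAt_eq_slope (dif hs (F j)) (dif hs (F (j + 1))) hlt
        (fun y hy => (dif_deriv hs j y (lt_of_lt_of_le hx hy.1)).continuousAt.continuousWithinAt)
        (fun y hy => dif_deriv hs j y (hx.trans hy.1))
      obtain ⟨ξ, h1, h2, h3⟩ := ih (j + 1) c (hx.trans hc.1)
      refine ⟨ξ, hc.1.le.trans h1, ?_, ?_⟩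
      · have := hc.2
        rw [List.sum_cons, Nat.cast_add]
        linarith
      · show dif hs (F j) (x + (h : ℝ)) - dif hs (F j) x = _
        have hh : (0 : ℝ) < h := by exact_mod_cast h0
        rw [h3, eq_div_iff (by linarith)] at hc'
        have e : x + (h : ℝ) - x = h := by ring
        rw [e] at hc'
        rw [← hc', List.prod_cons, List.length_cons, show j + (hs.length + 1) = j + 1 + hs.length by
          ring, Nat.cast_mul]
        ring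

end LogDiff

open LogDiff in
/-- N2 -/
theorem claimLogDiff : ClaimLogDiff := by
  intro hs x hx hne
  obtain ⟨ξ, h1, h2, h3⟩ := mean hs 0 x hx
  have hξ : 0 < ξ := lt_of_lt_of_le hx h1
  obtain ⟨k, hk⟩ : ∃ k, hs.length = k + 1 := by
    cases hs with
    | nil => exact absurd rfl hne
    | cons h hs => exact ⟨hs.length, rfl⟩
  have e : (-1 : ℝ) ^ (hs.length + 1) * ldif hs x =
      ((hs.length - 1).factorial : ℝ) * (hs.prod : ℝ) / ξ ^ hs.length := by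
    rw [ldif_eq, h3, zero_add, hk]
    show (-1 : ℝ) ^ (k + 1 + 1) * ((hs.prod : ℝ) * ((-1) ^ k * (k.factorial : ℝ) / ξ ^ (k + 1))) =
      ((k + 1 - 1).factorial : ℝ) * (hs.prod : ℝ) / ξ ^ (k + 1)
    have e1 : (-1 : ℝ) ^ (k + 1 + 1) * (-1) ^ k = 1 := by
      rw [← pow_add, show k + 1 + 1 + k = 2 * (k + 1) by ring, pow_mul]
      simp
    rw [Nat.add_sub_cancel]
    calc (-1 : ℝ) ^ (k + 1 + 1) * ((hs.prod : ℝ) * ((-1) ^ k * (k.factorial : ℝ) / ξ ^ (k + 1)))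
        = ((-1 : ℝ) ^ (k + 1 + 1) * (-1) ^ k) *
            ((k.factorial : ℝ) * (hs.prod : ℝ) / ξ ^ (k + 1)) := by ring
      _ = _ := by rw [e1, one_mul]
  have hp : (0 : ℝ) ≤ ((hs.length - 1).factorial : ℝ) * (hs.prod : ℝ) := by positivity
  rw [e]
  constructor
  · exact div_le_div_of_nonneg_left hp (by positivity) (pow_le_pow_left₀ hξ.le h2 _)
  · exact div_le_div_of_nonneg_left hp (by positivity) (pow_le_pow_left₀ hx.le h1 _)

end Pool.Agent.Work.MP_8e4d29_nt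

end

section

set_option autoImplicit false

/-!
MP_8e4d29_nt, N5: mean value theorem for Dirichlet polynomials.
-/

namespace Pool.Agent.Work.MP_8e4d29_nt

open Finset
open Pool.Agent.Work.MP_122e00_nt (ee norm_ee ee_add ee_neg)

namespace MVaux

theorem ee_continuous : Continuous ee := by
  unfold ee
  fun_prop

/-- the kernel -/
noncomputable def ker (T u : ℝ) : ℂ := ∫ t in (-T)..T, ee (t * u)

theorem ker_zero {T : ℝ} (hT : 0 ≤ T) : ‖ker T 0‖ ≤ 2 * T := by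
  unfold ker
  simp only [mul_zero, ee_zero]
  rw [intervalIntegral.integral_const]
  rw [norm_smul, norm_one, mul_one, Real.norm_eq_abs, abs_le]
  constructor <;> linarith

theorem ker_le (T : ℝ) {u : ℝ} (hu : u ≠ 0) : ‖ker T u‖ ≤ 1 / (Real.pi * |u|) := by
  have hc : (2 * Real.pi * u * Complex.I : ℂ) ≠ 0 := by
    have h1 : (u : ℂ) ≠ 0 := by exact_mod_cast hu
    have h2 : (Real.pi : ℂ) ≠ 0 := by exact_mod_cast Real.pi_ne_zero
    simp [h1, h2]
  have h1 : ker T u = (Complex.exp ((2 * Real.pi * u * Complex.I : ℂ) * (T : ℝ)) -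
      Complex.exp ((2 * Real.pi * u * Complex.I : ℂ) * ((-T : ℝ) : ℂ))) /
        (2 * Real.pi * u * Complex.I : ℂ) := by
    rw [← integral_exp_mul_complex hc]
    unfold ker
    congr 1
    ext t
    unfold ee
    congr 1
    push_cast
    ring
  rw [h1, norm_div]
  have h2 : ∀ s : ℝ, ‖Complex.exp ((2 * Real.pi * u * Complex.I : ℂ) * (s : ℝ))‖ = 1 := by
    intro s
    have := Complex.norm_exp_ofReal_mul_I (2 * Real.pi * u * s)
    rw [← this]
    congr 2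
    push_cast
    ring
  have h3 : ‖(2 * Real.pi * u * Complex.I : ℂ)‖ = 2 * (Real.pi * |u|) := by
    rw [norm_mul, norm_mul, norm_mul, Complex.norm_I, Complex.norm_real, Complex.norm_real,
      Real.norm_eq_abs, Real.norm_eq_abs, abs_of_pos Real.pi_pos]
    norm_num
    ring
  have h4 : 0 < Real.pi * |u| := mul_pos Real.pi_pos (abs_pos.mpr hu)
  rw [h3]
  have h5 := norm_sub_le (Complex.exp ((2 * Real.pi * u * Complex.I : ℂ) * (T : ℝ)))
    (Complex.exp ((2 * Real.pi * u * Complex.I : ℂ) * ((-T : ℝ) : ℂ)))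
  rw [h2 T, h2 (-T)] at h5
  rw [div_le_div_iff₀ (by positivity) h4]
  nlinarith

/-- the logarithms are separated -/
theorem log_sep {M m n : ℕ} (hm : m ∈ Ioc M (2 * M)) (hn : n ∈ Ioc M (2 * M)) (hmn : m ≠ n) :
    |(m : ℝ) - n| / (2 * M) ≤ |Real.log m - Real.log n| := by
  rw [mem_Ioc] at hm hn
  wlog h : m < n generalizing m n with H
  · rw [abs_sub_comm, abs_sub_comm (Real.log m)]
    exact H hn hm hmn.symm (by omega)
  have hm0 : (0 : ℝ) < m := by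
    have : 0 < m := by omega
    exact_mod_cast this
  have hn0 : (0 : ℝ) < n := by
    have : 0 < n := by omega
    exact_mod_cast this
  have hM0 : (0 : ℝ) < M := by
    have : 0 < M := by omega
    exact_mod_cast this
  have hn2 : (n : ℝ) ≤ 2 * M := by exact_mod_cast hn.2
  have hmn' : (m : ℝ) < n := by exact_mod_cast h
  have h1 : Real.log m - Real.log n = - Real.log (n / m) := by
    rw [Real.log_div hn0.ne' hm0.ne']
    ring
  have h2 : 1 - ((n : ℝ) / m)⁻¹ ≤ Real.log (n / m) := Real.one_sub_inv_le_log_of_pos (by positivity)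
  have h3 : 1 - ((n : ℝ) / m)⁻¹ = (n - m) / n := by
    field_simp
  have h4 : 0 ≤ Real.log (n / m) := by
    apply Real.log_nonneg
    rw [le_div_iff₀ hm0]
    linarith
  rw [h1, abs_neg, abs_of_nonneg h4, abs_sub_comm, abs_of_nonneg (by linarith)]
  refine le_trans ?_ (h3 ▸ h2)
  gcongr

theorem harm_le (M : ℕ) : ∑ k ∈ Icc 1 M, 1 / (k : ℝ) ≤ 1 + Real.log M := by
  have h := harmonic_le_one_add_log M
  rw [harmonic_eq_sum_Icc] at h
  push_cast at h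
  simpa only [one_div] using h

theorem sum_inv {M m : ℕ} (_hM : 1 ≤ M) (hm : m ∈ Ioc M (2 * M)) :
    ∑ n ∈ (Ioc M (2 * M)).filter (fun n => n ≠ m), 1 / |(m : ℝ) - n| ≤ 2 * (1 + Real.log M) := by
  have hmm := mem_Ioc.mp hm
  have e1 : (Ioc M (2 * M)).filter (fun n => n ≠ m) =
      (Ioc M (2 * M)).filter (fun n => n < m) ∪ (Ioc M (2 * M)).filter (fun n => m < n) := by
    ext n
    simp only [mem_filter, mem_union]
    constructor
    · rintro ⟨h1, h2⟩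
      rcases lt_or_gt_of_ne h2 with h | h
      · exact Or.inl ⟨h1, h⟩
      · exact Or.inr ⟨h1, h⟩
    · rintro (⟨h1, h2⟩ | ⟨h1, h2⟩)
      · exact ⟨h1, by omega⟩
      · exact ⟨h1, by omega⟩
  have hdis : Disjoint ((Ioc M (2 * M)).filter (fun n => n < m))
      ((Ioc M (2 * M)).filter (fun n => m < n)) := by
    rw [Finset.disjoint_left]
    intro n h1 h2
    rw [mem_filter] at h1 h2
    omega
  rw [e1, Finset.sum_union hdis]
  have h1 : ∑ n ∈ (Ioc M (2 * M)).filter (fun n => n < m), 1 / |(m : ℝ) - n| ≤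
      ∑ k ∈ Icc 1 M, 1 / (k : ℝ) := by
    have e2 : ∑ n ∈ (Ioc M (2 * M)).filter (fun n => n < m), 1 / |(m : ℝ) - n| =
        ∑ k ∈ ((Ioc M (2 * M)).filter (fun n => n < m)).image (fun n => m - n), 1 / (k : ℝ) := by
      rw [Finset.sum_image]
      · refine Finset.sum_congr rfl fun n hn => ?_
        rw [mem_filter] at hn
        rw [Nat.cast_sub hn.2.le, abs_of_pos]
        have : (n : ℝ) < m := by exact_mod_cast hn.2
        linarith
      · intro a ha b hb hab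
        simp only [coe_filter, Set.mem_ofPred_eq] at ha hb
        simp only at hab
        omega
    rw [e2]
    apply Finset.sum_le_sum_of_subset_of_nonneg
    · intro k hk
      rw [mem_image] at hk
      obtain ⟨n, hn, rfl⟩ := hk
      rw [mem_filter, mem_Ioc] at hn
      rw [mem_Icc]
      omega
    · intro k _ _
      positivity
  have h2 : ∑ n ∈ (Ioc M (2 * M)).filter (fun n => m < n), 1 / |(m : ℝ) - n| ≤
      ∑ k ∈ Icc 1 M, 1 / (k : ℝ) := by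
    have e2 : ∑ n ∈ (Ioc M (2 * M)).filter (fun n => m < n), 1 / |(m : ℝ) - n| =
        ∑ k ∈ ((Ioc M (2 * M)).filter (fun n => m < n)).image (fun n => n - m), 1 / (k : ℝ) := by
      rw [Finset.sum_image]
      · refine Finset.sum_congr rfl fun n hn => ?_
        rw [mem_filter] at hn
        rw [Nat.cast_sub hn.2.le, abs_sub_comm, abs_of_pos]
        have : (m : ℝ) < n := by exact_mod_cast hn.2
        linarith
      · intro a ha b hb hab
        simp only [coe_filter, Set.mem_ofPred_eq] at ha hb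
        simp only at hab
        omega
    rw [e2]
    apply Finset.sum_le_sum_of_subset_of_nonneg
    · intro k hk
      rw [mem_image] at hk
      obtain ⟨n, hn, rfl⟩ := hk
      rw [mem_filter, mem_Ioc] at hn
      rw [mem_Icc]
      omega
    · intro k _ _
      positivity
  have h3 := harm_le M
  linarith

theorem row {M m : ℕ} (hM : 1 ≤ M) {T : ℝ} (hT : 0 ≤ T) (hm : m ∈ Ioc M (2 * M)) :
    ∑ n ∈ Ioc M (2 * M), ‖ker T (Real.log m - Real.log n)‖ ≤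
      2 * T + 16 * M * (2 + Real.log M) := by
  have hlog : 0 ≤ Real.log M := Real.log_nonneg (by exact_mod_cast hM)
  have hM0 : (0 : ℝ) < M := by exact_mod_cast hM
  rw [← Finset.sum_filter_add_sum_filter_not (Ioc M (2 * M)) (fun n => n ≠ m)]
  have h1 : ∑ n ∈ (Ioc M (2 * M)).filter (fun n => n ≠ m),
      ‖ker T (Real.log m - Real.log n)‖ ≤ M * (2 * (1 + Real.log M)) := by
    calc ∑ n ∈ (Ioc M (2 * M)).filter (fun n => n ≠ m), ‖ker T (Real.log m - Real.log n)‖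
        ≤ ∑ n ∈ (Ioc M (2 * M)).filter (fun n => n ≠ m), M * (1 / |(m : ℝ) - n|) := by
          refine Finset.sum_le_sum fun n hn => ?_
          rw [mem_filter] at hn
          have hs := log_sep hm hn.1 (Ne.symm hn.2)
          have hmn : (m : ℝ) - n ≠ 0 := by
            rw [sub_ne_zero]
            exact_mod_cast Ne.symm hn.2
          have habs : 0 < |(m : ℝ) - n| := abs_pos.mpr hmn
          have hu : 0 < |Real.log m - Real.log n| := lt_of_lt_of_le (by positivity) hs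
          have hk := ker_le T (abs_pos.mp hu)
          refine hk.trans ?_
          calc 1 / (Real.pi * |Real.log m - Real.log n|) ≤
              1 / (Real.pi * (|(m : ℝ) - n| / (2 * M))) := by
                have := Real.pi_pos
                gcongr
            _ = 2 / Real.pi * (M * (1 / |(m : ℝ) - n|)) := by
                have := Real.pi_ne_zero
                field_simp
            _ ≤ 1 * (M * (1 / |(m : ℝ) - n|)) := by
                have h2 : 2 / Real.pi ≤ 1 := by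
                  rw [div_le_one Real.pi_pos]
                  exact Real.two_le_pi
                gcongr
            _ = _ := one_mul _
      _ = M * ∑ n ∈ (Ioc M (2 * M)).filter (fun n => n ≠ m), 1 / |(m : ℝ) - n| := by
          rw [Finset.mul_sum]
      _ ≤ M * (2 * (1 + Real.log M)) := by
          have := sum_inv hM hm
          gcongr
  have h2 : ∑ n ∈ (Ioc M (2 * M)).filter (fun n => ¬ n ≠ m),
      ‖ker T (Real.log m - Real.log n)‖ ≤ 2 * T := by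
    have e : (Ioc M (2 * M)).filter (fun n => ¬ n ≠ m) = {m} := by
      ext n
      simp only [mem_filter, mem_singleton, not_not, ne_eq]
      constructor
      · exact fun h => h.2
      · rintro rfl
        exact ⟨hm, rfl⟩
    rw [e, Finset.sum_singleton, sub_self]
    exact ker_zero hT
  have h3 : (M : ℝ) * (2 * (1 + Real.log M)) ≤ 16 * M * (2 + Real.log M) := by
    nlinarith [mul_nonneg hM0.le hlog]
  linarith

theorem ker_symm (T u : ℝ) : ‖ker T (-u)‖ = ‖ker T u‖ := by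
  have : ker T (-u) = ker T u := by
    unfold ker
    have h := intervalIntegral.integral_comp_neg (a := -T) (b := T) (fun t => ee (t * u))
    rw [neg_neg] at h
    rw [← h]
    congr 1
    ext t
    congr 1
    ring
  rw [this]

theorem expand (M : ℕ) (a : ℕ → ℂ) (T : ℝ) :
    ((∫ t in (-T)..T, ‖∑ m ∈ Ioc M (2 * M), a m * ee (t * Real.log (m : ℝ))‖ ^ 2 : ℝ) : ℂ) =
      ∑ m ∈ Ioc M (2 * M), ∑ n ∈ Ioc M (2 * M), a m * (starRingEnd ℂ) (a n) *
        ker T (Real.log m - Real.log n) := by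
  rw [← intervalIntegral.integral_ofReal]
  have h1 : ∀ t : ℝ, ((‖∑ m ∈ Ioc M (2 * M), a m * ee (t * Real.log (m : ℝ))‖ ^ 2 : ℝ) : ℂ) =
      ∑ m ∈ Ioc M (2 * M), ∑ n ∈ Ioc M (2 * M), a m * (starRingEnd ℂ) (a n) *
        ee (t * (Real.log m - Real.log n)) := by
    intro t
    rw [Complex.ofReal_pow, ← Complex.mul_conj', map_sum, Finset.sum_mul_sum]
    refine Finset.sum_congr rfl fun m _ => Finset.sum_congr rfl fun n _ => ?_
    rw [map_mul, mul_sub, ee_sub]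
    ring
  simp_rw [h1]
  rw [intervalIntegral.integral_finsetSum]
  · refine Finset.sum_congr rfl fun m _ => ?_
    rw [intervalIntegral.integral_finsetSum]
    · refine Finset.sum_congr rfl fun n _ => ?_
      rw [intervalIntegral.integral_const_mul]
      rfl
    · intro n _
      apply Continuous.intervalIntegrable
      exact continuous_const.mul (ee_continuous.comp (by fun_prop))
  · intro m _
    apply Continuous.intervalIntegrable
    apply continuous_finsetSum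
    intro n _
    exact continuous_const.mul (ee_continuous.comp (by fun_prop))

end MVaux

open MVaux in
theorem claimMV : ClaimMV := by
  intro M a T hM hT
  set I := ∫ t in (-T)..T, ‖∑ m ∈ Ioc M (2 * M), a m * ee (t * Real.log (m : ℝ))‖ ^ 2 with hI
  have hexp := expand M a T
  rw [← hI] at hexp
  have h0 : I ≤ ‖(I : ℂ)‖ := by
    rw [Complex.norm_real]
    exact le_abs_self _
  refine h0.trans ?_
  rw [hexp]
  calc ‖∑ m ∈ Ioc M (2 * M), ∑ n ∈ Ioc M (2 * M), a m * (starRingEnd ℂ) (a n) *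
        ker T (Real.log m - Real.log n)‖
      ≤ ∑ m ∈ Ioc M (2 * M), ∑ n ∈ Ioc M (2 * M),
        (‖a m‖ ^ 2 / 2 + ‖a n‖ ^ 2 / 2) * ‖ker T (Real.log m - Real.log n)‖ := by
        refine (norm_sum_le _ _).trans (Finset.sum_le_sum fun m _ => ?_)
        refine (norm_sum_le _ _).trans (Finset.sum_le_sum fun n _ => ?_)
        rw [norm_mul, norm_mul, RCLike.norm_conj]
        have : ‖a m‖ * ‖a n‖ ≤ ‖a m‖ ^ 2 / 2 + ‖a n‖ ^ 2 / 2 := by
          nlinarith [sq_nonneg (‖a m‖ - ‖a n‖)]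
        gcongr
    _ = ∑ m ∈ Ioc M (2 * M), ‖a m‖ ^ 2 *
        ∑ n ∈ Ioc M (2 * M), ‖ker T (Real.log m - Real.log n)‖ := by
        simp_rw [add_mul, Finset.sum_add_distrib, Finset.mul_sum]
        have e1 : ∑ m ∈ Ioc M (2 * M), ∑ n ∈ Ioc M (2 * M),
            ‖a n‖ ^ 2 / 2 * ‖ker T (Real.log m - Real.log n)‖ =
            ∑ m ∈ Ioc M (2 * M), ∑ n ∈ Ioc M (2 * M),
            ‖a m‖ ^ 2 / 2 * ‖ker T (Real.log m - Real.log n)‖ := by
          rw [Finset.sum_comm]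
          refine Finset.sum_congr rfl fun m _ => Finset.sum_congr rfl fun n _ => ?_
          rw [← ker_symm, neg_sub]
        rw [e1, ← Finset.sum_add_distrib]
        refine Finset.sum_congr rfl fun m _ => ?_
        rw [← Finset.sum_add_distrib]
        refine Finset.sum_congr rfl fun n _ => ?_
        ring
    _ ≤ ∑ m ∈ Ioc M (2 * M), ‖a m‖ ^ 2 * (2 * T + 16 * M * (2 + Real.log M)) := by
        refine Finset.sum_le_sum fun m hm => ?_
        have := row hM hT hm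
        gcongr
    _ = (2 * T + 16 * M * (2 + Real.log M)) * ∑ m ∈ Ioc M (2 * M), ‖a m‖ ^ 2 := by
        rw [← Finset.sum_mul]
        ring

end Pool.Agent.Work.MP_8e4d29_nt

end

section

/-!
MP_8e4d29_nt, item G6: the major arc evaluation.
-/

namespace Pool.Agent.Work.MP_8e4d29_nt.Major

open Finset
open Pool.Agent.Work.MP_122e00_nt (ee norm_ee ee_add ee_neg ee_one_period ee_nat_mul)

/-! ### the order of the parameters -/

theorem al_le_b (L : ℕ) : pal L ≤ pb L := Nat.le_add_right _ _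

theorem b_le_b1 {L : ℕ} (h : SizF L) : pb L ≤ pb1 L := by
  have := h.z15
  omega

theorem b1_le_h {L : ℕ} (h : SizF L) : pb1 L ≤ Nat.log 2 (pH L) := by
  have := h.z15b
  omega

theorem h_le_k0 (L : ℕ) : Nat.log 2 (pH L) ≤ pk0 L := Nat.le_add_right _ _

theorem k0_le {L : ℕ} (h : SizF L) : pk0 L ≤ pK L + 3 := by
  have := h.z17
  omega

theorem pBt_zero (L : ℕ) : pBt L 0 = pb L := by simp [pBt]

theorem al3_le_P (L : ℕ) : pal3 L ≤ pP L 0 := by
  unfold pal3 pP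
  rw [pBt_zero]
  exact Nat.log_mono_right (Nat.pow_le_pow_right (by norm_num) (al_le_b L))

theorem P_le_b13 {L : ℕ} (h : SizF L) : pP L 0 ≤ pb13 L := h.z16.le

theorem b13_le_j0 {L : ℕ} (h : SizF L) : pb13 L ≤ pj0 L := by
  have := h.z16'
  omega

theorem j0_le {L : ℕ} (h : SizF L) : pj0 L ≤ L + 1 := by
  have := h.z20'
  omega

/-! ### the pieces of the digit function -/

/-- constant part -/
def cst (L x : ℕ) : ℤ := (ds 2 (pk0 L) (pK L + 3) x : ℤ) - ds 3 (pj0 L) (L + 1) x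

/-- low digits -/
noncomputable def dlo (L n : ℕ) : ℤ := (ds 2 0 (pal L) n : ℤ) - ds 3 0 (pal3 L) n

/-- middle digits -/
noncomputable def dmi (L n : ℕ) : ℤ := (ds 2 (pal L) (pb L) n : ℤ) - ds 3 (pal3 L) (pP L 0) n

/-- digits in the gap -/
noncomputable def dga (L n : ℕ) : ℤ := (ds 2 (pb L) (pb1 L) n : ℤ) - ds 3 (pP L 0) (pb13 L) n

/-- high digits -/
noncomputable def dhi (L n : ℕ) : ℤ := (ds 2 (pb1 L) (pk0 L) n : ℤ) - ds 3 (pb13 L) (pj0 L) n

theorem add_pow_le {L x : ℕ} (h : SizF L) (hd : 3 ^ pj0 L ∣ x) (hx : x < 3 ^ (L + 1)) :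
    x + 3 ^ pj0 L ≤ 3 ^ (L + 1) := by
  obtain ⟨m, rfl⟩ := hd
  have h1 : 3 ^ (L + 1) = 3 ^ pj0 L * 3 ^ (L + 1 - pj0 L) := by
    rw [← pow_add]
    congr 1
    have := j0_le h
    omega
  rw [h1] at hx ⊢
  have h2 : m < 3 ^ (L + 1 - pj0 L) := lt_of_mul_lt_mul_left hx (Nat.zero_le _)
  calc 3 ^ pj0 L * m + 3 ^ pj0 L = 3 ^ pj0 L * (m + 1) := by ring
    _ ≤ 3 ^ pj0 L * 3 ^ (L + 1 - pj0 L) := Nat.mul_le_mul_left _ h2

/-- decomposition of `s_2 - s_3` on the interval -/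
theorem Dd_dec {L x n : ℕ} (h : SizF L) (hd : 3 ^ pj0 L ∣ x) (hx : x < 3 ^ (L + 1))
    (hm : x % 2 ^ pk0 L + 3 ^ pj0 L < 2 ^ pk0 L) (hn1 : x ≤ n) (hn2 : n < x + 3 ^ pj0 L) :
    Dd n = cst L x + (dlo L n + dmi L n + dga L n + dhi L n) := by
  have hN := add_pow_le h hd hx
  have hn3 : n < 3 ^ (L + 1) := by omega
  have hn4 : n < 2 ^ (pK L + 3) := by
    have h1 := h.z3'
    have h2 : 3 ^ (L + 1) = 3 * 3 ^ L := by ring
    have h3 : 2 ^ (pK L + 3) = 4 * 2 ^ (pK L + 1) := by ring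
    omega
  rw [Dd_eq hn4 hn3]
  obtain ⟨t, rfl⟩ := Nat.exists_eq_add_of_le hn1
  have ht : t < 3 ^ pj0 L := by omega
  have e2 : (x + t) / 2 ^ pk0 L = x / 2 ^ pk0 L := by
    have h1 : (x + t) = x % 2 ^ pk0 L + t + 2 ^ pk0 L * (x / 2 ^ pk0 L) := by
      have := Nat.mod_add_div x (2 ^ pk0 L)
      omega
    rw [h1, Nat.add_mul_div_left _ _ (by positivity), Nat.div_eq_of_lt (by omega), zero_add]
  have e3 : (x + t) / 3 ^ pj0 L = x / 3 ^ pj0 L := by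
    obtain ⟨m, rfl⟩ := hd
    rw [add_comm, Nat.add_mul_div_left _ _ (by positivity), Nat.div_eq_of_lt ht, zero_add,
      Nat.mul_div_cancel_left _ (by positivity)]
  have f2 : ds 2 0 (pK L + 3) (x + t) = ds 2 0 (pal L) (x + t) + ds 2 (pal L) (pb L) (x + t) +
      ds 2 (pb L) (pb1 L) (x + t) + ds 2 (pb1 L) (pk0 L) (x + t) +
      ds 2 (pk0 L) (pK L + 3) x := by
    have i1 := al_le_b L
    have i2 := b_le_b1 h
    have i3 := b1_le_h h
    have i4 := h_le_k0 L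
    have i5 := k0_le h
    rw [← ds_congr_div (b := 2) (lo := pk0 L) (hi := pK L + 3) e2]
    rw [ds_add 2 (Nat.zero_le (pal L)) (by omega : pal L ≤ pK L + 3),
      ds_add 2 (i1) (by omega : pb L ≤ pK L + 3),
      ds_add 2 (i2) (by omega : pb1 L ≤ pK L + 3),
      ds_add 2 (by omega : pb1 L ≤ pk0 L) (by omega : pk0 L ≤ pK L + 3)]
    ring
  have f3 : ds 3 0 (L + 1) (x + t) = ds 3 0 (pal3 L) (x + t) + ds 3 (pal3 L) (pP L 0) (x + t) +
      ds 3 (pP L 0) (pb13 L) (x + t) + ds 3 (pb13 L) (pj0 L) (x + t) +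
      ds 3 (pj0 L) (L + 1) x := by
    have i1 := al3_le_P L
    have i2 := P_le_b13 h
    have i3 := b13_le_j0 h
    have i4 := j0_le h
    rw [← ds_congr_div (b := 3) (lo := pj0 L) (hi := L + 1) e3]
    rw [ds_add 3 (Nat.zero_le (pal3 L)) (by omega : pal3 L ≤ L + 1),
      ds_add 3 (i1) (by omega : pP L 0 ≤ L + 1),
      ds_add 3 (i2) (by omega : pb13 L ≤ L + 1),
      ds_add 3 (i3) (by omega : pj0 L ≤ L + 1)]
    ring
  rw [f2, f3]
  unfold cst dlo dmi dga dhi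
  push_cast
  ring

/-! ### the weights for the averaging -/

/-- weights of the bits -/
noncomputable def wa (L : ℕ) (θ : ℝ) (i : ℕ) : ℝ :=
  if (pal L ≤ i ∧ i < pb L) ∨ pb1 L ≤ i then θ else 0

/-- weights of the trits -/
noncomputable def wa' (L : ℕ) (θ : ℝ) (i : ℕ) : ℝ :=
  if (pal3 L ≤ i ∧ i < pP L 0) ∨ pb13 L ≤ i then -θ else 0

theorem wd_two {a b c k n : ℕ} (β : ℕ) (t : ℝ) (h2 : b ≤ c) (h3 : c ≤ k)
    (w : ℕ → ℝ) (hw : ∀ i, w i = if (a ≤ i ∧ i < b) ∨ c ≤ i then t else 0) :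
    wd β w k n = t * ((ds β a b n : ℝ) + ds β c k n) := by
  unfold wd ds
  have key : ∀ i ∈ range k, w i * ((n / β ^ i % β : ℕ) : ℝ) =
      t * ((if i ∈ Ico a b then ((n / β ^ i % β : ℕ) : ℝ) else 0) +
        (if i ∈ Ico c k then ((n / β ^ i % β : ℕ) : ℝ) else 0)) := by
    intro i hi
    rw [mem_range] at hi
    rw [hw i]
    simp only [mem_Ico]
    by_cases c1 : a ≤ i ∧ i < b
    · have c2 : ¬ (c ≤ i ∧ i < k) := by omega
      rw [if_pos (Or.inl c1), if_pos c1, if_neg c2, add_zero]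
    · by_cases c2 : c ≤ i
      · have c3 : c ≤ i ∧ i < k := ⟨c2, hi⟩
        rw [if_pos (Or.inr c2), if_neg c1, if_pos c3, zero_add]
      · have c3 : ¬ (c ≤ i ∧ i < k) := fun h => c2 h.1
        have c4 : ¬ ((a ≤ i ∧ i < b) ∨ c ≤ i) := by tauto
        rw [if_neg c4, if_neg c1, if_neg c3, add_zero, mul_zero, zero_mul]
  rw [Finset.sum_congr rfl key, ← Finset.mul_sum, Finset.sum_add_distrib]
  congr 1
  have s1 : ∀ (u v : ℕ), v ≤ k → ∑ i ∈ range k, (if i ∈ Ico u v then ((n / β ^ i % β : ℕ) : ℝ)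
      else 0) = ∑ i ∈ Ico u v, ((n / β ^ i % β : ℕ) : ℝ) := by
    intro u v hv
    rw [← Finset.sum_filter]
    congr 1
    ext i
    simp only [mem_filter, mem_range, mem_Ico]
    omega
  rw [s1 a b (by omega), s1 c k le_rfl]
  push_cast
  rfl

theorem phase {L : ℕ} (h : SizF L) (θ : ℝ) (n : ℕ) :
    ee (wd 2 (wa L θ) (pk0 L) n + wd 3 (wa' L θ) (pj0 L) n) =
      ee (θ * (dmi L n : ℝ)) * ee (θ * (dhi L n : ℝ)) := by
  have h1 := wd_two (n := n) 2 θ (b_le_b1 h) ((b1_le_h h).trans (h_le_k0 L)) (wa L θ)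
    (fun i => rfl)
  have h2 := wd_two (n := n) 3 (-θ) (P_le_b13 h) (b13_le_j0 h) (wa' L θ)
    (fun i => rfl)
  rw [h1, h2, ← ee_add]
  congr 1
  unfold dmi dhi
  push_cast
  ring

/-! ### high digits in a short window -/

theorem dhi_add {L n u : ℕ} (h2 : n % 2 ^ pb1 L + pX L ≤ 2 ^ pb1 L)
    (h3 : n % 3 ^ pb13 L + pX L ≤ 3 ^ pb13 L) (hu : u < pX L) : dhi L (n + u) = dhi L n := by
  have key : ∀ m : ℕ, 0 < m → n % m + pX L ≤ m → (n + u) / m = n / m := by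
    intro m hm hh
    have h1 : n + u = n % m + u + m * (n / m) := by
      have := Nat.mod_add_div n m
      omega
    rw [h1, Nat.add_mul_div_left _ _ hm, Nat.div_eq_of_lt (by omega), zero_add]
  unfold dhi
  rw [ds_congr_div (b := 2) (lo := pb1 L) (hi := pk0 L) (key _ (by positivity) h2),
    ds_congr_div (b := 3) (lo := pb13 L) (hi := pj0 L) (key _ (by positivity) h3)]

/-! ### mass of the boundary -/

/-- the upper bound for primes in intervals -/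
def HBT (C : ℝ) (N0 : ℕ) : Prop := ∀ N x h : ℕ, N0 ≤ N → N ≤ x → x + h ≤ 32 * N →
  (N : ℝ) ^ ((52 : ℝ) / 100) ≤ h → ∑ n ∈ Ioc x (x + h), ArithmeticFunction.vonMangoldt n ≤ C * h

theorem hbt (h : ClaimBT) : ∃ (C : ℝ) (N0 : ℕ), 0 < C ∧ 1 ≤ N0 ∧ HBT C N0 := by
  obtain ⟨C, N0, hC, hb⟩ := h
  refine ⟨C, max N0 1, hC, le_max_right _ _, fun N x h hN hx hxh hh => ?_⟩
  have hN0 : N0 ≤ N := (le_max_left _ _).trans hN
  have hN1 : 1 ≤ N := (le_max_right _ _).trans hN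
  have h1 := hb N x h 1 0 0 hN0 hx hxh hh (Or.inl (by norm_num)) (by
    have : (1 : ℝ) ≤ (N : ℝ) := by exact_mod_cast hN1
    simpa using Real.one_le_rpow this (by norm_num : (0 : ℝ) ≤ 1 / 100)) (Nat.coprime_one_right 0)
  have h2 : (Ioc x (x + h)).filter (fun n => n % 1 = 0 % 1) = Ioc x (x + h) := by
    apply Finset.filter_true_of_mem
    intro n _
    simp [Nat.mod_one]
  rw [h2] at h1
  simpa using h1

theorem bdry {C : ℝ} {N0 : ℕ} (hC : 0 < C) (hB : HBT C N0) {N A H X m : ℕ} (hm : 0 < m)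
    (hXm : X ≤ m) (hN0 : N0 ≤ N) (hNA : N ≤ A) (hAH : A + H ≤ 4 * N) (hXN : X ≤ N)
    (hX : (N : ℝ) ^ ((52 : ℝ) / 100) ≤ X) :
    ∑ n ∈ (Ioc A (A + H)).filter (fun n => m < n % m + X), ArithmeticFunction.vonMangoldt n ≤
      C * X * ((H : ℝ) / m + 2) := by
  have hmaps : ∀ n ∈ (Ioc A (A + H)).filter (fun n => m < n % m + X),
      n / m ∈ Icc (A / m) ((A + H) / m) := by
    intro n hn
    rw [mem_filter, mem_Ioc] at hn
    rw [mem_Icc]
    exact ⟨Nat.div_le_div_right hn.1.1.le, Nat.div_le_div_right hn.1.2⟩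
  rw [← Finset.sum_fiberwise_of_maps_to hmaps]
  have hfib : ∀ j ∈ Icc (A / m) ((A + H) / m),
      ∑ n ∈ ((Ioc A (A + H)).filter (fun n => m < n % m + X)).filter (fun n => n / m = j),
        ArithmeticFunction.vonMangoldt n ≤ C * X := by
    intro j _
    rcases (((Ioc A (A + H)).filter (fun n => m < n % m + X)).filter
      (fun n => n / m = j)).eq_empty_or_nonempty with he | ⟨n0, hn0⟩
    · rw [he, Finset.sum_empty]
      positivity
    · rw [mem_filter, mem_filter, mem_Ioc] at hn0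
      obtain ⟨a, ha⟩ : ∃ a, a = max A (m * j + m - X) := ⟨_, rfl⟩
      have hdm := Nat.mod_add_div n0 m
      rw [hn0.2] at hdm
      have ha1 : a ≤ A + H := by
        rw [ha]
        apply max_le (by omega)
        omega
      have h1 := hB N a X hN0 (by rw [ha]; exact hNA.trans (le_max_left _ _)) (by omega) hX
      refine le_trans ?_ h1
      apply Finset.sum_le_sum_of_subset_of_nonneg
      · intro n hn
        rw [mem_filter, mem_filter, mem_Ioc] at hn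
        rw [mem_Ioc]
        have hdn := Nat.mod_add_div n m
        rw [hn.2] at hdn
        have hlt := Nat.mod_lt n hm
        constructor
        · rw [ha]
          apply max_lt hn.1.1.1
          omega
        · have : m * j + m - X ≤ a := by rw [ha]; exact le_max_right _ _
          omega
      · intro n _ _
        exact ArithmeticFunction.vonMangoldt_nonneg
  refine (Finset.sum_le_sum hfib).trans ?_
  rw [Finset.sum_const, nsmul_eq_mul, Nat.card_Icc]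
  have hm' : (0 : ℝ) < m := by exact_mod_cast hm
  have hcard : (((A + H) / m + 1 - A / m : ℕ) : ℝ) ≤ (H : ℝ) / m + 2 := by
    have h1 : A / m ≤ (A + H) / m := Nat.div_le_div_right (by omega)
    rw [Nat.cast_sub (by omega)]
    push_cast
    have h2 : (((A + H) / m : ℕ) : ℝ) ≤ ((A + H : ℕ) : ℝ) / m := Nat.cast_div_le
    have h3 : (A : ℝ) / m < ((A / m : ℕ) : ℝ) + 1 := by
      rw [div_lt_iff₀ hm']
      have := Nat.lt_div_mul_add (a := A) hm
      have h4 : (A : ℝ) < ((A / m * m + m : ℕ) : ℝ) := by exact_mod_cast this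
      push_cast at h4
      linarith
    have h4 : ((A + H : ℕ) : ℝ) / m = (A : ℝ) / m + (H : ℝ) / m := by
      push_cast
      ring
    rw [h4] at h2
    linarith
  rw [mul_comm]
  gcongr

/-! ### the main estimate -/

theorem ee_sub_ee_le (a b : ℝ) : ‖ee a - ee b‖ ≤ 2 * Real.pi * |a - b| := by
  have h1 : ee a - ee b = ee b * (ee (a - b) - 1) := by
    rw [mul_sub, ← ee_add, mul_one]
    congr 2
    ring
  rw [h1, norm_mul, norm_ee, one_mul]
  refine (norm_ee_sub_one_le _).trans ?_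
  have := nd_le_abs (a - b)
  have := Real.pi_pos
  gcongr

theorem avg_le_one (X : ℕ) (F : ℕ → ℂ) (hF : ∀ u, ‖F u‖ ≤ 1) :
    ‖1 / (X : ℂ) * ∑ u ∈ range X, F u‖ ≤ 1 := by
  rcases Nat.eq_zero_or_pos X with h | h
  · subst h; simp
  have hX : (0 : ℝ) < X := by exact_mod_cast h
  rw [norm_mul, norm_div, norm_one, Complex.norm_natCast]
  have h1 : ‖∑ u ∈ range X, F u‖ ≤ X := by
    refine (norm_sum_le _ _).trans ?_
    calc ∑ u ∈ range X, ‖F u‖ ≤ ∑ _u ∈ range X, (1 : ℝ) := Finset.sum_le_sum fun u _ => hF u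
      _ = X := by simp
  calc 1 / (X : ℝ) * ‖∑ u ∈ range X, F u‖ ≤ 1 / (X : ℝ) * X := by gcongr
    _ = 1 := by field_simp

theorem main_est {L x : ℕ} (h : SizF L) (hd : 3 ^ pj0 L ∣ x) (hx : x < 3 ^ (L + 1))
    (hm : x % 2 ^ pk0 L + 3 ^ pj0 L < 2 ^ pk0 L) (θ : ℝ) (ea e1 : ℤ) (ch : ℂ)
    (Tm B2 B3 δ M R : ℝ)
    (hT : ∑ n ∈ Ico x (x + 3 ^ pj0 L), ArithmeticFunction.vonMangoldt n ≤ Tm)
    (hB2 : ∑ n ∈ (Ico x (x + 3 ^ pj0 L)).filter (fun n => 2 ^ pb1 L < n % 2 ^ pb1 L + pX L),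
      ArithmeticFunction.vonMangoldt n ≤ B2)
    (hB3 : ∑ n ∈ (Ico x (x + 3 ^ pj0 L)).filter (fun n => 3 ^ pb13 L < n % 3 ^ pb13 L + pX L),
      ArithmeticFunction.vonMangoldt n ≤ B3)
    (hA : ‖∑ n ∈ Ico x (x + 3 ^ pj0 L), (ArithmeticFunction.vonMangoldt n : ℂ) *
      (ee (θ * (dmi L n : ℝ)) * ee (θ * (dhi L n : ℝ)) - 1 / (pX L : ℂ) *
        ∑ u ∈ range (pX L), ee (θ * (dmi L (n + u) : ℝ)) * ee (θ * (dhi L (n + u) : ℝ)))‖ ≤ R)
    (hδ : 0 ≤ δ)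
    (hMid : ∀ n0 : ℕ, ‖1 / (pX L : ℂ) * ∑ u ∈ range (pX L), ee (θ * (dmi L (n0 + u) : ℝ)) -
      ee (θ * e1) * ch‖ ≤ δ)
    (hM : ∑ n ∈ Ico x (x + 3 ^ pj0 L), ArithmeticFunction.vonMangoldt n *
      |((dlo L n + dga L n - ea : ℤ) : ℝ)| ≤ M) :
    ‖∑ n ∈ Ico x (x + 3 ^ pj0 L), (ArithmeticFunction.vonMangoldt n : ℂ) * ff θ n -
        ch * ∑ n ∈ Ico x (x + 3 ^ pj0 L), (ArithmeticFunction.vonMangoldt n : ℂ) *
          ee (θ * ((cst L x + ea + e1 + dhi L n : ℤ) : ℝ))‖ ≤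
      2 * Real.pi * |θ| * M + R + 2 * (B2 + B3) + δ * Tm := by
  obtain ⟨I, hI⟩ : ∃ I, I = Ico x (x + 3 ^ pj0 L) := ⟨_, rfl⟩
  rw [← hI] at hT hB2 hB3 hA hM ⊢
  have hΛ : ∀ n : ℕ, 0 ≤ ArithmeticFunction.vonMangoldt n := fun n =>
    ArithmeticFunction.vonMangoldt_nonneg
  have hΛn : ∀ n : ℕ, ‖(ArithmeticFunction.vonMangoldt n : ℂ)‖ = ArithmeticFunction.vonMangoldt n :=
    fun n => by rw [Complex.norm_real, Real.norm_of_nonneg (hΛ n)]
  obtain ⟨c0, hc0⟩ : ∃ c0, c0 = ee (θ * ((cst L x + ea : ℤ) : ℝ)) := ⟨_, rfl⟩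
  have hc0n : ‖c0‖ = 1 := by rw [hc0, norm_ee]
  -- the four sums
  obtain ⟨S0, hS0⟩ : ∃ S0, S0 = ∑ n ∈ I, (ArithmeticFunction.vonMangoldt n : ℂ) * ff θ n :=
    ⟨_, rfl⟩
  obtain ⟨S1, hS1⟩ : ∃ S1, S1 = ∑ n ∈ I, (ArithmeticFunction.vonMangoldt n : ℂ) *
    (ee (θ * (dmi L n : ℝ)) * ee (θ * (dhi L n : ℝ))) := ⟨_, rfl⟩
  obtain ⟨S2, hS2⟩ : ∃ S2, S2 = ∑ n ∈ I, (ArithmeticFunction.vonMangoldt n : ℂ) *
    (1 / (pX L : ℂ) * ∑ u ∈ range (pX L), ee (θ * (dmi L (n + u) : ℝ)) *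
      ee (θ * (dhi L (n + u) : ℝ))) := ⟨_, rfl⟩
  obtain ⟨S3, hS3⟩ : ∃ S3, S3 = ∑ n ∈ I, (ArithmeticFunction.vonMangoldt n : ℂ) *
    (ee (θ * (dhi L n : ℝ)) * (1 / (pX L : ℂ) * ∑ u ∈ range (pX L),
      ee (θ * (dmi L (n + u) : ℝ)))) := ⟨_, rfl⟩
  obtain ⟨S4, hS4⟩ : ∃ S4, S4 = ∑ n ∈ I, (ArithmeticFunction.vonMangoldt n : ℂ) *
    (ee (θ * (dhi L n : ℝ)) * (ee (θ * e1) * ch)) := ⟨_, rfl⟩
  have E1 : ‖S0 - c0 * S1‖ ≤ 2 * Real.pi * |θ| * M := by
    rw [hS0, hS1, Finset.mul_sum, ← Finset.sum_sub_distrib]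
    refine (norm_sum_le _ _).trans ?_
    have h1 : ∀ n ∈ I, ‖(ArithmeticFunction.vonMangoldt n : ℂ) * ff θ n -
        c0 * ((ArithmeticFunction.vonMangoldt n : ℂ) *
          (ee (θ * (dmi L n : ℝ)) * ee (θ * (dhi L n : ℝ))))‖ ≤
        2 * Real.pi * |θ| * (ArithmeticFunction.vonMangoldt n *
          |((dlo L n + dga L n - ea : ℤ) : ℝ)|) := by
      intro n hn
      rw [hI, mem_Ico] at hn
      have e1 : ff θ n = ee (θ * ((cst L x + (dlo L n + dmi L n + dga L n + dhi L n) : ℤ) : ℝ)) := by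
        rw [ff, Dd_dec h hd hx hm hn.1 hn.2]
      have e2 : (ArithmeticFunction.vonMangoldt n : ℂ) * ff θ n -
        c0 * ((ArithmeticFunction.vonMangoldt n : ℂ) *
          (ee (θ * (dmi L n : ℝ)) * ee (θ * (dhi L n : ℝ)))) =
          (ArithmeticFunction.vonMangoldt n : ℂ) *
          (ee (θ * ((cst L x + (dlo L n + dmi L n + dga L n + dhi L n) : ℤ) : ℝ)) -
            ee (θ * ((cst L x + ea : ℤ) : ℝ) + (θ * (dmi L n : ℝ) + θ * (dhi L n : ℝ)))) := by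
        rw [e1, hc0, ee_add, ee_add]
        ring
      rw [e2, norm_mul, hΛn]
      have e3 := ee_sub_ee_le (θ * ((cst L x + (dlo L n + dmi L n + dga L n + dhi L n) : ℤ) : ℝ))
        (θ * ((cst L x + ea : ℤ) : ℝ) + (θ * (dmi L n : ℝ) + θ * (dhi L n : ℝ)))
      have e4 : θ * ((cst L x + (dlo L n + dmi L n + dga L n + dhi L n) : ℤ) : ℝ) -
          (θ * ((cst L x + ea : ℤ) : ℝ) + (θ * (dmi L n : ℝ) + θ * (dhi L n : ℝ))) =
          θ * ((dlo L n + dga L n - ea : ℤ) : ℝ) := by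
        push_cast
        ring
      rw [e4, abs_mul] at e3
      calc ArithmeticFunction.vonMangoldt n * _ ≤ ArithmeticFunction.vonMangoldt n *
            (2 * Real.pi * (|θ| * |((dlo L n + dga L n - ea : ℤ) : ℝ)|)) :=
            mul_le_mul_of_nonneg_left e3 (hΛ n)
        _ = _ := by ring
    refine (Finset.sum_le_sum h1).trans ?_
    rw [← Finset.mul_sum]
    have := Real.pi_pos
    gcongr
  have E2 : ‖S1 - S2‖ ≤ R := by
    rw [hS1, hS2, ← Finset.sum_sub_distrib]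
    simp only [← mul_sub]
    exact hA
  have E3 : ‖S2 - S3‖ ≤ 2 * (B2 + B3) := by
    rw [hS2, hS3, ← Finset.sum_sub_distrib]
    refine (norm_sum_le _ _).trans ?_
    have h1 : ∀ n ∈ I, ‖(ArithmeticFunction.vonMangoldt n : ℂ) *
        (1 / (pX L : ℂ) * ∑ u ∈ range (pX L), ee (θ * (dmi L (n + u) : ℝ)) *
          ee (θ * (dhi L (n + u) : ℝ))) - (ArithmeticFunction.vonMangoldt n : ℂ) *
        (ee (θ * (dhi L n : ℝ)) * (1 / (pX L : ℂ) * ∑ u ∈ range (pX L),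
          ee (θ * (dmi L (n + u) : ℝ))))‖ ≤
        2 * ((if 2 ^ pb1 L < n % 2 ^ pb1 L + pX L then ArithmeticFunction.vonMangoldt n else 0) +
          (if 3 ^ pb13 L < n % 3 ^ pb13 L + pX L then ArithmeticFunction.vonMangoldt n else 0)) := by
      intro n _
      rw [← mul_sub, norm_mul, hΛn]
      by_cases hbad : 2 ^ pb1 L < n % 2 ^ pb1 L + pX L ∨ 3 ^ pb13 L < n % 3 ^ pb13 L + pX L
      · have h2 : ‖1 / (pX L : ℂ) * ∑ u ∈ range (pX L), ee (θ * (dmi L (n + u) : ℝ)) *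
            ee (θ * (dhi L (n + u) : ℝ)) - ee (θ * (dhi L n : ℝ)) * (1 / (pX L : ℂ) *
            ∑ u ∈ range (pX L), ee (θ * (dmi L (n + u) : ℝ)))‖ ≤ 2 := by
          refine (norm_sub_le _ _).trans ?_
          have a1 := avg_le_one (pX L) (fun u => ee (θ * (dmi L (n + u) : ℝ)) *
            ee (θ * (dhi L (n + u) : ℝ))) (fun u => by rw [norm_mul, norm_ee, norm_ee, one_mul])
          have a2 := avg_le_one (pX L) (fun u => ee (θ * (dmi L (n + u) : ℝ)))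
            (fun u => by rw [norm_ee])
          rw [norm_mul (ee (θ * (dhi L n : ℝ))), norm_ee, one_mul]
          linarith
        have h3 : ArithmeticFunction.vonMangoldt n ≤
            (if 2 ^ pb1 L < n % 2 ^ pb1 L + pX L then ArithmeticFunction.vonMangoldt n else 0) +
            (if 3 ^ pb13 L < n % 3 ^ pb13 L + pX L then ArithmeticFunction.vonMangoldt n else 0) := by
          have := hΛ n
          rcases hbad with hb | hb
          · rw [if_pos hb]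
            split_ifs <;> linarith
          · rw [if_pos hb]
            split_ifs <;> linarith
        calc ArithmeticFunction.vonMangoldt n * _ ≤ ArithmeticFunction.vonMangoldt n * 2 :=
              mul_le_mul_of_nonneg_left h2 (hΛ n)
          _ ≤ _ := by linarith
      · push Not at hbad
        have h2 : 1 / (pX L : ℂ) * ∑ u ∈ range (pX L), ee (θ * (dmi L (n + u) : ℝ)) *
            ee (θ * (dhi L (n + u) : ℝ)) - ee (θ * (dhi L n : ℝ)) * (1 / (pX L : ℂ) *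
            ∑ u ∈ range (pX L), ee (θ * (dmi L (n + u) : ℝ))) = 0 := by
          have h4 : ∑ u ∈ range (pX L), ee (θ * (dmi L (n + u) : ℝ)) *
              ee (θ * (dhi L (n + u) : ℝ)) = (∑ u ∈ range (pX L), ee (θ * (dmi L (n + u) : ℝ))) *
              ee (θ * (dhi L n : ℝ)) := by
            rw [Finset.sum_mul]
            refine Finset.sum_congr rfl fun u hu => ?_
            rw [dhi_add hbad.1 hbad.2 (mem_range.mp hu)]
          rw [h4]
          ring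
        rw [h2, norm_zero, mul_zero]
        have := hΛ n
        split_ifs <;> linarith
    refine (Finset.sum_le_sum h1).trans ?_
    rw [← Finset.mul_sum, Finset.sum_add_distrib, ← Finset.sum_filter, ← Finset.sum_filter]
    linarith
  have E4 : ‖S3 - S4‖ ≤ δ * Tm := by
    rw [hS3, hS4, ← Finset.sum_sub_distrib]
    refine (norm_sum_le _ _).trans ?_
    have h1 : ∀ n ∈ I, ‖(ArithmeticFunction.vonMangoldt n : ℂ) *
        (ee (θ * (dhi L n : ℝ)) * (1 / (pX L : ℂ) * ∑ u ∈ range (pX L),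
          ee (θ * (dmi L (n + u) : ℝ)))) - (ArithmeticFunction.vonMangoldt n : ℂ) *
        (ee (θ * (dhi L n : ℝ)) * (ee (θ * e1) * ch))‖ ≤ δ * ArithmeticFunction.vonMangoldt n := by
      intro n _
      rw [← mul_sub, ← mul_sub, norm_mul, norm_mul, norm_ee, one_mul, hΛn, mul_comm]
      exact mul_le_mul_of_nonneg_right (hMid n) (hΛ n)
    refine (Finset.sum_le_sum h1).trans ?_
    rw [← Finset.mul_sum]
    gcongr
  have E5 : c0 * S4 = ch * ∑ n ∈ I, (ArithmeticFunction.vonMangoldt n : ℂ) *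
      ee (θ * ((cst L x + ea + e1 + dhi L n : ℤ) : ℝ)) := by
    rw [hS4, Finset.mul_sum, Finset.mul_sum]
    refine Finset.sum_congr rfl fun n _ => ?_
    have h1 : θ * ((cst L x + ea + e1 + dhi L n : ℤ) : ℝ) = θ * ((cst L x + ea : ℤ) : ℝ) +
        (θ * (dhi L n : ℝ) + θ * e1) := by
      push_cast
      ring
    rw [h1, ee_add, ee_add, hc0]
    ring
  rw [← hS0, ← E5]
  have h6 : S0 - c0 * S4 = (S0 - c0 * S1) + c0 * ((S1 - S2) + (S2 - S3) + (S3 - S4)) := by ring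
  rw [h6]
  refine (norm_add_le _ _).trans ?_
  rw [norm_mul, hc0n, one_mul]
  have h7 : ‖(S1 - S2) + (S2 - S3) + (S3 - S4)‖ ≤ R + 2 * (B2 + B3) + δ * Tm :=
    (norm_add_le _ _).trans (add_le_add ((norm_add_le _ _).trans (add_le_add E2 E3)) E4)
  linarith

/-! ### second moments -/

/-- the second moment bound -/
def HMom (C : ℝ) (N0 : ℕ) : Prop := ∀ N A H b lo hi : ℕ, N0 ≤ N → N ≤ A →
  A + H ≤ 4 * N → (N : ℝ) ^ ((77 : ℝ) / 100) ≤ H → (b = 2 ∨ b = 3) → lo ≤ hi → b ^ hi ≤ H →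
  ((N : ℝ) ^ ((53 : ℝ) / 100) ≤ (b : ℝ) ^ lo ∨
    (lo = 0 ∧ (b : ℝ) ^ hi ≤ (N : ℝ) ^ ((1 : ℝ) / 100))) →
  ∑ n ∈ Ioc A (A + H), ArithmeticFunction.vonMangoldt n *
    ((ds b lo hi n : ℝ) - ((hi : ℝ) - lo) * ((b : ℝ) - 1) / 2) ^ 2 ≤ C * H * ((hi : ℝ) - lo + 1)

theorem Ico_eq_Ioc {x H : ℕ} (hx : 1 ≤ x) : Ico x (x + H) = Ioc (x - 1) (x - 1 + H) := by
  ext n
  rw [mem_Ico, mem_Ioc]
  omega

theorem L_lt (L : ℕ) : L < 3 ^ L := Nat.lt_pow_self (by norm_num)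

theorem base {L x : ℕ} (h : SizF L) (hL : 1 ≤ L) (hd : 3 ^ pj0 L ∣ x) (hx1 : 3 ^ L ≤ x)
    (hx : x < 3 ^ (L + 1)) : 3 ^ L - 1 ≤ x - 1 ∧ x - 1 + 3 ^ pj0 L ≤ 4 * (3 ^ L - 1) ∧
      1 ≤ x ∧ 3 ≤ 3 ^ L := by
  have h1 := add_pow_le h hd hx
  have h2 : 3 ^ (L + 1) = 3 * 3 ^ L := by ring
  have h3 : 3 ≤ 3 ^ L := by
    calc 3 = 3 ^ 1 := by norm_num
      _ ≤ 3 ^ L := Nat.pow_le_pow_right (by norm_num) hL
  refine ⟨?_, ?_, ?_, h3⟩ <;> omega

theorem pred_rpow (L : ℕ) (a : ℝ) (ha : 0 ≤ a) :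
    ((3 ^ L - 1 : ℕ) : ℝ) ^ a ≤ ((3 ^ L : ℕ) : ℝ) ^ a := by
  apply Real.rpow_le_rpow (Nat.cast_nonneg _) _ ha
  exact_mod_cast Nat.sub_le _ _

theorem mom {L x : ℕ} {C : ℝ} {N0 : ℕ} (hM : HMom C N0) (h : SizF L) (hL : 1 ≤ L) (hLN : N0 ≤ L)
    (hd : 3 ^ pj0 L ∣ x) (hx1 : 3 ^ L ≤ x) (hx : x < 3 ^ (L + 1)) (b lo hi : ℕ)
    (hb : b = 2 ∨ b = 3) (hlo : lo ≤ hi) (hhi : b ^ hi ≤ 3 ^ pj0 L)
    (hc : ((3 ^ L : ℕ) : ℝ) ^ ((53 : ℝ) / 100) ≤ (b : ℝ) ^ lo ∨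
      (lo = 0 ∧ (b : ℝ) ^ hi ≤ ((3 ^ L : ℕ) : ℝ) ^ ((1 : ℝ) / 1000))) :
    ∑ n ∈ Ico x (x + 3 ^ pj0 L), ArithmeticFunction.vonMangoldt n *
      ((ds b lo hi n : ℝ) - ((hi : ℝ) - lo) * ((b : ℝ) - 1) / 2) ^ 2 ≤
      C * 3 ^ pj0 L * ((hi : ℝ) - lo + 1) := by
  obtain ⟨h1, h2, h3, h4⟩ := base h hL hd hx1 hx
  rw [Ico_eq_Ioc h3]
  have h5 := L_lt L
  have key := hM (3 ^ L - 1) (x - 1) (3 ^ pj0 L) b lo hi (by omega) h1 h2
    ((pred_rpow L _ (by norm_num)).trans h.z4) hb hlo hhi ?_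
  · push_cast at key
    exact key
  · rcases hc with hc | ⟨hc1, hc2⟩
    · left
      exact (pred_rpow L _ (by norm_num)).trans hc
    · right
      refine ⟨hc1, hc2.trans ?_⟩
      obtain ⟨m, hm⟩ : ∃ m : ℕ, m = 3 ^ L - 1 := ⟨_, rfl⟩
      have hm2 : 2 ≤ m := by omega
      have hm3 : 3 ^ L = m + 1 := by omega
      rw [hm3]
      rw [hm3] at hm
      simp only [Nat.add_sub_cancel]
      have hmr : (2 : ℝ) ≤ m := by exact_mod_cast hm2
      have e1 : ((m + 1 : ℕ) : ℝ) ≤ (m : ℝ) ^ (2 : ℝ) := by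
        rw [Real.rpow_two]
        push_cast
        nlinarith
      calc ((m + 1 : ℕ) : ℝ) ^ ((1 : ℝ) / 1000) ≤ ((m : ℝ) ^ (2 : ℝ)) ^ ((1 : ℝ) / 1000) := by
            apply Real.rpow_le_rpow (by positivity) e1 (by norm_num)
        _ = (m : ℝ) ^ ((2 : ℝ) * (1 / 1000)) := by
            rw [← Real.rpow_mul (by positivity)]
        _ ≤ (m : ℝ) ^ ((1 : ℝ) / 100) := by
            apply Real.rpow_le_rpow_of_exponent_le (by linarith) (by norm_num)

theorem al3_le_al (L : ℕ) : pal3 L ≤ pal L := by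
  unfold pal3
  have h1 : 3 ^ Nat.log 3 (2 ^ pal L) ≤ 2 ^ pal L := Nat.pow_log_le_self 3 (by positivity)
  have h2 : 2 ^ Nat.log 3 (2 ^ pal L) ≤ 3 ^ Nat.log 3 (2 ^ pal L) :=
    Nat.pow_le_pow_left (by norm_num) _
  exact (Nat.pow_le_pow_iff_right (by norm_num)).mp (h2.trans h1)

theorem b13_le {L : ℕ} (h : SizF L) : pb13 L ≤ pP L 0 + (pb1 L - pb L) + 1 := by
  unfold pb13 pP
  rw [pBt_zero]
  have h1 : 3 ^ Nat.log 3 (2 ^ pb1 L) ≤ 2 ^ pb1 L := Nat.pow_log_le_self 3 (by positivity)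
  have h2 : 2 ^ pb L < 3 ^ (Nat.log 3 (2 ^ pb L) + 1) := Nat.lt_pow_succ_log_self (by norm_num) _
  have h3 : 2 ^ pb1 L = 2 ^ pb L * 2 ^ (pb1 L - pb L) := by
    rw [← pow_add]
    congr 1
    have := b_le_b1 h
    omega
  have h4 : 2 ^ (pb1 L - pb L) ≤ 3 ^ (pb1 L - pb L) := Nat.pow_le_pow_left (by norm_num) _
  have h5 : 3 ^ Nat.log 3 (2 ^ pb1 L) < 3 ^ (Nat.log 3 (2 ^ pb L) + 1 + (pb1 L - pb L)) := by
    calc 3 ^ Nat.log 3 (2 ^ pb1 L) ≤ 2 ^ pb L * 2 ^ (pb1 L - pb L) := h3 ▸ h1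
      _ ≤ 2 ^ pb L * 3 ^ (pb1 L - pb L) := Nat.mul_le_mul_left _ h4
      _ < 3 ^ (Nat.log 3 (2 ^ pb L) + 1) * 3 ^ (pb1 L - pb L) :=
          Nat.mul_lt_mul_of_pos_right h2 (by positivity)
      _ = 3 ^ (Nat.log 3 (2 ^ pb L) + 1 + (pb1 L - pb L)) := by rw [← pow_add]
  have h6 := (Nat.pow_lt_pow_iff_right (by norm_num)).mp h5
  omega

/-- mean of the low digits and of the digits in the gap -/
noncomputable def M1 (L : ℕ) : ℝ :=
  (pal L : ℝ) / 2 - pal3 L + ((pb1 L : ℝ) - pb L) / 2 - ((pb13 L : ℝ) - pP L 0)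

theorem sq4 (a b c d : ℝ) : (a - b + c - d) ^ 2 ≤ 4 * (a ^ 2 + b ^ 2 + c ^ 2 + d ^ 2) := by
  nlinarith [sq_nonneg (a + b), sq_nonneg (a - c), sq_nonneg (a + d), sq_nonneg (b + c),
    sq_nonneg (b - d), sq_nonneg (c + d)]

theorem pal_pos {L : ℕ} (h : SizF L) : 1 ≤ pal L := by
  have h1 := h.z10
  have h2 := h.z10'
  omega

theorem low_sq {L x : ℕ} {C : ℝ} {N0 : ℕ} (hM : HMom C N0) (hC : 0 < C) (h : SizF L) (hL : 1 ≤ L)
    (hLN : N0 ≤ L) (hd : 3 ^ pj0 L ∣ x) (hx1 : 3 ^ L ≤ x) (hx : x < 3 ^ (L + 1)) :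
    ∑ n ∈ Ico x (x + 3 ^ pj0 L), ArithmeticFunction.vonMangoldt n *
      (((dlo L n + dga L n : ℤ) : ℝ) - M1 L) ^ 2 ≤ 96 * C * 3 ^ pj0 L * pal L := by
  have hal := pal_pos h
  have hal' : (1 : ℝ) ≤ pal L := by exact_mod_cast hal
  have g1 := h.z15'
  have g2 := b_le_b1 h
  have g3 := b13_le h
  have g4 := P_le_b13 h
  have g5 := al3_le_al L
  have hpow : ∀ k : ℕ, k ≤ Nat.log 2 (pH L) → 2 ^ k ≤ 3 ^ pj0 L := by
    intro k hk
    have : 2 ^ Nat.log 2 (pH L) ≤ pH L := Nat.pow_log_le_self 2 (by unfold pH; positivity)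
    exact (Nat.pow_le_pow_right (by norm_num) hk).trans this
  have m1 := mom hM h hL hLN hd hx1 hx 2 0 (pal L) (Or.inl rfl) (Nat.zero_le _)
    (hpow _ ((al_le_b L).trans (g2.trans (b1_le_h h)))) (Or.inr ⟨rfl, by exact_mod_cast h.z8⟩)
  have m2 := mom hM h hL hLN hd hx1 hx 3 0 (pal3 L) (Or.inr rfl) (Nat.zero_le _)
    (Nat.pow_le_pow_right (by norm_num) ((al3_le_P L).trans (g4.trans (b13_le_j0 h))))
    (Or.inr ⟨rfl, by
      refine le_trans ?_ h.z8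
      have : 3 ^ pal3 L ≤ 2 ^ pal L := Nat.pow_log_le_self 3 (by positivity)
      exact_mod_cast this⟩)
  have m3 := mom hM h hL hLN hd hx1 hx 2 (pb L) (pb1 L) (Or.inl rfl) g2
    (hpow _ (b1_le_h h)) (Or.inl (by
      refine le_trans ?_ h.z19
      apply Real.rpow_le_rpow_of_exponent_le _ (by norm_num)
      have : 1 ≤ 3 ^ L := Nat.one_le_pow _ _ (by norm_num)
      exact_mod_cast this))
  have m4 := mom hM h hL hLN hd hx1 hx 3 (pP L 0) (pb13 L) (Or.inr rfl) g4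
    (Nat.pow_le_pow_right (by norm_num) (b13_le_j0 h)) (Or.inl h.z19')
  obtain ⟨T, hT⟩ : ∃ T, T = ∑ n ∈ Ico x (x + 3 ^ pj0 L), ArithmeticFunction.vonMangoldt n *
      (((dlo L n + dga L n : ℤ) : ℝ) - M1 L) ^ 2 := ⟨_, rfl⟩
  have hsum : T ≤ 4 * (C * 3 ^ pj0 L * (((pal L : ℕ) : ℝ) - ((0 : ℕ) : ℝ) + 1) +
      C * 3 ^ pj0 L * (((pal3 L : ℕ) : ℝ) - ((0 : ℕ) : ℝ) + 1) +
      C * 3 ^ pj0 L * (((pb1 L : ℕ) : ℝ) - pb L + 1) +
      C * 3 ^ pj0 L * (((pb13 L : ℕ) : ℝ) - pP L 0 + 1)) := by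
    rw [hT]
    refine le_trans ?_ (mul_le_mul_of_nonneg_left
      (add_le_add (add_le_add (add_le_add m1 m2) m3) m4) (by norm_num))
    rw [← Finset.sum_add_distrib, ← Finset.sum_add_distrib, ← Finset.sum_add_distrib,
      Finset.mul_sum]
    refine Finset.sum_le_sum fun n _ => ?_
    rw [← mul_add, ← mul_add, ← mul_add, mul_left_comm]
    apply mul_le_mul_of_nonneg_left _ ArithmeticFunction.vonMangoldt_nonneg
    refine le_trans (le_of_eq ?_) (sq4 _ _ _ _)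
    congr 1
    unfold M1 dlo dga
    push_cast
    ring
  rw [← hT]
  have k1 : ((pal3 L : ℕ) : ℝ) ≤ pal L := by exact_mod_cast g5
  have k2 : ((pb1 L : ℕ) : ℝ) ≤ pb L + 3 * pal L := by exact_mod_cast g1
  have k3 : ((pb13 L : ℕ) : ℝ) ≤ pP L 0 + 3 * pal L + 1 := by
    have : pb13 L ≤ pP L 0 + 3 * pal L + 1 := by omega
    exact_mod_cast this
  have hpos : (0 : ℝ) < C * 3 ^ pj0 L := by positivity
  have e1 : 4 * (C * 3 ^ pj0 L * (((pal L : ℕ) : ℝ) - ((0 : ℕ) : ℝ) + 1) +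
      C * 3 ^ pj0 L * (((pal3 L : ℕ) : ℝ) - ((0 : ℕ) : ℝ) + 1) +
      C * 3 ^ pj0 L * (((pb1 L : ℕ) : ℝ) - pb L + 1) +
      C * 3 ^ pj0 L * (((pb13 L : ℕ) : ℝ) - pP L 0 + 1)) =
      (C * 3 ^ pj0 L) * (4 * ((((pal L : ℕ) : ℝ) + 1) + (((pal3 L : ℕ) : ℝ) + 1) +
      (((pb1 L : ℕ) : ℝ) - pb L + 1) + (((pb13 L : ℕ) : ℝ) - pP L 0 + 1))) := by
    push_cast
    ring
  rw [e1] at hsum
  refine hsum.trans ?_
  calc (C * 3 ^ pj0 L) * (4 * ((((pal L : ℕ) : ℝ) + 1) + (((pal3 L : ℕ) : ℝ) + 1) +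
      (((pb1 L : ℕ) : ℝ) - pb L + 1) + (((pb13 L : ℕ) : ℝ) - pP L 0 + 1))) ≤
      (C * 3 ^ pj0 L) * (96 * pal L) := by
        apply mul_le_mul_of_nonneg_left _ hpos.le
        linarith
    _ = 96 * C * 3 ^ pj0 L * pal L := by ring

theorem low_abs {L x : ℕ} {C CB : ℝ} {N0 : ℕ} (hM : HMom C N0) (hC : 0 < C) (h : SizF L)
    (hL : 1 ≤ L) (hLN : N0 ≤ L) (hd : 3 ^ pj0 L ∣ x) (hx1 : 3 ^ L ≤ x) (hx : x < 3 ^ (L + 1))
    (hT : ∑ n ∈ Ico x (x + 3 ^ pj0 L), ArithmeticFunction.vonMangoldt n ≤ CB * 3 ^ pj0 L) :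
    ∑ n ∈ Ico x (x + 3 ^ pj0 L), ArithmeticFunction.vonMangoldt n *
      |((dlo L n + dga L n - round (M1 L) : ℤ) : ℝ)| ≤
      (96 * C + CB) * 3 ^ pj0 L * (pK L : ℝ) ^ ((15 : ℝ) / 32) := by
  have hK : (1 : ℝ) ≤ pK L := by
    have h1 := h.z1
    have : 1 ≤ pK L := by omega
    exact_mod_cast this
  obtain ⟨s, hs⟩ : ∃ s : ℝ, s = (pK L : ℝ) ^ ((15 : ℝ) / 32) := ⟨_, rfl⟩
  have hs1 : 1 ≤ s := by rw [hs]; exact Real.one_le_rpow hK (by norm_num)
  have hs2 : s ^ 2 = (pK L : ℝ) ^ ((15 : ℝ) / 16) := by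
    rw [hs, ← Real.rpow_natCast, ← Real.rpow_mul (by linarith)]
    norm_num
  have hal : (pal L : ℝ) ≤ 2 * s ^ 2 := by
    have h1 : (pal L : ℝ) < (pK L : ℝ) ^ ((15 : ℝ) / 16) + 1 :=
      Nat.ceil_lt_add_one (Real.rpow_nonneg (by linarith) _)
    rw [hs2]
    have h2 : 1 ≤ (pK L : ℝ) ^ ((15 : ℝ) / 16) := Real.one_le_rpow hK (by norm_num)
    linarith
  have hsq := low_sq hM hC h hL hLN hd hx1 hx
  rw [← hs]
  have hs0 : 0 < s := by linarith
  have hterm : ∀ n ∈ Ico x (x + 3 ^ pj0 L), ArithmeticFunction.vonMangoldt n *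
      |((dlo L n + dga L n - round (M1 L) : ℤ) : ℝ)| ≤
      1 / (2 * s) * (ArithmeticFunction.vonMangoldt n *
        (((dlo L n + dga L n : ℤ) : ℝ) - M1 L) ^ 2) + s * ArithmeticFunction.vonMangoldt n := by
    intro n _
    obtain ⟨Y, hY⟩ : ∃ Y, Y = ((dlo L n + dga L n : ℤ) : ℝ) - M1 L := ⟨_, rfl⟩
    have h1 : ((dlo L n + dga L n - round (M1 L) : ℤ) : ℝ) = Y + (M1 L - round (M1 L)) := by
      rw [hY]
      push_cast
      ring
    have h2 : |((dlo L n + dga L n - round (M1 L) : ℤ) : ℝ)| ≤ |Y| + 1 / 2 := by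
      rw [h1]
      exact (abs_add_le _ _).trans (add_le_add le_rfl (abs_sub_round _))
    have h3 : |Y| ≤ 1 / (2 * s) * Y ^ 2 + s / 2 := by
      have h4 : 0 ≤ (|Y| - s) ^ 2 := sq_nonneg _
      have h5 : |Y| ^ 2 = Y ^ 2 := sq_abs Y
      have h6 : 2 * s * |Y| ≤ Y ^ 2 + s ^ 2 := by nlinarith
      have h7 : 1 / (2 * s) * Y ^ 2 + s / 2 = (Y ^ 2 + s ^ 2) / (2 * s) := by
        field_simp
      rw [h7, le_div_iff₀ (by positivity)]
      linarith
    rw [← hY]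
    have h8 : |((dlo L n + dga L n - round (M1 L) : ℤ) : ℝ)| ≤ 1 / (2 * s) * Y ^ 2 + s := by
      linarith
    calc ArithmeticFunction.vonMangoldt n * |((dlo L n + dga L n - round (M1 L) : ℤ) : ℝ)| ≤
        ArithmeticFunction.vonMangoldt n * (1 / (2 * s) * Y ^ 2 + s) :=
          mul_le_mul_of_nonneg_left h8 ArithmeticFunction.vonMangoldt_nonneg
      _ = _ := by ring
  refine (Finset.sum_le_sum hterm).trans ?_
  rw [Finset.sum_add_distrib, ← Finset.mul_sum, ← Finset.mul_sum]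
  have h3p : (0 : ℝ) < 3 ^ pj0 L := by positivity
  have a1 : 1 / (2 * s) * ∑ n ∈ Ico x (x + 3 ^ pj0 L), (ArithmeticFunction.vonMangoldt n *
        (((dlo L n + dga L n : ℤ) : ℝ) - M1 L) ^ 2) ≤ 96 * C * 3 ^ pj0 L * s := by
    calc 1 / (2 * s) * ∑ n ∈ Ico x (x + 3 ^ pj0 L), (ArithmeticFunction.vonMangoldt n *
        (((dlo L n + dga L n : ℤ) : ℝ) - M1 L) ^ 2) ≤ 1 / (2 * s) * (96 * C * 3 ^ pj0 L * pal L) := by
          gcongr
      _ ≤ 1 / (2 * s) * (96 * C * 3 ^ pj0 L * (2 * s ^ 2)) := by gcongr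
      _ = 96 * C * 3 ^ pj0 L * s := by field_simp
  have a2 : s * ∑ n ∈ Ico x (x + 3 ^ pj0 L), ArithmeticFunction.vonMangoldt n ≤
      s * (CB * 3 ^ pj0 L) := by gcongr
  calc _ ≤ 96 * C * 3 ^ pj0 L * s + s * (CB * 3 ^ pj0 L) := add_le_add a1 a2
    _ = (96 * C + CB) * 3 ^ pj0 L * s := by ring

theorem L_le_K {L : ℕ} (h : SizF L) : L ≤ pK L := by
  have h1 : 2 ^ L ≤ 3 ^ L := Nat.pow_le_pow_left (by norm_num) L
  have h2 := (Nat.pow_lt_pow_iff_right (by norm_num)).mp (lt_of_le_of_lt h1 h.z3')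
  omega

theorem log_le_K {L : ℕ} (h : SizF L) : Nat.log 2 (pH L) ≤ pK L := by
  have h1 : pH L ≤ 3 ^ L := Nat.pow_le_pow_right (by norm_num) h.z20'
  exact Nat.log_mono_right h1

/-- the second moment of the phase -/
theorem second {L x : ℕ} {C CB : ℝ} {N0 : ℕ} (hM : HMom C N0) (hC : 0 < C) (h : SizF L)
    (hL : 1 ≤ L) (hLN : N0 ≤ L) (hd : 3 ^ pj0 L ∣ x) (hx1 : 3 ^ L ≤ x) (hx : x < 3 ^ (L + 1))
    (hT : ∑ n ∈ Ico x (x + 3 ^ pj0 L), ArithmeticFunction.vonMangoldt n ≤ CB * 3 ^ pj0 L)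
    (n2 n3 : ℕ) (e1 : ℤ)
    (he : |(e1 : ℝ) + n2 / 2 - n3 - (((pb L : ℝ) - pal L) / 2 - ((pP L 0 : ℝ) - pal3 L))| ≤ 1) :
    ∑ n ∈ Ico x (x + 3 ^ pj0 L), ArithmeticFunction.vonMangoldt n *
      (((cst L x + round (M1 L) + e1 + dhi L n : ℤ) : ℝ) + n2 / 2 - n3 - Phi L x) ^ 2 ≤
      (4 * (4 * C + 403 * CB)) * pK L * 3 ^ pj0 L := by
  have hK : (1 : ℝ) ≤ pK L := by
    have h1 := h.z1
    have : 1 ≤ pK L := by omega
    exact_mod_cast this
  have hlogH : 2 ^ Nat.log 2 (pH L) ≤ 3 ^ pj0 L :=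
    Nat.pow_log_le_self 2 (by unfold pH; positivity)
  have hN1 : (1 : ℝ) ≤ ((3 ^ L : ℕ) : ℝ) := by
    have : 1 ≤ 3 ^ L := Nat.one_le_pow _ _ (by norm_num)
    exact_mod_cast this
  have m1 := mom hM h hL hLN hd hx1 hx 2 (pb1 L) (Nat.log 2 (pH L)) (Or.inl rfl) (b1_le_h h)
    hlogH (Or.inl (by
      calc ((3 ^ L : ℕ) : ℝ) ^ ((53 : ℝ) / 100) ≤ ((3 ^ L : ℕ) : ℝ) ^ ((54 : ℝ) / 100) :=
            Real.rpow_le_rpow_of_exponent_le hN1 (by norm_num)
        _ ≤ (2 : ℝ) ^ pb L := h.z19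
        _ ≤ (2 : ℝ) ^ pb1 L := pow_le_pow_right₀ (by norm_num) (b_le_b1 h)
        _ = ((2 : ℕ) : ℝ) ^ pb1 L := by norm_num))
  have m2 := mom hM h hL hLN hd hx1 hx 3 (pb13 L) (pj0 L) (Or.inr rfl) (b13_le_j0 h)
    le_rfl (Or.inl (by
      calc ((3 ^ L : ℕ) : ℝ) ^ ((53 : ℝ) / 100) ≤ (3 : ℝ) ^ pP L 0 := h.z19'
        _ ≤ (3 : ℝ) ^ pb13 L := pow_le_pow_right₀ (by norm_num) (P_le_b13 h)
        _ = ((3 : ℕ) : ℝ) ^ pb13 L := by norm_num))
  have hterm : ∀ n ∈ Ico x (x + 3 ^ pj0 L), ArithmeticFunction.vonMangoldt n *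
      (((cst L x + round (M1 L) + e1 + dhi L n : ℤ) : ℝ) + n2 / 2 - n3 - Phi L x) ^ 2 ≤
      4 * (ArithmeticFunction.vonMangoldt n * ((ds 2 (pb1 L) (Nat.log 2 (pH L)) n : ℝ) -
        (((Nat.log 2 (pH L) : ℕ) : ℝ) - pb1 L) * (((2 : ℕ) : ℝ) - 1) / 2) ^ 2 +
      ArithmeticFunction.vonMangoldt n * ((ds 3 (pb13 L) (pj0 L) n : ℝ) -
        (((pj0 L : ℕ) : ℝ) - pb13 L) * (((3 : ℕ) : ℝ) - 1) / 2) ^ 2 +
      ArithmeticFunction.vonMangoldt n * (403 * pK L)) := by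
    intro n _
    obtain ⟨Z2, hZ2⟩ : ∃ Z2, Z2 = (ds 2 (pb1 L) (Nat.log 2 (pH L)) n : ℝ) -
        (((Nat.log 2 (pH L) : ℕ) : ℝ) - pb1 L) * (((2 : ℕ) : ℝ) - 1) / 2 := ⟨_, rfl⟩
    obtain ⟨Z3, hZ3⟩ : ∃ Z3, Z3 = (ds 3 (pb13 L) (pj0 L) n : ℝ) -
        (((pj0 L : ℕ) : ℝ) - pb13 L) * (((3 : ℕ) : ℝ) - 1) / 2 := ⟨_, rfl⟩
    obtain ⟨Zc, hZc⟩ : ∃ Zc, Zc = (ds 2 (Nat.log 2 (pH L)) (pk0 L) n : ℝ) -
        (((pk0 L : ℕ) : ℝ) - Nat.log 2 (pH L)) / 2 := ⟨_, rfl⟩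
    obtain ⟨δ, hδ⟩ : ∃ δ, δ = -((M1 L - round (M1 L)) * (-1) + ((e1 : ℝ) + n2 / 2 - n3 -
        (((pb L : ℝ) - pal L) / 2 - ((pP L 0 : ℝ) - pal3 L)))) := ⟨_, rfl⟩
    have hδ1 : |δ| ≤ 3 / 2 := by
      rw [hδ, abs_neg]
      refine (abs_add_le _ _).trans ?_
      have h1 : |(M1 L - round (M1 L)) * (-1)| ≤ 1 / 2 := by
        rw [abs_mul, abs_neg, abs_one, mul_one]
        exact abs_sub_round _
      linarith
    have hZc1 : |Zc| ≤ 20 * ((pk L : ℝ) + 1) := by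
      have h1 := ds_le 2 (Nat.log 2 (pH L)) (pk0 L) n (by norm_num)
      have h2 : pk0 L - Nat.log 2 (pH L) = 40 * (pk L + 1) := by
        unfold pk0
        omega
      rw [h2] at h1
      have h3 : ((ds 2 (Nat.log 2 (pH L)) (pk0 L) n : ℕ) : ℝ) ≤ 40 * ((pk L : ℝ) + 1) := by
        have : ds 2 (Nat.log 2 (pH L)) (pk0 L) n ≤ 40 * (pk L + 1) := by simpa using h1
        exact_mod_cast this
      have h4 : ((pk0 L : ℕ) : ℝ) - Nat.log 2 (pH L) = 40 * ((pk L : ℝ) + 1) := by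
        unfold pk0
        push_cast
        ring
      have h5 : (0 : ℝ) ≤ ((ds 2 (Nat.log 2 (pH L)) (pk0 L) n : ℕ) : ℝ) := Nat.cast_nonneg _
      rw [hZc, h4, abs_le]
      constructor <;> linarith
    have hid : ((cst L x + round (M1 L) + e1 + dhi L n : ℤ) : ℝ) + n2 / 2 - n3 - Phi L x =
        Z2 - Z3 + Zc - δ := by
      have hsplit : ds 2 (pb1 L) (pk0 L) n = ds 2 (pb1 L) (Nat.log 2 (pH L)) n +
          ds 2 (Nat.log 2 (pH L)) (pk0 L) n := ds_add 2 (b1_le_h h) (h_le_k0 L) n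
      rw [hZ2, hZ3, hZc, hδ]
      unfold Phi dhi cst M1
      rw [hsplit]
      push_cast
      ring
    rw [← hZ2, ← hZ3, hid]
    have h1 := sq4 Z2 Z3 Zc δ
    have h2 : Zc ^ 2 ≤ 400 * pK L := by
      have h3 : Zc ^ 2 ≤ (20 * ((pk L : ℝ) + 1)) ^ 2 := by
        rw [← sq_abs]
        gcongr
      have h4 : ((pk L : ℝ) + 1) ^ 2 ≤ pK L := by
        calc ((pk L : ℝ) + 1) ^ 2 ≤ ((pK L : ℝ) ^ ((1 : ℝ) / 100)) ^ 2 := by
              have := h.z2
              gcongr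
          _ = (pK L : ℝ) ^ ((1 : ℝ) / 50) := by
              rw [← Real.rpow_natCast, ← Real.rpow_mul (by linarith)]
              norm_num
          _ ≤ (pK L : ℝ) ^ (1 : ℝ) := Real.rpow_le_rpow_of_exponent_le hK (by norm_num)
          _ = pK L := Real.rpow_one _
      calc Zc ^ 2 ≤ (20 * ((pk L : ℝ) + 1)) ^ 2 := h3
        _ = 400 * ((pk L : ℝ) + 1) ^ 2 := by ring
        _ ≤ 400 * pK L := by gcongr
    have h3 : δ ^ 2 ≤ 3 * pK L := by
      have h4 : δ ^ 2 ≤ (3 / 2) ^ 2 := by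
        rw [← sq_abs]
        gcongr
      linarith
    have h5 : (Z2 - Z3 + Zc - δ) ^ 2 ≤ 4 * (Z2 ^ 2 + Z3 ^ 2 + 403 * pK L) := by linarith
    calc ArithmeticFunction.vonMangoldt n * (Z2 - Z3 + Zc - δ) ^ 2 ≤
        ArithmeticFunction.vonMangoldt n * (4 * (Z2 ^ 2 + Z3 ^ 2 + 403 * pK L)) :=
          mul_le_mul_of_nonneg_left h5 ArithmeticFunction.vonMangoldt_nonneg
      _ = _ := by ring
  refine (Finset.sum_le_sum hterm).trans ?_
  rw [← Finset.mul_sum, Finset.sum_add_distrib, Finset.sum_add_distrib, ← Finset.sum_mul]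
  have k1 : ((Nat.log 2 (pH L) : ℕ) : ℝ) - pb1 L + 1 ≤ 2 * pK L := by
    have h1 : ((Nat.log 2 (pH L) : ℕ) : ℝ) ≤ pK L := by exact_mod_cast log_le_K h
    have h2 : (0 : ℝ) ≤ ((pb1 L : ℕ) : ℝ) := Nat.cast_nonneg _
    linarith
  have k2 : ((pj0 L : ℕ) : ℝ) - pb13 L + 1 ≤ 2 * pK L := by
    have h1 : ((pj0 L : ℕ) : ℝ) ≤ pK L := by exact_mod_cast h.z20'.trans (L_le_K h)
    have h2 : (0 : ℝ) ≤ ((pb13 L : ℕ) : ℝ) := Nat.cast_nonneg _
    linarith
  have hH : (0 : ℝ) < 3 ^ pj0 L := by positivity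
  have k3 := m1.trans (mul_le_mul_of_nonneg_left k1 (by positivity))
  have k4 := m2.trans (mul_le_mul_of_nonneg_left k2 (by positivity))
  have k5 : (∑ n ∈ Ico x (x + 3 ^ pj0 L), ArithmeticFunction.vonMangoldt n) * (403 * pK L) ≤
      (CB * 3 ^ pj0 L) * (403 * pK L) := by gcongr
  have k6 := add_le_add (add_le_add k3 k4) k5
  calc _ ≤ 4 * (C * 3 ^ pj0 L * (2 * pK L) + C * 3 ^ pj0 L * (2 * pK L) +
        (CB * 3 ^ pj0 L) * (403 * pK L)) := mul_le_mul_of_nonneg_left k6 (by norm_num)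
    _ = _ := by ring

/-! ### asymptotics -/

theorem asym (C1 a : ℝ) : ∃ K0 : ℕ, ∀ K : ℕ, K0 ≤ K →
    Real.sqrt (C1 * Real.log K / K) ≤ (K : ℝ) ^ (-(499 : ℝ) / 1000) ∧
    a ≤ (K : ℝ) ^ ((1 : ℝ) / 200) ∧ (K : ℝ) ^ 2 ≤ Real.exp (K / 10) := by
  have h1 : ∀ᶠ K : ℝ in Filter.atTop, |C1| * Real.log K ≤ K ^ ((1 : ℝ) / 500) := by
    have := (isLittleO_log_rpow_atTop (show (0 : ℝ) < 1 / 500 by norm_num)).bound
      (show (0 : ℝ) < 1 / (|C1| + 1) by positivity)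
    filter_upwards [this, Filter.eventually_ge_atTop 1] with K hK hK1
    have hl : 0 ≤ Real.log K := Real.log_nonneg hK1
    have hr : 0 ≤ K ^ ((1 : ℝ) / 500) := Real.rpow_nonneg (by linarith) _
    rw [Real.norm_of_nonneg hl, Real.norm_of_nonneg hr] at hK
    have hc : 0 < |C1| + 1 := by positivity
    rw [one_div, inv_mul_eq_div, le_div_iff₀ hc] at hK
    nlinarith [abs_nonneg C1]
  have h2 : ∀ᶠ K : ℝ in Filter.atTop, a ≤ K ^ ((1 : ℝ) / 200) :=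
    (tendsto_rpow_atTop (by norm_num)).eventually_ge_atTop a
  have h3 : ∀ᶠ K : ℝ in Filter.atTop, K ^ 2 ≤ Real.exp (K / 10) := by
    have ht := Real.tendsto_pow_mul_exp_neg_atTop_nhds_zero 2
    have ht2 : Filter.Tendsto (fun K : ℝ => K / 10) Filter.atTop Filter.atTop :=
      Filter.tendsto_id.atTop_div_const (by norm_num)
    have ht3 := (ht.comp ht2).eventually (gt_mem_nhds (show (0 : ℝ) < 1 / 100 by norm_num))
    filter_upwards [ht3] with K hK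
    simp only [Function.comp] at hK
    have h4 : Real.exp (-(K / 10)) = (Real.exp (K / 10))⁻¹ := Real.exp_neg _
    rw [h4, ← div_eq_mul_inv, div_lt_iff₀ (Real.exp_pos _)] at hK
    nlinarith
  have hall := (h1.and (h2.and (h3.and (Filter.eventually_ge_atTop (1 : ℝ)))))
  rw [Filter.eventually_atTop] at hall
  obtain ⟨K0, hK0⟩ := hall
  refine ⟨⌈K0⌉₊, fun K hK => ?_⟩
  have hK' : K0 ≤ (K : ℝ) := (Nat.le_ceil K0).trans (by exact_mod_cast hK)
  obtain ⟨g1, g2, g3, g4⟩ := hK0 K hK'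
  refine ⟨?_, g2, g3⟩
  have hKp : (0 : ℝ) < K := by linarith
  apply Real.sqrt_le_iff.mpr
  refine ⟨Real.rpow_nonneg hKp.le _, ?_⟩
  have e1 : ((K : ℝ) ^ (-(499 : ℝ) / 1000)) ^ 2 = (K : ℝ) ^ ((1 : ℝ) / 500) / K := by
    rw [← Real.rpow_natCast, ← Real.rpow_mul hKp.le]
    have : (-(499 : ℝ) / 1000) * ((2 : ℕ) : ℝ) = (1 : ℝ) / 500 - 1 := by norm_num
    rw [this, Real.rpow_sub hKp, Real.rpow_one]
  rw [e1]
  apply div_le_div_of_nonneg_right _ hKp.le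
  refine le_trans ?_ g1
  exact mul_le_mul_of_nonneg_right (le_abs_self _) (Real.log_nonneg g4)

theorem X_mul_le (L : ℕ) : pX L * pK L ≤ 2 ^ pb1 L := by
  have h1 : pX L < 2 ^ (Nat.log 2 (pX L) + 1) := Nat.lt_pow_succ_log_self (by norm_num) _
  have h2 : pK L < 2 ^ (pk L + 1) := Nat.lt_pow_succ_log_self (by norm_num) _
  calc pX L * pK L ≤ 2 ^ (Nat.log 2 (pX L) + 1) * 2 ^ (pk L + 1) := Nat.mul_le_mul h1.le h2.le
    _ = 2 ^ (Nat.log 2 (pX L) + 1 + (pk L + 1)) := by rw [← pow_add]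
    _ ≤ 2 ^ pb1 L := by
        apply Nat.pow_le_pow_right (by norm_num)
        unfold pb1
        omega

theorem two_le_three (L : ℕ) : 2 ^ pb1 L ≤ 3 ^ pb13 L :=
  (Nat.lt_pow_succ_log_self (by norm_num) _).le

theorem X_K {L : ℕ} (h : SizF L) (hK : (pK L : ℝ) ^ 2 ≤ Real.exp (pK L / 10)) :
    (pX L : ℝ) * (pK L : ℝ) ^ 2 ≤ 3 ^ pj0 L := by
  obtain ⟨M, hM⟩ : ∃ M : ℝ, M = ((3 ^ L : ℕ) : ℝ) := ⟨_, rfl⟩
  have hM0 : 0 < M := by rw [hM]; positivity
  have h1 : (2 : ℝ) ^ pK L ≤ M := by rw [hM]; exact_mod_cast h.z3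
  have h2 : Real.exp (pK L / 10) ≤ M ^ ((21 : ℝ) / 100) := by
    have h3 : Real.exp (pK L / 10) ≤ ((2 : ℝ) ^ pK L) ^ ((21 : ℝ) / 100) := by
      rw [← Real.rpow_natCast, ← Real.rpow_mul (by norm_num), Real.rpow_def_of_pos (by norm_num)]
      apply Real.exp_le_exp.mpr
      have h4 := Real.log_two_gt_d9
      have h5 : (0 : ℝ) ≤ pK L := Nat.cast_nonneg _
      nlinarith
    exact h3.trans (Real.rpow_le_rpow (by positivity) h1 (by norm_num))
  have hX : (pX L : ℝ) ≤ M ^ ((56 : ℝ) / 100) := by rw [hM]; exact h.z7'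
  have hH : M ^ ((77 : ℝ) / 100) ≤ 3 ^ pj0 L := by
    have := h.z4
    rw [hM]
    refine this.trans (le_of_eq ?_)
    unfold pH
    push_cast
    rfl
  calc (pX L : ℝ) * (pK L : ℝ) ^ 2 ≤ M ^ ((56 : ℝ) / 100) * M ^ ((21 : ℝ) / 100) := by
        have := hK.trans h2
        gcongr
    _ = M ^ ((77 : ℝ) / 100) := by
        rw [← Real.rpow_add hM0]
        norm_num
    _ ≤ 3 ^ pj0 L := hH

theorem boundary {L x : ℕ} {CB : ℝ} {N0 : ℕ} (hCB : 0 < CB) (hB : HBT CB N0) (h : SizF L)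
    (hL : 1 ≤ L) (hLN : N0 ≤ L) (hd : 3 ^ pj0 L ∣ x) (hx1 : 3 ^ L ≤ x) (hx : x < 3 ^ (L + 1))
    (hK : (pK L : ℝ) ^ 2 ≤ Real.exp (pK L / 10)) (m : ℕ) (hm : 2 ^ pb1 L ≤ m) :
    ∑ n ∈ (Ico x (x + 3 ^ pj0 L)).filter (fun n => m < n % m + pX L),
      ArithmeticFunction.vonMangoldt n ≤ 3 * CB * 3 ^ pj0 L / pK L := by
  obtain ⟨b1, b2, b3, b4⟩ := base h hL hd hx1 hx
  rw [Ico_eq_Ioc b3]
  have hKn : 10 ^ 12 ≤ pK L := h.z1
  have hK1 : (1 : ℝ) ≤ pK L := by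
    have : 1 ≤ pK L := by omega
    exact_mod_cast this
  have hXm0 := (X_mul_le L).trans hm
  have hXm : pX L ≤ m := by
    refine le_trans ?_ hXm0
    calc pX L = pX L * 1 := (mul_one _).symm
      _ ≤ pX L * pK L := Nat.mul_le_mul_left _ (by omega)
  have hXK := X_K h hK
  have hXN : pX L ≤ 3 ^ L - 1 := by
    have h1 : 2 * pX L ≤ 3 ^ L := by
      have h2 : (pX L : ℝ) * 2 ≤ 3 ^ pj0 L := by
        refine le_trans ?_ hXK
        have : (2 : ℝ) ≤ (pK L : ℝ) ^ 2 := by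
          have h3 : ((10 ^ 12 : ℕ) : ℝ) ≤ pK L := by exact_mod_cast hKn
          push_cast at h3
          nlinarith
        gcongr
      have h3 : pX L * 2 ≤ 3 ^ pj0 L := by exact_mod_cast h2
      have h4 : 3 ^ pj0 L ≤ 3 ^ L := Nat.pow_le_pow_right (by norm_num) h.z20'
      omega
    omega
  have hX55 : ((3 ^ L - 1 : ℕ) : ℝ) ^ ((52 : ℝ) / 100) ≤ pX L := by
    refine (pred_rpow L _ (by norm_num)).trans (le_trans ?_ h.z7)
    apply Real.rpow_le_rpow_of_exponent_le _ (by norm_num)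
    have : 1 ≤ 3 ^ L := Nat.one_le_pow _ _ (by norm_num)
    exact_mod_cast this
  have h5 := L_lt L
  have hmpos : 0 < m := lt_of_lt_of_le (by positivity) hm
  have key := bdry hCB hB hmpos hXm (by omega : N0 ≤ 3 ^ L - 1) b1 b2 hXN hX55
  refine key.trans ?_
  have hm' : (0 : ℝ) < m := by exact_mod_cast hmpos
  have hKpos : (0 : ℝ) < pK L := by linarith
  have hH : (0 : ℝ) < 3 ^ pj0 L := by positivity
  have c1 : (pX L : ℝ) * ((3 ^ pj0 L : ℕ) / m) ≤ 3 ^ pj0 L / pK L := by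
    have h6 : (pX L : ℝ) * pK L ≤ m := by exact_mod_cast hXm0
    rw [mul_div_assoc', div_le_div_iff₀ hm' hKpos]
    push_cast
    nlinarith
  have c2 : (pX L : ℝ) ≤ 3 ^ pj0 L / pK L := by
    rw [le_div_iff₀ hKpos]
    refine le_trans ?_ hXK
    have h0 : (0 : ℝ) ≤ pX L := Nat.cast_nonneg _
    have : (pK L : ℝ) ≤ (pK L : ℝ) ^ 2 := by nlinarith
    gcongr
  calc CB * pX L * (((3 ^ pj0 L : ℕ) : ℝ) / m + 2) =
      CB * ((pX L : ℝ) * ((3 ^ pj0 L : ℕ) / m) + 2 * pX L) := by ring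
    _ ≤ CB * (3 ^ pj0 L / pK L + 2 * (3 ^ pj0 L / pK L)) := by gcongr
    _ = 3 * CB * 3 ^ pj0 L / pK L := by ring

theorem final_bound {K CM CB H θ : ℝ} (hK : 1 ≤ K) (hCM : 0 < CM) (hCB : 0 < CB) (hH : 0 < H)
    (hθ : |θ| ≤ K ^ (-(499 : ℝ) / 1000))
    (ha : 2 * Real.pi * (96 * CM + CB) + 1 + 12 * CB + CB ≤ K ^ ((1 : ℝ) / 200)) :
    2 * Real.pi * |θ| * ((96 * CM + CB) * H * K ^ ((15 : ℝ) / 32)) + H / K +
      2 * (3 * CB * H / K + 3 * CB * H / K) + K ^ (-(1 : ℝ) / 16) * (CB * H) ≤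
      H * K ^ (-(1 : ℝ) / 40) := by
  have hK0 : 0 < K := by linarith
  obtain ⟨t, ht⟩ : ∃ t, t = K ^ (-(3 : ℝ) / 100) := ⟨_, rfl⟩
  have ht0 : 0 < t := by rw [ht]; positivity
  have t1 : K ^ (-(499 : ℝ) / 1000) * K ^ ((15 : ℝ) / 32) ≤ t := by
    rw [← Real.rpow_add hK0, ht]
    exact Real.rpow_le_rpow_of_exponent_le hK (by norm_num)
  have t2 : 1 / K ≤ t := by
    rw [one_div, ← Real.rpow_neg_one, ht]
    exact Real.rpow_le_rpow_of_exponent_le hK (by norm_num)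
  have t3 : K ^ (-(1 : ℝ) / 16) ≤ t := by
    rw [ht]
    exact Real.rpow_le_rpow_of_exponent_le hK (by norm_num)
  have hpi := Real.pi_pos
  have s1 : 2 * Real.pi * |θ| * ((96 * CM + CB) * H * K ^ ((15 : ℝ) / 32)) ≤
      2 * Real.pi * (96 * CM + CB) * (H * t) := by
    calc 2 * Real.pi * |θ| * ((96 * CM + CB) * H * K ^ ((15 : ℝ) / 32)) ≤
        2 * Real.pi * K ^ (-(499 : ℝ) / 1000) * ((96 * CM + CB) * H * K ^ ((15 : ℝ) / 32)) := by
          gcongr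
      _ = 2 * Real.pi * (96 * CM + CB) * (H * (K ^ (-(499 : ℝ) / 1000) * K ^ ((15 : ℝ) / 32))) := by
          ring
      _ ≤ 2 * Real.pi * (96 * CM + CB) * (H * t) := by gcongr
  have s2 : H / K ≤ H * t := by
    rw [div_eq_mul_one_div]
    gcongr
  have s3 : 2 * (3 * CB * H / K + 3 * CB * H / K) ≤ 12 * CB * (H * t) := by
    calc 2 * (3 * CB * H / K + 3 * CB * H / K) = 12 * CB * (H / K) := by ring
      _ ≤ 12 * CB * (H * t) := by gcongr
  have s4 : K ^ (-(1 : ℝ) / 16) * (CB * H) ≤ CB * (H * t) := by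
    calc K ^ (-(1 : ℝ) / 16) * (CB * H) ≤ t * (CB * H) := by gcongr
      _ = CB * (H * t) := by ring
  calc _ ≤ 2 * Real.pi * (96 * CM + CB) * (H * t) + H * t + 12 * CB * (H * t) + CB * (H * t) := by
        linarith
    _ = (2 * Real.pi * (96 * CM + CB) + 1 + 12 * CB + CB) * (H * t) := by ring
    _ ≤ K ^ ((1 : ℝ) / 200) * (H * t) := by gcongr
    _ = H * (K ^ ((1 : ℝ) / 200) * t) := by ring
    _ = H * K ^ (-(1 : ℝ) / 40) := by
        rw [ht, ← Real.rpow_add hK0]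
        norm_num

end Pool.Agent.Work.MP_8e4d29_nt.Major

namespace Pool.Agent.Work.MP_8e4d29_nt

open Finset Major
open Pool.Agent.Work.MP_122e00_nt (ee norm_ee ee_add)

theorem claimMajor (h0 : ClaimSizF) (h1 : ClaimAvg) (h2 : ClaimBT) (h3 : ClaimMom2)
    (h4 : ClaimMid) : ClaimMajor := by
  intro C1
  obtain ⟨L1, hL1⟩ := h0
  obtain ⟨L2, hL2⟩ := h1 C1
  obtain ⟨CB, N2, hCB, hN2, hB⟩ := hbt h2
  obtain ⟨CM, N3, hCM, hMom⟩ := h3
  obtain ⟨L4, hL4⟩ := h4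
  obtain ⟨K0, hK0⟩ := asym C1 (2 * Real.pi * (96 * CM + CB) + 1 + 12 * CB + CB)
  refine ⟨4 * (4 * CM + 403 * CB), L1 + L2 + L4 + K0 + N2 + N3, fun L x hL hd hx1 hx hm => ?_⟩
  have hz := hL1 L (by omega)
  have hLone : 1 ≤ L := by omega
  obtain ⟨b1, b2, b3, b4⟩ := base hz hLone hd hx1 hx
  obtain ⟨a1, a2, a3⟩ := hK0 (pK L) ((by omega : K0 ≤ L).trans (L_le_K hz))
  obtain ⟨n2, n3, e1, hn2, hn2', hn3, hn3', he, hmid⟩ := hL4 L (by omega)
  have hK1 : (1 : ℝ) ≤ pK L := by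
    have h5 := hz.z1
    have : 1 ≤ pK L := by omega
    exact_mod_cast this
  have h5 := L_lt L
  have hN1 : (1 : ℝ) ≤ ((3 ^ L : ℕ) : ℝ) := by
    have : 1 ≤ 3 ^ L := Nat.one_le_pow _ _ (by norm_num)
    exact_mod_cast this
  have hT : ∑ n ∈ Ico x (x + 3 ^ pj0 L), ArithmeticFunction.vonMangoldt n ≤ CB * 3 ^ pj0 L := by
    rw [Ico_eq_Ioc b3]
    have key := hB (3 ^ L - 1) (x - 1) (3 ^ pj0 L) (by omega) b1 (by omega) (by
      refine (pred_rpow L _ (by norm_num)).trans (le_trans ?_ hz.z4)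
      exact Real.rpow_le_rpow_of_exponent_le hN1 (by norm_num))
    push_cast at key
    exact key
  refine ⟨n2, n3, fun n => cst L x + round (M1 L) + e1 + dhi L n, hn2, hn2', hn3, hn3',
    fun θ hθ => ?_, second hMom hCM hz hLone (by omega) hd hx1 hx hT n2 n3 e1 he⟩
  have hθ2 : |θ| ≤ (pK L : ℝ) ^ (-(499 : ℝ) / 1000) := hθ.trans a1
  have hθ3 : |θ| ≤ (pK L : ℝ) ^ (-(49 : ℝ) / 100) :=
    hθ2.trans (Real.rpow_le_rpow_of_exponent_le hK1 (by norm_num))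
  have hA := hL2 L (by omega) θ (wa L θ) (wa' L θ) (x - 1) hθ
    (fun i => by unfold wa; split_ifs <;> simp) (fun i => by unfold wa'; split_ifs <;> simp)
    (fun i hi => by
      have i1 := al_le_b L
      have i2 := b_le_b1 hz
      unfold wa
      rw [if_neg]
      omega)
    (fun i hi => by
      have i1 := al3_le_P L
      have i2 := P_le_b13 hz
      unfold wa'
      rw [if_neg]
      omega)
    (by omega) (by
      have := add_pow_le hz hd hx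
      unfold pH
      omega)
  have hA' : ‖∑ n ∈ Ico x (x + 3 ^ pj0 L), (ArithmeticFunction.vonMangoldt n : ℂ) *
      (ee (θ * (dmi L n : ℝ)) * ee (θ * (dhi L n : ℝ)) - 1 / (pX L : ℂ) *
        ∑ u ∈ range (pX L), ee (θ * (dmi L (n + u) : ℝ)) * ee (θ * (dhi L (n + u) : ℝ)))‖ ≤
      3 ^ pj0 L / pK L := by
    rw [Ico_eq_Ioc b3]
    simp only [phase hz] at hA
    unfold pH at hA
    push_cast at hA
    exact hA
  have hmid' : ∀ n0 : ℕ, ‖1 / (pX L : ℂ) * ∑ u ∈ range (pX L), ee (θ * (dmi L (n0 + u) : ℝ)) -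
      ee (θ * e1) * chA n2 n3 θ‖ ≤ (pK L : ℝ) ^ (-(1 : ℝ) / 16) := by
    intro n0
    have h6 := hmid θ n0 hθ3
    have h7 : ∀ u, θ * (dmi L (n0 + u) : ℝ) = θ * ((ds 2 (pal L) (pb L) (n0 + u) : ℝ) -
        ds 3 (pal3 L) (pP L 0) (n0 + u)) := by
      intro u
      unfold dmi
      push_cast
      ring
    simp only [h7]
    exact h6
  have hfin := main_est hz hd hx hm θ (round (M1 L)) e1 (chA n2 n3 θ) (CB * 3 ^ pj0 L)
    (3 * CB * 3 ^ pj0 L / pK L) (3 * CB * 3 ^ pj0 L / pK L) ((pK L : ℝ) ^ (-(1 : ℝ) / 16))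
    ((96 * CM + CB) * 3 ^ pj0 L * (pK L : ℝ) ^ ((15 : ℝ) / 32)) (3 ^ pj0 L / pK L) hT
    (boundary hCB hB hz hLone (by omega) hd hx1 hx a3 _ le_rfl)
    (boundary hCB hB hz hLone (by omega) hd hx1 hx a3 _ (two_le_three L)) hA'
    (Real.rpow_nonneg (by linarith) _) hmid'
    (low_abs hMom hCM hz hLone (by omega) hd hx1 hx hT)
  refine hfin.trans ?_
  exact final_bound hK1 hCM hCB (by positivity) hθ2 a2

end Pool.Agent.Work.MP_8e4d29_nt

end

section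

/-! MP_8e4d29_nt, item F7: coefficient mass near the fractions with small denominators. -/

namespace Pool.Agent.Work.MP_8e4d29_nt

open Finset
open Pool.Agent.Work.MP_122e00_nt (ee ee_one_period)

namespace MassAux

theorem nd_frac {c : ℤ} {q : ℕ} (hq : 2 ≤ q) (h : IsCoprime c (q : ℤ)) :
    1 / (q : ℝ) ≤ nd ((c : ℝ) / q) := by
  obtain ⟨k, hk⟩ := exists_int_nd ((c : ℝ) / q)
  have hq0 : (0 : ℝ) < q := by
    have : 0 < q := by omega
    exact_mod_cast this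
  have hne : c - k * q ≠ 0 := by
    intro h0
    have h1 : (q : ℤ) ∣ c := ⟨k, by linarith [mul_comm k (q : ℤ)]⟩
    have h2 : IsUnit (q : ℤ) := h.symm.isUnit_of_dvd' dvd_rfl h1
    rw [Int.isUnit_iff] at h2
    omega
  have h1 : (1 : ℝ) ≤ |(c : ℝ) - k * q| := by
    have h3 : (1 : ℤ) ≤ |c - k * q| := Int.one_le_abs hne
    have h4 : ((1 : ℤ) : ℝ) ≤ ((|c - k * q| : ℤ) : ℝ) := by exact_mod_cast h3
    push_cast at h4
    exact h4
  rw [hk]
  have h2 : (c : ℝ) / q - k = (c - k * q) / q := by field_simp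
  rw [h2, abs_div, abs_of_pos hq0]
  gcongr

/-- one variable -/
theorem key (b k a Q X : ℕ) (f F : ℕ → ℝ) (B : ℝ) (hb : 1 ≤ b) (hak : a ≤ k) (hQ : 2 ≤ Q)
    (hF0 : ∀ ξ, 0 ≤ F ξ) (hper : ∀ ξ, F (ξ % b ^ (k - a)) = F ξ)
    (hfF : ∀ ξ : ℕ, 1 / (4 * (Q : ℝ)) ≤ nd ((ξ : ℝ) / b ^ k) → f ξ ≤ 2 * Q / b ^ a * F ξ)
    (hB : ∑ ξ ∈ range (b ^ (k - a)), F ξ ≤ B) (hX : 4 * b ^ a ≤ X * Q) (γ : ℝ) (q : ℕ)
    (hq : 2 ≤ q) (S : Finset ℕ)
    (hS : ∀ ξ ∈ S, 1 / (4 * (Q : ℝ)) ≤ nd ((ξ : ℝ) / b ^ k) ∧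
      |(ξ : ℝ) / b ^ k - γ| ≤ 1 / (q * X * Q)) :
    ∑ ξ ∈ S, f ξ ≤ 2 * Q / b ^ a * B := by
  have hb0 : (0 : ℝ) < b := by exact_mod_cast hb
  have hinj : Set.InjOn (fun ξ => ξ % b ^ (k - a)) (S : Set ℕ) := by
    intro x hx y hy hxy
    have h1 := (hS x hx).2
    have h2 := (hS y hy).2
    have hXQ : (4 : ℝ) * b ^ a ≤ X * Q := by exact_mod_cast hX
    have hba : (0 : ℝ) < (b : ℝ) ^ a := by positivity
    have hq2 : (2 : ℝ) ≤ q := by exact_mod_cast hq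
    have h3 : 1 / ((q : ℝ) * X * Q) ≤ 1 / (8 * b ^ a) := by
      apply one_div_le_one_div_of_le (by positivity)
      nlinarith
    have h4 : |(x : ℝ) / b ^ k - y / b ^ k| ≤ 1 / (4 * b ^ a) := by
      have e : (x : ℝ) / b ^ k - y / b ^ k = (x / b ^ k - γ) - (y / b ^ k - γ) := by ring
      rw [e]
      refine (abs_sub _ _).trans ?_
      have e2 : (1 : ℝ) / (4 * b ^ a) = 1 / (8 * b ^ a) + 1 / (8 * b ^ a) := by
        field_simp
        norm_num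
      rw [e2]
      linarith
    have hbk : (0 : ℝ) < (b : ℝ) ^ k := by positivity
    have h5 : |(x : ℝ) - y| < (b : ℝ) ^ (k - a) := by
      have e : (x : ℝ) / b ^ k - y / b ^ k = (x - y) / b ^ k := by ring
      rw [e, abs_div, abs_of_pos hbk, div_le_iff₀ hbk] at h4
      have e3 : (b : ℝ) ^ k = b ^ (k - a) * b ^ a := by
        rw [← pow_add]
        congr 1
        omega
      have hbka : (0 : ℝ) < (b : ℝ) ^ (k - a) := by positivity
      calc |(x : ℝ) - y| ≤ 1 / (4 * b ^ a) * b ^ k := h4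
        _ = b ^ (k - a) / 4 := by
          rw [e3]
          field_simp
        _ < b ^ (k - a) := by linarith
    simp only at hxy
    have h6 : |(x : ℤ) - y| < ((b ^ (k - a) : ℕ) : ℤ) := by
      have : ((|(x : ℤ) - y| : ℤ) : ℝ) < (((b ^ (k - a) : ℕ) : ℤ) : ℝ) := by
        push_cast
        exact h5
      exact_mod_cast this
    have h7 : ((b ^ (k - a) : ℕ) : ℤ) ∣ (x : ℤ) - y := by
      have : (x : ℤ) ≡ y [ZMOD ((b ^ (k - a) : ℕ) : ℤ)] := by
        rw [Int.natCast_modEq_iff]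
        exact hxy
      exact this.symm.dvd
    have h8 := Int.eq_zero_of_abs_lt_dvd h7 h6
    omega
  have h1 : ∑ ξ ∈ S, F ξ ≤ B := by
    have h2 : ∑ ξ ∈ S, F ξ = ∑ ξ ∈ S.image (fun ξ => ξ % b ^ (k - a)), F ξ := by
      rw [Finset.sum_image hinj]
      apply Finset.sum_congr rfl
      intro ξ _
      exact (hper ξ).symm
    rw [h2]
    refine le_trans (Finset.sum_le_sum_of_subset_of_nonneg ?_ ?_) hB
    · intro y hy
      rw [Finset.mem_image] at hy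
      obtain ⟨x, _, rfl⟩ := hy
      rw [Finset.mem_range]
      exact Nat.mod_lt _ (by positivity)
    · intro i _ _
      exact hF0 i
  calc ∑ ξ ∈ S, f ξ ≤ ∑ ξ ∈ S, 2 * Q / b ^ a * F ξ :=
        Finset.sum_le_sum (fun ξ hξ => hfF ξ (hS ξ hξ).1)
    _ = 2 * Q / b ^ a * ∑ ξ ∈ S, F ξ := by rw [Finset.mul_sum]
    _ ≤ 2 * Q / b ^ a * B := by
        apply mul_le_mul_of_nonneg_left h1
        positivity

/-- two variables -/
theorem key2 (b k a Q X M : ℕ) (f F g : ℕ → ℝ) (τ : ℕ → ℝ) (B B' : ℝ) (hb : 1 ≤ b) (hak : a ≤ k)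
    (hQ : 2 ≤ Q) (hF0 : ∀ ξ, 0 ≤ F ξ) (hf0 : ∀ ξ, 0 ≤ f ξ) (hg0 : ∀ ξ, 0 ≤ g ξ)
    (hper : ∀ ξ, F (ξ % b ^ (k - a)) = F ξ)
    (hfF : ∀ ξ : ℕ, 1 / (4 * (Q : ℝ)) ≤ nd ((ξ : ℝ) / b ^ k) → f ξ ≤ 2 * Q / b ^ a * F ξ)
    (hB : ∑ ξ ∈ range (b ^ (k - a)), F ξ ≤ B) (hB' : ∑ ξ ∈ range M, g ξ ≤ B')
    (hX : 4 * b ^ a ≤ X * Q) (T : Finset (ℕ × ℕ))
    (hT : ∀ p ∈ T, p.2 < M ∧ 1 / (4 * (Q : ℝ)) ≤ nd ((p.1 : ℝ) / b ^ k) ∧
      ∃ q c : ℕ, 2 ≤ q ∧ q ≤ Q ∧ c ≤ 2 * Q ∧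
        |(p.1 : ℝ) / b ^ k + τ p.2 - (c : ℝ) / q| ≤ 1 / (q * X * Q)) :
    ∑ p ∈ T, f p.1 * g p.2 ≤ 8 * (Q : ℝ) ^ 4 / b ^ a * B * B' := by
  classical
  have hb0 : (0 : ℝ) < b := by exact_mod_cast hb
  have hB0 : 0 ≤ B := le_trans (Finset.sum_nonneg (fun i _ => hF0 i)) hB
  have hB0' : 0 ≤ B' := le_trans (Finset.sum_nonneg (fun i _ => hg0 i)) hB'
  set cond : ℕ × ℕ → ℕ × ℕ → Prop := fun s p =>
    2 ≤ s.1 ∧ |(p.1 : ℝ) / b ^ k + τ p.2 - (s.2 : ℝ) / s.1| ≤ 1 / (s.1 * X * Q) with hcond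
  have hone : ∀ s : ℕ × ℕ, ∑ p ∈ T.filter (cond s), f p.1 * g p.2 ≤
      2 * Q / b ^ a * B * B' := by
    intro s
    have hmap : ∀ p ∈ T.filter (cond s), p.2 ∈ range M := by
      intro p hp
      rw [Finset.mem_range]
      exact (hT p (Finset.mem_filter.1 hp).1).1
    rw [← Finset.sum_fiberwise_of_maps_to hmap]
    have hin : ∀ η ∈ range M, ∑ p ∈ (T.filter (cond s)).filter (fun p => p.2 = η),
        f p.1 * g p.2 ≤ 2 * Q / b ^ a * B * g η := by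
      intro η _
      by_cases hs : 2 ≤ s.1
      · have h1 : ∑ p ∈ (T.filter (cond s)).filter (fun p => p.2 = η), f p.1 * g p.2 =
            (∑ ξ ∈ ((T.filter (cond s)).filter (fun p => p.2 = η)).image Prod.fst, f ξ) * g η := by
          rw [Finset.sum_image, Finset.sum_mul]
          · apply Finset.sum_congr rfl
            intro p hp
            rw [(Finset.mem_filter.1 hp).2]
          · intro p hp p' hp' h
            have e1 := (Finset.mem_filter.1 hp).2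
            have e2 := (Finset.mem_filter.1 hp').2
            exact Prod.ext h (e1.trans e2.symm)
        rw [h1]
        apply mul_le_mul_of_nonneg_right _ (hg0 η)
        apply key b k a Q X f F B hb hak hQ hF0 hper hfF hB hX ((s.2 : ℝ) / s.1 - τ η) s.1 hs
        intro ξ hξ
        rw [Finset.mem_image] at hξ
        obtain ⟨p, hp, rfl⟩ := hξ
        rw [Finset.mem_filter, Finset.mem_filter] at hp
        obtain ⟨⟨hp1, hp2⟩, hp3⟩ := hp
        refine ⟨(hT p hp1).2.1, ?_⟩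
        have h2 := hp2.2
        rw [hp3] at h2
        have e : (p.1 : ℝ) / b ^ k - ((s.2 : ℝ) / s.1 - τ η) =
            (p.1 : ℝ) / b ^ k + τ η - (s.2 : ℝ) / s.1 := by ring
        rw [e]
        exact h2
      · have h1 : T.filter (cond s) = ∅ := by
          apply Finset.filter_eq_empty_iff.2
          intro p _ hp
          exact hs hp.1
        rw [h1]
        simp only [Finset.filter_empty, Finset.sum_empty]
        have := hg0 η
        positivity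
    refine (Finset.sum_le_sum hin).trans ?_
    rw [← Finset.mul_sum]
    apply mul_le_mul_of_nonneg_left hB'
    positivity
  have hcov : ∑ p ∈ T, f p.1 * g p.2 ≤
      ∑ s ∈ range (Q + 1) ×ˢ range (2 * Q + 1), ∑ p ∈ T.filter (cond s), f p.1 * g p.2 := by
    have e : ∀ s ∈ range (Q + 1) ×ˢ range (2 * Q + 1), ∑ p ∈ T.filter (cond s), f p.1 * g p.2 =
        ∑ p ∈ T, if cond s p then f p.1 * g p.2 else 0 := by
      intro s _
      rw [Finset.sum_filter]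
    rw [Finset.sum_congr rfl e, Finset.sum_comm]
    apply Finset.sum_le_sum
    intro p hp
    obtain ⟨_, _, q, c, hq1, hq2, hc, hqc⟩ := hT p hp
    have hmem : (q, c) ∈ range (Q + 1) ×ˢ range (2 * Q + 1) := by
      rw [Finset.mem_product, Finset.mem_range, Finset.mem_range]
      exact ⟨by omega, by omega⟩
    have h1 := Finset.single_le_sum
      (f := fun s => if cond s p then f p.1 * g p.2 else 0)
      (fun s _ => by
        split_ifs
        · exact mul_nonneg (hf0 _) (hg0 _)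
        · exact le_rfl) hmem
    refine le_trans (le_of_eq ?_) h1
    rw [if_pos ⟨hq1, hqc⟩]
  refine hcov.trans ((Finset.sum_le_sum (fun s _ => hone s)).trans ?_)
  rw [Finset.sum_const, Finset.card_product, Finset.card_range, Finset.card_range, nsmul_eq_mul]
  push_cast
  have hQr : (2 : ℝ) ≤ Q := by exact_mod_cast hQ
  have h1 : ((Q : ℝ) + 1) * (2 * Q + 1) * (2 * Q) ≤ 8 * (Q : ℝ) ^ 4 := by
    have h2 : ((Q : ℝ) + 1) * (2 * Q + 1) ≤ 4 * Q ^ 2 := by nlinarith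
    have h3 : (2 * (Q : ℝ)) ≤ 2 * Q ^ 2 := by nlinarith
    calc ((Q : ℝ) + 1) * (2 * Q + 1) * (2 * Q) ≤ 4 * Q ^ 2 * (2 * Q ^ 2) := by
          apply mul_le_mul h2 h3 <;> positivity
      _ = 8 * (Q : ℝ) ^ 4 := by ring
  have e : ((Q : ℝ) + 1) * (2 * Q + 1) * (2 * Q / b ^ a * B * B') =
      ((Q : ℝ) + 1) * (2 * Q + 1) * (2 * Q) * (B * B' / b ^ a) := by ring
  have e2 : 8 * (Q : ℝ) ^ 4 / b ^ a * B * B' = 8 * (Q : ℝ) ^ 4 * (B * B' / b ^ a) := by ring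
  rw [e, e2]
  apply mul_le_mul_of_nonneg_right h1
  positivity

theorem cf2_period (k : ℕ) (w : ℕ → ℝ) (ξ : ℕ) : cf2 k w (ξ % 2 ^ k) = cf2 k w ξ := by
  unfold cf2
  apply Finset.prod_congr rfl
  intro i _
  congr 2
  have h1 : (ξ : ℝ) = (ξ % 2 ^ k : ℕ) + 2 ^ k * (ξ / 2 ^ k : ℕ) := by
    exact_mod_cast (Nat.mod_add_div ξ (2 ^ k)).symm
  have h2 : w i - 2 ^ i * ((ξ % 2 ^ k : ℕ) : ℝ) / 2 ^ k =
      (w i - 2 ^ i * (ξ : ℝ) / 2 ^ k) + (((2 : ℤ) ^ i * ((ξ / 2 ^ k : ℕ) : ℤ) : ℤ) : ℝ) := by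
    rw [Int.cast_mul, Int.cast_pow, Int.cast_natCast]
    generalize ((ξ / 2 ^ k : ℕ) : ℝ) = d at h1 ⊢
    rw [h1]
    push_cast
    field_simp
    ring
  rw [h2, ee_one_period]

theorem cf3_period (k : ℕ) (w : ℕ → ℝ) (ξ : ℕ) : cf3 k w (ξ % 3 ^ k) = cf3 k w ξ := by
  unfold cf3
  apply Finset.prod_congr rfl
  intro i _
  have h1 : (ξ : ℝ) = (ξ % 3 ^ k : ℕ) + 3 ^ k * (ξ / 3 ^ k : ℕ) := by
    exact_mod_cast (Nat.mod_add_div ξ (3 ^ k)).symm
  have h2 : w i - 3 ^ i * ((ξ % 3 ^ k : ℕ) : ℝ) / 3 ^ k =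
      (w i - 3 ^ i * (ξ : ℝ) / 3 ^ k) + (((3 : ℤ) ^ i * ((ξ / 3 ^ k : ℕ) : ℤ) : ℤ) : ℝ) := by
    rw [Int.cast_mul, Int.cast_pow, Int.cast_natCast]
    generalize ((ξ / 3 ^ k : ℕ) : ℝ) = d at h1 ⊢
    rw [h1]
    push_cast
    field_simp
    ring
  have h3 : 2 * (w i - 3 ^ i * ((ξ % 3 ^ k : ℕ) : ℝ) / 3 ^ k) =
      2 * (w i - 3 ^ i * (ξ : ℝ) / 3 ^ k) +
        ((2 * ((3 : ℤ) ^ i * ((ξ / 3 ^ k : ℕ) : ℤ)) : ℤ) : ℝ) := by
    rw [h2, Int.cast_mul (2 : ℤ)]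
    push_cast
    ring
  rw [h3, ee_one_period, h2, ee_one_period]

end MassAux

open MassAux in
/-- F7 -/
theorem claimMass (h1 : ClaimLow2) (h2 : ClaimLow3) : ClaimMass := by
  classical
  intro k l a a' Q X w w' B2 B3 T hak hal hw hw' hQ hX hX' hB2 hB2' hB3 hB3' hT
  have hQr : (2 : ℝ) ≤ Q := by exact_mod_cast hQ
  have hXQ : (4 : ℝ) ≤ X * Q := by
    have h3 : 4 ≤ X * Q := le_trans (by have := Nat.one_le_two_pow (n := a); omega) hX
    exact_mod_cast h3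
  have hX1 : (1 : ℝ) ≤ X := by
    have : 1 ≤ X := by
      rcases Nat.eq_zero_or_pos X with h | h
      · subst h
        simp at hXQ
        linarith
      · exact h
    exact_mod_cast this
  -- localisation of the fractions
  have hloc : ∀ p ∈ T, ∃ q c : ℕ, 2 ≤ q ∧ q ≤ Q ∧ c ≤ 2 * Q ∧ 1 / (q : ℝ) ≤ nd ((c : ℝ) / q) ∧
      |(p.1 : ℝ) / 2 ^ k + (p.2 : ℝ) / 3 ^ l - (c : ℝ) / q| ≤ 1 / (q * X * Q) := by
    intro p hp
    obtain ⟨hp1, hp2, q, c, hq1, hq2, hc, hqc⟩ := hT p hp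
    have hq0 : (2 : ℝ) ≤ q := by exact_mod_cast hq1
    have ht1 : (p.1 : ℝ) / 2 ^ k < 1 := by
      rw [div_lt_one (by positivity)]
      exact_mod_cast hp1
    have ht2 : (p.2 : ℝ) / 3 ^ l < 1 := by
      rw [div_lt_one (by positivity)]
      exact_mod_cast hp2
    have ht1' : 0 ≤ (p.1 : ℝ) / 2 ^ k := by positivity
    have ht2' : 0 ≤ (p.2 : ℝ) / 3 ^ l := by positivity
    have hsm : 1 / ((q : ℝ) * X * Q) < 1 / q := by
      apply one_div_lt_one_div_of_lt (by linarith)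
      nlinarith
    rw [abs_le] at hqc
    have hc1 : -1 < (c : ℝ) := by
      have h4 : -(1 / (q : ℝ)) < (c : ℝ) / q := by linarith [hqc.2]
      rw [neg_div', div_lt_div_iff_of_pos_right (by linarith)] at h4
      exact h4
    have hc2 : (c : ℝ) < 2 * q + 1 := by
      have h4 : (c : ℝ) / q < 2 + 1 / q := by linarith [hqc.1]
      have e : (2 : ℝ) + 1 / q = (2 * q + 1) / q := by field_simp
      rw [e, div_lt_div_iff_of_pos_right (by linarith)] at h4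
      exact h4
    have hc1' : 0 ≤ c := by
      have : (-1 : ℤ) < c := by exact_mod_cast hc1
      omega
    obtain ⟨n, rfl⟩ := Int.eq_ofNat_of_zero_le hc1'
    have hc2' : n < 2 * q + 1 := by
      have h5 : ((n : ℤ) : ℝ) = (n : ℝ) := by simp
      rw [h5] at hc2
      exact_mod_cast hc2
    refine ⟨q, n, hq1, hq2, by omega, ?_, ?_⟩
    · have := nd_frac hq1 hc
      simpa using this
    · rw [abs_le]
      simpa using hqc
  -- dichotomy
  have hdich : ∀ p ∈ T, 1 / (4 * (Q : ℝ)) ≤ nd ((p.1 : ℝ) / 2 ^ k) ∨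
      1 / (4 * (Q : ℝ)) ≤ nd ((p.2 : ℝ) / 3 ^ l) := by
    intro p hp
    obtain ⟨q, c, hq1, hq2, _, hnd, hqc⟩ := hloc p hp
    by_contra hcon
    push Not at hcon
    obtain ⟨hc1, hc2⟩ := hcon
    have hq0 : (2 : ℝ) ≤ q := by exact_mod_cast hq1
    have hqQ : (q : ℝ) ≤ Q := by exact_mod_cast hq2
    have h3 := nd_add_le ((p.1 : ℝ) / 2 ^ k) ((p.2 : ℝ) / 3 ^ l)
    have h4 : nd ((c : ℝ) / q) ≤ nd ((p.1 : ℝ) / 2 ^ k + (p.2 : ℝ) / 3 ^ l) +
        |(p.1 : ℝ) / 2 ^ k + (p.2 : ℝ) / 3 ^ l - (c : ℝ) / q| := by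
      have e : (c : ℝ) / q = ((p.1 : ℝ) / 2 ^ k + (p.2 : ℝ) / 3 ^ l) -
          ((p.1 : ℝ) / 2 ^ k + (p.2 : ℝ) / 3 ^ l - (c : ℝ) / q) := by ring
      calc nd ((c : ℝ) / q) = nd (((p.1 : ℝ) / 2 ^ k + (p.2 : ℝ) / 3 ^ l) -
          ((p.1 : ℝ) / 2 ^ k + (p.2 : ℝ) / 3 ^ l - (c : ℝ) / q)) := by rw [← e]
        _ ≤ _ := (nd_sub_le _ _).trans (add_le_add le_rfl (nd_le_abs _))
    have h5 : 1 / ((q : ℝ) * X * Q) ≤ 1 / (2 * Q) := by
      apply one_div_le_one_div_of_le (by positivity)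
      have : (2 : ℝ) ≤ q * X := by nlinarith
      nlinarith
    have h6 : 1 / (Q : ℝ) ≤ 1 / q := one_div_le_one_div_of_le (by linarith) hqQ
    have h7 : 1 / (4 * (Q : ℝ)) + 1 / (4 * Q) + 1 / (2 * Q) = 1 / Q := by
      field_simp
      norm_num
    linarith
  -- the two parts
  set T1 := T.filter (fun p => 1 / (4 * (Q : ℝ)) ≤ nd ((p.1 : ℝ) / 2 ^ k)) with hT1
  set T2 := T.filter (fun p => 1 / (4 * (Q : ℝ)) ≤ nd ((p.2 : ℝ) / 3 ^ l)) with hT2
  have hB20 : 0 ≤ B2 := le_trans (Finset.sum_nonneg (fun _ _ => norm_nonneg _)) hB2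
  have hB30 : 0 ≤ B3 := le_trans (Finset.sum_nonneg (fun _ _ => norm_nonneg _)) hB3
  have hlow : ∀ (b a : ℕ) (x y z : ℝ), 1 ≤ b → 0 ≤ y → 1 / (4 * (Q : ℝ)) ≤ z →
      x ≤ 1 / ((b : ℝ) ^ a * (2 * z)) * y → x ≤ 2 * Q / (b : ℝ) ^ a * y := by
    intro b a x y z hb hy hz hx
    refine hx.trans (mul_le_mul_of_nonneg_right ?_ hy)
    have hb0 : (0 : ℝ) < b := by exact_mod_cast hb
    have hz0 : 0 < z := lt_of_lt_of_le (by positivity) hz
    rw [div_le_div_iff₀ (by positivity) (by positivity)]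
    have h3 : 1 ≤ 2 * Q * (2 * z) := by
      rw [div_le_iff₀ (by positivity)] at hz
      linarith
    have h4 : (0 : ℝ) < (b : ℝ) ^ a := by positivity
    nlinarith
  have hs1 : ∑ p ∈ T1, ‖cf2 k w p.1‖ * ‖cf3 l w' p.2‖ ≤ 8 * (Q : ℝ) ^ 4 / 2 ^ a * B2 * B3 := by
    have := key2 2 k a Q X (3 ^ l) (fun ξ => ‖cf2 k w ξ‖)
      (fun ξ => ‖cf2 (k - a) (fun i => w (i + a)) ξ‖) (fun ξ => ‖cf3 l w' ξ‖)
      (fun η => (η : ℝ) / 3 ^ l) B2 B3 (by norm_num) hak hQ (fun _ => norm_nonneg _)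
      (fun _ => norm_nonneg _) (fun _ => norm_nonneg _) (fun ξ => by
        rw [cf2_period]) ?_ hB2' hB3 hX T1 ?_
    · simpa using this
    · intro ξ hξ
      have hξ' : 1 / (4 * (Q : ℝ)) ≤ nd ((ξ : ℝ) / 2 ^ k) := by simpa using hξ
      have h3 := h1 k a ξ w hak hw (lt_of_lt_of_le (by positivity) hξ')
      have := hlow 2 a _ _ _ (by norm_num) (norm_nonneg _) hξ' (by simpa using h3)
      simpa using this
    · intro p hp
      rw [hT1, Finset.mem_filter] at hp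
      obtain ⟨q, c, hq1, hq2, hc, _, hqc⟩ := hloc p hp.1
      refine ⟨(hT p hp.1).2.1, by simpa using hp.2, q, c, hq1, hq2, hc, by simpa using hqc⟩
  have hs2 : ∑ p ∈ T2, ‖cf2 k w p.1‖ * ‖cf3 l w' p.2‖ ≤ 8 * (Q : ℝ) ^ 4 / 3 ^ a' * B3 * B2 := by
    have := key2 3 l a' Q X (2 ^ k) (fun ξ => ‖cf3 l w' ξ‖)
      (fun ξ => ‖cf3 (l - a') (fun i => w' (i + a')) ξ‖) (fun ξ => ‖cf2 k w ξ‖)
      (fun η => (η : ℝ) / 2 ^ k) B3 B2 (by norm_num) hal hQ (fun _ => norm_nonneg _)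
      (fun _ => norm_nonneg _) (fun _ => norm_nonneg _) (fun ξ => by
        rw [cf3_period]) ?_ hB3' hB2 hX' (T2.image Prod.swap) ?_
    · rw [Finset.sum_image (fun x _ y _ h => Prod.swap_injective h)] at this
      refine le_trans (le_of_eq ?_) (by simpa using this)
      apply Finset.sum_congr rfl
      intro p _
      rw [mul_comm]
    · intro ξ hξ
      have hξ' : 1 / (4 * (Q : ℝ)) ≤ nd ((ξ : ℝ) / 3 ^ l) := by simpa using hξ
      have h3 := h2 l a' ξ w' hal hw' (lt_of_lt_of_le (by positivity) hξ')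
      have := hlow 3 a' _ _ _ (by norm_num) (norm_nonneg _) hξ' (by simpa using h3)
      simpa using this
    · intro p' hp'
      rw [Finset.mem_image] at hp'
      obtain ⟨p, hp, rfl⟩ := hp'
      rw [hT2, Finset.mem_filter] at hp
      obtain ⟨q, c, hq1, hq2, hc, _, hqc⟩ := hloc p hp.1
      simp only [Prod.fst_swap, Prod.snd_swap]
      refine ⟨(hT p hp.1).1, by simpa using hp.2, q, c, hq1, hq2, hc, ?_⟩
      have e : (p.2 : ℝ) / ((3 : ℕ) : ℝ) ^ l + (p.1 : ℝ) / 2 ^ k - (c : ℝ) / q =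
          (p.1 : ℝ) / 2 ^ k + (p.2 : ℝ) / 3 ^ l - (c : ℝ) / q := by
        push_cast
        ring
      rw [e]
      exact hqc
  have hsum : ∑ p ∈ T, ‖cf2 k w p.1‖ * ‖cf3 l w' p.2‖ ≤
      ∑ p ∈ T1, ‖cf2 k w p.1‖ * ‖cf3 l w' p.2‖ + ∑ p ∈ T2, ‖cf2 k w p.1‖ * ‖cf3 l w' p.2‖ := by
    have hTu : T ⊆ T1 ∪ T2 := by
      intro p hp
      rw [Finset.mem_union, hT1, hT2, Finset.mem_filter, Finset.mem_filter]
      rcases hdich p hp with h | h
      · exact Or.inl ⟨hp, h⟩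
      · exact Or.inr ⟨hp, h⟩
    have h3 : ∀ p : ℕ × ℕ, 0 ≤ ‖cf2 k w p.1‖ * ‖cf3 l w' p.2‖ := fun p =>
      mul_nonneg (norm_nonneg _) (norm_nonneg _)
    refine (Finset.sum_le_sum_of_subset_of_nonneg hTu (fun p _ _ => h3 p)).trans ?_
    rw [← Finset.sum_union_inter]
    have : 0 ≤ ∑ p ∈ T1 ∩ T2, ‖cf2 k w p.1‖ * ‖cf3 l w' p.2‖ :=
      Finset.sum_nonneg (fun p _ => h3 p)
    linarith
  calc _ ≤ _ := hsum
    _ ≤ 8 * (Q : ℝ) ^ 4 / 2 ^ a * B2 * B3 + 8 * (Q : ℝ) ^ 4 / 3 ^ a' * B3 * B2 :=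
        add_le_add hs1 hs2
    _ = 8 * (Q : ℝ) ^ 4 * (1 / 2 ^ a + 1 / 3 ^ a') * B2 * B3 := by ring

end Pool.Agent.Work.MP_8e4d29_nt

end
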