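import Pool.Agent.Work.MP_8e4d29_nt.Bd.B02
import Pool.Agent.Work.MP_8e4d29_nt.Bd.B01

/-! Bundle of small proof modules (one section per former module). -/

section

/-!
MP_8e4d29_nt, item E2: exponential sums over primes in short intervals.
-/

namespace Pool.Agent.Work.MP_8e4d29_nt

open Finset
open Pool.Agent.Work.MP_122e00_nt (ee norm_ee ee_add ee_neg)

namespace Exp

lemma gm_mono {X X' x : ℝ} (hX : X ≤ X') : gm X x ≤ gm X' x :=
  le_gm ((gm_le X x).trans hX) (fun h => gm_le_inv h)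

lemma norm_Ioc_le (x : ℝ) (a b : ℕ) :
    ‖∑ n ∈ Ioc a b, ee (n * x)‖ ≤ gm ((b - a : ℕ) : ℝ) x := by
  have h := norm_geom_Ico_le x 0 (a + 1) (b + 1)
  have e : Ioc a b = Ico (a + 1) (b + 1) := by
    ext m
    rw [mem_Ioc, mem_Ico]
    omega
  rw [e]
  simp only [add_zero] at h
  have e2 : b + 1 - (a + 1) = b - a := by omega
  rwa [e2] at h

/-- number of multiples of `n` in an interval of length `H` -/
lemma div_sub_le {A' B' H n : ℕ} (hn : 0 < n) (hH : B' ≤ A' + H) :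
    ((B' / n - A' / n : ℕ) : ℝ) ≤ (H : ℝ) / n + 1 := by
  have h1 := Nat.div_mul_le_self B' n
  have h2 := Nat.div_add_mod A' n
  have h3 := Nat.mod_lt A' hn
  have h4 : (B' / n - A' / n) * n ≤ H + n := by
    rw [Nat.sub_mul]
    rw [mul_comm] at h2
    omega
  have hnr : (0 : ℝ) < n := by exact_mod_cast hn
  have h5 : ((B' / n - A' / n : ℕ) : ℝ) * n ≤ H + n := by exact_mod_cast h4
  have h6 : (H : ℝ) / n + 1 = (H + n) / n := by field_simp
  rw [h6, le_div_iff₀ hnr]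
  exact h5

lemma gm_dist (X α : ℝ) (n n' : ℕ) : gm X (α * ((n : ℝ) - n')) = gm X ((Nat.dist n n' : ℝ) * α) := by
  rcases le_total n n' with h | h
  · rw [Nat.dist_eq_sub_of_le h, Nat.cast_sub h]
    rw [← gm_neg]
    congr 1
    ring
  · rw [Nat.dist_eq_sub_of_le_right h, Nat.cast_sub h]
    congr 1
    ring

/-- the inner sum over `m` -/
lemma inner_le {A H M P n n' : ℕ} {α : ℝ} (hP : 1 ≤ P) (hM : 1 ≤ M) (hn : P < n) (hn' : P < n') :
    ‖∑ m ∈ (Ioc M (2 * M)).filter (fun m => (A < m * n ∧ m * n ≤ A + H) ∧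
      (A < m * n' ∧ m * n' ≤ A + H)), ee (m * (α * ((n : ℝ) - n')))‖ ≤
      if Nat.dist n n' ≤ H / M then gm ((H : ℝ) / P + 1) ((Nat.dist n n' : ℝ) * α) else 0 := by
  have hn0 : 0 < n := by omega
  have hn0' : 0 < n' := by omega
  have hset : (Ioc M (2 * M)).filter (fun m => (A < m * n ∧ m * n ≤ A + H) ∧
      (A < m * n' ∧ m * n' ≤ A + H)) =
      Ioc (max M (max (A / n) (A / n'))) (min (2 * M) (min ((A + H) / n) ((A + H) / n'))) := by
    ext m
    rw [mem_filter, mem_Ioc, mem_Ioc, max_lt_iff, max_lt_iff, le_min_iff, le_min_iff,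
      Nat.div_lt_iff_lt_mul hn0, Nat.div_lt_iff_lt_mul hn0', Nat.le_div_iff_mul_le hn0,
      Nat.le_div_iff_mul_le hn0']
    tauto
  split_ifs with hd
  · rw [hset, ← gm_dist]
    refine (norm_Ioc_le _ _ _).trans ?_
    apply gm_mono
    have h1 := div_sub_le (A' := A) (B' := A + H) (H := H) hn0 le_rfl
    have h2 : (min (2 * M) (min ((A + H) / n) ((A + H) / n')) - max M (max (A / n) (A / n')) : ℕ)
        ≤ (A + H) / n - A / n := by
      have h3 : min (2 * M) (min ((A + H) / n) ((A + H) / n')) ≤ (A + H) / n :=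
        (min_le_right _ _).trans (min_le_left _ _)
      have h4 : A / n ≤ max M (max (A / n) (A / n')) :=
        (le_max_left _ _).trans (le_max_right _ _)
      omega
    have h2r : ((min (2 * M) (min ((A + H) / n) ((A + H) / n')) - max M (max (A / n) (A / n')) : ℕ)
        : ℝ) ≤ ((A + H) / n - A / n : ℕ) := by exact_mod_cast h2
    refine (h2r.trans h1).trans ?_
    have hPr : (0 : ℝ) < P := by exact_mod_cast hP
    have hnP : (P : ℝ) ≤ n := by exact_mod_cast hn.le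
    have : (H : ℝ) / n ≤ H / P := by gcongr
    linarith
  · have hempty : (Ioc M (2 * M)).filter (fun m => (A < m * n ∧ m * n ≤ A + H) ∧
      (A < m * n' ∧ m * n' ≤ A + H)) = ∅ := by
      rw [Finset.filter_eq_empty_iff]
      rintro m hm ⟨⟨h1, h2⟩, h3, h4⟩
      rw [mem_Ioc] at hm
      apply hd
      rw [Nat.le_div_iff_mul_le (by omega)]
      have h5 : Nat.dist n n' * m ≤ H := by
        rcases le_total n n' with h | h
        · rw [Nat.dist_eq_sub_of_le h, Nat.sub_mul, mul_comm n', mul_comm n]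
          omega
        · rw [Nat.dist_eq_sub_of_le_right h, Nat.sub_mul, mul_comm n', mul_comm n]
          omega
      exact (Nat.mul_le_mul_left _ hm.1.le).trans h5
    rw [hempty]
    simp

/-- the square of the norm of a sum, summed -/
lemma sum_sq_le {ι κ : Type} (s : Finset ι) (t : Finset κ) (z : ι → κ → ℂ) :
    ∑ m ∈ s, ‖∑ n ∈ t, z m n‖ ^ 2 ≤
      ∑ n ∈ t, ∑ n' ∈ t, ‖∑ m ∈ s, z m n * (starRingEnd ℂ) (z m n')‖ := by
  have h1 : ((∑ m ∈ s, ‖∑ n ∈ t, z m n‖ ^ 2 : ℝ) : ℂ) =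
      ∑ n ∈ t, ∑ n' ∈ t, ∑ m ∈ s, z m n * (starRingEnd ℂ) (z m n') := by
    push_cast
    have h2 : ∀ m ∈ s, ((‖∑ n ∈ t, z m n‖ : ℂ)) ^ 2 =
        ∑ n ∈ t, ∑ n' ∈ t, z m n * (starRingEnd ℂ) (z m n') := by
      intro m _
      rw [← Complex.mul_conj', map_sum, Finset.sum_mul_sum]
    rw [Finset.sum_congr rfl h2, Finset.sum_comm]
    refine Finset.sum_congr rfl fun n _ => ?_
    rw [Finset.sum_comm]
  have h3 : (∑ m ∈ s, ‖∑ n ∈ t, z m n‖ ^ 2 : ℝ) =
      ‖((∑ m ∈ s, ‖∑ n ∈ t, z m n‖ ^ 2 : ℝ) : ℂ)‖ := by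
    rw [Complex.norm_real, Real.norm_of_nonneg]
    exact Finset.sum_nonneg fun _ _ => by positivity
  rw [h3, h1]
  refine (norm_sum_le _ _).trans (Finset.sum_le_sum fun n _ => ?_)
  exact norm_sum_le _ _

/-- Schur's test for a kernel depending on the distance -/
lemma schur (J : Finset ℕ) (τ : ℕ → ℝ) (g : ℕ → ℝ) (D : ℕ) (hg : ∀ d, 0 ≤ g d) :
    ∑ n ∈ J, ∑ n' ∈ J, τ n * τ n' * (if Nat.dist n n' ≤ D then g (Nat.dist n n') else 0) ≤
      (∑ n ∈ J, τ n ^ 2) * (2 * ∑ d ∈ range (D + 1), g d) := by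
  set K : ℕ → ℕ → ℝ := fun n n' => if Nat.dist n n' ≤ D then g (Nat.dist n n') else 0 with hK
  have hK0 : ∀ n n', 0 ≤ K n n' := by
    intro n n'
    simp only [hK]
    split_ifs
    · exact hg _
    · exact le_rfl
  have hKs : ∀ n n', K n n' = K n' n := by
    intro n n'
    simp only [hK]
    rw [Nat.dist_comm]
  have hrow : ∀ n, ∑ n' ∈ J, K n n' ≤ 2 * ∑ d ∈ range (D + 1), g d := by
    intro n
    have h1 : ∑ n' ∈ J, K n n' = ∑ n' ∈ J.filter (fun n' => Nat.dist n n' ≤ D),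
        g (Nat.dist n n') := by
      rw [Finset.sum_filter]
    rw [h1, ← Finset.sum_fiberwise_of_maps_to (t := range (D + 1)) (g := fun n' => Nat.dist n n')
      (by
        intro n' hn'
        rw [mem_filter] at hn'
        rw [mem_range]
        omega), Finset.mul_sum]
    refine Finset.sum_le_sum fun d _ => ?_
    have h2 : ∑ n' ∈ (J.filter (fun n' => Nat.dist n n' ≤ D)).filter (fun n' => Nat.dist n n' = d),
        g (Nat.dist n n') = ∑ n' ∈ (J.filter (fun n' => Nat.dist n n' ≤ D)).filter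
          (fun n' => Nat.dist n n' = d), g d := by
      refine Finset.sum_congr rfl fun n' hn' => ?_
      rw [mem_filter] at hn'
      rw [hn'.2]
    rw [h2, Finset.sum_const, nsmul_eq_mul]
    apply mul_le_mul_of_nonneg_right _ (hg d)
    have hsub : (J.filter (fun n' => Nat.dist n n' ≤ D)).filter (fun n' => Nat.dist n n' = d)
        ⊆ {n + d, n - d} := by
      intro t ht
      rw [Finset.mem_filter] at ht
      have h2 := ht.2
      rw [Finset.mem_insert, Finset.mem_singleton]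
      unfold Nat.dist at h2
      omega
    have h3 := (Finset.card_le_card hsub).trans Finset.card_le_two
    exact_mod_cast h3
  have hamgm : ∑ n ∈ J, ∑ n' ∈ J, τ n * τ n' * K n n' ≤
      ∑ n ∈ J, ∑ n' ∈ J, (τ n ^ 2 * K n n' + τ n' ^ 2 * K n n') / 2 := by
    refine Finset.sum_le_sum fun n _ => Finset.sum_le_sum fun n' _ => ?_
    have h1 : 0 ≤ (τ n - τ n') ^ 2 * K n n' := mul_nonneg (sq_nonneg _) (hK0 n n')
    nlinarith
  have hsym : ∑ n ∈ J, ∑ n' ∈ J, (τ n ^ 2 * K n n' + τ n' ^ 2 * K n n') / 2 =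
      ∑ n ∈ J, τ n ^ 2 * ∑ n' ∈ J, K n n' := by
    have h1 : ∑ n ∈ J, ∑ n' ∈ J, τ n' ^ 2 * K n n' = ∑ n ∈ J, ∑ n' ∈ J, τ n ^ 2 * K n n' := by
      rw [Finset.sum_comm]
      refine Finset.sum_congr rfl fun n _ => Finset.sum_congr rfl fun n' _ => ?_
      rw [hKs]
    have h2 : ∑ n ∈ J, ∑ n' ∈ J, (τ n ^ 2 * K n n' + τ n' ^ 2 * K n n') / 2 =
        (∑ n ∈ J, ∑ n' ∈ J, τ n ^ 2 * K n n' + ∑ n ∈ J, ∑ n' ∈ J, τ n' ^ 2 * K n n') / 2 := by
      rw [← Finset.sum_add_distrib, Finset.sum_div]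
      refine Finset.sum_congr rfl fun n _ => ?_
      rw [← Finset.sum_add_distrib, Finset.sum_div]
    rw [h2, h1]
    simp only [Finset.mul_sum]
    ring
  refine (hamgm.trans (le_of_eq hsym)).trans ?_
  rw [Finset.sum_mul]
  exact Finset.sum_le_sum fun n _ => mul_le_mul_of_nonneg_left (hrow n) (sq_nonneg _)

/-- the type II sum, squared -/
lemma typeII_sq {A H M P : ℕ} {α : ℝ} (hP : 1 ≤ P) (hM : 1 ≤ M) (a b : ℕ → ℂ)
    (ha : ∀ m, ‖a m‖ ≤ tau m) (hb : ∀ n, ‖b n‖ ≤ tau n) :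
    ‖∑ m ∈ Ioc M (2 * M), ∑ n ∈ Ioc P (2 * P),
      if A < m * n ∧ m * n ≤ A + H then a m * b n * ee (α * ((m * n : ℕ) : ℝ)) else 0‖ ^ 2 ≤
    (∑ m ∈ Icc 1 (2 * M), tau m ^ 2) * ((∑ n ∈ Icc 1 (2 * P), tau n ^ 2) *
      (2 * ∑ d ∈ range (H / M + 1), gm ((H : ℝ) / P + 1) (d * α))) := by
  have htau : ∀ n, 0 ≤ tau n := fun n => by unfold tau; positivity
  set z : ℕ → ℕ → ℂ := fun m n =>
    if A < m * n ∧ m * n ≤ A + H then b n * ee (α * ((m * n : ℕ) : ℝ)) else 0 with hz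
  have e1 : ∑ m ∈ Ioc M (2 * M), ∑ n ∈ Ioc P (2 * P),
      (if A < m * n ∧ m * n ≤ A + H then a m * b n * ee (α * ((m * n : ℕ) : ℝ)) else 0) =
      ∑ m ∈ Ioc M (2 * M), a m * ∑ n ∈ Ioc P (2 * P), z m n := by
    refine Finset.sum_congr rfl fun m _ => ?_
    rw [Finset.mul_sum]
    refine Finset.sum_congr rfl fun n _ => ?_
    simp only [hz]
    split_ifs
    · ring
    · ring
  have hg0 : ∀ d : ℕ, 0 ≤ gm ((H : ℝ) / P + 1) (d * α) := fun d => gm_nonneg (by positivity) _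
  have hCS : ‖∑ m ∈ Ioc M (2 * M), a m * ∑ n ∈ Ioc P (2 * P), z m n‖ ^ 2 ≤
      (∑ m ∈ Ioc M (2 * M), tau m ^ 2) * ∑ m ∈ Ioc M (2 * M), ‖∑ n ∈ Ioc P (2 * P), z m n‖ ^ 2 := by
    have h1 : ‖∑ m ∈ Ioc M (2 * M), a m * ∑ n ∈ Ioc P (2 * P), z m n‖ ≤
        ∑ m ∈ Ioc M (2 * M), tau m * ‖∑ n ∈ Ioc P (2 * P), z m n‖ := by
      refine (norm_sum_le _ _).trans (Finset.sum_le_sum fun m _ => ?_)
      rw [norm_mul]
      exact mul_le_mul_of_nonneg_right (ha m) (norm_nonneg _)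
    refine (pow_le_pow_left₀ (norm_nonneg _) h1 2).trans ?_
    exact Finset.sum_mul_sq_le_sq_mul_sq _ _ _
  rw [e1]
  refine hCS.trans ?_
  have hmono1 : ∑ m ∈ Ioc M (2 * M), tau m ^ 2 ≤ ∑ m ∈ Icc 1 (2 * M), tau m ^ 2 := by
    apply Finset.sum_le_sum_of_subset_of_nonneg
    · intro m hm
      rw [mem_Ioc] at hm
      rw [mem_Icc]
      omega
    · intro _ _ _; positivity
  have hmono2 : ∑ m ∈ Ioc P (2 * P), tau m ^ 2 ≤ ∑ m ∈ Icc 1 (2 * P), tau m ^ 2 := by
    apply Finset.sum_le_sum_of_subset_of_nonneg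
    · intro m hm
      rw [mem_Ioc] at hm
      rw [mem_Icc]
      omega
    · intro _ _ _; positivity
  have hkey : ∑ m ∈ Ioc M (2 * M), ‖∑ n ∈ Ioc P (2 * P), z m n‖ ^ 2 ≤
      (∑ n ∈ Ioc P (2 * P), tau n ^ 2) *
        (2 * ∑ d ∈ range (H / M + 1), gm ((H : ℝ) / P + 1) (d * α)) := by
    refine (sum_sq_le _ _ z).trans ?_
    refine le_trans ?_ (schur (Ioc P (2 * P)) tau (fun d => gm ((H : ℝ) / P + 1) (d * α)) (H / M)
      hg0)
    refine Finset.sum_le_sum fun n hn => Finset.sum_le_sum fun n' hn' => ?_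
    rw [mem_Ioc] at hn hn'
    have e2 : ∑ m ∈ Ioc M (2 * M), z m n * (starRingEnd ℂ) (z m n') =
        b n * (starRingEnd ℂ) (b n') *
          ∑ m ∈ (Ioc M (2 * M)).filter (fun m => (A < m * n ∧ m * n ≤ A + H) ∧
            (A < m * n' ∧ m * n' ≤ A + H)), ee (m * (α * ((n : ℝ) - n'))) := by
      rw [Finset.mul_sum, Finset.sum_filter]
      refine Finset.sum_congr rfl fun m _ => ?_
      simp only [hz]
      by_cases h1 : A < m * n ∧ m * n ≤ A + H
      · by_cases h2 : A < m * n' ∧ m * n' ≤ A + H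
        · rw [if_pos h1, if_pos h2, if_pos ⟨h1, h2⟩, map_mul]
          have e3 : ee (m * (α * ((n : ℝ) - n'))) =
              ee (α * ((m * n : ℕ) : ℝ)) * (starRingEnd ℂ) (ee (α * ((m * n' : ℕ) : ℝ))) := by
            rw [← ee_sub]
            congr 1
            push_cast
            ring
          rw [e3]
          ring
        · have h3 : ¬ ((A < m * n ∧ m * n ≤ A + H) ∧ (A < m * n' ∧ m * n' ≤ A + H)) :=
            fun h => h2 h.2
          rw [if_neg h2, if_neg h3, map_zero, mul_zero]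
      · have h3 : ¬ ((A < m * n ∧ m * n ≤ A + H) ∧ (A < m * n' ∧ m * n' ≤ A + H)) :=
          fun h => h1 h.1
        rw [if_neg h1, if_neg h3, zero_mul]
    rw [e2, norm_mul, norm_mul, RCLike.norm_conj]
    have h5 := inner_le (A := A) (H := H) (α := α) hP hM hn.1 hn'.1
    apply mul_le_mul _ h5 (norm_nonneg _) (mul_nonneg (htau _) (htau _))
    exact mul_le_mul (hb n) (hb n') (norm_nonneg _) (htau _)
  have hS0 : 0 ≤ ∑ d ∈ range (H / M + 1), gm ((H : ℝ) / P + 1) (d * α) :=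
    Finset.sum_nonneg fun d _ => hg0 d
  apply mul_le_mul hmono1 _ (Finset.sum_nonneg fun _ _ => by positivity)
    (Finset.sum_nonneg fun _ _ => by positivity)
  refine hkey.trans ?_
  apply mul_le_mul_of_nonneg_right hmono2 (by positivity)

/-- the numerical part of the type II estimate -/
lemma num {N H M P q x ℓ E u v w S Nm : ℝ} (hN : 0 < N) (hH : 0 < H) (hM : 1 ≤ M) (hP : 1 ≤ P)
    (hq : 1 ≤ q) (hℓ : 2 ≤ ℓ) (hPM : P ≤ M) (hMP : M * P ≤ 32 * N)
    (hxP : x ≤ 4 * P) (hxH : x * H * Nm = N) (hNm : 0 < Nm) (hE : 0 ≤ E) (hu : 0 ≤ u) (hv : 0 ≤ v)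
    (hw : 0 ≤ w) (hu2 : u ^ 2 = H ^ 2 / q) (hv2 : H ^ 2 * Nm ≤ v ^ 2) (hw2 : w ^ 2 = N * q)
    (hS0 : 0 ≤ S)
    (hS : S ^ 2 ≤ (2 * M * E) * ((2 * P * E) * (2 * (8 * ((H / M + 1) / q + 1) *
      (H / P + 1 + q * ℓ))))) : S ≤ 160 * E * ℓ * (u + v + w) := by
  have hM0 : 0 < M := by linarith
  have hP0 : 0 < P := by linarith
  have hq0 : 0 < q := by linarith
  -- M Nm⁻¹ bound
  have h1 : M ≤ 128 * H * Nm := by
    have h2 : M * x ≤ 128 * N := by nlinarith
    have h3 : M * N ≤ 128 * N * (H * Nm) := by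
      calc M * N = (M * x) * (H * Nm) := by rw [← hxH]; ring
        _ ≤ 128 * N * (H * Nm) := by
          apply mul_le_mul_of_nonneg_right h2 (by positivity)
    have h4 : N * M ≤ N * (128 * H * Nm) := by linarith
    exact le_of_mul_le_mul_left h4 hN
  have hHM : H * M ≤ 128 * v ^ 2 := by
    calc H * M ≤ H * (128 * H * Nm) := by
          apply mul_le_mul_of_nonneg_left h1 hH.le
      _ = 128 * (H ^ 2 * Nm) := by ring
      _ ≤ 128 * v ^ 2 := by linarith
  have h5 : (H / M + 1) / q + 1 ≤ H / (M * q) + 2 := by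
    have : 1 / q ≤ 1 := by rw [div_le_one hq0]; exact hq
    have e : (H / M + 1) / q = H / (M * q) + 1 / q := by field_simp
    rw [e]; linarith
  have h6 : M * P * ((H / (M * q) + 2) * (H / P + 1 + q * ℓ)) =
      H ^ 2 / q + H * P / q + H * P * ℓ + 2 * (H * M) + 2 * (M * P) + 2 * (M * P) * (q * ℓ) := by
    field_simp
    ring
  have h7 : H * P / q ≤ H * M * ℓ := by
    rw [div_le_iff₀ hq0]
    have : 0 ≤ H * M := by positivity
    have h8 : H * P ≤ H * M := mul_le_mul_of_nonneg_left hPM hH.le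
    have h9 : H * M * 1 ≤ H * M * (ℓ * q) := by
      apply mul_le_mul_of_nonneg_left _ this
      nlinarith
    nlinarith
  have h8 : H * P * ℓ ≤ H * M * ℓ := by
    have : H * P ≤ H * M := mul_le_mul_of_nonneg_left hPM hH.le
    apply mul_le_mul_of_nonneg_right this (by linarith)
  have h9 : 2 * (H * M) ≤ H * M * ℓ := by
    have : 0 ≤ H * M := by positivity
    nlinarith
  have h10 : 2 * (M * P) ≤ 2 * (M * P) * (q * ℓ) := by
    have h11 : 0 ≤ M * P := by positivity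
    have h12 : 1 ≤ q * ℓ := by nlinarith
    nlinarith
  have h11 : 2 * (M * P) * (q * ℓ) ≤ 64 * w ^ 2 * ℓ := by
    rw [hw2]
    have : 0 ≤ q * ℓ := by positivity
    nlinarith
  have h12 : M * P * ((H / (M * q) + 2) * (H / P + 1 + q * ℓ)) ≤
      384 * ℓ * (u + v + w) ^ 2 := by
    rw [h6, ← hu2]
    have h13 : H * M * ℓ ≤ 128 * v ^ 2 * ℓ := mul_le_mul_of_nonneg_right hHM (by linarith)
    have h14 : u ^ 2 ≤ 384 * ℓ * u ^ 2 := by
      have : 0 ≤ u ^ 2 := sq_nonneg _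
      nlinarith
    have h15 : u ^ 2 + v ^ 2 + w ^ 2 ≤ (u + v + w) ^ 2 := by
      nlinarith [mul_nonneg hu hv, mul_nonneg hu hw, mul_nonneg hv hw]
    have h16 : 384 * ℓ * (u ^ 2 + v ^ 2 + w ^ 2) ≤ 384 * ℓ * (u + v + w) ^ 2 :=
      mul_le_mul_of_nonneg_left h15 (by linarith)
    have h17 : 0 ≤ w ^ 2 * ℓ := by positivity
    nlinarith
  have h13 : S ^ 2 ≤ (160 * E * ℓ * (u + v + w)) ^ 2 := by
    refine hS.trans ?_
    have e1 : (2 * M * E) * ((2 * P * E) * (2 * (8 * ((H / M + 1) / q + 1) *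
        (H / P + 1 + q * ℓ)))) =
        64 * E ^ 2 * (M * P * (((H / M + 1) / q + 1) * (H / P + 1 + q * ℓ))) := by ring
    rw [e1]
    have h14 : M * P * (((H / M + 1) / q + 1) * (H / P + 1 + q * ℓ)) ≤
        384 * ℓ * (u + v + w) ^ 2 := by
      refine le_trans ?_ h12
      apply mul_le_mul_of_nonneg_left _ (by positivity)
      apply mul_le_mul_of_nonneg_right h5
      have : 0 ≤ H / P := by positivity
      nlinarith
    calc 64 * E ^ 2 * (M * P * (((H / M + 1) / q + 1) * (H / P + 1 + q * ℓ)))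
        ≤ 64 * E ^ 2 * (384 * ℓ * (u + v + w) ^ 2) := by
          apply mul_le_mul_of_nonneg_left h14 (by positivity)
      _ ≤ (160 * E * ℓ * (u + v + w)) ^ 2 := by
          have h15 : 0 ≤ E ^ 2 * (u + v + w) ^ 2 := by positivity
          have h16 : ℓ ≤ ℓ ^ 2 := by nlinarith
          have h17 : E ^ 2 * (u + v + w) ^ 2 * ℓ ≤ E ^ 2 * (u + v + w) ^ 2 * ℓ ^ 2 :=
            mul_le_mul_of_nonneg_left h16 h15
          have h18 : 0 ≤ E ^ 2 * (u + v + w) ^ 2 * ℓ ^ 2 := by positivity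
          nlinarith
  exact (pow_le_pow_iff_left₀ hS0 (by positivity) (by norm_num)).mp h13

lemma log64 : Real.log 64 ≤ 5 := by
  have h5 := Real.log_two_lt_d9
  have h6 : Real.log 64 = 6 * Real.log 2 := by
    rw [show (64 : ℝ) = 2 ^ 6 by norm_num, Real.log_pow]
    norm_num
  rw [h6]
  linarith

lemma log4 : Real.log 4 ≤ 2 := by
  have h5 := Real.log_two_lt_d9
  have h6 : Real.log 4 = 2 * Real.log 2 := by
    rw [show (4 : ℝ) = 2 ^ 2 by norm_num, Real.log_pow]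
    norm_num
  rw [h6]
  linarith

/-- the trivial bound -/
lemma trivial_le {N A H : ℕ} (α : ℝ) (hN : 1 ≤ N) (hAH : A + H ≤ 4 * N) :
    ‖∑ n ∈ Ioc A (A + H), (ArithmeticFunction.vonMangoldt n : ℂ) * ee (α * n)‖ ≤
      H * Real.log (4 * N) := by
  have h1 : ‖∑ n ∈ Ioc A (A + H), (ArithmeticFunction.vonMangoldt n : ℂ) * ee (α * n)‖ ≤
      ∑ _n ∈ Ioc A (A + H), Real.log (4 * N) := by
    refine (norm_sum_le _ _).trans (Finset.sum_le_sum fun n hn => ?_)
    rw [mem_Ioc] at hn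
    rw [norm_mul, norm_ee, mul_one, Complex.norm_real,
      Real.norm_of_nonneg ArithmeticFunction.vonMangoldt_nonneg]
    refine ArithmeticFunction.vonMangoldt_le_log.trans ?_
    apply Real.log_le_log
    · have : 0 < n := by omega
      exact_mod_cast this
    · have : n ≤ 4 * N := by omega
      exact_mod_cast this
  refine h1.trans (le_of_eq ?_)
  rw [Finset.sum_const, Nat.card_Ioc, nsmul_eq_mul]
  congr 2
  omega

end Exp

open Exp in
theorem claimExp (h1 : ClaimVaughan) (h2 : ClaimSumGM) (h3 : ClaimSumGM2) (h4 : ClaimTau) :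
    ClaimExp := by
  obtain ⟨CV, hCV, hV⟩ := h1
  obtain ⟨C1, hG2⟩ := h3
  obtain ⟨C4, hT⟩ := h4 2
  obtain ⟨K, hK⟩ := pow_unbounded_of_one_lt (CV * (4 * |C1| + 160 * 4 ^ C4))
    (by norm_num : (1 : ℝ) < 2)
  refine ⟨K + 4 + C4, 32, ?_⟩
  intro N A H q a α hN32 hNA hAH hH1 hH2 hq hcop hα
  have hNr : (32 : ℝ) ≤ N := by exact_mod_cast hN32
  have hNone : (1 : ℝ) ≤ N := by linarith
  have hNpos : (0 : ℝ) < N := by linarith
  have hlog : 0 ≤ Real.log N := Real.log_nonneg hNone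
  have hHpos : (0 : ℝ) < H := lt_of_lt_of_le (Real.rpow_pos_of_pos hNpos _) hH1
  have hH1' : 1 ≤ H := by
    have : 0 < H := by exact_mod_cast hHpos
    omega
  have hqr : (1 : ℝ) ≤ q := by exact_mod_cast hq
  have hq0 : (0 : ℝ) < q := by linarith
  have hHN : (H : ℝ) ≤ N := hH2.trans (by
    calc (N : ℝ) ^ ((80 : ℝ) / 100) ≤ (N : ℝ) ^ (1 : ℝ) :=
          Real.rpow_le_rpow_of_exponent_le hNone (by norm_num)
      _ = N := Real.rpow_one _)
  set ℓ : ℝ := 2 + Real.log N with hℓ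
  have hℓ2 : 2 ≤ ℓ := by linarith
  have hlog4 : Real.log (4 * N) ≤ ℓ := by
    rw [Real.log_mul (by norm_num) hNpos.ne']
    have := log4
    linarith
  have hlog4' : 0 ≤ Real.log (4 * N) := Real.log_nonneg (by linarith)
  set u : ℝ := H / Real.sqrt q with hu
  set v : ℝ := H * (N : ℝ) ^ (-(1 : ℝ) / 4000) with hv
  set w : ℝ := Real.sqrt (N * q) with hw
  have hu0 : 0 ≤ u := by positivity
  have hv0 : 0 ≤ v := by positivity
  have hw0 : 0 ≤ w := by positivity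
  have hsum : (H : ℝ) * ℓ ^ (K + 4 + C4) * (1 / Real.sqrt q + (N : ℝ) ^ (-(1 : ℝ) / 4000) +
      Real.sqrt (N * q) / H) = ℓ ^ (K + 4 + C4) * (u + v + w) := by
    rw [hu, hv, hw]
    field_simp
  rw [hsum]
  rcases lt_or_ge N q with hqN | hqN
  · -- the trivial bound
    refine (trivial_le α (by omega) hAH).trans ?_
    have h5 : (H : ℝ) ≤ w := by
      refine hHN.trans ?_
      rw [hw]
      apply Real.le_sqrt_of_sq_le
      have : (N : ℝ) ≤ q := by exact_mod_cast hqN.le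
      nlinarith
    have h6 : ℓ ≤ ℓ ^ (K + 4 + C4) := le_self_pow₀ (by linarith) (by omega)
    calc (H : ℝ) * Real.log (4 * N) ≤ w * ℓ := mul_le_mul h5 hlog4 hlog4' hw0
      _ ≤ (u + v + w) * ℓ ^ (K + 4 + C4) := by
          apply mul_le_mul _ h6 (by linarith) (by positivity)
          linarith
      _ = ℓ ^ (K + 4 + C4) * (u + v + w) := by ring
  have hqNr : (q : ℝ) ≤ N := by exact_mod_cast hqN
  have hlogq : 1 + Real.log q ≤ ℓ := by
    have := Real.log_le_log hq0 hqNr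
    linarith
  set x : ℝ := (N : ℝ) ^ ((1 : ℝ) / 1000) * N / H with hx
  set U : ℕ := ⌊x⌋₊ with hU
  have hxpos : 0 < x := by positivity
  have hUx : (U : ℝ) ≤ x := Nat.floor_le hxpos.le
  have hxU : x < U + 1 := Nat.lt_floor_add_one x
  have hxH : x * H = (N : ℝ) ^ ((1 : ℝ) / 1000) * N := by
    rw [hx]; field_simp
  have hx231 : x ≤ (N : ℝ) ^ ((231 : ℝ) / 1000) := by
    rw [hx, div_le_iff₀ hHpos]
    calc (N : ℝ) ^ ((1 : ℝ) / 1000) * N = (N : ℝ) ^ ((1 : ℝ) / 1000) * (N : ℝ) ^ (1 : ℝ) := by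
          rw [Real.rpow_one]
      _ = (N : ℝ) ^ ((231 : ℝ) / 1000) * (N : ℝ) ^ ((77 : ℝ) / 100) := by
          rw [← Real.rpow_add hNpos, ← Real.rpow_add hNpos]
          congr 1
          norm_num
      _ ≤ (N : ℝ) ^ ((231 : ℝ) / 1000) * H := by gcongr
  have h2H : 2 * (H : ℝ) ≤ (N : ℝ) ^ ((1 : ℝ) / 1000) * N := by
    have e1 : (2 : ℝ) ≤ (N : ℝ) ^ ((1 : ℝ) / 5) := by
      have e2 : (2 : ℝ) = (32 : ℝ) ^ ((1 : ℝ) / 5) := by
        rw [show (32 : ℝ) = 2 ^ (5 : ℝ) by norm_num, ← Real.rpow_mul (by norm_num)]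
        norm_num
      rw [e2]
      exact Real.rpow_le_rpow (by norm_num) hNr (by norm_num)
    calc 2 * (H : ℝ) ≤ (N : ℝ) ^ ((1 : ℝ) / 5) * (N : ℝ) ^ ((80 : ℝ) / 100) := by
          apply mul_le_mul e1 hH2 hHpos.le (by positivity)
      _ = (N : ℝ) ^ (1 : ℝ) := by
          rw [← Real.rpow_add hNpos]
          congr 1
          norm_num
      _ = 1 * N := by rw [Real.rpow_one, one_mul]
      _ ≤ (N : ℝ) ^ ((1 : ℝ) / 1000) * N := by
          apply mul_le_mul_of_nonneg_right _ hNpos.le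
          exact Real.one_le_rpow hNone (by norm_num)
  have hx2 : 2 ≤ x := by
    rw [hx, le_div_iff₀ hHpos]
    exact h2H
  have hU1 : 1 ≤ U := by
    rw [hU]
    exact Nat.le_floor (by push_cast; linarith)
  have hU3 : U ^ 3 ≤ N := by
    have e1 : ((U : ℝ)) ^ 3 ≤ N := by
      calc (U : ℝ) ^ 3 ≤ ((N : ℝ) ^ ((231 : ℝ) / 1000)) ^ 3 :=
            pow_le_pow_left₀ (by positivity) (hUx.trans hx231) 3
        _ = (N : ℝ) ^ ((231 : ℝ) / 1000 * (3 : ℕ)) := by
            rw [Real.rpow_mul hNpos.le, Real.rpow_natCast]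
        _ ≤ (N : ℝ) ^ (1 : ℝ) := Real.rpow_le_rpow_of_exponent_le hNone (by norm_num)
        _ = N := Real.rpow_one _
    exact_mod_cast e1
  have hUv : (U : ℝ) ≤ v := by
    rw [hv]
    calc (U : ℝ) ≤ (N : ℝ) ^ ((231 : ℝ) / 1000) := hUx.trans hx231
      _ ≤ (N : ℝ) ^ ((77 : ℝ) / 100 + -(1 : ℝ) / 4000) :=
          Real.rpow_le_rpow_of_exponent_le hNone (by norm_num)
      _ = (N : ℝ) ^ ((77 : ℝ) / 100) * (N : ℝ) ^ (-(1 : ℝ) / 4000) := Real.rpow_add hNpos _ _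
      _ ≤ H * (N : ℝ) ^ (-(1 : ℝ) / 4000) := by gcongr
  have hUH : U ≤ H := by
    have e1 : (U : ℝ) ≤ H :=
      (hUx.trans hx231).trans
        ((Real.rpow_le_rpow_of_exponent_le hNone (by norm_num)).trans hH1)
    exact_mod_cast e1
  have hUN : U ≤ N := by
    calc U ≤ U ^ 3 := Nat.le_self_pow (by norm_num) U
      _ ≤ N := hU3
  have hUNr : (U : ℝ) ≤ N := by exact_mod_cast hUN
  have hU1r : (1 : ℝ) ≤ U := by exact_mod_cast hU1
  -- type I
  have hT1 : ∑ m ∈ Icc 1 U, gm (2 * H / m) (m * α) ≤ 4 * |C1| * ℓ * (u + v + w) := by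
    have e1 := hG2 α q a U (2 * H) hq hU1 (by positivity) hcop hα
    have e2 : Real.log (2 * q * U) ≤ 1 + 2 * Real.log N := by
      have e3 : (2 * (q : ℝ) * U) ≤ 2 * (N * N) := by
        have : (q : ℝ) * U ≤ N * N := mul_le_mul hqNr hUNr (by positivity) hNpos.le
        linarith
      refine (Real.log_le_log (by positivity) e3).trans ?_
      rw [Real.log_mul (by norm_num) (by positivity), Real.log_mul hNpos.ne' hNpos.ne']
      have := Real.log_two_lt_d9
      linarith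
    have e4 : 0 ≤ Real.log (2 * q * U) := Real.log_nonneg (by nlinarith)
    have e5 : 2 * (H : ℝ) / q + U + q ≤ 2 * (u + v + w) := by
      have e6 : (H : ℝ) / q ≤ u := by
        rw [hu]
        apply div_le_div_of_nonneg_left hHpos.le (by positivity)
        rw [Real.sqrt_le_left (by linarith)]
        nlinarith
      have e7 : (q : ℝ) ≤ w := by
        rw [hw]
        apply Real.le_sqrt_of_sq_le
        nlinarith
      have e8 : 2 * (H : ℝ) / q = 2 * (H / q) := by ring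
      rw [e8]
      linarith
    have e9 : 0 ≤ (2 * (H : ℝ) / q + U + q) * (1 + Real.log (2 * q * U)) := by positivity
    calc ∑ m ∈ Icc 1 U, gm (2 * H / m) (m * α) ≤
          C1 * (2 * H / q + U + q) * (1 + Real.log (2 * q * U)) := e1
      _ = C1 * ((2 * H / q + U + q) * (1 + Real.log (2 * q * U))) := by ring
      _ ≤ |C1| * ((2 * H / q + U + q) * (1 + Real.log (2 * q * U))) :=
          mul_le_mul_of_nonneg_right (le_abs_self _) e9
      _ ≤ |C1| * ((2 * (u + v + w)) * (2 * ℓ)) := by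
          apply mul_le_mul_of_nonneg_left _ (abs_nonneg _)
          apply mul_le_mul e5 (by linarith) (by linarith) (by positivity)
      _ = 4 * |C1| * ℓ * (u + v + w) := by ring
  have key := hV N A (A + H) U (fun n => ee (α * n)) (fun m => gm (2 * H / m) (m * α))
    (160 * (4 * ℓ) ^ C4 * ℓ * (u + v + w)) hU1 hU3 (by omega) hNA (by omega) (by omega)
    (fun m => gm_nonneg (by positivity) _) (by positivity)
    (by
      intro m A' B' hm hmU hAA' hAB' hB'
      have e1 : ∑ n ∈ Ioc (A' / m) (B' / m), ee (α * ((m * n : ℕ) : ℝ)) =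
          ∑ n ∈ Ioc (A' / m) (B' / m), ee (n * (m * α)) := by
        refine Finset.sum_congr rfl fun n _ => ?_
        congr 1
        push_cast
        ring
      rw [e1]
      refine (norm_Ioc_le _ _ _).trans (gm_mono ?_)
      have e2 := div_sub_le (A' := A') (B' := B') (H := H) (n := m) (by omega) (by omega)
      refine e2.trans ?_
      have hmr : (0 : ℝ) < m := by exact_mod_cast (by omega : 0 < m)
      have e3 : (1 : ℝ) ≤ H / m := by
        rw [le_div_iff₀ hmr, one_mul]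
        exact_mod_cast (by omega : m ≤ H)
      have e4 : 2 * (H : ℝ) / m = H / m + H / m := by ring
      rw [e4]
      linarith)
    (by
      intro M P hUP hPM hMP hNMP b c hb hc
      have hP1 : 1 ≤ P := by omega
      have hM1 : 1 ≤ M := by omega
      have hP1r : (1 : ℝ) ≤ P := by exact_mod_cast hP1
      have hM1r : (1 : ℝ) ≤ M := by exact_mod_cast hM1
      have hPMr : (P : ℝ) ≤ M := by exact_mod_cast hPM
      have hMPr : (M : ℝ) * P ≤ 32 * N := by exact_mod_cast hMP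
      have hM32 : (M : ℝ) ≤ 32 * N := by nlinarith
      have hlogX : ∀ X : ℕ, 1 ≤ X → (X : ℝ) ≤ 32 * N →
          ∑ m ∈ Icc 1 (2 * X), tau m ^ 2 ≤ 2 * X * (4 * ℓ) ^ C4 := by
        intro X hX1 hX
        have e1 := hT (2 * X) (by omega)
        refine e1.trans ?_
        have hX1r : (1 : ℝ) ≤ X := by exact_mod_cast hX1
        have e2 : Real.log ((2 * X : ℕ) : ℝ) ≤ 5 + Real.log N := by
          have e3 : ((2 * X : ℕ) : ℝ) ≤ 64 * N := by push_cast; linarith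
          refine (Real.log_le_log (by push_cast; linarith) e3).trans ?_
          rw [Real.log_mul (by norm_num) hNpos.ne']
          have := log64
          linarith
        have e3 : 0 ≤ Real.log ((2 * X : ℕ) : ℝ) := Real.log_natCast_nonneg _
        have e4 : (2 + Real.log ((2 * X : ℕ) : ℝ)) ^ C4 ≤ (4 * ℓ) ^ C4 :=
          pow_le_pow_left₀ (by linarith) (by linarith) C4
        have e5 : ((2 * X : ℕ) : ℝ) = 2 * X := by push_cast; ring
        rw [e5] at e4 ⊢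
        apply mul_le_mul_of_nonneg_left e4 (by positivity)
      have hsq := typeII_sq (A := A) (H := H) (α := α) hP1 hM1 b c hb hc
      have hNmpos : (0 : ℝ) < (N : ℝ) ^ (-(1 : ℝ) / 1000) := by positivity
      apply num (N := N) (H := H) (M := M) (P := P) (q := q) (x := x)
        (Nm := (N : ℝ) ^ (-(1 : ℝ) / 1000)) hNpos hHpos hM1r hP1r hqr hℓ2 hPMr hMPr
      · have : (U : ℝ) ≤ 2 * P := by exact_mod_cast hUP
        linarith
      · rw [hxH]
        have e1 : (N : ℝ) ^ ((1 : ℝ) / 1000) * (N : ℝ) ^ (-(1 : ℝ) / 1000) = 1 := by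
          rw [← Real.rpow_add hNpos]
          norm_num
        calc (N : ℝ) ^ ((1 : ℝ) / 1000) * N * (N : ℝ) ^ (-(1 : ℝ) / 1000) =
              ((N : ℝ) ^ ((1 : ℝ) / 1000) * (N : ℝ) ^ (-(1 : ℝ) / 1000)) * N := by ring
          _ = N := by rw [e1, one_mul]
      · exact hNmpos
      · positivity
      · exact hu0
      · exact hv0
      · exact hw0
      · rw [hu, div_pow, Real.sq_sqrt hq0.le]
      · rw [hv, mul_pow]
        apply mul_le_mul_of_nonneg_left _ (by positivity)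
        rw [← Real.rpow_natCast, ← Real.rpow_mul hNpos.le]
        exact Real.rpow_le_rpow_of_exponent_le hNone (by norm_num)
      · rw [hw, Real.sq_sqrt (by positivity)]
      · exact norm_nonneg _
      · refine hsq.trans ?_
        have e1 := hlogX M hM1 hM32
        have e2 := hlogX P hP1 (hPMr.trans hM32)
        have e3 := h2 α q a (H / M + 1) ((H : ℝ) / P + 1) hq (by positivity) hcop hα
        have e4 : (((H / M + 1 : ℕ) : ℝ)) ≤ H / M + 1 := by
          push_cast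
          have := Nat.cast_div_le (α := ℝ) (m := H) (n := M)
          linarith
        have e5 : ∑ d ∈ range (H / M + 1), gm ((H : ℝ) / P + 1) (d * α) ≤
            8 * (((H : ℝ) / M + 1) / q + 1) * (H / P + 1 + q * ℓ) := by
          refine e3.trans ?_
          apply mul_le_mul
          · apply mul_le_mul_of_nonneg_left _ (by norm_num)
            have : (((H / M + 1 : ℕ) : ℝ)) / q ≤ (H / M + 1) / q :=
              div_le_div_of_nonneg_right e4 hq0.le
            linarith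
          · have : (q : ℝ) * (1 + Real.log q) ≤ q * ℓ := mul_le_mul_of_nonneg_left hlogq hq0.le
            linarith
          · have : 0 ≤ Real.log q := Real.log_nonneg hqr
            positivity
          · positivity
        have e0 : ∀ X : ℕ, 0 ≤ ∑ m ∈ Icc 1 (2 * X), tau m ^ 2 := fun X =>
          Finset.sum_nonneg fun _ _ => by positivity
        have e6 : 0 ≤ ∑ d ∈ range (H / M + 1), gm ((H : ℝ) / P + 1) (d * α) :=
          Finset.sum_nonneg fun d _ => gm_nonneg (by positivity) _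
        have e7 : 0 ≤ (4 * ℓ) ^ C4 := by positivity
        apply mul_le_mul e1 _ (mul_nonneg (e0 _) (by positivity)) (by positivity)
        apply mul_le_mul e2 _ (by positivity) (by positivity)
        linarith)
  refine key.trans ?_
  have hone : (1 : ℝ) ≤ ℓ ^ C4 := one_le_pow₀ (by linarith)
  have hΔ : 0 ≤ u + v + w := by positivity
  have hKℓ : CV * (4 * |C1| + 160 * 4 ^ C4) ≤ ℓ ^ K :=
    hK.le.trans (pow_le_pow_left₀ (by norm_num) hℓ2 K)
  have hin : ∑ m ∈ Icc 1 U, gm (2 * H / m) (m * α) + 160 * (4 * ℓ) ^ C4 * ℓ * (u + v + w) ≤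
      (4 * |C1| + 160 * 4 ^ C4) * (ℓ * ℓ ^ C4 * (u + v + w)) := by
    have e1 : 4 * |C1| * ℓ * (u + v + w) ≤ 4 * |C1| * (ℓ * ℓ ^ C4 * (u + v + w)) := by
      have : ℓ * (u + v + w) * 1 ≤ ℓ * (u + v + w) * ℓ ^ C4 :=
        mul_le_mul_of_nonneg_left hone (by positivity)
      have h8 : 0 ≤ 4 * |C1| := by positivity
      calc 4 * |C1| * ℓ * (u + v + w) = 4 * |C1| * (ℓ * (u + v + w) * 1) := by ring
        _ ≤ 4 * |C1| * (ℓ * (u + v + w) * ℓ ^ C4) := mul_le_mul_of_nonneg_left this h8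
        _ = 4 * |C1| * (ℓ * ℓ ^ C4 * (u + v + w)) := by ring
    have e2 : 160 * (4 * ℓ) ^ C4 * ℓ * (u + v + w) =
        160 * 4 ^ C4 * (ℓ * ℓ ^ C4 * (u + v + w)) := by
      rw [mul_pow]; ring
    rw [e2, add_mul]
    linarith
  have hpos1 : 0 ≤ ∑ m ∈ Icc 1 U, gm (2 * H / m) (m * α) :=
    Finset.sum_nonneg fun m _ => gm_nonneg (by positivity) _
  calc CV * Real.log (4 * N) ^ 3 *
        (∑ m ∈ Icc 1 U, gm (2 * H / m) (m * α) + 160 * (4 * ℓ) ^ C4 * ℓ * (u + v + w))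
      ≤ CV * ℓ ^ 3 * ((4 * |C1| + 160 * 4 ^ C4) * (ℓ * ℓ ^ C4 * (u + v + w))) := by
        apply mul_le_mul _ hin (by positivity) (by positivity)
        have := pow_le_pow_left₀ hlog4' hlog4 3
        apply mul_le_mul_of_nonneg_left this hCV.le
    _ = (CV * (4 * |C1| + 160 * 4 ^ C4)) * (ℓ ^ 3 * (ℓ * ℓ ^ C4 * (u + v + w))) := by ring
    _ ≤ ℓ ^ K * (ℓ ^ 3 * (ℓ * ℓ ^ C4 * (u + v + w))) := by
        apply mul_le_mul_of_nonneg_right hKℓ (by positivity)
    _ = ℓ ^ (K + 4 + C4) * (u + v + w) := by ring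

end Pool.Agent.Work.MP_8e4d29_nt

end

section

/-!
MP_8e4d29_nt, item F1: Fourier expansion in base 2 (the general base `b` is proved).
-/

namespace Pool.Agent.Work.MP_8e4d29_nt

open Finset
open Pool.Agent.Work.MP_122e00_nt (ee norm_ee ee_add ee_neg ee_one_period ee_nat_mul)

namespace F2

/-- general base -/
noncomputable def cfb (b k : ℕ) (w : ℕ → ℝ) (ξ : ℕ) : ℂ :=
  ∏ i ∈ range k, (∑ d ∈ range b, ee (d * (w i - b ^ i * (ξ : ℝ) / b ^ k))) / b

lemma ee_eq_one {x : ℝ} (h : ee x = 1) : ∃ k : ℤ, x = k := by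
  obtain ⟨k, hk⟩ := exists_int_nd x
  have := norm_ee_sub_one_ge x
  rw [h, sub_self, norm_zero] at this
  have h0 : nd x = 0 := le_antisymm (by linarith) (nd_nonneg x)
  rw [h0] at hk
  have := abs_eq_zero.mp hk.symm
  exact ⟨k, by linarith⟩

lemma geom_full (b : ℕ) (hb : 0 < b) (m : ℤ) :
    ∑ j ∈ range b, ee ((m : ℝ) * j / b) = if (b : ℤ) ∣ m then (b : ℂ) else 0 := by
  have hbr : (b : ℝ) ≠ 0 := by exact_mod_cast hb.ne'
  have h1 : ∀ j ∈ range b, ee ((m : ℝ) * j / b) = ee ((m : ℝ) / b) ^ j := by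
    intro j _
    rw [← ee_nat_mul]
    congr 1
    ring
  rw [Finset.sum_congr rfl h1]
  split_ifs with h
  · obtain ⟨c, rfl⟩ := h
    have e : (((b : ℤ) * c : ℤ) : ℝ) / b = (c : ℝ) := by push_cast; field_simp
    rw [e, ee_int]
    simp
  · have hne : ee ((m : ℝ) / b) ≠ 1 := by
      intro h2
      obtain ⟨c, hc⟩ := ee_eq_one h2
      apply h
      refine ⟨c, ?_⟩
      rw [div_eq_iff hbr] at hc
      have : (m : ℝ) = ((b : ℤ) * c : ℤ) := by push_cast; linarith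
      exact_mod_cast this
    rw [geom_sum_eq hne]
    have h3 : ee ((m : ℝ) / b) ^ b = 1 := by
      rw [← ee_nat_mul]
      have e : (b : ℝ) * ((m : ℝ) / b) = (m : ℝ) := by field_simp
      rw [e, ee_int]
    rw [h3, sub_self, zero_div]

lemma range_mul_sum {M : Type*} [AddCommMonoid M] (B b : ℕ) (f : ℕ → M) :
    ∑ ξ ∈ range (b * B), f ξ = ∑ ξ ∈ range B, ∑ j ∈ range b, f (ξ + j * B) := by
  induction b with
  | zero => simp
  | succ b ih =>
    rw [Nat.succ_mul, Finset.sum_range_add, ih]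
    simp_rw [Finset.sum_range_succ]
    rw [Finset.sum_add_distrib]
    congr 1
    apply Finset.sum_congr rfl
    intro x _
    rw [add_comm]

lemma cfb_succ (b k : ℕ) (hb : 0 < b) (w : ℕ → ℝ) (ξ : ℕ) :
    cfb b (k + 1) w ξ = (∑ d ∈ range b, ee (d * (w 0 - (ξ : ℝ) / b ^ (k + 1)))) / b *
      cfb b k (fun i => w (i + 1)) ξ := by
  have hbr : (b : ℝ) ≠ 0 := by exact_mod_cast hb.ne'
  unfold cfb
  rw [Finset.prod_range_succ', mul_comm]
  congr 1
  · rw [pow_zero, one_mul]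
  · refine Finset.prod_congr rfl fun i _ => ?_
    congr 1
    refine Finset.sum_congr rfl fun d _ => ?_
    congr 3
    rw [pow_succ, pow_succ]
    field_simp

lemma cfb_period (b k : ℕ) (hb : 0 < b) (w : ℕ → ℝ) (ξ j : ℕ) :
    cfb b k w (ξ + j * b ^ k) = cfb b k w ξ := by
  have hbr : (b : ℝ) ≠ 0 := by exact_mod_cast hb.ne'
  unfold cfb
  refine Finset.prod_congr rfl fun i _ => ?_
  congr 1
  refine Finset.sum_congr rfl fun d _ => ?_
  have e : (d : ℝ) * (w i - (b : ℝ) ^ i * ((ξ + j * b ^ k : ℕ) : ℝ) / (b : ℝ) ^ k)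
      = (d : ℝ) * (w i - (b : ℝ) ^ i * (ξ : ℝ) / (b : ℝ) ^ k) + ((-(d * b ^ i * j : ℕ) : ℤ) : ℝ) := by
    push_cast
    field_simp
    ring
  rw [e, ee_one_period]

lemma inner (b k : ℕ) (hb : 0 < b) (w0 : ℝ) (n ξ : ℕ) :
    ∑ j ∈ range b, (∑ d ∈ range b, ee (d * (w0 - ((ξ + j * b ^ k : ℕ) : ℝ) / b ^ (k + 1)))) / b *
      ee ((n : ℝ) * ((ξ + j * b ^ k : ℕ) : ℝ) / b ^ (k + 1)) =
    ee (w0 * ((n % b : ℕ) : ℝ)) * ee (((n / b : ℕ) : ℝ) * ξ / b ^ k) := by
  have hbr : (b : ℝ) ≠ 0 := by exact_mod_cast hb.ne'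
  have hbc : (b : ℂ) ≠ 0 := by exact_mod_cast hb.ne'
  have h1 : ∑ j ∈ range b, (∑ d ∈ range b,
      ee (d * (w0 - ((ξ + j * b ^ k : ℕ) : ℝ) / b ^ (k + 1)))) / b *
      ee ((n : ℝ) * ((ξ + j * b ^ k : ℕ) : ℝ) / b ^ (k + 1))
      = ∑ d ∈ range b, ee (d * w0) * ee ((((n : ℤ) - d : ℤ) : ℝ) * ξ / b ^ (k + 1)) *
        (∑ j ∈ range b, ee ((((n : ℤ) - d : ℤ) : ℝ) * j / b)) / b := by
    simp_rw [Finset.mul_sum, Finset.sum_div, Finset.sum_mul]
    rw [Finset.sum_comm]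
    refine Finset.sum_congr rfl fun d _ => Finset.sum_congr rfl fun j _ => ?_
    rw [div_mul_eq_mul_div, ← ee_add, ← ee_add, ← ee_add]
    congr 2
    push_cast
    rw [pow_succ]
    field_simp
    ring
  rw [h1]
  have h2 : ∀ d ∈ range b, ee (d * w0) * ee ((((n : ℤ) - d : ℤ) : ℝ) * ξ / b ^ (k + 1)) *
        (∑ j ∈ range b, ee ((((n : ℤ) - d : ℤ) : ℝ) * j / b)) / b =
      if d = n % b then ee (w0 * ((n % b : ℕ) : ℝ)) * ee (((n / b : ℕ) : ℝ) * ξ / b ^ k) else 0 := by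
    intro d hd
    rw [Finset.mem_range] at hd
    rw [geom_full b hb]
    by_cases h : d = n % b
    · rw [if_pos h]
      have hn := Nat.mod_add_div n b
      rw [← h] at hn
      have hdvd : (b : ℤ) ∣ (n : ℤ) - d := ⟨((n / b : ℕ) : ℤ), by
        have : (n : ℤ) = d + b * ((n / b : ℕ) : ℤ) := by exact_mod_cast hn.symm
        rw [this]; ring⟩
      rw [if_pos hdvd, mul_div_assoc, div_self hbc, mul_one, ← h]
      have e1 : (((n : ℤ) - d : ℤ) : ℝ) = b * ((n / b : ℕ) : ℝ) := by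
        have : (n : ℝ) = d + b * ((n / b : ℕ) : ℝ) := by exact_mod_cast hn.symm
        push_cast
        linarith
      congr 1
      · congr 1; ring
      · congr 1
        rw [e1, pow_succ]
        field_simp
    · rw [if_neg h]
      have hdvd : ¬ (b : ℤ) ∣ (n : ℤ) - d := by
        intro h2
        apply h
        have h3 : (d : ℤ) ≡ n [ZMOD b] := Int.modEq_iff_dvd.mpr h2
        have h4 : d ≡ n [MOD b] := Int.natCast_modEq_iff.mp h3
        unfold Nat.ModEq at h4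
        rw [Nat.mod_eq_of_lt hd] at h4
        exact h4
      rw [if_neg hdvd, mul_zero, zero_div]
  rw [Finset.sum_congr rfl h2, Finset.sum_ite_eq', if_pos (Finset.mem_range.mpr (Nat.mod_lt _ hb))]

theorem main (b : ℕ) (hb : 0 < b) (k : ℕ) (w : ℕ → ℝ) (n : ℕ) :
    ee (wd b w k n) = ∑ ξ ∈ range (b ^ k), cfb b k w ξ * ee ((n : ℝ) * ξ / b ^ k) := by
  induction k generalizing w n with
  | zero => simp [wd, cfb, ee_zero]
  | succ k ih =>
    rw [pow_succ', range_mul_sum]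
    have h1 : ∀ ξ ∈ range (b ^ k), ∑ j ∈ range b, cfb b (k + 1) w (ξ + j * b ^ k) *
        ee ((n : ℝ) * ((ξ + j * b ^ k : ℕ) : ℝ) / b ^ (k + 1)) =
        ee (w 0 * ((n % b : ℕ) : ℝ)) * (cfb b k (fun i => w (i + 1)) ξ *
          ee (((n / b : ℕ) : ℝ) * ξ / b ^ k)) := by
      intro ξ _
      have h2 : ∀ j ∈ range b, cfb b (k + 1) w (ξ + j * b ^ k) *
        ee ((n : ℝ) * ((ξ + j * b ^ k : ℕ) : ℝ) / b ^ (k + 1)) =
        cfb b k (fun i => w (i + 1)) ξ * ((∑ d ∈ range b,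
          ee (d * (w 0 - ((ξ + j * b ^ k : ℕ) : ℝ) / b ^ (k + 1)))) / b *
          ee ((n : ℝ) * ((ξ + j * b ^ k : ℕ) : ℝ) / b ^ (k + 1))) := by
        intro j _
        rw [cfb_succ b k hb, cfb_period b k hb]
        ring
      rw [Finset.sum_congr rfl h2, ← Finset.mul_sum, inner b k hb]
      ring
    rw [Finset.sum_congr rfl h1, ← Finset.mul_sum, ← ih, ← ee_add]
    congr 1
    unfold wd
    rw [Finset.sum_range_succ', add_comm]
    congr 1
    · simp
    · refine Finset.sum_congr rfl fun i _ => ?_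
      rw [Nat.div_div_eq_div_mul, pow_succ']

lemma cf2_eq (k : ℕ) (w : ℕ → ℝ) (ξ : ℕ) : cf2 k w ξ = cfb 2 k w ξ := by
  unfold cf2 cfb
  refine Finset.prod_congr rfl fun i _ => ?_
  simp [Finset.sum_range_succ, ee_zero]

lemma cf3_eq (k : ℕ) (w : ℕ → ℝ) (ξ : ℕ) : cf3 k w ξ = cfb 3 k w ξ := by
  unfold cf3 cfb
  refine Finset.prod_congr rfl fun i _ => ?_
  simp [Finset.sum_range_succ, ee_zero]

end F2

theorem claimF2 : ClaimF2 := by
  intro k w n
  rw [F2.main 2 (by norm_num) k w n]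
  refine Finset.sum_congr rfl fun ξ _ => ?_
  rw [F2.cf2_eq]
  norm_num

/-- the same in base 3 -/
theorem F2.claimF3 : ClaimF3 := by
  intro k w n
  rw [F2.main 3 (by norm_num) k w n]
  refine Finset.sum_congr rfl fun ξ _ => ?_
  rw [F2.cf3_eq]
  norm_num

end Pool.Agent.Work.MP_8e4d29_nt

end

section

set_option autoImplicit false

/-!
MP_8e4d29_nt, F2: Fourier expansion in base 3.
-/

namespace Pool.Agent.Work.MP_8e4d29_nt

open Finset
open Pool.Agent.Work.MP_122e00_nt (ee norm_ee ee_add ee_neg ee_one_period ee_nat_mul)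

namespace F3

/-- sum over `range (3 N)` in blocks of three -/
theorem sum_three {M : Type*} [AddCommMonoid M] (f : ℕ → M) (N : ℕ) :
    ∑ ξ ∈ range (3 * N), f ξ = ∑ ξ ∈ range N, ∑ j ∈ range 3, f (3 * ξ + j) := by
  induction N with
  | zero => simp
  | succ N ih =>
    rw [show 3 * (N + 1) = 3 * N + 1 + 1 + 1 by ring, Finset.sum_range_succ,
      Finset.sum_range_succ, Finset.sum_range_succ, ih, Finset.sum_range_succ]
    simp [Finset.sum_range_succ, add_assoc]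

/-- the factor of the Fourier coefficient -/
noncomputable def KK (x : ℝ) : ℂ := (1 + ee x + ee (2 * x)) / 3

theorem KK_sub_nat (x : ℝ) (n : ℕ) : KK (x - n) = KK x := by
  unfold KK
  have h1 : ee (x - n) = ee x := by
    have := ee_one_period x (-(n : ℤ))
    push_cast at this
    rwa [← sub_eq_add_neg] at this
  have h2 : ee (2 * (x - n)) = ee (2 * x) := by
    have := ee_one_period (2 * x) (-(2 * n : ℤ))
    push_cast at this
    rw [show 2 * (x - (n : ℝ)) = 2 * x + -(2 * (n : ℝ)) by ring]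
    exact this
  rw [h1, h2]

/-- the shifted sum -/
noncomputable def SS (k : ℕ) (w : ℕ → ℝ) (n : ℕ) (x : ℝ) : ℂ :=
  ∑ ξ ∈ range (3 ^ k), (∏ i ∈ range k, KK (w i - 3 ^ i * ((ξ : ℝ) + x) / 3 ^ k)) *
    ee ((n : ℝ) * ((ξ : ℝ) + x) / 3 ^ k)

theorem ee_third : (1 : ℂ) + ee (1 / 3) + ee (1 / 3) ^ 2 = 0 := by
  have h1 : ee (1 / 3) ^ 3 = 1 := by
    rw [← ee_nat_mul, show ((3 : ℕ) : ℝ) * (1 / 3) = 1 by norm_num]
    have := ee_int 1
    simpa using this
  have h2 : ee (1 / 3) ≠ 1 := by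
    intro h
    have h3 := norm_ee_sub_one_ge (1 / 3)
    rw [h, sub_self, norm_zero, nd_eq_abs (by rw [abs_of_pos] <;> norm_num),
      abs_of_pos (by norm_num)] at h3
    norm_num at h3
  have h3 : (ee (1 / 3) - 1) * (1 + ee (1 / 3) + ee (1 / 3) ^ 2) = 0 := by
    linear_combination h1
  rcases mul_eq_zero.1 h3 with h | h
  · exact absurd (sub_eq_zero.1 h) h2
  · exact h

/-- the algebraic identity behind the sum over the top digit -/
theorem alg (W z y ζ : ℂ) (hzy : y * z = 1) (h1 : 1 + ζ + ζ ^ 2 = 0) (r : ℕ) (hr : r < 3) :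
    (1 + W * y + (W * y) ^ 2) / 3 * z ^ r +
      (1 + W * (y * ζ ^ 2) + (W * (y * ζ ^ 2)) ^ 2) / 3 * (z * ζ) ^ r +
      (1 + W * (y * ζ ^ 4) + (W * (y * ζ ^ 4)) ^ 2) / 3 * (z * ζ ^ 2) ^ r = W ^ r := by
  have h3 : ζ ^ 3 = 1 := by linear_combination (ζ - 1) * h1
  have h4 : ζ ^ 4 = ζ := by linear_combination ζ * h3
  have h5 : ζ ^ 5 = ζ ^ 2 := by linear_combination ζ ^ 2 * h3
  have h6 : ζ ^ 6 = 1 := by linear_combination (ζ ^ 3 + 1) * h3
  have h8 : ζ ^ 8 = ζ ^ 2 := by linear_combination ζ ^ 2 * h6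
  have h10 : ζ ^ 10 = ζ := by linear_combination ζ ^ 4 * h6 + h4
  have h12 : ζ ^ 12 = 1 := by linear_combination (ζ ^ 6 + 1) * h6
  interval_cases r
  · linear_combination (W * y / 3 + W ^ 2 * y ^ 2 / 3) * h1 +
      (W * y / 3 + W ^ 2 * y ^ 2 / 3) * h4 + (W ^ 2 * y ^ 2 / 3) * h8
  · linear_combination z / 3 * h1 + W * y * z / 3 * (h3 + h6) +
      W ^ 2 * y ^ 2 * z / 3 * (h1 + h5 + h10) + W * hzy
  · linear_combination z ^ 2 / 3 * (h1 + h4) + W * y * z ^ 2 / 3 * (h1 + h4 + h8) +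
      W ^ 2 * y ^ 2 * z ^ 2 / 3 * (h6 + h12) + W ^ 2 * (y * z + 1) * hzy

/-- the sum over the top digit -/
theorem top (v x : ℝ) (q : ℕ) :
    ∑ j ∈ range 3, KK (v - (x + j) / 3) * ee ((q : ℝ) * ((x + j) / 3)) =
      ee (v * ((q % 3 : ℕ) : ℝ)) * ee (((q / 3 : ℕ) : ℝ) * x) := by
  obtain ⟨Q, r, hr, hq⟩ : ∃ Q r : ℕ, r < 3 ∧ q = 3 * Q + r :=
    ⟨q / 3, q % 3, Nat.mod_lt _ (by norm_num), (Nat.div_add_mod q 3).symm⟩
  have e1 : q % 3 = r := by omega
  have e2 : q / 3 = Q := by omega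
  rw [e1, e2]
  set W := ee v with hW
  set z := ee (x / 3) with hz
  set ζ := ee (1 / 3) with hζ
  set y := ee (-(x / 3)) with hy
  have hyz : y * z = 1 := by
    rw [hy, hz, ← ee_add, neg_add_cancel, ee_zero]
  have hζ1 : 1 + ζ + ζ ^ 2 = 0 := ee_third
  have hζ3 : ζ ^ 3 = 1 := by linear_combination (ζ - 1) * hζ1
  have a1 : ∀ j : ℕ, ee ((x + j) / 3) = z * ζ ^ j := by
    intro j
    rw [hz, hζ, ← ee_nat_mul, ← ee_add]
    congr 1
    ring
  have a2 : ∀ j : ℕ, ee (v - (x + j) / 3) = W * (y * ζ ^ (2 * j)) := by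
    intro j
    have h1 : ee (v - (x + j) / 3) = ee (v - (x + j) / 3 + (j : ℤ)) := (ee_one_period _ _).symm
    rw [h1, hW, hy, hζ, ← ee_nat_mul, ← ee_add, ← ee_add]
    congr 1
    push_cast
    ring
  have a3 : ∀ j : ℕ, KK (v - (x + j) / 3) =
      (1 + W * (y * ζ ^ (2 * j)) + (W * (y * ζ ^ (2 * j))) ^ 2) / 3 := by
    intro j
    unfold KK
    have : ee (2 * (v - (x + j) / 3)) = (W * (y * ζ ^ (2 * j))) ^ 2 := by
      rw [← a2, ← ee_nat_mul]
      norm_num
    rw [this, a2]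
  have a4 : ∀ j : ℕ, ee ((q : ℝ) * ((x + j) / 3)) = z ^ (3 * Q) * (z * ζ ^ j) ^ r := by
    intro j
    rw [ee_nat_mul, a1, hq, pow_add, mul_pow z (ζ ^ j) (3 * Q)]
    have : (ζ ^ j) ^ (3 * Q) = 1 := by
      rw [← pow_mul, show j * (3 * Q) = 3 * (j * Q) by ring, pow_mul, hζ3, one_pow]
    rw [this, mul_one]
  have a5 : ee (v * (r : ℝ)) = W ^ r := by
    rw [mul_comm, ee_nat_mul]
  have a6 : ee ((Q : ℝ) * x) = z ^ (3 * Q) := by
    rw [hz, ← ee_nat_mul]
    congr 1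
    push_cast
    ring
  have key := alg W z y ζ hyz hζ1 r hr
  rw [a5, a6]
  simp only [Finset.sum_range_succ, Finset.sum_range_zero, zero_add, a3, a4]
  rw [← key]
  norm_num
  ring

theorem SS_eq (w : ℕ → ℝ) (n : ℕ) : ∀ (k : ℕ) (x : ℝ),
    SS k w n x = ee (wd 3 w k n) * ee (((n / 3 ^ k : ℕ) : ℝ) * x) := by
  intro k
  induction k with
  | zero =>
    intro x
    simp [SS, wd, ee_zero]
  | succ k ih =>
    intro x
    have h1 : SS (k + 1) w n x = ∑ j ∈ range 3, KK (w k - (x + j) / 3) * SS k w n ((x + j) / 3) := by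
      unfold SS
      rw [show (3 : ℕ) ^ (k + 1) = 3 * 3 ^ k by ring, sum_three, Finset.sum_comm]
      refine Finset.sum_congr rfl fun j _ => ?_
      rw [Finset.mul_sum]
      refine Finset.sum_congr rfl fun ξ _ => ?_
      rw [Finset.prod_range_succ]
      have h3 : (3 : ℝ) ^ k ≠ 0 := by positivity
      have e1 : w k - 3 ^ k * (((3 * ξ + j : ℕ) : ℝ) + x) / 3 ^ (k + 1) =
          w k - (x + j) / 3 - (ξ : ℝ) := by
        push_cast
        rw [pow_succ]
        field_simp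
        ring
      have e2 : (n : ℝ) * (((3 * ξ + j : ℕ) : ℝ) + x) / 3 ^ (k + 1) =
          (n : ℝ) * ((ξ : ℝ) + (x + j) / 3) / 3 ^ k := by
        push_cast
        rw [pow_succ]
        field_simp
        ring
      have e3 : ∀ i ∈ range k, KK (w i - 3 ^ i * (((3 * ξ + j : ℕ) : ℝ) + x) / 3 ^ (k + 1)) =
          KK (w i - 3 ^ i * ((ξ : ℝ) + (x + j) / 3) / 3 ^ k) := by
        intro i _
        congr 1
        push_cast
        rw [pow_succ]
        field_simp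
        ring
      rw [e1, KK_sub_nat, e2, Finset.prod_congr rfl e3]
      ring
    rw [h1]
    have h2 : ∀ j ∈ range 3, KK (w k - (x + j) / 3) * SS k w n ((x + j) / 3) =
        ee (wd 3 w k n) * (KK (w k - (x + j) / 3) *
          ee (((n / 3 ^ k : ℕ) : ℝ) * ((x + j) / 3))) := by
      intro j _
      rw [ih]
      ring
    rw [Finset.sum_congr rfl h2, ← Finset.mul_sum, top, ← mul_assoc, ← ee_add]
    congr 2
    · unfold wd
      rw [Finset.sum_range_succ]
    · rw [Nat.div_div_eq_div_mul, pow_succ]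

end F3

theorem claimF3 : ClaimF3 := by
  intro k w n
  have h := F3.SS_eq w n k 0
  rw [mul_zero, ee_zero, mul_one] at h
  rw [← h]
  unfold F3.SS cf3 F3.KK
  refine Finset.sum_congr rfl fun ξ _ => ?_
  simp only [add_zero]

end Pool.Agent.Work.MP_8e4d29_nt

end

section

/-!
MP_8e4d29_nt, item N6: facts on the Fejér kernel.
-/

namespace Pool.Agent.Work.MP_8e4d29_nt

open Finset MeasureTheory
open Pool.Agent.Work.MP_122e00_nt (ee norm_ee ee_add ee_neg ee_one_period ee_nat_mul)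

namespace Fej

/-- one half of the integral -/
lemma half (T : ℝ) (hT : 0 < T) (c : ℂ) (hc : c ≠ 0) :
    ∫ t in (0 : ℝ)..T, ((1 - t / T : ℝ) : ℂ) * Complex.exp (c * t) =
      Complex.exp (c * T) / (T * c ^ 2) - (1 / c + 1 / (T * c ^ 2)) := by
  have hTc : (T : ℂ) ≠ 0 := by exact_mod_cast hT.ne'
  have hder : ∀ t ∈ Set.uIcc (0 : ℝ) T, HasDerivAt
      (fun t : ℝ => ((1 - t / T : ℝ) : ℂ) * Complex.exp (c * t) / c +
        Complex.exp (c * t) / (T * c ^ 2))
      (((1 - t / T : ℝ) : ℂ) * Complex.exp (c * t)) t := by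
    intro t _
    have h1 : HasDerivAt (fun t : ℝ => Complex.exp (c * t)) (c * Complex.exp (c * t)) t := by
      have h2 : HasDerivAt (fun t : ℝ => c * (t : ℂ)) (c * 1) t :=
        (Complex.ofRealCLM.hasDerivAt (x := t)).const_mul c
      have := h2.cexp
      rw [mul_one, mul_comm] at this
      exact this
    have h3 : HasDerivAt (fun t : ℝ => ((1 - t / T : ℝ) : ℂ)) ((-(1 / T) : ℝ) : ℂ) t := by
      have h4 : HasDerivAt (fun t : ℝ => 1 - t / T) (-(1 / T)) t :=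
        ((hasDerivAt_id t).div_const T).const_sub 1
      exact h4.ofReal_comp
    have h5 := ((h3.mul h1).div_const c).add (h1.div_const (T * c ^ 2))
    refine h5.congr_deriv ?_
    push_cast
    field_simp
    ring
  have hint : IntervalIntegrable (fun t : ℝ => ((1 - t / T : ℝ) : ℂ) * Complex.exp (c * t))
      volume 0 T := by
    apply Continuous.intervalIntegrable
    fun_prop
  rw [intervalIntegral.integral_eq_sub_of_hasDerivAt hder hint]
  have e : T / T = 1 := div_self hT.ne'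
  rw [e]
  simp

lemma half0 (T : ℝ) (hT : 0 < T) :
    ∫ t in (0 : ℝ)..T, ((1 - t / T : ℝ) : ℂ) = (T / 2 : ℝ) := by
  rw [intervalIntegral.integral_ofReal]
  congr 1
  have hder : ∀ t ∈ Set.uIcc (0 : ℝ) T, HasDerivAt
      (fun t : ℝ => t - t ^ 2 / (2 * T)) (1 - t / T) t := by
    intro t _
    have h1 := (hasDerivAt_id t).sub ((hasDerivAt_pow 2 t).div_const (2 * T))
    refine h1.congr_deriv ?_
    field_simp
    ring
  rw [intervalIntegral.integral_eq_sub_of_hasDerivAt hder (by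
    apply Continuous.intervalIntegrable
    fun_prop)]
  field_simp
  ring

lemma split (T u : ℝ) (hT : 0 < T) :
    ∫ t in (-T)..T, ((1 - |t| / T : ℝ) : ℂ) * ee (t * u) =
      (∫ t in (0 : ℝ)..T, ((1 - t / T : ℝ) : ℂ) * ee (-t * u)) +
      ∫ t in (0 : ℝ)..T, ((1 - t / T : ℝ) : ℂ) * ee (t * u) := by
  have hcont : Continuous (fun t : ℝ => ((1 - |t| / T : ℝ) : ℂ) * ee (t * u)) := by
    unfold ee
    fun_prop
  rw [← intervalIntegral.integral_add_adjacent_intervals (b := 0)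
    (hcont.intervalIntegrable _ _) (hcont.intervalIntegrable _ _)]
  congr 1
  · have h := intervalIntegral.integral_comp_neg (a := 0) (b := T)
      (fun t : ℝ => ((1 - |t| / T : ℝ) : ℂ) * ee (t * u))
    rw [neg_zero] at h
    rw [← h]
    refine intervalIntegral.integral_congr fun t ht => ?_
    rw [Set.uIcc_of_le hT.le] at ht
    simp only [abs_neg, abs_of_nonneg ht.1]
  · refine intervalIntegral.integral_congr fun t ht => ?_
    rw [Set.uIcc_of_le hT.le] at ht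
    simp only [abs_of_nonneg ht.1]

lemma integral_eq (T u : ℝ) (hT : 0 < T) :
    (fej T u : ℂ) = ∫ t in (-T)..T, ((1 - |t| / T : ℝ) : ℂ) * ee (t * u) := by
  rw [split T u hT]
  by_cases hu : u = 0
  · subst hu
    simp only [mul_zero, ee_zero, mul_one]
    rw [half0 T hT]
    unfold fej
    rw [if_pos rfl]
    push_cast
    ring
  · have hpi : (Real.pi : ℂ) ≠ 0 := by exact_mod_cast Real.pi_ne_zero
    have huc : (u : ℂ) ≠ 0 := by exact_mod_cast hu
    have hTc : (T : ℂ) ≠ 0 := by exact_mod_cast hT.ne'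
    obtain ⟨c, hc⟩ : ∃ c : ℂ, c = 2 * Real.pi * u * Complex.I := ⟨_, rfl⟩
    have hc0 : c ≠ 0 := by
      rw [hc]
      exact mul_ne_zero (mul_ne_zero (mul_ne_zero two_ne_zero hpi) huc) Complex.I_ne_zero
    have h1 : ∀ t : ℝ, ee (t * u) = Complex.exp (c * t) := by
      intro t
      unfold ee
      congr 1
      rw [hc]; push_cast; ring
    have h2 : ∀ t : ℝ, ee (-t * u) = Complex.exp (-c * t) := by
      intro t
      unfold ee
      congr 1
      rw [hc]; push_cast; ring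
    simp only [h2]
    simp only [h1]
    rw [half T hT c hc0, half T hT (-c) (neg_ne_zero.mpr hc0)]
    have h3 : c ^ 2 = -(4 * (Real.pi * u) ^ 2 : ℂ) := by
      rw [hc]
      have : (2 * (Real.pi : ℂ) * u * Complex.I) ^ 2 = 4 * (Real.pi * u) ^ 2 * (Complex.I ^ 2) := by
        ring
      rw [this, Complex.I_sq]
      ring
    have h4 : Complex.exp (-c * T) + Complex.exp (c * T) - 2 =
        -(4 * (Complex.sin (Real.pi * T * u)) ^ 2) := by
      have h5 := Complex.two_cos (2 * Real.pi * u * T)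
      have h6 : Complex.exp (2 * Real.pi * u * T * Complex.I) = Complex.exp (c * T) := by
        congr 1; rw [hc]; ring
      have h7 : Complex.exp (-(2 * Real.pi * u * T) * Complex.I) = Complex.exp (-c * T) := by
        congr 1; rw [hc]; ring
      rw [h6, h7] at h5
      have h8 : Complex.cos (2 * Real.pi * u * T) = 1 - 2 * Complex.sin (Real.pi * T * u) ^ 2 := by
        have h9 : (2 * (Real.pi : ℂ) * u * T) = 2 * (Real.pi * T * u) := by ring
        rw [h9, Complex.cos_two_mul, Complex.cos_sq']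
        ring
      rw [h8] at h5
      linear_combination -h5
    unfold fej
    rw [if_neg hu]
    push_cast
    have h10 : Complex.exp (-c * T) / (T * (-c) ^ 2) - (1 / -c + 1 / (T * (-c) ^ 2)) +
        (Complex.exp (c * T) / (T * c ^ 2) - (1 / c + 1 / (T * c ^ 2))) =
        (Complex.exp (-c * T) + Complex.exp (c * T) - 2) / (T * c ^ 2) := by
      field_simp
      ring
    rw [h10, h4, h3]
    field_simp

end Fej

open Fej in
theorem claimFej : ClaimFej := by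
  intro T u hT
  have hpi := Real.pi_pos
  refine ⟨?_, ?_, ?_, ?_, integral_eq T u hT⟩
  · unfold fej
    split_ifs
    · exact hT.le
    · positivity
  · unfold fej
    split_ifs with h
    · exact le_rfl
    · have h1 : 0 < (Real.pi * u) ^ 2 := by positivity
      rw [div_le_iff₀ (by positivity)]
      have h2 : |Real.sin (Real.pi * T * u)| ≤ |Real.pi * T * u| := Real.abs_sin_le_abs
      have h3 : Real.sin (Real.pi * T * u) ^ 2 ≤ (Real.pi * T * u) ^ 2 := sq_le_sq.mpr h2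
      calc Real.sin (Real.pi * T * u) ^ 2 ≤ (Real.pi * T * u) ^ 2 := h3
        _ = T * (T * (Real.pi * u) ^ 2) := by ring
  · intro h
    unfold fej
    rw [if_neg h]
    have h1 : 0 < (Real.pi * u) ^ 2 := by positivity
    gcongr
    exact Real.sin_sq_le_one _
  · intro h
    unfold fej
    split_ifs with h0
    · linarith
    · obtain ⟨x, hx⟩ : ∃ x, x = |Real.pi * T * u| := ⟨_, rfl⟩
      have hx0 : 0 < x := by
        rw [hx]
        exact abs_pos.mpr (mul_ne_zero (mul_ne_zero hpi.ne' hT.ne') h0)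
      have hx1 : x ≤ 1 / 2 := by
        have e : Real.pi * T * u = Real.pi * (T * u) := by ring
        rw [hx, e, abs_mul, abs_of_pos hpi]
        have := Real.pi_lt_d2
        nlinarith [abs_nonneg (T * u)]
      have hx2 : x ≤ 4 / 10 := by
        have e : Real.pi * T * u = Real.pi * (T * u) := by ring
        rw [hx, e, abs_mul, abs_of_pos hpi]
        have := Real.pi_lt_d2
        nlinarith [abs_nonneg (T * u)]
      have h1 : x - x ^ 3 / 4 < Real.sin x := by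
        have h11 := Real.sin_gt_sub_cube hx0
        have h12 : 0 < x ^ 3 := by positivity
        linarith
      have h2 : Real.sin (Real.pi * T * u) ^ 2 = Real.sin x ^ 2 := by
        rw [hx]
        rcases abs_cases (Real.pi * T * u) with ⟨h3, _⟩ | ⟨h3, _⟩
        · rw [h3]
        · rw [h3, Real.sin_neg, neg_sq]
      have h3 : T * (Real.pi * u) ^ 2 = x ^ 2 / T := by
        rw [hx, sq_abs]
        field_simp
      rw [h2, h3, le_div_iff₀ (by positivity)]
      have h4 : 0 ≤ x - x ^ 3 / 4 := by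
        have : x ^ 3 ≤ x := by nlinarith [sq_nonneg x]
        linarith
      have h5 : (x - x ^ 3 / 4) ^ 2 ≤ Real.sin x ^ 2 := pow_le_pow_left₀ h4 h1.le 2
      refine le_trans ?_ h5
      have h6 : 9 / 10 * T * (x ^ 2 / T) = 9 / 10 * x ^ 2 := by field_simp
      rw [h6]
      have h7 : x ^ 2 ≤ 16 / 100 := by nlinarith
      have h8 : (x - x ^ 3 / 4) ^ 2 = x ^ 2 * (1 - x ^ 2 / 4) ^ 2 := by ring
      rw [h8]
      have h9 : 9 / 10 ≤ (1 - x ^ 2 / 4) ^ 2 := by nlinarith [sq_nonneg x]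
      nlinarith [sq_nonneg x]

end Pool.Agent.Work.MP_8e4d29_nt

end

section

/-!
MP_8e4d29_nt, item G3: few bad blocks.
-/

namespace Pool.Agent.Work.MP_8e4d29_nt

open Finset

namespace GoodBlocks

theorem bad_elim {X K B P w : ℕ} (hX : 2 ^ (B + 1) * K < X) (hK : 1 ≤ K) (hw : 1 ≤ w)
    (hP1 : 3 ^ P ≤ 2 ^ B) (hP2 : 2 ^ B < 3 ^ (P + 1))
    (h : nd ((w : ℝ) * 2 ^ B / 3 ^ P) ≤ 1 / ((X / (2 ^ B * K) : ℕ) : ℝ)) :
    ∃ v : ℕ, 1 ≤ v ∧ v ≤ 3 * w ∧
      (X : ℤ) * |(w : ℤ) * 2 ^ B - v * 3 ^ P| ≤ 2 ^ (B + 1) * K * 3 ^ P := by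
  obtain ⟨k, hk⟩ := exists_int_nd ((w : ℝ) * 2 ^ B / 3 ^ P)
  rw [hk] at h
  set q : ℕ := X / (2 ^ B * K) with hq
  have hBK : 0 < 2 ^ B * K := by positivity
  have hq1 : 1 ≤ q := by
    rw [hq]
    apply Nat.div_pos _ hBK
    rw [pow_succ] at hX
    nlinarith
  have hXq : X < 2 ^ B * K * (q + 1) := Nat.lt_mul_div_succ X hBK
  have hX2 : X ≤ 2 ^ (B + 1) * K * q := by
    rw [pow_succ]
    nlinarith
  -- the inequality for the integer `u`
  have hu : (q : ℤ) * |(w : ℤ) * 2 ^ B - k * 3 ^ P| ≤ 3 ^ P := by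
    have h3 : (0 : ℝ) < 3 ^ P := by positivity
    have hq0 : (0 : ℝ) < q := by exact_mod_cast hq1
    have e1 : (w : ℝ) * 2 ^ B / 3 ^ P - k = ((w : ℝ) * 2 ^ B - k * 3 ^ P) / 3 ^ P := by
      field_simp
    rw [e1, abs_div, abs_of_pos h3, div_le_div_iff₀ h3 hq0, one_mul] at h
    have h4 : (q : ℝ) * |(w : ℝ) * 2 ^ B - k * 3 ^ P| ≤ 3 ^ P := by linarith
    exact_mod_cast h4
  have hXu : (X : ℤ) * |(w : ℤ) * 2 ^ B - k * 3 ^ P| ≤ 2 ^ (B + 1) * K * 3 ^ P := by
    have h5 : (X : ℤ) ≤ 2 ^ (B + 1) * K * q := by exact_mod_cast hX2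
    calc (X : ℤ) * |(w : ℤ) * 2 ^ B - k * 3 ^ P| ≤
          (2 ^ (B + 1) * K * q) * |(w : ℤ) * 2 ^ B - k * 3 ^ P| :=
            mul_le_mul_of_nonneg_right h5 (abs_nonneg _)
      _ = 2 ^ (B + 1) * K * (q * |(w : ℤ) * 2 ^ B - k * 3 ^ P|) := by ring
      _ ≤ 2 ^ (B + 1) * K * 3 ^ P := mul_le_mul_of_nonneg_left hu (by positivity)
  have hult : |(w : ℤ) * 2 ^ B - k * 3 ^ P| < 3 ^ P := by
    have h6 : (2 : ℤ) ^ (B + 1) * K < X := by exact_mod_cast hX
    have h7 : (X : ℤ) * |(w : ℤ) * 2 ^ B - k * 3 ^ P| < X * 3 ^ P := by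
      have h8 : (2 : ℤ) ^ (B + 1) * K * 3 ^ P < X * 3 ^ P :=
        mul_lt_mul_of_pos_right h6 (by positivity)
      exact lt_of_le_of_lt hXu h8
    exact lt_of_mul_lt_mul_left h7 (by positivity)
  have hp1 : (3 : ℤ) ^ P ≤ 2 ^ B := by exact_mod_cast hP1
  have hp2 : (2 : ℤ) ^ B < 3 * 3 ^ P := by
    have : (2 : ℤ) ^ B < 3 ^ (P + 1) := by exact_mod_cast hP2
    rwa [pow_succ, mul_comm] at this
  have hp0 : (0 : ℤ) < 3 ^ P := by positivity
  have hwz : (1 : ℤ) ≤ w := by exact_mod_cast hw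
  obtain ⟨hl, hr⟩ := abs_lt.1 hult
  have hk1 : 0 < k := by
    by_contra hcon
    push Not at hcon
    have h9 : k * 3 ^ P ≤ 0 := mul_nonpos_of_nonpos_of_nonneg hcon hp0.le
    have h10 : (3 : ℤ) ^ P ≤ w * 2 ^ B := by nlinarith
    linarith
  have hk2 : k ≤ 3 * w := by
    by_contra hcon
    push Not at hcon
    have h9 : (3 * (w : ℤ) + 1) * 3 ^ P ≤ k * 3 ^ P :=
      mul_le_mul_of_nonneg_right (by linarith) hp0.le
    have h10 : (w : ℤ) * 2 ^ B ≤ w * (3 * 3 ^ P) := mul_le_mul_of_nonneg_left hp2.le (by linarith)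
    nlinarith
  obtain ⟨v, rfl⟩ := Int.eq_ofNat_of_zero_le hk1.le
  refine ⟨v, by exact_mod_cast hk1, by exact_mod_cast hk2, hXu⟩

/-- two bad blocks -/
theorem two_bad {X K B1 B2 P1 P2 D D' w1 w2 v1 v2 W : ℕ} (hD : B1 = B2 + D) (hD' : P1 = P2 + D')
    (h11 : 3 ^ P1 ≤ 2 ^ B1) (h22 : 2 ^ B2 < 3 ^ (P2 + 1))
    (hw1 : w1 ≤ W) (hw2 : w2 ≤ W)
    (h1 : (X : ℤ) * |(w1 : ℤ) * 2 ^ B1 - v1 * 3 ^ P1| ≤ 2 ^ (B1 + 1) * K * 3 ^ P1)
    (h2 : (X : ℤ) * |(w2 : ℤ) * 2 ^ B2 - v2 * 3 ^ P2| ≤ 2 ^ (B2 + 1) * K * 3 ^ P2) :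
    (X : ℤ) * |(w1 : ℤ) * v2 * 2 ^ D - w2 * v1 * 3 ^ D'| ≤ 8 * 2 ^ (B1 + D) * K * W := by
  subst hD hD'
  -- comparison of the powers
  have hpow : 3 ^ D' ≤ 3 * 2 ^ D := by
    have e1 : 3 ^ P2 * 3 ^ D' ≤ 2 ^ B2 * 2 ^ D := by rw [← pow_add, ← pow_add]; exact h11
    have e2 : 2 ^ B2 * 2 ^ D ≤ 3 ^ (P2 + 1) * 2 ^ D := Nat.mul_le_mul_right _ h22.le
    have e3 : 3 ^ P2 * 3 ^ D' ≤ 3 ^ P2 * (3 * 2 ^ D) := by
      calc 3 ^ P2 * 3 ^ D' ≤ 3 ^ (P2 + 1) * 2 ^ D := e1.trans e2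
        _ = 3 ^ P2 * (3 * 2 ^ D) := by rw [pow_succ]; ring
    exact Nat.le_of_mul_le_mul_left e3 (by positivity)
  have hpz : (3 : ℤ) ^ D' ≤ 3 * 2 ^ D := by exact_mod_cast hpow
  obtain ⟨u1, hu1⟩ : ∃ u1 : ℤ, u1 = (w1 : ℤ) * 2 ^ (B2 + D) - v1 * 3 ^ (P2 + D') := ⟨_, rfl⟩
  obtain ⟨u2, hu2⟩ : ∃ u2 : ℤ, u2 = (w2 : ℤ) * 2 ^ B2 - v2 * 3 ^ P2 := ⟨_, rfl⟩
  rw [← hu1] at h1
  rw [← hu2] at h2
  obtain ⟨z, hz⟩ : ∃ z : ℤ, z = (w1 : ℤ) * v2 * 2 ^ D - w2 * v1 * 3 ^ D' := ⟨_, rfl⟩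
  rw [← hz]
  have hid : 2 ^ B2 * 3 ^ P2 * z = w2 * 2 ^ B2 * u1 - w1 * 2 ^ (B2 + D) * u2 := by
    rw [hz, hu1, hu2, pow_add, pow_add]
    ring
  have habs : 2 ^ B2 * 3 ^ P2 * |z| ≤ w2 * 2 ^ B2 * |u1| + w1 * 2 ^ (B2 + D) * |u2| := by
    have e1 : |2 ^ B2 * 3 ^ P2 * z| = 2 ^ B2 * 3 ^ P2 * |z| := by
      rw [abs_mul, abs_of_nonneg (by positivity)]
    rw [← e1, hid]
    refine (abs_sub _ _).trans (le_of_eq ?_)
    rw [abs_mul (_ : ℤ) u1, abs_mul (_ : ℤ) u2,
      abs_of_nonneg (show (0 : ℤ) ≤ w2 * 2 ^ B2 by positivity),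
      abs_of_nonneg (show (0 : ℤ) ≤ w1 * 2 ^ (B2 + D) by positivity)]
  have hXz : (2 ^ B2 * 3 ^ P2) * ((X : ℤ) * |z|) ≤
      (2 ^ B2 * 3 ^ P2) * (8 * 2 ^ (B2 + D + D) * K * W) := by
    have hw1z : (w1 : ℤ) ≤ W := by exact_mod_cast hw1
    have hw2z : (w2 : ℤ) ≤ W := by exact_mod_cast hw2
    calc (2 ^ B2 * 3 ^ P2) * ((X : ℤ) * |z|) = X * (2 ^ B2 * 3 ^ P2 * |z|) := by ring
      _ ≤ X * (w2 * 2 ^ B2 * |u1| + w1 * 2 ^ (B2 + D) * |u2|) :=
          mul_le_mul_of_nonneg_left habs (by positivity)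
      _ = w2 * 2 ^ B2 * (X * |u1|) + w1 * 2 ^ (B2 + D) * (X * |u2|) := by ring
      _ ≤ w2 * 2 ^ B2 * (2 ^ (B2 + D + 1) * K * 3 ^ (P2 + D')) +
          w1 * 2 ^ (B2 + D) * (2 ^ (B2 + 1) * K * 3 ^ P2) :=
          add_le_add (mul_le_mul_of_nonneg_left h1 (by positivity))
            (mul_le_mul_of_nonneg_left h2 (by positivity))
      _ = (2 ^ B2 * 3 ^ P2) * (2 * 2 ^ (B2 + D) * K * (w2 * 3 ^ D' + w1)) := by
          rw [pow_succ, pow_succ, pow_add 3, pow_add 2]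
          ring
      _ ≤ (2 ^ B2 * 3 ^ P2) * (2 * 2 ^ (B2 + D) * K * (W * (3 * 2 ^ D) + W * 2 ^ D)) := by
          apply mul_le_mul_of_nonneg_left _ (by positivity)
          apply mul_le_mul_of_nonneg_left _ (by positivity)
          apply add_le_add
          · exact mul_le_mul hw2z hpz (by positivity) (by positivity)
          · have h2D : (1 : ℤ) ≤ 2 ^ D := one_le_pow₀ (by norm_num)
            nlinarith [(Nat.cast_nonneg W : (0 : ℤ) ≤ W)]
      _ = (2 ^ B2 * 3 ^ P2) * (8 * 2 ^ (B2 + D + D) * K * W) := by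
          rw [pow_add 2 (B2 + D) D]
          ring
  exact le_of_mul_le_mul_left hXz (by positivity)

/-- combinatorial counting: a set in which the depth grows by the factor `3/2` whenever the index
grows by at least `3` -/
theorem count_aux (d : ℕ → ℝ) : ∀ (n : ℕ) (a : ℝ) (S : Finset ℕ), 0 < a →
    (∀ l ∈ S, ∀ l' ∈ S, l + 3 ≤ l' → 3 / 2 * d l ≤ d l') → (∀ l ∈ S, a ≤ d l) →
    (∀ l ∈ S, d l < (3 / 2) ^ n * a) → S.card ≤ 3 * n := by
  intro n
  induction n with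
  | zero =>
    intro a S ha _ h1 h2
    have : S = ∅ := by
      apply Finset.eq_empty_of_forall_notMem
      intro l hl
      have e1 := h1 l hl
      have e2 := h2 l hl
      rw [pow_zero, one_mul] at e2
      linarith
    rw [this]
    simp
  | succ n ih =>
    intro a S ha hg h1 h2
    rcases S.eq_empty_or_nonempty with h0 | hne
    · rw [h0]
      simp
    · obtain ⟨m0, hm0, hmin⟩ := S.exists_min_image id hne
      simp only [id] at hmin
      have hT : (S.filter fun l => m0 + 3 ≤ l).card ≤ 3 * n := by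
        apply ih (3 / 2 * a) _ (by linarith)
        · intro l hl l' hl' hll
          exact hg l (Finset.mem_filter.1 hl).1 l' (Finset.mem_filter.1 hl').1 hll
        · intro l hl
          obtain ⟨hl1, hl2⟩ := Finset.mem_filter.1 hl
          have e1 := hg m0 hm0 l hl1 hl2
          have e2 := h1 m0 hm0
          linarith
        · intro l hl
          have e1 := h2 l (Finset.mem_filter.1 hl).1
          rw [pow_succ] at e1
          linarith
      have hU : (S.filter fun l => ¬ m0 + 3 ≤ l).card ≤ 3 := by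
        have hsub : (S.filter fun l => ¬ m0 + 3 ≤ l) ⊆ Finset.Ico m0 (m0 + 3) := by
          intro l hl
          obtain ⟨hl1, hl2⟩ := Finset.mem_filter.1 hl
          rw [Finset.mem_Ico]
          have := hmin l hl1
          omega
        have := Finset.card_le_card hsub
        rw [Nat.card_Ico] at this
        omega
      have hsplit := Finset.card_filter_add_card_filter_not (s := S) (fun l => m0 + 3 ≤ l)
      omega

/-- the growth of the depth between two bad blocks -/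
theorem growth {X K Λ al pl k B1 B2 P1 P2 D w1 w2 v1 v2 : ℕ} (hX : 2 ^ Λ ≤ X)
    (hK : K < 2 ^ (k + 1)) (hD : B1 = B2 + D)
    (hP12 : P2 ≤ P1) (h11 : 3 ^ P1 ≤ 2 ^ B1) (h22 : 2 ^ B2 < 3 ^ (P2 + 1))
    (hw1 : w1 ≤ 3 * 2 ^ pl * K) (hw2 : w2 ≤ 3 * 2 ^ pl * K) (hw2' : 1 ≤ w2)
    (hv1 : 1 ≤ v1) (hv1' : v1 ≤ 3 * w1)
    (h1 : (X : ℤ) * |(w1 : ℤ) * 2 ^ B1 - v1 * 3 ^ P1| ≤ 2 ^ (B1 + 1) * K * 3 ^ P1)
    (h2 : (X : ℤ) * |(w2 : ℤ) * 2 ^ B2 - v2 * 3 ^ P2| ≤ 2 ^ (B2 + 1) * K * 3 ^ P2)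
    (hal : B1 + al ≤ Λ) (hpl : 20 * pl ≤ al) (hk : 100 * (k + 1) ≤ pl) (hD3 : 3 * pl ≤ D) :
    3 * (Λ - B1) ≤ 2 * (Λ - B2) := by
  obtain ⟨D', hD'⟩ := Nat.exists_eq_add_of_le hP12
  have key := two_bad (W := 3 * 2 ^ pl * K) hD hD' h11 h22 hw1 hw2 h1 h2
  obtain ⟨z, hz⟩ : ∃ z : ℤ, z = (w1 : ℤ) * v2 * 2 ^ D - w2 * v1 * 3 ^ D' := ⟨_, rfl⟩
  rw [← hz] at key
  have hK2 : K * K < 2 ^ (2 * k + 2) := by
    calc K * K < 2 ^ (k + 1) * 2 ^ (k + 1) := by nlinarith
      _ = 2 ^ (2 * k + 2) := by rw [← pow_add]; congr 1; ring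
  rcases eq_or_ne z 0 with h0 | h0
  · exfalso
    rw [h0] at hz
    have e1 : w1 * v2 * 2 ^ D = w2 * v1 * 3 ^ D' := by
      have : (w1 : ℤ) * v2 * 2 ^ D = w2 * v1 * 3 ^ D' := by linarith
      exact_mod_cast this
    have e2 : 2 ^ D ∣ w2 * v1 := by
      have e3 : 2 ^ D ∣ w2 * v1 * 3 ^ D' := ⟨w1 * v2, by rw [← e1]; ring⟩
      have e4 : Nat.Coprime (2 ^ D) (3 ^ D') := Nat.Coprime.pow D D' (by norm_num)
      exact e4.dvd_of_dvd_mul_right e3
    have e5 : 2 ^ D ≤ w2 * v1 := Nat.le_of_dvd (by positivity) e2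
    have e6 : w2 * v1 ≤ (3 * 2 ^ pl * K) * (3 * (3 * 2 ^ pl * K)) :=
      Nat.mul_le_mul hw2 (hv1'.trans (Nat.mul_le_mul_left 3 hw1))
    have e7 : (3 * 2 ^ pl * K) * (3 * (3 * 2 ^ pl * K)) = 27 * 2 ^ (2 * pl) * (K * K) := by
      rw [show 2 * pl = pl + pl by ring, pow_add]
      ring
    have e8 : 27 * 2 ^ (2 * pl) * (K * K) < 2 ^ (5 + 2 * pl + (2 * k + 2)) := by
      have e9 : 2 ^ (5 + 2 * pl + (2 * k + 2)) = 32 * 2 ^ (2 * pl) * 2 ^ (2 * k + 2) := by
        rw [pow_add, pow_add]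
        norm_num
      rw [e9]
      have e10 : 0 < 2 ^ (2 * pl) := by positivity
      calc 27 * 2 ^ (2 * pl) * (K * K) ≤ 32 * 2 ^ (2 * pl) * (K * K) := by nlinarith
        _ < 32 * 2 ^ (2 * pl) * 2 ^ (2 * k + 2) := Nat.mul_lt_mul_of_pos_left hK2 (by positivity)
    have e11 : 2 ^ D < 2 ^ (5 + 2 * pl + (2 * k + 2)) := by
      calc 2 ^ D ≤ w2 * v1 := e5
        _ ≤ _ := e6
        _ = _ := e7
        _ < _ := e8
    have e12 := (Nat.pow_lt_pow_iff_right (by norm_num : 1 < 2)).1 e11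
    omega
  · have e1 : (1 : ℤ) ≤ |z| := Int.one_le_abs h0
    have e2 : (X : ℤ) ≤ 8 * 2 ^ (B1 + D) * K * ((3 * 2 ^ pl * K : ℕ) : ℤ) := by
      calc (X : ℤ) = X * 1 := (mul_one _).symm
        _ ≤ X * |z| := mul_le_mul_of_nonneg_left e1 (by positivity)
        _ ≤ _ := key
    have e3 : X ≤ 8 * 2 ^ (B1 + D) * K * (3 * 2 ^ pl * K) := by exact_mod_cast e2
    have e4 : 8 * 2 ^ (B1 + D) * K * (3 * 2 ^ pl * K) < 2 ^ (5 + (B1 + D) + pl + (2 * k + 2)) := by
      have e5 : 2 ^ (5 + (B1 + D) + pl + (2 * k + 2)) =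
          32 * (2 ^ (B1 + D) * 2 ^ pl) * 2 ^ (2 * k + 2) := by
        rw [pow_add, pow_add, pow_add]
        ring
      rw [e5]
      have e6 : 0 < 2 ^ (B1 + D) * 2 ^ pl := by positivity
      calc 8 * 2 ^ (B1 + D) * K * (3 * 2 ^ pl * K) = 24 * (2 ^ (B1 + D) * 2 ^ pl) * (K * K) := by
            ring
        _ ≤ 32 * (2 ^ (B1 + D) * 2 ^ pl) * (K * K) := by nlinarith [Nat.zero_le (K * K)]
        _ < 32 * (2 ^ (B1 + D) * 2 ^ pl) * 2 ^ (2 * k + 2) :=
          Nat.mul_lt_mul_of_pos_left hK2 (by positivity)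
    have e7 : 2 ^ Λ < 2 ^ (5 + (B1 + D) + pl + (2 * k + 2)) := by
      calc 2 ^ Λ ≤ X := hX
        _ ≤ _ := e3
        _ < _ := e4
    have e8 := (Nat.pow_lt_pow_iff_right (by norm_num : 1 < 2)).1 e7
    omega

end GoodBlocks

/-- G3 -/
theorem claimGoodBlocks (h0 : ClaimSizF) : ClaimGoodBlocks := by
  obtain ⟨L0, hL0⟩ := h0
  refine ⟨L0, fun L hL => ?_⟩
  have F := hL0 L hL
  classical
  set X := pX L with hXdef
  set K := pK L with hKdef
  set Λ := Nat.log 2 X with hΛ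
  have hK1 : 1 ≤ K := le_trans (by norm_num) F.z1
  have hK : K < 2 ^ (pk L + 1) := Nat.lt_pow_succ_log_self (by norm_num) K
  have hz9 := F.z9
  have hz11 := F.z11
  have hz14 : pb L + pal L ≤ Λ := F.z14
  have hX0 : X ≠ 0 := by
    intro h
    have : Λ = 0 := by rw [hΛ, h]; simp
    omega
  have hX : 2 ^ Λ ≤ X := Nat.pow_log_le_self 2 hX0
  have hΛK : Λ ≤ K := by
    have e1 : (X : ℝ) ≤ ((3 ^ L : ℕ) : ℝ) := by
      refine F.z7'.trans ?_
      have e2 : (1 : ℝ) ≤ ((3 ^ L : ℕ) : ℝ) := by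
        exact_mod_cast Nat.one_le_pow _ _ (by norm_num)
      calc ((3 ^ L : ℕ) : ℝ) ^ ((56 : ℝ) / 100) ≤ ((3 ^ L : ℕ) : ℝ) ^ (1 : ℝ) :=
            Real.rpow_le_rpow_of_exponent_le e2 (by norm_num)
        _ = _ := Real.rpow_one _
    have e3 : X ≤ 3 ^ L := by exact_mod_cast e1
    have e4 : 2 ^ Λ < 2 ^ (K + 1) := lt_of_le_of_lt (hX.trans e3) F.z3'
    have := (Nat.pow_lt_pow_iff_right (by norm_num : 1 < 2)).1 e4
    omega
  have hb : pb L = pal L + pm L * pl L := rfl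
  refine ⟨(range (pm L)).filter (fun l => GoodBlock L l), Finset.filter_subset _ _,
    fun l hl => (Finset.mem_filter.1 hl).2, ?_⟩
  have hsplit := Finset.card_filter_add_card_filter_not (s := range (pm L))
    (fun l => GoodBlock L l)
  rw [Finset.card_range] at hsplit
  have hbad : ((range (pm L)).filter (fun l => ¬ GoodBlock L l)).card ≤
      3 * (2 * (pk L + 1)) := by
    -- facts for one block
    have hB : ∀ l, l < pm L → l * pl L ≤ pm L * pl L := fun l hl =>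
      Nat.mul_le_mul_right _ hl.le
    have hbadw : ∀ l ∈ (range (pm L)).filter (fun l => ¬ GoodBlock L l),
        l < pm L ∧ ∃ w v : ℕ, 1 ≤ w ∧ w ≤ 3 * 2 ^ pl L * K ∧ 1 ≤ v ∧ v ≤ 3 * w ∧
          (X : ℤ) * |(w : ℤ) * 2 ^ pBt L l - v * 3 ^ pP L l| ≤
            2 ^ (pBt L l + 1) * K * 3 ^ pP L l := by
      intro l hl
      obtain ⟨hl1, hl2⟩ := Finset.mem_filter.1 hl
      rw [Finset.mem_range] at hl1
      refine ⟨hl1, ?_⟩
      unfold GoodBlock at hl2
      push Not at hl2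
      obtain ⟨w, hw1, hw2, hw3⟩ := hl2
      have hBl : pBt L l ≤ pb L := Nat.sub_le _ _
      have hXl : 2 ^ (pBt L l + 1) * K < X := by
        calc 2 ^ (pBt L l + 1) * K < 2 ^ (pBt L l + 1) * 2 ^ (pk L + 1) :=
              Nat.mul_lt_mul_of_pos_left hK (by positivity)
          _ = 2 ^ (pBt L l + 1 + (pk L + 1)) := (pow_add _ _ _).symm
          _ ≤ 2 ^ Λ := Nat.pow_le_pow_right (by norm_num) (by omega)
          _ ≤ X := hX
      obtain ⟨v, hv1, hv2, hv3⟩ := GoodBlocks.bad_elim hXl hK1 hw1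
        (Nat.pow_log_le_self 3 (by positivity)) (Nat.lt_pow_succ_log_self (by norm_num) _) hw3
      exact ⟨w, v, hw1, hw2, hv1, hv2, hv3⟩
    apply GoodBlocks.count_aux (fun l => ((Λ - pBt L l : ℕ) : ℝ)) (2 * (pk L + 1)) 1 _ one_pos
    · intro l hl l' hl' hll
      obtain ⟨hlm, w1, v1, a1, a2, a3, a4, a5⟩ := hbadw l hl
      obtain ⟨hlm', w2, v2, b1, b2, b3, b4, b5⟩ := hbadw l' hl'
      have hBe : pBt L l = pBt L l' + (l' - l) * pl L := by
        unfold pBt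
        have e1 := hB l' hlm'
        have e2 : l' * pl L = l * pl L + (l' - l) * pl L := by
          rw [← add_mul]
          congr 1
          omega
        omega
      have hBl : pBt L l ≤ pb L := Nat.sub_le _ _
      have hgr := GoodBlocks.growth (al := pal L) (pl := pl L) hX hK hBe
        (Nat.log_mono_right (Nat.pow_le_pow_right (by norm_num) (by omega)))
        (Nat.pow_log_le_self 3 (by positivity)) (Nat.lt_pow_succ_log_self (by norm_num) _)
        a2 b2 b1 a3 a4 a5 b5 (by omega) hz9 hz11 (Nat.mul_le_mul_right _ (by omega))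
      have hgr' : (3 : ℝ) * ((Λ - pBt L l : ℕ) : ℝ) ≤ 2 * ((Λ - pBt L l' : ℕ) : ℝ) := by
        exact_mod_cast hgr
      linarith
    · intro l hl
      have hBl : pBt L l ≤ pb L := Nat.sub_le _ _
      have : 1 ≤ Λ - pBt L l := by omega
      exact_mod_cast this
    · intro l hl
      rw [mul_one]
      have e1 : ((Λ - pBt L l : ℕ) : ℝ) < (2 : ℝ) ^ (pk L + 1) := by
        have : Λ - pBt L l < 2 ^ (pk L + 1) := by omega
        exact_mod_cast this
      refine e1.trans_le ?_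
      rw [pow_mul]
      exact pow_le_pow_left₀ (by norm_num) (by norm_num) _
  omega

end Pool.Agent.Work.MP_8e4d29_nt

end

section

/-!
N1: the discrete Kusmin-Landau inequality.
-/

namespace Pool.Agent.Work.MP_8e4d29_nt

open Finset
open Pool.Agent.Work.MP_122e00_nt (ee norm_ee ee_add)

/-- cotangent of `π d` -/
noncomputable def klct (d : ℝ) : ℝ := Real.cos (Real.pi * d) / Real.sin (Real.pi * d)

/-- `1 / (1 - ee d)` -/
noncomputable def klc (d : ℝ) : ℂ := (1 + (klct d : ℂ) * Complex.I) / 2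

theorem kl_sin_ge {d : ℝ} (h0 : 0 < d) (h1 : d ≤ 1 / 2) : 2 * d ≤ Real.sin (Real.pi * d) := by
  have h3 := Real.mul_le_sin (x := Real.pi * d) (by positivity) (by nlinarith [Real.pi_pos])
  have e : 2 / Real.pi * (Real.pi * d) = 2 * d := by field_simp
  rwa [e] at h3

theorem kl_cos_nonneg {d : ℝ} (h0 : 0 < d) (h1 : d ≤ 1 / 2) : 0 ≤ Real.cos (Real.pi * d) := by
  apply Real.cos_nonneg_of_mem_Icc
  constructor
  · have : 0 ≤ Real.pi * d := by positivity
    linarith [Real.pi_pos]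
  · nlinarith [Real.pi_pos]

theorem klct_nonneg {d : ℝ} (h0 : 0 < d) (h1 : d ≤ 1 / 2) : 0 ≤ klct d := by
  unfold klct
  have := kl_sin_ge h0 h1
  exact div_nonneg (kl_cos_nonneg h0 h1) (by linarith)

theorem klct_le {d lam : ℝ} (hl : 0 < lam) (h0 : lam ≤ d) (h1 : d ≤ 1 / 2) :
    klct d ≤ 1 / (2 * lam) := by
  unfold klct
  have hd : 0 < d := lt_of_lt_of_le hl h0
  have hs := kl_sin_ge hd h1
  have hc := Real.cos_le_one (Real.pi * d)
  apply div_le_div₀ zero_le_one hc (by linarith) (by linarith)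

theorem klct_mono {d e : ℝ} (hd : 0 < d) (hde : d ≤ e) (he : e ≤ 1 / 2) : klct e ≤ klct d := by
  unfold klct
  have hs := kl_sin_ge hd (hde.trans he)
  have hpe : Real.pi * d ≤ Real.pi * e := mul_le_mul_of_nonneg_left hde Real.pi_pos.le
  have hp1 : Real.pi * e ≤ Real.pi / 2 := by nlinarith [Real.pi_pos]
  have hp0 : 0 < Real.pi * d := by positivity
  apply div_le_div₀ (kl_cos_nonneg hd (hde.trans he)) _ (by linarith) _
  · exact Real.cos_le_cos_of_nonneg_of_le_pi hp0.le (by linarith [Real.pi_pos]) hpe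
  · exact Real.sin_le_sin_of_le_of_le_pi_div_two (by linarith) hp1 hpe

theorem klc_mul {d : ℝ} (h0 : 0 < d) (h1 : d ≤ 1 / 2) : (1 - ee d) * klc d = 1 := by
  have hs := kl_sin_ge h0 h1
  have hs0 : Real.sin (Real.pi * d) ≠ 0 := by
    have : 0 < Real.sin (Real.pi * d) := by linarith
    exact this.ne'
  have he : ee d = ((Real.cos (Real.pi * d) : ℂ) + (Real.sin (Real.pi * d) : ℂ) * Complex.I) ^ 2 := by
    unfold ee
    rw [Complex.ofReal_cos, Complex.ofReal_sin, ← Complex.exp_mul_I, ← Complex.exp_nat_mul]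
    congr 1
    push_cast
    ring
  rw [he]
  unfold klc klct
  have hsc : (Real.sin (Real.pi * d) : ℂ) ≠ 0 := by exact_mod_cast hs0
  have hcs : (Real.cos (Real.pi * d) : ℂ) ^ 2 = 1 - (Real.sin (Real.pi * d) : ℂ) ^ 2 := by
    have := Real.cos_sq_add_sin_sq (Real.pi * d)
    have h2 : (Real.cos (Real.pi * d) : ℂ) ^ 2 + (Real.sin (Real.pi * d) : ℂ) ^ 2 = 1 := by
      exact_mod_cast this
    linear_combination h2
  rw [Complex.ofReal_div]
  generalize (Real.sin (Real.pi * d) : ℂ) = s at hsc hcs ⊢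
  generalize (Real.cos (Real.pi * d) : ℂ) = c at hcs ⊢
  have hI : Complex.I ^ 2 = -1 := Complex.I_sq
  have e1 : 1 - (c + s * Complex.I) ^ 2 = 2 * s * (s - c * Complex.I) := by
    linear_combination (-1 : ℂ) * hcs - s ^ 2 * hI
  have e2 : 2 * s * (s - c * Complex.I) * ((1 + c / s * Complex.I) / 2) =
      (s - c * Complex.I) * (s + c * Complex.I) := by
    field_simp
  rw [e1, e2]
  linear_combination hcs - c ^ 2 * hI

theorem klc_norm {d lam : ℝ} (hl : 0 < lam) (h0 : lam ≤ d) (h1 : d ≤ 1 / 2) :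
    ‖klc d‖ ≤ 1 / 2 + 1 / (4 * lam) := by
  unfold klc
  rw [norm_div, Complex.norm_ofNat]
  have h2 := klct_le hl h0 h1
  have h3 := klct_nonneg (lt_of_lt_of_le hl h0) h1
  have h4 : ‖(1 + (klct d : ℂ) * Complex.I)‖ ≤ 1 + klct d := by
    refine (norm_add_le _ _).trans ?_
    rw [norm_one, norm_mul, Complex.norm_I, mul_one, Complex.norm_real, Real.norm_of_nonneg h3]
  have h5 : 1 / (2 * lam) = 2 * (1 / (4 * lam)) := by field_simp; norm_num
  linarith

theorem kl_abel (E c : ℕ → ℂ) (hE : ∀ n, ‖E n‖ = 1) (K : ℕ) :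
    ‖∑ n ∈ range (K + 1), (E n - E (n + 1)) * c n + E (K + 1) * c K‖ ≤
      ‖c 0‖ + ∑ n ∈ range K, ‖c (n + 1) - c n‖ := by
  have key : ∑ n ∈ range (K + 1), (E n - E (n + 1)) * c n + E (K + 1) * c K =
      E 0 * c 0 + ∑ n ∈ range K, E (n + 1) * (c (n + 1) - c n) := by
    induction K with
    | zero =>
      simp only [zero_add, range_one, sum_singleton, range_zero, sum_empty, add_zero]
      ring
    | succ K ih =>
      rw [sum_range_succ, sum_range_succ (fun n => E (n + 1) * (c (n + 1) - c n)), ← add_assoc,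
        ← ih]
      ring
  rw [key]
  refine (norm_add_le _ _).trans ?_
  rw [norm_mul, hE, one_mul]
  apply add_le_add_right
  refine (norm_sum_le _ _).trans ?_
  apply sum_le_sum
  intro n _
  rw [norm_mul, hE, one_mul]

theorem kl_shift (h : ℕ → ℝ) (M : ℕ) (lam : ℝ) (hl : 0 < lam) (hl2 : lam ≤ 1 / 2)
    (h1 : ∀ n, n + 1 < M → lam ≤ h (n + 1) - h n ∧ h (n + 1) - h n ≤ 1 / 2)
    (h2 : ∀ n, n + 2 < M → h (n + 2) - h (n + 1) ≤ h (n + 1) - h n) :
    ‖∑ n ∈ range M, ee (h n)‖ ≤ 2 / lam := by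
  have hinv : 2 ≤ 1 / lam := by
    rw [le_div_iff₀ hl]; linarith
  have e2 : 2 / lam = 2 * (1 / lam) := by ring
  rcases M with _ | _ | K
  · simp
    positivity
  · simp [norm_ee]
    linarith
  · -- M = K + 2
    set c : ℕ → ℂ := fun n => klc (h (n + 1) - h n) with hc
    set E : ℕ → ℂ := fun n => ee (h n) with hEd
    have hE : ∀ n, ‖E n‖ = 1 := fun n => norm_ee _
    have hterm : ∀ n ∈ range (K + 1), ee (h n) = (E n - E (n + 1)) * c n := by
      intro n hn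
      rw [mem_range] at hn
      obtain ⟨ha, hb⟩ := h1 n (by omega)
      have hm := klc_mul (lt_of_lt_of_le hl ha) hb
      have he : E (n + 1) = E n * ee (h (n + 1) - h n) := by
        simp only [hEd]
        rw [← ee_add]
        congr 1
        ring
      rw [he]
      have : (E n - E n * ee (h (n + 1) - h n)) * c n = E n * ((1 - ee (h (n + 1) - h n)) * klc (h (n + 1) - h n)) := by
        simp only [hc]; ring
      rw [this, hm, mul_one]
    have hsum : ∑ n ∈ range (K + 1 + 1), ee (h n) =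
        (∑ n ∈ range (K + 1), (E n - E (n + 1)) * c n + E (K + 1) * c K) - E (K + 1) * c K + E (K + 1) := by
      rw [sum_range_succ, sum_congr rfl hterm]
      simp only [hEd]
      ring
    have hc0 : ‖c 0‖ ≤ 1 / 2 + 1 / (4 * lam) := by
      obtain ⟨ha, hb⟩ := h1 0 (by omega)
      exact klc_norm hl ha hb
    have hcK : ‖c K‖ ≤ 1 / 2 + 1 / (4 * lam) := by
      obtain ⟨ha, hb⟩ := h1 K (by omega)
      exact klc_norm hl ha hb
    have hdiff : ∀ n ∈ range K, ‖c (n + 1) - c n‖ =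
        (klct (h (n + 1 + 1) - h (n + 1)) - klct (h (n + 1) - h n)) / 2 := by
      intro n hn
      rw [mem_range] at hn
      obtain ⟨ha, hb⟩ := h1 n (by omega)
      obtain ⟨ha', hb'⟩ := h1 (n + 1) (by omega)
      have hm := h2 n (by omega)
      have hmono : klct (h (n + 1) - h n) ≤ klct (h (n + 1 + 1) - h (n + 1)) :=
        klct_mono (lt_of_lt_of_le hl ha') hm hb
      have : c (n + 1) - c n =
          (((klct (h (n + 1 + 1) - h (n + 1)) - klct (h (n + 1) - h n)) / 2 : ℝ) : ℂ) * Complex.I := by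
        simp only [hc]
        unfold klc
        push_cast
        ring
      rw [this, norm_mul, Complex.norm_I, mul_one, Complex.norm_real, Real.norm_of_nonneg]
      linarith
    have hS : ∑ n ∈ range K, ‖c (n + 1) - c n‖ ≤ 1 / (4 * lam) := by
      rw [sum_congr rfl hdiff, ← sum_div]
      have ht : ∑ n ∈ range K, (klct (h (n + 1 + 1) - h (n + 1)) - klct (h (n + 1) - h n)) =
          klct (h (K + 1) - h K) - klct (h (0 + 1) - h 0) :=
        sum_range_sub (fun n => klct (h (n + 1) - h n)) K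
      rw [ht]
      obtain ⟨ha, hb⟩ := h1 K (by omega)
      obtain ⟨ha', hb'⟩ := h1 0 (by omega)
      have h3 := klct_le hl ha hb
      have h4 := klct_nonneg (lt_of_lt_of_le hl ha') hb'
      have h5 : 1 / (2 * lam) = 2 * (1 / (4 * lam)) := by field_simp; norm_num
      linarith
    have hab := kl_abel E c hE K
    rw [hsum]
    have hn1 : ‖(∑ n ∈ range (K + 1), (E n - E (n + 1)) * c n + E (K + 1) * c K) - E (K + 1) * c K + E (K + 1)‖
        ≤ ‖∑ n ∈ range (K + 1), (E n - E (n + 1)) * c n + E (K + 1) * c K‖ + ‖c K‖ + 1 := by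
      refine (norm_add_le _ _).trans ?_
      rw [hE]
      apply add_le_add_left
      refine (norm_sub_le _ _).trans ?_
      rw [norm_mul, hE, one_mul]
    have h6 : 1 / (4 * lam) = (1 / lam) / 4 := by field_simp
    rw [h6] at hc0 hcK hS
    rw [e2]
    linarith

theorem claimKL : ClaimKL := by
  refine ⟨2, ?_⟩
  intro g a b lam hl hl2 h1 h2
  rw [sum_Ico_eq_sum_range]
  apply kl_shift (fun n => g (a + n)) (b - a) lam hl hl2
  · intro n hn
    exact h1 (a + n) (by omega) (by omega)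
  · intro n hn
    exact h2 (a + n) (by omega) (by omega)

end Pool.Agent.Work.MP_8e4d29_nt

end

section

/-!
MP_8e4d29_nt, item N7a: the kernel `kY`.
-/

namespace Pool.Agent.Work.MP_8e4d29_nt

open Finset
open Pool.Agent.Work.MP_122e00_nt (ee norm_ee ee_add ee_neg)

namespace KYAux

theorem continuous_ee : Continuous ee := by
  unfold ee
  fun_prop

/-- extension of the integral from `[-T0, T0]` to `[-T1, T1]` -/
theorem integral_ext (T0 T1 u : ℝ) (h0 : 0 < T0) (h1 : T0 ≤ T1) :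
    ∫ t in (-T0)..T0, ((1 - |t| / T0 : ℝ) : ℂ) * ee (t * u) =
      ∫ t in (-T1)..T1, ((max 0 (1 - |t| / T0) : ℝ) : ℂ) * ee (t * u) := by
  have hc : Continuous (fun t : ℝ => ((max 0 (1 - |t| / T0) : ℝ) : ℂ) * ee (t * u)) := by
    have := continuous_ee
    fun_prop
  have hi : ∀ a b : ℝ, IntervalIntegrable
      (fun t : ℝ => ((max 0 (1 - |t| / T0) : ℝ) : ℂ) * ee (t * u)) MeasureTheory.volume a b :=
    fun a b => hc.intervalIntegrable a b
  have z1 : ∫ t in (-T1)..(-T0), ((max 0 (1 - |t| / T0) : ℝ) : ℂ) * ee (t * u) = 0 := by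
    have : ∫ t in (-T1)..(-T0), ((max 0 (1 - |t| / T0) : ℝ) : ℂ) * ee (t * u) =
        ∫ t in (-T1)..(-T0), (0 : ℂ) := by
      apply intervalIntegral.integral_congr
      intro t ht
      rw [Set.uIcc_of_le (by linarith)] at ht
      obtain ⟨ht1, ht2⟩ := ht
      have h3 : T0 ≤ |t| := by
        rw [abs_of_nonpos (by linarith)]
        linarith
      have h4 : 1 ≤ |t| / T0 := by rwa [le_div_iff₀ h0, one_mul]
      have h5 : max 0 (1 - |t| / T0) = 0 := max_eq_left (by linarith)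
      simp only [h5]
      simp
    rw [this]
    simp
  have z2 : ∫ t in T0..T1, ((max 0 (1 - |t| / T0) : ℝ) : ℂ) * ee (t * u) = 0 := by
    have : ∫ t in T0..T1, ((max 0 (1 - |t| / T0) : ℝ) : ℂ) * ee (t * u) =
        ∫ t in T0..T1, (0 : ℂ) := by
      apply intervalIntegral.integral_congr
      intro t ht
      rw [Set.uIcc_of_le (by linarith)] at ht
      obtain ⟨ht1, ht2⟩ := ht
      have h3 : T0 ≤ |t| := by
        rw [abs_of_nonneg (by linarith)]
        exact ht1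
      have h4 : 1 ≤ |t| / T0 := by rwa [le_div_iff₀ h0, one_mul]
      have h5 : max 0 (1 - |t| / T0) = 0 := max_eq_left (by linarith)
      simp only [h5]
      simp
    rw [this]
    simp
  have z3 : ∫ t in (-T0)..T0, ((max 0 (1 - |t| / T0) : ℝ) : ℂ) * ee (t * u) =
      ∫ t in (-T0)..T0, ((1 - |t| / T0 : ℝ) : ℂ) * ee (t * u) := by
    apply intervalIntegral.integral_congr
    intro t ht
    rw [Set.uIcc_of_le (by linarith)] at ht
    obtain ⟨ht1, ht2⟩ := ht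
    have h3 : |t| ≤ T0 := abs_le.mpr ⟨ht1, ht2⟩
    have h4 : |t| / T0 ≤ 1 := by rwa [div_le_iff₀ h0, one_mul]
    have h5 : max 0 (1 - |t| / T0) = 1 - |t| / T0 := max_eq_right (by linarith)
    simp only [h5]
  rw [← intervalIntegral.integral_add_adjacent_intervals (hi (-T1) (-T0)) (hi (-T0) T1),
    ← intervalIntegral.integral_add_adjacent_intervals (hi (-T0) T0) (hi T0 T1), z1, z2, z3]
  simp

/-- the integral representation of one difference -/
theorem fej_sub (h3 : ClaimFej) (T0 T1 a b : ℝ) (h0 : 0 < T0) (h1 : T0 ≤ T1) :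
    ((fej T1 (a - b) - fej T0 (a - b) : ℝ) : ℂ) =
      ∫ t in (-T1)..T1, ((1 - |t| / T1 - max 0 (1 - |t| / T0) : ℝ) : ℂ) * ee (-(t * b)) *
        ee (t * a) := by
  have e1 := (h3 T1 (a - b) (by linarith)).2.2.2.2
  have e0 := (h3 T0 (a - b) h0).2.2.2.2
  rw [integral_ext T0 T1 (a - b) h0 h1] at e0
  rw [Complex.ofReal_sub, e1, e0, ← intervalIntegral.integral_sub]
  · apply intervalIntegral.integral_congr
    intro t _
    have e : ee (t * (a - b)) = ee (-(t * b)) * ee (t * a) := by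
      rw [← ee_add]
      congr 1
      ring
    simp only [e]
    push_cast
    ring
  · apply Continuous.intervalIntegrable
    have := continuous_ee
    fun_prop
  · apply Continuous.intervalIntegrable
    have := continuous_ee
    fun_prop

/-- the integral representation of `FY` -/
theorem FY_eq (h3 : ClaimFej) (L c n : ℕ) (T : ℝ) (h1 : (3 : ℝ) ^ py0 L / 8 ≤ T) :
    (FY L c T n : ℂ) = ∫ t in (-T)..T, kY L c T t * ee (t * Real.log (n : ℝ)) := by
  have h0 : (0 : ℝ) < (3 : ℝ) ^ py0 L / 8 := by positivity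
  unfold FY kY
  rw [Complex.ofReal_sum]
  have e1 : ∀ t : ℝ, ((1 - |t| / T - max 0 (1 - |t| / ((3 : ℝ) ^ py0 L / 8)) : ℝ) : ℂ) *
      ∑ y ∈ Ico (3 ^ py0 L : ℕ) (3 * 3 ^ py0 L : ℕ),
        ee (-(t * Real.log ((3 : ℝ) ^ pjj L * (y : ℝ) + c))) * ee (t * Real.log (n : ℝ)) =
      ∑ y ∈ Ico (3 ^ py0 L : ℕ) (3 * 3 ^ py0 L : ℕ),
        ((1 - |t| / T - max 0 (1 - |t| / ((3 : ℝ) ^ py0 L / 8)) : ℝ) : ℂ) *
        ee (-(t * Real.log ((3 : ℝ) ^ pjj L * (y : ℝ) + c))) * ee (t * Real.log (n : ℝ)) := by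
    intro t
    rw [Finset.mul_sum]
    apply Finset.sum_congr rfl
    intro y _
    ring
  have e2 : ∫ t in (-T)..T, ((1 - |t| / T - max 0 (1 - |t| / ((3 : ℝ) ^ py0 L / 8)) : ℝ) : ℂ) *
      (∑ y ∈ Ico (3 ^ py0 L : ℕ) (3 * 3 ^ py0 L : ℕ),
        ee (-(t * Real.log ((3 : ℝ) ^ pjj L * (y : ℝ) + c)))) * ee (t * Real.log (n : ℝ)) =
      ∫ t in (-T)..T, ∑ y ∈ Ico (3 ^ py0 L : ℕ) (3 * 3 ^ py0 L : ℕ),
        ((1 - |t| / T - max 0 (1 - |t| / ((3 : ℝ) ^ py0 L / 8)) : ℝ) : ℂ) *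
        ee (-(t * Real.log ((3 : ℝ) ^ pjj L * (y : ℝ) + c))) * ee (t * Real.log (n : ℝ)) := by
    apply intervalIntegral.integral_congr
    intro t _
    simp only
    rw [← e1 t, ← Finset.sum_mul]
    ring
  rw [e2, intervalIntegral.integral_finsetSum]
  · apply Finset.sum_congr rfl
    intro y _
    exact fej_sub h3 _ _ _ _ h0 h1
  · intro y _
    apply Continuous.intervalIntegrable
    have := continuous_ee
    fun_prop

/-- the sum over `y`, after taking out the factor `J` -/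
theorem norm_sum_eq (L c : ℕ) (t : ℝ) :
    ‖∑ y ∈ Ico (3 ^ py0 L : ℕ) (3 * 3 ^ py0 L : ℕ),
      ee (-(t * Real.log ((3 : ℝ) ^ pjj L * (y : ℝ) + c)))‖ =
    ‖∑ y ∈ Ico (3 ^ py0 L : ℕ) (3 * 3 ^ py0 L : ℕ),
      ee ((-t) * Real.log ((y : ℝ) + (c : ℝ) / (3 : ℝ) ^ pjj L))‖ := by
  have hJ : (0 : ℝ) < (3 : ℝ) ^ pjj L := by positivity
  have e : ∑ y ∈ Ico (3 ^ py0 L : ℕ) (3 * 3 ^ py0 L : ℕ),
      ee (-(t * Real.log ((3 : ℝ) ^ pjj L * (y : ℝ) + c))) =
    ee (-(t * Real.log ((3 : ℝ) ^ pjj L))) *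
    ∑ y ∈ Ico (3 ^ py0 L : ℕ) (3 * 3 ^ py0 L : ℕ),
      ee ((-t) * Real.log ((y : ℝ) + (c : ℝ) / (3 : ℝ) ^ pjj L)) := by
    rw [Finset.mul_sum]
    apply Finset.sum_congr rfl
    intro y hy
    rw [mem_Ico] at hy
    have hy1 : (1 : ℕ) ≤ y := le_trans (Nat.one_le_pow _ _ (by norm_num)) hy.1
    have hy2 : (1 : ℝ) ≤ y := by exact_mod_cast hy1
    have hc : (0 : ℝ) ≤ (c : ℝ) / (3 : ℝ) ^ pjj L := by positivity
    rw [← ee_add]
    congr 1
    have : (3 : ℝ) ^ pjj L * (y : ℝ) + c = (3 : ℝ) ^ pjj L * ((y : ℝ) + (c : ℝ) / (3 : ℝ) ^ pjj L) := by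
      field_simp
    rw [this, Real.log_mul hJ.ne' (by positivity)]
    ring
  rw [e, norm_mul, norm_ee, one_mul]

theorem factor_bd (a b x : ℝ) (ha : 0 < a) (hab : a ≤ b) (hx : 0 ≤ x) (hxb : x ≤ b) :
    |1 - x / b - max 0 (1 - x / a)| ≤ 1 ∧ |1 - x / b - max 0 (1 - x / a)| ≤ x / a := by
  have hb : 0 < b := lt_of_lt_of_le ha hab
  have h1 : 0 ≤ x / b := by positivity
  have h2 : x / b ≤ 1 := by rwa [div_le_iff₀ hb, one_mul]
  have h3 : x / b ≤ x / a := by
    apply div_le_div_of_nonneg_left hx ha hab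
  have h4 : 0 ≤ x / a := by positivity
  rcases le_total (1 - x / a) 0 with h | h
  · rw [max_eq_left h, sub_zero, abs_of_nonneg (by linarith)]
    constructor <;> linarith
  · rw [max_eq_right h]
    have e : 1 - x / b - (1 - x / a) = x / a - x / b := by ring
    rw [e, abs_of_nonneg (by linarith)]
    constructor <;> linarith

/-- bound for the transform -/
theorem kY_bd (C1 η : ℝ) (hη0 : 0 < η) (hη1 : η < 1)
    (h1 : ∀ (Y : ℕ) (c t : ℝ), 1 ≤ Y → 0 ≤ c → c ≤ 1 →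
      (Y : ℝ) / 10 ≤ |t| → |t| ≤ (Y : ℝ) ^ 23 →
      ‖∑ y ∈ Ico Y (3 * Y), ee (t * Real.log ((y : ℝ) + c))‖ ≤ C1 * (Y : ℝ) ^ (1 - η))
    (C2 : ℝ) (h2 : ∀ (a b : ℕ) (c t : ℝ), 1 ≤ a → 0 ≤ c → c ≤ 1 → 0 < |t| →
      |t| ≤ (a : ℝ) / 4 →
      ‖∑ y ∈ Ico a b, ee (t * Real.log ((y : ℝ) + c))‖ ≤ C2 * ((b : ℝ) + 1) / |t|)
    (L c : ℕ) (T t : ℝ) (hc : c < 3 ^ pjj L) (hT1 : (3 : ℝ) ^ py0 L / 8 ≤ T)
    (hT2 : T ≤ ((3 : ℝ) ^ py0 L) ^ 23) (ht : |t| ≤ T) :
    ‖kY L c T t‖ ≤ (|C1| + 32 * |C2|) * ((3 : ℝ) ^ py0 L) ^ (1 - η) := by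
  have hJ : (0 : ℝ) < (3 : ℝ) ^ pjj L := by positivity
  have hc0 : (0 : ℝ) ≤ (c : ℝ) / (3 : ℝ) ^ pjj L := by positivity
  have hc1 : (c : ℝ) / (3 : ℝ) ^ pjj L ≤ 1 := by
    rw [div_le_iff₀ hJ, one_mul]
    have : (c : ℝ) < ((3 ^ pjj L : ℕ) : ℝ) := by exact_mod_cast hc
    push_cast at this
    exact this.le
  have hY1 : (1 : ℕ) ≤ 3 ^ py0 L := Nat.one_le_pow _ _ (by norm_num)
  have hYc : ((3 ^ py0 L : ℕ) : ℝ) = (3 : ℝ) ^ py0 L := by push_cast; rfl
  have hYr : (1 : ℝ) ≤ (3 : ℝ) ^ py0 L := by rw [← hYc]; exact_mod_cast hY1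
  have hYp : (1 : ℝ) ≤ ((3 : ℝ) ^ py0 L) ^ (1 - η) := Real.one_le_rpow hYr (by linarith)
  have hf := factor_bd ((3 : ℝ) ^ py0 L / 8) T |t| (by positivity) hT1 (abs_nonneg t) ht
  unfold kY
  rw [norm_mul, norm_sum_eq, Complex.norm_real, Real.norm_eq_abs]
  rcases le_total ((3 : ℝ) ^ py0 L / 10) |t| with hcase | hcase
  · have h := h1 (3 ^ py0 L) ((c : ℝ) / (3 : ℝ) ^ pjj L) (-t) hY1 hc0 hc1
      (by rw [hYc, abs_neg]; exact hcase) (by rw [hYc, abs_neg]; exact ht.trans hT2)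
    rw [hYc] at h
    have h' : C1 * ((3 : ℝ) ^ py0 L) ^ (1 - η) ≤ |C1| * ((3 : ℝ) ^ py0 L) ^ (1 - η) :=
      mul_le_mul_of_nonneg_right (le_abs_self _) (by linarith)
    have h'' : 0 ≤ 32 * |C2| * ((3 : ℝ) ^ py0 L) ^ (1 - η) := by positivity
    calc _ ≤ 1 * ‖∑ y ∈ Ico (3 ^ py0 L : ℕ) (3 * 3 ^ py0 L : ℕ),
            ee ((-t) * Real.log ((y : ℝ) + (c : ℝ) / (3 : ℝ) ^ pjj L))‖ :=
          mul_le_mul_of_nonneg_right hf.1 (norm_nonneg _)
      _ ≤ C1 * ((3 : ℝ) ^ py0 L) ^ (1 - η) := by rw [one_mul]; exact h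
      _ ≤ _ := by nlinarith
  · rcases eq_or_ne t 0 with h0 | h0
    · subst h0
      simp only [abs_zero, zero_div, sub_zero]
      rw [max_eq_right (by norm_num)]
      simp only [sub_self, abs_zero, zero_mul]
      positivity
    · have htp : 0 < |t| := abs_pos.mpr h0
      have h := h2 (3 ^ py0 L) (3 * 3 ^ py0 L) ((c : ℝ) / (3 : ℝ) ^ pjj L) (-t) hY1 hc0 hc1
        (by rw [abs_neg]; exact htp) (by rw [hYc, abs_neg]; linarith)
      rw [abs_neg] at h
      have hb : (((3 * 3 ^ py0 L : ℕ) : ℝ) + 1) = 3 * (3 : ℝ) ^ py0 L + 1 := by push_cast; ring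
      rw [hb] at h
      have hx : C2 * (3 * (3 : ℝ) ^ py0 L + 1) / |t| ≤ |C2| * (4 * (3 : ℝ) ^ py0 L) / |t| := by
        apply div_le_div_of_nonneg_right _ htp.le
        calc C2 * (3 * (3 : ℝ) ^ py0 L + 1) ≤ |C2| * (3 * (3 : ℝ) ^ py0 L + 1) :=
              mul_le_mul_of_nonneg_right (le_abs_self _) (by positivity)
          _ ≤ |C2| * (4 * (3 : ℝ) ^ py0 L) :=
              mul_le_mul_of_nonneg_left (by linarith) (abs_nonneg _)
      calc _ ≤ (|t| / ((3 : ℝ) ^ py0 L / 8)) * (|C2| * (4 * (3 : ℝ) ^ py0 L) / |t|) :=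
            mul_le_mul hf.2 (h.trans hx) (norm_nonneg _) (by positivity)
        _ = 32 * |C2| := by
            field_simp
            ring
        _ ≤ 32 * |C2| * ((3 : ℝ) ^ py0 L) ^ (1 - η) := by
            nlinarith [abs_nonneg C2, mul_nonneg (abs_nonneg C2) (sub_nonneg.mpr hYp)]
        _ ≤ _ := by
            have : 0 ≤ |C1| * ((3 : ℝ) ^ py0 L) ^ (1 - η) := by positivity
            linarith

/-- bound for one difference of kernels -/
theorem fej_sub_bd (h3 : ClaimFej) (T0 T1 u : ℝ) (h0 : 0 < T0) (h1 : T0 ≤ T1)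
    (hu : 1 / 5 ≤ |u|) : |fej T1 u - fej T0 u| ≤ 3 / T0 := by
  have hu0 : u ≠ 0 := by
    intro h
    rw [h, abs_zero] at hu
    norm_num at hu
  have hT1 : 0 < T1 := lt_of_lt_of_le h0 h1
  obtain ⟨a1, -, a2, -, -⟩ := h3 T1 u hT1
  obtain ⟨b1, -, b2, -, -⟩ := h3 T0 u h0
  have a3 := a2 hu0
  have b3 := b2 hu0
  have hsq : 1 / 3 ≤ (Real.pi * u) ^ 2 := by
    have e : (Real.pi * u) ^ 2 = Real.pi ^ 2 * |u| ^ 2 := by rw [mul_pow, sq_abs]
    rw [e]
    have p1 := Real.pi_gt_three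
    have p2 : (9 : ℝ) ≤ Real.pi ^ 2 := by nlinarith
    have p3 : (1 / 25 : ℝ) ≤ |u| ^ 2 := by nlinarith
    nlinarith
  have key : ∀ T : ℝ, T0 ≤ T → 1 / (T * (Real.pi * u) ^ 2) ≤ 3 / T0 := by
    intro T hT
    have hTp : 0 < T := lt_of_lt_of_le h0 hT
    rw [div_le_div_iff₀ (by positivity) h0]
    nlinarith [mul_le_mul hT hsq (by norm_num) hTp.le]
  have a4 := a3.trans (key T1 h1)
  have b4 := b3.trans (key T0 le_rfl)
  rw [abs_le]
  constructor <;> linarith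

/-- bound for `FY` far from the intervals -/
theorem FY_bd (h3 : ClaimFej) (L c n : ℕ) (T : ℝ) (hc : c < 3 ^ pjj L)
    (hT1 : (3 : ℝ) ^ py0 L / 8 ≤ T) (hn : 1 ≤ n)
    (hfar : 100 * n ≤ 64 * 3 ^ L ∨ 390 * 3 ^ L ≤ 100 * n) : |FY L c T n| ≤ 48 := by
  have hpow : 3 ^ pjj L * 3 ^ py0 L = 3 ^ L := by
    rw [← pow_add]
    congr 1
    unfold pjj py0
    omega
  have hY0 : (0 : ℝ) < (3 : ℝ) ^ py0 L := by positivity
  have hnr : (1 : ℝ) ≤ n := by exact_mod_cast hn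
  unfold FY
  refine (Finset.abs_sum_le_sum_abs _ _).trans ?_
  have hb : ∀ y ∈ Ico (3 ^ py0 L : ℕ) (3 * 3 ^ py0 L : ℕ),
      |fej T (Real.log n - Real.log ((3 : ℝ) ^ pjj L * (y : ℝ) + c)) -
      fej ((3 : ℝ) ^ py0 L / 8) (Real.log n - Real.log ((3 : ℝ) ^ pjj L * (y : ℝ) + c))| ≤
      3 / ((3 : ℝ) ^ py0 L / 8) := by
    intro y hy
    rw [mem_Ico] at hy
    apply fej_sub_bd h3 _ _ _ (by positivity) hT1
    -- the point `X`
    have hX1 : 3 ^ L ≤ 3 ^ pjj L * y + c := by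
      rw [← hpow]
      exact (Nat.mul_le_mul_left _ hy.1).trans (Nat.le_add_right _ _)
    have hX2 : 3 ^ pjj L * y + c < 3 * 3 ^ L := by
      have : 3 ^ pjj L * (y + 1) ≤ 3 ^ pjj L * (3 * 3 ^ py0 L) := Nat.mul_le_mul_left _ hy.2
      have e : 3 ^ pjj L * (3 * 3 ^ py0 L) = 3 * 3 ^ L := by rw [← hpow]; ring
      rw [e] at this
      calc 3 ^ pjj L * y + c < 3 ^ pjj L * y + 3 ^ pjj L := Nat.add_lt_add_left hc _
        _ = 3 ^ pjj L * (y + 1) := by ring
        _ ≤ _ := this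
    have hX1r : (3 : ℝ) ^ L ≤ (3 : ℝ) ^ pjj L * (y : ℝ) + c := by exact_mod_cast hX1
    have hX2r : (3 : ℝ) ^ pjj L * (y : ℝ) + c < 3 * (3 : ℝ) ^ L := by exact_mod_cast hX2
    have hN0 : (0 : ℝ) < (3 : ℝ) ^ L := by positivity
    set X : ℝ := (3 : ℝ) ^ pjj L * (y : ℝ) + c with hX
    have hX0 : 0 < X := by linarith
    rcases hfar with hf | hf
    · have hfr : 100 * (n : ℝ) ≤ 64 * (3 : ℝ) ^ L := by exact_mod_cast hf
      have h5 : Real.log n - Real.log X = Real.log (n / X) := by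
        rw [Real.log_div (by positivity) hX0.ne']
      have h6 : (n : ℝ) / X ≤ 64 / 100 := by
        rw [div_le_iff₀ hX0]
        linarith
      have h7 := Real.log_le_sub_one_of_pos (show (0 : ℝ) < n / X by positivity)
      rw [h5, abs_of_nonpos (by linarith)]
      linarith
    · have hfr : 390 * (3 : ℝ) ^ L ≤ 100 * (n : ℝ) := by exact_mod_cast hf
      have h5 : Real.log n - Real.log X = -Real.log (X / n) := by
        rw [Real.log_div hX0.ne' (by positivity)]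
        ring
      have h6 : X / n ≤ 30 / 39 := by
        rw [div_le_iff₀ (by positivity)]
        linarith
      have h7 := Real.log_le_sub_one_of_pos (show (0 : ℝ) < X / n by positivity)
      rw [h5, abs_neg, abs_of_nonpos (by linarith)]
      linarith
  refine (Finset.sum_le_sum hb).trans ?_
  rw [Finset.sum_const, Nat.card_Ico, nsmul_eq_mul]
  have e : 3 * 3 ^ py0 L - 3 ^ py0 L = 2 * 3 ^ py0 L := by omega
  rw [e]
  push_cast
  have : 2 * (3 : ℝ) ^ py0 L * (3 / ((3 : ℝ) ^ py0 L / 8)) = 48 := by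
    field_simp
    norm_num
  rw [this]

/-- size of the exponents -/
theorem exp_facts (L m : ℕ) (z3 : 2 ^ pK L ≤ 3 ^ L) (z3' : 3 ^ L < 2 ^ (pK L + 1))
    (hL : 1000 * (m + 100) ≤ L) :
    py0 L ≤ L - pj0 L ∧ (L - pj0 L) + m ≤ 23 * py0 L ∧ pj0 L ≤ L := by
  have k1 : 5 * pK L ≤ 8 * L := by
    by_contra h
    push Not at h
    have a1 : (2 : ℕ) ^ (8 * L) < 2 ^ (5 * pK L) := Nat.pow_lt_pow_right (by norm_num) h
    have a2 : (2 : ℕ) ^ (5 * pK L) ≤ 3 ^ (5 * L) := by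
      rw [mul_comm 5 (pK L), mul_comm 5 L, pow_mul, pow_mul]
      exact Nat.pow_le_pow_left z3 5
    have a3 : (3 : ℕ) ^ (5 * L) ≤ 2 ^ (8 * L) := by
      rw [pow_mul, pow_mul]
      exact Nat.pow_le_pow_left (by norm_num) L
    omega
  have k2 : 79 * L < 50 * (pK L + 1) := by
    by_contra h
    push Not at h
    have a1 : (2 : ℕ) ^ (50 * (pK L + 1)) ≤ 2 ^ (79 * L) := Nat.pow_le_pow_right (by norm_num) h
    have a2 : (3 : ℕ) ^ (50 * L) < 2 ^ (50 * (pK L + 1)) := by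
      rw [mul_comm 50 (pK L + 1), mul_comm 50 L, pow_mul, pow_mul]
      exact Nat.pow_lt_pow_left z3' (by norm_num)
    have a3 : (2 : ℕ) ^ (79 * L) ≤ 3 ^ (50 * L) := by
      rw [pow_mul, pow_mul]
      exact Nat.pow_le_pow_left (by norm_num) L
    omega
  unfold pj0 py0 pg0
  refine ⟨?_, ?_, ?_⟩ <;> omega

end KYAux

open KYAux in
theorem claimKY (h0 : ClaimSizF) (h1 : ClaimYsum) (h2 : ClaimNsum) (h3 : ClaimFej) : ClaimKY := by
  obtain ⟨L00, hS⟩ := h0
  obtain ⟨C1, η, hη0, hη1, h1⟩ := h1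
  obtain ⟨C2, h2⟩ := h2
  refine ⟨|C1| + 32 * |C2| + 48, η, by positivity, hη0, hη1, ?_⟩
  intro CT hCT
  -- `CT ≤ 3 ^ m`
  obtain ⟨m, hm⟩ := pow_unbounded_of_one_lt CT (show (1 : ℝ) < 3 by norm_num)
  refine ⟨max L00 (1000 * (m + 100)), ?_⟩
  intro L c hL hc
  have hL1 : L00 ≤ L := le_trans (le_max_left _ _) hL
  have hL2 : 1000 * (m + 100) ≤ L := le_trans (le_max_right _ _) hL
  have hz := hS L hL1
  obtain ⟨k1, k2, k3⟩ := exp_facts L m hz.z3 hz.z3' hL2
  have hpH : (pH L : ℝ) = (3 : ℝ) ^ pj0 L := by unfold pH; push_cast; rfl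
  have hpH0 : (0 : ℝ) < (pH L : ℝ) := by rw [hpH]; positivity
  have hTe : CT * 3 ^ L / pH L = CT * (3 : ℝ) ^ (L - pj0 L) := by
    rw [hpH, div_eq_iff (by positivity), mul_assoc, ← pow_add]
    congr 2
    omega
  have hY : (3 : ℝ) ^ py0 L ≤ CT * 3 ^ L / pH L := by
    rw [hTe]
    calc (3 : ℝ) ^ py0 L ≤ (3 : ℝ) ^ (L - pj0 L) := pow_le_pow_right₀ (by norm_num) k1
      _ ≤ CT * (3 : ℝ) ^ (L - pj0 L) := le_mul_of_one_le_left (by positivity) hCT
  have hT1 : (3 : ℝ) ^ py0 L / 8 ≤ CT * 3 ^ L / pH L := by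
    have : (0 : ℝ) < (3 : ℝ) ^ py0 L := by positivity
    linarith
  have hT2 : CT * 3 ^ L / pH L ≤ ((3 : ℝ) ^ py0 L) ^ 23 := by
    rw [hTe, ← pow_mul]
    calc CT * (3 : ℝ) ^ (L - pj0 L) ≤ 3 ^ m * (3 : ℝ) ^ (L - pj0 L) :=
          mul_le_mul_of_nonneg_right hm.le (by positivity)
      _ = (3 : ℝ) ^ (L - pj0 L + m) := by rw [pow_add]; ring
      _ ≤ (3 : ℝ) ^ (py0 L * 23) := pow_le_pow_right₀ (by norm_num) (by omega)
  refine ⟨fun n _ => FY_eq h3 L c n _ hT1, fun t ht => ?_, fun n hn hfar => ?_⟩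
  · refine (kY_bd C1 η hη0 hη1 h1 C2 h2 L c _ t hc hT1 hT2 ht).trans ?_
    apply mul_le_mul_of_nonneg_right (by linarith) (by positivity)
  · refine (FY_bd h3 L c n _ hc hT1 hn hfar).trans ?_
    have := abs_nonneg C1
    have := abs_nonneg C2
    linarith

end Pool.Agent.Work.MP_8e4d29_nt

end

section

/-!
MP_8e4d29_nt, item F3: `L¹` norm of the Fourier coefficients, base 2.
-/

namespace Pool.Agent.Work.MP_8e4d29_nt

open Finset
open Pool.Agent.Work.MP_122e00_nt (ee norm_ee ee_add ee_neg ee_one_period ee_nat_mul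
  norm_ee_sub_one)

namespace L12

lemma norm_half (y : ℝ) : ‖(1 + ee y) / 2‖ = |Real.cos (Real.pi * y)| := by
  have hm1 : ee (1 / 2) = -1 := by
    unfold ee
    have : (2 * Real.pi * ((1 / 2 : ℝ) : ℂ) * Complex.I : ℂ) = Real.pi * Complex.I := by
      push_cast; ring
    rw [this, Complex.exp_pi_mul_I]
  have h1 : 1 + ee y = -(ee (y + 1 / 2) - 1) := by
    rw [ee_add, hm1]; ring
  rw [h1, norm_div, norm_neg, norm_ee_sub_one]
  have h2 : Real.pi * (y + 1 / 2) = Real.pi * y + Real.pi / 2 := by ring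
  rw [h2, Real.sin_add_pi_div_two]
  have h3 : ‖(2 : ℂ)‖ = 2 := by simp
  rw [h3]
  ring

/-- shifted sums -/
noncomputable def Sx (k : ℕ) (w : ℕ → ℝ) (x : ℝ) : ℝ :=
  ∑ ξ ∈ range (2 ^ k), ∏ i ∈ range k, |Real.cos (Real.pi * (w i - 2 ^ i * ((ξ : ℝ) + x) / 2 ^ k))|

lemma sum_even_odd (n : ℕ) (f : ℕ → ℝ) :
    ∑ ξ ∈ range (2 * n), f ξ = ∑ ξ ∈ range n, f (2 * ξ) + ∑ ξ ∈ range n, f (2 * ξ + 1) := by
  induction n with
  | zero => simp
  | succ n ih =>
    rw [Nat.mul_succ, Finset.sum_range_succ, Finset.sum_range_succ, ih, Finset.sum_range_succ,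
      Finset.sum_range_succ]
    ring

lemma cos_sub_nat (z : ℝ) (n : ℕ) : |Real.cos (Real.pi * (z - n))| = |Real.cos (Real.pi * z)| := by
  have h : Real.pi * (z - n) = Real.pi * z - n * Real.pi := by ring
  rw [h, Real.cos_sub_nat_mul_pi, abs_mul, abs_pow, abs_neg, abs_one, one_pow, one_mul]

lemma Sx_succ (k : ℕ) (w : ℕ → ℝ) (x : ℝ) :
    Sx (k + 1) w x = |Real.cos (Real.pi * (w k - x / 2))| * Sx k w (x / 2) +
      |Real.cos (Real.pi * (w k - (x + 1) / 2))| * Sx k w ((x + 1) / 2) := by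
  unfold Sx
  rw [pow_succ', sum_even_odd, Finset.mul_sum, Finset.mul_sum]
  have key : ∀ (ξ : ℕ) (j : ℝ),
      (∏ i ∈ range (k + 1), |Real.cos (Real.pi * (w i - 2 ^ i * ((2 * (ξ : ℝ) + j) + x) /
        2 ^ (k + 1)))|) =
      |Real.cos (Real.pi * (w k - (x + j) / 2))| *
        ∏ i ∈ range k, |Real.cos (Real.pi * (w i - 2 ^ i * ((ξ : ℝ) + (x + j) / 2) / 2 ^ k))| := by
    intro ξ j
    rw [Finset.prod_range_succ, mul_comm]
    congr 1
    · rw [← cos_sub_nat (w k - (x + j) / 2) ξ]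
      congr 3
      have h2 : (2 : ℝ) ^ k ≠ 0 := by positivity
      rw [pow_succ]
      field_simp
      ring
    · refine Finset.prod_congr rfl fun i _ => ?_
      congr 4
      have h2 : (2 : ℝ) ^ k ≠ 0 := by positivity
      rw [pow_succ]
      field_simp
      ring
  congr 1
  · refine Finset.sum_congr rfl fun ξ _ => ?_
    have := key ξ 0
    simp only [add_zero] at this
    push_cast
    exact this
  · refine Finset.sum_congr rfl fun ξ _ => ?_
    have := key ξ 1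
    push_cast
    exact this

lemma cos_close (w y : ℝ) :
    |Real.cos (Real.pi * (w - y))| ≤ |Real.cos (Real.pi * y)| + Real.pi * |w| := by
  have h1 : Real.cos (Real.pi * (w - y)) = Real.cos (Real.pi * y - Real.pi * w) := by
    rw [← Real.cos_neg]; congr 1; ring
  have h2 : |Real.cos (Real.pi * y - Real.pi * w) - Real.cos (Real.pi * y)| ≤ Real.pi * |w| := by
    have h3 := Real.lipschitzWith_cos.dist_le_mul (Real.pi * y - Real.pi * w) (Real.pi * y)
    rw [Real.dist_eq, Real.dist_eq] at h3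
    have h4 : Real.pi * y - Real.pi * w - Real.pi * y = -(Real.pi * w) := by ring
    rw [h4, abs_neg, abs_mul, abs_of_pos Real.pi_pos] at h3
    simpa using h3
  rw [h1]
  have h5 := abs_sub_abs_le_abs_sub (Real.cos (Real.pi * y - Real.pi * w)) (Real.cos (Real.pi * y))
  linarith

lemma step (w x θ η : ℝ) (hη : 0 < η) (hη1 : η ≤ 1) (hθ : 4 * Real.pi * |θ| ≤ η ^ 2)
    (hw : w = 0 ∨ w = θ) :
    |Real.cos (Real.pi * (w - x / 2))| * (|Real.sin (Real.pi * (x / 2))| + η) +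
      |Real.cos (Real.pi * (w - (x + 1) / 2))| * (|Real.sin (Real.pi * ((x + 1) / 2))| + η) ≤
    (1 + 2 * η) * (|Real.sin (Real.pi * x)| + η) := by
  have hwθ : Real.pi * |w| ≤ η ^ 2 / 4 := by
    rcases hw with h | h
    · rw [h]; simp; positivity
    · rw [h]; linarith
  obtain ⟨s, hs⟩ : ∃ s, s = |Real.sin (Real.pi * (x / 2))| := ⟨_, rfl⟩
  obtain ⟨c, hc⟩ : ∃ c, c = |Real.cos (Real.pi * (x / 2))| := ⟨_, rfl⟩
  have e1 : Real.pi * ((x + 1) / 2) = Real.pi * (x / 2) + Real.pi / 2 := by ring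
  have hs1 : |Real.sin (Real.pi * ((x + 1) / 2))| = c := by
    rw [e1, Real.sin_add_pi_div_two, hc]
  have hc1 : |Real.cos (Real.pi * ((x + 1) / 2))| = s := by
    rw [e1, Real.cos_add_pi_div_two, abs_neg, hs]
  have hs2 : |Real.sin (Real.pi * x)| = 2 * s * c := by
    have : Real.pi * x = 2 * (Real.pi * (x / 2)) := by ring
    rw [this, Real.sin_two_mul, abs_mul, abs_mul, hs, hc]
    norm_num
  have h1 := cos_close w (x / 2)
  have h2 := cos_close w ((x + 1) / 2)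
  rw [← hc] at h1
  rw [hc1] at h2
  rw [hs1, ← hs, hs2]
  have s0 : 0 ≤ s := hs ▸ abs_nonneg _
  have c0 : 0 ≤ c := hc ▸ abs_nonneg _
  have s1 : s ≤ 1 := hs ▸ Real.abs_sin_le_one _
  have c1 : c ≤ 1 := hc ▸ Real.abs_cos_le_one _
  have hsc : s + c ≤ 1 + s * c := by nlinarith
  have a1 : |Real.cos (Real.pi * (w - x / 2))| * (s + η) ≤ (c + η ^ 2 / 4) * (s + η) :=
    mul_le_mul_of_nonneg_right (by linarith) (by linarith)
  have a2 : |Real.cos (Real.pi * (w - (x + 1) / 2))| * (c + η) ≤ (s + η ^ 2 / 4) * (c + η) :=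
    mul_le_mul_of_nonneg_right (by linarith) (by linarith)
  refine (add_le_add a1 a2).trans ?_
  have hη2 : η ^ 2 ≤ η := by nlinarith
  have hη3 : η ^ 3 ≤ η ^ 2 := by nlinarith [sq_nonneg η]
  have b1 : η * (s + c) ≤ η * (1 + s * c) := mul_le_mul_of_nonneg_left hsc hη.le
  have b2 : η ^ 2 * (s + c) ≤ η ^ 2 * (1 + s * c) := mul_le_mul_of_nonneg_left hsc (by positivity)
  have b3 : 0 ≤ s * c := mul_nonneg s0 c0
  have b4 : η ^ 2 * (s * c) ≤ η * (s * c) := mul_le_mul_of_nonneg_right hη2 b3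
  have b5 : 0 ≤ η * (s * c) := by positivity
  nlinarith

lemma Sx_le (k : ℕ) (w : ℕ → ℝ) (θ η x : ℝ) (hη : 0 < η) (hη1 : η ≤ 1)
    (hθ : 4 * Real.pi * |θ| ≤ η ^ 2) (hw : ∀ i, w i = 0 ∨ w i = θ) :
    η * Sx k w x ≤ (1 + 2 * η) ^ k * (|Real.sin (Real.pi * x)| + η) := by
  induction k generalizing x with
  | zero =>
    have : 0 ≤ |Real.sin (Real.pi * x)| := abs_nonneg _
    simp [Sx]
  | succ k ih =>
    rw [Sx_succ]
    have h1 := ih (x / 2)
    have h2 := ih ((x + 1) / 2)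
    have h3 := step (w k) x θ η hη hη1 hθ (hw k)
    have c1 : 0 ≤ |Real.cos (Real.pi * (w k - x / 2))| := abs_nonneg _
    have c2 : 0 ≤ |Real.cos (Real.pi * (w k - (x + 1) / 2))| := abs_nonneg _
    calc η * (|Real.cos (Real.pi * (w k - x / 2))| * Sx k w (x / 2) +
          |Real.cos (Real.pi * (w k - (x + 1) / 2))| * Sx k w ((x + 1) / 2))
        = |Real.cos (Real.pi * (w k - x / 2))| * (η * Sx k w (x / 2)) +
          |Real.cos (Real.pi * (w k - (x + 1) / 2))| * (η * Sx k w ((x + 1) / 2)) := by ring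
      _ ≤ |Real.cos (Real.pi * (w k - x / 2))| *
            ((1 + 2 * η) ^ k * (|Real.sin (Real.pi * (x / 2))| + η)) +
          |Real.cos (Real.pi * (w k - (x + 1) / 2))| *
            ((1 + 2 * η) ^ k * (|Real.sin (Real.pi * ((x + 1) / 2))| + η)) :=
          add_le_add (mul_le_mul_of_nonneg_left h1 c1) (mul_le_mul_of_nonneg_left h2 c2)
      _ = (1 + 2 * η) ^ k * (|Real.cos (Real.pi * (w k - x / 2))| *
            (|Real.sin (Real.pi * (x / 2))| + η) +
          |Real.cos (Real.pi * (w k - (x + 1) / 2))| *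
            (|Real.sin (Real.pi * ((x + 1) / 2))| + η)) := by ring
      _ ≤ (1 + 2 * η) ^ k * ((1 + 2 * η) * (|Real.sin (Real.pi * x)| + η)) :=
          mul_le_mul_of_nonneg_left h3 (by positivity)
      _ = (1 + 2 * η) ^ (k + 1) * (|Real.sin (Real.pi * x)| + η) := by rw [pow_succ]; ring

end L12

open L12 in
theorem claimL12 : ClaimL12 := by
  intro k w θ η hη hη1 hθ hw
  have h := Sx_le k w θ η 0 hη hη1 hθ hw
  rw [mul_zero, Real.sin_zero, abs_zero, zero_add, mul_comm] at h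
  have h2 := le_of_mul_le_mul_right h hη
  refine le_trans (le_of_eq ?_) h2
  unfold Sx cf2
  refine Finset.sum_congr rfl fun ξ _ => ?_
  rw [norm_prod]
  refine Finset.prod_congr rfl fun i _ => ?_
  rw [norm_half, add_zero]

end Pool.Agent.Work.MP_8e4d29_nt

end

section

set_option autoImplicit false

/-!
MP_8e4d29_nt, F4: the L1 norm of the Fourier coefficients, base 3.
-/

namespace Pool.Agent.Work.MP_8e4d29_nt

open Finset
open Pool.Agent.Work.MP_122e00_nt (ee norm_ee ee_add ee_neg ee_one_period ee_nat_mul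
  norm_ee_sub_one)

namespace L13

/-- sum over `range (3 N)` in blocks of three -/
theorem sum_three {M : Type*} [AddCommMonoid M] (f : ℕ → M) (N : ℕ) :
    ∑ ξ ∈ range (3 * N), f ξ = ∑ ξ ∈ range N, ∑ j ∈ range 3, f (3 * ξ + j) := by
  induction N with
  | zero => simp
  | succ N ih =>
    rw [show 3 * (N + 1) = 3 * N + 1 + 1 + 1 by ring, Finset.sum_range_succ,
      Finset.sum_range_succ, Finset.sum_range_succ, ih, Finset.sum_range_succ]
    simp [Finset.sum_range_succ, add_assoc]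

/-- the absolute value of the factor of the Fourier coefficient -/
noncomputable def kap (x : ℝ) : ℝ := ‖(1 + ee x + ee (2 * x)) / 3‖

theorem kap_nonneg (x : ℝ) : 0 ≤ kap x := norm_nonneg _

theorem kap_add_int (x : ℝ) (n : ℤ) : kap (x + n) = kap x := by
  unfold kap
  have h2 : ee (2 * (x + n)) = ee (2 * x) := by
    have := ee_one_period (2 * x) (2 * n)
    push_cast at this
    rw [mul_add]
    exact this
  rw [ee_one_period, h2]

theorem kap_sub_nat (x : ℝ) (n : ℕ) : kap (x - n) = kap x := by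
  have := kap_add_int x (-(n : ℤ))
  push_cast at this
  rwa [← sub_eq_add_neg] at this

theorem kap_le_one (x : ℝ) : kap x ≤ 1 := by
  unfold kap
  rw [norm_div]
  have h1 : ‖1 + ee x + ee (2 * x)‖ ≤ ‖(1 : ℂ)‖ + ‖ee x‖ + ‖ee (2 * x)‖ := norm_add₃_le
  rw [norm_ee, norm_ee, norm_one] at h1
  have h2 : ‖(3 : ℂ)‖ = 3 := by norm_num
  rw [h2, div_le_one (by norm_num)]
  linarith

theorem kap_neg (x : ℝ) : kap (-x) = kap x := by
  unfold kap
  have h : (1 + ee (-x) + ee (2 * -x)) / 3 = (starRingEnd ℂ) ((1 + ee x + ee (2 * x)) / 3) := by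
    rw [show 2 * -x = -(2 * x) by ring, ee_neg, ee_neg]
    rw [map_div₀, map_add, map_add, map_one, map_ofNat]
  rw [h, RCLike.norm_conj]

/-- `kap y |sin π y| = |sin 3 π y| / 3` -/
theorem kap_sin (y : ℝ) : kap y * |Real.sin (Real.pi * y)| = |Real.sin (Real.pi * (3 * y))| / 3 := by
  have h1 := norm_ee_sub_one y
  have h2 := norm_ee_sub_one (3 * y)
  have h3 : ee (3 * y) - 1 = (ee y - 1) * (1 + ee y + ee (2 * y)) := by
    have e3 : ee (3 * y) = ee y ^ 3 := by rw [← ee_nat_mul]; norm_num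
    have e2 : ee (2 * y) = ee y ^ 2 := by rw [← ee_nat_mul]; norm_num
    rw [e3, e2]
    ring
  rw [h3, norm_mul, h1] at h2
  unfold kap
  rw [norm_div, show ‖(3 : ℂ)‖ = 3 by norm_num]
  linarith

/-- Lipschitz bound -/
theorem kap_lip (x t : ℝ) : kap (t + x) ≤ kap x + 2 * Real.pi * |t| := by
  unfold kap
  have h1 : (1 + ee (t + x) + ee (2 * (t + x))) / 3 = (1 + ee x + ee (2 * x)) / 3 +
      ((ee t - 1) * ee x + (ee (2 * t) - 1) * ee (2 * x)) / 3 := by
    rw [mul_add, ee_add, ee_add]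
    ring
  rw [h1]
  refine (norm_add_le _ _).trans ?_
  have h2 : ‖((ee t - 1) * ee x + (ee (2 * t) - 1) * ee (2 * x)) / 3‖ ≤ 2 * Real.pi * |t| := by
    rw [norm_div, show ‖(3 : ℂ)‖ = 3 by norm_num, div_le_iff₀ (by norm_num)]
    refine (norm_add_le _ _).trans ?_
    rw [norm_mul, norm_mul, norm_ee, norm_ee, mul_one, mul_one]
    have h3 := norm_ee_sub_one_le t
    have h4 := norm_ee_sub_one_le (2 * t)
    have h5 := nd_le_abs t
    have h6 := nd_le_abs (2 * t)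
    rw [abs_mul, abs_two] at h6
    have hpi := Real.pi_pos
    nlinarith
  linarith

theorem abs_sin_add_int (x : ℝ) (n : ℤ) :
    |Real.sin (Real.pi * (x + n))| = |Real.sin (Real.pi * x)| := by
  have h1 := norm_ee_sub_one (x + n)
  have h2 := norm_ee_sub_one x
  rw [ee_one_period, h2] at h1
  linarith

/-- the sum of the three factors -/
theorem kap_sum_aux (x : ℝ) (hx : |x| ≤ 1 / 2) :
    ∑ j ∈ range 3, kap ((x + j) / 3) ≤ 1 + 4 / 3 * |Real.sin (Real.pi * x)| := by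
  have hpi := Real.pi_pos
  obtain ⟨hx1, hx2⟩ := abs_le.1 hx
  have hsin : ∀ t : ℝ, 1 / 6 ≤ t → t ≤ 1 / 2 → 1 / 2 ≤ Real.sin (Real.pi * t) := by
    intro t h1 h2
    rw [← Real.sin_pi_div_six]
    apply Real.sin_le_sin_of_le_of_le_pi_div_two
    · linarith
    · nlinarith
    · nlinarith
  have hk : ∀ y : ℝ, 1 / 2 ≤ |Real.sin (Real.pi * y)| →
      kap y ≤ 2 / 3 * |Real.sin (Real.pi * (3 * y))| := by
    intro y hy
    have h1 := kap_sin y
    have h2 := kap_nonneg y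
    nlinarith
  have h0 := kap_le_one ((x + (0 : ℕ)) / 3)
  have h1 : kap ((x + (1 : ℕ)) / 3) ≤ 2 / 3 * |Real.sin (Real.pi * x)| := by
    have h2 := hk ((x + (1 : ℕ)) / 3) (by
      refine (hsin _ ?_ ?_).trans (le_abs_self _)
      · push_cast; linarith
      · push_cast; linarith)
    have h3 : 3 * ((x + (1 : ℕ)) / 3) = x + (1 : ℤ) := by push_cast; ring
    rw [h3, abs_sin_add_int] at h2
    exact h2
  have h2 : kap ((x + (2 : ℕ)) / 3) ≤ 2 / 3 * |Real.sin (Real.pi * x)| := by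
    have e : (x + (2 : ℕ)) / 3 = -((1 - x) / 3) + (1 : ℤ) := by push_cast; ring
    rw [e, kap_add_int, kap_neg]
    have h2 := hk ((1 - x) / 3) (by
      refine (hsin _ ?_ ?_).trans (le_abs_self _)
      · linarith
      · linarith)
    have h3 : 3 * ((1 - x) / 3) = -x + (1 : ℤ) := by push_cast; ring
    rw [h3, abs_sin_add_int, mul_neg, Real.sin_neg, abs_neg] at h2
    exact h2
  simp only [Finset.sum_range_succ, Finset.sum_range_zero, zero_add]
  linarith

theorem kap_sum_period : Function.Periodic (fun x : ℝ => ∑ j ∈ range 3, kap ((x + j) / 3)) 1 := by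
  intro x
  simp only [Finset.sum_range_succ, Finset.sum_range_zero, zero_add]
  have e0 : (x + 1 + (0 : ℕ)) / 3 = (x + (1 : ℕ)) / 3 := by push_cast; ring
  have e1 : (x + 1 + (1 : ℕ)) / 3 = (x + (2 : ℕ)) / 3 := by push_cast; ring
  have e2 : (x + 1 + (2 : ℕ)) / 3 = (x + (0 : ℕ)) / 3 + (1 : ℤ) := by push_cast; ring
  rw [e0, e1, e2, kap_add_int]
  ring

theorem kap_sum (x : ℝ) :
    ∑ j ∈ range 3, kap ((x + j) / 3) ≤ 1 + 4 / 3 * |Real.sin (Real.pi * x)| := by
  have h1 := kap_sum_aux (x - round x) (abs_sub_round x)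
  have h2 : ∑ j ∈ range 3, kap ((x - round x + j) / 3) = ∑ j ∈ range 3, kap ((x + j) / 3) := by
    have := kap_sum_period.sub_int_mul_eq (x := x) (round x)
    rw [mul_one] at this
    exact this
  have h3 : |Real.sin (Real.pi * (x - round x))| = |Real.sin (Real.pi * x)| := by
    have := abs_sin_add_int x (-(round x))
    push_cast at this
    rwa [← sub_eq_add_neg] at this
  rw [h2, h3] at h1
  exact h1

/-- the weight -/
noncomputable def hh (η x : ℝ) : ℝ := |Real.sin (Real.pi * x)| + η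

theorem step0 (η x : ℝ) (hη : 0 < η) :
    ∑ j ∈ range 3, kap ((x + j) / 3) * hh η ((x + j) / 3) ≤ (1 + 4 / 3 * η) * hh η x := by
  have h1 : ∀ j ∈ range 3, kap ((x + j) / 3) * hh η ((x + j) / 3) =
      |Real.sin (Real.pi * x)| / 3 + η * kap ((x + j) / 3) := by
    intro j _
    unfold hh
    rw [mul_add, kap_sin]
    have h3 : 3 * ((x + j) / 3) = x + (j : ℤ) := by push_cast; ring
    rw [h3, abs_sin_add_int]
    ring
  rw [Finset.sum_congr rfl h1, Finset.sum_add_distrib, ← Finset.mul_sum, Finset.sum_const,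
    Finset.card_range]
  have h2 := kap_sum x
  unfold hh
  have h3 := abs_nonneg (Real.sin (Real.pi * x))
  have h4 : η * ∑ j ∈ range 3, kap ((x + j) / 3) ≤
      η * (1 + 4 / 3 * |Real.sin (Real.pi * x)|) := mul_le_mul_of_nonneg_left h2 hη.le
  rw [nsmul_eq_mul]
  push_cast
  nlinarith

theorem step (η θ w x : ℝ) (hη : 0 < η) (hη1 : η ≤ 1) (hθ : 4 * Real.pi * |θ| ≤ η ^ 2)
    (hw : w = 0 ∨ w = θ) :
    ∑ j ∈ range 3, kap (w - (x + j) / 3) * hh η ((x + j) / 3) ≤ (1 + 5 * η) * hh η x := by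
  have hpi := Real.pi_pos
  have h0 := step0 η x hη
  have hh0 : ∀ y : ℝ, 0 ≤ hh η y := fun y => add_nonneg (abs_nonneg _) hη.le
  have hh1 : ∀ y : ℝ, hh η y ≤ 1 + η := fun y => by
    unfold hh
    have := Real.abs_sin_le_one (Real.pi * y)
    linarith
  have hhη : η ≤ hh η x := by
    unfold hh
    have := abs_nonneg (Real.sin (Real.pi * x))
    linarith
  have hk : ∀ y : ℝ, kap (w - y) ≤ kap y + 2 * Real.pi * |θ| := by
    intro y
    rcases hw with h | h
    · rw [h, zero_sub, kap_neg]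
      have := abs_nonneg θ
      nlinarith [mul_nonneg hpi.le this]
    · rw [h, sub_eq_add_neg]
      have := kap_lip (-y) θ
      rw [kap_neg] at this
      exact this
  have h1 : ∑ j ∈ range 3, kap (w - (x + j) / 3) * hh η ((x + j) / 3) ≤
      ∑ j ∈ range 3, (kap ((x + j) / 3) * hh η ((x + j) / 3) + 2 * Real.pi * |θ| * (1 + η)) := by
    refine Finset.sum_le_sum fun j _ => ?_
    have e1 := hk ((x + j) / 3)
    have e2 := hh0 ((x + j) / 3)
    have e3 := hh1 ((x + j) / 3)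
    have e4 : 0 ≤ 2 * Real.pi * |θ| := by positivity
    calc kap (w - (x + j) / 3) * hh η ((x + j) / 3)
        ≤ (kap ((x + j) / 3) + 2 * Real.pi * |θ|) * hh η ((x + j) / 3) :=
          mul_le_mul_of_nonneg_right e1 e2
      _ = kap ((x + j) / 3) * hh η ((x + j) / 3) + 2 * Real.pi * |θ| * hh η ((x + j) / 3) := by ring
      _ ≤ _ := by
          have := mul_le_mul_of_nonneg_left e3 e4
          linarith
  rw [Finset.sum_add_distrib, Finset.sum_const, Finset.card_range, nsmul_eq_mul] at h1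
  push_cast at h1
  have h2 : 3 * (2 * Real.pi * |θ| * (1 + η)) ≤ 3 / 2 * η ^ 2 * (1 + η) := by
    have : 2 * Real.pi * |θ| ≤ η ^ 2 / 2 := by linarith
    nlinarith
  have h3 : 3 / 2 * η ^ 2 * (1 + η) ≤ 3 * η * hh η x := by
    have e1 : 3 / 2 * η ^ 2 * (1 + η) ≤ 3 * η ^ 2 := by nlinarith [sq_nonneg η]
    have e2 : 3 * η ^ 2 ≤ 3 * η * hh η x := by nlinarith
    linarith
  have h4 := hh0 x
  nlinarith

/-- the shifted sum -/
noncomputable def SS (k : ℕ) (w : ℕ → ℝ) (x : ℝ) : ℝ :=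
  ∑ ξ ∈ range (3 ^ k), ∏ i ∈ range k, kap (w i - 3 ^ i * ((ξ : ℝ) + x) / 3 ^ k)

theorem SS_succ (w : ℕ → ℝ) (k : ℕ) (x : ℝ) :
    SS (k + 1) w x = ∑ j ∈ range 3, kap (w k - (x + j) / 3) * SS k w ((x + j) / 3) := by
  unfold SS
  rw [show (3 : ℕ) ^ (k + 1) = 3 * 3 ^ k by ring, sum_three, Finset.sum_comm]
  refine Finset.sum_congr rfl fun j _ => ?_
  rw [Finset.mul_sum]
  refine Finset.sum_congr rfl fun ξ _ => ?_
  rw [Finset.prod_range_succ]
  have h3 : (3 : ℝ) ^ k ≠ 0 := by positivity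
  have e1 : w k - 3 ^ k * (((3 * ξ + j : ℕ) : ℝ) + x) / 3 ^ (k + 1) =
      w k - (x + j) / 3 - (ξ : ℝ) := by
    push_cast
    rw [pow_succ]
    field_simp
    ring
  have e3 : ∀ i ∈ range k, kap (w i - 3 ^ i * (((3 * ξ + j : ℕ) : ℝ) + x) / 3 ^ (k + 1)) =
      kap (w i - 3 ^ i * ((ξ : ℝ) + (x + j) / 3) / 3 ^ k) := by
    intro i _
    congr 1
    push_cast
    rw [pow_succ]
    field_simp
    ring
  rw [e1, kap_sub_nat, Finset.prod_congr rfl e3]
  ring

theorem SS_le (w : ℕ → ℝ) (θ η : ℝ) (hη : 0 < η) (hη1 : η ≤ 1)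
    (hθ : 4 * Real.pi * |θ| ≤ η ^ 2) (hw : ∀ i, w i = 0 ∨ w i = θ) : ∀ (k : ℕ) (x : ℝ),
    η * SS k w x ≤ (1 + 5 * η) ^ k * hh η x := by
  intro k
  induction k with
  | zero =>
    intro x
    have := abs_nonneg (Real.sin (Real.pi * x))
    simp [SS, hh]
  | succ k ih =>
    intro x
    rw [SS_succ, Finset.mul_sum]
    have h1 : ∀ j ∈ range 3, η * (kap (w k - (x + j) / 3) * SS k w ((x + j) / 3)) ≤
        (1 + 5 * η) ^ k * (kap (w k - (x + j) / 3) * hh η ((x + j) / 3)) := by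
      intro j _
      have := mul_le_mul_of_nonneg_left (ih ((x + j) / 3)) (kap_nonneg (w k - (x + j) / 3))
      linarith
    refine (Finset.sum_le_sum h1).trans ?_
    rw [← Finset.mul_sum, pow_succ, mul_assoc]
    exact mul_le_mul_of_nonneg_left (step η θ (w k) x hη hη1 hθ (hw k)) (by positivity)

end L13

theorem claimL13 : ClaimL13 := by
  intro k w θ η hη hη1 hθ hw
  have h := L13.SS_le w θ η hη hη1 hθ hw k 0
  have h0 : L13.hh η 0 = η := by simp [L13.hh]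
  rw [h0, mul_comm ((1 + 5 * η) ^ k) η] at h
  have h1 := le_of_mul_le_mul_left h hη
  refine le_trans (le_of_eq ?_) h1
  unfold L13.SS cf3 L13.kap
  refine Finset.sum_congr rfl fun ξ _ => ?_
  rw [norm_prod]
  simp only [add_zero]

end Pool.Agent.Work.MP_8e4d29_nt

end
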