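import Pool.Agent.Work.MP_8e4d29_nt.Bd.B02
import Pool.Agent.Work.MP_8e4d29_nt.Bd.B01

/-! Bundle of small proof modules (one section per former module). -/

section

/-!
MP_8e4d29_nt, item G5: the window average of all the middle digits.
-/

namespace Pool.Agent.Work.MP_8e4d29_nt

open Finset
open Pool.Agent.Work.MP_122e00_nt (ee norm_ee ee_add)

namespace Mid

/-! ### second moments of digit sums over windows -/

theorem sum_range_mul' (f : ℕ → ℝ) (a b : ℕ) :
    ∑ n ∈ range (a * b), f n = ∑ t ∈ range b, ∑ m ∈ range a, f (m + a * t) := by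
  induction b with
  | zero => simp
  | succ b ih =>
    rw [Nat.mul_succ, Finset.sum_range_add, ih, Finset.sum_range_succ]
    congr 1
    apply Finset.sum_congr rfl
    intro m _
    rw [add_comm]

/-- weighted centred digit sum -/
noncomputable def cg (β : ℕ) (w : ℕ → ℝ) (k n : ℕ) : ℝ :=
  ∑ i ∈ range k, w i * (((n / β ^ i % β : ℕ) : ℝ) - ((β : ℝ) - 1) / 2)

theorem cg_succ {β : ℕ} (hβ : 0 < β) (w : ℕ → ℝ) (k m t : ℕ) (hm : m < β ^ k) (ht : t < β) :
    cg β w (k + 1) (m + β ^ k * t) = cg β w k m + w k * ((t : ℝ) - ((β : ℝ) - 1) / 2) := by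
  unfold cg
  rw [Finset.sum_range_succ]
  congr 1
  · apply Finset.sum_congr rfl
    intro i hi
    rw [Finset.mem_range] at hi
    congr 3
    apply digit_congr
    have hd : β ^ (i + 1) ∣ β ^ k := pow_dvd_pow β hi
    obtain ⟨c, hc⟩ := hd
    rw [hc, mul_assoc, Nat.add_mul_mod_self_left]
  · congr 3
    have hpos : 0 < β ^ k := pow_pos hβ k
    rw [Nat.add_mul_div_left _ _ hpos, Nat.div_eq_of_lt hm, zero_add, Nat.mod_eq_of_lt ht]

theorem cg_moments {β : ℕ} (hβ : β = 2 ∨ β = 3) (w : ℕ → ℝ) (hw : ∀ i, w i = 0 ∨ w i = 1) :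
    ∀ k : ℕ, ∑ n ∈ range (β ^ k), cg β w k n = 0 ∧
      ∑ n ∈ range (β ^ k), cg β w k n ^ 2 ≤ (∑ i ∈ range k, w i) * (β : ℝ) ^ k := by
  have hβ0 : 0 < β := by rcases hβ with h | h <;> omega
  intro k
  induction k with
  | zero => simp [cg]
  | succ k ih =>
    obtain ⟨ih1, ih2⟩ := ih
    have e1 : ∀ g : ℝ → ℝ, ∑ n ∈ range (β ^ (k + 1)), g (cg β w (k + 1) n) =
        ∑ t ∈ range β, ∑ m ∈ range (β ^ k),
          g (cg β w k m + w k * ((t : ℝ) - ((β : ℝ) - 1) / 2)) := by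
      intro g
      rw [pow_succ, sum_range_mul']
      apply Finset.sum_congr rfl
      intro t ht
      apply Finset.sum_congr rfl
      intro m hm
      rw [cg_succ hβ0 w k m t (Finset.mem_range.mp hm) (Finset.mem_range.mp ht)]
    have h1 := e1 (fun x => x)
    have h2 := e1 (fun x => x ^ 2)
    have h3 : ∀ c : ℝ, ∑ m ∈ range (β ^ k), (cg β w k m + c) = (β : ℝ) ^ k * c := by
      intro c
      rw [Finset.sum_add_distrib, ih1, zero_add, Finset.sum_const, Finset.card_range, nsmul_eq_mul]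
      push_cast
      ring
    have h4 : ∀ c : ℝ, ∑ m ∈ range (β ^ k), (cg β w k m + c) ^ 2 =
        ∑ m ∈ range (β ^ k), cg β w k m ^ 2 + (β : ℝ) ^ k * c ^ 2 := by
      intro c
      have : ∀ m, (cg β w k m + c) ^ 2 = cg β w k m ^ 2 + 2 * c * cg β w k m + c ^ 2 := by
        intro m; ring
      simp_rw [this]
      rw [Finset.sum_add_distrib, Finset.sum_add_distrib, ← Finset.mul_sum, ih1, mul_zero, add_zero,
        Finset.sum_const, Finset.card_range, nsmul_eq_mul]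
      push_cast
      ring
    have hwk : w k ^ 2 = w k := by rcases hw k with h | h <;> rw [h] <;> norm_num
    have hwk0 : 0 ≤ w k := by
      rcases hw k with h | h
      · rw [h]
      · rw [h]
        norm_num
    have hp : (0 : ℝ) ≤ (β : ℝ) ^ k := by positivity
    constructor
    · rw [h1]
      simp_rw [h3]
      rcases hβ with h | h
      · subst h
        simp only [Finset.sum_range_succ, Finset.sum_range_zero]
        push_cast
        ring
      · subst h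
        simp only [Finset.sum_range_succ, Finset.sum_range_zero]
        push_cast
        ring
    · rw [h2]
      simp_rw [h4]
      rw [Finset.sum_range_succ (fun i => w i)]
      have h5 : 0 ≤ w k * (β : ℝ) ^ k := mul_nonneg hwk0 hp
      rcases hβ with h | h <;> subst h
      · simp only [Finset.sum_range_succ, Finset.sum_range_zero]
        push_cast at ih2 h5 ⊢
        have e : (w k * (0 - ((2 : ℝ) - 1) / 2)) ^ 2 = w k / 4 := by
          rw [mul_pow, hwk]; ring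
        have e' : (w k * (1 - ((2 : ℝ) - 1) / 2)) ^ 2 = w k / 4 := by
          rw [mul_pow, hwk]; ring
        rw [e, e', pow_succ]
        nlinarith
      · simp only [Finset.sum_range_succ, Finset.sum_range_zero]
        push_cast at ih2 h5 ⊢
        have e : (w k * (0 - ((3 : ℝ) - 1) / 2)) ^ 2 = w k := by
          rw [mul_pow, hwk]; ring
        have e' : (w k * (1 - ((3 : ℝ) - 1) / 2)) ^ 2 = 0 := by
          norm_num
        have e'' : (w k * (2 - ((3 : ℝ) - 1) / 2)) ^ 2 = w k := by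
          rw [mul_pow, hwk]; ring
        rw [e, e', e'', pow_succ]
        nlinarith

theorem sum_period {q : ℕ} (F : ℕ → ℝ) (hF : ∀ n, F (n + q) = F n) (n0 : ℕ) :
    ∑ m ∈ range q, F (n0 + m) = ∑ m ∈ range q, F m := by
  induction n0 with
  | zero => simp
  | succ n ih =>
    rw [← ih]
    have h1 := Finset.sum_range_succ (fun m => F (n + m)) q
    have h2 := Finset.sum_range_succ' (fun m => F (n + m)) q
    rw [h1] at h2
    have h3 : F (n + q) = F n := hF n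
    have h4 : ∑ m ∈ range q, F (n + (m + 1)) = ∑ m ∈ range q, F (n + 1 + m) := by
      apply Finset.sum_congr rfl
      intro m _
      congr 1
      ring
    simp only [add_zero] at h2
    rw [h3, h4] at h2
    linarith

theorem sum_window {q : ℕ} (hq : 0 < q) (F : ℕ → ℝ) (hF : ∀ n, F (n + q) = F n)
    (hF0 : ∀ n, 0 ≤ F n) (X n0 : ℕ) (B : ℝ) (hB : ∑ m ∈ range q, F m ≤ B * q) (hX : q ≤ X) :
    ∑ u ∈ range X, F (n0 + u) ≤ 2 * X * B := by
  have hFt : ∀ t n, F (n + q * t) = F n := by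
    intro t
    induction t with
    | zero => intro n; simp
    | succ t ih => intro n; rw [Nat.mul_succ, ← add_assoc, hF, ih]
  have hB0 : 0 ≤ B * q := le_trans (Finset.sum_nonneg (fun i _ => hF0 i)) hB
  have hq' : (0 : ℝ) < q := by exact_mod_cast hq
  have hB1 : 0 ≤ B := by
    by_contra h
    push Not at h
    have := mul_neg_of_neg_of_pos h hq'
    linarith
  have h1 : X ≤ q * (X / q + 1) := by
    have h2 := Nat.div_add_mod X q
    have h3 := Nat.mod_lt X hq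
    rw [Nat.mul_add, mul_one]
    omega
  have h2 : ∑ u ∈ range X, F (n0 + u) ≤ ∑ u ∈ range (q * (X / q + 1)), F (n0 + u) := by
    apply Finset.sum_le_sum_of_subset_of_nonneg
    · exact Finset.range_subset_range.mpr h1
    · intro i _ _
      exact hF0 _
  have h3 : ∑ u ∈ range (q * (X / q + 1)), F (n0 + u) = ((X / q + 1 : ℕ) : ℝ) *
      ∑ m ∈ range q, F m := by
    rw [sum_range_mul' (fun u => F (n0 + u))]
    have : ∀ t ∈ range (X / q + 1), ∑ m ∈ range q, F (n0 + (m + q * t)) = ∑ m ∈ range q, F m := by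
      intro t _
      rw [← sum_period F hF n0]
      apply Finset.sum_congr rfl
      intro m _
      rw [← add_assoc, hFt]
    rw [Finset.sum_congr rfl this, Finset.sum_const, Finset.card_range, nsmul_eq_mul]
  rw [h3] at h2
  refine h2.trans ?_
  have h4 : ((X / q + 1 : ℕ) : ℝ) * q ≤ 2 * X := by
    have h5 : q * (X / q) ≤ X := Nat.mul_div_le X q
    have h6 : (X / q + 1) * q ≤ 2 * X := by nlinarith
    exact_mod_cast h6
  calc ((X / q + 1 : ℕ) : ℝ) * ∑ m ∈ range q, F m ≤ ((X / q + 1 : ℕ) : ℝ) * (B * q) :=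
        mul_le_mul_of_nonneg_left hB (by positivity)
    _ = (((X / q + 1 : ℕ) : ℝ) * q) * B := by ring
    _ ≤ 2 * X * B := mul_le_mul_of_nonneg_right h4 hB1

/-- second moment over a window of the sum of the digits at the positions in `S` -/
theorem window_mom {β : ℕ} (hβ : β = 2 ∨ β = 3) (S : Finset ℕ) (k : ℕ) (hS : S ⊆ range k)
    (X n0 : ℕ) (hX : β ^ k ≤ X) :
    ∑ u ∈ range X, ((∑ i ∈ S, ((((n0 + u) / β ^ i % β : ℕ) : ℝ))) -
      (S.card : ℝ) * (((β : ℝ) - 1) / 2)) ^ 2 ≤ (2 : ℝ) * X * S.card := by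
  classical
  have hβ0 : 0 < β := by rcases hβ with h | h <;> omega
  set w : ℕ → ℝ := fun i => if i ∈ S then 1 else 0 with hw
  have e1 : ∀ n, (∑ i ∈ S, (((n / β ^ i % β : ℕ) : ℝ))) - (S.card : ℝ) * (((β : ℝ) - 1) / 2) =
      cg β w k n := by
    intro n
    unfold cg
    rw [hw]
    simp only [ite_mul, one_mul, zero_mul]
    rw [← Finset.sum_filter]
    have : (range k).filter (fun i => i ∈ S) = S := by
      ext i
      simp only [Finset.mem_filter, Finset.mem_range]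
      constructor
      · exact fun h => h.2
      · intro h
        exact ⟨Finset.mem_range.mp (hS h), h⟩
    rw [this, Finset.sum_sub_distrib, Finset.sum_const, nsmul_eq_mul]
  have e2 : ∑ i ∈ range k, w i = S.card := by
    rw [hw]
    simp only
    rw [Finset.sum_ite_mem]
    simp only [Finset.sum_const, nsmul_eq_mul, mul_one]
    rw [Finset.inter_eq_right.mpr hS]
  have h0 := (cg_moments hβ w (by intro i; rw [hw]; simp only; split_ifs <;> simp) k).2
  rw [e2] at h0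
  simp_rw [e1]
  apply sum_window (pow_pos hβ0 k) (fun n => cg β w k n ^ 2) _ (fun n => sq_nonneg _) X n0 _ _ hX
  · intro n
    congr 1
    unfold cg
    apply Finset.sum_congr rfl
    intro i hi
    rw [Finset.mem_range] at hi
    congr 3
    apply digit_congr
    have hd : β ^ (i + 1) ∣ β ^ k := pow_dvd_pow β hi
    obtain ⟨c, hc⟩ := hd
    rw [hc, Nat.add_mul_mod_self_left]
  · push_cast
    exact h0

/-! ### the positions -/

theorem rest_sum (f c : ℕ → ℕ) (hf : Antitone f) (hc : ∀ l, f (l + 1) ≤ c l) (G : Finset ℕ)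
    (lo hi : ℕ) (hlo : ∀ l ∈ G, lo ≤ c l) (hhi : ∀ l ∈ G, f l ≤ hi) (g : ℕ → ℝ) :
    ∑ i ∈ Ico lo hi \ G.biUnion (fun l => Ico (c l) (f l)), g i =
      ∑ i ∈ Ico lo hi, g i - ∑ l ∈ G, ∑ i ∈ Ico (c l) (f l), g i := by
  have hsub : G.biUnion (fun l => Ico (c l) (f l)) ⊆ Ico lo hi := by
    intro i hi'
    rw [Finset.mem_biUnion] at hi'
    obtain ⟨l, hl, hi'⟩ := hi'
    rw [Finset.mem_Ico] at hi' ⊢
    have := hlo l hl
    have := hhi l hl
    omega
  have h1 := Finset.sum_sdiff (f := g) hsub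
  have h2 : ∑ i ∈ G.biUnion (fun l => Ico (c l) (f l)), g i =
      ∑ l ∈ G, ∑ i ∈ Ico (c l) (f l), g i := by
    apply Finset.sum_biUnion
    intro a _ b _ hab
    rw [Function.onFun, Finset.disjoint_left]
    intro i hia hib
    rw [Finset.mem_Ico] at hia hib
    rcases lt_or_gt_of_ne hab with h | h
    · have := hf (show a + 1 ≤ b from h)
      have := hc a
      omega
    · have := hf (show b + 1 ≤ a from h)
      have := hc b
      omega
  rw [← h1, h2]
  ring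

theorem pBt_anti (L : ℕ) : Antitone (pBt L) := by
  intro a b hab
  unfold pBt
  exact Nat.sub_le_sub_left (Nat.mul_le_mul_right _ hab) _

theorem pP_anti (L : ℕ) : Antitone (pP L) := by
  intro a b hab
  unfold pP
  exact Nat.log_mono_right (Nat.pow_le_pow_right (by norm_num) (pBt_anti L hab))

theorem pBt_zero (L : ℕ) : pBt L 0 = pb L := by
  unfold pBt
  simp

theorem pBt_pm (L : ℕ) : pBt L (pm L) = pal L := by
  unfold pBt pb
  omega

theorem pP_pm (L : ℕ) : pP L (pm L) = pal3 L := by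
  unfold pP pal3
  rw [pBt_pm]

theorem pBt_succ {L l : ℕ} (hl : l < pm L) : pBt L l = pBt L (l + 1) + pl L := by
  unfold pBt pb
  have h1 : (l + 1) * pl L ≤ pm L * pl L := Nat.mul_le_mul_right _ hl
  have h2 : (l + 1) * pl L = l * pl L + pl L := by ring
  rw [h2] at h1 ⊢
  omega

theorem pP_lower {L l : ℕ} (hl : l < pm L) : pP L (l + 1) + pl L / 2 ≤ pP L l := by
  have h1 : 3 ^ pP L (l + 1) ≤ 2 ^ pBt L (l + 1) := Nat.pow_log_le_self 3 (by positivity)
  have h2 : 3 ^ (pl L / 2) ≤ 2 ^ pl L := by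
    calc 3 ^ (pl L / 2) ≤ 4 ^ (pl L / 2) := Nat.pow_le_pow_left (by norm_num) _
      _ = 2 ^ (2 * (pl L / 2)) := by rw [pow_mul]; norm_num
      _ ≤ 2 ^ pl L := Nat.pow_le_pow_right (by norm_num) (Nat.mul_div_le _ _)
  have h3 : 3 ^ (pP L (l + 1) + pl L / 2) ≤ 2 ^ pBt L l := by
    rw [pBt_succ hl, pow_add, pow_add]
    exact Nat.mul_le_mul h1 h2
  exact Nat.le_log_of_pow_le (by norm_num) h3

theorem pP_upper {L l : ℕ} (hl : l < pm L) : pP L l ≤ pP L (l + 1) + pl L := by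
  have h1 : 2 ^ pBt L (l + 1) < 3 ^ (pP L (l + 1) + 1) := Nat.lt_pow_succ_log_self (by norm_num) _
  have h2 : 2 ^ pl L ≤ 3 ^ pl L := Nat.pow_le_pow_left (by norm_num) _
  have h3 : 3 ^ pP L l ≤ 2 ^ pBt L l := Nat.pow_log_le_self 3 (by positivity)
  have h4 : 3 ^ pP L l < 3 ^ (pP L (l + 1) + 1 + pl L) := by
    refine lt_of_le_of_lt h3 ?_
    rw [pBt_succ hl, pow_add, pow_add 3 (pP L (l + 1) + 1)]
    exact Nat.mul_lt_mul_of_lt_of_le h1 h2 (by positivity)
  have h5 := (Nat.pow_lt_pow_iff_right (by norm_num : 1 < 3)).mp h4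
  omega

/-- the bit positions not used -/
noncomputable def S2 (L : ℕ) (G : Finset ℕ) : Finset ℕ :=
  Ico (pal L) (pb L) \ G.biUnion (fun l => Ico (pBt L (l + 1)) (pBt L l))

/-- the trit positions not used -/
noncomputable def S3 (L : ℕ) (G : Finset ℕ) : Finset ℕ :=
  Ico (pal3 L) (pP L 0) \ G.biUnion (fun l => Ico (pP L (l + 1) + pgd L) (pP L l))

/-- sum of the bits not used -/
noncomputable def R2 (L : ℕ) (G : Finset ℕ) (n : ℕ) : ℝ :=
  ∑ i ∈ S2 L G, (((n / 2 ^ i % 2 : ℕ) : ℝ))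

/-- sum of the trits not used -/
noncomputable def R3 (L : ℕ) (G : Finset ℕ) (n : ℕ) : ℝ :=
  ∑ i ∈ S3 L G, (((n / 3 ^ i % 3 : ℕ) : ℝ))

theorem sum_S2 {L : ℕ} {G : Finset ℕ} (hG : G ⊆ range (pm L)) (g : ℕ → ℝ) :
    ∑ i ∈ S2 L G, g i = ∑ i ∈ Ico (pal L) (pb L), g i -
      ∑ l ∈ G, ∑ i ∈ Ico (pBt L (l + 1)) (pBt L l), g i := by
  apply rest_sum (pBt L) (fun l => pBt L (l + 1)) (pBt_anti L) (fun l => le_rfl)
  · intro l hl
    rw [← pBt_pm]
    exact pBt_anti L (Finset.mem_range.mp (hG hl))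
  · intro l _
    rw [← pBt_zero]
    exact pBt_anti L (Nat.zero_le l)

theorem sum_S3 {L : ℕ} {G : Finset ℕ} (hG : G ⊆ range (pm L)) (g : ℕ → ℝ) :
    ∑ i ∈ S3 L G, g i = ∑ i ∈ Ico (pal3 L) (pP L 0), g i -
      ∑ l ∈ G, ∑ i ∈ Ico (pP L (l + 1) + pgd L) (pP L l), g i := by
  apply rest_sum (pP L) (fun l => pP L (l + 1) + pgd L) (pP_anti L) (fun l => Nat.le_add_right _ _)
  · intro l hl
    rw [← pP_pm]
    exact (pP_anti L (Finset.mem_range.mp (hG hl))).trans (Nat.le_add_right _ _)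
  · intro l _
    exact pP_anti L (Nat.zero_le l)

theorem decomp {L : ℕ} {G : Finset ℕ} (hG : G ⊆ range (pm L)) (n : ℕ) :
    (ds 2 (pal L) (pb L) n : ℝ) - ds 3 (pal3 L) (pP L 0) n =
      (Dm L G n : ℝ) + (R2 L G n - R3 L G n) := by
  unfold R2 R3 Dm ds
  rw [sum_S2 hG, sum_S3 hG]
  simp only [Int.cast_sum, Int.cast_sub, Int.cast_natCast, Nat.cast_sum, Finset.sum_sub_distrib]
  ring

theorem card_S2 {L : ℕ} {G : Finset ℕ} (hG : G ⊆ range (pm L)) :
    ((S2 L G).card : ℝ) = (pb L : ℝ) - pal L - (G.card : ℝ) * pl L := by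
  have h := sum_S2 hG (fun _ => (1 : ℝ))
  simp only [Finset.sum_const, Nat.card_Ico, nsmul_eq_mul, mul_one] at h
  have h1 : ∀ l ∈ G, ((pBt L l - pBt L (l + 1) : ℕ) : ℝ) = pl L := by
    intro l hl
    rw [pBt_succ (Finset.mem_range.mp (hG hl)), Nat.add_sub_cancel_left]
  rw [Finset.sum_congr rfl h1, Finset.sum_const, nsmul_eq_mul] at h
  rw [h, Nat.cast_sub]
  unfold pb
  omega

theorem card_S3 {L : ℕ} {G : Finset ℕ} (hG : G ⊆ range (pm L)) :
    ((S3 L G).card : ℝ) = (pP L 0 : ℝ) - pal3 L -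
      ((∑ l ∈ G, (pP L l - (pP L (l + 1) + pgd L)) : ℕ) : ℝ) := by
  have h := sum_S3 hG (fun _ => (1 : ℝ))
  simp only [Finset.sum_const, Nat.card_Ico, nsmul_eq_mul, mul_one] at h
  rw [h, Nat.cast_sub]
  · push_cast
    rfl
  · rw [← pP_pm]
    exact pP_anti L (Nat.zero_le _)

/-! ### sizes -/

/-- numerical facts, `c = K ^ (1/100)` -/
structure Num (L : ℕ) (c : ℝ) : Prop where
  c0 : 1000 ≤ c
  cK : c ^ 100 = pK L
  ck : (pk L : ℝ) + 1 ≤ c
  m1 : (pm L : ℝ) ≤ c ^ 25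
  pl1 : (pl L : ℝ) ≤ 2 * c ^ 75
  mp : (pm L : ℝ) * pl L ≤ c ^ 100
  mp' : (54 : ℝ) / 100 * c ^ 100 ≤ (pm L : ℝ) * pl L
  t49 : (pK L : ℝ) ^ (-(49 : ℝ) / 100) = (c ^ 49)⁻¹
  t20 : (pK L : ℝ) ^ (-(1 : ℝ) / 5) = (c ^ 20)⁻¹
  t7 : (c ^ 7)⁻¹ ≤ (pK L : ℝ) ^ (-(1 : ℝ) / 16)
  x1 : 2 ^ pb L ≤ pX L
  x2 : 3 ^ pP L 0 ≤ pX L
  pl2 : 100 ≤ pl L
  gd : 10 * pgd L ≤ pl L

theorem exists_num {L : ℕ} (F : SizF L) (hL : 1000 ^ 100 ≤ L) : ∃ c : ℝ, Num L c := by
  have hK : L ≤ pK L := by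
    unfold pK
    apply Nat.le_log_of_pow_le (by norm_num)
    exact Nat.pow_le_pow_left (by norm_num) _
  have hKr : (1000 : ℝ) ^ 100 ≤ (pK L : ℝ) := by exact_mod_cast hL.trans hK
  have hK0 : (0 : ℝ) ≤ (pK L : ℝ) := Nat.cast_nonneg _
  have hK1 : (1 : ℝ) ≤ (pK L : ℝ) := le_trans (by norm_num) hKr
  obtain ⟨c, hc⟩ : ∃ c : ℝ, c = (pK L : ℝ) ^ ((1 : ℝ) / 100) := ⟨_, rfl⟩
  have hc0 : 0 ≤ c := hc ▸ Real.rpow_nonneg hK0 _
  have hpow : ∀ n : ℕ, c ^ n = (pK L : ℝ) ^ ((n : ℝ) / 100) := by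
    intro n
    rw [hc, ← Real.rpow_natCast, ← Real.rpow_mul hK0]
    congr 1
    ring
  have hcK : c ^ 100 = pK L := by
    rw [hpow 100]
    norm_num
  have hc1 : 1000 ≤ c := by
    by_contra h
    push Not at h
    have := pow_lt_pow_left₀ h hc0 (n := 100) (by norm_num)
    rw [hcK] at this
    linarith
  have hc25 : (pK L : ℝ) ^ ((1 : ℝ) / 4) = c ^ 25 := by
    rw [hpow 25]
    congr 1
    norm_num
  have hX0 : 0 < pX L := by
    have h1 := F.z7
    have h2 : (0 : ℝ) < ((3 ^ L : ℕ) : ℝ) ^ ((55 : ℝ) / 100) := by positivity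
    exact_mod_cast lt_of_lt_of_le h2 h1
  have hlogX : Nat.log 2 (pX L) ≤ pK L := by
    have h1 : 2 ^ Nat.log 2 (pX L) ≤ pX L := Nat.pow_log_le_self 2 hX0.ne'
    have h2 : pX L ≤ 3 ^ L := by
      have h3 := F.z7'
      have h4 : ((3 ^ L : ℕ) : ℝ) ^ ((56 : ℝ) / 100) ≤ ((3 ^ L : ℕ) : ℝ) ^ (1 : ℝ) := by
        apply Real.rpow_le_rpow_of_exponent_le
        · exact_mod_cast Nat.one_le_pow _ _ (by norm_num)
        · norm_num
      rw [Real.rpow_one] at h4
      exact_mod_cast h3.trans h4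
    have h3 : 2 ^ Nat.log 2 (pX L) < 2 ^ (pK L + 1) := lt_of_le_of_lt (h1.trans h2) F.z3'
    have h4 := (Nat.pow_lt_pow_iff_right (by norm_num : 1 < 2)).mp h3
    omega
  have hlogXr : ((Nat.log 2 (pX L) : ℕ) : ℝ) ≤ c ^ 100 := by
    rw [hcK]
    exact_mod_cast hlogX
  have hm1 : (pm L : ℝ) ≤ c ^ 25 := hc25 ▸ F.z18'
  have hm2 : c ^ 25 < pm L + 1 := hc25 ▸ F.z18b
  have hmp : (pm L : ℝ) * pl L ≤ c ^ 100 := by
    have h1 : pm L * pl L ≤ Nat.log 2 (pX L) := F.z12.trans (Nat.sub_le _ _)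
    have h2 : ((pm L * pl L : ℕ) : ℝ) ≤ ((Nat.log 2 (pX L) : ℕ) : ℝ) := by exact_mod_cast h1
    push_cast at h2
    linarith
  have h25 : (2 : ℝ) ≤ c ^ 25 := by
    have : c ^ 1 ≤ c ^ 25 := pow_le_pow_right₀ (by linarith) (by norm_num)
    linarith
  have h75 : (1000 : ℝ) ≤ c ^ 75 := by
    have : c ^ 1 ≤ c ^ 75 := pow_le_pow_right₀ (by linarith) (by norm_num)
    linarith
  have h100 : c ^ 100 = c ^ 25 * c ^ 75 := by rw [← pow_add]
  have hpl : (pl L : ℝ) ≤ 2 * c ^ 75 := by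
    have h1 : c ^ 25 / 2 ≤ (pm L : ℝ) := by linarith
    have h2 : c ^ 25 / 2 * (pl L : ℝ) ≤ c ^ 25 * c ^ 75 := by
      rw [← h100]
      exact (mul_le_mul_of_nonneg_right h1 (Nat.cast_nonneg _)).trans hmp
    have h3 : c ^ 25 * ((pl L : ℝ) / 2) ≤ c ^ 25 * c ^ 75 := by
      calc c ^ 25 * ((pl L : ℝ) / 2) = c ^ 25 / 2 * (pl L : ℝ) := by ring
        _ ≤ _ := h2
    have h4 := le_of_mul_le_mul_left h3 (by linarith)
    linarith
  have hmp' : (54 : ℝ) / 100 * c ^ 100 ≤ (pm L : ℝ) * pl L := by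
    have h1 := F.z12'
    have h2 := F.z13
    have h3 : Nat.log 2 (pX L) < pm L * pl L + pm L + 2 * pal L := by omega
    have h4 : ((Nat.log 2 (pX L) : ℕ) : ℝ) < (pm L : ℝ) * pl L + pm L + 2 * pal L := by
      exact_mod_cast h3
    have h5 := F.z21
    have h6 := F.z22
    rw [← hcK] at h5 h6
    have h7 : c ^ 25 * 1000 ≤ c ^ 100 := by
      rw [h100]
      exact mul_le_mul_of_nonneg_left h75 (by linarith)
    linarith
  have hx1 : 2 ^ pb L ≤ pX L := by
    have h1 := F.z14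
    exact (Nat.pow_le_pow_right (by norm_num) (by omega)).trans (Nat.pow_log_le_self 2 hX0.ne')
  refine ⟨c, hc1, hcK, hc ▸ F.z2, hm1, hpl, hmp, hmp', ?_, ?_, ?_, hx1, ?_, ?_, ?_⟩
  · rw [hpow 49, ← Real.rpow_neg hK0]
    congr 1
    norm_num
  · rw [hpow 20, ← Real.rpow_neg hK0]
    congr 1
    norm_num
  · rw [hpow 7, ← Real.rpow_neg hK0]
    apply Real.rpow_le_rpow_of_exponent_le hK1
    norm_num
  · refine le_trans ?_ hx1
    unfold pP
    rw [pBt_zero]
    exact Nat.pow_log_le_self 3 (by positivity)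
  · have := F.z11
    omega
  · have := F.z11
    unfold pgd
    omega

/-- `n3` -/
noncomputable def n3 (L : ℕ) (G : Finset ℕ) : ℕ := ∑ l ∈ G, (pP L l - (pP L (l + 1) + pgd L))

theorem n3_upper {L : ℕ} {G : Finset ℕ} (hG : G ⊆ range (pm L)) : n3 L G ≤ G.card * pl L := by
  unfold n3
  rw [← smul_eq_mul]
  apply Finset.sum_le_card_nsmul
  intro l hl
  have := pP_upper (Finset.mem_range.mp (hG hl))
  omega

theorem n3_lower {L : ℕ} {G : Finset ℕ} {c : ℝ} (N : Num L c) (hG : G ⊆ range (pm L)) :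
    39 * (G.card * pl L) ≤ 100 * n3 L G := by
  have h1 : G.card • (39 * pl L) ≤ ∑ l ∈ G, 100 * (pP L l - (pP L (l + 1) + pgd L)) := by
    apply Finset.card_nsmul_le_sum
    intro l hl
    have h1 := pP_lower (Finset.mem_range.mp (hG hl))
    have h2 := N.pl2
    have h3 := N.gd
    omega
  rw [← Finset.mul_sum, smul_eq_mul] at h1
  unfold n3
  linarith

theorem s3_upper {L : ℕ} {G : Finset ℕ} {c : ℝ} (N : Num L c) (hG : G ⊆ range (pm L)) :
    ((S3 L G).card : ℝ) ≤ ((pm L : ℝ) - G.card) * pl L + (pm L : ℝ) * pgd L := by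
  rw [card_S3 hG]
  have h1 : ((∑ l ∈ G, (pP L l - (pP L (l + 1) + pgd L)) : ℕ) : ℝ) =
      ∑ l ∈ G, (((pP L l : ℝ) - pP L (l + 1)) - pgd L) := by
    rw [Nat.cast_sum]
    apply Finset.sum_congr rfl
    intro l hl
    have h1 := pP_lower (Finset.mem_range.mp (hG hl))
    have h2 := N.pl2
    have h3 := N.gd
    rw [Nat.cast_sub (by omega)]
    push_cast
    ring
  have h2 : (pP L 0 : ℝ) - pal3 L = ∑ l ∈ range (pm L), ((pP L l : ℝ) - pP L (l + 1)) := by
    rw [Finset.sum_range_sub' (fun l => (pP L l : ℝ)), pP_pm]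
  have h3 := Finset.sum_sdiff (f := fun l => (pP L l : ℝ) - pP L (l + 1)) hG
  have h1' : ∑ l ∈ G, (((pP L l : ℝ) - pP L (l + 1)) - pgd L) =
      ∑ l ∈ G, ((pP L l : ℝ) - pP L (l + 1)) - (G.card : ℝ) * pgd L := by
    rw [Finset.sum_sub_distrib, Finset.sum_const, nsmul_eq_mul]
  rw [h1, h2, ← h3, h1']
  have h4 : ∑ l ∈ range (pm L) \ G, ((pP L l : ℝ) - pP L (l + 1)) ≤
      ((range (pm L) \ G).card : ℝ) * pl L := by
    rw [← nsmul_eq_mul]
    apply Finset.sum_le_card_nsmul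
    intro l hl
    rw [Finset.mem_sdiff, Finset.mem_range] at hl
    have := pP_upper hl.1
    have h5 : (pP L l : ℝ) ≤ pP L (l + 1) + pl L := by exact_mod_cast this
    linarith
  have h5 : ((range (pm L) \ G).card : ℝ) = (pm L : ℝ) - G.card := by
    rw [Finset.card_sdiff_of_subset hG, Finset.card_range, Nat.cast_sub]
    simpa using Finset.card_le_card hG
  rw [h5] at h4
  have h6 : (G.card : ℝ) ≤ pm L := by
    have := Finset.card_le_card hG
    rw [Finset.card_range] at this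
    exact_mod_cast this
  have h7 : (G.card : ℝ) * pgd L ≤ pm L * pgd L :=
    mul_le_mul_of_nonneg_right h6 (Nat.cast_nonneg _)
  linarith

theorem s_total {L : ℕ} {G : Finset ℕ} {c : ℝ} (N : Num L c) (hG : G ⊆ range (pm L))
    (hc : pm L ≤ G.card + 20 * (pk L + 1)) :
    ((S2 L G).card : ℝ) + (S3 L G).card ≤ c ^ 78 := by
  have h1 := s3_upper N hG
  have h2 := card_S2 hG
  have h3 : (pb L : ℝ) = pal L + pm L * pl L := by
    unfold pb
    push_cast
    ring
  have h4 : (pm L : ℝ) - G.card ≤ 20 * c := by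
    have h5 : (pm L : ℝ) ≤ G.card + 20 * (pk L + 1) := by exact_mod_cast hc
    have h6 := N.ck
    linarith
  have h5 : ((pm L : ℝ) - G.card) * pl L ≤ 20 * c * (2 * c ^ 75) := by
    have hc0 := N.c0
    calc ((pm L : ℝ) - G.card) * pl L ≤ 20 * c * pl L :=
          mul_le_mul_of_nonneg_right h4 (Nat.cast_nonneg _)
      _ ≤ _ := mul_le_mul_of_nonneg_left N.pl1 (by linarith)
  have h6 : (pgd L : ℝ) ≤ 10 * c := by
    unfold pgd
    push_cast
    have h6 := N.ck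
    linarith
  have h7 : (pm L : ℝ) * pgd L ≤ c ^ 25 * (10 * c) := by
    have hc0 := N.c0
    calc (pm L : ℝ) * pgd L ≤ c ^ 25 * pgd L :=
          mul_le_mul_of_nonneg_right N.m1 (Nat.cast_nonneg _)
      _ ≤ _ := mul_le_mul_of_nonneg_left h6 (by positivity)
  have hc0 := N.c0
  have h8 : c ^ 25 * (10 * c) ≤ 10 * c ^ 76 := by
    calc c ^ 25 * (10 * c) = 10 * c ^ 26 := by ring
      _ ≤ 10 * c ^ 76 := by
        have : c ^ 26 ≤ c ^ 76 := pow_le_pow_right₀ (by linarith) (by norm_num)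
        linarith
  have h9 : 20 * c * (2 * c ^ 75) = 40 * c ^ 76 := by ring
  have h10 : 90 * c ^ 76 ≤ c ^ 78 := by
    have : c ^ 78 = c ^ 2 * c ^ 76 := by ring
    rw [this]
    apply mul_le_mul_of_nonneg_right _ (by positivity)
    nlinarith
  rw [h2, h3]
  linarith

theorem avg_bound {L : ℕ} {G : Finset ℕ} {c : ℝ} (N : Num L c) (hG : G ⊆ range (pm L))
    (hc : pm L ≤ G.card + 20 * (pk L + 1)) (θ : ℝ) (hθ : |θ| ≤ (c ^ 49)⁻¹) (n0 : ℕ) (e1 : ℤ)
    (he : |(e1 : ℝ) - (((S2 L G).card : ℝ) / 2 - (S3 L G).card)| ≤ 1) :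
    ∑ u ∈ range (pX L),
      ‖ee (θ * ((ds 2 (pal L) (pb L) (n0 + u) : ℝ) - ds 3 (pal3 L) (pP L 0) (n0 + u))) -
        ee (θ * e1) * ee (θ * (Dm L G (n0 + u) : ℝ))‖ ≤ pX L * (19 * (c ^ 10)⁻¹) := by
  have hc0 := N.c0
  have hS2 : S2 L G ⊆ range (pb L) := by
    intro i hi
    unfold S2 at hi
    rw [Finset.mem_sdiff, Finset.mem_Ico] at hi
    rw [Finset.mem_range]
    exact hi.1.2
  have hS3 : S3 L G ⊆ range (pP L 0) := by
    intro i hi
    unfold S3 at hi
    rw [Finset.mem_sdiff, Finset.mem_Ico] at hi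
    rw [Finset.mem_range]
    exact hi.1.2
  have hA := window_mom (Or.inl rfl) (S2 L G) (pb L) hS2 (pX L) n0 N.x1
  have hB := window_mom (Or.inr rfl) (S3 L G) (pP L 0) hS3 (pX L) n0 N.x2
  have hs := s_total N hG hc
  set s2 : ℝ := ((S2 L G).card : ℝ) with hs2
  set s3 : ℝ := ((S3 L G).card : ℝ) with hs3
  have hc39 : (1 : ℝ) ≤ c ^ 39 := one_le_pow₀ (by linarith)
  have hterm : ∀ u ∈ range (pX L),
      ‖ee (θ * ((ds 2 (pal L) (pb L) (n0 + u) : ℝ) - ds 3 (pal3 L) (pP L 0) (n0 + u))) -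
        ee (θ * e1) * ee (θ * (Dm L G (n0 + u) : ℝ))‖ ≤
      2 * Real.pi * (c ^ 49)⁻¹ * (c ^ 39 + 1 +
        ((R2 L G (n0 + u) - s2 / 2) ^ 2 + (R3 L G (n0 + u) - s3) ^ 2) / (2 * c ^ 39)) := by
    intro u _
    rw [decomp hG]
    set D : ℝ := (Dm L G (n0 + u) : ℝ)
    set a : ℝ := R2 L G (n0 + u)
    set b : ℝ := R3 L G (n0 + u)
    have e : ee (θ * (D + (a - b))) - ee (θ * e1) * ee (θ * D) =
        (ee (θ * (a - b - e1)) - 1) * (ee (θ * e1) * ee (θ * D)) := by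
      rw [sub_mul, one_mul, ← ee_add, ← ee_add]
      congr 2
      ring
    rw [e, norm_mul, norm_mul, norm_ee, norm_ee, mul_one, mul_one]
    refine (norm_ee_sub_one_le _).trans ?_
    have h1 : nd (θ * (a - b - e1)) ≤ |θ| * |a - b - e1| := by
      rw [← abs_mul]
      exact nd_le_abs _
    have h2 : |a - b - e1| ≤ |a - s2 / 2| + |b - s3| + 1 := by
      have e2 : a - b - e1 = (a - s2 / 2) - (b - s3) - ((e1 : ℝ) - (s2 / 2 - s3)) := by ring
      rw [e2]
      refine (abs_sub _ _).trans ?_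
      have := abs_sub (a - s2 / 2) (b - s3)
      linarith
    have h3 : ∀ x : ℝ, |x| ≤ c ^ 39 / 2 + x ^ 2 / (2 * c ^ 39) := by
      intro x
      have h4 : 0 < c ^ 39 := by linarith
      have h5 : c ^ 39 / 2 + x ^ 2 / (2 * c ^ 39) - |x| = (|x| - c ^ 39) ^ 2 / (2 * c ^ 39) := by
        rw [← sq_abs x]
        field_simp
        ring
      have h6 : 0 ≤ (|x| - c ^ 39) ^ 2 / (2 * c ^ 39) := by positivity
      linarith
    have h4 : |a - b - e1| ≤ c ^ 39 + 1 + ((a - s2 / 2) ^ 2 + (b - s3) ^ 2) / (2 * c ^ 39) := by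
      have h5 := h3 (a - s2 / 2)
      have h6 := h3 (b - s3)
      rw [add_div]
      linarith
    have h5 : nd (θ * (a - b - e1)) ≤ (c ^ 49)⁻¹ *
        (c ^ 39 + 1 + ((a - s2 / 2) ^ 2 + (b - s3) ^ 2) / (2 * c ^ 39)) :=
      h1.trans (mul_le_mul hθ h4 (abs_nonneg _) (by positivity))
    calc 2 * Real.pi * nd (θ * (a - b - e1)) ≤ 2 * Real.pi * ((c ^ 49)⁻¹ *
        (c ^ 39 + 1 + ((a - s2 / 2) ^ 2 + (b - s3) ^ 2) / (2 * c ^ 39))) :=
          mul_le_mul_of_nonneg_left h5 (by positivity)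
      _ = _ := by ring
  refine (Finset.sum_le_sum hterm).trans ?_
  rw [← Finset.mul_sum, Finset.sum_add_distrib, Finset.sum_const, Finset.card_range, nsmul_eq_mul,
    ← Finset.sum_div, Finset.sum_add_distrib]
  have hA' : ∑ u ∈ range (pX L), (R2 L G (n0 + u) - s2 / 2) ^ 2 ≤ 2 * pX L * s2 := by
    refine le_trans (le_of_eq ?_) hA
    apply Finset.sum_congr rfl
    intro u _
    unfold R2
    congr 2
    push_cast
    ring
  have hB' : ∑ u ∈ range (pX L), (R3 L G (n0 + u) - s3) ^ 2 ≤ 2 * pX L * s3 := by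
    refine le_trans (le_of_eq ?_) hB
    apply Finset.sum_congr rfl
    intro u _
    unfold R3
    congr 2
    push_cast
    ring
  have hX : (0 : ℝ) ≤ pX L := Nat.cast_nonneg _
  have h1 : (∑ u ∈ range (pX L), (R2 L G (n0 + u) - s2 / 2) ^ 2 +
      ∑ u ∈ range (pX L), (R3 L G (n0 + u) - s3) ^ 2) / (2 * c ^ 39) ≤ pX L * c ^ 39 := by
    rw [div_le_iff₀ (by positivity)]
    calc _ ≤ 2 * pX L * s2 + 2 * pX L * s3 := add_le_add hA' hB'
      _ = 2 * pX L * (s2 + s3) := by ring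
      _ ≤ 2 * pX L * c ^ 78 := mul_le_mul_of_nonneg_left hs (by positivity)
      _ = pX L * c ^ 39 * (2 * c ^ 39) := by ring
  have h2 : (pX L : ℝ) * (c ^ 39 + 1) + (∑ u ∈ range (pX L), (R2 L G (n0 + u) - s2 / 2) ^ 2 +
      ∑ u ∈ range (pX L), (R3 L G (n0 + u) - s3) ^ 2) / (2 * c ^ 39) ≤ pX L * (3 * c ^ 39) := by
    have h3 : (pX L : ℝ) * 1 ≤ pX L * c ^ 39 := mul_le_mul_of_nonneg_left hc39 hX
    linarith
  calc _ ≤ 2 * Real.pi * (c ^ 49)⁻¹ * (pX L * (3 * c ^ 39)) :=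
        mul_le_mul_of_nonneg_left h2 (by positivity)
    _ = pX L * (6 * Real.pi * (c ^ 10)⁻¹) := by
        have h3 : c ^ 49 = c ^ 39 * c ^ 10 := by rw [← pow_add]
        rw [h3]
        have h4 : c ≠ 0 := by linarith
        field_simp
        ring
    _ ≤ pX L * (19 * (c ^ 10)⁻¹) := by
        apply mul_le_mul_of_nonneg_left _ hX
        apply mul_le_mul_of_nonneg_right _ (by positivity)
        have := Real.pi_lt_d2
        linarith

end Mid

open Mid

/-- G5 -/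
theorem claimMid (h0 : ClaimSizF) (h1 : ClaimGoodBlocks) (h2 : ClaimWin) : ClaimMid := by
  obtain ⟨L0, h0⟩ := h0
  obtain ⟨L1, h1⟩ := h1
  obtain ⟨L2, h2⟩ := h2
  refine ⟨max (max L0 L1) (max L2 (1000 ^ 100)), ?_⟩
  intro L hL
  have hL0 : L0 ≤ L := (le_max_left _ _).trans ((le_max_left _ _).trans hL)
  have hL1 : L1 ≤ L := (le_max_right _ _).trans ((le_max_left _ _).trans hL)
  have hL2 : L2 ≤ L := (le_max_left _ _).trans ((le_max_right _ _).trans hL)
  have hL3 : 1000 ^ 100 ≤ L := (le_max_right _ _).trans ((le_max_right _ _).trans hL)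
  obtain ⟨c, N⟩ := exists_num (h0 L hL0) hL3
  obtain ⟨G, hG, hgood, hcard⟩ := h1 L hL1
  have hc0 := N.c0
  have hGm : G.card ≤ pm L := by
    have := Finset.card_le_card hG
    rwa [Finset.card_range] at this
  have hGmr : (G.card : ℝ) ≤ pm L := by exact_mod_cast hGm
  have hn2u : ((G.card * pl L : ℕ) : ℝ) ≤ c ^ 100 := by
    push_cast
    exact (mul_le_mul_of_nonneg_right hGmr (Nat.cast_nonneg _)).trans N.mp
  have hn2l : (1 : ℝ) / 2 * c ^ 100 ≤ ((G.card * pl L : ℕ) : ℝ) := by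
    have h4 : (pm L : ℝ) - G.card ≤ 20 * c := by
      have h5 : (pm L : ℝ) ≤ G.card + 20 * (pk L + 1) := by exact_mod_cast hcard
      have h6 := N.ck
      linarith
    have h5 : ((pm L : ℝ) - G.card) * pl L ≤ 20 * c * (2 * c ^ 75) := by
      calc ((pm L : ℝ) - G.card) * pl L ≤ 20 * c * pl L :=
            mul_le_mul_of_nonneg_right h4 (Nat.cast_nonneg _)
        _ ≤ _ := mul_le_mul_of_nonneg_left N.pl1 (by linarith)
    have h6 : 20 * c * (2 * c ^ 75) ≤ 4 / 100 * c ^ 100 := by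
      have h7 : c ^ 100 = c ^ 24 * c ^ 76 := by rw [← pow_add]
      have h8 : c ^ 1 ≤ c ^ 24 := pow_le_pow_right₀ (by linarith) (by norm_num)
      have h9 : 1000 ≤ c ^ 24 := by linarith
      have h10 : 1000 * c ^ 76 ≤ c ^ 24 * c ^ 76 := mul_le_mul_of_nonneg_right h9 (by positivity)
      rw [h7]
      have h11 : 20 * c * (2 * c ^ 75) = 40 * c ^ 76 := by ring
      rw [h11]
      linarith
    have h7 := N.mp'
    push_cast
    have h8 : ((pm L : ℝ) - G.card) * pl L = pm L * pl L - G.card * pl L := by ring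
    rw [h8] at h5
    linarith
  have hc100 : 0 ≤ c ^ 100 := by positivity
  have hn3u : ((Mid.n3 L G : ℕ) : ℝ) ≤ ((G.card * pl L : ℕ) : ℝ) := by exact_mod_cast n3_upper hG
  have hn3l : 39 * ((G.card * pl L : ℕ) : ℝ) ≤ 100 * ((Mid.n3 L G : ℕ) : ℝ) := by
    exact_mod_cast n3_lower N hG
  refine ⟨G.card * pl L, Mid.n3 L G, round (((S2 L G).card : ℝ) / 2 - (S3 L G).card), ?_, ?_, ?_,
    ?_, ?_, ?_⟩
  · rw [← N.cK]
    linarith
  · have : ((G.card * pl L : ℕ) : ℝ) ≤ (pK L : ℝ) := by rw [← N.cK]; exact hn2u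
    exact_mod_cast this
  · rw [← N.cK]
    linarith
  · have : ((Mid.n3 L G : ℕ) : ℝ) ≤ (pK L : ℝ) := by rw [← N.cK]; exact hn3u.trans hn2u
    exact_mod_cast this
  · have h3 := abs_sub_round (((S2 L G).card : ℝ) / 2 - (S3 L G).card)
    have h4 := card_S2 hG
    have h5 := card_S3 hG
    have h6 : ((round (((S2 L G).card : ℝ) / 2 - (S3 L G).card) : ℤ) : ℝ) +
        ((G.card * pl L : ℕ) : ℝ) / 2 - ((Mid.n3 L G : ℕ) : ℝ) -
        (((pb L : ℝ) - pal L) / 2 - ((pP L 0 : ℝ) - pal3 L)) =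
        -((((S2 L G).card : ℝ) / 2 - (S3 L G).card) -
          (round (((S2 L G).card : ℝ) / 2 - (S3 L G).card) : ℤ)) := by
      unfold Mid.n3
      push_cast at h5 ⊢
      linarith
    rw [h6, abs_neg]
    linarith
  · intro θ n0 hθ
    have hθ' : |θ| ≤ (c ^ 49)⁻¹ := N.t49 ▸ hθ
    set e1 : ℤ := round (((S2 L G).card : ℝ) / 2 - (S3 L G).card) with he1
    have he : |(e1 : ℝ) - (((S2 L G).card : ℝ) / 2 - (S3 L G).card)| ≤ 1 := by
      rw [abs_sub_comm]
      have := abs_sub_round (((S2 L G).card : ℝ) / 2 - (S3 L G).card)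
      rw [← he1] at this
      linarith
    have hav := avg_bound N hG hcard θ hθ' n0 e1 he
    have hw := h2 L hL2 θ G n0 hθ hG hgood
    rw [N.t20] at hw
    refine le_trans ?_ N.t7
    have hX0 : 0 < pX L := lt_of_lt_of_le (by positivity) N.x1
    have hXr : (0 : ℝ) < pX L := by exact_mod_cast hX0
    have hXc : (pX L : ℂ) ≠ 0 := by exact_mod_cast hX0.ne'
    have e : 1 / (pX L : ℂ) * ∑ u ∈ range (pX L),
        ee (θ * ((ds 2 (pal L) (pb L) (n0 + u) : ℝ) - ds 3 (pal3 L) (pP L 0) (n0 + u))) -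
        ee (θ * e1) * chA (G.card * pl L) (Mid.n3 L G) θ =
        1 / (pX L : ℂ) * ∑ u ∈ range (pX L),
          (ee (θ * ((ds 2 (pal L) (pb L) (n0 + u) : ℝ) - ds 3 (pal3 L) (pP L 0) (n0 + u))) -
            ee (θ * e1) * ee (θ * (Dm L G (n0 + u) : ℝ))) +
        ee (θ * e1) * (1 / (pX L : ℂ) * ∑ u ∈ range (pX L), ee (θ * (Dm L G (n0 + u) : ℝ)) -
          chA (G.card * pl L) (Mid.n3 L G) θ) := by
      rw [Finset.sum_sub_distrib, ← Finset.mul_sum]
      ring
    rw [e]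
    refine (norm_add_le _ _).trans ?_
    rw [norm_mul, norm_mul (ee (θ * e1)), norm_ee, one_mul]
    have h3 : ‖1 / (pX L : ℂ)‖ * ‖∑ u ∈ range (pX L),
          (ee (θ * ((ds 2 (pal L) (pb L) (n0 + u) : ℝ) - ds 3 (pal3 L) (pP L 0) (n0 + u))) -
            ee (θ * e1) * ee (θ * (Dm L G (n0 + u) : ℝ)))‖ ≤ 19 * (c ^ 10)⁻¹ := by
      have h4 : ‖1 / (pX L : ℂ)‖ = 1 / (pX L : ℝ) := by
        rw [norm_div, norm_one, Complex.norm_natCast]
      rw [h4]
      have h5 := (norm_sum_le (range (pX L)) (fun u =>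
          (ee (θ * ((ds 2 (pal L) (pb L) (n0 + u) : ℝ) - ds 3 (pal3 L) (pP L 0) (n0 + u))) -
            ee (θ * e1) * ee (θ * (Dm L G (n0 + u) : ℝ))))).trans hav
      rw [one_div, inv_mul_le_iff₀ hXr]
      exact h5
    have h4 : 19 * (c ^ 10)⁻¹ + (c ^ 20)⁻¹ ≤ (c ^ 7)⁻¹ := by
      have h5 : (c ^ 20)⁻¹ ≤ (c ^ 10)⁻¹ := by
        apply inv_anti₀ (by positivity)
        exact pow_le_pow_right₀ (by linarith) (by norm_num)
      have h6 : 20 * (c ^ 10)⁻¹ ≤ (c ^ 7)⁻¹ := by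
        rw [← div_eq_mul_inv, div_le_iff₀ (by positivity)]
        have h7 : (c ^ 7)⁻¹ * c ^ 10 = c ^ 3 := by
          have h8 : c ≠ 0 := by linarith
          field_simp
        rw [h7]
        have h9 : c ^ 1 ≤ c ^ 3 := pow_le_pow_right₀ (by linarith) (by norm_num)
        linarith
      linarith
    unfold Mid.n3
    linarith

end Pool.Agent.Work.MP_8e4d29_nt

end

section

/-!
MP_8e4d29_nt, item G1: second moments of digit sums over primes in a short interval.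
-/

namespace Pool.Agent.Work.MP_8e4d29_nt

open Finset
open Pool.Agent.Work.MP_122e00_nt (ee)

namespace Mom2

/-- squared deviation of the digit sum of the lowest `k` digits -/
noncomputable def dev (b k t : ℕ) : ℝ := ((ds b 0 k t : ℝ) - (k : ℝ) * ((b : ℝ) - 1) / 2) ^ 2

/-- the deviation itself -/
noncomputable def dv (b k t : ℕ) : ℝ := (ds b 0 k t : ℝ) - (k : ℝ) * ((b : ℝ) - 1) / 2

lemma ds_step (b k v d : ℕ) (hb : 0 < b) (hv : v < b ^ k) (hd : d < b) :
    ds b 0 (k + 1) (v + d * b ^ k) = ds b 0 k v + d := by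
  rw [ds_add b (Nat.zero_le k) (Nat.le_succ k), ds_add_mul]
  congr 1
  unfold ds
  rw [Nat.Ico_succ_singleton, Finset.sum_singleton, Nat.add_mul_div_right _ _ (pow_pos hb k),
    Nat.div_eq_of_lt hv, zero_add, Nat.mod_eq_of_lt hd]

lemma sum_split (b k : ℕ) (hb : 0 < b) (f : ℕ → ℝ) :
    ∑ t ∈ range (b ^ (k + 1)), f t = ∑ d ∈ range b, ∑ v ∈ range (b ^ k), f (v + d * b ^ k) := by
  have h : b ^ (k + 1) = b * b ^ k := by ring
  rw [h]
  clear h
  have : ∀ c : ℕ, ∑ t ∈ range (c * b ^ k), f t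
      = ∑ d ∈ range c, ∑ v ∈ range (b ^ k), f (v + d * b ^ k) := by
    intro c
    induction c with
    | zero => simp
    | succ c ih =>
      rw [Finset.sum_range_succ, ← ih, Nat.succ_mul, Finset.sum_range_add]
      congr 1
      apply Finset.sum_congr rfl
      intro v _
      rw [add_comm]
  exact this b

lemma sum_dv (b k : ℕ) (hb : b = 2 ∨ b = 3) : ∑ t ∈ range (b ^ k), dv b k t = 0 := by
  have hb0 : 0 < b := by omega
  induction k with
  | zero => simp [dv, ds_zero_right]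
  | succ k ih =>
    rw [sum_split b k hb0]
    have h1 : ∀ d ∈ range b, ∑ v ∈ range (b ^ k), dv b (k + 1) (v + d * b ^ k)
        = (b : ℝ) ^ k * ((d : ℝ) - ((b : ℝ) - 1) / 2) := by
      intro d hd
      rw [mem_range] at hd
      have h2 : ∀ v ∈ range (b ^ k), dv b (k + 1) (v + d * b ^ k)
          = dv b k v + ((d : ℝ) - ((b : ℝ) - 1) / 2) := by
        intro v hv
        rw [mem_range] at hv
        unfold dv
        rw [ds_step b k v d hb0 hv hd]
        push_cast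
        ring
      rw [Finset.sum_congr rfl h2, Finset.sum_add_distrib, ih, Finset.sum_const, card_range,
        nsmul_eq_mul]
      push_cast
      ring
    rw [Finset.sum_congr rfl h1, ← Finset.mul_sum]
    rcases hb with rfl | rfl
    · simp [Finset.sum_range_succ]
      norm_num
    · simp [Finset.sum_range_succ]
      norm_num

lemma sum_dev (b k : ℕ) (hb : b = 2 ∨ b = 3) :
    ∑ t ∈ range (b ^ k), dev b k t ≤ (k : ℝ) * (b : ℝ) ^ k := by
  have hb0 : 0 < b := by omega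
  induction k with
  | zero => simp [dev, ds_zero_right]
  | succ k ih =>
    rw [sum_split b k hb0]
    have h1 : ∀ d ∈ range b, ∑ v ∈ range (b ^ k), dev b (k + 1) (v + d * b ^ k)
        = ∑ v ∈ range (b ^ k), dev b k v + (b : ℝ) ^ k * ((d : ℝ) - ((b : ℝ) - 1) / 2) ^ 2 := by
      intro d hd
      rw [mem_range] at hd
      have h2 : ∀ v ∈ range (b ^ k), dev b (k + 1) (v + d * b ^ k)
          = dev b k v + 2 * ((d : ℝ) - ((b : ℝ) - 1) / 2) * dv b k v
            + ((d : ℝ) - ((b : ℝ) - 1) / 2) ^ 2 := by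
        intro v hv
        rw [mem_range] at hv
        unfold dev dv
        rw [ds_step b k v d hb0 hv hd]
        push_cast
        ring
      rw [Finset.sum_congr rfl h2, Finset.sum_add_distrib, Finset.sum_add_distrib,
        ← Finset.mul_sum, sum_dv b k hb, Finset.sum_const, card_range, nsmul_eq_mul]
      push_cast
      ring
    rw [Finset.sum_congr rfl h1, Finset.sum_add_distrib, Finset.sum_const, card_range,
      nsmul_eq_mul, ← Finset.mul_sum]
    have hp : (0 : ℝ) ≤ (b : ℝ) ^ k := by positivity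
    have hk : (0 : ℝ) ≤ k := by positivity
    have hkp : (0 : ℝ) ≤ k * (b : ℝ) ^ k := by positivity
    rcases hb with rfl | rfl
    · have e1 : ∑ i ∈ range 2, ((i : ℝ) - (((2 : ℕ) : ℝ) - 1) / 2) ^ 2 = 1 / 2 := by
        simp only [Finset.sum_range_succ, Finset.sum_range_zero]
        norm_num
      rw [e1]
      have e2 : (((2 : ℕ) : ℝ)) ^ (k + 1) = 2 * ((2 : ℕ) : ℝ) ^ k := by
        push_cast
        ring
      rw [e2]
      push_cast at ih hp hkp ⊢
      nlinarith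
    · have e1 : ∑ i ∈ range 3, ((i : ℝ) - (((3 : ℕ) : ℝ) - 1) / 2) ^ 2 = 2 := by
        simp only [Finset.sum_range_succ, Finset.sum_range_zero]
        norm_num
      rw [e1]
      have e2 : (((3 : ℕ) : ℝ)) ^ (k + 1) = 3 * ((3 : ℕ) : ℝ) ^ k := by
        push_cast
        ring
      rw [e2]
      push_cast at ih hp hkp ⊢
      nlinarith

/-- sums of a periodic function -/
lemma sum_div_le (F : ℕ → ℝ) (B : ℕ) (hB : 0 < B) (hF0 : ∀ t, 0 ≤ F t)
    (hF : ∀ t, F (t % B) = F t) (s J : Finset ℕ) (hJ : ∀ t ∈ s, t / B ∈ J) :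
    ∑ t ∈ s, F t ≤ (J.card : ℝ) * ∑ u ∈ range B, F u := by
  rw [← Finset.sum_fiberwise_of_maps_to hJ, ← nsmul_eq_mul]
  apply Finset.sum_le_card_nsmul
  intro j _
  calc ∑ t ∈ s with t / B = j, F t = ∑ t ∈ s with t / B = j, F (t % B) :=
        Finset.sum_congr rfl fun t _ => (hF t).symm
    _ = ∑ u ∈ (s.filter (fun t => t / B = j)).image (fun t => t % B), F u := by
        rw [Finset.sum_image]
        intro t ht t' ht' h
        have h1 := (mem_filter.mp (Finset.mem_coe.mp ht)).2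
        have h2 := (mem_filter.mp (Finset.mem_coe.mp ht')).2
        have h : t % B = t' % B := h
        rw [← Nat.div_add_mod t B, ← Nat.div_add_mod t' B, h1, h2, h]
    _ ≤ ∑ u ∈ range B, F u := by
        apply Finset.sum_le_sum_of_subset_of_nonneg
        · intro u hu
          obtain ⟨t, _, rfl⟩ := mem_image.mp hu
          exact mem_range.mpr (Nat.mod_lt _ hB)
        · intro u _ _
          exact hF0 u

lemma card_Icc_div (A H D : ℕ) (hD : 0 < D) (hDH : D ≤ H) :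
    ((Icc (A / D) ((A + H) / D)).card : ℝ) ≤ 3 * H / D := by
  have h3 : (A + H) / D ≤ A / D + (H / D + 1) := by
    rw [← Nat.lt_add_one_iff, Nat.div_lt_iff_lt_mul hD]
    have e1 := Nat.lt_div_mul_add hD (a := A)
    have e2 := Nat.lt_div_mul_add hD (a := H)
    nlinarith
  have h4 : (Icc (A / D) ((A + H) / D)).card ≤ H / D + 2 := by
    rw [Nat.card_Icc]
    generalize H / D = u at *
    generalize A / D = v at *
    omega
  have hD' : (0 : ℝ) < D := by exact_mod_cast hD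
  have h5 : (1 : ℝ) ≤ H / D := by
    rw [le_div_iff₀ hD', one_mul]
    exact_mod_cast hDH
  calc ((Icc (A / D) ((A + H) / D)).card : ℝ) ≤ ((H / D + 2 : ℕ) : ℝ) := by exact_mod_cast h4
    _ = ((H / D : ℕ) : ℝ) + 2 := by push_cast; ring
    _ ≤ H / D + 2 := by
      have := @Nat.cast_div_le ℝ _ _ _ H D
      linarith
    _ ≤ 3 * H / D := by
      rw [mul_div_assoc]
      linarith

lemma dev_nonneg (b k t : ℕ) : 0 ≤ dev b k t := sq_nonneg _

lemma dev_mod (b k t : ℕ) : dev b k (t % b ^ k) = dev b k t := by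
  unfold dev
  rw [ds_mod]

lemma log4N_le (N : ℕ) (hN : 1 ≤ N) : Real.log (4 * N) ≤ 12 * (N : ℝ) ^ ((1 : ℝ) / 10) := by
  have h1 : Real.log (4 * N) ≤ (4 * N : ℝ) ^ ((1 : ℝ) / 10) / (1 / 10) :=
    Real.log_le_rpow_div (by positivity) (by norm_num)
  have h2 : (4 * N : ℝ) ^ ((1 : ℝ) / 10) = (4 : ℝ) ^ ((1 : ℝ) / 10) * (N : ℝ) ^ ((1 : ℝ) / 10) :=
    Real.mul_rpow (by norm_num) (by positivity)
  have h3 : (4 : ℝ) ^ ((1 : ℝ) / 10) ≤ 12 / 10 := by
    have h4 : (4 : ℝ) ≤ (12 / 10 : ℝ) ^ (10 : ℕ) := by norm_num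
    calc (4 : ℝ) ^ ((1 : ℝ) / 10) ≤ ((12 / 10 : ℝ) ^ (10 : ℕ)) ^ ((1 : ℝ) / 10) :=
          Real.rpow_le_rpow (by norm_num) h4 (by norm_num)
      _ = 12 / 10 := by
        rw [← Real.rpow_natCast, ← Real.rpow_mul (by norm_num)]
        norm_num
  have h5 : (0 : ℝ) ≤ (N : ℝ) ^ ((1 : ℝ) / 10) := by positivity
  rw [h2] at h1
  have h6 := mul_le_mul_of_nonneg_right h3 h5
  linarith

lemma natlog_le (N : ℕ) (hN : 1 ≤ N) :
    ((Nat.log 2 (4 * N) + 1 : ℕ) : ℝ) ≤ 19 * (N : ℝ) ^ ((1 : ℝ) / 10) := by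
  have h1 : (2 : ℝ) ^ (Nat.log 2 (4 * N)) ≤ 4 * N := by
    have := Nat.pow_log_le_self 2 (x := 4 * N) (by omega)
    exact_mod_cast this
  have h2 : (Nat.log 2 (4 * N) : ℝ) * Real.log 2 ≤ Real.log (4 * N) := by
    rw [← Real.log_pow]
    exact Real.log_le_log (by positivity) h1
  have h3 := log4N_le N hN
  have h4 : (0.69 : ℝ) ≤ Real.log 2 := by linarith [Real.log_two_gt_d9]
  have h5 : (1 : ℝ) ≤ (N : ℝ) ^ ((1 : ℝ) / 10) :=
    Real.one_le_rpow (by exact_mod_cast hN) (by norm_num)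
  have h6 : (Nat.log 2 (4 * N) : ℝ) * 0.69 ≤ Nat.log 2 (4 * N) * Real.log 2 :=
    mul_le_mul_of_nonneg_left h4 (by positivity)
  push_cast
  linarith

/-- von Mangoldt mass of the multiples of `b` -/
lemma mult_mass (N A H b : ℕ) (hN : 1 ≤ N) (hAH : A + H ≤ 4 * N) (hb : b = 2 ∨ b = 3)
    (s : Finset ℕ) (hs : s ⊆ Ioc A (A + H)) (hsb : ∀ n ∈ s, b ∣ n) :
    ∑ n ∈ s, ArithmeticFunction.vonMangoldt n ≤ 228 * (N : ℝ) ^ ((1 : ℝ) / 5) := by
  classical
  have hbp : b.Prime := by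
    rcases hb with rfl | rfl
    · exact Nat.prime_two
    · exact Nat.prime_three
  have h1 : ∑ n ∈ s, ArithmeticFunction.vonMangoldt n
      = ∑ n ∈ s.filter (fun n => ArithmeticFunction.vonMangoldt n ≠ 0),
        ArithmeticFunction.vonMangoldt n := by
    rw [Finset.sum_filter_ne_zero]
  have h2 : s.filter (fun n => ArithmeticFunction.vonMangoldt n ≠ 0)
      ⊆ (range (Nat.log 2 (4 * N) + 1)).image (fun j => b ^ j) := by
    intro n hn
    rw [mem_filter] at hn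
    have h3 := ArithmeticFunction.vonMangoldt_ne_zero_iff.mp hn.2
    obtain ⟨p, j, hp, hj, rfl⟩ := (isPrimePow_nat_iff _).mp h3
    have h4 : b ∣ p := hbp.dvd_of_dvd_pow (hsb _ hn.1)
    have h5 : b = p := (Nat.prime_dvd_prime_iff_eq hbp hp).mp h4
    subst h5
    rw [mem_image]
    refine ⟨j, ?_, rfl⟩
    rw [mem_range, Nat.lt_succ_iff]
    apply Nat.le_log_of_pow_le (by norm_num)
    have h6 := (mem_Ioc.mp (hs hn.1)).2
    calc 2 ^ j ≤ b ^ j := Nat.pow_le_pow_left hbp.two_le j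
      _ ≤ 4 * N := h6.trans hAH
  rw [h1]
  have h3 : ∀ n ∈ s.filter (fun n => ArithmeticFunction.vonMangoldt n ≠ 0),
      ArithmeticFunction.vonMangoldt n ≤ Real.log (4 * N) := by
    intro n hn
    have h4 := mem_Ioc.mp (hs (mem_filter.mp hn).1)
    refine ArithmeticFunction.vonMangoldt_le_log.trans ?_
    apply Real.log_le_log
    · have : 0 < n := by omega
      exact_mod_cast this
    · exact_mod_cast h4.2.trans hAH
  have h4 := Finset.sum_le_card_nsmul _ _ _ h3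
  rw [nsmul_eq_mul] at h4
  have h5 : (((s.filter (fun n => ArithmeticFunction.vonMangoldt n ≠ 0)).card : ℕ) : ℝ)
      ≤ ((Nat.log 2 (4 * N) + 1 : ℕ) : ℝ) := by
    have := (Finset.card_le_card h2).trans Finset.card_image_le
    rw [card_range] at this
    exact_mod_cast this
  have hlog : 0 ≤ Real.log (4 * N) := by
    apply Real.log_nonneg
    have : (1 : ℝ) ≤ N := by exact_mod_cast hN
    linarith
  calc ∑ n ∈ s.filter (fun n => ArithmeticFunction.vonMangoldt n ≠ 0),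
        ArithmeticFunction.vonMangoldt n
      ≤ ((Nat.log 2 (4 * N) + 1 : ℕ) : ℝ) * Real.log (4 * N) :=
        h4.trans (mul_le_mul_of_nonneg_right h5 hlog)
    _ ≤ (19 * (N : ℝ) ^ ((1 : ℝ) / 10)) * (12 * (N : ℝ) ^ ((1 : ℝ) / 10)) :=
        mul_le_mul (natlog_le N hN) (log4N_le N hN) hlog (by positivity)
    _ = 228 * (N : ℝ) ^ ((1 : ℝ) / 5) := by
        have : (N : ℝ) ^ ((1 : ℝ) / 5) = (N : ℝ) ^ ((1 : ℝ) / 10) * (N : ℝ) ^ ((1 : ℝ) / 10) := by
          rw [← Real.rpow_add (by exact_mod_cast hN)]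
          norm_num
        rw [this]
        ring

end Mom2

open Mom2 in
theorem claimMom2 (h : ClaimBT) : ClaimMom2 := by
  classical
  obtain ⟨C, N0, hC, hBT⟩ := h
  refine ⟨3 * C + 228, N0 + 1, by linarith, ?_⟩
  intro N A H b lo hi hN hNA hAH hH hb hlohi hbH hcase
  have hN1 : 1 ≤ N := by omega
  have hNr : (1 : ℝ) ≤ N := by exact_mod_cast hN1
  have hb0 : 0 < b := by omega
  have hbr : (0 : ℝ) < b := by exact_mod_cast hb0
  obtain ⟨k, rfl⟩ := Nat.exists_eq_add_of_le hlohi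
  have hHr : (0 : ℝ) ≤ H := by positivity
  have hk0 : (0 : ℝ) ≤ k := by positivity
  -- the summand
  have hsum : ∀ n, ((ds b lo (lo + k) n : ℝ) - (((lo + k : ℕ) : ℝ) - lo) * ((b : ℝ) - 1) / 2) ^ 2
      = dev b k (n / b ^ lo) := by
    intro n
    unfold dev
    rw [ds_shift b lo (lo + k) n, Nat.add_sub_cancel_left]
    push_cast
    ring
  simp_rw [hsum]
  have hgoal : ((lo + k : ℕ) : ℝ) - lo + 1 = k + 1 := by
    push_cast
    ring
  rw [hgoal]
  have hV := sum_dev b k hb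
  have hV0 : 0 ≤ ∑ t ∈ range (b ^ k), dev b k t := Finset.sum_nonneg fun t _ => dev_nonneg _ _ _
  rcases hcase with hc | ⟨rfl, hc⟩
  · -- high digits
    set Q : ℕ := b ^ lo with hQ
    have hQ0 : 0 < Q := pow_pos hb0 lo
    have hQr : (0 : ℝ) < Q := by exact_mod_cast hQ0
    have hcQ : (N : ℝ) ^ ((53 : ℝ) / 100) ≤ Q := by
      rw [hQ]
      push_cast
      exact hc
    have hQH : Q ≤ H := le_trans (Nat.pow_le_pow_right hb0 (Nat.le_add_right lo k)) hbH
    have hmaps : ∀ n ∈ Ioc A (A + H), n / Q ∈ Icc (A / Q) ((A + H) / Q) := by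
      intro n hn
      rw [mem_Ioc] at hn
      rw [mem_Icc]
      exact ⟨Nat.div_le_div_right hn.1.le, Nat.div_le_div_right hn.2⟩
    rw [← Finset.sum_fiberwise_of_maps_to hmaps]
    have hin : ∀ t ∈ Icc (A / Q) ((A + H) / Q),
        ∑ n ∈ Ioc A (A + H) with n / Q = t, ArithmeticFunction.vonMangoldt n * dev b k (n / Q)
        ≤ C * Q * dev b k t := by
      intro t ht
      rw [mem_Icc] at ht
      have e1 : ∑ n ∈ Ioc A (A + H) with n / Q = t,
          ArithmeticFunction.vonMangoldt n * dev b k (n / Q)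
          = (∑ n ∈ Ioc A (A + H) with n / Q = t, ArithmeticFunction.vonMangoldt n)
            * dev b k t := by
        rw [Finset.sum_mul]
        apply Finset.sum_congr rfl
        intro n hn
        rw [(mem_filter.mp hn).2]
      rw [e1]
      apply mul_le_mul_of_nonneg_right _ (dev_nonneg _ _ _)
      have htQ : t * Q ≤ A + H :=
        le_trans (Nat.mul_le_mul_right Q ht.2) (Nat.div_mul_le_self _ _)
      have hxQ : max A (t * Q - 1) + Q ≤ 32 * N := by
        have hm : max A (t * Q - 1) ≤ A + H := by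
          apply max_le (Nat.le_add_right _ _)
          generalize t * Q = u at *
          omega
        generalize max A (t * Q - 1) = x at *
        omega
      have e2 := hBT N (max A (t * Q - 1)) Q 1 0 0 (by omega) (le_trans hNA (le_max_left _ _))
        hxQ
        (le_trans (Real.rpow_le_rpow_of_exponent_le hNr (by norm_num)) hcQ)
        (Or.inl (by norm_num)) (by
          push_cast
          exact Real.one_le_rpow hNr (by norm_num)) (by norm_num)
      rw [Nat.cast_one, div_one] at e2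
      refine le_trans (Finset.sum_le_sum_of_subset_of_nonneg ?_ ?_) e2
      · intro n hn
        rw [mem_filter, mem_Ioc] at hn
        obtain ⟨⟨hn1, hn2⟩, hn3⟩ := hn
        rw [mem_filter, mem_Ioc]
        have f1 : t * Q ≤ n := by
          rw [← hn3]
          exact Nat.div_mul_le_self _ _
        have f2 : n < t * Q + Q := by
          rw [← hn3]
          exact Nat.lt_div_mul_add hQ0
        refine ⟨⟨?_, ?_⟩, by simp [Nat.mod_one]⟩
        · apply max_lt hn1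
          generalize t * Q = u at *
          omega
        · have f3 : t * Q - 1 ≤ max A (t * Q - 1) := le_max_right _ _
          generalize max A (t * Q - 1) = x at *
          generalize t * Q = u at *
          omega
      · intro n _ _
        exact ArithmeticFunction.vonMangoldt_nonneg
    refine le_trans (Finset.sum_le_sum hin) ?_
    rw [← Finset.mul_sum]
    have hD0 : 0 < Q * b ^ k := Nat.mul_pos hQ0 (pow_pos hb0 k)
    have hDH : Q * b ^ k ≤ H := by
      rw [hQ, ← pow_add]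
      exact hbH
    have g1 := sum_div_le (dev b k) (b ^ k) (pow_pos hb0 k) (dev_nonneg b k) (dev_mod b k)
      (Icc (A / Q) ((A + H) / Q)) (Icc (A / (Q * b ^ k)) ((A + H) / (Q * b ^ k))) (by
        intro t ht
        rw [mem_Icc] at ht ⊢
        rw [← Nat.div_div_eq_div_mul, ← Nat.div_div_eq_div_mul]
        exact ⟨Nat.div_le_div_right ht.1, Nat.div_le_div_right ht.2⟩)
    have g2 := card_Icc_div A H (Q * b ^ k) hD0 hDH
    have hbk : (0 : ℝ) < (b : ℝ) ^ k := by positivity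
    calc C * Q * ∑ t ∈ Icc (A / Q) ((A + H) / Q), dev b k t
        ≤ C * Q * ((3 * H / ((Q * b ^ k : ℕ) : ℝ)) * ((k : ℝ) * (b : ℝ) ^ k)) := by
          apply mul_le_mul_of_nonneg_left _ (by positivity)
          refine le_trans g1 ?_
          apply mul_le_mul g2 hV hV0
          positivity
      _ = 3 * C * H * k := by
          push_cast
          field_simp
      _ ≤ (3 * C + 228) * H * (k + 1) := by
          have : 0 ≤ (3 * C + 228) * H + 228 * H * k := by positivity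
          nlinarith
  · -- low digits
    have hz : ∀ n : ℕ, n / b ^ 0 = n := by
      intro n
      rw [pow_zero, Nat.div_one]
    simp_rw [hz]
    rw [zero_add] at hc hbH
    set B : ℕ := b ^ k with hB
    have hB0 : 0 < B := pow_pos hb0 k
    have hBr : (0 : ℝ) < B := by exact_mod_cast hB0
    have hBc : (b : ℝ) ^ k = B := by
      rw [hB]
      push_cast
      rfl
    rw [hBc] at hc hV
    have hbp : b.Prime := by
      rcases hb with rfl | rfl
      · exact Nat.prime_two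
      · exact Nat.prime_three
    have hmaps : ∀ n ∈ Ioc A (A + H), n % B ∈ range B := by
      intro n _
      rw [mem_range]
      exact Nat.mod_lt _ hB0
    rw [← Finset.sum_fiberwise_of_maps_to hmaps]
    have hN5 : (0 : ℝ) ≤ (N : ℝ) ^ ((1 : ℝ) / 5) := by positivity
    have hin : ∀ r ∈ range B,
        ∑ n ∈ Ioc A (A + H) with n % B = r, ArithmeticFunction.vonMangoldt n * dev b k n
        ≤ (C * H / B + 228 * (N : ℝ) ^ ((1 : ℝ) / 5)) * dev b k r := by
      intro r hr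
      rw [mem_range] at hr
      have e1 : ∑ n ∈ Ioc A (A + H) with n % B = r,
          ArithmeticFunction.vonMangoldt n * dev b k n
          = (∑ n ∈ Ioc A (A + H) with n % B = r, ArithmeticFunction.vonMangoldt n)
            * dev b k r := by
        rw [Finset.sum_mul]
        apply Finset.sum_congr rfl
        intro n hn
        rw [← dev_mod b k n, ← hB, (mem_filter.mp hn).2]
      rw [e1]
      apply mul_le_mul_of_nonneg_right _ (dev_nonneg _ _ _)
      by_cases hco : Nat.Coprime r B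
      · have e2 := hBT N A H B r k (by omega) hNA (by omega)
          (le_trans (Real.rpow_le_rpow_of_exponent_le hNr (by norm_num)) hH)
          (by
            rcases hb with h2 | h3
            · left
              rw [hB, h2]
            · right
              rw [hB, h3]) hc hco
        rw [Nat.mod_eq_of_lt hr] at e2
        linarith
      · have hbr' : b ∣ r := by
          by_contra hnd
          apply hco
          rw [hB]
          apply Nat.Coprime.pow_right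
          exact ((Nat.Prime.coprime_iff_not_dvd hbp).mpr hnd).symm
        have hbB : b ∣ B := by
          rw [hB]
          rcases Nat.eq_zero_or_pos k with h0 | h0
          · exfalso
            apply hco
            rw [hB, h0, pow_zero]
            exact Nat.coprime_one_right r
          · exact dvd_pow_self b (by omega)
        have e2 := mult_mass N A H b hN1 hAH hb
          ((Ioc A (A + H)).filter (fun n => n % B = r)) (Finset.filter_subset _ _) (by
            intro n hn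
            have h3 := (mem_filter.mp hn).2
            rw [← Nat.dvd_mod_iff hbB, h3]
            exact hbr')
        have e3 : 0 ≤ C * H / B := by positivity
        linarith
    refine le_trans (Finset.sum_le_sum hin) ?_
    rw [← Finset.mul_sum]
    have h21 : (B : ℝ) * (N : ℝ) ^ ((1 : ℝ) / 5) ≤ H := by
      calc (B : ℝ) * (N : ℝ) ^ ((1 : ℝ) / 5)
          ≤ (N : ℝ) ^ ((1 : ℝ) / 100) * (N : ℝ) ^ ((1 : ℝ) / 5) :=
            mul_le_mul_of_nonneg_right hc hN5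
        _ = (N : ℝ) ^ ((1 : ℝ) / 100 + (1 : ℝ) / 5) := by
            rw [Real.rpow_add (by linarith)]
        _ ≤ (N : ℝ) ^ ((77 : ℝ) / 100) :=
            Real.rpow_le_rpow_of_exponent_le hNr (by norm_num)
        _ ≤ H := hH
    calc (C * H / B + 228 * (N : ℝ) ^ ((1 : ℝ) / 5)) * ∑ r ∈ range B, dev b k r
        ≤ (C * H / B + 228 * (N : ℝ) ^ ((1 : ℝ) / 5)) * ((k : ℝ) * B) := by
          apply mul_le_mul_of_nonneg_left hV
          positivity
      _ = C * H * k + 228 * k * ((B : ℝ) * (N : ℝ) ^ ((1 : ℝ) / 5)) := by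
          field_simp
      _ ≤ C * H * k + 228 * k * H := by
          have := mul_le_mul_of_nonneg_left h21 (show (0 : ℝ) ≤ 228 * k by positivity)
          linarith
      _ ≤ (3 * C + 228) * H * (k + 1) := by
          have : 0 ≤ (3 * C + 228) * H + 2 * C * H * k := by positivity
          nlinarith

end Pool.Agent.Work.MP_8e4d29_nt

end

section

set_option autoImplicit false

/-!
MP_8e4d29_nt, P1: no coincidence of powers of 2 and 3 for one of `L`, `L'`.
-/

namespace Pool.Agent.Work.MP_8e4d29_nt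

open Finset

namespace NCp

theorem p23 (n : ℕ) : 2 ^ (3 * n) ≤ 3 ^ (2 * n) := by
  rw [pow_mul, pow_mul]
  exact Nat.pow_le_pow_left (by norm_num) n

theorem p32 (n : ℕ) : 3 ^ (5 * n) ≤ 2 ^ (8 * n) := by
  rw [pow_mul, pow_mul]
  exact Nat.pow_le_pow_left (by norm_num) n

/-- the logarithms -/
theorem logs (h : ℕ) : pK (22500000 * h) + 45000 * h ≤ pK (22530000 * h) ∧
    pK (22530000 * h) ≤ pK (22500000 * h) + 48000 * h ∧ 22500000 * h ≤ pK (22500000 * h) := by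
  unfold pK
  have hne : ∀ L : ℕ, (3 : ℕ) ^ L ≠ 0 := fun L => by positivity
  have h1 : 2 ^ Nat.log 2 (3 ^ (22500000 * h)) ≤ 3 ^ (22500000 * h) :=
    Nat.pow_log_le_self 2 (hne _)
  have h2 : 3 ^ (22500000 * h) < 2 ^ (Nat.log 2 (3 ^ (22500000 * h)) + 1) :=
    Nat.lt_pow_succ_log_self (by norm_num) _
  have e : (3 : ℕ) ^ (22530000 * h) = 3 ^ (22500000 * h) * 3 ^ (30000 * h) := by
    rw [← pow_add]; congr 1; ring
  have e1 : (2 : ℕ) ^ (45000 * h) ≤ 3 ^ (30000 * h) := by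
    rw [show 45000 * h = 3 * (15000 * h) by ring, show 30000 * h = 2 * (15000 * h) by ring]
    exact p23 _
  have e2 : (3 : ℕ) ^ (30000 * h) ≤ 2 ^ (48000 * h) := by
    rw [show 48000 * h = 8 * (6000 * h) by ring, show 30000 * h = 5 * (6000 * h) by ring]
    exact p32 _
  refine ⟨?_, ?_, ?_⟩
  · apply Nat.le_log_of_pow_le (by norm_num)
    rw [e, pow_add]
    exact Nat.mul_le_mul h1 e1
  · have h3 : 2 ^ Nat.log 2 (3 ^ (22530000 * h)) ≤ 3 ^ (22530000 * h) :=
      Nat.pow_log_le_self 2 (hne _)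
    have h4 : 2 ^ Nat.log 2 (3 ^ (22530000 * h)) <
        2 ^ (Nat.log 2 (3 ^ (22500000 * h)) + 1 + 48000 * h) := by
      rw [pow_add _ _ (48000 * h)]
      calc 2 ^ Nat.log 2 (3 ^ (22530000 * h)) ≤ 3 ^ (22530000 * h) := h3
        _ = 3 ^ (22500000 * h) * 3 ^ (30000 * h) := e
        _ < 2 ^ (Nat.log 2 (3 ^ (22500000 * h)) + 1) * 2 ^ (48000 * h) :=
          Nat.mul_lt_mul_of_lt_of_le h2 e2 (by positivity)
    have h5 := (Nat.pow_lt_pow_iff_right (by norm_num : 1 < 2)).1 h4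
    omega
  · apply Nat.le_log_of_pow_le (by norm_num)
    exact Nat.pow_le_pow_left (by norm_num) _

theorem main (h : ℕ) (hh : 1 ≤ h) : NC (22500000 * h) ∨ NC (22530000 * h) := by
  by_contra hcon
  rw [not_or] at hcon
  obtain ⟨hc1, hc2⟩ := hcon
  obtain ⟨hK1, hK2, hK3⟩ := logs h
  have g1 : pg0 (22500000 * h) = 750 * h := by unfold pg0; omega
  have g2 : pg0 (22530000 * h) = 751 * h := by unfold pg0; omega
  have hy1 : py0 (22500000 * h) = 225000 * h := by unfold py0; omega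
  have hy2 : py0 (22530000 * h) = 225300 * h := by unfold py0; omega
  have hj1 : pj0 (22500000 * h) = pK (22500000 * h) / 2 - 225000 * h - 120 * (750 * h) := by
    unfold pj0; rw [g1, hy1]
  have hj2 : pj0 (22530000 * h) = pK (22530000 * h) / 2 - 225300 * h - 120 * (751 * h) := by
    unfold pj0; rw [g2, hy2]
  have hD1 : 22500000 * h / 10 = 2250000 * h := by omega
  have hD2 : 22530000 * h / 10 = 2253000 * h := by omega
  have hW1 : pW (22500000 * h) ≤ 3 ^ (94 * h) := by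
    unfold pW
    rw [g1]
    exact Nat.pow_le_pow_right (by norm_num) (by omega)
  have hW2 : pW (22530000 * h) ≤ 3 ^ (94 * h) := by
    unfold pW
    rw [g2]
    exact Nat.pow_le_pow_right (by norm_num) (by omega)
  unfold NC at hc1 hc2
  rw [g1, hD1] at hc1
  rw [g2, hD2] at hc2
  set j := pj0 (22500000 * h) with hj
  set j' := pj0 (22530000 * h) with hj'
  have hjj1 : j + 22080 * h ≤ j' + 1 := by omega
  have hjj2 : j' ≤ j + 23580 * h + 1 := by omega
  push Not at hc1 hc2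
  obtain ⟨w, v, k, i, hw1, hw, hv, hk, hi1, hi2, hd⟩ := hc1
  obtain ⟨w', v', k', i', hw1', hw', hv', hk', hi1', hi2', hd'⟩ := hc2
  have hwle : w ≤ 3 ^ (94 * h) := hw.trans hW1
  have hwle' : w' ≤ 3 ^ (94 * h) := hw'.trans hW2
  have h3h : 3 ≤ 3 ^ h := by
    calc 3 = 3 ^ 1 := by norm_num
      _ ≤ 3 ^ h := Nat.pow_le_pow_right (by norm_num) hh
  -- powers of three as real numbers
  have P : ∀ {a b : ℕ}, a ≤ b → (3 : ℝ) ^ a ≤ (3 : ℝ) ^ b := fun hab =>
    pow_le_pow_right₀ (by norm_num) hab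
  have hDh : (3 : ℝ) ^ 1 ≤ (3 : ℝ) ^ (2250000 * h) := P (by omega)
  have hDh' : (3 : ℝ) ^ 1 ≤ (3 : ℝ) ^ (2253000 * h) := P (by omega)
  have half : ∀ (v : ℕ) (X D : ℝ), 1 ≤ v → (3 : ℝ) ^ 1 ≤ D → |X - v| ≤ 1 / D → 1 / 2 ≤ X := by
    intro v X D hv hD hX
    have h1 : 1 / D ≤ 1 / 3 := by
      apply one_div_le_one_div_of_le (by norm_num)
      linarith
    have h2 := (abs_le.1 hX).1
    have h3 : (1 : ℝ) ≤ v := by exact_mod_cast hv
    linarith
  have hX := half v _ _ hv hDh hd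
  have hX' := half v' _ _ hv' hDh' hd'
  have up : ∀ (w k i : ℕ), 1 / 2 ≤ (w : ℝ) * 3 ^ i / 2 ^ k → 2 ^ k ≤ 2 * (w * 3 ^ i) := by
    intro w k i h1
    have h2 : (0 : ℝ) < 2 ^ k := by positivity
    rw [le_div_iff₀ h2] at h1
    have h3 : ((2 ^ k : ℕ) : ℝ) ≤ ((2 * (w * 3 ^ i) : ℕ) : ℝ) := by
      push_cast
      linarith
    exact_mod_cast h3
  have hu := up w k i hX
  have hu' := up w' k' i' hX'
  have hu2 : 2 ^ k ≤ 3 ^ (j + 2345 * h) := by
    calc 2 ^ k ≤ 2 * (w * 3 ^ i) := hu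
      _ ≤ 3 ^ h * (3 ^ (94 * h) * 3 ^ (j + 2250 * h)) := by
          refine Nat.mul_le_mul (by omega) (Nat.mul_le_mul hwle ?_)
          exact Nat.pow_le_pow_right (by norm_num) (by omega)
      _ = 3 ^ (j + 2345 * h) := by rw [← pow_add, ← pow_add]; congr 1; ring
  have hu2' : 2 ^ k' ≤ 3 ^ (j' + 2348 * h) := by
    calc 2 ^ k' ≤ 2 * (w' * 3 ^ i') := hu'
      _ ≤ 3 ^ h * (3 ^ (94 * h) * 3 ^ (j' + 2253 * h)) := by
          refine Nat.mul_le_mul (by omega) (Nat.mul_le_mul hwle' ?_)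
          exact Nat.pow_le_pow_right (by norm_num) (by omega)
      _ = 3 ^ (j' + 2348 * h) := by rw [← pow_add, ← pow_add]; congr 1; ring
  have hkk : k ≤ k' := by
    have h1 : 2 ^ k < 2 ^ k' := by
      calc 2 ^ k ≤ 3 ^ (j + 2345 * h) := hu2
        _ < 3 ^ j' := Nat.pow_lt_pow_right (by norm_num) (by omega)
        _ ≤ 2 ^ k' := hk'
    exact ((Nat.pow_lt_pow_iff_right (by norm_num : 1 < 2)).1 h1).le
  obtain ⟨a, rfl⟩ := Nat.exists_eq_add_of_le hkk
  have hii : i ≤ i' := by omega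
  obtain ⟨b, rfl⟩ := Nat.exists_eq_add_of_le hii
  have ha : 2 ^ a ≤ 3 ^ (25929 * h) := by
    have h1 : 3 ^ j * 2 ^ a ≤ 3 ^ j * 3 ^ (25929 * h) := by
      calc 3 ^ j * 2 ^ a ≤ 2 ^ k * 2 ^ a := Nat.mul_le_mul_right _ hk
        _ = 2 ^ (k + a) := (pow_add _ _ _).symm
        _ ≤ 3 ^ (j' + 2348 * h) := hu2'
        _ ≤ 3 ^ (j + 25929 * h) := Nat.pow_le_pow_right (by norm_num) (by omega)
        _ = 3 ^ j * 3 ^ (25929 * h) := pow_add _ _ _
    exact Nat.le_of_mul_le_mul_left h1 (by positivity)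
  have hb1 : b ≤ 26584 * h := by omega
  have hb2 : 2442 * h < b := by omega
  have hA : (w : ℝ) * 2 ^ a ≤ 3 ^ (27000 * h) := by
    have h1 : w * 2 ^ a ≤ 3 ^ (27000 * h) := by
      calc w * 2 ^ a ≤ 3 ^ (94 * h) * 3 ^ (25929 * h) := Nat.mul_le_mul hwle ha
        _ = 3 ^ (94 * h + 25929 * h) := (pow_add _ _ _).symm
        _ ≤ 3 ^ (27000 * h) := Nat.pow_le_pow_right (by norm_num) (by omega)
    exact_mod_cast h1
  have hB : (w' : ℝ) * 3 ^ b ≤ 3 ^ (27000 * h) := by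
    have h1 : w' * 3 ^ b ≤ 3 ^ (27000 * h) := by
      calc w' * 3 ^ b ≤ 3 ^ (94 * h) * 3 ^ (26584 * h) :=
            Nat.mul_le_mul hwle' (Nat.pow_le_pow_right (by norm_num) hb1)
        _ = 3 ^ (94 * h + 26584 * h) := (pow_add _ _ _).symm
        _ ≤ 3 ^ (27000 * h) := Nat.pow_le_pow_right (by norm_num) (by omega)
    exact_mod_cast h1
  set X : ℝ := (w : ℝ) * 3 ^ i / 2 ^ k with hXd
  set X' : ℝ := (w' : ℝ) * 3 ^ (i + b) / 2 ^ (k + a) with hXd'
  have heq : (w : ℝ) * 2 ^ a * X' = w' * 3 ^ b * X := by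
    rw [hXd, hXd', pow_add, pow_add]
    field_simp
  have hsmall : |(w : ℝ) * 2 ^ a * v' - w' * 3 ^ b * v| < 1 := by
    have e1 : (w : ℝ) * 2 ^ a * v' - w' * 3 ^ b * v =
        w' * 3 ^ b * (X - v) - (w : ℝ) * 2 ^ a * (X' - v') := by
      linear_combination heq
    rw [e1]
    have e2 : |(w' : ℝ) * 3 ^ b * (X - v)| ≤ 1 / 3 := by
      rw [abs_mul, abs_of_nonneg (by positivity)]
      calc (w' : ℝ) * 3 ^ b * |X - v| ≤ 3 ^ (27000 * h) * (1 / 3 ^ (2250000 * h)) :=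
            mul_le_mul hB hd (abs_nonneg _) (by positivity)
        _ ≤ 1 / 3 := by
            rw [mul_one_div, div_le_div_iff₀ (by positivity) (by norm_num), one_mul]
            calc (3 : ℝ) ^ (27000 * h) * 3 = 3 ^ (27000 * h + 1) := (pow_succ _ _).symm
              _ ≤ 3 ^ (2250000 * h) := P (by omega)
    have e3 : |(w : ℝ) * 2 ^ a * (X' - v')| ≤ 1 / 3 := by
      rw [abs_mul, abs_of_nonneg (by positivity)]
      calc (w : ℝ) * 2 ^ a * |X' - v'| ≤ 3 ^ (27000 * h) * (1 / 3 ^ (2253000 * h)) :=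
            mul_le_mul hA hd' (abs_nonneg _) (by positivity)
        _ ≤ 1 / 3 := by
            rw [mul_one_div, div_le_div_iff₀ (by positivity) (by norm_num), one_mul]
            calc (3 : ℝ) ^ (27000 * h) * 3 = 3 ^ (27000 * h + 1) := (pow_succ _ _).symm
              _ ≤ 3 ^ (2253000 * h) := P (by omega)
    have e4 := abs_sub ((w' : ℝ) * 3 ^ b * (X - v)) ((w : ℝ) * 2 ^ a * (X' - v'))
    linarith
  have hint : w * 2 ^ a * v' = w' * 3 ^ b * v := by
    have h1 : |((w * 2 ^ a * v' : ℕ) : ℤ) - ((w' * 3 ^ b * v : ℕ) : ℤ)| < 1 := by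
      have h2 : (|((w * 2 ^ a * v' : ℕ) : ℤ) - ((w' * 3 ^ b * v : ℕ) : ℤ)| : ℝ) < 1 := by
        push_cast
        exact hsmall
      exact_mod_cast h2
    have h3 := Int.abs_lt_one_iff.1 h1
    omega
  have hdvd : 3 ^ b ∣ w * v' := by
    have h1 : 3 ^ b ∣ 2 ^ a * (w * v') := by
      refine ⟨w' * v, ?_⟩
      calc 2 ^ a * (w * v') = w * 2 ^ a * v' := by ring
        _ = w' * 3 ^ b * v := hint
        _ = 3 ^ b * (w' * v) := by ring
    exact (Nat.Coprime.pow b a (by norm_num : Nat.Coprime 3 2)).dvd_of_dvd_mul_left h1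
  have hle : 3 ^ b ≤ w * v' := Nat.le_of_dvd (Nat.mul_pos hw1 hv') hdvd
  have hv2 : v' ≤ 3 ^ (2348 * h) := by
    have h1 : X' ≤ 3 ^ (2347 * h) := by
      rw [hXd', div_le_iff₀ (by positivity)]
      have h2 : w' * 3 ^ (i + b) ≤ 3 ^ (2347 * h) * 2 ^ (k + a) := by
        calc w' * 3 ^ (i + b) ≤ 3 ^ (94 * h) * 3 ^ (j' + 2253 * h) :=
              Nat.mul_le_mul hwle' (Nat.pow_le_pow_right (by norm_num) (by omega))
          _ = 3 ^ (2347 * h) * 3 ^ j' := by rw [← pow_add, ← pow_add]; congr 1; ring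
          _ ≤ 3 ^ (2347 * h) * 2 ^ (k + a) := Nat.mul_le_mul_left _ hk'
      exact_mod_cast h2
    have h2 := (abs_le.1 hd').1
    have h3 : 1 / (3 : ℝ) ^ (2253000 * h) ≤ 1 := by
      rw [div_le_one (by positivity)]
      exact one_le_pow₀ (by norm_num)
    have h4 : (v' : ℝ) ≤ 3 ^ (2347 * h) + 1 := by linarith
    have h5 : v' ≤ 3 ^ (2347 * h) + 1 := by exact_mod_cast h4
    have h6 : 3 ^ (2348 * h) = 3 ^ (2347 * h) * 3 ^ h := by rw [← pow_add]; congr 1; ring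
    have h7 : 1 ≤ 3 ^ (2347 * h) := Nat.one_le_pow _ _ (by norm_num)
    rw [h6]
    calc v' ≤ 3 ^ (2347 * h) + 1 := h5
      _ ≤ 3 ^ (2347 * h) * 3 := by omega
      _ ≤ 3 ^ (2347 * h) * 3 ^ h := Nat.mul_le_mul_left _ h3h
  have hfin : w * v' < 3 ^ b := by
    calc w * v' ≤ 3 ^ (94 * h) * 3 ^ (2348 * h) := Nat.mul_le_mul hwle hv2
      _ = 3 ^ (94 * h + 2348 * h) := (pow_add _ _ _).symm
      _ < 3 ^ b := Nat.pow_lt_pow_right (by norm_num) (by omega)
  omega

end NCp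

theorem claimNC : ClaimNC := by
  intro L1
  rcases NCp.main (L1 + 1) (by omega) with h | h
  · exact ⟨22500000 * (L1 + 1), by omega, h⟩
  · exact ⟨22530000 * (L1 + 1), by omega, h⟩

end Pool.Agent.Work.MP_8e4d29_nt

end

section

set_option autoImplicit false

/-!
MP_8e4d29_nt, N4: sum of `(n + c)^{it}` for small `t`.
-/

namespace Pool.Agent.Work.MP_8e4d29_nt

open Finset
open Pool.Agent.Work.MP_122e00_nt (ee norm_ee ee_add ee_neg)

namespace NSaux

/-- `log (x + 1) - log x` -/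
theorem dif_bounds {x : ℝ} (hx : 0 < x) :
    1 / (x + 1) ≤ Real.log (x + 1) - Real.log x ∧ Real.log (x + 1) - Real.log x ≤ 1 / x := by
  have h1 : Real.log (x + 1) - Real.log x = Real.log ((x + 1) / x) := by
    rw [Real.log_div (by positivity) hx.ne']
  rw [h1]
  constructor
  · have h2 := Real.one_sub_inv_le_log_of_pos (x := (x + 1) / x) (by positivity)
    have h3 : 1 - ((x + 1) / x)⁻¹ = 1 / (x + 1) := by
      field_simp
      ring
    rwa [h3] at h2
  · have h2 := Real.log_le_sub_one_of_pos (x := (x + 1) / x) (by positivity)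
    have h3 : (x + 1) / x - 1 = 1 / x := by
      field_simp
      ring
    rwa [h3] at h2

theorem dif_anti {x : ℝ} (hx : 0 < x) :
    Real.log (x + 2) - Real.log (x + 1) ≤ Real.log (x + 1) - Real.log x := by
  have h1 : Real.log (x + 2) + Real.log x ≤ Real.log (x + 1) + Real.log (x + 1) := by
    rw [← Real.log_mul (by positivity) hx.ne', ← Real.log_mul (by positivity) (by positivity)]
    apply Real.log_le_log (by positivity)
    nlinarith
  linarith

end NSaux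

open NSaux in
theorem claimNsum (h : ClaimKL) : ClaimNsum := by
  obtain ⟨C, hC⟩ := h
  have pos : ∀ (a b : ℕ) (c t : ℝ), 1 ≤ a → 0 ≤ c → c ≤ 1 → 0 < t → t ≤ (a : ℝ) / 4 →
      ‖∑ y ∈ Ico a b, ee (t * Real.log ((y : ℝ) + c))‖ ≤ max C 0 * ((b : ℝ) + 1) / t := by
    intro a b c t ha hc hc1 ht hta
    rcases le_or_gt b a with hba | hab
    · rw [Finset.Ico_eq_empty (by omega), Finset.sum_empty, norm_zero]
      have : 0 ≤ max C 0 := le_max_right _ _
      positivity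
    · have ha0 : (1 : ℝ) ≤ a := by exact_mod_cast ha
      have hab' : (a : ℝ) + 1 ≤ b := by exact_mod_cast hab
      have hlam : 0 < t / ((b : ℝ) + 1) := by positivity
      have hlam2 : t / ((b : ℝ) + 1) ≤ 1 / 2 := by
        rw [div_le_iff₀ (by positivity)]
        linarith
      have key := hC (fun y => t * Real.log ((y : ℝ) + c)) a b (t / ((b : ℝ) + 1)) hlam hlam2
        ?_ ?_
      · refine key.trans ?_
        rw [div_div_eq_mul_div]
        have : C ≤ max C 0 := le_max_left _ _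
        gcongr
      · intro n han hnb
        have hn0 : (a : ℝ) ≤ n := by exact_mod_cast han
        have hnb' : (n : ℝ) + 1 < b := by exact_mod_cast hnb
        have hx : 0 < (n : ℝ) + c := by linarith
        obtain ⟨d1, d2⟩ := dif_bounds hx
        have e1 : ((n + 1 : ℕ) : ℝ) + c = (n : ℝ) + c + 1 := by
          push_cast
          ring
        simp only [e1]
        rw [← mul_sub]
        constructor
        · calc t / ((b : ℝ) + 1) = t * (1 / ((b : ℝ) + 1)) := by ring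
            _ ≤ t * (1 / ((n : ℝ) + c + 1)) := by
              gcongr
              linarith
            _ ≤ _ := by gcongr
        · calc t * (Real.log ((n : ℝ) + c + 1) - Real.log ((n : ℝ) + c))
              ≤ t * (1 / ((n : ℝ) + c)) := by gcongr
            _ ≤ (a : ℝ) / 4 * (1 / a) := by
              gcongr
              linarith
            _ ≤ 1 / 2 := by
              have : (a : ℝ) / 4 * (1 / a) = 1 / 4 := by
                field_simp
              rw [this]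
              norm_num
      · intro n han _
        have hn0 : (a : ℝ) ≤ n := by exact_mod_cast han
        have hx : 0 < (n : ℝ) + c := by linarith
        have d := dif_anti hx
        have e1 : ((n + 1 : ℕ) : ℝ) + c = (n : ℝ) + c + 1 := by
          push_cast
          ring
        have e2 : ((n + 2 : ℕ) : ℝ) + c = (n : ℝ) + c + 2 := by
          push_cast
          ring
        simp only [e1, e2]
        rw [← mul_sub, ← mul_sub]
        gcongr
  refine ⟨max C 0, ?_⟩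
  intro a b c t ha hc hc1 ht hta
  rcases lt_or_gt_of_ne (abs_pos.mp ht) with hneg | hpos
  · rw [abs_of_neg hneg] at hta ⊢
    have h1 := pos a b c (-t) ha hc hc1 (by linarith) hta
    have h2 : ∑ y ∈ Ico a b, ee (-t * Real.log ((y : ℝ) + c)) =
        (starRingEnd ℂ) (∑ y ∈ Ico a b, ee (t * Real.log ((y : ℝ) + c))) := by
      rw [map_sum]
      refine Finset.sum_congr rfl fun y _ => ?_
      rw [neg_mul, ee_neg]
    rwa [h2, RCLike.norm_conj] at h1
  · rw [abs_of_pos hpos] at hta ⊢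
    exact pos a b c t ha hc hc1 hpos hta

end Pool.Agent.Work.MP_8e4d29_nt

end

section

/-!
D0: the facts about the parameters.
-/

namespace Pool.Agent.Work.MP_8e4d29_nt

namespace ParFacts

lemma RR_big {g : ℕ} (hg : 2 ≤ g) : 2 ^ 20 ≤ RR g := by
  unfold RR
  exact Nat.pow_le_pow_right (by norm_num) (by omega)

lemma RR_g {g : ℕ} (hg : 2 ≤ g) : 1000 * g ≤ RR g := by
  unfold RR
  have h1 : g < 2 ^ g := Nat.lt_two_pow_self
  have h2 : 2 ^ (10 * g) = 2 ^ (9 * g) * 2 ^ g := by rw [← pow_add]; congr 1; omega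
  have h3 : 2 ^ 18 ≤ 2 ^ (9 * g) := Nat.pow_le_pow_right (by norm_num) (by omega)
  rw [h2]
  calc 1000 * g ≤ 2 ^ 18 * g := by omega
    _ ≤ 2 ^ (9 * g) * 2 ^ g := Nat.mul_le_mul h3 h1.le

lemma div_half {x d : ℕ} (hd : 0 < d) (h : 1 ≤ x / d) : x < 2 * (x / d) * d := by
  have h1 : x < x / d * d + d := Nat.lt_div_mul_add hd
  have h2 : d ≤ x / d * d := Nat.le_mul_of_pos_left d h
  calc x < x / d * d + d := h1
    _ ≤ x / d * d + x / d * d := by omega
    _ = 2 * (x / d) * d := by ring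

lemma log_nat {x n : ℕ} (hx : 0 < x) (h : x ≤ 2 ^ n) : Real.log (x : ℝ) ≤ 0.7 * n := by
  have h1 : Real.log (x : ℝ) ≤ Real.log ((2 : ℝ) ^ n) := by
    apply Real.log_le_log (by exact_mod_cast hx)
    exact_mod_cast h
  rw [Real.log_pow] at h1
  have h2 := Real.log_two_lt_d9
  have h3 : (0 : ℝ) ≤ n := by positivity
  nlinarith

end ParFacts

open ParFacts in
theorem claimParF : ClaimParF := by
  intro N A H M P g a hp
  obtain ⟨hg, ha, hP, hPM, hMP, hMP', hA, hAH, big, gap, mid, hlog, hdiv⟩ := hp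
  have fR := RR_big hg
  have hRg := RR_g hg
  have hRdef : RR g = 2 ^ (10 * g) := rfl
  obtain ⟨R, hR⟩ : ∃ R, R = RR g := ⟨_, rfl⟩
  rw [← hR] at big gap mid hlog hdiv fR hRg hRdef
  have hRpos : 0 < R := by omega
  have hR1 : 1 ≤ R := hRpos
  have ha5 : 5 ≤ a := by omega
  have ha12 : a ≤ 12 := by omega
  have hRa : R ^ a ≤ R ^ 12 := Nat.pow_le_pow_right hRpos ha12
  have hRap : 0 < R ^ a := pow_pos hRpos a
  have hM : 1 ≤ M := hP.trans hPM
  have hMPpos : 0 < M * P := Nat.mul_pos hM hP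
  have hN : 0 < N := by omega
  have hHP : 0 < H * P := lt_of_lt_of_le (Nat.mul_pos (pow_pos hRpos 100) hN) big
  have hH : 0 < H := Nat.pos_of_mul_pos_right hHP
  have fP : R ^ 200 ≤ P := by
    refine Nat.le_of_mul_le_mul_right (c := H) ?_ hH
    calc R ^ 200 * H = R ^ 100 * (R ^ 100 * H) := by ring
      _ ≤ R ^ 100 * N := Nat.mul_le_mul_left _ gap
      _ ≤ H * P := big
      _ = P * H := by ring
  have fPP : P * P ≤ 4 * N := (Nat.mul_le_mul_right P hPM).trans hMP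
  have fkey : N * P * R ^ 100 ≤ 2 * (H * H) := by
    rw [← Nat.pow_le_pow_iff_left (n := 2) (by norm_num)]
    calc (N * P * R ^ 100) ^ 2 = (N ^ 2 * R ^ 200) * (P * P) := by ring
      _ ≤ (N ^ 2 * R ^ 200) * (4 * N) := Nat.mul_le_mul_left _ fPP
      _ = 4 * (N ^ 3 * R ^ 200) := by ring
      _ ≤ 4 * H ^ 4 := Nat.mul_le_mul_left _ mid
      _ = (2 * (H * H)) ^ 2 := by ring
  have fM : M * R ^ 100 ≤ 4 * H := by
    refine Nat.le_of_mul_le_mul_right (c := P) ?_ hP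
    calc M * R ^ 100 * P = (M * P) * R ^ 100 := by ring
      _ ≤ (4 * N) * R ^ 100 := Nat.mul_le_mul_right _ hMP
      _ = 4 * (R ^ 100 * N) := by ring
      _ ≤ 4 * (H * P) := Nat.mul_le_mul_left _ big
      _ = 4 * H * P := by ring
  have fPH : P * R ^ 200 ≤ 2 * H := by
    refine Nat.le_of_mul_le_mul_right (c := H) ?_ hH
    calc P * R ^ 200 * H = (R ^ 100 * H) * (P * R ^ 100) := by ring
      _ ≤ N * (P * R ^ 100) := Nat.mul_le_mul_right _ gap
      _ = N * P * R ^ 100 := by ring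
      _ ≤ 2 * (H * H) := fkey
      _ = 2 * H * H := by ring
  have hPleH : P ≤ H := by
    have h1 : 2 ≤ R ^ 200 := by
      calc 2 ≤ R := by omega
        _ = R ^ 1 := (pow_one R).symm
        _ ≤ R ^ 200 := Nat.pow_le_pow_right hRpos (by norm_num)
    have h2 : P * 2 ≤ P * R ^ 200 := Nat.mul_le_mul_left _ h1
    omega
  obtain ⟨L, hL⟩ : ∃ L, L = Lm H P := ⟨_, rfl⟩
  have hL' : L = H / P + 1 := hL
  have fLm1 : H ≤ P * L := by
    rw [hL']
    exact (Nat.lt_mul_div_succ H hP).le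
  have fLm2 : P * L ≤ 2 * H := by
    rw [hL', Nat.mul_add, mul_one]
    have := Nat.mul_div_le H P
    omega
  have hLbig : R ^ 199 ≤ L := by
    have h1 : P * R ^ 200 ≤ P * (2 * L) := by
      calc P * R ^ 200 ≤ 2 * H := fPH
        _ ≤ 2 * (P * L) := Nat.mul_le_mul_left _ fLm1
        _ = P * (2 * L) := by ring
    have h2 : R ^ 200 ≤ 2 * L := Nat.le_of_mul_le_mul_left h1 hP
    have h3 : 2 * R ^ 199 ≤ R ^ 200 := by
      calc 2 * R ^ 199 ≤ R * R ^ 199 := Nat.mul_le_mul_right _ (by omega)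
        _ = R ^ 200 := by ring
    omega
  have hL32 : L ≤ 32 * M := by
    refine Nat.le_of_mul_le_mul_left (c := P) ?_ hP
    calc P * L ≤ 2 * H := fLm2
      _ ≤ 8 * N := by omega
      _ ≤ 8 * (4 * (M * P)) := Nat.mul_le_mul_left _ hMP'
      _ = P * (32 * M) := by ring
  have hpw : ∀ n, n ≤ 199 → R ^ n ≤ L := fun n hn =>
    (Nat.pow_le_pow_right hRpos hn).trans hLbig
  -- kap and kap3
  obtain ⟨D, hD⟩ : ∃ D, D = L / R ^ 6 := ⟨_, rfl⟩
  have hD1 : 1 ≤ D := by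
    rw [hD]
    exact Nat.div_pos (hpw 6 (by norm_num)) (pow_pos hRpos 6)
  have hDL : R ^ 6 * D ≤ L := by
    rw [hD]
    exact Nat.mul_div_le _ _
  have hLD : L < R ^ 6 * (D + 1) := by
    rw [hD]
    exact Nat.lt_mul_div_succ _ (pow_pos hRpos 6)
  obtain ⟨kp, hkp⟩ : ∃ k, k = kap H P g := ⟨_, rfl⟩
  have hkp' : kp = Nat.log 2 D := by rw [hkp, kap, ← hR, ← hL, hD]
  obtain ⟨kp3, hkp3⟩ : ∃ k, k = kap3 H P g := ⟨_, rfl⟩
  have hkp3' : kp3 = Nat.log 3 D := by rw [hkp3, kap3, ← hR, ← hL, hD]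
  have h2kp : 2 ^ kp ≤ D := by rw [hkp']; exact Nat.pow_log_le_self 2 (by omega)
  have h2kp' : D + 1 ≤ 2 * 2 ^ kp := by
    have : D < 2 ^ (kp + 1) := by rw [hkp']; exact Nat.lt_pow_succ_log_self (by norm_num) _
    rw [pow_succ] at this
    omega
  have h3kp : 3 ^ kp3 ≤ D := by rw [hkp3']; exact Nat.pow_log_le_self 3 (by omega)
  have h3kp' : D + 1 ≤ 3 * 3 ^ kp3 := by
    have : D < 3 ^ (kp3 + 1) := by rw [hkp3']; exact Nat.lt_pow_succ_log_self (by norm_num) _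
    rw [pow_succ] at this
    omega
  have fkap1 : R ^ 6 * 2 ^ kp ≤ L := (Nat.mul_le_mul_left _ h2kp).trans hDL
  have fkap31 : R ^ 6 * 3 ^ kp3 ≤ L := (Nat.mul_le_mul_left _ h3kp).trans hDL
  have fkap2 : L < 2 * 2 ^ kp * R ^ 6 := by
    calc L < R ^ 6 * (D + 1) := hLD
      _ ≤ R ^ 6 * (2 * 2 ^ kp) := Nat.mul_le_mul_left _ h2kp'
      _ = _ := by ring
  have fkap32 : L < 3 * 3 ^ kp3 * R ^ 6 := by
    calc L < R ^ 6 * (D + 1) := hLD
      _ ≤ R ^ 6 * (3 * 3 ^ kp3) := Nat.mul_le_mul_left _ h3kp'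
      _ = _ := by ring
  have h6 : 1 ≤ R ^ 6 := Nat.one_le_pow _ _ hRpos
  have h2kL : 2 ^ kp ≤ L := by
    calc 2 ^ kp = 1 * 2 ^ kp := (one_mul _).symm
      _ ≤ R ^ 6 * 2 ^ kp := Nat.mul_le_mul_right _ h6
      _ ≤ L := fkap1
  have h3kL : 3 ^ kp3 ≤ L := by
    calc 3 ^ kp3 = 1 * 3 ^ kp3 := (one_mul _).symm
      _ ≤ R ^ 6 * 3 ^ kp3 := Nat.mul_le_mul_right _ h6
      _ ≤ L := fkap31
  -- ell and lam3
  obtain ⟨Y, hY⟩ : ∃ Y, Y = 8 * M * R ^ a * R := ⟨_, rfl⟩
  have hYpos : 0 < Y := by rw [hY]; positivity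
  obtain ⟨l, hl⟩ : ∃ l, l = ell M g a := ⟨_, rfl⟩
  have hl' : l = Nat.log 2 Y / 5 + 1 := by rw [hl, ell, ← hR, hY]
  obtain ⟨m3, hm3⟩ : ∃ l, l = lam3 M g a := ⟨_, rfl⟩
  have hm3' : m3 = Nat.log 3 Y + 1 := by rw [hm3, lam3, ← hR, hY]
  have fell1 : Y < 2 ^ (5 * l) := by
    calc Y < 2 ^ (Nat.log 2 Y + 1) := Nat.lt_pow_succ_log_self (by norm_num) _
      _ ≤ 2 ^ (5 * l) := Nat.pow_le_pow_right (by norm_num) (by omega)
  have fell2 : 2 ^ (5 * l) ≤ 32 * Y := by
    calc 2 ^ (5 * l) ≤ 2 ^ (Nat.log 2 Y + 5) := Nat.pow_le_pow_right (by norm_num) (by omega)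
      _ = 32 * 2 ^ (Nat.log 2 Y) := by rw [pow_add]; ring
      _ ≤ 32 * Y := Nat.mul_le_mul_left _ (Nat.pow_log_le_self 2 hYpos.ne')
  have flam1 : Y < 3 ^ m3 := by
    rw [hm3']
    exact Nat.lt_pow_succ_log_self (by norm_num) _
  have flam2 : 3 ^ m3 ≤ 3 * Y := by
    rw [hm3', pow_succ, mul_comm]
    exact Nat.mul_le_mul_left _ (Nat.pow_log_le_self 3 hYpos.ne')
  have h32Y : 32 * M ≤ Y := by
    rw [hY]
    calc 32 * M = 8 * M * 1 * 4 := by ring
      _ ≤ 8 * M * R ^ a * R := by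
          refine Nat.mul_le_mul (Nat.mul_le_mul_left _ hRap) (by omega)
  have fkl : kp < 5 * l := by
    rw [← Nat.pow_lt_pow_iff_right (a := 2) (by norm_num)]
    omega
  have fk3 : kp3 < m3 := by
    rw [← Nat.pow_lt_pow_iff_right (a := 3) (by norm_num)]
    omega
  -- i0
  obtain ⟨Q, hQ⟩ : ∃ Q, Q = N / P := ⟨_, rfl⟩
  have hPN : P ≤ N := by
    have h1 : 4 ≤ P := by
      calc 4 ≤ R := by omega
        _ = R ^ 1 := (pow_one R).symm
        _ ≤ R ^ 200 := Nat.pow_le_pow_right hRpos (by norm_num)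
        _ ≤ P := fP
    have h2 : 4 * P ≤ P * P := Nat.mul_le_mul_right _ h1
    omega
  have hQ1 : 1 ≤ Q := by rw [hQ]; exact Nat.div_pos hPN hP
  have hQN : Q * P ≤ N := by rw [hQ]; exact Nat.div_mul_le_self _ _
  have hNQ : N ≤ 2 * Q * P := by rw [hQ] at hQ1 ⊢; exact (div_half hP hQ1).le
  obtain ⟨Z, hZ⟩ : ∃ Z, Z = Q * R ^ a / R ^ 3 := ⟨_, rfl⟩
  have hdvd : R ^ 3 ∣ Q * R ^ a := Dvd.dvd.mul_left (pow_dvd_pow R (by omega)) _
  have hZR : Z * R ^ 3 = Q * R ^ a := by rw [hZ]; exact Nat.div_mul_cancel hdvd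
  have hZpos : 0 < Z := by
    rcases Nat.eq_zero_or_pos Z with h | h
    · rw [h, zero_mul] at hZR
      have : 0 < Q * R ^ a := Nat.mul_pos hQ1 hRap
      omega
    · exact h
  obtain ⟨i, hi⟩ : ∃ i, i = i0 N P g a := ⟨_, rfl⟩
  have hi' : i = Nat.log 2 Z / 5 := by rw [hi, i0, ← hR, hZ, hQ]
  have h2i : 2 ^ (5 * i) ≤ Z := by
    calc 2 ^ (5 * i) ≤ 2 ^ (Nat.log 2 Z) := Nat.pow_le_pow_right (by norm_num) (by omega)
      _ ≤ Z := Nat.pow_log_le_self 2 hZpos.ne'
  have h2i' : Z ≤ 32 * 2 ^ (5 * i) := by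
    calc Z ≤ 2 ^ (Nat.log 2 Z + 1) := (Nat.lt_pow_succ_log_self (by norm_num) _).le
      _ ≤ 2 ^ (5 * i + 5) := Nat.pow_le_pow_right (by norm_num) (by omega)
      _ = 32 * 2 ^ (5 * i) := by rw [pow_add]; ring
  have fi01 : 2 ^ (5 * i) * R ^ 3 * P ≤ N * R ^ a := by
    calc 2 ^ (5 * i) * R ^ 3 * P ≤ Z * R ^ 3 * P :=
          Nat.mul_le_mul_right _ (Nat.mul_le_mul_right _ h2i)
      _ = Q * P * R ^ a := by rw [hZR]; ring
      _ ≤ N * R ^ a := Nat.mul_le_mul_right _ hQN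
  have fi02 : N * R ^ a ≤ 64 * 2 ^ (5 * i) * R ^ 3 * P := by
    calc N * R ^ a ≤ 2 * Q * P * R ^ a := Nat.mul_le_mul_right _ hNQ
      _ = 2 * P * (Q * R ^ a) := by ring
      _ = 2 * P * (Z * R ^ 3) := by rw [hZR]
      _ ≤ 2 * P * (32 * 2 ^ (5 * i) * R ^ 3) :=
          Nat.mul_le_mul_left _ (Nat.mul_le_mul_right _ h2i')
      _ = _ := by ring
  have fLmR : L * R ^ a * R ^ 90 ≤ 2 ^ (5 * i) := by
    refine Nat.le_of_mul_le_mul_right (c := 64 * R ^ 3 * P) ?_ (by positivity)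
    calc L * R ^ a * R ^ 90 * (64 * R ^ 3 * P) = 64 * R ^ 93 * R ^ a * (P * L) := by ring
      _ ≤ 64 * R ^ 93 * R ^ a * (2 * H) := Nat.mul_le_mul_left _ fLm2
      _ = 128 * (R ^ 93 * R ^ a * H) := by ring
      _ ≤ R ^ 7 * (R ^ 93 * R ^ a * H) := by
          refine Nat.mul_le_mul_right _ ?_
          calc 128 ≤ R := by omega
            _ = R ^ 1 := (pow_one R).symm
            _ ≤ R ^ 7 := Nat.pow_le_pow_right hRpos (by norm_num)
      _ = (R ^ 100 * H) * R ^ a := by ring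
      _ ≤ N * R ^ a := Nat.mul_le_mul_right _ gap
      _ ≤ 64 * 2 ^ (5 * i) * R ^ 3 * P := fi02
      _ = 2 ^ (5 * i) * (64 * R ^ 3 * P) := by ring
  have fki : kp ≤ 5 * i := by
    rw [← Nat.pow_le_pow_iff_right (a := 2) (by norm_num)]
    calc 2 ^ kp ≤ L := h2kL
      _ = L * 1 * 1 := by ring
      _ ≤ L * R ^ a * R ^ 90 :=
          Nat.mul_le_mul (Nat.mul_le_mul_left _ hRap) (Nat.one_le_pow _ _ hRpos)
      _ ≤ _ := fLmR
  have h2iR : 2 ^ (5 * (i + 2 * g)) < 2 ^ (5 * l) := by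
    have h1 : 2 ^ (5 * (i + 2 * g)) = 2 ^ (5 * i) * R := by
      rw [hRdef, ← pow_add]
      congr 1
      ring
    have h2 : 2 ^ (5 * i) * R ^ 3 ≤ 4 * M * R ^ a := by
      refine Nat.le_of_mul_le_mul_right (c := P) ?_ hP
      calc 2 ^ (5 * i) * R ^ 3 * P ≤ N * R ^ a := fi01
        _ ≤ 4 * (M * P) * R ^ a := Nat.mul_le_mul_right _ hMP'
        _ = 4 * M * R ^ a * P := by ring
    rw [h1]
    calc 2 ^ (5 * i) * R = 2 ^ (5 * i) * R ^ 1 := by rw [pow_one]
      _ ≤ 2 ^ (5 * i) * R ^ 3 :=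
          Nat.mul_le_mul_left _ (Nat.pow_le_pow_right hRpos (by norm_num))
      _ ≤ 4 * M * R ^ a := h2
      _ ≤ Y := by
          rw [hY]
          calc 4 * M * R ^ a = 4 * M * R ^ a * 1 := by ring
            _ ≤ 8 * M * R ^ a * R :=
                Nat.mul_le_mul (Nat.mul_le_mul_right _ (Nat.mul_le_mul_right _ (by norm_num))) hR1
      _ < _ := fell1
  have fil : i + 2 * g < l := by
    have := (Nat.pow_lt_pow_iff_right (a := 2) (by norm_num)).1 h2iR
    omega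
  -- L2
  obtain ⟨l2, hl2⟩ : ∃ l, l = L2 H P g a := ⟨_, rfl⟩
  have hl2' : l2 = L / (R ^ 8 * R ^ a) := by rw [hl2, L2, ← hR, ← hL]
  have h8a : 0 < R ^ 8 * R ^ a := by positivity
  have fL2 : 1 ≤ l2 := by
    rw [hl2']
    refine Nat.div_pos ?_ h8a
    calc R ^ 8 * R ^ a ≤ R ^ 8 * R ^ 12 := Nat.mul_le_mul_left _ hRa
      _ = R ^ 20 := by ring
      _ ≤ L := hpw 20 (by norm_num)
  have fL21 : l2 * R ^ 8 * R ^ a ≤ L := by
    rw [hl2', mul_assoc]
    exact Nat.div_mul_le_self _ _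
  have fL22 : L < 2 * l2 * R ^ 8 * R ^ a := by
    have := div_half (x := L) h8a (by rw [← hl2']; exact fL2)
    rw [← hl2'] at this
    rw [mul_assoc (2 * l2)]
    exact this
  -- eta
  obtain ⟨e, he⟩ : ∃ e, e = eta H P g := ⟨_, rfl⟩
  have he' : e = 3 ^ kp3 / R := by rw [he, eta, ← hR, ← hkp3]
  have hR3k : R ≤ 3 ^ kp3 := by
    by_contra hcon
    push Not at hcon
    have h1 : L < R ^ 8 := by
      calc L < 3 * 3 ^ kp3 * R ^ 6 := fkap32
        _ ≤ R * R * R ^ 6 := by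
            refine Nat.mul_le_mul_right _ (Nat.mul_le_mul (by omega) hcon.le)
        _ = R ^ 8 := by ring
    have h2 := hpw 8 (by norm_num)
    omega
  have feta : 1 ≤ e := by rw [he']; exact Nat.div_pos hR3k hRpos
  have feta1 : e * R ≤ 3 ^ kp3 := by rw [he']; exact Nat.div_mul_le_self _ _
  have feta2 : 3 ^ kp3 < 2 * e * R := by
    rw [he'] at feta ⊢
    exact div_half hRpos feta
  -- Lp
  obtain ⟨lp, hlp⟩ : ∃ l, l = Lp H P g a := ⟨_, rfl⟩
  have hlp' : lp = 2 ^ kp / (R * R ^ a) := by rw [hlp, Lp, ← hR, ← hkp]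
  have h192 : R ^ 192 ≤ 2 ^ kp := by
    by_contra hcon
    push Not at hcon
    have h1 : L < R ^ 199 := by
      calc L < 2 * 2 ^ kp * R ^ 6 := fkap2
        _ ≤ R * R ^ 192 * R ^ 6 := by
            refine Nat.mul_le_mul_right _ (Nat.mul_le_mul (by omega) hcon.le)
        _ = R ^ 199 := by ring
    omega
  have hkpbig : 10 * g * 192 ≤ kp := by
    have h1 : R ^ 192 = 2 ^ (10 * g * 192) := by rw [hRdef, ← pow_mul]
    rw [h1] at h192
    exact (Nat.pow_le_pow_iff_right (by norm_num)).1 h192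
  have hdv : R * (R * R ^ a) ∣ 2 ^ kp := by
    have h1 : R * (R * R ^ a) = 2 ^ (10 * g * (a + 2)) := by
      rw [pow_mul, ← hRdef]
      ring
    rw [h1]
    refine pow_dvd_pow 2 (le_trans ?_ hkpbig)
    exact Nat.mul_le_mul_left _ (by omega)
  have hdv1 : R * R ^ a ∣ 2 ^ kp := (Dvd.intro_left _ rfl).trans hdv
  have fLp : lp * (R * R ^ a) = 2 ^ kp := by rw [hlp']; exact Nat.div_mul_cancel hdv1
  have hRlp : R ∣ lp := by
    rw [hlp']
    exact Nat.dvd_div_of_mul_dvd (by rwa [mul_comm (R * R ^ a) R])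
  have hlppos : 0 < lp := by
    rcases Nat.eq_zero_or_pos lp with h | h
    · rw [h, zero_mul] at fLp
      have : 0 < 2 ^ kp := by positivity
      omega
    · exact h
  have fLp2 : lp / R * R = lp := Nat.div_mul_cancel hRlp
  have fLp3 : 1 ≤ lp / R := Nat.div_pos (Nat.le_of_dvd hlppos hRlp) hRpos
  -- Z3
  obtain ⟨z, hz⟩ : ∃ z, z = Z3 H M P g a := ⟨_, rfl⟩
  have hz' : z = 3 ^ m3 / (2 * e) := by rw [hz, Z3, ← hm3, ← he]
  have h2e : 2 * e ≤ 3 ^ m3 := by
    calc 2 * e ≤ R * e := Nat.mul_le_mul_right _ (by omega)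
      _ = e * R := by ring
      _ ≤ 3 ^ kp3 := feta1
      _ ≤ 3 ^ m3 := Nat.pow_le_pow_right (by norm_num) fk3.le
  have fZ : 1 ≤ z := by rw [hz']; exact Nat.div_pos h2e (by omega)
  have fZ1 : z * (2 * e) ≤ 3 ^ m3 := by rw [hz']; exact Nat.div_mul_le_self _ _
  have fZ2 : 3 ^ m3 < 4 * z * e := by
    have := div_half (x := 3 ^ m3) (d := 2 * e) (by omega) (by rw [← hz']; exact fZ)
    rw [← hz'] at this
    calc 3 ^ m3 < 2 * z * (2 * e) := this
      _ = 4 * z * e := by ring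
  -- L2 R
  have fL2R : l2 * R ^ a * R ≤ 3 ^ kp3 := by
    have h1 : (l2 * R ^ a * R * 3) * R ^ 6 ≤ (3 ^ kp3 * 3) * R ^ 6 := by
      calc (l2 * R ^ a * R * 3) * R ^ 6 ≤ (l2 * R ^ a * R * R) * R ^ 6 :=
            Nat.mul_le_mul_right _ (Nat.mul_le_mul_left _ (by omega))
        _ = l2 * R ^ 8 * R ^ a := by ring
        _ ≤ L := fL21
        _ ≤ 3 * 3 ^ kp3 * R ^ 6 := fkap32.le
        _ = _ := by ring
    have h2 := Nat.le_of_mul_le_mul_right h1 (pow_pos hRpos 6)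
    exact Nat.le_of_mul_le_mul_right h2 (by norm_num)
  have fRaP : R ^ a ≤ P :=
    hRa.trans ((Nat.pow_le_pow_right hRpos (by norm_num)).trans fP)
  -- logarithms
  have hN2 : N * R ^ 20 ≤ 2 ^ (Nat.log 2 N + 1 + 200 * g) := by
    have h1 : R ^ 20 = 2 ^ (200 * g) := by
      rw [hRdef, ← pow_mul]
      congr 1
      ring
    rw [h1, pow_add]
    exact Nat.mul_le_mul_right _ (Nat.lt_pow_succ_log_self (by norm_num) _).le
  have flog' : Real.log ((N * R ^ 20 : ℕ) : ℝ) ≤ R := by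
    have h1 := log_nat (x := N * R ^ 20) (by positivity) hN2
    refine h1.trans ?_
    have h2 : ((Nat.log 2 N : ℕ) : ℝ) + 10 ≤ R := by exact_mod_cast hlog
    have h3 : 1000 * (g : ℝ) ≤ R := by exact_mod_cast hRg
    push_cast
    linarith
  have flogN : ∀ x : ℕ, 0 < x → x ≤ N → Real.log (x : ℝ) ≤ R := by
    intro x hx hxN
    refine le_trans ?_ flog'
    apply Real.log_le_log (by exact_mod_cast hx)
    have : x ≤ N * R ^ 20 := hxN.trans (Nat.le_mul_of_pos_right _ (by positivity))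
    exact_mod_cast this
  have hYN : 32 * Y * R ^ 10 ≤ N := by
    refine Nat.le_of_mul_le_mul_right (c := P) ?_ hP
    calc 32 * Y * R ^ 10 * P = 256 * R ^ 11 * R ^ a * (M * P) := by rw [hY]; ring
      _ ≤ 256 * R ^ 11 * R ^ 12 * (4 * N) :=
          Nat.mul_le_mul (Nat.mul_le_mul_left _ hRa) hMP
      _ = 1024 * (R ^ 23 * N) := by ring
      _ ≤ R * (R ^ 23 * N) := Nat.mul_le_mul_right _ (by omega)
      _ = N * R ^ 24 := by ring
      _ ≤ N * R ^ 200 := Nat.mul_le_mul_left _ (Nat.pow_le_pow_right hRpos (by norm_num))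
      _ ≤ N * P := Nat.mul_le_mul_left _ fP
  have flogZ' : Real.log ((3 ^ m3 * R ^ 10 : ℕ) : ℝ) ≤ R := by
    refine flogN _ (by positivity) ?_
    calc 3 ^ m3 * R ^ 10 ≤ 32 * Y * R ^ 10 :=
          Nat.mul_le_mul_right _ (flam2.trans (Nat.mul_le_mul_right _ (by norm_num)))
      _ ≤ N := hYN
  have flogi' : Real.log ((2 ^ (5 * (i + 2 * g)) : ℕ) : ℝ) ≤ R := by
    refine flogN _ (by positivity) ?_
    calc 2 ^ (5 * (i + 2 * g)) ≤ 2 ^ (5 * l) := h2iR.le
      _ ≤ 32 * Y := fell2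
      _ = 32 * Y * 1 := by ring
      _ ≤ 32 * Y * R ^ 10 := Nat.mul_le_mul_left _ (Nat.one_le_pow _ _ hRpos)
      _ ≤ N := hYN
  subst hR
  subst hL
  subst hkp
  subst hkp3
  subst hl
  subst hm3
  subst hi
  subst hl2
  subst he
  subst hlp
  subst hz
  subst hY
  refine ⟨fR, fP, fPP, fkey, fM, fPH, fLm1, fLm2, fkap1, fkap2, fkap31, fkap32, fell1, ?_, flam1,
    ?_, fi01, fi02, fL21, fL22, fL2, feta1, feta2, feta, fLp, fLp2, fLp3, fZ1, fZ2, fZ, fki, fil,
    fk3, fkl, fLmR, fL2R, fRaP, ?_, ?_, ?_⟩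
  · refine fell2.trans (le_of_eq ?_)
    ring
  · refine flam2.trans (le_of_eq ?_)
    ring
  · have := flog'
    push_cast at this
    exact this
  · have := flogZ'
    push_cast at this
    exact this
  · have := flogi'
    push_cast at this
    exact this

end Pool.Agent.Work.MP_8e4d29_nt

end

section

/-! MP_8e4d29_nt, item P2: choice of the 120 free slots. -/

namespace Pool.Agent.Work.MP_8e4d29_nt

open Finset

namespace SrcsAux

/-- the facts on the parameters which are used -/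
structure Fa (L q : ℕ) : Prop where
  hq : q = L / 240000
  hq1 : 1 ≤ q
  hW : pW L = 3 ^ q
  hK : 2 ^ pK L ≤ 3 ^ L
  hKk : pK L < 2 ^ (pk L + 1)
  hP : 4 * pK L ^ 10 ≤ 3 ^ q
  hK2 : 2 ≤ pK L
  hj1 : 77 * L ≤ 100 * pj0 L
  hj2 : 100 * pj0 L ≤ 79 * L
  hk0 : 3 ^ pj0 L < 2 ^ pk0 L

theorem poly_exp : ∃ q0 : ℕ, ∀ q : ℕ, q0 ≤ q → 4 * (480000 * (q + 1)) ^ 10 ≤ 3 ^ q := by
  have h := tendsto_pow_const_div_const_pow_of_one_lt 10 (r := (3 : ℝ)) (by norm_num)
  have h1 : ∀ᶠ n : ℕ in Filter.atTop, (n : ℝ) ^ 10 / 3 ^ n < 1 / (12 * 480000 ^ 10) :=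
    h.eventually (gt_mem_nhds (by positivity))
  obtain ⟨n0, hn0⟩ := Filter.eventually_atTop.1 h1
  refine ⟨n0, fun q hq => ?_⟩
  have h2 := hn0 (q + 1) (by omega)
  have h3 : (0 : ℝ) < 3 ^ (q + 1) := by positivity
  rw [div_lt_iff₀ h3] at h2
  have h4 : ((4 * (480000 * (q + 1)) ^ 10 : ℕ) : ℝ) ≤ ((3 ^ q : ℕ) : ℝ) := by
    push_cast
    push_cast at h2
    rw [mul_pow]
    have e : (3 : ℝ) ^ (q + 1) = 3 * 3 ^ q := by rw [pow_succ]; ring
    rw [e] at h2
    have h5 : (0 : ℝ) < 480000 ^ 10 := by positivity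
    have h6 : 1 / (12 * 480000 ^ 10) * (3 * (3 : ℝ) ^ q) = 3 ^ q / (4 * 480000 ^ 10) := by
      field_simp
      norm_num
    rw [h6, lt_div_iff₀ (by positivity)] at h2
    nlinarith
  exact_mod_cast h4

theorem fa_of (L q0 : ℕ) (hq0 : ∀ q : ℕ, q0 ≤ q → 4 * (480000 * (q + 1)) ^ 10 ≤ 3 ^ q)
    (hL : 240000 * (q0 + 1) ≤ L) (h : SizF L) : Fa L (L / 240000) := by
  have hK : 2 ^ pK L ≤ 3 ^ L := h.z3
  have hj : ∀ (c : ℕ), ((3 ^ L : ℕ) : ℝ) ^ ((c : ℝ) / 100) = ((3 : ℝ) ^ (c * L)) ^ ((1 : ℝ) / 100) := by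
    intro c
    have h3 : (0 : ℝ) ≤ 3 := by norm_num
    push_cast
    rw [← Real.rpow_natCast, ← Real.rpow_natCast, ← Real.rpow_mul h3, ← Real.rpow_mul h3]
    congr 1
    push_cast
    ring
  have hp : ∀ x : ℝ, 0 ≤ x → (x ^ ((1 : ℝ) / 100)) ^ 100 = x := by
    intro x hx
    rw [← Real.rpow_natCast, ← Real.rpow_mul hx]
    norm_num
  refine ⟨rfl, ?_, ?_, hK, ?_, ?_, ?_, ?_, ?_, ?_⟩
  · rw [Nat.le_div_iff_mul_le (by norm_num)]
    omega
  · unfold pW pg0
    rw [Nat.div_div_eq_div_mul]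
  · unfold pk
    exact Nat.lt_pow_succ_log_self (by norm_num) _
  · have hq : q0 ≤ L / 240000 := by
      rw [Nat.le_div_iff_mul_le (by norm_num)]
      omega
    refine le_trans ?_ (hq0 _ hq)
    have hK2L : pK L ≤ 2 * L := by
      have : 2 ^ pK L ≤ 2 ^ (2 * L) := by
        rw [pow_mul]
        exact hK.trans (Nat.pow_le_pow_left (by norm_num) L)
      exact (Nat.pow_le_pow_iff_right (by norm_num)).1 this
    have : pK L ≤ 480000 * (L / 240000 + 1) := by omega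
    exact Nat.mul_le_mul_left 4 (Nat.pow_le_pow_left this 10)
  · have := h.z1
    omega
  · have h4 := h.z4
    have e := hj 77
    push_cast at e h4
    rw [e] at h4
    have h5 : (((3 : ℝ) ^ (77 * L)) ^ ((1 : ℝ) / 100)) ^ 100 ≤ ((pH L : ℝ)) ^ 100 :=
      pow_le_pow_left₀ (by positivity) h4 100
    rw [hp _ (by positivity)] at h5
    unfold pH at h5
    push_cast at h5
    rw [← pow_mul] at h5
    have h6 : (3 : ℕ) ^ (77 * L) ≤ 3 ^ (pj0 L * 100) := by exact_mod_cast h5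
    have := (Nat.pow_le_pow_iff_right (by norm_num)).1 h6
    omega
  · have h4 := h.z5
    have e := hj 79
    push_cast at e h4
    rw [e] at h4
    have h5 : ((pH L : ℝ)) ^ 100 ≤ (((3 : ℝ) ^ (79 * L)) ^ ((1 : ℝ) / 100)) ^ 100 :=
      pow_le_pow_left₀ (by positivity) h4 100
    rw [hp _ (by positivity)] at h5
    unfold pH at h5
    push_cast at h5
    rw [← pow_mul] at h5
    have h6 : (3 : ℕ) ^ (pj0 L * 100) ≤ 3 ^ (79 * L) := by exact_mod_cast h5
    have := (Nat.pow_le_pow_iff_right (by norm_num)).1 h6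
    omega
  · have h7 : 3 ^ pj0 L < 2 ^ (Nat.log 2 (3 ^ pj0 L) + 1) := Nat.lt_pow_succ_log_self (by norm_num) _
    refine h7.trans_le (Nat.pow_le_pow_right (by norm_num) ?_)
    unfold pk0 pH
    omega

theorem inv_floor_le {A B : ℕ} (hB : 1 ≤ B) (hBA : B ≤ A) :
    1 / ((A / B : ℕ) : ℝ) ≤ 2 * B / A := by
  have h1 : 1 ≤ A / B := by
    rw [Nat.le_div_iff_mul_le (by omega)]
    omega
  have h2 : A < B * (A / B + 1) := by
    have := Nat.lt_mul_div_succ A (show 0 < B by omega)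
    exact this
  have h3 : A ≤ 2 * B * (A / B) := by nlinarith
  have h4 : (0 : ℝ) < (A / B : ℕ) := by exact_mod_cast h1
  have h5 : (0 : ℝ) < (A : ℝ) := by exact_mod_cast (show 0 < A by omega)
  rw [div_le_div_iff₀ h4 h5]
  have h6 : (A : ℝ) ≤ 2 * B * (A / B : ℕ) := by exact_mod_cast h3
  linarith

/-- a bad `k` -/
theorem bad_ex {L q k : ℕ} (F : Fa L q) (hk : k + 20 * (pk L + 1) ≤ pK L)
    (hbad : ¬ SrcGood L k (pjj L) (2 * 3 ^ py0 L)) :
    ∃ w v : ℕ, 1 ≤ w ∧ w ≤ 3 ^ q ∧ 1 ≤ v ∧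
      |(w : ℝ) * 3 ^ pjj L / 2 ^ k - v| ≤ (pK L : ℝ) ^ 10 / 3 ^ py0 L := by
  unfold SrcGood at hbad
  push Not at hbad
  obtain ⟨w, hw1, hw2, hw3⟩ := hbad
  rw [F.hW] at hw2
  have hqy : q ≤ py0 L := by
    unfold py0
    have := F.hq
    omega
  have hKY : pK L ^ 10 ≤ 3 ^ py0 L := by
    calc pK L ^ 10 ≤ 4 * pK L ^ 10 := by omega
      _ ≤ 3 ^ q := F.hP
      _ ≤ 3 ^ py0 L := Nat.pow_le_pow_right (by norm_num) hqy
  have hK1 : 1 ≤ pK L ^ 10 := Nat.one_le_pow _ _ (by have := F.hK2; omega)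
  have h1 := inv_floor_le (A := 2 * 3 ^ py0 L) (B := pK L ^ 10) hK1 (by omega)
  obtain ⟨z, hz⟩ := exists_int_nd ((w : ℝ) * 3 ^ pjj L / 2 ^ k)
  rw [hz] at hw3
  have h2 : |(w : ℝ) * 3 ^ pjj L / 2 ^ k - z| ≤ (pK L : ℝ) ^ 10 / 3 ^ py0 L := by
    refine hw3.trans (h1.trans (le_of_eq ?_))
    push_cast
    field_simp
  have hYpos : (0 : ℝ) < 3 ^ py0 L := by positivity
  have h3 : (pK L : ℝ) ^ 20 / 3 ^ py0 L ≤ (w : ℝ) * 3 ^ pjj L / 2 ^ k := by
    have h4 : 2 ^ k * pK L ^ 20 ≤ 3 ^ pjj L * 3 ^ py0 L := by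
      calc 2 ^ k * pK L ^ 20 ≤ 2 ^ k * (2 ^ (pk L + 1)) ^ 20 :=
            Nat.mul_le_mul_left _ (Nat.pow_le_pow_left F.hKk.le 20)
        _ = 2 ^ (k + 20 * (pk L + 1)) := by
            rw [← pow_mul, ← pow_add]
            congr 1
            ring
        _ ≤ 2 ^ pK L := Nat.pow_le_pow_right (by norm_num) hk
        _ ≤ 3 ^ L := F.hK
        _ = 3 ^ pjj L * 3 ^ py0 L := by
            rw [← pow_add]
            congr 1
            unfold pjj py0
            omega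
    rw [div_le_div_iff₀ hYpos (by positivity)]
    have h5 : ((2 : ℝ) ^ k * (pK L : ℝ) ^ 20) ≤ 3 ^ pjj L * 3 ^ py0 L := by exact_mod_cast h4
    have h6 : (1 : ℝ) ≤ w := by exact_mod_cast hw1
    have h7 : (0 : ℝ) < 3 ^ pjj L * 3 ^ py0 L := by positivity
    nlinarith
  have h8 : (pK L : ℝ) ^ 10 / 3 ^ py0 L < (pK L : ℝ) ^ 20 / 3 ^ py0 L := by
    apply div_lt_div_of_pos_right _ hYpos
    apply pow_lt_pow_right₀ _ (by norm_num)
    have := F.hK2
    have h9 : (2 : ℝ) ≤ pK L := by exact_mod_cast this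
    linarith
  have h9 : (0 : ℝ) < z := by
    rw [abs_le] at h2
    linarith [h2.2]
  have h10 : 0 < z := by exact_mod_cast h9
  obtain ⟨v, rfl⟩ := Int.eq_ofNat_of_zero_le h10.le
  refine ⟨w, v, hw1, hw2, by omega, ?_⟩
  simpa using h2

/-- step (i) -/
theorem step1 {L q k w v a : ℕ} (F : Fa L q) (hNC : NC L) (hk : pk0 L ≤ k) (hw1 : 1 ≤ w)
    (hw2 : w ≤ 3 ^ q) (hv : 1 ≤ v)
    (hwv : |(w : ℝ) * 3 ^ pjj L / 2 ^ k - v| ≤ (pK L : ℝ) ^ 10 / 3 ^ py0 L) (ha : 3 ^ a ∣ v) :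
    a + 3 * pg0 L ≤ pjj L - pj0 L := by
  by_contra hcon
  push Not at hcon
  have hq := F.hq
  have hq1 := F.hq1
  have hj1 := F.hj1
  have hj2 := F.hj2
  have hjj : pjj L = L - L / 100 := rfl
  have hy0 : py0 L = L / 100 := rfl
  have hg0 : pg0 L = L / 30000 := rfl
  set i := max (pjj L - a) (pj0 L) with hi
  have hij : i ≤ pjj L := by omega
  set b := pjj L - i with hb
  have hba : b ≤ a := by omega
  have hdiv : 3 ^ b ∣ v := (pow_dvd_pow 3 hba).trans ha
  obtain ⟨v', hv'⟩ := hdiv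
  have hv'1 : 1 ≤ v' := by
    rcases Nat.eq_zero_or_pos v' with h0 | h0
    · subst h0
      omega
    · exact h0
  have h1 := hNC w v' k i hw1 (by rw [F.hW]; exact hw2) hv'1
    (F.hk0.le.trans (Nat.pow_le_pow_right (by norm_num) hk)) (by omega) (by omega)
  have h3b : (0 : ℝ) < (3 : ℝ) ^ b := by positivity
  have h2 : (w : ℝ) * 3 ^ i / 2 ^ k - v' = ((w : ℝ) * 3 ^ pjj L / 2 ^ k - v) / 3 ^ b := by
    have e1 : (3 : ℝ) ^ pjj L = 3 ^ i * 3 ^ b := by
      rw [← pow_add]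
      congr 1
      omega
    have e2 : (v : ℝ) = 3 ^ b * v' := by exact_mod_cast hv'
    rw [e1, e2]
    field_simp
  rw [h2, abs_div, abs_of_pos h3b] at h1
  have h3 : |(w : ℝ) * 3 ^ pjj L / 2 ^ k - v| / 3 ^ b ≤ 1 / 3 ^ (L / 10) := by
    refine (div_le_div_of_nonneg_right hwv h3b.le).trans ?_
    rw [div_div, div_le_div_iff₀ (by positivity) (by positivity), one_mul]
    have h4 : pK L ^ 10 * 3 ^ (L / 10) ≤ 3 ^ py0 L * 3 ^ b := by
      calc pK L ^ 10 * 3 ^ (L / 10) ≤ 3 ^ q * 3 ^ (L / 10) :=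
            Nat.mul_le_mul_right _ (le_trans (by omega) F.hP)
        _ = 3 ^ (q + L / 10) := by rw [pow_add]
        _ ≤ 3 ^ (py0 L + b) := by
            apply Nat.pow_le_pow_right (by norm_num)
            omega
        _ = 3 ^ py0 L * 3 ^ b := by rw [pow_add]
    exact_mod_cast h4
  linarith

/-- a linear combination of two approximate equations is an exact equation -/
theorem int_zero (x : ℤ) (h : |(x : ℝ)| < 1) : x = 0 := by
  by_contra h0
  have h1 : (1 : ℤ) ≤ |x| := Int.one_le_abs h0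
  have h2 : ((1 : ℤ) : ℝ) ≤ ((|x| : ℤ) : ℝ) := by exact_mod_cast h1
  push_cast at h2
  linarith

/-- step (ii) -/
theorem step2 {L q k w v a v0 : ℕ} (F : Fa L q) (hw1 : 1 ≤ w)
    (hw2 : w ≤ 3 ^ q)
    (hwv : |(w : ℝ) * 3 ^ pjj L / 2 ^ k - v| ≤ (pK L : ℝ) ^ 10 / 3 ^ py0 L) (hv : v = 3 ^ a * v0)
    (hv0 : ¬ 3 ∣ v0) (ha : a + 3 * pg0 L ≤ pjj L - pj0 L) :
    SrcGood L k (pjj L - (a / pg0 L + 2) * pg0 L) (3 ^ (3 * pg0 L)) := by
  intro w1 hw11 hw12
  rw [F.hW] at hw12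
  by_contra hcon
  push Not at hcon
  have hq := F.hq
  have hq1 := F.hq1
  have hj1 := F.hj1
  have hj2 := F.hj2
  have hjj : pjj L = L - L / 100 := rfl
  have hy0 : py0 L = L / 100 := rfl
  have hg0 : pg0 L = L / 30000 := rfl
  have hg8 : 8 * q ≤ pg0 L := by omega
  have hgpos : 0 < pg0 L := by omega
  set s := a / pg0 L with hs
  have hs1 : s * pg0 L ≤ a := Nat.div_mul_le_self _ _
  have hs2 : a < (s + 1) * pg0 L := by
    rw [hs, mul_comm]
    exact Nat.lt_mul_div_succ a hgpos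
  set b := (s + 2) * pg0 L - a with hb
  have hsa : (s + 2) * pg0 L = s * pg0 L + 2 * pg0 L := by ring
  have hsa1 : (s + 1) * pg0 L = s * pg0 L + pg0 L := by ring
  have hb1 : pg0 L < b := by omega
  have hb2 : b ≤ 2 * pg0 L := by omega
  have hbe : a + b = (s + 2) * pg0 L := by omega
  have hle : (s + 2) * pg0 L ≤ pjj L := by omega
  have hKg : pK L ^ 10 ≤ 3 ^ (3 * pg0 L) := by
    calc pK L ^ 10 ≤ 4 * pK L ^ 10 := by omega
      _ ≤ 3 ^ q := F.hP
      _ ≤ 3 ^ (3 * pg0 L) := Nat.pow_le_pow_right (by norm_num) (by omega)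
  have hK1 : 1 ≤ pK L ^ 10 := Nat.one_le_pow _ _ (by have := F.hK2; omega)
  have h1 := inv_floor_le (A := 3 ^ (3 * pg0 L)) (B := pK L ^ 10) hK1 hKg
  obtain ⟨z, hz⟩ := exists_int_nd ((w1 : ℝ) * 3 ^ (pjj L - (s + 2) * pg0 L) / 2 ^ k)
  rw [hz] at hcon
  have h2 := hcon.trans h1
  push_cast at h2
  set θ : ℝ := 3 ^ (pjj L - (s + 2) * pg0 L) / 2 ^ k with hθ
  set δ1 : ℝ := (w1 : ℝ) * 3 ^ (pjj L - (s + 2) * pg0 L) / 2 ^ k - z with hδ1
  set δ : ℝ := (w : ℝ) * 3 ^ pjj L / 2 ^ k - v with hδ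
  have e0 : (3 : ℝ) ^ pjj L = 3 ^ a * 3 ^ b * 3 ^ (pjj L - (s + 2) * pg0 L) := by
    rw [← pow_add, ← pow_add]
    congr 1
    omega
  have hva : (v : ℝ) = 3 ^ a * v0 := by exact_mod_cast hv
  have e1 : (w : ℝ) * 3 ^ b * θ = v0 + δ / 3 ^ a := by
    rw [hδ, hva, hθ, e0]
    field_simp
    ring
  have e2 : (w1 : ℝ) * θ = z + δ1 := by
    rw [hδ1, hθ]
    ring
  have e3 : (((w1 : ℤ) * v0 - w * 3 ^ b * z : ℤ) : ℝ) = w * 3 ^ b * δ1 - w1 * (δ / 3 ^ a) := by
    push_cast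
    have e4 : (w1 : ℝ) * ((w : ℝ) * 3 ^ b * θ) = w * 3 ^ b * (w1 * θ) := by ring
    rw [e1, e2] at e4
    linarith
  have hP : (4 : ℝ) * (pK L : ℝ) ^ 10 ≤ 3 ^ q := by exact_mod_cast F.hP
  have hw1' : (w1 : ℝ) ≤ 3 ^ q := by exact_mod_cast hw12
  have hw2' : (w : ℝ) ≤ 3 ^ q := by exact_mod_cast hw2
  have h3 : |(w : ℝ) * 3 ^ b * δ1| ≤ 1 / 2 := by
    rw [abs_mul, abs_of_nonneg (by positivity)]
    have h4 : (w : ℝ) * 3 ^ b ≤ 3 ^ q * 3 ^ (2 * pg0 L) := by
      apply mul_le_mul hw2' _ (by positivity) (by positivity)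
      exact pow_le_pow_right₀ (by norm_num) hb2
    calc (w : ℝ) * 3 ^ b * |δ1| ≤ (3 ^ q * 3 ^ (2 * pg0 L)) * (2 * (pK L : ℝ) ^ 10 / 3 ^ (3 * pg0 L)) :=
          mul_le_mul h4 h2 (abs_nonneg _) (by positivity)
      _ ≤ (3 ^ q * 3 ^ (2 * pg0 L)) * (3 ^ q / 2 / 3 ^ (3 * pg0 L)) := by
          apply mul_le_mul_of_nonneg_left _ (by positivity)
          apply div_le_div_of_nonneg_right _ (by positivity)
          linarith
      _ = 3 ^ (2 * q + 2 * pg0 L) / 3 ^ (3 * pg0 L) / 2 := by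
          rw [pow_add, two_mul q, pow_add]
          ring
      _ ≤ 1 / 2 := by
          apply div_le_div_of_nonneg_right _ (by norm_num)
          rw [div_le_one (by positivity)]
          exact pow_le_pow_right₀ (by norm_num) (by omega)
  have h4 : |(w1 : ℝ) * (δ / 3 ^ a)| ≤ 1 / 4 := by
    rw [abs_mul, abs_of_nonneg (by positivity : (0 : ℝ) ≤ (w1 : ℝ)), abs_div,
      abs_of_pos (by positivity : (0 : ℝ) < (3 : ℝ) ^ a)]
    have h5 : |δ| / 3 ^ a ≤ (pK L : ℝ) ^ 10 / 3 ^ py0 L := by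
      refine le_trans ?_ hwv
      apply div_le_self (abs_nonneg _)
      exact one_le_pow₀ (by norm_num)
    calc (w1 : ℝ) * (|δ| / 3 ^ a) ≤ 3 ^ q * ((pK L : ℝ) ^ 10 / 3 ^ py0 L) :=
          mul_le_mul hw1' h5 (by positivity) (by positivity)
      _ ≤ 3 ^ q * (3 ^ q / 4 / 3 ^ py0 L) := by
          apply mul_le_mul_of_nonneg_left _ (by positivity)
          apply div_le_div_of_nonneg_right _ (by positivity)
          linarith
      _ = 3 ^ (2 * q) / 3 ^ py0 L / 4 := by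
          rw [two_mul q, pow_add]
          ring
      _ ≤ 1 / 4 := by
          apply div_le_div_of_nonneg_right _ (by norm_num)
          rw [div_le_one (by positivity)]
          exact pow_le_pow_right₀ (by norm_num) (by omega)
  have h5 : (w1 : ℤ) * v0 - w * 3 ^ b * z = 0 := by
    apply int_zero
    rw [e3]
    refine (abs_sub _ _).trans_lt ?_
    linarith
  have h6 : ((3 ^ b : ℕ) : ℤ) ∣ ((w1 * v0 : ℕ) : ℤ) := by
    refine ⟨w * z, ?_⟩
    push_cast
    linarith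
  have h7 : 3 ^ b ∣ w1 * v0 := by exact_mod_cast h6
  have h8 : Nat.Coprime (3 ^ b) v0 := by
    apply Nat.Coprime.pow_left
    exact (Nat.Prime.coprime_iff_not_dvd Nat.prime_three).2 hv0
  have h9 : 3 ^ b ∣ w1 := h8.dvd_of_dvd_mul_right h7
  have h10 := Nat.le_of_dvd (by omega) h9
  have h11 : 3 ^ q < 3 ^ b := Nat.pow_lt_pow_right (by norm_num) (by omega)
  omega

/-- step (iii) -/
theorem step3 {L q k k' w v w' v' a v0 a' v0' : ℕ} (F : Fa L q) (hkk : k' ≤ k)
    (hD : k - k' ≤ L / 80)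
    (hw1 : 1 ≤ w) (hw2 : w ≤ 3 ^ q) (hw1' : 1 ≤ w') (hw2' : w' ≤ 3 ^ q)
    (hwv : |(w : ℝ) * 3 ^ pjj L / 2 ^ k - v| ≤ (pK L : ℝ) ^ 10 / 3 ^ py0 L)
    (hwv' : |(w' : ℝ) * 3 ^ pjj L / 2 ^ k' - v'| ≤ (pK L : ℝ) ^ 10 / 3 ^ py0 L)
    (hv : v = 3 ^ a * v0) (hv0 : ¬ 3 ∣ v0) (hv' : v' = 3 ^ a' * v0') (hv0' : ¬ 3 ∣ v0') :
    a ≤ a' + q ∧ a' ≤ a + q := by
  have hq := F.hq
  have hq1 := F.hq1
  have hy0 : py0 L = L / 100 := rfl
  set d := k - k' with hd
  set δ : ℝ := (w : ℝ) * 3 ^ pjj L / 2 ^ k - v with hδ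
  set δ' : ℝ := (w' : ℝ) * 3 ^ pjj L / 2 ^ k' - v' with hδ'
  have e0 : (2 : ℝ) ^ k = 2 ^ k' * 2 ^ d := by
    rw [← pow_add]
    congr 1
    omega
  have e3 : (((w : ℤ) * v' - w' * 2 ^ d * v : ℤ) : ℝ) = w' * 2 ^ d * δ - w * δ' := by
    push_cast
    rw [hδ, hδ', e0]
    field_simp
    ring
  have hP : (4 : ℝ) * (pK L : ℝ) ^ 10 ≤ 3 ^ q := by exact_mod_cast F.hP
  have hwr : (w : ℝ) ≤ 3 ^ q := by exact_mod_cast hw2
  have hwr' : (w' : ℝ) ≤ 3 ^ q := by exact_mod_cast hw2'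
  have h2d : (2 : ℝ) ^ d ≤ 3 ^ (2 * (L / 240) + 2) := by
    have h1 : (2 : ℕ) ^ d ≤ 3 ^ (2 * (L / 240) + 2) := by
      calc (2 : ℕ) ^ d ≤ 2 ^ (3 * (L / 240 + 1)) := Nat.pow_le_pow_right (by norm_num) (by omega)
        _ = 8 ^ (L / 240 + 1) := by rw [pow_mul]; norm_num
        _ ≤ 9 ^ (L / 240 + 1) := Nat.pow_le_pow_left (by norm_num) _
        _ = 3 ^ (2 * (L / 240) + 2) := by
            rw [show 2 * (L / 240) + 2 = 2 * (L / 240 + 1) by ring, pow_mul]
            norm_num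
    exact_mod_cast h1
  have h3 : |(w' : ℝ) * 2 ^ d * δ| ≤ 1 / 4 := by
    rw [abs_mul, abs_of_nonneg (by positivity)]
    calc (w' : ℝ) * 2 ^ d * |δ| ≤ (3 ^ q * 3 ^ (2 * (L / 240) + 2)) *
          ((pK L : ℝ) ^ 10 / 3 ^ py0 L) := by
          apply mul_le_mul _ hwv (abs_nonneg _) (by positivity)
          exact mul_le_mul hwr' h2d (by positivity) (by positivity)
      _ ≤ (3 ^ q * 3 ^ (2 * (L / 240) + 2)) * (3 ^ q / 4 / 3 ^ py0 L) := by
          apply mul_le_mul_of_nonneg_left _ (by positivity)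
          apply div_le_div_of_nonneg_right _ (by positivity)
          linarith
      _ = 3 ^ (q + q + (2 * (L / 240) + 2)) / 3 ^ py0 L / 4 := by
          rw [pow_add, pow_add]
          ring
      _ ≤ 1 / 4 := by
          apply div_le_div_of_nonneg_right _ (by norm_num)
          rw [div_le_one (by positivity)]
          exact pow_le_pow_right₀ (by norm_num) (by omega)
  have h4 : |(w : ℝ) * δ'| ≤ 1 / 4 := by
    rw [abs_mul, abs_of_nonneg (by positivity)]
    calc (w : ℝ) * |δ'| ≤ 3 ^ q * ((pK L : ℝ) ^ 10 / 3 ^ py0 L) :=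
          mul_le_mul hwr hwv' (by positivity) (by positivity)
      _ ≤ 3 ^ q * (3 ^ q / 4 / 3 ^ py0 L) := by
          apply mul_le_mul_of_nonneg_left _ (by positivity)
          apply div_le_div_of_nonneg_right _ (by positivity)
          linarith
      _ = 3 ^ (2 * q) / 3 ^ py0 L / 4 := by
          rw [two_mul q, pow_add]
          ring
      _ ≤ 1 / 4 := by
          apply div_le_div_of_nonneg_right _ (by norm_num)
          rw [div_le_one (by positivity)]
          exact pow_le_pow_right₀ (by norm_num) (by omega)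
  have h5 : (w : ℤ) * v' - w' * 2 ^ d * v = 0 := by
    apply int_zero
    rw [e3]
    refine (abs_sub _ _).trans_lt ?_
    linarith
  have h6 : w * v' = w' * 2 ^ d * v := by
    have : (w : ℤ) * v' = w' * 2 ^ d * v := by linarith
    exact_mod_cast this
  -- valuations
  have key : ∀ x y c e x0 y0 t : ℕ, 1 ≤ y → y ≤ 3 ^ q → x * (3 ^ c * x0) = y * t * (3 ^ e * y0) →
      ¬ 3 ∣ y0 → ¬ 3 ∣ t → c ≤ e + q := by
    intro x y c e x0 y0 t hy1 hy2 hxy hy0' ht
    by_contra hc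
    push Not at hc
    have h7 : 3 ^ (e + q + 1) ∣ y * t * (3 ^ e * y0) := by
      rw [← hxy]
      exact (pow_dvd_pow 3 hc).trans ((Dvd.intro x0 rfl).mul_left x)
    have h8 : 3 ^ e * 3 ^ (q + 1) ∣ 3 ^ e * (y * (t * y0)) := by
      rw [← pow_add]
      have e8 : 3 ^ e * (y * (t * y0)) = y * t * (3 ^ e * y0) := by ring
      rw [e8]
      exact h7
    have h9 : 3 ^ (q + 1) ∣ y * (t * y0) := Nat.dvd_of_mul_dvd_mul_left (by positivity) h8
    have h10 : Nat.Coprime (3 ^ (q + 1)) (t * y0) := by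
      apply Nat.Coprime.pow_left
      apply (Nat.Prime.coprime_iff_not_dvd Nat.prime_three).2
      intro h11
      rcases (Nat.Prime.dvd_mul Nat.prime_three).1 h11 with h12 | h12
      · exact ht h12
      · exact hy0' h12
    have h11 : 3 ^ (q + 1) ∣ y := h10.dvd_of_dvd_mul_right h9
    have h12 := Nat.le_of_dvd (by omega) h11
    have h13 : 3 ^ q < 3 ^ (q + 1) := Nat.pow_lt_pow_right (by norm_num) (by omega)
    omega
  have h2nd : ¬ 3 ∣ 2 ^ d := by
    intro h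
    have := Nat.prime_three.dvd_of_dvd_pow h
    omega
  constructor
  · have := key (w' * 2 ^ d) w a a' v0 v0' 1 hw1 hw2 (by rw [← hv, ← hv', mul_one, ← h6]) hv0'
      (by norm_num)
    exact this
  · exact key w w' a' a v0' v0 (2 ^ d) hw1' hw2' (by rw [← hv, ← hv', h6]) hv0 h2nd

end SrcsAux

open SrcsAux in
/-- P2 -/
theorem claimSrcs (h0 : ClaimSizF) : ClaimSrcs := by
  classical
  obtain ⟨L1, hL1⟩ := h0
  obtain ⟨q0, hq0⟩ := poly_exp
  refine ⟨max L1 (240000 * (q0 + 1)), fun L hL hNC => ?_⟩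
  have F := fa_of L q0 hq0 (le_trans (le_max_right _ _) hL) (hL1 L (le_trans (le_max_left _ _) hL))
  set q := L / 240000 with hq
  have hq1 := F.hq1
  have hj1 := F.hj1
  have hj2 := F.hj2
  have hjj : pjj L = L - L / 100 := rfl
  have hy0 : py0 L = L / 100 := rfl
  have hg0 : pg0 L = L / 30000 := rfl
  have hgpos : 0 < pg0 L := by omega
  -- the bad k
  set Bad : ℕ → Prop := fun k => pk0 L ≤ k ∧ k + 20 * (pk L + 1) ≤ pK L ∧
    ¬ SrcGood L k (pjj L) (2 * 3 ^ py0 L) with hBad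
  have hex : ∀ k, Bad k → ∃ a w v v0 : ℕ, 1 ≤ w ∧ w ≤ 3 ^ q ∧ 1 ≤ v ∧
      |(w : ℝ) * 3 ^ pjj L / 2 ^ k - v| ≤ (pK L : ℝ) ^ 10 / 3 ^ py0 L ∧ v = 3 ^ a * v0 ∧
      ¬ 3 ∣ v0 := by
    intro k hk
    obtain ⟨w, v, h1, h2, h3, h4⟩ := bad_ex F hk.2.1 hk.2.2
    obtain ⟨a, v0, h5, h6⟩ := Nat.exists_eq_pow_mul_and_not_dvd (show v ≠ 0 by omega) 3
      (by norm_num)
    exact ⟨a, w, v, v0, h1, h2, h3, h4, h6, h5⟩
  choose! A W V V0 hA using hex
  set D := L / 80 with hD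
  have hDpos : 0 < D := by omega
  -- slots for one interval
  have hint : ∀ j : ℕ, ∃ s : ℕ, ∀ k, Bad k → (k - pk0 L) / D = j →
      A k / pg0 L = s ∨ A k / pg0 L = s + 1 := by
    intro j
    by_cases hne : ∃ k, Bad k ∧ (k - pk0 L) / D = j
    · -- minimal A
      have hmin : ∃ k1, (Bad k1 ∧ (k1 - pk0 L) / D = j) ∧
          ∀ k, (Bad k ∧ (k - pk0 L) / D = j) → A k1 ≤ A k := by
        have hS : ({n | ∃ k, (Bad k ∧ (k - pk0 L) / D = j) ∧ A k = n} : Set ℕ).Nonempty := by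
          obtain ⟨k, hk⟩ := hne
          exact ⟨A k, k, hk, rfl⟩
        obtain ⟨k1, hk1, hk1'⟩ := Nat.sInf_mem hS
        refine ⟨k1, hk1, fun k hk => ?_⟩
        rw [hk1']
        exact Nat.sInf_le ⟨k, hk, rfl⟩
      obtain ⟨k1, ⟨hb1, hk1⟩, hmin⟩ := hmin
      refine ⟨A k1 / pg0 L, fun k hb hk => ?_⟩
      have h1 := hmin k ⟨hb, hk⟩
      have h2 : A k ≤ A k1 + q := by
        obtain ⟨w1, w2, w3, w4, w5, w6⟩ := hA k hb
        obtain ⟨x1, x2, x3, x4, x5, x6⟩ := hA k1 hb1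
        have hdist : ∀ x y : ℕ, x / D = j → y / D = j → x - y ≤ D := by
          intro x y hx hy
          have hx1 : x < (j + 1) * D := by
            rw [← hx, mul_comm]
            exact Nat.lt_mul_div_succ x hDpos
          have hy1 : j * D ≤ y := by
            rw [← hy]
            exact Nat.div_mul_le_self _ _
          have : (j + 1) * D = j * D + D := by ring
          omega
        rcases le_total k1 k with hkk | hkk
        · have := step3 F hkk (by
            have := hdist _ _ hk hk1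
            have h7 := hb.1
            have h8 := hb1.1
            omega) w1 w2 x1 x2 w4 x4 w5 w6 x5 x6
          exact this.1
        · have := step3 F hkk (by
            have := hdist _ _ hk1 hk
            have h7 := hb.1
            have h8 := hb1.1
            omega) x1 x2 w1 w2 x4 w4 x5 x6 w5 w6
          exact this.2
      have h3 : A k1 / pg0 L ≤ A k / pg0 L := Nat.div_le_div_right h1
      have h4 : A k / pg0 L ≤ A k1 / pg0 L + 1 := by
        calc A k / pg0 L ≤ (A k1 + pg0 L) / pg0 L := Nat.div_le_div_right (by omega)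
          _ = A k1 / pg0 L + 1 := Nat.add_div_right _ hgpos
      omega
    · refine ⟨0, fun k hb hk => absurd ⟨k, hb, hk⟩ hne⟩
  choose s hs using hint
  set M := (pjj L - pj0 L) / pg0 L with hM
  have hM120 : 120 ≤ M := by
    rw [hM, Nat.le_div_iff_mul_le hgpos]
    omega
  set S : Finset ℕ := ((range 30).biUnion
    (fun j => ({s j - 1, s j, s j + 1, s j + 2} : Finset ℕ))).filter (fun x => x < M) with hS
  have hScard : S.card ≤ 120 := by
    refine (Finset.card_filter_le _ _).trans ?_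
    refine Finset.card_biUnion_le.trans ?_
    calc ∑ j ∈ range 30, ({s j - 1, s j, s j + 1, s j + 2} : Finset ℕ).card
        ≤ ∑ j ∈ range 30, 4 := Finset.sum_le_sum (fun j _ => Finset.card_le_four)
      _ = 120 := by simp
  have hSM : S ⊆ range M := by
    intro x hx
    rw [hS, Finset.mem_filter] at hx
    exact Finset.mem_range.2 hx.2
  obtain ⟨S', hSS', hS'M, hS'c⟩ := Finset.exists_subsuperset_card_eq hSM hScard
    (by rw [Finset.card_range]; exact hM120)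
  refine ⟨S'.orderEmbOfFin hS'c, ⟨(S'.orderEmbOfFin hS'c).injective, ?_⟩, ?_⟩
  · intro i
    have h1 : S'.orderEmbOfFin hS'c i ∈ S' := Finset.orderEmbOfFin_mem _ _ _
    have h2 := Finset.mem_range.1 (hS'M h1)
    have h3 : S'.orderEmbOfFin hS'c i + 1 ≤ M := h2
    rw [hM, Nat.le_div_iff_mul_le hgpos] at h3
    exact h3
  · have hsurj : ∀ x ∈ S, ∃ i, S'.orderEmbOfFin hS'c i = x := by
      intro x hx
      have h1 : x ∈ Set.range (S'.orderEmbOfFin hS'c) := by
        rw [Finset.range_orderEmbOfFin]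
        exact hSS' hx
      exact h1
    intro k hk1 hk2
    by_cases hgood : SrcGood L k (pjj L) (2 * 3 ^ py0 L)
    · exact Or.inl hgood
    · right
      have hb : Bad k := ⟨hk1, hk2, hgood⟩
      obtain ⟨w1, w2, w3, w4, w5, w6⟩ := hA k hb
      have hst1 := step1 F hNC hk1 w1 w2 w3 w4 (Dvd.intro _ w5.symm)
      have hst2 := step2 F w1 w2 w4 w5 w6 hst1
      set j := (k - pk0 L) / D with hj
      have hj30 : j < 30 := by
        rw [hj, Nat.div_lt_iff_lt_mul hDpos]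
        have hKL : 41 * pK L ≤ 65 * L := by
          have h1 : 2 ^ (41 * pK L) ≤ 2 ^ (65 * L) := by
            calc 2 ^ (41 * pK L) = (2 ^ pK L) ^ 41 := by rw [← pow_mul]; congr 1; ring
              _ ≤ (3 ^ L) ^ 41 := Nat.pow_le_pow_left F.hK 41
              _ = (3 ^ 41) ^ L := by rw [← pow_mul, ← pow_mul]; congr 1; ring
              _ ≤ (2 ^ 65) ^ L := Nat.pow_le_pow_left (by norm_num) L
              _ = 2 ^ (65 * L) := by rw [← pow_mul]
          exact (Nat.pow_le_pow_iff_right (by norm_num)).1 h1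
        have hkK : 77 * pK L ≤ 100 * pk0 L := by
          have h1 : 2 ^ (77 * pK L) ≤ 2 ^ (100 * pk0 L) := by
            calc 2 ^ (77 * pK L) = (2 ^ pK L) ^ 77 := by rw [← pow_mul]; congr 1; ring
              _ ≤ (3 ^ L) ^ 77 := Nat.pow_le_pow_left F.hK 77
              _ = 3 ^ (77 * L) := by rw [← pow_mul]; congr 1; ring
              _ ≤ 3 ^ (100 * pj0 L) := Nat.pow_le_pow_right (by norm_num) hj1
              _ = (3 ^ pj0 L) ^ 100 := by rw [← pow_mul]; congr 1; ring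
              _ ≤ (2 ^ pk0 L) ^ 100 := Nat.pow_le_pow_left F.hk0.le 100
              _ = 2 ^ (100 * pk0 L) := by rw [← pow_mul]; congr 1; ring
          exact (Nat.pow_le_pow_iff_right (by norm_num)).1 h1
        omega
      have hs' := hs j k hb rfl
      set a := A k / pg0 L with ha
      have haM : a + 1 < M := by
        have h1 : a + 2 ≤ M := by
          rw [hM, Nat.le_div_iff_mul_le hgpos]
          have h2 : a * pg0 L ≤ A k := Nat.div_mul_le_self _ _
          have h3 : (a + 2) * pg0 L = a * pg0 L + 2 * pg0 L := by ring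
          omega
        omega
      have hmem : ∀ x, (x = s j - 1 ∨ x = s j ∨ x = s j + 1 ∨ x = s j + 2) → x < M → x ∈ S := by
        intro x hx hxM
        rw [hS, Finset.mem_filter, Finset.mem_biUnion]
        refine ⟨⟨j, Finset.mem_range.2 hj30, ?_⟩, hxM⟩
        simp only [Finset.mem_insert, Finset.mem_singleton]
        exact hx
      refine ⟨a, ?_, ?_, ?_, hst2⟩
      · rcases Nat.eq_zero_or_pos a with h1 | h1
        · exact Or.inl h1
        · right
          obtain ⟨i, hi⟩ := hsurj (a - 1) (hmem _ (by omega) (by omega))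
          exact ⟨i, by omega⟩
      · exact hsurj a (hmem _ (by omega) (by omega))
      · exact hsurj (a + 1) (hmem _ (by omega) (by omega))

end Pool.Agent.Work.MP_8e4d29_nt

end

section

/-!
MP_8e4d29_nt, item E1: `∑_{m ≤ U} min (X/m, 1/(2‖m α‖))`.
-/

namespace Pool.Agent.Work.MP_8e4d29_nt

open Finset

namespace SumGM2

lemma gm_mono {X Y : ℝ} (h : X ≤ Y) (x : ℝ) : gm X x ≤ gm Y x :=
  le_gm ((gm_le X x).trans h) fun hn => gm_le_inv hn

/-- lower bound for `‖m α‖`, `1 ≤ m ≤ q / 2` -/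
lemma nd_low (α : ℝ) (q : ℕ) (a : ℤ) (hq : 1 ≤ q) (hc : IsCoprime a (q : ℤ))
    (hα : |α - a / q| ≤ 1 / (q : ℝ) ^ 2) (m : ℕ) (hm : 1 ≤ m) (hm2 : 2 * m ≤ q) :
    1 / (2 * (q : ℝ)) ≤ nd (m * α) := by
  have hq0 : (0 : ℝ) < q := by exact_mod_cast hq
  obtain ⟨k, hk⟩ := exists_int_nd ((m : ℝ) * a / q)
  have hne : (m : ℤ) * a - k * q ≠ 0 := by
    intro h
    have h1 : (q : ℤ) ∣ m * a := ⟨k, by linarith⟩
    have h2 : (q : ℤ) ∣ (m : ℤ) := hc.symm.dvd_of_dvd_mul_right h1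
    have h3 : q ∣ m := by exact_mod_cast h2
    have h4 := Nat.le_of_dvd hm h3
    omega
  have h5 : (1 : ℝ) ≤ |(m : ℝ) * a - k * q| := by
    have h6 : (1 : ℤ) ≤ |(m : ℤ) * a - k * q| := Int.one_le_abs hne
    have h7 : ((1 : ℤ) : ℝ) ≤ ((|(m : ℤ) * a - k * q| : ℤ) : ℝ) := by exact_mod_cast h6
    simpa using h7
  have h8 : 1 / (q : ℝ) ≤ nd ((m : ℝ) * a / q) := by
    rw [hk]
    have e : (m : ℝ) * a / q - k = ((m : ℝ) * a - k * q) / q := by field_simp
    rw [e, abs_div, abs_of_pos hq0]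
    gcongr
  have h9 : nd ((m : ℝ) * a / q) ≤ nd (m * α) + nd ((m : ℝ) * (α - a / q)) := by
    have e : (m : ℝ) * a / q = m * α - m * (α - a / q) := by ring
    rw [e]
    exact nd_sub_le _ _
  have h10 : nd ((m : ℝ) * (α - a / q)) ≤ 1 / (2 * (q : ℝ)) := by
    refine (nd_le_abs _).trans ?_
    rw [abs_mul, abs_of_nonneg (Nat.cast_nonneg m)]
    have hm3 : (m : ℝ) ≤ q / 2 := by
      have : (2 : ℝ) * m ≤ q := by exact_mod_cast hm2
      linarith
    calc (m : ℝ) * |α - a / q| ≤ q / 2 * (1 / (q : ℝ) ^ 2) :=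
          mul_le_mul hm3 hα (abs_nonneg _) (by positivity)
      _ = 1 / (2 * (q : ℝ)) := by field_simp
  have h11 : 1 / (q : ℝ) = 1 / (2 * (q : ℝ)) + 1 / (2 * (q : ℝ)) := by field_simp; norm_num
  linarith

lemma blocks (q : ℕ) (g : ℕ → ℝ) (hq : 1 ≤ q) (B : ℕ) :
    ∑ m ∈ Ico 1 (q * (B + 1)), g m =
      ∑ m ∈ Ico 1 q, g m + ∑ k ∈ range B, ∑ j ∈ range q, g (q * (k + 1) + j) := by
  induction B with
  | zero => simp
  | succ B ih =>
    rw [Finset.sum_range_succ, ← add_assoc, ← ih]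
    have h1 : 1 ≤ q * (B + 1) := Nat.mul_pos hq (Nat.succ_pos B)
    have h2 : q * (B + 1) ≤ q * (B + 1 + 1) := Nat.mul_le_mul_left _ (Nat.le_succ _)
    rw [← Finset.sum_Ico_consecutive g h1 h2]
    congr 1
    rw [Finset.sum_Ico_eq_sum_range]
    have e : q * (B + 1 + 1) - q * (B + 1) = q := by
      rw [Nat.mul_succ q (B + 1)]; omega
    rw [e]

end SumGM2

open SumGM2 in
theorem claimSumGM2 : ClaimSumGM2 := by
  refine ⟨24, fun α q a U X hq hU hX hc hα => ?_⟩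
  have hq0 : (0 : ℝ) < q := by exact_mod_cast hq
  have hU0 : (0 : ℝ) < U := by exact_mod_cast hU
  have hq1 : (1 : ℝ) ≤ q := by exact_mod_cast hq
  have hU1 : (1 : ℝ) ≤ U := by exact_mod_cast hU
  have hlogq : 0 ≤ Real.log q := Real.log_natCast_nonneg q
  have hlogU : 0 ≤ Real.log U := Real.log_natCast_nonneg U
  obtain ⟨Lg, hLg⟩ : ∃ Lg, Lg = 1 + Real.log (2 * q * U) := ⟨_, rfl⟩
  have hsplit : Real.log (2 * q * U) = Real.log 2 + Real.log q + Real.log U := by
    rw [Real.log_mul (by positivity) hU0.ne', Real.log_mul (by norm_num) hq0.ne']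
  have hlog2 : 0 < Real.log 2 := Real.log_pos (by norm_num)
  have hL1 : 1 + Real.log q ≤ Lg := by rw [hLg, hsplit]; linarith
  have hL2 : 1 + Real.log U ≤ Lg := by rw [hLg, hsplit]; linarith
  have hL3 : 1 ≤ Lg := by linarith
  rw [← hLg]
  obtain ⟨g, hg⟩ : ∃ g : ℕ → ℝ, ∀ m, g m = gm (X / m) (m * α) := ⟨_, fun _ => rfl⟩
  have hg0 : ∀ m, 0 ≤ g m := fun m => by rw [hg]; exact gm_nonneg (by positivity) _
  -- first block
  have hfirst : ∑ m ∈ Ico 1 q, g m ≤ 8 * (q + q * (1 + Real.log q)) +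
      8 * (2 * X / q + q * (1 + Real.log q)) := by
    have hb1 := SumGMAux.block α q a q 0 hq hq0.le hc hα
    have hb2 := SumGMAux.block α q a (2 * X / q) 0 hq (by positivity) hc hα
    simp only [zero_add] at hb1 hb2
    have h1 : ∑ m ∈ Ico 1 q, g m ≤ ∑ m ∈ Ico 1 q, (gm q (m * α) + gm (2 * X / q) (m * α)) := by
      refine Finset.sum_le_sum fun m hm => ?_
      rw [Finset.mem_Ico] at hm
      have hm0 : (0 : ℝ) < m := by exact_mod_cast hm.1
      have n1 : 0 ≤ gm q (m * α) := gm_nonneg hq0.le _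
      have n2 : 0 ≤ gm (2 * X / q) (m * α) := gm_nonneg (by positivity) _
      rw [hg]
      by_cases h2 : 2 * m ≤ q
      · have h3 := nd_low α q a hq hc hα m hm.1 h2
        have h4 : 0 < nd (m * α) := lt_of_lt_of_le (by positivity) h3
        have h5 : gm (X / m) (m * α) ≤ gm q (m * α) := by
          refine le_gm ?_ fun h => gm_le_inv h
          refine (gm_le_inv h4).trans ?_
          rw [div_le_iff₀ (by positivity)]
          rw [div_le_iff₀ (by positivity)] at h3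
          linarith
        linarith
      · have h3 : (q : ℝ) ≤ 2 * m := by
          have : q ≤ 2 * m := by omega
          exact_mod_cast this
        have h5 : gm (X / m) (m * α) ≤ gm (2 * X / q) (m * α) := by
          apply gm_mono
          rw [div_le_div_iff₀ hm0 hq0]
          nlinarith
        linarith
    refine h1.trans ?_
    rw [Finset.sum_add_distrib]
    have hsub : Ico 1 q ⊆ range q := by
      intro x hx
      rw [Finset.mem_Ico] at hx
      exact Finset.mem_range.mpr hx.2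
    refine add_le_add ?_ ?_
    · exact (Finset.sum_le_sum_of_subset_of_nonneg hsub
        fun _ _ _ => gm_nonneg hq0.le _).trans hb1
    · exact (Finset.sum_le_sum_of_subset_of_nonneg hsub
        fun _ _ _ => gm_nonneg (by positivity) _).trans hb2
  -- the other blocks
  have hblk : ∀ k : ℕ, ∑ j ∈ range q, g (q * (k + 1) + j) ≤
      8 * (X / q * (1 / ((k : ℝ) + 1)) + q * (1 + Real.log q)) := by
    intro k
    have hb := SumGMAux.block α q a (X / (q * (k + 1))) ((q * (k + 1) : ℕ) * α) hq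
      (by positivity) hc hα
    have e : X / ((q : ℝ) * (k + 1)) = X / q * (1 / ((k : ℝ) + 1)) := by field_simp
    rw [← e]
    refine le_trans (Finset.sum_le_sum fun j _ => ?_) hb
    rw [hg]
    have e2 : ((q * (k + 1) + j : ℕ) : ℝ) * α = ((q * (k + 1) : ℕ) : ℝ) * α + j * α := by
      push_cast; ring
    rw [e2]
    apply gm_mono
    have h1 : (0 : ℝ) < q * (k + 1) := by positivity
    have h2 : (q : ℝ) * (k + 1) ≤ ((q * (k + 1) + j : ℕ) : ℝ) := by
      push_cast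
      have : (0 : ℝ) ≤ j := Nat.cast_nonneg j
      linarith
    gcongr
  obtain ⟨B, hB⟩ : ∃ B, B = U / q := ⟨_, rfl⟩
  have hcover : ∑ m ∈ Icc 1 U, gm (X / m) (m * α) ≤ ∑ m ∈ Ico 1 (q * (B + 1)), g m := by
    have h1 : ∑ m ∈ Icc 1 U, gm (X / m) (m * α) = ∑ m ∈ Icc 1 U, g m :=
      Finset.sum_congr rfl fun m _ => (hg m).symm
    rw [h1]
    refine Finset.sum_le_sum_of_subset_of_nonneg ?_ fun _ _ _ => hg0 _
    intro m hm
    rw [Finset.mem_Icc] at hm
    rw [Finset.mem_Ico]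
    have h2 := Nat.lt_mul_div_succ U (by omega : 0 < q)
    rw [← hB] at h2
    exact ⟨hm.1, lt_of_le_of_lt hm.2 h2⟩
  have hharm : ∑ k ∈ range B, 1 / ((k : ℝ) + 1) ≤ 1 + Real.log U := by
    have h1 : ∑ k ∈ range B, 1 / ((k : ℝ) + 1) = ((harmonic B : ℚ) : ℝ) := by
      rw [harmonic]
      push_cast
      exact Finset.sum_congr rfl fun k _ => one_div _
    rw [h1]
    refine (harmonic_le_one_add_log B).trans ?_
    rcases Nat.eq_zero_or_pos B with h0 | h0
    · rw [h0]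
      simp only [Nat.cast_zero, Real.log_zero]
      linarith
    · have hle : B ≤ U := hB ▸ Nat.div_le_self _ _
      have : Real.log B ≤ Real.log U := by
        apply Real.log_le_log
        · exact_mod_cast h0
        · exact_mod_cast hle
      linarith
  have hBq : (B : ℝ) * q ≤ U := by
    have : B * q ≤ U := hB ▸ Nat.div_mul_le_self U q
    exact_mod_cast this
  have hrest : ∑ k ∈ range B, ∑ j ∈ range q, g (q * (k + 1) + j) ≤
      8 * (X / q * (1 + Real.log U) + U * (1 + Real.log q)) := by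
    refine (Finset.sum_le_sum fun k _ => hblk k).trans ?_
    rw [← Finset.mul_sum, Finset.sum_add_distrib, ← Finset.mul_sum, Finset.sum_const,
      Finset.card_range, nsmul_eq_mul]
    have h1 : X / q * ∑ k ∈ range B, 1 / ((k : ℝ) + 1) ≤ X / q * (1 + Real.log U) :=
      mul_le_mul_of_nonneg_left hharm (by positivity)
    have h2 : (B : ℝ) * (q * (1 + Real.log q)) ≤ U * (1 + Real.log q) := by
      rw [← mul_assoc]
      exact mul_le_mul_of_nonneg_right hBq (by positivity)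
    linarith
  refine hcover.trans ?_
  rw [blocks q g hq B]
  have hXq : 0 ≤ X / q := by positivity
  have a1 : (q : ℝ) * (1 + Real.log q) ≤ q * Lg := mul_le_mul_of_nonneg_left hL1 hq0.le
  have a2 : (q : ℝ) ≤ q * Lg := by nlinarith
  have a3 : X / q * (1 + Real.log U) ≤ X / q * Lg := mul_le_mul_of_nonneg_left hL2 hXq
  have a4 : (U : ℝ) * (1 + Real.log q) ≤ U * Lg := mul_le_mul_of_nonneg_left hL1 hU0.le
  have a5 : 2 * X / q ≤ 2 * (X / q * Lg) := by
    have : X / q * 1 ≤ X / q * Lg := mul_le_mul_of_nonneg_left hL3 hXq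
    have e : 2 * X / q = 2 * (X / q) := by ring
    rw [e]; linarith
  have a6 : 0 ≤ (U : ℝ) * Lg := by positivity
  have a7 : 0 ≤ (q : ℝ) * Lg := by positivity
  have a8 : 0 ≤ X / q * Lg := by positivity
  calc ∑ m ∈ Ico 1 q, g m + ∑ k ∈ range B, ∑ j ∈ range q, g (q * (k + 1) + j)
      ≤ (8 * (q + q * (1 + Real.log q)) + 8 * (2 * X / q + q * (1 + Real.log q))) +
        8 * (X / q * (1 + Real.log U) + U * (1 + Real.log q)) := add_le_add hfirst hrest
    _ ≤ 24 * (q * Lg) + 24 * (X / q * Lg) + 8 * (U * Lg) := by linarith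
    _ ≤ 24 * (X / q + U + q) * Lg := by nlinarith

end Pool.Agent.Work.MP_8e4d29_nt

end

section

set_option autoImplicit false

/-!
MP_8e4d29_nt, N7b: type I sums of `FY`.
-/

namespace Pool.Agent.Work.MP_8e4d29_nt

open Finset Filter Topology
open Pool.Agent.Work.MP_122e00_nt (ee norm_ee ee_add)

namespace T1Ip

theorem ee_cont : Continuous ee := by
  unfold ee
  fun_prop

/-- integral of a function which is bounded by `P` near 0 and by `Q / |t|` elsewhere -/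
theorem int_bound (f : ℝ → ℂ) (hf : Continuous f) (T P Q : ℝ) (hT : 1 ≤ T)
    (h1 : ∀ t, |t| ≤ 1 → ‖f t‖ ≤ P) (h2 : ∀ t, 1 ≤ |t| → |t| ≤ T → ‖f t‖ ≤ Q / |t|) :
    ‖∫ t in (-T)..T, f t‖ ≤ 2 * P + 2 * (Q * Real.log T) := by
  have hi : ∀ a b : ℝ, IntervalIntegrable f MeasureTheory.volume a b :=
    fun a b => hf.intervalIntegrable a b
  have hpos : ∀ g : ℝ → ℂ, (∀ t, 1 ≤ t → t ≤ T → ‖g t‖ ≤ Q / t) →
      ‖∫ t in (1 : ℝ)..T, g t‖ ≤ Q * Real.log T := by
    intro g hg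
    have h3 : ‖∫ t in (1 : ℝ)..T, g t‖ ≤ ∫ t in (1 : ℝ)..T, Q * t⁻¹ := by
      apply intervalIntegral.norm_integral_le_of_norm_le hT
      · filter_upwards with t ht
        have := hg t ht.1.le ht.2
        rwa [div_eq_mul_inv] at this
      · apply ContinuousOn.intervalIntegrable
        intro t ht
        rw [Set.uIcc_of_le hT] at ht
        have : t ≠ 0 := by
          have := ht.1
          linarith
        exact (continuousAt_const.mul (continuousAt_inv₀ this)).continuousWithinAt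
    rw [intervalIntegral.integral_const_mul, integral_inv_of_pos one_pos (by linarith),
      div_one] at h3
    exact h3
  have e : ∫ t in (-T)..T, f t =
      (∫ t in (-T)..(-1), f t) + (∫ t in (-1 : ℝ)..1, f t) + ∫ t in (1 : ℝ)..T, f t := by
    rw [intervalIntegral.integral_add_adjacent_intervals (hi _ _) (hi _ _),
      intervalIntegral.integral_add_adjacent_intervals (hi _ _) (hi _ _)]
  have e2 : ∫ t in (-T)..(-1), f t = ∫ t in (1 : ℝ)..T, f (-t) :=
    (intervalIntegral.integral_comp_neg f).symm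
  have b1 : ‖∫ t in (1 : ℝ)..T, f (-t)‖ ≤ Q * Real.log T := by
    apply hpos
    intro t ht1 ht2
    have := h2 (-t) (by rw [abs_neg, abs_of_nonneg (by linarith)]; exact ht1)
      (by rw [abs_neg, abs_of_nonneg (by linarith)]; exact ht2)
    rwa [abs_neg, abs_of_nonneg (by linarith)] at this
  have b2 : ‖∫ t in (1 : ℝ)..T, f t‖ ≤ Q * Real.log T := by
    apply hpos
    intro t ht1 ht2
    have := h2 t (by rw [abs_of_nonneg (by linarith)]; exact ht1)
      (by rw [abs_of_nonneg (by linarith)]; exact ht2)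
    rwa [abs_of_nonneg (by linarith)] at this
  have b3 : ‖∫ t in (-1 : ℝ)..1, f t‖ ≤ P * |1 - (-1 : ℝ)| := by
    apply intervalIntegral.norm_integral_le_of_norm_le_const
    intro t ht
    rw [Set.uIoc_of_le (by norm_num)] at ht
    exact h1 t (abs_le.2 ⟨ht.1.le, ht.2⟩)
  rw [e, e2]
  refine (norm_add₃_le).trans ?_
  have : |1 - (-1 : ℝ)| = 2 := by norm_num
  rw [this] at b3
  linarith

/-- linear versus exponential growth -/
theorem growth (A B η : ℝ) (hη : 0 < η) : ∃ L0 : ℕ, ∀ L : ℕ, L0 ≤ L →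
    A + B * L ≤ ((3 : ℝ) ^ (L / 100)) ^ η := by
  have h1 : (1 : ℝ) < (3 : ℝ) ^ η := Real.one_lt_rpow (by norm_num) hη
  have h2 : Tendsto (fun k : ℕ => ((k : ℝ) ^ 1) / ((3 : ℝ) ^ η) ^ k) atTop (𝓝 0) :=
    tendsto_pow_const_div_const_pow_of_one_lt 1 h1
  have h3 : Tendsto (fun k : ℕ => ((k : ℝ) ^ 0) / ((3 : ℝ) ^ η) ^ k) atTop (𝓝 0) :=
    tendsto_pow_const_div_const_pow_of_one_lt 0 h1
  have h4 : Tendsto (fun k : ℕ => (|A| + |B| * 100) * (((k : ℝ) ^ 0) / ((3 : ℝ) ^ η) ^ k) +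
      |B| * 100 * (((k : ℝ) ^ 1) / ((3 : ℝ) ^ η) ^ k)) atTop (𝓝 0) := by
    have := (h3.const_mul (|A| + |B| * 100)).add (h2.const_mul (|B| * 100))
    simpa using this
  obtain ⟨k0, hk0⟩ := eventually_atTop.1 (h4.eventually (ge_mem_nhds (zero_lt_one' ℝ)))
  refine ⟨100 * k0, fun L hL => ?_⟩
  have hk : k0 ≤ L / 100 := by omega
  have h5 := hk0 (L / 100) hk
  have h6 : (0 : ℝ) < ((3 : ℝ) ^ η) ^ (L / 100) := by positivity
  rw [pow_zero, pow_one] at h5
  have h7 : |A| + |B| * 100 + |B| * 100 * ((L / 100 : ℕ) : ℝ) ≤ ((3 : ℝ) ^ η) ^ (L / 100) := by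
    have : (|A| + |B| * 100) * (1 / ((3 : ℝ) ^ η) ^ (L / 100)) +
      |B| * 100 * (((L / 100 : ℕ) : ℝ) / ((3 : ℝ) ^ η) ^ (L / 100)) =
      (|A| + |B| * 100 + |B| * 100 * ((L / 100 : ℕ) : ℝ)) / ((3 : ℝ) ^ η) ^ (L / 100) := by
      ring
    rw [this, div_le_one h6] at h5
    exact h5
  have h8 : ((3 : ℝ) ^ (L / 100)) ^ η = ((3 : ℝ) ^ η) ^ (L / 100) := by
    rw [← Real.rpow_natCast, ← Real.rpow_natCast, ← Real.rpow_mul (by norm_num),
      ← Real.rpow_mul (by norm_num), mul_comm]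
  rw [h8]
  refine le_trans ?_ h7
  have h9 : (L : ℝ) ≤ 100 * ((L / 100 : ℕ) : ℝ) + 100 := by
    have : L ≤ 100 * (L / 100) + 100 := by omega
    exact_mod_cast this
  have h10 : B * L ≤ |B| * (100 * ((L / 100 : ℕ) : ℝ) + 100) := by
    calc B * L ≤ |B| * L := mul_le_mul_of_nonneg_right (le_abs_self B) (by positivity)
      _ ≤ _ := mul_le_mul_of_nonneg_left h9 (abs_nonneg B)
  have h11 := le_abs_self A
  linarith

theorem kY_cont (L c : ℕ) (T : ℝ) : Continuous (kY L c T) := by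
  unfold kY
  have h1 : Continuous fun t : ℝ => ((1 - |t| / T - max 0 (1 - |t| / ((3 : ℝ) ^ py0 L / 8)) : ℝ) : ℂ) := by
    refine Complex.continuous_ofReal.comp ?_
    fun_prop
  refine h1.mul ?_
  refine continuous_finsetSum _ fun y _ => ?_
  exact ee_cont.comp (by fun_prop)

end T1Ip

open T1Ip

theorem claimT1I (h0 : ClaimSizF) (h1 : ClaimKY) (h2 : ClaimNsum) : ClaimT1I := by
  obtain ⟨L0, hS⟩ := h0
  obtain ⟨C, η, hC, hη, hη1, hKY⟩ := h1
  obtain ⟨C', hN⟩ := h2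
  refine ⟨η / 2, by linarith, fun CT hCT => ?_⟩
  obtain ⟨L1, hK⟩ := hKY CT hCT
  obtain ⟨L2, hG⟩ := growth (C * (12 + 14 * |C'| * Real.log CT)) (C * (14 * |C'| * 2)) (η / 2)
    (by linarith)
  obtain ⟨L3, hG3⟩ := growth (64 * CT) 0 1 one_pos
  refine ⟨max (max L0 L1) (max L2 (max L3 4)), fun L c m A B hL hc hm1 hm hA hAB hB => ?_⟩
  have hL0 : L0 ≤ L := by omega
  have hL1 : L1 ≤ L := by omega
  have hL2 : L2 ≤ L := by omega
  have hL3 : L3 ≤ L := by omega
  have hL4 : 4 ≤ L := by omega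
  have S := hS L hL0
  obtain ⟨hint, hbd, -⟩ := hK L c hL1 hc
  have hgr := hG L hL2
  have hgr3 := hG3 L hL3
  rw [zero_mul, add_zero, Real.rpow_one] at hgr3
  have hY : (3 : ℝ) ^ py0 L = (3 : ℝ) ^ (L / 100) := rfl
  rw [← hY] at hgr hgr3
  set Y : ℝ := (3 : ℝ) ^ py0 L with hYd
  have hYpos : 0 < Y := by positivity
  have hH0 : (0 : ℝ) < (pH L : ℝ) := by
    unfold pH
    positivity
  have hHle : (pH L : ℝ) ≤ 3 ^ L := by
    unfold pH
    push_cast
    exact pow_le_pow_right₀ (by norm_num) S.z20'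
  set T : ℝ := CT * 3 ^ L / pH L with hT
  have hT1 : 1 ≤ T := by
    rw [hT, le_div_iff₀ hH0, one_mul]
    have : (0 : ℝ) < 3 ^ L := by positivity
    nlinarith
  have hNpos : (0 : ℝ) < (3 : ℝ) ^ L := by positivity
  have hmpos : (0 : ℝ) < m := by exact_mod_cast hm1
  -- the upper bounds for `T`
  have hTle : T ≤ CT * ((3 : ℝ) ^ L) ^ ((23 : ℝ) / 100) := by
    rw [hT, div_le_iff₀ hH0]
    have h3 := S.z4
    push_cast at h3
    have h4 : (3 : ℝ) ^ L = ((3 : ℝ) ^ L) ^ ((23 : ℝ) / 100) * ((3 : ℝ) ^ L) ^ ((77 : ℝ) / 100) := by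
      rw [← Real.rpow_add hNpos]
      norm_num
    have h5 : (0 : ℝ) ≤ ((3 : ℝ) ^ L) ^ ((23 : ℝ) / 100) := by positivity
    calc CT * (3 : ℝ) ^ L = CT * (((3 : ℝ) ^ L) ^ ((23 : ℝ) / 100) *
          ((3 : ℝ) ^ L) ^ ((77 : ℝ) / 100)) := by rw [← h4]
      _ ≤ CT * (((3 : ℝ) ^ L) ^ ((23 : ℝ) / 100) * pH L) :=
          mul_le_mul_of_nonneg_left (mul_le_mul_of_nonneg_left h3 h5) (by linarith)
      _ = _ := by ring
  have hlogT : Real.log T ≤ Real.log CT + 2 * L := by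
    have h3 : Real.log T ≤ Real.log (CT * (3 : ℝ) ^ L) := by
      apply Real.log_le_log (by linarith)
      rw [hT, div_le_iff₀ hH0]
      have h4 : (1 : ℝ) ≤ pH L := by
        unfold pH
        push_cast
        exact one_le_pow₀ (by norm_num)
      have h5 : (0 : ℝ) ≤ CT * (3 : ℝ) ^ L := by positivity
      nlinarith
    rw [Real.log_mul (by linarith) hNpos.ne', Real.log_pow] at h3
    have h4 : Real.log 3 ≤ 2 := by
      have := Real.log_le_sub_one_of_pos (show (0 : ℝ) < 3 by norm_num)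
      linarith
    have h5 : (L : ℝ) * Real.log 3 ≤ L * 2 := mul_le_mul_of_nonneg_left h4 (by positivity)
    linarith
  -- the sum over `n`
  set a : ℕ := A / m + 1 with ha
  set b : ℕ := B / m + 1 with hb
  have hIoc : Ioc (A / m) (B / m) = Ico a b := by
    ext n
    simp only [Finset.mem_Ioc, Finset.mem_Ico, ha, hb]
    omega
  have ha0 : 1 ≤ a := Nat.succ_le_succ (Nat.zero_le _)
  have hN3 : (3 : ℝ) ^ L ≤ 2 * A + 1 := by
    have h3 : 3 ^ L ≤ 2 * A + 1 := by omega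
    exact_mod_cast h3
  have h9 : (9 : ℝ) ≤ (3 : ℝ) ^ L := by
    calc (9 : ℝ) = 3 ^ 2 := by norm_num
      _ ≤ 3 ^ L := pow_le_pow_right₀ (by norm_num) (by omega)
  have ha1 : (A : ℝ) / m ≤ a := by
    have h3 : (A : ℝ) ≤ m * a := by
      have := Nat.lt_mul_div_succ A (show 0 < m by omega)
      have h4 : A ≤ m * a := by rw [ha]; exact this.le
      exact_mod_cast h4
    rw [div_le_iff₀ hmpos]
    linarith
  have hTa : T ≤ (a : ℝ) / 4 := by
    have h3 : ((3 : ℝ) ^ L) / (4 * m) ≤ a := by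
      refine le_trans ?_ ha1
      rw [div_le_div_iff₀ (by positivity) hmpos]
      nlinarith
    have h4 : (m : ℝ) ≤ ((3 : ℝ) ^ L) ^ ((1 : ℝ) / 4) := by
      have h5 : (m : ℝ) ≤ (3 : ℝ) ^ (L / 4) := by exact_mod_cast hm
      refine h5.trans ?_
      rw [← Real.rpow_natCast, ← Real.rpow_natCast, ← Real.rpow_mul (by norm_num)]
      apply Real.rpow_le_rpow_of_exponent_le (by norm_num)
      have h6 : (4 * (L / 4 : ℕ) : ℝ) ≤ L := by
        have : 4 * (L / 4) ≤ L := by omega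
        exact_mod_cast this
      linarith
    -- 16 CT (3^L)^(0.23) (3^L)^(1/4) ≤ 3^L
    have h7 : 64 * CT ≤ ((3 : ℝ) ^ L) ^ ((1 : ℝ) / 100) := by
      refine hgr3.trans ?_
      rw [hYd, ← Real.rpow_natCast, ← Real.rpow_natCast, ← Real.rpow_mul (by norm_num)]
      apply Real.rpow_le_rpow_of_exponent_le (by norm_num)
      have h6 : (100 * (L / 100 : ℕ) : ℝ) ≤ L := by
        have : 100 * (L / 100) ≤ L := by omega
        exact_mod_cast this
      unfold py0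
      linarith
    have h8 : ((3 : ℝ) ^ L) ^ ((1 : ℝ) / 100) * ((3 : ℝ) ^ L) ^ ((23 : ℝ) / 100) *
        ((3 : ℝ) ^ L) ^ ((1 : ℝ) / 4) ≤ (3 : ℝ) ^ L := by
      rw [← Real.rpow_add hNpos, ← Real.rpow_add hNpos]
      calc ((3 : ℝ) ^ L) ^ ((1 : ℝ) / 100 + 23 / 100 + 1 / 4) ≤ ((3 : ℝ) ^ L) ^ (1 : ℝ) :=
            Real.rpow_le_rpow_of_exponent_le (by linarith) (by norm_num)
        _ = (3 : ℝ) ^ L := Real.rpow_one _
    have h10 : 64 * CT * ((3 : ℝ) ^ L) ^ ((23 : ℝ) / 100) * m ≤ (3 : ℝ) ^ L := by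
      refine le_trans ?_ h8
      apply mul_le_mul _ h4 hmpos.le (by positivity)
      exact mul_le_mul_of_nonneg_right h7 (by positivity)
    have h11 : 4 * T ≤ ((3 : ℝ) ^ L) / (4 * m) := by
      rw [le_div_iff₀ (by positivity)]
      have : T * m ≤ CT * ((3 : ℝ) ^ L) ^ ((23 : ℝ) / 100) * m :=
        mul_le_mul_of_nonneg_right hTle hmpos.le
      nlinarith
    linarith
  have hbm : ((b : ℝ) + 1) ≤ 7 * 3 ^ L / m := by
    have h3 : ((B / m : ℕ) : ℝ) ≤ B / m := Nat.cast_div_le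
    have h4 : (B : ℝ) ≤ 5 * 3 ^ L := by exact_mod_cast hB
    have h5 : (2 : ℝ) ≤ 2 * 3 ^ L / m := by
      rw [le_div_iff₀ hmpos]
      have : (m : ℝ) ≤ 3 ^ L := by
        have h6 : m ≤ 3 ^ L := hm.trans (Nat.pow_le_pow_right (by norm_num) (by omega))
        exact_mod_cast h6
      linarith
    have h6 : (B : ℝ) / m ≤ 5 * 3 ^ L / m := div_le_div_of_nonneg_right h4 hmpos.le
    rw [hb]
    push_cast
    have h7 : 7 * (3 : ℝ) ^ L / m = 5 * 3 ^ L / m + 2 * 3 ^ L / m := by ring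
    linarith
  have hcnt : ((Ico a b).card : ℝ) ≤ 6 * 3 ^ L / m := by
    rw [Nat.card_Ico]
    have h3 : ((B / m : ℕ) : ℝ) ≤ B / m := Nat.cast_div_le
    have h4 : (B : ℝ) ≤ 5 * 3 ^ L := by exact_mod_cast hB
    have h5 : ((b - a : ℕ) : ℝ) ≤ ((B / m : ℕ) : ℝ) := by
      have : b - a ≤ B / m := by
        rw [ha, hb, Nat.add_sub_add_right]
        exact Nat.sub_le _ _
      exact_mod_cast this
    have h6 : (B : ℝ) / m ≤ 5 * 3 ^ L / m := div_le_div_of_nonneg_right h4 hmpos.le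
    have h7 : 5 * (3 : ℝ) ^ L / m ≤ 6 * 3 ^ L / m :=
      div_le_div_of_nonneg_right (by linarith) hmpos.le
    linarith
  set f : ℝ → ℂ := fun t => kY L c T t * ∑ n ∈ Ico a b, ee (t * Real.log ((m * n : ℕ) : ℝ)) with hf
  have hfc : Continuous f := by
    refine (kY_cont L c T).mul ?_
    refine continuous_finsetSum _ fun n _ => ?_
    exact ee_cont.comp (by fun_prop)
  have hnb : ∀ n ∈ Ico a b, 1 ≤ n := by
    intro n hn
    rw [Finset.mem_Ico] at hn
    exact le_trans ha0 hn.1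
  have hsum : ((∑ n ∈ Ioc (A / m) (B / m), FY L c T (m * n) : ℝ) : ℂ) = ∫ t in (-T)..T, f t := by
    rw [hIoc]
    push_cast
    have h3 : ∀ n ∈ Ico a b, (FY L c T (m * n) : ℂ) =
        ∫ t in (-T)..T, kY L c T t * ee (t * Real.log ((m * n : ℕ) : ℝ)) := by
      intro n hn
      exact hint (m * n) (Nat.mul_pos hm1 (hnb n hn))
    rw [Finset.sum_congr rfl h3, ← intervalIntegral.integral_finsetSum]
    · rw [hf]
      simp only [Finset.mul_sum]
    · intro n _
      exact ((kY_cont L c T).mul (ee_cont.comp (by fun_prop))).intervalIntegrable _ _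
  have hkn : ∀ t, |t| ≤ T → ‖kY L c T t‖ ≤ C * Y ^ (1 - η) := fun t ht => hbd t ht
  have hYr : (0 : ℝ) < Y ^ (1 - η) := by positivity
  have hfn1 : ∀ t, |t| ≤ 1 → ‖f t‖ ≤ C * Y ^ (1 - η) * (6 * 3 ^ L / m) := by
    intro t ht
    rw [hf]
    simp only
    rw [norm_mul]
    apply mul_le_mul (hkn t (ht.trans hT1)) _ (norm_nonneg _) (by positivity)
    refine (norm_sum_le _ _).trans ?_
    simp only [norm_ee, Finset.sum_const, nsmul_eq_mul, mul_one]
    exact hcnt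
  have hfn2 : ∀ t, 1 ≤ |t| → |t| ≤ T →
      ‖f t‖ ≤ C * Y ^ (1 - η) * (|C'| * (7 * 3 ^ L / m)) / |t| := by
    intro t ht1 ht2
    have htpos : 0 < |t| := by linarith
    rw [hf]
    simp only
    rw [norm_mul, mul_div_assoc]
    apply mul_le_mul (hkn t ht2) _ (norm_nonneg _) (by positivity)
    have h3 : ∑ n ∈ Ico a b, ee (t * Real.log ((m * n : ℕ) : ℝ)) =
        ee (t * Real.log m) * ∑ n ∈ Ico a b, ee (t * Real.log ((n : ℝ) + 0)) := by
      rw [Finset.mul_sum]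
      refine Finset.sum_congr rfl fun n hn => ?_
      have hn1 : (n : ℝ) ≠ 0 := by
        have := hnb n hn
        positivity
      rw [← ee_add]
      congr 1
      push_cast
      rw [Real.log_mul hmpos.ne' hn1, add_zero]
      ring
    rw [h3, norm_mul, norm_ee, one_mul]
    have h4 := hN a b 0 t ha0 le_rfl zero_le_one htpos (ht2.trans hTa)
    refine h4.trans ?_
    rw [div_le_div_iff_of_pos_right htpos]
    calc C' * ((b : ℝ) + 1) ≤ |C'| * ((b : ℝ) + 1) :=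
          mul_le_mul_of_nonneg_right (le_abs_self _) (by positivity)
      _ ≤ |C'| * (7 * 3 ^ L / m) := mul_le_mul_of_nonneg_left hbm (abs_nonneg _)
  have hfin := int_bound f hfc T _ _ hT1 hfn1 hfn2
  rw [← hsum, Complex.norm_real, Real.norm_eq_abs] at hfin
  refine hfin.trans ?_
  have h12 : 2 * (C * Y ^ (1 - η) * (6 * 3 ^ L / m)) +
      2 * (C * Y ^ (1 - η) * (|C'| * (7 * 3 ^ L / m)) * Real.log T) =
      (3 ^ L / m) * Y ^ (1 - η) * (C * (12 + 14 * |C'| * Real.log T)) := by ring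
  rw [h12]
  have h13 : C * (12 + 14 * |C'| * Real.log T) ≤ Y ^ (η / 2) := by
    refine le_trans ?_ hgr
    have h14 : 14 * |C'| * Real.log T ≤ 14 * |C'| * (Real.log CT + 2 * L) :=
      mul_le_mul_of_nonneg_left hlogT (by positivity)
    have h15 : C * (12 + 14 * |C'| * Real.log T) ≤
        C * (12 + 14 * |C'| * (Real.log CT + 2 * L)) :=
      mul_le_mul_of_nonneg_left (by linarith) hC.le
    linarith
  have h16 : (3 : ℝ) ^ L / m * Y ^ (1 - η) * (C * (12 + 14 * |C'| * Real.log T)) ≤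
      (3 : ℝ) ^ L / m * Y ^ (1 - η) * Y ^ (η / 2) :=
    mul_le_mul_of_nonneg_left h13 (by positivity)
  refine h16.trans (le_of_eq ?_)
  rw [mul_assoc, ← Real.rpow_add hYpos]
  congr 2
  ring

end Pool.Agent.Work.MP_8e4d29_nt

end

section

/-!
MP_8e4d29_nt, item N7c: type II sums of `FY`.
-/

namespace Pool.Agent.Work.MP_8e4d29_nt

open Finset
open Pool.Agent.Work.MP_122e00_nt (ee norm_ee ee_add)

namespace T1II

theorem continuous_ee' : Continuous ee := by
  unfold ee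
  fun_prop

theorem continuous_kY (L c : ℕ) (T : ℝ) : Continuous (kY L c T) := by
  unfold kY
  apply Continuous.mul
  · apply Complex.continuous_ofReal.comp
    fun_prop
  · apply continuous_finsetSum
    intro y _
    apply continuous_ee'.comp
    fun_prop

/-- bilinear sums with a kernel given by a Fourier integral -/
theorem inside_bound (M P : ℕ) (hM : 1 ≤ M) (hP : 1 ≤ P) (k : ℝ → ℂ) (hk : Continuous k)
    (T K0 : ℝ) (hT : 0 ≤ T) (hK0 : 0 ≤ K0) (hK : ∀ t, |t| ≤ T → ‖k t‖ ≤ K0) (F : ℕ → ℂ)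
    (hF : ∀ n : ℕ, 1 ≤ n → F n = ∫ t in (-T)..T, k t * ee (t * Real.log (n : ℝ))) (a b : ℕ → ℂ)
    (IA IB : ℝ)
    (hA : ∫ t in (-T)..T, ‖∑ m ∈ Ioc M (2 * M), a m * ee (t * Real.log (m : ℝ))‖ ^ 2 ≤ IA)
    (hB : ∫ t in (-T)..T, ‖∑ m ∈ Ioc P (2 * P), b m * ee (t * Real.log (m : ℝ))‖ ^ 2 ≤ IB) :
    ‖∑ m ∈ Ioc M (2 * M), ∑ n ∈ Ioc P (2 * P), a m * b n * F (m * n)‖ ≤
      K0 * ((P / M : ℝ) * IA + (M / P : ℝ) * IB) / 2 := by
  set A : ℝ → ℂ := fun t => ∑ m ∈ Ioc M (2 * M), a m * ee (t * Real.log (m : ℝ)) with hAdef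
  set B : ℝ → ℂ := fun t => ∑ m ∈ Ioc P (2 * P), b m * ee (t * Real.log (m : ℝ)) with hBdef
  have hce : ∀ x : ℝ, Continuous (fun t : ℝ => ee (t * x)) := by
    intro x
    apply continuous_ee'.comp
    fun_prop
  have hAc : Continuous A := by
    rw [hAdef]
    apply continuous_finsetSum
    intro m _
    exact continuous_const.mul (hce _)
  have hBc : Continuous B := by
    rw [hBdef]
    apply continuous_finsetSum
    intro m _
    exact continuous_const.mul (hce _)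
  have e : ∑ m ∈ Ioc M (2 * M), ∑ n ∈ Ioc P (2 * P), a m * b n * F (m * n) =
      ∫ t in (-T)..T, k t * (A t * B t) := by
    have h1 : ∀ t : ℝ, k t * (A t * B t) = ∑ m ∈ Ioc M (2 * M), ∑ n ∈ Ioc P (2 * P),
        a m * b n * (k t * ee (t * Real.log ((m * n : ℕ) : ℝ))) := by
      intro t
      rw [hAdef, hBdef]
      simp only
      rw [Finset.sum_mul_sum, Finset.mul_sum]
      apply Finset.sum_congr rfl
      intro m hm
      rw [Finset.mul_sum]
      apply Finset.sum_congr rfl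
      intro n hn
      rw [Finset.mem_Ioc] at hm hn
      have hm0 : (m : ℝ) ≠ 0 := by
        have : 0 < m := by omega
        positivity
      have hn0 : (n : ℝ) ≠ 0 := by
        have : 0 < n := by omega
        positivity
      have h2 : Real.log ((m * n : ℕ) : ℝ) = Real.log m + Real.log n := by
        push_cast
        exact Real.log_mul hm0 hn0
      rw [h2, mul_add, ee_add]
      ring
    simp_rw [h1]
    rw [intervalIntegral.integral_finsetSum]
    · apply Finset.sum_congr rfl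
      intro m hm
      rw [intervalIntegral.integral_finsetSum]
      · apply Finset.sum_congr rfl
        intro n hn
        rw [Finset.mem_Ioc] at hm hn
        rw [intervalIntegral.integral_const_mul, hF (m * n) (Nat.mul_pos (by omega) (by omega))]
      · intro n _
        apply Continuous.intervalIntegrable
        exact continuous_const.mul (hk.mul (hce _))
    · intro m _
      apply Continuous.intervalIntegrable
      apply continuous_finsetSum
      intro n _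
      exact continuous_const.mul (hk.mul (hce _))
  rw [e]
  have hle : -T ≤ T := by linarith
  refine (intervalIntegral.norm_integral_le_integral_norm hle).trans ?_
  have hMr : (0 : ℝ) < M := by exact_mod_cast hM
  have hPr : (0 : ℝ) < P := by exact_mod_cast hP
  have h2 : ∫ t in (-T)..T, ‖k t * (A t * B t)‖ ≤
      ∫ t in (-T)..T, (K0 / 2 * ((P / M : ℝ) * ‖A t‖ ^ 2 + (M / P : ℝ) * ‖B t‖ ^ 2)) := by
    apply intervalIntegral.integral_mono_on hle
    · apply Continuous.intervalIntegrable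
      exact (hk.mul (hAc.mul hBc)).norm
    · apply Continuous.intervalIntegrable
      fun_prop
    · intro t ht
      rw [norm_mul, norm_mul]
      have h3 : ‖k t‖ ≤ K0 := hK t (abs_le.mpr ⟨ht.1, ht.2⟩)
      have h4 : ‖A t‖ * ‖B t‖ ≤ ((P / M : ℝ) * ‖A t‖ ^ 2 + (M / P : ℝ) * ‖B t‖ ^ 2) / 2 := by
        have h5 : ((P / M : ℝ) * ‖A t‖ ^ 2 + (M / P : ℝ) * ‖B t‖ ^ 2) / 2 - ‖A t‖ * ‖B t‖ =
            (P * ‖A t‖ - M * ‖B t‖) ^ 2 / (2 * (M * P)) := by
          field_simp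
          ring
        have h6 : 0 ≤ (P * ‖A t‖ - M * ‖B t‖) ^ 2 / (2 * (M * P)) := by positivity
        linarith
      calc ‖k t‖ * (‖A t‖ * ‖B t‖) ≤
          K0 * (((P / M : ℝ) * ‖A t‖ ^ 2 + (M / P : ℝ) * ‖B t‖ ^ 2) / 2) :=
            mul_le_mul h3 h4 (by positivity) hK0
        _ = _ := by ring
  refine h2.trans ?_
  rw [intervalIntegral.integral_const_mul, intervalIntegral.integral_add,
    intervalIntegral.integral_const_mul, intervalIntegral.integral_const_mul]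
  · have h3 : (P / M : ℝ) * ∫ t in (-T)..T, ‖A t‖ ^ 2 ≤ (P / M : ℝ) * IA :=
      mul_le_mul_of_nonneg_left hA (by positivity)
    have h4 : (M / P : ℝ) * ∫ t in (-T)..T, ‖B t‖ ^ 2 ≤ (M / P : ℝ) * IB :=
      mul_le_mul_of_nonneg_left hB (by positivity)
    calc K0 / 2 * ((P / M : ℝ) * (∫ t in (-T)..T, ‖A t‖ ^ 2) +
        (M / P : ℝ) * ∫ t in (-T)..T, ‖B t‖ ^ 2) ≤
        K0 / 2 * ((P / M : ℝ) * IA + (M / P : ℝ) * IB) :=
          mul_le_mul_of_nonneg_left (add_le_add h3 h4) (by positivity)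
      _ = _ := by ring
  · apply Continuous.intervalIntegrable
    fun_prop
  · apply Continuous.intervalIntegrable
    fun_prop

/-- index of the part -/
def prt (M m : ℕ) : ℕ := (8 * (m - M) - 1) / M

theorem prt_lt {M m : ℕ} (hm : m ∈ Ioc M (2 * M)) : prt M m < 8 := by
  rw [Finset.mem_Ioc] at hm
  unfold prt
  rw [Nat.div_lt_iff_lt_mul (by omega)]
  omega

theorem prt_bounds {M m : ℕ} (hm : m ∈ Ioc M (2 * M)) :
    M * (8 + prt M m) < 8 * m ∧ 8 * m ≤ M * (9 + prt M m) := by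
  rw [Finset.mem_Ioc] at hm
  have hM : 0 < M := by omega
  unfold prt
  have h1 := Nat.div_add_mod (8 * (m - M) - 1) M
  have h2 := Nat.mod_lt (8 * (m - M) - 1) hM
  set q := (8 * (m - M) - 1) / M
  have h3 : M * (8 + q) = 8 * M + M * q := by ring
  have h4 : M * (9 + q) = 9 * M + M * q := by ring
  rw [h3, h4]
  omega

theorem prt_ratio {M m m' : ℕ} (hm : m ∈ Ioc M (2 * M)) (hm' : m' ∈ Ioc M (2 * M))
    (h : prt M m = prt M m') : 8 * m ≤ 9 * m' := by
  have h1 := (prt_bounds hm).2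
  have h2 := (prt_bounds hm').1
  rw [h] at h1
  have h3 : 8 * (M * (9 + prt M m')) ≤ 9 * (M * (8 + prt M m')) := by nlinarith
  omega

theorem sum_tau_le {C : ℕ} (k : ℕ) (hC : ∀ x : ℕ, 1 ≤ x →
    ∑ n ∈ Icc 1 x, tau n ^ k ≤ x * (2 + Real.log x) ^ C) {M : ℕ} (hM : 1 ≤ M) {l : ℝ}
    (hl : 2 + Real.log ((2 * M : ℕ) : ℝ) ≤ l) :
    ∑ m ∈ Ioc M (2 * M), tau m ^ k ≤ 2 * M * l ^ C := by
  have h1 : ∑ m ∈ Ioc M (2 * M), tau m ^ k ≤ ∑ m ∈ Icc 1 (2 * M), tau m ^ k := by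
    apply Finset.sum_le_sum_of_subset_of_nonneg
    · intro m hm
      rw [Finset.mem_Ioc] at hm
      rw [Finset.mem_Icc]
      omega
    · intro m _ _
      unfold tau
      positivity
  refine h1.trans ((hC (2 * M) (by omega)).trans ?_)
  have h2 : 0 ≤ Real.log ((2 * M : ℕ) : ℝ) := Real.log_natCast_nonneg _
  have h3 : (2 + Real.log ((2 * M : ℕ) : ℝ)) ^ C ≤ l ^ C := pow_le_pow_left₀ (by linarith) hl C
  calc ((2 * M : ℕ) : ℝ) * (2 + Real.log ((2 * M : ℕ) : ℝ)) ^ C ≤ ((2 * M : ℕ) : ℝ) * l ^ C :=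
        mul_le_mul_of_nonneg_left h3 (Nat.cast_nonneg _)
    _ = 2 * M * l ^ C := by push_cast; ring

theorem tau_nonneg (n : ℕ) : 0 ≤ tau n := by
  unfold tau
  positivity

/-- the mean square for one part -/
theorem mv_part (h2 : ClaimMV) {C2 : ℕ} (hC2 : ∀ x : ℕ, 1 ≤ x →
    ∑ n ∈ Icc 1 x, tau n ^ 2 ≤ x * (2 + Real.log x) ^ C2) {M : ℕ} (hM : 1 ≤ M) {l T : ℝ}
    (hT0 : 0 ≤ T) (hT : T ≤ 2 * M) (hl1 : 1 ≤ l) (hl : 2 + Real.log ((2 * M : ℕ) : ℝ) ≤ l)
    (a : ℕ → ℂ) (ha : ∀ m, ‖a m‖ ≤ tau m) :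
    ∫ t in (-T)..T, ‖∑ m ∈ Ioc M (2 * M), a m * ee (t * Real.log (m : ℝ))‖ ^ 2 ≤
      40 * (M : ℝ) ^ 2 * l ^ (C2 + 1) := by
  refine (h2 M a T hM hT0).trans ?_
  have hMr : (1 : ℝ) ≤ M := by exact_mod_cast hM
  have h3 : ∑ m ∈ Ioc M (2 * M), ‖a m‖ ^ 2 ≤ 2 * M * l ^ C2 := by
    refine le_trans (Finset.sum_le_sum ?_) (sum_tau_le 2 hC2 hM hl)
    intro m _
    exact pow_le_pow_left₀ (norm_nonneg _) (ha m) 2
  have h4 : 2 * T + 16 * M * (2 + Real.log M) ≤ 20 * M * l := by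
    have h5 : Real.log (M : ℝ) ≤ Real.log ((2 * M : ℕ) : ℝ) := by
      apply Real.log_le_log (by linarith)
      push_cast
      linarith
    have h6 : (2 : ℝ) + Real.log M ≤ l := by linarith
    have h7 : 16 * (M : ℝ) * (2 + Real.log M) ≤ 16 * M * l :=
      mul_le_mul_of_nonneg_left h6 (by linarith)
    have h8 : (4 * M : ℝ) * 1 ≤ 4 * M * l := mul_le_mul_of_nonneg_left hl1 (by linarith)
    linarith
  calc (2 * T + 16 * M * (2 + Real.log M)) * ∑ m ∈ Ioc M (2 * M), ‖a m‖ ^ 2 ≤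
      (20 * M * l) * (2 * M * l ^ C2) := by
        apply mul_le_mul h4 h3
        · exact Finset.sum_nonneg (fun i _ => by positivity)
        · positivity
    _ = 40 * (M : ℝ) ^ 2 * l ^ (C2 + 1) := by ring

/-- powers of `L` are small compared to powers of `Y` -/
theorem eventually_small (C' : ℝ) (C3 : ℕ) (δ : ℝ) (hδ : 0 < δ) : ∃ L0 : ℕ, ∀ L : ℕ, L0 ≤ L →
    C' * (10 * (L : ℝ)) ^ C3 ≤ ((3 : ℝ) ^ py0 L) ^ δ := by
  have hlog : 0 < Real.log 3 := Real.log_pos (by norm_num)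
  have h1 := (isLittleO_pow_exp_pos_mul_atTop (b := δ * Real.log 3 / 100) C3 (by positivity)).bound
    (c := Real.exp (-(δ * Real.log 3)) / ((|C'| + 1) * 10 ^ C3)) (by positivity)
  have h2 := tendsto_natCast_atTop_atTop (R := ℝ) |>.eventually h1
  rw [Filter.eventually_atTop] at h2
  obtain ⟨L0, h2⟩ := h2
  refine ⟨L0, ?_⟩
  intro L hL
  have h3 := h2 L hL
  rw [Real.norm_of_nonneg (by positivity), Real.norm_of_nonneg (Real.exp_pos _).le] at h3
  have h4 : ((3 : ℝ) ^ py0 L) ^ δ = Real.exp (δ * Real.log 3 * py0 L) := by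
    rw [← Real.rpow_natCast 3 (py0 L), ← Real.rpow_mul (by norm_num),
      Real.rpow_def_of_pos (by norm_num)]
    congr 1
    ring
  have h5 : (L : ℝ) / 100 - 1 ≤ py0 L := by
    unfold py0
    have h6 : L < 100 * (L / 100) + 100 := by omega
    have h7 : (L : ℝ) < 100 * ((L / 100 : ℕ) : ℝ) + 100 := by exact_mod_cast h6
    linarith
  have h6 : Real.exp (-(δ * Real.log 3)) * Real.exp (δ * Real.log 3 / 100 * L) ≤
      ((3 : ℝ) ^ py0 L) ^ δ := by
    rw [h4, ← Real.exp_add]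
    apply Real.exp_le_exp.mpr
    have h7 : δ * Real.log 3 * ((L : ℝ) / 100 - 1) ≤ δ * Real.log 3 * py0 L :=
      mul_le_mul_of_nonneg_left h5 (by positivity)
    linarith
  refine le_trans ?_ h6
  have h7 : C' * (10 * (L : ℝ)) ^ C3 ≤ ((|C'| + 1) * 10 ^ C3) * (L : ℝ) ^ C3 := by
    rw [mul_pow, ← mul_assoc]
    apply mul_le_mul_of_nonneg_right _ (by positivity)
    apply mul_le_mul_of_nonneg_right _ (by positivity)
    have := le_abs_self C'
    linarith
  refine h7.trans ?_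
  calc ((|C'| + 1) * 10 ^ C3) * (L : ℝ) ^ C3 ≤ ((|C'| + 1) * 10 ^ C3) *
        (Real.exp (-(δ * Real.log 3)) / ((|C'| + 1) * 10 ^ C3) *
          Real.exp (δ * Real.log 3 / 100 * L)) := mul_le_mul_of_nonneg_left h3 (by positivity)
    _ = Real.exp (-(δ * Real.log 3)) * Real.exp (δ * Real.log 3 / 100 * L) := by
        have : (|C'| + 1) * 10 ^ C3 ≠ 0 := by positivity
        field_simp

/-- splitting a bilinear sum into parts -/
theorem split_sum (M P : ℕ) (cond : ℕ → ℕ → Prop) [∀ m n, Decidable (cond m n)] (a b : ℕ → ℂ)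
    (F : ℕ → ℂ) :
    ∑ m ∈ Ioc M (2 * M), ∑ n ∈ Ioc P (2 * P), (if cond m n then a m * b n * F (m * n) else 0) =
      ∑ i ∈ range 8, ∑ j ∈ range 8, ∑ m ∈ Ioc M (2 * M), ∑ n ∈ Ioc P (2 * P),
        (if cond m n then (if prt M m = i then a m else 0) * (if prt P n = j then b n else 0) *
          F (m * n) else 0) := by
  have e1 : ∀ i, ∑ j ∈ range 8, ∑ m ∈ Ioc M (2 * M), ∑ n ∈ Ioc P (2 * P),
        (if cond m n then (if prt M m = i then a m else 0) * (if prt P n = j then b n else 0) *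
          F (m * n) else 0) = ∑ m ∈ Ioc M (2 * M), ∑ n ∈ Ioc P (2 * P),
        (if cond m n then (if prt M m = i then a m else 0) * b n * F (m * n) else 0) := by
    intro i
    rw [Finset.sum_comm]
    apply Finset.sum_congr rfl
    intro m _
    rw [Finset.sum_comm]
    apply Finset.sum_congr rfl
    intro n hn
    by_cases hc : cond m n
    · simp only [hc, if_true]
      rw [← Finset.sum_mul, ← Finset.mul_sum, Finset.sum_ite_eq,
        if_pos (Finset.mem_range.mpr (prt_lt hn))]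
    · simp only [hc, if_false, Finset.sum_const_zero]
  simp_rw [e1]
  symm
  rw [Finset.sum_comm]
  apply Finset.sum_congr rfl
  intro m hm
  rw [Finset.sum_comm]
  apply Finset.sum_congr rfl
  intro n _
  by_cases hc : cond m n
  · simp only [hc, if_true]
    rw [← Finset.sum_mul, ← Finset.sum_mul, Finset.sum_ite_eq,
      if_pos (Finset.mem_range.mpr (prt_lt hm))]
  · simp only [hc, if_false, Finset.sum_const_zero]

/-- one pair of parts -/
theorem one_pair (N3 M P : ℕ) (i j : ℕ) (a b : ℕ → ℂ) (F : ℕ → ℂ) (Bin Bout C : ℝ)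
    (hFar : ∀ n : ℕ, 1 ≤ n → (100 * n ≤ 64 * N3 ∨ 390 * N3 ≤ 100 * n) → ‖F n‖ ≤ C)
    (hC : 0 ≤ C) (ha : ∀ m, ‖a m‖ ≤ tau m) (hb : ∀ n, ‖b n‖ ≤ tau n)
    (hin : ‖∑ m ∈ Ioc M (2 * M), ∑ n ∈ Ioc P (2 * P), (if prt M m = i then a m else 0) *
      (if prt P n = j then b n else 0) * F (m * n)‖ ≤ Bin)
    (hout : C * ((∑ m ∈ Ioc M (2 * M), tau m) * ∑ n ∈ Ioc P (2 * P), tau n) ≤ Bout) :
    ‖∑ m ∈ Ioc M (2 * M), ∑ n ∈ Ioc P (2 * P),
        (if N3 / 2 < m * n ∧ m * n ≤ 5 * N3 then (if prt M m = i then a m else 0) *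
          (if prt P n = j then b n else 0) * F (m * n) else 0)‖ ≤ Bin + Bout := by
  have hBin : 0 ≤ Bin := (norm_nonneg _).trans hin
  have hBout : 0 ≤ Bout := by
    refine le_trans ?_ hout
    apply mul_nonneg hC
    apply mul_nonneg
    · exact Finset.sum_nonneg (fun m _ => tau_nonneg m)
    · exact Finset.sum_nonneg (fun m _ => tau_nonneg m)
  by_cases hall : ∀ m ∈ Ioc M (2 * M), ∀ n ∈ Ioc P (2 * P), prt M m = i → prt P n = j →
      N3 / 2 < m * n ∧ m * n ≤ 5 * N3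
  · have e : ∑ m ∈ Ioc M (2 * M), ∑ n ∈ Ioc P (2 * P),
        (if N3 / 2 < m * n ∧ m * n ≤ 5 * N3 then (if prt M m = i then a m else 0) *
          (if prt P n = j then b n else 0) * F (m * n) else 0) =
        ∑ m ∈ Ioc M (2 * M), ∑ n ∈ Ioc P (2 * P), (if prt M m = i then a m else 0) *
          (if prt P n = j then b n else 0) * F (m * n) := by
      apply Finset.sum_congr rfl
      intro m hm
      apply Finset.sum_congr rfl
      intro n hn
      by_cases h1 : prt M m = i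
      · by_cases h2 : prt P n = j
        · rw [if_pos (hall m hm n hn h1 h2)]
        · simp [h2]
      · simp [h1]
    rw [e]
    linarith
  · push Not at hall
    obtain ⟨m0, hm0, n0, hn0, hi0, hj0, hbad⟩ := hall
    have hfar : ∀ m ∈ Ioc M (2 * M), ∀ n ∈ Ioc P (2 * P), prt M m = i → prt P n = j →
        ‖F (m * n)‖ ≤ C := by
      intro m hm n hn h1 h2
      have r1 := prt_ratio hm hm0 (h1.trans hi0.symm)
      have r2 := prt_ratio hn hn0 (h2.trans hj0.symm)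
      have r3 := prt_ratio hm0 hm (hi0.trans h1.symm)
      have r4 := prt_ratio hn0 hn (hj0.trans h2.symm)
      have q1 := Nat.mul_le_mul r1 r2
      have q2 := Nat.mul_le_mul r3 r4
      have q1' : 64 * (m * n) ≤ 81 * (m0 * n0) := by linarith [q1]
      have q2' : 64 * (m0 * n0) ≤ 81 * (m * n) := by linarith [q2]
      rw [Finset.mem_Ioc] at hm hn
      apply hFar
      · exact Nat.mul_pos (by omega) (by omega)
      · by_cases h3 : N3 / 2 < m0 * n0
        · right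
          have := hbad h3
          omega
        · left
          omega
    have hb2 : ‖∑ m ∈ Ioc M (2 * M), ∑ n ∈ Ioc P (2 * P),
        (if N3 / 2 < m * n ∧ m * n ≤ 5 * N3 then (if prt M m = i then a m else 0) *
          (if prt P n = j then b n else 0) * F (m * n) else 0)‖ ≤
        C * ((∑ m ∈ Ioc M (2 * M), tau m) * ∑ n ∈ Ioc P (2 * P), tau n) := by
      rw [Finset.sum_mul_sum, Finset.mul_sum]
      refine (norm_sum_le _ _).trans (Finset.sum_le_sum ?_)
      intro m hm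
      rw [Finset.mul_sum]
      refine (norm_sum_le _ _).trans (Finset.sum_le_sum ?_)
      intro n hn
      have hpos : 0 ≤ C * (tau m * tau n) :=
        mul_nonneg hC (mul_nonneg (tau_nonneg m) (tau_nonneg n))
      by_cases h0 : N3 / 2 < m * n ∧ m * n ≤ 5 * N3
      · rw [if_pos h0]
        by_cases h1 : prt M m = i
        · by_cases h2 : prt P n = j
          · rw [if_pos h1, if_pos h2, norm_mul, norm_mul]
            calc ‖a m‖ * ‖b n‖ * ‖F (m * n)‖ ≤ (tau m * tau n) * C := by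
                  apply mul_le_mul _ (hfar m hm n hn h1 h2) (norm_nonneg _)
                    (mul_nonneg (tau_nonneg m) (tau_nonneg n))
                  exact mul_le_mul (ha m) (hb n) (norm_nonneg _) (tau_nonneg m)
              _ = _ := by ring
          · simp only [h2, if_false, mul_zero, zero_mul, norm_zero]
            exact hpos
        · simp only [h1, if_false, zero_mul, norm_zero]
          exact hpos
      · rw [if_neg h0, norm_zero]
        exact hpos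
    linarith

end T1II

open T1II

/-- N7c -/
theorem claimT1II (_h0 : ClaimSizF) (h1 : ClaimKY) (h2 : ClaimMV) (h3 : ClaimTau) :
    ClaimT1II := by
  obtain ⟨C, η, hC, hη, hη1, h1⟩ := h1
  obtain ⟨C1, hC1⟩ := h3 1
  obtain ⟨C2, hC2⟩ := h3 2
  refine ⟨η / 2, by linarith, ?_⟩
  intro CT hCT
  obtain ⟨L0, h1⟩ := h1 CT hCT
  obtain ⟨L1, hsmall⟩ := eventually_small (C * (64 * 704)) (C2 + 1 + 2 * C1) (η / 2) (by linarith)
  refine ⟨max (max L0 L1) 10, ?_⟩
  intro L c M P hL hc hTP hPM hMP _ a b ha hb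
  have hL0 : L0 ≤ L := (le_max_left _ _).trans ((le_max_left _ _).trans hL)
  have hL1 : L1 ≤ L := (le_max_right _ _).trans ((le_max_left _ _).trans hL)
  have hL10 : 10 ≤ L := (le_max_right _ _).trans hL
  obtain ⟨hrep, hker, hfar⟩ := h1 L c hL0 hc
  have hHpos : (0 : ℝ) < pH L := by
    unfold pH
    positivity
  set T : ℝ := CT * 3 ^ L / pH L with hTdef
  have hT0 : 0 < T := by positivity
  have hP1 : 1 ≤ P := by
    by_contra h
    have hP0 : P = 0 := by omega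
    rw [hP0] at hTP
    simp only [Nat.cast_zero, mul_zero] at hTP
    linarith
  have hM1 : 1 ≤ M := hP1.trans hPM
  have hMr : (1 : ℝ) ≤ M := by exact_mod_cast hM1
  have hPr : (1 : ℝ) ≤ P := by exact_mod_cast hP1
  have hPMr : (P : ℝ) ≤ M := by exact_mod_cast hPM
  have hMPr : (M : ℝ) * P ≤ 16 * 3 ^ L := by exact_mod_cast hMP
  set l : ℝ := 10 * (L : ℝ) with hldef
  have hLr : (10 : ℝ) ≤ L := by exact_mod_cast hL10
  have hl1 : 1 ≤ l := by linarith
  -- the logarithms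
  have hlogM : 2 + Real.log ((2 * M : ℕ) : ℝ) ≤ l := by
    have h4 : M ≤ 16 * 3 ^ L := by
      calc M = M * 1 := (mul_one M).symm
        _ ≤ M * P := Nat.mul_le_mul_left _ hP1
        _ ≤ _ := hMP
    have h5 : 2 * M ≤ 2 ^ (5 + 2 * L) := by
      calc 2 * M ≤ 2 * (16 * 3 ^ L) := Nat.mul_le_mul_left _ h4
        _ ≤ 2 * (16 * 4 ^ L) := by
            apply Nat.mul_le_mul_left
            apply Nat.mul_le_mul_left
            exact Nat.pow_le_pow_left (by norm_num) _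
        _ = 2 ^ (5 + 2 * L) := by
            rw [pow_add, pow_mul]
            norm_num
            ring
    have h6 : Real.log ((2 * M : ℕ) : ℝ) ≤ Real.log ((2 ^ (5 + 2 * L) : ℕ) : ℝ) := by
      apply Real.log_le_log
      · have : 0 < 2 * M := by omega
        exact_mod_cast this
      · exact_mod_cast h5
    have h7 : Real.log ((2 ^ (5 + 2 * L) : ℕ) : ℝ) = (5 + 2 * L) * Real.log 2 := by
      push_cast
      rw [Real.log_pow]
      push_cast
      ring
    have h8 : (5 + 2 * (L : ℝ)) * Real.log 2 ≤ (5 + 2 * L) * 1 := by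
      apply mul_le_mul_of_nonneg_left _ (by linarith)
      have := Real.log_two_lt_d9
      linarith
    rw [h7] at h6
    linarith
  have hlogP : 2 + Real.log ((2 * P : ℕ) : ℝ) ≤ l := by
    refine le_trans ?_ hlogM
    have : Real.log ((2 * P : ℕ) : ℝ) ≤ Real.log ((2 * M : ℕ) : ℝ) := by
      apply Real.log_le_log
      · have : 0 < 2 * P := by omega
        exact_mod_cast this
      · push_cast
        linarith
    linarith
  set Y : ℝ := (3 : ℝ) ^ py0 L with hYdef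
  have hY1 : 1 ≤ Y := one_le_pow₀ (by norm_num)
  have hK0 : 0 ≤ C * Y ^ (1 - η) := by positivity
  set Bin : ℝ := C * Y ^ (1 - η) * (640 * 3 ^ L * l ^ (C2 + 1)) with hBin
  set Bout : ℝ := 64 * C * 3 ^ L * l ^ (2 * C1) with hBout
  have hkey : ∀ i j : ℕ, ‖∑ m ∈ Ioc M (2 * M), ∑ n ∈ Ioc P (2 * P),
        (if 3 ^ L / 2 < m * n ∧ m * n ≤ 5 * 3 ^ L then (if prt M m = i then a m else 0) *
          (if prt P n = j then b n else 0) * (FY L c T (m * n) : ℂ) else 0)‖ ≤ Bin + Bout := by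
    intro i j
    have ha' : ∀ m, ‖(if prt M m = i then a m else 0 : ℂ)‖ ≤ tau m := by
      intro m
      split_ifs
      · exact ha m
      · rw [norm_zero]
        exact tau_nonneg m
    have hb' : ∀ n, ‖(if prt P n = j then b n else 0 : ℂ)‖ ≤ tau n := by
      intro n
      split_ifs
      · exact hb n
      · rw [norm_zero]
        exact tau_nonneg n
    apply one_pair (3 ^ L) M P i j a b (fun n => (FY L c T n : ℂ)) Bin Bout C _ hC.le ha hb
    · have hA := mv_part h2 hC2 hM1 hT0.le (by linarith) hl1 hlogM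
        (fun m => if prt M m = i then a m else 0) ha'
      have hB := mv_part h2 hC2 hP1 hT0.le hTP hl1 hlogP
        (fun n => if prt P n = j then b n else 0) hb'
      refine (inside_bound M P hM1 hP1 (kY L c T) (continuous_kY L c T) T (C * Y ^ (1 - η)) hT0.le
        hK0 hker (fun n => (FY L c T n : ℂ)) hrep (fun m => if prt M m = i then a m else 0)
        (fun n => if prt P n = j then b n else 0) _ _ hA hB).trans ?_
      have e : C * Y ^ (1 - η) * ((P / M : ℝ) * (40 * (M : ℝ) ^ 2 * l ^ (C2 + 1)) +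
          (M / P : ℝ) * (40 * (P : ℝ) ^ 2 * l ^ (C2 + 1))) / 2 =
          C * Y ^ (1 - η) * (40 * (M * P) * l ^ (C2 + 1)) := by
        have hM0 : (M : ℝ) ≠ 0 := by linarith
        have hP0 : (P : ℝ) ≠ 0 := by linarith
        field_simp
        ring
      rw [e, hBin]
      apply mul_le_mul_of_nonneg_left _ hK0
      apply mul_le_mul_of_nonneg_right _ (by positivity)
      linarith
    · have s1 := sum_tau_le 1 hC1 hM1 hlogM
      have s2 := sum_tau_le 1 hC1 hP1 hlogP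
      simp only [pow_one] at s1 s2
      calc C * ((∑ m ∈ Ioc M (2 * M), tau m) * ∑ n ∈ Ioc P (2 * P), tau n) ≤
          C * ((2 * M * l ^ C1) * (2 * P * l ^ C1)) := by
            apply mul_le_mul_of_nonneg_left _ hC.le
            apply mul_le_mul s1 s2
            · exact Finset.sum_nonneg (fun m _ => tau_nonneg m)
            · positivity
        _ = (4 * C * l ^ (2 * C1)) * (M * P) := by ring
        _ ≤ (4 * C * l ^ (2 * C1)) * (16 * 3 ^ L) := by
            apply mul_le_mul_of_nonneg_left hMPr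
            have : 0 ≤ C := hC.le
            positivity
        _ = Bout := by rw [hBout]; ring
    · intro n hn hn2
      have := hfar n hn hn2
      simp only [Complex.norm_real, Real.norm_eq_abs]
      exact this
  have hsum := split_sum M P (fun m n => 3 ^ L / 2 < m * n ∧ m * n ≤ 5 * 3 ^ L) a b
    (fun n => (FY L c T n : ℂ))
  rw [hsum]
  have hall : ‖∑ i ∈ range 8, ∑ j ∈ range 8, ∑ m ∈ Ioc M (2 * M), ∑ n ∈ Ioc P (2 * P),
        (if 3 ^ L / 2 < m * n ∧ m * n ≤ 5 * 3 ^ L then (if prt M m = i then a m else 0) *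
          (if prt P n = j then b n else 0) * (FY L c T (m * n) : ℂ) else 0)‖ ≤
        64 * (Bin + Bout) := by
    calc _ ≤ ∑ i ∈ range 8, ∑ j ∈ range 8, ‖∑ m ∈ Ioc M (2 * M), ∑ n ∈ Ioc P (2 * P),
        (if 3 ^ L / 2 < m * n ∧ m * n ≤ 5 * 3 ^ L then (if prt M m = i then a m else 0) *
          (if prt P n = j then b n else 0) * (FY L c T (m * n) : ℂ) else 0)‖ := by
          refine (norm_sum_le _ _).trans (Finset.sum_le_sum ?_)
          intro i _
          exact norm_sum_le _ _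
      _ ≤ ∑ i ∈ range 8, ∑ j ∈ range 8, (Bin + Bout) :=
          Finset.sum_le_sum (fun i _ => Finset.sum_le_sum (fun j _ => hkey i j))
      _ = 64 * (Bin + Bout) := by
          simp only [Finset.sum_const, Finset.card_range, nsmul_eq_mul]
          push_cast
          ring
  refine hall.trans ?_
  have hYp : 1 ≤ Y ^ (1 - η) := Real.one_le_rpow hY1 (by linarith)
  have hsm := hsmall L hL1
  have hYe : Y ^ (1 - η / 2) = Y ^ (1 - η) * Y ^ (η / 2) := by
    rw [← Real.rpow_add (by linarith)]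
    congr 1
    ring
  have h3L : (0 : ℝ) < 3 ^ L := by positivity
  have b1 : Bin ≤ 3 ^ L * Y ^ (1 - η) * (C * 640 * l ^ (C2 + 1 + 2 * C1)) := by
    rw [hBin]
    have : l ^ (C2 + 1) ≤ l ^ (C2 + 1 + 2 * C1) := pow_le_pow_right₀ hl1 (by omega)
    calc C * Y ^ (1 - η) * (640 * 3 ^ L * l ^ (C2 + 1)) =
        (C * Y ^ (1 - η) * (640 * 3 ^ L)) * l ^ (C2 + 1) := by ring
      _ ≤ (C * Y ^ (1 - η) * (640 * 3 ^ L)) * l ^ (C2 + 1 + 2 * C1) :=
          mul_le_mul_of_nonneg_left this (by positivity)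
      _ = _ := by ring
  have b2 : Bout ≤ 3 ^ L * Y ^ (1 - η) * (C * 64 * l ^ (C2 + 1 + 2 * C1)) := by
    rw [hBout]
    have h5 : l ^ (2 * C1) ≤ l ^ (C2 + 1 + 2 * C1) := pow_le_pow_right₀ hl1 (by omega)
    calc 64 * C * 3 ^ L * l ^ (2 * C1) = (64 * C * 3 ^ L * l ^ (2 * C1)) * 1 := by ring
      _ ≤ (64 * C * 3 ^ L * l ^ (2 * C1)) * Y ^ (1 - η) :=
          mul_le_mul_of_nonneg_left hYp (by positivity)
      _ = (64 * C * 3 ^ L * Y ^ (1 - η)) * l ^ (2 * C1) := by ring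
      _ ≤ (64 * C * 3 ^ L * Y ^ (1 - η)) * l ^ (C2 + 1 + 2 * C1) :=
          mul_le_mul_of_nonneg_left h5 (by positivity)
      _ = _ := by ring
  calc 64 * (Bin + Bout) ≤ 64 * (3 ^ L * Y ^ (1 - η) * (C * 640 * l ^ (C2 + 1 + 2 * C1)) +
        3 ^ L * Y ^ (1 - η) * (C * 64 * l ^ (C2 + 1 + 2 * C1))) := by linarith
    _ = 3 ^ L * Y ^ (1 - η) * (C * (64 * 704) * l ^ (C2 + 1 + 2 * C1)) := by ring
    _ ≤ 3 ^ L * Y ^ (1 - η) * Y ^ (η / 2) := mul_le_mul_of_nonneg_left hsm (by positivity)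
    _ = 3 ^ L * Y ^ (1 - η / 2) := by rw [hYe]; ring

end Pool.Agent.Work.MP_8e4d29_nt

end

section

/-!
MP_8e4d29_nt: item G4, window average for the good blocks.
-/

namespace Pool.Agent.Work.MP_8e4d29_nt

open Finset
open Pool.Agent.Work.MP_122e00_nt (ee norm_ee ee_add ee_neg)

namespace Win

theorem norm_chA_le (n2 n3 : ℕ) (θ : ℝ) : ‖chA n2 n3 θ‖ ≤ 1 := by
  unfold chA
  rw [norm_mul, norm_pow, norm_pow]
  have h1 : ‖(1 + ee θ) / 2‖ ≤ 1 := by
    rw [norm_div]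
    have : ‖(1 : ℂ) + ee θ‖ ≤ 2 := by
      calc ‖(1 : ℂ) + ee θ‖ ≤ ‖(1 : ℂ)‖ + ‖ee θ‖ := norm_add_le _ _
        _ = 2 := by rw [norm_one, norm_ee]; norm_num
    rw [div_le_one (by norm_num)]
    simpa using this
  have h2 : ‖(1 + ee (-θ) + ee (-(2 * θ))) / 3‖ ≤ 1 := by
    rw [norm_div]
    have : ‖(1 : ℂ) + ee (-θ) + ee (-(2 * θ))‖ ≤ 3 := by
      calc ‖(1 : ℂ) + ee (-θ) + ee (-(2 * θ))‖
          ≤ ‖(1 : ℂ)‖ + ‖ee (-θ)‖ + ‖ee (-(2 * θ))‖ := norm_add₃_le
        _ = 3 := by rw [norm_one, norm_ee, norm_ee]; norm_num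
    rw [div_le_one (by norm_num)]
    simpa using this
  calc _ ≤ (1 : ℝ) * 1 := mul_le_mul (pow_le_one₀ (norm_nonneg _) h1)
        (pow_le_one₀ (norm_nonneg _) h2) (by positivity) zero_le_one
    _ = 1 := one_mul _

theorem sum_bins (f : ℕ → ℂ) (M z0 len : ℕ) :
    ∑ n ∈ Ico (z0 * M) ((z0 + len) * M), f n =
      ∑ z ∈ range len, ∑ v ∈ range M, f ((z0 + z) * M + v) := by
  induction len with
  | zero => simp
  | succ len ih =>
    rw [Finset.sum_range_succ, ← ih, ← Finset.sum_Ico_consecutive f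
      (Nat.mul_le_mul_right M (Nat.le_add_right z0 len))
      (Nat.mul_le_mul_right M (by omega : z0 + len ≤ z0 + (len + 1)))]
    congr 1
    rw [Finset.sum_Ico_eq_sum_range]
    congr 1
    rw [show z0 + (len + 1) = (z0 + len) + 1 from rfl, Nat.succ_mul, Nat.add_sub_cancel_left]

theorem norm_sum_Ico_le (f : ℕ → ℂ) (hf : ∀ n, ‖f n‖ ≤ 2) (a b c : ℕ) (h : b ≤ a + c) :
    ‖∑ n ∈ Ico a b, f n‖ ≤ 2 * c := by
  refine (norm_sum_le _ _).trans ?_
  refine (Finset.sum_le_card_nsmul _ _ 2 (fun n _ => hf n)).trans ?_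
  rw [Nat.card_Ico, nsmul_eq_mul, mul_comm]
  have : ((b - a : ℕ) : ℝ) ≤ c := by exact_mod_cast (by omega : b - a ≤ c)
  linarith

theorem win_bins (f : ℕ → ℂ) (M n0 X : ℕ) (hM : 0 < M) (hf : ∀ n, ‖f n‖ ≤ 2) :
    ‖∑ u ∈ range X, f (n0 + u)‖ ≤
      ∑ z ∈ range (X / M), ‖∑ v ∈ range M, f ((n0 / M + z) * M + v)‖ + 6 * M := by
  have e1 : ∑ u ∈ range X, f (n0 + u) = ∑ n ∈ Ico n0 (n0 + X), f n := by
    rw [Finset.sum_Ico_eq_sum_range, Nat.add_sub_cancel_left]
  have a1 : n0 / M * M ≤ n0 := Nat.div_mul_le_self _ _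
  have a2 : n0 < n0 / M * M + M := Nat.lt_div_mul_add hM
  have a3 : X / M * M ≤ X := Nat.div_mul_le_self _ _
  have a4 : X < X / M * M + M := Nat.lt_div_mul_add hM
  have a5 : (n0 / M + X / M) * M = n0 / M * M + X / M * M := Nat.add_mul _ _ _
  have e2 : ∑ n ∈ Ico (n0 / M * M) n0, f n + ∑ n ∈ Ico n0 (n0 + X), f n =
      ∑ n ∈ Ico (n0 / M * M) ((n0 / M + X / M) * M), f n +
        ∑ n ∈ Ico ((n0 / M + X / M) * M) (n0 + X), f n := by
    rw [Finset.sum_Ico_consecutive _ a1 (by omega),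
      Finset.sum_Ico_consecutive _ (by omega) (by omega)]
  have e3 : ∑ n ∈ Ico n0 (n0 + X), f n =
      ∑ z ∈ range (X / M), ∑ v ∈ range M, f ((n0 / M + z) * M + v) +
        ∑ n ∈ Ico ((n0 / M + X / M) * M) (n0 + X), f n - ∑ n ∈ Ico (n0 / M * M) n0, f n := by
    rw [← sum_bins, ← e2]
    ring
  rw [e1, e3]
  have b1 := norm_sum_Ico_le f hf ((n0 / M + X / M) * M) (n0 + X) (2 * M) (by omega)
  have b2 := norm_sum_Ico_le f hf (n0 / M * M) n0 M (by omega)
  have b3 := norm_sum_le (range (X / M)) (fun z => ∑ v ∈ range M, f ((n0 / M + z) * M + v))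
  refine (norm_sub_le _ _).trans ?_
  have b4 := norm_add_le (∑ z ∈ range (X / M), ∑ v ∈ range M, f ((n0 / M + z) * M + v))
    (∑ n ∈ Ico ((n0 / M + X / M) * M) (n0 + X), f n)
  push_cast at b1
  linarith

/-- number of multiples of `D` in the bins -/
theorem spoiled_count (D M z0 len X : ℕ) (hD : 0 < D) (h : len * M ≤ X) :
    ∑ z ∈ range len, ((((z0 + z + 1) * M / D : ℕ) : ℝ) - (((z0 + z) * M / D : ℕ) : ℝ)) ≤
      X / D + 1 := by
  have e : ∑ z ∈ range len, ((((z0 + z + 1) * M / D : ℕ) : ℝ) - (((z0 + z) * M / D : ℕ) : ℝ)) =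
      (((z0 + len) * M / D : ℕ) : ℝ) - (((z0 + 0) * M / D : ℕ) : ℝ) :=
    Finset.sum_range_sub (fun z => (((z0 + z) * M / D : ℕ) : ℝ)) len
  rw [e, Nat.add_zero]
  have hD' : (0 : ℝ) < D := by exact_mod_cast hD
  have h1 : (((z0 + len) * M / D : ℕ) : ℝ) ≤ ((z0 + len) * M : ℕ) / D := Nat.cast_div_le
  have h2 : ((z0 * M : ℕ) : ℝ) / D < ((z0 * M / D : ℕ) : ℝ) + 1 := by
    rw [div_lt_iff₀ hD']
    have := Nat.lt_div_mul_add (a := z0 * M) hD
    have h3 : z0 * M < (z0 * M / D + 1) * D := by rw [Nat.add_mul, Nat.one_mul]; exact this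
    exact_mod_cast h3
  have h3 : (((z0 + len) * M : ℕ) : ℝ) / D = ((z0 * M : ℕ) : ℝ) / D + ((len * M : ℕ) : ℝ) / D := by
    rw [← add_div]
    congr 1
    push_cast
    ring
  have h4 : ((len * M : ℕ) : ℝ) / D ≤ (X : ℝ) / D :=
    div_le_div_of_nonneg_right (by exact_mod_cast h) hD'.le
  linarith

/-- one bin -/
theorem one_bin (F Y : ℕ → ℂ) (D M z : ℕ) (hM : 0 < M) (hF : ∀ n, ‖F n‖ ≤ 1)
    (hY : ∀ n, ‖Y n‖ ≤ 2)
    (hF2 : ∀ n n', n / M = n' / M → n / D = n' / D → F n = F n') :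
    ‖∑ v ∈ range M, F (z * M + v) * Y (z * M + v)‖ ≤ ‖∑ v ∈ range M, Y (z * M + v)‖ +
      2 * M * ((((z + 1) * M / D : ℕ) : ℝ) - ((z * M / D : ℕ) : ℝ)) := by
  have hmono : z * M / D ≤ (z + 1) * M / D :=
    Nat.div_le_div_right (Nat.mul_le_mul_right M (Nat.le_succ z))
  rcases hmono.eq_or_lt with h | h
  · -- the bin is not spoiled
    have hc : ∀ v ∈ range M, F (z * M + v) * Y (z * M + v) = F (z * M) * Y (z * M + v) := by
      intro v hv
      rw [mem_range] at hv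
      congr 1
      apply hF2
      · rw [Nat.mul_comm z M, Nat.mul_add_div hM, Nat.mul_div_cancel_left _ hM,
          Nat.div_eq_of_lt hv, Nat.add_zero]
      · apply le_antisymm
        · rw [h]
          apply Nat.div_le_div_right
          rw [Nat.add_mul, Nat.one_mul]
          omega
        · exact Nat.div_le_div_right (Nat.le_add_right _ _)
    rw [Finset.sum_congr rfl hc, ← Finset.mul_sum, norm_mul, ← h, sub_self, mul_zero, add_zero]
    exact mul_le_of_le_one_left (norm_nonneg _) (hF _)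
  · have h1 : (1 : ℝ) ≤ (((z + 1) * M / D : ℕ) : ℝ) - ((z * M / D : ℕ) : ℝ) := by
      have : ((z * M / D : ℕ) : ℝ) + 1 ≤ (((z + 1) * M / D : ℕ) : ℝ) := by exact_mod_cast h
      linarith
    have h2 : ‖∑ v ∈ range M, F (z * M + v) * Y (z * M + v)‖ ≤ 2 * M := by
      refine (norm_sum_le _ _).trans ?_
      refine (Finset.sum_le_card_nsmul _ _ 2 ?_).trans ?_
      · intro v _
        rw [norm_mul]
        calc ‖F (z * M + v)‖ * ‖Y (z * M + v)‖ ≤ 1 * 2 :=
              mul_le_mul (hF _) (hY _) (norm_nonneg _) zero_le_one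
          _ = 2 := one_mul _
      · rw [card_range, nsmul_eq_mul, mul_comm]
    have h3 : (0 : ℝ) ≤ 2 * M := by positivity
    have h4 := norm_nonneg (∑ v ∈ range M, Y (z * M + v))
    nlinarith

/-- the average over the low part -/
noncomputable def Psi (B p P P0 : ℕ) (θ : ℝ) (x : ℕ) : ℂ :=
  (∑ v ∈ range (2 ^ B), ee (θ * ((ds 2 p B v : ℝ) - ds 3 P0 P (x + v)))) / 2 ^ B

theorem norm_Psi_le (B p P P0 : ℕ) (θ : ℝ) (x : ℕ) : ‖Psi B p P P0 θ x‖ ≤ 1 := by
  unfold Psi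
  have h0 : ‖(2 : ℂ) ^ B‖ = 2 ^ B := by simp
  rw [norm_div, h0, div_le_one (by positivity)]
  refine (norm_sum_le _ _).trans ?_
  simp [norm_ee]

theorem Psi_period (B p P P0 : ℕ) (θ : ℝ) (x : ℕ) :
    Psi B p P P0 θ (x + 3 ^ P) = Psi B p P P0 θ x := by
  unfold Psi
  congr 1
  apply Finset.sum_congr rfl
  intro v _
  have : ds 3 P0 P (x + 3 ^ P + v) = ds 3 P0 P (x + v) := by
    rw [show x + 3 ^ P + v = x + v + 3 ^ P by ring, ds_add_period]
  rw [this]

theorem sum_bin_eq (B p P P0 : ℕ) (θ : ℝ) (a : ℂ) (Z : ℕ) :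
    ∑ v ∈ range (2 ^ B), (ee (θ * ((ds 2 p B (Z * 2 ^ B + v) : ℝ) -
      ds 3 P0 P (Z * 2 ^ B + v))) - a) = 2 ^ B * (Psi B p P P0 θ (Z * 2 ^ B) - a) := by
  unfold Psi
  have h0 : (2 : ℂ) ^ B ≠ 0 := pow_ne_zero _ two_ne_zero
  rw [mul_sub, mul_div_cancel₀ _ h0, Finset.sum_sub_distrib, Finset.sum_const, card_range,
    nsmul_eq_mul]
  congr 1
  · apply Finset.sum_congr rfl
    intro v _
    have : ds 2 p B (Z * 2 ^ B + v) = ds 2 p B v := by
      rw [add_comm, ds_add_mul]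
    rw [this]
  · push_cast
    ring

/-- the trit sum only changes at multiples of `3 ^ P0` -/
theorem ds_succ_eq {P0 P x : ℕ} (h : ¬ 3 ^ P0 ∣ x + 1) : ds 3 P0 P (x + 1) = ds 3 P0 P x := by
  apply ds_congr_div
  exact Nat.succ_div_of_not_dvd h

theorem norm_Psi_succ_sub (B p P P0 : ℕ) (θ : ℝ) (x : ℕ) :
    ‖Psi B p P P0 θ (x + 1) - Psi B p P P0 θ x‖ ≤
      (∑ v ∈ range (2 ^ B), if 3 ^ P0 ∣ x + v + 1 then (2 : ℝ) else 0) / 2 ^ B := by
  unfold Psi
  have h0 : ‖(2 : ℂ) ^ B‖ = 2 ^ B := by simp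
  rw [← sub_div, norm_div, h0, ← Finset.sum_sub_distrib]
  apply div_le_div_of_nonneg_right _ (by positivity)
  refine (norm_sum_le _ _).trans (Finset.sum_le_sum ?_)
  intro v _
  split_ifs with h
  · refine (norm_sub_le _ _).trans ?_
    rw [norm_ee, norm_ee]
    norm_num
  · have : ds 3 P0 P (x + 1 + v) = ds 3 P0 P (x + v) := by
      rw [show x + 1 + v = x + v + 1 by ring]
      exact ds_succ_eq h
    rw [this, sub_self, norm_zero]

theorem count_dvd (P P0 v : ℕ) (h : P0 ≤ P) :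
    ∑ x ∈ range (3 ^ P), (if 3 ^ P0 ∣ x + v + 1 then (2 : ℝ) else 0) = 2 * 3 ^ (P - P0) := by
  have h1 : ∀ N : ℕ, ∑ x ∈ range N, (if 3 ^ P0 ∣ x + v + 1 then (2 : ℝ) else 0) =
      2 * (((N + v) / 3 ^ P0 : ℕ) : ℝ) - 2 * ((v / 3 ^ P0 : ℕ) : ℝ) := by
    intro N
    induction N with
    | zero => simp
    | succ N ih =>
      rw [Finset.sum_range_succ, ih, show N + 1 + v = N + v + 1 by ring, Nat.succ_div]
      split_ifs
      · push_cast; ring
      · push_cast; ring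
  rw [h1]
  have h2 : (3 ^ P + v) / 3 ^ P0 = 3 ^ (P - P0) + v / 3 ^ P0 := by
    have h3 : 3 ^ P = 3 ^ (P - P0) * 3 ^ P0 := by rw [← pow_add, Nat.sub_add_cancel h]
    rw [h3, Nat.add_comm, Nat.add_mul_div_right _ _ (by positivity), Nat.add_comm]
  rw [h2]
  push_cast
  ring

theorem sum_var (B p P P0 : ℕ) (θ : ℝ) (h : P0 ≤ P) :
    ∑ x ∈ range (3 ^ P), ‖Psi B p P P0 θ (x + 1) - Psi B p P P0 θ x‖ ≤ 2 * 3 ^ (P - P0) := by
  refine (Finset.sum_le_sum (fun x _ => norm_Psi_succ_sub B p P P0 θ x)).trans ?_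
  rw [← Finset.sum_div, Finset.sum_comm, Finset.sum_congr rfl (fun v _ => count_dvd P P0 v h),
    Finset.sum_const, card_range, nsmul_eq_mul]
  apply le_of_eq
  push_cast
  field_simp

/-- the cost of one block -/
theorem block_cost (hEQ : ClaimEQ) (hBl : ClaimBlock) {B p P P0 gd X W X0 : ℕ} {θ : ℝ}
    (hp : p ≤ B) (hP0 : P0 ≤ P) (hPB : 3 ^ P ≤ 2 ^ B) (hW : 1 ≤ W) (hX0 : 1 ≤ X0)
    (hgood : ∀ w : ℕ, 1 ≤ w → w ≤ W → 1 / (X0 : ℝ) < nd ((w : ℝ) * 2 ^ B / 3 ^ P))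
    (F : ℕ → ℂ) (hF : ∀ n, ‖F n‖ ≤ 1)
    (hF2 : ∀ n n', n / 2 ^ B = n' / 2 ^ B → n / 3 ^ (P + gd) = n' / 3 ^ (P + gd) → F n = F n')
    (n0 : ℕ) :
    ‖∑ u ∈ range X, F (n0 + u) * (ee (θ * ((ds 2 p B (n0 + u) : ℝ) - ds 3 P0 P (n0 + u))) -
        chA (B - p) (P - P0) θ)‖ ≤
      10 * |θ| * X + 14 * 3 ^ (P - P0) * X / W + 4 * 2 ^ B * X0 +
        2 * 2 ^ B * (X / 3 ^ (P + gd) + 1) + 6 * 2 ^ B := by
  set a := chA (B - p) (P - P0) θ with ha
  set Y : ℕ → ℂ := fun n => ee (θ * ((ds 2 p B n : ℝ) - ds 3 P0 P n)) - a with hY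
  have hYn : ∀ n, ‖Y n‖ ≤ 2 := by
    intro n
    refine (norm_sub_le _ _).trans ?_
    rw [norm_ee]
    have := norm_chA_le (B - p) (P - P0) θ
    linarith
  have hFY : ∀ n, ‖F n * Y n‖ ≤ 2 := by
    intro n
    rw [norm_mul]
    calc ‖F n‖ * ‖Y n‖ ≤ 1 * 2 := mul_le_mul (hF _) (hYn _) (norm_nonneg _) zero_le_one
      _ = 2 := one_mul _
  have hM : 0 < 2 ^ B := by positivity
  have hD : 0 < 3 ^ (P + gd) := by positivity
  have s1 := win_bins (fun n => F n * Y n) (2 ^ B) n0 X hM hFY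
  set z0 := n0 / 2 ^ B with hz0
  set len := X / 2 ^ B with hlen
  have hlenX : len * 2 ^ B ≤ X := Nat.div_mul_le_self _ _
  have hlenX' : (len : ℝ) * 2 ^ B ≤ X := by exact_mod_cast hlenX
  have s2 : ∑ z ∈ range len, ‖∑ v ∈ range (2 ^ B), F ((z0 + z) * 2 ^ B + v) *
      Y ((z0 + z) * 2 ^ B + v)‖ ≤ ∑ z ∈ range len, (2 ^ B * ‖Psi B p P P0 θ ((z0 + z) * 2 ^ B) - a‖ +
      2 * (2 ^ B : ℕ) * ((((z0 + z + 1) * 2 ^ B / 3 ^ (P + gd) : ℕ) : ℝ) -
        (((z0 + z) * 2 ^ B / 3 ^ (P + gd) : ℕ) : ℝ))) := by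
    apply Finset.sum_le_sum
    intro z _
    have h1 := one_bin F Y (3 ^ (P + gd)) (2 ^ B) (z0 + z) hM hF hYn hF2
    have h2 := sum_bin_eq B p P P0 θ a (z0 + z)
    have h3 : ‖∑ v ∈ range (2 ^ B), Y ((z0 + z) * 2 ^ B + v)‖ =
        2 ^ B * ‖Psi B p P P0 θ ((z0 + z) * 2 ^ B) - a‖ := by
      rw [hY]
      dsimp only
      rw [h2, norm_mul]
      simp
    rw [h3] at h1
    exact h1
  rw [Finset.sum_add_distrib, ← Finset.mul_sum, ← Finset.mul_sum] at s2
  have s3 := spoiled_count (3 ^ (P + gd)) (2 ^ B) z0 len X hD hlenX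
  -- equidistribution
  set Φ : ℕ → ℂ := fun x => ((‖Psi B p P P0 θ x - a‖ / 2 : ℝ) : ℂ) with hΦ
  have c1 : ∀ x, Φ (x + 3 ^ P) = Φ x := by
    intro x
    simp only [hΦ, Psi_period]
  have c2n : ∀ x, ‖Φ x‖ = ‖Psi B p P P0 θ x - a‖ / 2 := by
    intro x
    simp only [hΦ]
    rw [Complex.norm_real, Real.norm_of_nonneg (by positivity)]
  have c2 : ∀ x, ‖Φ x‖ ≤ 1 := by
    intro x
    rw [c2n]
    have h1 := norm_sub_le (Psi B p P P0 θ x) a
    have h2 := norm_Psi_le B p P P0 θ x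
    have h3 := norm_chA_le (B - p) (P - P0) θ
    linarith
  have c3 : ∑ x ∈ range (3 ^ P), ‖Φ (x + 1) - Φ x‖ ≤ 3 ^ (P - P0) := by
    have h1 : ∀ x, ‖Φ (x + 1) - Φ x‖ ≤ ‖Psi B p P P0 θ (x + 1) - Psi B p P P0 θ x‖ / 2 := by
      intro x
      simp only [hΦ]
      rw [← Complex.ofReal_sub, Complex.norm_real, Real.norm_eq_abs, ← sub_div, abs_div,
        abs_of_pos (by norm_num : (0 : ℝ) < 2)]
      apply div_le_div_of_nonneg_right _ (by norm_num)
      refine (abs_norm_sub_norm_le _ _).trans ?_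
      rw [sub_sub_sub_cancel_right]
    refine (Finset.sum_le_sum (fun x _ => h1 x)).trans ?_
    rw [← Finset.sum_div]
    have := sum_var B p P P0 θ hP0
    linarith
  have c4 : ∀ w : ℕ, 1 ≤ w → w ≤ W →
      1 / (X0 : ℝ) < nd ((w : ℝ) * ((2 ^ B : ℕ) : ℝ) / ((3 ^ P : ℕ) : ℝ)) := by
    intro w h1 h2
    have := hgood w h1 h2
    push_cast
    exact this
  have s4 := hEQ (3 ^ P) (2 ^ B) W X0 Φ (3 ^ (P - P0)) (Nat.one_le_pow _ _ (by norm_num)) hW hX0 c1 c2 c3 c4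
    (z0 * 2 ^ B) len
  have s5 : ∑ x ∈ range (3 ^ P), ‖Psi B p P P0 θ x - a‖ ≤ 3 ^ P * (10 * |θ|) :=
    hBl B p P P0 θ hp hP0 hPB
  have e1 : ∑ z ∈ range len, Φ (z * 2 ^ B + z0 * 2 ^ B) =
      (((∑ z ∈ range len, ‖Psi B p P P0 θ ((z0 + z) * 2 ^ B) - a‖) / 2 : ℝ) : ℂ) := by
    rw [Finset.sum_div, Complex.ofReal_sum]
    apply Finset.sum_congr rfl
    intro z _
    simp only [hΦ]
    rw [show z * 2 ^ B + z0 * 2 ^ B = (z0 + z) * 2 ^ B by ring]
  have e2 : ∑ x ∈ range (3 ^ P), Φ x =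
      (((∑ x ∈ range (3 ^ P), ‖Psi B p P P0 θ x - a‖) / 2 : ℝ) : ℂ) := by
    rw [Finset.sum_div, Complex.ofReal_sum]
  rw [e1, e2, ← Complex.ofReal_mul, ← Complex.ofReal_sub, Complex.norm_real,
    Real.norm_eq_abs] at s4
  have s6 := (abs_le.mp s4).2
  set S := ∑ z ∈ range len, ‖Psi B p P P0 θ ((z0 + z) * 2 ^ B) - a‖ with hS
  set T := ∑ x ∈ range (3 ^ P), ‖Psi B p P P0 θ x - a‖ with hT
  have h3P : (0 : ℝ) < 3 ^ P := by positivity
  have t1 : (len : ℝ) / ((3 ^ P : ℕ) : ℝ) * (T / 2) ≤ len * (5 * |θ|) := by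
    push_cast
    rw [div_mul_eq_mul_div, div_le_iff₀ h3P]
    have : (0 : ℝ) ≤ len := Nat.cast_nonneg _
    nlinarith
  have t2 : S ≤ len * (10 * |θ|) + 14 * 3 ^ (P - P0) * len / W + 4 * X0 := by
    have e3 : (14 : ℝ) * 3 ^ (P - P0) * len / W = 2 * (7 * 3 ^ (P - P0) * len / W) := by ring
    rw [e3]
    linarith
  have h2B : (0 : ℝ) < 2 ^ B := by positivity
  have t3 : 2 ^ B * S ≤ 10 * |θ| * X + 14 * 3 ^ (P - P0) * X / W + 4 * 2 ^ B * X0 := by
    have u1 : 2 ^ B * S ≤ 2 ^ B * (len * (10 * |θ|) + 14 * 3 ^ (P - P0) * len / W + 4 * X0) :=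
      mul_le_mul_of_nonneg_left t2 h2B.le
    have u2 : 2 ^ B * (len * (10 * |θ|) + 14 * 3 ^ (P - P0) * len / W + 4 * (X0 : ℝ)) =
        10 * |θ| * (len * 2 ^ B) + 14 * 3 ^ (P - P0) * (len * 2 ^ B) / W + 4 * 2 ^ B * X0 := by
      ring
    have u3 : 10 * |θ| * (len * 2 ^ B) ≤ 10 * |θ| * X :=
      mul_le_mul_of_nonneg_left hlenX' (by positivity)
    have u4 : 14 * 3 ^ (P - P0) * (len * 2 ^ B) / (W : ℝ) ≤ 14 * 3 ^ (P - P0) * X / W :=
      div_le_div_of_nonneg_right (mul_le_mul_of_nonneg_left hlenX' (by positivity))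
        (Nat.cast_nonneg _)
    linarith
  push_cast at s1 s2 s3
  have t4 : 2 * 2 ^ B * ∑ z ∈ range len, ((((z0 + z + 1) * 2 ^ B / 3 ^ (P + gd) : ℕ) : ℝ) -
        (((z0 + z) * 2 ^ B / 3 ^ (P + gd) : ℕ) : ℝ)) ≤
      2 * 2 ^ B * (X / 3 ^ (P + gd) + 1) := mul_le_mul_of_nonneg_left s3 (by positivity)
  linarith

/-! ### parameters -/

section Params

variable {L : ℕ}

theorem pBt_succ (l : ℕ) (hl : l < pm L) : pBt L (l + 1) + pl L = pBt L l := by
  unfold pBt pb
  have h1 : (l + 1) * pl L ≤ pm L * pl L := Nat.mul_le_mul_right _ hl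
  have h2 : (l + 1) * pl L = l * pl L + pl L := Nat.succ_mul _ _
  omega

theorem pBt_le_pb (l : ℕ) : pBt L l ≤ pb L := Nat.sub_le _ _

theorem pBt_anti {l l' : ℕ} (h : l ≤ l') : pBt L l' ≤ pBt L l := by
  unfold pBt
  have := Nat.mul_le_mul_right (pl L) h
  omega

theorem pP_anti {l l' : ℕ} (h : l ≤ l') : pP L l' ≤ pP L l := by
  unfold pP
  exact Nat.log_mono_right (Nat.pow_le_pow_right (by norm_num) (pBt_anti h))

theorem pP_pow_le (l : ℕ) : 3 ^ pP L l ≤ 2 ^ pBt L l :=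
  Nat.pow_log_le_self 3 (by positivity)

theorem lt_pP_pow (l : ℕ) : 2 ^ pBt L l < 3 ^ (pP L l + 1) :=
  Nat.lt_pow_succ_log_self (by norm_num) _

theorem pK_lt (L : ℕ) : pK L < 2 ^ (pk L + 1) := Nat.lt_pow_succ_log_self (by norm_num) _

theorem guard_le (hs : SizF L) : 3 ^ pgd L ≤ 2 ^ pl L := by
  unfold pgd
  calc 3 ^ (10 * (pk L + 1)) = (3 ^ 10) ^ (pk L + 1) := pow_mul _ _ _
    _ ≤ (2 ^ 100) ^ (pk L + 1) := Nat.pow_le_pow_left (by norm_num) _
    _ = 2 ^ (100 * (pk L + 1)) := (pow_mul _ _ _).symm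
    _ ≤ 2 ^ pl L := Nat.pow_le_pow_right (by norm_num) hs.z11

theorem pK_le_guard : pK L ≤ 3 ^ pgd L := by
  refine (pK_lt L).le.trans ?_
  unfold pgd
  calc 2 ^ (pk L + 1) ≤ 2 ^ (10 * (pk L + 1)) := Nat.pow_le_pow_right (by norm_num) (by omega)
    _ ≤ 3 ^ (10 * (pk L + 1)) := Nat.pow_le_pow_left (by norm_num) _

theorem pP_succ (hs : SizF L) (l : ℕ) (hl : l < pm L) : pP L (l + 1) + pgd L ≤ pP L l := by
  apply Nat.le_log_of_pow_le (by norm_num)
  rw [pow_add, ← pBt_succ l hl, pow_add]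
  exact Nat.mul_le_mul (pP_pow_le _) (guard_le hs)

theorem tri_pow_le (hs : SizF L) (l : ℕ) (hl : l < pm L) :
    3 ^ (pP L l - (pP L (l + 1) + pgd L)) ≤ 3 * 2 ^ pl L := by
  have h1 := pP_succ hs l hl
  have h2 : 3 ^ (pP L l - (pP L (l + 1) + pgd L)) * 3 ^ (pP L (l + 1) + pgd L) ≤
      3 * 2 ^ pl L * 3 ^ (pP L (l + 1) + pgd L) := by
    rw [← pow_add, Nat.sub_add_cancel h1]
    calc 3 ^ pP L l ≤ 2 ^ pBt L l := pP_pow_le l
      _ = 2 ^ pBt L (l + 1) * 2 ^ pl L := by rw [← pBt_succ l hl, pow_add]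
      _ ≤ 3 ^ (pP L (l + 1) + 1) * 2 ^ pl L := Nat.mul_le_mul_right _ (lt_pP_pow (l + 1)).le
      _ = 3 * 2 ^ pl L * 3 ^ pP L (l + 1) := by rw [pow_succ]; ring
      _ ≤ 3 * 2 ^ pl L * 3 ^ (pP L (l + 1) + pgd L) :=
          Nat.mul_le_mul_left _ (Nat.pow_le_pow_right (by norm_num) (Nat.le_add_right _ _))
  exact Nat.le_of_mul_le_mul_right h2 (by positivity)

theorem pX_big (hs : SizF L) (l : ℕ) : 2 ^ pBt L l * pK L ≤ pX L := by
  have h1 := hs.z11
  have h2 := hs.z9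
  have h3 := hs.z14
  have hX : pX L ≠ 0 := by
    intro h
    rw [h, Nat.log_zero_right] at h3
    omega
  calc 2 ^ pBt L l * pK L ≤ 2 ^ pb L * 2 ^ (pk L + 1) :=
        Nat.mul_le_mul (Nat.pow_le_pow_right (by norm_num) (pBt_le_pb l)) (pK_lt L).le
    _ ≤ 2 ^ pb L * 2 ^ pal L :=
        Nat.mul_le_mul_left _ (Nat.pow_le_pow_right (by norm_num) (by omega))
    _ = 2 ^ (pb L + pal L) := (pow_add _ _ _).symm
    _ ≤ 2 ^ Nat.log 2 (pX L) := Nat.pow_le_pow_right (by norm_num) h3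
    _ ≤ pX L := Nat.pow_log_le_self 2 hX

theorem pX_pos (hs : SizF L) : 0 < pX L := by
  have h := pX_big hs 0
  have h1 := hs.z1
  have h2 : 0 < 2 ^ pBt L 0 * pK L := Nat.mul_pos (by positivity) (by omega)
  omega

theorem block_cost' (hEQ : ClaimEQ) (hBl : ClaimBlock) (hs : SizF L) {l : ℕ} (hl : l < pm L)
    (hg : GoodBlock L l) (θ : ℝ) (F : ℕ → ℂ) (hF : ∀ n, ‖F n‖ ≤ 1)
    (hF2 : ∀ n n', n / 2 ^ pBt L l = n' / 2 ^ pBt L l →
      n / 3 ^ (pP L l + pgd L) = n' / 3 ^ (pP L l + pgd L) → F n = F n') (n0 : ℕ) :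
    ‖∑ u ∈ range (pX L), F (n0 + u) * (ee (θ * ((ds 2 (pBt L (l + 1)) (pBt L l) (n0 + u) : ℝ) -
        ds 3 (pP L (l + 1) + pgd L) (pP L l) (n0 + u))) -
        chA (pl L) (pP L l - (pP L (l + 1) + pgd L)) θ)‖ ≤
      (10 * |θ| + 32 / pK L) * pX L := by
  have hK1 : 10 ^ 12 ≤ pK L := hs.z1
  have hKpos : (0 : ℝ) < pK L := by
    have : 0 < pK L := by omega
    exact_mod_cast this
  have hBX := pX_big hs l
  have hpos : 0 < 2 ^ pBt L l * pK L := Nat.mul_pos (by positivity) (by omega)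
  have hX0 : 1 ≤ pX L / (2 ^ pBt L l * pK L) := (Nat.one_le_div_iff hpos).mpr hBX
  have hW : 1 ≤ 3 * 2 ^ pl L * pK L := by
    have : 0 < 3 * 2 ^ pl L * pK L := Nat.mul_pos (by positivity) (by omega)
    omega
  have hb := pBt_succ l hl
  have h := block_cost hEQ hBl (B := pBt L l) (p := pBt L (l + 1)) (P := pP L l)
    (P0 := pP L (l + 1) + pgd L) (gd := pgd L) (X := pX L) (W := 3 * 2 ^ pl L * pK L)
    (X0 := pX L / (2 ^ pBt L l * pK L)) (θ := θ) (by omega) (pP_succ hs l hl) (pP_pow_le l) hW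
    hX0 hg F hF hF2 n0
  have hsub : pBt L l - pBt L (l + 1) = pl L := by omega
  rw [hsub] at h
  refine h.trans ?_
  have hXn : (0 : ℝ) ≤ pX L := Nat.cast_nonneg _
  have hBX' : (2 : ℝ) ^ pBt L l * pK L ≤ pX L := by exact_mod_cast hBX
  have g1 : (14 : ℝ) * 3 ^ (pP L l - (pP L (l + 1) + pgd L)) * pX L /
      ((3 * 2 ^ pl L * pK L : ℕ) : ℝ) ≤ 14 * (pX L / pK L) := by
    have h1 : (3 : ℝ) ^ (pP L l - (pP L (l + 1) + pgd L)) ≤ 3 * 2 ^ pl L := by
      exact_mod_cast tri_pow_le hs l hl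
    push_cast
    rw [div_le_iff₀ (by positivity)]
    have e : 14 * ((pX L : ℝ) / pK L) * (3 * 2 ^ pl L * pK L) = 14 * (3 * 2 ^ pl L) * pX L := by
      field_simp
    rw [e]
    exact mul_le_mul_of_nonneg_right (mul_le_mul_of_nonneg_left h1 (by norm_num)) hXn
  have g2 : (4 : ℝ) * 2 ^ pBt L l * ((pX L / (2 ^ pBt L l * pK L) : ℕ) : ℝ) ≤
      4 * (pX L / pK L) := by
    have h1 : ((pX L / (2 ^ pBt L l * pK L) : ℕ) : ℝ) ≤ (pX L : ℝ) / ((2 ^ pBt L l * pK L : ℕ) : ℝ) :=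
      Nat.cast_div_le
    push_cast at h1
    have h2 : (4 : ℝ) * 2 ^ pBt L l * ((pX L / (2 ^ pBt L l * pK L) : ℕ) : ℝ) ≤
        4 * 2 ^ pBt L l * ((pX L : ℝ) / (2 ^ pBt L l * pK L)) :=
      mul_le_mul_of_nonneg_left h1 (by positivity)
    refine h2.trans (le_of_eq ?_)
    field_simp
  have g3 : (2 : ℝ) * 2 ^ pBt L l * (pX L / 3 ^ (pP L l + pgd L)) ≤ 6 * (pX L / pK L) := by
    have h1 : (2 : ℝ) ^ pBt L l ≤ 3 ^ pP L l * 3 := by
      have := (lt_pP_pow (L := L) l).le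
      rw [pow_succ] at this
      exact_mod_cast this
    have h2 : (pK L : ℝ) ≤ 3 ^ pgd L := by exact_mod_cast pK_le_guard
    rw [pow_add, mul_div_assoc', div_le_iff₀ (by positivity)]
    have e : 6 * ((pX L : ℝ) / pK L) * (3 ^ pP L l * 3 ^ pgd L) =
        2 * (3 ^ pP L l * 3) * pX L * (3 ^ pgd L / pK L) := by
      field_simp
      ring
    rw [e]
    have h3 : (1 : ℝ) ≤ 3 ^ pgd L / pK L := by rw [le_div_iff₀ hKpos]; linarith
    calc (2 : ℝ) * 2 ^ pBt L l * pX L ≤ 2 * (3 ^ pP L l * 3) * pX L :=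
          mul_le_mul_of_nonneg_right (mul_le_mul_of_nonneg_left h1 (by norm_num)) hXn
      _ ≤ 2 * (3 ^ pP L l * 3) * pX L * (3 ^ pgd L / pK L) :=
          le_mul_of_one_le_right (by positivity) h3
  have g4 : (2 : ℝ) ^ pBt L l ≤ pX L / pK L := by
    rw [le_div_iff₀ hKpos]
    exact hBX'
  have e5 : (10 * |θ| + 32 / (pK L : ℝ)) * pX L = 10 * |θ| * pX L + 32 * (pX L / pK L) := by ring
  rw [e5]
  have e6 : (2 : ℝ) * 2 ^ pBt L l * (pX L / 3 ^ (pP L l + pgd L) + 1) =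
      2 * 2 ^ pBt L l * (pX L / 3 ^ (pP L l + pgd L)) + 2 * 2 ^ pBt L l := by ring
  rw [e6]
  linarith

/-- telescoping over the blocks -/
theorem window (hEQ : ClaimEQ) (hBl : ClaimBlock) (hs : SizF L) (θ : ℝ) (n0 : ℕ)
    (G : Finset ℕ) : G ⊆ range (pm L) → (∀ l ∈ G, GoodBlock L l) →
    ‖1 / (pX L : ℂ) * ∑ u ∈ range (pX L), ∏ l ∈ G,
        ee (θ * ((ds 2 (pBt L (l + 1)) (pBt L l) (n0 + u) : ℝ) -
          ds 3 (pP L (l + 1) + pgd L) (pP L l) (n0 + u))) -
      ∏ l ∈ G, chA (pl L) (pP L l - (pP L (l + 1) + pgd L)) θ‖ ≤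
      G.card * (10 * |θ| + 32 / pK L) := by
  classical
  have hXpos := pX_pos hs
  have hX0 : (pX L : ℂ) ≠ 0 := by exact_mod_cast hXpos.ne'
  have hXr : (0 : ℝ) < pX L := by exact_mod_cast hXpos
  induction G using Finset.induction_on_max with
  | empty =>
    intro _ _
    simp [hX0]
  | insert a s ha ih =>
    intro hsub hgood
    have hnot : a ∉ s := fun h => lt_irrefl a (ha a h)
    have ih' := ih (fun x hx => hsub (mem_insert_of_mem hx))
      (fun x hx => hgood x (mem_insert_of_mem hx))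
    have ham : a < pm L := mem_range.mp (hsub (mem_insert_self a s))
    have hcost := block_cost' hEQ hBl hs ham (hgood a (mem_insert_self a s)) θ
      (fun n => ∏ l ∈ s, ee (θ * ((ds 2 (pBt L (l + 1)) (pBt L l) n : ℝ) -
          ds 3 (pP L (l + 1) + pgd L) (pP L l) n)))
      (fun n => by rw [norm_prod]; simp [norm_ee])
      (by
        intro n n' h1 h2
        apply Finset.prod_congr rfl
        intro l hl
        have hla : l + 1 ≤ a := ha l hl
        have e1 : ds 2 (pBt L (l + 1)) (pBt L l) n = ds 2 (pBt L (l + 1)) (pBt L l) n' := by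
          apply ds_congr_div
          have e : 2 ^ pBt L (l + 1) = 2 ^ pBt L a * 2 ^ (pBt L (l + 1) - pBt L a) := by
            rw [← pow_add]
            congr 1
            have := pBt_anti (L := L) hla
            omega
          rw [e, ← Nat.div_div_eq_div_mul, ← Nat.div_div_eq_div_mul, h1]
        have e2 : ds 3 (pP L (l + 1) + pgd L) (pP L l) n =
            ds 3 (pP L (l + 1) + pgd L) (pP L l) n' := by
          apply ds_congr_div
          have e : 3 ^ (pP L (l + 1) + pgd L) =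
              3 ^ (pP L a + pgd L) * 3 ^ (pP L (l + 1) - pP L a) := by
            rw [← pow_add]
            congr 1
            have := pP_anti (L := L) hla
            omega
          rw [e, ← Nat.div_div_eq_div_mul, ← Nat.div_div_eq_div_mul, h2]
        rw [e1, e2]) n0
    set c := chA (pl L) (pP L a - (pP L (a + 1) + pgd L)) θ with hc
    have hcn : ‖c‖ ≤ 1 := norm_chA_le _ _ _
    rw [Finset.prod_insert hnot, Finset.card_insert_of_notMem hnot]
    have e3 : ∀ u : ℕ, ∏ l ∈ insert a s,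
        ee (θ * ((ds 2 (pBt L (l + 1)) (pBt L l) (n0 + u) : ℝ) -
          ds 3 (pP L (l + 1) + pgd L) (pP L l) (n0 + u))) =
        (∏ l ∈ s, ee (θ * ((ds 2 (pBt L (l + 1)) (pBt L l) (n0 + u) : ℝ) -
          ds 3 (pP L (l + 1) + pgd L) (pP L l) (n0 + u)))) *
        (ee (θ * ((ds 2 (pBt L (a + 1)) (pBt L a) (n0 + u) : ℝ) -
          ds 3 (pP L (a + 1) + pgd L) (pP L a) (n0 + u))) - c) +
        c * ∏ l ∈ s, ee (θ * ((ds 2 (pBt L (l + 1)) (pBt L l) (n0 + u) : ℝ) -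
          ds 3 (pP L (l + 1) + pgd L) (pP L l) (n0 + u))) := by
      intro u
      rw [Finset.prod_insert hnot]
      ring
    rw [Finset.sum_congr rfl (fun u _ => e3 u), Finset.sum_add_distrib, ← Finset.mul_sum]
    set S1 := ∑ u ∈ range (pX L), (∏ l ∈ s, ee (θ * ((ds 2 (pBt L (l + 1)) (pBt L l) (n0 + u) : ℝ) -
          ds 3 (pP L (l + 1) + pgd L) (pP L l) (n0 + u)))) *
        (ee (θ * ((ds 2 (pBt L (a + 1)) (pBt L a) (n0 + u) : ℝ) -
          ds 3 (pP L (a + 1) + pgd L) (pP L a) (n0 + u))) - c) with hS1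
    set S2 := ∑ u ∈ range (pX L), ∏ l ∈ s,
        ee (θ * ((ds 2 (pBt L (l + 1)) (pBt L l) (n0 + u) : ℝ) -
          ds 3 (pP L (l + 1) + pgd L) (pP L l) (n0 + u))) with hS2
    set Q := ∏ l ∈ s, chA (pl L) (pP L l - (pP L (l + 1) + pgd L)) θ with hQ
    have e4 : 1 / (pX L : ℂ) * (S1 + c * S2) - c * Q =
        1 / (pX L : ℂ) * S1 + c * (1 / (pX L : ℂ) * S2 - Q) := by ring
    rw [e4]
    have n1 : ‖1 / (pX L : ℂ) * S1‖ ≤ 10 * |θ| + 32 / pK L := by
      rw [norm_mul, norm_div, norm_one, Complex.norm_natCast, one_div_mul_eq_div,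
        div_le_iff₀ hXr]
      exact hcost
    have n2 : ‖c * (1 / (pX L : ℂ) * S2 - Q)‖ ≤ s.card * (10 * |θ| + 32 / pK L) := by
      rw [norm_mul]
      calc ‖c‖ * ‖1 / (pX L : ℂ) * S2 - Q‖ ≤ 1 * (s.card * (10 * |θ| + 32 / pK L)) :=
            mul_le_mul hcn ih' (norm_nonneg _) zero_le_one
        _ = _ := one_mul _
    refine (norm_add_le _ _).trans ?_
    push_cast
    linarith

end Params

end Win

theorem claimWin (h0 : ClaimSizF) (h1 : ClaimEQ) (h2 : ClaimBlock) : ClaimWin := by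
  obtain ⟨L0, hL0⟩ := h0
  refine ⟨max L0 (20 ^ 25), ?_⟩
  intro L hL θ G n0 hθ hG hgood
  have hs : SizF L := hL0 L (le_trans (le_max_left _ _) hL)
  have hLK : L ≤ pK L := by
    unfold pK
    apply Nat.le_log_of_pow_le (by norm_num)
    exact Nat.pow_le_pow_left (by norm_num) L
  have hK : 20 ^ 25 ≤ pK L := le_trans (le_trans (le_max_right _ _) hL) hLK
  have hw := Win.window h1 h2 hs θ n0 G hG hgood
  have e1 : ∀ u : ℕ, ee (θ * (Dm L G (n0 + u) : ℝ)) = ∏ l ∈ G,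
        ee (θ * ((ds 2 (pBt L (l + 1)) (pBt L l) (n0 + u) : ℝ) -
          ds 3 (pP L (l + 1) + pgd L) (pP L l) (n0 + u))) := by
    intro u
    rw [← ee_sum, ← Finset.mul_sum]
    congr 2
    unfold Dm
    push_cast
    rfl
  have e2 : chA (G.card * pl L) (∑ l ∈ G, (pP L l - (pP L (l + 1) + pgd L))) θ =
      ∏ l ∈ G, chA (pl L) (pP L l - (pP L (l + 1) + pgd L)) θ := by
    unfold chA
    rw [Finset.prod_mul_distrib, Finset.prod_const, Finset.prod_pow_eq_pow_sum, ← pow_mul,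
      mul_comm (pl L)]
  rw [Finset.sum_congr rfl (fun u _ => e1 u), e2]
  refine hw.trans ?_
  have hcard : (G.card : ℝ) ≤ pm L := by
    have := Finset.card_le_card hG
    rw [card_range] at this
    exact_mod_cast this
  have hKr : ((20 : ℝ) ^ 25) ≤ pK L := by exact_mod_cast hK
  have hKpos : (0 : ℝ) < pK L := lt_of_lt_of_le (by positivity) hKr
  set κ : ℝ := (pK L : ℝ) with hκ
  set s : ℝ := κ ^ ((1 : ℝ) / 100) with hs'
  have hspos : 0 < s := Real.rpow_pos_of_pos hKpos _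
  have q1 : κ ^ ((1 : ℝ) / 4) = s ^ 25 := by
    rw [hs', ← Real.rpow_natCast, ← Real.rpow_mul hKpos.le]
    norm_num
  have q2 : κ ^ (-(49 : ℝ) / 100) = (s ^ 49)⁻¹ := by
    rw [hs', ← Real.rpow_natCast, ← Real.rpow_mul hKpos.le, ← Real.rpow_neg hKpos.le]
    norm_num
  have q3 : κ ^ (-(1 : ℝ) / 5) = (s ^ 20)⁻¹ := by
    rw [hs', ← Real.rpow_natCast, ← Real.rpow_mul hKpos.le, ← Real.rpow_neg hKpos.le]
    norm_num
  have q4 : κ = s ^ 100 := by
    rw [hs', ← Real.rpow_natCast, ← Real.rpow_mul hKpos.le]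
    norm_num
  have hm := hs.z18'
  rw [← hκ, q1] at hm
  rw [q2] at hθ
  rw [q3]
  have hs4 : 20 ≤ s ^ 4 := by
    by_contra hlt
    push Not at hlt
    have h5 : (s ^ 4) ^ 25 < 20 ^ 25 := pow_lt_pow_left₀ hlt (by positivity) (by norm_num)
    rw [← pow_mul] at h5
    norm_num at h5
    rw [q4] at hKr
    norm_num at hKr
    linarith
  have hs1 : 1 ≤ s := by
    by_contra hlt
    push Not at hlt
    have : s ^ 4 ≤ 1 := pow_le_one₀ hspos.le hlt.le
    linarith
  have hfin : s ^ 25 * (10 * (s ^ 49)⁻¹ + 32 / s ^ 100) ≤ (s ^ 20)⁻¹ := by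
    have e : s ^ 25 * (10 * (s ^ 49)⁻¹ + 32 / s ^ 100) = (10 * s ^ 51 + 32) / s ^ 75 := by
      field_simp
    rw [e, div_le_iff₀ (by positivity)]
    have e' : (s ^ 20)⁻¹ * s ^ 75 = s ^ 4 * s ^ 51 := by
      field_simp
    rw [e']
    have h51 : 20 ≤ s ^ 51 := hs4.trans (pow_le_pow_right₀ hs1 (by norm_num))
    nlinarith
  refine le_trans ?_ hfin
  have hin : 10 * |θ| + 32 / κ ≤ 10 * (s ^ 49)⁻¹ + 32 / s ^ 100 := by
    rw [← q4]
    linarith
  exact mul_le_mul (hcard.trans hm) hin (by positivity) (by positivity)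

end Pool.Agent.Work.MP_8e4d29_nt

end
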