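import Pool.Agent.Work.MP_8e4d29_nt.Bd.B02
import Pool.Agent.Work.MP_8e4d29_nt.Bd.B01
import Pool.Agent.Work.MP_8e4d29_nt.Bd.B03

/-! Bundle of small proof modules (one section per former module). -/

section

set_option autoImplicit false

/-! MP_8e4d29_nt, item N8: lower bound for the primes in the union of the short intervals. -/

namespace Pool.Agent.Work.MP_8e4d29_nt

namespace T1p

open Finset
open ArithmeticFunction (vonMangoldt)

/-- Grouping a sum over `|n - X| ≥ h` in blocks of length `h`. -/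
theorem tail (f : ℕ → ℝ) (hf : ∀ n, 0 ≤ f n) (X h : ℕ) (hh : 1 ≤ h) (M : ℝ)
    (hM : ∀ a, ∑ n ∈ Ico a (a + h), f n ≤ M) (S : Finset ℕ)
    (hS : ∀ n ∈ S, h ≤ ((n : ℤ) - X).natAbs) :
    ∑ n ∈ S, f n / ((n : ℝ) - X) ^ 2 ≤ 4 * M / (h : ℝ) ^ 2 := by
  have hM0 : 0 ≤ M := (Finset.sum_nonneg fun n _ => hf n).trans (hM 0)
  have hh0 : (0 : ℝ) < h := by exact_mod_cast hh
  set k : ℕ → ℕ := fun n => ((n : ℤ) - X).natAbs / h with hk
  obtain ⟨K, hK⟩ : ∃ K, ∀ n ∈ S, k n < K := by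
    refine ⟨(S.sup k) + 1, fun n hn => Nat.lt_succ_of_le (Finset.le_sup hn)⟩
  have hk1 : ∀ n ∈ S, 0 < k n := fun n hn => Nat.div_pos (hS n hn) hh
  have hmaps : ∀ n ∈ S, k n ∈ Ioo 0 K := fun n hn => Finset.mem_Ioo.2 ⟨hk1 n hn, hK n hn⟩
  rw [← Finset.sum_fiberwise_of_maps_to hmaps]
  have hfib : ∀ j ∈ Ioo 0 K, ∑ n ∈ S with k n = j, f n / ((n : ℝ) - X) ^ 2 ≤
      2 * M / (h : ℝ) ^ 2 * ((j : ℝ) ^ 2)⁻¹ := by
    intro j hj
    have hj0 : 0 < j := (Finset.mem_Ioo.1 hj).1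
    have hj0' : (0 : ℝ) < j := by exact_mod_cast hj0
    have h1 : ∀ n ∈ S.filter fun n => k n = j, f n / ((n : ℝ) - X) ^ 2 ≤
        f n * (1 / ((j : ℝ) * h) ^ 2) := by
      intro n hn
      have hkn : k n = j := (Finset.mem_filter.1 hn).2
      have h2 : j * h ≤ ((n : ℤ) - X).natAbs := by
        rw [← hkn]
        exact Nat.div_mul_le_self _ _
      have h3 : ((j : ℝ) * h) ^ 2 ≤ ((n : ℝ) - X) ^ 2 := by
        rw [← sq_abs ((n : ℝ) - X)]
        apply pow_le_pow_left₀ (by positivity)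
        have h4 : (((j * h : ℕ) : ℤ)) ≤ |(n : ℤ) - X| := by
          rw [← Int.natCast_natAbs]
          exact_mod_cast h2
        have h5 : (((j * h : ℕ) : ℤ) : ℝ) ≤ ((|(n : ℤ) - X| : ℤ) : ℝ) := by exact_mod_cast h4
        push_cast at h5
        exact h5
      rw [div_eq_mul_one_div]
      apply mul_le_mul_of_nonneg_left _ (hf n)
      exact one_div_le_one_div_of_le (by positivity) h3
    refine (Finset.sum_le_sum h1).trans ?_
    rw [← Finset.sum_mul]
    have h6 : ∑ n ∈ S.filter (fun n => k n = j), f n ≤ 2 * M := by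
      have hsub : S.filter (fun n => k n = j) ⊆
          Ico (X + j * h) (X + j * h + h) ∪ Ico (X + 1 - (j * h + h)) (X + 1 - (j * h + h) + h) := by
        intro n hn
        have hkn : k n = j := (Finset.mem_filter.1 hn).2
        have h2 : j * h ≤ ((n : ℤ) - X).natAbs := by
          rw [← hkn]
          exact Nat.div_mul_le_self _ _
        have h3 : ((n : ℤ) - X).natAbs < j * h + h := by
          have := Nat.lt_div_mul_add (a := ((n : ℤ) - X).natAbs) hh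
          rw [← hkn]
          exact this
        rw [Finset.mem_union, Finset.mem_Ico, Finset.mem_Ico]
        generalize j * h = q at h2 h3 ⊢
        omega
      calc ∑ n ∈ S.filter (fun n => k n = j), f n
          ≤ ∑ n ∈ Ico (X + j * h) (X + j * h + h) ∪
            Ico (X + 1 - (j * h + h)) (X + 1 - (j * h + h) + h), f n :=
            Finset.sum_le_sum_of_subset_of_nonneg hsub fun n _ _ => hf n
        _ ≤ ∑ n ∈ Ico (X + j * h) (X + j * h + h), f n +
            ∑ n ∈ Ico (X + 1 - (j * h + h)) (X + 1 - (j * h + h) + h), f n := by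
            rw [← Finset.sum_union_inter]
            exact le_add_of_nonneg_right (Finset.sum_nonneg fun n _ => hf n)
        _ ≤ 2 * M := by linarith [hM (X + j * h), hM (X + 1 - (j * h + h))]
    calc (∑ n ∈ S.filter (fun n => k n = j), f n) * (1 / ((j : ℝ) * h) ^ 2)
        ≤ 2 * M * (1 / ((j : ℝ) * h) ^ 2) := mul_le_mul_of_nonneg_right h6 (by positivity)
      _ = 2 * M / (h : ℝ) ^ 2 * ((j : ℝ) ^ 2)⁻¹ := by
        field_simp
  refine (Finset.sum_le_sum hfib).trans ?_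
  rw [← Finset.mul_sum]
  have h7 : ∑ j ∈ Ioo 0 K, ((j : ℝ) ^ 2)⁻¹ ≤ 2 := by
    have := sum_Ioo_inv_sq_le (α := ℝ) 0 K
    simpa using this
  calc 2 * M / (h : ℝ) ^ 2 * ∑ j ∈ Ioo 0 K, ((j : ℝ) ^ 2)⁻¹
      ≤ 2 * M / (h : ℝ) ^ 2 * 2 := mul_le_mul_of_nonneg_left h7 (by positivity)
    _ = 4 * M / (h : ℝ) ^ 2 := by ring

/-- Lower bound for differences of logarithms. -/
theorem log_diff {a b R : ℝ} (ha : 0 < a) (hb : 0 < b) (haR : a ≤ R) (hbR : b ≤ R) :
    ((a - b) / R) ^ 2 ≤ (Real.log a - Real.log b) ^ 2 := by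
  have hR : 0 < R := ha.trans_le haR
  have key : ∀ c d : ℝ, 0 < c → c ≤ d → d ≤ R → (d - c) / R ≤ Real.log d - Real.log c := by
    intro c d hc hcd hdR
    have hd : 0 < d := hc.trans_le hcd
    have h1 := Real.one_sub_inv_le_log_of_pos (div_pos hd hc)
    rw [Real.log_div hd.ne' hc.ne', inv_div] at h1
    refine le_trans ?_ h1
    have h2 : 1 - c / d = (d - c) / d := by field_simp
    rw [h2]
    exact div_le_div_of_nonneg_left (by linarith) hd hdR
  rcases le_total b a with h | h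
  · have h1 := key b a hb h haR
    have h2 : 0 ≤ (a - b) / R := div_nonneg (by linarith) hR.le
    exact pow_le_pow_left₀ h2 h1 2
  · have h1 := key a b ha h hbR
    have h2 : 0 ≤ (b - a) / R := div_nonneg (by linarith) hR.le
    have h3 := pow_le_pow_left₀ h2 h1 2
    calc ((a - b) / R) ^ 2 = ((b - a) / R) ^ 2 := by ring
      _ ≤ (Real.log b - Real.log a) ^ 2 := h3
      _ = (Real.log a - Real.log b) ^ 2 := by ring

/-- The mass of short intervals. -/
theorem mass (C : ℝ) (hC : 0 < C) (N0 : ℕ)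
    (hBT : ∀ (N x h q r e : ℕ), N0 ≤ N → N ≤ x →
      x + h ≤ 32 * N → (N : ℝ) ^ ((52 : ℝ) / 100) ≤ h → (q = 2 ^ e ∨ q = 3 ^ e) →
      (q : ℝ) ≤ (N : ℝ) ^ ((1 : ℝ) / 100) → Nat.Coprime r q →
      ∑ n ∈ (Ioc x (x + h)).filter (fun n => n % q = r % q), vonMangoldt n ≤ C * h / q)
    (P h : ℕ) (hP : 4 * N0 + 100 ≤ P) (hh1 : (P : ℝ) ^ ((52 : ℝ) / 100) ≤ h) (hh2 : 8 * h ≤ P)
    (a : ℕ) :
    ∑ n ∈ Ico a (a + h), (if P / 2 < n ∧ n ≤ 5 * P then vonMangoldt n else 0) ≤ C * h := by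
  classical
  have h0 : ∀ n : ℕ, (0 : ℝ) ≤ vonMangoldt n := fun n => ArithmeticFunction.vonMangoldt_nonneg
  by_cases hcase : P / 2 < a + h ∧ a ≤ 5 * P
  · obtain ⟨c1, c2⟩ := hcase
    have ha1 : 1 ≤ a := by omega
    have h1 := hBT (P / 4) (a - 1) h 1 0 0 (by omega) (by omega) (by omega)
      (by
        refine le_trans ?_ hh1
        apply Real.rpow_le_rpow (by positivity) _ (by norm_num)
        exact_mod_cast Nat.div_le_self P 4)
      (by simp)
      (by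
        rw [Nat.cast_one]
        apply Real.one_le_rpow _ (by norm_num)
        have : 1 ≤ P / 4 := by omega
        exact_mod_cast this)
      (by simp)
    have e1 : (Ioc (a - 1) (a - 1 + h)).filter (fun n => n % 1 = 0 % 1) = Ico a (a + h) := by
      ext n
      rw [Finset.mem_filter, Finset.mem_Ioc, Finset.mem_Ico]
      omega
    rw [e1, Nat.cast_one, div_one] at h1
    refine le_trans (Finset.sum_le_sum fun n _ => ?_) h1
    split_ifs
    · exact le_refl _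
    · exact h0 n
  · rw [Finset.sum_eq_zero]
    · positivity
    · intro n hn
      rw [Finset.mem_Ico] at hn
      rw [if_neg]
      omega

end T1p

open Finset T1p ArithmeticFunction in
theorem claimT1 (h0 : ClaimSizF) (h1 : ClaimT1diff) (h2 : ClaimBT) (h3 : ClaimCheb)
    (h4 : ClaimFej) : ClaimT1 := by
  classical
  obtain ⟨L0, hSiz⟩ := h0
  obtain ⟨η, hη, hd⟩ := h1
  obtain ⟨C, N0, hC, hBT⟩ := h2
  obtain ⟨x0, hx0⟩ := h3
  set CT : ℝ := 1 + 5000 * C with hCT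
  have hCT1 : 1 ≤ CT := by linarith
  have hCT0 : 0 < CT := by linarith
  obtain ⟨L1, hL1⟩ := hd CT hCT1
  -- large `L`
  obtain ⟨k1, hk1⟩ : ∃ k1 : ℕ, ∀ k, k1 ≤ k → (100 : ℝ) ≤ ((3 : ℝ) ^ k) ^ η := by
    have t1 : Filter.Tendsto (fun k : ℕ => ((3 : ℝ) ^ k) ^ η) Filter.atTop Filter.atTop :=
      (tendsto_rpow_atTop hη).comp (tendsto_pow_atTop_atTop_of_one_lt (by norm_num))
    exact Filter.eventually_atTop.1 (t1.eventually_ge_atTop 100)
  refine ⟨1 / (40 * CT), max (max L0 L1) (max (100 * k1) (max 1000 (x0 + 4 * N0 + 100))),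
    by positivity, ?_⟩
  intro L z hL hz
  simp only [max_le_iff] at hL
  obtain ⟨⟨hLa, hLb⟩, hLc, hLd, hLe⟩ := hL
  have hS := hSiz L hLa
  have hpow : L < 3 ^ L := Nat.lt_pow_self (by norm_num)
  set P : ℕ := 3 ^ L with hP
  set Y : ℕ := 3 ^ py0 L with hY
  set J : ℕ := 3 ^ pjj L with hJ
  set H : ℕ := 3 ^ pj0 L with hH
  have hpy : 10 ≤ py0 L := by unfold py0; omega
  have hJY : J * Y = P := by
    rw [hJ, hY, hP, ← pow_add]
    congr 1
    unfold pjj py0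
    omega
  have hY10 : 100 ≤ Y := by
    calc 100 ≤ 3 ^ 10 := by norm_num
      _ ≤ 3 ^ py0 L := Nat.pow_le_pow_right (by norm_num) hpy
  have hJ1 : 1 ≤ J := Nat.one_le_pow _ _ (by norm_num)
  have hH1 : 1 ≤ H := Nat.one_le_pow _ _ (by norm_num)
  have hHodd : H % 2 = 1 := by
    rw [hH, Nat.pow_mod]
    norm_num
  obtain ⟨m, hm⟩ : ∃ m, H = 2 * m + 1 := ⟨H / 2, by omega⟩
  set h : ℕ := m + 1 with hh
  set c : ℕ := z + m with hc
  have hcJ : c < J := by omega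
  have hpH : pH L = H := rfl
  -- real parameters
  have hPr : (0 : ℝ) < P := by positivity
  have hPr' : ((3 : ℝ) ^ L) = P := by rw [hP]; push_cast; rfl
  have hYr' : ((3 : ℝ) ^ py0 L) = Y := by rw [hY]; push_cast; rfl
  have hJr' : ((3 : ℝ) ^ pjj L) = J := by rw [hJ]; push_cast; rfl
  have hYr : (100 : ℝ) ≤ Y := by exact_mod_cast hY10
  have hHr : (0 : ℝ) < H := by exact_mod_cast hH1
  have hJr : (0 : ℝ) < J := by exact_mod_cast hJ1
  set T : ℝ := CT * 3 ^ L / pH L with hT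
  have hT' : T = CT * P / H := by rw [hT, hPr', hpH]
  have hT0 : 0 < T := by rw [hT']; positivity
  have hTH : T * H = CT * P := by
    rw [hT']
    field_simp
  -- Fejer kernel
  have hfe := fun (T u : ℝ) (hT : 0 < T) => h4 T u hT
  -- bounds for h
  have hz4 : ((P : ℕ) : ℝ) ^ ((77 : ℝ) / 100) ≤ H := hS.z4
  have hz5 : (H : ℝ) ≤ ((P : ℕ) : ℝ) ^ ((79 : ℝ) / 100) := hS.z5
  have hP1 : (1 : ℝ) ≤ P := by
    have : 1 ≤ P := Nat.one_le_pow _ _ (by norm_num)
    exact_mod_cast this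
  have hbig : ∀ t : ℝ, 1 / 100 ≤ t → (100 : ℝ) ≤ (P : ℝ) ^ t := by
    intro t ht
    calc (100 : ℝ) ≤ Y := hYr
      _ ≤ (P : ℝ) ^ ((1 : ℝ) / 100) := by
        rw [← hYr', ← hPr', ← Real.rpow_natCast, ← Real.rpow_natCast, ← Real.rpow_mul (by norm_num)]
        apply Real.rpow_le_rpow_of_exponent_le (by norm_num)
        have : ((py0 L : ℕ) : ℝ) ≤ (L : ℝ) / 100 := by
          unfold py0
          have := Nat.cast_div_le (α := ℝ) (m := L) (n := 100)
          simpa using this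
        linarith
      _ ≤ (P : ℝ) ^ t := Real.rpow_le_rpow_of_exponent_le hP1 ht
  have hhr : (h : ℝ) = (H + 1) / 2 := by
    have : (H : ℝ) = 2 * m + 1 := by exact_mod_cast hm
    rw [this, hh]
    push_cast
    ring
  have hh1 : (P : ℝ) ^ ((52 : ℝ) / 100) ≤ h := by
    have e1 : (P : ℝ) ^ ((77 : ℝ) / 100) = (P : ℝ) ^ ((52 : ℝ) / 100) * (P : ℝ) ^ ((25 : ℝ) / 100) := by
      rw [← Real.rpow_add hPr]
      norm_num
    have e2 := hbig ((25 : ℝ) / 100) (by norm_num)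
    have e3 : 0 < (P : ℝ) ^ ((52 : ℝ) / 100) := Real.rpow_pos_of_pos hPr _
    rw [e1] at hz4
    rw [hhr]
    nlinarith
  have hh2 : 8 * h ≤ P := by
    have e1 : (P : ℝ) = (P : ℝ) ^ ((79 : ℝ) / 100) * (P : ℝ) ^ ((21 : ℝ) / 100) := by
      rw [← Real.rpow_add hPr]
      norm_num
    have e2 := hbig ((21 : ℝ) / 100) (by norm_num)
    have e3 : 0 < (P : ℝ) ^ ((79 : ℝ) / 100) := Real.rpow_pos_of_pos hPr _
    have e4 : (8 : ℝ) * h ≤ P := by
      have e5 : (1 : ℝ) ≤ H := by exact_mod_cast hH1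
      rw [hhr]
      nlinarith
    exact_mod_cast e4
  have hmass := mass C hC N0 hBT P h (by omega) hh1 hh2
  -- the centres
  have hXr : ∀ y : ℕ, (3 : ℝ) ^ pjj L * (y : ℝ) + c = ((J * y + c : ℕ) : ℝ) := by
    intro y
    rw [hJr']
    push_cast
    ring
  -- upper bound for every `y`
  have hup : ∀ y ∈ Ico Y (3 * Y), ∑ n ∈ Ioc (P / 2) (5 * P), vonMangoldt n *
      fej T (Real.log n - Real.log ((3 : ℝ) ^ pjj L * (y : ℝ) + c)) ≤
      T * (∑ n ∈ Ico (J * y + z) (J * y + z + H), vonMangoldt n) + P / 200 := by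
    intro y hy
    rw [Finset.mem_Ico] at hy
    rw [hXr]
    set X : ℕ := J * y + c with hX
    have hXle : X ≤ 5 * P := by
      have : J * y + J ≤ J * (3 * Y) := by
        rw [← Nat.mul_succ]
        exact Nat.mul_le_mul_left J hy.2
      have e2 : J * (3 * Y) = 3 * P := by rw [← hJY]; ring
      omega
    have hX1 : 1 ≤ X := by
      have : J * Y ≤ J * y := Nat.mul_le_mul_left J hy.1
      have e2 : 1 ≤ P := Nat.one_le_pow _ _ (by norm_num)
      omega
    have hXr1 : (0 : ℝ) < X := by exact_mod_cast hX1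
    have hpt : ∀ n ∈ Ioc (P / 2) (5 * P), vonMangoldt n * fej T (Real.log n - Real.log X) ≤
        (if n ∈ Ico (J * y + z) (J * y + z + H) then T * vonMangoldt n else 0) +
        (if h ≤ ((n : ℤ) - X).natAbs then
          25 * P ^ 2 / (9 * T) * ((if P / 2 < n ∧ n ≤ 5 * P then vonMangoldt n else 0) /
            ((n : ℝ) - X) ^ 2) else 0) := by
      intro n hn
      rw [Finset.mem_Ioc] at hn
      have hL0n : (0 : ℝ) ≤ vonMangoldt n := vonMangoldt_nonneg
      obtain ⟨f1, f2, f3, -, -⟩ := hfe T (Real.log n - Real.log X) hT0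
      rw [if_pos hn]
      by_cases hin : n ∈ Ico (J * y + z) (J * y + z + H)
      · rw [if_pos hin]
        have g1 : vonMangoldt n * fej T (Real.log n - Real.log X) ≤ T * vonMangoldt n := by
          rw [mul_comm]
          exact mul_le_mul_of_nonneg_right f2 hL0n
        have g2 : (0 : ℝ) ≤ if h ≤ ((n : ℤ) - X).natAbs then
            25 * (P : ℝ) ^ 2 / (9 * T) * (vonMangoldt n / ((n : ℝ) - X) ^ 2) else 0 := by
          split_ifs
          · positivity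
          · exact le_refl _
        linarith
      · rw [if_neg hin, zero_add]
        have hdist : h ≤ ((n : ℤ) - X).natAbs := by
          rw [Finset.mem_Ico] at hin
          omega
        rw [if_pos hdist]
        have hn1 : 1 ≤ n := by omega
        have hn1r : (0 : ℝ) < n := by exact_mod_cast hn1
        have hne : (n : ℝ) - X ≠ 0 := by
          intro h0
          have h5 : (n : ℝ) = X := by linarith
          have h6 : n = X := by exact_mod_cast h5
          rw [h6] at hdist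
          simp at hdist
        have hlog := log_diff (R := 5 * P) hn1r hXr1 (by exact_mod_cast hn.2)
          (by exact_mod_cast hXle)
        have hlogpos : 0 < (Real.log n - Real.log X) ^ 2 := by
          refine lt_of_lt_of_le ?_ hlog
          positivity
        have hu : Real.log n - Real.log X ≠ 0 := by
          intro h0
          rw [h0] at hlogpos
          simp at hlogpos
        have g3 := f3 hu
        have g4 : 1 / (T * (Real.pi * (Real.log n - Real.log X)) ^ 2) ≤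
            25 * P ^ 2 / (9 * T) / ((n : ℝ) - X) ^ 2 := by
          rw [div_div, div_le_div_iff₀ (by positivity) (by positivity)]
          have hpi : (9 : ℝ) ≤ Real.pi ^ 2 := by
            have := Real.pi_gt_three
            nlinarith
          have g5 : ((n : ℝ) - X) ^ 2 ≤ 25 * P ^ 2 * (Real.log n - Real.log X) ^ 2 := by
            have : ((n : ℝ) - X) ^ 2 = 25 * P ^ 2 * (((n : ℝ) - X) / (5 * P)) ^ 2 := by
              rw [div_pow, mul_pow, show (5 : ℝ) ^ 2 = 25 by norm_num, mul_div_assoc']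
              rw [mul_div_cancel_left₀ _ (by positivity)]
            rw [this]
            exact mul_le_mul_of_nonneg_left hlog (by positivity)
          rw [mul_pow]
          have g6 : 9 * ((n : ℝ) - X) ^ 2 ≤
              Real.pi ^ 2 * (25 * P ^ 2 * (Real.log n - Real.log X) ^ 2) := by
            apply mul_le_mul hpi g5 (by positivity) (by positivity)
          nlinarith [mul_le_mul_of_nonneg_left g6 hT0.le]
        calc vonMangoldt n * fej T (Real.log n - Real.log X)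
            ≤ vonMangoldt n * (25 * P ^ 2 / (9 * T) / ((n : ℝ) - X) ^ 2) :=
              mul_le_mul_of_nonneg_left (g3.trans g4) hL0n
          _ = 25 * (P : ℝ) ^ 2 / (9 * T) * (vonMangoldt n / ((n : ℝ) - X) ^ 2) := by ring
    refine (Finset.sum_le_sum hpt).trans ?_
    rw [Finset.sum_add_distrib]
    apply add_le_add
    · rw [← Finset.sum_filter, ← Finset.mul_sum]
      apply mul_le_mul_of_nonneg_left _ hT0.le
      apply Finset.sum_le_sum_of_subset_of_nonneg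
      · intro n hn
        exact (Finset.mem_filter.1 hn).2
      · intro n _ _
        exact vonMangoldt_nonneg
    · rw [← Finset.sum_filter, ← Finset.mul_sum]
      have ht := tail (fun n => if P / 2 < n ∧ n ≤ 5 * P then vonMangoldt n else 0)
        (fun n => by
          split_ifs
          · exact vonMangoldt_nonneg
          · exact le_refl _) X h (by omega) (C * h) hmass
        ((Ioc (P / 2) (5 * P)).filter fun n => h ≤ ((n : ℤ) - X).natAbs)
        (fun n hn => (Finset.mem_filter.1 hn).2)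
      refine (mul_le_mul_of_nonneg_left ht (by positivity)).trans ?_
      have hhpos : (0 : ℝ) < h := by rw [hhr]; positivity
      have e1 : 25 * (P : ℝ) ^ 2 / (9 * T) * (4 * (C * h) / (h : ℝ) ^ 2) =
          100 * C * P ^ 2 / (9 * (T * h)) := by
        field_simp
        ring
      rw [e1]
      have e2 : CT * P / 2 ≤ T * h := by
        rw [hhr, ← hTH]
        nlinarith
      have e3 : 100 * C * (P : ℝ) ^ 2 / (9 * (T * h)) ≤ 100 * C * P ^ 2 / (9 * (CT * P / 2)) := by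
        apply div_le_div_of_nonneg_left (by positivity) (by positivity)
        linarith
      refine e3.trans ?_
      rw [div_le_div_iff₀ (by positivity) (by norm_num)]
      have e4 : 5000 * C ≤ CT := by linarith
      have e5 : 0 < (P : ℝ) ^ 2 := by positivity
      nlinarith [mul_le_mul_of_nonneg_right e4 e5.le]
  -- lower bound
  set T' : ℝ := (3 : ℝ) ^ py0 L / 8 with hT'def
  have hT'0 : 0 < T' := by positivity
  have hlow : (45 / 1000 : ℝ) * (Y * P) ≤ ∑ n ∈ Ioc (P / 2) (5 * P), vonMangoldt n *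
      ∑ y ∈ Ico Y (3 * Y), fej T' (Real.log n - Real.log ((3 : ℝ) ^ pjj L * (y : ℝ) + c)) := by
    have hch := hx0 P (by omega)
    have hsub : (Icc (11 * P / 10 + 1) (29 * P / 10)).filter Nat.Prime ⊆ Ioc (P / 2) (5 * P) := by
      intro n hn
      have := Finset.mem_Icc.1 (Finset.mem_filter.1 hn).1
      rw [Finset.mem_Ioc]
      omega
    have hnn : ∀ n : ℕ, 0 ≤ ∑ y ∈ Ico Y (3 * Y),
        fej T' (Real.log n - Real.log ((3 : ℝ) ^ pjj L * (y : ℝ) + c)) := fun n =>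
      Finset.sum_nonneg fun y _ => (hfe T' _ hT'0).1
    refine le_trans ?_ (Finset.sum_le_sum_of_subset_of_nonneg hsub fun n _ _ =>
      mul_nonneg vonMangoldt_nonneg (hnn n))
    have hpt : ∀ n ∈ (Icc (11 * P / 10 + 1) (29 * P / 10)).filter Nat.Prime,
        Real.log n * (9 / 10 * T') ≤ vonMangoldt n * ∑ y ∈ Ico Y (3 * Y),
          fej T' (Real.log n - Real.log ((3 : ℝ) ^ pjj L * (y : ℝ) + c)) := by
      intro n hn
      obtain ⟨hn1, hn2⟩ := Finset.mem_filter.1 hn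
      rw [Finset.mem_Icc] at hn1
      rw [vonMangoldt_apply_prime hn2]
      apply mul_le_mul_of_nonneg_left _ (Real.log_natCast_nonneg n)
      -- the value of `y`
      have hPJ : 10 * J ≤ P := by
        rw [← hJY]
        nlinarith
      have hcn : c ≤ n := by omega
      set y : ℕ := (n - c) / J with hy
      have hy1 : y * J ≤ n - c := Nat.div_mul_le_self _ _
      have hy2 : n - c < y * J + J := Nat.lt_div_mul_add hJ1
      have hyY : y ∈ Ico Y (3 * Y) := by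
        rw [Finset.mem_Ico]
        constructor
        · rw [hy, Nat.le_div_iff_mul_le hJ1, mul_comm, hJY]
          omega
        · by_contra hcon
          push Not at hcon
          have : 3 * Y * J ≤ y * J := Nat.mul_le_mul_right J hcon
          have e2 : 3 * Y * J = 3 * P := by rw [← hJY]; ring
          omega
      refine le_trans ?_ (Finset.single_le_sum (f := fun y : ℕ =>
        fej T' (Real.log n - Real.log ((3 : ℝ) ^ pjj L * (y : ℝ) + c)))
        (fun y _ => (hfe T' _ hT'0).1) hyY)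
      obtain ⟨-, -, -, f4, -⟩ := hfe T' (Real.log n - Real.log ((3 : ℝ) ^ pjj L * (y : ℝ) + c)) hT'0
      apply f4
      rw [hXr]
      set X : ℕ := J * y + c with hX
      have hXn : X ≤ n := by
        have : J * y = y * J := mul_comm _ _
        omega
      have hnX : n < X + J := by
        have : J * y = y * J := mul_comm _ _
        omega
      have hXP : P ≤ X := by
        have := Nat.mul_le_mul_left J (Finset.mem_Ico.1 hyY).1
        omega
      have hX0 : (0 : ℝ) < X := lt_of_lt_of_le hPr (by exact_mod_cast hXP)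
      have hn0 : (0 : ℝ) < n := lt_of_lt_of_le hX0 (by exact_mod_cast hXn)
      have u0 : 0 ≤ Real.log n - Real.log X := by
        have := Real.log_le_log hX0 (show (X : ℝ) ≤ n by exact_mod_cast hXn)
        linarith
      have u1 : Real.log n - Real.log X ≤ J / X := by
        rw [← Real.log_div hn0.ne' hX0.ne']
        have := Real.log_le_sub_one_of_pos (div_pos hn0 hX0)
        refine this.trans ?_
        rw [div_sub_one hX0.ne']
        apply div_le_div_of_nonneg_right _ hX0.le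
        have : (n : ℝ) < X + J := by exact_mod_cast hnX
        linarith
      have u2 : (J : ℝ) / X ≤ 1 / Y := by
        rw [div_le_div_iff₀ hX0 (by linarith), one_mul]
        have : J * Y ≤ X := by omega
        exact_mod_cast this
      rw [abs_mul, abs_of_pos hT'0, abs_of_nonneg u0, hT'def, hYr']
      have hY0 : (0 : ℝ) < Y := by linarith
      calc (Y : ℝ) / 8 * (Real.log n - Real.log X) ≤ Y / 8 * (1 / Y) :=
            mul_le_mul_of_nonneg_left (u1.trans u2) (by positivity)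
        _ = 1 / 8 := by field_simp
        _ ≤ 1 / 8 := le_refl _
    refine le_trans ?_ (Finset.sum_le_sum hpt)
    rw [← Finset.sum_mul, hT'def, hYr']
    have hY0 : (0 : ℝ) < Y := by linarith
    nlinarith [mul_le_mul_of_nonneg_right hch (show (0 : ℝ) ≤ 9 / 10 * (Y / 8) by positivity)]
  -- comparison
  have hdif := hL1 L c hLb hcJ
  have hFY : ∑ n ∈ Ioc (P / 2) (5 * P), vonMangoldt n * FY L c (CT * 3 ^ L / pH L) n =
      (∑ n ∈ Ioc (P / 2) (5 * P), vonMangoldt n *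
        ∑ y ∈ Ico Y (3 * Y), fej T (Real.log n - Real.log ((3 : ℝ) ^ pjj L * (y : ℝ) + c))) -
      ∑ n ∈ Ioc (P / 2) (5 * P), vonMangoldt n *
        ∑ y ∈ Ico Y (3 * Y), fej T' (Real.log n - Real.log ((3 : ℝ) ^ pjj L * (y : ℝ) + c)) := by
    rw [← Finset.sum_sub_distrib]
    apply Finset.sum_congr rfl
    intro n _
    unfold FY
    rw [Finset.sum_sub_distrib, mul_sub]
  rw [hFY] at hdif
  have hsmall : (3 : ℝ) ^ L * ((3 : ℝ) ^ py0 L) ^ (1 - η) ≤ 1 / 100 * (Y * P) := by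
    have e1 := hk1 (py0 L) (by unfold py0; omega)
    rw [hYr'] at e1 ⊢
    rw [hPr']
    have hY0 : (0 : ℝ) < Y := by linarith
    have e2 : (Y : ℝ) ^ (1 - η) * (Y : ℝ) ^ η = Y := by
      rw [← Real.rpow_add hY0]
      simp
    have e3 : 0 < (Y : ℝ) ^ (1 - η) := Real.rpow_pos_of_pos hY0 _
    have e4 : 100 * (Y : ℝ) ^ (1 - η) ≤ Y := by nlinarith
    nlinarith
  have hswap : ∑ n ∈ Ioc (P / 2) (5 * P), vonMangoldt n *
        ∑ y ∈ Ico Y (3 * Y), fej T (Real.log n - Real.log ((3 : ℝ) ^ pjj L * (y : ℝ) + c)) =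
      ∑ y ∈ Ico Y (3 * Y), ∑ n ∈ Ioc (P / 2) (5 * P), vonMangoldt n *
        fej T (Real.log n - Real.log ((3 : ℝ) ^ pjj L * (y : ℝ) + c)) := by
    rw [Finset.sum_comm]
    apply Finset.sum_congr rfl
    intro n _
    rw [Finset.mul_sum]
  have htot := Finset.sum_le_sum hup
  rw [← hswap, Finset.sum_add_distrib, ← Finset.mul_sum, Finset.sum_const, Nat.card_Ico,
    nsmul_eq_mul] at htot
  have hcard : ((3 * Y - Y : ℕ) : ℝ) = 2 * Y := by
    have : 3 * Y - Y = 2 * Y := by omega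
    rw [this]
    push_cast
    ring
  rw [hcard] at htot
  have habs := (abs_le.1 hdif).1
  set Sg : ℝ := ∑ y ∈ Ico Y (3 * Y), ∑ n ∈ Ico (J * y + z) (J * y + z + H), vonMangoldt n with hSg
  have hfin : 25 / 1000 * (Y * P) ≤ T * Sg := by
    have e1 : 2 * (Y : ℝ) * (P / 200) = 1 / 100 * (Y * P) := by ring
    linarith
  have hgoal : 1 / (40 * CT) * ((Y : ℝ) * H) ≤ Sg := by
    have e1 : CT * P * Sg = T * Sg * H := by rw [← hTH]; ring
    have e2 : 25 / 1000 * (Y * P) * H ≤ CT * P * Sg := by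
      rw [e1]
      exact mul_le_mul_of_nonneg_right hfin hHr.le
    have e3 : 25 / 1000 * ((Y : ℝ) * H) ≤ CT * Sg := by
      have : (P : ℝ) * (25 / 1000 * ((Y : ℝ) * H)) ≤ P * (CT * Sg) := by linarith
      exact le_of_mul_le_mul_left this hPr
    have e4 : 1 / (40 * CT) * ((Y : ℝ) * H) = (25 / 1000 * ((Y : ℝ) * H)) / CT := by
      field_simp
      ring
    rw [e4, div_le_iff₀ hCT0]
    linarith
  have e5 : (3 : ℝ) ^ (py0 L + pj0 L) = (Y : ℝ) * H := by
    rw [pow_add, hYr', hH]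
    push_cast
    rfl
  rw [e5]
  exact hgoal

end Pool.Agent.Work.MP_8e4d29_nt

end

section

/-!
MP_8e4d29_nt, item N3: `∑ (y + c)^{it}` for `t` up to `Y ^ 23`, by repeated differencing.
-/

namespace Pool.Agent.Work.MP_8e4d29_nt
namespace YsumAux

open Finset
open Pool.Agent.Work.MP_122e00_nt (ee norm_ee ee_add ee_neg)

/-- iterated sums of exponential sums of differences -/
noncomputable def Sq : ℕ → ℕ → ℕ → ℕ → (ℕ → ℝ) → ℝ
  | 0, _, L, a, f => ‖∑ n ∈ Ico a (a + L), ee (f n)‖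
  | q + 1, R, L, a, f => ∑ r ∈ Ico 1 R, Sq q R (L - r) a (fun n => f (n + r) - f n)

theorem Sq_nonneg (q R L a : ℕ) (f : ℕ → ℝ) : 0 ≤ Sq q R L a f := by
  induction q generalizing L f with
  | zero => exact norm_nonneg _
  | succ q ih => exact Finset.sum_nonneg fun r _ => ih _ _

theorem step_real (R L L' X s T : ℝ) (hR : 1 ≤ R) (hRL : R ≤ L) (hL'0 : 0 ≤ L') (hL : L' ≤ L)
    (hs : 0 ≤ s) (hT : T ≤ R * s)
    (key : R ^ 2 * X ^ 2 ≤ (L' + R) * (R * L' + 2 * T)) :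
    X ^ 2 ≤ 2 * L ^ 2 / R + 4 * L / R * s := by
  have hR0 : 0 < R := by linarith
  have b1 : R * L' + 2 * T ≤ R * L + 2 * (R * s) := by
    have : R * L' ≤ R * L := mul_le_mul_of_nonneg_left hL (by linarith)
    linarith
  have b2 : 0 ≤ R * L + 2 * (R * s) := by
    have : 0 ≤ R * L := mul_nonneg hR0.le (by linarith)
    have : 0 ≤ R * s := mul_nonneg hR0.le hs
    linarith
  have e5 : R ^ 2 * X ^ 2 ≤ (2 * L) * (R * L + 2 * (R * s)) := by
    refine key.trans ?_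
    calc (L' + R) * (R * L' + 2 * T) ≤ (L' + R) * (R * L + 2 * (R * s)) :=
          mul_le_mul_of_nonneg_left b1 (by linarith)
      _ ≤ (2 * L) * (R * L + 2 * (R * s)) :=
          mul_le_mul_of_nonneg_right (by linarith) b2
  have e6 : X ^ 2 ≤ (2 * L) * (R * L + 2 * (R * s)) / R ^ 2 := by
    rw [le_div_iff₀ (by positivity)]
    linarith
  refine e6.trans (le_of_eq ?_)
  field_simp
  ring

/-- van der Corput step -/
theorem step (h1 : ClaimVdC0) (f : ℕ → ℝ) (a L' L R : ℕ) (hL : L' ≤ L) (hR : R ≤ L)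
    (hR1 : 1 ≤ R) :
    ‖∑ n ∈ Ico a (a + L'), ee (f n)‖ ^ 2 ≤
      2 * (L : ℝ) ^ 2 / R + 4 * L / R *
        ∑ r ∈ Ico 1 R, ‖∑ n ∈ Ico a (a + (L' - r)), ee (f (n + r) - f n)‖ := by
  classical
  obtain ⟨z, hz⟩ : ∃ z : ℕ → ℂ, z = fun n => if a ≤ n ∧ n < a + L' then ee (f n) else 0 := ⟨_, rfl⟩
  have hsup : ∀ n, z n ≠ 0 → a ≤ n ∧ n < a + L' := by
    intro n hn
    by_contra hcon
    exact hn (by simp only [hz, if_neg hcon])
  have key := h1 z a L' R hR1 hsup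
  have e1 : ∑ n ∈ Ico a (a + L'), z n = ∑ n ∈ Ico a (a + L'), ee (f n) := by
    refine Finset.sum_congr rfl fun n hn => ?_
    rw [Finset.mem_Ico] at hn
    simp only [hz, if_pos hn]
  have e2 : ∑ n ∈ Ico a (a + L'), ‖z n‖ ^ 2 = (L' : ℝ) := by
    have : ∀ n ∈ Ico a (a + L'), ‖z n‖ ^ 2 = (1 : ℝ) := by
      intro n hn
      rw [Finset.mem_Ico] at hn
      simp only [hz, if_pos hn, norm_ee, one_pow]
    rw [Finset.sum_congr rfl this]
    simp
  have e3 : ∀ r, ∑ n ∈ Ico a (a + L'), z (n + r) * (starRingEnd ℂ) (z n) =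
      ∑ n ∈ Ico a (a + (L' - r)), ee (f (n + r) - f n) := by
    intro r
    have hsub : Ico a (a + (L' - r)) ⊆ Ico a (a + L') := by
      intro n hn
      rw [Finset.mem_Ico] at hn ⊢
      omega
    rw [← Finset.sum_subset hsub]
    · refine Finset.sum_congr rfl fun n hn => ?_
      rw [Finset.mem_Ico] at hn
      have c1 : a ≤ n ∧ n < a + L' := by omega
      have c2 : a ≤ n + r ∧ n + r < a + L' := by omega
      simp only [hz, if_pos c1, if_pos c2]
      rw [ee_sub]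
    · intro n hn hn2
      rw [Finset.mem_Ico] at hn hn2
      have c2 : ¬ (a ≤ n + r ∧ n + r < a + L') := by omega
      simp only [hz, if_neg c2, zero_mul]
  rw [e1, e2] at key
  have e4 : ∑ r ∈ Ico 1 R, ((R : ℝ) - r) *
      (∑ n ∈ Ico a (a + L'), z (n + r) * (starRingEnd ℂ) (z n)).re ≤
      R * ∑ r ∈ Ico 1 R, ‖∑ n ∈ Ico a (a + (L' - r)), ee (f (n + r) - f n)‖ := by
    rw [Finset.mul_sum]
    refine Finset.sum_le_sum fun r hr => ?_
    rw [Finset.mem_Ico] at hr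
    rw [e3 r]
    have hr1 : (r : ℝ) ≤ R := by exact_mod_cast hr.2.le
    have hr0 : (0 : ℝ) ≤ r := Nat.cast_nonneg _
    have hr2 : (0 : ℝ) ≤ (R : ℝ) - r := sub_nonneg.mpr hr1
    have hr3 : (R : ℝ) - r ≤ R := by linarith
    exact (mul_le_mul_of_nonneg_left (Complex.re_le_norm _) hr2).trans
      (mul_le_mul_of_nonneg_right hr3 (norm_nonneg _))
  exact step_real R L L' _ _ _ (by exact_mod_cast hR1) (by exact_mod_cast hR)
    (Nat.cast_nonneg _) (by exact_mod_cast hL) (Finset.sum_nonneg fun _ _ => norm_nonneg _) e4 key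

theorem power_mean (R k : ℕ) (hk : 1 ≤ k) (x : ℕ → ℝ) (hx : ∀ r, 0 ≤ x r) :
    (∑ r ∈ Ico 1 R, x r) ^ k ≤ (R : ℝ) ^ (k - 1) * ∑ r ∈ Ico 1 R, x r ^ k := by
  obtain ⟨m, rfl⟩ : ∃ m, k = m + 1 := ⟨k - 1, by omega⟩
  have h := pow_sum_le_card_mul_sum_pow (s := Ico 1 R) (f := x) (fun i _ => hx i) m
  refine h.trans ?_
  refine mul_le_mul_of_nonneg_right ?_ (Finset.sum_nonneg fun r _ => pow_nonneg (hx r) _)
  rw [Nat.add_sub_cancel, Nat.card_Ico]
  refine pow_le_pow_left₀ (Nat.cast_nonneg _) ?_ _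
  exact_mod_cast Nat.sub_le _ _

theorem iter_real (k q : ℕ) (hk : 1 ≤ k) (C X s S L R : ℝ) (hC : 1 ≤ C) (hR : 1 ≤ R) (hL : 1 ≤ L)
    (hs : 0 ≤ s) (hS : 0 ≤ S)
    (st : X ^ 2 ≤ 2 * L ^ 2 / R + 4 * L / R * s)
    (u1 : s ^ k ≤ R ^ (k - 1) * (C * (L ^ k + L ^ (k - 1) / R ^ q * S))) :
    X ^ (2 * k) ≤ 2 ^ k * (2 ^ k + 4 ^ k * C) *
      (L ^ (2 * k) / R + L ^ (2 * k - 1) / R ^ (q + 1) * S) := by
  have hR0 : 0 < R := by linarith
  have hL0 : 0 < L := by linarith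
  have hC0 : 0 < C := by linarith
  have big : X ^ (2 * k) ≤ 2 ^ k * ((2 * L ^ 2 / R) ^ k + (4 * L / R * s) ^ k) := by
    rw [pow_mul]
    refine (pow_le_pow_left₀ (sq_nonneg _) st k).trans ?_
    refine (add_pow_le (by positivity) (by positivity) k).trans ?_
    refine mul_le_mul_of_nonneg_right ?_ (by positivity)
    exact pow_le_pow_right₀ (by norm_num) (Nat.sub_le _ _)
  have A1 : (2 * L ^ 2 / R) ^ k ≤ 2 ^ k * (L ^ (2 * k) / R) := by
    rw [div_pow, mul_pow, ← pow_mul, mul_div_assoc]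
    refine mul_le_mul_of_nonneg_left ?_ (by positivity)
    refine div_le_div_of_nonneg_left (by positivity) hR0 ?_
    calc R = R ^ 1 := (pow_one _).symm
      _ ≤ R ^ k := pow_le_pow_right₀ hR hk
  have A2 : (4 * L / R * s) ^ k ≤ 4 ^ k * C * (L ^ (2 * k) / R +
      L ^ (2 * k - 1) / R ^ (q + 1) * S) := by
    rw [mul_pow]
    refine (mul_le_mul_of_nonneg_left u1 (by positivity)).trans (le_of_eq ?_)
    obtain ⟨m, rfl⟩ : ∃ m, k = m + 1 := ⟨k - 1, by omega⟩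
    have g1 : m + 1 - 1 = m := by omega
    have g2 : 2 * (m + 1) - 1 = 2 * m + 1 := by omega
    rw [g1, g2]
    rw [div_pow, mul_pow]
    field_simp
    ring
  refine big.trans ?_
  have V0 : 0 ≤ L ^ (2 * k - 1) / R ^ (q + 1) * S := by positivity
  have V1 : 0 ≤ L ^ (2 * k) / R := by positivity
  have V3 : 2 ^ k * (L ^ (2 * k) / R) ≤ 2 ^ k * (L ^ (2 * k) / R +
      L ^ (2 * k - 1) / R ^ (q + 1) * S) :=
    mul_le_mul_of_nonneg_left (by linarith) (by positivity)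
  have V2 : (2 * L ^ 2 / R) ^ k + (4 * L / R * s) ^ k ≤
      2 ^ k * (L ^ (2 * k) / R + L ^ (2 * k - 1) / R ^ (q + 1) * S) +
        4 ^ k * C * (L ^ (2 * k) / R + L ^ (2 * k - 1) / R ^ (q + 1) * S) :=
    add_le_add (A1.trans V3) A2
  refine (mul_le_mul_of_nonneg_left V2 (by positivity)).trans (le_of_eq ?_)
  ring

theorem iter (h1 : ClaimVdC0) (q : ℕ) : ∃ C : ℝ, 1 ≤ C ∧
    ∀ (f : ℕ → ℝ) (a L' L R : ℕ), L' ≤ L → R ≤ L → 1 ≤ R →
    ‖∑ n ∈ Ico a (a + L'), ee (f n)‖ ^ (2 ^ q) ≤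
      C * ((L : ℝ) ^ (2 ^ q) / R + (L : ℝ) ^ (2 ^ q - 1) / (R : ℝ) ^ q * Sq q R L' a f) := by
  induction q with
  | zero =>
    refine ⟨1, le_rfl, fun f a L' L R _ _ hR => ?_⟩
    have h0 : (0 : ℝ) ≤ (L : ℝ) / R := by positivity
    simp only [Sq, pow_zero, pow_one, Nat.sub_self, div_one, one_mul]
    linarith
  | succ q ih =>
    obtain ⟨C, hC, h⟩ := ih
    have hk1 : 1 ≤ 2 ^ q := Nat.one_le_two_pow
    obtain ⟨k, hk⟩ : ∃ k, k = 2 ^ q := ⟨_, rfl⟩
    have hk2 : 2 ^ (q + 1) = 2 * k := by rw [pow_succ, hk]; ring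
    rw [hk2]
    rw [← hk] at h hk1
    refine ⟨2 ^ k * (2 ^ k + 4 ^ k * C), ?_, fun f a L' L R hL hRL hR => ?_⟩
    · have a1 : (1 : ℝ) ≤ 2 ^ k := one_le_pow₀ (by norm_num)
      have a2 : (0 : ℝ) ≤ 4 ^ k * C := by positivity
      nlinarith
    · have st := step h1 f a L' L R hL hRL hR
      have hRr : (1 : ℝ) ≤ R := by exact_mod_cast hR
      have hLr : (1 : ℝ) ≤ L := by
        have : (R : ℝ) ≤ L := by exact_mod_cast hRL
        linarith
      have pm := power_mean R k hk1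
        (fun r => ‖∑ n ∈ Ico a (a + (L' - r)), ee (f (n + r) - f n)‖) (fun r => norm_nonneg _)
      refine iter_real k q hk1 C _ _ _ L R hC hRr hLr
        (Finset.sum_nonneg fun _ _ => norm_nonneg _) (Sq_nonneg _ _ _ _ _) st ?_
      refine pm.trans ?_
      refine mul_le_mul_of_nonneg_left ?_ (by positivity)
      have t1 : ∀ r ∈ Ico 1 R, ‖∑ n ∈ Ico a (a + (L' - r)), ee (f (n + r) - f n)‖ ^ k ≤
          C * ((L : ℝ) ^ k / R +
          (L : ℝ) ^ (k - 1) / (R : ℝ) ^ q * Sq q R (L' - r) a (fun n => f (n + r) - f n)) := by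
        intro r _
        exact h (fun n => f (n + r) - f n) a (L' - r) L R (by omega) hRL hR
      refine (Finset.sum_le_sum t1).trans ?_
      rw [← Finset.mul_sum, Finset.sum_add_distrib, ← Finset.mul_sum]
      refine mul_le_mul_of_nonneg_left ?_ (by linarith)
      have t2 : ∑ _r ∈ Ico 1 R, (L : ℝ) ^ k / R ≤ (L : ℝ) ^ k := by
        rw [Finset.sum_const, Nat.card_Ico, nsmul_eq_mul]
        have : ((R - 1 : ℕ) : ℝ) ≤ R := by exact_mod_cast Nat.sub_le _ _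
        have hR0 : (0 : ℝ) < R := by linarith
        calc ((R - 1 : ℕ) : ℝ) * ((L : ℝ) ^ k / R) ≤ R * ((L : ℝ) ^ k / R) :=
              mul_le_mul_of_nonneg_right this (by positivity)
          _ = (L : ℝ) ^ k := by field_simp
      exact add_le_add t2 le_rfl

/-- the constant in the discrete Kusmin-Landau bound is nonnegative -/
theorem KL_nonneg {C : ℝ} (h : ∀ (g : ℕ → ℝ) (a b : ℕ) (lam : ℝ), 0 < lam → lam ≤ 1 / 2 →
    (∀ n, a ≤ n → n + 1 < b → lam ≤ g (n + 1) - g n ∧ g (n + 1) - g n ≤ 1 / 2) →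
    (∀ n, a ≤ n → n + 2 < b → g (n + 2) - g (n + 1) ≤ g (n + 1) - g n) →
    ‖∑ n ∈ Ico a b, ee (g n)‖ ≤ C / lam) : 0 ≤ C := by
  have := h (fun _ => 0) 0 0 (1 / 2) (by norm_num) le_rfl
    (fun n _ hn => absurd hn (by omega)) (fun n _ hn => absurd hn (by omega))
  simp only [Ico_self, Finset.sum_empty, norm_zero] at this
  linarith [this]

theorem norm_sum_ee_neg (s : Finset ℕ) (g : ℕ → ℝ) :
    ‖∑ n ∈ s, ee (-(g n))‖ = ‖∑ n ∈ s, ee (g n)‖ := by
  have : ∑ n ∈ s, ee (-(g n)) = (starRingEnd ℂ) (∑ n ∈ s, ee (g n)) := by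
    rw [map_sum]
    exact Finset.sum_congr rfl fun n _ => ee_neg _
  rw [this, RCLike.norm_conj]

theorem norm_sum_ee_sign (s : Finset ℕ) (g : ℕ → ℝ) (m : ℕ) :
    ‖∑ n ∈ s, ee ((-1 : ℝ) ^ m * g n)‖ = ‖∑ n ∈ s, ee (g n)‖ := by
  rcases Nat.even_or_odd m with h | h
  · rw [h.neg_one_pow]; simp only [one_mul]
  · rw [h.neg_one_pow]; simp only [neg_one_mul]; exact norm_sum_ee_neg s g

theorem sum_le_length_mul (hs : List ℕ) (R : ℕ) (h : ∀ x ∈ hs, x ≤ R) : hs.sum ≤ hs.length * R := by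
  induction hs with
  | nil => simp
  | cons a l ih =>
    have h1 := h a (by simp)
    have h2 := ih (fun x hx => h x (by simp [hx]))
    simp only [List.sum_cons, List.length_cons, Nat.add_mul, one_mul]
    omega

theorem prod_le_pow_length (hs : List ℕ) (R : ℕ) (h : ∀ x ∈ hs, x ≤ R) :
    hs.prod ≤ R ^ hs.length := by
  induction hs with
  | nil => simp
  | cons a l ih =>
    have h1 := h a (by simp)
    have h2 := ih (fun x hx => h x (by simp [hx]))
    simp only [List.prod_cons, List.length_cons, pow_succ]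
    rw [mul_comm]
    exact Nat.mul_le_mul h2 h1

theorem prod_pos' (hs : List ℕ) (h : ∀ x ∈ hs, 1 ≤ x) : 1 ≤ hs.prod := by
  induction hs with
  | nil => simp
  | cons a l ih =>
    have h1 := h a (by simp)
    have h2 := ih (fun x hx => h x (by simp [hx]))
    simp only [List.prod_cons]
    exact Nat.mul_pos h1 h2

/-- bound for the innermost sums -/
theorem inner_bound (h3 : ClaimLogDiff) {CK : ℝ}
    (hKL : ∀ (g : ℕ → ℝ) (a b : ℕ) (lam : ℝ), 0 < lam → lam ≤ 1 / 2 →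
    (∀ n, a ≤ n → n + 1 < b → lam ≤ g (n + 1) - g n ∧ g (n + 1) - g n ≤ 1 / 2) →
    (∀ n, a ≤ n → n + 2 < b → g (n + 2) - g (n + 1) ≤ g (n + 1) - g n) →
    ‖∑ n ∈ Ico a b, ee (g n)‖ ≤ CK / lam)
    (hs : List ℕ) (Q Y L R : ℕ) (hQ : hs.length = Q) (c t : ℝ) (hc0 : 0 ≤ c) (hc1 : c ≤ 1)
    (ht : 0 < t) (hY : 1 ≤ Y) (hpos : ∀ h ∈ hs, 1 ≤ h) (hR : ∀ h ∈ hs, h ≤ R)
    (hsum : Q * R + 2 ≤ 2 * Y)
    (hub : t * (Q.factorial : ℝ) * (R : ℝ) ^ Q / (Y : ℝ) ^ (Q + 1) ≤ 1 / 2) (hL : L ≤ 2 * Y) :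
    ‖∑ n ∈ Ico Y (Y + L), ee (t * ldif hs ((n : ℝ) + c))‖ ≤
      CK * (5 * (Y : ℝ)) ^ (Q + 1) / t / (hs.prod : ℝ) := by
  have hCK := KL_nonneg hKL
  have hY0 : (0 : ℝ) < Y := by exact_mod_cast hY
  have hP : (1 : ℝ) ≤ (hs.prod : ℝ) := by exact_mod_cast prod_pos' hs hpos
  have hP0 : (0 : ℝ) < (hs.prod : ℝ) := by linarith
  have hPR : (hs.prod : ℝ) ≤ (R : ℝ) ^ Q := by
    have := prod_le_pow_length hs R hR
    rw [hQ] at this
    exact_mod_cast this
  have hF0 : (0 : ℝ) < (Q.factorial : ℝ) := by exact_mod_cast Nat.factorial_pos _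
  have hF1 : (1 : ℝ) ≤ (Q.factorial : ℝ) := by exact_mod_cast Nat.succ_le_of_lt (Nat.factorial_pos _)
  obtain ⟨lam, hlam⟩ : ∃ lam : ℝ, lam = t * (Q.factorial : ℝ) * (hs.prod : ℝ) /
    (5 * (Y : ℝ)) ^ (Q + 1) := ⟨_, rfl⟩
  have hlam0 : 0 < lam := by rw [hlam]; positivity
  have hub2 : t * (Q.factorial : ℝ) * (hs.prod : ℝ) / (Y : ℝ) ^ (Q + 1) ≤ 1 / 2 := by
    refine le_trans ?_ hub
    have : t * (Q.factorial : ℝ) * (hs.prod : ℝ) ≤ t * (Q.factorial : ℝ) * (R : ℝ) ^ Q :=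
      mul_le_mul_of_nonneg_left hPR (by positivity)
    exact div_le_div_of_nonneg_right this (by positivity)
  have hlam1 : lam ≤ 1 / 2 := by
    refine le_trans ?_ hub2
    rw [hlam]
    refine div_le_div_of_nonneg_left (by positivity) (by positivity) ?_
    exact pow_le_pow_left₀ hY0.le (by linarith) _
  obtain ⟨g, hg⟩ : ∃ g : ℕ → ℝ, g = fun n : ℕ => (-1 : ℝ) ^ Q * (t * ldif hs ((n : ℝ) + c)) := ⟨_, rfl⟩
  have hdiff : ∀ n : ℕ, g (n + 1) - g n = t * ((-1 : ℝ) ^ Q * ldif (1 :: hs) ((n : ℝ) + c)) := by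
    intro n
    simp only [hg, ldif]
    push_cast
    rw [show (n : ℝ) + 1 + c = (n : ℝ) + c + 1 by ring]
    ring
  have hdiff2 : ∀ n : ℕ, g (n + 2) - g (n + 1) - (g (n + 1) - g n) =
      t * ((-1 : ℝ) ^ Q * ldif (1 :: 1 :: hs) ((n : ℝ) + c)) := by
    intro n
    rw [show n + 2 = (n + 1) + 1 by ring, hdiff (n + 1), hdiff n]
    simp only [ldif]
    push_cast
    rw [show (n : ℝ) + 1 + c = (n : ℝ) + c + 1 by ring]
    ring
  have kl := hKL g Y (Y + L) lam hlam0 hlam1 ?_ ?_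
  · have e : ‖∑ n ∈ Ico Y (Y + L), ee (g n)‖ =
        ‖∑ n ∈ Ico Y (Y + L), ee (t * ldif hs ((n : ℝ) + c))‖ := by
      simp only [hg]
      exact norm_sum_ee_sign _ _ _
    rw [← e]
    refine kl.trans ?_
    rw [hlam, div_div, div_div_eq_mul_div]
    refine div_le_div_of_nonneg_left (by positivity) (by positivity) ?_
    have : t * (hs.prod : ℝ) * 1 ≤ t * (hs.prod : ℝ) * (Q.factorial : ℝ) :=
      mul_le_mul_of_nonneg_left hF1 (by positivity)
    linarith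
  · intro n hn1 hn2
    have hx : (0 : ℝ) < (n : ℝ) + c := by
      have : (1 : ℝ) ≤ (n : ℝ) := by exact_mod_cast (hY.trans hn1)
      linarith
    have hl := h3 (1 :: hs) ((n : ℝ) + c) hx (by simp)
    have e0 : (1 :: hs).length = Q + 1 := by rw [List.length_cons, hQ]
    have e1 : (1 :: hs).prod = hs.prod := by simp
    have e2 : (1 :: hs).sum = 1 + hs.sum := by simp
    rw [e0, e1, e2, Nat.add_sub_cancel] at hl
    have e3 : (-1 : ℝ) ^ (Q + 1 + 1) = (-1 : ℝ) ^ Q := by rw [pow_succ, pow_succ]; ring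
    rw [e3] at hl
    rw [hdiff n]
    have hsumle : hs.sum ≤ Q * R := by
      have := sum_le_length_mul hs R hR
      rwa [hQ] at this
    have hnY : (Y : ℝ) ≤ (n : ℝ) := by exact_mod_cast hn1
    have hupx : (n : ℝ) + c + ((1 + hs.sum : ℕ) : ℝ) ≤ 5 * Y := by
      have h5 : n + 1 + (1 + hs.sum) ≤ 5 * Y := by omega
      have h6 : ((n + 1 + (1 + hs.sum) : ℕ) : ℝ) ≤ ((5 * Y : ℕ) : ℝ) := by exact_mod_cast h5
      push_cast at h6 ⊢
      linarith
    have hpx : (0 : ℝ) < (n : ℝ) + c + ((1 + hs.sum : ℕ) : ℝ) := by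
      have : (0 : ℝ) ≤ ((1 + hs.sum : ℕ) : ℝ) := Nat.cast_nonneg _
      linarith
    constructor
    · rw [hlam]
      calc t * (Q.factorial : ℝ) * (hs.prod : ℝ) / (5 * (Y : ℝ)) ^ (Q + 1)
          = t * ((Q.factorial : ℝ) * (hs.prod : ℝ) / (5 * (Y : ℝ)) ^ (Q + 1)) := by ring
        _ ≤ t * ((Q.factorial : ℝ) * (hs.prod : ℝ) /
            ((n : ℝ) + c + ((1 + hs.sum : ℕ) : ℝ)) ^ (Q + 1)) := by
          refine mul_le_mul_of_nonneg_left ?_ ht.le
          refine div_le_div_of_nonneg_left (by positivity) (by positivity) ?_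
          exact pow_le_pow_left₀ hpx.le hupx _
        _ ≤ t * ((-1 : ℝ) ^ Q * ldif (1 :: hs) ((n : ℝ) + c)) :=
          mul_le_mul_of_nonneg_left hl.1 ht.le
    · calc t * ((-1 : ℝ) ^ Q * ldif (1 :: hs) ((n : ℝ) + c))
          ≤ t * ((Q.factorial : ℝ) * (hs.prod : ℝ) / ((n : ℝ) + c) ^ (Q + 1)) :=
          mul_le_mul_of_nonneg_left hl.2 ht.le
        _ ≤ t * ((Q.factorial : ℝ) * (hs.prod : ℝ) / (Y : ℝ) ^ (Q + 1)) := by
          refine mul_le_mul_of_nonneg_left ?_ ht.le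
          refine div_le_div_of_nonneg_left (by positivity) (by positivity) ?_
          exact pow_le_pow_left₀ hY0.le (by linarith) _
        _ = t * (Q.factorial : ℝ) * (hs.prod : ℝ) / (Y : ℝ) ^ (Q + 1) := by ring
        _ ≤ 1 / 2 := hub2
  · intro n hn1 hn2
    have hx : (0 : ℝ) < (n : ℝ) + c := by
      have : (1 : ℝ) ≤ (n : ℝ) := by exact_mod_cast (hY.trans hn1)
      linarith
    have hl := (h3 (1 :: 1 :: hs) ((n : ℝ) + c) hx (by simp)).1
    have e0 : (1 :: 1 :: hs).length = Q + 2 := by simp [hQ]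
    have e3 : (-1 : ℝ) ^ (Q + 2 + 1) = -(-1 : ℝ) ^ Q := by
      rw [pow_succ, pow_succ, pow_succ]; ring
    rw [e0, e3] at hl
    have hl2 : 0 ≤ -(-1 : ℝ) ^ Q * ldif (1 :: 1 :: hs) ((n : ℝ) + c) := by
      refine le_trans ?_ hl
      have : (0 : ℝ) < (n : ℝ) + c + ((1 :: 1 :: hs).sum : ℝ) := by
        have : (0 : ℝ) ≤ ((1 :: 1 :: hs).sum : ℝ) := Nat.cast_nonneg _
        linarith
      positivity
    have h4 := hdiff2 n
    have h5 : t * ((-1 : ℝ) ^ Q * ldif (1 :: 1 :: hs) ((n : ℝ) + c)) ≤ 0 := by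
      have h6 : (-1 : ℝ) ^ Q * ldif (1 :: 1 :: hs) ((n : ℝ) + c) ≤ 0 := by linarith
      exact mul_nonpos_of_nonneg_of_nonpos ht.le h6
    linarith

/-- bound for the iterated sums -/
theorem Sq_bound (Q Y R : ℕ) (c t K H : ℝ) (hH : H = ∑ r ∈ Ico 1 R, (1 : ℝ) / r)
    (hin : ∀ (hs : List ℕ) (L : ℕ), hs.length = Q → L ≤ 2 * Y → (∀ h ∈ hs, 1 ≤ h) →
      (∀ h ∈ hs, h ≤ R) →
      ‖∑ n ∈ Ico Y (Y + L), ee (t * ldif hs ((n : ℝ) + c))‖ ≤ K / (hs.prod : ℝ)) (q : ℕ) :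
    ∀ (hs : List ℕ) (L : ℕ), q + hs.length = Q → L ≤ 2 * Y → (∀ h ∈ hs, 1 ≤ h) →
      (∀ h ∈ hs, h ≤ R) →
      Sq q R L Y (fun n => t * ldif hs ((n : ℝ) + c)) ≤ K / (hs.prod : ℝ) * H ^ q := by
  induction q with
  | zero =>
    intro hs L h1 h2 h3 h4
    rw [pow_zero, mul_one]
    exact hin hs L (by omega) h2 h3 h4
  | succ q ih =>
    intro hs L h1 h2 h3 h4
    have e : Sq (q + 1) R L Y (fun n => t * ldif hs ((n : ℝ) + c)) =
        ∑ r ∈ Ico 1 R, Sq q R (L - r) Y (fun n => t * ldif (r :: hs) ((n : ℝ) + c)) := by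
      simp only [Sq]
      refine Finset.sum_congr rfl fun r _ => ?_
      congr 1
      funext n
      simp only [ldif]
      rw [Nat.cast_add, show (n : ℝ) + (r : ℝ) + c = (n : ℝ) + c + (r : ℝ) by ring]
      ring
    rw [e]
    have t1 : ∀ r ∈ Ico 1 R, Sq q R (L - r) Y (fun n => t * ldif (r :: hs) ((n : ℝ) + c)) ≤
        K / (hs.prod : ℝ) * H ^ q * ((1 : ℝ) / r) := by
      intro r hr
      rw [Finset.mem_Ico] at hr
      have := ih (r :: hs) (L - r) (by simp only [List.length_cons]; omega) (by omega)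
        (by
          intro h hh
          rcases List.mem_cons.mp hh with rfl | hh
          · exact hr.1
          · exact h3 h hh)
        (by
          intro h hh
          rcases List.mem_cons.mp hh with rfl | hh
          · exact hr.2.le
          · exact h4 h hh)
      refine this.trans (le_of_eq ?_)
      rw [List.prod_cons, Nat.cast_mul]
      have hr0 : (r : ℝ) ≠ 0 := by
        have : (1 : ℝ) ≤ r := by exact_mod_cast hr.1
        linarith
      have hp0 : (hs.prod : ℝ) ≠ 0 := by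
        have : (1 : ℝ) ≤ (hs.prod : ℝ) := by exact_mod_cast prod_pos' hs h3
        linarith
      field_simp
    refine (Finset.sum_le_sum t1).trans (le_of_eq ?_)
    rw [← Finset.mul_sum, ← hH, pow_succ]
    ring

theorem harm_bound (R : ℕ) (hR : 1 ≤ R) : ∑ r ∈ Ico 1 R, (1 : ℝ) / r ≤ 1 + Real.log R := by
  have h := harmonic_le_one_add_log (R - 1)
  have e : ((harmonic (R - 1) : ℚ) : ℝ) = ∑ r ∈ Ico 1 R, (1 : ℝ) / r := by
    rw [Finset.sum_Ico_eq_sum_range, harmonic]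
    push_cast
    refine Finset.sum_congr rfl fun i _ => ?_
    rw [one_div, add_comm]
  rw [e] at h
  refine h.trans ?_
  rcases Nat.lt_or_ge 1 R with h1 | h1
  · have h2 : (0 : ℝ) < ((R - 1 : ℕ) : ℝ) := by exact_mod_cast (by omega : 0 < R - 1)
    have h3 : ((R - 1 : ℕ) : ℝ) ≤ (R : ℝ) := by exact_mod_cast Nat.sub_le _ _
    have := Real.log_le_log h2 h3
    linarith
  · have : R = 1 := by omega
    subst this
    simp

theorem harm_pow (R Q : ℕ) (u H : ℝ) (hu : 1 ≤ u) (hR : 1 ≤ R) (hRu : (R : ℝ) ≤ u ^ 4)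
    (hQ : Q ≤ 23) (hH : H = ∑ r ∈ Ico 1 R, (1 : ℝ) / r) : H ^ Q ≤ 92 ^ 23 * u := by
  have hRr : (1 : ℝ) ≤ R := by exact_mod_cast hR
  have hR0 : (0 : ℝ) < R := by linarith
  obtain ⟨v, hv⟩ : ∃ v : ℝ, v = (R : ℝ) ^ ((1 : ℝ) / 92) := ⟨_, rfl⟩
  have hv1 : 1 ≤ v := by rw [hv]; exact Real.one_le_rpow hRr (by norm_num)
  have hv92 : v ^ 92 = R := by
    rw [hv, ← Real.rpow_natCast, ← Real.rpow_mul hR0.le]
    norm_num
  have hlog : Real.log R = 92 * Real.log v := by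
    rw [← hv92, Real.log_pow]; norm_num
  have hlogv : Real.log v ≤ v - 1 := Real.log_le_sub_one_of_pos (by linarith)
  have hHv : H ≤ 92 * v := by
    have := harm_bound R hR
    rw [← hH] at this
    linarith
  have hH0 : 0 ≤ H := by
    rw [hH]; exact Finset.sum_nonneg fun r _ => by positivity
  have hv23 : v ^ 23 ≤ u := by
    have h1 : (v ^ 23) ^ 4 ≤ u ^ 4 := by
      rw [← pow_mul]
      exact hv92.le.trans hRu
    exact le_of_pow_le_pow_left₀ (by norm_num) (by linarith) h1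
  calc H ^ Q ≤ (92 * v) ^ Q := pow_le_pow_left₀ hH0 hHv _
    _ ≤ (92 * v) ^ 23 := pow_le_pow_right₀ (by linarith) hQ
    _ = 92 ^ 23 * v ^ 23 := mul_pow _ _ _
    _ ≤ 92 ^ 23 * u := mul_le_mul_of_nonneg_left hv23 (by positivity)

theorem choose_Q (u t : ℝ) (hu : 1 ≤ u) (ht : u ^ 2 ≤ t) (m : ℕ) :
    t ≤ u ^ (196 * m + 199) → ∃ Q, Q ≤ m ∧ u ^ (196 * Q + 2) ≤ t ∧ t ≤ u ^ (196 * Q + 199) := by
  induction m with
  | zero => intro h; exact ⟨0, le_rfl, by simpa using ht, h⟩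
  | succ m ih =>
    intro h
    rcases le_total (u ^ (196 * (m + 1) + 2)) t with h1 | h1
    · exact ⟨m + 1, le_rfl, h1, h⟩
    · have h2 : t ≤ u ^ (196 * m + 199) :=
        h1.trans (pow_le_pow_right₀ hu (by omega))
      obtain ⟨Q, hQ, h3⟩ := ih h2
      exact ⟨Q, by omega, h3⟩

theorem root_real (M X u Y η : ℝ) (k : ℕ) (hk : 1 ≤ k) (hM : 1 ≤ M) (hY : 1 ≤ Y)
    (hu : u = Y ^ ((1 : ℝ) / 200)) (hη : η * k ≤ 1 / 200)
    (h : X ^ k ≤ M * (Y ^ k / u)) : X ≤ M * Y ^ (1 - η) := by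
  have hY0 : 0 < Y := by linarith
  have hZ : 0 < Y ^ (1 - η) := Real.rpow_pos_of_pos hY0 _
  refine le_of_pow_le_pow_left₀ (n := k) (by omega) (by positivity) (h.trans ?_)
  rw [mul_pow]
  have e1 : Y ^ k / u ≤ (Y ^ (1 - η)) ^ k := by
    rw [hu, ← Real.rpow_natCast Y k, ← Real.rpow_natCast (Y ^ (1 - η)) k, ← Real.rpow_mul hY0.le,
      ← Real.rpow_sub hY0]
    exact Real.rpow_le_rpow_of_exponent_le hY (by nlinarith)
  have e2 : M ≤ M ^ k := by
    calc M = M ^ 1 := (pow_one _).symm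
      _ ≤ M ^ k := pow_le_pow_right₀ hM hk
  have e3 : 0 ≤ Y ^ k / u := by
    rw [hu]; positivity
  exact mul_le_mul e2 e1 e3 (by positivity)

theorem final_real (Q k : ℕ) (C CK R u Y t S H K : ℝ) (hC : 1 ≤ C) (hCK : 0 ≤ CK) (hk : 1 ≤ k)
    (hu : 1 ≤ u) (hR : u ^ 4 / 2 ≤ R) (hYu : Y = u ^ 200) (ht : u ^ (196 * Q + 2) ≤ t)
    (hS0 : 0 ≤ S) (hK : K = CK * (5 * Y) ^ (Q + 1) / t)
    (hS : S ≤ K * H ^ Q) (hH : H ^ Q ≤ 92 ^ 23 * u) :
    C * ((2 * Y) ^ k / R + (2 * Y) ^ (k - 1) / R ^ Q * S) ≤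
      C * (2 ^ (k + 1) + 2 ^ (k - 1) * 5 ^ (Q + 1) * 2 ^ Q * CK * 92 ^ 23) * (Y ^ k / u) := by
  have hu0 : 0 < u := by linarith
  have hu4 : 0 < u ^ 4 / 2 := by positivity
  have hR0 : 0 < R := lt_of_lt_of_le hu4 hR
  have ht0 : 0 < t := lt_of_lt_of_le (by positivity) ht
  have hY0 : 0 < Y := by rw [hYu]; positivity
  have hK0 : 0 ≤ K := by rw [hK]; positivity
  have hC0 : 0 ≤ C := by linarith
  have hsplit : C * (2 ^ (k + 1) + 2 ^ (k - 1) * 5 ^ (Q + 1) * 2 ^ Q * CK * 92 ^ 23) *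
      (Y ^ k / u) = C * (2 ^ (k + 1) * (Y ^ k / u) +
        2 ^ (k - 1) * 5 ^ (Q + 1) * 2 ^ Q * CK * 92 ^ 23 * (Y ^ k / u)) := by ring
  rw [hsplit]
  refine mul_le_mul_of_nonneg_left (add_le_add ?_ ?_) hC0
  · have h1 : (2 * Y) ^ k / R ≤ (2 * Y) ^ k / (u / 2) := by
      refine div_le_div_of_nonneg_left (by positivity) (by positivity) ?_
      refine le_trans ?_ hR
      have : u ^ 1 ≤ u ^ 4 := pow_le_pow_right₀ hu (by norm_num)
      rw [pow_one] at this
      linarith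
    refine h1.trans (le_of_eq ?_)
    rw [mul_pow]
    field_simp
    ring
  · have h2 : S ≤ CK * (5 * Y) ^ (Q + 1) / u ^ (196 * Q + 2) * (92 ^ 23 * u) := by
      refine hS.trans ?_
      refine (mul_le_mul_of_nonneg_left hH hK0).trans ?_
      refine mul_le_mul_of_nonneg_right ?_ (by positivity)
      rw [hK]
      exact div_le_div_of_nonneg_left (by positivity) (by positivity) ht
    have h3 : (2 * Y) ^ (k - 1) / R ^ Q ≤ (2 * Y) ^ (k - 1) / (u ^ 4 / 2) ^ Q := by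
      refine div_le_div_of_nonneg_left (by positivity) (by positivity) ?_
      exact pow_le_pow_left₀ hu4.le hR _
    refine (mul_le_mul h3 h2 hS0 (by positivity)).trans (le_of_eq ?_)
    obtain ⟨m, rfl⟩ : ∃ m, k = m + 1 := ⟨k - 1, by omega⟩
    rw [Nat.add_sub_cancel]
    have e1 : (u ^ 4 / 2) ^ Q = u ^ (4 * Q) / 2 ^ Q := by rw [div_pow, ← pow_mul]
    have e2 : Y ^ (Q + 1) = u ^ (4 * Q) * u ^ (196 * Q + 2) * (u ^ 198) := by
      rw [hYu, ← pow_mul, ← pow_add, ← pow_add]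
      congr 1
      ring
    have e3 : Y ^ (m + 1) = Y ^ m * (u ^ 198 * u ^ 2) := by
      rw [pow_succ, ← pow_add, ← hYu]
    rw [e1, mul_pow, mul_pow, e2, e3]
    field_simp

theorem main_pos (h1 : ClaimVdC0) (h2 : ClaimKL) (h3 : ClaimLogDiff) :
    ∃ M U : ℝ, 1 ≤ M ∧ 1 ≤ U ∧ ∀ (Y : ℕ) (c t u : ℝ), 1 ≤ Y → 0 ≤ c → c ≤ 1 →
      u = (Y : ℝ) ^ ((1 : ℝ) / 200) → U ≤ u →
      (Y : ℝ) / 10 ≤ t → t ≤ (Y : ℝ) ^ 23 →
      ∃ Q : ℕ, Q ≤ 23 ∧ ‖∑ y ∈ Ico Y (3 * Y), ee (t * Real.log ((y : ℝ) + c))‖ ^ (2 ^ Q) ≤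
        M * ((Y : ℝ) ^ (2 ^ Q) / u) := by
  obtain ⟨CK, hKL⟩ := h2
  have hCK := KL_nonneg hKL
  choose C hC hiter using iter h1
  obtain ⟨Mf, hMf⟩ : ∃ Mf : ℕ → ℝ, Mf = fun Q => C Q * (2 ^ (2 ^ Q + 1) +
    2 ^ (2 ^ Q - 1) * 5 ^ (Q + 1) * 2 ^ Q * CK * 92 ^ 23) := ⟨_, rfl⟩
  have hMf1 : ∀ Q, 1 ≤ Mf Q := by
    intro Q
    rw [hMf]
    have a1 : (1 : ℝ) ≤ 2 ^ (2 ^ Q + 1) := one_le_pow₀ (by norm_num)
    have a2 : (0 : ℝ) ≤ 2 ^ (2 ^ Q - 1) * 5 ^ (Q + 1) * 2 ^ Q * CK * 92 ^ 23 := by positivity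
    have a3 : (1 : ℝ) ≤ 2 ^ (2 ^ Q + 1) + 2 ^ (2 ^ Q - 1) * 5 ^ (Q + 1) * 2 ^ Q * CK * 92 ^ 23 :=
      by linarith
    exact one_le_mul_of_one_le_of_one_le (hC Q) a3
  have hMsum : ∀ Q, Q ≤ 23 → Mf Q ≤ ∑ i ∈ range 24, Mf i := by
    intro Q hQ
    exact Finset.single_le_sum (fun i _ => zero_le_one.trans (hMf1 i))
      (Finset.mem_range.mpr (by omega))
  obtain ⟨F, hF⟩ : ∃ F : ℝ, F = (Nat.factorial 23 : ℝ) := ⟨_, rfl⟩
  have hF1 : 1 ≤ F := by rw [hF]; exact_mod_cast Nat.succ_le_of_lt (Nat.factorial_pos _)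
  refine ⟨∑ i ∈ range 24, Mf i, 2 * F + 46, (hMf1 0).trans (hMsum 0 (by omega)), by linarith, ?_⟩
  intro Y c t u hY hc0 hc1 hu hUu ht1 ht2
  have hu1 : 1 ≤ u := by linarith
  have hu46 : 46 ≤ u := by linarith
  have hY0 : (0 : ℝ) < Y := by exact_mod_cast hY
  have hYu : (Y : ℝ) = u ^ 200 := by
    rw [hu, ← Real.rpow_natCast, ← Real.rpow_mul hY0.le]
    norm_num
  have ht3 : u ^ 2 ≤ t := by
    refine le_trans ?_ ht1
    rw [hYu]
    have e : u ^ 200 = u ^ 2 * u ^ 198 := by rw [← pow_add]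
    have e2 : u ^ 1 ≤ u ^ 198 := pow_le_pow_right₀ hu1 (by norm_num)
    rw [pow_one] at e2
    rw [e]
    have e3 : 0 ≤ u ^ 2 := by positivity
    have e4 : u ^ 2 * 10 ≤ u ^ 2 * u ^ 198 := mul_le_mul_of_nonneg_left (by linarith) e3
    linarith
  have ht4 : t ≤ u ^ (196 * 23 + 199) := by
    refine ht2.trans ?_
    rw [hYu, ← pow_mul]
    exact pow_le_pow_right₀ hu1 (by norm_num)
  obtain ⟨Q, hQ, hQ1, hQ2⟩ := choose_Q u t hu1 ht3 23 ht4
  refine ⟨Q, hQ, ?_⟩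
  have ht0 : 0 < t := lt_of_lt_of_le (by positivity) ht3
  obtain ⟨R, hR⟩ : ∃ R : ℕ, R = ⌊u ^ 4⌋₊ := ⟨_, rfl⟩
  have hu4 : 2 ≤ u ^ 4 := by
    have : u ^ 1 ≤ u ^ 4 := pow_le_pow_right₀ hu1 (by norm_num)
    rw [pow_one] at this
    linarith
  have hRle : (R : ℝ) ≤ u ^ 4 := by rw [hR]; exact Nat.floor_le (by positivity)
  have hRge : u ^ 4 / 2 ≤ (R : ℝ) := by
    have := Nat.lt_floor_add_one (u ^ 4)
    rw [← hR] at this
    linarith
  have hR1 : 1 ≤ R := by
    have : (1 : ℝ) ≤ (R : ℝ) := by linarith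
    exact_mod_cast this
  have hu5 : u ^ 4 * 46 ≤ (Y : ℝ) := by
    rw [hYu]
    have e : u ^ 200 = u ^ 4 * u ^ 196 := by rw [← pow_add]
    have e2 : u ^ 1 ≤ u ^ 196 := pow_le_pow_right₀ hu1 (by norm_num)
    rw [pow_one] at e2
    rw [e]
    exact mul_le_mul_of_nonneg_left (by linarith) (by positivity)
  have hRY : R ≤ Y := by
    have : (R : ℝ) ≤ (Y : ℝ) := by linarith
    exact_mod_cast this
  have hQR : Q * R + 2 ≤ 2 * Y := by
    have a1 : Q * R ≤ 23 * R := Nat.mul_le_mul_right _ hQ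
    have a2 : 23 * R + 2 ≤ 2 * Y := by
      have : (23 : ℝ) * (R : ℝ) + 2 ≤ 2 * (Y : ℝ) := by linarith
      exact_mod_cast this
    omega
  have hub : t * (Q.factorial : ℝ) * (R : ℝ) ^ Q / (Y : ℝ) ^ (Q + 1) ≤ 1 / 2 := by
    rw [div_le_iff₀ (by positivity)]
    have b1 : (Q.factorial : ℝ) ≤ F := by
      rw [hF]; exact_mod_cast Nat.factorial_le hQ
    have b2 : (R : ℝ) ^ Q ≤ u ^ (4 * Q) := by
      rw [pow_mul]; exact pow_le_pow_left₀ (Nat.cast_nonneg _) hRle _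
    have b3 : t * (Q.factorial : ℝ) * (R : ℝ) ^ Q ≤ u ^ (196 * Q + 199) * F * u ^ (4 * Q) := by
      refine mul_le_mul (mul_le_mul hQ2 b1 (Nat.cast_nonneg _) (by positivity)) b2 (by positivity)
        ?_
      have : 0 < F := by linarith
      positivity
    refine b3.trans ?_
    have b4 : (Y : ℝ) ^ (Q + 1) = u ^ (196 * Q + 199) * u ^ (4 * Q) * u := by
      rw [hYu, ← pow_mul, ← pow_add, ← pow_succ]
      congr 1
      ring
    rw [b4]
    have b5 : 0 ≤ u ^ (196 * Q + 199) * u ^ (4 * Q) := by positivity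
    have b6 : u ^ (196 * Q + 199) * u ^ (4 * Q) * F ≤
        u ^ (196 * Q + 199) * u ^ (4 * Q) * (u / 2) :=
      mul_le_mul_of_nonneg_left (by linarith) b5
    linarith
  have hIco : Ico Y (3 * Y) = Ico Y (Y + 2 * Y) := by congr 1; ring
  rw [hIco]
  have hi := hiter Q (fun n => t * Real.log ((n : ℝ) + c)) Y (2 * Y) (2 * Y) R le_rfl
    (by omega) hR1
  refine hi.trans ?_
  have hin : ∀ (hs : List ℕ) (L : ℕ), hs.length = Q → L ≤ 2 * Y → (∀ h ∈ hs, 1 ≤ h) →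
      (∀ h ∈ hs, h ≤ R) →
      ‖∑ n ∈ Ico Y (Y + L), ee (t * ldif hs ((n : ℝ) + c))‖ ≤
        (CK * (5 * (Y : ℝ)) ^ (Q + 1) / t) / (hs.prod : ℝ) := by
    intro hs L e1 e2 e3 e4
    exact inner_bound h3 hKL hs Q Y L R e1 c t hc0 hc1 ht0 hY e3 e4 hQR hub e2
  have hsq := Sq_bound Q Y R c t _ _ rfl hin Q [] (2 * Y) (by simp) le_rfl (by simp) (by simp)
  have hHp := harm_pow R Q u _ hu1 hR1 hRle hQ rfl
  have e0 : (fun n : ℕ => t * ldif [] ((n : ℝ) + c)) = fun n : ℕ => t * Real.log ((n : ℝ) + c) := by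
    funext n; simp only [ldif]
  rw [e0, List.prod_nil, Nat.cast_one, div_one] at hsq
  have hfin := final_real Q (2 ^ Q) (C Q) CK R u Y t _ _ _ (hC Q) hCK Nat.one_le_two_pow hu1 hRge
    hYu hQ1 (Sq_nonneg Q R (2 * Y) Y (fun n : ℕ => t * Real.log ((n : ℝ) + c))) rfl hsq hHp
  have e5 : ((2 * Y : ℕ) : ℝ) = 2 * (Y : ℝ) := by push_cast; ring
  rw [e5]
  refine hfin.trans ?_
  have e6 : C Q * (2 ^ (2 ^ Q + 1) + 2 ^ (2 ^ Q - 1) * 5 ^ (Q + 1) * 2 ^ Q * CK * 92 ^ 23) = Mf Q :=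
    by rw [hMf]
  rw [e6]
  exact mul_le_mul_of_nonneg_right (hMsum Q hQ) (by positivity)

end YsumAux

open Finset
open Pool.Agent.Work.MP_122e00_nt (ee norm_ee)

theorem claimYsum (h1 : ClaimVdC0) (h2 : ClaimKL) (h3 : ClaimLogDiff) : ClaimYsum := by
  obtain ⟨M, U, hM, hU, hmain⟩ := YsumAux.main_pos h1 h2 h3
  obtain ⟨η, hη⟩ : ∃ η : ℝ, η = 1 / 200 * (1 / (2 : ℝ) ^ 23) := ⟨_, rfl⟩
  have hη0 : 0 < η := by rw [hη]; positivity
  have hη1 : η < 1 := by rw [hη]; norm_num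
  refine ⟨M + 2 * U ^ 200, η, hη0, hη1, ?_⟩
  intro Y c t hY hc0 hc1 ht1 ht2
  have hY1 : (1 : ℝ) ≤ Y := by exact_mod_cast hY
  have hY0 : (0 : ℝ) < Y := by linarith
  have hZ1 : 1 ≤ (Y : ℝ) ^ (1 - η) := Real.one_le_rpow hY1 (by linarith)
  have hZ0 : 0 ≤ (Y : ℝ) ^ (1 - η) := by linarith
  have hU0 : 0 ≤ 2 * U ^ 200 := by
    have : 0 ≤ U := by linarith
    positivity
  obtain ⟨u, hu⟩ : ∃ u : ℝ, u = (Y : ℝ) ^ ((1 : ℝ) / 200) := ⟨_, rfl⟩
  have hu0 : 0 ≤ u := by rw [hu]; positivity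
  have hYu : (Y : ℝ) = u ^ 200 := by
    rw [hu, ← Real.rpow_natCast, ← Real.rpow_mul hY0.le]
    norm_num
  rcases le_total U u with hc | hc
  · -- large `Y`
    have hpos : ∀ s : ℝ, (Y : ℝ) / 10 ≤ s → s ≤ (Y : ℝ) ^ 23 →
        ‖∑ y ∈ Ico Y (3 * Y), ee (s * Real.log ((y : ℝ) + c))‖ ≤
          (M + 2 * U ^ 200) * (Y : ℝ) ^ (1 - η) := by
      intro s hs1 hs2
      obtain ⟨Q, hQ, hQb⟩ := hmain Y c s u hY hc0 hc1 hu hc hs1 hs2
      have hk : η * ((2 ^ Q : ℕ) : ℝ) ≤ 1 / 200 := by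
        have a1 : ((2 ^ Q : ℕ) : ℝ) ≤ (2 : ℝ) ^ 23 := by
          push_cast
          exact pow_le_pow_right₀ (by norm_num) hQ
        calc η * ((2 ^ Q : ℕ) : ℝ) ≤ η * (2 : ℝ) ^ 23 :=
              mul_le_mul_of_nonneg_left a1 hη0.le
          _ = 1 / 200 := by rw [hη]; field_simp
      have := YsumAux.root_real M _ u Y η (2 ^ Q) Nat.one_le_two_pow hM hY1 hu hk hQb
      refine this.trans ?_
      exact mul_le_mul_of_nonneg_right (by linarith) hZ0
    rcases le_total 0 t with h0 | h0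
    · rw [abs_of_nonneg h0] at ht1 ht2
      exact hpos t ht1 ht2
    · rw [abs_of_nonpos h0] at ht1 ht2
      have h4 := hpos (-t) ht1 ht2
      have e : ∀ y : ℕ, ee (-t * Real.log ((y : ℝ) + c)) =
          ee (-(t * Real.log ((y : ℝ) + c))) := by
        intro y; rw [neg_mul]
      rw [Finset.sum_congr rfl (fun y _ => e y), YsumAux.norm_sum_ee_neg] at h4
      exact h4
  · -- small `Y`
    have h5 : ‖∑ y ∈ Ico Y (3 * Y), ee (t * Real.log ((y : ℝ) + c))‖ ≤ 2 * (Y : ℝ) := by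
      refine (norm_sum_le _ _).trans ?_
      rw [Finset.sum_congr rfl (fun y _ => norm_ee _), Finset.sum_const, Nat.card_Ico,
        nsmul_eq_mul, mul_one]
      have : 3 * Y - Y = 2 * Y := by omega
      rw [this]
      push_cast
      exact le_rfl
    have h6 : (Y : ℝ) ≤ U ^ 200 := by
      rw [hYu]; exact pow_le_pow_left₀ hu0 hc _
    calc ‖∑ y ∈ Ico Y (3 * Y), ee (t * Real.log ((y : ℝ) + c))‖ ≤ 2 * (Y : ℝ) := h5
      _ ≤ M + 2 * U ^ 200 := by linarith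
      _ = (M + 2 * U ^ 200) * 1 := (mul_one _).symm
      _ ≤ (M + 2 * U ^ 200) * (Y : ℝ) ^ (1 - η) :=
          mul_le_mul_of_nonneg_left hZ1 (by linarith)

end Pool.Agent.Work.MP_8e4d29_nt

end

section

/-!
MP_8e4d29_nt: statements, part 2 (minor arcs: type I and type II sums).
-/

namespace Pool.Agent.Work.MP_8e4d29_nt

open Finset
open Pool.Agent.Work.MP_122e00_nt (ee)

/-- D1. Cauchy-Schwarz and the first van der Corput step in a type II sum -/
def ClaimStep1 : Prop := ∃ C : ℕ, ∀ (N A H M P R1 : ℕ) (F a b : ℕ → ℂ),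
  2 ≤ N → N ≤ A → A + H ≤ 4 * N → 1 ≤ P → P ≤ M → M * P ≤ 4 * N → N ≤ 4 * (M * P) →
  1 ≤ R1 → M * R1 ≤ H → (∀ x, ‖F x‖ ≤ 1) → (∀ m, ‖a m‖ ≤ tau m) → (∀ n, ‖b n‖ ≤ tau n) →
  ‖∑ m ∈ Ioc M (2 * M), ∑ n ∈ Ioc P (2 * P),
      if A < m * n ∧ m * n ≤ A + H then a m * b n * F (m * n) else 0‖ ^ 2 ≤
    (2 + Real.log N) ^ C * ((H : ℝ) / R1) * (H + ∑ r ∈ Ico 1 R1, ∑ n ∈ Ioc P (2 * P),
      tau n * tau (n + r) * ‖∑ m ∈ Ioc M (2 * M),
        if A < m * n ∧ m * (n + r) ≤ A + H then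
          F (m * (n + r)) * (starRingEnd ℂ) (F (m * n)) else 0‖)

/-- D2. exceptional pairs are rare -/
def ClaimExc : Prop := ∀ N A H M P g a r : ℕ, Par N A H M P g a → r < RR g ^ a →
  ((∑ n ∈ Ioc P (2 * P), exn A H M P g a (n + r) : ℕ) : ℝ) ≤ 20 * H / 2 ^ (5 * g)

/-- D3. evaluation of the cube product away from exceptional points: base 3 disappears, the low
binary digits disappear -/
def ClaimEval : Prop := ∀ (N A H M P g a : ℕ) (θ : ℝ) (n r s1 s2 h3 m : ℕ),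
  Par N A H M P g a → P < n → n ≤ 2 * P → r < RR g ^ a → h3 ≤ L2 H P g a →
  (h3 * n % 3 ^ lam3 M g a < eta H P g ∨
    3 ^ lam3 M g a < h3 * n % 3 ^ lam3 M g a + eta H P g) →
  (∀ e1 e2 e3 : Fin 2, Msupp A H M n r
    (m + e1 * (2 ^ kap H P g * s1) + e2 * (3 ^ kap3 H P g * s2) + e3 * h3)) →
  (∀ ε, ¬ Exc H M P g a (pt (2 ^ kap H P g * s1) (3 ^ kap3 H P g * s2) h3 n r m ε)) →
  cub3 (phi θ A H M n r) (2 ^ kap H P g * s1) (3 ^ kap3 H P g * s2) h3 m =
    ee (-(θ * alt (kap H P g) (ell M g a)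
      (pt (2 ^ kap H P g * s1) (3 ^ kap3 H P g * s2) h3 n r m)))

/-- D4. cutting the sum over `m` into pieces, equidistribution of `m n` modulo `2^λ` -/
def ClaimPieces : Prop := ∀ (N A H M P g a : ℕ) (θ : ℝ) (n r h1 h2 h3 u v : ℕ) (B : ℝ)
  (Ψ : ℕ → ℂ) (E : Finset ℕ), Par N A H M P g a →
  (∀ w : ℕ, 1 ≤ w → w ≤ 2 ^ (5 * ell M g a - kap H P g) * RR g ^ 2 →
    1 / ((Lp H P g a / RR g : ℕ) : ℝ) < nd ((w : ℝ) * n / 2 ^ (5 * ell M g a))) →
  r < RR g ^ a → u ≤ v → v ≤ u + Lm H P → 0 ≤ B → (∀ m, ‖Ψ m‖ ≤ 1) →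
  (∀ m ∈ Ico u v, m ∉ E →
    Ψ m = ee (-(θ * alt (kap H P g) (ell M g a) (pt h1 h2 h3 n r m)))) →
  (∀ m ∈ Ico u v, m ∉ E → ∀ ε,
    Lp H P g a * RR g ^ a ≤ pt h1 h2 h3 n r m ε % 2 ^ kap H P g) →
  (∀ m0 ∈ Ico u v, ‖∑ x ∈ range (2 ^ (5 * ell M g a)),
    ee (-(θ * alt (kap H P g) (ell M g a) (fun ε => x + sh h1 h2 h3 n r m0 ε)))‖ ≤
      2 ^ (5 * ell M g a) * B) →
  ‖∑ m ∈ Ico u v, Ψ m‖ ≤ Lm H P * B + 4 * Lm H P / RR g + 2 * E.card

/-- D5. the cube average over binary digits: transfer operator -/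
def ClaimCube : Prop := ∀ (θ : ℝ) (k l : ℕ) (A : (Fin 4 → Fin 2) → ℕ) (G : Finset ℕ),
  (∀ i ∈ G, k ≤ 5 * i ∧ i < l) → (∀ i ∈ G, ∀ ε, A ε / 2 ^ (5 * i) % 32 = 2 * wt ε) →
  ‖∑ x ∈ range (2 ^ (5 * l)), ee (θ * alt k l (fun ε => x + A ε))‖ ≤
    2 ^ (5 * l) * kth θ ^ G.card

/-- D6. the one-dimensional version of D5, for the type I sums -/
def ClaimLine : Prop := ∀ (θ : ℝ) (l a : ℕ) (G : Finset ℕ),
  (∀ i ∈ G, i < l) → (∀ i ∈ G, a / 2 ^ (5 * i) % 32 = 2) →
  ‖∑ x ∈ range (2 ^ (5 * l)), ee (θ * ((ds 2 0 (5 * l) (x + a) : ℝ) - ds 2 0 (5 * l) x))‖ ≤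
    2 ^ (5 * l) * kth θ ^ G.card

/-- D7. D5 for shifts given by the cells of `a 0, a 1, a 2, a 3`, with small perturbations -/
def ClaimCubeCell : Prop := ∀ (θ : ℝ) (k i l g : ℕ) (a p : Fin 4 → ℕ),
  k ≤ 5 * i → i + 2 * g ≤ l → (∀ j, p j < 2 ^ (5 * i)) →
  ‖∑ x ∈ range (2 ^ (5 * l)), ee (θ * alt k l (fun ε => x + (ε 0 * a 0 +
      ε 1 * (a 1 + ε 0 * p 1) + ε 2 * (a 2 + ε 0 * p 2) + ε 3 * (a 3 + ε 0 * p 3))))‖ ≤
    2 ^ (5 * l) * kth θ ^ gp g (fun j => cell i g (a j))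

/-- D8. the average of `x ^ gp` over all cells -/
def ClaimGpSum : Prop := ∀ (g : ℕ) (x : ℝ), 0 ≤ x → x ≤ 1 →
  ∑ c ∈ Fintype.piFinset (fun _ : Fin 4 => range (RR g)), x ^ gp g c =
    (RR g : ℝ) ^ 4 * (1 - (1 - x) / 2 ^ 40) ^ g

/-- D9. domination for the shifts `q |s - s'| n`, `q = 2^κ` or `3^κ'` -/
def ClaimDom12 : Prop := ∀ N P g a q n c : ℕ, E1 N P g a q n ≤ (RR g : ℝ) ^ 4 →
  (((range (RR g ^ 4) ×ˢ range (RR g ^ 4)).filter
    (fun s => cell (i0 N P g a) g (q * Nat.dist s.1 s.2 * n) = c)).card : ℝ) ≤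
    18 * (RR g : ℝ) ^ 7

/-- D10. domination for the shifts `|t - t'| n`, and existence of the set of the `t` -/
def ClaimDom3 : Prop := ∀ N A H M P g a n : ℕ, Par N A H M P g a →
  E3 N H M P g a n ≤ L2 H P g a →
  ∃ T : Finset ℕ, T.Nonempty ∧ (∀ t ∈ T, t < L2 H P g a) ∧
    (∀ t ∈ T, ∀ t' ∈ T, Nat.dist t t' * n % 3 ^ lam3 M g a < eta H P g ∨
      3 ^ lam3 M g a < Nat.dist t t' * n % 3 ^ lam3 M g a + eta H P g) ∧
    ∀ c : ℕ, (((T ×ˢ T).filter
      (fun t => cell (i0 N P g a) g (Nat.dist t.1 t.2 * n) = c)).card : ℝ) ≤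
      200 * (T.card : ℝ) ^ 2 / RR g

/-- D11. domination for the shift `m₀ r`, which is close to `(A / n) r`, over `n` -/
def ClaimDomA0 : Prop := ∀ N A H M P g a r δ c : ℕ, Par N A H M P g a → r < RR g ^ a →
  RR g ^ a ≤ r * RR g → δ < 2 →
  (((Ioc P (2 * P)).filter
    (fun n => cell (i0 N P g a) g (A / n * r + δ * 2 ^ (5 * i0 N P g a)) = c)).card : ℝ) ≤
    64 * P / RR g

/-- D12. bad `n` are rare -/
def ClaimBadN : Prop := ∀ N A H M P g a : ℕ, Par N A H M P g a → AlphaGood N M P g a →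
  ∃ B : Finset ℕ, B ⊆ Ioc P (2 * P) ∧ (∀ n ∈ Ioc P (2 * P), n ∉ B → Good N H M P g a n) ∧
    (B.card : ℝ) ≤ 20 * P / RR g

/-- D13. one of the two choices of `a` has no coincidence -/
def ClaimAlpha : Prop := ∀ N A H M P g : ℕ, Par N A H M P g 5 →
  AlphaGood N M P g 5 ∨ AlphaGood N M P g 12

/-- D14. the eighth moment of the inner sums -/
def ClaimCore : Prop := ∃ C : ℝ, ∀ (N A H M P g a : ℕ) (θ : ℝ), Par N A H M P g a →
  AlphaGood N M P g a →
  ∑ r ∈ Ico 1 (RR g ^ a), ∑ n ∈ Ioc P (2 * P), ‖∑ m ∈ Ioc M (2 * M), phi θ A H M n r m‖ ^ 8 ≤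
    C * (RR g : ℝ) ^ a * P * (Lm H P : ℝ) ^ 8 *
      (1 / 2 ^ (5 * g) + (1 - (1 - |Real.cos (Real.pi * θ)|) / 2 ^ 44) ^ g)

/-- D15. type II sums -/
def ClaimTypeII : Prop := ∃ (c : ℝ) (C N0 : ℕ), 0 < c ∧ ∀ (N A H M P : ℕ) (θ : ℝ)
  (a b : ℕ → ℂ), N0 ≤ N → N ≤ A → A + H ≤ 4 * N → (N : ℝ) ^ ((77 : ℝ) / 100) ≤ H →
  (H : ℝ) ≤ (N : ℝ) ^ ((80 : ℝ) / 100) → P ≤ M → M * P ≤ 32 * N → N ≤ 4 * (M * P) →
  (N : ℝ) ^ ((1 : ℝ) / 1000) * N ≤ 4 * (H * P) → |θ| ≤ 1 / 2 →
  (∀ m, ‖a m‖ ≤ tau m) → (∀ n, ‖b n‖ ≤ tau n) →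
  ‖∑ m ∈ Ioc M (2 * M), ∑ n ∈ Ioc P (2 * P),
      if A < m * n ∧ m * n ≤ A + H then a m * b n * ff θ (m * n) else 0‖ ≤
    H * (2 + Real.log N) ^ C * (Real.exp (-c * θ ^ 2 * Real.log N) + (N : ℝ) ^ (-c))

/-- D16. type I sums -/
def ClaimTypeI : Prop := ∃ (c : ℝ) (N0 : ℕ), 0 < c ∧ ∀ (N H m n1 n2 : ℕ) (θ : ℝ),
  N0 ≤ N → (N : ℝ) ^ ((77 : ℝ) / 100) ≤ H → (H : ℝ) ≤ (N : ℝ) ^ ((80 : ℝ) / 100) → 1 ≤ m →
  (m : ℝ) * H ≤ (N : ℝ) ^ ((1 : ℝ) / 1000) * N → n1 ≤ n2 → m * n2 ≤ 8 * N →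
  (n2 - n1) * m ≤ 2 * H → |θ| ≤ 1 / 2 →
  ‖∑ n ∈ Ioc n1 n2, ff θ (m * n)‖ ≤
    8 * ((H : ℝ) / m) * (Real.exp (-c * θ ^ 2 * Real.log N) + (N : ℝ) ^ (-c))

/-- D17. the minor arc estimate -/
def ClaimMinor : Prop := ∃ (c : ℝ) (C N0 : ℕ), 0 < c ∧ ∀ (N A H : ℕ) (θ : ℝ), N0 ≤ N →
  N ≤ A → A + H ≤ 4 * N → (N : ℝ) ^ ((77 : ℝ) / 100) ≤ H →
  (H : ℝ) ≤ (N : ℝ) ^ ((80 : ℝ) / 100) → |θ| ≤ 1 / 2 →
  ‖∑ n ∈ Ioc A (A + H), (ArithmeticFunction.vonMangoldt n : ℂ) * ff θ n‖ ≤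
    H * (2 + Real.log N) ^ C * (Real.exp (-c * θ ^ 2 * Real.log N) + (N : ℝ) ^ (-c))

end Pool.Agent.Work.MP_8e4d29_nt

end

section

/-!
MP_8e4d29_nt, item D13: one of `a = 5`, `a = 12` has no coincidence between the power of three
`3 ^ lam3` and the power of two `2 ^ (5 (i0 + 2 g))`.
-/

namespace Pool.Agent.Work.MP_8e4d29_nt

open Finset
open Pool.Agent.Work.MP_122e00_nt (ee)

/-- the arithmetic core -/
theorem alpha_core (R q T W i j h h' : ℕ) (hR : 2 ^ 20 ≤ R) (hq : 1 ≤ q)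
    (h1 : 2 * q * R ^ 6 < T) (h2 : T < 192 * q * R ^ 6) (h3 : q * R ^ 3 < 32 * W)
    (h4 : W ≤ q * R ^ 3) (h5 : T * 3 ^ i < 192 * q * R ^ 13)
    (h6 : q * R ^ 10 < 32 * (W * 2 ^ j)) (h7 : W * 2 ^ j ≤ q * R ^ 10)
    (hh : 1 ≤ h) (hh2 : h < R) (hh' : 1 ≤ h') (hh2' : h' < R)
    (hv : nd ((h : ℝ) * T / W) < 1 / (R : ℝ) ^ 10)
    (hv' : nd ((h' : ℝ) * (T * 3 ^ i) / (W * 2 ^ j)) < 1 / (R : ℝ) ^ 10) : False := by
  have hRpos : 0 < R := by omega
  have hq6 : 0 < q * R ^ 6 := by positivity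
  have hq3 : 0 < q * R ^ 3 := by positivity
  have hWpos : 0 < W := by omega
  -- bounds for the powers
  have b1 : 3 ^ i < 96 * R ^ 7 := by
    have e1 : 2 * q * R ^ 6 * 3 ^ i ≤ T * 3 ^ i := Nat.mul_le_mul_right _ h1.le
    have e2 : (2 * q * R ^ 6) * 3 ^ i < (2 * q * R ^ 6) * (96 * R ^ 7) := by
      calc (2 * q * R ^ 6) * 3 ^ i ≤ T * 3 ^ i := e1
        _ < 192 * q * R ^ 13 := h5
        _ = (2 * q * R ^ 6) * (96 * R ^ 7) := by ring
    exact Nat.lt_of_mul_lt_mul_left e2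
  have b2 : 2 ^ j < 32 * R ^ 7 := by
    have e2 : (q * R ^ 3) * 2 ^ j < (q * R ^ 3) * (32 * R ^ 7) := by
      calc (q * R ^ 3) * 2 ^ j < (32 * W) * 2 ^ j :=
            Nat.mul_lt_mul_of_pos_right h3 (by positivity)
        _ = 32 * (W * 2 ^ j) := by ring
        _ ≤ 32 * (q * R ^ 10) := Nat.mul_le_mul_left _ h7
        _ = (q * R ^ 3) * (32 * R ^ 7) := by ring
    exact Nat.lt_of_mul_lt_mul_left e2
  have b3 : R ^ 7 < 32 * 2 ^ j := by
    have e2 : (q * R ^ 3) * R ^ 7 < (q * R ^ 3) * (32 * 2 ^ j) := by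
      calc (q * R ^ 3) * R ^ 7 = q * R ^ 10 := by ring
        _ < 32 * (W * 2 ^ j) := h6
        _ ≤ 32 * (q * R ^ 3 * 2 ^ j) :=
            Nat.mul_le_mul_left _ (Nat.mul_le_mul_right _ h4)
        _ = (q * R ^ 3) * (32 * 2 ^ j) := by ring
    exact Nat.lt_of_mul_lt_mul_left e2
  obtain ⟨v, hvv⟩ := exists_int_nd ((h : ℝ) * T / W)
  obtain ⟨v', hvv'⟩ := exists_int_nd ((h' : ℝ) * (T * 3 ^ i) / (W * 2 ^ j))
  rw [hvv] at hv
  rw [hvv'] at hv'
  have rR : (2 : ℝ) ^ 20 ≤ R := by exact_mod_cast hR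
  have rR0 : (0 : ℝ) < R := by exact_mod_cast hRpos
  have rW : (0 : ℝ) < W := by exact_mod_cast hWpos
  have rq : (1 : ℝ) ≤ q := by exact_mod_cast hq
  have rh1 : (1 : ℝ) ≤ h := by exact_mod_cast hh
  have rh2 : (h : ℝ) < R := by exact_mod_cast hh2
  have rh1' : (1 : ℝ) ≤ h' := by exact_mod_cast hh'
  have rh2' : (h' : ℝ) < R := by exact_mod_cast hh2'
  have c1 : (3 : ℝ) ^ i < 96 * (R : ℝ) ^ 7 := by exact_mod_cast b1
  have c2 : (2 : ℝ) ^ j < 32 * (R : ℝ) ^ 7 := by exact_mod_cast b2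
  have t1 : 2 * (q : ℝ) * (R : ℝ) ^ 6 < T := by exact_mod_cast h1
  have t2 : (T : ℝ) < 192 * q * (R : ℝ) ^ 6 := by exact_mod_cast h2
  have t3 : (q : ℝ) * (R : ℝ) ^ 3 < 32 * W := by exact_mod_cast h3
  have t4 : (W : ℝ) ≤ q * (R : ℝ) ^ 3 := by exact_mod_cast h4
  set x : ℝ := (h : ℝ) * T / W with hx
  set y : ℝ := (h' : ℝ) * (T * 3 ^ i) / (W * 2 ^ j) with hy
  have small : (1 : ℝ) / (R : ℝ) ^ 10 ≤ 1 := by
    rw [div_le_one (by positivity)]
    exact one_le_pow₀ (by linarith)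
  -- the integer identity
  have hxy : (h' : ℝ) * 3 ^ i * x = h * 2 ^ j * y := by
    rw [hx, hy]
    field_simp
  have hΔ : |(h' : ℝ) * 3 ^ i * v - h * 2 ^ j * v'| < 1 := by
    have e : (h' : ℝ) * 3 ^ i * v - h * 2 ^ j * v' =
        (h : ℝ) * 2 ^ j * (y - v') - (h' : ℝ) * 3 ^ i * (x - v) := by
      have : (h' : ℝ) * 3 ^ i * v - h * 2 ^ j * v' =
        (h : ℝ) * 2 ^ j * (y - v') - (h' : ℝ) * 3 ^ i * (x - v) +
          ((h' : ℝ) * 3 ^ i * x - h * 2 ^ j * y) := by ring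
      rw [this, hxy, sub_self, add_zero]
    rw [e]
    have d1 : |(h : ℝ) * 2 ^ j * (y - v')| ≤ 32 * (R : ℝ) ^ 8 * (1 / (R : ℝ) ^ 10) := by
      rw [abs_mul, abs_of_nonneg (by positivity : (0 : ℝ) ≤ (h : ℝ) * 2 ^ j)]
      have : (h : ℝ) * 2 ^ j ≤ 32 * (R : ℝ) ^ 8 := by
        calc (h : ℝ) * 2 ^ j ≤ R * (32 * (R : ℝ) ^ 7) := by gcongr
          _ = 32 * (R : ℝ) ^ 8 := by ring
      exact mul_le_mul this hv'.le (abs_nonneg _) (by positivity)
    have d2 : |(h' : ℝ) * 3 ^ i * (x - v)| ≤ 96 * (R : ℝ) ^ 8 * (1 / (R : ℝ) ^ 10) := by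
      rw [abs_mul, abs_of_nonneg (by positivity : (0 : ℝ) ≤ (h' : ℝ) * 3 ^ i)]
      have : (h' : ℝ) * 3 ^ i ≤ 96 * (R : ℝ) ^ 8 := by
        calc (h' : ℝ) * 3 ^ i ≤ R * (96 * (R : ℝ) ^ 7) := by gcongr
          _ = 96 * (R : ℝ) ^ 8 := by ring
      exact mul_le_mul this hv.le (abs_nonneg _) (by positivity)
    have d3 : (128 : ℝ) * (R : ℝ) ^ 8 * (1 / (R : ℝ) ^ 10) < 1 := by
      have : (128 : ℝ) * (R : ℝ) ^ 8 * (1 / (R : ℝ) ^ 10) = 128 / (R : ℝ) ^ 2 := by
        field_simp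
      rw [this, div_lt_one (by positivity)]
      nlinarith
    calc |(h : ℝ) * 2 ^ j * (y - v') - (h' : ℝ) * 3 ^ i * (x - v)|
        ≤ |(h : ℝ) * 2 ^ j * (y - v')| + |(h' : ℝ) * 3 ^ i * (x - v)| := abs_sub _ _
      _ ≤ 32 * (R : ℝ) ^ 8 * (1 / (R : ℝ) ^ 10) + 96 * (R : ℝ) ^ 8 * (1 / (R : ℝ) ^ 10) :=
          add_le_add d1 d2
      _ = (128 : ℝ) * (R : ℝ) ^ 8 * (1 / (R : ℝ) ^ 10) := by ring
      _ < 1 := d3
  have hZ : (h' : ℤ) * 3 ^ i * v - h * 2 ^ j * v' = 0 := by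
    have : |((h' : ℤ) * 3 ^ i * v - h * 2 ^ j * v' : ℤ)| < 1 := by
      have h9 : (((|((h' : ℤ) * 3 ^ i * v - h * 2 ^ j * v' : ℤ)| : ℤ)) : ℝ) < ((1 : ℤ) : ℝ) := by
        push_cast
        exact hΔ
      exact_mod_cast h9
    exact Int.abs_lt_one_iff.mp this
  have hdvd : (2 : ℤ) ^ j ∣ (h' : ℤ) * v := by
    have e1 : (3 : ℤ) ^ i * ((h' : ℤ) * v) = 2 ^ j * (h * v') := by linear_combination hZ
    have e2 : (2 : ℤ) ^ j ∣ (3 : ℤ) ^ i * ((h' : ℤ) * v) := ⟨_, e1⟩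
    have e3 : IsCoprime ((2 : ℤ) ^ j) ((3 : ℤ) ^ i) := by
      apply IsCoprime.pow
      exact ⟨-1, 1, by norm_num⟩
    exact e3.dvd_of_dvd_mul_left e2
  -- size of `v`
  have hxlow : 2 < x := by
    rw [hx, lt_div_iff₀ rW]
    have hR3 : (1 : ℝ) ≤ (R : ℝ) ^ 3 := one_le_pow₀ (by linarith)
    calc 2 * (W : ℝ) ≤ 2 * (q * (R : ℝ) ^ 3) := by linarith
      _ ≤ 2 * (q * (R : ℝ) ^ 3) * (R : ℝ) ^ 3 :=
          le_mul_of_one_le_right (by positivity) hR3
      _ = 2 * q * (R : ℝ) ^ 6 := by ring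
      _ < T := t1
      _ ≤ h * T := le_mul_of_one_le_left (by positivity) rh1
  have hxup : x < 6144 * (R : ℝ) ^ 4 := by
    rw [hx, div_lt_iff₀ rW]
    calc (h : ℝ) * T < R * (192 * q * (R : ℝ) ^ 6) := by gcongr
      _ = 192 * (R : ℝ) ^ 4 * (q * (R : ℝ) ^ 3) := by ring
      _ ≤ 192 * (R : ℝ) ^ 4 * (32 * W) := by gcongr
      _ = 6144 * (R : ℝ) ^ 4 * W := by ring
  have hxv : |x - v| < 1 := lt_of_lt_of_le hv small
  rw [abs_lt] at hxv
  have hv0 : (0 : ℤ) < v := by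
    have : (0 : ℝ) < v := by linarith [hxv.2]
    exact_mod_cast this
  have hvup : (v : ℝ) < 6145 * (R : ℝ) ^ 4 := by
    have hR4 : (1 : ℝ) ≤ (R : ℝ) ^ 4 := one_le_pow₀ (by linarith)
    linarith [hxv.1]
  have hle : (2 : ℤ) ^ j ≤ (h' : ℤ) * v :=
    Int.le_of_dvd (mul_pos (by exact_mod_cast (by omega : 0 < h')) hv0) hdvd
  have hle' : (2 : ℝ) ^ j ≤ (h' : ℝ) * v := by exact_mod_cast hle
  have c3 : (R : ℝ) ^ 7 < 32 * 2 ^ j := by exact_mod_cast b3
  have hrv : (0 : ℝ) < v := by exact_mod_cast hv0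
  have f1 : (R : ℝ) ^ 7 < 32 * (R * (6145 * (R : ℝ) ^ 4)) := by
    calc (R : ℝ) ^ 7 < 32 * 2 ^ j := c3
      _ ≤ 32 * (h' * v) := by linarith
      _ ≤ 32 * (R * (6145 * (R : ℝ) ^ 4)) := by gcongr
  have f2 : (R : ℝ) ^ 5 * (R : ℝ) ^ 2 < (R : ℝ) ^ 5 * 196640 := by
    calc (R : ℝ) ^ 5 * (R : ℝ) ^ 2 = (R : ℝ) ^ 7 := by ring
      _ < _ := f1
      _ = (R : ℝ) ^ 5 * 196640 := by ring
  have f3 := lt_of_mul_lt_mul_left f2 (by positivity)
  nlinarith

/-- the sizes of the powers -/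
theorem alpha_sizes {N A H M P g : ℕ} (hpar : Par N A H M P g 5) :
    1 ≤ N / P ∧ ∀ a, 5 ≤ a →
      (2 * (N / P) * RR g ^ (a + 1) < 3 ^ lam3 M g a ∧
        3 ^ lam3 M g a < 192 * (N / P) * RR g ^ (a + 1) ∧
        (N / P) * RR g ^ (a - 2) < 32 * 2 ^ (5 * (i0 N P g a + 2 * g)) ∧
        2 ^ (5 * (i0 N P g a + 2 * g)) ≤ (N / P) * RR g ^ (a - 2)) := by
  have hg := hpar.hg
  have hR : 2 ^ 20 ≤ RR g := by
    unfold RR
    exact Nat.pow_le_pow_right (by norm_num) (by omega)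
  have hP := hpar.hP
  have hN : 1 ≤ N := by
    rcases Nat.eq_zero_or_pos N with h0 | h0
    · have h1 := hpar.hMP
      have h2 := hpar.hPM
      rw [h0] at h1
      have h3 : 0 < M * P := Nat.mul_pos (by omega) (by omega)
      omega
    · exact h0
  have hR100 : 2 ^ 20 ≤ RR g ^ 100 := hR.trans (Nat.le_self_pow (by norm_num) _)
  have hH : 1 ≤ H := by
    rcases Nat.eq_zero_or_pos H with h0 | h0
    · have h1 := hpar.big
      rw [h0, Nat.zero_mul] at h1
      have h3 : 0 < RR g ^ 100 * N := Nat.mul_pos (by omega) (by omega)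
      omega
    · exact h0
  have hN4 : 4 ≤ N := by
    have h1 := hpar.gap
    have h2 : RR g ^ 100 * 1 ≤ RR g ^ 100 * H := Nat.mul_le_mul_left _ hH
    omega
  have hPN : P ≤ N := by
    by_contra hcon
    push Not at hcon
    have h1 : P * P ≤ M * P := Nat.mul_le_mul_right _ hpar.hPM
    have h2 := hpar.hMP
    nlinarith
  have hq : 1 ≤ N / P := (Nat.one_le_div_iff (by omega)).mpr hPN
  have q1 : N / P * P ≤ N := Nat.div_mul_le_self N P
  have q2 : N < (N / P + 1) * P := by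
    have h1 := Nat.div_add_mod N P
    have h2 := Nat.mod_lt N (by omega : P > 0)
    have h3 : (N / P + 1) * P = P * (N / P) + P := by ring
    omega
  have m1 : N / P ≤ 4 * M := by
    have h1 : N / P * P ≤ (4 * M) * P := by
      have := hpar.hMP'
      nlinarith
    exact Nat.le_of_mul_le_mul_right h1 (by omega)
  have m2 : M < 8 * (N / P) := by
    have h1 : M * P < (8 * (N / P)) * P := by
      have h2 := hpar.hMP
      have h3 : (N / P + 1) * P ≤ (2 * (N / P)) * P := Nat.mul_le_mul_right _ (by omega)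
      nlinarith
    exact Nat.lt_of_mul_lt_mul_right h1
  refine ⟨hq, fun a ha => ?_⟩
  set q := N / P with hqdef
  have hRpos : 0 < RR g := by omega
  have hRa : 0 < RR g ^ (a + 1) := by positivity
  have hY3 : 8 * M * RR g ^ a * RR g = 8 * M * RR g ^ (a + 1) := by ring
  have hM : 1 ≤ M := hP.trans hpar.hPM
  have hY3ne : 8 * M * RR g ^ a * RR g ≠ 0 := by positivity
  have l1 : 8 * M * RR g ^ (a + 1) < 3 ^ lam3 M g a := by
    rw [← hY3]
    exact Nat.lt_pow_succ_log_self (by norm_num) _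
  have l2 : 3 ^ lam3 M g a ≤ 3 * (8 * M * RR g ^ (a + 1)) := by
    rw [← hY3]
    unfold lam3
    rw [pow_succ, mul_comm]
    exact Nat.mul_le_mul_left _ (Nat.pow_log_le_self 3 hY3ne)
  have hY2 : q * RR g ^ a / RR g ^ 3 = q * RR g ^ (a - 3) := by
    have : q * RR g ^ a = q * RR g ^ (a - 3) * RR g ^ 3 := by
      rw [mul_assoc, ← pow_add]
      congr 2
      omega
    rw [this]
    exact Nat.mul_div_cancel _ (by positivity)
  have hY2ne : q * RR g ^ (a - 3) ≠ 0 := by positivity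
  have hi0 : i0 N P g a = Nat.log 2 (q * RR g ^ (a - 3)) / 5 := by
    unfold i0
    rw [← hqdef, hY2]
  set L := Nat.log 2 (q * RR g ^ (a - 3)) with hL
  have l3 : 2 ^ L ≤ q * RR g ^ (a - 3) := Nat.pow_log_le_self 2 hY2ne
  have l4 : q * RR g ^ (a - 3) < 2 ^ (L + 1) := Nat.lt_pow_succ_log_self (by norm_num) _
  have l5 : 2 ^ (5 * i0 N P g a) ≤ 2 ^ L := Nat.pow_le_pow_right (by norm_num) (by omega)
  have l6 : 2 ^ (L + 1) ≤ 32 * 2 ^ (5 * i0 N P g a) := by
    have : 32 * 2 ^ (5 * i0 N P g a) = 2 ^ (5 * i0 N P g a + 5) := by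
      rw [pow_add]
      ring
    rw [this]
    exact Nat.pow_le_pow_right (by norm_num) (by omega)
  have l7 : 2 ^ (5 * (i0 N P g a + 2 * g)) = 2 ^ (5 * i0 N P g a) * RR g := by
    unfold RR
    rw [← pow_add]
    congr 1
    ring
  have l8 : RR g ^ (a - 2) = RR g ^ (a - 3) * RR g := by
    rw [← pow_succ]
    congr 1
    omega
  refine ⟨?_, ?_, ?_, ?_⟩
  · refine lt_of_le_of_lt ?_ l1
    exact Nat.mul_le_mul_right _ (by omega)
  · refine lt_of_le_of_lt l2 ?_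
    have : 3 * (8 * M * RR g ^ (a + 1)) = (24 * M) * RR g ^ (a + 1) := by ring
    rw [this]
    exact Nat.mul_lt_mul_of_pos_right (by omega) hRa
  · rw [l7, l8, ← mul_assoc, ← mul_assoc]
    exact Nat.mul_lt_mul_of_pos_right (by omega) hRpos
  · rw [l7, l8, ← mul_assoc]
    exact Nat.mul_le_mul_right _ (by omega)

/-- D13. -/
theorem claimAlpha : ClaimAlpha := by
  intro N A H M P g hpar
  by_contra hcon
  push Not at hcon
  obtain ⟨hc5, hc12⟩ := hcon
  unfold AlphaGood at hc5 hc12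
  push Not at hc5 hc12
  obtain ⟨h, hh, hh2, hv⟩ := hc5
  obtain ⟨h', hh', hh2', hv'⟩ := hc12
  obtain ⟨hq, hsz⟩ := alpha_sizes hpar
  obtain ⟨s1, s2, s3, s4⟩ := hsz 5 le_rfl
  obtain ⟨u1, u2, u3, u4⟩ := hsz 12 (by norm_num)
  have hg := hpar.hg
  have hR : 2 ^ 20 ≤ RR g := by
    unfold RR
    exact Nat.pow_le_pow_right (by norm_num) (by omega)
  norm_num at s1 s2 s3 s4 u1 u2 u3 u4
  have hT : lam3 M g 5 ≤ lam3 M g 12 := by
    have : (3 : ℕ) ^ lam3 M g 5 < 3 ^ lam3 M g 12 := by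
      calc 3 ^ lam3 M g 5 < 192 * (N / P) * RR g ^ 6 := s2
        _ ≤ 2 * (N / P) * RR g ^ 13 := by
          have e : 2 * (N / P) * RR g ^ 13 = (N / P) * RR g ^ 6 * (2 * RR g ^ 7) := by ring
          have e' : 192 * (N / P) * RR g ^ 6 = (N / P) * RR g ^ 6 * 192 := by ring
          rw [e, e']
          apply Nat.mul_le_mul_left
          have : RR g ≤ RR g ^ 7 := Nat.le_self_pow (by norm_num) _
          omega
        _ < _ := u1
    exact ((Nat.pow_lt_pow_iff_right (by norm_num)).mp this).le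
  have hW : 5 * (i0 N P g 5 + 2 * g) ≤ 5 * (i0 N P g 12 + 2 * g) := by
    have : (2 : ℕ) ^ (5 * (i0 N P g 5 + 2 * g)) < 2 ^ (5 * (i0 N P g 12 + 2 * g)) := by
      have e1 : 32 * ((N / P) * RR g ^ 3) ≤ (N / P) * RR g ^ 10 := by
        have e : (N / P) * RR g ^ 10 = (N / P) * RR g ^ 3 * RR g ^ 7 := by ring
        rw [e, mul_comm 32]
        apply Nat.mul_le_mul_left
        have : RR g ≤ RR g ^ 7 := Nat.le_self_pow (by norm_num) _
        omega
      omega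
    exact ((Nat.pow_lt_pow_iff_right (by norm_num)).mp this).le
  obtain ⟨i, hi⟩ := Nat.exists_eq_add_of_le hT
  obtain ⟨j, hj⟩ := Nat.exists_eq_add_of_le hW
  rw [hi, pow_add] at u2
  rw [hj, pow_add] at u3 u4
  refine alpha_core (RR g) (N / P) (3 ^ lam3 M g 5) (2 ^ (5 * (i0 N P g 5 + 2 * g))) i j h h' hR hq
    s1 s2 s3 s4 u2 u3 u4 hh hh2 hh' hh2' ?_ ?_
  · push_cast
    exact hv
  · rw [hi, hj, pow_add, pow_add] at hv'
    push_cast
    exact hv'

end Pool.Agent.Work.MP_8e4d29_nt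

end

section

/-!
MP_8e4d29_nt: D12, bad `n` are rare.
-/

namespace Pool.Agent.Work.MP_8e4d29_nt

namespace BadN

open Finset

/-- Markov's inequality -/
theorem markov {ι : Type} (S : Finset ι) (f : ι → ℝ) (hf : ∀ i ∈ S, 0 ≤ f i) (T : ℝ) :
    ((S.filter (fun i => ¬ f i ≤ T)).card : ℝ) * T ≤ ∑ i ∈ S, f i := by
  calc ((S.filter (fun i => ¬ f i ≤ T)).card : ℝ) * T
      = ∑ i ∈ S.filter (fun i => ¬ f i ≤ T), T := by rw [sum_const, nsmul_eq_mul]
    _ ≤ ∑ i ∈ S.filter (fun i => ¬ f i ≤ T), f i := by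
        apply sum_le_sum
        intro i hi
        exact (not_le.1 (mem_filter.1 hi).2).le
    _ ≤ ∑ i ∈ S, f i :=
        sum_le_sum_of_subset_of_nonneg (filter_subset _ _) (fun i hi _ => hf i hi)

/-- the facts as real inequalities -/
structure RF (N P M H R Ra K K3 L L1 Λ I l2 η Z X0 : ℝ) : Prop where
  hR : 2 ^ 20 ≤ R
  hRa1 : 1 ≤ Ra
  hRa : Ra ≤ R ^ 12
  hP : 1 ≤ P
  hM : 1 ≤ M
  hN : 0 < N
  hH : 0 < H
  hI : 0 < I
  hK : 0 < K
  hK3 : 0 < K3
  hL : 0 < L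
  hL1 : 0 < L1
  hΛ : 1 ≤ Λ
  hη : 1 ≤ η
  hZ : 1 ≤ Z
  hl2 : 1 ≤ l2
  hX0 : 1 ≤ X0
  big : R ^ 100 * N ≤ H * P
  key : N * P * R ^ 100 ≤ 2 * (H * H)
  fM : M * R ^ 100 ≤ 4 * H
  fPH : P * R ^ 200 ≤ 2 * H
  fMP : M * P ≤ 4 * N
  fMP' : N ≤ 4 * (M * P)
  fLm1 : H ≤ P * L
  fkap1 : R ^ 6 * K ≤ L
  fkap2 : L ≤ 2 * K * R ^ 6
  fkap31 : R ^ 6 * K3 ≤ L
  fkap32 : L ≤ 3 * K3 * R ^ 6
  fell2 : L1 ≤ 256 * M * Ra * R
  flam2 : Λ ≤ 24 * M * Ra * R
  fi01 : I * R ^ 3 * P ≤ N * Ra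
  fi02 : N * Ra ≤ 64 * I * R ^ 3 * P
  fL22 : L ≤ 2 * l2 * R ^ 8 * Ra
  feta2 : K3 ≤ 2 * η * R
  fX0 : X0 * (R ^ 2 * Ra) = K
  fZ1 : Z * (2 * η) ≤ Λ
  fLmR : L * Ra * R ^ 90 ≤ I

variable {N P M H R Ra K K3 L L1 Λ I l2 η Z X0 : ℝ}

theorem RF.R1 (h : RF N P M H R Ra K K3 L L1 Λ I l2 η Z X0) : 1 ≤ R := by
  have := h.hR; norm_num at this; linarith

/-- a constant times a power of `R` is at most a higher power -/
theorem RF.pw (h : RF N P M H R Ra K K3 L L1 Λ I l2 η Z X0) {c : ℝ} (hc : c ≤ 2 ^ 20)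
    {i j : ℕ} (hij : i + 1 ≤ j) : c * R ^ i ≤ R ^ j := by
  have h1 := h.R1
  have h2 : c ≤ R := hc.trans h.hR
  calc c * R ^ i ≤ R * R ^ i := by gcongr
    _ = R ^ (i + 1) := by ring
    _ ≤ R ^ j := pow_le_pow_right₀ h1 hij

theorem RF.IR (h : RF N P M H R Ra K K3 L L1 Λ I l2 η Z X0) {q : ℝ} (hq : 0 < q)
    (hq1 : L ≤ 3 * q * R ^ 6) : I * R ≤ P * q := by
  have hR := h.R1
  have hP := h.hP
  have hRa1 := h.hRa1
  have hI := h.hI
  have hN := h.hN
  have c0 : 0 < R ^ 102 * P := by positivity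
  refine le_of_mul_le_mul_right ?_ c0
  calc I * R * (R ^ 102 * P) = (I * R ^ 3 * P) * R ^ 100 := by ring
    _ ≤ (N * Ra) * R ^ 100 := by have hk := h.fi01; gcongr
    _ = Ra * (R ^ 100 * N) := by ring
    _ ≤ R ^ 12 * (H * P) := by
        apply mul_le_mul h.hRa h.big (by positivity) (by positivity)
    _ ≤ R ^ 12 * ((P * (3 * q * R ^ 6)) * P) := by
        have : H ≤ P * (3 * q * R ^ 6) := h.fLm1.trans (by gcongr)
        gcongr
    _ = (3 * R ^ 18) * (P * q * P) := by ring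
    _ ≤ R ^ 102 * (P * q * P) := by
        have := h.pw (c := 3) (by norm_num) (i := 18) (j := 102) (by norm_num)
        gcongr
    _ = P * q * (R ^ 102 * P) := by ring

theorem RF.qI (h : RF N P M H R Ra K K3 L L1 Λ I l2 η Z X0) {q : ℝ} (hq : 0 < q)
    (hq2 : R ^ 6 * q ≤ L) : q * R ^ 90 ≤ I := by
  have hR := h.R1
  have hRa1 := h.hRa1
  calc q * R ^ 90 ≤ (R ^ 6 * q) * 1 * R ^ 90 := by
        have : (1 : ℝ) ≤ R ^ 6 := one_le_pow₀ hR
        have h2 : q ≤ R ^ 6 * q := by nlinarith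
        rw [mul_one]
        gcongr
    _ ≤ L * Ra * R ^ 90 := by gcongr; exact h.hL.le
    _ ≤ I := h.fLmR

/-- the range of `t` is long -/
theorem RF.l2H (h : RF N P M H R Ra K K3 L L1 Λ I l2 η Z X0) : H ≤ 2 * R ^ 20 * (P * l2) := by
  have hR := h.R1
  have hP := h.hP
  have hl2 := h.hl2
  calc H ≤ P * L := h.fLm1
    _ ≤ P * (2 * l2 * R ^ 8 * R ^ 12) := by
        have h1 : L ≤ 2 * l2 * R ^ 8 * R ^ 12 := h.fL22.trans (by have hk := h.hRa; gcongr)
        gcongr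
    _ = 2 * R ^ 20 * (P * l2) := by ring

theorem RF.lamle (h : RF N P M H R Ra K K3 L L1 Λ I l2 η Z X0) : Λ ≤ 24 * M * R ^ 13 := by
  have hR := h.R1
  have hM := h.hM
  calc Λ ≤ 24 * M * Ra * R := h.flam2
    _ ≤ 24 * M * R ^ 12 * R := by have hk := h.hRa; gcongr
    _ = 24 * M * R ^ 13 := by ring

theorem RF.i1 (h : RF N P M H R Ra K K3 L L1 Λ I l2 η Z X0) : 2 * Λ * R ^ 12 ≤ P * l2 := by
  have hR := h.R1
  have hM := h.hM
  have hP := h.hP
  have hl2 := h.hl2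
  have c0 : (0 : ℝ) < 8 * R ^ 20 := by positivity
  refine le_of_mul_le_mul_left ?_ c0
  calc 8 * R ^ 20 * (2 * Λ * R ^ 12) ≤ 8 * R ^ 20 * (2 * (24 * M * R ^ 13) * R ^ 12) := by
        have hk := h.lamle; gcongr
    _ = (384 * R ^ 45) * M := by ring
    _ ≤ R ^ 100 * M := by
        have := h.pw (c := 384) (by norm_num) (i := 45) (j := 100) (by norm_num)
        gcongr
    _ = M * R ^ 100 := by ring
    _ ≤ 4 * H := h.fM
    _ ≤ 4 * (2 * R ^ 20 * (P * l2)) := by have hk := h.l2H; gcongr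
    _ = 8 * R ^ 20 * (P * l2) := by ring

theorem RF.etaH (h : RF N P M H R Ra K K3 L L1 Λ I l2 η Z X0) : H ≤ 6 * η * P * R ^ 7 := by
  have hR := h.R1
  have hP := h.hP
  have hη := h.hη
  calc H ≤ P * L := h.fLm1
    _ ≤ P * (3 * (2 * η * R) * R ^ 6) := by
        have h1 : L ≤ 3 * (2 * η * R) * R ^ 6 := h.fkap32.trans (by have hk := h.feta2; gcongr)
        gcongr
    _ = 6 * η * P * R ^ 7 := by ring

theorem RF.ZH (h : RF N P M H R Ra K K3 L L1 Λ I l2 η Z X0) : Z * H ≤ 288 * N * R ^ 20 := by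
  have hR := h.R1
  have hP := h.hP
  have hη := h.hη
  have hZ := h.hZ
  have hM := h.hM
  have hN := h.hN
  calc Z * H ≤ Z * (6 * η * P * R ^ 7) := by have hk := h.etaH; gcongr
    _ = 3 * P * R ^ 7 * (Z * (2 * η)) := by ring
    _ ≤ 3 * P * R ^ 7 * (24 * M * R ^ 13) := by
        have h1 : Z * (2 * η) ≤ 24 * M * R ^ 13 := h.fZ1.trans h.lamle
        gcongr
    _ = 72 * R ^ 20 * (M * P) := by ring
    _ ≤ 72 * R ^ 20 * (4 * N) := by have hk := h.fMP; gcongr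
    _ = 288 * N * R ^ 20 := by ring

theorem RF.Zeta (h : RF N P M H R Ra K K3 L L1 Λ I l2 η Z X0) : Z * R ^ 70 ≤ η := by
  have hR := h.R1
  have hP := h.hP
  have hη := h.hη
  have hZ := h.hZ
  have hN := h.hN
  have hH := h.hH
  have c0 : (0 : ℝ) < H * H := by positivity
  refine le_of_mul_le_mul_right ?_ c0
  have c1 : (0 : ℝ) < R ^ 3 := by positivity
  refine le_of_mul_le_mul_right ?_ c1
  calc Z * R ^ 70 * (H * H) * R ^ 3 = (Z * H) * H * R ^ 73 := by ring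
    _ ≤ (288 * N * R ^ 20) * (6 * η * P * R ^ 7) * R ^ 73 := by
        have k1 := h.ZH
        have k2 := h.etaH
        gcongr
    _ = 1728 * η * (N * P * R ^ 100) := by ring
    _ ≤ 1728 * η * (2 * (H * H)) := by have hk := h.key; gcongr
    _ = (3456 * R ^ 0) * (η * (H * H)) := by ring
    _ ≤ R ^ 3 * (η * (H * H)) := by
        have := h.pw (c := 3456) (by norm_num) (i := 0) (j := 3) (by norm_num)
        gcongr
    _ = η * (H * H) * R ^ 3 := by ring

theorem RF.ZI (h : RF N P M H R Ra K K3 L L1 Λ I l2 η Z X0) : Z * R ^ 170 ≤ I := by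
  have hR := h.R1
  have hP := h.hP
  have hZ := h.hZ
  have hN := h.hN
  have hI := h.hI
  have hH := h.hH
  have hRa1 := h.hRa1
  have c0 : (0 : ℝ) < R ^ 30 * P := by positivity
  refine le_of_mul_le_mul_right ?_ c0
  calc Z * R ^ 170 * (R ^ 30 * P) = Z * (P * R ^ 200) := by ring
    _ ≤ Z * (2 * H) := by have hk := h.fPH; gcongr
    _ = 2 * (Z * H) := by ring
    _ ≤ 2 * (288 * N * R ^ 20) := by have hk := h.ZH; gcongr
    _ = 576 * R ^ 20 * (N * 1) := by ring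
    _ ≤ 576 * R ^ 20 * (64 * I * R ^ 3 * P) := by
        have h1 : N * 1 ≤ 64 * I * R ^ 3 * P := (by gcongr : N * 1 ≤ N * Ra).trans h.fi02
        gcongr
    _ = (36864 * R ^ 23) * (I * P) := by ring
    _ ≤ R ^ 30 * (I * P) := by
        have := h.pw (c := 36864) (by norm_num) (i := 23) (j := 30) (by norm_num)
        gcongr
    _ = I * (R ^ 30 * P) := by ring

theorem RF.Zl2 (h : RF N P M H R Ra K K3 L L1 Λ I l2 η Z X0) : Z * R ^ 50 ≤ l2 := by
  have hR := h.R1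
  have hP := h.hP
  have hZ := h.hZ
  have hN := h.hN
  have hH := h.hH
  have hl2 := h.hl2
  have c0 : (0 : ℝ) < H * H := by positivity
  refine le_of_mul_le_mul_right ?_ c0
  have c1 : (0 : ℝ) < R ^ 10 := by positivity
  refine le_of_mul_le_mul_right ?_ c1
  calc Z * R ^ 50 * (H * H) * R ^ 10 = (Z * H) * H * R ^ 60 := by ring
    _ ≤ (288 * N * R ^ 20) * (2 * R ^ 20 * (P * l2)) * R ^ 60 := by
        have k1 := h.ZH
        have k2 := h.l2H
        gcongr
    _ = 576 * l2 * (N * P * R ^ 100) := by ring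
    _ ≤ 576 * l2 * (2 * (H * H)) := by have hk := h.key; gcongr
    _ = (1152 * R ^ 0) * (l2 * (H * H)) := by ring
    _ ≤ R ^ 10 * (l2 * (H * H)) := by
        have := h.pw (c := 1152) (by norm_num) (i := 0) (j := 10) (by norm_num)
        gcongr
    _ = l2 * (H * H) * R ^ 10 := by ring

theorem RF.Kbig (h : RF N P M H R Ra K K3 L L1 Λ I l2 η Z X0) : 2 * R ^ 2 ≤ K := by
  have hR := h.R1
  have hP := h.hP
  have hK := h.hK
  have hH := h.hH
  have c0 : (0 : ℝ) < 4 * (P * R ^ 6) := by positivity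
  refine le_of_mul_le_mul_right ?_ c0
  calc 2 * R ^ 2 * (4 * (P * R ^ 6)) = (8 * R ^ 8) * P := by ring
    _ ≤ R ^ 200 * P := by
        have := h.pw (c := 8) (by norm_num) (i := 8) (j := 200) (by norm_num)
        gcongr
    _ = P * R ^ 200 := by ring
    _ ≤ 2 * H := h.fPH
    _ ≤ 2 * (P * (2 * K * R ^ 6)) := by
        have : H ≤ P * (2 * K * R ^ 6) := h.fLm1.trans (by have hk := h.fkap2; gcongr)
        gcongr
    _ = K * (4 * (P * R ^ 6)) := by ring

theorem RF.L1PK (h : RF N P M H R Ra K K3 L L1 Λ I l2 η Z X0) :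
    L1 * (R ^ 2 * Ra) < P * K := by
  have hR := h.R1
  have hP := h.hP
  have hK := h.hK
  have hM := h.hM
  have hL1 := h.hL1
  have hRa1 := h.hRa1
  have c0 : (0 : ℝ) < 8 * R ^ 6 := by positivity
  refine lt_of_mul_lt_mul_left ?_ c0.le
  calc 8 * R ^ 6 * (L1 * (R ^ 2 * Ra)) ≤ 8 * R ^ 6 * ((256 * M * R ^ 12 * R) * (R ^ 2 * R ^ 12)) := by
        have h1 : L1 ≤ 256 * M * R ^ 12 * R := h.fell2.trans (by have hk := h.hRa; gcongr)
        have h2 := h.hRa
        gcongr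
    _ = (2048 * R ^ 33) * M := by ring
    _ ≤ R ^ 99 * M := by
        have := h.pw (c := 2048) (by norm_num) (i := 33) (j := 99) (by norm_num)
        gcongr
    _ < R ^ 100 * M := by
        have h3 : (1 : ℝ) < R := by have := h.hR; norm_num at this; linarith
        have h4 : R ^ 99 < R ^ 100 := pow_lt_pow_right₀ h3 (by norm_num)
        have h5 : (0 : ℝ) < M := by linarith
        exact mul_lt_mul_of_pos_right h4 h5
    _ = M * R ^ 100 := by ring
    _ ≤ 4 * H := h.fM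
    _ ≤ 4 * (P * (2 * K * R ^ 6)) := by
        have : H ≤ P * (2 * K * R ^ 6) := h.fLm1.trans (by have hk := h.fkap2; gcongr)
        gcongr
    _ = 8 * R ^ 6 * (P * K) := by ring

theorem RF.K2 (h : RF N P M H R Ra K K3 L L1 Λ I l2 η Z X0) :
    36 * (L1 * R ^ 5 * Ra) ≤ K ^ 2 := by
  have hR := h.R1
  have hP := h.hP
  have hK := h.hK
  have hM := h.hM
  have hN := h.hN
  have hH := h.hH
  have hL1 := h.hL1
  have hRa1 := h.hRa1
  have hHK : H ≤ P * (2 * K * R ^ 6) := h.fLm1.trans (by have hk := h.fkap2; gcongr)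
  have c0 : (0 : ℝ) < 32 * (P ^ 2 * R ^ 12) := by positivity
  refine le_of_mul_le_mul_right ?_ c0
  calc 36 * (L1 * R ^ 5 * Ra) * (32 * (P ^ 2 * R ^ 12))
      ≤ 36 * ((256 * M * R ^ 12 * R) * R ^ 5 * R ^ 12) * (32 * (P ^ 2 * R ^ 12)) := by
        have h1 : L1 ≤ 256 * M * R ^ 12 * R := h.fell2.trans (by have hk := h.hRa; gcongr)
        have h2 := h.hRa
        gcongr
    _ = (294912 * R ^ 42) * (P * (M * P)) := by ring
    _ ≤ R ^ 100 * (P * (4 * N)) := by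
        have := h.pw (c := 294912) (by norm_num) (i := 42) (j := 100) (by norm_num)
        have k1 := h.fMP
        gcongr
    _ = 4 * (N * P * R ^ 100) := by ring
    _ ≤ 4 * (2 * (H * H)) := by have hk := h.key; gcongr
    _ ≤ 4 * (2 * ((P * (2 * K * R ^ 6)) * (P * (2 * K * R ^ 6)))) := by gcongr
    _ = K ^ 2 * (32 * (P ^ 2 * R ^ 12)) := by ring

/-- the real facts hold -/
theorem toRF {N A H M P g a : ℕ} (hp : Par N A H M P g a) (f : ParF N A H M P g a) :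
    RF N P M H (RR g : ℝ) ((RR g : ℝ) ^ a) ((2 : ℝ) ^ kap H P g) ((3 : ℝ) ^ kap3 H P g)
      (Lm H P : ℝ) ((2 : ℝ) ^ (5 * ell M g a)) ((3 : ℝ) ^ lam3 M g a)
      ((2 : ℝ) ^ (5 * i0 N P g a)) (L2 H P g a : ℝ) (eta H P g : ℝ) (Z3 H M P g a : ℝ)
      ((Lp H P g a / RR g : ℕ) : ℝ) := by
  have hR1 : (1 : ℝ) ≤ (RR g : ℝ) := by
    have := f.fR
    have h2 : 1 ≤ RR g := le_trans (by norm_num) this
    exact_mod_cast h2
  have hHpos : 0 < H := by
    rcases Nat.eq_zero_or_pos H with h0 | h0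
    · have := f.fM
      rw [h0, mul_zero, Nat.le_zero, Nat.mul_eq_zero] at this
      have h1 := hp.hP
      have h2 := hp.hPM
      have h3 : RR g ≠ 0 := by unfold RR; positivity
      rcases this with h4 | h4
      · omega
      · exact absurd (pow_eq_zero_iff (by norm_num) |>.1 h4) h3
    · exact h0
  have hNpos : 0 < N := by
    have h1 := hp.hP
    have h2 := hp.hPM
    have h3 := hp.hMP
    have h4 : 0 < M * P := Nat.mul_pos (by omega) (by omega)
    omega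
  refine
    { hR := by exact_mod_cast f.fR
      hRa1 := one_le_pow₀ hR1
      hRa := pow_le_pow_right₀ hR1 (by rcases hp.ha with h | h <;> omega)
      hP := by exact_mod_cast hp.hP
      hM := by exact_mod_cast hp.hP.trans hp.hPM
      hN := by exact_mod_cast hNpos
      hH := by exact_mod_cast hHpos
      hI := by positivity
      hK := by positivity
      hK3 := by positivity
      hL := by
        have : 0 < Lm H P := Nat.succ_pos _
        exact_mod_cast this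
      hL1 := by positivity
      hΛ := one_le_pow₀ (by norm_num)
      hη := by exact_mod_cast f.feta
      hZ := by exact_mod_cast f.fZ
      hl2 := by exact_mod_cast f.fL2
      hX0 := by exact_mod_cast f.fLp3
      big := by exact_mod_cast hp.big
      key := by exact_mod_cast f.fkey
      fM := by exact_mod_cast f.fM
      fPH := by exact_mod_cast f.fPH
      fMP := by exact_mod_cast hp.hMP
      fMP' := by exact_mod_cast hp.hMP'
      fLm1 := by exact_mod_cast f.fLm1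
      fkap1 := by exact_mod_cast f.fkap1
      fkap2 := by exact_mod_cast f.fkap2.le
      fkap31 := by exact_mod_cast f.fkap31
      fkap32 := by exact_mod_cast f.fkap32.le
      fell2 := by exact_mod_cast f.fell2
      flam2 := by exact_mod_cast f.flam2
      fi01 := by exact_mod_cast f.fi01
      fi02 := by exact_mod_cast f.fi02
      fL22 := by exact_mod_cast f.fL22.le
      feta2 := by exact_mod_cast f.feta2.le
      fX0 := by
        have h1 := f.fLp
        have h2 := f.fLp2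
        have h3 : Lp H P g a / RR g * (RR g ^ 2 * RR g ^ a) = 2 ^ kap H P g := by
          calc Lp H P g a / RR g * (RR g ^ 2 * RR g ^ a)
              = (Lp H P g a / RR g * RR g) * (RR g * RR g ^ a) := by ring
            _ = _ := by rw [h2, h1]
        exact_mod_cast h3
      fZ1 := by exact_mod_cast f.fZ1
      fLmR := by exact_mod_cast f.fLmR }

theorem lam1_eq (N P g a : ℕ) : (2 : ℝ) ^ (5 * (i0 N P g a + 2 * g)) =
    (2 : ℝ) ^ (5 * i0 N P g a) * (RR g : ℝ) := by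
  unfold RR
  push_cast
  rw [← pow_add]
  congr 1
  ring


/-! ### the one-condition sums -/

theorem sumE1 (hW : ClaimW) {N A H M P g a : ℕ} (hp : Par N A H M P g a) (f : ParF N A H M P g a)
    (q : ℕ) (hq : 0 < q) (hq1 : (Lm H P : ℝ) ≤ 3 * q * (RR g : ℝ) ^ 6)
    (hq2 : (RR g : ℝ) ^ 6 * q ≤ Lm H P) :
    ∑ n ∈ Ioc P (2 * P), E1 N P g a q n ≤ 21 * P * (RR g : ℝ) ^ 2 := by
  have F := toRF hp f
  have hR := F.R1
  have hP := F.hP
  have hI := F.hI
  have hq' : (0 : ℝ) < q := by exact_mod_cast hq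
  have hIR := F.IR hq' hq1
  have hqI := F.qI hq' hq2
  have hlog := f.flogi
  rw [lam1_eq] at hlog
  set R : ℝ := (RR g : ℝ) with hRdef
  set I : ℝ := (2 : ℝ) ^ (5 * i0 N P g a) with hIdef
  have hRbig : (2 : ℝ) ^ 20 ≤ R := F.hR
  have key : ∀ h ∈ Ico 1 (RR g), ∑ n ∈ Ioc P (2 * P),
      gm (R ^ 4) ((n : ℝ) * ((h : ℝ) * q / 2 ^ (5 * (i0 N P g a + 2 * g)))) ≤ 21 * P * R := by
    intro h hh
    rw [mem_Ico] at hh
    have h1 : (1 : ℝ) ≤ h := by exact_mod_cast hh.1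
    have h2 : (h : ℝ) ≤ R := by
      have : h ≤ RR g := hh.2.le
      rw [hRdef]
      exact_mod_cast this
    rw [lam1_eq]
    set ξ : ℝ := (h : ℝ) * q / (I * R) with hξ
    have hIRpos : 0 < I * R := by positivity
    have hξ0 : 0 < ξ := by positivity
    have hξle : ξ ≤ q / I := by
      rw [hξ, div_le_div_iff₀ hIRpos hI]
      have : (h : ℝ) * q * I ≤ R * q * I := by gcongr
      linarith
    have hqI4 : q / I * R ^ 90 ≤ 1 := by
      rw [div_mul_eq_mul_div, div_le_one hI]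
      exact hqI
    have hξ90 : ξ * R ^ 90 ≤ 1 := by
      have : ξ * R ^ 90 ≤ q / I * R ^ 90 := by gcongr
      linarith
    have hR90 : (2 : ℝ) * R ^ 4 ≤ R ^ 90 := F.pw (by norm_num) (by norm_num)
    have hξR4 : 2 * (ξ * R ^ 4) ≤ 1 := by
      have : ξ * (2 * R ^ 4) ≤ ξ * R ^ 90 := by gcongr
      linarith
    have hR4 : (1 : ℝ) ≤ R ^ 4 := one_le_pow₀ hR
    have hξ1 : ξ ≤ 1 / 2 := by
      have : ξ * 1 ≤ ξ * R ^ 4 := by gcongr
      linarith
    have hw := hW P (R ^ 4) ξ hp.hP hR4 hξ0 hξ1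
    have e1 : 1 / (2 * ξ) ≤ P / 2 := by
      rw [div_le_div_iff₀ (by positivity) two_pos]
      have h5 : I * R ≤ P * (h * q) := by
        have : P * (q : ℝ) ≤ P * (h * q) := by
          gcongr
          exact le_mul_of_one_le_left hq'.le h1
        exact hIR.trans this
      have h6 : 1 ≤ P * ξ := by
        rw [hξ, ← mul_div_assoc, le_div_iff₀ hIRpos, one_mul]
        exact h5
      linarith
    have e2 : P * ξ * R ^ 4 ≤ P := by
      have : (P : ℝ) * (ξ * R ^ 4) ≤ P * 1 := by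
        gcongr
        linarith
      linarith
    have e3 : Real.log (1 / ξ) ≤ R := by
      refine le_trans (Real.log_le_log (by positivity) ?_) hlog
      rw [hξ, one_div_div, div_le_iff₀ (by positivity)]
      have : (1 : ℝ) ≤ h * q := by
        have hq1' : (1 : ℝ) ≤ q := by exact_mod_cast hq
        nlinarith
      nlinarith
    have e4 : (P : ℝ) * (1 + Real.log (1 / ξ)) ≤ P * (1 + R) := by gcongr
    have hRb : (1048576 : ℝ) ≤ R := by norm_num at hRbig ⊢; linarith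
    nlinarith
  have hsw : ∑ n ∈ Ioc P (2 * P), E1 N P g a q n = ∑ h ∈ Ico 1 (RR g), ∑ n ∈ Ioc P (2 * P),
      gm (R ^ 4) ((n : ℝ) * ((h : ℝ) * q / 2 ^ (5 * (i0 N P g a + 2 * g)))) := by
    unfold E1
    exact sum_comm
  rw [hsw]
  refine (sum_le_card_nsmul _ _ _ key).trans ?_
  rw [nsmul_eq_mul, Nat.card_Ico]
  have hc : ((RR g - 1 : ℕ) : ℝ) ≤ R := by
    have : RR g - 1 ≤ RR g := Nat.sub_le _ _
    rw [hRdef]
    exact_mod_cast this
  calc ((RR g - 1 : ℕ) : ℝ) * (21 * P * R) ≤ R * (21 * P * R) := by gcongr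
    _ = 21 * P * R ^ 2 := by ring

theorem E1_nonneg (N P g a q n : ℕ) : 0 ≤ E1 N P g a q n :=
  sum_nonneg fun _ _ => gm_nonneg (by positivity) _

theorem badE1 (hW : ClaimW) {N A H M P g a : ℕ} (hp : Par N A H M P g a) (f : ParF N A H M P g a)
    (q : ℕ) (hq : 0 < q) (hq1 : (Lm H P : ℝ) ≤ 3 * q * (RR g : ℝ) ^ 6)
    (hq2 : (RR g : ℝ) ^ 6 * q ≤ Lm H P) :
    (((Ioc P (2 * P)).filter (fun n => ¬ E1 N P g a q n ≤ (RR g : ℝ) ^ 4)).card : ℝ) ≤
      P / RR g := by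
  have F := toRF hp f
  have hR := F.R1
  have hP := F.hP
  have h1 := markov (Ioc P (2 * P)) (fun n => E1 N P g a q n)
    (fun n _ => E1_nonneg N P g a q n) ((RR g : ℝ) ^ 4)
  have h2 := sumE1 hW hp f q hq hq1 hq2
  have h3 := h1.trans h2
  have hR0 : (0 : ℝ) < RR g := by linarith
  rw [le_div_iff₀ hR0]
  have hc : (21 : ℝ) * (RR g : ℝ) ^ 2 ≤ (RR g : ℝ) ^ 3 := F.pw (by norm_num) (by norm_num)
  have c0 : (0 : ℝ) < (RR g : ℝ) ^ 3 := by positivity
  refine le_of_mul_le_mul_right ?_ c0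
  set c : ℝ := (((Ioc P (2 * P)).filter (fun n => ¬ E1 N P g a q n ≤ (RR g : ℝ) ^ 4)).card : ℝ)
  calc c * (RR g : ℝ) * (RR g : ℝ) ^ 3 = c * (RR g : ℝ) ^ 4 := by ring
    _ ≤ 21 * P * (RR g : ℝ) ^ 2 := h3
    _ = P * (21 * (RR g : ℝ) ^ 2) := by ring
    _ ≤ P * (RR g : ℝ) ^ 3 := by gcongr

/-! ### harmonic sums -/

theorem harm (S : Finset ℤ) (ρ : ℤ) (K : ℕ) (t : ℤ → ℝ) (c : ℝ) (hc : 0 ≤ c)
    (hS : ∀ h ∈ S, (h + ρ).natAbs ≤ K) (ht0 : ∀ h ∈ S, h + ρ = 0 → t h ≤ c)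
    (ht : ∀ h ∈ S, h + ρ ≠ 0 → t h ≤ 2 / ((h + ρ).natAbs : ℝ)) :
    ∑ h ∈ S, t h ≤ c + 4 * (1 + Real.log K) := by
  classical
  have hmaps : ∀ h ∈ S, (h + ρ).natAbs ∈ range (K + 1) := by
    intro h hh
    rw [mem_range]
    have := hS h hh
    omega
  rw [← sum_fiberwise_of_maps_to hmaps, sum_range_succ']
  have h0 : ∑ h ∈ S with (h + ρ).natAbs = 0, t h ≤ c := by
    refine (sum_le_card_nsmul _ _ c ?_).trans ?_
    · intro h hh
      rw [mem_filter] at hh
      exact ht0 h hh.1 (Int.natAbs_eq_zero.1 hh.2)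
    · rw [nsmul_eq_mul]
      have hcard : (S.filter (fun h => (h + ρ).natAbs = 0)).card ≤ 1 := by
        refine (card_le_card (t := {-ρ}) ?_).trans (by simp)
        intro h hh
        rw [mem_filter] at hh
        rw [mem_singleton]
        omega
      have : ((S.filter (fun h => (h + ρ).natAbs = 0)).card : ℝ) ≤ 1 := by exact_mod_cast hcard
      nlinarith
  have hk : ∀ k ∈ range K, ∑ h ∈ S with (h + ρ).natAbs = k + 1, t h ≤
      4 * (((k : ℝ) + 1)⁻¹) := by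
    intro k _
    refine (sum_le_card_nsmul _ _ (2 / ((k : ℝ) + 1)) ?_).trans ?_
    · intro h hh
      rw [mem_filter] at hh
      have := ht h hh.1 (by intro h0; rw [h0] at hh; simp at hh)
      rw [hh.2] at this
      push_cast at this
      exact this
    · rw [nsmul_eq_mul]
      have hcard : (S.filter (fun h => (h + ρ).natAbs = k + 1)).card ≤ 2 := by
        refine (card_le_card (t := {(k : ℤ) + 1 - ρ, -((k : ℤ) + 1) - ρ}) ?_).trans
          (card_le_two)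
        intro h hh
        rw [mem_filter] at hh
        rw [mem_insert, mem_singleton]
        omega
      have h1 : ((S.filter (fun h => (h + ρ).natAbs = k + 1)).card : ℝ) ≤ 2 := by
        exact_mod_cast hcard
      have h2 : (0 : ℝ) ≤ 2 / ((k : ℝ) + 1) := by positivity
      calc ((S.filter (fun h => (h + ρ).natAbs = k + 1)).card : ℝ) * (2 / ((k : ℝ) + 1))
          ≤ 2 * (2 / ((k : ℝ) + 1)) := by gcongr
        _ = 4 * (((k : ℝ) + 1)⁻¹) := by ring
  have hsum := sum_le_sum hk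
  rw [← mul_sum] at hsum
  have hharm := harmonic_le_one_add_log K
  have e : ∑ k ∈ range K, (((k : ℝ) + 1)⁻¹) = (harmonic K : ℝ) := by
    unfold harmonic
    push_cast
    rfl
  rw [e] at hsum
  linarith

/-! ### the two-condition sum -/

/-- `ξ = h/2^λ₁ + h'/3^λ'` -/
noncomputable def xi (N M P g a : ℕ) (h h' : ℤ) : ℝ :=
  (h : ℝ) / 2 ^ (5 * (i0 N P g a + 2 * g)) + (h' : ℝ) / 3 ^ lam3 M g a

theorem abs_le_of_mem_Ioo {h : ℤ} {n : ℕ} (hh : h ∈ Ioo (-(n : ℤ)) (n : ℤ)) :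
    |(h : ℝ)| ≤ n := by
  rw [mem_Ioo] at hh
  rw [abs_le]
  constructor
  · have : -(n : ℤ) ≤ h := hh.1.le
    exact_mod_cast this
  · exact_mod_cast hh.2.le

/-- lower bound for `3^λ' |ξ|` -/
theorem xi_lower {N A H M P g a : ℕ} (hα : AlphaGood N M P g a) (f : ParF N A H M P g a)
    {h h' : ℤ} (hh : h ∈ Ioo (-(RR g : ℤ)) (RR g : ℤ)) (h0 : ¬ (h = 0 ∧ h' = 0)) :
    1 / (RR g : ℝ) ^ 10 ≤ 3 ^ lam3 M g a * |xi N M P g a h h'| := by
  have hR1 : (1 : ℝ) ≤ (RR g : ℝ) := by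
    have := f.fR
    have h2 : 1 ≤ RR g := le_trans (by norm_num) this
    exact_mod_cast h2
  have hΛ : (0 : ℝ) < 3 ^ lam3 M g a := by positivity
  have e : 3 ^ lam3 M g a * |xi N M P g a h h'| =
      |(h' : ℝ) + (h : ℝ) * 3 ^ lam3 M g a / 2 ^ (5 * (i0 N P g a + 2 * g))| := by
    nth_rw 1 [← abs_of_pos hΛ]
    rw [← abs_mul]
    congr 1
    unfold xi
    field_simp
    ring
  rw [e]
  rcases eq_or_ne h 0 with hz | hz
  · subst hz
    have hz' : h' ≠ 0 := fun h1 => h0 ⟨rfl, h1⟩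
    have h1 : (1 : ℝ) ≤ |(h' : ℝ)| := by exact_mod_cast Int.one_le_abs hz'
    simp only [Int.cast_zero, zero_mul, zero_div, add_zero]
    refine le_trans ?_ h1
    rw [div_le_one (by positivity)]
    exact one_le_pow₀ hR1
  · rw [mem_Ioo] at hh
    have h1 : 1 ≤ h.natAbs := Int.natAbs_pos.2 hz
    have h2 : h.natAbs < RR g := by omega
    have h3 := hα h.natAbs h1 h2
    refine h3.trans ?_
    have h4 : nd ((h.natAbs : ℝ) * 3 ^ lam3 M g a / 2 ^ (5 * (i0 N P g a + 2 * g))) =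
        nd ((h : ℝ) * 3 ^ lam3 M g a / 2 ^ (5 * (i0 N P g a + 2 * g))) := by
      rcases Int.natAbs_eq h with h5 | h5
      · have h7 : (h : ℝ) = ((h.natAbs : ℕ) : ℝ) := by
          calc (h : ℝ) = ((((h.natAbs : ℕ) : ℤ)) : ℝ) := by rw [← h5]
            _ = _ := by rw [Int.cast_natCast]
        rw [h7]
      · have h7 : (h : ℝ) = -((h.natAbs : ℕ) : ℝ) := by
          calc (h : ℝ) = ((-(((h.natAbs : ℕ) : ℤ)) : ℤ) : ℝ) := by rw [← h5]
            _ = _ := by rw [Int.cast_neg, Int.cast_natCast]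
        rw [h7, neg_mul, neg_div, nd_neg]
    rw [h4]
    have h6 := nd_le_abs_sub_int ((h : ℝ) * 3 ^ lam3 M g a / 2 ^ (5 * (i0 N P g a + 2 * g))) (-h')
    refine h6.trans (le_of_eq ?_)
    congr 1
    push_cast
    ring


theorem gm_abs (X x y : ℝ) : gm X (x * |y|) = gm X (x * y) := by
  rcases abs_choice y with h | h
  · rw [h]
  · rw [h, mul_neg, gm_neg]

/-- one pair `(h, h')` -/
theorem pairE3 (hW : ClaimW) {N A H M P g a : ℕ} (hp : Par N A H M P g a)
    (hα : AlphaGood N M P g a) (f : ParF N A H M P g a)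
    {h h' : ℤ} (hh : h ∈ Ioo (-(RR g : ℤ)) (RR g : ℤ))
    (hh' : h' ∈ Ioo (-(Z3 H M P g a : ℤ)) (Z3 H M P g a : ℤ)) (h0 : ¬ (h = 0 ∧ h' = 0)) :
    ∑ n ∈ Ioc P (2 * P), gm (L2 H P g a) ((n : ℝ) * xi N M P g a h h') ≤
      1 / (2 * |xi N M P g a h h'|) + (20 * (P * L2 H P g a * (1 / (RR g : ℝ) ^ 60)) / Z3 H M P g a
        + 40 * P * RR g) := by
  have F := toRF hp f
  have hR := F.R1
  have hP := F.hP
  have hI := F.hI
  have hZ := F.hZ
  have hη := F.hη
  have hl2 := F.hl2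
  have hΛ := F.hΛ
  have hZI := F.ZI
  have hZeta := F.Zeta
  have hfZ1 := F.fZ1
  have hlow := xi_lower hα f hh h0
  have hlogZ := f.flogZ
  have hRbig : (2 : ℝ) ^ 20 ≤ (RR g : ℝ) := F.hR
  set R : ℝ := (RR g : ℝ) with hRdef
  set I : ℝ := (2 : ℝ) ^ (5 * i0 N P g a) with hIdef
  set Λ : ℝ := (3 : ℝ) ^ lam3 M g a with hΛdef
  set Z : ℝ := (Z3 H M P g a : ℝ) with hZdef
  set η : ℝ := (eta H P g : ℝ) with hηdef
  set l2 : ℝ := (L2 H P g a : ℝ) with hl2def
  set x : ℝ := |xi N M P g a h h'| with hx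
  have hRpos : 0 < R := by linarith
  have hΛpos : 0 < Λ := by linarith
  have hxpos : 0 < x := by
    have : 0 < Λ * x := lt_of_lt_of_le (by positivity) hlow
    exact pos_of_mul_pos_right this hΛpos.le
  -- upper bound for `x`
  have hxup : x ≤ 1 / I + 1 / (2 * η) := by
    have h1 : x ≤ |(h : ℝ) / (I * R)| + |(h' : ℝ) / Λ| := by
      rw [hx]
      unfold xi
      rw [lam1_eq]
      exact abs_add_le _ _
    have h2 : |(h : ℝ) / (I * R)| ≤ 1 / I := by
      rw [abs_div, abs_of_pos (by positivity : (0 : ℝ) < I * R),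
        div_le_div_iff₀ (by positivity) hI]
      have := abs_le_of_mem_Ioo hh
      rw [← hRdef] at this
      nlinarith
    have h3 : |(h' : ℝ) / Λ| ≤ 1 / (2 * η) := by
      rw [abs_div, abs_of_pos hΛpos, div_le_div_iff₀ hΛpos (by positivity)]
      have h4 := abs_le_of_mem_Ioo hh'
      rw [← hZdef] at h4
      have h5 : |(h' : ℝ)| * (2 * η) ≤ Z * (2 * η) := by gcongr
      linarith
    linarith
  have hZpos : 0 < Z := by linarith
  have hxZ : x * Z ≤ 1 / R ^ 60 := by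
    have h1 : 1 / I ≤ 1 / (Z * R ^ 170) := one_div_le_one_div_of_le (by positivity) hZI
    have h2 : 1 / (2 * η) ≤ 1 / (2 * (Z * R ^ 70)) :=
      one_div_le_one_div_of_le (by positivity) (by linarith)
    have h3 : x * Z ≤ (1 / (Z * R ^ 170) + 1 / (2 * (Z * R ^ 70))) * Z := by
      gcongr
      linarith
    have h4 : (1 / (Z * R ^ 170) + 1 / (2 * (Z * R ^ 70))) * Z = 1 / R ^ 170 + 1 / (2 * R ^ 70) := by
      field_simp
    rw [h4] at h3
    refine h3.trans ?_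
    have h5 : 1 / R ^ 170 ≤ 1 / (2 * R ^ 60) := by
      apply one_div_le_one_div_of_le (by positivity)
      exact F.pw (by norm_num) (by norm_num)
    have h6 : 1 / (2 * R ^ 70) ≤ 1 / (2 * R ^ 60) := by
      apply one_div_le_one_div_of_le (by positivity)
      have := pow_le_pow_right₀ hR (show 60 ≤ 70 by norm_num)
      linarith
    have h7 : 1 / (2 * R ^ 60) + 1 / (2 * R ^ 60) = 1 / R ^ 60 := by field_simp; norm_num
    linarith
  have hxsmall : x ≤ 1 / R ^ 60 := by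
    have : x * 1 ≤ x * Z := by gcongr
    linarith
  have hxhalf : x ≤ 1 / 2 := by
    refine hxsmall.trans ?_
    apply one_div_le_one_div_of_le two_pos
    have := F.pw (c := 2) (by norm_num) (i := 0) (j := 60) (by norm_num)
    simpa using this
  have hw := hW P l2 x hp.hP hl2 hxpos hxhalf
  have hlogx : Real.log (1 / x) ≤ R := by
    refine le_trans (Real.log_le_log (by positivity) ?_) hlogZ
    rw [div_le_iff₀ hxpos]
    have h1 : 1 = R ^ 10 * (1 / R ^ 10) := by field_simp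
    calc (1 : ℝ) = R ^ 10 * (1 / R ^ 10) := h1
      _ ≤ R ^ 10 * (Λ * x) := by gcongr
      _ = Λ * R ^ 10 * x := by ring
  have e0 : ∑ n ∈ Ioc P (2 * P), gm l2 ((n : ℝ) * xi N M P g a h h') =
      ∑ n ∈ Ioc P (2 * P), gm l2 ((n : ℝ) * x) := by
    apply sum_congr rfl
    intro n _
    rw [hx, gm_abs]
  rw [e0]
  refine hw.trans ?_
  have e1 : (P : ℝ) * x * l2 ≤ P * l2 * (1 / R ^ 60) / Z := by
    rw [le_div_iff₀ hZpos]
    calc (P : ℝ) * x * l2 * Z = P * l2 * (x * Z) := by ring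
      _ ≤ P * l2 * (1 / R ^ 60) := by gcongr
  have e2 : (P : ℝ) * (1 + Real.log (1 / x)) ≤ P * (1 + R) := by gcongr
  have e3 : 20 * (P * l2 * (1 / R ^ 60)) / Z = 20 * (P * l2 * (1 / R ^ 60) / Z) := by ring
  rw [e3]
  nlinarith

/-- the sum of `1/(2|ξ|)` over `h'` -/
theorem sumInv {N A H M P g a : ℕ} (hp : Par N A H M P g a)
    (hα : AlphaGood N M P g a) (f : ParF N A H M P g a)
    {h : ℤ} (hh : h ∈ Ioo (-(RR g : ℤ)) (RR g : ℤ)) :
    ∑ h' ∈ Ioo (-(Z3 H M P g a : ℤ)) (Z3 H M P g a : ℤ),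
      (if h = 0 ∧ h' = 0 then (0 : ℝ) else 1 / (2 * |xi N M P g a h h'|)) ≤
      3 ^ lam3 M g a * (RR g : ℝ) ^ 10 := by
  have F := toRF hp f
  have hR := F.R1
  have hI := F.hI
  have hZ := F.hZ
  have hη := F.hη
  have hΛ := F.hΛ
  have hfZ1 := F.fZ1
  have hlogZ := f.flogZ
  have hRbig : (2 : ℝ) ^ 20 ≤ (RR g : ℝ) := F.hR
  set R : ℝ := (RR g : ℝ) with hRdef
  set I : ℝ := (2 : ℝ) ^ (5 * i0 N P g a) with hIdef
  set Λ : ℝ := (3 : ℝ) ^ lam3 M g a with hΛdef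
  have hΛpos : 0 < Λ := by linarith
  have hRpos : 0 < R := by linarith
  set δ : ℝ := (h : ℝ) * Λ / 2 ^ (5 * (i0 N P g a + 2 * g)) with hδ
  have hxi : ∀ h' : ℤ, Λ * |xi N M P g a h h'| = |(h' : ℝ) + δ| := by
    intro h'
    nth_rw 1 [← abs_of_pos hΛpos]
    rw [← abs_mul]
    congr 1
    unfold xi
    rw [hδ, ← hΛdef]
    field_simp
    ring
  have hI1 : 1 ≤ I := one_le_pow₀ (by norm_num)
  have hδle : |δ| ≤ Λ := by
    rw [hδ, lam1_eq, ← hIdef, ← hRdef, abs_div, abs_mul, abs_of_pos hΛpos,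
      abs_of_pos (by positivity : (0 : ℝ) < I * R), div_le_iff₀ (by positivity)]
    have h1 := abs_le_of_mem_Ioo hh
    rw [← hRdef] at h1
    calc |(h : ℝ)| * Λ ≤ R * Λ := by gcongr
      _ = 1 * (R * Λ) := (one_mul _).symm
      _ ≤ I * (R * Λ) := by gcongr
      _ = Λ * (I * R) := by ring
  set ρ : ℤ := round δ with hρ
  have hρle : |(ρ : ℝ)| ≤ Λ + 1 / 2 := by
    have h1 : |δ - (ρ : ℝ)| ≤ 1 / 2 := abs_sub_round δ
    have h2 : |(ρ : ℝ)| ≤ |δ - ρ| + |δ| := by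
      have := abs_sub_abs_le_abs_sub (ρ : ℝ) δ
      rw [abs_sub_comm] at this
      linarith
    linarith
  set K : ℕ := Z3 H M P g a + ρ.natAbs with hK
  have hKle : (K : ℝ) ≤ Λ * R ^ 10 := by
    have h1 : ((ρ.natAbs : ℕ) : ℝ) = |(ρ : ℝ)| := by
      rw [← Int.cast_natCast, Int.natCast_natAbs, Int.cast_abs]
    rw [hK]
    push_cast
    rw [h1]
    have h2 : (Z3 H M P g a : ℝ) ≤ Λ := by nlinarith
    have h3 : (3 : ℝ) ≤ R ^ 10 := by
      have := F.pw (c := 3) (by norm_num) (i := 0) (j := 10) (by norm_num)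
      simpa using this
    have h4 : Λ * 3 ≤ Λ * R ^ 10 := by gcongr
    linarith
  have hK1 : 1 ≤ K := by
    have := f.fZ
    omega
  have hlogK : Real.log K ≤ R := by
    refine le_trans (Real.log_le_log ?_ hKle) hlogZ
    exact_mod_cast hK1
  have hh1 := harm (Ioo (-(Z3 H M P g a : ℤ)) (Z3 H M P g a : ℤ)) ρ K
    (fun h' => if h = 0 ∧ h' = 0 then (0 : ℝ) else 1 / |(h' : ℝ) + δ|) (R ^ 10) (by positivity)
    (by
      intro h' hh'
      rw [mem_Ioo] at hh'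
      omega)
    (by
      intro h' hh' hz
      split_ifs with hc
      · positivity
      · have h2 := xi_lower hα f hh hc
        rw [← hΛdef, hxi h', ← hRdef] at h2
        have h3 : 0 < |(h' : ℝ) + δ| := lt_of_lt_of_le (by positivity) h2
        rw [div_le_iff₀ h3]
        rw [div_le_iff₀ (by positivity)] at h2
        linarith)
    (by
      intro h' hh' hz
      have h1 : |δ - (ρ : ℝ)| ≤ 1 / 2 := abs_sub_round δ
      have h2 : (((h' + ρ).natAbs : ℕ) : ℝ) = |(h' : ℝ) + ρ| := by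
        rw [← Int.cast_natCast, Int.natCast_natAbs, Int.cast_abs]
        push_cast
        rfl
      have h3 : (1 : ℝ) ≤ |(h' : ℝ) + ρ| := by
        rw [← h2]
        exact_mod_cast Int.natAbs_pos.2 hz
      split_ifs with hc
      · positivity
      · rw [h2]
        have h4 : |(h' : ℝ) + ρ| ≤ |(h' : ℝ) + δ| + |δ - ρ| := by
          have : (h' : ℝ) + ρ = ((h' : ℝ) + δ) - (δ - ρ) := by ring
          rw [this]
          exact abs_sub _ _
        rw [div_le_div_iff₀ (by linarith) (by linarith)]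
        linarith)
  have hconv : ∀ h' : ℤ, (if h = 0 ∧ h' = 0 then (0 : ℝ) else 1 / (2 * |xi N M P g a h h'|)) =
      Λ / 2 * (if h = 0 ∧ h' = 0 then (0 : ℝ) else 1 / |(h' : ℝ) + δ|) := by
    intro h'
    split_ifs with hc
    · simp
    · rw [← hxi h']
      field_simp
  simp only [hconv]
  rw [← mul_sum]
  have hfin : R ^ 10 + 4 * (1 + Real.log K) ≤ 2 * R ^ 10 := by
    have h5 : 5 * R ^ 1 ≤ R ^ 10 := F.pw (by norm_num) (by norm_num)
    rw [pow_one] at h5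
    have : (1048576 : ℝ) ≤ R := by norm_num at hRbig ⊢; linarith
    linarith
  calc Λ / 2 * ∑ h' ∈ Ioo (-(Z3 H M P g a : ℤ)) (Z3 H M P g a : ℤ),
        (if h = 0 ∧ h' = 0 then (0 : ℝ) else 1 / |(h' : ℝ) + δ|)
      ≤ Λ / 2 * (2 * R ^ 10) := by
        have := hh1.trans hfin
        gcongr
    _ = Λ * R ^ 10 := by ring


theorem E3_nonneg (N H M P g a n : ℕ) : 0 ≤ E3 N H M P g a n := by
  unfold E3
  refine sum_nonneg fun h _ => sum_nonneg fun h' _ => ?_
  split_ifs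
  · exact le_rfl
  · exact gm_nonneg (Nat.cast_nonneg _) _

theorem sumE3 (hW : ClaimW) {N A H M P g a : ℕ} (hp : Par N A H M P g a)
    (hα : AlphaGood N M P g a) (f : ParF N A H M P g a) :
    ∑ n ∈ Ioc P (2 * P), E3 N H M P g a n ≤ 3 * (P * L2 H P g a / RR g) := by
  have F := toRF hp f
  have hR := F.R1
  have hP := F.hP
  have hZ := F.hZ
  have hl2 := F.hl2
  have hΛ := F.hΛ
  have hi1 := F.i1
  have hZl2 := F.Zl2
  have hRbig : (2 : ℝ) ^ 20 ≤ (RR g : ℝ) := F.hR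
  set D : ℝ := 20 * (P * L2 H P g a * (1 / (RR g : ℝ) ^ 60)) / Z3 H M P g a + 40 * P * RR g
    with hD
  have hswap : ∑ n ∈ Ioc P (2 * P), E3 N H M P g a n =
      ∑ h ∈ Ioo (-(RR g : ℤ)) (RR g : ℤ), ∑ h' ∈ Ioo (-(Z3 H M P g a : ℤ)) (Z3 H M P g a : ℤ),
        (if h = 0 ∧ h' = 0 then (0 : ℝ) else
          ∑ n ∈ Ioc P (2 * P), gm (L2 H P g a) ((n : ℝ) * xi N M P g a h h')) := by
    unfold E3
    rw [sum_comm]
    apply sum_congr rfl
    intro h _
    rw [sum_comm]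
    apply sum_congr rfl
    intro h' _
    split_ifs with hc
    · simp
    · rfl
  rw [hswap]
  have hDnn : 0 ≤ D := by rw [hD]; positivity
  have hcardR : ((Ioo (-(RR g : ℤ)) (RR g : ℤ)).card : ℝ) ≤ 2 * RR g := by
    rw [Int.card_Ioo]
    have : ((RR g : ℤ) - (-(RR g : ℤ)) - 1).toNat ≤ 2 * RR g := by omega
    exact_mod_cast this
  have hcardZ : ((Ioo (-(Z3 H M P g a : ℤ)) (Z3 H M P g a : ℤ)).card : ℝ) ≤
      2 * Z3 H M P g a := by
    rw [Int.card_Ioo]
    have : ((Z3 H M P g a : ℤ) - (-(Z3 H M P g a : ℤ)) - 1).toNat ≤ 2 * Z3 H M P g a := by omega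
    exact_mod_cast this
  have hinner : ∀ h ∈ Ioo (-(RR g : ℤ)) (RR g : ℤ),
      ∑ h' ∈ Ioo (-(Z3 H M P g a : ℤ)) (Z3 H M P g a : ℤ),
        (if h = 0 ∧ h' = 0 then (0 : ℝ) else
          ∑ n ∈ Ioc P (2 * P), gm (L2 H P g a) ((n : ℝ) * xi N M P g a h h')) ≤
      3 ^ lam3 M g a * (RR g : ℝ) ^ 10 + 2 * Z3 H M P g a * D := by
    intro h hh
    have h1 : ∀ h' ∈ Ioo (-(Z3 H M P g a : ℤ)) (Z3 H M P g a : ℤ),
        (if h = 0 ∧ h' = 0 then (0 : ℝ) else
          ∑ n ∈ Ioc P (2 * P), gm (L2 H P g a) ((n : ℝ) * xi N M P g a h h')) ≤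
        (if h = 0 ∧ h' = 0 then (0 : ℝ) else 1 / (2 * |xi N M P g a h h'|)) + D := by
      intro h' hh'
      split_ifs with hc
      · linarith
      · exact pairE3 hW hp hα f hh hh' hc
    refine (sum_le_sum h1).trans ?_
    rw [sum_add_distrib, sum_const, nsmul_eq_mul]
    have h2 := sumInv hp hα f hh
    have h3 : ((Ioo (-(Z3 H M P g a : ℤ)) (Z3 H M P g a : ℤ)).card : ℝ) * D ≤
        2 * Z3 H M P g a * D := by gcongr
    linarith
  refine (sum_le_card_nsmul _ _ _ hinner).trans ?_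
  rw [nsmul_eq_mul]
  set R : ℝ := (RR g : ℝ) with hRdef
  set Λ : ℝ := (3 : ℝ) ^ lam3 M g a with hΛdef
  set Z : ℝ := (Z3 H M P g a : ℝ) with hZdef
  set l2 : ℝ := (L2 H P g a : ℝ) with hl2def
  have hRpos : 0 < R := by linarith
  have hZpos : 0 < Z := by linarith
  have hnum : (1048576 : ℝ) ≤ R := by norm_num at hRbig ⊢; linarith
  have hZD : 2 * Z * D = 40 * (P * l2 * (1 / R ^ 60)) + 80 * Z * P * R := by
    rw [hD]
    field_simp
    ring
  calc ((Ioo (-(RR g : ℤ)) (RR g : ℤ)).card : ℝ) * (Λ * R ^ 10 + 2 * Z * D)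
      ≤ (2 * R) * (Λ * R ^ 10 + 2 * Z * D) := by gcongr
    _ = 2 * Λ * R ^ 11 + 80 * R * (P * l2 * (1 / R ^ 60)) + 160 * (Z * R ^ 2) * P := by
        rw [hZD]; ring
    _ ≤ P * l2 / R + P * l2 / R + P * l2 / R := by
        have t1 : 2 * Λ * R ^ 11 ≤ P * l2 / R := by
          rw [le_div_iff₀ hRpos]
          calc 2 * Λ * R ^ 11 * R = 2 * Λ * R ^ 12 := by ring
            _ ≤ P * l2 := hi1
        have t2 : 80 * R * (P * l2 * (1 / R ^ 60)) ≤ P * l2 / R := by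
          rw [le_div_iff₀ hRpos]
          have h5 : 80 * R ^ 2 ≤ R ^ 60 := F.pw (by norm_num) (by norm_num)
          have h6 : 80 * R ^ 2 * (1 / R ^ 60) ≤ 1 := by
            rw [mul_one_div, div_le_one (by positivity)]
            exact h5
          have hPl : 0 ≤ P * l2 := by positivity
          calc 80 * R * (P * l2 * (1 / R ^ 60)) * R = P * l2 * (80 * R ^ 2 * (1 / R ^ 60)) := by
                ring
            _ ≤ P * l2 * 1 := by gcongr
            _ = P * l2 := mul_one _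
        have t3 : 160 * (Z * R ^ 2) * P ≤ P * l2 / R := by
          rw [le_div_iff₀ hRpos]
          have h5 : 160 * R ^ 3 ≤ R ^ 50 := F.pw (by norm_num) (by norm_num)
          calc 160 * (Z * R ^ 2) * P * R = P * (Z * (160 * R ^ 3)) := by ring
            _ ≤ P * (Z * R ^ 50) := by gcongr
            _ ≤ P * l2 := by gcongr
        linarith
    _ = 3 * (P * l2 / R) := by ring

theorem badE3 (hW : ClaimW) {N A H M P g a : ℕ} (hp : Par N A H M P g a)
    (hα : AlphaGood N M P g a) (f : ParF N A H M P g a) :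
    (((Ioc P (2 * P)).filter (fun n => ¬ E3 N H M P g a n ≤ L2 H P g a)).card : ℝ) ≤
      3 * (P / RR g) := by
  have F := toRF hp f
  have hR := F.R1
  have hl2 := F.hl2
  have h1 := markov (Ioc P (2 * P)) (fun n => E3 N H M P g a n)
    (fun n _ => E3_nonneg N H M P g a n) (L2 H P g a : ℝ)
  have h3 := h1.trans (sumE3 hW hp hα f)
  have c0 : (0 : ℝ) < (L2 H P g a : ℝ) := by linarith
  refine le_of_mul_le_mul_right ?_ c0
  refine h3.trans (le_of_eq ?_)
  ring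

/-! ### equidistribution modulo `2^λ` -/

theorem badEq (hWc : ClaimWcount) {N A H M P g a : ℕ} (hp : Par N A H M P g a)
    (f : ParF N A H M P g a) :
    (((Ioc P (2 * P)).filter (fun n : ℕ => ¬ ∀ w : ℕ, 1 ≤ w →
      w ≤ 2 ^ (5 * ell M g a - kap H P g) * RR g ^ 2 →
      1 / ((Lp H P g a / RR g : ℕ) : ℝ) < nd ((w : ℝ) * n / 2 ^ (5 * ell M g a)))).card : ℝ) ≤
      P / RR g := by
  classical
  have F := toRF hp f
  have hR := F.R1
  have hP := F.hP
  have hK := F.hK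
  have hL1 := F.hL1
  have hX0 := F.hX0
  have hRa1 := F.hRa1
  have hfX0 := F.fX0
  have hKbig := F.Kbig
  have hL1PK := F.L1PK
  have hK2 := F.K2
  set W : ℕ := 2 ^ (5 * ell M g a - kap H P g) * RR g ^ 2 with hWdef
  set L1 : ℝ := (2 : ℝ) ^ (5 * ell M g a) with hL1def
  set K : ℝ := (2 : ℝ) ^ kap H P g with hKdef
  set R : ℝ := (RR g : ℝ) with hRdef
  set X0 : ℝ := ((Lp H P g a / RR g : ℕ) : ℝ) with hX0def
  have hRpos : 0 < R := by linarith
  have hWK : (W : ℝ) * K = L1 * R ^ 2 := by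
    rw [hWdef, hKdef, hL1def, hRdef]
    push_cast
    have : (2 : ℝ) ^ (5 * ell M g a) = 2 ^ (5 * ell M g a - kap H P g) * 2 ^ kap H P g := by
      rw [← pow_add]
      congr 1
      have := f.fkl
      omega
    rw [this]
    ring
  have hWL1 : (W : ℝ) / L1 = R ^ 2 / K := by
    rw [div_eq_div_iff hL1.ne' hK.ne', hWK]
    ring
  have hX0inv : 1 / X0 = R ^ 2 * R ^ a / K := by
    rw [← hfX0]
    have : (0 : ℝ) < X0 := by linarith
    have h2 : (0 : ℝ) < R ^ 2 * R ^ a := by positivity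
    field_simp
  have hsub : ((Ioc P (2 * P)).filter (fun n : ℕ => ¬ ∀ w : ℕ, 1 ≤ w → w ≤ W →
      1 / X0 < nd ((w : ℝ) * n / L1))) ⊆
      (Icc 1 W).biUnion (fun w => (Ioc P (2 * P)).filter
        (fun n : ℕ => nd ((n : ℝ) * ((w : ℝ) / L1)) ≤ 1 / X0)) := by
    intro n hn
    rw [mem_filter] at hn
    obtain ⟨hn1, hn2⟩ := hn
    push Not at hn2
    obtain ⟨w, hw1, hw2, hw3⟩ := hn2
    rw [mem_biUnion]
    refine ⟨w, mem_Icc.2 ⟨hw1, hw2⟩, ?_⟩
    rw [mem_filter]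
    refine ⟨hn1, ?_⟩
    have : (n : ℝ) * ((w : ℝ) / L1) = (w : ℝ) * n / L1 := by ring
    rw [this]
    exact hw3
  have hcard1 : (((Ioc P (2 * P)).filter (fun n : ℕ => ¬ ∀ w : ℕ, 1 ≤ w → w ≤ W →
      1 / X0 < nd ((w : ℝ) * n / L1))).card : ℝ) ≤
      ∑ w ∈ Icc 1 W, (((Ioc P (2 * P)).filter
        (fun n : ℕ => nd ((n : ℝ) * ((w : ℝ) / L1)) ≤ 1 / X0)).card : ℝ) := by
    have h1 := (card_le_card hsub).trans card_biUnion_le
    exact_mod_cast h1
  refine hcard1.trans ?_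
  have hKinv : R ^ 2 / K ≤ 1 / 2 := by
    rw [div_le_div_iff₀ hK two_pos]
    linarith
  have hone : ∀ w ∈ Icc 1 W, (((Ioc P (2 * P)).filter
        (fun n : ℕ => nd ((n : ℝ) * ((w : ℝ) / L1)) ≤ 1 / X0)).card : ℝ) ≤
      18 * (P * (R ^ 2 * R ^ a / K) + P * (R ^ 2 / K)) := by
    intro w hw
    rw [mem_Icc] at hw
    have hw1 : (1 : ℝ) ≤ w := by exact_mod_cast hw.1
    have hw2 : (w : ℝ) ≤ W := by exact_mod_cast hw.2
    have hξ0 : 0 < (w : ℝ) / L1 := by positivity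
    have hξle : (w : ℝ) / L1 ≤ R ^ 2 / K := by
      rw [← hWL1]
      gcongr
    have hη : 1 / X0 < P * ((w : ℝ) / L1) := by
      rw [hX0inv, ← mul_div_assoc, div_lt_div_iff₀ hK hL1]
      calc R ^ 2 * R ^ a * L1 = L1 * (R ^ 2 * R ^ a) := by ring
        _ < P * K := hL1PK
        _ = P * 1 * K := by ring
        _ ≤ P * w * K := by gcongr
    have h1 := hWc P ((w : ℝ) / L1) (1 / X0) hp.hP hξ0 (hξle.trans hKinv) (by positivity) hη
    refine h1.trans ?_
    rw [hX0inv]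
    gcongr
  refine (sum_le_card_nsmul _ _ _ hone).trans ?_
  rw [nsmul_eq_mul, Nat.card_Icc, Nat.add_sub_cancel]
  have hW' : (W : ℝ) = L1 * R ^ 2 / K := by
    rw [eq_div_iff hK.ne', hWK]
  rw [hW']
  rw [le_div_iff₀ hRpos]
  have hR2 : R ^ 2 ≤ R ^ 2 * R ^ a := by
    have : (1 : ℝ) ≤ R ^ a := hRa1
    nlinarith [pow_pos hRpos 2]
  calc L1 * R ^ 2 / K * (18 * (P * (R ^ 2 * R ^ a / K) + P * (R ^ 2 / K))) * R
      ≤ L1 * R ^ 2 / K * (18 * (P * (R ^ 2 * R ^ a / K) + P * (R ^ 2 * R ^ a / K))) * R := by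
        gcongr
    _ = P * (36 * (L1 * R ^ 5 * R ^ a) / K ^ 2) := by
        field_simp
        ring
    _ ≤ P * 1 := by
        gcongr
        rw [div_le_one (by positivity)]
        exact hK2
    _ = P := mul_one _

theorem main (hF : ClaimParF) (hW : ClaimW) (hWc : ClaimWcount) : ClaimBadN := by
  classical
  intro N A H M P g a hp hα
  have f := hF N A H M P g a hp
  have F := toRF hp f
  have hR := F.R1
  have hRpos : (0 : ℝ) < RR g := by linarith
  have hP := F.hP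
  refine ⟨(Ioc P (2 * P)).filter (fun n => ¬ Good N H M P g a n), filter_subset _ _, ?_, ?_⟩
  · intro n hn hnB
    by_contra hng
    exact hnB (mem_filter.2 ⟨hn, hng⟩)
  · have hb1 := badE1 hW hp f (2 ^ kap H P g) (by positivity)
      (by
        have h1 := F.fkap2
        push_cast
        have h2 : (0 : ℝ) < 2 ^ kap H P g * (RR g : ℝ) ^ 6 := by positivity
        linarith)
      (by
        have h1 := F.fkap1
        push_cast
        exact h1)
    have hb2 := badE1 hW hp f (3 ^ kap3 H P g) (by positivity)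
      (by
        have h1 := F.fkap32
        push_cast
        exact h1)
      (by
        have h1 := F.fkap31
        push_cast
        exact h1)
    have hb3 := badE3 hW hp hα f
    have hb4 := badEq hWc hp f
    have hsub : (Ioc P (2 * P)).filter (fun n => ¬ Good N H M P g a n) ⊆
        (((Ioc P (2 * P)).filter (fun n => ¬ E1 N P g a (2 ^ kap H P g) n ≤ (RR g : ℝ) ^ 4)) ∪
        ((Ioc P (2 * P)).filter (fun n => ¬ E1 N P g a (3 ^ kap3 H P g) n ≤ (RR g : ℝ) ^ 4))) ∪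
        (((Ioc P (2 * P)).filter (fun n => ¬ E3 N H M P g a n ≤ L2 H P g a)) ∪
        ((Ioc P (2 * P)).filter (fun n : ℕ => ¬ ∀ w : ℕ, 1 ≤ w →
          w ≤ 2 ^ (5 * ell M g a - kap H P g) * RR g ^ 2 →
          1 / ((Lp H P g a / RR g : ℕ) : ℝ) < nd ((w : ℝ) * n / 2 ^ (5 * ell M g a))))) := by
      intro n hn
      rw [mem_filter] at hn
      simp only [mem_union, mem_filter]
      by_contra hcon
      push Not at hcon
      apply hn.2
      obtain ⟨⟨h1, h2⟩, h3, h4⟩ := hcon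
      exact ⟨h1 hn.1, h2 hn.1, h3 hn.1, h4 hn.1⟩
    have hc := (card_le_card hsub).trans ((card_union_le _ _).trans
      (add_le_add (card_union_le _ _) (card_union_le _ _)))
    have hc' : (((Ioc P (2 * P)).filter (fun n => ¬ Good N H M P g a n)).card : ℝ) ≤
        (((Ioc P (2 * P)).filter (fun n => ¬ E1 N P g a (2 ^ kap H P g) n ≤
          (RR g : ℝ) ^ 4)).card +
        ((Ioc P (2 * P)).filter (fun n => ¬ E1 N P g a (3 ^ kap3 H P g) n ≤
          (RR g : ℝ) ^ 4)).card) +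
        (((Ioc P (2 * P)).filter (fun n => ¬ E3 N H M P g a n ≤ L2 H P g a)).card +
        ((Ioc P (2 * P)).filter (fun n : ℕ => ¬ ∀ w : ℕ, 1 ≤ w →
          w ≤ 2 ^ (5 * ell M g a - kap H P g) * RR g ^ 2 →
          1 / ((Lp H P g a / RR g : ℕ) : ℝ) < nd ((w : ℝ) * n / 2 ^ (5 * ell M g a)))).card) := by
      exact_mod_cast hc
    have hfin : 6 * ((P : ℝ) / RR g) ≤ 20 * P / RR g := by
      rw [mul_div_assoc]
      have : (0 : ℝ) ≤ (P : ℝ) / RR g := by positivity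
      linarith
    linarith

end BadN

theorem claimBadN (h0 : ClaimParF) (h1 : ClaimW) (h2 : ClaimWcount) : ClaimBadN :=
  BadN.main h0 h1 h2

end Pool.Agent.Work.MP_8e4d29_nt

end

section

/-!
MP_8e4d29_nt, item Q3: decay of the characteristic function.
-/

namespace Pool.Agent.Work.MP_8e4d29_nt

open Finset
open Pool.Agent.Work.MP_122e00_nt (ee norm_ee ee_add ee_neg ee_one_period ee_nat_mul)

namespace ChA

lemma cos_le (θ : ℝ) (h : |θ| ≤ 1 / 2) : |Real.cos (Real.pi * θ)| ≤ Real.exp (-(2 * θ ^ 2)) := by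
  have hpi := Real.pi_pos
  have e0 : Real.cos (Real.pi * θ) = Real.cos (Real.pi * |θ|) := by
    rcases abs_cases θ with ⟨h1, _⟩ | ⟨h1, _⟩
    · rw [h1]
    · rw [h1, mul_neg, Real.cos_neg]
  have hx0 : 0 ≤ |θ| := abs_nonneg θ
  have hpos : 0 ≤ Real.cos (Real.pi * |θ|) := by
    apply Real.cos_nonneg_of_neg_pi_div_two_le_of_le
    · have : 0 ≤ Real.pi * |θ| := by positivity
      linarith
    · nlinarith
  have hs : |θ| ≤ Real.sin (Real.pi * |θ| / 2) := by
    have h3 := Real.mul_le_sin (x := Real.pi * |θ| / 2) (by positivity) (by nlinarith)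
    have e : 2 / Real.pi * (Real.pi * |θ| / 2) = |θ| := by field_simp
    rwa [e] at h3
  have e1 : Real.cos (Real.pi * |θ|) = 1 - 2 * Real.sin (Real.pi * |θ| / 2) ^ 2 := by
    have h4 := Real.cos_sq' (Real.pi * |θ| / 2)
    have h5 := Real.cos_two_mul (Real.pi * |θ| / 2)
    have e2 : 2 * (Real.pi * |θ| / 2) = Real.pi * |θ| := by ring
    rw [e2] at h5
    rw [h5, h4]
    ring
  rw [e0, abs_of_nonneg hpos, e1]
  have h6 : θ ^ 2 ≤ Real.sin (Real.pi * |θ| / 2) ^ 2 := by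
    rw [← sq_abs θ]
    exact pow_le_pow_left₀ hx0 hs 2
  have h7 := Real.add_one_le_exp (-(2 * θ ^ 2))
  linarith

end ChA

open ChA in
theorem claimChA : ClaimChA := by
  intro n2 n3 θ hθ
  unfold chA
  rw [norm_mul, norm_pow, norm_pow, L12.norm_half]
  have h1 : ‖(1 + ee (-θ) + ee (-(2 * θ))) / 3‖ ≤ 1 := by
    rw [norm_div]
    have h2 : ‖1 + ee (-θ) + ee (-(2 * θ))‖ ≤ 3 := by
      refine (norm_add_le _ _).trans ?_
      have := norm_add_le (1 : ℂ) (ee (-θ))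
      rw [norm_ee] at *
      rw [norm_one] at this
      linarith
    have h3 : ‖(3 : ℂ)‖ = 3 := by simp
    rw [h3, div_le_one (by norm_num)]
    exact h2
  have h4 : |Real.cos (Real.pi * θ)| ^ n2 ≤ Real.exp (-(2 * θ ^ 2 * n2)) := by
    have := pow_le_pow_left₀ (abs_nonneg _) (cos_le θ hθ) n2
    rw [← Real.exp_nat_mul] at this
    refine this.trans (le_of_eq ?_)
    congr 1
    ring
  calc |Real.cos (Real.pi * θ)| ^ n2 * ‖(1 + ee (-θ) + ee (-(2 * θ))) / 3‖ ^ n3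
      ≤ Real.exp (-(2 * θ ^ 2 * n2)) * 1 :=
        mul_le_mul h4 (pow_le_one₀ (norm_nonneg _) h1) (by positivity) (Real.exp_pos _).le
    _ = _ := mul_one _

end Pool.Agent.Work.MP_8e4d29_nt

end

section

/-!
MP_8e4d29_nt, item D14, first part: one six-tuple.
-/

namespace Pool.Agent.Work.MP_8e4d29_nt

open Finset
open Pool.Agent.Work.MP_122e00_nt (ee norm_ee)

namespace Core

theorem norm_ff (θ : ℝ) (n : ℕ) : ‖ff θ n‖ = 1 := norm_ee _

theorem norm_phi_le (θ : ℝ) (A H M n r m : ℕ) : ‖phi θ A H M n r m‖ ≤ 1 := by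
  unfold phi
  split_ifs
  · rw [norm_mul, RCLike.norm_conj, norm_ff, norm_ff]
    norm_num
  · simp

theorem supp_of_ne {θ : ℝ} {A H M n r m : ℕ} (h : phi θ A H M n r m ≠ 0) : Msupp A H M n r m := by
  by_contra hc
  exact h (by unfold phi; rw [if_neg hc])

theorem Msupp_range {A H M P n r m : ℕ} (hP : 1 ≤ P) (hn : P < n) (h : Msupp A H M n r m) :
    A / n + 1 ≤ m ∧ m < A / n + 1 + Lm H P := by
  obtain ⟨_, _, h3, h4⟩ := h
  have hn0 : 0 < n := by omega
  constructor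
  · exact (Nat.div_lt_iff_lt_mul hn0).mpr h3
  · have h5 : m * n ≤ A + H := le_trans (Nat.mul_le_mul_left m (Nat.le_add_right n r)) h4
    have h6 : A < (A / n + 1) * n := by
      rw [← Nat.div_lt_iff_lt_mul hn0]
      exact Nat.lt_succ_self _
    have h7 : H < (H / n + 1) * n := by
      rw [← Nat.div_lt_iff_lt_mul hn0]
      exact Nat.lt_succ_self _
    have h8 : H / n ≤ H / P := Nat.div_le_div_left hn.le (by omega)
    have h9 : m * n < (A / n + H / n + 2) * n := by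
      calc m * n ≤ A + H := h5
        _ < (A / n + 1) * n + (H / n + 1) * n := Nat.add_lt_add h6 h7
        _ = (A / n + H / n + 2) * n := by ring
    have h10 := Nat.lt_of_mul_lt_mul_right h9
    unfold Lm
    omega

theorem norm_cub3_le {φ : ℕ → ℂ} (hφ : ∀ m, ‖φ m‖ ≤ 1) (h1 h2 h3 m : ℕ) :
    ‖cub3 φ h1 h2 h3 m‖ ≤ 1 := by
  unfold cub3
  simp only [norm_mul, RCLike.norm_conj]
  have hp : ∀ m, 0 ≤ ‖φ m‖ := fun m => norm_nonneg _
  refine mul_le_one₀ (mul_le_one₀ (mul_le_one₀ (mul_le_one₀ (hφ _) (hp _) (hφ _)) (hp _) (hφ _))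
    (hp _) (hφ _)) (by positivity)
    (mul_le_one₀ (mul_le_one₀ (mul_le_one₀ (hφ _) (hp _) (hφ _)) (hp _) (hφ _)) (hp _) (hφ _))

theorem cub3_ne {φ : ℕ → ℂ} {h1 h2 h3 m : ℕ} (h : cub3 φ h1 h2 h3 m ≠ 0) :
    φ m ≠ 0 ∧ φ (m + h1 + h2 + h3) ≠ 0 := by
  constructor
  · intro h0
    apply h
    unfold cub3
    simp [h0]
  · intro h0
    apply h
    unfold cub3
    simp [h0]

theorem Msupp_mid {A H M n r m m' hs : ℕ} (h1 : Msupp A H M n r m)
    (h2 : Msupp A H M n r (m + hs)) (h3 : m ≤ m') (h4 : m' ≤ m + hs) : Msupp A H M n r m' := by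
  obtain ⟨a1, a2, a3, a4⟩ := h1
  obtain ⟨b1, b2, b3, b4⟩ := h2
  refine ⟨by omega, by omega, ?_, ?_⟩
  · exact lt_of_lt_of_le a3 (Nat.mul_le_mul_right n h3)
  · exact le_trans (Nat.mul_le_mul_right (n + r) h4) b4

/-- lower end of the interval -/
def uu (A M n : ℕ) : ℕ := max (M + 1) (A / n + 1)

/-- upper end of the interval -/
def vv (A H M n r hs : ℕ) : ℕ :=
  max (uu A M n) (min (2 * M + 1 - hs) ((A + H) / (n + r) + 1 - hs))

theorem uu_le_vv (A H M n r hs : ℕ) : uu A M n ≤ vv A H M n r hs := le_max_left _ _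

theorem mem_uv {A H M n r hs m : ℕ} (hn : 0 < n) :
    m ∈ Ico (uu A M n) (vv A H M n r hs) ↔ Msupp A H M n r m ∧ Msupp A H M n r (m + hs) := by
  have e1 : A / n < m ↔ A < m * n := Nat.div_lt_iff_lt_mul hn
  have e2 : m + hs ≤ (A + H) / (n + r) ↔ (m + hs) * (n + r) ≤ A + H :=
    Nat.le_div_iff_mul_le (by omega)
  have e3 : m * n ≤ (m + hs) * n := Nat.mul_le_mul_right n (Nat.le_add_right m hs)
  have e4 : m * (n + r) ≤ (m + hs) * (n + r) :=
    Nat.mul_le_mul_right (n + r) (Nat.le_add_right m hs)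
  rw [mem_Ico]
  constructor
  · rintro ⟨h1, h2⟩
    have h3 : m < min (2 * M + 1 - hs) ((A + H) / (n + r) + 1 - hs) := by
      unfold vv at h2
      rcases lt_max_iff.mp h2 with h | h
      · omega
      · exact h
    unfold uu at h1
    have a1 : M + 1 ≤ m := le_trans (le_max_left _ _) h1
    have a2 : A / n + 1 ≤ m := le_trans (le_max_right _ _) h1
    have a3 := lt_min_iff.mp h3
    have a4 := e1.mp a2
    have a5 : m + hs ≤ (A + H) / (n + r) := by omega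
    have a6 := e2.mp a5
    exact ⟨⟨by omega, by omega, a4, by omega⟩, ⟨by omega, by omega, by omega, a6⟩⟩
  · rintro ⟨⟨a1, a2, a3, a4⟩, ⟨b1, b2, b3, b4⟩⟩
    have c1 := e1.mpr a3
    have c2 := e2.mpr b4
    constructor
    · unfold uu
      exact max_le a1 c1
    · unfold vv
      refine lt_of_lt_of_le ?_ (le_max_right _ _)
      exact lt_min (by omega) (by omega)

theorem vv_le {A H M P n r hs : ℕ} (hP : 1 ≤ P) (hn : P < n) :
    vv A H M n r hs ≤ uu A M n + Lm H P := by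
  have hn0 : 0 < n := by omega
  unfold vv
  refine max_le (Nat.le_add_right _ _) (le_trans (min_le_right _ _) ?_)
  have h1 : (A + H) / (n + r) ≤ (A + H) / n := Nat.div_le_div_left (Nat.le_add_right n r) hn0
  have h6 : A < (A / n + 1) * n := by
    rw [← Nat.div_lt_iff_lt_mul hn0]
    exact Nat.lt_succ_self _
  have h7 : H < (H / n + 1) * n := by
    rw [← Nat.div_lt_iff_lt_mul hn0]
    exact Nat.lt_succ_self _
  have h8 : H / n ≤ H / P := Nat.div_le_div_left hn.le (by omega)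
  have h9 : (A + H) / n < A / n + H / n + 2 := by
    rw [Nat.div_lt_iff_lt_mul hn0]
    calc A + H < (A / n + 1) * n + (H / n + 1) * n := Nat.add_lt_add h6 h7
        _ = (A / n + H / n + 2) * n := by ring
  have h10 : A / n + 1 ≤ uu A M n := le_max_right _ _
  unfold Lm
  generalize H / P = x at *
  generalize H / n = y at *
  generalize A / n = z at *
  generalize (A + H) / (n + r) = w at *
  generalize (A + H) / n = w' at *
  omega

/-- the sum over the long interval is the sum over `[u, v)` -/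
theorem sum_uv {θ : ℝ} {A H M P n r h1 h2 h3 : ℕ} (hP : 1 ≤ P) (hn : P < n) :
    ∑ m ∈ Ico (A / n + 1) (A / n + 1 + Lm H P), cub3 (phi θ A H M n r) h1 h2 h3 m =
      ∑ m ∈ Ico (uu A M n) (vv A H M n r (h1 + h2 + h3)), cub3 (phi θ A H M n r) h1 h2 h3 m := by
  symm
  apply Finset.sum_subset
  · intro m hm
    have h := (mem_uv (by omega)).mp hm
    have h4 := Msupp_range hP hn h.1
    exact mem_Ico.mpr h4
  · intro m _ hm
    by_contra h
    have h4 := cub3_ne h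
    apply hm
    rw [mem_uv (by omega)]
    refine ⟨supp_of_ne h4.1, ?_⟩
    have h5 := supp_of_ne h4.2
    have e : m + h1 + h2 + h3 = m + (h1 + h2 + h3) := by ring
    rwa [e] at h5

theorem kth_nonneg (θ : ℝ) : 0 ≤ kth θ := by
  unfold kth
  have := abs_nonneg (Real.cos (Real.pi * θ))
  linarith

theorem kth_le_one (θ : ℝ) : kth θ ≤ 1 := by
  unfold kth
  have := Real.abs_cos_le_one (Real.pi * θ)
  linarith

theorem kth_neg (θ : ℝ) : kth (-θ) = kth θ := by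
  unfold kth
  rw [mul_neg, Real.cos_neg]

/-- the cell of `m₀ r` is one of two cells -/
theorem cell_two {i g n r A m0 L : ℕ} (h1 : A / n < m0) (h2 : m0 ≤ A / n + L)
    (h3 : L * r < 2 ^ (5 * i)) :
    ∃ δ ∈ range 2, cell i g (m0 * r) = cell i g (A / n * r + δ * 2 ^ (5 * i)) := by
  obtain ⟨e, rfl⟩ : ∃ e, m0 = A / n + e := ⟨m0 - A / n, by omega⟩
  have he : e * r < 2 ^ (5 * i) := lt_of_le_of_lt (Nat.mul_le_mul_right r (by omega)) h3
  have hD : 0 < 2 ^ (5 * i) := by positivity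
  set q := A / n * r with hq
  set D := 2 ^ (5 * i) with hDd
  have e0 : (A / n + e) * r = q + e * r := by rw [hq]; ring
  have e1 : (q + e * r) / D = q / D + (e * r) / D
      + if D ≤ q % D + (e * r) % D then 1 else 0 := Nat.add_div hD
  rw [Nat.div_eq_of_lt he] at e1
  by_cases hc : D ≤ q % D + (e * r) % D
  · refine ⟨1, by simp, ?_⟩
    unfold cell
    rw [if_pos hc] at e1
    rw [← hDd, e0, e1, one_mul, Nat.add_div_right q hD]
  · refine ⟨0, by simp, ?_⟩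
    unfold cell
    rw [if_neg hc] at e1
    rw [← hDd, e0, e1, zero_mul]
    simp

/-- the exceptional `m` -/
noncomputable def EE (A H M P g a n r h1 h2 h3 : ℕ) : Finset ℕ :=
  (Ico (uu A M n) (vv A H M n r (h1 + h2 + h3))).filter
    (fun m => ∃ ε, Exc H M P g a (pt h1 h2 h3 n r m ε))

theorem fin2_le (e : Fin 2) : (e : ℕ) ≤ 1 := by omega

theorem card_EE_le {A H M P g a n r h1 h2 h3 : ℕ} (hn : 0 < n) :
    (EE A H M P g a n r h1 h2 h3).card ≤
      16 * (exn A H M P g a n + exn A H M P g a (n + r)) := by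
  classical
  have hsub : EE A H M P g a n r h1 h2 h3 ⊆
      (univ : Finset (Fin 4 → Fin 2)).biUnion (fun ε =>
        (Ico (uu A M n) (vv A H M n r (h1 + h2 + h3))).filter
          (fun m => Exc H M P g a (pt h1 h2 h3 n r m ε))) := by
    intro m hm
    unfold EE at hm
    rw [mem_filter] at hm
    obtain ⟨hm1, ε, hε⟩ := hm
    rw [mem_biUnion]
    exact ⟨ε, mem_univ _, mem_filter.mpr ⟨hm1, hε⟩⟩
  refine (card_le_card hsub).trans (card_biUnion_le.trans ?_)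
  have hone : ∀ ε ∈ (univ : Finset (Fin 4 → Fin 2)),
      ((Ico (uu A M n) (vv A H M n r (h1 + h2 + h3))).filter
          (fun m => Exc H M P g a (pt h1 h2 h3 n r m ε))).card ≤
        exn A H M P g a n + exn A H M P g a (n + r) := by
    intro ε _
    have hinj : ((Ico (uu A M n) (vv A H M n r (h1 + h2 + h3))).filter
          (fun m => Exc H M P g a (pt h1 h2 h3 n r m ε))).card ≤
        exn A H M P g a (n + ε 0 * r) := by
      unfold exn
      apply card_le_card_of_injOn (fun m => m + ε 1 * h1 + ε 2 * h2 + ε 3 * h3)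
      · intro m hm
        have hm' := mem_filter.mp hm
        have hs := (mem_uv hn).mp hm'.1
        have a1 := Nat.mul_le_mul_right h1 (fin2_le (ε 1))
        have a2 := Nat.mul_le_mul_right h2 (fin2_le (ε 2))
        have a3 := Nat.mul_le_mul_right h3 (fin2_le (ε 3))
        have a0 := Nat.mul_le_mul_right r (fin2_le (ε 0))
        have hmid := Msupp_mid (m' := m + ε 1 * h1 + ε 2 * h2 + ε 3 * h3) hs.1 hs.2
          (by omega) (by omega)
        obtain ⟨b1, b2, b3, b4⟩ := hmid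
        have c1 : (m + ε 1 * h1 + ε 2 * h2 + ε 3 * h3) * n ≤
            (m + ε 1 * h1 + ε 2 * h2 + ε 3 * h3) * (n + ε 0 * r) :=
          Nat.mul_le_mul_left _ (Nat.le_add_right _ _)
        have c2 : (m + ε 1 * h1 + ε 2 * h2 + ε 3 * h3) * (n + ε 0 * r) ≤
            (m + ε 1 * h1 + ε 2 * h2 + ε 3 * h3) * (n + r) :=
          Nat.mul_le_mul_left _ (by omega)
        simp only [coe_filter, Set.mem_ofPred_eq, mem_Ioc]
        refine ⟨⟨b1, b2⟩, by omega, by omega, ?_⟩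
        have := hm'.2
        unfold pt at this
        exact this
      · intro x _ y _ hxy
        simp only at hxy
        omega
    refine hinj.trans ?_
    rcases Nat.le_one_iff_eq_zero_or_eq_one.mp (fin2_le (ε 0)) with h | h
    · rw [h, zero_mul, add_zero]
      exact Nat.le_add_right _ _
    · rw [h, one_mul]
      exact Nat.le_add_left _ _
  refine (sum_le_card_nsmul _ _ _ hone).trans ?_
  simp

end Core

end Pool.Agent.Work.MP_8e4d29_nt

end

section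

/-!
MP_8e4d29_nt, item D5: the cube average over binary digits, by a transfer operator argument
(induction over groups of five bits, from the lowest group upwards).
-/

namespace Pool.Agent.Work.MP_8e4d29_nt

open Finset
open Pool.Agent.Work.MP_122e00_nt (ee norm_ee ee_add ee_neg)

namespace Cube

lemma sum_range_mul_eq {E : Type*} [AddCommMonoid E] (f : ℕ → E) (m : ℕ) : ∀ n : ℕ,
    ∑ x ∈ range (n * m), f x = ∑ u ∈ range m, ∑ x ∈ range n, f (u + m * x) := by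
  intro n
  induction n with
  | zero => simp
  | succ n ih =>
    rw [Nat.succ_mul, Finset.sum_range_add, ih, ← Finset.sum_add_distrib]
    apply Finset.sum_congr rfl
    intro u _
    rw [Finset.sum_range_succ]
    congr 2
    ring

lemma ds_split (k l y : ℕ) :
    ds 2 k (5 * (l + 1)) y = ds 2 k 5 y + ds 2 (k - 5) (5 * l) (y / 32) := by
  rcases le_or_gt k 5 with h | h
  · rw [ds_add 2 h (by omega : 5 ≤ 5 * (l + 1)) y, ds_shift 2 5 (5 * (l + 1)) y]
    have e1 : k - 5 = 0 := by omega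
    have e2 : 5 * (l + 1) - 5 = 5 * l := by omega
    rw [e1, e2]
    norm_num
  · have e0 : ds 2 k 5 y = 0 := by
      unfold ds
      rw [Finset.Ico_eq_empty (by omega), Finset.sum_empty]
    rw [e0, zero_add, ds_shift 2 k, ds_shift 2 (k - 5)]
    have e2 : 5 * (l + 1) - k = 5 * l - (k - 5) := by omega
    have e3 : y / 32 / 2 ^ (k - 5) = y / 2 ^ k := by
      rw [Nat.div_div_eq_div_mul]
      congr 1
      have : (2 : ℕ) ^ k = 2 ^ 5 * 2 ^ (k - 5) := by rw [← pow_add]; congr 1; omega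
      rw [this]
      norm_num
    rw [e2, e3]

/-- the alternating sum over the lowest group -/
noncomputable def low (k : ℕ) (y : (Fin 4 → Fin 2) → ℕ) : ℝ :=
  ∑ ε : Fin 4 → Fin 2, (-1 : ℝ) ^ wt ε * (ds 2 k 5 (y ε) : ℝ)

lemma alt_split (k l : ℕ) (B c : (Fin 4 → Fin 2) → ℕ) (u x : ℕ) :
    alt k (l + 1) (fun ε => u + 32 * x + B ε + c ε) =
      low k (fun ε => u + B ε % 32 + c ε) +
        alt (k - 5) l (fun ε => x + B ε / 32 + (u + B ε % 32 + c ε) / 32) := by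
  unfold alt low
  rw [← Finset.sum_add_distrib]
  apply Finset.sum_congr rfl
  intro ε _
  rw [ds_split k l]
  have e1 : (u + 32 * x + B ε + c ε) / 32 = x + B ε / 32 + (u + B ε % 32 + c ε) / 32 := by
    omega
  have e2 : ds 2 k 5 (u + 32 * x + B ε + c ε) = ds 2 k 5 (u + B ε % 32 + c ε) := by
    apply ds_congr_mod
    have : (2 : ℕ) ^ 5 = 32 := by norm_num
    rw [this]
    omega
  rw [e1, e2]
  push_cast
  ring

lemma ds_diff (w c : ℕ) (hw : w ≤ 4) (hc : c ≤ 1) :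
    (ds 2 0 5 (8 + 2 * w + c) : ℤ) - ds 2 0 5 (0 + 2 * w + c) = if w ≤ 3 then 1 else 0 := by
  interval_cases w <;> interval_cases c <;> decide

lemma wt_le (ε : Fin 4 → Fin 2) : wt ε ≤ 4 := by
  unfold wt
  calc ∑ i, (ε i : ℕ) ≤ ∑ i : Fin 4, 1 := Finset.sum_le_sum (fun i _ => by omega)
    _ = 4 := by simp

lemma sum_sign : ∑ ε : Fin 4 → Fin 2, (-1 : ℤ) ^ wt ε * (if wt ε ≤ 3 then 1 else 0) = -1 := by
  unfold wt
  decide

lemma low_diff (c : (Fin 4 → Fin 2) → ℕ) (hc : ∀ ε, c ε ≤ 1) :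
    low 0 (fun ε => 8 + 2 * wt ε + c ε) = low 0 (fun ε => 0 + 2 * wt ε + c ε) - 1 := by
  have h : low 0 (fun ε => 8 + 2 * wt ε + c ε) - low 0 (fun ε => 0 + 2 * wt ε + c ε) = -1 := by
    unfold low
    rw [← Finset.sum_sub_distrib]
    have h1 : ∀ ε : Fin 4 → Fin 2, (-1 : ℝ) ^ wt ε * (ds 2 0 5 (8 + 2 * wt ε + c ε) : ℝ)
        - (-1 : ℝ) ^ wt ε * (ds 2 0 5 (0 + 2 * wt ε + c ε) : ℝ)
        = (((-1 : ℤ) ^ wt ε * (if wt ε ≤ 3 then 1 else 0) : ℤ) : ℝ) := by
      intro ε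
      have h2 := ds_diff (wt ε) (c ε) (wt_le ε) (hc ε)
      rw [← h2]
      push_cast
      ring
    rw [Finset.sum_congr rfl (fun ε _ => h1 ε), ← Int.cast_sum, sum_sign]
    norm_num
  linarith

lemma norm_one_add_ee (θ : ℝ) : ‖1 + ee (-θ)‖ = 2 * |Real.cos (Real.pi * θ)| := by
  have h1 : 1 + ee (-θ) = ee (-θ / 2) * (ee (θ / 2) + ee (-θ / 2)) := by
    rw [mul_add, ← ee_add, ← ee_add]
    have e1 : -θ / 2 + θ / 2 = 0 := by ring
    have e2 : -θ / 2 + -θ / 2 = -θ := by ring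
    rw [e1, e2, ee_zero]
  have h2 : ee (θ / 2) + ee (-θ / 2) = ((2 * Real.cos (Real.pi * θ) : ℝ) : ℂ) := by
    unfold ee
    rw [Complex.ofReal_mul, Complex.ofReal_cos, Complex.cos]
    push_cast
    have e1 : 2 * (Real.pi : ℂ) * ((θ : ℂ) / 2) * Complex.I = Real.pi * θ * Complex.I := by ring
    have e2 : 2 * (Real.pi : ℂ) * (-(θ : ℂ) / 2) * Complex.I = -(Real.pi * θ) * Complex.I := by
      ring
    rw [e1, e2]
    ring
  rw [h1, norm_mul, norm_ee, one_mul, h2, Complex.norm_real, Real.norm_eq_abs, abs_mul]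
  norm_num

lemma kth_nonneg (θ : ℝ) : 0 ≤ kth θ := by
  unfold kth
  have := abs_nonneg (Real.cos (Real.pi * θ))
  linarith

lemma kth_le_one (θ : ℝ) : kth θ ≤ 1 := by
  unfold kth
  have := Real.abs_cos_le_one (Real.pi * θ)
  linarith

theorem main (θ : ℝ) : ∀ (l k : ℕ) (B c : (Fin 4 → Fin 2) → ℕ) (G : Finset ℕ),
    (∀ ε, c ε ≤ 1) → (∀ i ∈ G, k ≤ 5 * i ∧ i < l) →
    (∀ i ∈ G, ∀ ε, B ε / 2 ^ (5 * i) % 32 = 2 * wt ε) →
    ‖∑ x ∈ range (2 ^ (5 * l)), ee (θ * alt k l (fun ε => x + B ε + c ε))‖ ≤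
      2 ^ (5 * l) * kth θ ^ G.card := by
  intro l
  induction l with
  | zero =>
    intro k B c G hc hG hB
    have hG0 : G = ∅ := by
      rw [Finset.eq_empty_iff_forall_notMem]
      intro i hi
      exact absurd (hG i hi).2 (by omega)
    subst hG0
    refine (norm_sum_le _ _).trans ?_
    simp [norm_ee]
  | succ l ih =>
    intro k B c G hc hG hB
    -- the groups after the removal of the lowest one
    set G' : Finset ℕ := (G.erase 0).image (fun i => i - 1) with hG'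
    have hmem : ∀ i, i ∈ G' → i + 1 ∈ G := by
      intro i hi
      rw [hG', Finset.mem_image] at hi
      obtain ⟨j, hj, rfl⟩ := hi
      rw [Finset.mem_erase] at hj
      have : j - 1 + 1 = j := by omega
      rw [this]
      exact hj.2
    have hcard : G'.card = (G.erase 0).card := by
      rw [hG']
      apply Finset.card_image_of_injOn
      intro i hi j hj hij
      simp only [Finset.coe_erase, Set.mem_sdiff, Finset.mem_coe, Set.mem_singleton_iff] at hi hj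
      simp only at hij
      omega
    have hstep : ∀ c' : (Fin 4 → Fin 2) → ℕ, (∀ ε, c' ε ≤ 1) →
        ‖∑ x ∈ range (2 ^ (5 * l)), ee (θ * alt (k - 5) l (fun ε => x + B ε / 32 + c' ε))‖ ≤
          2 ^ (5 * l) * kth θ ^ G'.card := by
      intro c' hc'
      apply ih (k - 5) (fun ε => B ε / 32) c' G' hc'
      · intro i hi
        have := hG _ (hmem i hi)
        omega
      · intro i hi ε
        have h := hB _ (hmem i hi) ε
        rw [← h, Nat.div_div_eq_div_mul]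
        congr 2
        have : 5 * (i + 1) = 5 + 5 * i := by ring
        rw [this, pow_add]
        norm_num
    have hcar : ∀ u, u < 32 → ∀ ε, (u + B ε % 32 + c ε) / 32 ≤ 1 := by
      intro u hu ε
      have := hc ε
      omega
    -- the sum over the lowest group
    have hsum : ∑ x ∈ range (2 ^ (5 * (l + 1))), ee (θ * alt k (l + 1) (fun ε => x + B ε + c ε))
        = ∑ u ∈ range 32, ee (θ * low k (fun ε => u + B ε % 32 + c ε)) *
          ∑ x ∈ range (2 ^ (5 * l)), ee (θ * alt (k - 5) l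
            (fun ε => x + B ε / 32 + (u + B ε % 32 + c ε) / 32)) := by
      have e1 : (2 : ℕ) ^ (5 * (l + 1)) = 2 ^ (5 * l) * 32 := by
        rw [mul_add, pow_add]
        norm_num
      rw [e1, sum_range_mul_eq]
      apply Finset.sum_congr rfl
      intro u _
      rw [Finset.mul_sum]
      apply Finset.sum_congr rfl
      intro x _
      rw [alt_split, mul_add, ee_add]
    have hnn : (0 : ℝ) ≤ 2 ^ (5 * l) * kth θ ^ G'.card :=
      mul_nonneg (by positivity) (pow_nonneg (kth_nonneg θ) _)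
    have hterm : ∀ u ∈ range 32, ‖ee (θ * low k (fun ε => u + B ε % 32 + c ε)) *
          ∑ x ∈ range (2 ^ (5 * l)), ee (θ * alt (k - 5) l
            (fun ε => x + B ε / 32 + (u + B ε % 32 + c ε) / 32))‖ ≤
          2 ^ (5 * l) * kth θ ^ G'.card := by
      intro u hu
      rw [norm_mul, norm_ee, one_mul]
      exact hstep _ (hcar u (Finset.mem_range.mp hu))
    have hpow : (2 : ℝ) ^ (5 * (l + 1)) = 32 * 2 ^ (5 * l) := by
      rw [mul_add, pow_add]
      norm_num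
      ring
    rw [hsum]
    by_cases h0 : 0 ∈ G
    · -- a good group: two terms combine
      have hk : k = 0 := by
        have := (hG 0 h0).1
        omega
      subst hk
      have hB0 : ∀ ε, B ε % 32 = 2 * wt ε := by
        intro ε
        have := hB 0 h0 ε
        simpa using this
      have hsub : ({0, 8} : Finset ℕ) ⊆ range 32 := by
        intro i hi
        simp only [Finset.mem_insert, Finset.mem_singleton] at hi
        rw [Finset.mem_range]
        omega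
      rw [← Finset.sum_sdiff hsub]
      have hpair : ‖∑ u ∈ ({0, 8} : Finset ℕ), ee (θ * low 0 (fun ε => u + B ε % 32 + c ε)) *
          ∑ x ∈ range (2 ^ (5 * l)), ee (θ * alt (0 - 5) l
            (fun ε => x + B ε / 32 + (u + B ε % 32 + c ε) / 32))‖ ≤
          2 * |Real.cos (Real.pi * θ)| * (2 ^ (5 * l) * kth θ ^ G'.card) := by
        rw [Finset.sum_pair (by norm_num)]
        have c0 : ∀ ε, (0 + B ε % 32 + c ε) / 32 = 0 := by
          intro ε
          have := hc ε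
          have := wt_le ε
          rw [hB0]
          omega
        have c8 : ∀ ε, (8 + B ε % 32 + c ε) / 32 = 0 := by
          intro ε
          have := hc ε
          have := wt_le ε
          rw [hB0]
          omega
        simp only [c0, c8]
        simp only [hB0]
        rw [low_diff c hc]
        have e1 : θ * (low 0 (fun ε => 0 + 2 * wt ε + c ε) - 1)
            = θ * low 0 (fun ε => 0 + 2 * wt ε + c ε) + -θ := by ring
        rw [e1, ee_add, mul_assoc, ← mul_add, norm_mul, norm_ee, one_mul]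
        have e2 : ∀ z : ℂ, z + ee (-θ) * z = (1 + ee (-θ)) * z := by intro z; ring
        rw [e2, norm_mul, norm_one_add_ee]
        apply mul_le_mul_of_nonneg_left _ (by positivity)
        exact hstep (fun _ => 0) (fun _ => by norm_num)
      have hrest : ‖∑ u ∈ range 32 \ {0, 8}, ee (θ * low 0 (fun ε => u + B ε % 32 + c ε)) *
          ∑ x ∈ range (2 ^ (5 * l)), ee (θ * alt (0 - 5) l
            (fun ε => x + B ε / 32 + (u + B ε % 32 + c ε) / 32))‖ ≤
          30 * (2 ^ (5 * l) * kth θ ^ G'.card) := by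
        refine (norm_sum_le_of_le _ (fun u hu => hterm u (Finset.mem_sdiff.mp hu).1)).trans ?_
        rw [Finset.sum_const, nsmul_eq_mul, Finset.card_sdiff_of_subset hsub]
        simp
      have hc1 : G.card = G'.card + 1 := by
        rw [hcard, Finset.card_erase_of_mem h0]
        have : 0 < G.card := Finset.card_pos.mpr ⟨0, h0⟩
        omega
      refine (norm_add_le _ _).trans ?_
      refine (add_le_add hrest hpair).trans (le_of_eq ?_)
      rw [hc1, pow_succ, hpow]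
      unfold kth
      ring
    · have hc1 : G.card = G'.card := by
        rw [hcard, Finset.erase_eq_of_notMem h0]
      refine (norm_sum_le_of_le _ hterm).trans (le_of_eq ?_)
      rw [Finset.sum_const, nsmul_eq_mul, Finset.card_range, hpow, hc1]
      norm_num
      ring

end Cube

/-- item D5 -/
theorem claimCube : ClaimCube := by
  intro θ k l A G hG hA
  have h := Cube.main θ l k A (fun _ => 0) G (fun _ => by norm_num) hG hA
  simpa using h

end Pool.Agent.Work.MP_8e4d29_nt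

end
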