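import Pool.Agent.Work.MP_8e4d29_nt.Bd.B05
import Pool.Agent.Work.MP_e0aece_nt.DivisorBound
import Pool.Agent.Work.MP_8e4d29_nt.Bd.B02

/-! Bundle of small proof modules (one section per former module). -/

section

/-!
MP_8e4d29_nt, item D1: Cauchy-Schwarz and the first van der Corput step in a type II sum.
-/

namespace Pool.Agent.Work.MP_8e4d29_nt

open Finset
open Pool.Agent.Work.MP_122e00_nt (ee)

namespace Step1

lemma sum_supp {E : Type*} [AddCommMonoid E] (s t : Finset ℕ) (g : ℕ → E)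
    (hs : ∀ n, g n ≠ 0 → n ∈ s) (ht : ∀ n, g n ≠ 0 → n ∈ t) : ∑ n ∈ s, g n = ∑ n ∈ t, g n := by
  classical
  have h1 : ∑ n ∈ s ∩ t, g n = ∑ n ∈ s, g n := by
    apply Finset.sum_subset Finset.inter_subset_left
    intro n hn hn'
    by_contra h
    exact hn' (Finset.mem_inter.mpr ⟨hn, ht n h⟩)
  have h2 : ∑ n ∈ s ∩ t, g n = ∑ n ∈ t, g n := by
    apply Finset.sum_subset Finset.inter_subset_right
    intro n hn hn'
    by_contra h
    exact hn' (Finset.mem_inter.mpr ⟨hs n h, hn⟩)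
  rw [← h1, h2]

lemma tau_nonneg (n : ℕ) : 0 ≤ tau n := by
  unfold tau
  positivity

/-- number of multiples in an interval -/
lemma card_mult (A H n M : ℕ) (hn : 0 < n) :
    (((Ioc M (2 * M)).filter (fun m => A < m * n ∧ m * n ≤ A + H)).card : ℝ) ≤ H / n + 1 := by
  have h1 : (Ioc M (2 * M)).filter (fun m => A < m * n ∧ m * n ≤ A + H)
      ⊆ Ioc (A / n) ((A + H) / n) := by
    intro m hm
    rw [mem_filter] at hm
    rw [mem_Ioc]
    exact ⟨(Nat.div_lt_iff_lt_mul hn).mpr hm.2.1, (Nat.le_div_iff_mul_le hn).mpr hm.2.2⟩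
  have h2 := card_le_card h1
  rw [Nat.card_Ioc] at h2
  have h3 : (A + H) / n ≤ A / n + (H / n + 1) := by
    rw [← Nat.lt_add_one_iff, Nat.div_lt_iff_lt_mul hn]
    have e1 := Nat.lt_div_mul_add hn (a := A)
    have e2 := Nat.lt_div_mul_add hn (a := H)
    nlinarith
  have h4 : ((Ioc M (2 * M)).filter (fun m => A < m * n ∧ m * n ≤ A + H)).card ≤ H / n + 1 :=
    h2.trans (Nat.sub_le_iff_le_add.mpr (by rw [add_comm (H / n + 1)]; exact h3))
  calc (((Ioc M (2 * M)).filter (fun m => A < m * n ∧ m * n ≤ A + H)).card : ℝ)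
      ≤ ((H / n + 1 : ℕ) : ℝ) := by exact_mod_cast h4
    _ = ((H / n : ℕ) : ℝ) + 1 := by push_cast; ring
    _ ≤ H / n + 1 := by
      have := @Nat.cast_div_le ℝ _ _ _ H n
      linarith

lemma sq_norm_sum_mul_le (s : Finset ℕ) (f g : ℕ → ℂ) :
    ‖∑ m ∈ s, f m * g m‖ ^ 2 ≤ (∑ m ∈ s, ‖f m‖ ^ 2) * ∑ m ∈ s, ‖g m‖ ^ 2 := by
  have h1 : ‖∑ m ∈ s, f m * g m‖ ≤ ∑ m ∈ s, ‖f m‖ * ‖g m‖ := by
    refine (norm_sum_le _ _).trans ?_
    apply Finset.sum_le_sum
    intro m _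
    rw [norm_mul]
  calc ‖∑ m ∈ s, f m * g m‖ ^ 2 ≤ (∑ m ∈ s, ‖f m‖ * ‖g m‖) ^ 2 := by
        apply pow_le_pow_left₀ (norm_nonneg _) h1
    _ ≤ _ := Finset.sum_mul_sq_le_sq_mul_sq s _ _

lemma tau_sum_le {C0 : ℕ} (hC0 : ∀ x : ℕ, 1 ≤ x →
    ∑ n ∈ Icc 1 x, tau n ^ 2 ≤ x * (2 + Real.log x) ^ C0) (X : ℕ) (hX : 1 ≤ X) :
    ∑ n ∈ Ioc X (2 * X), tau n ^ 2 ≤ ((2 * X : ℕ) : ℝ) * (2 + Real.log ((2 * X : ℕ) : ℝ)) ^ C0 := by
  refine le_trans ?_ (hC0 (2 * X) (by omega))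
  apply Finset.sum_le_sum_of_subset_of_nonneg
  · intro n hn
    rw [mem_Ioc] at hn
    rw [mem_Icc]
    omega
  · intro n _ _
    positivity

end Step1

open Step1 in
theorem claimStep1 (h1 : ClaimVdC0) (h2 : ClaimTau) : ClaimStep1 := by
  obtain ⟨C0, hC0⟩ := h2 2
  refine ⟨6 * C0 + 5, ?_⟩
  intro N A H M P R1 F a b hN hNA hAH hP hPM hMP hNMP hR hMR hF ha hb
  have hM : 1 ≤ M := hP.trans hPM
  have hH : M ≤ H := le_trans (by nlinarith) hMR
  have hM0 : (0 : ℝ) < M := by exact_mod_cast hM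
  have hP0 : (0 : ℝ) < P := by exact_mod_cast hP
  have hR0 : (0 : ℝ) < R1 := by exact_mod_cast hR
  set z : ℕ → ℕ → ℂ := fun m n =>
    if (P < n ∧ n ≤ 2 * P) ∧ A < m * n ∧ m * n ≤ A + H then b n * F (m * n) else 0 with hz
  set T : ℕ → ℂ := fun m => ∑ n ∈ Ioc P (2 * P), z m n with hT
  set L : ℕ := H / M + 1 with hL
  set G : ℕ → ℕ → ℝ := fun r n => tau n * tau (n + r) * ‖∑ m ∈ Ioc M (2 * M),
        if A < m * n ∧ m * (n + r) ≤ A + H then
          F (m * (n + r)) * (starRingEnd ℂ) (F (m * n)) else 0‖ with hG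
  have hG0 : ∀ r n, 0 ≤ G r n := fun r n =>
    mul_nonneg (mul_nonneg (tau_nonneg _) (tau_nonneg _)) (norm_nonneg _)
  have hzP : ∀ m n, z m n ≠ 0 → P < n ∧ n ≤ 2 * P := by
    intro m n h
    by_contra hcon
    apply h
    simp only [hz]
    rw [if_neg (fun h => hcon h.1)]
  have hzA : ∀ m n, z m n ≠ 0 → A < m * n ∧ m * n ≤ A + H := by
    intro m n h
    by_contra hcon
    apply h
    simp only [hz]
    rw [if_neg (fun h => hcon h.2)]
  -- rewriting the sum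
  have hS : (∑ m ∈ Ioc M (2 * M), ∑ n ∈ Ioc P (2 * P),
      if A < m * n ∧ m * n ≤ A + H then a m * b n * F (m * n) else 0)
      = ∑ m ∈ Ioc M (2 * M), a m * T m := by
    apply Finset.sum_congr rfl
    intro m _
    simp only [hT]
    rw [Finset.mul_sum]
    apply Finset.sum_congr rfl
    intro n hn
    rw [mem_Ioc] at hn
    simp only [hz]
    by_cases hc : A < m * n ∧ m * n ≤ A + H
    · rw [if_pos hc, if_pos ⟨hn, hc⟩]
      ring
    · rw [if_neg hc, if_neg (fun h => hc h.2), mul_zero]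
  rw [hS]
  -- van der Corput
  have hV : ∀ m ∈ Ioc M (2 * M), (R1 : ℝ) ^ 2 * ‖T m‖ ^ 2 ≤
      ((L : ℝ) + R1) * (R1 * ∑ n ∈ Ioc P (2 * P), ‖z m n‖ ^ 2 +
      2 * ∑ r ∈ Ico 1 R1, ((R1 : ℝ) - r) *
        (∑ n ∈ Ioc P (2 * P), z m (n + r) * (starRingEnd ℂ) (z m n)).re) := by
    intro m hm
    rw [mem_Ioc] at hm
    have hm0 : 0 < m := by omega
    have hsupp : ∀ n, z m n ≠ 0 → A / m + 1 ≤ n ∧ n < A / m + 1 + L := by
      intro n hn
      obtain ⟨e1, e2⟩ := hzA m n hn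
      constructor
      · rw [Nat.add_one_le_iff, Nat.div_lt_iff_lt_mul hm0, mul_comm]
        exact e1
      · have e3 : n ≤ (A + H) / m := by
          rw [Nat.le_div_iff_mul_le hm0, mul_comm]
          exact e2
        have e4 : (A + H) / m ≤ A / m + (H / m + 1) := by
          rw [← Nat.lt_add_one_iff, Nat.div_lt_iff_lt_mul hm0]
          have e1 := Nat.lt_div_mul_add hm0 (a := A)
          have e2 := Nat.lt_div_mul_add hm0 (a := H)
          nlinarith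
        have e5 : H / m ≤ H / M := Nat.div_le_div_left hm.1.le hM
        omega
    have h3 := h1 (z m) (A / m + 1) L R1 hR hsupp
    have hsw : ∀ (E : Type) (_ : AddCommMonoid E) (g : ℕ → E), (∀ n, g n ≠ 0 → z m n ≠ 0) →
        ∑ n ∈ Ico (A / m + 1) (A / m + 1 + L), g n = ∑ n ∈ Ioc P (2 * P), g n := by
      intro E _ g hg
      apply sum_supp
      · intro n hn
        rw [mem_Ico]
        exact hsupp n (hg n hn)
      · intro n hn
        rw [mem_Ioc]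
        exact hzP m n (hg n hn)
    rw [hsw ℂ _ (z m) (fun n h => h), hsw ℝ _ (fun n => ‖z m n‖ ^ 2) (fun n h h' => by
      apply h
      simp [h'])] at h3
    have h4 : ∀ r, ∑ n ∈ Ico (A / m + 1) (A / m + 1 + L), z m (n + r) * (starRingEnd ℂ) (z m n)
        = ∑ n ∈ Ioc P (2 * P), z m (n + r) * (starRingEnd ℂ) (z m n) := by
      intro r
      apply hsw
      intro n h h'
      apply h
      rw [h', map_zero, mul_zero]
    simp_rw [h4] at h3
    exact h3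
  -- the diagonal
  set D : ℝ := ∑ m ∈ Ioc M (2 * M), ∑ n ∈ Ioc P (2 * P), ‖z m n‖ ^ 2 with hD
  set lM : ℝ := (2 + Real.log ((2 * M : ℕ) : ℝ)) ^ C0 with hlM
  set lP : ℝ := (2 + Real.log ((2 * P : ℕ) : ℝ)) ^ C0 with hlP
  have hlM0 : 0 ≤ lM := by
    apply pow_nonneg
    have : 0 ≤ Real.log ((2 * M : ℕ) : ℝ) := Real.log_natCast_nonneg _
    linarith
  have hlP0 : 0 ≤ lP := by
    apply pow_nonneg
    have : 0 ≤ Real.log ((2 * P : ℕ) : ℝ) := Real.log_natCast_nonneg _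
    linarith
  have hHP : (1 : ℝ) ≤ H / P := by
    rw [le_div_iff₀ hP0, one_mul]
    exact_mod_cast hPM.trans hH
  have hDle : D ≤ 4 * H * lP := by
    have e1 : D ≤ ∑ n ∈ Ioc P (2 * P), (2 * (H / P) : ℝ) * tau n ^ 2 := by
      rw [hD, Finset.sum_comm]
      apply Finset.sum_le_sum
      intro n hn
      rw [mem_Ioc] at hn
      have hn0 : 0 < n := by omega
      have e2 : ∀ m ∈ Ioc M (2 * M), ‖z m n‖ ^ 2
          ≤ if A < m * n ∧ m * n ≤ A + H then tau n ^ 2 else 0 := by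
        intro m _
        simp only [hz]
        by_cases hc : A < m * n ∧ m * n ≤ A + H
        · rw [if_pos ⟨hn, hc⟩, if_pos hc]
          apply pow_le_pow_left₀ (norm_nonneg _)
          rw [norm_mul]
          calc ‖b n‖ * ‖F (m * n)‖ ≤ tau n * 1 :=
                mul_le_mul (hb n) (hF _) (norm_nonneg _) (tau_nonneg _)
            _ = tau n := mul_one _
        · rw [if_neg (fun h => hc h.2), if_neg hc]
          simp
      refine (Finset.sum_le_sum e2).trans ?_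
      rw [← Finset.sum_filter, Finset.sum_const, nsmul_eq_mul]
      apply mul_le_mul_of_nonneg_right _ (by positivity)
      refine (card_mult A H n M hn0).trans ?_
      have e3 : (H : ℝ) / n ≤ H / P := by
        apply div_le_div_of_nonneg_left (by positivity) hP0
        exact_mod_cast hn.1.le
      linarith
    rw [← Finset.mul_sum] at e1
    have e4 := tau_sum_le hC0 P hP
    calc D ≤ 2 * (H / P) * ∑ n ∈ Ioc P (2 * P), tau n ^ 2 := e1
      _ ≤ 2 * (H / P) * (((2 * P : ℕ) : ℝ) * lP) := by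
        apply mul_le_mul_of_nonneg_left e4 (by positivity)
      _ = 4 * H * lP := by
        push_cast
        field_simp
        ring
  -- the off-diagonal terms
  have hoff : ∀ r, (∑ m ∈ Ioc M (2 * M), ∑ n ∈ Ioc P (2 * P),
      z m (n + r) * (starRingEnd ℂ) (z m n)).re ≤ ∑ n ∈ Ioc P (2 * P), G r n := by
    intro r
    rw [Finset.sum_comm]
    refine (Complex.re_le_norm _).trans ?_
    refine (norm_sum_le _ _).trans ?_
    apply Finset.sum_le_sum
    intro n hn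
    rw [mem_Ioc] at hn
    by_cases hnr : n + r ≤ 2 * P
    · have e1 : ∀ m ∈ Ioc M (2 * M), z m (n + r) * (starRingEnd ℂ) (z m n)
          = (b (n + r) * (starRingEnd ℂ) (b n)) *
            (if A < m * n ∧ m * (n + r) ≤ A + H then
              F (m * (n + r)) * (starRingEnd ℂ) (F (m * n)) else 0) := by
        intro m _
        have e2 : m * n ≤ m * (n + r) := Nat.mul_le_mul_left m (by omega)
        simp only [hz]
        by_cases hc : A < m * n ∧ m * (n + r) ≤ A + H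
        · rw [if_pos hc, if_pos ⟨⟨by omega, hnr⟩, by omega, hc.2⟩, if_pos ⟨hn, hc.1, by omega⟩]
          rw [map_mul]
          ring
        · rw [if_neg hc, mul_zero]
          by_cases hc1 : A < m * n
          · have hc2 : ¬ m * (n + r) ≤ A + H := fun h => hc ⟨hc1, h⟩
            rw [if_neg (fun h => hc2 h.2.2), zero_mul]
          · rw [if_neg (c := (P < n ∧ n ≤ 2 * P) ∧ A < m * n ∧ m * n ≤ A + H)
              (fun h => hc1 h.2.1), map_zero, mul_zero]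
      rw [Finset.sum_congr rfl e1, ← Finset.mul_sum, norm_mul, norm_mul, RCLike.norm_conj]
      simp only [hG]
      apply mul_le_mul_of_nonneg_right _ (norm_nonneg _)
      rw [mul_comm]
      exact mul_le_mul (hb n) (hb _) (norm_nonneg _) (tau_nonneg _)
    · have e1 : ∀ m ∈ Ioc M (2 * M), z m (n + r) * (starRingEnd ℂ) (z m n) = 0 := by
        intro m _
        have : z m (n + r) = 0 := by
          simp only [hz]
          rw [if_neg (fun h => hnr h.1.2)]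
        rw [this, zero_mul]
      rw [Finset.sum_eq_zero e1, norm_zero]
      exact hG0 r n
  set O : ℝ := ∑ r ∈ Ico 1 R1, ∑ n ∈ Ioc P (2 * P), G r n with hO
  have hO0 : 0 ≤ O := Finset.sum_nonneg fun r _ => Finset.sum_nonneg fun n _ => hG0 r n
  have hL0 : (0 : ℝ) ≤ (L : ℝ) + R1 := by positivity
  have hsum : (R1 : ℝ) ^ 2 * ∑ m ∈ Ioc M (2 * M), ‖T m‖ ^ 2
      ≤ ((L : ℝ) + R1) * (R1 * (D + 2 * O)) := by
    rw [Finset.mul_sum]
    refine (Finset.sum_le_sum hV).trans ?_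
    rw [← Finset.mul_sum]
    apply mul_le_mul_of_nonneg_left _ hL0
    rw [Finset.sum_add_distrib, ← Finset.mul_sum, ← Finset.mul_sum, ← hD, Finset.sum_comm]
    have e1 : ∀ r ∈ Ico 1 R1, ∑ m ∈ Ioc M (2 * M), ((R1 : ℝ) - r) *
        (∑ n ∈ Ioc P (2 * P), z m (n + r) * (starRingEnd ℂ) (z m n)).re
        ≤ R1 * ∑ n ∈ Ioc P (2 * P), G r n := by
      intro r hr
      rw [mem_Ico] at hr
      rw [← Finset.mul_sum, ← Complex.re_sum]
      have hr1 : (r : ℝ) ≤ R1 := by exact_mod_cast hr.2.le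
      have hr2 : (0 : ℝ) ≤ r := by positivity
      have e2 := hoff r
      have e3 : 0 ≤ ∑ n ∈ Ioc P (2 * P), G r n := Finset.sum_nonneg fun n _ => hG0 r n
      calc ((R1 : ℝ) - r) * (∑ m ∈ Ioc M (2 * M), ∑ n ∈ Ioc P (2 * P),
            z m (n + r) * (starRingEnd ℂ) (z m n)).re
          ≤ ((R1 : ℝ) - r) * ∑ n ∈ Ioc P (2 * P), G r n :=
            mul_le_mul_of_nonneg_left e2 (by linarith)
        _ ≤ R1 * ∑ n ∈ Ioc P (2 * P), G r n := mul_le_mul_of_nonneg_right (by linarith) e3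
    have e4 := Finset.sum_le_sum e1
    rw [← Finset.mul_sum, ← hO] at e4
    linarith
  -- bound of L + R1
  have hLR : (L : ℝ) + R1 ≤ 3 * H / M := by
    have e1 : ((H / M : ℕ) : ℝ) ≤ H / M := Nat.cast_div_le
    have e2 : (R1 : ℝ) ≤ H / M := by
      rw [le_div_iff₀ hM0]
      have : ((M * R1 : ℕ) : ℝ) ≤ H := by exact_mod_cast hMR
      push_cast at this
      linarith
    have e3 : (1 : ℝ) ≤ R1 := by exact_mod_cast hR
    have e4 : (L : ℝ) = ((H / M : ℕ) : ℝ) + 1 := by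
      rw [hL]
      push_cast
      ring
    rw [e4]
    have e5 : 3 * (H : ℝ) / M = H / M + H / M + H / M := by ring
    rw [e5]
    linarith
  have hT2 : ∑ m ∈ Ioc M (2 * M), ‖T m‖ ^ 2 ≤ 3 * H / M / R1 * (D + 2 * O) := by
    have hDO : 0 ≤ D + 2 * O := by
      have : 0 ≤ D := Finset.sum_nonneg fun m _ => Finset.sum_nonneg fun n _ => by positivity
      linarith
    have e1 : (R1 : ℝ) ^ 2 * ∑ m ∈ Ioc M (2 * M), ‖T m‖ ^ 2 ≤ 3 * H / M * (R1 * (D + 2 * O)) :=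
      hsum.trans (mul_le_mul_of_nonneg_right hLR (by positivity))
    have e2 : ∑ m ∈ Ioc M (2 * M), ‖T m‖ ^ 2 ≤ 3 * H / M * (R1 * (D + 2 * O)) / (R1 : ℝ) ^ 2 := by
      rw [le_div_iff₀ (by positivity), mul_comm]
      exact e1
    refine e2.trans (le_of_eq ?_)
    field_simp
  have hA2 : ∑ m ∈ Ioc M (2 * M), ‖a m‖ ^ 2 ≤ 2 * M * lM := by
    have e1 : ∑ m ∈ Ioc M (2 * M), ‖a m‖ ^ 2 ≤ ∑ m ∈ Ioc M (2 * M), tau m ^ 2 := by
      apply Finset.sum_le_sum
      intro m _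
      exact pow_le_pow_left₀ (norm_nonneg _) (ha m) 2
    refine e1.trans ?_
    have e2 := tau_sum_le hC0 M hM
    push_cast at e2 ⊢
    simpa [hlM] using e2
  -- logarithms
  have hlogN : 0 ≤ Real.log N := Real.log_natCast_nonneg _
  have hell : (2 : ℝ) ≤ 2 + Real.log N := by linarith
  have hH3 : H ≤ 3 * N := by omega
  have hlog : ∀ X : ℕ, 1 ≤ X → X ≤ M → (2 + Real.log ((2 * X : ℕ) : ℝ)) ≤ (2 + Real.log N) ^ 3 := by
    intro X hX hXM
    have e1 : 2 * X ≤ N ^ 4 := by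
      have e2 : 2 * X ≤ 6 * N := by omega
      have e3 : 6 * N ≤ N ^ 4 := by
        have e4 : 2 ^ 3 ≤ N ^ 3 := Nat.pow_le_pow_left hN 3
        calc 6 * N ≤ N ^ 3 * N := Nat.mul_le_mul_right N (by omega)
          _ = N ^ 4 := by ring
      omega
    have e5 : Real.log ((2 * X : ℕ) : ℝ) ≤ 4 * Real.log N := by
      have e6 : Real.log ((2 * X : ℕ) : ℝ) ≤ Real.log ((N : ℝ) ^ 4) := by
        apply Real.log_le_log
        · have : 0 < 2 * X := by omega
          exact_mod_cast this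
        · exact_mod_cast e1
      rwa [Real.log_pow] at e6
    have e7 : (4 : ℝ) ≤ (2 + Real.log N) ^ 2 := by nlinarith
    calc 2 + Real.log ((2 * X : ℕ) : ℝ) ≤ 4 * (2 + Real.log N) := by linarith
      _ ≤ (2 + Real.log N) ^ 2 * (2 + Real.log N) :=
        mul_le_mul_of_nonneg_right e7 (by linarith)
      _ = (2 + Real.log N) ^ 3 := by ring
  have hnn : ∀ X : ℕ, 0 ≤ 2 + Real.log ((2 * X : ℕ) : ℝ) := by
    intro X
    have : 0 ≤ Real.log ((2 * X : ℕ) : ℝ) := Real.log_natCast_nonneg _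
    linarith
  have hlMle : lM ≤ (2 + Real.log N) ^ (3 * C0) := by
    rw [pow_mul]
    exact pow_le_pow_left₀ (hnn M) (hlog M hM le_rfl) C0
  have hlPle : lP ≤ (2 + Real.log N) ^ (3 * C0) := by
    rw [pow_mul]
    exact pow_le_pow_left₀ (hnn P) (hlog P hP hPM) C0
  have hlP1 : 1 ≤ (2 + Real.log N) ^ (3 * C0) := one_le_pow₀ (by linarith)
  have h24 : (24 : ℝ) ≤ (2 + Real.log N) ^ 5 := by
    calc (24 : ℝ) ≤ 2 ^ 5 := by norm_num
      _ ≤ (2 + Real.log N) ^ 5 := pow_le_pow_left₀ (by norm_num) hell 5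
  have hT0 : 0 ≤ ∑ m ∈ Ioc M (2 * M), ‖T m‖ ^ 2 := Finset.sum_nonneg fun m _ => by positivity
  set Q : ℝ := (2 + Real.log N) ^ (3 * C0) with hQ
  have hQ0 : 0 ≤ Q := by linarith
  calc ‖∑ m ∈ Ioc M (2 * M), a m * T m‖ ^ 2
      ≤ (∑ m ∈ Ioc M (2 * M), ‖a m‖ ^ 2) * ∑ m ∈ Ioc M (2 * M), ‖T m‖ ^ 2 :=
        sq_norm_sum_mul_le _ _ _
    _ ≤ (2 * M * lM) * (3 * H / M / R1 * (D + 2 * O)) :=
        mul_le_mul hA2 hT2 hT0 (by positivity)
    _ ≤ (2 * M * Q) * (3 * H / M / R1 * (4 * Q * (H + O))) := by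
        have hDO : D + 2 * O ≤ 4 * Q * (H + O) := by
          have e1 : D ≤ 4 * H * Q := hDle.trans (mul_le_mul_of_nonneg_left hlPle (by positivity))
          have e2 : O ≤ Q * O := by nlinarith
          nlinarith
        have hDO0 : 0 ≤ D + 2 * O := by
          have : 0 ≤ D := Finset.sum_nonneg fun m _ => Finset.sum_nonneg fun n _ => by positivity
          linarith
        apply mul_le_mul
        · exact mul_le_mul_of_nonneg_left hlMle (by positivity)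
        · exact mul_le_mul_of_nonneg_left hDO (by positivity)
        · positivity
        · positivity
    _ = 24 * (Q ^ 2 * (H / R1) * (H + O)) := by
        field_simp
        ring
    _ ≤ (2 + Real.log N) ^ 5 * (Q ^ 2 * (H / R1) * (H + O)) :=
        mul_le_mul_of_nonneg_right h24 (by positivity)
    _ = (2 + Real.log N) ^ (6 * C0 + 5) * ((H : ℝ) / R1) * (H + O) := by
        rw [hQ]
        ring

end Pool.Agent.Work.MP_8e4d29_nt

end

section

/-!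
MP_8e4d29_nt, item D16: type I sums.
-/

namespace Pool.Agent.Work.MP_8e4d29_nt
namespace TypeI

open Finset
open Pool.Agent.Work.MP_122e00_nt (ee norm_ee ee_add ee_neg ee_one_period ee_nat_mul)

/-! ### combinatorial lemmas -/

theorem sum_range_mul' {M : Type*} [AddCommMonoid M] (f : ℕ → M) (T q : ℕ) :
    ∑ x ∈ range (T * q), f x = ∑ i ∈ range q, ∑ j ∈ range T, f (T * i + j) := by
  induction q with
  | zero => simp
  | succ q ih => rw [Nat.mul_succ, Finset.sum_range_add, ih, Finset.sum_range_succ]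

theorem digits_step {b : ℕ} (hb : 2 ≤ b) (y : ℕ) :
    (Nat.digits b y).sum = y % b + (Nat.digits b (y / b)).sum := by
  rcases Nat.eq_zero_or_pos y with h0 | h0
  · subst h0; simp
  · rw [Nat.digits_def' (by omega) h0, List.sum_cons]

theorem digits_sum_split {b : ℕ} (hb : 2 ≤ b) (k n : ℕ) :
    (Nat.digits b n).sum = ds b 0 k n + (Nat.digits b (n / b ^ k)).sum := by
  induction k with
  | zero => simp [ds]
  | succ k ih =>
    rw [ih, ds_add b (Nat.zero_le k) (Nat.le_succ k) n, add_assoc]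
    congr 1
    have h1 : ds b k (k + 1) n = n / b ^ k % b := by simp [ds]
    rw [Nat.succ_eq_add_one, h1, digits_step hb (n / b ^ k), Nat.div_div_eq_div_mul, ← pow_succ]

theorem digits_mul_pow {b : ℕ} (hb : 2 ≤ b) (v n : ℕ) :
    (Nat.digits b (b ^ v * n)).sum = (Nat.digits b n).sum := by
  rcases Nat.eq_zero_or_pos n with h0 | h0
  · subst h0; simp
  · rw [Nat.digits_base_pow_mul (by omega) h0]; simp

theorem crt_sum {A B : ℕ} (hA : 0 < A) (hB : 0 < B) (h : Nat.Coprime A B) (f g : ℕ → ℂ)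
    (hf : ∀ x, f (x % A) = f x) (hg : ∀ x, g (x % B) = g x) :
    ∑ x ∈ range (A * B), f x * g x = (∑ a ∈ range A, f a) * ∑ b ∈ range B, g b := by
  rw [Finset.sum_mul_sum, ← Finset.sum_product']
  have hinj : Set.InjOn (fun x : ℕ => ((x % A, x % B) : ℕ × ℕ)) ↑(range (A * B)) := by
    intro x hx y hy hxy
    simp only [Finset.coe_range, Set.mem_Iio] at hx hy
    simp only [Prod.mk.injEq] at hxy
    exact Nat.ModEq.eq_of_lt_of_lt
      ((Nat.modEq_and_modEq_iff_modEq_mul h).1 ⟨hxy.1, hxy.2⟩) hx hy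
  have hmaps : ∀ a ∈ range (A * B), ((a % A, a % B) : ℕ × ℕ) ∈ range A ×ˢ range B := by
    intro a _
    rw [Finset.mem_product, Finset.mem_range, Finset.mem_range]
    exact ⟨Nat.mod_lt _ hA, Nat.mod_lt _ hB⟩
  refine Finset.sum_nbij (fun x : ℕ => ((x % A, x % B) : ℕ × ℕ)) hmaps hinj ?_ ?_
  · apply Finset.surjOn_of_injOn_of_card_le _ hmaps hinj
    rw [Finset.card_product, Finset.card_range, Finset.card_range, Finset.card_range]
  · intro a _
    simp only [hf, hg]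

theorem sum_mul_perm {M : Type*} [AddCommMonoid M] {A m' : ℕ} (s : ℕ) (hA : 0 < A)
    (hc : Nat.Coprime A m') (φ : ℕ → M) (hφ : ∀ x, φ (x % A) = φ x) :
    ∑ a ∈ range A, φ (m' * (s + a)) = ∑ c ∈ range A, φ c := by
  have hinj : Set.InjOn (fun a : ℕ => (m' * (s + a)) % A) ↑(range A) := by
    intro x hx y hy hxy
    simp only [Finset.coe_range, Set.mem_Iio] at hx hy
    have h1 : m' * (s + x) ≡ m' * (s + y) [MOD A] := hxy
    have h2 := Nat.ModEq.cancel_left_of_coprime hc h1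
    exact Nat.ModEq.eq_of_lt_of_lt (Nat.ModEq.add_left_cancel' s h2) hx hy
  have hmaps : ∀ a ∈ range A, (m' * (s + a)) % A ∈ range A := by
    intro a _
    rw [Finset.mem_range]
    exact Nat.mod_lt _ hA
  refine Finset.sum_nbij (fun a : ℕ => (m' * (s + a)) % A) hmaps hinj ?_ ?_
  · exact Finset.surjOn_of_injOn_of_card_le _ hmaps hinj le_rfl
  · intro a _
    simp only [hφ]

/-- a periodic function summed over an initial segment -/
theorem periodic_sum_le (f : ℕ → ℂ) {T : ℕ} (hT : 0 < T) (X : ℕ) (hf : ∀ x, f (x % T) = f x)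
    (h1 : ∀ x, ‖f x‖ ≤ 1) {b : ℝ} (hb : ‖∑ x ∈ range T, f x‖ ≤ T * b) :
    ‖∑ x ∈ range X, f x‖ ≤ X * b + T := by
  have hb0 : 0 ≤ b := by
    have h2 : (0 : ℝ) ≤ T * b := (norm_nonneg _).trans hb
    have h3 : (0 : ℝ) < T := by exact_mod_cast hT
    by_contra hlt
    push Not at hlt
    nlinarith
  have h2 : ∑ x ∈ range X, f x = ∑ x ∈ range (T * (X / T)), f x
      + ∑ x ∈ range (X % T), f (T * (X / T) + x) := by
    rw [← Finset.sum_range_add, Nat.div_add_mod]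
  have h3 : ∑ x ∈ range (T * (X / T)), f x = ((X / T : ℕ) : ℂ) * ∑ x ∈ range T, f x := by
    rw [sum_range_mul']
    have h4 : ∀ i ∈ range (X / T), ∑ j ∈ range T, f (T * i + j) = ∑ j ∈ range T, f j := by
      intro i _
      apply Finset.sum_congr rfl
      intro j hj
      rw [← hf (T * i + j), Nat.mul_add_mod, hf]
    rw [Finset.sum_congr rfl h4, Finset.sum_const, Finset.card_range, nsmul_eq_mul]
  rw [h2]
  refine (norm_add_le _ _).trans (add_le_add ?_ ?_)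
  · rw [h3, norm_mul, Complex.norm_natCast]
    calc ((X / T : ℕ) : ℝ) * ‖∑ x ∈ range T, f x‖ ≤ ((X / T : ℕ) : ℝ) * (T * b) :=
          mul_le_mul_of_nonneg_left hb (Nat.cast_nonneg _)
      _ = ((X / T * T : ℕ) : ℝ) * b := by push_cast; ring
      _ ≤ X * b := by
          apply mul_le_mul_of_nonneg_right _ hb0
          exact_mod_cast Nat.div_mul_le_self X T
  · refine (norm_sum_le _ _).trans ?_
    calc ∑ x ∈ range (X % T), ‖f (T * (X / T) + x)‖ ≤ ∑ x ∈ range (X % T), (1 : ℝ) :=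
          Finset.sum_le_sum fun x _ => h1 _
      _ = ((X % T : ℕ) : ℝ) := by simp
      _ ≤ T := by exact_mod_cast (Nat.mod_lt X hT).le

/-- number of `n` with a carry over a given place -/
theorem carry_count (m r Y s X : ℕ) (hY : 0 < Y) :
    (((range X).filter (fun i => m * (s + i + r) / Y ≠ m * (s + i) / Y)).card : ℝ) ≤
      r * (m * X / Y + 1) := by
  set h : ℕ → ℤ := fun n => ((m * n / Y : ℕ) : ℤ) with hh
  have mono : ∀ a b, a ≤ b → h a ≤ h b := by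
    intro a b hab
    simp only [hh]
    exact_mod_cast Nat.div_le_div_right (Nat.mul_le_mul_left m hab)
  have h1 : (((range X).filter (fun i => m * (s + i + r) / Y ≠ m * (s + i) / Y)).card : ℤ) ≤
      ∑ i ∈ range X, (h (s + i + r) - h (s + i)) := by
    rw [Finset.card_filter]
    push_cast
    apply Finset.sum_le_sum
    intro i _
    have h2 := mono (s + i) (s + i + r) (by omega)
    split_ifs with h3
    · have h4 : h (s + i) ≠ h (s + i + r) := by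
        intro h5
        apply h3
        simp only [hh] at h5
        exact_mod_cast h5.symm
      omega
    · omega
  have h2 : ∑ i ∈ range X, (h (s + i + r) - h (s + i)) =
      ∑ j ∈ range r, (h (s + X + j) - h (s + j)) := by
    have h3 : ∀ i ∈ range X, (h (s + i + r) - h (s + i)) =
        ∑ j ∈ range r, (h (s + i + (j + 1)) - h (s + i + j)) := by
      intro i _
      rw [Finset.sum_range_sub (fun j => h (s + i + j)) r]
      simp
    rw [Finset.sum_congr rfl h3, Finset.sum_comm]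
    apply Finset.sum_congr rfl
    intro j _
    have h4 : ∀ i ∈ range X, (h (s + i + (j + 1)) - h (s + i + j)) =
        (fun i => h (s + i + j)) (i + 1) - (fun i => h (s + i + j)) i := by
      intro i _
      simp only
      congr 2
      ring
    rw [Finset.sum_congr rfl h4, Finset.sum_range_sub (fun i => h (s + i + j)) X]
    simp
  have hYr : (0 : ℝ) < Y := by exact_mod_cast hY
  have h3 : ∀ j ∈ range r, ((h (s + X + j) - h (s + j) : ℤ) : ℝ) ≤ m * X / Y + 1 := by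
    intro j _
    simp only [hh]
    rw [Int.cast_sub, Int.cast_natCast, Int.cast_natCast]
    have h4 : ((m * (s + X + j) / Y : ℕ) : ℝ) ≤ ((m * (s + X + j) : ℕ) : ℝ) / Y := Nat.cast_div_le
    have h5 : ((m * (s + j) : ℕ) : ℝ) / Y < ((m * (s + j) / Y : ℕ) : ℝ) + 1 := by
      rw [div_lt_iff₀ hYr]
      have h6 := Nat.lt_mul_div_succ (m * (s + j)) hY
      have h7 : ((m * (s + j) : ℕ) : ℝ) < ((Y * (m * (s + j) / Y + 1) : ℕ) : ℝ) := by
        exact_mod_cast h6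
      push_cast at h7 ⊢
      linarith
    have h8 : ((m * (s + X + j) : ℕ) : ℝ) / Y = ((m * (s + j) : ℕ) : ℝ) / Y + m * X / Y := by
      push_cast
      field_simp
      ring
    linarith
  have h4 : (((range X).filter (fun i => m * (s + i + r) / Y ≠ m * (s + i) / Y)).card : ℝ) ≤
      ((∑ j ∈ range r, (h (s + X + j) - h (s + j)) : ℤ) : ℝ) := by
    rw [← h2]
    exact_mod_cast h1
  refine h4.trans ?_
  push_cast
  refine (Finset.sum_le_sum (g := fun _ => (m * X / Y + 1 : ℝ)) ?_).trans ?_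
  · intro j hj
    have := h3 j hj
    push_cast at this
    exact this
  · rw [Finset.sum_const, Finset.card_range, nsmul_eq_mul]

/-! ### the base 2 and the base 3 parts -/

/-- base 2 part -/
noncomputable def F2 (θ : ℝ) (k m' r x : ℕ) : ℂ :=
  ee (θ * ((ds 2 0 k (m' * x + m' * r) : ℝ) - ds 2 0 k (m' * x)))

/-- base 3 part -/
noncomputable def F3 (θ : ℝ) (k m r x : ℕ) : ℂ :=
  ee (-(θ * ((ds 3 0 k (m * x + m * r) : ℝ) - ds 3 0 k (m * x))))

theorem ds_lin_congr (b k m r : ℕ) {x y : ℕ} (h : x % b ^ k = y % b ^ k) :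
    ds b 0 k (m * x + r) = ds b 0 k (m * y + r) := by
  apply ds_congr_mod
  have h1 : x ≡ y [MOD b ^ k] := h
  exact (h1.mul_left m).add_right r

theorem F2_mod (θ : ℝ) (k m' r x : ℕ) : F2 θ k m' r (x % 2 ^ k) = F2 θ k m' r x := by
  unfold F2
  have h := Nat.mod_mod x (2 ^ k)
  have h1 := ds_lin_congr 2 k m' (m' * r) h
  have h2 := ds_lin_congr 2 k m' 0 h
  rw [add_zero, add_zero] at h2
  rw [h1, h2]

theorem F3_mod (θ : ℝ) (k m r x : ℕ) : F3 θ k m r (x % 3 ^ k) = F3 θ k m r x := by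
  unfold F3
  have h := Nat.mod_mod x (3 ^ k)
  have h1 := ds_lin_congr 3 k m (m * r) h
  have h2 := ds_lin_congr 3 k m 0 h
  rw [add_zero, add_zero] at h2
  rw [h1, h2]

theorem eval (θ : ℝ) {m v m' k l r x : ℕ} (hm : m = 2 ^ v * m')
    (h2 : m' * (x + r) / 2 ^ k = m' * x / 2 ^ k) (h3 : m * (x + r) / 3 ^ l = m * x / 3 ^ l) :
    ff θ (m * (x + r)) * (starRingEnd ℂ) (ff θ (m * x)) = F2 θ k m' r x * F3 θ l m r x := by
  unfold ff F2 F3
  rw [← ee_sub, ← ee_add]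
  congr 1
  have e2 : ∀ y : ℕ, (Nat.digits 2 (m * y)).sum
      = ds 2 0 k (m' * y) + (Nat.digits 2 (m' * y / 2 ^ k)).sum := by
    intro y
    rw [hm, mul_assoc, digits_mul_pow le_rfl, digits_sum_split le_rfl k]
  have e3 : ∀ y : ℕ, (Nat.digits 3 (m * y)).sum
      = ds 3 0 l (m * y) + (Nat.digits 3 (m * y / 3 ^ l)).sum := by
    intro y
    exact digits_sum_split (by norm_num) l _
  unfold Dd
  rw [e2 (x + r), e2 x, e3 (x + r), e3 x, h2, h3, mul_add m' x r, mul_add m x r]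
  push_cast
  ring

theorem norm_F2 (θ : ℝ) (k m' r x : ℕ) : ‖F2 θ k m' r x‖ = 1 := norm_ee _

theorem norm_F3 (θ : ℝ) (k m' r x : ℕ) : ‖F3 θ k m' r x‖ = 1 := norm_ee _

theorem norm_ff (θ : ℝ) (n : ℕ) : ‖ff θ n‖ = 1 := norm_ee _

theorem kth_nonneg (θ : ℝ) : 0 ≤ kth θ := by
  unfold kth
  have h1 := abs_nonneg (Real.cos (Real.pi * θ))
  linarith

theorem kth_le_one (θ : ℝ) : kth θ ≤ 1 := by
  unfold kth
  have h1 := Real.abs_cos_le_one (Real.pi * θ)
  linarith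

/-- the number of good groups of `a` -/
def gc (l a : ℕ) : ℕ := ((range l).filter (fun i => a / 32 ^ i % 32 = 2)).card

theorem window (hL : ClaimLine) (θ : ℝ) (l m' r l3 m s X : ℕ) (hodd : Nat.Coprime 2 m') :
    ‖∑ i ∈ range X, F2 θ (5 * l) m' r (s + i) * F3 θ l3 m r (s + i)‖ ≤
      X * kth θ ^ gc l (m' * r) + 2 ^ (5 * l) * 3 ^ l3 := by
  have hT : 0 < 2 ^ (5 * l) * 3 ^ l3 := by positivity
  have h := periodic_sum_le
    (fun i => F2 θ (5 * l) m' r (s + i) * F3 θ l3 m r (s + i)) hT X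
    (b := kth θ ^ gc l (m' * r)) ?_ ?_ ?_
  · refine h.trans (le_of_eq ?_)
    push_cast
    rfl
  · intro x
    have hx2 : (s + x % (2 ^ (5 * l) * 3 ^ l3)) % 2 ^ (5 * l) = (s + x) % 2 ^ (5 * l) := by
      have h1 : x % (2 ^ (5 * l) * 3 ^ l3) ≡ x [MOD 2 ^ (5 * l)] :=
        Nat.ModEq.of_mul_right _ (Nat.mod_modEq x _)
      exact h1.add_left s
    have hx3 : (s + x % (2 ^ (5 * l) * 3 ^ l3)) % 3 ^ l3 = (s + x) % 3 ^ l3 := by
      have h1 : x % (2 ^ (5 * l) * 3 ^ l3) ≡ x [MOD 3 ^ l3] :=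
        Nat.ModEq.of_mul_left _ (Nat.mod_modEq x _)
      exact h1.add_left s
    rw [← F2_mod θ (5 * l) m' r (s + x % _), hx2, F2_mod,
      ← F3_mod θ l3 m r (s + x % _), hx3, F3_mod]
  · intro x
    rw [norm_mul, norm_F2, norm_F3, mul_one]
  · rw [crt_sum (f := fun i => F2 θ (5 * l) m' r (s + i)) (g := fun i => F3 θ l3 m r (s + i))
      (by positivity) (by positivity) (Nat.Coprime.pow _ _ (by norm_num)) ?_ ?_, norm_mul]
    · have h1 : ∑ a ∈ range (2 ^ (5 * l)), F2 θ (5 * l) m' r (s + a)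
          = ∑ x ∈ range (2 ^ (5 * l)),
            ee (θ * ((ds 2 0 (5 * l) (x + m' * r) : ℝ) - ds 2 0 (5 * l) x)) := by
        rw [← sum_mul_perm (m' := m') s (by positivity) (Nat.Coprime.pow_left _ hodd)
          (fun x => ee (θ * ((ds 2 0 (5 * l) (x + m' * r) : ℝ) - ds 2 0 (5 * l) x)))]
        · rfl
        · intro x
          rw [ds_mod]
          have h1 := ds_lin_congr 2 (5 * l) 1 (m' * r) (Nat.mod_mod x (2 ^ (5 * l)))
          rw [one_mul, one_mul] at h1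
          rw [h1]
      have h2 := hL θ l (m' * r) ((range l).filter (fun i => m' * r / 32 ^ i % 32 = 2)) ?_ ?_
      · rw [h1]
        have h3 : ‖∑ b ∈ range (3 ^ l3), F3 θ l3 m r (s + b)‖ ≤ 3 ^ l3 := by
          refine (norm_sum_le _ _).trans ?_
          simp [norm_F3]
        calc _ ≤ (2 ^ (5 * l) * kth θ ^ gc l (m' * r)) * 3 ^ l3 :=
              mul_le_mul h2 h3 (norm_nonneg _) (by
                have := pow_nonneg (kth_nonneg θ) (gc l (m' * r)); positivity)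
          _ = _ := by push_cast; ring
      · intro i hi
        rw [Finset.mem_filter, Finset.mem_range] at hi
        exact hi.1
      · intro i hi
        rw [Finset.mem_filter, Finset.mem_range] at hi
        rw [pow_mul]
        exact hi.2
    · intro x
      have h1 : (s + x % 2 ^ (5 * l)) % 2 ^ (5 * l) = (s + x) % 2 ^ (5 * l) :=
        (Nat.mod_modEq x _).add_left s
      rw [← F2_mod θ (5 * l) m' r (s + x % _), h1, F2_mod]
    · intro x
      have h1 : (s + x % 3 ^ l3) % 3 ^ l3 = (s + x) % 3 ^ l3 :=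
        (Nat.mod_modEq x _).add_left s
      rw [← F3_mod θ l3 m r (s + x % _), h1, F3_mod]

/-- one correlation -/
theorem corr (hL : ClaimLine) (θ : ℝ) {m v m' : ℕ} (r l l3 s X : ℕ) (hm : m = 2 ^ v * m')
    (hodd : Nat.Coprime 2 m') :
    ‖∑ i ∈ range X, ff θ (m * (s + i + r)) * (starRingEnd ℂ) (ff θ (m * (s + i)))‖ ≤
      (X * kth θ ^ gc l (m' * r) + 2 ^ (5 * l) * 3 ^ l3) +
        2 * (r * (m' * X / ((2 ^ (5 * l) : ℕ) : ℝ) + 1) +
          r * (m * X / ((3 ^ l3 : ℕ) : ℝ) + 1)) := by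
  have h1 := window hL θ l m' r l3 m s X hodd
  have hc2 := carry_count m' r (2 ^ (5 * l)) s X (by positivity)
  have hc3 := carry_count m r (3 ^ l3) s X (by positivity)
  have h2 : ‖∑ i ∈ range X, ff θ (m * (s + i + r)) * (starRingEnd ℂ) (ff θ (m * (s + i)))
      - ∑ i ∈ range X, F2 θ (5 * l) m' r (s + i) * F3 θ l3 m r (s + i)‖ ≤
      2 * ((((range X).filter (fun i => m' * (s + i + r) / 2 ^ (5 * l) ≠
        m' * (s + i) / 2 ^ (5 * l))).card : ℝ) +
        (((range X).filter (fun i => m * (s + i + r) / 3 ^ l3 ≠ m * (s + i) / 3 ^ l3)).card : ℝ)) := by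
    rw [← Finset.sum_sub_distrib]
    refine (norm_sum_le _ _).trans ?_
    rw [Finset.card_filter, Finset.card_filter]
    push_cast
    rw [← Finset.sum_add_distrib, Finset.mul_sum]
    apply Finset.sum_le_sum
    intro i _
    have h0 : ‖ff θ (m * (s + i + r)) * (starRingEnd ℂ) (ff θ (m * (s + i)))
        - F2 θ (5 * l) m' r (s + i) * F3 θ l3 m r (s + i)‖ ≤ 2 := by
      refine (norm_sub_le _ _).trans ?_
      rw [norm_mul, norm_mul, norm_F2, norm_F3, RCLike.norm_conj, norm_ff, norm_ff]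
      norm_num
    by_cases hb2 : m' * (s + i + r) / 2 ^ (5 * l) ≠ m' * (s + i) / 2 ^ (5 * l)
    · rw [if_pos hb2]
      split_ifs <;> linarith
    · by_cases hb3 : m * (s + i + r) / 3 ^ l3 ≠ m * (s + i) / 3 ^ l3
      · rw [if_neg hb2, if_pos hb3]
        linarith
      · rw [if_neg hb2, if_neg hb3]
        push Not at hb2 hb3
        rw [eval θ hm hb2 hb3, sub_self, norm_zero]
        norm_num
  have h3 : ‖∑ i ∈ range X, ff θ (m * (s + i + r)) * (starRingEnd ℂ) (ff θ (m * (s + i)))‖ ≤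
      ‖∑ i ∈ range X, F2 θ (5 * l) m' r (s + i) * F3 θ l3 m r (s + i)‖ +
      ‖∑ i ∈ range X, ff θ (m * (s + i + r)) * (starRingEnd ℂ) (ff θ (m * (s + i)))
      - ∑ i ∈ range X, F2 θ (5 * l) m' r (s + i) * F3 θ l3 m r (s + i)‖ := by
    rw [add_comm]
    exact norm_le_norm_sub_add _ _
  linarith

theorem gc_congr {g a b : ℕ} (h : a % 32 ^ g = b % 32 ^ g) : gc g a = gc g b := by
  unfold gc
  congr 1
  apply Finset.filter_congr
  intro i hi
  rw [Finset.mem_range] at hi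
  have hd : 32 ^ (i + 1) ∣ 32 ^ g := pow_dvd_pow 32 hi
  have h1 : a / 32 ^ i % 32 = b / 32 ^ i % 32 := by
    apply digit_congr
    rw [← Nat.mod_mod_of_dvd a hd, ← Nat.mod_mod_of_dvd b hd, h]
  rw [h1]

theorem gc_succ (g a : ℕ) : gc (g + 1) a = gc g a + if a / 32 ^ g % 32 = 2 then 1 else 0 := by
  unfold gc
  rw [Finset.range_add_one, Finset.filter_insert]
  split_ifs with h
  · rw [Finset.card_insert_of_notMem]
    simp
  · rfl

theorem gc_mono {g l a : ℕ} (h : g ≤ l) : gc g a ≤ gc l a := by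
  unfold gc
  apply Finset.card_le_card
  apply Finset.filter_subset_filter
  exact Finset.range_mono h

theorem sum_gc (x : ℝ) (g : ℕ) : ∑ c ∈ range (32 ^ g), x ^ gc g c = (31 + x) ^ g := by
  induction g with
  | zero => simp [gc]
  | succ g ih =>
    rw [pow_succ, sum_range_mul']
    have h1 : ∀ i ∈ range 32, ∑ j ∈ range (32 ^ g), x ^ gc (g + 1) (32 ^ g * i + j) =
        (31 + x) ^ g * x ^ (if i = 2 then 1 else 0) := by
      intro i hi
      rw [Finset.mem_range] at hi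
      rw [← ih, Finset.sum_mul]
      apply Finset.sum_congr rfl
      intro j hj
      rw [Finset.mem_range] at hj
      rw [gc_succ]
      have h2 : (32 ^ g * i + j) / 32 ^ g % 32 = i := by
        rw [Nat.mul_add_div (by positivity), Nat.div_eq_of_lt hj, add_zero, Nat.mod_eq_of_lt hi]
      have h3 : gc g (32 ^ g * i + j) = gc g j := by
        apply gc_congr
        rw [Nat.mul_add_mod]
      rw [h2, h3, pow_add]
    rw [Finset.sum_congr rfl h1, ← Finset.mul_sum, pow_succ]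
    congr 1
    simp only [Finset.sum_range_succ, Finset.sum_range_zero]
    norm_num
    ring

theorem sum_gc_mul (x : ℝ) (g m' : ℕ) (hodd : Nat.Coprime 2 m') :
    ∑ r ∈ range (32 ^ g), x ^ gc g (m' * r) = (31 + x) ^ g := by
  have h := sum_mul_perm (A := 32 ^ g) (m' := m') 0 (by positivity)
    (Nat.Coprime.pow_left _ (by
      have h32 : (32 : ℕ) = 2 ^ 5 := by norm_num
      rw [h32]
      exact Nat.Coprime.pow_left _ hodd)) (fun c => x ^ gc g c)
    (fun c => by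
      have : gc g (c % 32 ^ g) = gc g c := gc_congr (Nat.mod_mod _ _)
      rw [this])
  rw [← sum_gc x g, ← h]
  apply Finset.sum_congr rfl
  intro a _
  rw [zero_add]

/-- the bound before the choice of the parameters -/
theorem main_bound (hV : ClaimVdC0) (hL : ClaimLine) (θ : ℝ) {m n1 n2 g : ℕ} {X0 : ℝ}
    (hm : 1 ≤ m) (h12 : n1 ≤ n2) (hX : ((n2 - n1 : ℕ) : ℝ) ≤ X0)
    (hQ : 96 * (m : ℝ) ^ 2 * (32 ^ g) ^ 5 ≤ X0) :
    ‖∑ n ∈ Ioc n1 n2, ff θ (m * n)‖ ^ 2 ≤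
      X0 ^ 2 * (38 / 32 ^ g + 4 * ((31 + kth θ) / 32) ^ g) := by
  obtain ⟨v, m', hm'2, hmm'⟩ := Nat.exists_eq_two_pow_mul_odd (by omega : m ≠ 0)
  have hodd : Nat.Coprime 2 m' := Nat.coprime_two_left.2 hm'2
  have hm'1 : 1 ≤ m' := hm'2.pos
  have hm'm : m' ≤ m := by
    rw [hmm']
    exact Nat.le_mul_of_pos_left _ (by positivity)
  set Q : ℕ := 32 ^ g with hQdef
  have hQ1 : 1 ≤ Q := Nat.one_le_pow _ _ (by norm_num)
  have hQr : (1 : ℝ) ≤ Q := by exact_mod_cast hQ1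
  have hQc : ((32 : ℝ) ^ g) = (Q : ℝ) := by rw [hQdef]; push_cast; rfl
  rw [hQc] at hQ ⊢
  set X : ℕ := n2 - n1 with hXdef
  set l : ℕ := Nat.log 32 (m' * Q ^ 2) + 1 with hl
  set l3 : ℕ := Nat.log 3 (m * Q ^ 2) + 1 with hl3
  have hl1 : m' * Q ^ 2 < 2 ^ (5 * l) := by
    have h := Nat.lt_pow_succ_log_self (b := 32) (by norm_num) (m' * Q ^ 2)
    have h32 : (32 : ℕ) = 2 ^ 5 := by norm_num
    rw [hl, pow_mul]
    exact h
  have hl2 : 2 ^ (5 * l) ≤ 32 * (m' * Q ^ 2) := by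
    have h := Nat.pow_log_le_self 32 (x := m' * Q ^ 2) (by positivity)
    rw [hl, pow_mul, pow_succ]
    norm_num at h ⊢
    linarith
  have hl31 : m * Q ^ 2 < 3 ^ l3 := Nat.lt_pow_succ_log_self (b := 3) (by norm_num) (m * Q ^ 2)
  have hl32 : 3 ^ l3 ≤ 3 * (m * Q ^ 2) := by
    have h := Nat.pow_log_le_self 3 (x := m * Q ^ 2) (by positivity)
    rw [hl3, pow_succ]
    linarith
  have hgl : g ≤ l := by
    have h1 : 32 ^ g < 32 ^ l := by
      calc 32 ^ g = Q * 1 := by rw [mul_one]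
        _ ≤ Q * (m' * Q) := Nat.mul_le_mul_left _ (Nat.mul_pos hm'1 hQ1)
        _ = m' * Q ^ 2 := by ring
        _ < 2 ^ (5 * l) := hl1
        _ = 32 ^ l := by rw [pow_mul]; norm_num
    exact ((Nat.pow_lt_pow_iff_right (by norm_num)).1 h1).le
  have hk0 := kth_nonneg θ
  have hk1 := kth_le_one θ
  have hmr : (1 : ℝ) ≤ m := by exact_mod_cast hm
  have hX0 : (1 : ℝ) ≤ X0 := by
    refine le_trans ?_ hQ
    have h1 : (1 : ℝ) ≤ (m : ℝ) ^ 2 := one_le_pow₀ hmr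
    have h2 : (1 : ℝ) ≤ (Q : ℝ) ^ 5 := one_le_pow₀ hQr
    nlinarith
  have hXnn : (0 : ℝ) ≤ X0 := by linarith
  -- the function
  set z : ℕ → ℂ := fun n => if n1 < n ∧ n ≤ n2 then ff θ (m * n) else 0 with hz
  have hsupp : ∀ n, z n ≠ 0 → n1 + 1 ≤ n ∧ n < n1 + 1 + X := by
    intro n hn
    simp only [hz] at hn
    by_contra hcon
    apply hn
    rw [if_neg]
    omega
  have hvdc := hV z (n1 + 1) X Q hQ1 hsupp
  have hS : ∑ n ∈ Ico (n1 + 1) (n1 + 1 + X), z n = ∑ n ∈ Ioc n1 n2, ff θ (m * n) := by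
    have h1 : Ico (n1 + 1) (n1 + 1 + X) = Ioc n1 n2 := by
      ext n
      rw [Finset.mem_Ico, Finset.mem_Ioc]
      omega
    rw [h1]
    apply Finset.sum_congr rfl
    intro n hn
    rw [Finset.mem_Ioc] at hn
    simp only [hz]
    rw [if_pos hn]
  have hznorm : ∀ n, ‖z n‖ ^ 2 ≤ 1 := by
    intro n
    simp only [hz]
    split_ifs
    · rw [norm_ff]; norm_num
    · rw [norm_zero]; norm_num
  have hdiag : ∑ n ∈ Ico (n1 + 1) (n1 + 1 + X), ‖z n‖ ^ 2 ≤ X0 := by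
    refine (Finset.sum_le_sum fun n _ => hznorm n).trans ?_
    rw [Finset.sum_const, Nat.card_Ico, nsmul_eq_mul, mul_one]
    have : n1 + 1 + X - (n1 + 1) = X := by omega
    rw [this]
    exact hX
  set T : ℝ := 96 * (m : ℝ) ^ 2 * (Q : ℝ) ^ 4 with hT
  have hcorr : ∀ r ∈ Ico 1 Q, ‖∑ n ∈ Ico (n1 + 1) (n1 + 1 + X), z (n + r) * (starRingEnd ℂ) (z n)‖
      ≤ X0 * kth θ ^ gc g (m' * r) + (T + 4 * (X0 / Q) + 4 * Q) := by
    intro r hr
    rw [Finset.mem_Ico] at hr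
    have h1 : ∑ n ∈ Ico (n1 + 1) (n1 + 1 + X), z (n + r) * (starRingEnd ℂ) (z n) =
        ∑ i ∈ range (X - r), ff θ (m * (n1 + 1 + i + r)) *
          (starRingEnd ℂ) (ff θ (m * (n1 + 1 + i))) := by
      rw [Finset.sum_Ico_eq_sum_range]
      have e : n1 + 1 + X - (n1 + 1) = X := by omega
      rw [e]
      symm
      have hsub : range (X - r) ⊆ range X := Finset.range_mono (Nat.sub_le _ _)
      rw [← Finset.sum_subset hsub]
      · apply Finset.sum_congr rfl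
        intro i hi
        rw [Finset.mem_range] at hi
        simp only [hz]
        rw [if_pos (by omega), if_pos (by omega)]
      · intro i hi hi'
        rw [Finset.mem_range] at hi hi'
        simp only [hz]
        rw [if_neg (by omega), zero_mul]
    rw [h1]
    refine (corr hL θ r l l3 (n1 + 1) (X - r) hmm' hodd).trans ?_
    have hXr : ((X - r : ℕ) : ℝ) ≤ X0 := le_trans (by exact_mod_cast Nat.sub_le X r) hX
    have hXr0 : (0 : ℝ) ≤ ((X - r : ℕ) : ℝ) := Nat.cast_nonneg _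
    have hQ0 : (0 : ℝ) < Q := by linarith
    have hrQ : (r : ℝ) ≤ Q := by exact_mod_cast hr.2.le
    have hr0 : (0 : ℝ) ≤ r := Nat.cast_nonneg _
    have hm'r : (1 : ℝ) ≤ m' := by exact_mod_cast hm'1
    have t1 : ((X - r : ℕ) : ℝ) * kth θ ^ gc l (m' * r) ≤ X0 * kth θ ^ gc g (m' * r) := by
      apply mul_le_mul hXr _ (pow_nonneg hk0 _) hXnn
      exact pow_le_pow_of_le_one hk0 hk1 (gc_mono hgl)
    have t2 : (2 : ℝ) ^ (5 * l) * 3 ^ l3 ≤ T := by
      have a1 : ((2 ^ (5 * l) : ℕ) : ℝ) ≤ ((32 * (m' * Q ^ 2) : ℕ) : ℝ) := by exact_mod_cast hl2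
      have a2 : ((3 ^ l3 : ℕ) : ℝ) ≤ ((3 * (m * Q ^ 2) : ℕ) : ℝ) := by exact_mod_cast hl32
      have a3 : (m' : ℝ) ≤ m := by exact_mod_cast hm'm
      push_cast at a1 a2
      calc (2 : ℝ) ^ (5 * l) * 3 ^ l3 ≤ (32 * (m' * Q ^ 2)) * (3 * (m * Q ^ 2)) :=
            mul_le_mul a1 a2 (by positivity) (by positivity)
        _ ≤ (32 * (m * Q ^ 2)) * (3 * (m * Q ^ 2)) := by gcongr
        _ = T := by rw [hT]; ring
    have t3 : (r : ℝ) * (m' * ((X - r : ℕ) : ℝ) / ((2 ^ (5 * l) : ℕ) : ℝ) + 1) ≤ X0 / Q + Q := by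
      have a1 : ((m' * Q ^ 2 : ℕ) : ℝ) ≤ ((2 ^ (5 * l) : ℕ) : ℝ) := by exact_mod_cast hl1.le
      have a2 : (m' : ℝ) * ((X - r : ℕ) : ℝ) / ((2 ^ (5 * l) : ℕ) : ℝ) ≤ X0 / Q ^ 2 := by
        rw [div_le_div_iff₀ (by positivity) (by positivity)]
        push_cast at a1 ⊢
        calc (m' : ℝ) * ((X - r : ℕ) : ℝ) * Q ^ 2 = ((X - r : ℕ) : ℝ) * (m' * Q ^ 2) := by ring
          _ ≤ X0 * 2 ^ (5 * l) := mul_le_mul hXr a1 (by positivity) hXnn
      calc (r : ℝ) * (m' * ((X - r : ℕ) : ℝ) / ((2 ^ (5 * l) : ℕ) : ℝ) + 1)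
          ≤ Q * (X0 / Q ^ 2 + 1) := mul_le_mul hrQ (by linarith) (by positivity) hQ0.le
        _ = X0 / Q + Q := by field_simp
    have t4 : (r : ℝ) * (m * ((X - r : ℕ) : ℝ) / ((3 ^ l3 : ℕ) : ℝ) + 1) ≤ X0 / Q + Q := by
      have a1 : ((m * Q ^ 2 : ℕ) : ℝ) ≤ ((3 ^ l3 : ℕ) : ℝ) := by exact_mod_cast hl31.le
      have a2 : (m : ℝ) * ((X - r : ℕ) : ℝ) / ((3 ^ l3 : ℕ) : ℝ) ≤ X0 / Q ^ 2 := by
        rw [div_le_div_iff₀ (by positivity) (by positivity)]
        push_cast at a1 ⊢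
        calc (m : ℝ) * ((X - r : ℕ) : ℝ) * Q ^ 2 = ((X - r : ℕ) : ℝ) * (m * Q ^ 2) := by ring
          _ ≤ X0 * 3 ^ l3 := mul_le_mul hXr a1 (by positivity) hXnn
      calc (r : ℝ) * (m * ((X - r : ℕ) : ℝ) / ((3 ^ l3 : ℕ) : ℝ) + 1)
          ≤ Q * (X0 / Q ^ 2 + 1) := mul_le_mul hrQ (by linarith) (by positivity) hQ0.le
        _ = X0 / Q + Q := by field_simp
    linarith
  have hoff : ∑ r ∈ Ico 1 Q, ((Q : ℝ) - r) *
      (∑ n ∈ Ico (n1 + 1) (n1 + 1 + X), z (n + r) * (starRingEnd ℂ) (z n)).re ≤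
      Q * (X0 * (31 + kth θ) ^ g + Q * (T + 4 * (X0 / Q) + 4 * Q)) := by
    have hTnn : 0 ≤ T + 4 * (X0 / Q) + 4 * Q := by positivity
    calc ∑ r ∈ Ico 1 Q, ((Q : ℝ) - r) *
        (∑ n ∈ Ico (n1 + 1) (n1 + 1 + X), z (n + r) * (starRingEnd ℂ) (z n)).re
        ≤ ∑ r ∈ Ico 1 Q, (Q : ℝ) * (X0 * kth θ ^ gc g (m' * r) + (T + 4 * (X0 / Q) + 4 * Q)) := by
          apply Finset.sum_le_sum
          intro r hr
          have h1 := hcorr r hr
          rw [Finset.mem_Ico] at hr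
          have h2 := Complex.re_le_norm
            (∑ n ∈ Ico (n1 + 1) (n1 + 1 + X), z (n + r) * (starRingEnd ℂ) (z n))
          have h3 : (0 : ℝ) ≤ (Q : ℝ) - r := by
            have : (r : ℝ) ≤ Q := by exact_mod_cast hr.2.le
            linarith
          have h4 : (Q : ℝ) - r ≤ Q := by
            have : (0 : ℝ) ≤ r := Nat.cast_nonneg _
            linarith
          calc ((Q : ℝ) - r) *
              (∑ n ∈ Ico (n1 + 1) (n1 + 1 + X), z (n + r) * (starRingEnd ℂ) (z n)).re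
              ≤ ((Q : ℝ) - r) * ‖∑ n ∈ Ico (n1 + 1) (n1 + 1 + X),
                z (n + r) * (starRingEnd ℂ) (z n)‖ := mul_le_mul_of_nonneg_left h2 h3
            _ ≤ Q * (X0 * kth θ ^ gc g (m' * r) + (T + 4 * (X0 / Q) + 4 * Q)) :=
                mul_le_mul h4 h1 (norm_nonneg _) (by positivity)
      _ ≤ ∑ r ∈ range Q, (Q : ℝ) * (X0 * kth θ ^ gc g (m' * r) + (T + 4 * (X0 / Q) + 4 * Q)) := by
          apply Finset.sum_le_sum_of_subset_of_nonneg
          · intro r hr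
            rw [Finset.mem_Ico] at hr
            exact Finset.mem_range.2 hr.2
          · intro r _ _
            have := pow_nonneg hk0 (gc g (m' * r))
            positivity
      _ = Q * (X0 * (31 + kth θ) ^ g + Q * (T + 4 * (X0 / Q) + 4 * Q)) := by
          rw [← Finset.mul_sum, Finset.sum_add_distrib, ← Finset.mul_sum, Finset.sum_const,
            Finset.card_range, nsmul_eq_mul, hQdef, sum_gc_mul _ _ _ hodd]
  rw [hS] at hvdc
  have hTQ : T * Q ≤ X0 := by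
    refine le_trans (le_of_eq ?_) hQ
    rw [hT]; ring
  have hQQ : (Q : ℝ) * Q ≤ X0 := by
    refine le_trans ?_ hTQ
    apply mul_le_mul_of_nonneg_right _ (by linarith)
    rw [hT]
    have h1 : (1 : ℝ) ≤ (m : ℝ) ^ 2 := one_le_pow₀ hmr
    have h2 : (Q : ℝ) ≤ (Q : ℝ) ^ 4 := by
      calc (Q : ℝ) = (Q : ℝ) ^ 1 := (pow_one _).symm
        _ ≤ (Q : ℝ) ^ 4 := pow_le_pow_right₀ hQr (by norm_num)
    nlinarith
  have hQX : (Q : ℝ) ≤ X0 := by nlinarith
  have hQ0 : (0 : ℝ) < Q := by linarith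
  have hρ : (31 + kth θ) ^ g = Q * ((31 + kth θ) / 32) ^ g := by
    rw [div_pow, hQc]
    field_simp
  rw [hρ] at hoff
  set ρ : ℝ := ((31 + kth θ) / 32) ^ g with hρdef
  have hρ0 : 0 ≤ ρ := by positivity
  set SS : ℝ := ‖∑ n ∈ Ioc n1 n2, ff θ (m * n)‖ ^ 2 with hSS
  have hfin : (Q : ℝ) ^ 2 * SS ≤ (2 * X0) * (Q * X0 + 2 * (Q * (X0 * (Q * ρ) + Q *
      (T + 4 * (X0 / Q) + 4 * Q)))) := by
    refine hvdc.trans ?_
    have a1 : ((X : ℝ) + Q) ≤ 2 * X0 := by linarith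
    have a2 : (Q : ℝ) * ∑ n ∈ Ico (n1 + 1) (n1 + 1 + X), ‖z n‖ ^ 2 ≤ Q * X0 :=
      mul_le_mul_of_nonneg_left hdiag hQ0.le
    have a3 : (0 : ℝ) ≤ (X : ℝ) + Q := by positivity
    have a4 : (0 : ℝ) ≤ Q * X0 + 2 * (Q * (X0 * (Q * ρ) + Q *
      (T + 4 * (X0 / Q) + 4 * Q))) := by positivity
    calc _ ≤ ((X : ℝ) + Q) * (Q * X0 + 2 * (Q * (X0 * (Q * ρ) + Q *
          (T + 4 * (X0 / Q) + 4 * Q)))) := by
          apply mul_le_mul_of_nonneg_left _ a3
          linarith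
      _ ≤ _ := mul_le_mul_of_nonneg_right a1 a4
  have e1 : (2 * X0) * (Q * X0 + 2 * (Q * (X0 * (Q * ρ) + Q *
      (T + 4 * (X0 / Q) + 4 * Q)))) = (Q : ℝ) ^ 2 * (2 * X0 * (9 * X0 / Q + 2 * X0 * ρ + 2 * T +
      8 * Q)) := by
    field_simp
    ring
  rw [e1] at hfin
  have h5 : SS ≤ 2 * X0 * (9 * X0 / Q + 2 * X0 * ρ + 2 * T + 8 * Q) :=
    le_of_mul_le_mul_left hfin (by positivity)
  refine h5.trans ?_
  have h6 : T ≤ X0 / Q := by rwa [le_div_iff₀ hQ0]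
  have h7 : (Q : ℝ) ≤ X0 / Q := by rwa [le_div_iff₀ hQ0]
  have e2 : X0 ^ 2 * (38 / (Q : ℝ) + 4 * ρ) =
      2 * X0 * (9 * X0 / Q + 2 * X0 * ρ + 2 * (X0 / Q) + 8 * (X0 / Q)) := by
    field_simp
    ring
  rw [e2]
  apply mul_le_mul_of_nonneg_left _ (by positivity)
  linarith

theorem kth_le {θ : ℝ} (hθ : |θ| ≤ 1 / 2) : (31 + kth θ) / 32 ≤ Real.exp (-(θ ^ 2 / 256)) := by
  have h1 : |Real.pi * θ| ≤ Real.pi := by
    rw [abs_mul, abs_of_pos Real.pi_pos]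
    nlinarith [Real.pi_pos]
  have h2 := Real.cos_le_one_sub_mul_cos_sq h1
  have h3 : 2 / Real.pi ^ 2 * (Real.pi * θ) ^ 2 = 2 * θ ^ 2 := by
    have := Real.pi_pos.ne'
    field_simp
  rw [h3] at h2
  have h4 : 0 ≤ Real.cos (Real.pi * θ) := by
    apply Real.cos_nonneg_of_mem_Icc
    rw [abs_le] at hθ
    constructor
    · nlinarith [Real.pi_pos]
    · nlinarith [Real.pi_pos]
  have h5 := Real.add_one_le_exp (-(θ ^ 2 / 256))
  unfold kth
  rw [abs_of_nonneg h4]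
  linarith

end TypeI

open TypeI in
theorem claimTypeI (h1 : ClaimVdC0) (h2 : ClaimLine) : ClaimTypeI := by
  have hev : ∀ᶠ N : ℕ in Filter.atTop, (76 : ℝ) ≤ (N : ℝ) ^ ((1 : ℝ) / 1000) := by
    have := (tendsto_rpow_atTop (y := (1 : ℝ) / 1000) (by norm_num)).comp
      (tendsto_natCast_atTop_atTop (R := ℝ))
    exact this.eventually_ge_atTop 76
  obtain ⟨N0, hN0⟩ := Filter.eventually_atTop.1 hev
  refine ⟨1 / 1000000, max N0 1, by norm_num, ?_⟩
  intro N H m n1 n2 θ hN hH1 hH2 hm hmH h12 hn2 hlen hθ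
  have hNN0 := hN0 N ((le_max_left _ _).trans hN)
  have hN1 : 1 ≤ N := (le_max_right _ _).trans hN
  have hNr : (1 : ℝ) ≤ N := by exact_mod_cast hN1
  have hNpos : (0 : ℝ) < N := by linarith
  set y : ℝ := (N : ℝ) ^ ((1 : ℝ) / 1000) with hy
  have hy1 : (1 : ℝ) ≤ y := by linarith
  have hy0 : (0 : ℝ) < y := by linarith
  have hyN : y ^ 1000 = N := by
    rw [hy, ← Real.rpow_natCast, ← Real.rpow_mul hNpos.le]
    norm_num
  have hy770 : y ^ 770 ≤ H := by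
    refine le_trans (le_of_eq ?_) hH1
    rw [hy, ← Real.rpow_natCast, ← Real.rpow_mul hNpos.le]
    norm_num
  have hmr : (1 : ℝ) ≤ m := by exact_mod_cast hm
  have hm0 : (0 : ℝ) < m := by linarith
  have hmy : (m : ℝ) ≤ y ^ 231 := by
    have h3 : (m : ℝ) * y ^ 770 ≤ y ^ 231 * y ^ 770 := by
      calc (m : ℝ) * y ^ 770 ≤ m * H := mul_le_mul_of_nonneg_left hy770 hm0.le
        _ ≤ y * N := hmH
        _ = y ^ 231 * y ^ 770 := by rw [← hyN]; ring
    exact le_of_mul_le_mul_right h3 (by positivity)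
  set g : ℕ := Nat.log 2 N / 1000 with hg
  have hL1 : 2 ^ Nat.log 2 N ≤ N := Nat.pow_log_le_self 2 (by omega)
  have hL2 : N < 2 ^ (Nat.log 2 N + 1) := Nat.lt_pow_succ_log_self (by norm_num) N
  have hQ1 : ((32 : ℝ) ^ g) ^ 200 ≤ N := by
    have h3 : (32 ^ g) ^ 200 ≤ N := by
      calc (32 ^ g) ^ 200 = 2 ^ (1000 * g) := by
            rw [show (32 : ℕ) = 2 ^ 5 by norm_num, ← pow_mul, ← pow_mul]
            congr 1
            ring
        _ ≤ 2 ^ Nat.log 2 N := Nat.pow_le_pow_right (by norm_num) (by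
            rw [hg, mul_comm]; exact Nat.div_mul_le_self _ _)
        _ ≤ N := hL1
    exact_mod_cast h3
  have hQ2 : (N : ℝ) < 2 ^ (1000 * (g + 1)) := by
    have h3 : N < 2 ^ (1000 * (g + 1)) := by
      refine hL2.trans_le (Nat.pow_le_pow_right (by norm_num) ?_)
      rw [hg]
      omega
    exact_mod_cast h3
  have hQy : (32 : ℝ) ^ g ≤ y ^ 5 := by
    have h3 : ((32 : ℝ) ^ g) ^ 200 ≤ (y ^ 5) ^ 200 := by
      rw [← pow_mul y 5 200]
      norm_num
      rw [hyN]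
      exact hQ1
    exact le_of_pow_le_pow_left₀ (by norm_num) (by positivity) h3
  have hQy2 : y ^ 5 ≤ 32 * 32 ^ g := by
    have h3 : (y ^ 5) ^ 200 ≤ ((32 : ℝ) * 32 ^ g) ^ 200 := by
      rw [← pow_mul y 5 200]
      norm_num only
      rw [hyN]
      refine hQ2.le.trans (le_of_eq ?_)
      rw [← pow_succ', show (32 : ℝ) = 2 ^ 5 by norm_num, ← pow_mul, ← pow_mul]
      congr 1
      ring
    exact le_of_pow_le_pow_left₀ (by norm_num) (by positivity) h3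
  have hH0 : (0 : ℝ) ≤ H := Nat.cast_nonneg _
  have hX : ((n2 - n1 : ℕ) : ℝ) ≤ 2 * H / m := by
    rw [le_div_iff₀ hm0]
    exact_mod_cast hlen
  have hQ : 96 * (m : ℝ) ^ 2 * (32 ^ g) ^ 5 ≤ 2 * H / m := by
    rw [le_div_iff₀ hm0]
    have h3 : (m : ℝ) ^ 3 ≤ (y ^ 231) ^ 3 := by gcongr
    have h4 : ((32 : ℝ) ^ g) ^ 5 ≤ (y ^ 5) ^ 5 := by gcongr
    calc 96 * (m : ℝ) ^ 2 * (32 ^ g) ^ 5 * m = 96 * ((m : ℝ) ^ 3 * (32 ^ g) ^ 5) := by ring
      _ ≤ 96 * ((y ^ 231) ^ 3 * (y ^ 5) ^ 5) := by gcongr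
      _ = 2 * (48 * y ^ 718) := by ring
      _ ≤ 2 * (y * y ^ 718) := by gcongr; linarith
      _ = 2 * y ^ 719 := by ring
      _ ≤ 2 * y ^ 770 := by
          have := pow_le_pow_right₀ hy1 (show 719 ≤ 770 by norm_num)
          linarith
      _ ≤ 2 * H := by linarith
  have hmain := main_bound h1 h2 θ (g := g) hm h12 hX hQ
  set Eθ : ℝ := Real.exp (-(1 / 1000000) * θ ^ 2 * Real.log N) with hEθ
  set Nc : ℝ := (N : ℝ) ^ (-(1 / 1000000 : ℝ)) with hNc
  have hE0 : 0 < Eθ := Real.exp_pos _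
  have hNc0 : 0 < Nc := Real.rpow_pos_of_pos hNpos _
  have hb : 38 / (32 : ℝ) ^ g ≤ 16 * Nc ^ 2 := by
    have h3 : 1 / y ≤ Nc ^ 2 := by
      rw [hNc, ← Real.rpow_natCast, ← Real.rpow_mul hNpos.le, one_div, hy,
        ← Real.rpow_neg hNpos.le]
      apply Real.rpow_le_rpow_of_exponent_le hNr
      norm_num
    have h4 : 38 / (32 : ℝ) ^ g ≤ 16 * (1 / y) := by
      rw [mul_one_div, div_le_div_iff₀ (by positivity) hy0]
      have h5 : (76 : ℝ) * y ≤ y ^ 5 := by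
        have h6 : (76 : ℝ) * y ≤ y * y := by gcongr
        have h7 : y ^ 2 ≤ y ^ 5 := pow_le_pow_right₀ hy1 (by norm_num)
        nlinarith
      linarith
    linarith
  have hc : 4 * ((31 + kth θ) / 32) ^ g ≤ 16 * Eθ ^ 2 := by
    have h3 := kth_le hθ
    have hk := kth_nonneg θ
    have h4 : ((31 + kth θ) / 32) ^ g ≤ Real.exp (-(θ ^ 2 / 256)) ^ g :=
      pow_le_pow_left₀ (by positivity) h3 g
    rw [← Real.exp_nat_mul] at h4
    have h5 : Real.log N ≤ 1000 * (g + 1) := by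
      have h6 : Real.log N ≤ Real.log (2 ^ (1000 * (g + 1))) :=
        Real.log_le_log hNpos hQ2.le
      rw [Real.log_pow] at h6
      push_cast at h6
      have h7 := Real.log_two_lt_d9
      have h8 : (0 : ℝ) ≤ 1000 * (g + 1) := by positivity
      nlinarith
    have hθ2 : θ ^ 2 ≤ 1 / 4 := by
      rw [← sq_abs]
      nlinarith [abs_nonneg θ]
    have hθ0 : 0 ≤ θ ^ 2 := sq_nonneg _
    have hlog0 : 0 ≤ Real.log N := Real.log_nonneg hNr
    have h6 : (g : ℝ) * -(θ ^ 2 / 256) ≤ 1 + 2 * (-(1 / 1000000) * θ ^ 2 * Real.log N) := by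
      have h7 : θ ^ 2 * Real.log N ≤ θ ^ 2 * (1000 * (g + 1)) := mul_le_mul_of_nonneg_left h5 hθ0
      have h8 : 0 ≤ θ ^ 2 * Real.log N := mul_nonneg hθ0 hlog0
      have h9 : 0 ≤ θ ^ 2 * g := mul_nonneg hθ0 (Nat.cast_nonneg _)
      nlinarith
    have h7 : Real.exp ((g : ℝ) * -(θ ^ 2 / 256)) ≤ 4 * Eθ ^ 2 := by
      calc Real.exp ((g : ℝ) * -(θ ^ 2 / 256))
          ≤ Real.exp (1 + 2 * (-(1 / 1000000) * θ ^ 2 * Real.log N)) := Real.exp_le_exp.2 h6
        _ = Real.exp 1 * Eθ ^ 2 := by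
            rw [Real.exp_add, hEθ, ← Real.exp_nat_mul]
            norm_num
        _ ≤ 4 * Eθ ^ 2 := by
            apply mul_le_mul_of_nonneg_right _ (sq_nonneg _)
            have := Real.exp_one_lt_d9
            linarith
    linarith
  have hfin : ‖∑ n ∈ Finset.Ioc n1 n2, ff θ (m * n)‖ ^ 2 ≤ (8 * ((H : ℝ) / m) * (Eθ + Nc)) ^ 2 := by
    refine hmain.trans ?_
    calc (2 * (H : ℝ) / m) ^ 2 * (38 / 32 ^ g + 4 * ((31 + kth θ) / 32) ^ g)
        ≤ (2 * (H : ℝ) / m) ^ 2 * (16 * (Eθ + Nc) ^ 2) := by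
          apply mul_le_mul_of_nonneg_left _ (sq_nonneg _)
          nlinarith [mul_pos hE0 hNc0]
      _ = (8 * ((H : ℝ) / m) * (Eθ + Nc)) ^ 2 := by ring
  exact le_of_sq_le_sq hfin (by positivity)

end Pool.Agent.Work.MP_8e4d29_nt

end

section

/-!
MP_8e4d29_nt: item D15, type II sums.
-/

namespace Pool.Agent.Work.MP_8e4d29_nt.TypeII

open Finset Filter
open Pool.Agent.Work.MP_122e00_nt (ee)

/-- the parameter `g` -/
def gN (N : ℕ) : ℕ := Nat.log 2 N / 2000000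

lemma RR_pow_le {N : ℕ} (hN : 1 ≤ N) : RR (gN N) ^ 200000 ≤ N := by
  have h1 : RR (gN N) ^ 200000 = 2 ^ (2000000 * gN N) := by
    unfold RR
    rw [← pow_mul]
    congr 1
    ring
  rw [h1]
  refine le_trans (Nat.pow_le_pow_right (by norm_num) ?_) (Nat.pow_log_le_self 2 (by omega))
  unfold gN
  exact Nat.mul_div_le _ _

lemma lt_RR_pow {N : ℕ} : N < 2 ^ (2000000 * (gN N + 1)) := by
  refine lt_of_lt_of_le (Nat.lt_pow_succ_log_self (b := 2) (by norm_num) N)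
    (Nat.pow_le_pow_right (by norm_num) ?_)
  unfold gN
  omega

/-- lower bound for `g` -/
lemma gN_ge {N : ℕ} (hN : 1 ≤ N) (h : 8000000 ≤ Real.log N) :
    Real.log N / 4000000 ≤ gN N := by
  have h1 : (N : ℝ) < 2 ^ (2000000 * (gN N + 1)) := by exact_mod_cast lt_RR_pow (N := N)
  have hN0 : (0 : ℝ) < N := by exact_mod_cast hN
  have h2 := Real.log_lt_log hN0 h1
  rw [Real.log_pow] at h2
  have h3 := Real.log_two_lt_d9
  push_cast at h2
  have h4 : (2000000 * ((gN N : ℝ) + 1)) * Real.log 2 ≤ (2000000 * ((gN N : ℝ) + 1)) * 0.7 := by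
    apply mul_le_mul_of_nonneg_left (by linarith)
    positivity
  linarith

lemma RR_le_rpow {N : ℕ} (hN : 1 ≤ N) : (RR (gN N) : ℝ) ≤ (N : ℝ) ^ ((1 : ℝ) / 200000) := by
  have h1 : ((RR (gN N) : ℝ)) ^ (200000 : ℕ) ≤ N := by exact_mod_cast RR_pow_le hN
  have h2 : ((RR (gN N) : ℝ)) = ((RR (gN N) : ℝ) ^ (200000 : ℕ)) ^ ((1 : ℝ) / 200000) := by
    rw [← Real.rpow_natCast, ← Real.rpow_mul (Nat.cast_nonneg _)]
    norm_num
  rw [h2]
  exact Real.rpow_le_rpow (by positivity) h1 (by norm_num)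

lemma rpow_le_RR {N : ℕ} : (N : ℝ) ^ ((1 : ℝ) / 200000) ≤ 1024 * RR (gN N) := by
  have h1 : (N : ℝ) ≤ (1024 * (RR (gN N) : ℝ)) ^ (200000 : ℕ) := by
    have h2 : (1024 * (RR (gN N))) ^ (200000 : ℕ) = 2 ^ (2000000 * (gN N + 1)) := by
      unfold RR
      have h3 : 1024 * 2 ^ (10 * gN N) = 2 ^ (10 * (gN N + 1)) := by
        rw [mul_add, pow_add, mul_comm]
        norm_num
      rw [h3, ← pow_mul]
      congr 1
      ring
    have h3 : N ≤ (1024 * (RR (gN N))) ^ (200000 : ℕ) := by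
      rw [h2]
      exact lt_RR_pow.le
    exact_mod_cast h3
  have h2 : (1024 * (RR (gN N) : ℝ))
      = ((1024 * (RR (gN N) : ℝ)) ^ (200000 : ℕ)) ^ ((1 : ℝ) / 200000) := by
    rw [← Real.rpow_natCast, ← Real.rpow_mul (by positivity)]
    norm_num
  rw [h2]
  exact Real.rpow_le_rpow (by positivity) h1 (by norm_num)

lemma RR_pow_le_rpow {N : ℕ} (hN : 1 ≤ N) (k : ℕ) :
    (RR (gN N) : ℝ) ^ k ≤ (N : ℝ) ^ ((k : ℝ) / 200000) := by
  have h1 := pow_le_pow_left₀ (Nat.cast_nonneg _) (RR_le_rpow hN) k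
  rw [← Real.rpow_natCast ((N : ℝ) ^ ((1 : ℝ) / 200000)), ← Real.rpow_mul (Nat.cast_nonneg _)] at h1
  have h2 : (1 : ℝ) / 200000 * k = k / 200000 := by ring
  rwa [h2] at h1

/-- the conditions on `N` alone -/
lemma exists_N0 : ∃ N0 : ℕ, ∀ N : ℕ, N0 ≤ N → 2 ≤ N ∧ 8000000 ≤ Real.log N ∧
    4 ≤ (N : ℝ) ^ ((1 : ℝ) / 2000) ∧ Nat.log 2 N + 10 ≤ RR (gN N) ∧
    ∀ x : ℕ, x ≤ 8 * N → x.divisors.card ^ 2 ≤ RR (gN N) := by
  obtain ⟨C, hC0, hC⟩ := Pool.Agent.Work.MP_e0aece_nt.exists_divisor_bound (1 / 1000000)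
    (by norm_num)
  have hcast : Tendsto (fun N : ℕ => (N : ℝ)) atTop atTop := tendsto_natCast_atTop_atTop
  have e1 : ∀ᶠ N : ℕ in atTop, 8000000 ≤ Real.log N :=
    (Real.tendsto_log_atTop.comp hcast).eventually_ge_atTop _
  have e2 : ∀ᶠ N : ℕ in atTop, 4 ≤ (N : ℝ) ^ ((1 : ℝ) / 2000) :=
    ((tendsto_rpow_atTop (by norm_num)).comp hcast).eventually_ge_atTop _
  have e3 : ∀ᶠ N : ℕ in atTop, C ^ 2 * 8 * 1024 ≤ (N : ℝ) ^ ((3 : ℝ) / 1000000) :=
    ((tendsto_rpow_atTop (by norm_num)).comp hcast).eventually_ge_atTop _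
  have e4 : ∀ᶠ N : ℕ in atTop, ‖Real.log (N : ℝ)‖ ≤ (1 / 4096) *
      ‖(N : ℝ) ^ ((1 : ℝ) / 200000)‖ :=
    hcast.eventually ((isLittleO_log_rpow_atTop (by norm_num)).bound (by norm_num))
  have e5 : ∀ᶠ N : ℕ in atTop, 40960 ≤ (N : ℝ) ^ ((1 : ℝ) / 200000) :=
    ((tendsto_rpow_atTop (by norm_num)).comp hcast).eventually_ge_atTop _
  obtain ⟨N0, hN0⟩ := eventually_atTop.mp
    (e1.and (e2.and (e3.and (e4.and (e5.and (eventually_ge_atTop 2))))))
  refine ⟨N0, fun N hN => ?_⟩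
  obtain ⟨h1, h2, h3, h4, h5, h6⟩ := hN0 N hN
  have hN1 : (1 : ℝ) ≤ N := by exact_mod_cast (by omega : 1 ≤ N)
  have hN0' : (0 : ℝ) < N := by linarith
  have hR := rpow_le_RR (N := N)
  refine ⟨h6, h1, h2, ?_, ?_⟩
  · have h7 : (Nat.log 2 N : ℝ) * Real.log 2 ≤ Real.log N := by
      rw [← Real.log_pow]
      apply Real.log_le_log (by positivity)
      exact_mod_cast Nat.pow_log_le_self 2 (by omega)
    have h8 := Real.log_two_gt_d9
    have h9 : (Nat.log 2 N : ℝ) * 0.5 ≤ (Nat.log 2 N : ℝ) * Real.log 2 :=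
      mul_le_mul_of_nonneg_left (by linarith) (Nat.cast_nonneg _)
    rw [Real.norm_eq_abs, Real.norm_eq_abs, abs_of_nonneg (by linarith),
      abs_of_nonneg (by positivity)] at h4
    have h10 : ((Nat.log 2 N : ℝ) + 10) ≤ RR (gN N) := by linarith
    exact_mod_cast h10
  · intro x hx
    rcases Nat.eq_zero_or_pos x with h0 | h0
    · subst h0
      simp
    have h7 := hC x h0
    have h8 : (x : ℝ) ≤ 8 * N := by exact_mod_cast hx
    have h9 : ((x.divisors.card : ℝ)) ^ 2 ≤ RR (gN N) := by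
      have h10 : ((x.divisors.card : ℝ)) ^ 2 ≤ (C * (x : ℝ) ^ ((1 : ℝ) / 1000000)) ^ 2 :=
        pow_le_pow_left₀ (Nat.cast_nonneg _) h7 2
      have h11 : (x : ℝ) ^ ((1 : ℝ) / 1000000) ≤ (8 * N : ℝ) ^ ((1 : ℝ) / 1000000) :=
        Real.rpow_le_rpow (Nat.cast_nonneg _) h8 (by norm_num)
      have h12 : (C * (x : ℝ) ^ ((1 : ℝ) / 1000000)) ^ 2
          ≤ (C * (8 * N : ℝ) ^ ((1 : ℝ) / 1000000)) ^ 2 :=
        pow_le_pow_left₀ (by positivity) (mul_le_mul_of_nonneg_left h11 hC0.le) 2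
      have h13 : ((8 * N : ℝ) ^ ((1 : ℝ) / 1000000)) ^ 2 ≤ 8 * (N : ℝ) ^ ((2 : ℝ) / 1000000) := by
        rw [Real.mul_rpow (by norm_num) hN0'.le, mul_pow]
        have h14 : ((8 : ℝ) ^ ((1 : ℝ) / 1000000)) ^ 2 ≤ 8 := by
          rw [← Real.rpow_natCast, ← Real.rpow_mul (by norm_num)]
          calc (8 : ℝ) ^ ((1 : ℝ) / 1000000 * ((2 : ℕ) : ℝ)) ≤ (8 : ℝ) ^ (1 : ℝ) :=
                Real.rpow_le_rpow_of_exponent_le (by norm_num) (by norm_num)
            _ = 8 := Real.rpow_one _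
        have h15 : ((N : ℝ) ^ ((1 : ℝ) / 1000000)) ^ 2 = (N : ℝ) ^ ((2 : ℝ) / 1000000) := by
          rw [← Real.rpow_natCast, ← Real.rpow_mul hN0'.le]
          norm_num
        rw [h15]
        exact mul_le_mul_of_nonneg_right h14 (by positivity)
      have h16 : (N : ℝ) ^ ((1 : ℝ) / 200000)
          = (N : ℝ) ^ ((2 : ℝ) / 1000000) * (N : ℝ) ^ ((3 : ℝ) / 1000000) := by
        rw [← Real.rpow_add hN0']
        norm_num
      have h17 : (C ^ 2 * 8 * 1024) * (N : ℝ) ^ ((2 : ℝ) / 1000000)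
          ≤ 1024 * RR (gN N) := by
        refine le_trans ?_ hR
        rw [h16, mul_comm]
        exact mul_le_mul_of_nonneg_left h3 (by positivity)
      have h18 : (C * (8 * N : ℝ) ^ ((1 : ℝ) / 1000000)) ^ 2
          ≤ C ^ 2 * (8 * (N : ℝ) ^ ((2 : ℝ) / 1000000)) := by
        rw [mul_pow]
        exact mul_le_mul_of_nonneg_left h13 (by positivity)
      linarith
    exact_mod_cast h9

/-- the parameters -/
lemma params {N A H M P a : ℕ} (hN2 : 2 ≤ N) (hlogN : 8000000 ≤ Real.log N)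
    (h4 : 4 ≤ (N : ℝ) ^ ((1 : ℝ) / 2000)) (hlog : Nat.log 2 N + 10 ≤ RR (gN N))
    (hdiv : ∀ x : ℕ, x ≤ 8 * N → x.divisors.card ^ 2 ≤ RR (gN N))
    (hA : N ≤ A) (hAH : A + H ≤ 4 * N) (hH : (N : ℝ) ^ ((77 : ℝ) / 100) ≤ H)
    (hH' : (H : ℝ) ≤ (N : ℝ) ^ ((80 : ℝ) / 100)) (hPM : P ≤ M) (hMP : M * P ≤ 4 * N)
    (hMP' : N ≤ 4 * (M * P)) (hHP : (N : ℝ) ^ ((1 : ℝ) / 1000) * N ≤ 4 * (H * P))
    (ha : a = 5 ∨ a = 12) : Par N A H M P (gN N) a := by
  have hN1 : (1 : ℝ) ≤ N := by exact_mod_cast (by omega : 1 ≤ N)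
  have hN0' : (0 : ℝ) < N := by linarith
  have hN1' : 1 ≤ N := by omega
  refine ⟨?_, ha, ?_, hPM, hMP, hMP', hA, hAH, ?_, ?_, ?_, hlog, hdiv⟩
  · have h1 := gN_ge hN1' hlogN
    have h2 : (2 : ℝ) ≤ gN N := by linarith
    exact_mod_cast h2
  · rcases Nat.eq_zero_or_pos P with h0 | h0
    · subst h0
      omega
    · exact h0
  · have h1 := RR_pow_le_rpow hN1' 100
    have h2 : (N : ℝ) ^ ((1 : ℝ) / 1000)
        = (N : ℝ) ^ ((1 : ℝ) / 2000) * (N : ℝ) ^ ((1 : ℝ) / 2000) := by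
      rw [← Real.rpow_add hN0']
      norm_num
    have h3 : ((100 : ℕ) : ℝ) / 200000 = 1 / 2000 := by norm_num
    rw [h3] at h1
    have h5 : (RR (gN N) : ℝ) ^ 100 * N ≤ H * P := by
      have h6 : (RR (gN N) : ℝ) ^ 100 * N ≤ (N : ℝ) ^ ((1 : ℝ) / 2000) * N :=
        mul_le_mul_of_nonneg_right h1 hN0'.le
      have h7 : 4 * ((N : ℝ) ^ ((1 : ℝ) / 2000) * N) ≤ (N : ℝ) ^ ((1 : ℝ) / 1000) * N := by
        rw [h2]
        have h8 : 0 ≤ (N : ℝ) ^ ((1 : ℝ) / 2000) * N := by positivity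
        nlinarith
      linarith
    exact_mod_cast h5
  · have h1 := RR_pow_le_rpow hN1' 100
    have h5 : (RR (gN N) : ℝ) ^ 100 * H ≤ N := by
      calc (RR (gN N) : ℝ) ^ 100 * H
          ≤ (N : ℝ) ^ (((100 : ℕ) : ℝ) / 200000) * (N : ℝ) ^ ((80 : ℝ) / 100) :=
            mul_le_mul h1 hH' (Nat.cast_nonneg _) (by positivity)
        _ = (N : ℝ) ^ (((100 : ℕ) : ℝ) / 200000 + 80 / 100) := by rw [← Real.rpow_add hN0']
        _ ≤ (N : ℝ) ^ (1 : ℝ) := Real.rpow_le_rpow_of_exponent_le hN1 (by norm_num)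
        _ = N := Real.rpow_one _
    exact_mod_cast h5
  · have h1 := RR_pow_le_rpow hN1' 200
    have h5 : (N : ℝ) ^ 3 * (RR (gN N) : ℝ) ^ 200 ≤ (H : ℝ) ^ 4 := by
      calc (N : ℝ) ^ 3 * (RR (gN N) : ℝ) ^ 200
          ≤ (N : ℝ) ^ (3 : ℝ) * (N : ℝ) ^ (((200 : ℕ) : ℝ) / 200000) := by
            apply mul_le_mul _ h1 (by positivity) (by positivity)
            exact_mod_cast le_refl ((N : ℝ) ^ 3)
        _ = (N : ℝ) ^ (3 + ((200 : ℕ) : ℝ) / 200000) := by rw [← Real.rpow_add hN0']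
        _ ≤ (N : ℝ) ^ ((77 : ℝ) / 100 * (4 : ℕ)) :=
            Real.rpow_le_rpow_of_exponent_le hN1 (by norm_num)
        _ = ((N : ℝ) ^ ((77 : ℝ) / 100)) ^ 4 := by
            rw [Real.rpow_mul hN0'.le, Real.rpow_natCast]
        _ ≤ (H : ℝ) ^ 4 := pow_le_pow_left₀ (by positivity) hH 4
    exact_mod_cast h5

/-! ### Hoelder -/

lemma hoelder {ι : Type*} (s : Finset ι) (w X : ι → ℝ) :
    (∑ i ∈ s, w i * X i) ^ 8 ≤ (∑ i ∈ s, w i ^ 2) ^ 4 * (s.card : ℝ) ^ 3 * ∑ i ∈ s, X i ^ 8 := by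
  have h1 := sum_mul_sq_le_sq_mul_sq s w X
  have h2 := sq_sum_le_card_mul_sum_sq (s := s) (f := fun i => X i ^ 2)
  have h3 := sq_sum_le_card_mul_sum_sq (s := s) (f := fun i => X i ^ 4)
  simp only [← pow_mul] at h2 h3
  norm_num at h2 h3
  have hw : 0 ≤ ∑ i ∈ s, w i ^ 2 := sum_nonneg fun i _ => sq_nonneg _
  have hX2 : 0 ≤ ∑ i ∈ s, X i ^ 2 := sum_nonneg fun i _ => sq_nonneg _
  have hX4 : 0 ≤ ∑ i ∈ s, X i ^ 4 := sum_nonneg fun i _ => by positivity
  calc (∑ i ∈ s, w i * X i) ^ 8 = ((∑ i ∈ s, w i * X i) ^ 2) ^ 4 := by ring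
    _ ≤ ((∑ i ∈ s, w i ^ 2) * ∑ i ∈ s, X i ^ 2) ^ 4 :=
        pow_le_pow_left₀ (sq_nonneg _) h1 4
    _ = (∑ i ∈ s, w i ^ 2) ^ 4 * ((∑ i ∈ s, X i ^ 2) ^ 2) ^ 2 := by ring
    _ ≤ (∑ i ∈ s, w i ^ 2) ^ 4 * ((s.card : ℝ) * ∑ i ∈ s, X i ^ 4) ^ 2 :=
        mul_le_mul_of_nonneg_left (pow_le_pow_left₀ (sq_nonneg _) h2 2) (by positivity)
    _ = (∑ i ∈ s, w i ^ 2) ^ 4 * (s.card : ℝ) ^ 2 * (∑ i ∈ s, X i ^ 4) ^ 2 := by ring
    _ ≤ (∑ i ∈ s, w i ^ 2) ^ 4 * (s.card : ℝ) ^ 2 * ((s.card : ℝ) * ∑ i ∈ s, X i ^ 8) :=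
        mul_le_mul_of_nonneg_left h3 (by positivity)
    _ = _ := by ring

/-- the sum of the weights -/
lemma tau_sum {C : ℕ} (hC : ∀ x : ℕ, 1 ≤ x → ∑ n ∈ Icc 1 x, tau n ^ 4 ≤ x * (2 + Real.log x) ^ C)
    {P R1 : ℕ} (hP : 1 ≤ P) (hR : R1 ≤ P) :
    ∑ i ∈ Ico 1 R1 ×ˢ Ioc P (2 * P), (tau i.2 * tau (i.2 + i.1)) ^ 2 ≤
      R1 * ((3 * P : ℕ) * (2 + Real.log ((3 * P : ℕ) : ℝ)) ^ C) := by
  set T : ℝ := ∑ n ∈ Icc 1 (3 * P), tau n ^ 4 with hT
  have hT1 := hC (3 * P) (by omega)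
  have ht0 : ∀ n, 0 ≤ tau n := fun n => Nat.cast_nonneg _
  have h1 : ∀ r ∈ Ico 1 R1, ∑ n ∈ Ioc P (2 * P), (tau n * tau (n + r)) ^ 2 ≤ T := by
    intro r hr
    rw [mem_Ico] at hr
    have h2 : ∑ n ∈ Ioc P (2 * P), tau n ^ 4 ≤ T := by
      apply sum_le_sum_of_subset_of_nonneg
      · intro n hn
        rw [mem_Ioc] at hn
        rw [mem_Icc]
        omega
      · intro n _ _
        exact pow_nonneg (ht0 n) _
    have h3 : ∑ n ∈ Ioc P (2 * P), tau (n + r) ^ 4 ≤ T := by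
      have h4 : ∑ n ∈ Ioc P (2 * P), tau (n + r) ^ 4
          = ∑ x ∈ (Ioc P (2 * P)).map (addRightEmbedding r), tau x ^ 4 := by
        rw [sum_map]
        rfl
      rw [h4]
      apply sum_le_sum_of_subset_of_nonneg
      · intro x hx
        rw [Finset.mem_map] at hx
        obtain ⟨n, hn, rfl⟩ := hx
        rw [mem_Ioc] at hn
        rw [mem_Icc, addRightEmbedding_apply]
        omega
      · intro n _ _
        exact pow_nonneg (ht0 n) _
    have h5 : ∀ n, (tau n * tau (n + r)) ^ 2 ≤ (tau n ^ 4 + tau (n + r) ^ 4) / 2 := by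
      intro n
      nlinarith [sq_nonneg (tau n ^ 2 - tau (n + r) ^ 2)]
    calc ∑ n ∈ Ioc P (2 * P), (tau n * tau (n + r)) ^ 2
        ≤ ∑ n ∈ Ioc P (2 * P), (tau n ^ 4 + tau (n + r) ^ 4) / 2 := sum_le_sum fun n _ => h5 n
      _ = (∑ n ∈ Ioc P (2 * P), tau n ^ 4 + ∑ n ∈ Ioc P (2 * P), tau (n + r) ^ 4) / 2 := by
          rw [← sum_div, sum_add_distrib]
      _ ≤ T := by linarith
  have hT0 : 0 ≤ T := sum_nonneg fun n _ => pow_nonneg (ht0 n) _
  rw [sum_product]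
  calc ∑ r ∈ Ico 1 R1, ∑ n ∈ Ioc P (2 * P), (tau n * tau (n + r)) ^ 2
      ≤ ∑ r ∈ Ico 1 R1, T := sum_le_sum h1
    _ = ((R1 - 1 : ℕ) : ℝ) * T := by simp
    _ ≤ R1 * T := by
        apply mul_le_mul_of_nonneg_right _ hT0
        exact_mod_cast Nat.sub_le _ _
    _ ≤ _ := mul_le_mul_of_nonneg_left hT1 (Nat.cast_nonneg _)

/-! ### the saving -/

/-- the two parts of the saving -/
noncomputable def uu (g : ℕ) : ℝ := Real.exp (-(g / 10))
noncomputable def vv (θ : ℝ) (g : ℕ) : ℝ := Real.exp (-(2 * θ ^ 2 * g / 2 ^ 48))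

lemma saving {θ : ℝ} (hθ : |θ| ≤ 1 / 2) (g : ℕ) :
    (1 : ℝ) / 2 ^ (5 * g) + (1 - (1 - |Real.cos (Real.pi * θ)|) / 2 ^ 44) ^ g ≤
      (uu g + vv θ g) ^ 16 := by
  have h1 : (1 : ℝ) / 2 ^ (5 * g) ≤ uu g ^ 16 := by
    unfold uu
    rw [← Real.exp_nat_mul, one_div, ← Real.exp_log (show (0 : ℝ) < 2 by norm_num),
      ← Real.exp_nat_mul, ← Real.exp_neg]
    apply Real.exp_le_exp.mpr
    have h2 := Real.log_two_gt_d9
    have h3 : (0 : ℝ) ≤ g := Nat.cast_nonneg _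
    push_cast
    nlinarith
  have hcos : Real.cos (Real.pi * θ) ≤ 1 - 2 * θ ^ 2 := by
    have h2 : |Real.pi * θ| ≤ Real.pi := by
      rw [abs_mul, abs_of_pos Real.pi_pos]
      nlinarith [Real.pi_pos]
    have h3 := Real.cos_le_one_sub_mul_cos_sq h2
    have h4 : 2 / Real.pi ^ 2 * (Real.pi * θ) ^ 2 = 2 * θ ^ 2 := by
      field_simp
    rw [h4] at h3
    exact h3
  have hcos0 : 0 ≤ Real.cos (Real.pi * θ) := by
    apply Real.cos_nonneg_of_mem_Icc
    rw [abs_le] at hθ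
    constructor <;> nlinarith [Real.pi_pos, hθ.1, hθ.2]
  have h2 : (1 - (1 - |Real.cos (Real.pi * θ)|) / 2 ^ 44) ^ g ≤ vv θ g ^ 16 := by
    rw [abs_of_nonneg hcos0]
    have h3 : 0 ≤ 1 - (1 - Real.cos (Real.pi * θ)) / 2 ^ 44 := by
      have : (1 - Real.cos (Real.pi * θ)) / 2 ^ 44 ≤ 1 := by
        rw [div_le_one (by norm_num)]
        linarith
      linarith
    have h4 : 1 - (1 - Real.cos (Real.pi * θ)) / 2 ^ 44 ≤ Real.exp (-(2 * θ ^ 2 / 2 ^ 44)) := by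
      have h5 := Real.add_one_le_exp (-(2 * θ ^ 2 / 2 ^ 44))
      have h6 : 2 * θ ^ 2 / 2 ^ 44 ≤ (1 - Real.cos (Real.pi * θ)) / 2 ^ 44 := by
        apply div_le_div_of_nonneg_right _ (by norm_num)
        linarith
      linarith
    refine (pow_le_pow_left₀ h3 h4 g).trans (le_of_eq ?_)
    unfold vv
    rw [← Real.exp_nat_mul, ← Real.exp_nat_mul]
    congr 1
    push_cast
    ring
  have h3 := pow_add_pow_le (Real.exp_pos _).le (Real.exp_pos _).le (n := 16) (by norm_num)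
    (x := uu g) (y := vv θ g)
  linarith

/-- the double sum -/
lemma double_sum {C2 : ℕ}
    (hC : ∀ x : ℕ, 1 ≤ x → ∑ n ∈ Icc 1 x, tau n ^ 4 ≤ x * (2 + Real.log x) ^ C2)
    {N A H M P g a : ℕ} {Cc : ℝ} {θ : ℝ} (hθ : |θ| ≤ 1 / 2) (hF : ParF N A H M P g a)
    (hN : 1 ≤ N) (hP : 12 ≤ P)
    (hcore : ∑ r ∈ Ico 1 (RR g ^ a), ∑ n ∈ Ioc P (2 * P),
      ‖∑ m ∈ Ioc M (2 * M), phi θ A H M n r m‖ ^ 8 ≤
      Cc * (RR g : ℝ) ^ a * P * (Lm H P : ℝ) ^ 8 *
      (1 / 2 ^ (5 * g) + (1 - (1 - |Real.cos (Real.pi * θ)|) / 2 ^ 44) ^ g)) :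
    ∑ r ∈ Ico 1 (RR g ^ a), ∑ n ∈ Ioc P (2 * P), tau n * tau (n + r) *
      ‖∑ m ∈ Ioc M (2 * M), phi θ A H M n r m‖ ≤
    (81 * max Cc 1) * (2 + Real.log N) ^ C2 * (uu g + vv θ g) ^ 2 * (2 * (RR g : ℝ) ^ a * H) := by
  set R1 : ℕ := RR g ^ a with hR1
  have hR1c : ((RR g : ℝ)) ^ a = (R1 : ℝ) := by rw [hR1]; push_cast; rfl
  rw [hR1c] at hcore ⊢
  set s := Ico 1 R1 ×ˢ Ioc P (2 * P) with hs
  set w : ℕ × ℕ → ℝ := fun i => tau i.2 * tau (i.2 + i.1) with hw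
  set X : ℕ × ℕ → ℝ := fun i => ‖∑ m ∈ Ioc M (2 * M), phi θ A H M i.2 i.1 m‖ with hX
  have h1 : ∑ r ∈ Ico 1 R1, ∑ n ∈ Ioc P (2 * P), tau n * tau (n + r) *
      ‖∑ m ∈ Ioc M (2 * M), phi θ A H M n r m‖ = ∑ i ∈ s, w i * X i := by
    rw [hs, sum_product]
  have h2 : ∑ r ∈ Ico 1 R1, ∑ n ∈ Ioc P (2 * P),
      ‖∑ m ∈ Ioc M (2 * M), phi θ A H M n r m‖ ^ 8 = ∑ i ∈ s, X i ^ 8 := by
    rw [hs, sum_product]
  rw [h1]
  rw [h2] at hcore
  have h3 := hoelder s w X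
  have hRP : R1 ≤ P := hF.fRaP
  have h4 := tau_sum hC (by omega : 1 ≤ P) hRP
  have hcard : (s.card : ℝ) ≤ R1 * P := by
    rw [hs, card_product, Nat.card_Ico, Nat.card_Ioc]
    have : (R1 - 1) * (2 * P - P) ≤ R1 * P := Nat.mul_le_mul (Nat.sub_le _ _) (by omega)
    exact_mod_cast this
  -- logarithms
  have hN1 : (1 : ℝ) ≤ N := by exact_mod_cast hN
  have h3P : 3 * P ≤ N := by
    have := hF.fPP
    nlinarith
  set l : ℝ := 2 + Real.log N with hl
  have hl2 : 2 ≤ l := by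
    have := Real.log_nonneg hN1
    rw [hl]; linarith
  have hlP : 2 + Real.log ((3 * P : ℕ) : ℝ) ≤ l := by
    rw [hl]
    have : Real.log ((3 * P : ℕ) : ℝ) ≤ Real.log N := by
      apply Real.log_le_log
      · exact_mod_cast (by omega : 0 < 3 * P)
      · exact_mod_cast h3P
    linarith
  have hlP0 : 0 ≤ 2 + Real.log ((3 * P : ℕ) : ℝ) := by
    have : (1 : ℝ) ≤ ((3 * P : ℕ) : ℝ) := by exact_mod_cast (by omega : 1 ≤ 3 * P)
    have := Real.log_nonneg this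
    linarith
  have hw2 : ∑ i ∈ s, w i ^ 2 ≤ 3 * (R1 * P) * l ^ C2 := by
    refine h4.trans ?_
    calc (R1 : ℝ) * ((3 * P : ℕ) * (2 + Real.log ((3 * P : ℕ) : ℝ)) ^ C2)
        ≤ R1 * ((3 * P : ℕ) * l ^ C2) := by
          apply mul_le_mul_of_nonneg_left _ (Nat.cast_nonneg _)
          exact mul_le_mul_of_nonneg_left (pow_le_pow_left₀ hlP0 hlP _) (Nat.cast_nonneg _)
      _ = 3 * (R1 * P) * l ^ C2 := by push_cast; ring
  have hw0 : 0 ≤ ∑ i ∈ s, w i ^ 2 := sum_nonneg fun i _ => sq_nonneg _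
  have hX0 : 0 ≤ ∑ i ∈ s, X i ^ 8 := sum_nonneg fun i _ => by positivity
  set K0 : ℝ := 81 * max Cc 1 with hK0
  have hK1 : 1 ≤ K0 := by
    rw [hK0]
    have := le_max_right Cc 1
    linarith
  have hK81 : 81 * Cc ≤ K0 := by
    rw [hK0]
    have := le_max_left Cc 1
    linarith
  set δ : ℝ := 1 / 2 ^ (5 * g) + (1 - (1 - |Real.cos (Real.pi * θ)|) / 2 ^ 44) ^ g with hδ
  have hδ0 : 0 ≤ δ := by
    rw [hδ]
    have h5 : 0 ≤ 1 - (1 - |Real.cos (Real.pi * θ)|) / 2 ^ 44 := by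
      have h6 := abs_nonneg (Real.cos (Real.pi * θ))
      have : (1 - |Real.cos (Real.pi * θ)|) / 2 ^ 44 ≤ 1 := by
        rw [div_le_one (by norm_num)]
        linarith
      linarith
    positivity
  have hδ1 : δ ≤ (uu g + vv θ g) ^ 16 := saving hθ g
  set t : ℝ := uu g + vv θ g with ht
  have ht0 : 0 ≤ t := add_nonneg (Real.exp_pos _).le (Real.exp_pos _).le
  have hLm : (P : ℝ) * Lm H P ≤ 2 * H := by exact_mod_cast hF.fLm2
  have hfin : (∑ i ∈ s, w i * X i) ^ 8 ≤ (K0 * l ^ C2 * t ^ 2 * (2 * R1 * H)) ^ 8 := by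
    calc (∑ i ∈ s, w i * X i) ^ 8
        ≤ (∑ i ∈ s, w i ^ 2) ^ 4 * (s.card : ℝ) ^ 3 * ∑ i ∈ s, X i ^ 8 := h3
      _ ≤ (3 * (R1 * P) * l ^ C2) ^ 4 * (R1 * P) ^ 3 * (Cc * R1 * P * (Lm H P : ℝ) ^ 8 * δ) := by
          apply mul_le_mul _ hcore hX0 (by positivity)
          apply mul_le_mul (pow_le_pow_left₀ hw0 hw2 4)
            (pow_le_pow_left₀ (Nat.cast_nonneg _) hcard 3) (by positivity) (by positivity)
      _ = (81 * Cc) * (l ^ C2) ^ 4 * δ * (R1 * (P * Lm H P)) ^ 8 := by ring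
      _ ≤ K0 * (l ^ C2) ^ 4 * t ^ 16 * (R1 * (2 * H)) ^ 8 := by
          apply mul_le_mul _ _ (by positivity) (by positivity)
          · apply mul_le_mul _ hδ1 hδ0 (by positivity)
            exact mul_le_mul_of_nonneg_right hK81 (by positivity)
          · exact pow_le_pow_left₀ (by positivity)
              (mul_le_mul_of_nonneg_left hLm (Nat.cast_nonneg _)) 8
      _ ≤ K0 ^ 8 * (l ^ C2) ^ 8 * t ^ 16 * (R1 * (2 * H)) ^ 8 := by
          apply mul_le_mul_of_nonneg_right _ (by positivity)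
          apply mul_le_mul_of_nonneg_right _ (by positivity)
          apply mul_le_mul _ _ (by positivity) (by positivity)
          · calc K0 = K0 ^ 1 := (pow_one _).symm
              _ ≤ K0 ^ 8 := pow_le_pow_right₀ hK1 (by norm_num)
          · exact pow_le_pow_right₀ (one_le_pow₀ (by linarith)) (by norm_num)
      _ = (K0 * l ^ C2 * t ^ 2 * (2 * R1 * H)) ^ 8 := by ring
  exact le_of_pow_le_pow_left₀ (by norm_num) (by positivity) hfin

end Pool.Agent.Work.MP_8e4d29_nt.TypeII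

namespace Pool.Agent.Work.MP_8e4d29_nt

open Finset Filter TypeII
open Pool.Agent.Work.MP_122e00_nt (ee)

theorem claimTypeII (h0 : ClaimParF) (h1 : ClaimStep1) (h2 : ClaimTau) (h3 : ClaimAlpha)
    (h4 : ClaimCore) : ClaimTypeII := by
  obtain ⟨C1, hC1⟩ := h1
  obtain ⟨C2, hC2⟩ := h2 4
  obtain ⟨Cc, hCc⟩ := h4
  obtain ⟨N0, hN0⟩ := exists_N0
  set K0 : ℝ := 81 * max Cc 1 with hK0
  have hK1 : 1 ≤ K0 := by
    rw [hK0]
    have := le_max_right Cc 1
    linarith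
  set k : ℕ := ⌈3 * K0⌉₊ with hk
  have hk2 : 3 * K0 ≤ 2 ^ k := by
    refine (Nat.le_ceil _).trans ?_
    rw [← hk]
    exact_mod_cast (Nat.lt_two_pow_self).le
  refine ⟨1 / (2000000 * 2 ^ 48), C1 + C2 + k, N0, by positivity, ?_⟩
  intro N A H M P θ a b hN hA hAH hH hH' hPM hMP hMP' hHP hθ ha hb
  obtain ⟨hN2, hlogN, hN4, hlog, hdiv⟩ := hN0 N hN
  have hN1' : 1 ≤ N := by omega
  have hN1 : (1 : ℝ) ≤ N := by exact_mod_cast hN1'
  have hN0' : (0 : ℝ) < N := by linarith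
  set l : ℝ := 2 + Real.log N with hl
  have hl2 : 2 ≤ l := by rw [hl]; linarith
  by_cases hcase : M * P ≤ 4 * N
  swap
  · -- all products are large
    have hz : ∑ m ∈ Ioc M (2 * M), ∑ n ∈ Ioc P (2 * P),
        (if A < m * n ∧ m * n ≤ A + H then a m * b n * ff θ (m * n) else 0) = 0 := by
      apply sum_eq_zero
      intro m hm
      apply sum_eq_zero
      intro n hn
      rw [mem_Ioc] at hm hn
      apply if_neg
      rintro ⟨_, h6⟩
      have h7 : M * P ≤ m * n := Nat.mul_le_mul hm.1.le hn.1.le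
      omega
    rw [hz, norm_zero]
    positivity
  -- the main case
  obtain ⟨a0, hPar, hAl⟩ : ∃ a0, Par N A H M P (gN N) a0 ∧ AlphaGood N M P (gN N) a0 := by
    have h5 := params hN2 hlogN hN4 hlog hdiv hA hAH hH hH' hPM hcase hMP' hHP (Or.inl rfl)
    have h12 := params hN2 hlogN hN4 hlog hdiv hA hAH hH hH' hPM hcase hMP' hHP (Or.inr rfl)
    rcases h3 N A H M P (gN N) h5 with h | h
    · exact ⟨5, h5, h⟩
    · exact ⟨12, h12, h⟩
  have hF := h0 _ _ _ _ _ _ _ hPar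
  set g := gN N with hg
  have hR20 := hF.fR
  have hRpos : 0 < RR g := by omega
  have ha0 : 5 ≤ a0 ∧ a0 ≤ 12 := by
    rcases hPar.ha with h | h <;> omega
  set R1 : ℕ := RR g ^ a0 with hR1
  have hR1pos : 1 ≤ R1 := Nat.one_le_pow _ _ hRpos
  have hMR1 : M * R1 ≤ H := by
    have h5 := hF.fM
    have h6 : 4 * R1 ≤ RR g ^ 100 := by
      calc 4 * R1 ≤ RR g * RR g ^ 12 := by
            apply Nat.mul_le_mul (by omega)
            exact Nat.pow_le_pow_right hRpos ha0.2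
        _ = RR g ^ 13 := by ring
        _ ≤ RR g ^ 100 := Nat.pow_le_pow_right hRpos (by norm_num)
    have h7 : M * (4 * R1) ≤ 4 * H := (Nat.mul_le_mul_left M h6).trans h5
    have h8 : M * (4 * R1) = 4 * (M * R1) := by ring
    omega
  have hP12 : 12 ≤ P := by
    have h5 := hF.fP
    have h6 : RR g ^ 1 ≤ RR g ^ 200 := Nat.pow_le_pow_right hRpos (by norm_num)
    rw [pow_one] at h6
    have h7 : 12 ≤ 2 ^ 20 := by norm_num
    omega
  have hstep := hC1 N A H M P R1 (ff θ) a b hN2 hA hAH hPar.hP hPM hcase hMP' hR1pos hMR1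
    (fun x => by unfold ff; rw [Pool.Agent.Work.MP_122e00_nt.norm_ee]) ha hb
  have hphi : ∀ r n, ∑ m ∈ Ioc M (2 * M),
      (if A < m * n ∧ m * (n + r) ≤ A + H then
        ff θ (m * (n + r)) * (starRingEnd ℂ) (ff θ (m * n)) else 0)
      = ∑ m ∈ Ioc M (2 * M), phi θ A H M n r m := by
    intro r n
    apply sum_congr rfl
    intro m hm
    rw [mem_Ioc] at hm
    unfold phi Msupp
    simp only [hm.1, hm.2, true_and]
  simp only [hphi] at hstep
  have hD := double_sum hC2 hθ hF hN1' hP12 (hCc N A H M P g a0 θ hPar hAl)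
  set D : ℝ := ∑ r ∈ Ico 1 R1, ∑ n ∈ Ioc P (2 * P), tau n * tau (n + r) *
      ‖∑ m ∈ Ioc M (2 * M), phi θ A H M n r m‖ with hDdef
  have hR1c : ((RR g : ℝ)) ^ a0 = (R1 : ℝ) := by rw [hR1]; push_cast; rfl
  rw [hR1c, ← hK0, ← hl] at hD
  set t : ℝ := uu g + vv θ g with ht
  have hu0 : 0 < uu g := Real.exp_pos _
  have hv0 : 0 < vv θ g := Real.exp_pos _
  have ht0 : 0 < t := add_pos hu0 hv0
  have hR1r : (1 : ℝ) ≤ R1 := by exact_mod_cast hR1pos
  have hR1inv : 1 ≤ t ^ 2 * R1 := by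
    have h5 : uu g ^ 2 ≤ t ^ 2 := pow_le_pow_left₀ hu0.le (by rw [ht]; linarith) 2
    have h6 : 1 ≤ uu g ^ 2 * R1 := by
      have h7 : (1 : ℝ) ≤ uu g ^ 2 * 2 ^ g := by
        unfold uu
        rw [← Real.exp_nat_mul, ← Real.exp_log (show (0 : ℝ) < 2 by norm_num),
          ← Real.exp_nat_mul, ← Real.exp_add]
        apply Real.one_le_exp
        have h8 := Real.log_two_gt_d9
        have h9 : (0 : ℝ) ≤ g := Nat.cast_nonneg _
        push_cast
        nlinarith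
      have h10 : 2 ^ g ≤ R1 := by
        rw [hR1]
        unfold RR
        rw [← pow_mul]
        apply Nat.pow_le_pow_right (by norm_num)
        nlinarith [ha0.1]
      have h11 : (2 : ℝ) ^ g ≤ R1 := by exact_mod_cast h10
      calc (1 : ℝ) ≤ uu g ^ 2 * 2 ^ g := h7
        _ ≤ uu g ^ 2 * R1 := mul_le_mul_of_nonneg_left h11 (by positivity)
    calc (1 : ℝ) ≤ uu g ^ 2 * R1 := h6
      _ ≤ t ^ 2 * R1 := mul_le_mul_of_nonneg_right h5 (by positivity)
  have hH0 : (0 : ℝ) ≤ H := Nat.cast_nonneg _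
  have hl1 : ∀ j : ℕ, 1 ≤ l ^ j := fun j => one_le_pow₀ (by linarith)
  set S := ‖∑ m ∈ Ioc M (2 * M), ∑ n ∈ Ioc P (2 * P),
      if A < m * n ∧ m * n ≤ A + H then a m * b n * ff θ (m * n) else 0‖ with hS
  have hS2 : S ^ 2 ≤ (H * ((3 * K0) * l ^ (C1 + C2) * t)) ^ 2 := by
    calc S ^ 2 ≤ l ^ C1 * ((H : ℝ) / R1) * (H + D) := hstep
      _ ≤ l ^ C1 * ((H : ℝ) / R1) * (H * (t ^ 2 * R1) * (K0 * l ^ C2)
            + K0 * l ^ C2 * t ^ 2 * (2 * R1 * H)) := by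
          apply mul_le_mul_of_nonneg_left _ (by positivity)
          apply add_le_add _ hD
          calc (H : ℝ) = H * 1 * (1 * 1) := by ring
            _ ≤ H * (t ^ 2 * R1) * (K0 * l ^ C2) := by
                apply mul_le_mul (mul_le_mul_of_nonneg_left hR1inv hH0) _ (by norm_num)
                  (by positivity)
                exact mul_le_mul hK1 (hl1 _) (by norm_num) (by positivity)
      _ = (H : ℝ) ^ 2 * ((3 * K0) * (l ^ C1 * l ^ C2) * t ^ 2) := by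
          field_simp
          ring
      _ ≤ (H : ℝ) ^ 2 * ((3 * K0) ^ 2 * ((l ^ C1 * l ^ C2) ^ 2) * t ^ 2) := by
          apply mul_le_mul_of_nonneg_left _ (by positivity)
          apply mul_le_mul_of_nonneg_right _ (by positivity)
          apply mul_le_mul _ _ (by positivity) (by positivity)
          · nlinarith
          · have h5 : 1 ≤ l ^ C1 * l ^ C2 := one_le_mul_of_one_le_of_one_le (hl1 _) (hl1 _)
            nlinarith
      _ = (H * ((3 * K0) * l ^ (C1 + C2) * t)) ^ 2 := by rw [pow_add]; ring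
  have hS1 : S ≤ H * ((3 * K0) * l ^ (C1 + C2) * t) :=
    le_of_pow_le_pow_left₀ (by norm_num) (by positivity) hS2
  have hglog := gN_ge hN1' hlogN
  rw [← hg] at hglog
  have ht1 : t ≤ Real.exp (-(1 / (2000000 * 2 ^ 48)) * θ ^ 2 * Real.log N)
      + (N : ℝ) ^ (-(1 / (2000000 * 2 ^ 48)) : ℝ) := by
    rw [ht, add_comm]
    apply add_le_add
    · unfold vv
      apply Real.exp_le_exp.mpr
      have h5 : 2 * θ ^ 2 * (Real.log N / 4000000) / 2 ^ 48 ≤ 2 * θ ^ 2 * g / 2 ^ 48 := by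
        apply div_le_div_of_nonneg_right _ (by norm_num)
        exact mul_le_mul_of_nonneg_left hglog (by positivity)
      have h6 : 1 / (2000000 * 2 ^ 48) * θ ^ 2 * Real.log N
          = 2 * θ ^ 2 * (Real.log N / 4000000) / 2 ^ 48 := by
        ring
      linarith
    · rw [Real.rpow_def_of_pos hN0']
      unfold uu
      apply Real.exp_le_exp.mpr
      have h5 : Real.log N * (1 / (2000000 * 2 ^ 48)) ≤ Real.log N * (1 / 40000000) := by
        apply mul_le_mul_of_nonneg_left _ (by linarith)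
        norm_num
      linarith
  calc S ≤ H * ((3 * K0) * l ^ (C1 + C2) * t) := hS1
    _ ≤ H * (l ^ k * l ^ (C1 + C2) * t) := by
        apply mul_le_mul_of_nonneg_left _ hH0
        apply mul_le_mul_of_nonneg_right _ ht0.le
        apply mul_le_mul_of_nonneg_right _ (by positivity)
        exact hk2.trans (pow_le_pow_left₀ (by norm_num) hl2 k)
    _ = H * l ^ (C1 + C2 + k) * t := by rw [pow_add l (C1 + C2) k]; ring
    _ ≤ _ := mul_le_mul_of_nonneg_left ht1 (by positivity)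

end Pool.Agent.Work.MP_8e4d29_nt

end

section

/-!
MP_8e4d29_nt: statements, part 5 (the final argument).
-/

namespace Pool.Agent.Work.MP_8e4d29_nt

open Finset
open Pool.Agent.Work.MP_122e00_nt (ee)

/-- R1. existence of a good short interval -/
def ClaimGoodY : Prop := ∃ (c0 C : ℝ) (L0 : ℕ), 0 < c0 ∧ ∀ L : ℕ, L0 ≤ L → NC L →
  ∃ x : ℕ, 3 ^ pj0 L ∣ x ∧ 3 ^ L ≤ x ∧ x < 3 ^ (L + 1) ∧
    x % 2 ^ pk0 L + 3 ^ pj0 L < 2 ^ pk0 L ∧ Phi L x ^ 2 ≤ C * pK L ∧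
    c0 * 3 ^ pj0 L ≤ ∑ n ∈ Ico x (x + 3 ^ pj0 L), ArithmeticFunction.vonMangoldt n

/-- R2. a good short interval contains a prime with `s_2 = s_3` -/
def ClaimCount : Prop := ∀ c0 C : ℝ, 0 < c0 → ∃ L0 : ℕ, ∀ L x : ℕ, L0 ≤ L → 3 ^ pj0 L ∣ x →
  3 ^ L ≤ x → x < 3 ^ (L + 1) → x % 2 ^ pk0 L + 3 ^ pj0 L < 2 ^ pk0 L →
  Phi L x ^ 2 ≤ C * pK L →
  c0 * 3 ^ pj0 L ≤ ∑ n ∈ Ico x (x + 3 ^ pj0 L), ArithmeticFunction.vonMangoldt n →
  ∃ p : ℕ, p.Prime ∧ x ≤ p ∧ Dd p = 0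

end Pool.Agent.Work.MP_8e4d29_nt

end

section

/-!
MP_8e4d29_nt, item D14, second part: the bound for one six-tuple.
-/

namespace Pool.Agent.Work.MP_8e4d29_nt

open Finset
open Pool.Agent.Work.MP_122e00_nt (ee norm_ee)

namespace Core

/-- the saving term -/
noncomputable def BB (θ : ℝ) (N A P g a n r c1 c2 c3 : ℕ) : ℝ :=
  ∑ δ ∈ range 2, kth θ ^ gp g ![cell (i0 N P g a) g (A / n * r + δ * 2 ^ (5 * i0 N P g a)),
    c1, c2, c3]

theorem BB_nonneg (θ : ℝ) (N A P g a n r c1 c2 c3 : ℕ) : 0 ≤ BB θ N A P g a n r c1 c2 c3 :=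
  Finset.sum_nonneg (fun _ _ => pow_nonneg (kth_nonneg θ) _)

theorem RR_pos (g : ℕ) : 0 < RR g := by unfold RR; positivity

theorem small_shift {N A H M P g a s r : ℕ} (hF : ParF N A H M P g a) (hr : r < RR g ^ a)
    (hs : s ≤ Lm H P) : s * r < 2 ^ (5 * i0 N P g a) := by
  have hR : 0 < RR g := RR_pos g
  have hL : 0 < Lm H P := Nat.succ_pos _
  have h1 : s * r ≤ Lm H P * r := Nat.mul_le_mul_right r hs
  have h2 : Lm H P * r < Lm H P * RR g ^ a := Nat.mul_lt_mul_of_pos_left hr hL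
  have h3 : Lm H P * RR g ^ a ≤ Lm H P * RR g ^ a * RR g ^ 90 :=
    Nat.le_mul_of_pos_right _ (Nat.pow_pos hR)
  have h4 := hF.fLmR
  omega

theorem kap_shift {N A H M P g a s : ℕ} (hF : ParF N A H M P g a) (hs : s < RR g ^ 4) :
    2 ^ kap H P g * s < Lm H P ∧ 3 ^ kap3 H P g * s < Lm H P := by
  have hR : 0 < RR g := RR_pos g
  have h46 : RR g ^ 4 ≤ RR g ^ 6 := Nat.pow_le_pow_right hR (by norm_num)
  constructor
  · have h1 : 2 ^ kap H P g * s < 2 ^ kap H P g * RR g ^ 4 :=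
      Nat.mul_lt_mul_of_pos_left hs (by positivity)
    have h2 : 2 ^ kap H P g * RR g ^ 4 ≤ 2 ^ kap H P g * RR g ^ 6 := Nat.mul_le_mul_left _ h46
    have h3 := hF.fkap1
    rw [mul_comm] at h3
    omega
  · have h1 : 3 ^ kap3 H P g * s < 3 ^ kap3 H P g * RR g ^ 4 :=
      Nat.mul_lt_mul_of_pos_left hs (by positivity)
    have h2 : 3 ^ kap3 H P g * RR g ^ 4 ≤ 3 ^ kap3 H P g * RR g ^ 6 := Nat.mul_le_mul_left _ h46
    have h3 := hF.fkap31
    rw [mul_comm] at h3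
    omega

theorem L2_le {N A H M P g a : ℕ} (hF : ParF N A H M P g a) : L2 H P g a ≤ Lm H P := by
  have hR : 0 < RR g := RR_pos g
  have h1 := hF.fL21
  have h2 : L2 H P g a ≤ L2 H P g a * RR g ^ 8 := Nat.le_mul_of_pos_right _ (Nat.pow_pos hR)
  have h3 : L2 H P g a * RR g ^ 8 ≤ L2 H P g a * RR g ^ 8 * RR g ^ a :=
    Nat.le_mul_of_pos_right _ (Nat.pow_pos hR)
  omega

theorem tuple_bound (h3 : ClaimEval) (h4 : ClaimPieces) (h5 : ClaimCubeCell)
    {N A H M P g a : ℕ} {θ : ℝ} {n r s1 s2 t : ℕ} (hpar : Par N A H M P g a)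
    (hF : ParF N A H M P g a)
    (heq : ∀ w : ℕ, 1 ≤ w → w ≤ 2 ^ (5 * ell M g a - kap H P g) * RR g ^ 2 →
      1 / ((Lp H P g a / RR g : ℕ) : ℝ) < nd ((w : ℝ) * n / 2 ^ (5 * ell M g a)))
    (hn1 : P < n) (hn2 : n ≤ 2 * P) (hr : r < RR g ^ a) (hs1 : s1 < RR g ^ 4)
    (hs2 : s2 < RR g ^ 4) (ht : t ≤ L2 H P g a)
    (hmod : t * n % 3 ^ lam3 M g a < eta H P g ∨
      3 ^ lam3 M g a < t * n % 3 ^ lam3 M g a + eta H P g) :
    ‖∑ m ∈ Ico (A / n + 1) (A / n + 1 + Lm H P),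
        cub3 (phi θ A H M n r) (2 ^ kap H P g * s1) (3 ^ kap3 H P g * s2) t m‖ ≤
      Lm H P * BB θ N A P g a n r (cell (i0 N P g a) g (2 ^ kap H P g * s1 * n))
        (cell (i0 N P g a) g (3 ^ kap3 H P g * s2 * n)) (cell (i0 N P g a) g (t * n)) +
      4 * Lm H P / RR g + 32 * (exn A H M P g a n + exn A H M P g a (n + r)) := by
  have hP := hpar.hP
  have hn0 : 0 < n := by omega
  rw [sum_uv hP hn1]
  set h1' := 2 ^ kap H P g * s1 with hh1
  set h2' := 3 ^ kap3 H P g * s2 with hh2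
  set u := uu A M n with hu
  set v := vv A H M n r (h1' + h2' + t) with hv
  set B := BB θ N A P g a n r (cell (i0 N P g a) g (h1' * n))
        (cell (i0 N P g a) g (h2' * n)) (cell (i0 N P g a) g (t * n)) with hB
  have hmem : ∀ m ∈ Ico u v, Msupp A H M n r m ∧ Msupp A H M n r (m + (h1' + h2' + t)) :=
    fun m hm => (mem_uv hn0).mp hm
  have hnotE : ∀ m ∈ Ico u v, m ∉ EE A H M P g a n r h1' h2' t →
      ∀ ε, ¬ Exc H M P g a (pt h1' h2' t n r m ε) := by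
    intro m hm hE ε hε
    apply hE
    unfold EE
    rw [mem_filter]
    exact ⟨hm, ε, hε⟩
  have hmain := h4 N A H M P g a θ n r h1' h2' t u v B
    (fun m => cub3 (phi θ A H M n r) h1' h2' t m) (EE A H M P g a n r h1' h2' t) hpar heq hr
    (uu_le_vv _ _ _ _ _ _) (vv_le hP hn1) (BB_nonneg _ _ _ _ _ _ _ _ _ _ _)
    (fun m => norm_cub3_le (fun m => norm_phi_le _ _ _ _ _ _ _) _ _ _ _) ?_ ?_ ?_
  · have hcard : ((EE A H M P g a n r h1' h2' t).card : ℝ) ≤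
        16 * (exn A H M P g a n + exn A H M P g a (n + r)) := by
      exact_mod_cast card_EE_le (A := A) (H := H) (M := M) (P := P) (g := g) (a := a) (n := n)
        (r := r) (h1 := h1') (h2 := h2') (h3 := t) hn0
    linarith
  · -- evaluation
    intro m hm hE
    have hs := hmem m hm
    apply h3 N A H M P g a θ n r s1 s2 t m hpar hn1 hn2 hr ht hmod
    · intro e1 e2 e3
      rw [← hh1, ← hh2]
      have a1 := Nat.mul_le_mul_right h1' (fin2_le e1)
      have a2 := Nat.mul_le_mul_right h2' (fin2_le e2)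
      have a3 := Nat.mul_le_mul_right t (fin2_le e3)
      exact Msupp_mid hs.1 hs.2 (by omega) (by omega)
    · exact hnotE m hm hE
  · intro m hm hE ε
    have h := hnotE m hm hE ε
    unfold Exc at h
    push Not at h
    exact h.2.2.2.2
  · -- the cube over cells
    intro m0 hm0
    have hs := hmem m0 hm0
    have hrange := Msupp_range hP hn1 hs.1
    have hk := kap_shift hF hs1
    have hk2 := kap_shift hF hs2
    have hcube := h5 (-θ) (kap H P g) (i0 N P g a) (ell M g a) g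
      ![m0 * r, h1' * n, h2' * n, t * n] ![0, h1' * r, h2' * r, t * r] hF.fki hF.fil.le ?_
    · have e1 : ∀ x : ℕ, ee (-(θ * alt (kap H P g) (ell M g a)
          (fun ε => x + sh h1' h2' t n r m0 ε))) =
          ee (-θ * alt (kap H P g) (ell M g a) (fun ε => x +
            (ε 0 * (![m0 * r, h1' * n, h2' * n, t * n] : Fin 4 → ℕ) 0 +
            ε 1 * ((![m0 * r, h1' * n, h2' * n, t * n] : Fin 4 → ℕ) 1 +
              ε 0 * (![0, h1' * r, h2' * r, t * r] : Fin 4 → ℕ) 1) +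
            ε 2 * ((![m0 * r, h1' * n, h2' * n, t * n] : Fin 4 → ℕ) 2 +
              ε 0 * (![0, h1' * r, h2' * r, t * r] : Fin 4 → ℕ) 2) +
            ε 3 * ((![m0 * r, h1' * n, h2' * n, t * n] : Fin 4 → ℕ) 3 +
              ε 0 * (![0, h1' * r, h2' * r, t * r] : Fin 4 → ℕ) 3)))) := by
        intro x
        rw [neg_mul]
        congr 4
        funext ε
        have b0 : (![m0 * r, h1' * n, h2' * n, t * n] : Fin 4 → ℕ) 0 = m0 * r := rfl
        have b1 : (![m0 * r, h1' * n, h2' * n, t * n] : Fin 4 → ℕ) 1 = h1' * n := rfl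
        have b2 : (![m0 * r, h1' * n, h2' * n, t * n] : Fin 4 → ℕ) 2 = h2' * n := rfl
        have b3 : (![m0 * r, h1' * n, h2' * n, t * n] : Fin 4 → ℕ) 3 = t * n := rfl
        have c1 : (![0, h1' * r, h2' * r, t * r] : Fin 4 → ℕ) 1 = h1' * r := rfl
        have c2 : (![0, h1' * r, h2' * r, t * r] : Fin 4 → ℕ) 2 = h2' * r := rfl
        have c3 : (![0, h1' * r, h2' * r, t * r] : Fin 4 → ℕ) 3 = t * r := rfl
        rw [b0, b1, b2, b3, c1, c2, c3]
        unfold sh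
        ring
      rw [Finset.sum_congr rfl (fun x _ => e1 x)]
      refine hcube.trans ?_
      refine mul_le_mul_of_nonneg_left ?_ (by positivity)
      rw [kth_neg]
      obtain ⟨δ, hδ, hcell⟩ := cell_two (i := i0 N P g a) (g := g) (n := n) (r := r) (A := A)
        (m0 := m0) (L := Lm H P) (by omega) (by omega) (small_shift hF hr le_rfl)
      have e2 : (fun j => cell (i0 N P g a) g
          ((![m0 * r, h1' * n, h2' * n, t * n] : Fin 4 → ℕ) j)) =
          ![cell (i0 N P g a) g (A / n * r + δ * 2 ^ (5 * i0 N P g a)),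
            cell (i0 N P g a) g (h1' * n), cell (i0 N P g a) g (h2' * n),
            cell (i0 N P g a) g (t * n)] := by
        funext j
        fin_cases j
        · exact hcell
        · rfl
        · rfl
        · rfl
      rw [e2, hB]
      unfold BB
      exact Finset.single_le_sum (f := fun δ => kth θ ^ gp g
        ![cell (i0 N P g a) g (A / n * r + δ * 2 ^ (5 * i0 N P g a)),
            cell (i0 N P g a) g (h1' * n), cell (i0 N P g a) g (h2' * n),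
            cell (i0 N P g a) g (t * n)]) (fun _ _ => pow_nonneg (kth_nonneg θ) _) hδ
    · intro j
      have hpos : 0 < 2 ^ (5 * i0 N P g a) := by positivity
      fin_cases j
      · exact hpos
      · exact small_shift hF hr hk.1.le
      · exact small_shift hF hr hk2.2.le
      · exact small_shift hF hr (ht.trans (L2_le hF))

end Core

end Pool.Agent.Work.MP_8e4d29_nt

end

section

/-!
MP_8e4d29_nt: R2, a good short interval contains a prime with `s_2 = s_3`.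
-/

namespace Pool.Agent.Work.MP_8e4d29_nt

open Finset Filter
open Pool.Agent.Work.MP_122e00_nt (ee norm_ee ee_add ee_neg)

namespace Cnt

/-- the non-primes contribute little -/
theorem nonprime_sum (x h X : ℕ) (hX : x + h ≤ X) (h1 : 1 ≤ x) :
    ∑ n ∈ (Ico x (x + h)).filter (fun n => ¬ n.Prime), ArithmeticFunction.vonMangoldt n ≤
      2 * Real.sqrt X * Real.log X := by
  have h2 := Chebyshev.psi_sub_theta_eq_sum_not_prime (X : ℝ)
  have h3 : (1 : ℝ) ≤ X := by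
    have : 1 ≤ X := by omega
    exact_mod_cast this
  have h4 := Chebyshev.psi_sub_theta_le h3
  rw [h2, Nat.floor_natCast] at h4
  refine le_trans ?_ h4
  apply Finset.sum_le_sum_of_subset_of_nonneg
  · intro n hn
    rw [Finset.mem_filter, Finset.mem_Ico] at hn
    rw [Finset.mem_filter, Finset.mem_Ioc]
    exact ⟨⟨by omega, by omega⟩, hn.2⟩
  · intro n _ _
    exact ArithmeticFunction.vonMangoldt_nonneg

theorem cont_ee : Continuous ee := by
  unfold ee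
  fun_prop

theorem int_ee (k : ℤ) :
    ∫ θ in (-(1 / 2 : ℝ))..(1 / 2), ee (θ * k) = if k = 0 then 1 else 0 := by
  split_ifs with h
  · subst h
    simp [ee_zero]
    norm_num
  · have h1 : ∀ θ : ℝ, ee (θ * k) = Complex.exp ((2 * Real.pi * k * Complex.I : ℂ) * θ) := by
      intro θ
      unfold ee
      congr 1
      push_cast
      ring
    simp_rw [h1]
    have h2 : (2 * Real.pi * k * Complex.I : ℂ) ≠ 0 := by
      have h3 : (k : ℂ) ≠ 0 := by exact_mod_cast h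
      have h4 : (Real.pi : ℂ) ≠ 0 := by exact_mod_cast Real.pi_ne_zero
      simp [h3, h4]
    rw [integral_exp_mul_complex h2]
    have h5 : Complex.exp ((2 * Real.pi * k * Complex.I : ℂ) * ((1 / 2 : ℝ) : ℂ)) =
        Complex.exp ((2 * Real.pi * k * Complex.I : ℂ) * ((-(1 / 2 : ℝ) : ℝ) : ℂ)) := by
      rw [Complex.exp_eq_exp_iff_exists_int]
      refine ⟨k, ?_⟩
      push_cast
      ring
    rw [h5, sub_self, zero_div]

/-- comparison of the two integrals -/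
theorem core (I : Finset ℕ) (lam : ℕ → ℝ) (D E : ℕ → ℤ) (χ : ℝ → ℂ)
    (hχ : Continuous χ) (θ1 M1 M2 : ℝ) (h0 : 0 ≤ θ1) (h1 : θ1 ≤ 1 / 2) (hM2 : 0 ≤ M2)
    (hmaj : ∀ θ : ℝ, |θ| ≤ θ1 → ‖∑ n ∈ I, (lam n : ℂ) * ee (θ * D n) -
      χ θ * ∑ n ∈ I, (lam n : ℂ) * ee (θ * E n)‖ ≤ M1)
    (hmin : ∀ θ : ℝ, θ1 ≤ |θ| → |θ| ≤ 1 / 2 → ‖∑ n ∈ I, (lam n : ℂ) * ee (θ * D n) -
      χ θ * ∑ n ∈ I, (lam n : ℂ) * ee (θ * E n)‖ ≤ M2) :
    ∑ n ∈ I, lam n * (∫ θ in (-(1 / 2 : ℝ))..(1 / 2), χ θ * ee (θ * E n)).re -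
      (2 * θ1 * M1 + M2) ≤ ∑ n ∈ I.filter (fun n => D n = 0), lam n := by
  have ce : ∀ k : ℤ, Continuous (fun θ : ℝ => ee (θ * k)) := fun k =>
    cont_ee.comp (continuous_id.mul continuous_const)
  set g : ℝ → ℂ := fun θ => ∑ n ∈ I, (lam n : ℂ) * ee (θ * D n) -
      χ θ * ∑ n ∈ I, (lam n : ℂ) * ee (θ * E n) with hg
  have cg1 : Continuous (fun θ : ℝ => ∑ n ∈ I, (lam n : ℂ) * ee (θ * D n)) :=
    continuous_finsetSum _ (fun n _ => continuous_const.mul (ce _))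
  have cg2 : Continuous (fun θ : ℝ => χ θ * ∑ n ∈ I, (lam n : ℂ) * ee (θ * E n)) :=
    hχ.mul (continuous_finsetSum _ (fun n _ => continuous_const.mul (ce _)))
  have cg : Continuous g := cg1.sub cg2
  have e1 : ∫ θ in (-(1 / 2 : ℝ))..(1 / 2), g θ =
      ((∑ n ∈ I.filter (fun n => D n = 0), lam n : ℝ) : ℂ) -
        ∑ n ∈ I, (lam n : ℂ) * ∫ θ in (-(1 / 2 : ℝ))..(1 / 2), χ θ * ee (θ * E n) := by
    rw [hg]
    simp only []
    rw [intervalIntegral.integral_sub (cg1.intervalIntegrable _ _) (cg2.intervalIntegrable _ _)]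
    congr 1
    · have hi : ∀ n ∈ I, IntervalIntegrable (fun θ : ℝ => (lam n : ℂ) * ee (θ * D n))
          MeasureTheory.volume (-(1 / 2 : ℝ)) (1 / 2) :=
        fun n _ => (continuous_const.mul (ce _)).intervalIntegrable _ _
      rw [intervalIntegral.integral_finsetSum hi]
      rw [Finset.sum_filter]
      push_cast
      apply Finset.sum_congr rfl
      intro n _
      rw [intervalIntegral.integral_const_mul, int_ee]
      split_ifs <;> simp
    · have : ∀ θ : ℝ, χ θ * ∑ n ∈ I, (lam n : ℂ) * ee (θ * E n) =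
          ∑ n ∈ I, (lam n : ℂ) * (χ θ * ee (θ * E n)) := by
        intro θ
        rw [Finset.mul_sum]
        apply Finset.sum_congr rfl
        intro n _
        ring
      simp_rw [this]
      have hi : ∀ n ∈ I, IntervalIntegrable (fun θ : ℝ => (lam n : ℂ) * (χ θ * ee (θ * E n)))
          MeasureTheory.volume (-(1 / 2 : ℝ)) (1 / 2) :=
        fun n _ => (continuous_const.mul (hχ.mul (ce _))).intervalIntegrable _ _
      rw [intervalIntegral.integral_finsetSum hi]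
      apply Finset.sum_congr rfl
      intro n _
      rw [intervalIntegral.integral_const_mul]
  have e2 : ‖∫ θ in (-(1 / 2 : ℝ))..(1 / 2), g θ‖ ≤ 2 * θ1 * M1 + M2 := by
    have s1 : ∫ θ in (-(1 / 2 : ℝ))..(1 / 2), g θ = (∫ θ in (-(1 / 2 : ℝ))..(-θ1), g θ) +
        (∫ θ in (-θ1)..θ1, g θ) + ∫ θ in θ1..(1 / 2), g θ := by
      rw [intervalIntegral.integral_add_adjacent_intervals (cg.intervalIntegrable _ _)
        (cg.intervalIntegrable _ _), intervalIntegral.integral_add_adjacent_intervals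
        (cg.intervalIntegrable _ _) (cg.intervalIntegrable _ _)]
    have b1 : ‖∫ θ in (-(1 / 2 : ℝ))..(-θ1), g θ‖ ≤ M2 * |(-θ1) - (-(1 / 2 : ℝ))| := by
      apply intervalIntegral.norm_integral_le_of_norm_le_const
      intro θ hθ
      rw [Set.uIoc_of_le (by linarith), Set.mem_Ioc] at hθ
      apply hmin
      · rw [le_abs]
        right; linarith
      · rw [abs_le]
        constructor <;> linarith
    have b2 : ‖∫ θ in (-θ1)..θ1, g θ‖ ≤ M1 * |θ1 - (-θ1)| := by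
      apply intervalIntegral.norm_integral_le_of_norm_le_const
      intro θ hθ
      rw [Set.uIoc_of_le (by linarith), Set.mem_Ioc] at hθ
      apply hmaj
      rw [abs_le]
      constructor <;> linarith
    have b3 : ‖∫ θ in θ1..(1 / 2), g θ‖ ≤ M2 * |1 / 2 - θ1| := by
      apply intervalIntegral.norm_integral_le_of_norm_le_const
      intro θ hθ
      rw [Set.uIoc_of_le (by linarith), Set.mem_Ioc] at hθ
      apply hmin
      · rw [le_abs]
        left; linarith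
      · rw [abs_le]
        constructor <;> linarith
    rw [abs_of_nonneg (by linarith)] at b1 b2 b3
    rw [s1]
    refine (norm_add_le _ _).trans ?_
    refine (add_le_add_left (norm_add_le _ _) _).trans ?_
    nlinarith
  rw [e1] at e2
  have e3 := (Complex.abs_re_le_norm _).trans e2
  rw [Complex.sub_re, Complex.ofReal_re, Complex.re_sum] at e3
  have e4 : ∑ n ∈ I, ((lam n : ℂ) * ∫ θ in (-(1 / 2 : ℝ))..(1 / 2), χ θ * ee (θ * E n)).re =
      ∑ n ∈ I, lam n * (∫ θ in (-(1 / 2 : ℝ))..(1 / 2), χ θ * ee (θ * E n)).re := by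
    apply Finset.sum_congr rfl
    intro n _
    rw [Complex.re_ofReal_mul]
  rw [e4, abs_le] at e3
  linarith [e3.1]

theorem cont_chA (n2 n3 : ℕ) : Continuous (chA n2 n3) := by
  unfold chA
  have h := cont_ee
  have h1 : Continuous (fun θ : ℝ => ee θ) := h
  have h2 : Continuous (fun θ : ℝ => ee (-θ)) := h.comp continuous_neg
  have h3 : Continuous (fun θ : ℝ => ee (-(2 * θ))) :=
    h.comp (continuous_neg.comp (continuous_const.mul continuous_id))
  exact (((continuous_const.add h1).div_const _).pow _).mul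
    ((((continuous_const.add h2).add h3).div_const _).pow _)

/-- the weight of the `n` with large deviation -/
theorem cheb (I : Finset ℕ) (lam : ℕ → ℝ) (hlam : ∀ n, 0 ≤ lam n) (f : ℕ → ℝ) (V T : ℝ)
    (hT : 0 < T) (h : ∑ n ∈ I, lam n * f n ^ 2 ≤ V) :
    ∑ n ∈ I.filter (fun n => ¬ |f n| ≤ T), lam n ≤ V / T ^ 2 := by
  rw [le_div_iff₀ (by positivity), Finset.sum_mul]
  refine le_trans ?_ h
  refine le_trans ?_ (Finset.sum_le_sum_of_subset_of_nonneg (Finset.filter_subset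
    (fun n => ¬ |f n| ≤ T) I) (fun n _ _ => mul_nonneg (hlam n) (sq_nonneg _)))
  apply Finset.sum_le_sum
  intro n hn
  rw [Finset.mem_filter] at hn
  apply mul_le_mul_of_nonneg_left _ (hlam n)
  have h1 : T ≤ |f n| := by
    have := hn.2
    push Not at this
    exact this.le
  rw [← sq_abs (f n)]
  exact pow_le_pow_left₀ hT.le h1 2

/-! ### sizes -/

theorem le_pK (L : ℕ) : L ≤ pK L := by
  unfold pK
  apply Nat.le_log_of_pow_le (by norm_num)
  exact Nat.pow_le_pow_left (by norm_num) L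

theorem ev_minor (c : ℝ) (hc : 0 < c) (C : ℕ) : ∀ᶠ K : ℕ in atTop,
    (2 + (K : ℝ)) ^ C * (Real.exp (-((C : ℝ) + 4) * Real.log K) + Real.exp (-(c * K / 2))) ≤
      1 / (K : ℝ) ^ 2 := by
  have t1 : Tendsto (fun K : ℕ => c * (K : ℝ) / 2) atTop atTop := by
    have : Tendsto (fun K : ℕ => (K : ℝ)) atTop atTop := tendsto_natCast_atTop_atTop
    have := this.const_mul_atTop (show 0 < c / 2 by positivity)
    refine this.congr ?_
    intro K
    ring
  have t2 := (Real.tendsto_pow_mul_exp_neg_atTop_nhds_zero (C + 4)).comp t1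
  have t3 := t2.eventually_le_const (u := (c / 2) ^ (C + 4)) (by positivity)
  have t4 : ∀ᶠ K : ℕ in atTop, 2 ^ (C + 1) + 2 ≤ K := eventually_ge_atTop _
  filter_upwards [t3, t4] with K h1 h2
  have hK : (2 : ℝ) ^ (C + 1) + 2 ≤ K := by exact_mod_cast h2
  have hp : (0 : ℝ) < 2 ^ (C + 1) := by positivity
  have hK0 : (2 : ℝ) ≤ K := by linarith
  have hK1 : (0 : ℝ) < K := by linarith
  have h3 : Real.exp (-(c * K / 2)) ≤ 1 / (K : ℝ) ^ (C + 4) := by
    rw [le_div_iff₀ (by positivity)]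
    simp only [Function.comp] at h1
    have e : (c * (K : ℝ) / 2) ^ (C + 4) = (c / 2) ^ (C + 4) * (K : ℝ) ^ (C + 4) := by
      rw [← mul_pow]
      congr 1
      ring
    rw [e] at h1
    have hcp : 0 < (c / 2) ^ (C + 4) := by positivity
    nlinarith
  have h4 : Real.exp (-((C : ℝ) + 4) * Real.log K) = 1 / (K : ℝ) ^ (C + 4) := by
    have : -((C : ℝ) + 4) * Real.log K = -(((C + 4 : ℕ) : ℝ) * Real.log K) := by push_cast; ring
    rw [this, Real.exp_neg, Real.exp_nat_mul, Real.exp_log hK1, one_div]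
  rw [h4]
  have h5 : (2 + (K : ℝ)) ^ C ≤ (2 * K) ^ C := by
    apply pow_le_pow_left₀ (by positivity)
    linarith
  calc (2 + (K : ℝ)) ^ C * (1 / (K : ℝ) ^ (C + 4) + Real.exp (-(c * K / 2)))
      ≤ (2 * K) ^ C * (1 / (K : ℝ) ^ (C + 4) + 1 / (K : ℝ) ^ (C + 4)) := by gcongr
    _ = 2 ^ (C + 1) / (K : ℝ) ^ 4 := by
        field_simp
        ring
    _ ≤ 1 / (K : ℝ) ^ 2 := by
        rw [div_le_div_iff₀ (by positivity) (by positivity)]
        have : (2 : ℝ) ^ (C + 1) ≤ (K : ℝ) ^ 2 := by nlinarith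
        have hK2 : (0 : ℝ) < (K : ℝ) ^ 2 := by positivity
        nlinarith

/-- `C1 log K / K` is small, and with an extra `K ^ (-1/20)` even times `K` -/
theorem ev_theta (C1 δ : ℝ) (hδ : 0 < δ) : ∀ᶠ K : ℕ in atTop,
    C1 * Real.log K / K ≤ 1 / 4 ∧ C1 * Real.log K ≤ δ * (K : ℝ) ^ ((1 : ℝ) / 20) := by
  have t0 : Tendsto (fun K : ℕ => (K : ℝ)) atTop atTop := tendsto_natCast_atTop_atTop
  have a1 := (isLittleO_log_rpow_atTop (show (0 : ℝ) < 1 / 20 by norm_num)).comp_tendsto t0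
  have a2 := (isLittleO_log_rpow_atTop (show (0 : ℝ) < 1 by norm_num)).comp_tendsto t0
  have b1 := a1.bound (show 0 < δ / (|C1| + 1) by positivity)
  have b2 := a2.bound (show 0 < (1 / 4) / (|C1| + 1) by positivity)
  filter_upwards [b1, b2, eventually_ge_atTop 2] with K h1 h2 h3
  have hK : (2 : ℝ) ≤ K := by exact_mod_cast h3
  have hl : 0 ≤ Real.log K := Real.log_nonneg (by linarith)
  simp only [Function.comp] at h1 h2
  rw [Real.norm_of_nonneg hl, Real.norm_of_nonneg (by positivity)] at h1 h2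
  have hC : C1 ≤ |C1| + 1 := by linarith [le_abs_self C1]
  have hC0 : 0 < |C1| + 1 := by positivity
  constructor
  · rw [Real.rpow_one] at h2
    rw [div_le_iff₀ (by linarith)]
    calc C1 * Real.log K ≤ (|C1| + 1) * Real.log K := by gcongr
      _ ≤ (|C1| + 1) * ((1 / 4) / (|C1| + 1) * K) := by gcongr
      _ = 1 / 4 * K := by field_simp
  · calc C1 * Real.log K ≤ (|C1| + 1) * Real.log K := by gcongr
      _ ≤ (|C1| + 1) * (δ / (|C1| + 1) * (K : ℝ) ^ ((1 : ℝ) / 20)) := by gcongr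
      _ = δ * (K : ℝ) ^ ((1 : ℝ) / 20) := by field_simp

/-- the final numerical inequality -/
theorem ev_final (C1 κ CB : ℝ) (hκ : 0 < κ) (hC1 : 0 ≤ C1) (hCB : 0 ≤ CB) : ∀ᶠ K : ℕ in atTop,
    2 * Real.sqrt (C1 * Real.log K / K) * (K : ℝ) ^ (-(1 : ℝ) / 40) +
      (1 + CB) / (K : ℝ) ^ 2 ≤ κ / 2 / Real.sqrt K := by
  have hev := ev_theta C1 ((κ / 8) ^ 2) (by positivity)
  filter_upwards [hev, eventually_ge_atTop (⌈4 * (1 + CB) / κ⌉₊ + 1)] with K h1 h2
  have hK : 4 * (1 + CB) / κ ≤ K := by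
    refine (Nat.le_ceil _).trans ?_
    exact_mod_cast (by omega : ⌈4 * (1 + CB) / κ⌉₊ ≤ K)
  have hK1n : 1 ≤ K := by omega
  have hK1 : (1 : ℝ) ≤ K := by exact_mod_cast hK1n
  have hK0 : (0 : ℝ) < K := by linarith
  have hs : 0 < Real.sqrt K := Real.sqrt_pos.mpr hK0
  have hs2 : Real.sqrt K * Real.sqrt K = K := Real.mul_self_sqrt hK0.le
  have hs1 : Real.sqrt K ≤ K := by
    rw [Real.sqrt_le_left (by linarith)]
    nlinarith
  have hl : 0 ≤ Real.log K := Real.log_nonneg hK1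
  have p1 : (1 + CB) / (K : ℝ) ^ 2 ≤ κ / 4 / Real.sqrt K := by
    rw [div_le_div_iff₀ (by positivity) hs]
    rw [div_le_iff₀ hκ] at hK
    calc (1 + CB) * Real.sqrt K ≤ (1 + CB) * K := by gcongr
      _ ≤ κ / 4 * (K : ℝ) ^ 2 := by nlinarith
  have p2 : 2 * Real.sqrt (C1 * Real.log K / K) * (K : ℝ) ^ (-(1 : ℝ) / 40) ≤
      κ / 4 / Real.sqrt K := by
    have e1 : Real.sqrt (C1 * Real.log K / K) = Real.sqrt (C1 * Real.log K) / Real.sqrt K :=
      Real.sqrt_div (by positivity) _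
    have e2 : Real.sqrt (C1 * Real.log K) ≤ κ / 8 * (K : ℝ) ^ ((1 : ℝ) / 40) := by
      rw [Real.sqrt_le_left (by positivity)]
      refine h1.2.trans (le_of_eq ?_)
      rw [mul_pow]
      congr 1
      rw [← Real.rpow_natCast, ← Real.rpow_mul hK0.le]
      norm_num
    have e3 : (K : ℝ) ^ ((1 : ℝ) / 40) * (K : ℝ) ^ (-(1 : ℝ) / 40) = 1 := by
      rw [← Real.rpow_add hK0]
      norm_num
    rw [e1]
    calc 2 * (Real.sqrt (C1 * Real.log K) / Real.sqrt K) * (K : ℝ) ^ (-(1 : ℝ) / 40)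
        ≤ 2 * ((κ / 8 * (K : ℝ) ^ ((1 : ℝ) / 40)) / Real.sqrt K) * (K : ℝ) ^ (-(1 : ℝ) / 40) := by
          gcongr
      _ = κ / 4 / Real.sqrt K * ((K : ℝ) ^ ((1 : ℝ) / 40) * (K : ℝ) ^ (-(1 : ℝ) / 40)) := by ring
      _ = κ / 4 / Real.sqrt K := by rw [e3, mul_one]
  have e : κ / 2 / Real.sqrt K = κ / 4 / Real.sqrt K + κ / 4 / Real.sqrt K := by ring
  rw [e]
  linarith

/-- the prime powers are negligible -/
theorem ev_pp (κ : ℝ) (hκ : 0 < κ) : ∀ᶠ X : ℝ in atTop, ∀ K : ℝ, 1 ≤ K → K * Real.log 2 ≤ Real.log X →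
    2 * Real.sqrt (3 * X) * Real.log (3 * X) < X ^ ((77 : ℝ) / 100) * κ / Real.sqrt K := by
  have a1 := isLittleO_log_rpow_rpow_atTop (2 : ℝ) (show (0 : ℝ) < 27 / 100 by norm_num)
  have b1 := a1.bound (show 0 < κ / 20 by positivity)
  filter_upwards [b1, eventually_ge_atTop 3] with X h1 h2 K hK1 hK2
  have hX : 0 < X := by linarith
  have hl1 : 1 ≤ Real.log X := by
    rw [Real.le_log_iff_exp_le hX]
    have := Real.exp_one_lt_d9
    linarith
  rw [Real.norm_of_nonneg (by positivity), Real.norm_of_nonneg (by positivity)] at h1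
  have e2 : Real.log X ^ (2 : ℝ) = Real.log X ^ 2 := by norm_num
  rw [e2] at h1
  have hs : 0 < Real.sqrt K := Real.sqrt_pos.mpr (by linarith)
  have hK3 : K ≤ 2 * Real.log X := by
    have := Real.log_two_gt_d9
    nlinarith
  have hsK : Real.sqrt K ≤ 2 * Real.log X := by
    rw [Real.sqrt_le_left (by linarith)]
    nlinarith
  have h3 : Real.log (3 * X) ≤ 2 * Real.log X := by
    rw [Real.log_mul (by norm_num) hX.ne']
    have : Real.log 3 ≤ Real.log X := Real.log_le_log (by norm_num) h2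
    linarith
  have h4 : Real.sqrt (3 * X) ≤ 2 * X ^ ((1 : ℝ) / 2) := by
    rw [← Real.sqrt_eq_rpow, Real.sqrt_mul (by norm_num)]
    have : Real.sqrt 3 ≤ 2 := by
      rw [Real.sqrt_le_left (by norm_num)]
      norm_num
    gcongr
  have h5 : X ^ ((77 : ℝ) / 100) = X ^ ((1 : ℝ) / 2) * X ^ ((27 : ℝ) / 100) := by
    rw [← Real.rpow_add hX]
    norm_num
  rw [lt_div_iff₀ hs]
  have hx2 : 0 < X ^ ((1 : ℝ) / 2) := by positivity
  have hx27 : 0 < X ^ ((27 : ℝ) / 100) := by positivity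
  have hl3 : 0 ≤ Real.log (3 * X) := Real.log_nonneg (by linarith)
  calc 2 * Real.sqrt (3 * X) * Real.log (3 * X) * Real.sqrt K
      ≤ 2 * (2 * X ^ ((1 : ℝ) / 2)) * (2 * Real.log X) * (2 * Real.log X) := by gcongr
    _ = X ^ ((1 : ℝ) / 2) * (16 * Real.log X ^ 2) := by ring
    _ ≤ X ^ ((1 : ℝ) / 2) * (16 * (κ / 20 * X ^ ((27 : ℝ) / 100))) := by gcongr
    _ < X ^ ((1 : ℝ) / 2) * (X ^ ((27 : ℝ) / 100) * κ) := by
        apply mul_lt_mul_of_pos_left _ hx2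
        nlinarith [mul_pos hκ hx27]
    _ = X ^ ((77 : ℝ) / 100) * κ := by rw [h5]; ring

/-- facts on `N = 3 ^ L - 1` -/
theorem N_facts {L x : ℕ} (hS : SizF L) (h1 : 3 ^ pj0 L ∣ x) (h2 : 3 ^ L ≤ x)
    (h3 : x < 3 ^ (L + 1)) :
    x + 3 ^ pj0 L ≤ 3 ^ (L + 1) ∧ 2 ≤ 3 ^ L - 1 ∧ x - 1 + 3 ^ pj0 L ≤ 4 * (3 ^ L - 1) ∧
    (((3 ^ L - 1 : ℕ) : ℝ)) ^ ((77 : ℝ) / 100) ≤ ((3 ^ pj0 L : ℕ) : ℝ) ∧
    ((3 ^ pj0 L : ℕ) : ℝ) ≤ (((3 ^ L - 1 : ℕ) : ℝ)) ^ ((80 : ℝ) / 100) ∧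
    (pK L : ℝ) / 2 ≤ Real.log ((3 ^ L - 1 : ℕ) : ℝ) ∧ Real.log ((3 ^ L - 1 : ℕ) : ℝ) ≤ pK L := by
  have hK := hS.z1
  have e3 : 3 ^ (L + 1) = 3 * 3 ^ L := by rw [pow_succ]; ring
  have hbig : 2 ^ 80 ≤ 3 ^ L := by
    refine le_trans ?_ hS.z3
    apply Nat.pow_le_pow_right (by norm_num)
    omega
  have a1 : x + 3 ^ pj0 L ≤ 3 ^ (L + 1) := by
    have hd : 3 ^ pj0 L ∣ 3 ^ (L + 1) := pow_dvd_pow 3 (by have := hS.z20'; omega)
    obtain ⟨u, hu⟩ := h1
    obtain ⟨v, hv⟩ := hd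
    rw [hu, hv] at h3
    have huv : u < v := lt_of_mul_lt_mul_left' h3
    rw [hu, hv]
    calc 3 ^ pj0 L * u + 3 ^ pj0 L = 3 ^ pj0 L * (u + 1) := by ring
      _ ≤ 3 ^ pj0 L * v := Nat.mul_le_mul_left _ huv
  have hNle : ((3 ^ L - 1 : ℕ) : ℝ) ≤ ((3 ^ L : ℕ) : ℝ) := by exact_mod_cast Nat.sub_le _ _
  have hN1 : (1 : ℝ) ≤ ((3 ^ L - 1 : ℕ) : ℝ) := by
    have : 1 ≤ 3 ^ L - 1 := by omega
    exact_mod_cast this
  have hNge : ((3 ^ L : ℕ) : ℝ) / 2 ≤ ((3 ^ L - 1 : ℕ) : ℝ) := by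
    have : 3 ^ L ≤ 2 * (3 ^ L - 1) := by omega
    have h : ((3 ^ L : ℕ) : ℝ) ≤ 2 * ((3 ^ L - 1 : ℕ) : ℝ) := by exact_mod_cast this
    linarith
  have hX0 : (0 : ℝ) < ((3 ^ L : ℕ) : ℝ) := by positivity
  refine ⟨a1, by omega, by omega, ?_, ?_, ?_, ?_⟩
  · refine le_trans (Real.rpow_le_rpow (by linarith) hNle (by norm_num)) hS.z4
  · refine le_trans hS.z5 ?_
    have s1 : (((3 ^ L : ℕ) : ℝ) / 2) ^ ((80 : ℝ) / 100) ≤
        (((3 ^ L - 1 : ℕ) : ℝ)) ^ ((80 : ℝ) / 100) :=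
      Real.rpow_le_rpow (by positivity) hNge (by norm_num)
    refine le_trans ?_ s1
    rw [Real.div_rpow hX0.le (by norm_num), le_div_iff₀ (by positivity)]
    have s2 : (2 : ℝ) ^ ((80 : ℝ) / 100) ≤ ((3 ^ L : ℕ) : ℝ) ^ ((1 : ℝ) / 100) := by
      have : (2 : ℝ) ^ ((80 : ℝ) / 100) = ((2 : ℝ) ^ (80 : ℕ)) ^ ((1 : ℝ) / 100) := by
        rw [← Real.rpow_natCast, ← Real.rpow_mul (by norm_num)]
        norm_num
      rw [this]
      apply Real.rpow_le_rpow (by positivity) _ (by norm_num)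
      exact_mod_cast hbig
    calc ((3 ^ L : ℕ) : ℝ) ^ ((79 : ℝ) / 100) * (2 : ℝ) ^ ((80 : ℝ) / 100)
        ≤ ((3 ^ L : ℕ) : ℝ) ^ ((79 : ℝ) / 100) * ((3 ^ L : ℕ) : ℝ) ^ ((1 : ℝ) / 100) := by gcongr
      _ = ((3 ^ L : ℕ) : ℝ) ^ ((80 : ℝ) / 100) := by
          rw [← Real.rpow_add hX0]
          norm_num
  · have s1 : (2 : ℝ) ^ (pK L) / 2 ≤ ((3 ^ L - 1 : ℕ) : ℝ) := by
      refine le_trans ?_ hNge
      have := hS.z3
      have : (2 : ℝ) ^ (pK L) ≤ ((3 ^ L : ℕ) : ℝ) := by exact_mod_cast this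
      linarith
    have s2 : Real.log ((2 : ℝ) ^ (pK L) / 2) ≤ Real.log ((3 ^ L - 1 : ℕ) : ℝ) :=
      Real.log_le_log (by positivity) s1
    rw [Real.log_div (by positivity) (by norm_num), Real.log_pow] at s2
    have hKr : (10 : ℝ) ^ 12 ≤ pK L := by exact_mod_cast hK
    have := Real.log_two_gt_d9
    have := Real.log_two_lt_d9
    nlinarith
  · have s1 : ((3 ^ L - 1 : ℕ) : ℝ) ≤ (2 : ℝ) ^ (pK L + 1) := by
      refine le_trans hNle ?_
      exact_mod_cast hS.z3'.le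
    have s2 := Real.log_le_log (by linarith) s1
    rw [Real.log_pow] at s2
    push_cast at s2
    have hKr : (10 : ℝ) ^ 12 ≤ pK L := by exact_mod_cast hK
    have := Real.log_two_gt_d9
    have := Real.log_two_lt_d9
    push_cast
    nlinarith

/-- minor arcs and tails, abstract form -/
theorem minor_abs (I : Finset ℕ) (K H N n2 n3 : ℕ) (E : ℕ → ℤ) (CB C1 cm : ℝ) (Cm : ℕ) (θ : ℝ)
    (hK1 : (1 : ℝ) ≤ K) (hH0 : (0 : ℝ) < H) (hN1 : (1 : ℝ) ≤ N) (hcm : 0 < cm) (hCB : 0 < CB)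
    (hC10 : 10 ≤ C1) (hC1c : 2 * ((Cm : ℝ) + 4) / cm ≤ C1)
    (g6 : (K : ℝ) / 2 ≤ Real.log N) (g7 : Real.log N ≤ K)
    (f1 : (2 + (K : ℝ)) ^ Cm * (Real.exp (-((Cm : ℝ) + 4) * Real.log K) +
      Real.exp (-(cm * K / 2))) ≤ 1 / (K : ℝ) ^ 2)
    (hθsq : C1 * Real.log K / K ≤ θ ^ 2) (h4 : ClaimChA) (t2 : |θ| ≤ 1 / 2)
    (b1 : (K : ℝ) / 10 ≤ n2) (hup : ∑ n ∈ I, ArithmeticFunction.vonMangoldt n ≤ CB * H)
    (hmin : ‖∑ n ∈ I, (ArithmeticFunction.vonMangoldt n : ℂ) * ee (θ * Dd n)‖ ≤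
      H * (2 + Real.log N) ^ Cm * (Real.exp (-cm * θ ^ 2 * Real.log N) + (N : ℝ) ^ (-cm))) :
      ‖∑ n ∈ I, (ArithmeticFunction.vonMangoldt n : ℂ) * ee (θ * Dd n) -
        chA n2 n3 θ * ∑ n ∈ I, (ArithmeticFunction.vonMangoldt n : ℂ) * ee (θ * E n)‖ ≤
      H * (1 + CB) / (K : ℝ) ^ 2 := by
  have hK0 : (0 : ℝ) < K := by linarith
  have hlogK : 0 ≤ Real.log (K : ℝ) := Real.log_nonneg hK1
  have hLam : ∀ n, 0 ≤ ArithmeticFunction.vonMangoldt n := fun n =>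
    ArithmeticFunction.vonMangoldt_nonneg
  have u1 : ‖∑ n ∈ I, (ArithmeticFunction.vonMangoldt n : ℂ) * ee (θ * Dd n)‖ ≤
      H * (1 / (K : ℝ) ^ 2) := by
    refine hmin.trans ?_
    rw [mul_assoc]
    apply mul_le_mul_of_nonneg_left _ hH0.le
    refine le_trans ?_ f1
    have v1 : Real.exp (-cm * θ ^ 2 * Real.log N) ≤
        Real.exp (-((Cm : ℝ) + 4) * Real.log K) := by
      apply Real.exp_le_exp.mpr
      have w1 : C1 * Real.log K / K * ((K : ℝ) / 2) ≤ θ ^ 2 * Real.log N :=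
        mul_le_mul hθsq g6 (by positivity) (sq_nonneg _)
      have w2 : C1 * Real.log K / K * ((K : ℝ) / 2) = C1 / 2 * Real.log K := by
        field_simp
      rw [w2] at w1
      have w3 : (Cm : ℝ) + 4 ≤ cm * (C1 / 2) := by
        rw [div_le_iff₀ hcm] at hC1c
        linarith
      have w4 : ((Cm : ℝ) + 4) * Real.log K ≤ cm * (C1 / 2) * Real.log K :=
        mul_le_mul_of_nonneg_right w3 hlogK
      have w5 : cm * (C1 / 2 * Real.log K) ≤ cm * (θ ^ 2 * Real.log N) :=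
        mul_le_mul_of_nonneg_left w1 hcm.le
      nlinarith
    have v2 : (N : ℝ) ^ (-cm) ≤ Real.exp (-(cm * K / 2)) := by
      rw [Real.rpow_def_of_pos (by linarith)]
      apply Real.exp_le_exp.mpr
      have : cm * ((K : ℝ) / 2) ≤ cm * Real.log N := mul_le_mul_of_nonneg_left g6 hcm.le
      nlinarith
    have v3 : 0 ≤ Real.log N := Real.log_nonneg hN1
    have v4 : (2 + Real.log N) ^ Cm ≤ (2 + (K : ℝ)) ^ Cm :=
      pow_le_pow_left₀ (by linarith) (by linarith) _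
    exact mul_le_mul v4 (add_le_add v1 v2) (by positivity) (by positivity)
  have u2 : ‖chA n2 n3 θ * ∑ n ∈ I, (ArithmeticFunction.vonMangoldt n : ℂ) * ee (θ * E n)‖ ≤
      (1 / (K : ℝ) ^ 2) * (CB * H) := by
    rw [norm_mul]
    have v1 : ‖chA n2 n3 θ‖ ≤ 1 / (K : ℝ) ^ 2 := by
      refine (h4 n2 n3 θ t2).trans ?_
      have w0 : (1 : ℝ) / (K : ℝ) ^ 2 = Real.exp (-(2 * Real.log K)) := by
        rw [Real.exp_neg, one_div]
        congr 1
        have : (2 : ℝ) * Real.log K = ((2 : ℕ) : ℝ) * Real.log K := by norm_num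
        rw [this, Real.exp_nat_mul, Real.exp_log hK0]
      rw [w0]
      apply Real.exp_le_exp.mpr
      apply neg_le_neg
      have w1 : C1 * Real.log K / K * ((K : ℝ) / 10) ≤ θ ^ 2 * n2 :=
        mul_le_mul hθsq b1 (by positivity) (sq_nonneg _)
      have w2 : C1 * Real.log K / K * ((K : ℝ) / 10) = C1 / 10 * Real.log K := by
        field_simp
      rw [w2] at w1
      have w3 : 1 * Real.log K ≤ C1 / 10 * Real.log K :=
        mul_le_mul_of_nonneg_right (by linarith) hlogK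
      linarith
    have v2 : ‖∑ n ∈ I, (ArithmeticFunction.vonMangoldt n : ℂ) * ee (θ * E n)‖ ≤ CB * H := by
      refine (norm_sum_le _ _).trans (le_trans (le_of_eq ?_) hup)
      apply Finset.sum_congr rfl
      intro n _
      rw [norm_mul, norm_ee, mul_one, Complex.norm_real, Real.norm_of_nonneg (hLam n)]
    exact mul_le_mul v1 v2 (norm_nonneg _) (by positivity)
  refine (norm_sub_le _ _).trans ((add_le_add u1 u2).trans (le_of_eq ?_))
  ring

/-- the main term, abstract form -/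
theorem main_abs (I : Finset ℕ) (K H n2 n3 : ℕ) (E : ℕ → ℤ) (c0 C C2 C3 CB A cL Φ : ℝ)
    (hK1 : (1 : ℝ) ≤ K) (hH0 : (0 : ℝ) < H) (hCB : 0 < CB) (hA0 : 0 < A) (hcL : 0 < cL)
    (hC3 : C3 = 2 * |C2| + 2 * |C| * CB)
    (hA2 : C3 / A ^ 2 ≤ c0 / 2)
    (hPhi : Φ ^ 2 ≤ C * K)
    (hup : ∑ n ∈ I, ArithmeticFunction.vonMangoldt n ≤ CB * H)
    (hpsi : c0 * H ≤ ∑ n ∈ I, ArithmeticFunction.vonMangoldt n)
    (hvar : ∑ n ∈ I, ArithmeticFunction.vonMangoldt n *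
      ((E n : ℝ) + n2 / 2 - n3 - Φ) ^ 2 ≤ C2 * K * H)
    (hLLT : ∀ t : ℤ, 0 ≤ (∫ θ in (-(1 / 2 : ℝ))..(1 / 2), chA n2 n3 θ * ee (-(θ * t))).re ∧
      (|(t : ℝ) - ((n2 : ℝ) / 2 - n3)| ≤ A * Real.sqrt K →
        cL / Real.sqrt K ≤ (∫ θ in (-(1 / 2 : ℝ))..(1 / 2), chA n2 n3 θ * ee (-(θ * t))).re)) :
    cL * c0 / 2 * H / Real.sqrt K ≤ ∑ n ∈ I, ArithmeticFunction.vonMangoldt n *
      (∫ θ in (-(1 / 2 : ℝ))..(1 / 2), chA n2 n3 θ * ee (θ * E n)).re := by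
  have hK0 : (0 : ℝ) < K := by linarith
  have hLam : ∀ n, 0 ≤ ArithmeticFunction.vonMangoldt n := fun n =>
    ArithmeticFunction.vonMangoldt_nonneg
  have hsK : 0 < Real.sqrt K := Real.sqrt_pos.mpr hK0
  obtain ⟨f, hf⟩ : ∃ f : ℕ → ℝ, ∀ n, f n = (E n : ℝ) + n2 / 2 - n3 := ⟨_, fun n => rfl⟩
  have hV : ∑ n ∈ I, ArithmeticFunction.vonMangoldt n * f n ^ 2 ≤ C3 * K * H := by
    have s1 : ∀ n ∈ I, ArithmeticFunction.vonMangoldt n * f n ^ 2 ≤
        2 * (ArithmeticFunction.vonMangoldt n * ((E n : ℝ) + n2 / 2 - n3 - Φ) ^ 2) +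
          2 * Φ ^ 2 * ArithmeticFunction.vonMangoldt n := by
      intro n _
      have : f n ^ 2 ≤ 2 * ((E n : ℝ) + n2 / 2 - n3 - Φ) ^ 2 + 2 * Φ ^ 2 := by
        rw [hf]
        nlinarith [sq_nonneg ((E n : ℝ) + n2 / 2 - n3 - Φ - Φ)]
      have := mul_le_mul_of_nonneg_left this (hLam n)
      linarith
    refine (Finset.sum_le_sum s1).trans ?_
    rw [Finset.sum_add_distrib, ← Finset.mul_sum, ← Finset.mul_sum]
    have s2 : C2 * K * H ≤ |C2| * K * H := by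
      have := le_abs_self C2
      gcongr
    have s3 : Φ ^ 2 ≤ |C| * K := by
      refine hPhi.trans ?_
      have := le_abs_self C
      gcongr
    have s4 : 2 * Φ ^ 2 * ∑ n ∈ I, ArithmeticFunction.vonMangoldt n ≤
        2 * (|C| * K) * (CB * H) := by
      apply mul_le_mul (by linarith) hup (Finset.sum_nonneg (fun n _ => hLam n)) (by positivity)
    rw [hC3]
    nlinarith
  have hdev := cheb I (fun n => ArithmeticFunction.vonMangoldt n) hLam f _
    (A * Real.sqrt K) (by positivity) hV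
  have hdev2 : ∑ n ∈ I.filter (fun n => ¬ |f n| ≤ A * Real.sqrt K),
      ArithmeticFunction.vonMangoldt n ≤ c0 / 2 * H := by
    refine hdev.trans ?_
    rw [mul_pow, Real.sq_sqrt hK0.le]
    have : C3 * K * H / (A ^ 2 * K) = C3 / A ^ 2 * H := by
      field_simp
    rw [this]
    exact mul_le_mul_of_nonneg_right hA2 hH0.le
  have hgood : c0 / 2 * H ≤ ∑ n ∈ I.filter (fun n => |f n| ≤ A * Real.sqrt K),
      ArithmeticFunction.vonMangoldt n := by
    have := Finset.sum_filter_add_sum_filter_not I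
      (fun n => |f n| ≤ A * Real.sqrt K) (fun n => ArithmeticFunction.vonMangoldt n)
    linarith
  have hE : ∀ n, ∫ θ in (-(1 / 2 : ℝ))..(1 / 2), chA n2 n3 θ * ee (θ * E n) =
      ∫ θ in (-(1 / 2 : ℝ))..(1 / 2), chA n2 n3 θ * ee (-(θ * ((-(E n) : ℤ) : ℝ))) := by
    intro n
    congr 1
    ext θ
    congr 2
    push_cast
    ring
  have hL1 := fun n => hLLT (-(E n))
  rw [← Finset.sum_filter_add_sum_filter_not I (fun n => |f n| ≤ A * Real.sqrt K)]
  have p1 : cL * c0 / 2 * H / Real.sqrt K ≤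
      ∑ n ∈ I.filter (fun n => |f n| ≤ A * Real.sqrt K), ArithmeticFunction.vonMangoldt n *
        (∫ θ in (-(1 / 2 : ℝ))..(1 / 2), chA n2 n3 θ * ee (θ * E n)).re := by
    calc cL * c0 / 2 * H / Real.sqrt K = (c0 / 2 * H) * (cL / Real.sqrt K) := by ring
      _ ≤ (∑ n ∈ I.filter (fun n => |f n| ≤ A * Real.sqrt K),
            ArithmeticFunction.vonMangoldt n) * (cL / Real.sqrt K) :=
          mul_le_mul_of_nonneg_right hgood (by positivity)
      _ = ∑ n ∈ I.filter (fun n => |f n| ≤ A * Real.sqrt K),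
            ArithmeticFunction.vonMangoldt n * (cL / Real.sqrt K) := by
          rw [Finset.sum_mul]
      _ ≤ _ := by
          apply Finset.sum_le_sum
          intro n hn
          rw [Finset.mem_filter] at hn
          apply mul_le_mul_of_nonneg_left _ (hLam n)
          rw [hE n]
          apply (hL1 n).2
          refine le_trans (le_of_eq ?_) hn.2
          rw [hf, ← abs_neg]
          congr 1
          push_cast
          ring
  have p2 : 0 ≤ ∑ n ∈ I.filter (fun n => ¬ |f n| ≤ A * Real.sqrt K),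
      ArithmeticFunction.vonMangoldt n *
        (∫ θ in (-(1 / 2 : ℝ))..(1 / 2), chA n2 n3 θ * ee (θ * E n)).re := by
    apply Finset.sum_nonneg
    intro n _
    apply mul_nonneg (hLam n)
    rw [hE n]
    exact (hL1 n).1
  linarith

/-- everything but the prime powers, abstract form -/
theorem fin_abs (I : Finset ℕ) (K H N n2 n3 : ℕ) (E : ℕ → ℤ) (c0 C C1 C2 C3 CB A cL cm Φ : ℝ)
    (Cm : ℕ) (hK1 : (1 : ℝ) ≤ K) (hH0 : (0 : ℝ) < H) (hN1 : (1 : ℝ) ≤ N) (hcm : 0 < cm)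
    (hCB : 0 < CB) (hA0 : 0 < A) (hcL : 0 < cL) (hC3 : C3 = 2 * |C2| + 2 * |C| * CB)
    (hA2 : C3 / A ^ 2 ≤ c0 / 2)
    (hC10 : 10 ≤ C1) (hC1c : 2 * ((Cm : ℝ) + 4) / cm ≤ C1)
    (g6 : (K : ℝ) / 2 ≤ Real.log N) (g7 : Real.log N ≤ K)
    (f1 : (2 + (K : ℝ)) ^ Cm * (Real.exp (-((Cm : ℝ) + 4) * Real.log K) +
      Real.exp (-(cm * K / 2))) ≤ 1 / (K : ℝ) ^ 2)
    (f2 : C1 * Real.log K / K ≤ 1 / 4)
    (f3 : 2 * Real.sqrt (C1 * Real.log K / K) * (K : ℝ) ^ (-(1 : ℝ) / 40) +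
      (1 + CB) / (K : ℝ) ^ 2 ≤ cL * c0 / 2 / 2 / Real.sqrt K)
    (h4 : ClaimChA) (b1 : (K : ℝ) / 10 ≤ n2)
    (hup : ∑ n ∈ I, ArithmeticFunction.vonMangoldt n ≤ CB * H)
    (hmin : ∀ θ : ℝ, |θ| ≤ 1 / 2 →
      ‖∑ n ∈ I, (ArithmeticFunction.vonMangoldt n : ℂ) * ee (θ * Dd n)‖ ≤
      H * (2 + Real.log N) ^ Cm * (Real.exp (-cm * θ ^ 2 * Real.log N) + (N : ℝ) ^ (-cm)))
    (hPhi : Φ ^ 2 ≤ C * K)
    (hpsi : c0 * H ≤ ∑ n ∈ I, ArithmeticFunction.vonMangoldt n)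
    (hvar : ∑ n ∈ I, ArithmeticFunction.vonMangoldt n *
      ((E n : ℝ) + n2 / 2 - n3 - Φ) ^ 2 ≤ C2 * K * H)
    (hmaj : ∀ θ : ℝ, |θ| ≤ Real.sqrt (C1 * Real.log K / K) →
      ‖∑ n ∈ I, (ArithmeticFunction.vonMangoldt n : ℂ) * ee (θ * Dd n) -
        chA n2 n3 θ * ∑ n ∈ I, (ArithmeticFunction.vonMangoldt n : ℂ) * ee (θ * E n)‖ ≤
      H * (K : ℝ) ^ (-(1 : ℝ) / 40))
    (hLLT : ∀ t : ℤ, 0 ≤ (∫ θ in (-(1 / 2 : ℝ))..(1 / 2), chA n2 n3 θ * ee (-(θ * t))).re ∧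
      (|(t : ℝ) - ((n2 : ℝ) / 2 - n3)| ≤ A * Real.sqrt K →
        cL / Real.sqrt K ≤ (∫ θ in (-(1 / 2 : ℝ))..(1 / 2), chA n2 n3 θ * ee (-(θ * t))).re)) :
    cL * c0 / 2 / 2 * H / Real.sqrt K ≤
      ∑ n ∈ I.filter (fun n => Dd n = 0), ArithmeticFunction.vonMangoldt n := by
  have hK0 : (0 : ℝ) < K := by linarith
  have hlogK : 0 ≤ Real.log (K : ℝ) := Real.log_nonneg hK1
  obtain ⟨θ1, hθ1⟩ : ∃ θ1 : ℝ, θ1 = Real.sqrt (C1 * Real.log K / K) := ⟨_, rfl⟩
  have hθ10 : 0 ≤ θ1 := hθ1 ▸ Real.sqrt_nonneg _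
  have hθ1sq : θ1 ^ 2 = C1 * Real.log K / K := by
    rw [hθ1]
    exact Real.sq_sqrt (by positivity)
  have hθ1h : θ1 ≤ 1 / 2 := by
    by_contra hcon
    push Not at hcon
    nlinarith
  rw [← hθ1] at f3 hmaj
  have hmn : ∀ θ : ℝ, θ1 ≤ |θ| → |θ| ≤ 1 / 2 →
      ‖∑ n ∈ I, (ArithmeticFunction.vonMangoldt n : ℂ) * ee (θ * Dd n) -
        chA n2 n3 θ * ∑ n ∈ I, (ArithmeticFunction.vonMangoldt n : ℂ) * ee (θ * E n)‖ ≤
      H * (1 + CB) / (K : ℝ) ^ 2 := by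
    intro θ t1 t2
    have hθsq : C1 * Real.log K / K ≤ θ ^ 2 := by
      rw [← hθ1sq, ← sq_abs θ]
      exact pow_le_pow_left₀ hθ10 t1 2
    exact minor_abs I K H N n2 n3 E CB C1 cm Cm θ hK1 hH0 hN1 hcm hCB hC10 hC1c g6 g7 f1 hθsq h4
      t2 b1 hup (hmin θ t2)
  have hcore := core I (fun n => ArithmeticFunction.vonMangoldt n) Dd E (chA n2 n3)
    (cont_chA n2 n3) θ1 _ _ hθ10 hθ1h (by positivity) hmaj hmn
  have hmain := main_abs I K H n2 n3 E c0 C C2 C3 CB A cL Φ hK1 hH0 hCB hA0 hcL hC3 hA2 hPhi hup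
    hpsi hvar hLLT
  have herr : 2 * θ1 * (H * (K : ℝ) ^ (-(1 : ℝ) / 40)) + H * (1 + CB) / (K : ℝ) ^ 2 ≤
      H * (cL * c0 / 2 / 2 / Real.sqrt K) := by
    refine le_trans (le_of_eq ?_) (mul_le_mul_of_nonneg_left f3 hH0.le)
    ring
  refine le_trans ?_ hcore
  have : cL * c0 / 2 * H / Real.sqrt K - H * (cL * c0 / 2 / 2 / Real.sqrt K) =
      cL * c0 / 2 / 2 * H / Real.sqrt K := by ring
  linarith

theorem Ioc_Ico (x h : ℕ) (hx : 1 ≤ x) : Ioc (x - 1) (x - 1 + h) = Ico x (x + h) := by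
  ext m
  rw [Finset.mem_Ioc, Finset.mem_Ico]
  omega

/-- the whole argument for one interval; all parameters abstract -/
theorem one (x X H K : ℕ) (κ : ℝ) (g1 : x + H ≤ 3 * X) (hx0 : 1 ≤ x)
    (hlow : κ / 2 * H / Real.sqrt K ≤
      ∑ n ∈ (Ico x (x + H)).filter (fun n => Dd n = 0), ArithmeticFunction.vonMangoldt n)
    (hz4 : (X : ℝ) ^ ((77 : ℝ) / 100) ≤ H) (hκ : 0 < κ)
    (f4 : 2 * Real.sqrt (3 * X) * Real.log (3 * X) <
      (X : ℝ) ^ ((77 : ℝ) / 100) * (κ / 2) / Real.sqrt K) :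
    ∃ p : ℕ, p.Prime ∧ x ≤ p ∧ Dd p = 0 := by
  have hnp := nonprime_sum x H (3 * X) g1 hx0
  have hppr : 2 * Real.sqrt ((3 * X : ℕ) : ℝ) * Real.log ((3 * X : ℕ) : ℝ) <
      κ / 2 * H / Real.sqrt K := by
    push_cast
    refine lt_of_lt_of_le f4 ?_
    rw [mul_comm (κ / 2)]
    gcongr
  by_contra hcon
  push Not at hcon
  have hle : ∑ n ∈ (Ico x (x + H)).filter (fun n => Dd n = 0), ArithmeticFunction.vonMangoldt n ≤
      ∑ n ∈ (Ico x (x + H)).filter (fun n => ¬ n.Prime), ArithmeticFunction.vonMangoldt n := by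
    apply Finset.sum_le_sum_of_subset_of_nonneg
    · intro n hn
      rw [Finset.mem_filter] at hn ⊢
      refine ⟨hn.1, fun hp => ?_⟩
      have hn1 := hn.1
      rw [Finset.mem_Ico] at hn1
      exact hcon n hp hn1.1 hn.2
    · intro n _ _
      exact ArithmeticFunction.vonMangoldt_nonneg
  linarith

end Cnt

theorem claimCount (h0 : ClaimSizF) (h1 : ClaimMajor) (h2 : ClaimMinor) (h3 : ClaimLLT)
    (h4 : ClaimChA) (h5 : ClaimBT) : ClaimCount := by
  intro c0 C hc0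
  obtain ⟨LS, hS⟩ := h0
  obtain ⟨cm, Cm, Nm, hcm, hmin⟩ := h2
  obtain ⟨CB, NB, hCB, hBT⟩ := h5
  -- choice of C1
  obtain ⟨C1, hC10, hC1c⟩ : ∃ C1 : ℝ, 10 ≤ C1 ∧ 2 * ((Cm : ℝ) + 4) / cm ≤ C1 :=
    ⟨max 10 (2 * ((Cm : ℝ) + 4) / cm), le_max_left _ _, le_max_right _ _⟩
  obtain ⟨C2, LM, hmaj⟩ := h1 C1
  -- choice of A
  obtain ⟨C3, hC3⟩ : ∃ C3 : ℝ, C3 = 2 * |C2| + 2 * |C| * CB := ⟨_, rfl⟩
  have hC30 : 0 ≤ C3 := by rw [hC3]; positivity
  obtain ⟨A, hA0, hA2⟩ : ∃ A : ℝ, 0 < A ∧ C3 / A ^ 2 ≤ c0 / 2 := by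
    refine ⟨Real.sqrt (2 * C3 / c0) + 1, by positivity, ?_⟩
    rw [div_le_iff₀ (by positivity)]
    have s1 : 2 * C3 / c0 ≤ (Real.sqrt (2 * C3 / c0) + 1) ^ 2 := by
      have h := Real.sq_sqrt (show 0 ≤ 2 * C3 / c0 by positivity)
      have h' := Real.sqrt_nonneg (2 * C3 / c0)
      nlinarith
    rw [div_le_iff₀ hc0] at s1
    linarith
  obtain ⟨cL, KL, hcL, hLLT⟩ := h3 A
  have hκ0 : 0 < cL * c0 / 2 := by positivity
  -- large L
  have tK : Tendsto pK atTop atTop :=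
    tendsto_atTop_mono Cnt.le_pK tendsto_id
  have tX : Tendsto (fun L : ℕ => ((3 ^ L : ℕ) : ℝ)) atTop atTop := by
    have : Tendsto (fun L : ℕ => (3 : ℝ) ^ L) atTop atTop :=
      tendsto_pow_atTop_atTop_of_one_lt (by norm_num)
    refine this.congr (fun L => ?_)
    push_cast
    ring
  have ev1 := tK.eventually (Cnt.ev_minor cm hcm Cm)
  have ev2 := tK.eventually (Cnt.ev_theta C1 1 one_pos)
  have ev3 := tK.eventually (Cnt.ev_final C1 (cL * c0 / 2) CB hκ0 (by linarith) hCB.le)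
  have ev4 := tX.eventually (Cnt.ev_pp (cL * c0 / 2 / 2) (by positivity))
  have ev5 := tK.eventually (eventually_ge_atTop KL)
  have tN : Tendsto (fun L : ℕ => 3 ^ L - 1) atTop atTop := by
    apply tendsto_atTop_mono (fun L : ℕ => ?_) tendsto_id
    have : L < 3 ^ L := Nat.lt_pow_self (by norm_num)
    simp only [id]
    omega
  have ev6 := tN.eventually (eventually_ge_atTop (Nm + NB))
  obtain ⟨L0, hL0⟩ := eventually_atTop.mp
    (((ev1.and ev2).and (ev3.and ev4)).and (ev5.and ev6))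
  refine ⟨max (max LS LM) L0, ?_⟩
  intro L x hL hdvd hx1 hx2 hx3 hPhi hpsi
  have hLS : LS ≤ L := le_trans (le_trans (le_max_left _ _) (le_max_left _ _)) hL
  have hLM : LM ≤ L := le_trans (le_trans (le_max_right _ _) (le_max_left _ _)) hL
  obtain ⟨⟨⟨f1, f2⟩, f3, f4⟩, f5, f6⟩ := hL0 L (le_trans (le_max_right _ _) hL)
  have hSL := hS L hLS
  obtain ⟨g1, g2, g3, g4, g5, g6, g7⟩ := Cnt.N_facts hSL hdvd hx1 hx2
  obtain ⟨n2, n3, E, b1, b2, b3, b4, hmj, hvar⟩ := hmaj L x hLM hdvd hx1 hx2 hx3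
  have hz1 := hSL.z1
  have hz3 := hSL.z3
  have hz4 := hSL.z4
  have hpH : pH L = 3 ^ pj0 L := rfl
  rw [hpH] at hz4
  have hHr : ((3 : ℝ) ^ pj0 L) = ((3 ^ pj0 L : ℕ) : ℝ) := by push_cast; ring
  rw [hHr] at hpsi hmj hvar
  have hH0n : 0 < 3 ^ pj0 L := by positivity
  have hLLT' := fun t => hLLT (pK L) n2 n3 f5 b1 b2 b3 b4 t
  have e3 : 3 ^ (L + 1) = 3 * 3 ^ L := by rw [pow_succ]; ring
  rw [e3] at g1 hx2
  have hX1 : 0 < 3 ^ L := by positivity
  have hmn := fun θ : ℝ => hmin (3 ^ L - 1) (x - 1) (3 ^ pj0 L) θ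
  have hbt := hBT (3 ^ L - 1) (x - 1) (3 ^ pj0 L) 1 0 0
  have hs2 : (pK L : ℝ) * Real.log 2 ≤ Real.log (((3 ^ L : ℕ) : ℝ)) := by
    rw [← Real.log_pow]
    apply Real.log_le_log (by positivity)
    exact_mod_cast hz3
  clear hpH hHr hmaj hmin hLLT hSL hdvd hx3 hL0 hS ev1 ev2 ev3 ev4 ev5 ev6 tN tX tK e3 hLS hLM hL
    hBT hz3
  generalize Phi L x = Φ at *
  generalize 3 ^ pj0 L = H at *
  generalize 3 ^ L = X at *
  generalize pK L = K at *
  obtain ⟨N, hN⟩ : ∃ N : ℕ, N = X - 1 := ⟨_, rfl⟩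
  rw [← hN] at hmn hbt g2 g3 g4 g5 g6 g7 f6
  have hx0 : 1 ≤ x := by omega
  rw [Cnt.Ioc_Ico x H hx0] at hmn hbt
  have hH0 : (0 : ℝ) < H := by exact_mod_cast hH0n
  have hN1 : (1 : ℝ) ≤ (N : ℝ) := by
    have : 1 ≤ N := by omega
    exact_mod_cast this
  have hK1 : (1 : ℝ) ≤ K := by
    have : 1 ≤ K := le_trans (by norm_num) hz1
    exact_mod_cast this
  have hup : ∑ n ∈ Ico x (x + H), ArithmeticFunction.vonMangoldt n ≤ CB * H := by
    have := hbt (by omega) (by omega) (by omega)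
      (le_trans (Real.rpow_le_rpow_of_exponent_le hN1 (by norm_num)) g4) (Or.inl (by norm_num))
      (by rw [Nat.cast_one]; exact Real.one_le_rpow hN1 (by norm_num)) (by norm_num)
    simpa [Nat.mod_one] using this
  have hlow := Cnt.fin_abs (Ico x (x + H)) K H N n2 n3 E c0 C C1 C2 C3 CB A cL cm Φ Cm hK1 hH0 hN1
    hcm hCB hA0 hcL hC3 hA2 hC10 hC1c g6 g7 f1 f2.1 f3 h4 b1 hup
    (fun θ hθ => hmn θ (by omega) (by omega) g3 g4 g5 hθ) hPhi hpsi hvar hmj hLLT'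
  exact Cnt.one x X H K (cL * c0 / 2) g1 hx0 hlow hz4 hκ0 (f4 K hK1 hs2)

end Pool.Agent.Work.MP_8e4d29_nt

end
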