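import Pool.Agent.Work.MP_8e4d29_nt.Bd.B05
import Pool.Agent.Work.MP_8e4d29_nt.Bd.B02
import Pool.Agent.Work.MP_8e4d29_nt.Bd.B04
import Pool.Agent.Work.MP_8e4d29_nt.Bd.B03
import Pool.Agent.Work.MP_8e4d29_nt.Bd.B07

/-! Bundle of small proof modules (one section per former module). -/

section

/-!
MP_8e4d29_nt, item D7: the cube average for shifts given by cells.
-/

namespace Pool.Agent.Work.MP_8e4d29_nt

open Finset
open Pool.Agent.Work.MP_122e00_nt (ee)

/-- one digit group of the cell -/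
theorem cell_group (i g j x : ℕ) (hj : j < g) :
    cell i g x / 1024 ^ j % 1024 = x / (2 ^ (5 * i) * 1024 ^ j) % 1024 := by
  unfold cell RR
  have e1 : (2 : ℕ) ^ (10 * g) = 1024 ^ g := by rw [pow_mul]; norm_num
  rw [e1, ← digit_mod 1024 j (x / 2 ^ (5 * i) % 1024 ^ g)]
  rw [Nat.mod_mod_of_dvd _ (pow_dvd_pow 1024 (Nat.succ_le_of_lt hj)), digit_mod,
    Nat.div_div_eq_div_mul]

/-- the arithmetic of the cells -/
theorem cubeCell_arith (Q : ℕ) (hQ : 0 < Q) (a p : Fin 4 → ℕ) (hp : ∀ j, p j < Q)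
    (h : ∀ k, a k / Q % 1024 = 64) (ε : Fin 4 → Fin 2) :
    (ε 0 * a 0 + ε 1 * (a 1 + ε 0 * p 1) + ε 2 * (a 2 + ε 0 * p 2) +
      ε 3 * (a 3 + ε 0 * p 3)) / (Q * 32) % 32 = 2 * wt ε := by
  have key : ∀ k, ∃ t r : ℕ, a k = Q * (1024 * t + 64) + r ∧ r < Q := by
    intro k
    refine ⟨a k / Q / 1024, a k % Q, ?_, Nat.mod_lt _ hQ⟩
    have h1 := Nat.div_add_mod (a k) Q
    have h2 := Nat.div_add_mod (a k / Q) 1024
    rw [h k] at h2
    rw [h2]
    exact h1.symm
  choose t r ha hr using key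
  have hε : ∀ k, (ε k : ℕ) = 0 ∨ (ε k : ℕ) = 1 := by
    intro k
    have := (ε k).isLt
    omega
  have hw : wt ε = (ε 0 : ℕ) + ε 1 + ε 2 + ε 3 := by
    unfold wt
    rw [Fin.sum_univ_four]
  have main : ∃ T R : ℕ, (ε 0 * a 0 + ε 1 * (a 1 + ε 0 * p 1) + ε 2 * (a 2 + ε 0 * p 2) +
      ε 3 * (a 3 + ε 0 * p 3) : ℕ) = Q * 32 * (32 * T + 2 * wt ε) + R ∧ R < Q * 32 := by
    refine ⟨ε 0 * t 0 + ε 1 * t 1 + ε 2 * t 2 + ε 3 * t 3,
      ε 0 * r 0 + ε 1 * (r 1 + ε 0 * p 1) + ε 2 * (r 2 + ε 0 * p 2) +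
        ε 3 * (r 3 + ε 0 * p 3), ?_, ?_⟩
    · rw [hw, ha 0, ha 1, ha 2, ha 3]
      ring
    · have h0 := hr 0
      have h1 := hr 1
      have h2 := hr 2
      have h3 := hr 3
      have q1 := hp 1
      have q2 := hp 2
      have q3 := hp 3
      rcases hε 0 with e0 | e0 <;> rcases hε 1 with e1 | e1 <;> rcases hε 2 with e2 | e2 <;>
        rcases hε 3 with e3 | e3 <;> rw [e0, e1, e2, e3] <;> omega
  obtain ⟨T, R, hE, hR⟩ := main
  rw [hE, Nat.mul_add_div (by positivity), Nat.div_eq_of_lt hR, add_zero]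
  have hw4 : wt ε ≤ 4 := by
    rw [hw]
    rcases hε 0 with e0 | e0 <;> rcases hε 1 with e1 | e1 <;> rcases hε 2 with e2 | e2 <;>
        rcases hε 3 with e3 | e3 <;> rw [e0, e1, e2, e3] <;> omega
  omega

/-- D7. -/
theorem claimCubeCell (h : ClaimCube) : ClaimCubeCell := by
  intro θ k i l g a p hk hl hp
  have hinj : Function.Injective (fun j : ℕ => i + 2 * j + 1) := by
    intro x y hxy
    simp only at hxy
    omega
  set S := (range g).filter (fun j => ∀ k, cell i g (a k) / 1024 ^ j % 1024 = 64) with hS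
  have h1 := h θ k l (fun ε => ε 0 * a 0 +
      ε 1 * (a 1 + ε 0 * p 1) + ε 2 * (a 2 + ε 0 * p 2) + ε 3 * (a 3 + ε 0 * p 3))
      (S.map ⟨_, hinj⟩) ?_ ?_
  · rw [Finset.card_map] at h1
    exact h1
  · intro i' hi'
    rw [Finset.mem_map] at hi'
    obtain ⟨j, hj, rfl⟩ := hi'
    rw [hS, Finset.mem_filter, Finset.mem_range] at hj
    simp only [Function.Embedding.coeFn_mk]
    omega
  · intro i' hi' ε
    rw [Finset.mem_map] at hi'
    obtain ⟨j, hj, rfl⟩ := hi'
    rw [hS, Finset.mem_filter, Finset.mem_range] at hj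
    obtain ⟨hjg, hj⟩ := hj
    simp only [Function.Embedding.coeFn_mk]
    have e : (2 : ℕ) ^ (5 * (i + 2 * j + 1)) = 2 ^ (5 * i) * 1024 ^ j * 32 := by
      have : (1024 : ℕ) = 2 ^ 10 := by norm_num
      rw [this, ← pow_mul, ← pow_add, show (32 : ℕ) = 2 ^ 5 by norm_num, ← pow_add]
      congr 1
      ring
    rw [e]
    apply cubeCell_arith
    · positivity
    · intro j'
      exact (hp j').trans_le (Nat.le_mul_of_pos_right _ (by positivity))
    · intro k'
      rw [← cell_group i g j _ hjg]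
      exact hj k'

end Pool.Agent.Work.MP_8e4d29_nt

end

section

/-!
MP_8e4d29_nt, item D9: domination for the shifts `q |s - s'| n`.
-/

namespace Pool.Agent.Work.MP_8e4d29_nt

open Finset

namespace Dom12

lemma RR_pos (g : ℕ) : 0 < RR g := by unfold RR; positivity

lemma pow_lam (i g : ℕ) : (2 : ℝ) ^ (5 * (i + 2 * g)) = 2 ^ (5 * i) * (RR g : ℝ) := by
  unfold RR
  push_cast
  rw [← pow_add]
  congr 1
  ring

/-- a point of the cell `c` is close to the centre of the cell modulo `2 ^ λ₁` -/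
lemma nd_of_cell (i g x c : ℕ) (h : cell i g x = c) :
    nd ((x : ℝ) / 2 ^ (5 * (i + 2 * g)) - ((c : ℝ) + 1 / 2) / RR g) ≤ 1 / (2 * (RR g : ℕ)) := by
  have hR : (0 : ℝ) < RR g := by exact_mod_cast RR_pos g
  have hK : (0 : ℝ) < 2 ^ (5 * i) := by positivity
  -- x = s + K (c + R w)
  obtain ⟨w, hw⟩ : ∃ w, w = x / 2 ^ (5 * i) / RR g := ⟨_, rfl⟩
  obtain ⟨s, hs⟩ : ∃ s, s = x % 2 ^ (5 * i) := ⟨_, rfl⟩
  have h1 : x = s + 2 ^ (5 * i) * (c + RR g * w) := by
    have e1 := Nat.mod_add_div x (2 ^ (5 * i))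
    have e2 := Nat.mod_add_div (x / 2 ^ (5 * i)) (RR g)
    unfold cell at h
    rw [h, ← hw] at e2
    rw [← hs, ← e2] at e1
    exact e1.symm
  have hs2 : s < 2 ^ (5 * i) := hs ▸ Nat.mod_lt _ (by positivity)
  have hs3 : (s : ℝ) ≤ 2 ^ (5 * i) := by exact_mod_cast hs2.le
  have h2 : (x : ℝ) / 2 ^ (5 * (i + 2 * g)) - ((c : ℝ) + 1 / 2) / RR g
      = ((s : ℝ) / 2 ^ (5 * i) - 1 / 2) / RR g + ((w : ℤ) : ℝ) := by
    rw [pow_lam, h1]
    push_cast
    field_simp
    ring
  rw [h2, nd_add_int]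
  refine (nd_le_abs _).trans ?_
  rw [abs_div, abs_of_pos hR, div_le_div_iff₀ hR (by positivity)]
  have h3 : |(s : ℝ) / 2 ^ (5 * i) - 1 / 2| ≤ 1 / 2 := by
    rw [abs_le]
    have h4 : (s : ℝ) / 2 ^ (5 * i) ≤ 1 := by rw [div_le_one hK]; exact hs3
    have h5 : 0 ≤ (s : ℝ) / 2 ^ (5 * i) := by positivity
    constructor <;> linarith
  calc |(s : ℝ) / 2 ^ (5 * i) - 1 / 2| * (2 * (RR g : ℝ)) ≤ 1 / 2 * (2 * (RR g : ℝ)) := by gcongr
    _ = 1 * (RR g : ℝ) := by ring

/-- each distance to a fixed point comes from at most two points -/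
lemma card_dist (X s' : ℕ) (p : ℕ → Prop) [DecidablePred p] (hs' : s' < X) :
    ((range X).filter (fun s => p (Nat.dist s s'))).card ≤ 2 * ((range X).filter p).card := by
  have h1 : (range X).filter (fun s => p (Nat.dist s s')) ⊆
      ((range X).filter p).image (fun t => s' + t) ∪ ((range X).filter p).image (fun t => s' - t) := by
    intro s hs
    rw [Finset.mem_filter, Finset.mem_range] at hs
    rw [Finset.mem_union, Finset.mem_image, Finset.mem_image]
    rcases le_total s' s with h | h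
    · left
      refine ⟨s - s', ?_, by omega⟩
      rw [Finset.mem_filter, Finset.mem_range]
      have e : Nat.dist s s' = s - s' := Nat.dist_eq_sub_of_le_right h
      rw [e] at hs
      exact ⟨by omega, hs.2⟩
    · right
      refine ⟨s' - s, ?_, by omega⟩
      rw [Finset.mem_filter, Finset.mem_range]
      have e : Nat.dist s s' = s' - s := Nat.dist_eq_sub_of_le h
      rw [e] at hs
      exact ⟨by omega, hs.2⟩
  refine (Finset.card_le_card h1).trans ((Finset.card_union_le _ _).trans ?_)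
  have h2 := Finset.card_image_le (s := (range X).filter p) (f := fun t => s' + t)
  have h3 := Finset.card_image_le (s := (range X).filter p) (f := fun t => s' - t)
  omega

end Dom12

open Dom12 in
theorem claimDom12 (h : ClaimFejer1) : ClaimDom12 := by
  intro N P g a q n c hE
  have hRp := RR_pos g
  have hR : (0 : ℝ) < RR g := by exact_mod_cast hRp
  obtain ⟨i, hi⟩ : ∃ i, i = i0 N P g a := ⟨_, rfl⟩
  obtain ⟨ξ, hξ⟩ : ∃ ξ : ℝ, ξ = (q : ℝ) * n / 2 ^ (5 * (i + 2 * g)) := ⟨_, rfl⟩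
  obtain ⟨γ, hγ⟩ : ∃ γ : ℝ, γ = ((c : ℝ) + 1 / 2) / RR g := ⟨_, rfl⟩
  -- one-variable count
  have h1 : (((range (RR g ^ 4)).filter (fun t => cell i g (q * t * n) = c)).card : ℝ) ≤
      9 * (RR g : ℝ) ^ 3 := by
    have hF := h (RR g ^ 4) (RR g) ξ γ hRp
    have hsub : (range (RR g ^ 4)).filter (fun t => cell i g (q * t * n) = c) ⊆
        (range (RR g ^ 4)).filter (fun t : ℕ => nd (t * ξ - γ) ≤ 1 / (2 * (RR g : ℕ))) := by
      intro t ht
      rw [Finset.mem_filter] at ht ⊢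
      refine ⟨ht.1, ?_⟩
      have h2 := nd_of_cell i g _ c ht.2
      have e : ((q * t * n : ℕ) : ℝ) / 2 ^ (5 * (i + 2 * g)) = t * ξ := by
        rw [hξ]; push_cast; ring
      rw [e, ← hγ] at h2
      exact h2
    have h3 : (((range (RR g ^ 4)).filter (fun t => cell i g (q * t * n) = c)).card : ℝ) ≤
        (((range (RR g ^ 4)).filter
          (fun t : ℕ => nd (t * ξ - γ) ≤ 1 / (2 * (RR g : ℕ)))).card : ℝ) := by
      exact_mod_cast Finset.card_le_card hsub
    refine h3.trans (hF.trans ?_)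
    have hE2 : ∑ h ∈ Ico 1 (RR g), gm ((RR g ^ 4 : ℕ) : ℝ) (h * ξ) ≤ (RR g : ℝ) ^ 4 := by
      refine le_trans (le_of_eq ?_) hE
      unfold E1
      rw [← hi]
      push_cast
      refine Finset.sum_congr rfl fun h _ => ?_
      congr 1
      rw [hξ]
      ring
    calc 3 / (RR g : ℝ) * (((RR g ^ 4 : ℕ) : ℝ) + 2 * ∑ h ∈ Ico 1 (RR g),
          gm ((RR g ^ 4 : ℕ) : ℝ) (h * ξ))
        ≤ 3 / (RR g : ℝ) * ((RR g : ℝ) ^ 4 + 2 * (RR g : ℝ) ^ 4) := by
          have e : (((RR g ^ 4 : ℕ) : ℝ)) = (RR g : ℝ) ^ 4 := by push_cast; ring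
          rw [e] at hE2 ⊢
          gcongr
      _ = 9 * (RR g : ℝ) ^ 3 := by field_simp; ring
  rw [← hi]
  -- two variables
  have h4 : ((range (RR g ^ 4) ×ˢ range (RR g ^ 4)).filter
      (fun s => cell i g (q * Nat.dist s.1 s.2 * n) = c)).card
      = ∑ s' ∈ range (RR g ^ 4),
        ((range (RR g ^ 4)).filter (fun s => cell i g (q * Nat.dist s s' * n) = c)).card := by
    rw [Finset.card_filter, Finset.sum_product_right]
    refine Finset.sum_congr rfl fun s' _ => ?_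
    rw [Finset.card_filter]
  rw [h4]
  push_cast
  have h5 : ∀ s' ∈ range (RR g ^ 4),
      (((range (RR g ^ 4)).filter (fun s => cell i g (q * Nat.dist s s' * n) = c)).card : ℝ) ≤
        18 * (RR g : ℝ) ^ 3 := by
    intro s' hs'
    have h6 := card_dist (RR g ^ 4) s' (fun t => cell i g (q * t * n) = c)
      (Finset.mem_range.mp hs')
    have h7 : (((range (RR g ^ 4)).filter (fun s => cell i g (q * Nat.dist s s' * n) = c)).card : ℝ)
        ≤ 2 * (((range (RR g ^ 4)).filter (fun t => cell i g (q * t * n) = c)).card : ℝ) := by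
      exact_mod_cast h6
    linarith
  refine (Finset.sum_le_card_nsmul _ _ _ h5).trans ?_
  rw [Finset.card_range, nsmul_eq_mul]
  push_cast
  apply le_of_eq
  ring

end Pool.Agent.Work.MP_8e4d29_nt

end

section

/-!
MP_8e4d29_nt, item D10: the set of the `t` and domination for the shifts `|t - t'| n`.
-/

namespace Pool.Agent.Work.MP_8e4d29_nt

open Finset

namespace Dom3

lemma pigeon (L Z : ℕ) (f : ℕ → ℕ) (hZ : 1 ≤ Z) (hf : ∀ t < L, f t < Z) :
    ∃ c, L ≤ Z * ((range L).filter (fun t => f t = c)).card := by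
  by_contra hcon
  push Not at hcon
  have h1 : (range L).card = ∑ c ∈ range Z, ((range L).filter (fun t => f t = c)).card := by
    apply Finset.card_eq_sum_card_fiberwise
    intro t ht
    simp only [coe_range, Set.mem_Iio] at ht ⊢
    exact hf t ht
  rw [card_range] at h1
  have h3 : ∑ c ∈ range Z, Z * ((range L).filter (fun t => f t = c)).card
      < ∑ _c ∈ range Z, L := by
    apply Finset.sum_lt_sum_of_nonempty
    · exact ⟨0, by simp; omega⟩
    · intro c _
      exact hcon c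
  rw [← Finset.mul_sum, ← h1, Finset.sum_const, card_range, smul_eq_mul] at h3
  exact lt_irrefl _ h3

lemma close_of_div {a b η : ℕ} (hη : 0 < η) (h : a / η = b / η) : a < b + η := by
  have h1 := Nat.div_add_mod a η
  have h2 := Nat.div_add_mod b η
  have h3 := Nat.mod_lt a hη
  rw [h] at h1
  omega

lemma dist_mod {t t' n Q η : ℕ} (hQ : 0 < Q) (hη : 0 < η)
    (h : t * n % Q / η = t' * n % Q / η) :
    Nat.dist t t' * n % Q < η ∨ Q < Nat.dist t t' * n % Q + η := by
  wlog hle : t' ≤ t generalizing t t' with H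
  · rw [Nat.dist_comm]
    exact H h.symm (by omega)
  rw [Nat.dist_eq_sub_of_le_right hle]
  have e : (t - t') * n + t' * n = t * n := by
    rw [← add_mul, Nat.sub_add_cancel hle]
  have e2 : ((t - t') * n + t' * n) % Q = t * n % Q := by rw [e]
  rw [Nat.add_mod] at e2
  have h1 := close_of_div hη h
  have h2 := close_of_div hη h.symm
  have h3 := Nat.mod_lt ((t - t') * n) hQ
  have h4 := Nat.mod_lt (t' * n) hQ
  have h5 := Nat.mod_lt (t * n) hQ
  set x := (t - t') * n % Q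
  set b := t' * n % Q
  set a := t * n % Q
  rcases lt_or_ge (x + b) Q with h6 | h6
  · rw [Nat.mod_eq_of_lt h6] at e2
    left; omega
  · have h7 : (x + b) % Q = x + b - Q := by
      rw [Nat.mod_eq_sub_mod h6, Nat.mod_eq_of_lt (by omega)]
    rw [h7] at e2
    right; omega

lemma nd_cell {i g c u n : ℕ} (hc : cell i g (u * n) = c) :
    nd ((u : ℝ) * ((n : ℝ) / 2 ^ (5 * (i + 2 * g))) - ((c : ℝ) + 1 / 2) / RR g) ≤
      1 / (2 * (RR g : ℕ)) := by
  have hR : 0 < RR g := by unfold RR; positivity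
  have hK : 0 < 2 ^ (5 * i) := by positivity
  unfold cell at hc
  have h1 := Nat.div_add_mod (u * n) (2 ^ (5 * i))
  have h2 := Nat.div_add_mod (u * n / 2 ^ (5 * i)) (RR g)
  have h3 := Nat.mod_lt (u * n) hK
  rw [hc] at h2
  set q := u * n / 2 ^ (5 * i) / RR g
  set ρ := u * n % 2 ^ (5 * i)
  have hRr : (0 : ℝ) < (RR g : ℝ) := by exact_mod_cast hR
  have hKr : (0 : ℝ) < (2 : ℝ) ^ (5 * i) := by positivity
  have e1 : (2 : ℝ) ^ (5 * (i + 2 * g)) = 2 ^ (5 * i) * (RR g : ℝ) := by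
    unfold RR
    push_cast
    rw [← pow_add]
    congr 1
    ring
  have e2 : (u : ℝ) * n = 2 ^ (5 * i) * (RR g * q + c) + ρ := by
    rw [← h2] at h1
    exact_mod_cast h1.symm
  have h3r : (ρ : ℝ) < 2 ^ (5 * i) := by exact_mod_cast h3
  have h0r : (0 : ℝ) ≤ ρ := by positivity
  refine (nd_le_abs_sub_int _ (q : ℤ)).trans ?_
  have e3 : (u : ℝ) * ((n : ℝ) / 2 ^ (5 * (i + 2 * g))) - ((c : ℝ) + 1 / 2) / RR g - ((q : ℤ) : ℝ)
      = (ρ / 2 ^ (5 * i) - 1 / 2) / RR g := by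
    rw [← mul_div_assoc, e2, e1]
    push_cast
    field_simp
    ring
  rw [e3, abs_div, abs_of_pos hRr]
  have h5 : |(ρ : ℝ) / 2 ^ (5 * i) - 1 / 2| ≤ 1 / 2 := by
    have h6 : (ρ : ℝ) / 2 ^ (5 * i) < 1 := by rw [div_lt_one hKr]; exact h3r
    have h7 : (0 : ℝ) ≤ (ρ : ℝ) / 2 ^ (5 * i) := by positivity
    rw [abs_le]; constructor <;> linarith
  rw [div_le_div_iff₀ hRr (by positivity)]
  nlinarith

lemma nd_Q {u n Q η Z : ℕ} (h : u * n % Q < η ∨ Q < u * n % Q + η) (hZ : Z * (2 * η) ≤ Q)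
    (hZ1 : 1 ≤ Z) (hQ : 0 < Q) : nd ((u : ℝ) * ((n : ℝ) / (Q : ℕ)) - 0) ≤ 1 / (2 * (Z : ℕ)) := by
  have h1 := Nat.div_add_mod (u * n) Q
  have h3 := Nat.mod_lt (u * n) hQ
  set q := u * n / Q
  set ρ := u * n % Q
  have hQr : (0 : ℝ) < (Q : ℝ) := by exact_mod_cast hQ
  have hZr : (0 : ℝ) < (Z : ℝ) := by exact_mod_cast hZ1
  have e2 : (u : ℝ) * n = Q * q + ρ := by exact_mod_cast h1.symm
  have hZ' : (Z : ℝ) * (2 * η) ≤ Q := by exact_mod_cast hZ
  have h3r : (ρ : ℝ) < Q := by exact_mod_cast h3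
  have h0r : (0 : ℝ) ≤ ρ := by positivity
  rw [sub_zero]
  rcases h with h | h
  · have hr : (ρ : ℝ) < η := by exact_mod_cast h
    refine (nd_le_abs_sub_int _ (q : ℤ)).trans ?_
    have e3 : (u : ℝ) * ((n : ℝ) / Q) - ((q : ℤ) : ℝ) = ρ / Q := by
      rw [← mul_div_assoc, e2]
      push_cast
      field_simp
      ring
    rw [e3, abs_of_nonneg (by positivity), div_le_div_iff₀ hQr (by positivity)]
    nlinarith
  · have hr : (Q : ℝ) < ρ + η := by exact_mod_cast h
    refine (nd_le_abs_sub_int _ ((q : ℤ) + 1)).trans ?_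
    have e3 : (u : ℝ) * ((n : ℝ) / Q) - (((q : ℤ) + 1 : ℤ) : ℝ) = -((Q - ρ) / Q) := by
      rw [← mul_div_assoc, e2]
      push_cast
      field_simp
      ring
    rw [e3, abs_neg, abs_of_nonneg (div_nonneg (by linarith) hQr.le),
      div_le_div_iff₀ hQr (by positivity)]
    nlinarith

lemma fibre_le (T : Finset ℕ) (P : ℕ → Prop) [DecidablePred P] (U : Finset ℕ) (t' : ℕ)
    (h : ∀ t ∈ T, P (Nat.dist t t') → Nat.dist t t' ∈ U) :
    (T.filter (fun t => P (Nat.dist t t'))).card ≤ 2 * U.card := by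
  apply Finset.card_le_mul_card_image_of_maps_to (f := fun t => Nat.dist t t')
  · intro t ht
    rw [Finset.mem_filter] at ht
    exact h t ht.1 ht.2
  · intro b _
    have hsub : ((T.filter (fun t => P (Nat.dist t t'))).filter (fun t => Nat.dist t t' = b))
        ⊆ {t' + b, t' - b} := by
      intro t ht
      rw [Finset.mem_filter] at ht
      have h2 := ht.2
      rw [Finset.mem_insert, Finset.mem_singleton]
      unfold Nat.dist at h2
      omega
    exact (Finset.card_le_card hsub).trans (Finset.card_le_two)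

end Dom3

open Dom3 in
theorem claimDom3 (h0 : ClaimParF) (h1 : ClaimFejer2) : ClaimDom3 := by
  intro N A H M P g a n hPar hE
  have F := h0 N A H M P g a hPar
  set Q := 3 ^ lam3 M g a with hQdef
  set η := eta H P g with hηdef
  set L := L2 H P g a with hLdef
  set Z := Z3 H M P g a with hZdef
  set R := RR g with hRdef
  have hQ : 0 < Q := by positivity
  have hη : 0 < η := F.feta
  have hZ1 : 1 ≤ Z := F.fZ
  have hR1 : 1 ≤ R := by rw [hRdef]; unfold RR; exact Nat.one_le_two_pow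
  obtain ⟨c0, hc0⟩ := pigeon L (4 * Z) (fun t => t * n % Q / η) (by omega) (by
    intro t _
    have h3 := Nat.mod_lt (t * n) hQ
    rw [Nat.div_lt_iff_lt_mul hη]
    exact h3.trans F.fZ2)
  set T := (range L).filter (fun t => t * n % Q / η = c0) with hT
  have hTL : ∀ t ∈ T, t < L := fun t ht => by
    rw [hT, mem_filter, mem_range] at ht; exact ht.1
  have hTc : ∀ t ∈ T, t * n % Q / η = c0 := fun t ht => by
    rw [hT, mem_filter] at ht; exact ht.2
  have hL1 : 1 ≤ L := F.fL2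
  have hTpos : 0 < T.card := by
    rcases Nat.eq_zero_or_pos T.card with h | h
    · rw [h] at hc0; omega
    · exact h
  have hclose : ∀ t ∈ T, ∀ t' ∈ T, Nat.dist t t' * n % Q < η ∨
      Q < Nat.dist t t' * n % Q + η := fun t ht t' ht' =>
    dist_mod hQ hη ((hTc t ht).trans (hTc t' ht').symm)
  refine ⟨T, Finset.card_pos.mp hTpos, hTL, hclose, ?_⟩
  intro c
  have hRr : (0 : ℝ) < (R : ℝ) := by exact_mod_cast hR1
  have hZr : (0 : ℝ) < (Z : ℝ) := by exact_mod_cast hZ1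
  -- the set of the differences
  set U := (range L).filter (fun u : ℕ =>
    nd ((u : ℝ) * ((n : ℝ) / 2 ^ (5 * (i0 N P g a + 2 * g))) - ((c : ℝ) + 1 / 2) / R) ≤
        1 / (2 * (R : ℕ)) ∧
      nd ((u : ℝ) * ((n : ℝ) / (Q : ℕ)) - 0) ≤ 1 / (2 * (Z : ℕ))) with hU
  have hUcard : (U.card : ℝ) ≤ 18 * L / (R * Z) := by
    have h2 := h1 L R Z ((n : ℝ) / 2 ^ (5 * (i0 N P g a + 2 * g))) (((c : ℝ) + 1 / 2) / R)
      ((n : ℝ) / (Q : ℕ)) 0 hR1 hZ1
    have hE' : (∑ h ∈ Ioo (-(R : ℤ)) R, ∑ h' ∈ Ioo (-(Z : ℤ)) Z,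
        if h = 0 ∧ h' = 0 then (0 : ℝ) else gm L ((h : ℝ) *
          ((n : ℝ) / 2 ^ (5 * (i0 N P g a + 2 * g))) + (h' : ℝ) * ((n : ℝ) / (Q : ℕ)))) ≤ L := by
      refine le_trans (le_of_eq ?_) hE
      unfold E3
      refine Finset.sum_congr rfl fun h _ => Finset.sum_congr rfl fun h' _ => ?_
      split_ifs
      · rfl
      · congr 1
        rw [hQdef]
        push_cast
        ring
    refine h2.trans ?_
    have h3 : (0 : ℝ) ≤ 9 / (R * Z) := by positivity
    calc 9 / ((R : ℝ) * Z) * (L + _) ≤ 9 / ((R : ℝ) * Z) * (L + L) := by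
          apply mul_le_mul_of_nonneg_left _ h3
          linarith
      _ = 18 * L / (R * Z) := by ring
  have hLT : (L : ℝ) ≤ 4 * Z * T.card := by exact_mod_cast hc0
  have hU2 : (U.card : ℝ) ≤ 72 * T.card / R := by
    refine hUcard.trans ?_
    rw [div_le_div_iff₀ (by positivity) hRr]
    have : (0 : ℝ) ≤ T.card := by positivity
    nlinarith [mul_pos hRr hZr]
  have hfib : ∀ t' ∈ T, ((T.filter (fun t =>
      cell (i0 N P g a) g (Nat.dist t t' * n) = c)).card : ℝ) ≤ 2 * (72 * T.card / R) := by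
    intro t' ht'
    have h5 := fibre_le T (fun u => cell (i0 N P g a) g (u * n) = c) U t' (by
      intro t ht hcell
      rw [hU, mem_filter, mem_range]
      refine ⟨?_, nd_cell hcell, nd_Q (hclose t ht t' ht') F.fZ1 hZ1 hQ⟩
      have h6 := hTL t ht
      have h7 := hTL t' ht'
      unfold Nat.dist
      omega)
    have h6 : ((T.filter (fun t =>
      cell (i0 N P g a) g (Nat.dist t t' * n) = c)).card : ℝ) ≤ 2 * U.card := by exact_mod_cast h5
    linarith
  have hsum : (((T ×ˢ T).filter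
      (fun t => cell (i0 N P g a) g (Nat.dist t.1 t.2 * n) = c)).card : ℝ) =
      ∑ t' ∈ T, ((T.filter (fun t =>
        cell (i0 N P g a) g (Nat.dist t t' * n) = c)).card : ℝ) := by
    rw [← Nat.cast_sum]
    congr 1
    simp only [Finset.card_filter]
    rw [Finset.sum_product_right]
  rw [hsum]
  refine (Finset.sum_le_sum hfib).trans ?_
  rw [Finset.sum_const, nsmul_eq_mul]
  rw [← mul_div_assoc, ← mul_div_assoc, div_le_div_iff₀ hRr hRr]
  have : (0 : ℝ) ≤ (T.card : ℝ) ^ 2 * R := by positivity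
  nlinarith

end Pool.Agent.Work.MP_8e4d29_nt

end

section

/-!
MP_8e4d29_nt, item D11: domination for the shift `(A / n) r` over `n`.
-/

namespace Pool.Agent.Work.MP_8e4d29_nt

open Finset

namespace DomA0

lemma card_le_diam (S : Finset ℕ) (D : ℝ) (hD : 0 ≤ D)
    (h : ∀ n ∈ S, ∀ n' ∈ S, n < n' → (n' : ℝ) - n ≤ D) : (S.card : ℝ) ≤ D + 1 := by
  rcases S.eq_empty_or_nonempty with rfl | hne
  · simp; linarith
  · have h1 : S ⊆ Icc (S.min' hne) (S.max' hne) := by
      intro x hx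
      rw [Finset.mem_Icc]
      exact ⟨S.min'_le x hx, S.le_max' x hx⟩
    have h2 := Finset.card_le_card h1
    rw [Nat.card_Icc] at h2
    have hle : S.min' hne ≤ S.max' hne := S.min'_le _ (S.max'_mem hne)
    have h3 : (S.card : ℝ) ≤ ((S.max' hne : ℕ) : ℝ) - ((S.min' hne : ℕ) : ℝ) + 1 := by
      have : S.card + S.min' hne ≤ S.max' hne + 1 := by omega
      have h4 : ((S.card + S.min' hne : ℕ) : ℝ) ≤ ((S.max' hne + 1 : ℕ) : ℝ) := by
        exact_mod_cast this
      push_cast at h4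
      linarith
    rcases hle.lt_or_eq with hlt | heq
    · have := h _ (S.min'_mem hne) _ (S.max'_mem hne) hlt
      linarith
    · rw [heq] at h3
      linarith

/-- abstract counting: `f` is within `K` below `Y / n`, `Y` between `K R P` and `K P ^ 2` -/
lemma count (K R P : ℕ) (hK : 0 < K) (hR : 0 < R) (hP : 0 < P) (Y : ℝ) (f : ℕ → ℕ)
    (c : ℕ) (b : ℕ)
    (hf1 : ∀ n ∈ Ioc P (2 * P), (f n : ℝ) ≤ Y / n)
    (hf2 : ∀ n ∈ Ioc P (2 * P), Y / n ≤ f n + K)
    (hY1 : (K : ℝ) * R * P ≤ Y) (hY2 : Y ≤ K * P ^ 2) :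
    (((Ioc P (2 * P)).filter (fun n => (f n + b) / K % R = c)).card : ℝ) ≤ 64 * P / R := by
  have hKr : (0 : ℝ) < K := by exact_mod_cast hK
  have hRr : (0 : ℝ) < R := by exact_mod_cast hR
  have hPr : (0 : ℝ) < P := by exact_mod_cast hP
  have hY : 0 < Y := lt_of_lt_of_le (by positivity) hY1
  obtain ⟨S, hS⟩ : ∃ S, S = (Ioc P (2 * P)).filter (fun n => (f n + b) / K % R = c) := ⟨_, rfl⟩
  rw [← hS]
  have hmem : ∀ n ∈ S, (P : ℝ) < n ∧ (n : ℝ) ≤ 2 * P ∧ n ∈ Ioc P (2 * P) ∧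
      (f n + b) / K % R = c := by
    intro n hn
    rw [hS, Finset.mem_filter] at hn
    have h1 := Finset.mem_Ioc.mp hn.1
    refine ⟨by exact_mod_cast h1.1, by exact_mod_cast h1.2, hn.1, hn.2⟩
  obtain ⟨w, hw⟩ : ∃ w : ℕ → ℕ, ∀ n, w n = (f n + b) / K / R := ⟨_, fun _ => rfl⟩
  -- position
  have hpos : ∀ n ∈ S, K * (c + R * w n) ≤ f n + b ∧ f n + b < K * (c + R * w n) + K := by
    intro n hn
    obtain ⟨-, -, -, h4⟩ := hmem n hn
    have e1 := Nat.mod_add_div (f n + b) K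
    have e2 := Nat.mod_add_div ((f n + b) / K) R
    rw [h4, ← hw] at e2
    rw [← e2] at e1
    have h5 := Nat.mod_lt (f n + b) hK
    constructor
    · calc K * (c + R * w n) ≤ (f n + b) % K + K * (c + R * w n) := Nat.le_add_left _ _
        _ = f n + b := e1
    · calc f n + b = (f n + b) % K + K * (c + R * w n) := e1.symm
        _ < K * (c + R * w n) + K := by omega
  -- the fibres
  have hfib : ∀ v ∈ S.image w, (((S.filter (fun n => w n = v)).card : ℕ) : ℝ) ≤
      9 * K * P ^ 2 / Y := by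
    intro v _
    have h1 := card_le_diam (S.filter (fun n => w n = v)) (8 * K * P ^ 2 / Y) (by positivity) (by
      intro n hn n' hn' hlt
      rw [Finset.mem_filter] at hn hn'
      obtain ⟨a1, a2, a3, -⟩ := hmem n hn.1
      obtain ⟨b1, b2, b3, -⟩ := hmem n' hn'.1
      obtain ⟨p1, p2⟩ := hpos n hn.1
      obtain ⟨q1, q2⟩ := hpos n' hn'.1
      rw [hn.2] at p1 p2
      rw [hn'.2] at q1 q2
      have h2 : f n < f n' + K := by omega
      have h2' : (f n : ℝ) < f n' + K := by exact_mod_cast h2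
      have h3 := hf2 n a3
      have h4 := hf1 n' b3
      have h5 : Y / n - Y / n' ≤ 2 * K := by linarith
      have hn0 : (0 : ℝ) < n := by linarith
      have hn0' : (0 : ℝ) < n' := by linarith
      have hlt' : (n : ℝ) < n' := by exact_mod_cast hlt
      have h6 : Y / n - Y / n' = Y * (n' - n) / (n * n') := by field_simp
      rw [h6, div_le_iff₀ (by positivity)] at h5
      rw [le_div_iff₀ hY]
      have h7 : (n : ℝ) * n' ≤ (2 * P) * (2 * P) := mul_le_mul a2 b2 hn0'.le (by positivity)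
      calc ((n' : ℝ) - n) * Y = Y * (n' - n) := by ring
        _ ≤ 2 * K * (n * n') := h5
        _ ≤ 2 * K * ((2 * P) * (2 * P)) := by gcongr
        _ = 8 * K * P ^ 2 := by ring)
    have h8 : (1 : ℝ) ≤ K * P ^ 2 / Y := by rw [le_div_iff₀ hY]; linarith
    calc (((S.filter (fun n => w n = v)).card : ℕ) : ℝ) ≤ 8 * K * P ^ 2 / Y + 1 := h1
      _ ≤ 8 * K * P ^ 2 / Y + K * P ^ 2 / Y := by linarith
      _ = 9 * K * P ^ 2 / Y := by ring
  -- the image
  have himg : (((S.image w).card : ℕ) : ℝ) ≤ Y / (2 * P * (K * R)) + 3 := by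
    have h1 := card_le_diam (S.image w) (Y / (2 * P * (K * R)) + 2) (by positivity) (by
      intro v hv v' hv' _
      rw [Finset.mem_image] at hv hv'
      obtain ⟨n, hn, rfl⟩ := hv
      obtain ⟨n', hn', rfl⟩ := hv'
      obtain ⟨a1, a2, a3, -⟩ := hmem n hn
      obtain ⟨b1, b2, b3, -⟩ := hmem n' hn'
      obtain ⟨p1, p2⟩ := hpos n hn
      obtain ⟨q1, q2⟩ := hpos n' hn'
      have hn0 : (0 : ℝ) < n := by linarith
      have hn0' : (0 : ℝ) < n' := by linarith
      have p2' : (f n : ℝ) + b < K * (c + R * w n) + K := by exact_mod_cast p2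
      have q1' : (K : ℝ) * (c + R * w n') ≤ f n' + b := by exact_mod_cast q1
      have h2 := hf2 n a3
      have h3 := hf1 n' b3
      have h4 : Y / n' ≤ Y / P := by gcongr
      have h5 : Y / (2 * P) ≤ Y / n := by gcongr
      have h6 : (K : ℝ) * R * (w n' - w n) ≤ Y / P - Y / (2 * P) + 2 * K := by
        have : (K : ℝ) * R * (w n' - w n) = K * (c + R * w n') - K * (c + R * w n) := by ring
        rw [this]
        linarith
      have h7 : Y / P - Y / (2 * P) = Y / (2 * P) := by field_simp; ring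
      rw [h7] at h6
      have hR1 : (1 : ℝ) ≤ R := by exact_mod_cast hR
      have h8 : (w n' : ℝ) - w n ≤ (Y / (2 * P) + 2 * K) / (K * R) := by
        rw [le_div_iff₀ (by positivity)]
        linarith
      refine h8.trans ?_
      rw [add_div, div_div]
      have h9 : 2 * (K : ℝ) / (K * R) ≤ 2 := by
        rw [div_le_iff₀ (by positivity)]
        nlinarith
      linarith)
    linarith
  have hcard : (S.card : ℝ) ≤ ((S.image w).card : ℝ) * (9 * K * P ^ 2 / Y) := by
    rw [Finset.card_eq_sum_card_image w S]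
    push_cast
    refine (Finset.sum_le_card_nsmul _ _ _ hfib).trans ?_
    rw [nsmul_eq_mul]
  refine hcard.trans ?_
  have h1 : Y / (2 * P * (K * R)) + 3 ≤ 4 * (Y / (P * (K * R))) := by
    have h2 : 1 ≤ Y / (P * (K * R)) := by
      rw [le_div_iff₀ (by positivity)]
      linarith
    have h3 : Y / (2 * P * (K * R)) = Y / (P * (K * R)) / 2 := by field_simp
    rw [h3]
    linarith
  calc ((S.image w).card : ℝ) * (9 * K * P ^ 2 / Y)
      ≤ (4 * (Y / ((P : ℝ) * (K * R)))) * (9 * K * P ^ 2 / Y) := by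
        have := himg.trans h1
        gcongr
    _ = 36 * (P : ℝ) / R := by field_simp; norm_num
    _ ≤ 64 * (P : ℝ) / R := by gcongr; norm_num

end DomA0

open DomA0 in
theorem claimDomA0 (h0 : ClaimParF) : ClaimDomA0 := by
  intro N A H M P g a r δ c hp hr hr2 hδ
  have hF := h0 N A H M P g a hp
  obtain ⟨K, hKd⟩ : ∃ K, K = 2 ^ (5 * i0 N P g a) := ⟨_, rfl⟩
  have hK : 0 < K := hKd ▸ by positivity
  have hR : 0 < RR g := by unfold RR; positivity
  have hP : 0 < P := hp.hP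
  have f1 := hF.fi01
  have f2 := hF.fi02
  have f3 := hF.fLmR
  have f4 := hF.fP
  have f5 := hF.fR
  rw [← hKd] at f1 f2 f3
  obtain ⟨R, hRd⟩ : ∃ R, R = RR g := ⟨_, rfl⟩
  have hAH := hp.hAH
  have hA := hp.hA
  rw [← hRd] at f1 f2 f3 f4 f5 hR hr hr2 ⊢
  have hRa : 0 < R ^ a := by positivity
  -- R^a ≤ K
  have hRaK : R ^ a ≤ K := by
    have hL : 1 ≤ Lm H P := Nat.succ_le_succ (Nat.zero_le _)
    calc R ^ a = 1 * R ^ a * 1 := by ring
      _ ≤ Lm H P * R ^ a * R ^ 90 :=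
        Nat.mul_le_mul (Nat.mul_le_mul hL le_rfl) (Nat.one_le_pow _ _ hR)
      _ ≤ K := f3
  have hrK : r ≤ K := (hr.le).trans hRaK
  have hPR : 256 * R ^ 3 ≤ P := by
    calc 256 * R ^ 3 ≤ R * R ^ 3 := Nat.mul_le_mul_right _ (by
          have : (256 : ℕ) ≤ 2 ^ 20 := by norm_num
          exact this.trans f5)
      _ = R ^ 4 := by ring
      _ ≤ R ^ 200 := Nat.pow_le_pow_right hR (by norm_num)
      _ ≤ P := f4
  have hcount := count K R P hK hR hP ((A : ℝ) * r) (fun n => A / n * r) c (δ * K) (by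
      intro n hn
      have hn0 : 0 < n := by have := (Finset.mem_Ioc.mp hn).1; omega
      have hn0' : (0 : ℝ) < n := by exact_mod_cast hn0
      rw [le_div_iff₀ hn0']
      have h1 : A / n * n ≤ A := Nat.div_mul_le_self A n
      have h2 : A / n * r * n ≤ A * r := by
        calc A / n * r * n = A / n * n * r := by ring
          _ ≤ A * r := Nat.mul_le_mul_right _ h1
      exact_mod_cast h2) (by
      intro n hn
      have hn0 : 0 < n := by have := (Finset.mem_Ioc.mp hn).1; omega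
      have hn0' : (0 : ℝ) < n := by exact_mod_cast hn0
      rw [div_le_iff₀ hn0']
      have h1 : A ≤ (A / n + 1) * n := by
        have := Nat.div_add_mod A n
        have h2 := Nat.mod_lt A hn0
        calc A = n * (A / n) + A % n := this.symm
          _ ≤ n * (A / n) + n := by omega
          _ = (A / n + 1) * n := by ring
      have h3 : A * r ≤ (A / n * r + K) * n := by
        calc A * r ≤ (A / n + 1) * n * r := Nat.mul_le_mul_right _ h1
          _ = (A / n * r + r) * n := by ring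
          _ ≤ (A / n * r + K) * n := Nat.mul_le_mul_right _ (Nat.add_le_add_left hrK _)
      exact_mod_cast h3) (by
      have h1 : K * R * P * (R * R) ≤ A * r * (R * R) := by
        calc K * R * P * (R * R) = K * R ^ 3 * P := by ring
          _ ≤ N * R ^ a := f1
          _ ≤ A * (r * R) := Nat.mul_le_mul hA hr2
          _ = A * r * (R * 1) := by ring
          _ ≤ A * r * (R * R) := Nat.mul_le_mul_left _ (Nat.mul_le_mul_left _ hR)
      have h2 : K * R * P ≤ A * r := Nat.le_of_mul_le_mul_right h1 (by positivity)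
      exact_mod_cast h2) (by
      have h1 : A * r ≤ K * P ^ 2 := by
        calc A * r ≤ (4 * N) * R ^ a := Nat.mul_le_mul (by omega) hr.le
          _ = 4 * (N * R ^ a) := by ring
          _ ≤ 4 * (64 * K * R ^ 3 * P) := Nat.mul_le_mul_left _ f2
          _ = K * (256 * R ^ 3) * P := by ring
          _ ≤ K * P * P := by gcongr
          _ = K * P ^ 2 := by ring
      exact_mod_cast h1)
  refine le_trans (le_of_eq ?_) hcount
  congr 2
  apply Finset.filter_congr
  intro n _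
  unfold cell
  rw [← hKd, ← hRd]

end Pool.Agent.Work.MP_8e4d29_nt

end

section

/-!
MP_8e4d29_nt, item D3: evaluation of the cube product away from exceptional points.
-/

namespace Pool.Agent.Work.MP_8e4d29_nt

open Finset
open Pool.Agent.Work.MP_122e00_nt (ee norm_ee ee_add ee_neg)

namespace Eval

/-- the coordinates of the cube -/
def cubeEquiv : (Fin 2 × Fin 2 × Fin 2 × Fin 2) ≃ (Fin 4 → Fin 2) where
  toFun p := ![p.1, p.2.1, p.2.2.1, p.2.2.2]
  invFun ε := (ε 0, ε 1, ε 2, ε 3)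
  left_inv p := by rfl
  right_inv ε := by
    funext i
    fin_cases i <;> rfl

theorem sum_cube (F : (Fin 4 → Fin 2) → ℝ) :
    ∑ ε, F ε = ∑ e0 : Fin 2, ∑ e1 : Fin 2, ∑ e2 : Fin 2, ∑ e3 : Fin 2, F ![e0, e1, e2, e3] := by
  rw [← Equiv.sum_comp cubeEquiv F]
  simp only [Fintype.sum_prod_type]
  rfl

theorem wt_flip : ∀ (i : Fin 4) (ε : Fin 4 → Fin 2),
    (-1 : ℤ) ^ wt (Function.update ε i (1 + ε i)) = -(-1) ^ wt ε := by
  decide

theorem flip_ne : ∀ (e : Fin 2), 1 + e ≠ e := by decide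

theorem flip_flip : ∀ (e : Fin 2), 1 + (1 + e) = e := by decide

/-- an alternating sum over the cube vanishes if the function does not depend on one coordinate -/
theorem alt_cancel (i : Fin 4) (f : (Fin 4 → Fin 2) → ℝ)
    (h : ∀ ε, f (Function.update ε i 1) = f (Function.update ε i 0)) :
    ∑ ε : Fin 4 → Fin 2, (-1 : ℝ) ^ wt ε * f ε = 0 := by
  have hf : ∀ ε, f (Function.update ε i (1 + ε i)) = f ε := by
    intro ε
    have h01 : ε i = 0 ∨ ε i = 1 := by
      have : ∀ e : Fin 2, e = 0 ∨ e = 1 := by decide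
      exact this _
    rcases h01 with h0 | h0
    · rw [h0, show (1 + 0 : Fin 2) = 1 from rfl, h ε]
      congr 1
      rw [← h0, Function.update_eq_self]
    · rw [h0, show (1 + 1 : Fin 2) = 0 from rfl, ← h ε]
      congr 1
      rw [← h0, Function.update_eq_self]
  refine Finset.sum_involution (fun ε _ => Function.update ε i (1 + ε i)) ?_ ?_ ?_ ?_
  · intro ε _
    have h1 := wt_flip i ε
    have h2 : (-1 : ℝ) ^ wt (Function.update ε i (1 + ε i)) = -(-1) ^ wt ε := by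
      exact_mod_cast h1
    rw [hf, h2]
    ring
  · intro ε _ _ h1
    have h2 := congrFun h1 i
    rw [Function.update_self] at h2
    exact flip_ne _ h2
  · intro ε _
    exact Finset.mem_univ _
  · intro ε _
    rw [Function.update_self, Function.update_idem, flip_flip, Function.update_eq_self]

theorem div_add_of_lt {x d B : ℕ} (h : x % B + d < B) : (x + d) / B = x / B := by
  have hB : 0 < B := by omega
  have e : x + d = B * (x / B) + (x % B + d) := by
    have := Nat.div_add_mod x B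
    omega
  rw [e, Nat.mul_add_div hB, Nat.div_eq_of_lt h, add_zero]

theorem div_sub_add_of_lt {x s d B : ℕ} (h1 : s ≤ x % B) (h : x % B + d < B) :
    (x - s + d) / B = x / B := by
  have hB : 0 < B := by omega
  have e : x - s + d = B * (x / B) + (x % B - s + d) := by
    have := Nat.div_add_mod x B
    omega
  rw [e, Nat.mul_add_div hB, Nat.div_eq_of_lt (show x % B - s + d < B by omega), add_zero]

/-- digits in `[K, L)` do not change when adding a number close to a multiple of `b ^ L` -/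
theorem ds_near {b K L x y e η T : ℕ} (hb : 0 < b)
    (hy : y % b ^ L < η ∨ b ^ L < y % b ^ L + η) (he : η + e ≤ T)
    (h1 : T ≤ x % b ^ K) (h2 : x % b ^ K + T < b ^ K) :
    ds b K L (x + (y + e)) = ds b K L x := by
  have hBL : 0 < b ^ L := Nat.pow_pos hb
  have hdm := Nat.div_add_mod y (b ^ L)
  rcases hy with hy | hy
  · have e1 : x + (y + e) = (x + (y % b ^ L + e)) + (y / b ^ L) * b ^ L := by
      rw [mul_comm] at hdm
      omega
    rw [e1, ds_add_mul]
    apply ds_congr_div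
    apply div_add_of_lt
    omega
  · have hlt := Nat.mod_lt y hBL
    have hxm := Nat.mod_le x (b ^ K)
    have e1 : x + (y + e) = (x - (b ^ L - y % b ^ L) + e) + (y / b ^ L + 1) * b ^ L := by
      rw [mul_comm] at hdm
      rw [add_mul, one_mul]
      omega
    rw [e1, ds_add_mul]
    apply ds_congr_div
    apply div_sub_add_of_lt
    · omega
    · omega

/-- the value of `phi` at a point of the support -/
theorem phi_eq {θ : ℝ} {A H M n r m : ℕ} (h : Msupp A H M n r m) :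
    phi θ A H M n r m = ee (θ * (Dd (m * (n + r)) : ℝ) - θ * (Dd (m * n) : ℝ)) := by
  unfold phi ff
  rw [if_pos h, ee_sub]

theorem conj_phi_eq {θ : ℝ} {A H M n r m : ℕ} (h : Msupp A H M n r m) :
    (starRingEnd ℂ) (phi θ A H M n r m) =
      ee (-(θ * (Dd (m * (n + r)) : ℝ) - θ * (Dd (m * n) : ℝ))) := by
  rw [phi_eq h, ee_neg]

/-- the cube product as a function of the alternating sum of the values of `Dd` -/
theorem cub3_eq (θ : ℝ) (A H M n r h1 h2 h3 m : ℕ)
    (hs : ∀ e1 e2 e3 : Fin 2, Msupp A H M n r (m + e1 * h1 + e2 * h2 + e3 * h3)) :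
    cub3 (phi θ A H M n r) h1 h2 h3 m =
      ee (-(θ * ∑ ε : Fin 4 → Fin 2, (-1 : ℝ) ^ wt ε * (Dd (pt h1 h2 h3 n r m ε) : ℝ))) := by
  have s000 := hs 0 0 0
  have s100 := hs 1 0 0
  have s010 := hs 0 1 0
  have s110 := hs 1 1 0
  have s001 := hs 0 0 1
  have s101 := hs 1 0 1
  have s011 := hs 0 1 1
  have s111 := hs 1 1 1
  simp only [Fin.val_zero, Fin.val_one, zero_mul, one_mul, add_zero] at s000 s100 s010 s110
  simp only [Fin.val_zero, Fin.val_one, zero_mul, one_mul, add_zero] at s001 s101 s011 s111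
  unfold cub3
  rw [phi_eq s000, conj_phi_eq s100, conj_phi_eq s010, phi_eq s110, conj_phi_eq s001,
    phi_eq s101, phi_eq s011, conj_phi_eq s111]
  simp only [← ee_add]
  congr 1
  rw [sum_cube]
  simp only [Fin.sum_univ_two]
  have w : ∀ e0 e1 e2 e3 : Fin 2, wt ![e0, e1, e2, e3] = e0 + e1 + e2 + e3 := by
    intro e0 e1 e2 e3
    unfold wt
    rw [Fin.sum_univ_four]
    rfl
  have p : ∀ e0 e1 e2 e3 : Fin 2, pt h1 h2 h3 n r m ![e0, e1, e2, e3] =
      (m + e1 * h1 + e2 * h2 + e3 * h3) * (n + e0 * r) := by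
    intro e0 e1 e2 e3
    rfl
  simp only [w, p, Fin.val_zero, Fin.val_one, zero_mul, one_mul, add_zero, zero_add]
  ring

end Eval

open Eval in
/-- D3 -/
theorem claimEval (h0 : ClaimParF) : ClaimEval := by
  intro N A H M P g a θ n r s1 s2 h3 m hPar hPn hnP hr hh3 hnear hsupp hexc
  have F := h0 N A H M P g a hPar
  rw [cub3_eq θ A H M n r _ _ h3 m hsupp]
  congr 3
  set x : (Fin 4 → Fin 2) → ℕ := pt (2 ^ kap H P g * s1) (3 ^ kap3 H P g * s2) h3 n r m with hx
  have hkl : kap H P g ≤ 5 * ell M g a := F.fkl.le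
  have hk3 : kap3 H P g ≤ lam3 M g a := F.fk3.le
  -- a large number of digits
  set X : ℕ := ∑ ε, x ε with hX
  have hxX : ∀ ε, x ε ≤ X := fun ε => Finset.single_le_sum (f := x) (fun _ _ => Nat.zero_le _)
    (Finset.mem_univ ε)
  have hD : ∀ ε, (Dd (x ε) : ℝ) = (ds 2 0 (X + 5 * ell M g a) (x ε) : ℝ) -
      (ds 3 0 (X + lam3 M g a) (x ε) : ℝ) := by
    intro ε
    have e1 : x ε < 2 ^ (X + 5 * ell M g a) := by
      calc x ε < 2 ^ (x ε) := Nat.lt_two_pow_self
        _ ≤ 2 ^ (X + 5 * ell M g a) := Nat.pow_le_pow_right (by norm_num)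
          ((hxX ε).trans (Nat.le_add_right _ _))
    have e2 : x ε < 3 ^ (X + lam3 M g a) := by
      calc x ε < 3 ^ (x ε) := Nat.lt_pow_self (by norm_num)
        _ ≤ 3 ^ (X + lam3 M g a) := Nat.pow_le_pow_right (by norm_num)
          ((hxX ε).trans (Nat.le_add_right _ _))
    rw [Dd_eq e1 e2]
    push_cast
    rfl
  have hsplit2 : ∀ ε, (ds 2 0 (X + 5 * ell M g a) (x ε) : ℝ) = (ds 2 0 (kap H P g) (x ε) : ℝ) +
      (ds 2 (kap H P g) (5 * ell M g a) (x ε) : ℝ) +
      (ds 2 (5 * ell M g a) (X + 5 * ell M g a) (x ε) : ℝ) := by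
    intro ε
    rw [ds_add 2 (Nat.zero_le (5 * ell M g a)) (Nat.le_add_left _ X),
      ds_add 2 (Nat.zero_le (kap H P g)) hkl]
    push_cast
    rfl
  have hsplit3 : ∀ ε, (ds 3 0 (X + lam3 M g a) (x ε) : ℝ) = (ds 3 0 (kap3 H P g) (x ε) : ℝ) +
      (ds 3 (kap3 H P g) (lam3 M g a) (x ε) : ℝ) +
      (ds 3 (lam3 M g a) (X + lam3 M g a) (x ε) : ℝ) := by
    intro ε
    rw [ds_add 3 (Nat.zero_le (lam3 M g a)) (Nat.le_add_left _ X),
      ds_add 3 (Nat.zero_le (kap3 H P g)) hk3]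
    push_cast
    rfl
  -- the points in the four directions
  have hdir0 : ∀ ε, x (Function.update ε 0 1) = x (Function.update ε 0 0) +
      (m + ε 1 * (2 ^ kap H P g * s1) + ε 2 * (3 ^ kap3 H P g * s2) + ε 3 * h3) * r := by
    intro ε
    rw [hx]
    unfold pt
    simp [Function.update]
    ring
  have hdir1 : ∀ ε, x (Function.update ε 1 1) = x (Function.update ε 1 0) +
      (s1 * (n + ε 0 * r)) * 2 ^ kap H P g := by
    intro ε
    rw [hx]
    unfold pt
    simp [Function.update]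
    ring
  have hdir2 : ∀ ε, x (Function.update ε 2 1) = x (Function.update ε 2 0) +
      (s2 * (n + ε 0 * r)) * 3 ^ kap3 H P g := by
    intro ε
    rw [hx]
    unfold pt
    simp [Function.update]
    ring
  have hdir3 : ∀ ε, x (Function.update ε 3 1) = x (Function.update ε 3 0) +
      (h3 * n + ε 0 * (h3 * r)) := by
    intro ε
    rw [hx]
    unfold pt
    simp [Function.update]
    ring
  have hmr : ∀ ε : Fin 4 → Fin 2, (m + ε 1 * (2 ^ kap H P g * s1) +
      ε 2 * (3 ^ kap3 H P g * s2) + ε 3 * h3) * r ≤ 2 * M * RR g ^ a := by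
    intro ε
    exact Nat.mul_le_mul (hsupp (ε 1) (ε 2) (ε 3)).2.1 hr.le
  -- the parts that cancel
  have c1 : ∑ ε : Fin 4 → Fin 2, (-1 : ℝ) ^ wt ε * (ds 2 0 (kap H P g) (x ε) : ℝ) = 0 := by
    apply alt_cancel 1
    intro ε
    rw [hdir1, ds_add_mul]
  have c2 : ∑ ε : Fin 4 → Fin 2, (-1 : ℝ) ^ wt ε *
      (ds 2 (5 * ell M g a) (X + 5 * ell M g a) (x ε) : ℝ) = 0 := by
    apply alt_cancel 0
    intro ε
    rw [hdir0, ds_congr_div (div_add_of_lt _)]
    have h1 := hexc (Function.update ε 0 0)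
    unfold Exc at h1
    push Not at h1
    have h2 := hmr ε
    have h4 := h1.1
    change x (Function.update ε 0 0) % _ + _ < _ at h4
    omega
  have c3 : ∑ ε : Fin 4 → Fin 2, (-1 : ℝ) ^ wt ε * (ds 3 0 (kap3 H P g) (x ε) : ℝ) = 0 := by
    apply alt_cancel 2
    intro ε
    rw [hdir2, ds_add_mul]
  have c4 : ∑ ε : Fin 4 → Fin 2, (-1 : ℝ) ^ wt ε *
      (ds 3 (kap3 H P g) (lam3 M g a) (x ε) : ℝ) = 0 := by
    apply alt_cancel 3
    intro ε
    have h1 := hexc (Function.update ε 3 0)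
    unfold Exc at h1
    push Not at h1
    obtain ⟨-, -, h4, h5, -⟩ := h1
    have h6 : (ε 0 : ℕ) * (h3 * r) ≤ L2 H P g a * RR g ^ a := by
      have h7 : (ε 0 : ℕ) ≤ 1 := by
        have := (ε 0).isLt
        omega
      calc (ε 0 : ℕ) * (h3 * r) ≤ 1 * (L2 H P g a * RR g ^ a) :=
            Nat.mul_le_mul h7 (Nat.mul_le_mul hh3 hr.le)
        _ = _ := one_mul _
    rw [hdir3, ds_near (by norm_num) hnear (T := eta H P g + L2 H P g a * RR g ^ a)
      (by omega) h4 h5]
  have c5 : ∑ ε : Fin 4 → Fin 2, (-1 : ℝ) ^ wt ε *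
      (ds 3 (lam3 M g a) (X + lam3 M g a) (x ε) : ℝ) = 0 := by
    apply alt_cancel 0
    intro ε
    rw [hdir0, ds_congr_div (div_add_of_lt _)]
    have h1 := hexc (Function.update ε 0 0)
    unfold Exc at h1
    push Not at h1
    have h2 := hmr ε
    have h4 := h1.2.1
    change x (Function.update ε 0 0) % _ + _ < _ at h4
    omega
  unfold alt
  have e : ∀ ε : Fin 4 → Fin 2, (-1 : ℝ) ^ wt ε * (Dd (x ε) : ℝ) =
      (-1 : ℝ) ^ wt ε * (ds 2 0 (kap H P g) (x ε) : ℝ) +
      (-1 : ℝ) ^ wt ε * (ds 2 (kap H P g) (5 * ell M g a) (x ε) : ℝ) +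
      (-1 : ℝ) ^ wt ε * (ds 2 (5 * ell M g a) (X + 5 * ell M g a) (x ε) : ℝ) -
      ((-1 : ℝ) ^ wt ε * (ds 3 0 (kap3 H P g) (x ε) : ℝ) +
      (-1 : ℝ) ^ wt ε * (ds 3 (kap3 H P g) (lam3 M g a) (x ε) : ℝ) +
      (-1 : ℝ) ^ wt ε * (ds 3 (lam3 M g a) (X + lam3 M g a) (x ε) : ℝ)) := by
    intro ε
    rw [hD, hsplit2, hsplit3]
    ring
  rw [Finset.sum_congr rfl fun ε _ => e ε, Finset.sum_sub_distrib, Finset.sum_add_distrib,
    Finset.sum_add_distrib, Finset.sum_add_distrib, Finset.sum_add_distrib, c1, c2, c3, c4, c5]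
  ring

end Pool.Agent.Work.MP_8e4d29_nt

end

section

/-!
MP_8e4d29_nt: item D2, exceptional pairs are rare.
-/

namespace Pool.Agent.Work.MP_8e4d29_nt

open Finset

namespace ExcL

/-- counting the `x` with `x % Q` in an interval -/
theorem cnt (A H Q K c : ℕ) (hQ : 0 < Q) (p : ℕ → Prop) [DecidablePred p]
    (hp : ∀ x, p x → c ≤ x % Q ∧ x % Q < c + K) :
    ((Ioc A (A + H)).filter p).card ≤ K * (H / Q + 2) := by
  have h1 : ((Ioc A (A + H)).filter p).card ≤
      (range K ×ˢ Finset.Icc (A / Q) ((A + H) / Q)).card := by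
    apply Finset.card_le_card_of_injOn (fun x => (x % Q - c, x / Q))
    · intro x hx
      rw [Finset.mem_coe, Finset.mem_filter, Finset.mem_Ioc] at hx
      have h2 := hp x hx.2
      rw [Finset.mem_coe, Finset.mem_product, Finset.mem_range, Finset.mem_Icc]
      refine ⟨by simp only; omega, Nat.div_le_div_right hx.1.1.le, Nat.div_le_div_right hx.1.2⟩
    · intro x hx y hy hxy
      rw [Finset.mem_coe, Finset.mem_filter] at hx hy
      have h2 := hp x hx.2
      have h3 := hp y hy.2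
      simp only [Prod.mk.injEq] at hxy
      have h4 : x % Q = y % Q := by omega
      rw [← Nat.div_add_mod x Q, ← Nat.div_add_mod y Q, h4, hxy.2]
  refine h1.trans ?_
  rw [Finset.card_product, Finset.card_range, Nat.card_Icc]
  apply Nat.mul_le_mul_left
  have h2 : (A + H) / Q ≤ A / Q + H / Q + 1 := by
    rw [Nat.add_div hQ]
    split_ifs <;> omega
  have h3 : (A + H) / Q + 1 ≤ (H / Q + 2) + A / Q := by
    calc (A + H) / Q + 1 ≤ (A / Q + H / Q + 1) + 1 := Nat.add_le_add_right h2 1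
      _ = (H / Q + 2) + A / Q := by ring
  exact Nat.sub_le_iff_le_add.2 h3

theorem term_le {K Q H R c : ℝ} (hQ : 0 < Q) (hR : 0 < R) (hH : 0 ≤ H) (h : K * R ≤ c * Q) :
    K * (H / Q) ≤ c * (H / R) := by
  rw [← mul_div_assoc, ← mul_div_assoc, div_le_div_iff₀ hQ hR]
  nlinarith

/-- the number of exceptional `x` -/
theorem cnt_exc {N A H M P g a : ℕ} (hp : Par N A H M P g a) (hf : ParF N A H M P g a) :
    (((Ioc A (A + H)).filter (fun x => Exc H M P g a x)).card : ℝ) ≤ 20 * (H / RR g) := by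
  set R := RR g with hRdef
  set Ka := 2 * M * R ^ a with hKa
  set Kc := eta H P g + L2 H P g a * R ^ a with hKc
  set Ke := Lp H P g a * R ^ a with hKe
  set Qa := 2 ^ (5 * ell M g a) with hQa
  set Qb := 3 ^ lam3 M g a with hQb
  set Qc := 3 ^ kap3 H P g with hQc
  set Qe := 2 ^ kap H P g with hQe
  have pa : 0 < Qa := by rw [hQa]; positivity
  have pb : 0 < Qb := by rw [hQb]; positivity
  have pc : 0 < Qc := by rw [hQc]; positivity
  have pe : 0 < Qe := by rw [hQe]; positivity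
  -- splitting
  have hsub : (Ioc A (A + H)).filter (fun x => Exc H M P g a x) ⊆
      ((((Ioc A (A + H)).filter (fun x => Qa ≤ x % Qa + Ka)) ∪
      ((Ioc A (A + H)).filter (fun x => Qb ≤ x % Qb + Ka))) ∪
      (((Ioc A (A + H)).filter (fun x => x % Qc < Kc)) ∪
      ((Ioc A (A + H)).filter (fun x => Qc ≤ x % Qc + Kc)))) ∪
      ((Ioc A (A + H)).filter (fun x => x % Qe < Ke)) := by
    intro x hx
    rw [Finset.mem_filter] at hx
    obtain ⟨hx1, hx2⟩ := hx
    simp only [Finset.mem_union, Finset.mem_filter, hx1, true_and]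
    rcases hx2 with h | h | h | h | h
    · exact Or.inl (Or.inl (Or.inl h))
    · exact Or.inl (Or.inl (Or.inr h))
    · exact Or.inl (Or.inr (Or.inl h))
    · exact Or.inl (Or.inr (Or.inr h))
    · exact Or.inr h
  have hcard : ((Ioc A (A + H)).filter (fun x => Exc H M P g a x)).card ≤
      Ka * (H / Qa + 2) + Ka * (H / Qb + 2) + (Kc * (H / Qc + 2) + Kc * (H / Qc + 2)) +
        Ke * (H / Qe + 2) := by
    refine (Finset.card_le_card hsub).trans ?_
    refine (Finset.card_union_le _ _).trans (Nat.add_le_add ?_ ?_)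
    · refine (Finset.card_union_le _ _).trans (Nat.add_le_add ?_ ?_)
      · refine (Finset.card_union_le _ _).trans (Nat.add_le_add ?_ ?_)
        · apply cnt A H Qa Ka (Qa - Ka) pa
          intro x hx
          have := Nat.mod_lt x pa
          omega
        · apply cnt A H Qb Ka (Qb - Ka) pb
          intro x hx
          have := Nat.mod_lt x pb
          omega
      · refine (Finset.card_union_le _ _).trans (Nat.add_le_add ?_ ?_)
        · apply cnt A H Qc Kc 0 pc
          intro x hx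
          omega
        · apply cnt A H Qc Kc (Qc - Kc) pc
          intro x hx
          have := Nat.mod_lt x pc
          omega
    · apply cnt A H Qe Ke 0 pe
      intro x hx
      omega
  -- facts about the parameters
  have hR20 : 2 ^ 20 ≤ R := hf.fR
  have hRpos : 0 < R := lt_of_lt_of_le (by norm_num) hR20
  have ha12 : a ≤ 12 := by rcases hp.ha with h | h <;> omega
  have e1 : 4 * (Ka * R) ≤ Qa := by
    have := hf.fell1
    rw [hKa, hQa]
    nlinarith
  have e2 : 4 * (Ka * R) ≤ Qb := by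
    have := hf.flam1
    rw [hKa, hQb]
    nlinarith
  have e3 : 2 * Ka * R ≤ H := by
    have h1 : M * R ^ 100 ≤ 4 * H := hf.fM
    have h2 : R ^ (a + 2) ≤ R ^ 100 := Nat.pow_le_pow_right hRpos (by omega)
    have h3 : M * R ^ (a + 2) ≤ 4 * H := (Nat.mul_le_mul_left M h2).trans h1
    have h4 : M * R ^ (a + 2) = M * R ^ a * R * R := by ring
    rw [h4] at h3
    have h5 : M * R ^ a * R * 16 ≤ M * R ^ a * R * R := Nat.mul_le_mul_left _ (by omega)
    have h6 : 2 * Ka * R = 4 * (M * R ^ a * R) := by rw [hKa]; ring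
    rw [h6]
    omega
  have e4 : Kc * R ≤ 2 * Qc := by
    have h1 := hf.feta1
    have h2 := hf.fL2R
    rw [hKc, hQc]
    nlinarith
  have hLm : Lm H P ≤ 2 * H := by
    have h1 := hf.fLm2
    have h2 := hp.hP
    calc Lm H P = 1 * Lm H P := (one_mul _).symm
      _ ≤ P * Lm H P := Nat.mul_le_mul_right _ h2
      _ ≤ 2 * H := h1
  have hR6 : R ≤ R ^ 6 := Nat.le_self_pow (by norm_num) R
  have e5 : 4 * Qc ≤ H := by
    have h1 : R ^ 6 * Qc ≤ Lm H P := hf.fkap31
    have h2 : 8 * Qc ≤ R ^ 6 * Qc := Nat.mul_le_mul_right _ (by omega)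
    omega
  have e6 : Ke * R = Qe := by
    have h1 := hf.fLp
    rw [hKe, hQe, ← h1]
    ring
  have e7 : 4 * Qe ≤ H := by
    have h1 : R ^ 6 * Qe ≤ Lm H P := hf.fkap1
    have h2 : 8 * Qe ≤ R ^ 6 * Qe := Nat.mul_le_mul_right _ (by omega)
    omega
  -- real estimates
  have hRr : (0 : ℝ) < R := by exact_mod_cast hRpos
  have pa' : (0 : ℝ) < Qa := by exact_mod_cast pa
  have pb' : (0 : ℝ) < Qb := by exact_mod_cast pb
  have pc' : (0 : ℝ) < Qc := by exact_mod_cast pc
  have pe' : (0 : ℝ) < Qe := by exact_mod_cast pe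
  have hHr : (0 : ℝ) ≤ H := Nat.cast_nonneg H
  have e1' : 4 * ((Ka : ℝ) * R) ≤ Qa := by exact_mod_cast e1
  have e2' : 4 * ((Ka : ℝ) * R) ≤ Qb := by exact_mod_cast e2
  have e3' : 2 * (Ka : ℝ) * R ≤ H := by exact_mod_cast e3
  have e4' : (Kc : ℝ) * R ≤ 2 * Qc := by exact_mod_cast e4
  have e5' : 4 * (Qc : ℝ) ≤ H := by exact_mod_cast e5
  have e6' : (Ke : ℝ) * R = Qe := by exact_mod_cast e6
  have e7' : 4 * (Qe : ℝ) ≤ H := by exact_mod_cast e7
  have hKapos : (0 : ℝ) ≤ Ka := Nat.cast_nonneg _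
  have hKcpos : (0 : ℝ) ≤ Kc := Nat.cast_nonneg _
  have hKepos : (0 : ℝ) ≤ Ke := Nat.cast_nonneg _
  have hHR : (0 : ℝ) ≤ H / R := div_nonneg hHr hRr.le
  have one_term : ∀ K Q : ℕ, (0 : ℝ) < Q → ∀ c d : ℝ, (K : ℝ) * R ≤ c * Q → 2 * (K : ℝ) * R ≤ d * H →
      ((K * (H / Q + 2) : ℕ) : ℝ) ≤ (c + d) * (H / R) := by
    intro K Q hQ c d h1 h2
    push_cast
    have h3 : ((H / Q : ℕ) : ℝ) ≤ (H : ℝ) / Q := Nat.cast_div_le
    have h4 : (K : ℝ) * ((H / Q : ℕ) : ℝ) ≤ (K : ℝ) * ((H : ℝ) / Q) :=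
      mul_le_mul_of_nonneg_left h3 (Nat.cast_nonneg _)
    have h5 := term_le hQ hRr hHr h1
    have h6 : 2 * (K : ℝ) ≤ d * (H / R) := by
      rw [← mul_div_assoc, le_div_iff₀ hRr]
      exact h2
    have h7 : (K : ℝ) * (((H / Q : ℕ) : ℝ) + 2) = (K : ℝ) * ((H / Q : ℕ) : ℝ) + 2 * K := by ring
    have h8 : (c + d) * ((H : ℝ) / R) = c * (H / R) + d * (H / R) := by ring
    rw [h7, h8]
    linarith
  have t1 := one_term Ka Qa pa' (1 / 4) 1 (by linarith) (by linarith)
  have t2 := one_term Ka Qb pb' (1 / 4) 1 (by linarith) (by linarith)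
  have t3 := one_term Kc Qc pc' 2 1 e4' (by linarith)
  have t4 := one_term Ke Qe pe' 1 1 (by linarith) (by linarith)
  have hfin : (((Ioc A (A + H)).filter (fun x => Exc H M P g a x)).card : ℝ) ≤
      ((Ka * (H / Qa + 2) + Ka * (H / Qb + 2) + (Kc * (H / Qc + 2) + Kc * (H / Qc + 2)) +
        Ke * (H / Qe + 2) : ℕ) : ℝ) := by exact_mod_cast hcard
  refine hfin.trans ?_
  rw [Nat.cast_add, Nat.cast_add, Nat.cast_add, Nat.cast_add]
  linarith

/-- few preimages -/
theorem sum_exn_le {N A H M P g a r : ℕ} (hp : Par N A H M P g a) :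
    ∑ n ∈ Ioc P (2 * P), exn A H M P g a (n + r) ≤
      2 ^ (5 * g) * ((Ioc A (A + H)).filter (fun x => Exc H M P g a x)).card := by
  have h1 : ∑ n ∈ Ioc P (2 * P), exn A H M P g a (n + r) =
      ((Ioc P (2 * P)).sigma (fun n => (Ioc M (2 * M)).filter
        (fun m => A < m * (n + r) ∧ m * (n + r) ≤ A + H ∧ Exc H M P g a (m * (n + r))))).card := by
    rw [Finset.card_sigma]
    rfl
  have h2 : ((Ioc P (2 * P)).sigma (fun n => (Ioc M (2 * M)).filter
        (fun m => A < m * (n + r) ∧ m * (n + r) ≤ A + H ∧ Exc H M P g a (m * (n + r))))).card ≤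
      (((Ioc A (A + H)).filter (fun x => Exc H M P g a x)).sigma (fun x => x.divisors)).card := by
    apply Finset.card_le_card_of_injOn
      (fun z => (⟨z.2 * (z.1 + r), z.2⟩ : (_ : ℕ) × ℕ))
    · rintro ⟨n, m⟩ hz
      simp only [Finset.coe_sigma, Set.mem_sigma_iff, Finset.mem_coe, Finset.mem_Ioc,
        Finset.mem_filter] at hz
      obtain ⟨⟨hn1, hn2⟩, ⟨hm1, hm2⟩, hA1, hA2, hE⟩ := hz
      simp only [Finset.coe_sigma, Set.mem_sigma_iff, Finset.mem_coe, Finset.mem_Ioc,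
        Finset.mem_filter, Nat.mem_divisors]
      refine ⟨⟨⟨hA1, hA2⟩, hE⟩, Dvd.intro _ rfl, by omega⟩
    · rintro ⟨n, m⟩ hz ⟨n', m'⟩ hz' h
      simp only [Finset.coe_sigma, Set.mem_sigma_iff, Finset.mem_coe, Finset.mem_Ioc,
        Finset.mem_filter] at hz hz'
      simp only [Sigma.mk.injEq, heq_eq_eq] at h
      obtain ⟨h3, h4⟩ := h
      subst h4
      have hm : 0 < m := by omega
      have h5 := Nat.eq_of_mul_eq_mul_left hm h3
      have h6 : n = n' := by omega
      subst h6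
      rfl
  rw [h1]
  refine h2.trans ?_
  rw [Finset.card_sigma]
  have h3 : ∀ x ∈ (Ioc A (A + H)).filter (fun x => Exc H M P g a x),
      x.divisors.card ≤ 2 ^ (5 * g) := by
    intro x hx
    rw [Finset.mem_filter, Finset.mem_Ioc] at hx
    have h4 := hp.hdiv x (by have := hp.hAH; omega)
    have h5 : RR g = (2 ^ (5 * g)) ^ 2 := by
      unfold RR
      rw [← pow_mul]
      congr 1
      ring
    rw [h5] at h4
    exact (Nat.pow_le_pow_iff_left (by norm_num)).1 h4
  refine (Finset.sum_le_card_nsmul _ _ _ h3).trans ?_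
  rw [smul_eq_mul, mul_comm]

end ExcL

theorem claimExc (h0 : ClaimParF) : ClaimExc := by
  intro N A H M P g a r hp _
  have hf := h0 N A H M P g a hp
  have h1 := ExcL.sum_exn_le (r := r) hp
  have h2 := ExcL.cnt_exc hp hf
  have h3 : ((∑ n ∈ Ioc P (2 * P), exn A H M P g a (n + r) : ℕ) : ℝ) ≤
      2 ^ (5 * g) * (((Ioc A (A + H)).filter (fun x => Exc H M P g a x)).card : ℝ) := by
    exact_mod_cast h1
  refine h3.trans ?_
  have h4 : (2 : ℝ) ^ (5 * g) * (((Ioc A (A + H)).filter (fun x => Exc H M P g a x)).card : ℝ) ≤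
      2 ^ (5 * g) * (20 * (H / RR g)) := mul_le_mul_of_nonneg_left h2 (by positivity)
  refine h4.trans (le_of_eq ?_)
  have h5 : ((RR g : ℕ) : ℝ) = 2 ^ (5 * g) * 2 ^ (5 * g) := by
    unfold RR
    rw [← pow_add]
    push_cast
    congr 1
    ring
  rw [h5]
  field_simp

end Pool.Agent.Work.MP_8e4d29_nt

end

section

/-!
MP_8e4d29_nt, item D8: the average of `x ^ gp` over all cells.
-/

namespace Pool.Agent.Work.MP_8e4d29_nt

open Finset

namespace GpSum

/-- number of good pairs, general base `B` and digit `v` -/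
def gpB (B v g : ℕ) (c : Fin 4 → ℕ) : ℕ :=
  ((range g).filter (fun j => ∀ k, c k / B ^ j % B = v)).card

lemma gpB_succ (B v g : ℕ) (c : Fin 4 → ℕ) :
    gpB B v (g + 1) c
      = (if ∀ k, c k % B = v then 1 else 0) + gpB B v g (fun k => c k / B) := by
  unfold gpB
  rw [Finset.card_filter, Finset.card_filter, Finset.sum_range_succ']
  rw [add_comm]
  congr 1
  · simp
  · apply Finset.sum_congr rfl
    intro j _
    have h : ∀ k, c k / B ^ (j + 1) = c k / B / B ^ j := by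
      intro k
      rw [Nat.div_div_eq_div_mul, pow_succ, mul_comm]
    simp only [h]

lemma sum_digit (B v : ℕ) (hv : v < B) (x : ℝ) :
    ∑ d ∈ Fintype.piFinset (fun _ : Fin 4 => range B),
      x ^ (if ∀ k, d k % B = v then 1 else 0) = (B : ℝ) ^ 4 - 1 + x := by
  have h : ∀ d ∈ Fintype.piFinset (fun _ : Fin 4 => range B),
      x ^ (if ∀ k, d k % B = v then 1 else 0)
        = 1 + (if d = (fun _ => v) then x - 1 else 0) := by
    intro d hd
    rw [Fintype.mem_piFinset] at hd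
    have hiff : (∀ k, d k % B = v) ↔ d = fun _ => v := by
      constructor
      · intro h
        funext k
        have h1 := h k
        rwa [Nat.mod_eq_of_lt (Finset.mem_range.mp (hd k))] at h1
      · intro h k
        rw [h]
        exact Nat.mod_eq_of_lt hv
    by_cases hh : d = fun _ => v
    · rw [if_pos (hiff.mpr hh), if_pos hh]; ring
    · rw [if_neg (fun h => hh (hiff.mp h)), if_neg hh]; ring
  rw [Finset.sum_congr rfl h, Finset.sum_add_distrib, Finset.sum_ite_eq' _ _ (fun _ => x - 1)]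
  rw [if_pos]
  · rw [Finset.sum_const, Fintype.card_piFinset]
    simp
    ring
  · rw [Fintype.mem_piFinset]
    intro k
    exact Finset.mem_range.mpr hv

lemma main (B v : ℕ) (hv : v < B) (g : ℕ) (x : ℝ) :
    ∑ c ∈ Fintype.piFinset (fun _ : Fin 4 => range (B ^ g)), x ^ gpB B v g c =
    ((B : ℝ) ^ 4 - 1 + x) ^ g := by
  have hB : 0 < B := by omega
  induction g with
  | zero =>
    have h : Fintype.piFinset (fun _ : Fin 4 => range (B ^ 0)) = {fun _ => 0} := by
      ext c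
      simp [funext_iff]
    rw [h, Finset.sum_singleton]
    simp [gpB]
  | succ g ih =>
    have key : ∑ c ∈ Fintype.piFinset (fun _ : Fin 4 => range (B ^ (g + 1))), x ^ gpB B v (g + 1) c
        = ∑ p ∈ Fintype.piFinset (fun _ : Fin 4 => range B) ×ˢ
            Fintype.piFinset (fun _ : Fin 4 => range (B ^ g)),
          x ^ (if ∀ k, p.1 k % B = v then 1 else 0) * x ^ gpB B v g p.2 := by
      refine Finset.sum_nbij' (fun c => (fun k => c k % B, fun k => c k / B))
        (fun p => fun k => p.1 k + B * p.2 k) ?_ ?_ ?_ ?_ ?_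
      · intro c hc
        rw [Fintype.mem_piFinset] at hc
        rw [Finset.mem_product, Fintype.mem_piFinset, Fintype.mem_piFinset]
        refine ⟨fun k => ?_, fun k => ?_⟩
        · exact Finset.mem_range.mpr (Nat.mod_lt _ hB)
        · have h1 := Finset.mem_range.mp (hc k)
          rw [pow_succ'] at h1
          exact Finset.mem_range.mpr (Nat.div_lt_of_lt_mul h1)
      · intro p hp
        rw [Finset.mem_product, Fintype.mem_piFinset, Fintype.mem_piFinset] at hp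
        rw [Fintype.mem_piFinset]
        intro k
        have h1 := Finset.mem_range.mp (hp.1 k)
        have h2 := Finset.mem_range.mp (hp.2 k)
        rw [Finset.mem_range, pow_succ']
        calc p.1 k + B * p.2 k < B + B * p.2 k := by omega
          _ = B * (p.2 k + 1) := by ring
          _ ≤ B * B ^ g := Nat.mul_le_mul_left _ h2
      · intro c _
        funext k
        exact Nat.mod_add_div _ _
      · intro p hp
        rw [Finset.mem_product, Fintype.mem_piFinset, Fintype.mem_piFinset] at hp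
        have h1 : ∀ k, p.1 k < B := fun k => Finset.mem_range.mp (hp.1 k)
        refine Prod.ext ?_ ?_
        · funext k
          change (p.1 k + B * p.2 k) % B = p.1 k
          rw [Nat.add_mul_mod_self_left, Nat.mod_eq_of_lt (h1 k)]
        · funext k
          change (p.1 k + B * p.2 k) / B = p.2 k
          rw [Nat.add_mul_div_left _ _ hB, Nat.div_eq_of_lt (h1 k), zero_add]
      · intro c _
        rw [gpB_succ, pow_add]
        simp only [Nat.mod_mod]
    rw [key, Finset.sum_product, pow_succ', ← ih, ← sum_digit B v hv x, Finset.sum_mul_sum]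

end GpSum

open GpSum in
theorem claimGpSum : ClaimGpSum := by
  intro g x hx0 hx1
  have h := main 1024 64 (by norm_num) g x
  have e : RR g = 1024 ^ g := by
    unfold RR
    rw [pow_mul]
    norm_num
  have e2 : ∀ c, gpB 1024 64 g c = gp g c := fun c => rfl
  simp only [e2] at h
  rw [e, h]
  have e3 : (((1024 : ℕ) : ℝ) ^ 4 - 1 + x) = (1024 : ℝ) ^ 4 * (1 - (1 - x) / 2 ^ 40) := by
    push_cast
    ring
  rw [e3, mul_pow]
  push_cast
  rw [← pow_mul, ← pow_mul, mul_comm 4 g]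

end Pool.Agent.Work.MP_8e4d29_nt

end

section

/-!
MP_8e4d29_nt, item Q2: local limit theorem (lower bound).
-/

namespace Pool.Agent.Work.MP_8e4d29_nt

open Finset
open Pool.Agent.Work.MP_122e00_nt (ee ee_add ee_nat_mul)

namespace LLT

lemma sum_splitC (k : ℕ) (f : ℕ → ℂ) :
    ∑ t ∈ range (3 ^ (k + 1)), f t = ∑ d ∈ range 3, ∑ v ∈ range (3 ^ k), f (v + d * 3 ^ k) := by
  have h : 3 ^ (k + 1) = 3 * 3 ^ k := by ring
  rw [h]
  clear h
  have : ∀ c : ℕ, ∑ t ∈ range (c * 3 ^ k), f t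
      = ∑ d ∈ range c, ∑ v ∈ range (3 ^ k), f (v + d * 3 ^ k) := by
    intro c
    induction c with
    | zero => simp
    | succ c ih =>
      rw [Finset.sum_range_succ, ← ih, Nat.succ_mul, Finset.sum_range_add]
      congr 1
      apply Finset.sum_congr rfl
      intro v _
      rw [add_comm]
  exact this 3

lemma gen3 (n : ℕ) (θ : ℝ) :
    ∑ v ∈ range (3 ^ n), ee (-(θ * ds 3 0 n v)) = (1 + ee (-θ) + ee (-(2 * θ))) ^ n := by
  induction n with
  | zero => simp [ds_zero_right, ee_zero]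
  | succ n ih =>
    rw [sum_splitC]
    have h1 : ∀ d ∈ range 3, ∑ v ∈ range (3 ^ n), ee (-(θ * ds 3 0 (n + 1) (v + d * 3 ^ n)))
        = ee (-(θ * d)) * ∑ v ∈ range (3 ^ n), ee (-(θ * ds 3 0 n v)) := by
      intro d hd
      rw [mem_range] at hd
      rw [Finset.mul_sum]
      apply Finset.sum_congr rfl
      intro v hv
      rw [mem_range] at hv
      rw [Mom2.ds_step 3 n v d (by norm_num) hv hd, ← ee_add]
      congr 1
      push_cast
      ring
    rw [Finset.sum_congr rfl h1, ← Finset.sum_mul, ih, pow_succ, mul_comm]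
    congr 1
    simp only [Finset.sum_range_succ, Finset.sum_range_zero]
    push_cast
    rw [mul_zero, neg_zero, ee_zero, mul_one, mul_comm θ 2]
    ring

lemma chA_eq (n2 n3 : ℕ) (θ : ℝ) :
    chA n2 n3 θ = ∑ v ∈ range (3 ^ n3), ∑ j ∈ range (n2 + 1),
      (((n2.choose j : ℝ) / 2 ^ n2 / 3 ^ n3 : ℝ) : ℂ) *
        ee (θ * ((j : ℝ) - ds 3 0 n3 v)) := by
  unfold chA
  rw [div_pow, div_pow, ← gen3, add_comm 1 (ee θ), add_pow, Finset.sum_div, Finset.sum_div,
    Finset.sum_mul_sum, Finset.sum_comm]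
  apply Finset.sum_congr rfl
  intro v _
  apply Finset.sum_congr rfl
  intro j _
  rw [mul_sub, sub_eq_add_neg, ee_add, mul_comm θ (j : ℝ), ee_nat_mul]
  push_cast
  ring

lemma continuous_ee' (c : ℝ) : Continuous fun θ : ℝ => ee (θ * c) := by
  unfold Pool.Agent.Work.MP_122e00_nt.ee
  fun_prop

lemma integral_ee (m : ℤ) :
    ∫ θ in (-(1 / 2 : ℝ))..(1 / 2), ee (θ * (m : ℝ)) = if m = 0 then 1 else 0 := by
  by_cases hm : m = 0
  · rw [if_pos hm, hm]
    simp [ee_zero]
    norm_num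
  · rw [if_neg hm]
    have h1 : ∀ θ : ℝ, ee (θ * (m : ℝ)) = Complex.exp ((2 * Real.pi * m * Complex.I) * θ) := by
      intro θ
      unfold Pool.Agent.Work.MP_122e00_nt.ee
      congr 1
      push_cast
      ring
    simp_rw [h1]
    have hc : (2 * Real.pi * m * Complex.I : ℂ) ≠ 0 := by
      have : (m : ℂ) ≠ 0 := by exact_mod_cast hm
      have h2 : (Real.pi : ℂ) ≠ 0 := by exact_mod_cast Real.pi_ne_zero
      simp [this, h2]
    rw [integral_exp_mul_complex hc]
    have h2 : Complex.exp (2 * Real.pi * m * Complex.I * ((1 / 2 : ℝ) : ℂ))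
        = Complex.exp (2 * Real.pi * m * Complex.I * ((-(1 / 2) : ℝ) : ℂ)) := by
      rw [Complex.exp_eq_exp_iff_exists_int]
      refine ⟨m, ?_⟩
      push_cast
      ring
    rw [h2, sub_self, zero_div]

lemma integral_chA (n2 n3 : ℕ) (t : ℤ) :
    ∫ θ in (-(1 / 2 : ℝ))..(1 / 2), chA n2 n3 θ * ee (-(θ * t))
      = ((∑ v ∈ range (3 ^ n3), ∑ j ∈ range (n2 + 1),
        if (j : ℤ) - ds 3 0 n3 v - t = 0 then (n2.choose j : ℝ) / 2 ^ n2 / 3 ^ n3 else 0 : ℝ) : ℂ)
      := by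
  have h1 : ∀ θ : ℝ, chA n2 n3 θ * ee (-(θ * t))
      = ∑ v ∈ range (3 ^ n3), ∑ j ∈ range (n2 + 1),
        (((n2.choose j : ℝ) / 2 ^ n2 / 3 ^ n3 : ℝ) : ℂ) *
        ee (θ * (((j : ℤ) - ds 3 0 n3 v - t : ℤ) : ℝ)) := by
    intro θ
    rw [chA_eq, Finset.sum_mul]
    apply Finset.sum_congr rfl
    intro v _
    rw [Finset.sum_mul]
    apply Finset.sum_congr rfl
    intro j _
    rw [mul_assoc, ← ee_add]
    congr 2
    push_cast
    ring
  simp_rw [h1]
  rw [intervalIntegral.integral_finsetSum, Complex.ofReal_sum]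
  · apply Finset.sum_congr rfl
    intro v _
    rw [intervalIntegral.integral_finsetSum, Complex.ofReal_sum]
    · apply Finset.sum_congr rfl
      intro j _
      rw [intervalIntegral.integral_const_mul, integral_ee]
      by_cases h : (j : ℤ) - ds 3 0 n3 v - t = 0
      · rw [if_pos h, if_pos h, mul_one]
      · rw [if_neg h, if_neg h, mul_zero, Complex.ofReal_zero]
    · intro j _
      apply Continuous.intervalIntegrable
      exact continuous_const.mul (continuous_ee' _)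
  · intro v _
    apply Continuous.intervalIntegrable
    apply continuous_finsetSum
    intro j _
    exact continuous_const.mul (continuous_ee' _)

/-- Chebyshev -/
lemma many (n : ℕ) : (3 : ℝ) ^ n / 2 ≤
    (((range (3 ^ n)).filter (fun v => ((ds 3 0 n v : ℝ) - n) ^ 2 ≤ 2 * n)).card : ℝ) := by
  have h1 := Mom2.sum_dev 3 n (Or.inr rfl)
  have h2 : (2 * n : ℝ) * (((range (3 ^ n)).filter
      (fun v => ¬ ((ds 3 0 n v : ℝ) - n) ^ 2 ≤ 2 * n)).card : ℝ)
      ≤ ∑ t ∈ range (3 ^ n), Mom2.dev 3 n t := by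
    calc (2 * n : ℝ) * (((range (3 ^ n)).filter
        (fun v => ¬ ((ds 3 0 n v : ℝ) - n) ^ 2 ≤ 2 * n)).card : ℝ)
        = ∑ v ∈ (range (3 ^ n)).filter (fun v => ¬ ((ds 3 0 n v : ℝ) - n) ^ 2 ≤ 2 * n),
          (2 * n : ℝ) := by
          rw [Finset.sum_const, nsmul_eq_mul, mul_comm]
      _ ≤ ∑ v ∈ (range (3 ^ n)).filter (fun v => ¬ ((ds 3 0 n v : ℝ) - n) ^ 2 ≤ 2 * n),
          Mom2.dev 3 n v := by
          apply Finset.sum_le_sum
          intro v hv
          have h3 := (mem_filter.mp hv).2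
          push Not at h3
          unfold Mom2.dev
          have : (n : ℝ) * (((3 : ℕ) : ℝ) - 1) / 2 = n := by
            push_cast
            ring
          rw [this]
          exact h3.le
      _ ≤ ∑ t ∈ range (3 ^ n), Mom2.dev 3 n t := by
          apply Finset.sum_le_sum_of_subset_of_nonneg (Finset.filter_subset _ _)
          intro v _ _
          exact Mom2.dev_nonneg _ _ _
  have h3 := Finset.card_filter_add_card_filter_not (s := range (3 ^ n))
    (p := fun v => ((ds 3 0 n v : ℝ) - n) ^ 2 ≤ 2 * n)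
  rw [card_range] at h3
  have h4 : (((range (3 ^ n)).filter (fun v => ((ds 3 0 n v : ℝ) - n) ^ 2 ≤ 2 * n)).card : ℝ)
      + (((range (3 ^ n)).filter (fun v => ¬ ((ds 3 0 n v : ℝ) - n) ^ 2 ≤ 2 * n)).card : ℝ)
      = 3 ^ n := by
    exact_mod_cast h3
  rcases Nat.eq_zero_or_pos n with h0 | h0
  · subst h0
    have : (((range (3 ^ 0)).filter
        (fun v => ¬ ((ds 3 0 0 v : ℝ) - ((0 : ℕ) : ℝ)) ^ 2 ≤ 2 * ((0 : ℕ) : ℝ))).card : ℝ) = 0 := by
      rw [Nat.cast_eq_zero, Finset.card_eq_zero, Finset.filter_eq_empty_iff]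
      intro v _
      simp [ds_zero_right]
    rw [this, add_zero] at h4
    rw [h4]
    norm_num
  · have hn : (0 : ℝ) < n := by exact_mod_cast h0
    push_cast at h1
    have h5 := h2.trans h1
    have h6 : 2 * (((range (3 ^ n)).filter
      (fun v => ¬ ((ds 3 0 n v : ℝ) - n) ^ 2 ≤ 2 * n)).card : ℝ) ≤ 3 ^ n := by
      by_contra hcon
      have hcon := not_le.mp hcon
      nlinarith
    linarith

end LLT

open LLT in
theorem claimLLT (h : ClaimBin) : ClaimLLT := by
  intro A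
  obtain ⟨c, hc, hB⟩ := h (4 * (|A| + 2))
  refine ⟨c / 2, ⌈(20 * (|A| + 2)) ^ 2⌉₊ + 1, by positivity, ?_⟩
  intro K n2 n3 hK hK2 h2K hK3 h3K t
  rw [integral_chA, Complex.ofReal_re]
  have hnn : ∀ v ∈ range (3 ^ n3), ∀ j ∈ range (n2 + 1),
      0 ≤ (if (j : ℤ) - ds 3 0 n3 v - t = 0 then (n2.choose j : ℝ) / 2 ^ n2 / 3 ^ n3 else 0) := by
    intro v _ j _
    split_ifs
    · positivity
    · exact le_rfl
  have hnn' : ∀ v ∈ range (3 ^ n3), 0 ≤ ∑ j ∈ range (n2 + 1),
      (if (j : ℤ) - ds 3 0 n3 v - t = 0 then (n2.choose j : ℝ) / 2 ^ n2 / 3 ^ n3 else 0) :=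
    fun v hv => Finset.sum_nonneg (hnn v hv)
  refine ⟨Finset.sum_nonneg hnn', ?_⟩
  intro ht
  have hA0 : 0 ≤ |A| := abs_nonneg A
  have hK1 : 1 ≤ K := by omega
  have hKr : (1 : ℝ) ≤ K := by exact_mod_cast hK1
  have hKbig : (20 * (|A| + 2)) ^ 2 ≤ (K : ℝ) := by
    have h1 := Nat.le_ceil ((20 * (|A| + 2)) ^ 2)
    have h2 : ((⌈(20 * (|A| + 2)) ^ 2⌉₊ : ℕ) : ℝ) ≤ K := by
      have : ⌈(20 * (|A| + 2)) ^ 2⌉₊ ≤ K := by omega
      exact_mod_cast this
    linarith
  set s := Real.sqrt K with hs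
  have hs0 : 0 ≤ s := Real.sqrt_nonneg _
  have hss : s * s = K := Real.mul_self_sqrt (by positivity)
  have hs20 : 20 * (|A| + 2) ≤ s := by
    rw [hs]
    exact Real.le_sqrt_of_sq_le hKbig
  have hs1 : 1 ≤ s := by nlinarith
  have hn2pos : 1 ≤ n2 := by
    have : (0 : ℝ) < n2 := by linarith
    have : 0 < n2 := by exact_mod_cast this
    omega
  set s2 := Real.sqrt n2 with hs2
  have hs20' : 0 ≤ s2 := Real.sqrt_nonneg _
  have hss2 : s2 * s2 = n2 := Real.mul_self_sqrt (by positivity)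
  have hs2pos : 0 < s2 := by
    rw [hs2]
    apply Real.sqrt_pos.mpr
    have : (1 : ℝ) ≤ n2 := by exact_mod_cast hn2pos
    linarith
  have hs2s : s2 ≤ s := by
    rw [hs2, hs]
    apply Real.sqrt_le_sqrt
    exact_mod_cast h2K
  have hss4 : s ≤ 4 * s2 := by
    by_contra hcon
    push Not at hcon
    nlinarith
  -- good v
  have hgood : ∀ v ∈ (range (3 ^ n3)).filter
      (fun v => ((ds 3 0 n3 v : ℝ) - n3) ^ 2 ≤ 2 * n3),
      c / s / 3 ^ n3 ≤ ∑ j ∈ range (n2 + 1),
      (if (j : ℤ) - ds 3 0 n3 v - t = 0 then (n2.choose j : ℝ) / 2 ^ n2 / 3 ^ n3 else 0) := by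
    intro v hv
    obtain ⟨hv1, hv2⟩ := mem_filter.mp hv
    set D : ℝ := (ds 3 0 n3 v : ℝ) with hD
    have hD1 : |D - n3| ≤ 2 * s := by
      apply abs_le_of_sq_le_sq' _ (by positivity) |> abs_le.mpr
      have : (n3 : ℝ) ≤ K := by exact_mod_cast h3K
      nlinarith
    have hj1 : |(t : ℝ) + D - n2 / 2| ≤ (|A| + 2) * s := by
      have e1 : (t : ℝ) + D - n2 / 2 = (t - ((n2 : ℝ) / 2 - n3)) + (D - n3) := by ring
      rw [e1]
      refine (abs_add_le _ _).trans ?_
      have e2 : A * s ≤ |A| * s := mul_le_mul_of_nonneg_right (le_abs_self A) hs0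
      linarith
    have hj2 : (|A| + 2) * s ≤ n2 / 2 := by
      nlinarith
    have hj3 : 0 ≤ (t : ℝ) + D ∧ (t : ℝ) + D ≤ n2 := by
      have := abs_le.mp hj1
      constructor <;> linarith
    obtain ⟨j, hj⟩ : ∃ j : ℕ, (j : ℤ) = t + (ds 3 0 n3 v : ℤ) := by
      apply Int.eq_ofNat_of_zero_le _ |>.imp (fun j hj => hj.symm)
      have : (0 : ℝ) ≤ ((t + (ds 3 0 n3 v : ℤ) : ℤ) : ℝ) := by
        push_cast
        exact hj3.1
      exact_mod_cast this
    have hjr : (j : ℝ) = t + D := by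
      have : ((j : ℤ) : ℝ) = ((t + (ds 3 0 n3 v : ℤ) : ℤ) : ℝ) := by rw [hj]
      push_cast at this
      exact this
    have hjn : j ≤ n2 := by
      have : (j : ℝ) ≤ n2 := by rw [hjr]; exact hj3.2
      exact_mod_cast this
    have hb := hB n2 j hn2pos hjn (by
      rw [hjr]
      refine hj1.trans ?_
      rw [← hs2]
      nlinarith)
    rw [← hs2] at hb
    have h5 := Finset.single_le_sum (hnn v hv1) (mem_range.mpr (Nat.lt_succ_of_le hjn))
    refine le_trans ?_ h5
    rw [if_pos (by rw [hj]; ring)]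
    apply div_le_div_of_nonneg_right _ (by positivity)
    refine le_trans ?_ hb
    exact div_le_div_of_nonneg_left hc.le hs2pos hs2s
  have hm := many n3
  calc c / 2 / s = (3 ^ n3 / 2) * (c / s / 3 ^ n3) := by
        field_simp
    _ ≤ (((range (3 ^ n3)).filter
      (fun v => ((ds 3 0 n3 v : ℝ) - n3) ^ 2 ≤ 2 * n3)).card : ℝ) * (c / s / 3 ^ n3) := by
        apply mul_le_mul_of_nonneg_right hm
        positivity
    _ = ∑ v ∈ (range (3 ^ n3)).filter
      (fun v => ((ds 3 0 n3 v : ℝ) - n3) ^ 2 ≤ 2 * n3), (c / s / 3 ^ n3) := by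
        rw [Finset.sum_const, nsmul_eq_mul]
    _ ≤ ∑ v ∈ (range (3 ^ n3)).filter
      (fun v => ((ds 3 0 n3 v : ℝ) - n3) ^ 2 ≤ 2 * n3), ∑ j ∈ range (n2 + 1),
      (if (j : ℤ) - ds 3 0 n3 v - t = 0 then (n2.choose j : ℝ) / 2 ^ n2 / 3 ^ n3 else 0) :=
        Finset.sum_le_sum hgood
    _ ≤ _ := by
        apply Finset.sum_le_sum_of_subset_of_nonneg (Finset.filter_subset _ _)
        intro v hv _
        exact hnn' v hv

end Pool.Agent.Work.MP_8e4d29_nt

end

section

/-! MP_8e4d29_nt, item D6: the one-dimensional transfer operator bound. -/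

namespace Pool.Agent.Work.MP_8e4d29_nt

open Finset
open Pool.Agent.Work.MP_122e00_nt (ee ee_add norm_ee norm_ee_sub_one)

namespace LineAux

/-- the sum for a shift `b` -/
noncomputable def T (θ : ℝ) (l b : ℕ) : ℂ :=
  ∑ x ∈ range (2 ^ (5 * l)), ee (θ * ((ds 2 0 (5 * l) (x + b) : ℝ) - ds 2 0 (5 * l) x))

theorem norm_ee_add_one (θ : ℝ) : ‖ee θ + 1‖ = 2 * |Real.cos (Real.pi * θ)| := by
  have h1 : ee (θ + 1 / 2) = -ee θ := by
    rw [ee_add]
    have : ee (1 / 2) = -1 := by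
      unfold ee
      rw [← Complex.exp_pi_mul_I]
      congr 1
      push_cast
      ring
    rw [this]
    ring
  have h2 := norm_ee_sub_one (θ + 1 / 2)
  rw [h1] at h2
  have h3 : ‖-ee θ - 1‖ = ‖ee θ + 1‖ := by
    rw [← norm_neg]
    congr 1
    ring
  rw [h3] at h2
  rw [h2]
  congr 2
  rw [mul_add, show Real.pi * (1 / 2) = Real.pi / 2 by ring, Real.sin_add_pi_div_two]

theorem ds_split (l n : ℕ) : ds 2 0 (5 * (l + 1)) n = ds 2 0 5 n + ds 2 0 (5 * l) (n / 32) := by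
  rw [ds_add 2 (Nat.zero_le 5) (by omega : 5 ≤ 5 * (l + 1)) n, ds_shift 2 5 (5 * (l + 1)) n]
  congr 2

theorem T_succ (θ : ℝ) (l b : ℕ) : T θ (l + 1) b =
    ∑ u ∈ range 32, ee (θ * ((ds 2 0 5 (u + b) : ℝ) - ds 2 0 5 u)) * T θ l ((u + b) / 32) := by
  have e1 : (2 : ℕ) ^ (5 * (l + 1)) = 2 ^ (5 * l) * 32 := by
    rw [show 5 * (l + 1) = 5 * l + 5 by ring, pow_add]
    norm_num
  unfold T
  rw [e1]
  have h1 : ∀ f : ℕ → ℂ, ∑ x ∈ range (2 ^ (5 * l) * 32), f x =
      ∑ u ∈ range 32, ∑ y ∈ range (2 ^ (5 * l)), f (32 * y + u) := by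
    intro f
    generalize 2 ^ (5 * l) = K
    rw [Finset.sum_comm]
    induction K with
    | zero => simp
    | succ K ih =>
      rw [Nat.succ_mul, Finset.sum_range_add, ih, Finset.sum_range_succ (n := K)]
      congr 1
      apply Finset.sum_congr rfl
      intro u _
      rw [mul_comm]
  rw [h1]
  apply Finset.sum_congr rfl
  intro u hu
  rw [Finset.mem_range] at hu
  rw [Finset.mul_sum]
  apply Finset.sum_congr rfl
  intro y _
  rw [← ee_add]
  congr 1
  rw [ds_split, ds_split]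
  have e2 : (32 * y + u + b) / 32 = y + (u + b) / 32 := by omega
  have e3 : (32 * y + u) / 32 = y := by omega
  have e4 : ds 2 0 5 (32 * y + u + b) = ds 2 0 5 (u + b) := by
    have := ds_add_mul 2 0 5 (u + b) y
    rw [← this]
    congr 1
    norm_num
    ring
  have e5 : ds 2 0 5 (32 * y + u) = ds 2 0 5 u := by
    have := ds_add_mul 2 0 5 u y
    rw [← this]
    congr 1
    norm_num
    ring
  rw [e2, e3, e4, e5]
  push_cast
  ring

theorem kth_nonneg (θ : ℝ) : 0 ≤ kth θ := by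
  unfold kth
  have := abs_nonneg (Real.cos (Real.pi * θ))
  linarith

theorem main (θ : ℝ) : ∀ (l a : ℕ) (G : Finset ℕ), (∀ i ∈ G, i < l) →
    (∀ i ∈ G, a / 2 ^ (5 * i) % 32 = 2) → ∀ c : ℕ, c ≤ 1 →
    ‖T θ l (a + c)‖ ≤ 2 ^ (5 * l) * kth θ ^ G.card := by
  intro l
  induction l with
  | zero =>
    intro a G h1 _ c _
    have hG : G = ∅ := by
      apply Finset.eq_empty_of_forall_notMem
      intro i hi
      exact absurd (h1 i hi) (Nat.not_lt_zero _)
    subst hG
    simp [T, norm_ee]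
  | succ l ih =>
    intro a G h1 h2 c hc
    set G' : Finset ℕ := (G.erase 0).image (fun i => i - 1) with hG'
    have hG'1 : ∀ i ∈ G', i + 1 ∈ G := by
      intro i hi
      rw [hG', Finset.mem_image] at hi
      obtain ⟨j, hj, rfl⟩ := hi
      rw [Finset.mem_erase] at hj
      have : j - 1 + 1 = j := by omega
      rw [this]
      exact hj.2
    have hcard : G'.card = (G.erase 0).card := by
      rw [hG']
      apply Finset.card_image_of_injOn
      intro x hx y hy hxy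
      simp only [Finset.coe_erase, Set.mem_sdiff, Set.mem_singleton_iff] at hx hy
      have h3 := hx.2
      have h4 := hy.2
      simp only at hxy
      omega
    have hB : ∀ c : ℕ, c ≤ 1 → ‖T θ l (a / 32 + c)‖ ≤ 2 ^ (5 * l) * kth θ ^ G'.card := by
      apply ih
      · intro i hi
        have := h1 _ (hG'1 i hi)
        omega
      · intro i hi
        have := h2 _ (hG'1 i hi)
        rw [show 5 * (i + 1) = 5 + 5 * i by ring, pow_add, show (2 : ℕ) ^ 5 = 32 by norm_num] at this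
        rw [Nat.div_div_eq_div_mul]
        exact this
    set B : ℝ := 2 ^ (5 * l) * kth θ ^ G'.card with hBdef
    have hterm : ∀ u ∈ range 32,
        ‖ee (θ * ((ds 2 0 5 (u + (a + c)) : ℝ) - ds 2 0 5 u)) * T θ l ((u + (a + c)) / 32)‖ ≤ B := by
      intro u hu
      rw [Finset.mem_range] at hu
      rw [norm_mul, norm_ee, one_mul]
      have e1 : (u + (a + c)) / 32 = a / 32 + (u + a % 32 + c) / 32 := by omega
      rw [e1]
      apply hB
      omega
    have hB0 : 0 ≤ B := mul_nonneg (by positivity) (pow_nonneg (kth_nonneg θ) _)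
    rw [T_succ]
    have e5 : (2 : ℝ) ^ (5 * (l + 1)) = 2 ^ (5 * l) * 32 := by
      rw [show 5 * (l + 1) = 5 * l + 5 by ring, pow_add]
      norm_num
    by_cases h0 : 0 ∈ G
    · have ha : a % 32 = 2 := by simpa using h2 0 h0
      have hc2 : G.card = G'.card + 1 := by
        rw [hcard, Finset.card_erase_add_one h0]
      have hsub : ({0, 2} : Finset ℕ) ⊆ range 32 := by
        intro x hx
        simp only [Finset.mem_insert, Finset.mem_singleton] at hx
        rw [Finset.mem_range]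
        omega
      rw [← Finset.sum_sdiff hsub]
      refine (norm_add_le _ _).trans ?_
      have hc3 : (range 32 \ {0, 2}).card = 30 := by
        rw [Finset.card_sdiff_of_subset hsub]
        simp
      have hs1 : ‖∑ u ∈ range 32 \ {0, 2},
          ee (θ * ((ds 2 0 5 (u + (a + c)) : ℝ) - ds 2 0 5 u)) * T θ l ((u + (a + c)) / 32)‖ ≤
            30 * B := by
        refine (norm_sum_le_of_le _ (fun u hu => hterm u (Finset.mem_sdiff.1 hu).1)).trans ?_
        rw [Finset.sum_const, hc3, nsmul_eq_mul]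
        norm_num
      have hd : ∀ n : ℕ, ds 2 0 5 n = ds 2 0 5 (n % 32) := by
        intro n
        have := ds_mod 2 0 5 n
        rw [← this]
        norm_num
      have hs2 : ‖∑ u ∈ ({0, 2} : Finset ℕ),
          ee (θ * ((ds 2 0 5 (u + (a + c)) : ℝ) - ds 2 0 5 u)) * T θ l ((u + (a + c)) / 32)‖ ≤
            2 * |Real.cos (Real.pi * θ)| * B := by
        rw [Finset.sum_pair (by norm_num)]
        have q1 : (0 + (a + c)) / 32 = a / 32 := by omega
        have q2 : (2 + (a + c)) / 32 = a / 32 := by omega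
        have q3 : ds 2 0 5 (0 + (a + c)) = 1 + c := by
          rw [hd, show (0 + (a + c)) % 32 = 2 + c by omega]
          interval_cases c <;> decide
        have q4 : ds 2 0 5 (2 + (a + c)) = 1 + c := by
          rw [hd, show (2 + (a + c)) % 32 = 4 + c by omega]
          interval_cases c <;> decide
        have q5 : ds 2 0 5 0 = 0 := by decide
        have q6 : ds 2 0 5 2 = 1 := by decide
        rw [q1, q2, q3, q4, q5, q6]
        have q7 : ee (θ * (((1 + c : ℕ) : ℝ) - ((0 : ℕ) : ℝ))) = ee (θ * c) * ee θ := by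
          rw [← ee_add]
          congr 1
          push_cast
          ring
        have q8 : ee (θ * (((1 + c : ℕ) : ℝ) - ((1 : ℕ) : ℝ))) = ee (θ * c) := by
          congr 1
          push_cast
          ring
        rw [q7, q8]
        have q9 : ee (θ * c) * ee θ * T θ l (a / 32) + ee (θ * c) * T θ l (a / 32) =
            ee (θ * c) * ((ee θ + 1) * T θ l (a / 32)) := by ring
        rw [q9, norm_mul, norm_ee, one_mul, norm_mul, norm_ee_add_one]
        apply mul_le_mul_of_nonneg_left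
        · simpa using hB 0 (by norm_num)
        · positivity
      refine (add_le_add hs1 hs2).trans (le_of_eq ?_)
      rw [hc2, pow_succ, e5, hBdef]
      unfold kth
      ring
    · have hc2 : G.card = G'.card := by
        rw [hcard, Finset.erase_eq_of_notMem h0]
      refine (norm_sum_le_of_le _ hterm).trans (le_of_eq ?_)
      rw [Finset.sum_const, Finset.card_range, nsmul_eq_mul, hc2, e5, hBdef]
      push_cast
      ring

end LineAux

/-- D6 -/
theorem claimLine : ClaimLine := by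
  intro θ l a G h1 h2
  have := LineAux.main θ l a G h1 h2 0 (by norm_num)
  simpa [LineAux.T] using this

end Pool.Agent.Work.MP_8e4d29_nt

end

section

/-!
MP_8e4d29_nt, items F5 and F6: missing low digits, bases 2 and 3.
-/

namespace Pool.Agent.Work.MP_8e4d29_nt

open Finset
open Pool.Agent.Work.MP_122e00_nt (ee norm_ee ee_add ee_neg ee_one_period ee_nat_mul)

namespace Low

open F2

lemma tele (b : ℕ) (t : ℝ) (a : ℕ) :
    (∏ i ∈ range a, ∑ d ∈ range b, ee (d * (-((b : ℝ) ^ i * t)))) * (ee (-t) - 1) =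
      ee (-((b : ℝ) ^ a * t)) - 1 := by
  induction a with
  | zero => simp
  | succ a ih =>
    rw [Finset.prod_range_succ, mul_comm (∏ i ∈ range a, _) _, mul_assoc, ih]
    have h : ∑ d ∈ range b, ee (d * (-((b : ℝ) ^ a * t))) =
        ∑ d ∈ range b, ee (-((b : ℝ) ^ a * t)) ^ d :=
      Finset.sum_congr rfl fun d _ => ee_nat_mul _ _
    rw [h, geom_sum_mul, ← ee_nat_mul]
    congr 2
    rw [pow_succ]
    ring

theorem main (b : ℕ) (hb : 0 < b) (k a ξ : ℕ) (w : ℕ → ℝ) (hak : a ≤ k) (hw : ∀ i < a, w i = 0)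
    (hnd : 0 < nd ((ξ : ℝ) / b ^ k)) :
    ‖cfb b k w ξ‖ ≤ 1 / ((b : ℝ) ^ a * (2 * nd ((ξ : ℝ) / b ^ k))) *
      ‖cfb b (k - a) (fun i => w (i + a)) ξ‖ := by
  have hbr : (0 : ℝ) < b := by exact_mod_cast hb
  obtain ⟨m, rfl⟩ : ∃ m, k = a + m := ⟨k - a, by omega⟩
  obtain ⟨t, ht⟩ : ∃ t : ℝ, t = (ξ : ℝ) / b ^ (a + m) := ⟨_, rfl⟩
  rw [← ht] at hnd ⊢
  have hsub : a + m - a = m := by omega
  rw [hsub]
  have h1 : cfb b (a + m) w ξ =
      ((∏ i ∈ range a, ∑ d ∈ range b, ee (d * (-((b : ℝ) ^ i * t)))) / (b : ℂ) ^ a) *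
      cfb b m (fun i => w (i + a)) ξ := by
    unfold cfb
    rw [Finset.prod_range_add]
    congr 1
    · rw [Finset.prod_div_distrib, Finset.prod_const, Finset.card_range]
      congr 1
      refine Finset.prod_congr rfl fun i hi => Finset.sum_congr rfl fun d _ => ?_
      rw [hw i (Finset.mem_range.mp hi), ht]
      congr 1
      ring
    · refine Finset.prod_congr rfl fun i _ => ?_
      congr 1
      refine Finset.sum_congr rfl fun d _ => ?_
      rw [add_comm a i]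
      congr 3
      rw [pow_add, pow_add]
      field_simp
  rw [h1, norm_mul]
  refine mul_le_mul_of_nonneg_right ?_ (norm_nonneg _)
  rw [norm_div, norm_pow, Complex.norm_natCast]
  have h2 := congrArg norm (tele b t a)
  rw [norm_mul] at h2
  have h3 : 4 * nd t ≤ ‖ee (-t) - 1‖ := by
    have := norm_ee_sub_one_ge (-t)
    rwa [nd_neg] at this
  have h4 : ‖ee (-((b : ℝ) ^ a * t)) - 1‖ ≤ 2 := by
    refine (norm_sub_le _ _).trans ?_
    rw [norm_ee, norm_one]
    norm_num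
  obtain ⟨p, hp⟩ : ∃ p, p = ‖∏ i ∈ range a, ∑ d ∈ range b, ee (d * (-((b : ℝ) ^ i * t)))‖ :=
    ⟨_, rfl⟩
  rw [← hp] at h2 ⊢
  have hp0 : 0 ≤ p := hp ▸ norm_nonneg _
  have h5 : p * (4 * nd t) ≤ 2 := by
    calc p * (4 * nd t) ≤ p * ‖ee (-t) - 1‖ := mul_le_mul_of_nonneg_left h3 hp0
      _ ≤ 2 := by rw [h2]; exact h4
  rw [div_le_div_iff₀ (by positivity) (by positivity)]
  have hba : (0 : ℝ) < (b : ℝ) ^ a := by positivity
  nlinarith

end Low

theorem claimLow2 : ClaimLow2 := by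
  intro k a ξ w hak hw hnd
  have h := Low.main 2 (by norm_num) k a ξ w hak hw (by exact_mod_cast hnd)
  rw [F2.cf2_eq, F2.cf2_eq]
  exact_mod_cast h

theorem claimLow3 : ClaimLow3 := by
  intro k a ξ w hak hw hnd
  have h := Low.main 3 (by norm_num) k a ξ w hak hw (by exact_mod_cast hnd)
  rw [F2.cf3_eq, F2.cf3_eq]
  exact_mod_cast h

end Pool.Agent.Work.MP_8e4d29_nt

end

section

/-!
MP_8e4d29_nt, item D17: the minor arc estimate from Vaughan's identity and the type I and type II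
bounds.
-/

namespace Pool.Agent.Work.MP_8e4d29_nt

open Finset

namespace Minor

lemma sum_inv_le (U : ℕ) : ∑ m ∈ Icc 1 U, (1 : ℝ) / m ≤ 1 + Real.log U := by
  have h := harmonic_le_one_add_log U
  rw [harmonic_eq_sum_Icc] at h
  push_cast at h
  simpa [one_div] using h

lemma dl_mono {c c' θ L : ℝ} {N : ℝ} (hc : c ≤ c') (hN : 1 ≤ N) (hL : 0 ≤ L) :
    Real.exp (-c' * θ ^ 2 * L) + N ^ (-c') ≤ Real.exp (-c * θ ^ 2 * L) + N ^ (-c) := by
  apply add_le_add
  · apply Real.exp_le_exp.mpr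
    have : 0 ≤ θ ^ 2 * L := by positivity
    nlinarith
  · exact Real.rpow_le_rpow_of_exponent_le hN (by linarith)

lemma block_le {A' B' H m : ℕ} (hm : 1 ≤ m) (hAB : A' ≤ B') (hH : B' ≤ A' + H) (hmH : m ≤ H) :
    (B' / m - A' / m) * m ≤ 2 * H := by
  have h1 := Nat.div_mul_le_self B' m
  have h2 := Nat.div_add_mod A' m
  have h3 := Nat.mod_lt A' (by omega : 0 < m)
  rw [Nat.sub_mul]
  rw [mul_comm] at h2
  omega

end Minor

open Minor in
theorem claimMinor (h1 : ClaimVaughan) (h2 : ClaimTypeI) (h3 : ClaimTypeII) : ClaimMinor := by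
  obtain ⟨C, hC, hV⟩ := h1
  obtain ⟨c1, N1, hc1, hI⟩ := h2
  obtain ⟨c2, C2, N2, hc2, hII⟩ := h3
  obtain ⟨K, hK⟩ := pow_unbounded_of_one_lt (9 * C) (by norm_num : (1 : ℝ) < 2)
  refine ⟨min c1 c2, K + 3 + 1 + C2, max 32 (max N1 N2), lt_min hc1 hc2, ?_⟩
  intro N A H θ hN0 hNA hAH hH1 hH2 hθ
  have hN32 : 32 ≤ N := (le_max_left _ _).trans hN0
  have hN1 : N1 ≤ N := ((le_max_left _ _).trans (le_max_right _ _)).trans hN0
  have hN2 : N2 ≤ N := ((le_max_right _ _).trans (le_max_right _ _)).trans hN0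
  have hNr : (32 : ℝ) ≤ N := by exact_mod_cast hN32
  have hNone : (1 : ℝ) ≤ N := by linarith
  have hNpos : (0 : ℝ) < N := by linarith
  have hlog : 0 ≤ Real.log N := Real.log_nonneg hNone
  have hHpos : (0 : ℝ) < H := lt_of_lt_of_le (Real.rpow_pos_of_pos hNpos _) hH1
  set x : ℝ := (N : ℝ) ^ ((1 : ℝ) / 1000) * N / H with hx
  set U : ℕ := ⌊x⌋₊ with hU
  have hxpos : 0 < x := by positivity
  have hUx : (U : ℝ) ≤ x := Nat.floor_le hxpos.le
  have hxU : x < U + 1 := Nat.lt_floor_add_one x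
  have hxH : x * H = (N : ℝ) ^ ((1 : ℝ) / 1000) * N := by
    rw [hx]; field_simp
  -- upper bound for x
  have hx231 : x ≤ (N : ℝ) ^ ((231 : ℝ) / 1000) := by
    rw [hx, div_le_iff₀ hHpos]
    calc (N : ℝ) ^ ((1 : ℝ) / 1000) * N = (N : ℝ) ^ ((1 : ℝ) / 1000) * (N : ℝ) ^ (1 : ℝ) := by
          rw [Real.rpow_one]
      _ = (N : ℝ) ^ ((231 : ℝ) / 1000) * (N : ℝ) ^ ((77 : ℝ) / 100) := by
          rw [← Real.rpow_add hNpos, ← Real.rpow_add hNpos]
          congr 1
          norm_num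
      _ ≤ (N : ℝ) ^ ((231 : ℝ) / 1000) * H := by gcongr
  -- 2 H <= N^(1.001)
  have h2H : 2 * (H : ℝ) ≤ (N : ℝ) ^ ((1 : ℝ) / 1000) * N := by
    have e1 : (2 : ℝ) ≤ (N : ℝ) ^ ((1 : ℝ) / 5) := by
      have e2 : (2 : ℝ) = (32 : ℝ) ^ ((1 : ℝ) / 5) := by
        rw [show (32 : ℝ) = 2 ^ (5 : ℝ) by norm_num, ← Real.rpow_mul (by norm_num)]
        norm_num
      rw [e2]
      exact Real.rpow_le_rpow (by norm_num) hNr (by norm_num)
    calc 2 * (H : ℝ) ≤ (N : ℝ) ^ ((1 : ℝ) / 5) * (N : ℝ) ^ ((80 : ℝ) / 100) := by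
          apply mul_le_mul e1 hH2 hHpos.le (by positivity)
      _ = (N : ℝ) ^ (1 : ℝ) := by
          rw [← Real.rpow_add hNpos]
          congr 1
          norm_num
      _ = 1 * N := by rw [Real.rpow_one, one_mul]
      _ ≤ (N : ℝ) ^ ((1 : ℝ) / 1000) * N := by
          apply mul_le_mul_of_nonneg_right _ hNpos.le
          exact Real.one_le_rpow hNone (by norm_num)
  have hx2 : 2 ≤ x := by
    rw [hx, le_div_iff₀ hHpos]
    exact h2H
  have hU1 : 1 ≤ U := by
    rw [hU]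
    exact Nat.le_floor (by push_cast; linarith)
  have hU3 : U ^ 3 ≤ N := by
    have e1 : ((U : ℝ)) ^ 3 ≤ N := by
      calc (U : ℝ) ^ 3 ≤ ((N : ℝ) ^ ((231 : ℝ) / 1000)) ^ 3 :=
            pow_le_pow_left₀ (by positivity) (hUx.trans hx231) 3
        _ = (N : ℝ) ^ ((231 : ℝ) / 1000 * (3 : ℕ)) := by
            rw [Real.rpow_mul hNpos.le, Real.rpow_natCast]
        _ ≤ (N : ℝ) ^ (1 : ℝ) := Real.rpow_le_rpow_of_exponent_le hNone (by norm_num)
        _ = N := Real.rpow_one _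
    exact_mod_cast e1
  have hUH : U ≤ H := by
    have e1 : (U : ℝ) ≤ H :=
      (hUx.trans hx231).trans
        ((Real.rpow_le_rpow_of_exponent_le hNone (by norm_num)).trans hH1)
    exact_mod_cast e1
  have hUN : U ≤ N := by
    calc U ≤ U ^ 3 := Nat.le_self_pow (by norm_num) U
      _ ≤ N := hU3
  set δ1 : ℝ := Real.exp (-c1 * θ ^ 2 * Real.log N) + (N : ℝ) ^ (-c1) with hδ1
  set δ2 : ℝ := Real.exp (-c2 * θ ^ 2 * Real.log N) + (N : ℝ) ^ (-c2) with hδ2
  set δ0 : ℝ := Real.exp (-(min c1 c2) * θ ^ 2 * Real.log N) + (N : ℝ) ^ (-(min c1 c2)) with hδ0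
  have hd1 : δ1 ≤ δ0 := dl_mono (min_le_left _ _) hNone hlog
  have hd2 : δ2 ≤ δ0 := dl_mono (min_le_right _ _) hNone hlog
  have hd1' : 0 ≤ δ1 := by positivity
  have hd2' : 0 ≤ δ2 := by positivity
  have hd0' : 0 ≤ δ0 := by positivity
  have key := hV N A (A + H) U (fun n => ff θ n) (fun m => 8 * ((H : ℝ) / m) * δ1)
    (H * (2 + Real.log N) ^ C2 * δ2) hU1 hU3 (by omega) hNA (by omega) (by omega)
    (fun m => by positivity) (by positivity)
    (by
      intro m A' B' hm hmU hAA' hAB' hB'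
      apply hI N H m (A' / m) (B' / m) θ hN1 hH1 hH2 hm
      · rw [← hxH]
        apply mul_le_mul_of_nonneg_right _ hHpos.le
        exact le_trans (by exact_mod_cast hmU) hUx
      · exact Nat.div_le_div_right hAB'
      · have := Nat.mul_div_le B' m
        omega
      · exact block_le hm hAB' (by omega) (by omega)
      · exact hθ)
    (by
      intro M P hUP hPM hMP hNMP a b ha hb
      apply hII N A H M P θ a b hN2 hNA hAH hH1 hH2 hPM hMP hNMP _ hθ ha hb
      have e1 : (U : ℝ) ≤ 2 * P := by exact_mod_cast hUP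
      rw [← hxH]
      rw [← hxH] at h2H
      nlinarith)
  refine key.trans ?_
  set ℓ : ℝ := 2 + Real.log N with hℓ
  have hℓ2 : 2 ≤ ℓ := by linarith
  have hsum : ∑ m ∈ Icc 1 U, 8 * ((H : ℝ) / m) * δ1 ≤ 8 * H * ℓ * δ0 := by
    have e1 : ∑ m ∈ Icc 1 U, 8 * ((H : ℝ) / m) * δ1 = 8 * H * δ1 * ∑ m ∈ Icc 1 U, (1 : ℝ) / m := by
      rw [Finset.mul_sum]
      refine Finset.sum_congr rfl fun m _ => ?_
      ring
    have e2 : Real.log U ≤ Real.log N :=
      Real.log_le_log (by exact_mod_cast hU1) (by exact_mod_cast hUN)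
    have e3 : ∑ m ∈ Icc 1 U, (1 : ℝ) / m ≤ ℓ := (sum_inv_le U).trans (by linarith)
    rw [e1]
    calc 8 * (H : ℝ) * δ1 * ∑ m ∈ Icc 1 U, (1 : ℝ) / m ≤ 8 * (H : ℝ) * δ1 * ℓ := by gcongr
      _ ≤ 8 * (H : ℝ) * δ0 * ℓ := by gcongr
      _ = 8 * H * ℓ * δ0 := by ring
  have hlog4 : Real.log (4 * N) ≤ ℓ := by
    rw [Real.log_mul (by norm_num) hNpos.ne']
    have e4 : Real.log 4 ≤ 2 := by
      have h5 := Real.log_two_lt_d9
      have h6 : Real.log 4 = 2 * Real.log 2 := by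
        rw [show (4 : ℝ) = 2 ^ 2 by norm_num, Real.log_pow]
        norm_num
      rw [h6]
      linarith
    linarith
  have hlog4' : 0 ≤ Real.log (4 * N) := Real.log_nonneg (by linarith)
  have hKℓ : 9 * C ≤ ℓ ^ K := hK.le.trans (pow_le_pow_left₀ (by norm_num) hℓ2 K)
  have hone : (1 : ℝ) ≤ ℓ ^ C2 := one_le_pow₀ (by linarith)
  have hinner : ∑ m ∈ Icc 1 U, 8 * ((H : ℝ) / m) * δ1 + H * ℓ ^ C2 * δ2 ≤
      9 * (H * (ℓ * ℓ ^ C2) * δ0) := by
    have e1 : 8 * (H : ℝ) * ℓ * δ0 ≤ 8 * (H * (ℓ * ℓ ^ C2) * δ0) := by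
      have : (H : ℝ) * ℓ * δ0 * 1 ≤ (H : ℝ) * ℓ * δ0 * ℓ ^ C2 :=
        mul_le_mul_of_nonneg_left hone (by positivity)
      nlinarith
    have e2 : (H : ℝ) * ℓ ^ C2 * δ2 ≤ H * (ℓ * ℓ ^ C2) * δ0 := by
      calc (H : ℝ) * ℓ ^ C2 * δ2 ≤ (H : ℝ) * ℓ ^ C2 * δ0 := by gcongr
        _ = H * (1 * ℓ ^ C2) * δ0 := by ring
        _ ≤ H * (ℓ * ℓ ^ C2) * δ0 := by
          have : (1 : ℝ) ≤ ℓ := by linarith
          gcongr
    linarith
  calc C * Real.log (4 * N) ^ 3 *
        (∑ m ∈ Icc 1 U, 8 * ((H : ℝ) / m) * δ1 + H * ℓ ^ C2 * δ2)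
      ≤ C * ℓ ^ 3 * (9 * (H * (ℓ * ℓ ^ C2) * δ0)) := by
        apply mul_le_mul _ hinner _ (by positivity)
        · have := pow_le_pow_left₀ hlog4' hlog4 3
          gcongr
        · have : 0 ≤ ∑ m ∈ Icc 1 U, 8 * ((H : ℝ) / m) * δ1 :=
            Finset.sum_nonneg fun m _ => by positivity
          positivity
    _ = (9 * C) * (ℓ ^ 3 * (H * (ℓ * ℓ ^ C2) * δ0)) := by ring
    _ ≤ ℓ ^ K * (ℓ ^ 3 * (H * (ℓ * ℓ ^ C2) * δ0)) := by
        apply mul_le_mul_of_nonneg_right hKℓ (by positivity)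
    _ = H * ℓ ^ (K + 3 + 1 + C2) * δ0 := by ring

end Pool.Agent.Work.MP_8e4d29_nt

end

section

/-!
MP_8e4d29_nt, item D4: cutting the sum over `m` into pieces, equidistribution of `m n` modulo
`2^λ`.
-/

namespace Pool.Agent.Work.MP_8e4d29_nt

open Finset
open Pool.Agent.Work.MP_122e00_nt (ee norm_ee)

namespace Pieces

theorem card_mult_le (T q c : ℕ) (hT : 1 ≤ T) :
    ((range (T * q)).filter (fun x => T ∣ x + c)).card ≤ q := by
  have h : ((range (T * q)).filter (fun x => T ∣ x + c)).card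
      ≤ (Ico ((c + T - 1) / T) ((c + T - 1) / T + q)).card := by
    refine Finset.card_le_card_of_injOn (fun x => (x + c) / T) ?_ ?_
    · intro x hx
      rw [Finset.mem_coe, Finset.mem_filter, Finset.mem_range] at hx
      obtain ⟨hx, y, hy⟩ := hx
      have e : (x + c) / T = y := by
        rw [hy]
        exact Nat.mul_div_cancel_left y (by omega)
      simp only [Finset.coe_Ico, Set.mem_Ico, e]
      have hdm := Nat.div_add_mod (c + T - 1) T
      have hml := Nat.mod_lt (c + T - 1) (show 0 < T by omega)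
      set s := (c + T - 1) / T
      set m := (c + T - 1) % T
      constructor
      · by_contra hcon
        push Not at hcon
        have h1 : T * (y + 1) ≤ T * s := Nat.mul_le_mul_left T hcon
        rw [Nat.mul_add, Nat.mul_one] at h1
        omega
      · by_contra hcon
        push Not at hcon
        have h1 : T * (s + q) ≤ T * y := Nat.mul_le_mul_left T hcon
        rw [Nat.mul_add] at h1
        omega
    · intro x hx y hy hxy
      rw [Finset.mem_coe, Finset.mem_filter, Finset.mem_range] at hx hy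
      obtain ⟨hx, x', hx'⟩ := hx
      obtain ⟨hy, y', hy'⟩ := hy
      have e1 : (x + c) / T = x' := by
        rw [hx']
        exact Nat.mul_div_cancel_left x' (by omega)
      have e2 : (y + c) / T = y' := by
        rw [hy']
        exact Nat.mul_div_cancel_left y' (by omega)
      have hxy' : (x + c) / T = (y + c) / T := hxy
      rw [e1, e2] at hxy'
      subst hxy'
      omega
  simpa using h

/-- the function whose values along `m n` are summed -/
noncomputable def Phi (θ : ℝ) (k l : ℕ) (s : (Fin 4 → Fin 2) → ℕ) (x : ℕ) : ℂ :=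
  ee (-(θ * alt k l (fun ε => x + s ε)))

theorem Phi_norm (θ : ℝ) (k l : ℕ) (s : (Fin 4 → Fin 2) → ℕ) (x : ℕ) : ‖Phi θ k l s x‖ = 1 :=
  norm_ee _

theorem Phi_period (θ : ℝ) (k l : ℕ) (s : (Fin 4 → Fin 2) → ℕ) (x : ℕ) :
    Phi θ k l s (x + 2 ^ (5 * l)) = Phi θ k l s x := by
  have h : alt k l (fun ε => x + 2 ^ (5 * l) + s ε) = alt k l (fun ε => x + s ε) := by
    unfold alt
    refine Finset.sum_congr rfl fun ε _ => ?_
    have e : x + 2 ^ (5 * l) + s ε = x + s ε + 2 ^ (5 * l) := by ring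
    show (-1 : ℝ) ^ wt ε * (ds 2 k (5 * l) (x + 2 ^ (5 * l) + s ε) : ℝ) =
      (-1 : ℝ) ^ wt ε * (ds 2 k (5 * l) (x + s ε) : ℝ)
    rw [e, ds_add_period]
  unfold Phi
  rw [h]

theorem Phi_step (θ : ℝ) (k l : ℕ) (s : (Fin 4 → Fin 2) → ℕ) (x : ℕ) :
    ‖Phi θ k l s (x + 1) - Phi θ k l s x‖ ≤
      ∑ ε : Fin 4 → Fin 2, if 2 ^ k ∣ x + (1 + s ε) then (2 : ℝ) else 0 := by
  by_cases h : ∃ ε, 2 ^ k ∣ x + (1 + s ε)
  · obtain ⟨ε, hε⟩ := h
    have h1 : ‖Phi θ k l s (x + 1) - Phi θ k l s x‖ ≤ 2 := by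
      refine (norm_sub_le _ _).trans ?_
      rw [Phi_norm, Phi_norm]
      norm_num
    refine h1.trans ?_
    have h2 : (2 : ℝ) = if 2 ^ k ∣ x + (1 + s ε) then (2 : ℝ) else 0 := by rw [if_pos hε]
    calc (2 : ℝ) = if 2 ^ k ∣ x + (1 + s ε) then (2 : ℝ) else 0 := h2
      _ ≤ _ := Finset.single_le_sum
        (f := fun ε : Fin 4 → Fin 2 => if 2 ^ k ∣ x + (1 + s ε) then (2 : ℝ) else 0)
        (fun ε _ => by split_ifs <;> norm_num) (Finset.mem_univ ε)
  · push Not at h
    have h1 : alt k l (fun ε => x + 1 + s ε) = alt k l (fun ε => x + s ε) := by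
      unfold alt
      refine Finset.sum_congr rfl fun ε _ => ?_
      have e : x + 1 + s ε = x + s ε + 1 := by ring
      have h2 : ¬ 2 ^ k ∣ x + s ε + 1 := by
        have := h ε
        rwa [show x + (1 + s ε) = x + s ε + 1 by ring] at this
      have h3 : ds 2 k (5 * l) (x + 1 + s ε) = ds 2 k (5 * l) (x + s ε) := by
        rw [e]
        exact ds_congr_div (Nat.succ_div_of_not_dvd h2)
      show (-1 : ℝ) ^ wt ε * (ds 2 k (5 * l) (x + 1 + s ε) : ℝ) =
        (-1 : ℝ) ^ wt ε * (ds 2 k (5 * l) (x + s ε) : ℝ)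
      rw [h3]
    have h2 : Phi θ k l s (x + 1) = Phi θ k l s x := by
      unfold Phi
      rw [h1]
    rw [h2, sub_self, norm_zero]
    exact Finset.sum_nonneg fun ε _ => by split_ifs <;> norm_num

theorem Phi_tv (θ : ℝ) (k l : ℕ) (s : (Fin 4 → Fin 2) → ℕ) (hk : k ≤ 5 * l) :
    ∑ x ∈ range (2 ^ (5 * l)), ‖Phi θ k l s (x + 1) - Phi θ k l s x‖ ≤
      32 * 2 ^ (5 * l - k) := by
  calc ∑ x ∈ range (2 ^ (5 * l)), ‖Phi θ k l s (x + 1) - Phi θ k l s x‖
      ≤ ∑ x ∈ range (2 ^ (5 * l)), ∑ ε : Fin 4 → Fin 2,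
          (if 2 ^ k ∣ x + (1 + s ε) then (2 : ℝ) else 0) :=
        Finset.sum_le_sum fun x _ => Phi_step θ k l s x
    _ = ∑ ε : Fin 4 → Fin 2, ∑ x ∈ range (2 ^ (5 * l)),
          (if 2 ^ k ∣ x + (1 + s ε) then (2 : ℝ) else 0) := Finset.sum_comm
    _ ≤ ∑ _ε : Fin 4 → Fin 2, 2 * 2 ^ (5 * l - k) := by
        refine Finset.sum_le_sum fun ε _ => ?_
        rw [← Finset.sum_filter, Finset.sum_const, nsmul_eq_mul]
        have h := card_mult_le (2 ^ k) (2 ^ (5 * l - k)) (1 + s ε) Nat.one_le_two_pow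
        rw [← pow_add, Nat.add_sub_cancel' hk] at h
        have h' : (((range (2 ^ (5 * l))).filter (fun x => 2 ^ k ∣ x + (1 + s ε))).card : ℝ)
            ≤ 2 ^ (5 * l - k) := by exact_mod_cast h
        linarith
    _ = 32 * 2 ^ (5 * l - k) := by
        rw [Finset.sum_const, nsmul_eq_mul]
        have : (Finset.univ : Finset (Fin 4 → Fin 2)).card = 16 := by
          rw [Finset.card_univ]
          simp
        rw [this]
        push_cast
        ring

/-- the points of the cube and the shifts -/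
theorem pt_eq (h1 h2 h3 n r m0 z : ℕ) (ε : Fin 4 → Fin 2) :
    pt h1 h2 h3 n r (m0 + z) ε = ((m0 + z) * n + sh h1 h2 h3 n r m0 ε) + ε 0 * (z * r) := by
  unfold pt sh
  ring

theorem alt_pt {k l h1 h2 h3 n r m0 z D : ℕ}
    (hD : ∀ ε, D ≤ pt h1 h2 h3 n r (m0 + z) ε % 2 ^ k) (hz : z * r ≤ D) :
    alt k l (pt h1 h2 h3 n r (m0 + z)) =
      alt k l (fun ε => (m0 + z) * n + sh h1 h2 h3 n r m0 ε) := by
  unfold alt
  refine Finset.sum_congr rfl fun ε _ => ?_
  have key : ds 2 k (5 * l) (pt h1 h2 h3 n r (m0 + z) ε) =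
      ds 2 k (5 * l) ((m0 + z) * n + sh h1 h2 h3 n r m0 ε) := by
    apply ds_congr_div
    have h := hD ε
    have he : (ε 0 : ℕ) * (z * r) ≤ D := by
      have : (ε 0 : ℕ) ≤ 1 := Nat.lt_succ_iff.1 (ε 0).isLt
      calc (ε 0 : ℕ) * (z * r) ≤ 1 * (z * r) := Nat.mul_le_mul_right _ this
        _ ≤ D := by rw [one_mul]; exact hz
    have e := pt_eq h1 h2 h3 n r m0 z ε
    have hdm := Nat.div_add_mod (pt h1 h2 h3 n r (m0 + z) ε) (2 ^ k)
    have hml := Nat.mod_lt (pt h1 h2 h3 n r (m0 + z) ε) (show 0 < 2 ^ k by positivity)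
    symm
    set p0 := pt h1 h2 h3 n r (m0 + z) ε
    set y0 := (m0 + z) * n + sh h1 h2 h3 n r m0 ε
    set q0 := p0 / 2 ^ k
    set r0 := p0 % 2 ^ k
    set e0 := (ε 0 : ℕ) * (z * r)
    set T := 2 ^ k
    apply Nat.div_eq_of_lt_le
    · have : q0 * T = T * q0 := Nat.mul_comm _ _
      omega
    · have : (q0 + 1) * T = T * q0 + T := by ring
      omega
  show (-1 : ℝ) ^ wt ε * (ds 2 k (5 * l) (pt h1 h2 h3 n r (m0 + z) ε) : ℝ) =
    (-1 : ℝ) ^ wt ε * (ds 2 k (5 * l) ((m0 + z) * n + sh h1 h2 h3 n r m0 ε) : ℝ)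
  rw [key]

/-- one piece -/
theorem piece (h1' : ClaimEQ) {N A H M P g a : ℕ} (hF : ParF N A H M P g a) (θ : ℝ)
    (n r h1 h2 h3 : ℕ) {B : ℝ} {Ψ : ℕ → ℂ} {E : Finset ℕ}
    (heq : ∀ w : ℕ, 1 ≤ w → w ≤ 2 ^ (5 * ell M g a - kap H P g) * RR g ^ 2 →
      1 / ((Lp H P g a / RR g : ℕ) : ℝ) < nd ((w : ℝ) * n / 2 ^ (5 * ell M g a)))
    (hr : r < RR g ^ a) (hΨ : ∀ m, ‖Ψ m‖ ≤ 1) (m0 len : ℕ) (hlen : len ≤ Lp H P g a)
    (hΨE : ∀ m ∈ Ico m0 (m0 + len), m ∉ E →
      Ψ m = ee (-(θ * alt (kap H P g) (ell M g a) (pt h1 h2 h3 n r m))))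
    (hE : ∀ m ∈ Ico m0 (m0 + len), m ∉ E → ∀ ε,
      Lp H P g a * RR g ^ a ≤ pt h1 h2 h3 n r m ε % 2 ^ kap H P g)
    (hB : ‖∑ x ∈ range (2 ^ (5 * ell M g a)),
      ee (-(θ * alt (kap H P g) (ell M g a) (fun ε => x + sh h1 h2 h3 n r m0 ε)))‖ ≤
        2 ^ (5 * ell M g a) * B) :
    ‖∑ m ∈ Ico m0 (m0 + len), Ψ m‖ ≤
      len * B + 3 * (Lp H P g a : ℝ) / RR g + 2 * ((E ∩ Ico m0 (m0 + len)).card : ℝ) := by
  have hR : (2 : ℝ) ^ 20 ≤ (RR g : ℝ) := by exact_mod_cast hF.fR
  have hR0 : (0 : ℝ) < (RR g : ℝ) := lt_of_lt_of_le (by positivity) hR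
  have hRn : 0 < RR g := lt_of_lt_of_le (by positivity) hF.fR
  set k := kap H P g with hk
  set l := ell M g a with hl
  set Φ := Phi θ k l (sh h1 h2 h3 n r m0) with hΦ
  -- equidistribution
  have hW : 1 ≤ 2 ^ (5 * l - k) * RR g ^ 2 :=
    Nat.one_le_iff_ne_zero.2 (by positivity)
  have h2 := h1' (2 ^ (5 * l)) n (2 ^ (5 * l - k) * RR g ^ 2) (Lp H P g a / RR g) Φ
    (32 * 2 ^ (5 * l - k)) Nat.one_le_two_pow hW hF.fLp3 (Phi_period θ k l _)
    (fun x => (Phi_norm θ k l _ x).le) (Phi_tv θ k l _ hF.fkl.le)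
    (fun w hw1 hw2 => by
      have := heq w hw1 hw2
      push_cast
      exact this) (m0 * n) len
  -- the sum over the piece
  have h3 : ‖∑ m ∈ Ico m0 (m0 + len), Ψ m - ∑ z ∈ range len, Φ (z * n + m0 * n)‖ ≤
      2 * ((E ∩ Ico m0 (m0 + len)).card : ℝ) := by
    rw [Finset.sum_Ico_eq_sum_range, Nat.add_sub_cancel_left, ← Finset.sum_sub_distrib]
    calc ‖∑ z ∈ range len, (Ψ (m0 + z) - Φ (z * n + m0 * n))‖
        ≤ ∑ z ∈ range len, ‖Ψ (m0 + z) - Φ (z * n + m0 * n)‖ := norm_sum_le _ _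
      _ ≤ ∑ z ∈ range len, (if m0 + z ∈ E then (2 : ℝ) else 0) := by
          refine Finset.sum_le_sum fun z hz => ?_
          rw [Finset.mem_range] at hz
          have hm : m0 + z ∈ Ico m0 (m0 + len) := Finset.mem_Ico.2 ⟨by omega, by omega⟩
          split_ifs with hzE
          · refine (norm_sub_le _ _).trans ?_
            have e1 := hΨ (m0 + z)
            have e2 : ‖Φ (z * n + m0 * n)‖ = 1 := Phi_norm _ _ _ _ _
            linarith
          · have e1 := hΨE _ hm hzE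
            have hzr : z * r ≤ Lp H P g a * RR g ^ a :=
              Nat.mul_le_mul (by omega) hr.le
            have e2 := alt_pt (k := k) (l := l) (hE _ hm hzE) hzr
            have e3 : Ψ (m0 + z) = Φ (z * n + m0 * n) := by
              rw [e1, e2, hΦ]
              unfold Phi
              have e4 : (m0 + z) * n = z * n + m0 * n := by ring
              rw [e4]
            rw [e3, sub_self, norm_zero]
      _ = 2 * ((E ∩ Ico m0 (m0 + len)).card : ℝ) := by
          rw [← Finset.sum_filter, Finset.sum_const, nsmul_eq_mul, mul_comm]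
          congr 2
          refine Finset.card_nbij' (fun z => m0 + z) (fun m => m - m0) ?_ ?_ ?_ ?_
          · intro z hz
            simp only [Finset.coe_filter, Set.mem_ofPred_eq, Finset.mem_range] at hz
            simp only [Finset.coe_inter, Finset.coe_Ico, Set.mem_inter_iff, Finset.mem_coe,
              Set.mem_Ico]
            exact ⟨hz.2, by omega, by omega⟩
          · intro m hm
            simp only [Finset.coe_inter, Finset.coe_Ico, Set.mem_inter_iff, Finset.mem_coe,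
              Set.mem_Ico] at hm
            simp only [Finset.coe_filter, Set.mem_ofPred_eq, Finset.mem_range]
            have e : m0 + (m - m0) = m := by omega
            rw [e]
            exact ⟨by omega, hm.1⟩
          · intro z hz
            simp
          · intro m hm
            simp only [Finset.coe_inter, Finset.coe_Ico, Set.mem_inter_iff, Finset.mem_coe,
              Set.mem_Ico] at hm
            show m0 + (m - m0) = m
            omega
  -- the main term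
  have h4 : ‖(((len : ℝ) / ((2 ^ (5 * l) : ℕ) : ℝ) : ℝ) : ℂ) * ∑ x ∈ range (2 ^ (5 * l)), Φ x‖ ≤
      len * B := by
    rw [norm_mul, Complex.norm_real, Real.norm_of_nonneg (by positivity)]
    have hQ : (0 : ℝ) < ((2 ^ (5 * l) : ℕ) : ℝ) := by positivity
    have h5 : ‖∑ x ∈ range (2 ^ (5 * l)), Φ x‖ ≤ ((2 ^ (5 * l) : ℕ) : ℝ) * B := by
      push_cast
      exact hB
    calc (len : ℝ) / ((2 ^ (5 * l) : ℕ) : ℝ) * ‖∑ x ∈ range (2 ^ (5 * l)), Φ x‖
        ≤ (len : ℝ) / ((2 ^ (5 * l) : ℕ) : ℝ) * (((2 ^ (5 * l) : ℕ) : ℝ) * B) :=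
          mul_le_mul_of_nonneg_left h5 (by positivity)
      _ = len * B := by
          rw [← mul_assoc, div_mul_cancel₀ _ hQ.ne']
  -- the error term
  have h5 : 7 * (32 * (2 : ℝ) ^ (5 * l - k)) * len / ((2 ^ (5 * l - k) * RR g ^ 2 : ℕ) : ℝ)
      + 2 * ((Lp H P g a / RR g : ℕ) : ℝ) ≤ 3 * (Lp H P g a : ℝ) / RR g := by
    have e1 : 7 * (32 * (2 : ℝ) ^ (5 * l - k)) * len / ((2 ^ (5 * l - k) * RR g ^ 2 : ℕ) : ℝ)
        = 224 * len / (RR g : ℝ) ^ 2 := by
      push_cast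
      have : (2 : ℝ) ^ (5 * l - k) ≠ 0 := by positivity
      field_simp
      ring
    have e2 : 224 * (len : ℝ) / (RR g : ℝ) ^ 2 ≤ (Lp H P g a : ℝ) / RR g := by
      rw [div_le_div_iff₀ (by positivity) hR0]
      have hl' : (len : ℝ) ≤ Lp H P g a := by exact_mod_cast hlen
      have h224 : (224 : ℝ) ≤ RR g := le_trans (by norm_num) hR
      have hLp0 : (0 : ℝ) ≤ Lp H P g a := by positivity
      have hlen0 : (0 : ℝ) ≤ len := by positivity
      calc 224 * (len : ℝ) * RR g ≤ RR g * Lp H P g a * RR g := by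
            have := mul_le_mul h224 hl' hlen0 (by positivity)
            exact mul_le_mul_of_nonneg_right this hR0.le
        _ = Lp H P g a * (RR g : ℝ) ^ 2 := by ring
    have e3 : ((Lp H P g a / RR g : ℕ) : ℝ) ≤ (Lp H P g a : ℝ) / RR g := Nat.cast_div_le
    rw [e1]
    have e4 : 3 * (Lp H P g a : ℝ) / RR g = (Lp H P g a : ℝ) / RR g + 2 * ((Lp H P g a : ℝ) / RR g)
        := by ring
    rw [e4]
    linarith
  -- conclusion
  set S1 := ∑ m ∈ Ico m0 (m0 + len), Ψ m
  set S2 := ∑ z ∈ range len, Φ (z * n + m0 * n)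
  set S3 := (((len : ℝ) / ((2 ^ (5 * l) : ℕ) : ℝ) : ℝ) : ℂ) * ∑ x ∈ range (2 ^ (5 * l)), Φ x
  have h6 : S1 = (S1 - S2) + (S2 - S3) + S3 := by ring
  have h7 : ‖S1‖ ≤ ‖S1 - S2‖ + ‖S2 - S3‖ + ‖S3‖ := by
    calc ‖S1‖ = ‖(S1 - S2) + (S2 - S3) + S3‖ := by rw [← h6]
      _ ≤ ‖(S1 - S2) + (S2 - S3)‖ + ‖S3‖ := norm_add_le _ _
      _ ≤ _ := by
        have := norm_add_le (S1 - S2) (S2 - S3)
        linarith
  linarith

/-- several pieces -/
theorem pieces (h1' : ClaimEQ) {N A H M P g a : ℕ} (hF : ParF N A H M P g a) (θ : ℝ)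
    (n r h1 h2 h3 u v : ℕ) {B : ℝ} {Ψ : ℕ → ℂ} {E : Finset ℕ}
    (heq : ∀ w : ℕ, 1 ≤ w → w ≤ 2 ^ (5 * ell M g a - kap H P g) * RR g ^ 2 →
      1 / ((Lp H P g a / RR g : ℕ) : ℝ) < nd ((w : ℝ) * n / 2 ^ (5 * ell M g a)))
    (hr : r < RR g ^ a) (hB0 : 0 ≤ B) (hΨ : ∀ m, ‖Ψ m‖ ≤ 1)
    (hΨE : ∀ m ∈ Ico u v, m ∉ E →
      Ψ m = ee (-(θ * alt (kap H P g) (ell M g a) (pt h1 h2 h3 n r m))))
    (hE : ∀ m ∈ Ico u v, m ∉ E → ∀ ε,
      Lp H P g a * RR g ^ a ≤ pt h1 h2 h3 n r m ε % 2 ^ kap H P g)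
    (hB : ∀ m0 ∈ Ico u v, ‖∑ x ∈ range (2 ^ (5 * ell M g a)),
      ee (-(θ * alt (kap H P g) (ell M g a) (fun ε => x + sh h1 h2 h3 n r m0 ε)))‖ ≤
        2 ^ (5 * ell M g a) * B) :
    ∀ (j m0 : ℕ), u ≤ m0 → v ≤ m0 + j * Lp H P g a →
    ‖∑ m ∈ Ico m0 v, Ψ m‖ ≤
      ((v - m0 : ℕ) : ℝ) * B + j * (3 * (Lp H P g a : ℝ) / RR g)
        + 2 * ((E ∩ Ico m0 v).card : ℝ) := by
  intro j
  induction j with
  | zero =>
    intro m0 _ hv
    have : Ico m0 v = ∅ := Finset.Ico_eq_empty (by omega)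
    rw [this]
    simp only [Finset.sum_empty, norm_zero]
    positivity
  | succ j ih =>
    intro m0 hu hv
    rcases Nat.lt_or_ge m0 v with hlt | hge
    · rcases Nat.lt_or_ge (m0 + Lp H P g a) v with hlt2 | hge2
      · -- split
        have hs : Ico m0 v = Ico m0 (m0 + Lp H P g a) ∪ Ico (m0 + Lp H P g a) v :=
          (Finset.Ico_union_Ico_eq_Ico (by omega) hlt2.le).symm
        have hd : Disjoint (Ico m0 (m0 + Lp H P g a)) (Ico (m0 + Lp H P g a) v) :=
          Finset.Ico_disjoint_Ico_consecutive _ _ _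
        have hp := piece h1' hF θ n r h1 h2 h3 heq hr hΨ m0 (Lp H P g a) le_rfl
          (fun m hm => hΨE m (by rw [Finset.mem_Ico] at hm ⊢; omega))
          (fun m hm => hE m (by rw [Finset.mem_Ico] at hm ⊢; omega))
          (hB m0 (by rw [Finset.mem_Ico]; omega)) (E := E)
        have hq := ih (m0 + Lp H P g a) (by omega) (by
          rw [Nat.add_mul, Nat.one_mul] at hv
          omega)
        have hc : ((E ∩ Ico m0 v).card : ℝ) = ((E ∩ Ico m0 (m0 + Lp H P g a)).card : ℝ)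
            + ((E ∩ Ico (m0 + Lp H P g a) v).card : ℝ) := by
          rw [hs, Finset.inter_union_distrib_left, Finset.card_union_of_disjoint]
          · push_cast
            rfl
          · exact hd.mono Finset.inter_subset_right Finset.inter_subset_right
        have hl : ((v - m0 : ℕ) : ℝ) = (Lp H P g a : ℝ) + ((v - (m0 + Lp H P g a) : ℕ) : ℝ) := by
          rw [← Nat.cast_add]
          congr 1
          omega
        rw [hc, hl, hs, Finset.sum_union hd]
        refine (norm_add_le _ _).trans ?_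
        push_cast
        nlinarith
      · have hp := piece h1' hF θ n r h1 h2 h3 heq hr hΨ m0 (v - m0) (by omega)
          (fun m hm => hΨE m (by rw [Finset.mem_Ico] at hm ⊢; omega))
          (fun m hm => hE m (by rw [Finset.mem_Ico] at hm ⊢; omega))
          (hB m0 (by rw [Finset.mem_Ico]; omega)) (E := E)
        rw [show m0 + (v - m0) = v by omega] at hp
        have h0 : (0 : ℝ) ≤ j * (3 * (Lp H P g a : ℝ) / RR g) := by positivity
        push_cast at hp ⊢
        nlinarith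
    · have : Ico m0 v = ∅ := Finset.Ico_eq_empty (by omega)
      rw [this]
      simp only [Finset.sum_empty, norm_zero]
      positivity

end Pieces

open Pieces in
theorem claimPieces (h0 : ClaimParF) (h1' : ClaimEQ) : ClaimPieces := by
  intro N A H M P g a θ n r h1 h2 h3 u v B Ψ E hPar heq hr huv hv hB0 hΨ hΨE hE hB
  have hF := h0 N A H M P g a hPar
  have hR : (2 : ℝ) ^ 20 ≤ (RR g : ℝ) := by exact_mod_cast hF.fR
  have hR0 : (0 : ℝ) < (RR g : ℝ) := lt_of_lt_of_le (by positivity) hR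
  have hRn : 0 < RR g := lt_of_lt_of_le (by positivity) hF.fR
  -- the length of the pieces
  have hLp1 : 1 ≤ Lp H P g a := by
    have := hF.fLp3
    rcases Nat.eq_zero_or_pos (Lp H P g a) with h | h
    · rw [h, Nat.zero_div] at this
      omega
    · exact h
  have hLp2 : 3 * Lp H P g a ≤ Lm H P := by
    have e1 : Lp H P g a ≤ 2 ^ kap H P g := by
      rw [← hF.fLp]
      exact Nat.le_mul_of_pos_right _ (by positivity)
    have e2 : 3 * 2 ^ kap H P g ≤ RR g ^ 6 * 2 ^ kap H P g := by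
      refine Nat.mul_le_mul_right _ ?_
      calc 3 ≤ RR g := le_trans (by norm_num) hF.fR
        _ ≤ RR g ^ 6 := Nat.le_self_pow (by norm_num) _
    have e3 := hF.fkap1
    omega
  have hcov : v ≤ u + (Lm H P / Lp H P g a + 1) * Lp H P g a := by
    have := Nat.div_add_mod (Lm H P) (Lp H P g a)
    have h2 := Nat.mod_lt (Lm H P) (show 0 < Lp H P g a by omega)
    rw [Nat.add_mul, Nat.one_mul, Nat.mul_comm (Lm H P / Lp H P g a)]
    omega
  have h := pieces h1' hF θ n r h1 h2 h3 u v heq hr hB0 hΨ hΨE hE hB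
    (Lm H P / Lp H P g a + 1) u le_rfl hcov
  have e1 : ((v - u : ℕ) : ℝ) * B ≤ Lm H P * B := by
    refine mul_le_mul_of_nonneg_right ?_ hB0
    exact_mod_cast (by omega : v - u ≤ Lm H P)
  have e2 : ((Lm H P / Lp H P g a + 1 : ℕ) : ℝ) * (3 * (Lp H P g a : ℝ) / RR g) ≤
      4 * Lm H P / RR g := by
    have f1 : ((Lm H P / Lp H P g a + 1 : ℕ) : ℝ) * Lp H P g a ≤ Lm H P + Lp H P g a := by
      have : (Lm H P / Lp H P g a + 1) * Lp H P g a ≤ Lm H P + Lp H P g a := by
        have := Nat.div_mul_le_self (Lm H P) (Lp H P g a)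
        rw [Nat.add_mul, Nat.one_mul]
        omega
      exact_mod_cast this
    have f2 : (3 : ℝ) * Lp H P g a ≤ Lm H P := by exact_mod_cast hLp2
    have f3 : ((Lm H P / Lp H P g a + 1 : ℕ) : ℝ) * (3 * (Lp H P g a : ℝ) / RR g)
        = 3 * (((Lm H P / Lp H P g a + 1 : ℕ) : ℝ) * Lp H P g a) / RR g := by ring
    rw [f3]
    refine div_le_div_of_nonneg_right ?_ hR0.le
    linarith
  have e3 : ((E ∩ Ico u v).card : ℝ) ≤ E.card := by
    exact_mod_cast Finset.card_le_card Finset.inter_subset_left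
  linarith

end Pool.Agent.Work.MP_8e4d29_nt

end

section

/-!
MP_8e4d29_nt, item R1: existence of a good short interval.
-/

namespace Pool.Agent.Work.MP_8e4d29_nt

open Finset

namespace GoodY

/-- the von Mangoldt mass of a short interval -/
noncomputable def mass (x H : ℕ) : ℝ := ∑ n ∈ Ico x (x + H), ArithmeticFunction.vonMangoldt n

lemma mass_nonneg (x H : ℕ) : 0 ≤ mass x H :=
  Finset.sum_nonneg fun _ _ => ArithmeticFunction.vonMangoldt_nonneg

lemma le_pK (L : ℕ) : L ≤ pK L := by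
  unfold pK
  apply Nat.le_log_of_pow_le (by norm_num)
  exact Nat.pow_le_pow_left (by norm_num) L

lemma mass_le {CB : ℝ} {N0 : ℕ}
    (hBT : ∀ (N x h q r e : ℕ), N0 ≤ N → N ≤ x →
      x + h ≤ 32 * N → (N : ℝ) ^ ((52 : ℝ) / 100) ≤ h → (q = 2 ^ e ∨ q = 3 ^ e) →
      (q : ℝ) ≤ (N : ℝ) ^ ((1 : ℝ) / 100) → Nat.Coprime r q →
      ∑ n ∈ (Ioc x (x + h)).filter (fun n => n % q = r % q), ArithmeticFunction.vonMangoldt n ≤
        CB * h / q) {L x H : ℕ} (hL : N0 ≤ L) (hL1 : 1 ≤ L)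
    (hH : ((3 ^ L : ℕ) : ℝ) ^ ((77 : ℝ) / 100) ≤ H)
    (hx : 3 ^ L ≤ x) (hxH : x + H ≤ 3 ^ (L + 1)) : mass x H ≤ CB * H := by
  have h3 : L < 3 ^ L := Nat.lt_pow_self (by norm_num)
  have h33 : 3 ≤ 3 ^ L := by
    calc 3 = 3 ^ 1 := by norm_num
      _ ≤ 3 ^ L := Nat.pow_le_pow_right (by norm_num) hL1
  have hpow : 3 ^ (L + 1) = 3 * 3 ^ L := by rw [pow_succ]; ring
  have h := hBT (3 ^ L - 1) (x - 1) H 1 1 0 (by omega) (by omega) (by omega) ?_ (Or.inl (by simp))
    ?_ (by simp)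
  · have e1 : (Ioc (x - 1) (x - 1 + H)).filter (fun n => n % 1 = 1 % 1) = Ico x (x + H) := by
      ext n
      rw [mem_filter, mem_Ioc, mem_Ico]
      have : n % 1 = 1 % 1 := by omega
      constructor
      · rintro ⟨⟨h1, h2⟩, _⟩
        omega
      · rintro ⟨h1, h2⟩
        exact ⟨⟨by omega, by omega⟩, this⟩
    rw [e1] at h
    simpa [mass] using h
  · refine le_trans ?_ hH
    calc ((3 ^ L - 1 : ℕ) : ℝ) ^ ((52 : ℝ) / 100) ≤ ((3 ^ L : ℕ) : ℝ) ^ ((52 : ℝ) / 100) := by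
          apply Real.rpow_le_rpow (by positivity) _ (by norm_num)
          exact_mod_cast Nat.sub_le _ _
      _ ≤ ((3 ^ L : ℕ) : ℝ) ^ ((77 : ℝ) / 100) := by
          apply Real.rpow_le_rpow_of_exponent_le _ (by norm_num)
          exact_mod_cast (by omega : 1 ≤ 3 ^ L)
  · have h1 : (1 : ℝ) ≤ ((3 ^ L - 1 : ℕ) : ℝ) := by exact_mod_cast (by omega : 1 ≤ 3 ^ L - 1)
    push_cast
    exact Real.one_le_rpow h1 (by norm_num)

/-- few elements with a large square -/
lemma card_le {S : Finset ℕ} {f : ℕ → ℝ} {A B : ℝ} (hB : 0 < B) (h : ∑ y ∈ S, f y ^ 2 ≤ A) :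
    ((S.filter (fun y => B < f y ^ 2)).card : ℝ) ≤ A / B := by
  rw [le_div_iff₀ hB]
  calc ((S.filter (fun y => B < f y ^ 2)).card : ℝ) * B
      = ∑ _y ∈ S.filter (fun y => B < f y ^ 2), B := by rw [Finset.sum_const, nsmul_eq_mul]
    _ ≤ ∑ y ∈ S.filter (fun y => B < f y ^ 2), f y ^ 2 := by
        apply Finset.sum_le_sum
        intro y hy
        rw [mem_filter] at hy
        exact hy.2.le
    _ ≤ ∑ y ∈ S, f y ^ 2 := by
        apply Finset.sum_le_sum_of_subset_of_nonneg (Finset.filter_subset _ _)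
        intro _ _ _
        positivity
    _ ≤ A := h

/-- the averaging argument -/
lemma exists_good {S B2 : Finset ℕ} {f G : ℕ → ℝ} {c CB C1 H Y K : ℝ} (hc : 0 < c) (hCB : 0 < CB)
    (hH : 0 < H) (hY : 0 < Y) (hK : 0 < K) (hC1 : 0 ≤ C1)
    (hS : (S.card : ℝ) ≤ 2 * Y) (hG : ∀ y ∈ S, G y ≤ CB * H)
    (hsum : c * (Y * H) ≤ ∑ y ∈ S, G y) (hf : ∑ y ∈ S, f y ^ 2 ≤ C1 * K * Y)
    (hB2 : K * (B2.card : ℝ) ≤ Y) (hKc : 4 * CB ≤ c * K) :
    ∃ y ∈ S, y ∉ B2 ∧ f y ^ 2 ≤ (4 * CB * (C1 + 1) / c) * K ∧ c / 8 * H ≤ G y := by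
  by_contra hcon
  push Not at hcon
  set C' : ℝ := 4 * CB * (C1 + 1) / c with hC'
  have hC'pos : 0 < C' := by positivity
  have hcard1 := card_le (S := S) (f := f) (B := C' * K) (by positivity) hf
  set B1 := S.filter (fun y => C' * K < f y ^ 2) with hB1
  have hbound : ∑ y ∈ S, G y ≤ ∑ y ∈ S, ((if y ∈ B1 then CB * H else 0) +
      (if y ∈ B2 then CB * H else 0) + c / 8 * H) := by
    apply Finset.sum_le_sum
    intro y hy
    have hpos : 0 ≤ CB * H := by positivity
    have hpos2 : 0 ≤ c / 8 * H := by positivity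
    by_cases h1 : y ∈ B1
    · rw [if_pos h1]
      have := hG y hy
      split_ifs <;> linarith
    · by_cases h2 : y ∈ B2
      · rw [if_pos h2, if_neg h1]
        have := hG y hy
        linarith
      · rw [if_neg h1, if_neg h2]
        have h3 : f y ^ 2 ≤ C' * K := by
          by_contra h4
          exact h1 (by rw [hB1, mem_filter]; exact ⟨hy, not_le.mp h4⟩)
        have := hcon y hy h2 h3
        linarith
  rw [Finset.sum_add_distrib, Finset.sum_add_distrib, Finset.sum_const, nsmul_eq_mul] at hbound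
  have e1 : ∑ y ∈ S, (if y ∈ B1 then CB * H else 0) ≤ (B1.card : ℝ) * (CB * H) := by
    rw [← Finset.sum_filter, Finset.sum_const, nsmul_eq_mul]
    apply mul_le_mul_of_nonneg_right _ (by positivity)
    have : (S.filter (fun y => y ∈ B1)).card ≤ B1.card :=
      Finset.card_le_card (fun y hy => (mem_filter.mp hy).2)
    exact_mod_cast this
  have e2 : ∑ y ∈ S, (if y ∈ B2 then CB * H else 0) ≤ (B2.card : ℝ) * (CB * H) := by
    rw [← Finset.sum_filter, Finset.sum_const, nsmul_eq_mul]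
    apply mul_le_mul_of_nonneg_right _ (by positivity)
    have : (S.filter (fun y => y ∈ B2)).card ≤ B2.card :=
      Finset.card_le_card (fun y hy => (mem_filter.mp hy).2)
    exact_mod_cast this
  have hb1 : (B1.card : ℝ) * CB ≤ c / 4 * Y := by
    have h1 : (B1.card : ℝ) * (C' * K) ≤ C1 * K * Y := by
      rwa [le_div_iff₀ (by positivity)] at hcard1
    have h2 : (B1.card : ℝ) * C' ≤ C1 * Y := by
      have : K * ((B1.card : ℝ) * C') ≤ K * (C1 * Y) := by linarith
      exact le_of_mul_le_mul_left this hK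
    have h3 : C' * c = 4 * CB * (C1 + 1) := by rw [hC']; field_simp
    have h4 : (B1.card : ℝ) * (4 * CB * (C1 + 1)) ≤ C1 * Y * c := by
      calc (B1.card : ℝ) * (4 * CB * (C1 + 1)) = (B1.card : ℝ) * C' * c := by rw [← h3]; ring
        _ ≤ C1 * Y * c := mul_le_mul_of_nonneg_right h2 hc.le
    have h5 : ((B1.card : ℝ) * CB) * (4 * (C1 + 1)) ≤ (c / 4 * Y) * (4 * (C1 + 1)) := by
      have : 0 ≤ Y * c := by positivity
      nlinarith
    exact le_of_mul_le_mul_right h5 (by positivity)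
  have hb2 : (B2.card : ℝ) * CB ≤ c / 4 * Y := by
    have h1 : (B2.card : ℝ) * (4 * CB) ≤ (B2.card : ℝ) * (c * K) :=
      mul_le_mul_of_nonneg_left hKc (by positivity)
    have h2 : (B2.card : ℝ) * (c * K) ≤ c * Y := by
      calc (B2.card : ℝ) * (c * K) = c * (K * (B2.card : ℝ)) := by ring
        _ ≤ c * Y := mul_le_mul_of_nonneg_left hB2 hc.le
    linarith
  have hb3 : (S.card : ℝ) * (c / 8 * H) ≤ c / 4 * Y * H := by
    calc (S.card : ℝ) * (c / 8 * H) ≤ 2 * Y * (c / 8 * H) :=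
          mul_le_mul_of_nonneg_right hS (by positivity)
      _ = c / 4 * Y * H := by ring
  have h1 : (B1.card : ℝ) * (CB * H) ≤ c / 4 * Y * H := by
    calc (B1.card : ℝ) * (CB * H) = (B1.card : ℝ) * CB * H := by ring
      _ ≤ c / 4 * Y * H := mul_le_mul_of_nonneg_right hb1 hH.le
  have h2 : (B2.card : ℝ) * (CB * H) ≤ c / 4 * Y * H := by
    calc (B2.card : ℝ) * (CB * H) = (B2.card : ℝ) * CB * H := by ring
      _ ≤ c / 4 * Y * H := mul_le_mul_of_nonneg_right hb2 hH.le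
  have hpos : 0 < c * (Y * H) := by positivity
  nlinarith

end GoodY

open GoodY in
theorem claimGoodY (h0 : ClaimSizF) (h1 : ClaimT1) (h2 : ClaimT2) (h3 : ClaimBT) :
    ClaimGoodY := by
  obtain ⟨L1, hSiz⟩ := h0
  obtain ⟨c, L2, hc, hT1⟩ := h1
  obtain ⟨C, L3, hT2⟩ := h2
  obtain ⟨CB, N0, hCB, hBT⟩ := h3
  refine ⟨c / 8, 4 * CB * (|C| + 1) / c,
    max (max L1 L2) (max (max L3 N0) (max 1 ⌈4 * CB / c⌉₊)), by positivity, ?_⟩
  intro L hL hNC
  have hL1 : L1 ≤ L := ((le_max_left _ _).trans (le_max_left _ _)).trans hL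
  have hL2 : L2 ≤ L := ((le_max_right _ _).trans (le_max_left _ _)).trans hL
  have hL3 : L3 ≤ L :=
    (((le_max_left _ _).trans (le_max_left _ _)).trans (le_max_right _ _)).trans hL
  have hLN : N0 ≤ L :=
    (((le_max_right _ _).trans (le_max_left _ _)).trans (le_max_right _ _)).trans hL
  have hLone : 1 ≤ L :=
    (((le_max_left _ _).trans (le_max_right _ _)).trans (le_max_right _ _)).trans hL
  have hLc : ⌈4 * CB / c⌉₊ ≤ L :=
    (((le_max_right _ _).trans (le_max_right _ _)).trans (le_max_right _ _)).trans hL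
  have F := hSiz L hL1
  obtain ⟨z, hzdvd, hzle, hPhi, hcarry⟩ := hT2 L hL3 hNC
  have hmass := hT1 L z hL2 hzle
  have hpow3 : 3 ^ pj0 L ≤ 3 ^ pjj L := by
    have : 0 < 3 ^ pj0 L := by positivity
    omega
  have hj : pj0 L ≤ pjj L := (Nat.pow_le_pow_iff_right (by norm_num)).mp hpow3
  have hLdiv : py0 L ≤ L := by unfold py0; exact Nat.div_le_self _ _
  have hJY : 3 ^ pjj L * 3 ^ py0 L = 3 ^ L := by
    rw [← pow_add]
    congr 1
    unfold pjj
    omega
  set Y : ℕ := 3 ^ py0 L with hYdef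
  set J : ℕ := 3 ^ pjj L with hJdef
  set H : ℕ := 3 ^ pj0 L with hHdef
  have hYpos : 0 < Y := by positivity
  have hHpos : 0 < H := by positivity
  have hx1 : ∀ y ∈ Ico Y (3 * Y), 3 ^ L ≤ J * y + z := by
    intro y hy
    rw [mem_Ico] at hy
    rw [← hJY]
    have := Nat.mul_le_mul_left J hy.1
    omega
  have hx2 : ∀ y ∈ Ico Y (3 * Y), J * y + z + H ≤ 3 ^ (L + 1) := by
    intro y hy
    rw [mem_Ico] at hy
    have h5 : J * (y + 1) ≤ J * (3 * Y) := Nat.mul_le_mul_left J (by omega)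
    have h6 : J * (3 * Y) = 3 ^ (L + 1) := by
      rw [pow_succ, ← hJY]; ring
    rw [Nat.mul_add, mul_one] at h5
    omega
  set B2 := (Ico Y (3 * Y)).filter (fun y =>
    2 ^ pk0 L ≤ (J * y + z) % 2 ^ pk0 L + H) with hB2def
  have hKpos : (0 : ℝ) < pK L := by
    have : L ≤ pK L := le_pK L
    exact_mod_cast (by omega : 0 < pK L)
  obtain ⟨y, hyS, hyB2, hyf, hyG⟩ := exists_good (S := Ico Y (3 * Y)) (B2 := B2)
    (f := fun y => Phi L (J * y + z)) (G := fun y => mass (J * y + z) H)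
    (c := c) (CB := CB) (C1 := |C|) (H := (H : ℝ)) (Y := (Y : ℝ)) (K := (pK L : ℝ)) hc hCB
    (by exact_mod_cast hHpos) (by exact_mod_cast hYpos) hKpos (abs_nonneg C)
    (by
      rw [Nat.card_Ico]
      have : 3 * Y - Y = 2 * Y := by omega
      rw [this]
      push_cast
      exact le_rfl)
    (by
      intro y hy
      apply mass_le hBT hLN hLone _ (hx1 y hy) (hx2 y hy)
      have := F.z4
      unfold pH at this
      exact this)
    (by
      have e : (c : ℝ) * ((Y : ℝ) * H) = c * 3 ^ (py0 L + pj0 L) := by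
        rw [hYdef, hHdef]
        push_cast
        rw [pow_add]
      rw [e]
      exact hmass)
    (by
      refine hPhi.trans ?_
      have e : (C : ℝ) * pK L * 3 ^ py0 L = C * pK L * (Y : ℝ) := by
        rw [hYdef]; push_cast; ring
      rw [e]
      have : C ≤ |C| := le_abs_self C
      gcongr)
    (by exact_mod_cast hcarry)
    (by
      have h5 : 4 * CB / c ≤ L := (Nat.le_ceil _).trans (by exact_mod_cast hLc)
      have h6 : (L : ℝ) ≤ pK L := by exact_mod_cast le_pK L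
      have h7 : 4 * CB / c ≤ pK L := h5.trans h6
      rw [div_le_iff₀ hc] at h7
      linarith)
  refine ⟨J * y + z, ?_, hx1 y hyS, ?_, ?_, hyf, ?_⟩
  · exact (Dvd.dvd.mul_right (pow_dvd_pow 3 hj) y).add hzdvd
  · have := hx2 y hyS
    omega
  · by_contra hcon
    apply hyB2
    rw [hB2def, mem_filter]
    exact ⟨hyS, by omega⟩
  · have e : c / 8 * 3 ^ pj0 L = c / 8 * (H : ℝ) := by rw [hHdef]; push_cast; ring
    rw [e]
    exact hyG

end Pool.Agent.Work.MP_8e4d29_nt

end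

section

/-!
MP_8e4d29_nt, item D14, third part: average over the six-tuples.
-/

namespace Pool.Agent.Work.MP_8e4d29_nt

open Finset
open Pool.Agent.Work.MP_122e00_nt (ee norm_ee)

namespace Core

theorem cell_lt (i g x : ℕ) : cell i g x < RR g := Nat.mod_lt _ (RR_pos g)

/-- domination of a sum over a set by the sum over the values -/
theorem dom_sum {α : Type*} (X : Finset α) (c : α → ℕ) (K0 : ℕ) (hc : ∀ x ∈ X, c x < K0)
    (F : ℕ → ℝ) (hF : ∀ c, 0 ≤ F c) (K : ℝ)
    (hK : ∀ c0, ((X.filter (fun x => c x = c0)).card : ℝ) ≤ K) :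
    ∑ x ∈ X, F (c x) ≤ K * ∑ c0 ∈ range K0, F c0 := by
  rw [← Finset.sum_fiberwise_of_maps_to (g := c) (t := range K0)
    (fun x hx => mem_range.mpr (hc x hx)), Finset.mul_sum]
  refine Finset.sum_le_sum (fun c0 _ => ?_)
  have h1 : ∑ x ∈ X.filter (fun x => c x = c0), F (c x) =
      ∑ x ∈ X.filter (fun x => c x = c0), F c0 := by
    refine Finset.sum_congr rfl (fun x hx => ?_)
    rw [(mem_filter.mp hx).2]
  rw [h1, Finset.sum_const, nsmul_eq_mul]
  exact mul_le_mul_of_nonneg_right (hK c0) (hF c0)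

theorem sum_image_dist (q K : ℕ) (hq : 0 < q) (f : ℕ → ℝ) :
    ∑ t ∈ (range K).image (fun s => q * s), ∑ t' ∈ (range K).image (fun s => q * s),
      f (Nat.dist t t') = ∑ p ∈ range K ×ˢ range K, f (q * Nat.dist p.1 p.2) := by
  have hinj : Set.InjOn (fun s => q * s) (range K : Finset ℕ) := fun x _ y _ hxy =>
    Nat.eq_of_mul_eq_mul_left hq hxy
  rw [Finset.sum_image hinj, Finset.sum_product]
  refine Finset.sum_congr rfl (fun s _ => ?_)
  rw [Finset.sum_image hinj]
  refine Finset.sum_congr rfl (fun s' _ => ?_)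
  rw [Nat.dist_mul_left]

theorem sum_phi {θ : ℝ} {A H M P n r : ℕ} (hP : 1 ≤ P) (hn : P < n) :
    ∑ m ∈ Ioc M (2 * M), phi θ A H M n r m =
      ∑ m ∈ Ico (A / n + 1) (A / n + 1 + Lm H P), phi θ A H M n r m := by
  rw [← Finset.sum_filter_of_ne (p := fun m => Msupp A H M n r m) (s := Ioc M (2 * M))
      (fun m _ h => supp_of_ne h),
    ← Finset.sum_filter_of_ne (p := fun m => Msupp A H M n r m)
      (s := Ico (A / n + 1) (A / n + 1 + Lm H P)) (fun m _ h => supp_of_ne h)]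
  refine Finset.sum_congr ?_ (fun _ _ => rfl)
  ext m
  simp only [mem_filter, mem_Ioc, mem_Ico]
  constructor
  · rintro ⟨_, h⟩
    exact ⟨Msupp_range hP hn h, h⟩
  · rintro ⟨_, h⟩
    exact ⟨⟨h.1, h.2.1⟩, h⟩

theorem norm_sum_phi_le {θ : ℝ} {A H M P n r : ℕ} (hP : 1 ≤ P) (hn : P < n) :
    ‖∑ m ∈ Ioc M (2 * M), phi θ A H M n r m‖ ≤ Lm H P := by
  rw [sum_phi hP hn]
  refine (norm_sum_le _ _).trans ?_
  calc ∑ m ∈ Ico (A / n + 1) (A / n + 1 + Lm H P), ‖phi θ A H M n r m‖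
      ≤ ∑ _m ∈ Ico (A / n + 1) (A / n + 1 + Lm H P), (1 : ℝ) :=
        Finset.sum_le_sum (fun m _ => norm_phi_le _ _ _ _ _ _ _)
    _ = Lm H P := by simp

/-- the sum of the saving terms over all cells -/
noncomputable def SB (θ : ℝ) (N A P g a n r : ℕ) : ℝ :=
  ∑ c1 ∈ range (RR g), ∑ c2 ∈ range (RR g), ∑ c3 ∈ range (RR g), BB θ N A P g a n r c1 c2 c3

theorem SB_nonneg (θ : ℝ) (N A P g a n r : ℕ) : 0 ≤ SB θ N A P g a n r :=
  Finset.sum_nonneg (fun _ _ => Finset.sum_nonneg (fun _ _ => Finset.sum_nonneg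
    (fun _ _ => BB_nonneg _ _ _ _ _ _ _ _ _ _ _)))

theorem good_bound (h1 : ClaimDiff3) (h3 : ClaimEval) (h4 : ClaimPieces) (h5 : ClaimCubeCell)
    (h7 : ClaimDom12) (h8 : ClaimDom3)
    {N A H M P g a : ℕ} {θ : ℝ} {n r : ℕ} (hpar : Par N A H M P g a)
    (hF : ParF N A H M P g a) (hgood : Good N H M P g a n)
    (hn1 : P < n) (hn2 : n ≤ 2 * P) (hr : r < RR g ^ a) :
    ‖∑ m ∈ Ioc M (2 * M), phi θ A H M n r m‖ ^ 8 ≤
      128 * (Lm H P : ℝ) ^ 7 * (Lm H P * (64800 / (RR g : ℝ) ^ 3 * SB θ N A P g a n r) +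
        (4 * Lm H P / RR g + 32 * (exn A H M P g a n + exn A H M P g a (n + r)))) := by
  have hP := hpar.hP
  have hn0 : 0 < n := by omega
  have hRn : 0 < RR g := RR_pos g
  have hR : (0 : ℝ) < RR g := by exact_mod_cast hRn
  obtain ⟨T, hTne, hT1, hT2, hT3⟩ := h8 N A H M P g a n hpar hgood.e3
  have hL2 := L2_le hF
  rw [sum_phi hP hn1]
  have h2p : 0 < 2 ^ kap H P g := by positivity
  have h3p : 0 < 3 ^ kap3 H P g := by positivity
  have hmain := h1 (phi θ A H M n r) (A / n + 1) (Lm H P)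
    ((range (RR g ^ 4)).image (fun s => 2 ^ kap H P g * s))
    ((range (RR g ^ 4)).image (fun s => 3 ^ kap3 H P g * s)) T
    (fun m hm => Msupp_range hP hn1 (supp_of_ne hm)) ?_ ?_ (fun t ht => (hT1 t ht).trans_le hL2)
  rotate_left
  · intro t ht
    obtain ⟨s, hs, rfl⟩ := mem_image.mp ht
    exact (kap_shift hF (mem_range.mp hs)).1
  · intro t ht
    obtain ⟨s, hs, rfl⟩ := mem_image.mp ht
    exact (kap_shift hF (mem_range.mp hs)).2
  set X : ℝ := 4 * Lm H P / RR g + 32 * (exn A H M P g a n + exn A H M P g a (n + r)) with hX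
  -- cardinalities
  have hc1 : (((range (RR g ^ 4)).image (fun s => 2 ^ kap H P g * s)).card : ℝ)
      = (RR g : ℝ) ^ 4 := by
    rw [card_image_of_injective _ (fun x y hxy => Nat.eq_of_mul_eq_mul_left h2p hxy), card_range]
    push_cast
    rfl
  have hc2 : (((range (RR g ^ 4)).image (fun s => 3 ^ kap3 H P g * s)).card : ℝ)
      = (RR g : ℝ) ^ 4 := by
    rw [card_image_of_injective _ (fun x y hxy => Nat.eq_of_mul_eq_mul_left h3p hxy), card_range]
    push_cast
    rfl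
  rw [hc1, hc2] at hmain
  have hTc : (0 : ℝ) < T.card := by exact_mod_cast hTne.card_pos
  -- rewriting of the six-fold sum
  have hsix : ∑ t1 ∈ (range (RR g ^ 4)).image (fun s => 2 ^ kap H P g * s),
      ∑ t1' ∈ (range (RR g ^ 4)).image (fun s => 2 ^ kap H P g * s),
      ∑ t2 ∈ (range (RR g ^ 4)).image (fun s => 3 ^ kap3 H P g * s),
      ∑ t2' ∈ (range (RR g ^ 4)).image (fun s => 3 ^ kap3 H P g * s),
      ∑ t3 ∈ T, ∑ t3' ∈ T,
      ‖∑ m ∈ Ico (A / n + 1) (A / n + 1 + Lm H P),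
        cub3 (phi θ A H M n r) (Nat.dist t1 t1') (Nat.dist t2 t2') (Nat.dist t3 t3') m‖ =
      ∑ p ∈ range (RR g ^ 4) ×ˢ range (RR g ^ 4), ∑ q ∈ range (RR g ^ 4) ×ˢ range (RR g ^ 4),
      ∑ w ∈ T ×ˢ T, ‖∑ m ∈ Ico (A / n + 1) (A / n + 1 + Lm H P),
        cub3 (phi θ A H M n r) (2 ^ kap H P g * Nat.dist p.1 p.2)
          (3 ^ kap3 H P g * Nat.dist q.1 q.2) (Nat.dist w.1 w.2) m‖ := by
    rw [sum_image_dist (2 ^ kap H P g) (RR g ^ 4) h2p (fun d1 =>
      ∑ t2 ∈ (range (RR g ^ 4)).image (fun s => 3 ^ kap3 H P g * s),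
      ∑ t2' ∈ (range (RR g ^ 4)).image (fun s => 3 ^ kap3 H P g * s),
      ∑ t3 ∈ T, ∑ t3' ∈ T,
      ‖∑ m ∈ Ico (A / n + 1) (A / n + 1 + Lm H P),
        cub3 (phi θ A H M n r) d1 (Nat.dist t2 t2') (Nat.dist t3 t3') m‖)]
    refine Finset.sum_congr rfl (fun p _ => ?_)
    rw [sum_image_dist (3 ^ kap3 H P g) (RR g ^ 4) h3p (fun d2 =>
      ∑ t3 ∈ T, ∑ t3' ∈ T,
      ‖∑ m ∈ Ico (A / n + 1) (A / n + 1 + Lm H P),
        cub3 (phi θ A H M n r) (2 ^ kap H P g * Nat.dist p.1 p.2) d2 (Nat.dist t3 t3') m‖)]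
    refine Finset.sum_congr rfl (fun q _ => ?_)
    rw [Finset.sum_product]
  rw [hsix] at hmain
  set Q := range (RR g ^ 4) ×ˢ range (RR g ^ 4) with hQ
  have hdist : ∀ p ∈ Q, Nat.dist p.1 p.2 < RR g ^ 4 := by
    intro p hp
    have h := mem_product.mp hp
    have a1 := mem_range.mp h.1
    have a2 := mem_range.mp h.2
    rcases le_total p.1 p.2 with hle | hle
    · rw [Nat.dist_eq_sub_of_le hle]; omega
    · rw [Nat.dist_eq_sub_of_le_right hle]; omega
  have hdistT : ∀ w ∈ T ×ˢ T, Nat.dist w.1 w.2 ≤ L2 H P g a := by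
    intro p hp
    have h := mem_product.mp hp
    have a1 := hT1 _ h.1
    have a2 := hT1 _ h.2
    rcases le_total p.1 p.2 with hle | hle
    · rw [Nat.dist_eq_sub_of_le hle]; omega
    · rw [Nat.dist_eq_sub_of_le_right hle]; omega
  -- one tuple
  have hone : ∑ p ∈ Q, ∑ q ∈ Q, ∑ w ∈ T ×ˢ T, ‖∑ m ∈ Ico (A / n + 1) (A / n + 1 + Lm H P),
        cub3 (phi θ A H M n r) (2 ^ kap H P g * Nat.dist p.1 p.2)
          (3 ^ kap3 H P g * Nat.dist q.1 q.2) (Nat.dist w.1 w.2) m‖ ≤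
      ∑ p ∈ Q, ∑ q ∈ Q, ∑ w ∈ T ×ˢ T, (Lm H P * BB θ N A P g a n r
        (cell (i0 N P g a) g (2 ^ kap H P g * Nat.dist p.1 p.2 * n))
        (cell (i0 N P g a) g (3 ^ kap3 H P g * Nat.dist q.1 q.2 * n))
        (cell (i0 N P g a) g (Nat.dist w.1 w.2 * n)) + X) := by
    refine Finset.sum_le_sum (fun p hp => Finset.sum_le_sum (fun q hq => Finset.sum_le_sum
      (fun w hw => ?_)))
    have h := tuple_bound h3 h4 h5 (θ := θ) hpar hF hgood.eq hn1 hn2 hr (hdist p hp) (hdist q hq)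
      (hdistT w hw) (hT2 w.1 (mem_product.mp hw).1 w.2 (mem_product.mp hw).2)
    rw [hX]
    linarith
  have hQc : (Q.card : ℝ) = (RR g : ℝ) ^ 8 := by
    rw [hQ, card_product, card_range]
    push_cast
    ring
  have hTTc : ((T ×ˢ T).card : ℝ) = (T.card : ℝ) ^ 2 := by
    rw [card_product]
    push_cast
    ring
  have hsplit : ∑ p ∈ Q, ∑ q ∈ Q, ∑ w ∈ T ×ˢ T, (Lm H P * BB θ N A P g a n r
        (cell (i0 N P g a) g (2 ^ kap H P g * Nat.dist p.1 p.2 * n))
        (cell (i0 N P g a) g (3 ^ kap3 H P g * Nat.dist q.1 q.2 * n))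
        (cell (i0 N P g a) g (Nat.dist w.1 w.2 * n)) + X) =
      Lm H P * (∑ p ∈ Q, ∑ q ∈ Q, ∑ w ∈ T ×ˢ T, BB θ N A P g a n r
        (cell (i0 N P g a) g (2 ^ kap H P g * Nat.dist p.1 p.2 * n))
        (cell (i0 N P g a) g (3 ^ kap3 H P g * Nat.dist q.1 q.2 * n))
        (cell (i0 N P g a) g (Nat.dist w.1 w.2 * n))) +
      (RR g : ℝ) ^ 8 * ((RR g : ℝ) ^ 8 * ((T.card : ℝ) ^ 2 * X)) := by
    simp only [Finset.sum_add_distrib, Finset.sum_const, nsmul_eq_mul, Finset.mul_sum, hQc, hTTc]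
  -- domination
  have hK1 : ∀ c0, ((Q.filter (fun p =>
      cell (i0 N P g a) g (2 ^ kap H P g * Nat.dist p.1 p.2 * n) = c0)).card : ℝ) ≤
      18 * (RR g : ℝ) ^ 7 := fun c0 => h7 N P g a (2 ^ kap H P g) n c0 hgood.e1
  have hK2 : ∀ c0, ((Q.filter (fun p =>
      cell (i0 N P g a) g (3 ^ kap3 H P g * Nat.dist p.1 p.2 * n) = c0)).card : ℝ) ≤
      18 * (RR g : ℝ) ^ 7 := fun c0 => h7 N P g a (3 ^ kap3 H P g) n c0 hgood.e2
  have hBn := BB_nonneg θ N A P g a n r
  have hdom : ∑ p ∈ Q, ∑ q ∈ Q, ∑ w ∈ T ×ˢ T, BB θ N A P g a n r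
        (cell (i0 N P g a) g (2 ^ kap H P g * Nat.dist p.1 p.2 * n))
        (cell (i0 N P g a) g (3 ^ kap3 H P g * Nat.dist q.1 q.2 * n))
        (cell (i0 N P g a) g (Nat.dist w.1 w.2 * n)) ≤
      18 * (RR g : ℝ) ^ 7 * (18 * (RR g : ℝ) ^ 7 * (200 * (T.card : ℝ) ^ 2 / RR g *
        SB θ N A P g a n r)) := by
    have step3 : ∀ c1 c2 : ℕ, ∑ w ∈ T ×ˢ T, BB θ N A P g a n r c1 c2
        (cell (i0 N P g a) g (Nat.dist w.1 w.2 * n)) ≤
        200 * (T.card : ℝ) ^ 2 / RR g * ∑ c3 ∈ range (RR g), BB θ N A P g a n r c1 c2 c3 :=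
      fun c1 c2 => dom_sum (T ×ˢ T) (fun w => cell (i0 N P g a) g (Nat.dist w.1 w.2 * n)) (RR g)
        (fun _ _ => cell_lt _ _ _) (fun c3 => BB θ N A P g a n r c1 c2 c3)
        (fun c3 => hBn c1 c2 c3) _ (fun c0 => hT3 c0)
    have hK3n : (0 : ℝ) ≤ 200 * (T.card : ℝ) ^ 2 / RR g := by positivity
    have step2 : ∀ c1 : ℕ, ∑ q ∈ Q, ∑ w ∈ T ×ˢ T, BB θ N A P g a n r c1
        (cell (i0 N P g a) g (3 ^ kap3 H P g * Nat.dist q.1 q.2 * n))
        (cell (i0 N P g a) g (Nat.dist w.1 w.2 * n)) ≤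
        18 * (RR g : ℝ) ^ 7 * ∑ c2 ∈ range (RR g), (200 * (T.card : ℝ) ^ 2 / RR g *
          ∑ c3 ∈ range (RR g), BB θ N A P g a n r c1 c2 c3) := by
      intro c1
      refine (Finset.sum_le_sum (fun q _ => step3 c1 _)).trans ?_
      exact dom_sum Q (fun q => cell (i0 N P g a) g (3 ^ kap3 H P g * Nat.dist q.1 q.2 * n)) (RR g)
        (fun _ _ => cell_lt _ _ _) (fun c2 => 200 * (T.card : ℝ) ^ 2 / RR g *
          ∑ c3 ∈ range (RR g), BB θ N A P g a n r c1 c2 c3)
        (fun c2 => mul_nonneg hK3n (Finset.sum_nonneg (fun c3 _ => hBn c1 c2 c3))) _ hK2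
    refine (Finset.sum_le_sum (fun p _ => step2 _)).trans ?_
    refine (dom_sum Q (fun p => cell (i0 N P g a) g (2 ^ kap H P g * Nat.dist p.1 p.2 * n)) (RR g)
        (fun _ _ => cell_lt _ _ _) (fun c1 => 18 * (RR g : ℝ) ^ 7 * ∑ c2 ∈ range (RR g),
          (200 * (T.card : ℝ) ^ 2 / RR g * ∑ c3 ∈ range (RR g), BB θ N A P g a n r c1 c2 c3))
        (fun c1 => mul_nonneg (by positivity) (Finset.sum_nonneg (fun c2 _ => mul_nonneg hK3n
          (Finset.sum_nonneg (fun c3 _ => hBn c1 c2 c3))))) _ hK1).trans ?_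
    refine le_of_eq ?_
    unfold SB
    simp only [Finset.mul_sum]
  -- conclusion
  have hLn : (0 : ℝ) ≤ Lm H P := Nat.cast_nonneg _
  have hfin : ‖∑ m ∈ Ico (A / n + 1) (A / n + 1 + Lm H P), phi θ A H M n r m‖ ^ 8 *
      ((RR g : ℝ) ^ 16 * (T.card : ℝ) ^ 2) ≤
      (128 * (Lm H P : ℝ) ^ 7 * (Lm H P * (64800 / (RR g : ℝ) ^ 3 * SB θ N A P g a n r) + X)) *
        ((RR g : ℝ) ^ 16 * (T.card : ℝ) ^ 2) := by
    calc ‖∑ m ∈ Ico (A / n + 1) (A / n + 1 + Lm H P), phi θ A H M n r m‖ ^ 8 *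
        ((RR g : ℝ) ^ 16 * (T.card : ℝ) ^ 2)
        = ‖∑ m ∈ Ico (A / n + 1) (A / n + 1 + Lm H P), phi θ A H M n r m‖ ^ 8 *
          ((RR g : ℝ) ^ 4 * (RR g : ℝ) ^ 4 * (T.card : ℝ)) ^ 2 := by ring
      _ ≤ _ := hmain
      _ ≤ 128 * (Lm H P : ℝ) ^ 7 * (Lm H P * (18 * (RR g : ℝ) ^ 7 * (18 * (RR g : ℝ) ^ 7 *
          (200 * (T.card : ℝ) ^ 2 / RR g * SB θ N A P g a n r))) +
          (RR g : ℝ) ^ 8 * ((RR g : ℝ) ^ 8 * ((T.card : ℝ) ^ 2 * X))) := by
          refine mul_le_mul_of_nonneg_left ?_ (by positivity)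
          refine hone.trans ?_
          rw [hsplit]
          have := mul_le_mul_of_nonneg_left hdom hLn
          linarith
      _ = _ := by
          field_simp
          ring
  exact le_of_mul_le_mul_right hfin (by positivity)

end Core

end Pool.Agent.Work.MP_8e4d29_nt

end
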