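import Pool.Agent.Work.MP_8e4d29_nt.Bd.B02
import Pool.Agent.Work.MP_8e4d29_nt.Bd.B06
import Pool.Agent.Work.MP_8e4d29_nt.Bd.B04
import Pool.Agent.Work.MP_8e4d29_nt.Bd.B01
import Pool.Agent.Work.MP_8e4d29_nt.Bd.B07
import Pool.Agent.Work.MP_8e4d29_nt.Bd.B05
import Pool.Agent.Work.MP_8e4d29_nt.Bd.B03

/-! Bundle of small proof modules (one section per former module). -/

section

/-!
MP_8e4d29_nt, item N7d: the difference of the two kernels is small in mean over the primes, from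
Vaughan's identity and the type I and type II bounds.
-/

namespace Pool.Agent.Work.MP_8e4d29_nt

open Finset

namespace T1diff

/-- logarithms are absorbed -/
lemma absorb (C η : ℝ) (hC : 0 < C) (hη : 0 < η) : ∃ L1 : ℕ, ∀ L : ℕ, L1 ≤ L →
    C * (2 + 2 * (L : ℝ)) ^ 4 ≤ ((3 : ℝ) ^ py0 L) ^ η := by
  have hb : 0 < η * Real.log 3 := mul_pos hη (Real.log_pos (by norm_num))
  have h1 := isLittleO_pow_exp_pos_mul_atTop 4 hb
  have hc : (0 : ℝ) < 1 / (C * 200 ^ 4 * 16) := by positivity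
  have h2 := h1.bound hc
  rw [Filter.eventually_atTop] at h2
  obtain ⟨x0, hx0⟩ := h2
  refine ⟨100 * (⌈x0⌉₊ + 1), fun L hL => ?_⟩
  set q : ℕ := L / 100 with hq
  have hq1 : ⌈x0⌉₊ + 1 ≤ q := by
    rw [hq]
    omega
  have hqr : ((⌈x0⌉₊ : ℝ) + 1) ≤ q := by exact_mod_cast hq1
  have hq0 : x0 ≤ q := (Nat.le_ceil x0).trans (by linarith)
  have hq2 : (1 : ℝ) ≤ q := by
    have : 1 ≤ q := by omega
    exact_mod_cast this
  have h3 := hx0 q hq0
  rw [Real.norm_of_nonneg (by positivity), Real.norm_of_nonneg (Real.exp_nonneg _)] at h3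
  have hL2 : (L : ℝ) ≤ 100 * q + 99 := by
    have : L ≤ 100 * q + 99 := by omega
    exact_mod_cast this
  have e1 : ((3 : ℝ) ^ py0 L) ^ η = Real.exp (η * Real.log 3 * q) := by
    have : py0 L = q := rfl
    rw [this, ← Real.rpow_natCast, ← Real.rpow_mul (by norm_num), Real.rpow_def_of_pos (by norm_num)]
    congr 1
    ring
  rw [e1]
  have e2 : (2 + 2 * (L : ℝ)) ^ 4 ≤ 200 ^ 4 * 16 * (q : ℝ) ^ 4 := by
    have e3 : 2 + 2 * (L : ℝ) ≤ 200 * (2 * q) := by linarith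
    calc (2 + 2 * (L : ℝ)) ^ 4 ≤ (200 * (2 * q)) ^ 4 := pow_le_pow_left₀ (by positivity) e3 4
      _ = 200 ^ 4 * 16 * (q : ℝ) ^ 4 := by ring
  calc C * (2 + 2 * (L : ℝ)) ^ 4 ≤ C * (200 ^ 4 * 16 * (q : ℝ) ^ 4) :=
        mul_le_mul_of_nonneg_left e2 hC.le
    _ = (C * 200 ^ 4 * 16) * (q : ℝ) ^ 4 := by ring
    _ ≤ (C * 200 ^ 4 * 16) * (1 / (C * 200 ^ 4 * 16) * Real.exp (η * Real.log 3 * q)) :=
        mul_le_mul_of_nonneg_left h3 (by positivity)
    _ = Real.exp (η * Real.log 3 * q) := by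
        field_simp

/-- the bound for `U` -/
lemma Ubound (CT : ℝ) (hCT : 1 ≤ CT) : ∃ L1 : ℕ, ∀ L : ℕ, L1 ≤ L → SizF L →
    ⌈CT * 3 ^ L / pH L⌉₊ ≤ 3 ^ (L / 4) := by
  obtain ⟨k, hk⟩ := pow_unbounded_of_one_lt (3 * (CT + 1)) (by norm_num : (1 : ℝ) < 3)
  refine ⟨50 * k, fun L hL hS => ?_⟩
  have h3pos : (0 : ℝ) < (3 : ℝ) ^ L := by positivity
  have h31 : (1 : ℝ) ≤ (3 : ℝ) ^ L := one_le_pow₀ (by norm_num)
  have hz4 := hS.z4
  push_cast at hz4
  have hHpos : (0 : ℝ) < pH L := lt_of_lt_of_le (Real.rpow_pos_of_pos h3pos _) hz4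
  have hx : CT * 3 ^ L / pH L ≤ CT * ((3 : ℝ) ^ L) ^ ((23 : ℝ) / 100) := by
    rw [div_le_iff₀ hHpos]
    calc CT * (3 : ℝ) ^ L = CT * (((3 : ℝ) ^ L) ^ ((23 : ℝ) / 100) *
          ((3 : ℝ) ^ L) ^ ((77 : ℝ) / 100)) := by
          rw [← Real.rpow_add h3pos]
          norm_num
      _ ≤ CT * (((3 : ℝ) ^ L) ^ ((23 : ℝ) / 100) * pH L) := by gcongr
      _ = CT * ((3 : ℝ) ^ L) ^ ((23 : ℝ) / 100) * pH L := by ring
  have hxpos : 0 ≤ CT * 3 ^ L / pH L := by positivity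
  have h23 : (1 : ℝ) ≤ ((3 : ℝ) ^ L) ^ ((23 : ℝ) / 100) := Real.one_le_rpow h31 (by norm_num)
  have hU : (⌈CT * 3 ^ L / pH L⌉₊ : ℝ) ≤ (CT + 1) * ((3 : ℝ) ^ L) ^ ((23 : ℝ) / 100) := by
    have := (Nat.ceil_lt_add_one hxpos).le
    linarith
  have h2 : 3 * (CT + 1) ≤ ((3 : ℝ) ^ L) ^ ((2 : ℝ) / 100) := by
    calc 3 * (CT + 1) ≤ (3 : ℝ) ^ k := hk.le
      _ = (3 : ℝ) ^ (k : ℝ) := (Real.rpow_natCast _ _).symm
      _ ≤ (3 : ℝ) ^ ((L : ℝ) * (2 / 100)) := by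
          apply Real.rpow_le_rpow_of_exponent_le (by norm_num)
          have : (50 * k : ℝ) ≤ L := by exact_mod_cast hL
          linarith
      _ = ((3 : ℝ) ^ L) ^ ((2 : ℝ) / 100) := by
          rw [Real.rpow_mul (by norm_num), Real.rpow_natCast]
  have h4 : ((3 : ℝ) ^ L) ^ ((25 : ℝ) / 100) ≤ 3 * (3 : ℝ) ^ (L / 4) := by
    calc ((3 : ℝ) ^ L) ^ ((25 : ℝ) / 100) = (3 : ℝ) ^ ((L : ℝ) * (25 / 100)) := by
          rw [Real.rpow_mul (by norm_num), Real.rpow_natCast]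
      _ ≤ (3 : ℝ) ^ (((L / 4 + 1 : ℕ)) : ℝ) := by
          apply Real.rpow_le_rpow_of_exponent_le (by norm_num)
          have : L ≤ 4 * (L / 4 + 1) := by omega
          have h' : (L : ℝ) ≤ 4 * ((L / 4 + 1 : ℕ) : ℝ) := by exact_mod_cast this
          linarith
      _ = 3 * (3 : ℝ) ^ (L / 4) := by
          rw [Real.rpow_natCast, pow_succ]
          ring
  have h5 : (⌈CT * 3 ^ L / pH L⌉₊ : ℝ) ≤ ((3 ^ (L / 4) : ℕ) : ℝ) := by
    push_cast
    have h6 : 3 * ((CT + 1) * ((3 : ℝ) ^ L) ^ ((23 : ℝ) / 100)) ≤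
        ((3 : ℝ) ^ L) ^ ((25 : ℝ) / 100) := by
      calc 3 * ((CT + 1) * ((3 : ℝ) ^ L) ^ ((23 : ℝ) / 100)) =
            (3 * (CT + 1)) * ((3 : ℝ) ^ L) ^ ((23 : ℝ) / 100) := by ring
        _ ≤ ((3 : ℝ) ^ L) ^ ((2 : ℝ) / 100) * ((3 : ℝ) ^ L) ^ ((23 : ℝ) / 100) := by gcongr
        _ = ((3 : ℝ) ^ L) ^ ((25 : ℝ) / 100) := by
            rw [← Real.rpow_add h3pos]
            norm_num
    linarith
  exact_mod_cast h5

end T1diff

open T1diff Minor in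
theorem claimT1diff (h0 : ClaimSizF) (h1 : ClaimVaughan) (h2 : ClaimT1I) (h3 : ClaimT1II) :
    ClaimT1diff := by
  obtain ⟨LS, hS⟩ := h0
  obtain ⟨C, hC, hV⟩ := h1
  obtain ⟨η1, hη1, hI⟩ := h2
  obtain ⟨η2, hη2, hII⟩ := h3
  set η : ℝ := min η1 η2 / 2 with hη
  have hη0 : 0 < η := by
    rw [hη]
    have := lt_min hη1 hη2
    linarith
  have hηle1 : 2 * η ≤ η1 := by
    have := min_le_left η1 η2
    rw [hη]; linarith
  have hηle2 : 2 * η ≤ η2 := by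
    have := min_le_right η1 η2
    rw [hη]; linarith
  refine ⟨η, hη0, fun CT hCT => ?_⟩
  obtain ⟨L1, hI⟩ := hI CT hCT
  obtain ⟨L2, hII⟩ := hII CT hCT
  obtain ⟨L3, hU⟩ := Ubound CT hCT
  obtain ⟨L4, hA⟩ := absorb C η hC hη0
  refine ⟨LS + L1 + L2 + L3 + L4 + 10, fun L c hL hc => ?_⟩
  have hSL := hS L (by omega)
  have hUb := hU L (by omega) hSL
  have hAb := hA L (by omega)
  set x : ℝ := CT * 3 ^ L / pH L with hx
  set U : ℕ := ⌈x⌉₊ with hUdef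
  have h3pos : (0 : ℝ) < (3 : ℝ) ^ L := by positivity
  have hHpos : (0 : ℝ) < pH L := by
    unfold pH
    positivity
  have hxpos : 0 < x := by
    rw [hx]
    positivity
  have hU1 : 1 ≤ U := Nat.ceil_pos.mpr hxpos
  have h3L : 3 ^ (3 * (L / 4)) * 3 ≤ 3 ^ L := by
    rw [← pow_succ]
    exact Nat.pow_le_pow_right (by norm_num) (by omega)
  have hU3 : U ^ 3 ≤ 3 ^ L / 2 := by
    have e1 : U ^ 3 ≤ 3 ^ (3 * (L / 4)) := by
      calc U ^ 3 ≤ (3 ^ (L / 4)) ^ 3 := Nat.pow_le_pow_left hUb 3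
        _ = 3 ^ (3 * (L / 4)) := by rw [← pow_mul]; ring_nf
    omega
  have h3N : 27 ≤ 3 ^ L := by
    calc 27 = 3 ^ 3 := by norm_num
      _ ≤ 3 ^ L := Nat.pow_le_pow_right (by norm_num) (by omega)
  have hY1 : (1 : ℝ) ≤ (3 : ℝ) ^ py0 L := one_le_pow₀ (by norm_num)
  have hYpos : (0 : ℝ) < (3 : ℝ) ^ py0 L := by positivity
  have key := hV (3 ^ L / 2) (3 ^ L / 2) (5 * 3 ^ L) U (fun n => (FY L c x n : ℂ))
    (fun m => (3 : ℝ) ^ L / m * ((3 : ℝ) ^ py0 L) ^ (1 - η1))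
    ((3 : ℝ) ^ L * ((3 : ℝ) ^ py0 L) ^ (1 - η2)) hU1 hU3 (by omega) le_rfl (by omega) (by omega)
    (fun m => by positivity) (by positivity)
    (by
      intro m A' B' hm hmU hAA' hAB' hB'
      have e1 := hI L c m A' B' (by omega) hc hm (hmU.trans hUb) hAA' hAB' hB'
      have e2 : ‖∑ n ∈ Ioc (A' / m) (B' / m), (fun n => (FY L c x n : ℂ)) (m * n)‖ =
          |∑ n ∈ Ioc (A' / m) (B' / m), FY L c x (m * n)| := by
        rw [← Real.norm_eq_abs, ← Complex.norm_real, Complex.ofReal_sum]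
      rw [e2]
      exact e1)
    (by
      intro M P hUP hPM hMP hNMP a b ha hb
      refine hII L c M P (by omega) hc ?_ hPM (by omega) hNMP a b ha hb
      have e1 : (U : ℝ) ≤ 2 * P := by exact_mod_cast hUP
      exact (Nat.le_ceil x).trans e1)
  have e0 : ‖∑ n ∈ Ioc (3 ^ L / 2) (5 * 3 ^ L), (ArithmeticFunction.vonMangoldt n : ℂ) *
      (fun n => (FY L c x n : ℂ)) n‖ = |∑ n ∈ Ioc (3 ^ L / 2) (5 * 3 ^ L),
      ArithmeticFunction.vonMangoldt n * FY L c x n| := by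
    rw [← Real.norm_eq_abs, ← Complex.norm_real, Complex.ofReal_sum]
    simp
  rw [e0] at key
  refine key.trans ?_
  have hl3 : Real.log 3 ≤ 2 := by
    have h5 := Real.log_two_lt_d9
    have h6 : Real.log 3 ≤ Real.log 4 := Real.log_le_log (by norm_num) (by norm_num)
    have h7 : Real.log 4 = 2 * Real.log 2 := by
      rw [show (4 : ℝ) = 2 ^ 2 by norm_num, Real.log_pow]
      norm_num
    linarith
  have hUL : Real.log U ≤ 2 * L := by
    have e1 : (U : ℝ) ≤ (3 : ℝ) ^ L := by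
      have e2 : U ≤ 3 ^ L := hUb.trans (Nat.pow_le_pow_right (by norm_num) (by omega))
      exact_mod_cast e2
    have e2 : Real.log U ≤ Real.log ((3 : ℝ) ^ L) :=
      Real.log_le_log (by exact_mod_cast hU1) e1
    rw [Real.log_pow] at e2
    have : (0 : ℝ) ≤ L := by positivity
    nlinarith
  have hY2 : ((3 : ℝ) ^ py0 L) ^ (1 - η1) ≤ ((3 : ℝ) ^ py0 L) ^ (1 - 2 * η) :=
    Real.rpow_le_rpow_of_exponent_le hY1 (by linarith)
  have hY3 : ((3 : ℝ) ^ py0 L) ^ (1 - η2) ≤ ((3 : ℝ) ^ py0 L) ^ (1 - 2 * η) :=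
    Real.rpow_le_rpow_of_exponent_le hY1 (by linarith)
  set Y0 : ℝ := ((3 : ℝ) ^ py0 L) ^ (1 - 2 * η) with hY0
  have hY0pos : 0 < Y0 := Real.rpow_pos_of_pos hYpos _
  have hsum : ∑ m ∈ Icc 1 U, (3 : ℝ) ^ L / m * ((3 : ℝ) ^ py0 L) ^ (1 - η1) ≤
      3 ^ L * Y0 * (1 + 2 * L) := by
    have e1 : ∑ m ∈ Icc 1 U, (3 : ℝ) ^ L / m * ((3 : ℝ) ^ py0 L) ^ (1 - η1) =
        3 ^ L * ((3 : ℝ) ^ py0 L) ^ (1 - η1) * ∑ m ∈ Icc 1 U, (1 : ℝ) / m := by
      rw [Finset.mul_sum]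
      refine Finset.sum_congr rfl fun m _ => ?_
      ring
    have e3 : ∑ m ∈ Icc 1 U, (1 : ℝ) / m ≤ 1 + 2 * L := (sum_inv_le U).trans (by linarith)
    have e4 : 0 ≤ ∑ m ∈ Icc 1 U, (1 : ℝ) / m := Finset.sum_nonneg fun m _ => by positivity
    rw [e1]
    calc 3 ^ L * ((3 : ℝ) ^ py0 L) ^ (1 - η1) * ∑ m ∈ Icc 1 U, (1 : ℝ) / m
        ≤ 3 ^ L * Y0 * ∑ m ∈ Icc 1 U, (1 : ℝ) / m := by gcongr
      _ ≤ 3 ^ L * Y0 * (1 + 2 * L) := by gcongr
  have hinner : ∑ m ∈ Icc 1 U, (3 : ℝ) ^ L / m * ((3 : ℝ) ^ py0 L) ^ (1 - η1) +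
      3 ^ L * ((3 : ℝ) ^ py0 L) ^ (1 - η2) ≤ 3 ^ L * Y0 * (2 + 2 * L) := by
    have e1 : (3 : ℝ) ^ L * ((3 : ℝ) ^ py0 L) ^ (1 - η2) ≤ 3 ^ L * Y0 := by gcongr
    nlinarith
  have hN2 : (0 : ℝ) < ((3 ^ L / 2 : ℕ) : ℝ) := by
    have : 0 < 3 ^ L / 2 := by omega
    exact_mod_cast this
  have hlog : Real.log (4 * ((3 ^ L / 2 : ℕ) : ℝ)) ≤ 2 + 2 * L := by
    have e1 : 4 * ((3 ^ L / 2 : ℕ) : ℝ) ≤ 2 * (3 : ℝ) ^ L := by
      have : 4 * (3 ^ L / 2) ≤ 2 * 3 ^ L := by omega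
      exact_mod_cast this
    have e2 : Real.log (4 * ((3 ^ L / 2 : ℕ) : ℝ)) ≤ Real.log (2 * (3 : ℝ) ^ L) :=
      Real.log_le_log (by positivity) e1
    have e3 : Real.log (2 * (3 : ℝ) ^ L) = Real.log 2 + L * Real.log 3 := by
      rw [Real.log_mul (by norm_num) (by positivity), Real.log_pow]
    rw [e3] at e2
    have h5 := Real.log_two_lt_d9
    have : (0 : ℝ) ≤ L := by positivity
    nlinarith
  have hlog0 : 0 ≤ Real.log (4 * ((3 ^ L / 2 : ℕ) : ℝ)) := by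
    apply Real.log_nonneg
    have : 1 ≤ 4 * (3 ^ L / 2) := by omega
    exact_mod_cast this
  have hin0 : 0 ≤ ∑ m ∈ Icc 1 U, (3 : ℝ) ^ L / m * ((3 : ℝ) ^ py0 L) ^ (1 - η1) +
      3 ^ L * ((3 : ℝ) ^ py0 L) ^ (1 - η2) := by
    have : 0 ≤ ∑ m ∈ Icc 1 U, (3 : ℝ) ^ L / m * ((3 : ℝ) ^ py0 L) ^ (1 - η1) :=
      Finset.sum_nonneg fun m _ => by positivity
    positivity
  calc C * Real.log (4 * ((3 ^ L / 2 : ℕ) : ℝ)) ^ 3 *
        (∑ m ∈ Icc 1 U, (3 : ℝ) ^ L / m * ((3 : ℝ) ^ py0 L) ^ (1 - η1) +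
          3 ^ L * ((3 : ℝ) ^ py0 L) ^ (1 - η2))
      ≤ C * (2 + 2 * L) ^ 3 * (3 ^ L * Y0 * (2 + 2 * L)) := by
        apply mul_le_mul _ hinner hin0 (by positivity)
        have := pow_le_pow_left₀ hlog0 hlog 3
        gcongr
    _ = (C * (2 + 2 * L) ^ 4) * (3 ^ L * Y0) := by ring
    _ ≤ ((3 : ℝ) ^ py0 L) ^ η * (3 ^ L * Y0) := by
        apply mul_le_mul_of_nonneg_right hAb (by positivity)
    _ = 3 ^ L * ((3 : ℝ) ^ py0 L) ^ (1 - η) := by
        rw [hY0, show (1 - η) = η + (1 - 2 * η) by ring, Real.rpow_add hYpos]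
        ring

end Pool.Agent.Work.MP_8e4d29_nt

end

section

/-!
MP_8e4d29_nt, item P4: the choice of `z`.
-/

namespace Pool.Agent.Work.MP_8e4d29_nt

open Finset

namespace T2

/-! ### digits of `zz` -/

/-- blocks of digits -/
def Zb (jj g : ℕ) (d : ℕ → ℕ) (M : ℕ) : ℕ := ∑ s ∈ range M, d s * 3 ^ (jj - (s + 1) * g)

lemma Zb_facts (jj g : ℕ) (d : ℕ → ℕ) (hd : ∀ s, d s < 3 ^ g) (M : ℕ) (hM : M * g ≤ jj) :
    3 ^ (jj - M * g) ∣ Zb jj g d M ∧ Zb jj g d M + 3 ^ (jj - M * g) ≤ 3 ^ jj ∧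
      ds 3 (jj - M * g) jj (Zb jj g d M) = ∑ s ∈ range M, ds 3 0 g (d s) := by
  induction M with
  | zero => simp [Zb, ds_zero_right]
  | succ M ih =>
    have hM' : M * g ≤ jj := le_trans (Nat.mul_le_mul_right g (Nat.le_succ M)) hM
    obtain ⟨⟨q, hq⟩, h2, h3⟩ := ih hM'
    obtain ⟨a, ha⟩ : ∃ a, jj = a + (M + 1) * g := ⟨jj - (M + 1) * g, by omega⟩
    have e1 : jj - (M + 1) * g = a := by omega
    have e2 : jj - M * g = a + g := by
      rw [Nat.add_mul, Nat.one_mul] at ha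
      omega
    rw [e2] at hq h2 h3
    have hZ : Zb jj g d (M + 1) = Zb jj g d M + d M * 3 ^ a := by
      unfold Zb
      rw [Finset.sum_range_succ, e1]
    have hpa : 0 < 3 ^ a := by positivity
    have hpg : 0 < 3 ^ g := by positivity
    have hdM := hd M
    have hdM' : (d M + 1) * 3 ^ a ≤ 3 ^ g * 3 ^ a := Nat.mul_le_mul_right _ hdM
    rw [e1]
    refine ⟨?_, ?_, ?_⟩
    · rw [hZ, hq]
      refine Dvd.dvd.add ?_ (Dvd.intro_left _ rfl)
      rw [pow_add]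
      exact ⟨3 ^ g * q, by ring⟩
    · rw [hZ]
      have : 3 ^ (a + g) = 3 ^ g * 3 ^ a := by rw [pow_add, mul_comm]
      rw [this] at h2
      have : (d M + 1) * 3 ^ a = d M * 3 ^ a + 3 ^ a := by ring
      omega
    · have hle : a + g ≤ jj := by omega
      rw [ds_add 3 (Nat.le_add_right a g) hle, Finset.sum_range_succ, ← h3, add_comm]
      congr 1
      · apply ds_congr_div
        rw [hZ, hq]
        have hlt : d M * 3 ^ a < 3 ^ (a + g) := by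
          rw [pow_add, mul_comm]
          exact Nat.mul_lt_mul_of_pos_left hdM hpa
        rw [Nat.mul_add_div (by positivity), Nat.div_eq_of_lt hlt, Nat.mul_div_cancel_left _ (by positivity)]
        rfl
      · rw [ds_shift, Nat.add_sub_cancel_left, hZ, hq]
        have e : (3 ^ (a + g) * q + d M * 3 ^ a) / 3 ^ a = d M + q * 3 ^ g := by
          have : 3 ^ (a + g) * q + d M * 3 ^ a = 3 ^ a * (d M + q * 3 ^ g) := by
            rw [pow_add]; ring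
          rw [this, Nat.mul_div_cancel_left _ hpa]
        rw [e, ds_add_mul]

/-- value of the digit block in slot `s` -/
def dblk (σ c : Fin 120 → ℕ) (s : ℕ) : ℕ := ∑ i, if σ i = s then c i else 0

lemma dblk_self {σ : Fin 120 → ℕ} (hσ : Function.Injective σ) (c : Fin 120 → ℕ) (i : Fin 120) :
    dblk σ c (σ i) = c i := by
  unfold dblk
  rw [Finset.sum_eq_single i]
  · simp
  · intro j _ hj
    rw [if_neg (fun h => hj (hσ h))]
  · intro h
    exact absurd (Finset.mem_univ i) h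

lemma dblk_other {σ : Fin 120 → ℕ} (c : Fin 120 → ℕ) {s : ℕ} (hs : ∀ i, σ i ≠ s) :
    dblk σ c s = 0 := by
  unfold dblk
  apply Finset.sum_eq_zero
  intro i _
  rw [if_neg (hs i)]

lemma sum_dblk {σ : Fin 120 → ℕ} (hσ : Function.Injective σ) (c : Fin 120 → ℕ) {M : ℕ}
    (hM : ∀ i, σ i < M) (f : ℕ → ℕ → ℕ) (hf : ∀ s, f s 0 = 0) :
    ∑ s ∈ range M, f s (dblk σ c s) = ∑ i, f (σ i) (c i) := by
  have h1 : ∑ i, f (σ i) (c i) = ∑ s ∈ univ.image σ, f s (dblk σ c s) := by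
    rw [Finset.sum_image (fun a _ b _ h => hσ h)]
    exact Finset.sum_congr rfl fun i _ => by rw [dblk_self hσ]
  rw [h1]
  symm
  apply Finset.sum_subset
  · intro s hs
    obtain ⟨i, _, rfl⟩ := mem_image.mp hs
    exact mem_range.mpr (hM i)
  · intro s _ hs
    rw [dblk_other c, hf]
    intro i h
    exact hs (mem_image.mpr ⟨i, mem_univ i, h⟩)

lemma zz_facts {L : ℕ} {σ c : Fin 120 → ℕ} (hg : 1 ≤ pg0 L) (hj : pj0 L ≤ pjj L)
    (hσ : Slots L σ) (hc : c ∈ CC L) :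
    3 ^ pj0 L ∣ zz L σ c ∧ zz L σ c + 3 ^ pj0 L ≤ 3 ^ pjj L ∧
      ds 3 (pj0 L) (pjj L) (zz L σ c) = ∑ i, ds 3 0 (pg0 L) (c i) := by
  obtain ⟨hinj, hsl⟩ := hσ
  have hc' : ∀ i, c i < 3 ^ pg0 L := by
    intro i
    have := Fintype.mem_piFinset.mp hc i
    exact mem_range.mp this
  set g := pg0 L
  set M := (pjj L - pj0 L) / g with hMdef
  have hMg : M * g ≤ pjj L - pj0 L := Nat.div_mul_le_self _ _
  have hσM : ∀ i, σ i < M := by
    intro i
    exact (Nat.le_div_iff_mul_le (by omega)).mpr (hsl i)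
  have hd : ∀ s, dblk σ c s < 3 ^ g := by
    intro s
    by_cases h : ∃ i, σ i = s
    · obtain ⟨i, rfl⟩ := h
      rw [dblk_self hinj]
      exact hc' i
    · push Not at h
      rw [dblk_other c h]
      positivity
  have hz : zz L σ c = Zb (pjj L) g (dblk σ c) M := by
    unfold zz Zb
    exact (sum_dblk hinj c hσM (fun s v => v * 3 ^ (pjj L - (s + 1) * g))
      (fun s => Nat.zero_mul _)).symm
  obtain ⟨h1, h2, h3⟩ := Zb_facts (pjj L) g (dblk σ c) hd M (by omega)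
  rw [← hz] at h1 h2 h3
  have hle : pj0 L ≤ pjj L - M * g := by omega
  have hp : 3 ^ pj0 L ≤ 3 ^ (pjj L - M * g) := Nat.pow_le_pow_right (by norm_num) hle
  refine ⟨(pow_dvd_pow 3 hle).trans h1, by omega, ?_⟩
  rw [ds_add 3 hle (Nat.sub_le _ _), h3,
    sum_dblk hinj c hσM (fun _ v => ds 3 0 g v) (fun _ => by simp [ds])]
  have : ds 3 (pj0 L) (pjj L - M * g) (zz L σ c) = 0 := by
    rw [ds_congr_mod (n' := 0) (by rw [Nat.mod_eq_zero_of_dvd h1, Nat.zero_mod])]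
    simp [ds]
  rw [this, zero_add]

/-! ### second moment in base 3 -/

lemma sum_slot (L : ℕ) (i : Fin 120) :
    ∑ c ∈ CC L, ((ds 3 0 (pg0 L) (c i) : ℝ) - pg0 L) ^ 2 ≤ ((3 : ℝ) ^ pg0 L) ^ 120 * pg0 L := by
  unfold CC
  rw [Fintype.sum_piFinset_apply (fun u : ℕ => ((ds 3 0 (pg0 L) u : ℝ) - pg0 L) ^ 2)]
  have h := Mom2.sum_dev 3 (pg0 L) (Or.inr rfl)
  have e : ∀ u, Mom2.dev 3 (pg0 L) u = ((ds 3 0 (pg0 L) u : ℝ) - pg0 L) ^ 2 := by
    intro u
    unfold Mom2.dev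
    congr 2
    push_cast
    ring
  simp only [e] at h
  rw [card_range, Fintype.card_fin, nsmul_eq_mul]
  push_cast at h ⊢
  have hp : (0 : ℝ) ≤ ((3 : ℝ) ^ pg0 L) ^ (120 - 1) := by positivity
  calc ((3 : ℝ) ^ pg0 L) ^ (120 - 1) * ∑ u ∈ range (3 ^ pg0 L), ((ds 3 0 (pg0 L) u : ℝ) - pg0 L) ^ 2
      ≤ ((3 : ℝ) ^ pg0 L) ^ (120 - 1) * (pg0 L * 3 ^ pg0 L) := mul_le_mul_of_nonneg_left h hp
    _ = ((3 : ℝ) ^ pg0 L) ^ 120 * pg0 L := by
      generalize (3 : ℝ) ^ pg0 L = x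
      norm_num
      ring

lemma card_CC (L : ℕ) : ((CC L).card : ℝ) = ((3 : ℝ) ^ pg0 L) ^ 120 := by
  unfold CC
  rw [Fintype.card_piFinset]
  simp

lemma sum_y (k : ℕ) :
    ∑ y ∈ Ico (3 ^ k) (3 * 3 ^ k), ((ds 3 0 (k + 1) y : ℝ) - k) ^ 2 ≤ (6 * k + 10) * 3 ^ k := by
  have h := Mom2.sum_dev 3 (k + 1) (Or.inr rfl)
  have e : ∀ u, Mom2.dev 3 (k + 1) u = ((ds 3 0 (k + 1) u : ℝ) - (k + 1)) ^ 2 := by
    intro u
    unfold Mom2.dev
    congr 2
    push_cast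
    ring
  simp only [e] at h
  have h1 : ∀ y : ℕ, ((ds 3 0 (k + 1) y : ℝ) - k) ^ 2 ≤
      2 * ((ds 3 0 (k + 1) y : ℝ) - (k + 1)) ^ 2 + 2 := by
    intro y
    nlinarith [sq_nonneg ((ds 3 0 (k + 1) y : ℝ) - (k + 1) - 1)]
  have h2 : ∑ y ∈ Ico (3 ^ k) (3 * 3 ^ k), ((ds 3 0 (k + 1) y : ℝ) - (k + 1)) ^ 2 ≤
      ∑ y ∈ range (3 ^ (k + 1)), ((ds 3 0 (k + 1) y : ℝ) - (k + 1)) ^ 2 := by
    apply Finset.sum_le_sum_of_subset_of_nonneg
    · intro y hy
      rw [mem_Ico] at hy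
      rw [mem_range, pow_succ]
      omega
    · intro _ _ _
      positivity
  calc ∑ y ∈ Ico (3 ^ k) (3 * 3 ^ k), ((ds 3 0 (k + 1) y : ℝ) - k) ^ 2
      ≤ ∑ y ∈ Ico (3 ^ k) (3 * 3 ^ k), (2 * ((ds 3 0 (k + 1) y : ℝ) - (k + 1)) ^ 2 + 2) :=
        Finset.sum_le_sum fun y _ => h1 y
    _ = 2 * ∑ y ∈ Ico (3 ^ k) (3 * 3 ^ k), ((ds 3 0 (k + 1) y : ℝ) - (k + 1)) ^ 2 +
        2 * (2 * 3 ^ k) := by
        rw [Finset.sum_add_distrib, ← Finset.mul_sum, Finset.sum_const, Nat.card_Ico, nsmul_eq_mul]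
        have : 3 * 3 ^ k - 3 ^ k = 2 * 3 ^ k := by omega
        rw [this]
        push_cast
        ring
    _ ≤ 2 * (((k + 1 : ℕ) : ℝ) * ((3 : ℕ) : ℝ) ^ (k + 1)) + 2 * (2 * 3 ^ k) := by
        have := h2.trans h
        linarith
    _ = (6 * k + 10) * 3 ^ k := by
        push_cast
        rw [pow_succ]
        ring

/-- the set of the `y` -/
def YY (L : ℕ) : Finset ℕ := Ico (3 ^ py0 L) (3 * 3 ^ py0 L)

lemma card_YY (L : ℕ) : ((YY L).card : ℝ) = 2 * 3 ^ py0 L := by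
  unfold YY
  rw [Nat.card_Ico]
  have : 3 * 3 ^ py0 L - 3 ^ py0 L = 2 * 3 ^ py0 L := by omega
  rw [this]
  push_cast
  ring

/-- the starting points -/
def xx (L : ℕ) (σ c : Fin 120 → ℕ) (y : ℕ) : ℕ := 3 ^ pjj L * y + zz L σ c

lemma ds3_xx {L : ℕ} {σ c : Fin 120 → ℕ} (hg : 1 ≤ pg0 L) (hj : pj0 L ≤ pjj L)
    (hjy : pjj L + py0 L = L) (hσ : Slots L σ) (hc : c ∈ CC L) {y : ℕ} :
    ds 3 (pj0 L) (L + 1) (xx L σ c y) = ∑ i, ds 3 0 (pg0 L) (c i) + ds 3 0 (py0 L + 1) y := by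
  obtain ⟨_, h2, h3⟩ := zz_facts hg hj hσ hc
  have hlt : zz L σ c < 3 ^ pjj L := by
    have : 0 < 3 ^ pj0 L := by positivity
    omega
  have hA : ds 3 (pj0 L) (pjj L) (xx L σ c y) = ds 3 (pj0 L) (pjj L) (zz L σ c) := by
    apply ds_congr_mod
    unfold xx
    rw [Nat.mul_add_mod]
  have hB : ds 3 (pjj L) (L + 1) (xx L σ c y) = ds 3 0 (py0 L + 1) y := by
    rw [ds_shift]
    unfold xx
    rw [Nat.mul_add_div (by positivity), Nat.div_eq_of_lt hlt,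
      show L + 1 - pjj L = py0 L + 1 by omega]
    simp only [Nat.add_zero]
  rw [ds_add 3 hj (by omega : pjj L ≤ L + 1), ← h3, hA, hB]

lemma base3 {L : ℕ} {σ : Fin 120 → ℕ} (hg : 1 ≤ pg0 L) (hj : pj0 L ≤ pjj L)
    (hjy : pjj L + py0 L = L) (hσ : Slots L σ) :
    ∑ c ∈ CC L, ∑ y ∈ YY L,
      ((ds 3 (pj0 L) (L + 1) (xx L σ c y) : ℝ) - 120 * pg0 L - py0 L) ^ 2 ≤
      121 * (240 * pg0 L + 6 * py0 L + 10) * (((3 : ℝ) ^ pg0 L) ^ 120 * 3 ^ py0 L) := by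
  have h1 : ∀ c ∈ CC L, ∀ y ∈ YY L,
      ((ds 3 (pj0 L) (L + 1) (xx L σ c y) : ℝ) - 120 * pg0 L - py0 L) ^ 2 ≤
      121 * (∑ i, ((ds 3 0 (pg0 L) (c i) : ℝ) - pg0 L) ^ 2 +
        ((ds 3 0 (py0 L + 1) y : ℝ) - py0 L) ^ 2) := by
    intro c hc y _
    rw [ds3_xx hg hj hjy hσ hc]
    have e : ((∑ i, ds 3 0 (pg0 L) (c i) + ds 3 0 (py0 L + 1) y : ℕ) : ℝ) - 120 * pg0 L - py0 L =
        ∑ i : Option (Fin 120), (i.elim ((ds 3 0 (py0 L + 1) y : ℝ) - py0 L)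
          (fun i => (ds 3 0 (pg0 L) (c i) : ℝ) - pg0 L)) := by
      rw [Fintype.sum_option]
      simp only [Option.elim]
      rw [Finset.sum_sub_distrib, Finset.sum_const, card_univ, Fintype.card_fin, nsmul_eq_mul]
      push_cast
      ring
    rw [e]
    refine (sq_sum_le_card_mul_sum_sq).trans ?_
    rw [Fintype.sum_option]
    simp only [Option.elim, card_univ, Fintype.card_option, Fintype.card_fin]
    push_cast
    rw [add_comm (((ds 3 0 (py0 L + 1) y : ℝ) - py0 L) ^ 2)]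
  refine (Finset.sum_le_sum fun c hc => Finset.sum_le_sum fun y hy => h1 c hc y hy).trans ?_
  simp only [← Finset.mul_sum, Finset.sum_add_distrib, Finset.sum_const, nsmul_eq_mul]
  rw [Finset.sum_comm, card_CC, card_YY]
  have h2 : ∑ i : Fin 120, ∑ c ∈ CC L, ((ds 3 0 (pg0 L) (c i) : ℝ) - pg0 L) ^ 2 ≤
      120 * (((3 : ℝ) ^ pg0 L) ^ 120 * pg0 L) := by
    refine (Finset.sum_le_sum fun i _ => sum_slot L i).trans ?_
    rw [Finset.sum_const, card_univ, Fintype.card_fin, nsmul_eq_mul]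
    norm_num
  have h3 := sum_y (py0 L)
  have hY : (0 : ℝ) ≤ 2 * 3 ^ py0 L := by positivity
  have hN : (0 : ℝ) ≤ ((3 : ℝ) ^ pg0 L) ^ 120 := by positivity
  have h4 := mul_le_mul_of_nonneg_left h2 hY
  have h5 := mul_le_mul_of_nonneg_left h3 hN
  unfold YY
  nlinarith

/-! ### second moment in base 2 -/

lemma sum_div_range (P m : ℕ) (hP : 0 < P) (F : ℕ → ℝ) :
    ∑ x ∈ range (P * m), F (x / P) = P * ∑ u ∈ range m, F u := by
  induction m with
  | zero => simp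
  | succ m ih =>
    rw [Nat.mul_succ, Finset.sum_range_add, ih, Finset.sum_range_succ, mul_add]
    congr 1
    have : ∀ x ∈ range P, F ((P * m + x) / P) = F m := by
      intro x hx
      rw [Nat.mul_add_div hP, Nat.div_eq_of_lt (mem_range.mp hx), Nat.add_zero]
    rw [Finset.sum_congr rfl this, Finset.sum_const, card_range, nsmul_eq_mul]

/-- deviation of a piece -/
noncomputable def dp (p k x : ℕ) : ℝ := (ds 2 p k x : ℝ) - ((k - p : ℕ) : ℝ) / 2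

lemma dp_abs (p k x : ℕ) : |dp p k x| ≤ ((k - p : ℕ) : ℝ) := by
  have h := ds_le 2 p k x (by norm_num)
  have h' : (ds 2 p k x : ℝ) ≤ ((k - p : ℕ) : ℝ) := by
    have : ds 2 p k x ≤ k - p := by simpa using h
    exact_mod_cast this
  have h0 : (0 : ℝ) ≤ ds 2 p k x := Nat.cast_nonneg _
  have h1 : (0 : ℝ) ≤ ((k - p : ℕ) : ℝ) := Nat.cast_nonneg _
  unfold dp
  rw [abs_le]
  constructor <;> linarith

lemma dp_step {p k x : ℕ} (h : ¬ 2 ^ p ∣ x + 1) : dp p k (x + 1) = dp p k x := by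
  unfold dp
  rw [ds_congr_div (Nat.succ_div_of_not_dvd h)]

lemma dp_period (p k x : ℕ) : dp p k (x + 2 ^ k) = dp p k x := by
  unfold dp
  rw [ds_add_period]

lemma dp_add {a b c : ℕ} (h1 : a ≤ b) (h2 : b ≤ c) (x : ℕ) : dp a c x = dp a b x + dp b c x := by
  unfold dp
  rw [ds_add 2 h1 h2]
  have e : c - a = (b - a) + (c - b) := by omega
  rw [e]
  push_cast
  ring

lemma sum_dp (p k : ℕ) (hpk : p ≤ k) :
    ∑ x ∈ range (2 ^ k), dp p k x ^ 2 ≤ ((k - p : ℕ) : ℝ) * 2 ^ k := by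
  obtain ⟨m, rfl⟩ := Nat.exists_eq_add_of_le hpk
  have h := Mom2.sum_dev 2 m (Or.inl rfl)
  have e : ∀ x, dp p (p + m) x ^ 2 = Mom2.dev 2 m (x / 2 ^ p) := by
    intro x
    unfold dp Mom2.dev
    rw [ds_shift, Nat.add_sub_cancel_left]
    congr 2
    push_cast
    ring
  simp only [e]
  rw [pow_add, sum_div_range _ _ (by positivity), Nat.add_sub_cancel_left]
  have h2 : (0 : ℝ) ≤ 2 ^ p := by positivity
  have h3 := mul_le_mul_of_nonneg_left h h2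
  push_cast at h3 ⊢
  calc (2 : ℝ) ^ p * ∑ u ∈ range (2 ^ m), Mom2.dev 2 m u ≤ 2 ^ p * (m * 2 ^ m) := h3
    _ = m * 2 ^ (p + m) := by rw [pow_add]; ring

lemma var_dp (p k : ℕ) (hpk : p ≤ k) (K : ℝ) (hK : ((k - p : ℕ) : ℝ) ≤ K) (hK0 : 0 < K) :
    ∑ x ∈ range (2 ^ k), |dp p k (x + 1) ^ 2 / K ^ 2 - dp p k x ^ 2 / K ^ 2| ≤ 2 ^ (k - p) := by
  have hb : ∀ x, 0 ≤ dp p k x ^ 2 / K ^ 2 ∧ dp p k x ^ 2 / K ^ 2 ≤ 1 := by
    intro x
    refine ⟨by positivity, ?_⟩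
    rw [div_le_one (by positivity)]
    have := (dp_abs p k x).trans hK
    exact sq_le_sq' (by linarith [(abs_le.mp this).1]) (abs_le.mp this).2
  have h1 : ∀ x ∈ range (2 ^ k), |dp p k (x + 1) ^ 2 / K ^ 2 - dp p k x ^ 2 / K ^ 2| ≤
      if 2 ^ p ∣ x + 1 then (1 : ℝ) else 0 := by
    intro x _
    split_ifs with h
    · rw [abs_le]
      have a1 := hb x
      have a2 := hb (x + 1)
      constructor <;> linarith
    · rw [dp_step h, sub_self, abs_zero]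
  refine (Finset.sum_le_sum h1).trans ?_
  rw [← Finset.sum_filter, Finset.sum_const, nsmul_eq_mul, mul_one]
  have h := Pieces.card_mult_le (2 ^ p) (2 ^ (k - p)) 1 Nat.one_le_two_pow
  rw [← pow_add, Nat.add_sub_cancel' hpk] at h
  exact_mod_cast h

/-- the average over `c` and `y`, for a fixed `L` -/
def Avg (L : ℕ) (σ : Fin 120 → ℕ) : Prop := ∀ (k : ℕ) (Ψ : ℕ → ℝ) (V : ℝ),
  Covered L σ k → (∀ x, Ψ (x + 2 ^ k) = Ψ x) → (∀ x, 0 ≤ Ψ x ∧ Ψ x ≤ 1) →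
  ∑ x ∈ range (2 ^ k), |Ψ (x + 1) - Ψ x| ≤ V →
  ∑ c ∈ CC L, ∑ y ∈ YY L, Ψ (xx L σ c y) ≤
    (3 ^ pg0 L) ^ 120 * (2 * 3 ^ py0 L) *
      ((∑ x ∈ range (2 ^ k), Ψ x) / 2 ^ k + 7 * V / pW L + 2 / (pK L : ℝ) ^ 10)

lemma piece {L : ℕ} {σ : Fin 120 → ℕ} (hA : Avg L σ) (hK : 1 ≤ pK L) {p k : ℕ} (hpk : p ≤ k)
    (hkK : k ≤ pK L) (hcov : Covered L σ k) (hsz : 7 * 2 ^ (k - p) * pK L ^ 2 ≤ pW L) :
    ∑ c ∈ CC L, ∑ y ∈ YY L, dp p k (xx L σ c y) ^ 2 ≤
      ((3 : ℝ) ^ pg0 L) ^ 120 * (2 * 3 ^ py0 L) * (4 * pK L) := by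
  have hK' : (1 : ℝ) ≤ pK L := by exact_mod_cast hK
  have hK0 : (0 : ℝ) < pK L := by linarith
  have hkp : ((k - p : ℕ) : ℝ) ≤ pK L := by
    have : k - p ≤ pK L := by omega
    exact_mod_cast this
  have hW : (0 : ℝ) < pW L := by
    have : 0 < pW L := by unfold pW; positivity
    exact_mod_cast this
  have h := hA k (fun x => dp p k x ^ 2 / (pK L : ℝ) ^ 2) (2 ^ (k - p)) hcov
    (fun x => by simp only [dp_period])
    (fun x => by
      refine ⟨by positivity, ?_⟩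
      rw [div_le_one (by positivity)]
      have := (dp_abs p k x).trans hkp
      exact sq_le_sq' (by linarith [(abs_le.mp this).1]) (abs_le.mp this).2)
    (var_dp p k hpk _ hkp hK0)
  simp only [← Finset.sum_div] at h
  have hK2 : (0 : ℝ) < (pK L : ℝ) ^ 2 := by positivity
  rw [div_le_iff₀ hK2] at h
  refine h.trans ?_
  have hN : (0 : ℝ) ≤ ((3 : ℝ) ^ pg0 L) ^ 120 * (2 * 3 ^ py0 L) := by positivity
  rw [mul_assoc]
  apply mul_le_mul_of_nonneg_left _ hN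
  have t1 : (∑ x ∈ range (2 ^ k), dp p k x ^ 2) / (pK L : ℝ) ^ 2 / 2 ^ k * (pK L : ℝ) ^ 2 ≤ pK L := by
    have h2k : (0 : ℝ) < 2 ^ k := by positivity
    have e : (∑ x ∈ range (2 ^ k), dp p k x ^ 2) / (pK L : ℝ) ^ 2 / 2 ^ k * (pK L : ℝ) ^ 2 =
        (∑ x ∈ range (2 ^ k), dp p k x ^ 2) / 2 ^ k := by
      field_simp
    rw [e, div_le_iff₀ h2k]
    refine (sum_dp p k hpk).trans ?_
    exact mul_le_mul_of_nonneg_right hkp h2k.le
  have t2 : 7 * 2 ^ (k - p) / (pW L : ℝ) * (pK L : ℝ) ^ 2 ≤ 1 := by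
    rw [div_mul_eq_mul_div, div_le_one hW]
    exact_mod_cast hsz
  have t3 : 2 / (pK L : ℝ) ^ 10 * (pK L : ℝ) ^ 2 ≤ 2 := by
    rw [div_mul_eq_mul_div, div_le_iff₀ (by positivity)]
    have : (pK L : ℝ) ^ 2 ≤ (pK L : ℝ) ^ 10 := pow_le_pow_right₀ hK' (by norm_num)
    linarith
  rw [add_mul, add_mul]
  linarith

lemma dp_tel (f : ℕ → ℕ) (hf : Monotone f) (M x : ℕ) :
    dp (f 0) (f M) x = ∑ j ∈ range M, dp (f j) (f (j + 1)) x := by
  induction M with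
  | zero => simp [dp, ds_zero_right]
  | succ M ih =>
    rw [Finset.sum_range_succ, ← ih]
    exact dp_add (hf (Nat.zero_le _)) (hf (Nat.le_succ _)) x

lemma mid {L : ℕ} {σ : Fin 120 → ℕ} (hA : Avg L σ) (hK : 1 ≤ pK L) {k0 kt l M : ℕ}
    (hk0 : k0 ≤ kt) (hM : kt ≤ k0 + M * l) (hkt : kt ≤ pK L)
    (hcov : ∀ k, k0 ≤ k → k ≤ kt → Covered L σ k) (hsz : 7 * 2 ^ l * pK L ^ 2 ≤ pW L) :
    ∑ c ∈ CC L, ∑ y ∈ YY L, dp k0 kt (xx L σ c y) ^ 2 ≤
      (M : ℝ) ^ 2 * (((3 : ℝ) ^ pg0 L) ^ 120 * (2 * 3 ^ py0 L) * (4 * pK L)) := by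
  set f : ℕ → ℕ := fun j => min (k0 + j * l) kt with hf
  have hmono : Monotone f := by
    intro a b hab
    simp only [hf]
    have : a * l ≤ b * l := Nat.mul_le_mul_right l hab
    omega
  have hf0 : f 0 = k0 := by simp only [hf]; omega
  have hfM : f M = kt := by simp only [hf]; omega
  have hfl : ∀ j, f (j + 1) - f j ≤ l := by
    intro j
    simp only [hf]
    have : (j + 1) * l = j * l + l := by ring
    omega
  have hfk : ∀ j, k0 ≤ f j ∧ f j ≤ kt := by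
    intro j
    simp only [hf]
    omega
  have h1 : ∀ x, dp k0 kt x ^ 2 ≤ M * ∑ j ∈ range M, dp (f j) (f (j + 1)) x ^ 2 := by
    intro x
    have := dp_tel f hmono M x
    rw [hf0, hfM] at this
    rw [this]
    refine (sq_sum_le_card_mul_sum_sq).trans ?_
    rw [card_range]
  have h2 : ∀ j ∈ range M, ∑ c ∈ CC L, ∑ y ∈ YY L, dp (f j) (f (j + 1)) (xx L σ c y) ^ 2 ≤
      ((3 : ℝ) ^ pg0 L) ^ 120 * (2 * 3 ^ py0 L) * (4 * pK L) := by
    intro j _
    refine piece hA hK (hmono (Nat.le_succ j)) ((hfk _).2.trans hkt)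
      (hcov _ (hfk _).1 (hfk _).2) (le_trans ?_ hsz)
    apply Nat.mul_le_mul_right
    apply Nat.mul_le_mul_left
    exact Nat.pow_le_pow_right (by norm_num) (hfl j)
  calc ∑ c ∈ CC L, ∑ y ∈ YY L, dp k0 kt (xx L σ c y) ^ 2
      ≤ ∑ c ∈ CC L, ∑ y ∈ YY L, (M * ∑ j ∈ range M, dp (f j) (f (j + 1)) (xx L σ c y) ^ 2) :=
        Finset.sum_le_sum fun c _ => Finset.sum_le_sum fun y _ => h1 _
    _ = M * ∑ j ∈ range M, ∑ c ∈ CC L, ∑ y ∈ YY L, dp (f j) (f (j + 1)) (xx L σ c y) ^ 2 := by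
        simp only [← Finset.mul_sum]
        congr 1
        have e1 : ∀ c ∈ CC L, ∑ y ∈ YY L, ∑ j ∈ range M, dp (f j) (f (j + 1)) (xx L σ c y) ^ 2 =
            ∑ j ∈ range M, ∑ y ∈ YY L, dp (f j) (f (j + 1)) (xx L σ c y) ^ 2 :=
          fun c _ => Finset.sum_comm
        rw [Finset.sum_congr rfl e1, Finset.sum_comm]
    _ ≤ M * ∑ _j ∈ range M, (((3 : ℝ) ^ pg0 L) ^ 120 * (2 * 3 ^ py0 L) * (4 * pK L)) :=
        mul_le_mul_of_nonneg_left (Finset.sum_le_sum h2) (Nat.cast_nonneg _)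
    _ = (M : ℝ) ^ 2 * (((3 : ℝ) ^ pg0 L) ^ 120 * (2 * 3 ^ py0 L) * (4 * pK L)) := by
        rw [Finset.sum_const, card_range, nsmul_eq_mul]
        ring

/-! ### carries -/

/-- indicator of a carry -/
noncomputable def cb (k H x : ℕ) : ℝ := if 2 ^ k ≤ x % 2 ^ k + H then 1 else 0

lemma cb_sum (k H : ℕ) : ∑ x ∈ range (2 ^ k), cb k H x ≤ H := by
  unfold cb
  rw [← Finset.sum_filter, Finset.sum_const, nsmul_eq_mul, mul_one]
  have : ((range (2 ^ k)).filter (fun x => 2 ^ k ≤ x % 2 ^ k + H)).card ≤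
      (Ico (2 ^ k - H) (2 ^ k)).card := by
    apply Finset.card_le_card
    intro x hx
    rw [mem_filter, mem_range] at hx
    rw [Nat.mod_eq_of_lt hx.1] at hx
    rw [mem_Ico]
    omega
  rw [Nat.card_Ico] at this
  have h2 : 2 ^ k - (2 ^ k - H) ≤ H := by omega
  exact_mod_cast this.trans h2

lemma cb_var (k H : ℕ) : ∑ x ∈ range (2 ^ k), |cb k H (x + 1) - cb k H x| ≤ 2 := by
  have h1 : ∀ x ∈ range (2 ^ k), |cb k H (x + 1) - cb k H x| ≤
      (if x + 1 = 2 ^ k then (1 : ℝ) else 0) + (if x + 1 + H = 2 ^ k then (1 : ℝ) else 0) := by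
    intro x hx
    rw [mem_range] at hx
    have hb : ∀ x, 0 ≤ cb k H x ∧ cb k H x ≤ 1 := by
      intro x
      unfold cb
      split_ifs <;> norm_num
    have ha : |cb k H (x + 1) - cb k H x| ≤ 1 := by
      rw [abs_le]
      have a1 := hb x
      have a2 := hb (x + 1)
      constructor <;> linarith
    by_cases e1 : x + 1 = 2 ^ k
    · rw [if_pos e1]
      split_ifs <;> linarith
    · by_cases e2 : x + 1 + H = 2 ^ k
      · rw [if_pos e2]
        split_ifs <;> linarith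
      · rw [if_neg e1, if_neg e2]
        have e3 : cb k H (x + 1) = cb k H x := by
          unfold cb
          rw [Nat.mod_eq_of_lt hx, Nat.mod_eq_of_lt (by omega : x + 1 < 2 ^ k)]
          by_cases e4 : 2 ^ k ≤ x + H
          · rw [if_pos e4, if_pos (by omega)]
          · rw [if_neg e4, if_neg (by omega)]
        rw [e3, sub_self, abs_zero, add_zero]
  refine (Finset.sum_le_sum h1).trans ?_
  rw [Finset.sum_add_distrib, ← Finset.sum_filter, ← Finset.sum_filter, Finset.sum_const,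
    Finset.sum_const, nsmul_eq_mul, nsmul_eq_mul, mul_one, mul_one]
  have c1 : ((range (2 ^ k)).filter (fun x => x + 1 = 2 ^ k)).card ≤ 1 := by
    rw [Finset.card_le_one]
    intro a ha b hb
    rw [mem_filter] at ha hb
    omega
  have c2 : ((range (2 ^ k)).filter (fun x => x + 1 + H = 2 ^ k)).card ≤ 1 := by
    rw [Finset.card_le_one]
    intro a ha b hb
    rw [mem_filter] at ha hb
    omega
  have c1' : (((range (2 ^ k)).filter (fun x => x + 1 = 2 ^ k)).card : ℝ) ≤ 1 := by exact_mod_cast c1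
  have c2' : (((range (2 ^ k)).filter (fun x => x + 1 + H = 2 ^ k)).card : ℝ) ≤ 1 := by
    exact_mod_cast c2
  linarith

lemma carry {L : ℕ} {σ : Fin 120 → ℕ} (hA : Avg L σ) (hK : 1 ≤ pK L)
    (hcov : Covered L σ (pk0 L)) (hsz : 7 * pK L ^ 2 ≤ pW L)
    (hH : 3 ^ pj0 L * pK L ^ 2 ≤ 2 * 2 ^ pk0 L) :
    ∑ c ∈ CC L, ∑ y ∈ YY L, cb (pk0 L) (3 ^ pj0 L) (xx L σ c y) ≤
      ((3 : ℝ) ^ pg0 L) ^ 120 * (2 * 3 ^ py0 L) * (6 / (pK L : ℝ) ^ 2) := by
  have hK' : (1 : ℝ) ≤ pK L := by exact_mod_cast hK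
  have hW : (0 : ℝ) < pW L := by
    have : 0 < pW L := by unfold pW; positivity
    exact_mod_cast this
  have h := hA (pk0 L) (cb (pk0 L) (3 ^ pj0 L)) 2 hcov
    (fun x => by unfold cb; rw [Nat.add_mod_right])
    (fun x => by unfold cb; split_ifs <;> norm_num) (cb_var _ _)
  refine h.trans ?_
  have hN : (0 : ℝ) ≤ ((3 : ℝ) ^ pg0 L) ^ 120 * (2 * 3 ^ py0 L) := by positivity
  apply mul_le_mul_of_nonneg_left _ hN
  have hK2 : (0 : ℝ) < (pK L : ℝ) ^ 2 := by positivity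
  have t1 : (∑ x ∈ range (2 ^ pk0 L), cb (pk0 L) (3 ^ pj0 L) x) / 2 ^ pk0 L ≤
      2 / (pK L : ℝ) ^ 2 := by
    rw [div_le_div_iff₀ (by positivity) hK2]
    have h1 := cb_sum (pk0 L) (3 ^ pj0 L)
    have h2 : ((3 ^ pj0 L : ℕ) : ℝ) * (pK L : ℝ) ^ 2 ≤ 2 * 2 ^ pk0 L := by exact_mod_cast hH
    exact (mul_le_mul_of_nonneg_right h1 hK2.le).trans h2
  have t2 : 7 * 2 / (pW L : ℝ) ≤ 2 / (pK L : ℝ) ^ 2 := by
    rw [div_le_div_iff₀ hW hK2]
    have : (7 : ℝ) * (pK L : ℝ) ^ 2 ≤ pW L := by exact_mod_cast hsz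
    linarith
  have t3 : 2 / (pK L : ℝ) ^ 10 ≤ 2 / (pK L : ℝ) ^ 2 :=
    div_le_div_of_nonneg_left (by norm_num) hK2 (pow_le_pow_right₀ hK' (by norm_num))
  have t4 : 6 / (pK L : ℝ) ^ 2 = 2 / (pK L : ℝ) ^ 2 + 2 / (pK L : ℝ) ^ 2 + 2 / (pK L : ℝ) ^ 2 := by
    ring
  rw [t4]
  linarith

/-! ### sizes -/

structure Num (L : ℕ) : Prop where
  n1 : 1 ≤ pg0 L
  n2 : pj0 L ≤ pjj L
  n3 : pjj L + py0 L = L
  n4 : L ≤ pK L
  n5 : pK L ≤ 1000000 * (pg0 L / 8)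
  n6 : 7 * 2 ^ (pg0 L / 8) * pK L ^ 2 ≤ pW L
  n7 : pj0 L + py0 L + 120 * pg0 L = pK L / 2
  n8 : pk0 L + 20 * (pk L + 1) ≤ pK L
  n9 : (20 * (pk L + 1) + 3) ^ 2 ≤ pK L
  n10 : 3 ^ pj0 L * pK L ^ 2 ≤ 2 * 2 ^ pk0 L
  n11 : 10 ^ 12 ≤ pK L

lemma exp_poly : ∃ n0 : ℕ, ∀ n : ℕ, n0 ≤ n →
    7 * 2 ^ n * (480000 * (n + 1)) ^ 2 ≤ 3 ^ n := by
  have h := tendsto_pow_const_div_const_pow_of_one_lt 2 (r := (3 / 2 : ℝ)) (by norm_num)
  have h2 := (h.eventually (gt_mem_nhds (show (0 : ℝ) < 1 / (28 * 480000 ^ 2) by positivity)))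
  rw [Filter.eventually_atTop] at h2
  obtain ⟨n0, hn0⟩ := h2
  refine ⟨n0 + 1, fun n hn => ?_⟩
  have h3 := hn0 n (by omega)
  have hn1 : (1 : ℝ) ≤ n := by
    have : 1 ≤ n := by omega
    exact_mod_cast this
  rw [div_lt_div_iff₀ (by positivity) (by positivity), one_mul] at h3
  have h4 : (3 / 2 : ℝ) ^ n * 2 ^ n = 3 ^ n := by
    rw [← mul_pow]
    norm_num
  have h5 : (0 : ℝ) < 2 ^ n := by positivity
  have h6 : ((n : ℝ) + 1) ^ 2 ≤ 4 * (n : ℝ) ^ 2 := by nlinarith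
  have h7 : (7 : ℝ) * 2 ^ n * (480000 * (n + 1)) ^ 2 ≤ 3 ^ n := by
    rw [← h4]
    have h8 : (7 : ℝ) * (480000 * (n + 1)) ^ 2 ≤ (3 / 2) ^ n := by
      have : (7 : ℝ) * (480000 * ((n : ℝ) + 1)) ^ 2 = 7 * 480000 ^ 2 * ((n : ℝ) + 1) ^ 2 := by ring
      rw [this]
      nlinarith
    have := mul_le_mul_of_nonneg_right h8 h5.le
    linarith
  exact_mod_cast h7

lemma num (h0 : ClaimSizF) : ∃ L0 : ℕ, ∀ L : ℕ, L0 ≤ L → Num L := by
  obtain ⟨L1, hL1⟩ := h0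
  obtain ⟨n0, hn0⟩ := exp_poly
  refine ⟨L1 + 240000 * (n0 + 1), fun L hL => ?_⟩
  have hS := hL1 L (by omega)
  have hK := hS.z1
  have hLK : L ≤ pK L := by
    have h1 : 2 ^ L ≤ 3 ^ L := Nat.pow_le_pow_left (by norm_num) L
    have h2 := (Nat.pow_lt_pow_iff_right (by norm_num : 1 < 2)).mp (h1.trans_lt hS.z3')
    omega
  have hKL : pK L ≤ 2 * L := by
    have h1 : 3 ^ L ≤ 2 ^ (2 * L) := by
      rw [pow_mul]
      exact Nat.pow_le_pow_left (by norm_num) L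
    exact (Nat.pow_le_pow_iff_right (by norm_num : 1 < 2)).mp (hS.z3.trans h1)
  have hm1 : ((pk L : ℝ) + 1) ^ 4 ≤ pK L := by
    have hK1 : (1 : ℝ) ≤ pK L := by
      have : 1 ≤ pK L := le_trans (by norm_num) hK
      exact_mod_cast this
    have h1 : ((pk L : ℝ) + 1) ≤ (pK L : ℝ) ^ ((1 : ℝ) / 4) :=
      hS.z2.trans (Real.rpow_le_rpow_of_exponent_le hK1 (by norm_num))
    have h2 : ((pk L : ℝ) + 1) ^ 4 ≤ ((pK L : ℝ) ^ ((1 : ℝ) / 4)) ^ 4 :=
      pow_le_pow_left₀ (by positivity) h1 4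
    refine h2.trans (le_of_eq ?_)
    rw [← Real.rpow_natCast, ← Real.rpow_mul (by positivity)]
    norm_num
  have hm : (pk L + 1) ^ 4 ≤ pK L := by exact_mod_cast hm1
  have hm9 : (20 * (pk L + 1) + 3) ^ 2 ≤ pK L := by
    rcases le_total (pk L + 1) 1000 with h | h
    · calc (20 * (pk L + 1) + 3) ^ 2 ≤ (20 * 1000 + 3) ^ 2 := by gcongr
        _ ≤ 10 ^ 12 := by norm_num
        _ ≤ pK L := hK
    · calc (20 * (pk L + 1) + 3) ^ 2 ≤ (1000 * (pk L + 1)) ^ 2 := by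
            apply Nat.pow_le_pow_left
            omega
        _ = 1000 ^ 2 * (pk L + 1) ^ 2 := by ring
        _ ≤ (pk L + 1) ^ 2 * (pk L + 1) ^ 2 := by gcongr
        _ = (pk L + 1) ^ 4 := by ring
        _ ≤ pK L := hm
  have hm8 : 1000 * (pk L + 1) ≤ pK L := by
    rcases le_total (pk L + 1) 1000 with h | h
    · calc 1000 * (pk L + 1) ≤ 1000 * 1000 := by gcongr
        _ ≤ 10 ^ 12 := by norm_num
        _ ≤ pK L := hK
    · calc 1000 * (pk L + 1) ≤ (pk L + 1) * (pk L + 1) := by gcongr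
        _ ≤ (pk L + 1) ^ 4 := by
          have : (pk L + 1) ^ 4 = (pk L + 1) * (pk L + 1) * ((pk L + 1) * (pk L + 1)) := by ring
          rw [this]
          exact Nat.le_mul_of_pos_right _ (by positivity)
        _ ≤ pK L := hm
  have hlogH : (Nat.log 2 (pH L) : ℝ) ≤ (79 / 100) * (pK L + 1) := by
    have hH0 : pH L ≠ 0 := by
      unfold pH
      positivity
    have h1 : ((2 : ℝ)) ^ ((Nat.log 2 (pH L) : ℕ) : ℝ) ≤ (2 : ℝ) ^ ((79 / 100 : ℝ) * (pK L + 1)) := by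
      rw [Real.rpow_natCast]
      calc ((2 : ℝ)) ^ (Nat.log 2 (pH L)) ≤ (pH L : ℝ) := by
            exact_mod_cast Nat.pow_log_le_self 2 hH0
        _ ≤ ((3 ^ L : ℕ) : ℝ) ^ ((79 : ℝ) / 100) := hS.z5
        _ ≤ ((2 : ℝ) ^ (pK L + 1)) ^ ((79 : ℝ) / 100) := by
            apply Real.rpow_le_rpow (by positivity) _ (by norm_num)
            exact_mod_cast hS.z3'.le
        _ = (2 : ℝ) ^ ((79 / 100 : ℝ) * (pK L + 1)) := by
            rw [← Real.rpow_natCast, ← Real.rpow_mul (by norm_num)]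
            congr 1
            push_cast
            ring
    exact (Real.rpow_le_rpow_left_iff (by norm_num)).mp h1
  have hK12 : (10 : ℝ) ^ 12 ≤ pK L := by exact_mod_cast hK
  refine ⟨?_, ?_, ?_, hLK, ?_, ?_, ?_, ?_, hm9, ?_, hK⟩
  · unfold pg0
    omega
  · unfold pj0 pjj py0 pg0
    omega
  · unfold pjj py0
    omega
  · unfold pg0
    omega
  · unfold pW
    have h1 : n0 ≤ pg0 L / 8 := by
      unfold pg0
      omega
    refine le_trans ?_ (hn0 _ h1)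
    apply Nat.mul_le_mul_left
    apply Nat.pow_le_pow_left
    unfold pg0
    omega
  · unfold pj0 py0 pg0
    omega
  · unfold pk0
    have h1 : ((Nat.log 2 (pH L) + 40 * (pk L + 1) + 20 * (pk L + 1) : ℕ) : ℝ) ≤ pK L := by
      have h2 : (1000 : ℝ) * ((pk L : ℝ) + 1) ≤ pK L := by exact_mod_cast hm8
      push_cast
      linarith
    exact_mod_cast h1
  · have h1 : pH L < 2 ^ (Nat.log 2 (pH L) + 1) := Nat.lt_pow_succ_log_self (by norm_num) _
    have h2 : pK L < 2 ^ (pk L + 1) := Nat.lt_pow_succ_log_self (by norm_num) _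
    have h3 : pK L ^ 2 ≤ 2 ^ (40 * (pk L + 1)) := by
      calc pK L ^ 2 ≤ (2 ^ (pk L + 1)) ^ 2 := Nat.pow_le_pow_left h2.le 2
        _ = 2 ^ ((pk L + 1) * 2) := by rw [← pow_mul]
        _ ≤ 2 ^ (40 * (pk L + 1)) := Nat.pow_le_pow_right (by norm_num) (by omega)
    calc 3 ^ pj0 L * pK L ^ 2 ≤ 2 ^ (Nat.log 2 (pH L) + 1) * 2 ^ (40 * (pk L + 1)) :=
          Nat.mul_le_mul h1.le h3
      _ = 2 * 2 ^ pk0 L := by
          unfold pk0
          rw [pow_add, pow_add]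
          ring

/-! ### assembly -/

lemma phi_bound {L : ℕ} (hN : Num L) {σ c : Fin 120 → ℕ} {y : ℕ} :
    Phi L (xx L σ c y) ^ 2 ≤ 4 * (dp (pk0 L) (pK L - 20 * (pk L + 1)) (xx L σ c y) ^ 2 +
      ((ds 3 (pj0 L) (L + 1) (xx L σ c y) : ℝ) - 120 * pg0 L - py0 L) ^ 2 + 2 * pK L) := by
  set x := xx L σ c y
  set kt := pK L - 20 * (pk L + 1) with hkt
  have h8 := hN.n8
  have h11 := hN.n11
  have h9 := hN.n9
  have e1 : pk0 L ≤ kt := by omega
  have e2 : kt ≤ pK L + 3 := by omega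
  have hds := ds_add 2 e1 e2 x
  have hB := ds_le 2 kt (pK L + 3) x (by norm_num)
  have hB' : ds 2 kt (pK L + 3) x ≤ 20 * (pk L + 1) + 3 := by
    have : (pK L + 3 - kt) * (2 - 1) = 20 * (pk L + 1) + 3 := by omega
    omega
  have hk : kt + 20 * (pk L + 1) = pK L := by omega
  have hkR : (kt : ℝ) + 20 * ((pk L : ℝ) + 1) = pK L := by exact_mod_cast hk
  have hktk : ((kt - pk0 L : ℕ) : ℝ) = (kt : ℝ) - pk0 L := by
    rw [Nat.cast_sub e1]
  have hB'' : (ds 2 kt (pK L + 3) x : ℝ) ≤ 20 * ((pk L : ℝ) + 1) + 3 := by exact_mod_cast hB'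
  have hB0 : (0 : ℝ) ≤ ds 2 kt (pK L + 3) x := Nat.cast_nonneg _
  have h9' : (20 * ((pk L : ℝ) + 1) + 3) ^ 2 ≤ pK L := by exact_mod_cast h9
  have hpk : (0 : ℝ) ≤ pk L := Nat.cast_nonneg _
  have h7 := hN.n7
  have h7a : 2 * (pj0 L + py0 L + 120 * pg0 L) ≤ pK L := by omega
  have h7b : pK L ≤ 2 * (pj0 L + py0 L + 120 * pg0 L) + 1 := by omega
  have h7a' : 2 * ((pj0 L : ℝ) + py0 L + 120 * pg0 L) ≤ pK L := by exact_mod_cast h7a
  have h7b' : (pK L : ℝ) ≤ 2 * ((pj0 L : ℝ) + py0 L + 120 * pg0 L) + 1 := by exact_mod_cast h7b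
  have hK1 : (1 : ℝ) ≤ pK L := by
    have : 1 ≤ pK L := by omega
    exact_mod_cast this
  set A := dp (pk0 L) kt x with hA
  set B := (ds 2 kt (pK L + 3) x : ℝ) - 10 * ((pk L : ℝ) + 1) with hBdef
  set D := (ds 3 (pj0 L) (L + 1) x : ℝ) - 120 * pg0 L - py0 L with hD
  set E := (pK L : ℝ) / 2 - (pj0 L + py0 L + 120 * pg0 L) with hE
  have hPhi : Phi L x = A + B - D + E := by
    unfold Phi
    rw [hds, hA, hBdef, hD, hE]
    unfold dp
    rw [hktk]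
    push_cast
    linarith
  have hBsq : B ^ 2 ≤ pK L := by
    refine le_trans ?_ h9'
    apply sq_le_sq'
    · rw [hBdef]; linarith
    · rw [hBdef]; linarith
  have hEsq : E ^ 2 ≤ pK L := by
    have : E ^ 2 ≤ 1 ^ 2 := by
      apply sq_le_sq'
      · rw [hE]; linarith
      · rw [hE]; linarith
    linarith
  rw [hPhi]
  nlinarith [sq_nonneg (A - B), sq_nonneg (A + D), sq_nonneg (A - E), sq_nonneg (B + D),
    sq_nonneg (B - E), sq_nonneg (D + E)]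

lemma total {L : ℕ} (hN : Num L) {σ : Fin 120 → ℕ} (hA : Avg L σ) (hσ : Slots L σ)
    (hcov : ∀ k, pk0 L ≤ k → k + 20 * (pk L + 1) ≤ pK L → Covered L σ k) :
    ∑ c ∈ CC L, ∑ y ∈ YY L, Phi L (xx L σ c y) ^ 2 ≤
      4 * 10 ^ 13 * (((3 : ℝ) ^ pg0 L) ^ 120 * 3 ^ py0 L * pK L) := by
  have h8 := hN.n8
  have h11 := hN.n11
  have hK1 : 1 ≤ pK L := by omega
  have hK10 : (10 : ℝ) ≤ pK L := by
    have : 10 ≤ pK L := by omega
    exact_mod_cast this
  have hmid := mid hA hK1 (k0 := pk0 L) (kt := pK L - 20 * (pk L + 1)) (l := pg0 L / 8)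
    (M := 1000000) (by omega) (by have := hN.n5; omega) (by omega)
    (fun k h1 h2 => hcov k h1 (by omega)) hN.n6
  have h3 := base3 hN.n1 hN.n2 hN.n3 hσ
  have hg : (pg0 L : ℝ) ≤ pK L := by
    have : pg0 L ≤ pK L := by
      have := hN.n4
      unfold pg0
      omega
    exact_mod_cast this
  have hy : (py0 L : ℝ) ≤ pK L := by
    have : py0 L ≤ pK L := by
      have := hN.n4
      unfold py0
      omega
    exact_mod_cast this
  have hNY : (0 : ℝ) ≤ ((3 : ℝ) ^ pg0 L) ^ 120 * 3 ^ py0 L := by positivity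
  have h3' : ∑ c ∈ CC L, ∑ y ∈ YY L,
      ((ds 3 (pj0 L) (L + 1) (xx L σ c y) : ℝ) - 120 * pg0 L - py0 L) ^ 2 ≤
      121 * (256 * pK L) * (((3 : ℝ) ^ pg0 L) ^ 120 * 3 ^ py0 L) := by
    refine h3.trans (mul_le_mul_of_nonneg_right ?_ hNY)
    linarith
  calc ∑ c ∈ CC L, ∑ y ∈ YY L, Phi L (xx L σ c y) ^ 2
      ≤ ∑ c ∈ CC L, ∑ y ∈ YY L,
        4 * (dp (pk0 L) (pK L - 20 * (pk L + 1)) (xx L σ c y) ^ 2 +
      ((ds 3 (pj0 L) (L + 1) (xx L σ c y) : ℝ) - 120 * pg0 L - py0 L) ^ 2 + 2 * pK L) :=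
        Finset.sum_le_sum fun c _ => Finset.sum_le_sum fun y _ => phi_bound hN
    _ = 4 * (∑ c ∈ CC L, ∑ y ∈ YY L, dp (pk0 L) (pK L - 20 * (pk L + 1)) (xx L σ c y) ^ 2 +
        ∑ c ∈ CC L, ∑ y ∈ YY L,
          ((ds 3 (pj0 L) (L + 1) (xx L σ c y) : ℝ) - 120 * pg0 L - py0 L) ^ 2 +
        ((CC L).card : ℝ) * (((YY L).card : ℝ) * (2 * pK L))) := by
        simp only [← Finset.mul_sum, Finset.sum_add_distrib, Finset.sum_const, nsmul_eq_mul]
        ring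
    _ ≤ 4 * (((1000000 : ℕ) : ℝ) ^ 2 * (((3 : ℝ) ^ pg0 L) ^ 120 * (2 * 3 ^ py0 L) * (4 * pK L)) +
        121 * (256 * pK L) * (((3 : ℝ) ^ pg0 L) ^ 120 * 3 ^ py0 L) +
        ((3 : ℝ) ^ pg0 L) ^ 120 * ((2 * 3 ^ py0 L) * (2 * pK L))) := by
        rw [card_CC, card_YY]
        linarith
    _ ≤ 4 * 10 ^ 13 * (((3 : ℝ) ^ pg0 L) ^ 120 * 3 ^ py0 L * pK L) := by
        have hP : (0 : ℝ) ≤ ((3 : ℝ) ^ pg0 L) ^ 120 * 3 ^ py0 L * pK L := by positivity
        generalize ((3 : ℝ) ^ pg0 L) ^ 120 = a at *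
        generalize (3 : ℝ) ^ py0 L = b at *
        generalize (pK L : ℝ) = k at *
        have e : 4 * (((1000000 : ℕ) : ℝ) ^ 2 * (a * (2 * b) * (4 * k)) +
          121 * (256 * k) * (a * b) + a * ((2 * b) * (2 * k))) =
          4 * (8 * 10 ^ 12 + 30976 + 4) * (a * b * k) := by
          push_cast
          ring
        rw [e]
        apply mul_le_mul_of_nonneg_right _ hP
        norm_num

end T2

open T2 in
theorem claimT2 (h0 : ClaimSizF) (h1 : ClaimSrcs) (h2 : ClaimAvgSrc) : ClaimT2 := by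
  obtain ⟨L1, hL1⟩ := num h0
  obtain ⟨L2, hL2⟩ := h1
  obtain ⟨L3, hL3⟩ := h2
  refine ⟨10 ^ 14, L1 + L2 + L3, fun L hL hNC => ?_⟩
  have hN := hL1 L (by omega)
  obtain ⟨σ, hσ, hcov⟩ := hL2 L (by omega) hNC
  have hA : Avg L σ := fun k Ψ V hc hp hb hv => hL3 L σ k Ψ V (by omega) hσ hc hp hb hv
  have hK1 : 1 ≤ pK L := by have := hN.n11; omega
  have hKR : (10 : ℝ) ^ 12 ≤ pK L := by exact_mod_cast hN.n11
  have hK0 : (0 : ℝ) < pK L := by linarith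
  have hT := total hN hA hσ hcov
  have hC := carry hA hK1 (hcov _ le_rfl hN.n8) (by
    refine le_trans ?_ hN.n6
    apply Nat.mul_le_mul_right
    exact Nat.le_mul_of_pos_right _ (by positivity)) hN.n10
  set a : ℝ := ((3 : ℝ) ^ pg0 L) ^ 120 with ha
  have ha0 : 0 < a := by positivity
  set b : ℝ := (3 : ℝ) ^ py0 L with hb
  have hb0 : 0 < b := by positivity
  set k : ℝ := (pK L : ℝ) with hk
  have hlt : ∑ c ∈ CC L, ((∑ y ∈ YY L, Phi L (xx L σ c y) ^ 2) / (10 ^ 14 * k * b) +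
      (∑ y ∈ YY L, cb (pk0 L) (3 ^ pj0 L) (xx L σ c y)) * (k / b)) < ∑ c ∈ CC L, (1 : ℝ) := by
    rw [Finset.sum_add_distrib, ← Finset.sum_div, ← Finset.sum_mul, Finset.sum_const, nsmul_eq_mul,
      mul_one, card_CC]
    have s1 : (∑ c ∈ CC L, ∑ y ∈ YY L, Phi L (xx L σ c y) ^ 2) / (10 ^ 14 * k * b) ≤ (4 / 10) * a := by
      rw [div_le_iff₀ (by positivity)]
      refine hT.trans (le_of_eq ?_)
      ring
    have s2 : (∑ c ∈ CC L, ∑ y ∈ YY L, cb (pk0 L) (3 ^ pj0 L) (xx L σ c y)) * (k / b) ≤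
        (12 / k) * a := by
      refine (mul_le_mul_of_nonneg_right hC (by positivity)).trans (le_of_eq ?_)
      field_simp
      ring
    have s3 : 12 / k ≤ 1 / 10 := by
      rw [div_le_div_iff₀ hK0 (by norm_num)]
      linarith
    have s4 := mul_le_mul_of_nonneg_right s3 ha0.le
    rw [← ha]
    linarith
  obtain ⟨c, hc, hc1⟩ := Finset.exists_lt_of_sum_lt hlt
  obtain ⟨z1, z2, _⟩ := zz_facts hN.n1 hN.n2 hσ hc
  have p1 : 0 ≤ (∑ y ∈ YY L, Phi L (xx L σ c y) ^ 2) / (10 ^ 14 * k * b) := by positivity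
  have p2 : 0 ≤ (∑ y ∈ YY L, cb (pk0 L) (3 ^ pj0 L) (xx L σ c y)) * (k / b) := by
    apply mul_nonneg _ (by positivity)
    apply Finset.sum_nonneg
    intro y _
    unfold cb
    split_ifs <;> norm_num
  refine ⟨zz L σ c, z1, z2, ?_, ?_⟩
  · have q1 : (∑ y ∈ YY L, Phi L (xx L σ c y) ^ 2) / (10 ^ 14 * k * b) ≤ 1 := by linarith
    rw [div_le_one (by positivity)] at q1
    exact q1
  · have q2 : (∑ y ∈ YY L, cb (pk0 L) (3 ^ pj0 L) (xx L σ c y)) * (k / b) ≤ 1 := by linarith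
    rw [mul_div_assoc', div_le_one hb0] at q2
    have e : ∑ y ∈ YY L, cb (pk0 L) (3 ^ pj0 L) (xx L σ c y) =
        (((Ico (3 ^ py0 L) (3 * 3 ^ py0 L)).filter (fun y =>
          2 ^ pk0 L ≤ (3 ^ pjj L * y + zz L σ c) % 2 ^ pk0 L + 3 ^ pj0 L)).card : ℝ) := by
      unfold cb
      rw [← Finset.sum_filter, Finset.sum_const, nsmul_eq_mul, mul_one]
      rfl
    rw [e, mul_comm] at q2
    have q3 : ((pK L * ((Ico (3 ^ py0 L) (3 * 3 ^ py0 L)).filter (fun y =>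
          2 ^ pk0 L ≤ (3 ^ pjj L * y + zz L σ c) % 2 ^ pk0 L + 3 ^ pj0 L)).card : ℕ) : ℝ) ≤
        ((3 ^ py0 L : ℕ) : ℝ) := by
      push_cast
      exact q2
    exact_mod_cast q3

end Pool.Agent.Work.MP_8e4d29_nt

end

section

/-!
MP_8e4d29_nt, item D14: the eighth moment of the inner sums.
-/

namespace Pool.Agent.Work.MP_8e4d29_nt

open Finset
open Pool.Agent.Work.MP_122e00_nt (ee norm_ee)

namespace Core

theorem pi_sum (K : ℕ) (f : (Fin 4 → ℕ) → ℝ) :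
    ∑ c ∈ Fintype.piFinset (fun _ : Fin 4 => range K), f c =
      ∑ c0 ∈ range K, ∑ c1 ∈ range K, ∑ c2 ∈ range K, ∑ c3 ∈ range K, f ![c0, c1, c2, c3] := by
  have h1 : ∑ c0 ∈ range K, ∑ c1 ∈ range K, ∑ c2 ∈ range K, ∑ c3 ∈ range K,
      f ![c0, c1, c2, c3] =
      ∑ p ∈ range K ×ˢ (range K ×ˢ (range K ×ˢ range K)), f ![p.1, p.2.1, p.2.2.1, p.2.2.2] := by
    simp only [Finset.sum_product]
  rw [h1]
  refine Finset.sum_nbij' (fun c => (c 0, c 1, c 2, c 3))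
    (fun p => ![p.1, p.2.1, p.2.2.1, p.2.2.2]) ?_ ?_ ?_ ?_ ?_
  · intro c hc
    rw [Fintype.mem_piFinset] at hc
    simp only [mem_product]
    exact ⟨hc 0, hc 1, hc 2, hc 3⟩
  · intro p hp
    simp only [mem_product] at hp
    rw [Fintype.mem_piFinset]
    intro j
    fin_cases j
    · exact hp.1
    · exact hp.2.1
    · exact hp.2.2.1
    · exact hp.2.2.2
  · intro c _
    funext j
    fin_cases j <;> rfl
  · intro p _
    rfl
  · intro c _
    congr 1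
    funext j
    fin_cases j <;> rfl

/-- the sum of the savings over all cells -/
theorem kth_sum (h6 : ClaimGpSum) (θ : ℝ) (g : ℕ) :
    ∑ c0 ∈ range (RR g), ∑ c1 ∈ range (RR g), ∑ c2 ∈ range (RR g), ∑ c3 ∈ range (RR g),
      kth θ ^ gp g ![c0, c1, c2, c3] =
      (RR g : ℝ) ^ 4 * (1 - (1 - |Real.cos (Real.pi * θ)|) / 2 ^ 44) ^ g := by
  rw [← pi_sum (RR g) (fun c => kth θ ^ gp g c), h6 g (kth θ) (kth_nonneg θ) (kth_le_one θ)]
  congr 2
  unfold kth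
  ring

/-- the sum over `n` of the savings -/
theorem sum_SB (h6 : ClaimGpSum) (h9 : ClaimDomA0) {N A H M P g a : ℕ} {θ : ℝ} {r : ℕ}
    (hpar : Par N A H M P g a) (hr : r < RR g ^ a) (hr2 : RR g ^ a ≤ r * RR g) :
    ∑ n ∈ Ioc P (2 * P), SB θ N A P g a n r ≤
      128 * P * (RR g : ℝ) ^ 3 * (1 - (1 - |Real.cos (Real.pi * θ)|) / 2 ^ 44) ^ g := by
  have hRn : 0 < RR g := RR_pos g
  have hR : (0 : ℝ) < RR g := by exact_mod_cast hRn
  have hδ : ∀ δ : ℕ, δ < 2 → ∑ n ∈ Ioc P (2 * P), ∑ c1 ∈ range (RR g), ∑ c2 ∈ range (RR g),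
      ∑ c3 ∈ range (RR g), kth θ ^ gp g
        ![cell (i0 N P g a) g (A / n * r + δ * 2 ^ (5 * i0 N P g a)), c1, c2, c3] ≤
      64 * P / RR g * ((RR g : ℝ) ^ 4 * (1 - (1 - |Real.cos (Real.pi * θ)|) / 2 ^ 44) ^ g) := by
    intro δ hδ
    rw [← kth_sum h6 θ g]
    exact dom_sum (Ioc P (2 * P))
      (fun n => cell (i0 N P g a) g (A / n * r + δ * 2 ^ (5 * i0 N P g a))) (RR g)
      (fun _ _ => cell_lt _ _ _)
      (fun c0 => ∑ c1 ∈ range (RR g), ∑ c2 ∈ range (RR g), ∑ c3 ∈ range (RR g),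
        kth θ ^ gp g ![c0, c1, c2, c3])
      (fun c0 => Finset.sum_nonneg (fun _ _ => Finset.sum_nonneg (fun _ _ => Finset.sum_nonneg
        (fun _ _ => pow_nonneg (kth_nonneg θ) _)))) _
      (fun c => h9 N A H M P g a r δ c hpar hr hr2 hδ)
  have e : ∀ n, SB θ N A P g a n r = ∑ c1 ∈ range (RR g), ∑ c2 ∈ range (RR g),
      ∑ c3 ∈ range (RR g), kth θ ^ gp g
        ![cell (i0 N P g a) g (A / n * r + 0 * 2 ^ (5 * i0 N P g a)), c1, c2, c3] +
      ∑ c1 ∈ range (RR g), ∑ c2 ∈ range (RR g), ∑ c3 ∈ range (RR g), kth θ ^ gp g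
        ![cell (i0 N P g a) g (A / n * r + 1 * 2 ^ (5 * i0 N P g a)), c1, c2, c3] := by
    intro n
    have eB : ∀ c1 c2 c3, BB θ N A P g a n r c1 c2 c3 = kth θ ^ gp g
        ![cell (i0 N P g a) g (A / n * r + 0 * 2 ^ (5 * i0 N P g a)), c1, c2, c3] +
        kth θ ^ gp g
        ![cell (i0 N P g a) g (A / n * r + 1 * 2 ^ (5 * i0 N P g a)), c1, c2, c3] := by
      intro c1 c2 c3
      unfold BB
      rw [Finset.sum_range_succ, Finset.sum_range_one]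
    unfold SB
    simp only [eB, Finset.sum_add_distrib]
  rw [Finset.sum_congr rfl (fun n _ => e n), Finset.sum_add_distrib]
  have h0 := hδ 0 (by norm_num)
  have h1 := hδ 1 (by norm_num)
  refine (add_le_add h0 h1).trans (le_of_eq ?_)
  field_simp
  ring

end Core

open _root_.Pool.Agent.Work.MP_8e4d29_nt.Core in
theorem claimCore (h0 : ClaimParF) (h1 : ClaimDiff3) (h2 : ClaimExc) (h3 : ClaimEval)
    (h4 : ClaimPieces) (h5 : ClaimCubeCell) (h6 : ClaimGpSum) (h7 : ClaimDom12)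
    (h8 : ClaimDom3) (h9 : ClaimDomA0) (h10 : ClaimBadN) : ClaimCore := by
  refine ⟨1061847573, ?_⟩
  intro N A H M P g a θ hpar hag
  have hF := h0 N A H M P g a hpar
  have hP := hpar.hP
  have hRn : 0 < RR g := RR_pos g
  have hR : (0 : ℝ) < RR g := by exact_mod_cast hRn
  have hLn : (0 : ℝ) ≤ Lm H P := Nat.cast_nonneg _
  have hPn : (0 : ℝ) ≤ P := Nat.cast_nonneg _
  obtain ⟨B, hB1, hB2, hB3⟩ := h10 N A H M P g a hpar hag
  set x : ℝ := 1 - (1 - |Real.cos (Real.pi * θ)|) / 2 ^ 44 with hx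
  have hx0 : 0 ≤ x := by
    have := abs_nonneg (Real.cos (Real.pi * θ))
    rw [hx]
    have h : (1 - |Real.cos (Real.pi * θ)|) / 2 ^ 44 ≤ 1 := by
      rw [div_le_one (by positivity)]
      have : (1 : ℝ) ≤ 2 ^ 44 := by norm_num
      linarith
    linarith
  have hxg : 0 ≤ x ^ g := pow_nonneg hx0 g
  set y : ℝ := 1 / 2 ^ (5 * g) with hy
  have hy0 : 0 ≤ y := by positivity
  have hRy : 1 / (RR g : ℝ) ≤ y := by
    rw [hy]
    apply one_div_le_one_div_of_le (by positivity)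
    unfold RR
    push_cast
    exact pow_le_pow_right₀ (by norm_num) (by omega)
  set W : ℝ := P * (Lm H P : ℝ) ^ 8 with hW
  have hW0 : 0 ≤ W := by positivity
  have hHL : (H : ℝ) ≤ P * Lm H P := by exact_mod_cast hF.fLm1
  have htriv : ∀ r, ∀ n ∈ Ioc P (2 * P),
      ‖∑ m ∈ Ioc M (2 * M), phi θ A H M n r m‖ ^ 8 ≤ (Lm H P : ℝ) ^ 8 := by
    intro r n hn
    exact pow_le_pow_left₀ (norm_nonneg _) (norm_sum_phi_le hP (mem_Ioc.mp hn).1) 8
  have hcardI : ((Ioc P (2 * P)).card : ℝ) = P := by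
    rw [Nat.card_Ioc]
    congr 1
    omega
  -- bound for one r
  have hr_bound : ∀ r ∈ Ico 1 (RR g ^ a),
      ∑ n ∈ Ioc P (2 * P), ‖∑ m ∈ Ioc M (2 * M), phi θ A H M n r m‖ ^ 8 ≤
        (if r * RR g < RR g ^ a then W else 0) + 1061847572 * W * (y + x ^ g) := by
    intro r hr
    have hr1 := (mem_Ico.mp hr).2
    have hKW : 0 ≤ 1061847572 * W * (y + x ^ g) := by positivity
    split_ifs with hc
    · have h : ∑ n ∈ Ioc P (2 * P), ‖∑ m ∈ Ioc M (2 * M), phi θ A H M n r m‖ ^ 8 ≤ W := by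
        calc ∑ n ∈ Ioc P (2 * P), ‖∑ m ∈ Ioc M (2 * M), phi θ A H M n r m‖ ^ 8
            ≤ ∑ _n ∈ Ioc P (2 * P), (Lm H P : ℝ) ^ 8 := Finset.sum_le_sum (htriv r)
          _ = W := by rw [Finset.sum_const, nsmul_eq_mul, hcardI]
      linarith
    · rw [zero_add]
      have hr2 : RR g ^ a ≤ r * RR g := not_lt.mp hc
      -- pointwise
      have hpt : ∀ n ∈ Ioc P (2 * P), ‖∑ m ∈ Ioc M (2 * M), phi θ A H M n r m‖ ^ 8 ≤
          (if n ∈ B then (Lm H P : ℝ) ^ 8 else 0) +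
          128 * (Lm H P : ℝ) ^ 7 * (Lm H P * (64800 / (RR g : ℝ) ^ 3 * SB θ N A P g a n r) +
            (4 * Lm H P / RR g + 32 * (exn A H M P g a n + exn A H M P g a (n + r)))) := by
        intro n hn
        have hnn : 0 ≤ 128 * (Lm H P : ℝ) ^ 7 * (Lm H P * (64800 / (RR g : ℝ) ^ 3 *
            SB θ N A P g a n r) + (4 * Lm H P / RR g +
            32 * (exn A H M P g a n + exn A H M P g a (n + r)))) := by
          have := SB_nonneg θ N A P g a n r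
          positivity
        split_ifs with hb
        · have := htriv r n hn
          linarith
        · rw [zero_add]
          exact good_bound h1 h3 h4 h5 h7 h8 hpar hF (hB2 n hn hb) (mem_Ioc.mp hn).1
            (mem_Ioc.mp hn).2 hr1
      have hsum1 : ∑ n ∈ Ioc P (2 * P), (if n ∈ B then (Lm H P : ℝ) ^ 8 else 0) ≤
          20 * W * y := by
        rw [← Finset.sum_filter, Finset.sum_const, nsmul_eq_mul]
        have hsub : (((Ioc P (2 * P)).filter (fun n => n ∈ B)).card : ℝ) ≤ 20 * P / RR g := by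
          refine le_trans ?_ hB3
          exact_mod_cast card_le_card (fun n hn => (mem_filter.mp hn).2)
        have h : (20 : ℝ) * P / RR g ≤ 20 * P * y := by
          rw [div_eq_mul_one_div]
          exact mul_le_mul_of_nonneg_left hRy (by positivity)
        calc _ ≤ 20 * P * y * (Lm H P : ℝ) ^ 8 :=
              mul_le_mul_of_nonneg_right (hsub.trans h) (by positivity)
          _ = 20 * W * y := by rw [hW]; ring
      have hSB := sum_SB h6 h9 (θ := θ) hpar hr1 hr2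
      rw [← hx] at hSB
      have hexr : ∑ n ∈ Ioc P (2 * P), (exn A H M P g a (n + r) : ℝ) ≤ 20 * H * y := by
        have h := h2 N A H M P g a r hpar hr1
        push_cast at h
        rw [hy]
        calc _ ≤ _ := h
          _ = _ := by ring
      have hex0 : ∑ n ∈ Ioc P (2 * P), (exn A H M P g a n : ℝ) ≤ 20 * H * y := by
        have h := h2 N A H M P g a 0 hpar (by positivity)
        push_cast at h
        rw [hy]
        calc _ ≤ _ := h
          _ = _ := by ring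
      have hsum2 : ∑ n ∈ Ioc P (2 * P), 128 * (Lm H P : ℝ) ^ 7 *
          (Lm H P * (64800 / (RR g : ℝ) ^ 3 * SB θ N A P g a n r) +
            (4 * Lm H P / RR g + 32 * (exn A H M P g a n + exn A H M P g a (n + r)))) =
          128 * (Lm H P : ℝ) ^ 7 * (Lm H P * (64800 / (RR g : ℝ) ^ 3 *
            ∑ n ∈ Ioc P (2 * P), SB θ N A P g a n r) +
            (P * (4 * Lm H P / RR g) + 32 * (∑ n ∈ Ioc P (2 * P), (exn A H M P g a n : ℝ) +
              ∑ n ∈ Ioc P (2 * P), (exn A H M P g a (n + r) : ℝ)))) := by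
        rw [← Finset.mul_sum, Finset.sum_add_distrib, ← Finset.mul_sum, ← Finset.mul_sum,
          Finset.sum_add_distrib, Finset.sum_const, nsmul_eq_mul, hcardI, ← Finset.mul_sum,
          Finset.sum_add_distrib]
      have t1 : 64800 / (RR g : ℝ) ^ 3 * ∑ n ∈ Ioc P (2 * P), SB θ N A P g a n r ≤
          8294400 * P * x ^ g := by
        calc 64800 / (RR g : ℝ) ^ 3 * ∑ n ∈ Ioc P (2 * P), SB θ N A P g a n r
            ≤ 64800 / (RR g : ℝ) ^ 3 * (128 * P * (RR g : ℝ) ^ 3 * x ^ g) :=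
              mul_le_mul_of_nonneg_left hSB (by positivity)
          _ = 8294400 * P * x ^ g := by field_simp; ring
      have t2 : (P : ℝ) * (4 * Lm H P / RR g) ≤ 4 * P * Lm H P * y := by
        calc (P : ℝ) * (4 * Lm H P / RR g) = 4 * P * Lm H P * (1 / RR g) := by ring
          _ ≤ 4 * P * Lm H P * y := mul_le_mul_of_nonneg_left hRy (by positivity)
      have t3 : 32 * (∑ n ∈ Ioc P (2 * P), (exn A H M P g a n : ℝ) +
              ∑ n ∈ Ioc P (2 * P), (exn A H M P g a (n + r) : ℝ)) ≤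
          1280 * (P * Lm H P) * y := by
        have h : 20 * (H : ℝ) * y ≤ 20 * (P * Lm H P) * y := by
          apply mul_le_mul_of_nonneg_right _ hy0
          linarith
        linarith
      calc ∑ n ∈ Ioc P (2 * P), ‖∑ m ∈ Ioc M (2 * M), phi θ A H M n r m‖ ^ 8
          ≤ ∑ n ∈ Ioc P (2 * P), ((if n ∈ B then (Lm H P : ℝ) ^ 8 else 0) +
            128 * (Lm H P : ℝ) ^ 7 * (Lm H P * (64800 / (RR g : ℝ) ^ 3 * SB θ N A P g a n r) +
            (4 * Lm H P / RR g + 32 * (exn A H M P g a n + exn A H M P g a (n + r))))) :=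
            Finset.sum_le_sum hpt
        _ ≤ 20 * W * y + 128 * (Lm H P : ℝ) ^ 7 * (Lm H P * (8294400 * P * x ^ g) +
            (4 * P * Lm H P * y + 1280 * (P * Lm H P) * y)) := by
            rw [Finset.sum_add_distrib, hsum2]
            refine add_le_add hsum1 (mul_le_mul_of_nonneg_left ?_ (by positivity))
            refine add_le_add (mul_le_mul_of_nonneg_left t1 hLn) (add_le_add t2 t3)
        _ = 20 * W * y + 1061683200 * W * x ^ g + 164352 * W * y := by rw [hW]; ring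
        _ ≤ 1061847572 * W * (y + x ^ g) := by
            have e1 : 0 ≤ W * y := by positivity
            have e2 : 0 ≤ W * x ^ g := by positivity
            nlinarith
  -- sum over r
  have ha1 : 1 ≤ a := by rcases hpar.ha with h | h <;> omega
  have hcount : (((Ico 1 (RR g ^ a)).filter (fun r => r * RR g < RR g ^ a)).card : ℝ) ≤
      (RR g : ℝ) ^ a * y := by
    have hsub : (Ico 1 (RR g ^ a)).filter (fun r => r * RR g < RR g ^ a) ⊆
        range (RR g ^ (a - 1)) := by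
      intro r hr
      have h := (mem_filter.mp hr).2
      rw [mem_range]
      have e : RR g ^ a = RR g ^ (a - 1) * RR g := by
        rw [← pow_succ]
        congr 1
        omega
      rw [e] at h
      exact Nat.lt_of_mul_lt_mul_right h
    have h1 := card_le_card hsub
    rw [card_range] at h1
    have h2 : (((Ico 1 (RR g ^ a)).filter (fun r => r * RR g < RR g ^ a)).card : ℝ) ≤
        (RR g : ℝ) ^ (a - 1) := by exact_mod_cast h1
    refine h2.trans ?_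
    have e : (RR g : ℝ) ^ a = (RR g : ℝ) ^ (a - 1) * RR g := by
      rw [← pow_succ]
      congr 1
      omega
    rw [e, mul_assoc]
    have h3 : (1 : ℝ) ≤ RR g * y := by
      have := mul_le_mul_of_nonneg_left hRy hR.le
      rwa [mul_one_div_cancel hR.ne'] at this
    exact le_mul_of_one_le_right (by positivity) h3
  have hcardr : ((Ico 1 (RR g ^ a)).card : ℝ) ≤ (RR g : ℝ) ^ a := by
    have h : (Ico 1 (RR g ^ a)).card ≤ RR g ^ a := by
      rw [Nat.card_Ico]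
      omega
    exact_mod_cast h
  calc ∑ r ∈ Ico 1 (RR g ^ a), ∑ n ∈ Ioc P (2 * P),
        ‖∑ m ∈ Ioc M (2 * M), phi θ A H M n r m‖ ^ 8
      ≤ ∑ r ∈ Ico 1 (RR g ^ a), ((if r * RR g < RR g ^ a then W else 0) +
          1061847572 * W * (y + x ^ g)) := Finset.sum_le_sum hr_bound
    _ = (((Ico 1 (RR g ^ a)).filter (fun r => r * RR g < RR g ^ a)).card : ℝ) * W +
          ((Ico 1 (RR g ^ a)).card : ℝ) * (1061847572 * W * (y + x ^ g)) := by
        rw [Finset.sum_add_distrib, ← Finset.sum_filter, Finset.sum_const, Finset.sum_const,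
          nsmul_eq_mul, nsmul_eq_mul]
    _ ≤ (RR g : ℝ) ^ a * y * W + (RR g : ℝ) ^ a * (1061847572 * W * (y + x ^ g)) :=
        add_le_add (mul_le_mul_of_nonneg_right hcount hW0)
          (mul_le_mul_of_nonneg_right hcardr (by positivity))
    _ ≤ 1061847573 * (RR g : ℝ) ^ a * P * (Lm H P : ℝ) ^ 8 * (y + x ^ g) := by
        have e1 : 0 ≤ (RR g : ℝ) ^ a * W * x ^ g := by positivity
        have e2 : 1061847573 * (RR g : ℝ) ^ a * P * (Lm H P : ℝ) ^ 8 * (y + x ^ g) =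
            1061847573 * ((RR g : ℝ) ^ a * W * y) + 1061847573 * ((RR g : ℝ) ^ a * W * x ^ g) := by
          rw [hW]; ring
        have e3 : (RR g : ℝ) ^ a * y * W + (RR g : ℝ) ^ a * (1061847572 * W * (y + x ^ g)) =
            1061847573 * ((RR g : ℝ) ^ a * W * y) + 1061847572 * ((RR g : ℝ) ^ a * W * x ^ g) := by
          ring
        rw [e2, e3]
        linarith

end Pool.Agent.Work.MP_8e4d29_nt

end

section

/-!
MP_8e4d29_nt: assembly of the minor arc estimate.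
-/

namespace Pool.Agent.Work.MP_8e4d29_nt

theorem all_core : ClaimCore :=
  claimCore claimParF (claimDiff3 claimVdC) (claimExc claimParF) (claimEval claimParF)
    (claimPieces claimParF claimEQ) (claimCubeCell claimCube) claimGpSum (claimDom12 claimFejer1)
    (claimDom3 claimParF claimFejer2) (claimDomA0 claimParF)
    (claimBadN claimParF claimW claimWcount)

theorem all_typeII : ClaimTypeII :=
  claimTypeII claimParF (claimStep1 claimVdC0 claimTau) claimTau claimAlpha all_core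

theorem all_minor : ClaimMinor :=
  claimMinor claimVaughan (claimTypeI claimVdC0 claimLine) all_typeII

end Pool.Agent.Work.MP_8e4d29_nt

end

section

/-!
MP_8e4d29_nt: assembly of the major arc evaluation.
-/

namespace Pool.Agent.Work.MP_8e4d29_nt

theorem all_exp : ClaimExp := claimExp claimVaughan claimSumGM claimSumGM2 claimTau

theorem all_avg (h0 : ClaimSizF) : ClaimAvg :=
  claimAvg h0 all_exp claimBT claimF2 claimF3 claimL12 claimL13 (claimMass claimLow2 claimLow3)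

theorem all_mid (h0 : ClaimSizF) : ClaimMid :=
  claimMid h0 (claimGoodBlocks h0) (claimWin h0 claimEQ (claimBlock claimF2 claimF3))

theorem all_major (h0 : ClaimSizF) : ClaimMajor :=
  claimMajor h0 (all_avg h0) claimBT (claimMom2 claimBT) (all_mid h0)

end Pool.Agent.Work.MP_8e4d29_nt

end
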